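import Pool.Agent.P.MP_28243e_an.Basic

/-! Maximal theorems: weak and strong bounds with thresholds, weighted `L^2` bounds. -/

namespace Pool.Agent.P.MP_28243e_an

open Set MeasureTheory Metric Filter Topology ENNReal
open scoped NNReal ContDiff RealInnerProductSpace Classical

namespace A2

section abstract

variable {α : Type} [MeasurableSpace α]

theorem two_pow_mul_rpow (l : ℝ≥0∞) {q : ℝ} (hq : 0 ≤ q) (j : ℕ) :
    (2 ^ (j + 1) * l) ^ q = 2 ^ q * (2 ^ j * l) ^ q := by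
  rw [pow_succ, mul_comm ((2 : ℝ≥0∞) ^ j) 2, mul_assoc, ENNReal.mul_rpow_of_nonneg _ _ hq]

theorem geom_fin (l c : ℝ≥0∞) {q : ℝ} (hq : 0 ≤ q) (hc1 : 1 ≤ c) (hc : c + 2 ^ q ≤ c * 2 ^ q)
    (N : ℕ) : ∑ j ∈ Finset.range (N + 1), (2 ^ j * l) ^ q ≤ c * (2 ^ N * l) ^ q := by
  induction N with
  | zero =>
    simp only [zero_add, Finset.range_one, Finset.sum_singleton]
    exact le_mul_of_one_le_left' hc1
  | succ N ih =>
    rw [Finset.sum_range_succ, two_pow_mul_rpow l hq N]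
    calc _ ≤ c * (2 ^ N * l) ^ q + 2 ^ q * (2 ^ N * l) ^ q := by gcongr
      _ = (c + 2 ^ q) * (2 ^ N * l) ^ q := by rw [add_mul]
      _ ≤ (c * 2 ^ q) * (2 ^ N * l) ^ q := by gcongr
      _ = _ := by rw [mul_assoc]

theorem exists_le_two_pow_mul {l a : ℝ≥0∞} (hl : l ≠ 0) (ha : a ≠ ⊤) :
    ∃ j : ℕ, a ≤ 2 ^ j * l := by
  by_cases hlt : l = ⊤
  · exact ⟨0, by simp [hlt]⟩
  obtain ⟨j, hj⟩ := ENNReal.exists_nat_gt (ENNReal.div_ne_top ha hl)
  refine ⟨j, ?_⟩
  have h1 : a ≤ j * l := by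
    have := hj.le
    rwa [ENNReal.div_le_iff hl hlt] at this
  refine h1.trans ?_
  gcongr
  exact_mod_cast (Nat.lt_two_pow_self (n := j)).le

theorem geom_tsum {l a c : ℝ≥0∞} {q : ℝ} (hq : 0 < q) (hl : l ≠ 0) (hc1 : 1 ≤ c)
    (hc : c + 2 ^ q ≤ c * 2 ^ q) :
    ∑' j : ℕ, (if 2 ^ j * l < a then (2 ^ j * l) ^ q else 0) ≤ c * a ^ q := by
  by_cases ha : a = ⊤
  · subst ha
    rw [ENNReal.top_rpow_of_pos hq, ENNReal.mul_top (by
      intro h; rw [h] at hc1; simp at hc1)]
    exact le_top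
  have hex := exists_le_two_pow_mul hl ha
  set N := Nat.find hex with hN
  have hNs : a ≤ 2 ^ N * l := Nat.find_spec hex
  rw [tsum_eq_sum (s := Finset.range N) (by
    intro j hj
    rw [if_neg]
    rw [Finset.mem_range, not_lt] at hj
    refine not_lt.2 (hNs.trans ?_)
    gcongr
    exact one_le_two)]
  rcases Nat.eq_zero_or_eq_succ_pred N with h0 | h0
  · rw [h0]; simp
  · have hlt : 2 ^ (N - 1) * l < a := by
      have := Nat.find_min hex (m := N - 1) (by omega)
      exact not_le.1 this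
    calc _ ≤ ∑ j ∈ Finset.range N, (2 ^ j * l) ^ q := by
          refine Finset.sum_le_sum fun j _ => ?_
          split_ifs
          · exact le_rfl
          · exact zero_le
      _ ≤ c * (2 ^ (N - 1) * l) ^ q := by
          have := geom_fin l c hq.le hc1 hc (N - 1)
          rwa [show N - 1 + 1 = N by omega] at this
      _ ≤ c * a ^ q := by gcongr

theorem rpow_le_tsum {l a : ℝ≥0∞} {p : ℝ} (hp : 0 < p) (hl : l ≠ 0) (h : l < a) :
    a ^ p ≤ ∑' j : ℕ, (if 2 ^ j * l < a then (2 ^ (j + 1) * l) ^ p else 0) := by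
  by_cases ha : a = ⊤
  · subst ha
    have hlt : l ≠ ⊤ := h.ne
    have h1 : ∀ j : ℕ, l ^ p ≤ (if 2 ^ j * l < ⊤ then (2 ^ (j + 1) * l) ^ p else 0) := by
      intro j
      rw [if_pos (ENNReal.mul_lt_top (ENNReal.pow_lt_top (by simp)) hlt.lt_top)]
      gcongr
      exact le_mul_of_one_le_left' (one_le_pow₀ one_le_two)
    refine le_trans ?_ (ENNReal.tsum_le_tsum h1)
    rw [ENNReal.tsum_const_eq_top_of_ne_zero (by
      intro h0
      rw [ENNReal.rpow_eq_zero_iff] at h0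
      rcases h0 with ⟨h0, _⟩ | ⟨h0, _⟩
      · exact hl h0
      · exact hlt h0)]
    exact le_top
  have hex := exists_le_two_pow_mul hl ha
  set N := Nat.find hex with hN
  have hNs : a ≤ 2 ^ N * l := Nat.find_spec hex
  have hN0 : N ≠ 0 := by
    intro h0
    rw [h0] at hNs
    simp only [pow_zero, one_mul] at hNs
    exact absurd h (not_lt.2 hNs)
  have hlt : 2 ^ (N - 1) * l < a := not_le.1 (Nat.find_min hex (m := N - 1) (by omega))
  refine le_trans ?_ (ENNReal.le_tsum (N - 1))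
  rw [if_pos hlt, show N - 1 + 1 = N by omega]
  gcongr

theorem strong_pos (μ : Measure α) {F f : α → ℝ≥0∞} (hF : Measurable F) (hf : Measurable f)
    {A c : ℝ≥0∞} {p : ℝ} (hp : 1 < p) (hc1 : 1 ≤ c) (hc : c + 2 ^ (p - 1) ≤ c * 2 ^ (p - 1))
    (hw : ∀ t, t * μ {x | t < F x} ≤ A * ∫⁻ x in {x | t < 2 * f x}, f x ∂μ)
    {l : ℝ≥0∞} (hl : l ≠ 0) :
    ∫⁻ x in {x | l < F x}, F x ^ p ∂μ ≤
      2 ^ p * 2 ^ (p - 1) * c * A * ∫⁻ x in {x | l < 2 * f x}, f x ^ p ∂μ := by
  have hq : 0 < p - 1 := by linarith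
  have hp0 : 0 < p := by linarith
  have mF : ∀ t : ℝ≥0∞, MeasurableSet {x | t < F x} := fun t =>
    measurableSet_lt measurable_const hF
  have mf : ∀ t : ℝ≥0∞, MeasurableSet {x | t < 2 * f x} := fun t =>
    measurableSet_lt measurable_const (hf.const_mul 2)
  have hsplit : ∀ t : ℝ≥0∞, t ^ p = t ^ (p - 1) * t := by
    intro t
    conv_lhs => rw [show p = (p - 1) + 1 by ring]
    rw [ENNReal.rpow_add_of_nonneg _ _ hq.le zero_le_one, ENNReal.rpow_one]
  calc ∫⁻ x in {x | l < F x}, F x ^ p ∂μ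
      ≤ ∫⁻ x in {x | l < F x}, ∑' j : ℕ,
          {x | 2 ^ j * l < F x}.indicator (fun _ => (2 ^ (j + 1) * l) ^ p) x ∂μ := by
        refine setLIntegral_mono' (mF l) fun x hx => ?_
        refine (rpow_le_tsum hp0 hl hx).trans (le_of_eq ?_)
        refine tsum_congr fun j => ?_
        simp only [indicator, mem_ofPred_eq]
    _ ≤ ∫⁻ x, ∑' j : ℕ,
          {x | 2 ^ j * l < F x}.indicator (fun _ => (2 ^ (j + 1) * l) ^ p) x ∂μ :=
        setLIntegral_le_lintegral _ _
    _ = ∑' j : ℕ, (2 ^ (j + 1) * l) ^ p * μ {x | 2 ^ j * l < F x} := by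
        rw [lintegral_tsum fun j => (measurable_const.indicator (mF _)).aemeasurable]
        refine tsum_congr fun j => ?_
        rw [lintegral_indicator_const (mF _)]
    _ ≤ ∑' j : ℕ, 2 ^ p * A * ∫⁻ x,
          {x | 2 ^ j * l < 2 * f x}.indicator (fun x => (2 ^ j * l) ^ (p - 1) * f x) x ∂μ := by
        refine ENNReal.tsum_le_tsum fun j => ?_
        rw [two_pow_mul_rpow l hp0.le, hsplit (2 ^ j * l), lintegral_indicator (mf _),
          lintegral_const_mul _ hf]
        calc _ = 2 ^ p * (2 ^ j * l) ^ (p - 1) * ((2 ^ j * l) * μ {x | 2 ^ j * l < F x}) := by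
              ring
          _ ≤ 2 ^ p * (2 ^ j * l) ^ (p - 1) *
                (A * ∫⁻ x in {x | 2 ^ j * l < 2 * f x}, f x ∂μ) :=
              mul_le_mul_right (hw _) _
          _ = _ := by ring
    _ = 2 ^ p * A * ∫⁻ x, ∑' j : ℕ,
          {x | 2 ^ j * l < 2 * f x}.indicator (fun x => (2 ^ j * l) ^ (p - 1) * f x) x ∂μ := by
        rw [ENNReal.tsum_mul_left,
          lintegral_tsum fun j => ((hf.const_mul _).indicator (mf _)).aemeasurable]
    _ ≤ 2 ^ p * A * ∫⁻ x,
          {x | l < 2 * f x}.indicator (fun x => 2 ^ (p - 1) * c * f x ^ p) x ∂μ := by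
        gcongr with x
        by_cases hx : l < 2 * f x
        · rw [indicator_of_mem (by exact hx)]
          calc _ = (∑' j : ℕ, (if 2 ^ j * l < 2 * f x then (2 ^ j * l) ^ (p - 1) else 0)) * f x := by
                rw [← ENNReal.tsum_mul_right]
                refine tsum_congr fun j => ?_
                simp only [indicator, mem_ofPred_eq]
                split_ifs <;> simp
            _ ≤ c * (2 * f x) ^ (p - 1) * f x := by
                gcongr
                exact geom_tsum hq hl hc1 hc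
            _ = _ := by
                rw [ENNReal.mul_rpow_of_nonneg _ _ hq.le, hsplit (f x)]
                ring
        · refine le_trans (le_of_eq ?_) zero_le
          rw [ENNReal.tsum_eq_zero]
          intro j
          rw [indicator_of_notMem]
          intro hj
          apply hx
          refine lt_of_le_of_lt ?_ hj
          exact le_mul_of_one_le_left' (one_le_pow₀ one_le_two)
    _ = _ := by
        rw [lintegral_indicator (mf _), lintegral_const_mul _ (hf.pow_const p)]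
        ring

theorem strong (μ : Measure α) {F f : α → ℝ≥0∞} (hF : Measurable F) (hf : Measurable f)
    {A c : ℝ≥0∞} {p : ℝ} (hp : 1 < p) (hc1 : 1 ≤ c) (hc : c + 2 ^ (p - 1) ≤ c * 2 ^ (p - 1))
    (hw : ∀ t, t * μ {x | t < F x} ≤ A * ∫⁻ x in {x | t < 2 * f x}, f x ∂μ) (l : ℝ≥0∞) :
    ∫⁻ x in {x | l < F x}, F x ^ p ∂μ ≤
      2 ^ p * 2 ^ (p - 1) * c * A * ∫⁻ x in {x | l < 2 * f x}, f x ^ p ∂μ := by
  by_cases hl : l = 0
  swap
  · exact strong_pos μ hF hf hp hc1 hc hw hl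
  subst hl
  have hU : {x | 0 < F x} = ⋃ k : ℕ, {x | ((k : ℝ≥0∞) + 1)⁻¹ < F x} := by
    ext x
    simp only [mem_ofPred_eq, mem_iUnion]
    constructor
    · intro h
      obtain ⟨k, hk⟩ := ENNReal.exists_inv_nat_lt h.ne'
      refine ⟨k, lt_of_le_of_lt ?_ hk⟩
      exact ENNReal.inv_le_inv.2 le_self_add
    · rintro ⟨k, hk⟩
      exact lt_of_le_of_lt zero_le hk
  rw [hU, setLIntegral_iUnion_of_directed]
  · refine iSup_le fun k => ?_
    refine (strong_pos μ hF hf hp hc1 hc hw (by simp)).trans ?_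
    refine mul_le_mul_right (lintegral_mono_set fun x hx => ?_) _
    exact lt_of_le_of_lt zero_le (show _ < 2 * f x from hx)
  · refine Monotone.directed_le fun a b hab x hx => ?_
    refine lt_of_le_of_lt ?_ (show _ < F x from hx)
    exact ENNReal.inv_le_inv.2 (by gcongr)

/-- A constant for the geometric series, uniform in the exponent. -/
theorem exists_geom {q₀ : ℝ} (h : 0 < q₀) :
    ∃ c : ℝ≥0, (1 : ℝ≥0∞) ≤ c ∧ ∀ q : ℝ, q₀ ≤ q → (c : ℝ≥0∞) + 2 ^ q ≤ c * 2 ^ q := by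
  have h1 : (1 : ℝ) < 2 ^ q₀ := Real.one_lt_rpow one_lt_two h
  have h2 : (0 : ℝ) < 2 ^ q₀ - 1 := by linarith
  obtain ⟨c, hc⟩ : ∃ c : ℝ≥0, (c : ℝ) = 1 + 1 / (2 ^ q₀ - 1) :=
    ⟨Real.toNNReal (1 + 1 / (2 ^ q₀ - 1)), Real.coe_toNNReal _ (by positivity)⟩
  refine ⟨c, ?_, fun q hq => ?_⟩
  · rw [← ENNReal.coe_one, ENNReal.coe_le_coe, ← NNReal.coe_le_coe]
    simp only [NNReal.coe_one, hc, le_add_iff_nonneg_right]
    positivity
  · have h3 : (2 : ℝ) ^ q₀ ≤ 2 ^ q := Real.rpow_le_rpow_of_exponent_le one_le_two hq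
    have e : (2 : ℝ≥0∞) ^ q = (((2 : ℝ≥0) ^ q : ℝ≥0) : ℝ≥0∞) := by
      rw [ENNReal.coe_rpow_of_ne_zero two_ne_zero]; rfl
    rw [e, ← ENNReal.coe_add, ← ENNReal.coe_mul, ENNReal.coe_le_coe, ← NNReal.coe_le_coe]
    simp only [NNReal.coe_add, hc, NNReal.coe_mul, NNReal.coe_rpow, NNReal.coe_ofNat]
    set a := (2 : ℝ) ^ q₀
    set b := (2 : ℝ) ^ q
    have h4 : 1 / (a - 1) * (a - 1) = 1 := by field_simp
    have h5 : 0 < 1 / (a - 1) := by positivity
    nlinarith [mul_le_mul_of_nonneg_left h3 h5.le]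

end abstract

variable {n : ℕ}

/-- Centred maximal function with respect to a measure. -/
noncomputable def mm (μ : Measure (E n)) (f : E n → ℝ≥0∞) (x : E n) : ℝ≥0∞ :=
  ⨆ (r : ℝ) (_ : 0 < r), (∫⁻ y in ball x r, f y ∂μ) / μ (ball x r)

theorem weak_plain (μ : Measure (E n)) {D : ℝ≥0∞}
    (hD : ∀ x r, 0 < r → μ (ball x (5 * r)) ≤ D * μ (ball x r))
    (f : E n → ℝ≥0∞) (t : ℝ≥0∞) : t * μ {x | t < mm μ f x} ≤ D * ∫⁻ x, f x ∂μ := by
  set S : ℕ → Set (E n) := fun R =>
    {x | ∃ r : ℝ, 0 < r ∧ r ≤ R ∧ t < (∫⁻ y in ball x r, f y ∂μ) / μ (ball x r)} with hS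
  have hU : {x | t < mm μ f x} = ⋃ R, S R := by
    ext x
    simp only [mm, mem_ofPred_eq, mem_iUnion, hS, lt_iSup_iff]
    constructor
    · rintro ⟨r, hr, h⟩
      obtain ⟨R, hR⟩ := exists_nat_ge r
      exact ⟨R, r, hr, hR, h⟩
    · rintro ⟨R, r, hr, _, h⟩
      exact ⟨r, hr, h⟩
  have hmono : Monotone S := by
    rintro a b hab x ⟨r, hr, h1, h⟩
    exact ⟨r, hr, h1.trans (by exact_mod_cast hab), h⟩
  rw [hU, hmono.measure_iUnion, ENNReal.mul_iSup]
  refine iSup_le fun R => ?_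
  have hch : ∀ x, ∃ r : ℝ, x ∈ S R →
      0 < r ∧ r ≤ R ∧ t < (∫⁻ y in ball x r, f y ∂μ) / μ (ball x r) := by
    intro x
    by_cases hx : x ∈ S R
    · obtain ⟨r, hr⟩ := hx
      exact ⟨r, fun _ => hr⟩
    · exact ⟨0, fun h => absurd h hx⟩
  choose ρ hρ using hch
  obtain ⟨u, hu, hdisj, hcov⟩ := Vitali.exists_disjoint_subfamily_covering_enlargement_ball
    (S R) (fun x => x) ρ R (fun a ha => (hρ a ha).2.1) 5 (by norm_num)
  have hc : u.Countable := hdisj.countable_of_isOpen (fun _ _ => isOpen_ball)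
    fun a ha => nonempty_ball.2 (hρ a (hu ha)).1
  have hsub : S R ⊆ ⋃ b ∈ u, ball b (5 * ρ b) := by
    intro a ha
    obtain ⟨b, hb, h⟩ := hcov a ha
    exact mem_biUnion hb (h (mem_ball_self (hρ a ha).1))
  calc t * μ (S R) ≤ t * ∑' b : u, μ (ball (b : E n) (5 * ρ b)) := by
        gcongr
        exact (measure_mono hsub).trans (measure_biUnion_le μ hc _)
    _ = ∑' b : u, t * μ (ball (b : E n) (5 * ρ b)) := ENNReal.tsum_mul_left.symm
    _ ≤ ∑' b : u, D * ∫⁻ y in ball (b : E n) (ρ b), f y ∂μ := by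
        refine ENNReal.tsum_le_tsum fun b => ?_
        obtain ⟨h1, _, h3⟩ := hρ b (hu b.2)
        calc _ ≤ t * (D * μ (ball (b : E n) (ρ b))) := by
              gcongr
              exact hD _ _ h1
          _ = D * (t * μ (ball (b : E n) (ρ b))) := by ring
          _ ≤ _ := by
              gcongr
              exact ENNReal.mul_le_of_le_div h3.le
    _ = D * ∫⁻ y in ⋃ b ∈ u, ball b (ρ b), f y ∂μ := by
        rw [ENNReal.tsum_mul_left, lintegral_biUnion hc (fun _ _ => measurableSet_ball) hdisj]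
    _ ≤ _ := mul_le_mul_right (setLIntegral_le_lintegral _ _) _

theorem weak_thr (μ : Measure (E n)) {D : ℝ≥0∞}
    (hD : ∀ x r, 0 < r → μ (ball x (5 * r)) ≤ D * μ (ball x r))
    {f : E n → ℝ≥0∞} (hf : Measurable f) (t : ℝ≥0∞) :
    t * μ {x | t < mm μ f x} ≤ 2 * D * ∫⁻ x in {x | t < 2 * f x}, f x ∂μ := by
  have mf : MeasurableSet {x | t < 2 * f x} := measurableSet_lt measurable_const (hf.const_mul 2)
  set g := {x | t < 2 * f x}.indicator f with hg
  have hsub : {x | t < mm μ f x} ⊆ {x | t / 2 < mm μ g x} := by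
    intro x hx
    simp only [mm, mem_ofPred_eq, lt_iSup_iff] at hx ⊢
    obtain ⟨r, hr, h⟩ := hx
    refine ⟨r, hr, ?_⟩
    by_contra hn
    rw [not_lt] at hn
    refine absurd h (not_lt.2 ?_)
    have h1 : ∫⁻ y in ball x r, f y ∂μ ≤ t / 2 * μ (ball x r) + ∫⁻ y in ball x r, g y ∂μ := by
      rw [← setLIntegral_const, ← lintegral_add_left measurable_const]
      refine lintegral_mono fun y => ?_
      by_cases hy : t < 2 * f y
      · rw [hg, indicator_of_mem (by exact hy)]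
        exact le_add_self
      · refine le_trans ?_ le_self_add
        rw [ENNReal.le_div_iff_mul_le (by simp) (by simp), mul_comm]
        exact not_lt.1 hy
    calc _ ≤ (t / 2 * μ (ball x r) + ∫⁻ y in ball x r, g y ∂μ) / μ (ball x r) := by gcongr
      _ = t / 2 * μ (ball x r) / μ (ball x r) + (∫⁻ y in ball x r, g y ∂μ) / μ (ball x r) :=
        ENNReal.add_div
      _ ≤ t / 2 + t / 2 := add_le_add (ENNReal.div_le_of_le_mul le_rfl) hn
      _ = t := ENNReal.add_halves t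
  calc t * μ {x | t < mm μ f x} ≤ t * μ {x | t / 2 < mm μ g x} := by gcongr
    _ = 2 * (t / 2 * μ {x | t / 2 < mm μ g x}) := by
        rw [← mul_assoc, ENNReal.mul_div_cancel (by simp) (by simp)]
    _ ≤ 2 * (D * ∫⁻ x, g x ∂μ) := mul_le_mul_right (weak_plain μ hD g _) _
    _ = _ := by rw [hg, lintegral_indicator mf, mul_assoc]

theorem vol_five (x : E n) {r : ℝ} (hr : 0 < r) :
    volume (ball x (5 * r)) = 5 ^ n * volume (ball x r) := by
  rw [vol_ball x hr, vol_ball x (by positivity), mul_pow,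
    show vb n * (5 ^ n * r ^ n) = 5 ^ n * (vb n * r ^ n) by ring,
    ENNReal.ofReal_mul (by positivity), ENNReal.ofReal_pow (by norm_num)]
  norm_num

theorem weak_vol {f : E n → ℝ≥0∞} (hf : Measurable f) (t : ℝ≥0∞) :
    t * volume {x | t < mx f x} ≤ 2 * 5 ^ n * ∫⁻ x in {x | t < 2 * f x}, f x :=
  weak_thr volume (fun x _ hr => (vol_five x hr).le) hf t

theorem strong_vol (n : ℕ) (p₀ p₁ : ℝ) (h : 1 < p₀) :
    ∃ C : ℝ≥0, ∀ p : ℝ, p₀ ≤ p → p ≤ p₁ → ∀ f : E n → ℝ≥0∞, Measurable f →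
    ∀ l : ℝ≥0∞, ∫⁻ x in {x | l < mx f x}, mx f x ^ p ≤
      C * ∫⁻ x in {x | l < 2 * f x}, f x ^ p := by
  obtain ⟨c, hc1, hc⟩ := exists_geom (q₀ := p₀ - 1) (by linarith)
  refine ⟨2 ^ p₁ * 2 ^ p₁ * c * (2 * 5 ^ n), fun p h0 h1 f hf l => ?_⟩
  refine (strong volume (measurable_mx hf) hf (by linarith) hc1 (hc _ (by linarith))
    (weak_vol hf) l).trans ?_
  have e : (((2 : ℝ≥0) ^ p₁ : ℝ≥0) : ℝ≥0∞) = (2 : ℝ≥0∞) ^ p₁ := by
    rw [ENNReal.coe_rpow_of_ne_zero two_ne_zero]; rfl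
  push_cast
  rw [e]
  gcongr
  · exact one_le_two
  · exact one_le_two
  · linarith

theorem thr_sub (hn : 3 ≤ n) (G : E n → ℝ≥0∞) (t : ℝ≥0∞) :
    {x | t ^ q1 n < 2 * G x ^ q1 n} ⊆ {x | t < 2 * G x} := by
  intro x hx
  by_contra h
  simp only [mem_ofPred_eq, not_lt] at hx h
  refine absurd hx (not_lt.2 ?_)
  have h1 := one_lt_q1 hn
  calc 2 * G x ^ q1 n ≤ 2 ^ q1 n * G x ^ q1 n := by
        gcongr
        exact ENNReal.le_rpow_self_of_one_le one_le_two h1.le
    _ = (2 * G x) ^ q1 n := (ENNReal.mul_rpow_of_nonneg _ _ (by linarith)).symm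
    _ ≤ t ^ q1 n := by gcongr

theorem set_mq (hn : 3 ≤ n) (G : E n → ℝ≥0∞) (t : ℝ≥0∞) :
    {x | t < mq G x} = {x | t ^ q1 n < mx (fun y => G y ^ q1 n) x} := by
  ext x
  simp only [mem_ofPred_eq]
  rw [← mq_rpow hn, ENNReal.rpow_lt_rpow_iff (q1_pos hn)]

/-- `L^2` bound for a function dominated by the maximal function of a doubling measure. -/
theorem l2_bound (μ : Measure (E n)) {D : ℝ≥0∞}
    (hD : ∀ x r, 0 < r → μ (ball x (5 * r)) ≤ D * μ (ball x r))
    {F f : E n → ℝ≥0∞} (hF : Measurable F) (hf : Measurable f) (h : ∀ x, F x ≤ mm μ f x) :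
    ∫⁻ x, F x ^ 2 ∂μ ≤ 32 * D * ∫⁻ x, f x ^ 2 ∂μ := by
  have hw : ∀ t, t * μ {x | t < F x} ≤ 2 * D * ∫⁻ x in {x | t < 2 * f x}, f x ∂μ := by
    intro t
    refine le_trans ?_ (weak_thr μ hD hf t)
    gcongr
    exact h _
  have h2 := strong μ hF hf (c := 2) (p := 2) one_lt_two one_le_two (by norm_num) hw 0
  have e : ∀ a : ℝ≥0∞, a ^ (2 : ℝ) = a ^ 2 := fun a => by
    rw [← ENNReal.rpow_natCast]; norm_num
  simp only [e] at h2
  calc ∫⁻ x, F x ^ 2 ∂μ = ∫⁻ x in {x | 0 < F x}, F x ^ 2 ∂μ := by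
        rw [← lintegral_indicator (measurableSet_lt measurable_const hF)]
        refine lintegral_congr fun x => ?_
        by_cases hx : 0 < F x
        · rw [indicator_of_mem (by exact hx)]
        · rw [indicator_of_notMem (by exact hx), le_antisymm (not_lt.1 hx) zero_le]
          simp
    _ ≤ _ := h2
    _ ≤ 2 ^ 2 * 2 ^ ((2 : ℝ) - 1) * 2 * (2 * D) * ∫⁻ x, f x ^ 2 ∂μ := by
        gcongr
        exact Measure.restrict_le_self
    _ = _ := by
        norm_num
        ring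

end A2

open A2

theorem stA2 : StA2 := by
  intro n hn
  refine ⟨⟨2 * 5 ^ n, fun f hf t => ?_⟩, strong_vol n, ?_⟩
  · push_cast
    exact weak_vol hf t
  have hq := q1_pos hn
  have hp₀ : 1 < ((n : ℝ) - 1 / 4) / q1 n := by
    rw [one_lt_div hq, q1]; linarith
  obtain ⟨C, hC⟩ := strong_vol n _ ((n : ℝ) / q1 n) hp₀
  refine ⟨2 * 5 ^ n + C, fun G hG t => ⟨?_, fun p h0 h1 => ?_⟩⟩
  · rw [set_mq hn]
    refine (weak_vol (hG.pow_const _) _).trans ?_
    push_cast
    exact mul_le_mul' le_self_add (lintegral_mono_set (thr_sub hn G t))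
  · have h2 := hC (p / q1 n) (by gcongr) (by gcongr) _ (hG.pow_const (q1 n)) (t ^ q1 n)
    have e1 : ∀ a : ℝ≥0∞, (a ^ q1 n) ^ (p / q1 n) = a ^ p := fun a => by
      rw [← ENNReal.rpow_mul, mul_div_cancel₀ _ hq.ne']
    simp only [e1, ← mq_rpow hn] at h2
    rw [set_mq hn]
    simp only [← mq_rpow hn]
    refine h2.trans ?_
    push_cast
    exact mul_le_mul' le_add_self (lintegral_mono_set (thr_sub hn G t))

theorem stA7 : StA7 := by
  intro n hn C₀
  refine ⟨32 * (5 ^ n * C₀) * C₀ ^ 2, fun W hW hA hpos hfin g hg => ?_⟩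
  set μ : Measure (E n) := volume.withDensity W with hμ
  have hball : ∀ x r, μ (ball x r) = ∫⁻ y in ball x r, W y := fun x r =>
    withDensity_apply _ measurableSet_ball
  have hWfin : ∀ᵐ x, W x < ⊤ := by
    have : ∀ k : ℕ, ∀ᵐ x, x ∈ ball (0 : E n) k → W x < ⊤ := fun k =>
      (ae_restrict_iff' measurableSet_ball).1 (ae_lt_top hW (hfin 0 k).ne)
    filter_upwards [ae_all_iff.2 this] with x hx
    obtain ⟨k, hk⟩ := exists_nat_gt ‖x‖
    exact hx k (by simpa using hk)
  have hμ0 : ∀ x r, 0 < r → μ (ball x r) ≠ 0 := by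
    intro x r hr h0
    rw [hball, lintegral_eq_zero_iff hW] at h0
    have h1 : ∀ᵐ y ∂(volume.restrict (ball x r)), False := by
      filter_upwards [h0] with y hy
      exact (hpos y).ne' hy
    rw [eventually_false_iff_eq_bot, ae_eq_bot, Measure.restrict_eq_zero] at h1
    exact vol_ball_pos x hr h1
  have hμt : ∀ x r, μ (ball x r) ≠ ⊤ := fun x r => by rw [hball]; exact (hfin x r).ne
  have hD : ∀ x r, 0 < r → μ (ball x (5 * r)) ≤ 5 ^ n * C₀ * μ (ball x r) := by
    intro x r hr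
    rw [hball, lint_ball_eq W x (by positivity), vol_five x hr, hball, mul_assoc, mul_assoc,
      ← lintegral_const_mul _ hW, mul_comm (volume _), ← setLIntegral_const]
    gcongr 5 ^ n * ?_
    refine setLIntegral_mono' measurableSet_ball fun z hz => ?_
    exact hA x (5 * r) (by positivity) z (ball_subset_ball (by linarith) hz)
  have hint : ∀ f : E n → ℝ≥0∞, Measurable f → ∫⁻ x, f x ∂μ = ∫⁻ x, W x * f x := fun f hf =>
    lintegral_withDensity_eq_lintegral_mul _ hW hf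
  have hsint : ∀ f : E n → ℝ≥0∞, Measurable f → ∀ x r,
      ∫⁻ y in ball x r, f y ∂μ = ∫⁻ y in ball x r, W y * f y := fun f hf x r =>
    setLIntegral_withDensity_eq_setLIntegral_mul _ hW hf measurableSet_ball
  constructor
  · have h1 : ∀ x, mx g x ≤ mm μ (fun y => C₀ * g y) x := by
      intro x
      refine iSup₂_le fun r hr => le_iSup₂_of_le r hr ?_
      rw [ENNReal.le_div_iff_mul_le (Or.inl (hμ0 x r hr)) (Or.inl (hμt x r)), hball,
        lint_ball_eq W x hr, ← mul_assoc, mul_comm (av g x r), ← lint_ball_eq g x hr,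
        hsint _ (hg.const_mul _), ← lintegral_mul_const _ hg]
      refine setLIntegral_mono' measurableSet_ball fun z hz => ?_
      calc g z * av W x r ≤ g z * (C₀ * W z) := by
            gcongr
            exact hA x r hr z hz
        _ = _ := by ring
    have h2 := l2_bound μ hD (measurable_mx hg) (hg.const_mul _) h1
    rw [hint _ ((measurable_mx hg).pow_const 2), hint _ ((hg.const_mul _).pow_const 2)] at h2
    refine h2.trans (le_of_eq ?_)
    push_cast
    rw [mul_assoc _ ((C₀ : ℝ≥0∞) ^ 2), ← lintegral_const_mul _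
      (show Measurable fun x => W x * g x ^ 2 from hW.mul (hg.pow_const 2))]
    congr 1
    refine lintegral_congr fun x => ?_
    ring
  · have hgW : Measurable fun y => g y / W y := hg.div hW
    have h1 : ∀ x, mx g x / W x ≤ mm μ (fun y => C₀ * (g y / W y)) x := by
      intro x
      refine ENNReal.div_le_of_le_mul (iSup₂_le fun r hr => ?_)
      have e1 : ∫⁻ y in ball x r, g y = ∫⁻ y in ball x r, g y / W y ∂μ := by
        rw [hsint _ hgW]
        refine lintegral_congr_ae (ae_restrict_of_ae ?_)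
        filter_upwards [hWfin] with y hy
        rw [ENNReal.mul_div_cancel (hpos y).ne' hy.ne]
      have e2 : av g x r = (∫⁻ y in ball x r, g y / W y ∂μ) / μ (ball x r) * av W x r := by
        rw [av, av, e1, ← hball, div_eq_mul_inv, div_eq_mul_inv, div_eq_mul_inv, mul_assoc,
          ← mul_assoc (μ (ball x r))⁻¹, ENNReal.inv_mul_cancel (hμ0 x r hr) (hμt x r), one_mul]
      rw [e2]
      calc _ ≤ (∫⁻ y in ball x r, g y / W y ∂μ) / μ (ball x r) * (C₀ * W x) := by
            gcongr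
            exact hA x r hr x (mem_ball_self hr)
        _ = (∫⁻ y in ball x r, C₀ * (g y / W y) ∂μ) / μ (ball x r) * W x := by
            rw [lintegral_const_mul _ hgW]
            simp only [div_eq_mul_inv]
            ring
        _ ≤ _ := by
            gcongr
            exact le_iSup₂_of_le (f := fun (r : ℝ) (_ : 0 < r) =>
              (∫⁻ y in ball x r, C₀ * (g y / W y) ∂μ) / μ (ball x r)) r hr le_rfl
    have hmW : Measurable fun y => mx g y / W y := (measurable_mx hg).div hW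
    have h2 := l2_bound μ hD hmW (hgW.const_mul _) h1
    rw [hint _ (hmW.pow_const 2), hint _ ((hgW.const_mul _).pow_const 2)] at h2
    have e : ∀ a w : ℝ≥0∞, w ≠ 0 → w ≠ ⊤ → w * (a / w) ^ 2 = a ^ 2 / w := by
      intro a w h0 ht
      rw [sq, ← mul_assoc, ENNReal.mul_div_cancel h0 ht, sq, mul_div_assoc]
    calc ∫⁻ x, mx g x ^ 2 / W x = ∫⁻ x, W x * (mx g x / W x) ^ 2 := by
          refine lintegral_congr_ae ?_
          filter_upwards [hWfin] with y hy
          rw [e _ _ (hpos y).ne' hy.ne]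
      _ ≤ _ := h2
      _ = _ := by
          push_cast
          rw [mul_assoc _ ((C₀ : ℝ≥0∞) ^ 2), ← lintegral_const_mul _
            (show Measurable fun x => g x ^ 2 / W x from (hg.pow_const 2).div hW)]
          congr 1
          refine lintegral_congr_ae ?_
          filter_upwards [hWfin] with y hy
          rw [← e _ _ (hpos y).ne' hy.ne]
          ring

end Pool.Agent.P.MP_28243e_an
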