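import Pool.Agent.P.MP_28243e_an.Basic

/-! Kolmogorov inequality and consequences of a weak `L^n` bound. -/

namespace Pool.Agent.P.MP_28243e_an

open Set MeasureTheory Metric Filter Topology ENNReal
open scoped NNReal

namespace A4

/-- The geometric sum with ratio `2^(-e)`. -/
noncomputable def geo (e : ℝ) : ℝ≥0∞ := (1 - (2 : ℝ≥0∞) ^ (-e))⁻¹

theorem geo_small {e : ℝ} (h0 : 0 < e) (h1 : e ≤ 1) : ENNReal.ofReal e * geo e ≤ 3 := by
  have hl : (1 : ℝ) / 2 ≤ Real.log 2 := by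
    have := Real.log_two_gt_d9
    linarith
  have h2 : 1 + e / 2 ≤ (2 : ℝ) ^ e := by
    rw [Real.rpow_def_of_pos (by norm_num)]
    have := Real.add_one_le_exp (Real.log 2 * e)
    nlinarith
  have h3 : (2 : ℝ) ^ (-e) ≤ 1 - e / 3 := by
    rw [Real.rpow_neg (by norm_num), inv_le_comm₀ (by positivity) (by linarith)]
    refine le_trans ?_ h2
    rw [inv_le_comm₀ (by linarith) (by linarith), inv_eq_one_div, div_le_iff₀ (by linarith)]
    nlinarith
  have h4 : (2 : ℝ≥0∞) ^ (-e) = ENNReal.ofReal ((2 : ℝ) ^ (-e)) := by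
    rw [← ENNReal.ofReal_rpow_of_pos (by norm_num)]; simp
  have h5 : ENNReal.ofReal (e / 3) ≤ 1 - (2 : ℝ≥0∞) ^ (-e) := by
    rw [h4, ← ENNReal.ofReal_one, ← ENNReal.ofReal_sub _ (by positivity)]
    exact ENNReal.ofReal_le_ofReal (by linarith)
  calc ENNReal.ofReal e * geo e ≤ ENNReal.ofReal e * (ENNReal.ofReal (e / 3))⁻¹ := by
        unfold geo; gcongr
    _ = ENNReal.ofReal (e * (e / 3)⁻¹) := by
        rw [ENNReal.ofReal_mul h0.le, ENNReal.ofReal_inv_of_pos (by positivity)]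
    _ = 3 := by
        rw [show e * (e / 3)⁻¹ = 3 by field_simp]; simp

theorem geo_anti {e e' : ℝ} (h : e ≤ e') : geo e' ≤ geo e := by
  unfold geo
  rw [ENNReal.inv_le_inv]
  refine tsub_le_tsub_left ?_ _
  exact ENNReal.rpow_le_rpow_of_exponent_le (by norm_num) (by linarith)

theorem geo_le {e : ℝ} (h : 1 / 2 ≤ e) : geo e ≤ 6 := by
  refine (geo_anti h).trans ?_
  have h1 := geo_small (e := 1 / 2) (by norm_num) (by norm_num)
  have h2 : ENNReal.ofReal (1 / 2) = (2 : ℝ≥0∞)⁻¹ := by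
    rw [one_div, ENNReal.ofReal_inv_of_pos (by norm_num)]; simp
  rw [h2] at h1
  calc geo (1 / 2) = 2 * (2⁻¹ * geo (1 / 2)) := by
        rw [← mul_assoc, ENNReal.mul_inv_cancel (by norm_num) (by norm_num), one_mul]
    _ ≤ 2 * 3 := by gcongr
    _ = 6 := by norm_num

variable {α : Type} [MeasurableSpace α]

theorem pt_le {a s : ℝ≥0∞} (ha : a ≠ 0) (ha' : a ≠ ⊤) {p : ℝ} (hp : 0 < p) (h : a < s) :
    s ^ p ≤ ∑' k : ℕ, (if 2 ^ k * a < s then (2 ^ (k + 1) * a) ^ p else 0) := by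
  by_cases hs : s = ⊤
  · have : ∀ k : ℕ, a ^ p ≤ (if 2 ^ k * a < s then (2 ^ (k + 1) * a) ^ p else 0) := fun k => by
      rw [if_pos]
      · refine ENNReal.rpow_le_rpow ?_ hp.le
        exact le_mul_of_one_le_left bot_le (one_le_pow₀ (by norm_num))
      · rw [hs]; exact ENNReal.mul_lt_top (ENNReal.pow_lt_top (by norm_num)) ha'.lt_top
    refine le_trans ?_ (ENNReal.tsum_le_tsum this)
    rw [ENNReal.tsum_const_eq_top_of_ne_zero (by simp [ha, ha'])]
    exact le_top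
  · have hex : ∃ k : ℕ, s ≤ 2 ^ (k + 1) * a := by
      obtain ⟨k, hk⟩ := ENNReal.exists_nat_gt (r := s / a) (ENNReal.div_ne_top hs ha)
      refine ⟨k, ?_⟩
      have h1 : s ≤ k * a := by
        rw [← ENNReal.div_le_iff ha ha']; exact hk.le
      refine h1.trans ?_
      gcongr
      have : k ≤ 2 ^ (k + 1) := by
        have := Nat.lt_two_pow_self (n := k)
        omega
      exact_mod_cast this
    classical
    have h1 := Nat.find_spec hex
    have h2 : 2 ^ Nat.find hex * a < s := by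
      rcases hk : Nat.find hex with _ | k
      · simpa using h
      · exact not_le.1 (Nat.find_min hex (by omega))
    refine le_trans ?_ (ENNReal.le_tsum (Nat.find hex))
    rw [if_pos h2]
    exact ENNReal.rpow_le_rpow h1 hp.le

/-- The tail of a power of a function with a weak bound. -/
theorem tail (μ : Measure α) {f : α → ℝ≥0∞} (hf : Measurable f) {p e : ℝ} (hp : 0 < p)
    (he : 0 < e) {B : ℝ≥0∞} (h : ∀ t : ℝ≥0∞, t ^ (p + e) * μ {x | t < f x} ≤ B) (a : ℝ≥0∞) :
    a ^ e * ∫⁻ x in {x | a < f x}, f x ^ p ∂μ ≤ 2 ^ p * geo e * B := by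
  by_cases ha : a = 0
  · simp [ha, he]
  by_cases ha' : a = ⊤
  · simp [ha']
  have hm : ∀ t : ℝ≥0∞, MeasurableSet {x | t < f x} := fun t =>
    measurableSet_lt measurable_const hf
  have h1 : ∫⁻ x in {x | a < f x}, f x ^ p ∂μ ≤
      ∑' k : ℕ, (2 ^ (k + 1) * a) ^ p * μ {x | 2 ^ k * a < f x} := by
    calc ∫⁻ x in {x | a < f x}, f x ^ p ∂μ
        ≤ ∫⁻ x in {x | a < f x}, ∑' k : ℕ,
            {x | 2 ^ k * a < f x}.indicator (fun _ => (2 ^ (k + 1) * a) ^ p) x ∂μ := by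
          refine setLIntegral_mono' (hm a) fun x hx => ?_
          refine (pt_le ha ha' hp hx).trans (le_of_eq ?_)
          refine tsum_congr fun k => ?_
          simp only [indicator, mem_ofPred_eq]
      _ ≤ ∫⁻ x, ∑' k : ℕ,
            {x | 2 ^ k * a < f x}.indicator (fun _ => (2 ^ (k + 1) * a) ^ p) x ∂μ :=
          setLIntegral_le_lintegral _ _
      _ = _ := by
          rw [lintegral_tsum fun k => (measurable_const.indicator (hm _)).aemeasurable]
          refine tsum_congr fun k => ?_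
          rw [lintegral_indicator_const (hm _)]
  calc a ^ e * ∫⁻ x in {x | a < f x}, f x ^ p ∂μ
      ≤ a ^ e * ∑' k : ℕ, (2 ^ (k + 1) * a) ^ p * μ {x | 2 ^ k * a < f x} := by gcongr
    _ = ∑' k : ℕ, 2 ^ p * ((2 : ℝ≥0∞) ^ (-e)) ^ k *
          ((2 ^ k * a) ^ (p + e) * μ {x | 2 ^ k * a < f x}) := by
        rw [← ENNReal.tsum_mul_left]
        refine tsum_congr fun k => ?_
        have k1 : ((2 : ℝ≥0∞) ^ (-e)) ^ k * ((2 : ℝ≥0∞) ^ k) ^ e = 1 := by
          rw [← ENNReal.rpow_natCast, ← ENNReal.rpow_natCast, ← ENNReal.rpow_mul,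
            ← ENNReal.rpow_mul, ← ENNReal.rpow_add _ _ (by norm_num) (by norm_num)]
          rw [show -e * k + k * e = 0 by ring, ENNReal.rpow_zero]
        rw [ENNReal.rpow_add_of_nonneg _ _ hp.le he.le, pow_succ', mul_assoc 2,
          ENNReal.mul_rpow_of_nonneg 2 _ hp.le, ENNReal.mul_rpow_of_nonneg _ a he.le]
        calc a ^ e * (2 ^ p * (2 ^ k * a) ^ p * μ {x | 2 ^ k * a < f x})
            = (((2 : ℝ≥0∞) ^ (-e)) ^ k * ((2 : ℝ≥0∞) ^ k) ^ e) *
              (a ^ e * (2 ^ p * (2 ^ k * a) ^ p * μ {x | 2 ^ k * a < f x})) := by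
              rw [k1, one_mul]
          _ = _ := by ring
    _ ≤ ∑' k : ℕ, 2 ^ p * ((2 : ℝ≥0∞) ^ (-e)) ^ k * B := by
        refine ENNReal.tsum_le_tsum fun k => ?_
        gcongr
        exact h _
    _ = 2 ^ p * geo e * B := by
        rw [ENNReal.tsum_mul_right, ENNReal.tsum_mul_left, ENNReal.tsum_geometric]
        rfl

/-- Kolmogorov's inequality. -/
theorem kol (μ : Measure α) {f : α → ℝ≥0∞} (hf : Measurable f) {p e : ℝ} (hp : 0 < p)
    (he : 0 < e) {b v : ℝ≥0∞} (h : ∀ t : ℝ≥0∞, t ^ (p + e) * μ {x | t < f x} ≤ b ^ (p + e))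
    (hv : μ univ ≤ v ^ (p + e)) : ∫⁻ x, f x ^ p ∂μ ≤ (1 + 2 ^ p * geo e) * (b ^ p * v ^ e) := by
  have hpe : 0 < p + e := by linarith
  by_cases v0 : v = 0
  · have : μ = 0 := by
      rw [← Measure.measure_univ_eq_zero]
      simpa [v0, hpe] using hv
    simp [this]
  by_cases b0 : b = 0
  · have h1 : ∀ k : ℕ, μ {x | ((k : ℝ≥0∞))⁻¹ < f x} = 0 := fun k => by
      have := h ((k : ℝ≥0∞))⁻¹
      rw [b0, ENNReal.zero_rpow_of_pos hpe, nonpos_iff_eq_zero, mul_eq_zero] at this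
      rcases this with h2 | h2
      · rw [ENNReal.rpow_eq_zero_iff_of_pos hpe] at h2
        simp at h2
      · exact h2
    have h2 : ∀ᵐ x ∂μ, f x ^ p = 0 := by
      have : ∀ᵐ x ∂μ, ∀ k : ℕ, ¬ ((k : ℝ≥0∞))⁻¹ < f x := by
        rw [ae_all_iff]; intro k
        rw [ae_iff]; simpa only [not_not] using h1 k
      filter_upwards [this] with x hx
      have : f x = 0 := by
        by_contra hn
        obtain ⟨k, hk⟩ := ENNReal.exists_inv_nat_lt hn
        exact hx k hk
      simp [this, hp]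
    rw [lintegral_congr_ae h2]; simp
  by_cases hb : b = ⊤
  · have : (1 + 2 ^ p * geo e) * (b ^ p * v ^ e) = ⊤ := by
      rw [hb, ENNReal.top_rpow_of_pos hp, ENNReal.top_mul (by simp [v0, he, he.le]),
        ENNReal.mul_top (by simp)]
    rw [this]; exact le_top
  by_cases hv' : v = ⊤
  · have : (1 + 2 ^ p * geo e) * (b ^ p * v ^ e) = ⊤ := by
      rw [hv', ENNReal.top_rpow_of_pos he, ENNReal.mul_top (by simp [b0, hp, hp.le]),
        ENNReal.mul_top (by simp)]
    rw [this]; exact le_top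
  set a := b / v with ha
  have hav : a * v = b := ENNReal.div_mul_cancel v0 hv'
  have a0 : a ≠ 0 := by simp [ha, b0, hv']
  have a1 : a ≠ ⊤ := ENNReal.div_ne_top hb v0
  have hm : MeasurableSet {x | a < f x} := measurableSet_lt measurable_const hf
  have h1 : ∫⁻ x in {x | a < f x}ᶜ, f x ^ p ∂μ ≤ b ^ p * v ^ e := by
    calc ∫⁻ x in {x | a < f x}ᶜ, f x ^ p ∂μ ≤ ∫⁻ x in {x | a < f x}ᶜ, a ^ p ∂μ :=
          setLIntegral_mono' hm.compl fun x hx =>
            ENNReal.rpow_le_rpow (not_lt.1 hx) hp.le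
      _ ≤ ∫⁻ _, a ^ p ∂μ := setLIntegral_le_lintegral _ _
      _ = a ^ p * μ univ := lintegral_const _
      _ ≤ a ^ p * v ^ (p + e) := by gcongr
      _ = b ^ p * v ^ e := by
          rw [← hav, ENNReal.rpow_add_of_nonneg _ _ hp.le he.le,
            ENNReal.mul_rpow_of_nonneg _ _ hp.le, mul_assoc]
  have h2 : ∫⁻ x in {x | a < f x}, f x ^ p ∂μ ≤ 2 ^ p * geo e * (b ^ p * v ^ e) := by
    have := tail μ hf hp he h a
    have k : b ^ (p + e) = a ^ e * (b ^ p * v ^ e) := by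
      rw [ENNReal.rpow_add_of_nonneg _ _ hp.le he.le]
      nth_rewrite 2 [← hav]
      rw [ENNReal.mul_rpow_of_nonneg _ _ he.le]; ring
    rw [k, mul_left_comm] at this
    exact (ENNReal.mul_le_mul_iff_right (by simp [a0, a1])
      (ENNReal.rpow_ne_top_of_nonneg he.le a1)).1 this
  rw [← lintegral_add_compl _ hm, add_mul, one_mul, add_comm]
  exact add_le_add h1 h2

theorem two_rpow_le {n : ℕ} {p : ℝ} (h : p ≤ n) : (2 : ℝ≥0∞) ^ p ≤ 2 ^ n := by
  rw [← ENNReal.rpow_natCast]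
  exact ENNReal.rpow_le_rpow_of_exponent_le (by norm_num) h

variable {n : ℕ}

/-- The constant of Kolmogorov's inequality. -/
def KK (n : ℕ) : ℝ≥0 := 1 + 2 ^ n * 6

theorem one_le_KK : (1 : ℝ≥0∞) ≤ KK n := by
  unfold KK; push_cast; exact le_self_add

theorem KK_ge {p e : ℝ} (hp : p ≤ n) (he : 1 / 2 ≤ e) : 1 + 2 ^ p * geo e ≤ KK n := by
  unfold KK; push_cast
  gcongr
  · exact two_rpow_le hp
  · exact geo_le he

theorem weak_kol {G : E n → ℝ≥0∞} {M : ℝ≥0} (hG : Measurable G) (hw : Weak G M) {p e : ℝ}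
    (hp : 0 < p) (he : 1 / 2 ≤ e) (hpe : p + e = n) (A : Set (E n)) {v : ℝ≥0∞}
    (hv : volume A ≤ v ^ n) : ∫⁻ x in A, G x ^ p ≤ KK n * ((M : ℝ≥0∞) ^ p * v ^ e) := by
  refine (kol (volume.restrict A) hG hp (by linarith) (b := M) (v := v) (fun t => ?_) ?_).trans ?_
  · rw [hpe, ENNReal.rpow_natCast, ENNReal.rpow_natCast]
    refine le_trans ?_ (hw t)
    gcongr
    exact Measure.restrict_le_self
  · rw [hpe, ENNReal.rpow_natCast, Measure.restrict_apply_univ]; exact hv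
  · gcongr
    exact KK_ge (by linarith) he

theorem weak_kol' (hn : 3 ≤ n) {G : E n → ℝ≥0∞} {M : ℝ≥0} (hG : Measurable G) (hw : Weak G M)
    {p e : ℝ} (hp : 0 < p) (he : 1 / 2 ≤ e) (hpe : p + e = n) (A : Set (E n)) :
    ∫⁻ x in A, G x ^ p ≤ KK n * (M : ℝ≥0∞) ^ p * volume A ^ (e / n) := by
  have n0 : (n : ℝ) ≠ 0 := by positivity
  have := weak_kol hG hw hp he hpe A (v := volume A ^ (1 / (n : ℝ))) (by
    rw [← ENNReal.rpow_natCast, ← ENNReal.rpow_mul, one_div_mul_cancel n0, ENNReal.rpow_one])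
  rwa [← ENNReal.rpow_mul, ← mul_assoc, show 1 / (n : ℝ) * e = e / n by ring] at this

theorem weak_mq (hn : 3 ≤ n) (h2 : StA2) : ∃ C : ℝ≥0, ∀ (G : E n → ℝ≥0∞) (M : ℝ≥0),
    Measurable G → Weak G M → Weak (mq G) (C * M) := by
  obtain ⟨C, hC⟩ := (h2 n hn).2.2
  refine ⟨1 + C * (2 * (2 ^ n * 6)), fun G M hG hw t => ?_⟩
  have q0 := q1_pos hn
  have hq : q1 n + 1 / 2 = n := by unfold q1; ring
  have h1 := tail volume hG q0 (e := 1 / 2) (by norm_num) (B := (M : ℝ≥0∞) ^ n) (fun s => by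
    rw [hq, ENNReal.rpow_natCast]; exact hw s) (t / 2)
  have h3 : {x | t < 2 * G x} = {x | t / 2 < G x} := by
    ext x
    simp only [mem_ofPred_eq]
    rw [ENNReal.div_lt_iff (by simp) (by simp), mul_comm]
  have h4 : t ^ (1 / 2 : ℝ) ≤ 2 * (t / 2) ^ (1 / 2 : ℝ) := by
    have : t = 2 * (t / 2) := (ENNReal.mul_div_cancel (by simp) (by simp)).symm
    nth_rewrite 1 [this]
    rw [ENNReal.mul_rpow_of_nonneg _ _ (by norm_num)]
    gcongr
    calc (2 : ℝ≥0∞) ^ (1 / 2 : ℝ) ≤ 2 ^ (1 : ℝ) :=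
          ENNReal.rpow_le_rpow_of_exponent_le (by norm_num) (by norm_num)
      _ = 2 := ENNReal.rpow_one _
  have h5 : (1 : ℝ≥0∞) ≤ ((1 + C * (2 * (2 ^ n * 6)) : ℝ≥0) : ℝ≥0∞) := by
    push_cast; exact le_self_add
  calc t ^ n * volume {x | t < mq G x}
      = t ^ (1 / 2 : ℝ) * (t ^ q1 n * volume {x | t < mq G x}) := by
        rw [← ENNReal.rpow_natCast, ← hq, ENNReal.rpow_add_of_nonneg _ _ q0.le (by norm_num)]
        ring
    _ ≤ (2 * (t / 2) ^ (1 / 2 : ℝ)) * (C * ∫⁻ x in {x | t / 2 < G x}, G x ^ q1 n) := by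
        rw [← h3]
        exact mul_le_mul' h4 (hC G hG t).1
    _ = C * (2 * ((t / 2) ^ (1 / 2 : ℝ) * ∫⁻ x in {x | t / 2 < G x}, G x ^ q1 n)) := by ring
    _ ≤ C * (2 * (2 ^ n * 6 * (M : ℝ≥0∞) ^ n)) := by
        refine mul_le_mul' le_rfl (mul_le_mul' le_rfl (h1.trans ?_))
        gcongr
        · exact two_rpow_le (by linarith)
        · exact geo_le le_rfl
    _ ≤ ((1 + C * (2 * (2 ^ n * 6)) : ℝ≥0) : ℝ≥0∞) * (M : ℝ≥0∞) ^ n := by
        push_cast
        rw [add_mul]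
        refine le_trans (le_of_eq (by ring)) le_add_self
    _ ≤ ((1 + C * (2 * (2 ^ n * 6)) : ℝ≥0) : ℝ≥0∞) ^ n * (M : ℝ≥0∞) ^ n := by
        gcongr
        exact le_self_pow₀ h5 (by omega)
    _ = _ := by rw [ENNReal.coe_mul, mul_pow]

theorem rad_gs (hn : 3 ≤ n) : ∃ C : ℝ≥0, ∀ (G : E n → ℝ≥0∞) (M : ℝ≥0),
    Measurable G → Weak G M → ∀ (x : E n) (r : ℝ), 0 < r →
      ENNReal.ofReal r * gs G x r ≤ C * M := by
  have n0 : (n : ℝ) ≠ 0 := by positivity
  set w : ℝ := vb n ^ (1 / (n : ℝ)) with hw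
  have w0 : 0 < w := Real.rpow_pos_of_pos vb_pos _
  have wn : w ^ n = vb n := by
    rw [hw, ← Real.rpow_natCast, ← Real.rpow_mul vb_pos.le, one_div_mul_cancel n0, Real.rpow_one]
  refine ⟨w⁻¹.toNNReal * KK n, fun G M hG hW x r hr => ?_⟩
  unfold gs
  simp only [ENNReal.mul_iSup, iSup_le_iff]
  intro s hs
  have s0 : 0 < s := by linarith
  have q0 := q1_pos hn
  have hq : q1 n + 1 / 2 = n := by unfold q1; ring
  set v := ENNReal.ofReal (w * s) with hv
  have v0 : v ≠ 0 := by simp [hv, w0, s0]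
  have v1 : v ≠ ⊤ := ENNReal.ofReal_ne_top
  have hvol : volume (ball x s) = v ^ n := by
    rw [vol_ball x s0, hv, ← ENNReal.ofReal_pow (by positivity), mul_pow, wn]
  have h1 := weak_kol hG hW q0 le_rfl hq (ball x s) hvol.le
  rw [lint_ball_eq _ x s0, ← gq_rpow hn, hvol, ← ENNReal.rpow_natCast, ← hq,
    ENNReal.rpow_add_of_nonneg _ _ q0.le (by norm_num), mul_right_comm, ← mul_assoc,
    ENNReal.mul_le_mul_iff_left (by simp [v0, v1])
      (ENNReal.rpow_ne_top_of_nonneg (by norm_num) v1),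
    ← ENNReal.mul_rpow_of_nonneg _ _ q0.le] at h1
  have h2 : v * gq G x s ≤ KK n * M := by
    rw [← ENNReal.rpow_le_rpow_iff q0]
    refine h1.trans ?_
    rw [ENNReal.mul_rpow_of_nonneg _ _ q0.le]
    gcongr
    calc (KK n : ℝ≥0∞) = (KK n : ℝ≥0∞) ^ (1 : ℝ) := (ENNReal.rpow_one _).symm
      _ ≤ _ := ENNReal.rpow_le_rpow_of_exponent_le one_le_KK (one_lt_q1 hn).le
  calc ENNReal.ofReal r * gq G x s ≤ ENNReal.ofReal w⁻¹ * v * gq G x s := by
        gcongr
        rw [hv, ← ENNReal.ofReal_mul (by positivity), ← mul_assoc, inv_mul_cancel₀ w0.ne',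
          one_mul]
        exact ENNReal.ofReal_le_ofReal hs
    _ ≤ ENNReal.ofReal w⁻¹ * (KK n * M) := by rw [mul_assoc]; gcongr
    _ = _ := by rw [ENNReal.coe_mul, mul_assoc]; rfl

theorem av_mq (hn : 3 ≤ n) (h2 : StA2) : ∃ C : ℝ≥0, ∀ G : E n → ℝ≥0∞, Measurable G →
    ∀ (x : E n) (r p : ℝ), 0 < r → 0 < p → p ≤ (n : ℝ) - 1 →
      av (fun y => mq G y ^ p) x r ≤ C * gs G x r ^ p := by
  obtain ⟨C, hC⟩ := (h2 n hn).2.2
  set c : ℝ≥0 := 1 + C * 2 ^ n with hc
  have c1 : (1 : ℝ≥0∞) ≤ c := by rw [hc]; push_cast; exact le_self_add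
  refine ⟨KK n * c ^ n + 4 ^ n, fun G hG x r p hr hp hp' => ?_⟩
  have q0 := q1_pos hn
  set g := gs G x r with hg
  set F := (ball x (2 * r)).indicator G with hF
  have mF : Measurable F := hG.indicator measurableSet_ball
  have h1 : ∀ y ∈ ball x r, mq G y ^ p ≤ mq F y ^ p + (4 * g) ^ p := fun y hy => by
    have k1 : ball y r ⊆ ball x (2 * r) := ball_subset_ball' (by rw [mem_ball] at hy; linarith)
    have k2 : gs G y r ≤ 4 * g := by
      have := gs_le_gs hn G (x := y) (x' := x) (r := r) (r' := r) (K := 2) hr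
        (by rw [mem_ball, dist_eq_norm] at hy; linarith) (by linarith)
      rwa [show ((2 : ℝ) ^ 2) = (4 : ℕ) by norm_num, ENNReal.ofReal_natCast] at this
    rcases le_max_iff.1 (mq_le_max hn G k1) with k | k
    · exact (ENNReal.rpow_le_rpow k hp.le).trans le_self_add
    · exact (ENNReal.rpow_le_rpow (k.trans k2) hp.le).trans le_add_self
  set e := q1 n - p with he
  have he' : 1 / 2 ≤ e := by rw [he]; unfold q1; linarith
  have hpe : p + e = q1 n := by rw [he]; ring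
  set v := volume (ball x r) ^ (1 / q1 n) with hv
  have hvq : v ^ q1 n = volume (ball x r) := by
    rw [hv, ← ENNReal.rpow_mul, one_div_mul_cancel q0.ne', ENNReal.rpow_one]
  have h3 : ∫⁻ y, F y ^ q1 n ≤ 2 ^ n * volume (ball x r) * g ^ q1 n := by
    have : (fun y => F y ^ q1 n) = (ball x (2 * r)).indicator fun y => G y ^ q1 n := by
      funext y
      by_cases hy : y ∈ ball x (2 * r) <;> simp [hF, hy, q0]
    rw [this, lintegral_indicator measurableSet_ball, lint_ball_eq _ x (by linarith),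
      ← gq_rpow hn]
    gcongr
    · rw [vol_ball x hr, vol_ball x (by linarith), mul_pow, mul_left_comm,
        ENNReal.ofReal_mul (by positivity), ENNReal.ofReal_pow (by norm_num)]
      simp
    · exact gq_le_gs G x (by linarith)
  have h4 := kol (volume.restrict (ball x r)) (measurable_mq mF) hp (e := e) (by linarith)
    (b := c * g * v) (v := v) (fun t => by
      rw [hpe, ENNReal.mul_rpow_of_nonneg _ _ q0.le, ENNReal.mul_rpow_of_nonneg _ _ q0.le, hvq]
      calc t ^ q1 n * volume.restrict (ball x r) {y | t < mq F y}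
          ≤ t ^ q1 n * volume {y | t < mq F y} := by
            gcongr; exact Measure.restrict_le_self
        _ ≤ C * ∫⁻ y in {y | t < 2 * F y}, F y ^ q1 n := (hC F mF t).1
        _ ≤ C * (2 ^ n * volume (ball x r) * g ^ q1 n) := by
            gcongr; exact (setLIntegral_le_lintegral _ _).trans h3
        _ = (C * 2 ^ n) * g ^ q1 n * volume (ball x r) := by ring
        _ ≤ _ := by
            gcongr
            calc (C : ℝ≥0∞) * 2 ^ n ≤ c := by rw [hc]; push_cast; exact le_add_self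
              _ = (c : ℝ≥0∞) ^ (1 : ℝ) := (ENNReal.rpow_one _).symm
              _ ≤ _ := ENNReal.rpow_le_rpow_of_exponent_le c1 (one_lt_q1 hn).le)
    (by rw [hpe, hvq, Measure.restrict_apply_univ])
  have h5 : av (fun y => mq F y ^ p) x r ≤ KK n * c ^ n * g ^ p := by
    unfold av
    refine ENNReal.div_le_of_le_mul (h4.trans ?_)
    rw [ENNReal.mul_rpow_of_nonneg _ _ hp.le, ENNReal.mul_rpow_of_nonneg _ _ hp.le,
      mul_assoc _ (v ^ p), ← ENNReal.rpow_add_of_nonneg _ _ hp.le (by linarith), hpe, hvq,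
      ← mul_assoc, ← mul_assoc]
    gcongr
    · exact KK_ge (by linarith) he'
    · rw [← ENNReal.rpow_natCast]
      exact ENNReal.rpow_le_rpow_of_exponent_le c1 (by linarith)
  calc av (fun y => mq G y ^ p) x r ≤ av (fun y => mq F y ^ p + (4 * g) ^ p) x r := av_mono h1
    _ = av (fun y => mq F y ^ p) x r + av (fun _ => (4 * g) ^ p) x r :=
        av_add ((measurable_mq mF).pow_const p) _ x r
    _ ≤ KK n * c ^ n * g ^ p + 4 ^ n * g ^ p := by
        refine add_le_add h5 (av_le_const (Eventually.of_forall fun _ _ => ?_))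
        rw [ENNReal.mul_rpow_of_nonneg _ _ hp.le, ← ENNReal.rpow_natCast]
        gcongr
        · norm_num
        · linarith
    _ = _ := by push_cast; ring

end A4

open A4

theorem stA4 (h2 : StA2) : StA4 := by
  intro n hn
  obtain ⟨C, hC⟩ := av_mq hn h2
  refine ⟨C * 4 ^ (n - 2), fun G hG => ⟨fun x r p hr hp hp' => (hC G hG x r p hr hp hp').trans ?_,
    fun x r hr z hz => ?_⟩⟩
  · gcongr
    exact le_mul_of_one_le_right zero_le (one_le_pow₀ (by norm_num))
  · have hc : ((n - 2 : ℕ) : ℝ) = n - 2 := by rw [Nat.cast_sub (by omega)]; norm_num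
    have n3 : (3 : ℝ) ≤ n := by exact_mod_cast hn
    have h1 := hC G hG x r ((n - 2 : ℕ) : ℝ) hr (by linarith) (by linarith)
    simp only [ENNReal.rpow_natCast] at h1
    have k2 : gs G x r ≤ 4 * mq G z := by
      have := gs_le_gs hn G (x := x) (x' := z) (r := r) (r' := r) (K := 2) hr
        (by rw [mem_ball', dist_eq_norm] at hz; linarith) (by linarith)
      rw [show ((2 : ℝ) ^ 2) = (4 : ℕ) by norm_num, ENNReal.ofReal_natCast] at this
      exact this.trans (mul_le_mul' le_rfl (gs_le_mq hn G z hr))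
    calc av (Wt G) x r ≤ C * gs G x r ^ (n - 2) := h1
      _ ≤ C * (4 * mq G z) ^ (n - 2) := by gcongr
      _ = _ := by unfold Wt; push_cast; rw [mul_pow, mul_assoc]

theorem stA5 (h2 : StA2) : StA5 := by
  intro n hn
  obtain ⟨C1, hC1⟩ := weak_mq hn h2
  obtain ⟨C2, hC2⟩ := rad_gs hn
  have n3 : (3 : ℝ) ≤ n := by exact_mod_cast hn
  have hc : ((n - 2 : ℕ) : ℝ) = n - 2 := by rw [Nat.cast_sub (by omega)]; norm_num
  refine ⟨C1 + KK n + KK n * C1 ^ (n - 2) + C2 + 2 ^ n * 3, fun G M hG hw =>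
    ⟨fun t => (hC1 G M hG hw t).trans ?_, fun A _ => ?_, fun A _ => ?_,
      fun x r hr => (hC2 G M hG hw x r hr).trans ?_, fun δ d0 d1 l => ?_⟩⟩
  · gcongr
    simp only [add_assoc]; exact le_self_add
  · have := weak_kol' hn hG hw (p := 1) (e := n - 1) one_pos (by linarith) (by ring) A
    simp only [ENNReal.rpow_one] at this
    rw [show ((n : ℝ) - 1) / n = 1 - 1 / n by field_simp] at this
    refine this.trans ?_
    gcongr
    exact le_add_right (le_add_right (le_add_right le_add_self))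
  · have := weak_kol' hn (measurable_mq hG) (hC1 G M hG hw) (p := ((n - 2 : ℕ) : ℝ)) (e := 2)
      (by linarith) (by norm_num) (by linarith) A
    simp only [ENNReal.rpow_natCast] at this
    refine this.trans ?_
    rw [ENNReal.coe_mul, mul_pow, ← mul_assoc, ← ENNReal.coe_pow, ← ENNReal.coe_mul]
    gcongr
    exact le_add_right (le_add_right le_add_self)
  · gcongr
    exact le_add_right le_add_self
  · have h1 := tail volume hG (p := n - δ) (e := δ) (by linarith) d0 (B := (M : ℝ≥0∞) ^ n)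
      (fun s => by rw [sub_add_cancel, ENNReal.rpow_natCast]; exact hw s) l
    calc _ ≤ ENNReal.ofReal δ * (2 ^ (n - δ) * geo δ * (M : ℝ≥0∞) ^ n) := by gcongr
      _ = 2 ^ (n - δ) * (ENNReal.ofReal δ * geo δ) * (M : ℝ≥0∞) ^ n := by ring
      _ ≤ 2 ^ n * 3 * (M : ℝ≥0∞) ^ n := by
          gcongr
          · exact two_rpow_le (by linarith)
          · exact geo_small d0 (by linarith)
      _ ≤ _ := by
          gcongr
          push_cast
          exact le_add_self

end Pool.Agent.P.MP_28243e_an
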