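import Pool.Agent.P.MP_28243e_an.Basic

/-! Weighted bounds for the paraproduct. -/

namespace Pool.Agent.P.MP_28243e_an

open Set MeasureTheory Metric Filter Topology ENNReal
open scoped NNReal Classical

namespace A8

variable {n : ℕ}

lemma lc (a : ℝ≥0∞) :
    ∫⁻ t in Ioi (0 : ℝ), (if ENNReal.ofReal t < a then (1 : ℝ≥0∞) else 0) = a := by
  have hm : MeasurableSet {t : ℝ | ENNReal.ofReal t < a} :=
    measurableSet_lt ENNReal.measurable_ofReal measurable_const
  have e : (fun t : ℝ => if ENNReal.ofReal t < a then (1 : ℝ≥0∞) else 0) =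
      {t : ℝ | ENNReal.ofReal t < a}.indicator 1 := by
    funext t; simp [indicator]
  rw [e, lintegral_indicator_one hm, Measure.restrict_apply hm]
  by_cases ha : a = ⊤
  · subst ha; simp
  · have : {t : ℝ | ENNReal.ofReal t < a} ∩ Ioi 0 = Ioo 0 a.toReal := by
      ext t
      simp only [mem_inter_iff, mem_ofPred_eq, mem_Ioi, mem_Ioo]
      constructor
      · rintro ⟨h1, h2⟩
        exact ⟨h2, (ENNReal.ofReal_lt_iff_lt_toReal h2.le ha).1 h1⟩
      · rintro ⟨h1, h2⟩
        exact ⟨(ENNReal.ofReal_lt_iff_lt_toReal h1.le ha).2 h2, h1⟩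
    rw [this, Real.volume_Ioo, sub_zero, ENNReal.ofReal_toReal ha]

lemma rho_shift (j i : ℕ) :
    ENNReal.ofReal (rho (((j + i : ℕ) : ℤ) + 4)) = ENNReal.ofReal (rho (j + 4)) * 2⁻¹ ^ i := by
  induction i with
  | zero => simp
  | succ i ih =>
    have : (((j + (i + 1) : ℕ) : ℤ) + 4) = (((j + i : ℕ) : ℤ) + 4) + 1 := by push_cast; ring
    rw [this, rho_succ, ENNReal.ofReal_div_of_pos two_pos, ih, pow_succ, div_eq_mul_inv, mul_assoc]
    simp

lemma geo (p : ℕ → Prop) [DecidablePred p] (R : ℝ≥0∞) (h : ∀ j : ℕ, p j → ENNReal.ofReal (rho (j + 4)) ≤ R) :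
    ∑' j : ℕ, ENNReal.ofReal (rho (j + 4)) * (if p j then 1 else 0) ≤ 2 * R := by
  by_cases hp : ∃ j, p j
  · have hs : Function.support (fun j : ℕ => ENNReal.ofReal (rho (j + 4)) *
        (if p j then (1 : ℝ≥0∞) else 0)) ⊆ range (fun i => Nat.find hp + i) := by
      intro j hj
      have : p j := by
        by_contra hn
        simp [hn] at hj
      exact ⟨j - Nat.find hp, Nat.add_sub_cancel' (Nat.find_min' hp this)⟩
    rw [← (add_right_injective (Nat.find hp)).tsum_eq hs]
    calc _ ≤ ∑' i : ℕ, R * 2⁻¹ ^ i := by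
          refine ENNReal.tsum_le_tsum (fun i => ?_)
          rw [rho_shift]
          refine (mul_le_of_le_one_right' (by split_ifs <;> simp)).trans ?_
          exact mul_le_mul_left (h _ (Nat.find_spec hp)) _
      _ = 2 * R := by
          rw [ENNReal.tsum_mul_left, ENNReal.tsum_geometric, mul_comm]
          simp
  · push Not at hp
    simp [hp]

lemma young (a b : ℝ≥0∞) {w : ℝ≥0∞} (h0 : w ≠ 0) (h1 : w ≠ ⊤) :
    a * b ≤ w * a ^ 2 + b ^ 2 / w := by
  rcases le_total b (w * a) with h | h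
  · refine le_add_right ?_
    calc a * b ≤ a * (w * a) := mul_le_mul_right h _
      _ = w * a ^ 2 := by ring
  · refine le_add_left ?_
    have : a ≤ b / w := by
      rw [ENNReal.le_div_iff_mul_le (Or.inl h0) (Or.inl h1), mul_comm]; exact h
    calc a * b ≤ b / w * b := mul_le_mul_left this _
      _ = b ^ 2 / w := by rw [div_eq_mul_inv, div_eq_mul_inv]; ring

lemma dual {W u : E n → ℝ≥0∞} (hW : Measurable W) (hu : Measurable u)
    (h0 : ∀ᵐ x, W x ≠ 0 ∧ W x ≠ ⊤) (K : ℝ≥0∞)
    (h : ∀ e : E n → ℝ≥0∞, Measurable e → ∫⁻ x, e x * u x ≤ K + 2⁻¹ * ∫⁻ x, e x ^ 2 / W x) :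
    ∫⁻ x, W x * u x ^ 2 ≤ 2 * K := by
  set v : ℕ → E n → ℝ≥0∞ := fun R => (ball 0 R ∩ {x | W x ≤ R}).indicator (fun x => min (u x) R)
    with hv
  have hS : ∀ R : ℕ, MeasurableSet (ball (0 : E n) R ∩ {x | W x ≤ R}) := fun R =>
    measurableSet_ball.inter (measurableSet_le hW measurable_const)
  have mv : ∀ R, Measurable (v R) := fun R => (hu.min measurable_const).indicator (hS R)
  have hle : ∀ R x, v R x ≤ u x := fun R x => by
    simp only [hv, indicator]
    split_ifs <;> simp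
  have hR : ∀ R, ∫⁻ x, W x * v R x ^ 2 ≤ 2 * K := by
    intro R
    have fin : ∫⁻ x, W x * v R x ^ 2 ≠ ⊤ := by
      refine ne_top_of_le_ne_top (b := ∫⁻ x, (ball (0 : E n) R).indicator
        (fun _ => (R : ℝ≥0∞) * R ^ 2) x) ?_ (lintegral_mono (fun x => ?_))
      · rw [lintegral_indicator_const measurableSet_ball]
        exact ENNReal.mul_ne_top (by finiteness) (vol_ball_ne_top _ _)
      · by_cases hx : x ∈ ball (0 : E n) R ∩ {x | W x ≤ R}
        · simp only [hv, indicator_of_mem hx, indicator_of_mem hx.1]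
          exact mul_le_mul' hx.2 (pow_le_pow_left' (min_le_right _ _) 2)
        · simp [hv, indicator_of_notMem hx]
    have h1 := h (fun x => W x * v R x) (hW.fun_mul (mv R))
    have h2 : ∫⁻ x, (W x * v R x) ^ 2 / W x = ∫⁻ x, W x * v R x ^ 2 := by
      refine lintegral_congr_ae ?_
      filter_upwards [h0] with x hx
      rw [mul_pow, pow_two (W x), mul_assoc, mul_comm, mul_div_assoc,
        ENNReal.div_self hx.1 hx.2, mul_one]
    have h3 : ∫⁻ x, W x * v R x ^ 2 ≤ ∫⁻ x, W x * v R x * u x := lintegral_mono (fun x => by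
      rw [pow_two, ← mul_assoc]
      exact mul_le_mul_right (hle R x) _)
    rw [h2] at h1
    generalize ∫⁻ x, W x * v R x ^ 2 = X at *
    have h4 : 2⁻¹ * X + 2⁻¹ * X ≤ K + 2⁻¹ * X := by
      rw [← add_mul, ENNReal.inv_two_add_inv_two, one_mul]; exact h3.trans h1
    have h5 := (ENNReal.add_le_add_iff_right (ENNReal.mul_ne_top (by simp) fin)).1 h4
    calc X = 2 * (2⁻¹ * X) := by
          rw [← mul_assoc, ENNReal.mul_inv_cancel (by simp) (by simp), one_mul]
      _ ≤ 2 * K := mul_le_mul_right h5 _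
  have hmono : Monotone v := by
    intro R R' hRR x
    have h1 : (R : ℝ≥0∞) ≤ R' := by exact_mod_cast hRR
    have h2 : (R : ℝ) ≤ R' := by exact_mod_cast hRR
    by_cases hx : x ∈ ball (0 : E n) R ∩ {x | W x ≤ R}
    · have hx' : x ∈ ball (0 : E n) R' ∩ {x | W x ≤ R'} :=
        ⟨ball_subset_ball h2 hx.1, le_trans hx.2 h1⟩
      simp only [hv, indicator_of_mem hx, indicator_of_mem hx']
      exact min_le_min_left _ h1
    · simp [hv, indicator_of_notMem hx]
  calc ∫⁻ x, W x * u x ^ 2 ≤ ∫⁻ x, ⨆ R, W x * v R x ^ 2 := by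
        refine lintegral_mono_ae ?_
        filter_upwards [h0] with x hx
        rw [← ENNReal.mul_iSup, ← ENNReal.iSup_pow]
        refine mul_le_mul_right (pow_le_pow_left' ?_ 2) _
        refine le_of_forall_lt (fun c hc => ?_)
        obtain ⟨R1, h1⟩ := exists_nat_gt ‖x‖
        obtain ⟨R2, h2⟩ := ENNReal.exists_nat_gt hx.2
        obtain ⟨R3, h3⟩ := ENNReal.exists_nat_gt hc.ne_top
        refine lt_of_lt_of_le ?_ (le_iSup _ (R1 + R2 + R3))
        have hx' : x ∈ ball (0 : E n) (R1 + R2 + R3 : ℕ) ∩ {x | W x ≤ (R1 + R2 + R3 : ℕ)} := by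
          refine ⟨?_, h2.le.trans (by exact_mod_cast (by omega))⟩
          rw [mem_ball_zero_iff]
          exact h1.trans_le (by exact_mod_cast (by omega))
        simp only [hv, indicator_of_mem hx']
        exact lt_min hc (h3.trans_le (by exact_mod_cast (by omega)))
    _ = ⨆ R, ∫⁻ x, W x * v R x ^ 2 :=
        lintegral_iSup (fun R => hW.fun_mul ((mv R).pow_const 2))
          (fun R R' hRR x => mul_le_mul_right (pow_le_pow_left' (hmono hRR x) 2) _)
    _ ≤ 2 * K := iSup_le hR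

lemma meas_T0 {G z : E n → ℝ≥0∞} (hG : Measurable G) (hz : Measurable z) : Measurable (T0 G z) :=
  Measurable.tsum fun _ =>
    (measurable_const.fun_mul (measurable_av hz _)).fun_mul (measurable_av hG _)

lemma meas_T0s {G z : E n → ℝ≥0∞} (hG : Measurable G) (hz : Measurable z) :
    Measurable (T0s G z) :=
  Measurable.tsum fun _ =>
    measurable_const.fun_mul (measurable_av (hz.fun_mul (measurable_av hG _)) _)

lemma meas_LN {z : E n → ℝ≥0∞} (hz : Measurable z) (N : ℕ) : Measurable (LN z N) :=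
  (measurable_av hz _).add ((measurable_pot hz _).div_const _)

lemma LN_le (z : E n → ℝ≥0∞) (N : ℕ) (x : E n) : LN z N x ≤ 9 * mx z x := by
  have h0 := rho_pos (N : ℤ)
  have h1 := pot_le_mx z (t := 4 * rho N) (by positivity) (subset_univ (ball x _))
  rw [indicator_univ, ENNReal.ofReal_mul (by norm_num)] at h1
  have h2 : pot z (4 * rho N) x / ENNReal.ofReal (rho N) ≤ 8 * mx z x := by
    refine ENNReal.div_le_of_le_mul (h1.trans (le_of_eq ?_))
    rw [ENNReal.ofReal_ofNat]; ring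
  calc LN z N x ≤ mx z x + 8 * mx z x := add_le_add (av_le_mx z x (by norm_num)) h2
    _ = 9 * mx z x := by ring

lemma lint_tsum {e : E n → ℝ≥0∞} (he : Measurable e) (c : ℕ → ℝ≥0∞) {f : ℕ → E n → ℝ≥0∞}
    (hf : ∀ j, Measurable (f j)) :
    ∫⁻ x, e x * ∑' j, c j * f j x = ∑' j, c j * ∫⁻ x, e x * f j x := by
  simp_rw [← ENNReal.tsum_mul_left]
  rw [lintegral_tsum (fun j => (he.fun_mul (measurable_const.fun_mul (hf j))).aemeasurable)]
  refine tsum_congr (fun j => ?_)
  rw [← lintegral_const_mul _ (he.fun_mul (hf j))]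
  exact lintegral_congr (fun x => by ring)

lemma lint_LN {e z : E n → ℝ≥0∞} (he : Measurable e) (hz : Measurable z) (N : ℕ) :
    ∫⁻ x, e x * LN z N x = ∫⁻ x, z x * LN e N x := by
  have key : ∀ {e z : E n → ℝ≥0∞}, Measurable e → Measurable z →
      ∫⁻ x, e x * LN z N x = (∫⁻ x, e x * av z x (1 / 4)) + (ENNReal.ofReal (rho N))⁻¹ *
        ∑' j : ℕ, ENNReal.ofReal (4 * rho N / 2 ^ j) * ∫⁻ x, e x * av z x (4 * rho N / 2 ^ j) := by
    intro e z he hz
    rw [← lint_tsum he _ (fun j => measurable_av hz _)]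
    show _ = _ + _ * ∫⁻ x, e x * pot z (4 * rho N) x
    rw [← lintegral_const_mul _ (he.fun_mul (measurable_pot hz _)),
      ← lintegral_add_left (he.fun_mul (measurable_av hz _))]
    refine lintegral_congr (fun x => ?_)
    rw [LN, div_eq_mul_inv (pot _ _ _)]
    ring
  rw [key he hz, key hz he]
  simp_rw [lint_mul_av he hz]

lemma lint_T0 {G e z : E n → ℝ≥0∞} (hG : Measurable G) (he : Measurable e) (hz : Measurable z) :
    ∫⁻ x, e x * T0 G z x = ∫⁻ x, z x * T0s G e x := by
  simp only [T0, T0s, mul_assoc]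
  rw [lint_tsum he _ (fun j => (measurable_av hz _).fun_mul (measurable_av hG _)),
    lint_tsum hz _ (fun j => measurable_av (he.fun_mul (measurable_av hG _)) _)]
  refine tsum_congr (fun j => ?_)
  rw [lint_mul_av hz (he.fun_mul (measurable_av hG _))]
  congr 1
  exact lintegral_congr (fun x => by ring)

lemma lint_T0' {G e z : E n → ℝ≥0∞} (hG : Measurable G) (he : Measurable e) (hz : Measurable z) :
    ∫⁻ x, e x * T0 G z x = ∫⁻ x, G x * T0s z e x := by
  rw [← lint_T0 hz he hG]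
  refine lintegral_congr (fun x => ?_)
  simp only [T0]
  congr 1
  exact tsum_congr (fun j => by ring)

lemma F_le {e z : E n → ℝ≥0∞} (he : Measurable e) {y x' : E n} {r : ℝ} (hr : 0 < r)
    (hx : x' ∈ ball y r) :
    av (fun x => e x * av z x r) y r ≤ ENNReal.ofReal (3 ^ n) * ENNReal.ofReal (2 ^ n) *
      (mx z x' * mx e x') := by
  have h1 : ∀ x ∈ ball y r, e x * av z x r ≤ (ENNReal.ofReal (3 ^ n) * mx z x') * e x := by
    intro x hx'
    rw [mul_comm]
    refine mul_le_mul_left ((av_le_av z (x' := x') (r' := 3 * r) hr ?_ le_rfl).trans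
      (mul_le_mul_right (av_le_mx z x' (by positivity)) _)) _
    intro w hw
    rw [mem_ball] at *
    have := dist_triangle w x x'
    have := dist_triangle x y x'
    rw [dist_comm y x'] at this
    linarith
  have h2 : av e y r ≤ ENNReal.ofReal (2 ^ n) * mx e x' := by
    refine (av_le_av e (x' := x') (r' := 2 * r) hr ?_ le_rfl).trans
      (mul_le_mul_right (av_le_mx e x' (by positivity)) _)
    intro w hw
    rw [mem_ball] at *
    have := dist_triangle w y x'
    rw [dist_comm y x'] at this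
    linarith
  calc _ ≤ av (fun x => (ENNReal.ofReal (3 ^ n) * mx z x') * e x) y r := av_mono h1
    _ = (ENNReal.ofReal (3 ^ n) * mx z x') * av e y r := av_const_mul he _ _ _
    _ ≤ (ENNReal.ofReal (3 ^ n) * mx z x') * (ENNReal.ofReal (2 ^ n) * mx e x') :=
        mul_le_mul_right h2 _
    _ = _ := by ring

/-- the tent space estimate -/
lemma tent (hn : 3 ≤ n) {G g : E n → ℝ≥0∞} (hG : Measurable G) (hg : Measurable g) (C : ℝ≥0∞)
    (hC : ∀ A : Set (E n), MeasurableSet A → ∫⁻ x in A, G x ≤ C * volume A ^ (1 - 1 / (n : ℝ)))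
    (H : ℕ → E n → ℝ≥0∞) (hH : ∀ (j : ℕ) (y : E n), ∀ x ∈ ball y (rho (j + 4)), H j y ≤ g x) :
    ∫⁻ y, G y * ∑' j : ℕ, ENNReal.ofReal (rho (j + 4)) * H j y ≤
      2 * (ENNReal.ofReal (vb n))⁻¹ ^ (1 / (n : ℝ)) * C * ∫⁻ x, g x := by
  have n0 : (0 : ℝ) < n := by positivity
  have n1 : (1 : ℝ) / n ≤ 1 := by
    rw [div_le_one n0]; exact_mod_cast (by omega : 1 ≤ n)
  set c := (ENNReal.ofReal (vb n))⁻¹ ^ (1 / (n : ℝ)) with hc
  set ψ : ℝ → ℝ≥0∞ := fun t => volume {x | ENNReal.ofReal t < g x} with hψ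
  have mψ : Measurable ψ := Antitone.measurable (fun s t hst => measure_mono
    (fun x hx => lt_of_le_of_lt (ENNReal.ofReal_le_ofReal hst) hx))
  have mO : ∀ t : ℝ, MeasurableSet {x | ENNReal.ofReal t < g x} := fun t =>
    measurableSet_lt measurable_const hg
  have mI : Measurable fun p : E n × ℝ =>
      if ENNReal.ofReal p.2 < g p.1 then (1 : ℝ≥0∞) else 0 :=
    Measurable.ite (measurableSet_lt (ENNReal.measurable_ofReal.comp measurable_snd)
      (hg.comp measurable_fst)) measurable_const measurable_const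
  have h1 : ∀ y, ∑' j : ℕ, ENNReal.ofReal (rho (j + 4)) * H j y ≤ ∫⁻ t in Ioi (0 : ℝ),
      2 * c * ψ t ^ (1 / (n : ℝ)) * (if ENNReal.ofReal t < g y then (1 : ℝ≥0∞) else 0) := by
    intro y
    have mj : ∀ j, Measurable fun t : ℝ =>
        if ENNReal.ofReal t < H j y then (1 : ℝ≥0∞) else 0 := fun j =>
      Measurable.ite (measurableSet_lt ENNReal.measurable_ofReal measurable_const)
        measurable_const measurable_const
    calc _ = ∑' j : ℕ, ∫⁻ t in Ioi (0 : ℝ), ENNReal.ofReal (rho (j + 4)) *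
          (if ENNReal.ofReal t < H j y then (1 : ℝ≥0∞) else 0) := by
          refine tsum_congr (fun j => ?_)
          rw [lintegral_const_mul _ (mj j), lc]
      _ = ∫⁻ t in Ioi (0 : ℝ), ∑' j : ℕ, ENNReal.ofReal (rho (j + 4)) *
          (if ENNReal.ofReal t < H j y then (1 : ℝ≥0∞) else 0) :=
          (lintegral_tsum (fun j => (measurable_const.fun_mul (mj j)).aemeasurable)).symm
      _ ≤ _ := by
          refine lintegral_mono (fun t => ?_)
          by_cases hy : ENNReal.ofReal t < g y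
          · simp only [if_pos hy, mul_one, mul_assoc]
            refine geo _ _ (fun j hj => ?_)
            have r0 := rho_pos ((j : ℤ) + 4)
            have h2 : volume (ball y (rho (j + 4))) ≤ ψ t :=
              measure_mono (fun x hx => hj.trans_le (hH j y x hx))
            rw [vol_ball y r0, ENNReal.ofReal_mul vb_pos.le, ENNReal.ofReal_pow r0.le] at h2
            rw [hc, ← ENNReal.mul_rpow_of_nonneg _ _ (by positivity), one_div,
              ENNReal.le_rpow_inv_iff n0, ENNReal.rpow_natCast, mul_comm, ← div_eq_mul_inv,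
              ENNReal.le_div_iff_mul_le (Or.inl (by simpa using vb_pos)) (Or.inl (by simp)),
              mul_comm]
            exact h2
          · have : ∀ j, ¬ ENNReal.ofReal t < H j y := fun j hj =>
              hy (hj.trans_le (hH j y y (mem_ball_self (rho_pos _))))
            simp [this]
  calc _ ≤ ∫⁻ y, ∫⁻ t in Ioi (0 : ℝ), G y * (2 * c * ψ t ^ (1 / (n : ℝ)) *
        (if ENNReal.ofReal t < g y then (1 : ℝ≥0∞) else 0)) := by
        refine lintegral_mono (fun y => ?_)
        have mm : Measurable fun t : ℝ => 2 * c * ψ t ^ (1 / (n : ℝ)) *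
            (if ENNReal.ofReal t < g y then (1 : ℝ≥0∞) else 0) :=
          (measurable_const.fun_mul (mψ.pow_const _)).fun_mul
            (mI.comp (measurable_const.prodMk measurable_id))
        rw [lintegral_const_mul _ mm]
        exact mul_le_mul_right (h1 y) _
    _ = ∫⁻ t in Ioi (0 : ℝ), ∫⁻ y, G y * (2 * c * ψ t ^ (1 / (n : ℝ)) *
        (if ENNReal.ofReal t < g y then (1 : ℝ≥0∞) else 0)) :=
        lintegral_lintegral_swap ((hG.comp measurable_fst).fun_mul ((measurable_const.fun_mul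
          ((mψ.comp measurable_snd).pow_const _)).fun_mul mI)).aemeasurable
    _ ≤ ∫⁻ t in Ioi (0 : ℝ), 2 * c * C * ψ t := by
        refine lintegral_mono (fun t => ?_)
        have e1 : (fun y => G y * (2 * c * ψ t ^ (1 / (n : ℝ)) *
            (if ENNReal.ofReal t < g y then (1 : ℝ≥0∞) else 0))) = fun y =>
            2 * c * ψ t ^ (1 / (n : ℝ)) * {x | ENNReal.ofReal t < g x}.indicator G y := by
          funext y
          by_cases hy : ENNReal.ofReal t < g y <;> simp [indicator, hy, mul_comm]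
        rw [e1, lintegral_const_mul _ (hG.indicator (mO t)), lintegral_indicator (mO t)]
        refine (mul_le_mul_right (hC _ (mO t)) _).trans (le_of_eq ?_)
        have e2 : ψ t = ψ t ^ (1 / (n : ℝ)) * ψ t ^ (1 - 1 / (n : ℝ)) := by
          rw [← ENNReal.rpow_add_of_nonneg _ _ (by positivity) (by linarith)]
          simp
        conv_rhs => rw [e2]
        ring
    _ = 2 * c * C * ∫⁻ x, g x := by
        rw [lintegral_const_mul _ mψ]
        congr 1
        calc ∫⁻ t in Ioi (0 : ℝ), ψ t = ∫⁻ t in Ioi (0 : ℝ), ∫⁻ y,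
              (if ENNReal.ofReal t < g y then (1 : ℝ≥0∞) else 0) := by
              refine lintegral_congr (fun t => ?_)
              rw [hψ]
              simp only
              rw [← lintegral_indicator_one (mO t)]
              refine lintegral_congr (fun y => ?_)
              simp [indicator]
          _ = ∫⁻ y, ∫⁻ t in Ioi (0 : ℝ), (if ENNReal.ofReal t < g y then (1 : ℝ≥0∞) else 0) :=
              (lintegral_lintegral_swap mI.aemeasurable).symm
          _ = ∫⁻ x, g x := lintegral_congr (fun y => lc _)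

lemma bil (hn : 3 ≤ n) (C : ℝ≥0) : ∃ D : ℝ≥0, ∀ G : E n → ℝ≥0∞, Measurable G →
    (∀ A : Set (E n), MeasurableSet A → ∫⁻ x in A, G x ≤ C * volume A ^ (1 - 1 / (n : ℝ))) →
    ∀ e z : E n → ℝ≥0∞, Measurable e → Measurable z →
      ∫⁻ x, e x * T0 G z x ≤ D * ∫⁻ x, mx z x * mx e x := by
  have fin : 2 * (ENNReal.ofReal (vb n))⁻¹ ^ (1 / (n : ℝ)) * C *
      (ENNReal.ofReal (3 ^ n) * ENNReal.ofReal (2 ^ n)) ≠ ⊤ := by
    have : (ENNReal.ofReal (vb n))⁻¹ ^ (1 / (n : ℝ)) ≠ ⊤ :=
      ENNReal.rpow_ne_top_of_nonneg (by positivity) (by simpa using vb_pos)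
    finiteness
  obtain ⟨D, hD⟩ : ∃ D : ℝ≥0, (D : ℝ≥0∞) = _ := ⟨_, ENNReal.coe_toNNReal fin⟩
  refine ⟨D, fun G hG hC e z he hz => ?_⟩
  rw [hD, lint_T0' hG he hz, mul_assoc _ (_ * _),
    ← lintegral_const_mul _ ((measurable_mx hz).fun_mul (measurable_mx he))]
  refine tent hn hG (measurable_const.fun_mul ((measurable_mx hz).fun_mul (measurable_mx he))) C hC _
    (fun j y x hx => F_le he (by have := rho_pos ((j : ℤ) + 4); positivity)
      (ball_subset_ball ?_ hx))
  have := rho_pos ((j : ℤ) + 4)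
  linarith

lemma gs_pos (hn : 3 ≤ n) {G : E n → ℝ≥0∞} (hG : Gd G) (x : E n) {r : ℝ} (hr : 0 < r) :
    0 < gs G x r := by
  by_contra h
  rw [not_lt, nonpos_iff_eq_zero] at h
  have h1 : ∀ k : ℕ, ∫⁻ y in ball x (r + k), G y = 0 := by
    intro k
    have hk : 0 < r + k := by positivity
    have := (av_le_gq hn hG.meas x hk).trans (gq_le_gs G x (r := r) (s := r + k) (by simp))
    rw [h, nonpos_iff_eq_zero] at this
    rw [lint_ball_eq G x hk, this, mul_zero]
  have h2 : ⋃ k : ℕ, ball x (r + k) = univ := by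
    refine eq_univ_of_forall (fun y => ?_)
    obtain ⟨k, hk⟩ := exists_nat_gt (dist y x)
    exact mem_iUnion.2 ⟨k, by rw [mem_ball]; linarith⟩
  have h3 := lintegral_iUnion_le (μ := volume) (fun k : ℕ => ball x (r + k)) G
  rw [h2, Measure.restrict_univ] at h3
  simp only [h1, tsum_zero] at h3
  exact absurd hG.pos (not_lt.2 h3)

end A8

open A8 in
theorem stA8 (h2 : StA2) (h4 : StA4) (h5 : StA5) (h7 : StA7) : StA8 := by
  intro n hn
  obtain ⟨-, -, C2, h2⟩ := h2 n hn
  obtain ⟨C4, h4⟩ := h4 n hn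
  obtain ⟨C5, h5⟩ := h5 n hn
  obtain ⟨C7, h7⟩ := h7 n hn C4
  obtain ⟨D, hD⟩ := bil hn C5
  set l : ℝ≥0 := 2 * D * C7 + 1 with hl
  have l0 : (l : ℝ≥0∞) ≠ 0 := by simp [hl]
  have hl2 : (D : ℝ≥0∞) * ((l : ℝ≥0∞)⁻¹ * C7) ≤ 2⁻¹ := by
    rw [ENNReal.le_inv_iff_mul_le, mul_comm (l : ℝ≥0∞)⁻¹, ← mul_assoc, mul_right_comm,
      ← div_eq_mul_inv]
    refine ENNReal.div_le_of_le_mul ?_
    rw [one_mul, hl]
    push_cast
    exact le_add_right (le_of_eq (by ring))
  refine ⟨2 * (D * (l * C7)) + C7, fun G hG => ?_⟩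
  have p4 : ∀ (x : E n) (r : ℝ), 0 < r → 0 < gs G x r := fun x r hr => gs_pos hn hG x hr
  have p1 : ∀ x, 0 < mq G x := fun x => (p4 x 1 one_pos).trans_le (gs_le_mq hn G x one_pos)
  have p3 : ∫⁻ x, mq G x ^ n < ⊤ := by
    have h := (h2 G hG.meas 0).2 n (by linarith) le_rfl
    rw [eq_univ_of_forall (s := {x | 0 < mq G x}) p1, Measure.restrict_univ] at h
    simp only [ENNReal.rpow_natCast] at h
    exact h.trans_lt (ENNReal.mul_lt_top ENNReal.coe_lt_top
      ((setLIntegral_le_lintegral _ _).trans_lt hG.fin))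
  have p2 : ∀ᵐ x, mq G x < ⊤ := by
    filter_upwards [ae_lt_top ((measurable_mq hG.meas).pow_const n) p3.ne] with x hx
    exact (ENNReal.pow_lt_top_iff.1 hx).resolve_right (by omega)
  have mW := measurable_Wt hG.meas
  have W0 : ∀ x, 0 < Wt G x := fun x => ENNReal.pow_pos (p1 x) _
  have W1 : ∀ᵐ x, Wt G x ≠ 0 ∧ Wt G x ≠ ⊤ := by
    filter_upwards [p2] with x hx
    exact ⟨(W0 x).ne', ENNReal.pow_ne_top hx.ne⟩
  obtain ⟨-, a1, a2, -⟩ := h5 G 1 hG.meas hG.weak
  have h7' := h7 (Wt G) mW (h4 G hG.meas).2 W0 (fun x r => (a2 _ measurableSet_ball).trans_lt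
    (ENNReal.mul_lt_top (by finiteness) (ENNReal.rpow_lt_top_of_nonneg (by positivity)
      (vol_ball_ne_top _ _))))
  have hb := hD G hG.meas (by simpa using a1)
  have hy : ∀ (w : ℝ≥0∞), w ≠ 0 → w ≠ ⊤ → ∀ e z : E n → ℝ≥0∞, Measurable e → Measurable z →
      ∫⁻ x, e x * T0 G z x ≤ D * (w * C7) * (∫⁻ x, Wt G x * z x ^ 2) +
        D * (w⁻¹ * C7) * ∫⁻ x, e x ^ 2 / Wt G x := by
    intro w w0 w1 e z he hz
    have m1 : Measurable fun x => Wt G x * mx z x ^ 2 := mW.fun_mul ((measurable_mx hz).pow_const 2)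
    have m2 : Measurable fun x => mx e x ^ 2 / Wt G x := ((measurable_mx he).pow_const 2).div mW
    calc _ ≤ D * ∫⁻ x, mx z x * mx e x := hb e z he hz
      _ ≤ D * ∫⁻ x, (w * (Wt G x * mx z x ^ 2) + w⁻¹ * (mx e x ^ 2 / Wt G x)) := by
          refine mul_le_mul_right (lintegral_mono_ae ?_) _
          filter_upwards [W1] with x hx
          refine (young _ _ (mul_ne_zero w0 hx.1) (ENNReal.mul_ne_top w1 hx.2)).trans
            (le_of_eq ?_)
          rw [div_eq_mul_inv, div_eq_mul_inv, ENNReal.mul_inv (Or.inl w0) (Or.inl w1)]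
          ring
      _ = D * (w * (∫⁻ x, Wt G x * mx z x ^ 2) + w⁻¹ * ∫⁻ x, mx e x ^ 2 / Wt G x) := by
          rw [lintegral_add_left (measurable_const.fun_mul m1), lintegral_const_mul _ m1,
            lintegral_const_mul _ m2]
      _ ≤ D * (w * (C7 * ∫⁻ x, Wt G x * z x ^ 2) + w⁻¹ * (C7 * ∫⁻ x, e x ^ 2 / Wt G x)) := by
          gcongr
          · exact (h7' z hz).1
          · exact (h7' e he).2
      _ = _ := by ring
  have c1 : ∀ X : ℝ≥0∞, 2 * (D * (l * C7) * X) ≤ ((2 * (D * (l * C7)) + C7 : ℝ≥0) : ℝ≥0∞) * X := by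
    intro X
    push_cast
    rw [add_mul]
    exact le_add_right (le_of_eq (by ring))
  have c2 : ∀ X : ℝ≥0∞, C7 * X ≤ ((2 * (D * (l * C7)) + C7 : ℝ≥0) : ℝ≥0∞) * X := by
    intro X
    push_cast
    rw [add_mul]
    exact le_add_left le_rfl
  refine ⟨p1, p2, p3, p4, fun z hz => ⟨meas_T0 hG.meas hz, meas_T0s hG.meas hz, meas_LN hz,
    LN_le z, fun e he => ⟨lint_T0 hG.meas he hz, fun N => ?_⟩, ?_, ?_, (h7' z hz).1.trans (c2 _),
    (h7' z hz).2.trans (c2 _)⟩⟩
  · rw [lint_LN he hz, ← lintegral_const_mul _ (hz.fun_mul (measurable_mx he))]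
    refine lintegral_mono (fun x => ?_)
    exact (mul_le_mul_right (LN_le e N x) _).trans (le_of_eq (by ring))
  · refine (dual mW (meas_T0 hG.meas hz) W1 _ (fun e he => ?_)).trans (c1 _)
    exact (hy l l0 ENNReal.coe_ne_top e z he hz).trans
      (add_le_add_right (mul_le_mul_left hl2 _) _)
  · have := dual (W := fun x => (Wt G x)⁻¹) mW.inv (meas_T0s hG.meas hz)
      (by filter_upwards [W1] with x hx; simpa using ⟨hx.2, hx.1⟩)
      (D * (l * C7) * ∫⁻ x, z x ^ 2 / Wt G x) (fun e he => by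
        have h := hy l⁻¹ (by simp) (by simpa using l0) z e hz he
        rw [lint_T0 hG.meas hz he, inv_inv, add_comm] at h
        simp only [div_eq_mul_inv, inv_inv, mul_comm (e _ ^ 2)] at h ⊢
        exact h.trans (add_le_add_right (mul_le_mul_left hl2 _) _))
    simp only [div_eq_mul_inv, mul_comm (T0s G z _ ^ 2)] at this ⊢
    exact this.trans (c1 _)

end Pool.Agent.P.MP_28243e_an
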