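import Pool.Agent.P.MP_28243e_an.Basic

/-! Iteration over radii, averaging over truncation levels, and the potential bound. -/

namespace Pool.Agent.P.MP_28243e_an

open Set MeasureTheory Metric Filter Topology ENNReal
open scoped NNReal

theorem stIt : StIt := by
  intro p
  set s : ℝ := 1 - 1 / (4 * (p + 1)) with hs
  have hp : (0 : ℝ) < 4 * (p + 1) := by positivity
  have hp0 : (0 : ℝ) ≤ p := Nat.cast_nonneg p
  have he : (1 : ℝ) / (4 * (p + 1)) ≤ 1 / 4 := by
    rw [div_le_div_iff₀ hp (by norm_num)]; nlinarith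
  have hs1 : s < 1 := by rw [hs]; linarith [one_div_pos.2 hp]
  have hs0 : 0 < s := by rw [hs]; linarith
  have hsp : 3 / 4 ≤ s ^ p := by
    have h1 := one_add_mul_le_pow (a := -(1 / (4 * (p + 1) : ℝ))) (by linarith) p
    have h2 : (p : ℝ) * (1 / (4 * (p + 1))) ≤ 1 / 4 := by
      rw [mul_one_div, div_le_div_iff₀ hp (by norm_num)]; nlinarith
    rw [hs, sub_eq_add_neg]; linarith
  set c : ℝ := 1 / (1 - s) ^ p with hc
  have hc0 : 0 < c := by have : 0 < 1 - s := by linarith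
                         positivity
  refine ⟨(3 * c + 2).toNNReal, fun f a b F X Y hab hF hf h => ?_⟩
  set X' := X / ENNReal.ofReal ((b - a) ^ p) with hX'
  let r : ℕ → ℝ := fun j => a + (1 - s ^ j) * (b - a)
  have hsj : ∀ j, 0 < s ^ j ∧ s ^ j ≤ 1 := fun j => ⟨pow_pos hs0 j, pow_le_one₀ hs0.le hs1.le⟩
  have hr : ∀ j, r j ∈ Icc a b := fun j => by
    obtain ⟨h1, h2⟩ := hsj j
    constructor <;> simp only [r] <;> nlinarith
  have hd : ∀ j, r (j + 1) - r j = s ^ j * (1 - s) * (b - a) := fun j => by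
    simp only [r]; ring
  have hba : 0 < b - a := by linarith
  have h1s : 0 < 1 - s := by linarith
  have hstep : ∀ j, f (r j) ≤ f (r (j + 1)) / 2 + ENNReal.ofReal ((4 / 3) ^ j * c) * X' + Y := by
    intro j
    have hpos : 0 < r (j + 1) - r j := by rw [hd]; exact mul_pos (mul_pos (hsj j).1 h1s) hba
    refine (h _ (r (j + 1)) (hr j).1 (by linarith) (hr _).2).trans ?_
    gcongr
    rw [hX', ← mul_div_assoc, mul_comm, mul_div_assoc, ENNReal.div_eq_inv_mul, mul_comm]
    gcongr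
    rw [← ENNReal.ofReal_inv_of_pos (pow_pos hpos p), ← ENNReal.ofReal_div_of_pos (pow_pos hba p)]
    refine ENNReal.ofReal_le_ofReal ?_
    rw [hd, mul_pow, mul_pow, hc, inv_eq_one_div, div_le_div_iff₀ (by positivity) (by positivity),
      ← pow_mul, mul_comm j p, pow_mul]
    have h3 : 1 ≤ (4 / 3 : ℝ) ^ j * (s ^ p) ^ j := by
      rw [← mul_pow]; exact one_le_pow₀ (by linarith)
    have h4 : (4 / 3 : ℝ) ^ j * (1 / (1 - s) ^ p) * ((s ^ p) ^ j * (1 - s) ^ p * (b - a) ^ p) =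
        (4 / 3 : ℝ) ^ j * (s ^ p) ^ j * (b - a) ^ p := by field_simp
    rw [h4]; gcongr
  have hind : ∀ j : ℕ, f a ≤ 2⁻¹ ^ j * f (r j) + ENNReal.ofReal (3 * c * (1 - (2 / 3) ^ j)) * X' +
      ENNReal.ofReal (2 * (1 - (1 / 2) ^ j)) * Y := by
    intro j
    induction j with
    | zero => simp [r]
    | succ j ih =>
      have e0 : (2⁻¹ : ℝ≥0∞) ^ j = ENNReal.ofReal ((1 / 2) ^ j) := by
        rw [ENNReal.ofReal_pow (by norm_num), ENNReal.ofReal_div_of_pos (by norm_num)]; simp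
      have g1 : (0 : ℝ) ≤ 1 - (2 / 3) ^ j := sub_nonneg.2 (pow_le_one₀ (by norm_num) (by norm_num))
      have g2 : (0 : ℝ) ≤ 1 - (1 / 2) ^ j := sub_nonneg.2 (pow_le_one₀ (by norm_num) (by norm_num))
      have e1 : ENNReal.ofReal (3 * c * (1 - (2 / 3) ^ (j + 1))) =
          2⁻¹ ^ j * ENNReal.ofReal ((4 / 3) ^ j * c) +
            ENNReal.ofReal (3 * c * (1 - (2 / 3) ^ j)) := by
        rw [e0, ← ENNReal.ofReal_mul (by positivity), ← ENNReal.ofReal_add (by positivity)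
          (by positivity), ← mul_assoc, ← mul_pow]
        congr 1; norm_num; ring
      have e2 : ENNReal.ofReal (2 * (1 - (1 / 2) ^ (j + 1))) =
          2⁻¹ ^ j + ENNReal.ofReal (2 * (1 - (1 / 2) ^ j)) := by
        rw [e0, ← ENNReal.ofReal_add (by positivity) (by positivity)]
        congr 1; ring
      refine ih.trans ?_
      rw [e1, e2]
      calc _ ≤ 2⁻¹ ^ j * (f (r (j + 1)) / 2 + ENNReal.ofReal ((4 / 3) ^ j * c) * X' + Y) +
            ENNReal.ofReal (3 * c * (1 - (2 / 3) ^ j)) * X' +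
            ENNReal.ofReal (2 * (1 - (1 / 2) ^ j)) * Y := by gcongr; exact hstep j
        _ = _ := by rw [ENNReal.div_eq_inv_mul]; ring
  have hC : (((3 * c + 2).toNNReal : ℝ≥0) : ℝ≥0∞) = ENNReal.ofReal (3 * c + 2) := rfl
  rw [hC]
  have hlim : Tendsto (fun j : ℕ => 2⁻¹ ^ j * F + ENNReal.ofReal (3 * c + 2) * (X' + Y)) atTop
      (𝓝 (0 * F + ENNReal.ofReal (3 * c + 2) * (X' + Y))) :=
    (ENNReal.Tendsto.mul_const (ENNReal.tendsto_pow_atTop_nhds_zero_of_lt_one (by simp))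
      (Or.inr hF.ne)).add tendsto_const_nhds
  rw [zero_mul, zero_add] at hlim
  refine ge_of_tendsto' hlim fun j => (hind j).trans ?_
  rw [mul_add, ← add_assoc]
  have g1 : (0 : ℝ) < (2 / 3) ^ j := by positivity
  have g2 : (0 : ℝ) < (1 / 2) ^ j := by positivity
  gcongr
  · exact hf _ (hr j)
  · nlinarith
  · nlinarith

namespace AP

lemma wt_eq (δ : ℝ) (i : ℕ) :
    wt δ i = ENNReal.ofReal ((1 - (2 : ℝ) ^ (-δ)) * ((2 : ℝ) ^ (-δ)) ^ i) := by
  rw [wt, Real.rpow_mul (by norm_num), Real.rpow_natCast]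

lemma th_lt {δ : ℝ} (h : 0 < δ) : (2 : ℝ) ^ (-δ) < 1 :=
  Real.rpow_lt_one_of_one_lt_of_neg (by norm_num) (by linarith)

lemma th_pos (δ : ℝ) : 0 < (2 : ℝ) ^ (-δ) := by positivity

lemma th_ge {δ : ℝ} (h : δ ≤ 1 / 2) : 7 / 10 ≤ (2 : ℝ) ^ (-δ) := by
  have h1 : (2 : ℝ) ^ (-(1 / 2 : ℝ)) ≤ 2 ^ (-δ) :=
    Real.rpow_le_rpow_of_exponent_le (by norm_num) (by linarith)
  refine le_trans ?_ h1
  have h2 : ((2 : ℝ) ^ (-(1 / 2 : ℝ))) ^ 2 = 1 / 2 := by
    rw [← Real.rpow_natCast, ← Real.rpow_mul (by norm_num)]; norm_num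
  nlinarith [th_pos (1 / 2)]

lemma one_sub_th (δ : ℝ) (h : 0 < δ) : 1 - (2 : ℝ) ^ (-δ) ≤ δ := by
  rw [Real.rpow_def_of_pos (by norm_num)]
  have h1 := Real.add_one_le_exp (Real.log 2 * -δ)
  have h2 := Real.log_two_lt_d9
  nlinarith

lemma tsum_wt_shift {δ : ℝ} (h : 0 < δ) (k : ℕ) :
    ∑' i, wt δ (i + k) = ENNReal.ofReal (((2 : ℝ) ^ (-δ)) ^ k) := by
  have h1 := th_lt h
  have h0 := th_pos δ
  set θ := (2 : ℝ) ^ (-δ) with hθ
  have e : ∀ i, wt δ (i + k) = ENNReal.ofReal ((1 - θ) * θ ^ k * θ ^ i) := fun i => by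
    rw [wt_eq]; congr 1; ring
  simp only [e]
  have h1' : 0 < 1 - θ := by linarith
  rw [← ENNReal.ofReal_tsum_of_nonneg (fun i => by positivity)
    ((summable_geometric_of_lt_one h0.le h1).mul_left _), tsum_mul_left,
    tsum_geometric_of_lt_one h0.le h1]
  congr 1; field_simp

/-- the pointwise form of the averaging inequalities -/
lemma pointwise {δ : ℝ} (h : 0 < δ) (h2 : δ ≤ 1 / 2) {l s : ℝ≥0∞} (hl : 0 < l) (hl' : l < ⊤)
    (hs : s < ⊤) :
    psi l δ s ≤ 2 * ∑' i : ℕ, (if s ≤ 2 ^ i * l then wt δ i else 0) ∧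
    ∑' i : ℕ, (if s ≤ 2 ^ i * l then wt δ i else 0) ≤ psi l δ s ∧
    ∑' i : ℕ, (if s ≤ 2 ^ i * l then 0 else wt δ i * (2 ^ i * l)) ≤
      8 * ENNReal.ofReal δ * (s * psi l δ s) := by
  classical
  have h1 := th_lt h
  have h0 := th_pos δ
  have h7 := th_ge h2
  lift l to ℝ≥0 using hl'.ne
  lift s to ℝ≥0 using hs.ne
  have hl0 : (0 : ℝ) < l := by exact_mod_cast hl
  have hiff : ∀ i : ℕ, (s : ℝ≥0∞) ≤ 2 ^ i * l ↔ (s : ℝ) ≤ 2 ^ i * l := fun i => by
    norm_cast
  have hex : ∃ i : ℕ, (s : ℝ) ≤ 2 ^ i * l := by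
    obtain ⟨i, hi⟩ := pow_unbounded_of_one_lt ((s : ℝ) / l) (by norm_num : (1 : ℝ) < 2)
    exact ⟨i, ((div_lt_iff₀ hl0).1 hi).le⟩
  set k := Nat.find hex with hk
  have hk1 : (s : ℝ) ≤ 2 ^ k * l := Nat.find_spec hex
  have hiff2 : ∀ i : ℕ, (s : ℝ≥0∞) ≤ 2 ^ i * l ↔ k ≤ i := fun i => by
    rw [hiff]
    exact ⟨fun hi => Nat.find_min' hex hi, fun hi => hk1.trans (by gcongr; norm_num)⟩
  simp only [hiff2]
  have hS1 : ∑' i : ℕ, (if k ≤ i then wt δ i else 0) = ENNReal.ofReal (((2 : ℝ) ^ (-δ)) ^ k) := by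
    rw [← tsum_wt_shift h k, ← (Summable.sum_add_tsum_nat_add' (k := k) ENNReal.summable),
      Finset.sum_eq_zero fun i hi => if_neg (by simpa using hi), zero_add]
    simp
  have hS2 : ∑' i : ℕ, (if k ≤ i then 0 else wt δ i * (2 ^ i * l)) =
      ENNReal.ofReal ((1 - (2 : ℝ) ^ (-δ)) * l * ∑ i ∈ Finset.range k, (2 * (2 : ℝ) ^ (-δ)) ^ i) := by
    have h1' : 0 < 1 - (2 : ℝ) ^ (-δ) := by linarith
    rw [tsum_eq_sum (s := Finset.range k) fun i hi => if_pos (by simpa using hi), Finset.mul_sum,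
      ENNReal.ofReal_sum_of_nonneg fun i _ => by positivity]
    refine Finset.sum_congr rfl fun i hi => ?_
    rw [if_neg (by simpa using hi), wt_eq, ← ENNReal.ofReal_coe_nnreal, ← ENNReal.ofReal_ofNat 2,
      ← ENNReal.ofReal_pow (by norm_num), ← ENNReal.ofReal_mul (by positivity),
      ← ENNReal.ofReal_mul (by positivity)]
    congr 1; ring
  rw [hS1, hS2]
  set θ := (2 : ℝ) ^ (-δ) with hθ
  rcases Nat.eq_zero_or_pos k with hk0 | hk0
  · have : (s : ℝ≥0∞) ≤ l := by simpa [hk0] using (hiff2 0).2 hk0.le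
    rw [psi_of_le h.le hl.ne' hl'.ne this, hk0]
    simp
  obtain ⟨j, hj⟩ : ∃ j, k = j + 1 := ⟨k - 1, by omega⟩
  have hj1 : (2 : ℝ) ^ j * l < s := not_le.1 (Nat.find_min hex (by omega))
  have hls : (l : ℝ) ≤ s := le_trans (le_mul_of_one_le_left hl0.le (one_le_pow₀ (by norm_num))) hj1.le
  have hs0 : (0 : ℝ) < s := hl0.trans_le hls
  have hpsi : psi l δ s = ENNReal.ofReal (((l : ℝ) / s) ^ δ) := by
    rw [psi_of_ge h.le (by exact_mod_cast hls), ← ENNReal.ofReal_rpow_of_nonneg (by positivity) h.le,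
      ENNReal.ofReal_div_of_pos hs0, ENNReal.ofReal_coe_nnreal, ENNReal.ofReal_coe_nnreal]
  have hθi : ∀ i : ℕ, θ ^ i = (1 / 2 ^ i : ℝ) ^ δ := fun i => by
    rw [hθ, ← Real.rpow_natCast, ← Real.rpow_mul (by norm_num), one_div, ← Real.rpow_natCast,
      ← Real.rpow_neg (by norm_num), ← Real.rpow_mul (by norm_num)]
    congr 1; ring
  have hlo : θ ^ k ≤ ((l : ℝ) / s) ^ δ := by
    rw [hθi]
    refine Real.rpow_le_rpow (by positivity) ?_ h.le
    rw [div_le_div_iff₀ (by positivity) hs0]; linarith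
  have hhi : ((l : ℝ) / s) ^ δ ≤ θ ^ j := by
    rw [hθi]
    refine Real.rpow_le_rpow (by positivity) ?_ h.le
    rw [div_le_div_iff₀ hs0 (by positivity)]; linarith
  rw [hpsi]
  refine ⟨?_, ENNReal.ofReal_le_ofReal hlo, ?_⟩
  · rw [← ENNReal.ofReal_ofNat 2, ← ENNReal.ofReal_mul (by norm_num)]
    refine ENNReal.ofReal_le_ofReal (hhi.trans ?_)
    rw [hj, pow_succ]
    nlinarith [pow_pos h0 j]
  · rw [← ENNReal.ofReal_ofNat 8, ← ENNReal.ofReal_coe_nnreal (p := s),
      ← ENNReal.ofReal_mul (by norm_num), ← ENNReal.ofReal_mul hs0.le,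
      ← ENNReal.ofReal_mul (by positivity)]
    refine ENNReal.ofReal_le_ofReal ?_
    have g1 : ∑ i ∈ Finset.range k, (2 * θ) ^ i ≤ 5 / 2 * (2 * θ) ^ k := by
      have := geom_sum_mul (2 * θ) k
      have g0 : 0 ≤ ∑ i ∈ Finset.range k, (2 * θ) ^ i := Finset.sum_nonneg fun i _ => by positivity
      nlinarith
    have g2 : (l : ℝ) * (2 * θ) ^ k ≤ 2 * s * ((l : ℝ) / s) ^ δ := by
      rw [mul_pow, ← mul_assoc]
      refine mul_le_mul ?_ hlo (by positivity) (by positivity)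
      rw [hj, pow_succ]; linarith
    have g3 := one_sub_th δ h
    have g4 : 0 ≤ (s : ℝ) * ((l : ℝ) / s) ^ δ := by positivity
    calc (1 - θ) * l * ∑ i ∈ Finset.range k, (2 * θ) ^ i ≤ δ * l * (5 / 2 * (2 * θ) ^ k) := by
          gcongr
      _ = 5 / 2 * δ * (l * (2 * θ) ^ k) := by ring
      _ ≤ 5 / 2 * δ * (2 * s * ((l : ℝ) / s) ^ δ) := by gcongr
      _ ≤ _ := by nlinarith

end AP

open AP in
theorem stW : StW := by
  classical
  intro δ h h2
  have h1 := th_lt h
  have h0 := th_pos δ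
  refine ⟨by simpa using tsum_wt_shift h 0, ?_, ?_⟩
  · have hκ : (2 : ℝ) ^ (-(δ / 2)) < 1 := th_lt (by linarith)
    have hκ0 := th_pos (δ / 2)
    have e : ∀ i : ℕ, wt δ i * ((i + 1) * 2 ^ ((i : ℝ) * δ / 2)) = ENNReal.ofReal
        ((1 - (2 : ℝ) ^ (-δ)) * ((i : ℝ) ^ 1 * ((2 : ℝ) ^ (-(δ / 2))) ^ i +
          ((2 : ℝ) ^ (-(δ / 2))) ^ i)) := by
      intro i
      have h1' : 0 < 1 - (2 : ℝ) ^ (-δ) := by linarith
      have e1 : ((i : ℝ≥0∞) + 1) = ENNReal.ofReal (i + 1) := by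
        rw [ENNReal.ofReal_add (by positivity) (by norm_num)]; simp
      rw [wt, e1, ← ENNReal.ofReal_ofNat 2, ENNReal.ofReal_rpow_of_pos (by norm_num),
        ← ENNReal.ofReal_mul (by positivity), ← ENNReal.ofReal_mul (by positivity)]
      congr 1
      have e2 : ((2 : ℝ) ^ (-(δ / 2))) ^ i = 2 ^ (-δ * i) * 2 ^ ((i : ℝ) * δ / 2) := by
        rw [← Real.rpow_natCast, ← Real.rpow_mul (by norm_num), ← Real.rpow_add (by norm_num)]
        congr 1; ring
      rw [e2]; ring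
    simp only [e]
    have h1' : 0 < 1 - (2 : ℝ) ^ (-δ) := by linarith
    rw [← ENNReal.ofReal_tsum_of_nonneg (fun i => by positivity)]
    · exact ENNReal.ofReal_lt_top
    · refine Summable.mul_left _ (Summable.add ?_ (summable_geometric_of_lt_one hκ0.le hκ))
      exact summable_pow_mul_geometric_of_norm_lt_one 1 (by rwa [Real.norm_of_nonneg hκ0.le])
  intro n l s a A hl hl' hs hA ha hfin
  have hm : ∀ i : ℕ, MeasurableSet {x | s x ≤ 2 ^ i * l} := fun i =>
    measurableSet_le hs measurable_const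
  have hfin' : ∀ᵐ x ∂(volume.restrict A), s x < ⊤ := (ae_restrict_iff' hA).2 hfin
  have e1 : ∑' i : ℕ, wt δ i * ∫⁻ x in A ∩ {x | s x ≤ 2 ^ i * l}, a x =
      ∫⁻ x in A, a x * ∑' i : ℕ, (if s x ≤ 2 ^ i * l then wt δ i else 0) := by
    simp only [← ENNReal.tsum_mul_left]
    rw [lintegral_tsum fun i => ha.fun_mul (Measurable.ite (hm i) measurable_const
      measurable_const).aemeasurable]
    refine tsum_congr fun i => ?_
    rw [inter_comm, ← Measure.restrict_restrict (hm i), ← lintegral_indicator (hm i),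
      ← lintegral_const_mul'' _ (ha.indicator (hm i))]
    refine lintegral_congr fun x => ?_
    by_cases hx : s x ≤ 2 ^ i * l
    · rw [if_pos hx, indicator_of_mem (show x ∈ {x | s x ≤ 2 ^ i * l} from hx), mul_comm]
    · rw [if_neg hx, indicator_of_notMem (show x ∉ {x | s x ≤ 2 ^ i * l} from hx), mul_zero,
        mul_zero]
  have e2 : ∑' i : ℕ, wt δ i * (2 ^ i * l * ∫⁻ x in A \ (A ∩ {x | s x ≤ 2 ^ i * l}), a x) =
      ∫⁻ x in A, a x * ∑' i : ℕ, (if s x ≤ 2 ^ i * l then 0 else wt δ i * (2 ^ i * l)) := by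
    simp only [← ENNReal.tsum_mul_left]
    rw [lintegral_tsum fun i => ha.fun_mul (Measurable.ite (hm i) measurable_const
      measurable_const).aemeasurable]
    refine tsum_congr fun i => ?_
    rw [sdiff_self_inter, sdiff_eq, inter_comm, ← Measure.restrict_restrict (hm i).compl,
      ← lintegral_indicator (hm i).compl, ← mul_assoc,
      ← lintegral_const_mul'' _ (ha.indicator (hm i).compl)]
    refine lintegral_congr fun x => ?_
    by_cases hx : s x ≤ 2 ^ i * l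
    · rw [if_pos hx, indicator_of_notMem (show x ∉ {x | s x ≤ 2 ^ i * l}ᶜ from fun h => h hx),
        mul_zero, mul_zero]
    · rw [if_neg hx, indicator_of_mem (show x ∈ {x | s x ≤ 2 ^ i * l}ᶜ from hx), mul_comm]
  rw [e1, e2]
  refine ⟨?_, ?_, ?_⟩
  · rw [← lintegral_const_mul' _ _ (by simp)]
    refine lintegral_mono_ae (hfin'.mono fun x hx => ?_)
    rw [mul_left_comm]
    gcongr
    exact (pointwise h h2 hl hl' hx).1
  · refine lintegral_mono_ae (hfin'.mono fun x hx => ?_)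
    gcongr
    exact (pointwise h h2 hl hl' hx).2.1
  · rw [← lintegral_const_mul' _ _ (ENNReal.mul_ne_top (by simp) ENNReal.ofReal_ne_top)]
    refine lintegral_mono_ae (hfin'.mono fun x hx => ?_)
    rw [mul_assoc (a x), mul_left_comm]
    gcongr
    exact (pointwise h h2 hl hl' hx).2.2

namespace AP

variable {n : ℕ}

lemma real_ineq (hn : 3 ≤ n) {δ t l K v : ℝ} (hδ : 0 < δ) (h2 : δ ≤ 1 / 2) (ht : 0 < t) (hl : 0 < l)
    (hK : 1 ≤ K) (hv : 0 < v) {i j : ℕ} (hj : j ≤ i) :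
    t / 2 ^ j * ((K * l ^ q1 n * t ^ n) ^ (δ / (n * q1 n)) * (1 / l ^ δ) ^ (1 / (n : ℝ)) *
      (v * (t / 2 ^ j) ^ n) ^ (1 - δ / (n * q1 n) - 1 / (n : ℝ))) / (v * (t / 2 ^ j) ^ n) ≤
      Real.exp |Real.log v| * K * 2 ^ ((i : ℝ) * δ / 2) := by
  have hn' : (3 : ℝ) ≤ n := by exact_mod_cast hn
  have hq : 5 / 2 ≤ q1 n := by unfold q1; linarith
  have hK0 : 0 < K := by linarith
  rw [← Real.log_le_log_iff (by positivity) (by positivity)]
  rw [Real.log_div (by positivity) (by positivity), Real.log_mul (by positivity) (by positivity),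
    Real.log_mul (by positivity) (by positivity), Real.log_mul (by positivity) (by positivity),
    Real.log_rpow (by positivity), Real.log_rpow (by positivity), Real.log_rpow (by positivity),
    Real.log_mul (by positivity) (by positivity), Real.log_mul (by positivity) (by positivity),
    Real.log_mul (by positivity) (by positivity), Real.log_mul (by positivity) (by positivity),
    Real.log_mul (by positivity) (by positivity), Real.log_rpow hl, Real.log_exp,
    Real.log_rpow (by norm_num : (0 : ℝ) < 2), Real.log_pow, Real.log_pow,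
    Real.log_div ht.ne' (by positivity), Real.log_div one_ne_zero (by positivity),
    Real.log_rpow hl, Real.log_pow, Real.log_one]
  set a := δ / (n * q1 n) with ha
  set b := 1 / (n : ℝ) with hb
  have e1 : b * n = 1 := by rw [hb]; field_simp
  have e2 : a * q1 n = b * δ := by rw [ha, hb]; field_simp
  have ha0 : 0 ≤ a := by positivity
  have hb0 : 0 ≤ b := by positivity
  have hb1 : b ≤ 1 / 3 := by rw [hb]; exact one_div_le_one_div_of_le (by norm_num) hn'
  have han : a * n ≤ δ / 2 := by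
    have : a * n = δ / q1 n := by rw [ha]; field_simp
    rw [this]; exact div_le_div_of_nonneg_left hδ.le (by norm_num) (by linarith)
  have ha1 : a ≤ 1 / 3 := by nlinarith
  have l2 := Real.log_pos (by norm_num : (1 : ℝ) < 2)
  have lK := Real.log_nonneg hK
  have hji : (j : ℝ) ≤ i := by exact_mod_cast hj
  have hj0 : (0 : ℝ) ≤ j := Nat.cast_nonneg j
  have k1 : a * Real.log K ≤ Real.log K := by nlinarith
  have k2 : -((a + b) * Real.log v) ≤ |Real.log v| := by
    nlinarith [neg_abs_le (Real.log v), abs_nonneg (Real.log v)]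
  have k3 : a * n * j * Real.log 2 ≤ i * δ / 2 * Real.log 2 := by
    gcongr
    calc a * n * j ≤ δ / 2 * i := by gcongr
      _ = _ := by ring
  have key : Real.log t - j * Real.log 2 +
      (a * (Real.log K + q1 n * Real.log l + n * Real.log t) + b * (0 - δ * Real.log l) +
        (1 - a - b) * (Real.log v + n * (Real.log t - j * Real.log 2))) -
      (Real.log v + n * (Real.log t - j * Real.log 2)) =
      a * Real.log K - (a + b) * Real.log v + a * n * j * Real.log 2 := by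
    linear_combination (Real.log l) * e2 - (Real.log t - j * Real.log 2) * e1
  linarith

lemma holder3 {α : Type*} [MeasurableSpace α] {μ : Measure α} {f g : α → ℝ≥0∞}
    (hf : AEMeasurable f μ) (hg : AEMeasurable g μ) {a b : ℝ} (ha : 0 ≤ a) (hb : 0 ≤ b)
    (hab : a + b ≤ 1) :
    ∫⁻ x, f x ^ a * g x ^ b ∂μ ≤ (∫⁻ x, f x ∂μ) ^ a * (∫⁻ x, g x ∂μ) ^ b * μ univ ^ (1 - a - b) := by
  have := ENNReal.lintegral_prod_norm_pow_le (μ := μ) (Finset.univ : Finset (Fin 3))
    (f := ![f, g, fun _ => 1]) (p := ![a, b, 1 - a - b])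
    (fun i _ => by fin_cases i <;> simp [hf, hg]) (by simp [Fin.sum_univ_three])
    (fun i _ => by fin_cases i <;> simp [ha, hb]; linarith)
  simpa [Fin.prod_univ_three] using this

end AP

open AP in
theorem stAP : StAP := by
  intro n hn
  have hn' : (3 : ℝ) ≤ n := by exact_mod_cast hn
  have hq : 5 / 2 ≤ q1 n := by unfold q1; linarith
  set C₀ : ℝ := Real.exp |Real.log (vb n)| with hC₀
  have hC₀0 : 0 < C₀ := Real.exp_pos _
  refine ⟨(3 + C₀).toNNReal, ?_⟩
  intro δ hδ h2 G x t l B K i hG ht hl hl' hK h1 hmx hB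
  have hC : (((3 + C₀).toNNReal : ℝ≥0) : ℝ≥0∞) = ENNReal.ofReal (3 + C₀) := rfl
  rw [hC]
  lift l to ℝ≥0 using hl'.ne
  have hl0 : (0 : ℝ) < l := by exact_mod_cast hl
  have hK1 : (1 : ℝ) ≤ K := by exact_mod_cast hK
  have hK1' : (1 : ℝ≥0∞) ≤ K := by exact_mod_cast hK
  set a := δ / (n * q1 n) with ha
  set b := 1 / (n : ℝ) with hb
  have ha0 : 0 ≤ a := by positivity
  have hb0 : 0 < b := by positivity
  have hb1 : b ≤ 1 / 3 := by rw [hb]; exact one_div_le_one_div_of_le (by norm_num) hn'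
  have ha1 : a ≤ 1 / 3 := by rw [ha, div_le_iff₀ (by positivity)]; nlinarith
  have e2 : q1 n * a + (n - δ) * b = 1 := by rw [ha, hb]; field_simp; ring
  have hS : MeasurableSet {y | (l : ℝ≥0∞) < G y} := measurableSet_lt measurable_const hG
  set H : E n → ℝ≥0∞ := {y | (l : ℝ≥0∞) < G y}.indicator G with hH
  have hlδ : (l : ℝ≥0∞) ^ δ = ENNReal.ofReal ((l : ℝ) ^ δ) := by
    rw [← ENNReal.ofReal_rpow_of_pos hl0, ENNReal.ofReal_coe_nnreal]
  have hI1 : ∫⁻ y in ball x t, G y ^ q1 n ≤ ENNReal.ofReal (K * (l : ℝ) ^ q1 n * t ^ n) := by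
    rw [ENNReal.ofReal_mul (by positivity), ENNReal.ofReal_mul (by positivity),
      ← ENNReal.ofReal_rpow_of_pos hl0, ENNReal.ofReal_coe_nnreal, ENNReal.ofReal_coe_nnreal]
    exact h1
  have hI2 : ∫⁻ y in ball x t, {y | (l : ℝ≥0∞) < G y}.indicator (fun y => G y ^ ((n : ℝ) - δ)) y ≤
      ENNReal.ofReal (1 / (l : ℝ) ^ δ) * B := by
    rw [lintegral_indicator hS, Measure.restrict_restrict hS, inter_comm,
      ENNReal.ofReal_div_of_pos (by positivity), ENNReal.ofReal_one, ← hlδ, one_div,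
      ← ENNReal.div_eq_inv_mul, ENNReal.le_div_iff_mul_le
        (Or.inl (by rw [hlδ]; exact (ENNReal.ofReal_pos.2 (by positivity)).ne'))
        (Or.inl (by rw [hlδ]; exact ENNReal.ofReal_ne_top)), mul_comm]
    exact hB
  have hterm : ∀ j ≤ i, ENNReal.ofReal (t / 2 ^ j) * av H x (t / 2 ^ j) ≤
      ENNReal.ofReal C₀ * K * 2 ^ ((i : ℝ) * δ / 2) * B ^ b := by
    intro j hj
    have htj : 0 < t / 2 ^ j := by positivity
    have hsub : ball x (t / 2 ^ j) ⊆ ball x t :=
      ball_subset_ball (div_le_self ht.le (one_le_pow₀ (by norm_num)))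
    have hvb := vb_pos (n := n)
    have g1 : ∫⁻ y in ball x (t / 2 ^ j), H y ≤
        ENNReal.ofReal (K * (l : ℝ) ^ q1 n * t ^ n) ^ a * (ENNReal.ofReal (1 / (l : ℝ) ^ δ) * B) ^ b *
          ENNReal.ofReal (vb n * (t / 2 ^ j) ^ n) ^ (1 - a - b) := by
      have g2 := holder3 (μ := volume.restrict (ball x (t / 2 ^ j)))
        (hG.pow_const (q1 n)).aemeasurable
        ((hG.pow_const ((n : ℝ) - δ)).indicator hS).aemeasurable ha0 hb0.le (by linarith)
      rw [Measure.restrict_apply_univ, vol_ball x htj] at g2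
      refine le_trans (lintegral_mono fun y => ?_) (g2.trans ?_)
      · by_cases hy : (l : ℝ≥0∞) < G y
        · simp only [hH, indicator_of_mem (show y ∈ {y | (l : ℝ≥0∞) < G y} from hy)]
          rw [← ENNReal.rpow_mul, ← ENNReal.rpow_mul, ← ENNReal.rpow_add_of_nonneg _ _
            (by positivity) (mul_nonneg (by linarith) hb0.le), e2, ENNReal.rpow_one]
        · simp [hH, indicator_of_notMem (show y ∉ {y | (l : ℝ≥0∞) < G y} from hy)]
      · gcongr
        · exact (lintegral_mono_set hsub).trans hI1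
        · exact (lintegral_mono_set hsub).trans hI2
    have g3 := real_ineq hn hδ h2 ht hl0 hK1 hvb hj
    rw [← ha, ← hb, ← hC₀] at g3
    unfold av
    rw [vol_ball x htj]
    calc _ ≤ ENNReal.ofReal (t / 2 ^ j) * ((ENNReal.ofReal (K * (l : ℝ) ^ q1 n * t ^ n) ^ a *
          (ENNReal.ofReal (1 / (l : ℝ) ^ δ) * B) ^ b *
          ENNReal.ofReal (vb n * (t / 2 ^ j) ^ n) ^ (1 - a - b)) /
            ENNReal.ofReal (vb n * (t / 2 ^ j) ^ n)) := by gcongr
      _ = ENNReal.ofReal (t / 2 ^ j * ((K * (l : ℝ) ^ q1 n * t ^ n) ^ a * (1 / (l : ℝ) ^ δ) ^ b *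
          (vb n * (t / 2 ^ j) ^ n) ^ (1 - a - b)) / (vb n * (t / 2 ^ j) ^ n)) * B ^ b := by
        rw [ENNReal.ofReal_div_of_pos (y := vb n * _) (by positivity), ENNReal.ofReal_mul htj.le,
          ENNReal.ofReal_mul (p := _ ^ a * _) (by positivity),
          ENNReal.ofReal_mul (p := _ ^ a) (by positivity),
          ← ENNReal.ofReal_rpow_of_pos (by positivity), ← ENNReal.ofReal_rpow_of_pos (by positivity),
          ← ENNReal.ofReal_rpow_of_pos (by positivity), ENNReal.mul_rpow_of_nonneg _ _ hb0.le]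
        simp only [div_eq_mul_inv]
        ring
      _ ≤ ENNReal.ofReal (C₀ * K * 2 ^ ((i : ℝ) * δ / 2)) * B ^ b := by gcongr
      _ = _ := by
        rw [ENNReal.ofReal_mul (by positivity), ENNReal.ofReal_mul hC₀0.le,
          ← ENNReal.ofReal_rpow_of_pos (by norm_num), ENNReal.ofReal_coe_nnreal,
          ENNReal.ofReal_ofNat]
  have hav : ∀ j : ℕ, av G x (t / 2 ^ j) ≤ l + av H x (t / 2 ^ j) := by
    intro j
    calc av G x (t / 2 ^ j) ≤ av (fun y => (l : ℝ≥0∞) + H y) x (t / 2 ^ j) := av_mono fun y _ => by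
          by_cases hy : (l : ℝ≥0∞) < G y
          · simp only [hH, indicator_of_mem (show y ∈ {y | (l : ℝ≥0∞) < G y} from hy)]
            exact le_add_self
          · exact (not_lt.1 hy).trans le_self_add
      _ = av (fun _ => (l : ℝ≥0∞)) x (t / 2 ^ j) + av H x (t / 2 ^ j) :=
          av_add measurable_const H x _
      _ ≤ _ := by gcongr; exact av_le_const (Eventually.of_forall fun _ _ => le_rfl)
  have htail : pot G (t / 2 ^ (i + 1)) x ≤ K * (ENNReal.ofReal t * l) := by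
    refine (pot_le_mx G (by positivity) (O := ball x t) (ball_subset_ball
      (div_le_self ht.le (one_le_pow₀ (by norm_num))))).trans ?_
    have e : ENNReal.ofReal t = 2 * ENNReal.ofReal (t / 2 ^ (i + 1)) * 2 ^ i := by
      rw [← ENNReal.ofReal_ofNat 2, ← ENNReal.ofReal_pow (by norm_num),
        ← ENNReal.ofReal_mul (by norm_num), ← ENNReal.ofReal_mul (by positivity)]
      congr 1; field_simp; ring
    calc _ ≤ 2 * ENNReal.ofReal (t / 2 ^ (i + 1)) * (K * (2 ^ i * l)) := by gcongr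
      _ = K * (2 * ENNReal.ofReal (t / 2 ^ (i + 1)) * 2 ^ i * l) := by ring
      _ = _ := by rw [← e]
  have hhead : ∑ j ∈ Finset.range (i + 1), ENNReal.ofReal (t / 2 ^ j) * av G x (t / 2 ^ j) ≤
      2 * ENNReal.ofReal t * l +
        (i + 1) * (ENNReal.ofReal C₀ * K * 2 ^ ((i : ℝ) * δ / 2) * B ^ b) := by
    calc _ ≤ ∑ j ∈ Finset.range (i + 1), (ENNReal.ofReal (t / 2 ^ j) * l +
          ENNReal.ofReal C₀ * K * 2 ^ ((i : ℝ) * δ / 2) * B ^ b) := Finset.sum_le_sum fun j hj => by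
          refine le_trans (mul_le_mul_right (hav j) _) ?_
          rw [mul_add]
          exact add_le_add le_rfl (hterm j (by simpa [Nat.lt_succ_iff] using hj))
      _ ≤ _ := by
          rw [Finset.sum_add_distrib, ← Finset.sum_mul, ← tsum_ofReal_half ht]
          gcongr
          · exact ENNReal.sum_le_tsum _
          · simp
  rw [pot_shift G t (i + 1) x, ENNReal.ofReal_add (by norm_num) hC₀0.le, ENNReal.ofReal_ofNat]
  set P := ENNReal.ofReal t * l
  set R := ((i : ℝ≥0∞) + 1) * 2 ^ ((i : ℝ) * δ / 2) * B ^ b with hR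
  calc _ ≤ 2 * ENNReal.ofReal t * l +
        (i + 1) * (ENNReal.ofReal C₀ * K * 2 ^ ((i : ℝ) * δ / 2) * B ^ b) + K * P := by gcongr
    _ = 2 * (1 * P) + K * P + ENNReal.ofReal C₀ * K * R := by simp only [P, hR]; ring
    _ ≤ 2 * (K * P) + K * P + ENNReal.ofReal C₀ * K * R := by gcongr
    _ ≤ 2 * (K * P) + K * P + ENNReal.ofReal C₀ * K * R + (3 * K * R + ENNReal.ofReal C₀ * K * P) :=
        le_self_add
    _ = _ := by ring

end Pool.Agent.P.MP_28243e_an
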