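import Pool.Agent.P.MP_28243e_an.B1

/-! Poincare type inequalities for continuously differentiable maps. -/

namespace Pool.Agent.P.MP_28243e_an

open Set MeasureTheory Metric Filter Topology ENNReal
open scoped NNReal ContDiff RealInnerProductSpace Classical

namespace B

variable {n : ℕ}

theorem av_le_int (Z : E n → ℝ≥0∞) {O : Set (E n)} {x : E n} {r s : ℝ} (hs : 0 < s) (hr : s ≤ r)
    (h : ball x r ⊆ O) : av Z x r ≤ ENNReal.ofReal (vb n * s ^ n)⁻¹ * ∫⁻ z in O, Z z := by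
  have hv := vb_pos (n := n)
  rw [av, vol_ball x (hs.trans_le hr), ENNReal.div_eq_inv_mul,
    ← ENNReal.ofReal_inv_of_pos (by have := hs.trans_le hr; positivity)]
  gcongr

theorem two_pow_eq (n : ℕ) : (2 : ℝ≥0∞) ^ n = ENNReal.ofReal (2 ^ n) := by
  rw [ENNReal.ofReal_pow (by norm_num), ENNReal.ofReal_ofNat]

theorem seg_sub {x x' : E n} {t : ℝ} (hx : ‖x - x'‖ ≤ t) {τ : ℝ} (hτ : τ ∈ Icc (0 : ℝ) 1) :
    closedBall (x + τ • (x' - x)) (t + τ * (t - t)) ⊆ closedBall x (2 * t) := by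
  apply closedBall_subset_closedBall'
  rw [dist_eq_norm, add_sub_cancel_left, norm_smul, Real.norm_eq_abs, abs_of_nonneg hτ.1,
    norm_sub_rev]
  nlinarith [hτ.1, hτ.2, norm_nonneg (x - x')]

theorem seg_sub' {x x' : E n} {t : ℝ} (hx : ‖x - x'‖ ≤ t) {τ : ℝ} (hτ : τ ∈ Icc (0 : ℝ) 1) :
    ball (x + τ • (x' - x)) (t + τ * (t - t)) ⊆ ball x (2 * t) := by
  apply ball_subset_ball'
  rw [dist_eq_norm, add_sub_cancel_left, norm_smul, Real.norm_eq_abs, abs_of_nonneg hτ.1,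
    norm_sub_rev]
  nlinarith [hτ.1, hτ.2, norm_nonneg (x - x')]

theorem exists_perp (hn : 3 ≤ n) (u v : E n) {ρ : ℝ} (hρ : 0 < ρ) :
    ∃ w : E n, ‖w‖ = ρ ∧ ⟪u, w⟫ = 0 ∧ ⟪v, w⟫ = 0 := by
  let L : E n →ₗ[ℝ] ℝ × ℝ := (innerₛₗ ℝ u).prod (innerₛₗ ℝ v)
  have hk : LinearMap.ker L ≠ ⊥ := by
    apply LinearMap.ker_ne_bot_of_finrank_lt
    simp only [Module.finrank_prod, Module.finrank_self, finrank_euclideanSpace, Fintype.card_fin]
    omega
  obtain ⟨w, hw, hw0⟩ := Submodule.exists_mem_ne_zero_of_ne_bot hk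
  have hw' : ⟪u, w⟫ = 0 ∧ ⟪v, w⟫ = 0 := by
    have := LinearMap.mem_ker.1 hw
    simpa [L, Prod.ext_iff] using this
  have hn0 : 0 < ‖w‖ := norm_pos_iff.2 hw0
  refine ⟨(ρ / ‖w‖) • w, ?_, ?_, ?_⟩
  · rw [norm_smul, Real.norm_eq_abs, abs_of_pos (by positivity)]
    field_simp
  · rw [inner_smul_right, hw'.1, mul_zero]
  · rw [inner_smul_right, hw'.2, mul_zero]

theorem ann_sub {y a w : E n} {ρ τ s : ℝ} (hρ : 0 < ρ) (ha1 : ρ / 2 ≤ ‖a - y‖)
    (ha2 : ‖a - y‖ ≤ 2 * ρ) (hw : ‖w‖ = ρ) (hp : ⟪a - y, w⟫ = 0) (hτ : τ ∈ Icc (0 : ℝ) 1)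
    (hs : s ≤ ρ / 16) :
    closedBall (a + τ • (y + w - a)) s ⊆ ball y (4 * ρ) \ closedBall y (ρ / 4) := by
  set c := a + τ • (y + w - a) with hc
  have e : c - y = (1 - τ) • (a - y) + τ • w := by rw [hc]; module
  have hsq : ‖c - y‖ ^ 2 = (1 - τ) ^ 2 * ‖a - y‖ ^ 2 + τ ^ 2 * ρ ^ 2 := by
    rw [e, norm_add_sq_real, inner_smul_left, inner_smul_right, hp, norm_smul, norm_smul, hw,
      Real.norm_eq_abs, Real.norm_eq_abs, mul_pow, mul_pow, sq_abs, sq_abs]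
    simp
  have hA1 : ρ ^ 2 / 4 ≤ ‖a - y‖ ^ 2 := by nlinarith
  have hA2 : ‖a - y‖ ^ 2 ≤ 4 * ρ ^ 2 := by nlinarith [norm_nonneg (a - y)]
  have hlo : 3 * ρ / 8 ≤ ‖c - y‖ := by
    apply (pow_le_pow_iff_left₀ (by positivity) (norm_nonneg _) two_ne_zero).1
    rw [hsq]
    have h1 : (1 - τ) ^ 2 * (ρ ^ 2 / 4) ≤ (1 - τ) ^ 2 * ‖a - y‖ ^ 2 := by gcongr
    have h2 : 0 ≤ ρ ^ 2 * (τ - 1 / 5) ^ 2 := by positivity
    have h3 : 0 ≤ ρ ^ 2 := by positivity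
    nlinarith
  have hhi : ‖c - y‖ ≤ 3 * ρ := by
    apply (pow_le_pow_iff_left₀ (norm_nonneg _) (by positivity) two_ne_zero).1
    rw [hsq]
    have h1 : (1 - τ) ^ 2 * ‖a - y‖ ^ 2 ≤ (1 - τ) ^ 2 * (4 * ρ ^ 2) := by gcongr
    have h2 : (1 - τ) ^ 2 ≤ 1 := by nlinarith [hτ.1, hτ.2]
    have h3 : τ ^ 2 ≤ 1 := by nlinarith [hτ.1, hτ.2]
    have h4 : 0 ≤ ρ ^ 2 := by positivity
    nlinarith
  intro z hz
  rw [mem_closedBall, dist_eq_norm] at hz
  have t1 : ‖z - y‖ ≤ ‖z - c‖ + ‖c - y‖ := norm_sub_le_norm_sub_add_norm_sub z c y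
  have t2 : ‖c - y‖ ≤ ‖c - z‖ + ‖z - y‖ := norm_sub_le_norm_sub_add_norm_sub c z y
  rw [norm_sub_rev c z] at t2
  constructor
  · rw [mem_ball, dist_eq_norm]; linarith
  · rw [mem_closedBall, dist_eq_norm, not_le]; linarith

variable {F : Type} [NormedAddCommGroup F] [NormedSpace ℝ F] [CompleteSpace F]
  {f : E n → F} {O : Set (E n)} {Z : E n → ℝ≥0∞}

omit [NormedSpace ℝ F] [CompleteSpace F] in
theorem enorm_tri (a b c : F) : ‖a - c‖ₑ ≤ ‖a - b‖ₑ + ‖b - c‖ₑ := by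
  have : a - c = (a - b) + (b - c) := by abel
  rw [this]
  exact enorm_add_le _ _

theorem item2 (hO : IsOpen O) (hf : ContDiffOn ℝ 1 f O)
    (hZ : ∀ᵐ z, z ∈ O → ‖fderiv ℝ f z‖ₑ ≤ Z z) {x x' : E n} {t : ℝ} (ht : 0 < t)
    (h : ∀ τ ∈ Icc (0 : ℝ) 1, closedBall (x + τ • (x' - x)) t ⊆ O) :
    ‖bav f x t - bav f x' t‖ₑ ≤
      ENNReal.ofReal (vb n)⁻¹ * ENNReal.ofReal (‖x - x'‖ / t ^ n) * ∫⁻ z in O, Z z := by
  have hv := vb_pos (n := n)
  have := key' hO hf hZ (x := x) (x' := x') ht ht (by simpa using h)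
    (M := ENNReal.ofReal (vb n * t ^ n)⁻¹ * ∫⁻ z in O, Z z) (fun τ hτ => by
      simp only [sub_self, mul_zero, add_zero]
      exact av_le_int Z ht le_rfl (ball_subset_closedBall.trans (h τ hτ)))
  refine this.trans (le_of_eq ?_)
  rw [← mul_assoc, ← ENNReal.ofReal_mul (by positivity), ← ENNReal.ofReal_mul (by positivity)]
  congr 2
  simp only [sub_self, abs_zero, add_zero]
  field_simp

theorem near (hO : IsOpen O) (hf : ContDiffOn ℝ 1 f O)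
    (hZ : ∀ᵐ z, z ∈ O → ‖fderiv ℝ f z‖ₑ ≤ Z z) {x x' : E n} {t : ℝ} (ht : 0 < t)
    (hx : ‖x - x'‖ ≤ t) (h : closedBall x (2 * t) ⊆ O) :
    ‖bav f x t - bav f x' t‖ₑ ≤ 2 ^ n * ENNReal.ofReal t * av Z x (2 * t) := by
  have := key' hO hf hZ (x := x) (x' := x') ht ht (fun τ hτ => (seg_sub hx hτ).trans h)
    (M := 2 ^ n * av Z x (2 * t)) (fun τ hτ => by
      rw [two_pow_eq]
      exact av_le_av Z (by simpa using ht) (seg_sub' hx hτ) (by simp))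
  refine this.trans ?_
  rw [← mul_assoc, mul_comm _ ((2 : ℝ≥0∞) ^ n)]
  gcongr
  simpa using hx

theorem item3 (hO : IsOpen O) (hf : ContDiffOn ℝ 1 f O) (hm : Measurable Z)
    (hZ : ∀ᵐ z, z ∈ O → ‖fderiv ℝ f z‖ₑ ≤ Z z) {x : E n} {t : ℝ} (ht : 0 < t)
    (h : closedBall x (2 * t) ⊆ O) :
    av (fun z => ‖f z - bav f x t‖ₑ) x t ≤
      (2 ^ n * 2 ^ (n + 1) + 2 ^ n) * ENNReal.ofReal t * av Z x (2 * t) := by
  have h1 : av (fun z => ‖f z - bav f x t‖ₑ) x t ≤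
      av (fun z => 2 ^ n * pot Z t z + 2 ^ n * ENNReal.ofReal t * av Z x (2 * t)) x t := by
    apply av_mono
    intro z hz
    rw [mem_ball, dist_eq_norm, norm_sub_rev] at hz
    refine (enorm_tri _ (bav f z t) _).trans (add_le_add ?_ ?_)
    · apply item1 hO hf hZ ht
      refine Subset.trans (closedBall_subset_closedBall' ?_) h
      rw [dist_eq_norm, norm_sub_rev]; linarith
    · rw [enorm_sub_rev]
      exact near hO hf hZ ht hz.le h
  refine h1.trans ?_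
  rw [av_add ((measurable_pot hm t).const_mul _), av_const_mul (measurable_pot hm t), add_mul,
    add_mul]
  refine add_le_add ?_ (av_le_const (Eventually.of_forall fun _ _ => le_rfl))
  rw [mul_assoc, mul_assoc, ← mul_assoc ((2 : ℝ≥0∞) ^ (n + 1))]
  gcongr
  exact av_pot hm ht x

theorem item4 (hO : IsOpen O) (hf : ContDiffOn ℝ 1 f O)
    (hZ : ∀ᵐ z, z ∈ O → ‖fderiv ℝ f z‖ₑ ≤ Z z) {x x' : E n}
    (h : closedBall x (2 * ‖x - x'‖) ⊆ O) :
    ‖f x - f x'‖ₑ ≤ (3 * 2 ^ n) * ‖x - x'‖ₑ * (mx (O.indicator Z) x + mx (O.indicator Z) x') := by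
  rcases eq_or_ne x x' with rfl | hne
  · simp
  have ht : 0 < ‖x - x'‖ := norm_pos_iff.2 (sub_ne_zero.2 hne)
  set t := ‖x - x'‖ with htd
  have hx : closedBall x t ⊆ O := (closedBall_subset_closedBall (by linarith)).trans h
  have hx' : closedBall x' t ⊆ O := by
    refine Subset.trans (closedBall_subset_closedBall' ?_) h
    rw [dist_eq_norm, norm_sub_rev]; linarith
  have a1 := (item1 hO hf hZ ht hx).trans
    (mul_le_mul_right (pot_le_mx Z ht (ball_subset_closedBall.trans hx)) _)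
  have a2 := (item1 hO hf hZ ht hx').trans
    (mul_le_mul_right (pot_le_mx Z ht (ball_subset_closedBall.trans hx')) _)
  have a3 : ‖bav f x t - bav f x' t‖ₑ ≤ 2 ^ n * ENNReal.ofReal t * mx (O.indicator Z) x := by
    refine (near hO hf hZ ht le_rfl h).trans ?_
    rw [← av_indicator Z (ball_subset_closedBall.trans h)]
    gcongr
    exact av_le_mx _ _ (by linarith)
  rw [enorm_sub_rev] at a2
  rw [← ofReal_norm (x - x'), ← htd]
  refine (enorm_tri _ (bav f x t) _).trans ?_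
  refine (add_le_add a1 ((enorm_tri _ (bav f x' t) _).trans (add_le_add a3 a2))).trans ?_
  set A := mx (O.indicator Z) x
  set A' := mx (O.indicator Z) x'
  set T := ENNReal.ofReal t
  calc 2 ^ n * (2 * T * A) + (2 ^ n * T * A + 2 ^ n * (2 * T * A'))
      ≤ 2 ^ n * (2 * T * A) + (2 ^ n * T * A + 2 ^ n * (2 * T * A')) + 2 ^ n * T * A' :=
        le_self_add
    _ = 3 * 2 ^ n * T * (A + A') := by ring

theorem leg (hO : IsOpen O) (hf : ContDiffOn ℝ 1 f O)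
    (hZ : ∀ᵐ z, z ∈ O → ‖fderiv ℝ f z‖ₑ ≤ Z z) {y a w : E n} {ρ t : ℝ} (hρ : 0 < ρ)
    (hOe : O = ball y (4 * ρ) \ closedBall y (ρ / 4)) (ha1 : ρ / 2 ≤ ‖a - y‖)
    (ha2 : ‖a - y‖ ≤ 2 * ρ) (hw : ‖w‖ = ρ) (hp : ⟪a - y, w⟫ = 0) (ht1 : ρ / 64 ≤ t)
    (ht2 : t ≤ ρ / 16) :
    ‖bav f a t - bav f (y + w) (ρ / 64)‖ₑ ≤
      ENNReal.ofReal (4 * 64 ^ n / vb n) * ENNReal.ofReal (ρ / ρ ^ n) * ∫⁻ z in O, Z z := by
  have hv := vb_pos (n := n)
  have hb : ∀ τ ∈ Icc (0 : ℝ) 1,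
      closedBall (a + τ • (y + w - a)) (t + τ * (ρ / 64 - t)) ⊆ O := fun τ hτ => by
    rw [hOe]
    exact ann_sub hρ ha1 ha2 hw hp hτ (by nlinarith [hτ.1, hτ.2])
  have := key' hO hf hZ (x := a) (x' := y + w) (t := t) (t' := ρ / 64) (by linarith)
    (by positivity) hb (M := ENNReal.ofReal (vb n * (ρ / 64) ^ n)⁻¹ * ∫⁻ z in O, Z z)
    (fun τ hτ => av_le_int Z (by positivity) (by nlinarith [hτ.1, hτ.2])
      (ball_subset_closedBall.trans (hb τ hτ)))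
  refine this.trans ?_
  rw [← mul_assoc, ← ENNReal.ofReal_mul (by positivity), ← ENNReal.ofReal_mul (by positivity)]
  refine mul_le_mul_left (ENNReal.ofReal_le_ofReal ?_) _
  have h1 : ‖a - (y + w)‖ ≤ 3 * ρ := by
    have e : a - (y + w) = (a - y) - w := by abel
    rw [e]
    have := norm_sub_le (a - y) w
    linarith
  have h2 : |t - ρ / 64| ≤ ρ := by rw [abs_of_nonneg (by linarith)]; linarith
  calc (‖a - (y + w)‖ + |t - ρ / 64|) * (vb n * (ρ / 64) ^ n)⁻¹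
      ≤ (4 * ρ) * (vb n * (ρ / 64) ^ n)⁻¹ := by gcongr; linarith
    _ = 4 * 64 ^ n / vb n * (ρ / ρ ^ n) := by rw [div_pow]; field_simp

theorem item5 (hn : 3 ≤ n) (hO : IsOpen O) (hf : ContDiffOn ℝ 1 f O)
    (hZ : ∀ᵐ z, z ∈ O → ‖fderiv ℝ f z‖ₑ ≤ Z z) {y a b : E n} {ρ t t' : ℝ} (hρ : 0 < ρ)
    (hOe : O = ball y (4 * ρ) \ closedBall y (ρ / 4)) (ha1 : ρ / 2 ≤ ‖a - y‖)
    (ha2 : ‖a - y‖ ≤ 2 * ρ) (hb1 : ρ / 2 ≤ ‖b - y‖) (hb2 : ‖b - y‖ ≤ 2 * ρ) (ht1 : ρ / 64 ≤ t)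
    (ht2 : t ≤ ρ / 16) (ht1' : ρ / 64 ≤ t') (ht2' : t' ≤ ρ / 16) :
    ‖bav f a t - bav f b t'‖ₑ ≤
      ENNReal.ofReal (8 * 64 ^ n / vb n) * ENNReal.ofReal (ρ / ρ ^ n) * (∫⁻ z in O, Z z) ∧
    ‖f a - bav f b t'‖ₑ ≤
      ENNReal.ofReal (2 ^ n + 8 * 64 ^ n * 6 ^ n) * ENNReal.ofReal ρ * mx (O.indicator Z) a := by
  have hv := vb_pos (n := n)
  obtain ⟨w, hw, hpa, hpb⟩ := exists_perp hn (a - y) (b - y) hρ
  have l1 := leg hO hf hZ hρ hOe ha1 ha2 hw hpa ht1 ht2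
  have l2 := leg hO hf hZ hρ hOe hb1 hb2 hw hpb ht1' ht2'
  rw [enorm_sub_rev] at l2
  have first : ‖bav f a t - bav f b t'‖ₑ ≤
      ENNReal.ofReal (8 * 64 ^ n / vb n) * ENNReal.ofReal (ρ / ρ ^ n) * (∫⁻ z in O, Z z) := by
    refine (enorm_tri _ (bav f (y + w) (ρ / 64)) _).trans ((add_le_add l1 l2).trans (le_of_eq ?_))
    rw [← add_mul, ← add_mul, ← ENNReal.ofReal_add (by positivity) (by positivity)]
    congr 3
    ring
  refine ⟨first, ?_⟩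
  have ht : 0 < t := by linarith
  have hba : closedBall a t ⊆ O := by
    have := ann_sub hρ ha1 ha2 hw hpa (τ := 0) ⟨le_rfl, zero_le_one⟩ ht2
    rw [hOe]
    simpa using this
  have a1 := (item1 hO hf hZ ht hba).trans
    (mul_le_mul_right (pot_le_mx Z ht (ball_subset_closedBall.trans hba)) _)
  have hsub : O ⊆ ball a (6 * ρ) := by
    rw [hOe]
    refine sdiff_subset.trans (ball_subset_ball' ?_)
    rw [dist_eq_norm, norm_sub_rev]; linarith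
  have a2 : ∫⁻ z in O, Z z ≤ ENNReal.ofReal (vb n * (6 * ρ) ^ n) * mx (O.indicator Z) a := by
    rw [← vol_ball a (by positivity)]
    calc ∫⁻ z in O, Z z = ∫⁻ z in ball a (6 * ρ), O.indicator Z z := by
          rw [lintegral_indicator hO.measurableSet, Measure.restrict_restrict hO.measurableSet,
            inter_eq_left.2 hsub]
      _ = volume (ball a (6 * ρ)) * av (O.indicator Z) a (6 * ρ) :=
          lint_ball_eq _ _ (by positivity)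
      _ ≤ _ := by gcongr; exact av_le_mx _ _ (by positivity)
  refine (enorm_tri _ (bav f a t) _).trans ?_
  refine (add_le_add a1 (first.trans (mul_le_mul_right a2 _))).trans ?_
  set A := mx (O.indicator Z) a
  rw [← mul_assoc, ← mul_assoc _ _ A, ← add_mul]
  gcongr
  rw [two_pow_eq, ← ENNReal.ofReal_ofNat 2, ← ENNReal.ofReal_mul (by positivity),
    ← ENNReal.ofReal_mul (by positivity), ← ENNReal.ofReal_mul (by positivity),
    ← ENNReal.ofReal_mul (by positivity), ← ENNReal.ofReal_mul (by positivity),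
    ← ENNReal.ofReal_add (by positivity) (by positivity)]
  apply ENNReal.ofReal_le_ofReal
  have e : 8 * 64 ^ n / vb n * (ρ / ρ ^ n) * (vb n * (6 * ρ) ^ n) = 8 * 64 ^ n * 6 ^ n * ρ := by
    rw [mul_pow]; field_simp
  rw [e, add_mul]
  have h2 : (0 : ℝ) < 2 ^ n := by positivity
  nlinarith

end B

theorem stB : StB := by
  intro n hn
  have hv := vb_pos (n := n)
  set c : ℝ := 2 ^ n + (vb n)⁻¹ + (2 ^ n * 2 ^ (n + 1) + 2 ^ n) + 3 * 2 ^ n + 8 * 64 ^ n / vb n +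
    (2 ^ n + 8 * 64 ^ n * 6 ^ n) with hc
  have p1 : (0 : ℝ) < 2 ^ n := by positivity
  have p2 : (0 : ℝ) < (vb n)⁻¹ := by positivity
  have p3 : (0 : ℝ) < 2 ^ n * 2 ^ (n + 1) + 2 ^ n := by positivity
  have p4 : (0 : ℝ) < 8 * 64 ^ n / vb n := by positivity
  have p5 : (0 : ℝ) < 2 ^ n + 8 * 64 ^ n * 6 ^ n := by positivity
  have hcc : ∀ r : ℝ, r ≤ c → ENNReal.ofReal r ≤ (c.toNNReal : ℝ≥0∞) := fun r hr =>
    ENNReal.ofReal_le_ofReal hr
  refine ⟨c.toNNReal, fun F _ _ _ f O Z hO hf hm hZ => ⟨?_, ?_, ?_, ?_, ?_⟩⟩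
  · intro x t ht h
    refine (B.item1 hO hf hZ ht h).trans ?_
    gcongr
    rw [B.two_pow_eq]
    exact hcc _ (by linarith)
  · intro x x' t ht h
    refine (B.item2 hO hf hZ ht h).trans ?_
    gcongr
    exact hcc _ (by linarith)
  · intro x t ht h
    refine (B.item3 hO hf hm hZ ht h).trans ?_
    gcongr
    rw [B.two_pow_eq, B.two_pow_eq, ← ENNReal.ofReal_mul p1.le,
      ← ENNReal.ofReal_add (by positivity) p1.le]
    exact hcc _ (by linarith)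
  · intro x x' h
    refine (B.item4 hO hf hZ h).trans ?_
    gcongr
    rw [B.two_pow_eq, ← ENNReal.ofReal_ofNat 3, ← ENNReal.ofReal_mul (by norm_num)]
    exact hcc _ (by linarith)
  · intro y ρ hρ hOe a b t t' ha1 ha2 hb1 hb2 ht1 ht2 ht1' ht2'
    obtain ⟨h1, h2⟩ := B.item5 hn hO hf hZ hρ hOe ha1 ha2 hb1 hb2 ht1 ht2 ht1' ht2'
    refine ⟨h1.trans ?_, h2.trans ?_⟩
    · gcongr
      exact hcc _ (by linarith)
    · gcongr
      exact hcc _ (by linarith)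

end Pool.Agent.P.MP_28243e_an
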