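import Pool.Agent.P.MP_28243e_an.Basic

/-! Poincare type inequalities for continuously differentiable maps: the basic transport lemma. -/

namespace Pool.Agent.P.MP_28243e_an.B

open Set MeasureTheory Metric Filter Topology ENNReal
open scoped NNReal ContDiff RealInnerProductSpace Classical

variable {n : ℕ}

/-- Normalised Lebesgue measure of a ball. -/
noncomputable def nb (x : E n) (t : ℝ) : Measure (E n) :=
  (volume (ball x t))⁻¹ • volume.restrict (ball x t)

theorem nb_prob (x : E n) {t : ℝ} (ht : 0 < t) : IsProbabilityMeasure (nb x t) := by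
  constructor
  simp only [nb, Measure.smul_apply, Measure.restrict_apply MeasurableSet.univ, univ_inter,
    smul_eq_mul]
  exact ENNReal.inv_mul_cancel (vol_ball_pos x ht) (vol_ball_ne_top x t)

theorem av_eq (g : E n → ℝ≥0∞) (x : E n) (t : ℝ) : av g x t = ∫⁻ z, g z ∂nb x t := by
  simp only [av, nb, lintegral_smul_measure, smul_eq_mul]
  rw [ENNReal.div_eq_inv_mul]

theorem bav_eq {F : Type} [NormedAddCommGroup F] [NormedSpace ℝ F] (f : E n → F) (x : E n)
    (t : ℝ) : bav f x t = ∫ z, f z ∂nb x t := by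
  rw [bav, setAverage_eq']
  rfl

theorem pre_ball (x : E n) {t : ℝ} (ht : 0 < t) :
    (fun z : E n => x + t • z) ⁻¹' ball x t = ball 0 1 := by
  ext z
  simp only [mem_preimage, mem_ball, dist_eq_norm, add_sub_cancel_left, sub_zero, norm_smul,
    Real.norm_eq_abs, abs_of_pos ht]
  constructor
  · intro h; nlinarith [norm_nonneg z]
  · intro h; nlinarith [norm_nonneg z]

theorem vol_pre (x : E n) {t : ℝ} (ht : 0 < t) (s : Set (E n)) :
    volume ((fun z : E n => x + t • z) ⁻¹' s) = (ENNReal.ofReal (t ^ n))⁻¹ * volume s := by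
  have h1 : (fun z : E n => x + t • z) ⁻¹' s = (fun z : E n => t • z) ⁻¹' ((fun z => x + z) ⁻¹' s) :=
    rfl
  rw [h1, Measure.addHaar_preimage_smul volume ht.ne', measure_preimage_add]
  simp only [finrank_euclideanSpace, Fintype.card_fin]
  rw [abs_of_pos (by positivity), ENNReal.ofReal_inv_of_pos (by positivity)]

theorem map_nb (x : E n) {t : ℝ} (ht : 0 < t) :
    Measure.map (fun z : E n => x + t • z) (nb 0 1) = nb x t := by
  have hm : Measurable fun z : E n => x + t • z := by fun_prop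
  ext s hs
  rw [Measure.map_apply hm hs]
  simp only [nb, Measure.smul_apply, smul_eq_mul]
  rw [Measure.restrict_apply (hm hs), Measure.restrict_apply hs, ← pre_ball x ht,
    ← preimage_inter, vol_pre x ht, vol_pre x ht]
  have h0 : ENNReal.ofReal (t ^ n) ≠ 0 := by
    simp only [ne_eq, ENNReal.ofReal_eq_zero, not_le]; positivity
  have h1 : ENNReal.ofReal (t ^ n) ≠ ⊤ := ENNReal.ofReal_ne_top
  rw [ENNReal.mul_inv (Or.inr (vol_ball_ne_top x t)) (Or.inr (vol_ball_pos x ht)), inv_inv,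
    mul_comm (ENNReal.ofReal (t ^ n)), mul_assoc, ← mul_assoc (ENNReal.ofReal (t ^ n)),
    ENNReal.mul_inv_cancel h0 h1, one_mul]

theorem emb (x : E n) {t : ℝ} (ht : 0 < t) : MeasurableEmbedding fun z : E n => x + t • z :=
  (((Homeomorph.smulOfNeZero t ht.ne').trans (Homeomorph.addLeft x)).toMeasurableEquiv
    : E n ≃ᵐ E n).measurableEmbedding

theorem av_eq' (g : E n → ℝ≥0∞) (x : E n) {t : ℝ} (ht : 0 < t) :
    av g x t = ∫⁻ z, g (x + t • z) ∂nb 0 1 := by
  rw [av_eq, ← map_nb x ht, (emb x ht).lintegral_map]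

section
variable {F : Type} [NormedAddCommGroup F] [NormedSpace ℝ F]

/-- Average over the rescaled unit ball. -/
noncomputable def AA (f : E n → F) (x : E n) (t : ℝ) : F := ∫ z, f (x + t • z) ∂nb 0 1

theorem bav_eq' (f : E n → F) (x : E n) {t : ℝ} (ht : 0 < t) : bav f x t = AA f x t := by
  rw [bav_eq, ← map_nb x ht, (emb x ht).integral_map, AA]

theorem AA_zero [CompleteSpace F] (f : E n → F) (x : E n) : AA f x 0 = f x := by
  have := nb_prob (0 : E n) one_pos
  simp [AA]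

theorem seg [CompleteSpace F] {f : E n → F} {O : Set (E n)} (hO : IsOpen O)
    (hf : ContDiffOn ℝ 1 f O) {p q : E n} (h : ∀ τ ∈ Icc (0 : ℝ) 1, p + τ • (q - p) ∈ O) :
    ‖f p - f q‖ₑ ≤ ∫⁻ τ in Ioc (0 : ℝ) 1, ‖fderiv ℝ f (p + τ • (q - p))‖ₑ * ‖p - q‖ₑ := by
  have hc : ContinuousOn (fderiv ℝ f) O := hf.continuousOn_fderiv_of_isOpen hO le_rfl
  have hl : Continuous fun τ : ℝ => p + τ • (q - p) := by fun_prop
  have hd : ∀ τ ∈ uIcc (0 : ℝ) 1, HasDerivAt (fun τ : ℝ => f (p + τ • (q - p)))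
      (fderiv ℝ f (p + τ • (q - p)) (q - p)) τ := by
    intro τ hτ
    rw [uIcc_of_le zero_le_one] at hτ
    have h1 : HasDerivAt (fun τ : ℝ => p + τ • (q - p)) (q - p) τ := by
      simpa using ((hasDerivAt_id τ).smul_const (q - p)).const_add p
    have h2 : DifferentiableAt ℝ f (p + τ • (q - p)) :=
      (hf.differentiableOn one_ne_zero).differentiableAt (hO.mem_nhds (h τ hτ))
    exact h2.hasFDerivAt.comp_hasDerivAt τ h1
  have hi : IntervalIntegrable (fun τ : ℝ => fderiv ℝ f (p + τ • (q - p)) (q - p)) volume 0 1 := by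
    apply ContinuousOn.intervalIntegrable
    rw [uIcc_of_le zero_le_one]
    exact (hc.comp hl.continuousOn h).clm_apply continuousOn_const
  have key := intervalIntegral.integral_eq_sub_of_hasDerivAt hd hi
  simp only [one_smul, add_sub_cancel, zero_smul, add_zero] at key
  rw [enorm_sub_rev, ← key, intervalIntegral.integral_of_le zero_le_one]
  refine (enorm_integral_le_lintegral_enorm _).trans (lintegral_mono fun τ => ?_)
  rw [enorm_sub_rev p q]
  exact ContinuousLinearMap.le_opENorm _ _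

theorem ae_nb : ∀ᵐ z ∂nb (0 : E n) 1, ‖z‖ < 1 := by
  apply Measure.ae_smul_measure
  rw [ae_restrict_iff' measurableSet_ball]
  exact Eventually.of_forall fun z hz => by simpa using hz

omit [NormedSpace ℝ F] in
theorem integrable_AA {f : E n → F} {O : Set (E n)} (hf : ContinuousOn f O) {x : E n} {t : ℝ}
    (ht : 0 ≤ t) (h : closedBall x t ⊆ O) : Integrable (fun z => f (x + t • z)) (nb 0 1) := by
  have hc : ContinuousOn (fun z : E n => f (x + t • z)) (closedBall 0 1) := by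
    refine hf.comp (by fun_prop) fun z hz => h ?_
    simp only [mem_closedBall, dist_eq_norm, add_sub_cancel_left, sub_zero, norm_smul,
      Real.norm_eq_abs, abs_of_nonneg ht] at hz ⊢
    nlinarith
  refine Integrable.smul_measure ?_ (ENNReal.inv_ne_top.2 (vol_ball_pos _ one_pos))
  exact (hc.integrableOn_compact (isCompact_closedBall 0 1)).mono_set ball_subset_closedBall

/-- Transport lemma: moving the centre and the radius of a ball along a segment. -/
theorem key [CompleteSpace F] {f : E n → F} {O : Set (E n)} {Z : E n → ℝ≥0∞} (hO : IsOpen O)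
    (hf : ContDiffOn ℝ 1 f O) (hZ : ∀ᵐ z, z ∈ O → ‖fderiv ℝ f z‖ₑ ≤ Z z) {x x' : E n} {t t' : ℝ}
    (ht : 0 ≤ t) (ht' : 0 < t')
    (h : ∀ τ ∈ Icc (0 : ℝ) 1, closedBall (x + τ • (x' - x)) (t + τ * (t' - t)) ⊆ O) :
    ‖AA f x t - AA f x' t'‖ₑ ≤ ENNReal.ofReal (‖x - x'‖ + |t - t'|) *
      ∫⁻ τ in Ioc (0 : ℝ) 1, av Z (x + τ • (x' - x)) (t + τ * (t' - t)) := by
  have := nb_prob (0 : E n) one_pos
  set g : E n → ℝ≥0∞ := fun z => ‖fderiv ℝ f z‖ₑ with hg
  have hgm : Measurable g := continuous_enorm.measurable.comp (measurable_fderiv ℝ f)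
  have h0 : closedBall x t ⊆ O := by simpa using h 0 ⟨le_rfl, zero_le_one⟩
  have h1 : closedBall x' t' ⊆ O := by simpa using h 1 ⟨zero_le_one, le_rfl⟩
  have hpos : ∀ τ ∈ Icc (0 : ℝ) 1, 0 ≤ t + τ * (t' - t) := fun τ hτ => by
    nlinarith [hτ.1, hτ.2]
  set L := ENNReal.ofReal (‖x - x'‖ + |t - t'|) with hL
  rw [AA, AA, ← integral_sub (integrable_AA hf.continuousOn ht h0)
    (integrable_AA hf.continuousOn ht'.le h1)]
  refine (enorm_integral_le_lintegral_enorm _).trans ?_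
  have step : ∀ᵐ z ∂nb (0 : E n) 1, ‖f (x + t • z) - f (x' + t' • z)‖ₑ ≤
      ∫⁻ τ in Ioc (0 : ℝ) 1, L * g (x + τ • (x' - x) + (t + τ * (t' - t)) • z) := by
    filter_upwards [ae_nb] with z hz
    have e : ∀ τ : ℝ, x + t • z + τ • (x' + t' • z - (x + t • z)) =
        x + τ • (x' - x) + (t + τ * (t' - t)) • z := fun τ => by module
    refine (seg hO hf fun τ hτ => ?_).trans (lintegral_mono fun τ => ?_)
    · rw [e]
      apply h τ hτ
      simp only [mem_closedBall, dist_eq_norm, add_sub_cancel_left, norm_smul,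
        Real.norm_eq_abs, abs_of_nonneg (hpos τ hτ)]
      nlinarith [hpos τ hτ]
    · rw [e, mul_comm]
      gcongr
      rw [hL, ← ofReal_norm]
      apply ENNReal.ofReal_le_ofReal
      have e2 : x + t • z - (x' + t' • z) = (x - x') + (t - t') • z := by module
      rw [e2]
      refine (norm_add_le _ _).trans ?_
      rw [norm_smul, Real.norm_eq_abs]
      nlinarith [abs_nonneg (t - t')]
  refine (lintegral_mono_ae step).trans ?_
  have hm : Measurable fun p : E n × ℝ =>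
      L * g (x + p.2 • (x' - x) + (t + p.2 * (t' - t)) • p.1) :=
    (hgm.comp (by fun_prop)).const_mul L
  rw [lintegral_lintegral_swap hm.aemeasurable, ← lintegral_const_mul' _ _ ENNReal.ofReal_ne_top]
  refine setLIntegral_mono' measurableSet_Ioc fun τ hτ => ?_
  have hp : 0 < t + τ * (t' - t) := by nlinarith [hτ.1, hτ.2]
  rw [lintegral_const_mul' _ _ ENNReal.ofReal_ne_top, ← av_eq' g _ hp]
  gcongr
  apply av_mono_ae
  filter_upwards [hZ] with z hz hzb
  exact hz (h τ ⟨hτ.1.le, hτ.2⟩ (ball_subset_closedBall hzb))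

theorem key' [CompleteSpace F] {f : E n → F} {O : Set (E n)} {Z : E n → ℝ≥0∞} (hO : IsOpen O)
    (hf : ContDiffOn ℝ 1 f O) (hZ : ∀ᵐ z, z ∈ O → ‖fderiv ℝ f z‖ₑ ≤ Z z) {x x' : E n} {t t' : ℝ}
    (ht : 0 < t) (ht' : 0 < t')
    (h : ∀ τ ∈ Icc (0 : ℝ) 1, closedBall (x + τ • (x' - x)) (t + τ * (t' - t)) ⊆ O) {M : ℝ≥0∞}
    (hM : ∀ τ ∈ Icc (0 : ℝ) 1, av Z (x + τ • (x' - x)) (t + τ * (t' - t)) ≤ M) :
    ‖bav f x t - bav f x' t'‖ₑ ≤ ENNReal.ofReal (‖x - x'‖ + |t - t'|) * M := by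
  rw [bav_eq' f x ht, bav_eq' f x' ht']
  refine (key hO hf hZ ht.le ht' h).trans ?_
  gcongr
  refine (setLIntegral_mono' measurableSet_Ioc fun τ hτ => hM τ ⟨hτ.1.le, hτ.2⟩).trans ?_
  simp

theorem item1 [CompleteSpace F] {f : E n → F} {O : Set (E n)} {Z : E n → ℝ≥0∞} (hO : IsOpen O)
    (hf : ContDiffOn ℝ 1 f O) (hZ : ∀ᵐ z, z ∈ O → ‖fderiv ℝ f z‖ₑ ≤ Z z) {x : E n} {t : ℝ}
    (ht : 0 < t) (h : closedBall x t ⊆ O) : ‖f x - bav f x t‖ₑ ≤ 2 ^ n * pot Z t x := by
  rw [bav_eq' f x ht, ← AA_zero f x]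
  have hb : ∀ τ ∈ Icc (0 : ℝ) 1, closedBall (x + τ • (x - x)) (0 + τ * (t - 0)) ⊆ O := by
    intro τ hτ
    simp only [sub_self, smul_zero, add_zero, sub_zero, zero_add]
    exact (closedBall_subset_closedBall (by nlinarith [hτ.1, hτ.2])).trans h
  refine (key hO hf hZ le_rfl ht hb).trans ?_
  simp only [sub_self, smul_zero, add_zero, sub_zero, zero_add, norm_zero, zero_sub, abs_neg,
    abs_of_pos ht]
  have hcov : Ioc (0 : ℝ) 1 ⊆ ⋃ j : ℕ, Ioc ((1 / 2 : ℝ) ^ (j + 1)) ((1 / 2) ^ j) := by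
    intro τ hτ
    obtain ⟨j, h1, h2⟩ := exists_nat_pow_near_of_lt_one hτ.1 hτ.2
      (by norm_num : (0 : ℝ) < 1 / 2) (by norm_num : (1 / 2 : ℝ) < 1)
    exact mem_iUnion.2 ⟨j, h1, h2⟩
  have hsum : ∫⁻ τ in Ioc (0 : ℝ) 1, av Z x (τ * t) ≤
      ∑' j : ℕ, 2 ^ n * av Z x (t / 2 ^ j) * ENNReal.ofReal ((1 / 2) ^ j) := by
    refine (lintegral_mono_set hcov).trans ((lintegral_iUnion_le _ _).trans ?_)
    refine ENNReal.tsum_le_tsum fun j => ?_
    have hj : ∀ τ ∈ Ioc ((1 / 2 : ℝ) ^ (j + 1)) ((1 / 2) ^ j),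
        av Z x (τ * t) ≤ 2 ^ n * av Z x (t / 2 ^ j) := by
      intro τ hτ
      have hτ0 : 0 < τ := lt_trans (by positivity) hτ.1
      have e : t / 2 ^ j = (1 / 2) ^ j * t := by rw [one_div, inv_pow]; field_simp
      have := av_le_av Z (x := x) (x' := x) (r := τ * t) (r' := t / 2 ^ j) (K := 2)
        (by positivity) (ball_subset_ball (by rw [e]; exact mul_le_mul_of_nonneg_right hτ.2 ht.le))
        (by
          rw [e]
          have h3 := hτ.1
          rw [pow_succ] at h3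
          nlinarith)
      rwa [ENNReal.ofReal_pow (by norm_num), ENNReal.ofReal_ofNat] at this
    refine (setLIntegral_mono' measurableSet_Ioc hj).trans ?_
    rw [setLIntegral_const, Real.volume_Ioc]
    gcongr
    have : (0 : ℝ) < (1 / 2) ^ (j + 1) := by positivity
    linarith
  refine (mul_le_mul_right hsum _).trans ?_
  rw [pot, ← ENNReal.tsum_mul_left, ← ENNReal.tsum_mul_left]
  refine ENNReal.tsum_le_tsum fun j => le_of_eq ?_
  have e : t / 2 ^ j = t * (1 / 2) ^ j := by rw [one_div, inv_pow]; field_simp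
  have e2 : ENNReal.ofReal (t / 2 ^ j) = ENNReal.ofReal t * ENNReal.ofReal ((1 / 2) ^ j) := by
    rw [← ENNReal.ofReal_mul ht.le, ← e]
  rw [e2]
  ring

end

end Pool.Agent.P.MP_28243e_an.B
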