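import Pool.Agent.P.MP_28243e_an.Stmts

/-! Elementary facts on cut-offs and gradient matrices. -/

namespace Pool.Agent.P.MP_28243e_an

open Set MeasureTheory Metric Filter Topology ENNReal
open scoped NNReal ContDiff RealInnerProductSpace Classical

variable {n m : ℕ}

/-! ### cut-offs -/

theorem cut_arg_contDiff (y : E n) (r₁ r₂ : ℝ) :
    ContDiff ℝ ∞ fun x : E n => (r₂ ^ 2 - ‖x - y‖ ^ 2) / (r₂ ^ 2 - r₁ ^ 2) :=
  (contDiff_const.sub ((contDiff_id.sub contDiff_const).norm_sq ℝ)).div_const _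
theorem cut_contDiff (y : E n) (r₁ r₂ : ℝ) : ContDiff ℝ ∞ (cut y r₁ r₂) :=
  Real.smoothTransition.contDiff.comp (cut_arg_contDiff y r₁ r₂)
theorem cut_nonneg (y : E n) (r₁ r₂ : ℝ) (x : E n) : 0 ≤ cut y r₁ r₂ x :=
  Real.smoothTransition.nonneg _
theorem cut_le_one (y : E n) (r₁ r₂ : ℝ) (x : E n) : cut y r₁ r₂ x ≤ 1 :=
  Real.smoothTransition.le_one _
theorem cut_eq_one {y x : E n} {r₁ r₂ : ℝ} (h0 : 0 < r₁) (h : r₁ < r₂) (hx : ‖x - y‖ ≤ r₁) :
    cut y r₁ r₂ x = 1 := by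
  apply Real.smoothTransition.one_of_one_le
  rw [le_div_iff₀ (by nlinarith)]
  nlinarith [norm_nonneg (x - y)]
theorem cut_eq_zero {y x : E n} {r₁ r₂ : ℝ} (h0 : 0 < r₁) (h : r₁ < r₂) (hx : r₂ ≤ ‖x - y‖) :
    cut y r₁ r₂ x = 0 := by
  apply Real.smoothTransition.zero_of_nonpos
  apply div_nonpos_of_nonpos_of_nonneg <;> nlinarith
theorem tsupport_cut {y : E n} {r₁ r₂ : ℝ} (h0 : 0 < r₁) (h : r₁ < r₂) :
    tsupport (cut y r₁ r₂) ⊆ closedBall y r₂ := by
  apply closure_minimal _ isClosed_closedBall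
  intro x hx
  by_contra hc
  rw [mem_closedBall, dist_eq_norm, not_le] at hc
  exact hx (cut_eq_zero h0 h hc.le)
theorem fderiv_cut_eq_zero {y x : E n} {r₁ r₂ : ℝ} (h0 : 0 < r₁) (h : r₁ < r₂)
    (hx : ‖x - y‖ ≤ r₁ ∨ r₂ ≤ ‖x - y‖) : fderiv ℝ (cut y r₁ r₂) x = 0 := by
  rcases hx with hx | hx
  · apply IsLocalMax.fderiv_eq_zero
    exact Eventually.of_forall fun z => by rw [cut_eq_one h0 h hx]; exact cut_le_one _ _ _ _
  · apply IsLocalMin.fderiv_eq_zero
    exact Eventually.of_forall fun z => by rw [cut_eq_zero h0 h hx]; exact cut_nonneg _ _ _ _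
theorem exists_deriv_bound : ∃ C : ℝ, 0 ≤ C ∧ ∀ s, |deriv Real.smoothTransition s| ≤ C := by
  have hc : Continuous (deriv Real.smoothTransition) :=
    (Real.smoothTransition.contDiff (n := 1)).continuous_deriv le_rfl
  obtain ⟨C, hC⟩ := isCompact_Icc.exists_bound_of_continuousOn (s := Icc (0 : ℝ) 1) hc.continuousOn
  refine ⟨max C 0, le_max_right _ _, fun s => ?_⟩
  by_cases hs : s ∈ Icc (0 : ℝ) 1
  · exact (hC s hs).trans (le_max_left _ _)
  · have : deriv Real.smoothTransition s = 0 := by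
      rw [mem_Icc, not_and_or, not_le, not_le] at hs
      rcases hs with hs | hs
      · apply IsLocalMin.deriv_eq_zero
        exact Eventually.of_forall fun z => by
          rw [Real.smoothTransition.zero_of_nonpos hs.le]; exact Real.smoothTransition.nonneg _
      · apply IsLocalMax.deriv_eq_zero
        exact Eventually.of_forall fun z => by
          rw [Real.smoothTransition.one_of_one_le hs.le]; exact Real.smoothTransition.le_one _
    simp [this]
theorem hasFDerivAt_cut (y x : E n) (r₁ r₂ : ℝ) : HasFDerivAt (cut y r₁ r₂)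
    (deriv Real.smoothTransition ((r₂ ^ 2 - ‖x - y‖ ^ 2) / (r₂ ^ 2 - r₁ ^ 2)) •
      ((r₂ ^ 2 - r₁ ^ 2)⁻¹ • (-(2 : ℝ) • innerSL ℝ (x - y)))) x := by
  have h1 : HasFDerivAt (fun x : E n => ‖x - y‖ ^ 2) ((2 : ℝ) • innerSL ℝ (x - y)) x := by
    refine (((hasFDerivAt_id x).sub_const y).norm_sq).congr_fderiv ?_
    ext v; simp
  have h2 : HasFDerivAt (fun x : E n => (r₂ ^ 2 - ‖x - y‖ ^ 2) / (r₂ ^ 2 - r₁ ^ 2))
      ((r₂ ^ 2 - r₁ ^ 2)⁻¹ • (-(2 : ℝ) • innerSL ℝ (x - y))) x := by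
    have := (h1.const_sub (r₂ ^ 2)).const_mul (r₂ ^ 2 - r₁ ^ 2)⁻¹
    simp only [div_eq_inv_mul]
    refine this.congr_fderiv ?_
    rw [neg_smul]
  have h3 : HasDerivAt Real.smoothTransition (deriv Real.smoothTransition
      ((r₂ ^ 2 - ‖x - y‖ ^ 2) / (r₂ ^ 2 - r₁ ^ 2))) ((r₂ ^ 2 - ‖x - y‖ ^ 2) / (r₂ ^ 2 - r₁ ^ 2)) :=
    ((Real.smoothTransition.contDiff (n := 1)).differentiable one_ne_zero _).hasDerivAt
  exact h3.comp_hasFDerivAt x h2
theorem exists_cut_bound : ∃ C : ℝ≥0, 1 ≤ C ∧ ∀ (n : ℕ) (y : E n) (r₁ r₂ : ℝ), 0 < r₁ → r₁ < r₂ →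
    (∀ x, ‖fderiv ℝ (cut y r₁ r₂) x‖ ≤ C / (r₂ - r₁)) ∧
    LipschitzWith (C / (r₂ - r₁)).toNNReal (cut y r₁ r₂) := by
  obtain ⟨C, hC0, hC⟩ := exists_deriv_bound
  have hCe : (((2 * C + 1).toNNReal : ℝ≥0) : ℝ) = 2 * C + 1 := Real.coe_toNNReal _ (by positivity)
  refine ⟨(2 * C + 1).toNNReal, by rw [← NNReal.coe_le_coe, hCe]; simp; positivity,
    fun n y r₁ r₂ h0 h => ?_⟩
  rw [hCe]
  have key : ∀ x, ‖fderiv ℝ (cut y r₁ r₂) x‖ ≤ (2 * C + 1) / (r₂ - r₁) := by
    intro x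
    have hd : 0 < r₂ - r₁ := by linarith
    by_cases hx : r₂ ≤ ‖x - y‖
    · rw [fderiv_cut_eq_zero h0 h (Or.inr hx), norm_zero]; positivity
    push Not at hx
    rw [(hasFDerivAt_cut y x r₁ r₂).fderiv, norm_smul, norm_smul, norm_smul, innerSL_apply_norm,
      Real.norm_eq_abs, Real.norm_eq_abs, Real.norm_eq_abs, abs_neg, abs_two,
      abs_of_pos (inv_pos.2 (by nlinarith : 0 < r₂ ^ 2 - r₁ ^ 2))]
    have e : r₂ ^ 2 - r₁ ^ 2 = (r₂ - r₁) * (r₂ + r₁) := by ring
    calc _ ≤ C * ((r₂ ^ 2 - r₁ ^ 2)⁻¹ * (2 * (r₂ + r₁))) := by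
          have : 0 < (r₂ ^ 2 - r₁ ^ 2)⁻¹ := inv_pos.2 (by nlinarith)
          gcongr
          · exact hC _
          · linarith
      _ = 2 * C / (r₂ - r₁) := by
          have : r₂ + r₁ ≠ 0 := by linarith
          rw [e]; field_simp
      _ ≤ _ := by gcongr; linarith
  refine ⟨key, lipschitzWith_of_nnnorm_fderiv_le
    ((cut_contDiff y r₁ r₂).differentiable (by simp)) fun x => ?_⟩
  rw [← NNReal.coe_le_coe, coe_nnnorm]
  exact (key x).trans (Real.le_coe_toNNReal _)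

/-! ### gradient matrices -/

theorem norm_gradient (φ : E n → ℝ) (x : E n) : ‖gradient φ x‖ = ‖fderiv ℝ φ x‖ := by
  simp [gradient]
theorem gradient_apply (φ : E n → ℝ) (x : E n) (α : Fin n) : gradient φ x α = pd φ α x := by
  have h := InnerProductSpace.toDual_symm_apply (𝕜 := ℝ) (x := EuclideanSpace.single α (1 : ℝ))
    (y := fderiv ℝ φ x)
  unfold pd gradient
  rw [← h, EuclideanSpace.inner_single_right]; simp
theorem measurable_gradient (φ : E n → ℝ) : Measurable (gradient φ) :=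
  (InnerProductSpace.toDual ℝ (E n)).symm.continuous.measurable.comp (measurable_fderiv ℝ φ)
theorem inner_eq_sum_row (A B : Mt m n) : ⟪A, B⟫ = ∑ i, ⟪row A i, row B i⟫ := by
  simp [PiLp.inner_apply, row, Fintype.sum_prod_type]
theorem inner_tens (A : Mt m n) (a : V m) (b : E n) :
    ⟪A, tens a b⟫ = ∑ i, a i * ⟪row A i, b⟫ := by
  simp only [PiLp.inner_apply, row, tens, Fintype.sum_prod_type, Finset.mul_sum]
  refine Finset.sum_congr rfl fun i _ => Finset.sum_congr rfl fun α _ => ?_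
  simp; ring
theorem inner_tens_tens (a c : V m) (b d : E n) : ⟪tens a b, tens c d⟫ = ⟪a, c⟫ * ⟪b, d⟫ := by
  simp only [PiLp.inner_apply, tens, Fintype.sum_prod_type, Finset.sum_mul_sum]
  refine Finset.sum_congr rfl fun i _ => Finset.sum_congr rfl fun α _ => ?_
  simp; ring
theorem norm_tens (a : V m) (b : E n) : ‖tens a b‖ = ‖a‖ * ‖b‖ := by
  have h := inner_tens_tens a a b b
  rw [real_inner_self_eq_norm_sq, real_inner_self_eq_norm_sq, real_inner_self_eq_norm_sq,
    ← mul_pow] at h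
  exact (pow_left_inj₀ (norm_nonneg _) (by positivity) two_ne_zero).1 h
theorem tens_add_left (a c : V m) (b : E n) : tens (a + c) b = tens a b + tens c b := by
  ext p; simp [tens]; ring
theorem tens_sub_left (a c : V m) (b : E n) : tens (a - c) b = tens a b - tens c b := by
  ext p; simp [tens]; ring
theorem tens_add_right (a : V m) (b d : E n) : tens a (b + d) = tens a b + tens a d := by
  ext p; simp [tens]; ring
theorem tens_sub_right (a : V m) (b d : E n) : tens a (b - d) = tens a b - tens a d := by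
  ext p; simp [tens]; ring
theorem tens_smul_left (t : ℝ) (a : V m) (b : E n) : tens (t • a) b = t • tens a b := by
  ext p; simp [tens]; ring
theorem tens_smul_right (t : ℝ) (a : V m) (b : E n) : tens a (t • b) = t • tens a b := by
  ext p; simp [tens]; ring
theorem continuous_tens : Continuous fun p : V m × E n => tens p.1 p.2 := by
  unfold tens; fun_prop
theorem normsq_eq_sum_row (A : Mt m n) : ‖A‖ ^ 2 = ∑ i, ‖row A i‖ ^ 2 := by
  simp only [← real_inner_self_eq_norm_sq]; exact inner_eq_sum_row A A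
theorem norm_row_le (A : Mt m n) (i : Fin m) : ‖row A i‖ ≤ ‖A‖ := by
  apply le_of_sq_le_sq _ (norm_nonneg _) |>.trans le_rfl
  rw [normsq_eq_sum_row]
  exact Finset.single_le_sum (f := fun i => ‖row A i‖ ^ 2) (fun _ _ => by positivity)
    (Finset.mem_univ i)
theorem norm_le_sum_row (A : Mt m n) : ‖A‖ ≤ ∑ i, ‖row A i‖ := by
  apply le_of_sq_le_sq _ (by positivity) |>.trans le_rfl
  rw [normsq_eq_sum_row]
  exact Finset.sum_sq_le_sq_sum_of_nonneg fun _ _ => norm_nonneg _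
theorem continuous_row (i : Fin m) : Continuous fun A : Mt m n => row A i := by
  unfold row; fun_prop
theorem clm_apply_eq (L : E n →L[ℝ] V m) (v : E n) (i : Fin m) :
    L v i = ∑ α, L (EuclideanSpace.single α 1) i * v α := by
  have hv : v = ∑ α, v α • EuclideanSpace.single α (1 : ℝ) := by
    ext β; simp [Finset.sum_apply, Pi.single_apply]
  conv_lhs => rw [hv]
  simp [mul_comm]
theorem norm_fderiv_le_grad (φ : E n → V m) (x : E n) : ‖fderiv ℝ φ x‖ ≤ ‖grad φ x‖ := by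
  refine ContinuousLinearMap.opNorm_le_bound _ (norm_nonneg _) fun v => ?_
  apply le_of_sq_le_sq _ (by positivity) |>.trans le_rfl
  rw [mul_pow, normsq_eq_sum_row, Finset.sum_mul, EuclideanSpace.norm_sq_eq]
  refine Finset.sum_le_sum fun i _ => ?_
  have h1 : fderiv ℝ φ x v i = ⟪row (grad φ x) i, v⟫ := by
    rw [clm_apply_eq]; simp [PiLp.inner_apply, row, grad, mul_comm]
  rw [h1, ← mul_pow]
  gcongr
  exact norm_inner_le_norm _ _
theorem norm_grad_le (φ : E n → V m) (x : E n) : ‖grad φ x‖ ≤ n * ‖fderiv ℝ φ x‖ := by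
  apply le_of_sq_le_sq _ (by positivity) |>.trans le_rfl
  have h1 : ‖grad φ x‖ ^ 2 = ∑ α : Fin n, ‖fderiv ℝ φ x (EuclideanSpace.single α 1)‖ ^ 2 := by
    rw [EuclideanSpace.norm_sq_eq, Fintype.sum_prod_type, Finset.sum_comm]
    simp [grad, EuclideanSpace.norm_sq_eq]
  rw [h1]
  calc _ ≤ ∑ _α : Fin n, ‖fderiv ℝ φ x‖ ^ 2 := by
        refine Finset.sum_le_sum fun α _ => ?_
        gcongr
        simpa using (fderiv ℝ φ x).le_opNorm (EuclideanSpace.single α 1)
    _ = n * ‖fderiv ℝ φ x‖ ^ 2 := by simp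
    _ ≤ _ := by
        rw [mul_pow]; gcongr
        exact_mod_cast Nat.le_self_pow two_ne_zero n
theorem norm_grad_le_of_lip {φ : E n → V m} {K : ℝ≥0} (h : LipschitzWith K φ) (x : E n) :
    ‖grad φ x‖ ≤ n * K :=
  (norm_grad_le φ x).trans (by gcongr; exact norm_fderiv_le_of_lipschitz ℝ h)
/-- matrix of a linear map -/
noncomputable def gmat (L : E n →L[ℝ] V m) : Mt m n :=
  WithLp.toLp 2 fun p => L (EuclideanSpace.single p.2 1) p.1
theorem continuous_gmat : Continuous (gmat : (E n →L[ℝ] V m) → Mt m n) := by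
  unfold gmat; fun_prop
theorem measurable_grad (φ : E n → V m) : Measurable (grad φ) :=
  continuous_gmat.measurable.comp (measurable_fderiv ℝ φ)
theorem grad_congr {φ ψ : E n → V m} {x : E n} (h : φ =ᶠ[𝓝 x] ψ) : grad φ x = grad ψ x := by
  unfold grad; rw [h.fderiv_eq]
theorem grad_eq_zero_of_notMem {φ : E n → V m} {x : E n} (h : x ∉ tsupport φ) :
    grad φ x = 0 := by
  ext p; simp [grad, fderiv_of_notMem_tsupport ℝ h]
theorem grad_const (c : V m) (x : E n) : grad (fun _ : E n => c) x = 0 := by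
  ext p; simp [grad]
theorem grad_add {φ ψ : E n → V m} {x : E n} (hφ : DifferentiableAt ℝ φ x)
    (hψ : DifferentiableAt ℝ ψ x) : grad (fun z => φ z + ψ z) x = grad φ x + grad ψ x := by
  ext p; simp [grad, fderiv_fun_add hφ hψ]
theorem grad_sub {φ ψ : E n → V m} {x : E n} (hφ : DifferentiableAt ℝ φ x)
    (hψ : DifferentiableAt ℝ ψ x) : grad (fun z => φ z - ψ z) x = grad φ x - grad ψ x := by
  ext p; simp [grad, fderiv_fun_sub hφ hψ]
theorem grad_smul {π : E n → ℝ} {φ : E n → V m} {x : E n} (hπ : DifferentiableAt ℝ π x)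
    (hφ : DifferentiableAt ℝ φ x) :
    grad (fun z => π z • φ z) x = π x • grad φ x + tens (φ x) (gradient π x) := by
  ext p; simp [grad, tens, fderiv_fun_smul hπ hφ, gradient_apply, pd, mul_comm]
theorem grad_smul_const {π : E n → ℝ} {x : E n} (hπ : DifferentiableAt ℝ π x) (c : V m) :
    grad (fun z => π z • c) x = tens c (gradient π x) := by
  rw [grad_smul hπ (differentiableAt_const c), grad_const]; simp
theorem row_grad {φ : E n → V m} {x : E n} (hφ : DifferentiableAt ℝ φ x) (i : Fin m) :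
    row (grad φ x) i = gradient (fun z => φ z i) x := by
  ext α
  rw [gradient_apply]
  have := ((EuclideanSpace.proj i : V m →L[ℝ] ℝ).hasFDerivAt.comp x hφ.hasFDerivAt).fderiv
  have e : (fun z => φ z i) = (EuclideanSpace.proj i : V m →L[ℝ] ℝ) ∘ φ := rfl
  rw [pd, e, this]; simp [row, grad]

end Pool.Agent.P.MP_28243e_an
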