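import Pool.Agent.P.MP_28243e_an.Stmts

/-! Elementary facts on averages and maximal functions. -/

namespace Pool.Agent.P.MP_28243e_an

open Set MeasureTheory Metric Filter Topology ENNReal
open scoped NNReal ContDiff RealInnerProductSpace Classical

variable {n m : ℕ}

/-! ### radii and volumes -/

theorem rho_pos (k : ℤ) : 0 < rho k := by unfold rho; positivity
theorem rho_add (k l : ℤ) : rho (k + l) = rho k * rho l := by
  unfold rho; rw [neg_add, zpow_add₀ (by norm_num)]
theorem rho_succ (k : ℤ) : rho (k + 1) = rho k / 2 := by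
  rw [rho_add]; unfold rho; norm_num; ring
theorem rho_pred (k : ℤ) : rho (k - 1) = 2 * rho k := by
  have := rho_succ (k - 1); rw [sub_add_cancel] at this; linarith
theorem rho_anti {k l : ℤ} (h : k ≤ l) : rho l ≤ rho k := by
  unfold rho; exact zpow_le_zpow_right₀ (by norm_num) (by omega)
theorem exists_rho {s : ℝ} (hs : 0 < s) : ∃ k : ℤ, rho (k + 1) < s ∧ s ≤ rho k := by
  obtain ⟨j, h1, h2⟩ := exists_mem_Ioc_zpow hs (by norm_num : (1 : ℝ) < 2)
  refine ⟨-(j + 1), ?_, ?_⟩
  · unfold rho; simpa using h1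
  · unfold rho; simpa using h2
theorem q1_pos (hn : 3 ≤ n) : 0 < q1 n := by
  unfold q1; have : (3 : ℝ) ≤ n := by exact_mod_cast hn
  linarith
theorem one_lt_q1 (hn : 3 ≤ n) : 1 < q1 n := by
  unfold q1; have : (3 : ℝ) ≤ n := by exact_mod_cast hn
  linarith
/-- volume of the unit ball -/
noncomputable def vb (n : ℕ) : ℝ := (volume (ball (0 : E n) 1)).toReal
theorem vol_ball_pos (x : E n) {r : ℝ} (hr : 0 < r) : volume (ball x r) ≠ 0 :=
  (measure_ball_pos volume x hr).ne'
theorem vol_ball_ne_top (x : E n) (r : ℝ) : volume (ball x r) ≠ ⊤ := measure_ball_lt_top.ne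
theorem vb_pos : 0 < vb n :=
  ENNReal.toReal_pos (vol_ball_pos _ one_pos) (vol_ball_ne_top _ _)
theorem vol_ball (x : E n) {r : ℝ} (hr : 0 < r) :
    volume (ball x r) = ENNReal.ofReal (vb n * r ^ n) := by
  rw [Measure.addHaar_ball_of_pos volume x hr, finrank_euclideanSpace_fin, mul_comm (vb n),
    ENNReal.ofReal_mul (by positivity), vb, ENNReal.ofReal_toReal (vol_ball_ne_top _ _)]
theorem radius_le (hn : 3 ≤ n) {x y : E n} {r s : ℝ} (hr : 0 < r) (h : ball x r ⊆ ball y s) :
    ‖x - y‖ + r ≤ s := by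
  obtain ⟨e, he, hxe⟩ : ∃ e : E n, ‖e‖ = 1 ∧ x - y = ‖x - y‖ • e := by
    by_cases hxy : x - y = 0
    · refine ⟨EuclideanSpace.single ⟨0, by omega⟩ 1, by simp, by simp [hxy]⟩
    · have h0 : ‖x - y‖ ≠ 0 := norm_ne_zero_iff.2 hxy
      refine ⟨‖x - y‖⁻¹ • (x - y), by rw [norm_smul, norm_inv, norm_norm, inv_mul_cancel₀ h0], ?_⟩
      rw [smul_smul, mul_inv_cancel₀ h0, one_smul]
  by_contra hc
  push Not at hc
  have hs : ‖x - y‖ < s := by
    have := h (mem_ball_self hr); rwa [mem_ball, dist_eq_norm] at this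
  set t := s - ‖x - y‖ with ht
  have h1 : x + t • e ∈ ball x r := by
    rw [mem_ball, dist_eq_norm, add_sub_cancel_left, norm_smul, he, mul_one, Real.norm_eq_abs,
      abs_of_pos (by linarith)]; linarith
  have h2 := h h1
  rw [mem_ball, dist_eq_norm] at h2
  have h3 : x + t • e - y = (‖x - y‖ + t) • e := by
    rw [add_smul, ← hxe]; abel
  rw [h3, norm_smul, he, mul_one, Real.norm_eq_abs, abs_of_pos (by linarith [norm_nonneg (x - y)])]
    at h2
  linarith

/-! ### averages -/

theorem lint_ball_eq (f : E n → ℝ≥0∞) (x : E n) {r : ℝ} (hr : 0 < r) :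
    ∫⁻ y in ball x r, f y = volume (ball x r) * av f x r := by
  unfold av
  rw [ENNReal.mul_div_cancel (vol_ball_pos x hr) (vol_ball_ne_top x r)]
theorem av_mono_ae {f g : E n → ℝ≥0∞} {x : E n} {r : ℝ} (h : ∀ᵐ y, y ∈ ball x r → f y ≤ g y) :
    av f x r ≤ av g x r := by
  unfold av
  gcongr ?_ / _
  exact lintegral_mono_ae ((ae_restrict_iff' measurableSet_ball).2 h)
theorem av_mono {f g : E n → ℝ≥0∞} {x : E n} {r : ℝ} (h : ∀ y ∈ ball x r, f y ≤ g y) :
    av f x r ≤ av g x r := av_mono_ae (Eventually.of_forall h)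
theorem av_le_const {f : E n → ℝ≥0∞} {x : E n} {r : ℝ} {c : ℝ≥0∞}
    (h : ∀ᵐ y, y ∈ ball x r → f y ≤ c) : av f x r ≤ c := by
  refine (av_mono_ae h).trans ?_
  unfold av
  rw [setLIntegral_const]
  exact ENNReal.div_le_of_le_mul le_rfl
theorem av_add {f : E n → ℝ≥0∞} (hf : Measurable f) (g : E n → ℝ≥0∞) (x : E n) (r : ℝ) :
    av (fun y => f y + g y) x r = av f x r + av g x r := by
  unfold av; rw [lintegral_add_left hf, ENNReal.add_div]
theorem av_const_mul {f : E n → ℝ≥0∞} (hf : Measurable f) (c : ℝ≥0∞) (x : E n) (r : ℝ) :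
    av (fun y => c * f y) x r = c * av f x r := by
  unfold av; rw [lintegral_const_mul _ hf, mul_div_assoc]
theorem av_indicator {O : Set (E n)} (f : E n → ℝ≥0∞) {x : E n} {r : ℝ} (h : ball x r ⊆ O) :
    av (O.indicator f) x r = av f x r :=
  le_antisymm (av_mono fun y hy => by rw [indicator_of_mem (h hy)])
    (av_mono fun y hy => by rw [indicator_of_mem (h hy)])
theorem av_le_av (f : E n → ℝ≥0∞) {x x' : E n} {r r' K : ℝ} (hr : 0 < r)
    (h : ball x r ⊆ ball x' r') (hK : r' ≤ K * r) :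
    av f x r ≤ ENNReal.ofReal (K ^ n) * av f x' r' := by
  have hr' : 0 < r' := pos_of_mem_ball (h (mem_ball_self hr))
  have hK0 : 0 < K := by
    by_contra hc; push Not at hc; nlinarith
  have h1 : volume (ball x' r') ≤ ENNReal.ofReal (K ^ n) * volume (ball x r) := by
    rw [vol_ball _ hr, vol_ball _ hr', ← ENNReal.ofReal_mul (by positivity)]
    apply ENNReal.ofReal_le_ofReal
    have : r' ^ n ≤ (K * r) ^ n := by gcongr
    rw [mul_pow] at this
    nlinarith [vb_pos (n := n)]
  conv_lhs => unfold av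
  apply ENNReal.div_le_of_le_mul
  calc ∫⁻ y in ball x r, f y ≤ ∫⁻ y in ball x' r', f y := lintegral_mono_set h
    _ = volume (ball x' r') * av f x' r' := lint_ball_eq f x' hr'
    _ ≤ (ENNReal.ofReal (K ^ n) * volume (ball x r)) * av f x' r' := by gcongr
    _ = _ := by ring

theorem vol_ball_eq (x y : E n) (r : ℝ) : volume (ball x r) = volume (ball y r) := by
  rw [Measure.addHaar_ball_center volume x, Measure.addHaar_ball_center volume y]

theorem lsc_lint_ball {f : E n → ℝ≥0∞} (hf : Measurable f) (r : ℝ) :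
    LowerSemicontinuous fun x : E n => ∫⁻ y in ball x r, f y := by
  rw [lowerSemicontinuous_iff_le_liminf]
  intro x
  apply le_of_forall_lt_imp_le_of_dense
  intro c hc
  have hU : ball x r = ⋃ j : ℕ, ball x (r - 1 / ((j : ℝ) + 1)) := by
    ext z
    simp only [mem_ball, mem_iUnion]
    constructor
    · intro hz
      obtain ⟨j, hj⟩ := exists_nat_one_div_lt (sub_pos.2 hz)
      exact ⟨j, by linarith⟩
    · rintro ⟨j, hj⟩
      have : (0 : ℝ) < 1 / ((j : ℝ) + 1) := by positivity
      linarith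
  have hmono : Monotone fun j : ℕ => ball x (r - 1 / ((j : ℝ) + 1)) := by
    intro i j hij
    apply ball_subset_ball
    have : 1 / ((j : ℝ) + 1) ≤ 1 / ((i : ℝ) + 1) := by
      apply one_div_le_one_div_of_le (by positivity)
      have : (i : ℝ) ≤ j := by exact_mod_cast hij
      linarith
    linarith
  rw [hU, setLIntegral_iUnion_of_directed _ hmono.directed_le] at hc
  obtain ⟨j, hj⟩ := lt_iSup_iff.1 hc
  apply le_liminf_of_le (by isBoundedDefault)
  filter_upwards [ball_mem_nhds x (by positivity : (0 : ℝ) < 1 / ((j : ℝ) + 1))] with z hz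
  refine hj.le.trans (lintegral_mono_set ?_)
  intro w hw
  rw [mem_ball] at *
  have := dist_triangle w x z
  rw [dist_comm x z] at this
  linarith

theorem lowerSemicontinuous_av {f : E n → ℝ≥0∞} (hf : Measurable f) (r : ℝ) :
    LowerSemicontinuous fun x => av f x r := by
  by_cases hr : 0 < r
  · have : (fun x => av f x r) =
        (fun a => a / volume (ball (0 : E n) r)) ∘ fun x : E n => ∫⁻ y in ball x r, f y := by
      funext x; simp only [av, Function.comp]; rw [vol_ball_eq x 0]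
    rw [this]
    refine Continuous.comp_lowerSemicontinuous ?_ (lsc_lint_ball hf r) ?_
    · exact ENNReal.continuous_div_const _ (vol_ball_pos _ hr)
    · intro a b hab; dsimp only; gcongr
  · have : (fun x => av f x r) = fun _ => 0 := by
      funext x; simp [av, ball_eq_empty.2 (not_lt.1 hr)]
    rw [this]; exact lowerSemicontinuous_const
theorem measurable_av {f : E n → ℝ≥0∞} (hf : Measurable f) (r : ℝ) :
    Measurable fun x => av f x r := (lowerSemicontinuous_av hf r).measurable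

theorem lint_mul_av {f g : E n → ℝ≥0∞} (hf : Measurable f) (hg : Measurable g) (r : ℝ) :
    ∫⁻ x, f x * av g x r = ∫⁻ x, g x * av f x r := by
  have hS : MeasurableSet {p : E n × E n | dist p.2 p.1 < r} :=
    measurableSet_lt (measurable_snd.dist measurable_fst) measurable_const
  have key : ∀ {f g : E n → ℝ≥0∞}, Measurable f → Measurable g → ∫⁻ x, f x * av g x r =
      (∫⁻ x, ∫⁻ y, {p : E n × E n | dist p.2 p.1 < r}.indicator (fun p => f p.1 * g p.2) (x, y)) *
        (volume (ball (0 : E n) r))⁻¹ := by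
    intro f g hf hg
    have hm : Measurable fun x => ∫⁻ y,
        {p : E n × E n | dist p.2 p.1 < r}.indicator (fun p => f p.1 * g p.2) (x, y) :=
      Measurable.lintegral_prod_right' (f := {p : E n × E n | dist p.2 p.1 < r}.indicator
        (fun p => f p.1 * g p.2))
        (((hf.comp measurable_fst).mul (hg.comp measurable_snd)).indicator hS)
    rw [← lintegral_mul_const _ hm]
    congr 1; funext x
    rw [av, vol_ball_eq x 0, div_eq_mul_inv, ← mul_assoc, ← lintegral_const_mul _ hg,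
      ← lintegral_indicator measurableSet_ball]
    congr 2
  rw [key hf hg, key hg hf]
  congr 1
  rw [lintegral_lintegral_swap]
  · congr 1; funext x; congr 1; funext y
    simp only [indicator, mem_ofPred_eq, dist_comm x y, mul_comm]
  · exact (((hf.comp measurable_fst).mul (hg.comp measurable_snd)).indicator hS).aemeasurable

theorem av_av {f : E n → ℝ≥0∞} (hf : Measurable f) (x : E n) {s t : ℝ} (hs : 0 < s) (hst : s ≤ t) :
    av (fun y => av f y s) x t ≤ 2 ^ n * av f x (2 * t) := by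
  have ht : 0 < t := hs.trans_le hst
  have h1 : ∫⁻ y in ball x t, av f y s ≤ ∫⁻ y in ball x (2 * t), f y := by
    have e1 : ∫⁻ y in ball x t, av f y s =
        ∫⁻ y, (ball x t).indicator (fun _ => (1 : ℝ≥0∞)) y * av f y s := by
      rw [← lintegral_indicator measurableSet_ball]
      congr 1; funext y; by_cases hy : y ∈ ball x t <;> simp [hy]
    rw [e1, lint_mul_av (measurable_const.indicator measurableSet_ball) hf,
      ← lintegral_indicator measurableSet_ball]
    apply lintegral_mono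
    intro y
    by_cases hy : y ∈ ball x (2 * t)
    · rw [indicator_of_mem hy]
      refine (mul_le_mul_right (av_le_const (c := 1) (Eventually.of_forall fun z _ => ?_)) _).trans
        (by simp)
      by_cases hz : z ∈ ball x t <;> simp [hz]
    · rw [indicator_of_notMem hy]
      have : av ((ball x t).indicator fun _ => (1 : ℝ≥0∞)) y s ≤ 0 := by
        refine av_le_const (Eventually.of_forall fun z hz => ?_)
        rw [indicator_of_notMem]
        intro hz'
        apply hy
        rw [mem_ball] at *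
        have := dist_triangle y z x
        rw [dist_comm y z] at this
        linarith
      simp [le_zero_iff.1 this]
  conv_lhs => unfold av
  apply ENNReal.div_le_of_le_mul
  refine h1.trans ?_
  rw [lint_ball_eq f x (by positivity : 0 < 2 * t), vol_ball _ ht,
    vol_ball _ (by positivity : 0 < 2 * t)]
  have : ENNReal.ofReal (vb n * (2 * t) ^ n) = 2 ^ n * ENNReal.ofReal (vb n * t ^ n) := by
    rw [mul_pow, mul_left_comm, ENNReal.ofReal_mul (by positivity), ENNReal.ofReal_pow (by norm_num)]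
    simp
  rw [this]
  exact le_of_eq (by ring)

/-! ### maximal functions -/

theorem av_le_mx (f : E n → ℝ≥0∞) (x : E n) {r : ℝ} (hr : 0 < r) : av f x r ≤ mx f x :=
  le_iSup₂ (f := fun (r : ℝ) (_ : 0 < r) => av f x r) r hr
theorem mx_mono {f g : E n → ℝ≥0∞} (h : ∀ᵐ y, f y ≤ g y) (x : E n) : mx f x ≤ mx g x :=
  iSup₂_le fun _ hr => (av_mono_ae (h.mono fun _ hy _ => hy)).trans (av_le_mx g x hr)
theorem mx_add {f : E n → ℝ≥0∞} (hf : Measurable f) (g : E n → ℝ≥0∞) (x : E n) :
    mx (fun y => f y + g y) x ≤ mx f x + mx g x :=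
  iSup₂_le fun r hr => by rw [av_add hf]; exact add_le_add (av_le_mx f x hr) (av_le_mx g x hr)
theorem mx_const_mul {f : E n → ℝ≥0∞} (hf : Measurable f) (c : ℝ≥0∞) (x : E n) :
    mx (fun y => c * f y) x = c * mx f x := by
  unfold mx
  simp only [av_const_mul hf, ENNReal.mul_iSup]
theorem mx_le_const {f : E n → ℝ≥0∞} {c : ℝ≥0∞} (h : ∀ᵐ y, f y ≤ c) (x : E n) : mx f x ≤ c :=
  iSup₂_le fun _ _ => av_le_const (h.mono fun _ hy _ => hy)
theorem measurable_mx {f : E n → ℝ≥0∞} (hf : Measurable f) : Measurable (mx f) :=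
  (lowerSemicontinuous_iSup fun r => lowerSemicontinuous_iSup fun _ =>
    lowerSemicontinuous_av hf r).measurable

theorem le_mx_ae {f : E n → ℝ≥0∞} (hf : Measurable f) : ∀ᵐ x, f x ≤ mx f x := by
  have key : ∀ N : ℕ, ∀ᵐ x, min (f x) N ≤ mx f x := by
    intro N
    set g : E n → ℝ := fun x => (min (f x) N).toReal with hg
    have hgm : Measurable g := (hf.min measurable_const).ennreal_toReal
    have hfin : ∀ x, min (f x) N ≠ ⊤ := fun x => ne_top_of_le_ne_top (natCast_ne_top N) (min_le_right _ _)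
    have hgb : ∀ x, ‖g x‖ ≤ N := fun x => by
      rw [Real.norm_eq_abs, abs_of_nonneg ENNReal.toReal_nonneg]
      have := ENNReal.toReal_mono (natCast_ne_top N) (min_le_right (f x) N)
      simpa using this
    have hli : LocallyIntegrable g volume := by
      intro x
      refine ⟨ball x 1, ball_mem_nhds x one_pos, ?_⟩
      exact Measure.integrableOn_of_bounded (vol_ball_ne_top x 1) hgm.aestronglyMeasurable
        (Eventually.of_forall hgb)
    have := (Besicovitch.vitaliFamily (volume : Measure (E n))).ae_tendsto_lintegral_enorm_sub_div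
      hli
    filter_upwards [this] with x hx
    have ht := hx.comp (Besicovitch.tendsto_filterAt volume x)
    have hb : ∀ᶠ r in 𝓝[>] (0 : ℝ), min (f x) N ≤ mx f x +
        (∫⁻ y in closedBall x r, ‖g y - g x‖ₑ) / volume (closedBall x r) := by
      filter_upwards [self_mem_nhdsWithin] with r hr
      have hr : 0 < r := hr
      have hcb : volume (closedBall x r) = volume (ball x r) := by
        rcases Nat.eq_zero_or_pos n with h0 | h0
        · subst h0
          congr 1
          ext z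
          have : z = x := Subsingleton.elim _ _
          simp [this, hr, hr.le]
        · have : Nontrivial (E n) := by
            have : Nonempty (Fin n) := ⟨⟨0, h0⟩⟩
            infer_instance
          exact Measure.addHaar_closedBall_eq_addHaar_ball volume x r
      have h1 : min (f x) N ≤ av (fun y => f y + ‖g y - g x‖ₑ) x r := by
        have h2 : av (fun _ => min (f x) N) x r = min (f x) N := by
          unfold av
          rw [setLIntegral_const, ENNReal.mul_div_cancel_right (vol_ball_pos x hr)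
            (vol_ball_ne_top x r)]
        rw [← h2]
        apply av_mono
        intro y _
        have e1 : min (f x) N = ENNReal.ofReal (g x) := (ENNReal.ofReal_toReal (hfin x)).symm
        have e2 : ENNReal.ofReal (g y) ≤ f y := by
          rw [hg]; dsimp only; rw [ENNReal.ofReal_toReal (hfin y)]; exact min_le_left _ _
        rw [e1]
        calc ENNReal.ofReal (g x) ≤ ENNReal.ofReal (g y + ‖g y - g x‖) := by
              apply ENNReal.ofReal_le_ofReal
              have := neg_abs_le (g y - g x)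
              rw [Real.norm_eq_abs]; linarith
          _ ≤ ENNReal.ofReal (g y) + ENNReal.ofReal ‖g y - g x‖ := ENNReal.ofReal_add_le
          _ ≤ _ := by rw [ofReal_norm]; gcongr
      rw [av_add hf] at h1
      refine h1.trans (add_le_add (av_le_mx f x hr) ?_)
      rw [hcb, av]
      gcongr
      exact ball_subset_closedBall
    have hl : Tendsto (fun r => mx f x +
        (∫⁻ y in closedBall x r, ‖g y - g x‖ₑ) / volume (closedBall x r)) (𝓝[>] 0)
        (𝓝 (mx f x + 0)) := tendsto_const_nhds.add ht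
    rw [add_zero] at hl
    exact ge_of_tendsto hl hb
  filter_upwards [ae_all_iff.2 key] with x hx
  have : f x = ⨆ N : ℕ, min (f x) N := by
    have h0 := inf_iSup_eq (f x) (fun N : ℕ => (N : ℝ≥0∞))
    rw [ENNReal.iSup_natCast] at h0
    simpa using h0
  rw [this]
  exact iSup_le hx

theorem lsc_gq (hn : 3 ≤ n) {G : E n → ℝ≥0∞} (hG : Measurable G) (r : ℝ) :
    LowerSemicontinuous fun x => gq G x r := by
  have : (fun x => gq G x r) = (fun a : ℝ≥0∞ => a ^ (1 / q1 n)) ∘
      fun x => av (fun y => G y ^ q1 n) x r := rfl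
  rw [this]
  refine Continuous.comp_lowerSemicontinuous ENNReal.continuous_rpow_const
    (lowerSemicontinuous_av (hG.pow_const _) r) ?_
  intro a b hab
  exact ENNReal.rpow_le_rpow hab (by have := q1_pos hn; positivity)
theorem measurable_gq {G : E n → ℝ≥0∞} (hG : Measurable G) (r : ℝ) :
    Measurable fun x => gq G x r := (measurable_av (hG.pow_const _) r).pow_const _
theorem measurable_gs (hn : 3 ≤ n) {G : E n → ℝ≥0∞} (hG : Measurable G) (r : ℝ) :
    Measurable fun x => gs G x r :=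
  (lowerSemicontinuous_iSup fun s => lowerSemicontinuous_iSup fun _ => lsc_gq hn hG s).measurable
theorem measurable_mq {G : E n → ℝ≥0∞} (hG : Measurable G) : Measurable (mq G) :=
  (measurable_mx (hG.pow_const _)).pow_const _
theorem measurable_Wt {G : E n → ℝ≥0∞} (hG : Measurable G) : Measurable (Wt G) :=
  (measurable_mq hG).pow_const _
theorem mq_eq_iSup (hn : 3 ≤ n) (G : E n → ℝ≥0∞) (x : E n) :
    mq G x = ⨆ (r : ℝ) (_ : 0 < r), gq G x r := by
  have hq : 0 < 1 / q1 n := by have := q1_pos hn; positivity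
  have := (ENNReal.orderIsoRpow (1 / q1 n) hq).map_iSup
    (fun r : ℝ => ⨆ (_ : 0 < r), av (fun y => G y ^ q1 n) x r)
  simp only [ENNReal.orderIsoRpow_apply] at this
  unfold mq mx gq
  rw [this]
  congr 1; funext r
  have := (ENNReal.orderIsoRpow (1 / q1 n) hq).map_iSup
    (fun _ : 0 < r => av (fun y => G y ^ q1 n) x r)
  simpa only [ENNReal.orderIsoRpow_apply] using this
theorem gq_le_mq (hn : 3 ≤ n) (G : E n → ℝ≥0∞) (x : E n) {r : ℝ} (hr : 0 < r) :
    gq G x r ≤ mq G x := by
  rw [mq_eq_iSup hn]; exact le_iSup₂ (f := fun (r : ℝ) (_ : 0 < r) => gq G x r) r hr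
theorem gq_le_gs (G : E n → ℝ≥0∞) (x : E n) {r s : ℝ} (h : r ≤ s) : gq G x s ≤ gs G x r :=
  le_iSup₂ (f := fun (s : ℝ) (_ : r ≤ s) => gq G x s) s h
theorem gs_anti (G : E n → ℝ≥0∞) (x : E n) {r s : ℝ} (h : r ≤ s) : gs G x s ≤ gs G x r :=
  iSup₂_le fun _ ht => gq_le_gs G x (h.trans ht)
theorem gs_le_mq (hn : 3 ≤ n) (G : E n → ℝ≥0∞) (x : E n) {r : ℝ} (hr : 0 < r) :
    gs G x r ≤ mq G x := iSup₂_le fun _ ht => gq_le_mq hn G x (hr.trans_le ht)
theorem gq_le_gq (hn : 3 ≤ n) (G : E n → ℝ≥0∞) {x x' : E n} {r r' K : ℝ} (hr : 0 < r)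
    (h : ball x r ⊆ ball x' r') (hK : r' ≤ K * r) :
    gq G x r ≤ ENNReal.ofReal (K ^ 2) * gq G x' r' := by
  have hq := q1_pos hn
  have hK1 : 1 ≤ K := by
    have := radius_le hn hr h
    by_contra hc; push Not at hc; nlinarith [norm_nonneg (x - x')]
  unfold gq
  refine (ENNReal.rpow_le_rpow (av_le_av _ hr h hK) (by positivity)).trans ?_
  rw [ENNReal.mul_rpow_of_nonneg _ _ (by positivity)]
  gcongr
  rw [ENNReal.ofReal_rpow_of_nonneg (by positivity) (by positivity)]
  apply ENNReal.ofReal_le_ofReal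
  rw [← Real.rpow_natCast, ← Real.rpow_mul (by positivity), ← Real.rpow_natCast K 2]
  apply Real.rpow_le_rpow_of_exponent_le hK1
  rw [mul_one_div, div_le_iff₀ hq]
  have : (3 : ℝ) ≤ n := by exact_mod_cast hn
  unfold q1; push_cast; linarith
/-- change of centre and scale for `gs` -/
theorem gs_le_gs (hn : 3 ≤ n) (G : E n → ℝ≥0∞) {x x' : E n} {r r' K : ℝ} (hr : 0 < r)
    (hx : ‖x - x'‖ + r ≤ K * r) (hK : r' ≤ K * r) :
    gs G x r ≤ ENNReal.ofReal (K ^ 2) * gs G x' r' := by
  have hK1 : 1 ≤ K := by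
    by_contra hc; push Not at hc; nlinarith [norm_nonneg (x - x')]
  refine iSup₂_le fun s hs => ?_
  have hs0 : 0 < s := hr.trans_le hs
  refine (gq_le_gq hn G (x' := x') (r' := K * s) (K := K) hs0 ?_ le_rfl).trans ?_
  · apply ball_subset_ball'
    rw [dist_eq_norm]; nlinarith
  · gcongr
    exact gq_le_gs G x' (by nlinarith)
theorem gq_rpow (hn : 3 ≤ n) (G : E n → ℝ≥0∞) (x : E n) (r : ℝ) :
    gq G x r ^ q1 n = av (fun y => G y ^ q1 n) x r := by
  unfold gq
  rw [← ENNReal.rpow_mul, one_div_mul_cancel (q1_pos hn).ne', ENNReal.rpow_one]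
theorem mq_rpow (hn : 3 ≤ n) (G : E n → ℝ≥0∞) (x : E n) :
    mq G x ^ q1 n = mx (fun y => G y ^ q1 n) x := by
  unfold mq
  rw [← ENNReal.rpow_mul, one_div_mul_cancel (q1_pos hn).ne', ENNReal.rpow_one]
theorem av_rpow_le (hn : 3 ≤ n) {G : E n → ℝ≥0∞} (hG : Measurable G) (x : E n) {r p : ℝ}
    (hr : 0 < r) (hp : 0 < p) (hq : p ≤ q1 n) : av (fun y => G y ^ p) x r ≤ gq G x r ^ p := by
  have hq0 := q1_pos hn
  rcases hq.eq_or_lt with h | h
  · rw [h, gq_rpow hn]
  have hc : Real.HolderConjugate (q1 n / p) (q1 n / (q1 n - p)) := by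
    rw [Real.holderConjugate_iff]
    refine ⟨by rw [lt_div_iff₀ hp]; linarith, ?_⟩
    have : q1 n - p ≠ 0 := by linarith
    field_simp; ring
  have H := ENNReal.lintegral_mul_le_Lp_mul_Lq (volume.restrict (ball x r)) hc
    (f := fun y => G y ^ p) (g := fun _ => 1) (hG.pow_const _).aemeasurable aemeasurable_const
  simp only [Pi.mul_apply, mul_one, ENNReal.one_rpow, lintegral_const, one_mul,
    MeasurableSet.univ, Measure.restrict_apply, univ_inter] at H
  have e1 : ∀ y, (G y ^ p) ^ (q1 n / p) = G y ^ q1 n := fun y => by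
    rw [← ENNReal.rpow_mul, mul_div_cancel₀ _ hp.ne']
  simp only [e1] at H
  conv_lhs => unfold av
  apply ENNReal.div_le_of_le_mul
  refine H.trans (le_of_eq ?_)
  rw [lint_ball_eq _ x hr, ENNReal.mul_rpow_of_nonneg _ _ (by positivity), ← gq_rpow hn,
    ← ENNReal.rpow_mul, mul_comm (volume (ball x r) ^ _), mul_assoc,
    ← ENNReal.rpow_add _ _ (vol_ball_pos x hr) (vol_ball_ne_top x r)]
  have e2 : 1 / (q1 n / p) + 1 / (q1 n / (q1 n - p)) = 1 := by
    have : q1 n - p ≠ 0 := by linarith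
    field_simp; ring
  have e3 : q1 n * (1 / (q1 n / p)) = p := by field_simp
  rw [e2, e3, ENNReal.rpow_one]
theorem av_le_gq (hn : 3 ≤ n) {G : E n → ℝ≥0∞} (hG : Measurable G) (x : E n) {r : ℝ}
    (hr : 0 < r) : av G x r ≤ gq G x r := by
  simpa using av_rpow_le hn hG x hr one_pos (one_lt_q1 hn).le
theorem mx_le_mq (hn : 3 ≤ n) {G : E n → ℝ≥0∞} (hG : Measurable G) (x : E n) :
    mx G x ≤ mq G x := iSup₂_le fun _ hr => (av_le_gq hn hG x hr).trans (gq_le_mq hn G x hr)
theorem le_mq_ae (hn : 3 ≤ n) {G : E n → ℝ≥0∞} (hG : Measurable G) : ∀ᵐ x, G x ≤ mq G x :=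
  (le_mx_ae hG).mono fun x hx => hx.trans (mx_le_mq hn hG x)
theorem mq_le_max (hn : 3 ≤ n) (G : E n → ℝ≥0∞) {O : Set (E n)} {x : E n} {s : ℝ}
    (h : ball x s ⊆ O) : mq G x ≤ max (mq (O.indicator G) x) (gs G x s) := by
  rw [mq_eq_iSup hn G]
  refine iSup₂_le fun r hr => ?_
  rcases le_total r s with hrs | hrs
  · refine le_max_of_le_left (le_trans ?_ (gq_le_mq hn _ x hr))
    unfold gq
    refine ENNReal.rpow_le_rpow (av_mono fun y hy => ?_) (by have := q1_pos hn; positivity)
    rw [indicator_of_mem (h (ball_subset_ball hrs hy))]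
  · exact le_max_of_le_right (gq_le_gs G x hrs)

/-! ### potentials -/

theorem measurable_pot {f : E n → ℝ≥0∞} (hf : Measurable f) (t : ℝ) : Measurable (pot f t) :=
  Measurable.tsum fun _ => (measurable_av hf _).const_mul _
theorem pot_mono_ae {f g : E n → ℝ≥0∞} {x : E n} {t : ℝ} (ht : 0 < t)
    (h : ∀ᵐ y, y ∈ ball x t → f y ≤ g y) : pot f t x ≤ pot g t x := by
  refine ENNReal.tsum_le_tsum fun j => ?_
  gcongr
  refine av_mono_ae (h.mono fun y hy hy' => hy (ball_subset_ball ?_ hy'))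
  exact div_le_self ht.le (one_le_pow₀ (by norm_num))
theorem tsum_ofReal_half {t : ℝ} (ht : 0 < t) :
    ∑' j : ℕ, ENNReal.ofReal (t / 2 ^ j) = 2 * ENNReal.ofReal t := by
  have h1 : ∀ j : ℕ, ENNReal.ofReal (t / 2 ^ j) = ENNReal.ofReal t * (2⁻¹) ^ j := fun j => by
    rw [ENNReal.ofReal_div_of_pos (by positivity), ENNReal.ofReal_pow (by norm_num),
      div_eq_mul_inv, ENNReal.inv_pow]; simp
  simp only [h1]
  rw [ENNReal.tsum_mul_left, ENNReal.tsum_geometric_two, mul_comm]
theorem pot_le_mx (f : E n → ℝ≥0∞) {t : ℝ} (ht : 0 < t) {O : Set (E n)} {x : E n}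
    (h : ball x t ⊆ O) : pot f t x ≤ 2 * ENNReal.ofReal t * mx (O.indicator f) x := by
  rw [← tsum_ofReal_half ht, ← ENNReal.tsum_mul_right]
  refine ENNReal.tsum_le_tsum fun j => ?_
  gcongr
  rw [← av_indicator (O := O) f ((ball_subset_ball ?_).trans h)]
  · exact av_le_mx _ x (by positivity)
  · exact div_le_self ht.le (one_le_pow₀ (by norm_num))
theorem pot_le_two (f : E n → ℝ≥0∞) {t T : ℝ} (ht : 0 < t) (h : t ≤ T) (h2 : T ≤ 2 * t) (x : E n) :
    pot f t x ≤ 2 ^ n * pot f T x := by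
  unfold pot
  rw [← ENNReal.tsum_mul_left]
  refine ENNReal.tsum_le_tsum fun j => ?_
  have h3 : t / 2 ^ j ≤ T / 2 ^ j := by gcongr
  have h4 := av_le_av f (x := x) (x' := x) (r := t / 2 ^ j) (r' := T / 2 ^ j) (K := 2)
    (by positivity) (ball_subset_ball h3) (by rw [← mul_div_assoc]; gcongr)
  rw [ENNReal.ofReal_pow (by norm_num)] at h4
  calc _ ≤ ENNReal.ofReal (T / 2 ^ j) * (ENNReal.ofReal 2 ^ n * av f x (T / 2 ^ j)) := by gcongr
    _ = _ := by simp; ring
theorem pot_shift (f : E n → ℝ≥0∞) (T : ℝ) (i : ℕ) (x : E n) :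
    pot f T x = ∑ j ∈ Finset.range i, ENNReal.ofReal (T / 2 ^ j) * av f x (T / 2 ^ j) +
      pot f (T / 2 ^ i) x := by
  unfold pot
  rw [← ENNReal.summable.sum_add_tsum_nat_add' (k := i)]
  congr 2; funext j
  rw [div_div, ← pow_add, add_comm i j]
theorem exists_half_pow {t T : ℝ} (ht : 0 < t) (h : t ≤ T) :
    ∃ i : ℕ, t ≤ T / 2 ^ i ∧ T / 2 ^ i ≤ 2 * t := by
  obtain ⟨i, h1, h2⟩ := exists_nat_pow_near (x := T / t) (y := (2 : ℝ))
    (by rw [le_div_iff₀ ht]; linarith) (by norm_num)
  refine ⟨i, ?_, ?_⟩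
  · rw [le_div_iff₀ (by positivity)]; rw [le_div_iff₀ ht] at h1; linarith
  · rw [div_le_iff₀ (by positivity)]; rw [div_lt_iff₀ ht, pow_succ] at h2; linarith
theorem pot_le_pot' (f : E n → ℝ≥0∞) {t T : ℝ} (ht : 0 < t) (h : t ≤ T) (x : E n) :
    pot f t x ≤ 2 ^ (n + 1) * pot f T x := by
  obtain ⟨i, h1, h2⟩ := exists_half_pow ht h
  refine (pot_le_two f ht h1 h2 x).trans ?_
  rw [pot_shift f T i x]
  gcongr
  · norm_num
  · omega
  · exact le_add_self
theorem pot_le_pot (f : E n → ℝ≥0∞) {t T : ℝ} (ht : 0 < t) (h : t ≤ T) (x : E n) :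
    pot f T x ≤ 2 ^ (n + 1) * pot f t x + 2 * ENNReal.ofReal (T * (T / t) ^ n) * av f x T := by
  obtain ⟨i, h1, h2⟩ := exists_half_pow ht h
  have hT : 0 < T := ht.trans_le h
  rw [pot_shift f T (i + 1) x, add_comm]
  gcongr
  · have h3 : T / 2 ^ (i + 1) ≤ t := by rw [pow_succ, ← div_div]; linarith
    exact pot_le_pot' f (by positivity) h3 x
  · calc ∑ j ∈ Finset.range (i + 1), ENNReal.ofReal (T / 2 ^ j) * av f x (T / 2 ^ j)
        ≤ ∑ j ∈ Finset.range (i + 1), ENNReal.ofReal (T / 2 ^ j) *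
            (ENNReal.ofReal ((T / t) ^ n) * av f x T) := by
          refine Finset.sum_le_sum fun j hj => ?_
          gcongr
          have hj' : j ≤ i := by simpa [Nat.lt_succ_iff] using hj
          have h4 : t ≤ T / 2 ^ j := h1.trans (by gcongr; norm_num)
          refine av_le_av f (by positivity)
            (ball_subset_ball (div_le_self hT.le (one_le_pow₀ (by norm_num)))) ?_
          calc T = T / t * t := by field_simp
            _ ≤ _ := by gcongr
      _ ≤ (∑' j : ℕ, ENNReal.ofReal (T / 2 ^ j)) * (ENNReal.ofReal ((T / t) ^ n) * av f x T) := by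
          rw [← Finset.sum_mul]; gcongr; exact ENNReal.sum_le_tsum _
      _ = _ := by rw [tsum_ofReal_half hT, ENNReal.ofReal_mul hT.le]; ring
theorem av_pot {f : E n → ℝ≥0∞} (hf : Measurable f) {T : ℝ} (hT : 0 < T) (x : E n) :
    av (pot f T) x T ≤ 2 ^ (n + 1) * ENNReal.ofReal T * av f x (2 * T) := by
  have h1 : av (pot f T) x T =
      ∑' j : ℕ, ENNReal.ofReal (T / 2 ^ j) * av (fun y => av f y (T / 2 ^ j)) x T := by
    conv_lhs => unfold av pot
    rw [lintegral_tsum fun j => ((measurable_av hf _).const_mul _).aemeasurable, div_eq_mul_inv,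
      ← ENNReal.tsum_mul_right]
    congr 1; funext j
    rw [lintegral_const_mul _ (measurable_av hf _), mul_assoc, ← div_eq_mul_inv]; rfl
  rw [h1]
  calc _ ≤ ∑' j : ℕ, ENNReal.ofReal (T / 2 ^ j) * (2 ^ n * av f x (2 * T)) := by
        refine ENNReal.tsum_le_tsum fun j => ?_
        gcongr
        exact av_av hf x (by positivity) (div_le_self hT.le (one_le_pow₀ (by norm_num)))
    _ = _ := by rw [ENNReal.tsum_mul_right, tsum_ofReal_half hT]; ring

/-! ### damping factor -/

theorem psi_le_one (l : ℝ≥0∞) (d : ℝ) (s : ℝ≥0∞) : psi l d s ≤ 1 := min_le_left _ _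
theorem psi_of_le {l s : ℝ≥0∞} {d : ℝ} (hd : 0 ≤ d) (h0 : l ≠ 0) (hl : l ≠ ⊤) (h : s ≤ l) :
    psi l d s = 1 := by
  apply min_eq_left
  have h1 : 1 ≤ l / s := by
    calc (1 : ℝ≥0∞) = l / l := (ENNReal.div_self h0 hl).symm
      _ ≤ l / s := by gcongr
  simpa using ENNReal.rpow_le_rpow h1 hd
theorem psi_of_ge {l s : ℝ≥0∞} {d : ℝ} (hd : 0 ≤ d) (h : l ≤ s) : psi l d s = (l / s) ^ d := by
  apply min_eq_right
  have h1 : l / s ≤ 1 := ENNReal.div_le_of_le_mul (by simpa using h)
  simpa using ENNReal.rpow_le_rpow h1 hd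
theorem psi_anti {l s s' : ℝ≥0∞} {d : ℝ} (hd : 0 ≤ d) (h : s ≤ s') : psi l d s' ≤ psi l d s := by
  unfold psi; gcongr
theorem psi_mono {l l' s : ℝ≥0∞} {d : ℝ} (hd : 0 ≤ d) (h : l ≤ l') : psi l d s ≤ psi l' d s := by
  unfold psi; gcongr
theorem psi_mul_le {l s K : ℝ≥0∞} {d : ℝ} (hd : 0 ≤ d) (hd1 : d ≤ 1) (hK : 1 ≤ K) :
    psi (K * l) d s ≤ K * psi l d s := by
  unfold psi
  rw [mul_div_assoc, ENNReal.mul_rpow_of_nonneg _ _ hd]
  have h1 : K ^ d ≤ K := by simpa using ENNReal.rpow_le_rpow_of_exponent_le hK hd1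
  rcases le_total 1 ((l / s) ^ d) with h | h
  · rw [min_eq_left h]; simpa using Or.inl hK
  · rw [min_eq_right h]; exact (min_le_right _ _).trans (by gcongr)
theorem measurable_psi (l : ℝ≥0∞) (d : ℝ) : Measurable (psi l d) :=
  measurable_const.min ((measurable_const.div measurable_id).pow_const d)

end Pool.Agent.P.MP_28243e_an
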