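import Pool.Agent.P.MP_28243e_an.Stmts

/-! Discrete absorption. -/

namespace Pool.Agent.P.MP_28243e_an

open Set MeasureTheory Metric Filter Topology ENNReal
open scoped NNReal Classical

namespace DP

lemma slow_nat {θ : ℝ≥0} {w : ℤ → ℝ≥0} (h : Slow θ w) (d : ℕ) (k : ℤ) :
    w (k + d) ≤ (1 + θ) ^ d * w k ∧ w k ≤ (1 + θ) ^ d * w (k + d) := by
  induction d with
  | zero => simp
  | succ d ih =>
    have e : k + ((d + 1 : ℕ) : ℤ) = k + d + 1 := by push_cast; ring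
    rw [e]
    obtain ⟨_, h1, h2⟩ := h (k + d)
    constructor
    · calc w (k + d + 1) ≤ (1 + θ) * w (k + d) := h1
        _ ≤ (1 + θ) * ((1 + θ) ^ d * w k) := by gcongr; exact ih.1
        _ = (1 + θ) ^ (d + 1) * w k := by ring
    · calc w k ≤ (1 + θ) ^ d * w (k + d) := ih.2
        _ ≤ (1 + θ) ^ d * ((1 + θ) * w (k + d + 1)) := by gcongr
        _ = (1 + θ) ^ (d + 1) * w (k + d + 1) := by ring

lemma slow_le {θ : ℝ≥0} {w : ℤ → ℝ≥0} (h : Slow θ w) (k p : ℤ) :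
    w k ≤ (1 + θ) ^ (p - k).natAbs * w p := by
  rcases le_total k p with hk | hk
  · have e : p = k + ((p - k).natAbs : ℤ) := by omega
    have := (slow_nat h (p - k).natAbs k).2
    rwa [← e] at this
  · have e : k = p + ((p - k).natAbs : ℤ) := by omega
    have := (slow_nat h (p - k).natAbs p).1
    rwa [← e] at this

lemma slow_eight {θ : ℝ≥0} {w : ℤ → ℝ≥0} (h : Slow θ w) (h1 : θ ≤ 1) {k p : ℤ}
    (hk : (p - k).natAbs ≤ 3) : w k ≤ 8 * w p := by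
  refine (slow_le h k p).trans ?_
  gcongr
  calc (1 + θ) ^ (p - k).natAbs ≤ (2 : ℝ≥0) ^ (p - k).natAbs := by
        gcongr
        calc 1 + θ ≤ 1 + 1 := by gcongr
          _ = 2 := by norm_num
    _ ≤ 2 ^ 3 := pow_le_pow_right₀ (by norm_num) hk
    _ = 8 := by norm_num

lemma slow_damp {θ s : ℝ≥0} {w : ℤ → ℝ≥0} (h : Slow θ w) (hs : (1 + θ) * s ≤ 1) (k p : ℤ) :
    w k * s ^ (2 * (p - k).natAbs) ≤ w p * s ^ (p - k).natAbs := by
  set d := (p - k).natAbs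
  calc w k * s ^ (2 * d) ≤ (1 + θ) ^ d * w p * s ^ (2 * d) := by gcongr; exact slow_le h k p
    _ = ((1 + θ) * s) ^ d * (w p * s ^ d) := by rw [mul_pow]; ring
    _ ≤ 1 * (w p * s ^ d) := by gcongr; exact pow_le_one₀ (by positivity) hs
    _ = _ := one_mul _

lemma geo_half (t : ℝ≥0∞) (F : Finset ℤ) (g : ℤ → ℕ) (hg : Set.InjOn g F) :
    ∑ k ∈ F, t ^ g k ≤ (1 - t)⁻¹ := by
  rw [← Finset.sum_image (f := fun d : ℕ => t ^ d) (g := g) (s := F) hg, ← ENNReal.tsum_geometric]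
  exact ENNReal.sum_le_tsum _

lemma geo (t : ℝ≥0∞) (p : ℤ) (F : Finset ℤ) :
    ∑ k ∈ F, t ^ (p - k).natAbs ≤ 2 * (1 - t)⁻¹ := by
  rw [← Finset.sum_filter_add_sum_filter_not F (fun k => k ≤ p), two_mul]
  refine add_le_add (geo_half t _ (fun k => (p - k).natAbs) ?_)
    (geo_half t _ (fun k => (p - k).natAbs) ?_)
  · intro a ha b hb hab
    simp only [Finset.coe_filter, Set.mem_ofPred_eq] at ha hb hab
    omega
  · intro a ha b hb hab
    simp only [Finset.coe_filter, Set.mem_ofPred_eq] at ha hb hab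
    omega

lemma exists_K (n : ℕ) {s : ℝ≥0} (h0 : 0 < s) (h1 : s < 1) :
    ∃ K : ℝ≥0, 1 ≤ K ∧ ∀ d : ℕ, ((d : ℝ≥0) + 1) ^ n * s ^ (2 * d) ≤ K := by
  have ht : ‖((s : ℝ) ^ 2)‖ < 1 := by
    rw [Real.norm_of_nonneg (by positivity)]
    exact pow_lt_one₀ s.2 (by exact_mod_cast h1) (by norm_num)
  have hsum := summable_pow_mul_geometric_of_norm_lt_one n ht
  set T := ∑' d : ℕ, (d : ℝ) ^ n * ((s : ℝ) ^ 2) ^ d
  have hT : ∀ d : ℕ, (d : ℝ) ^ n * ((s : ℝ) ^ 2) ^ d ≤ T := fun d =>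
    hsum.le_tsum d (fun j _ => by positivity)
  refine ⟨max 1 (Real.toNNReal (T / (s : ℝ) ^ 2)), le_max_left _ _, fun d => ?_⟩
  refine le_trans ?_ (le_max_right _ _)
  rw [← NNReal.coe_le_coe]
  refine le_trans ?_ (Real.le_coe_toNNReal _)
  have hs : (0 : ℝ) < (s : ℝ) ^ 2 := by positivity
  rw [le_div_iff₀ hs]
  have := hT (d + 1)
  push_cast at this ⊢
  calc ((d : ℝ) + 1) ^ n * (s : ℝ) ^ (2 * d) * (s : ℝ) ^ 2
      = ((d : ℝ) + 1) ^ n * ((s : ℝ) ^ 2) ^ (d + 1) := by rw [pow_mul]; ring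
    _ ≤ T := this

lemma chain_nat {f x : ℤ → ℝ≥0∞} {m : ℝ≥0∞} (d : ℕ) (k : ℤ)
    (h : ∀ l, k ≤ l → l < k + d → f (l + 1) ≤ f l + x l ∧ f l ≤ f (l + 1) + x l ∧ x l ≤ m) :
    f (k + d) ≤ f k + d * m ∧ f k ≤ f (k + d) + d * m := by
  induction d with
  | zero => simp
  | succ d ih =>
    have e : k + ((d + 1 : ℕ) : ℤ) = k + d + 1 := by push_cast; ring
    have ih' := ih (fun l h1 h2 => h l h1 (by omega))
    obtain ⟨h1, h2, h3⟩ := h (k + d) (by omega) (by omega)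
    rw [e]
    push_cast
    constructor
    · calc f (k + d + 1) ≤ f (k + d) + x (k + d) := h1
        _ ≤ f k + d * m + m := add_le_add ih'.1 h3
        _ = f k + (d + 1) * m := by ring
    · calc f k ≤ f (k + d) + d * m := ih'.2
        _ ≤ f (k + d + 1) + x (k + d) + d * m := by gcongr
        _ ≤ f (k + d + 1) + m + d * m := by gcongr
        _ = f (k + d + 1) + (d + 1) * m := by ring

lemma chain {n : ℕ} (hn : n ≠ 0) {f x : ℤ → ℝ≥0∞} {k₀ k₂ k l : ℤ} (hk : k ∈ Finset.Icc k₀ k₂)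
    (hl : l ∈ Finset.Icc k₀ k₂)
    (h : ∀ l ∈ Finset.Icc k₀ k₂, f (l + 1) ≤ f l + x l ∧ f l ≤ f (l + 1) + x l) :
    f l ^ n ≤ (((l - k).natAbs : ℝ≥0∞) + 1) ^ n * (f k ^ n +
      ∑ p ∈ (Finset.Icc k₀ k₂).filter (fun p => (p - k).natAbs ≤ (l - k).natAbs), x p ^ n) := by
  set T := f k ^ n +
      ∑ p ∈ (Finset.Icc k₀ k₂).filter (fun p => (p - k).natAbs ≤ (l - k).natAbs), x p ^ n with hT
  set m := T ^ ((n : ℝ)⁻¹) with hm
  have hmn : m ^ n = T := ENNReal.rpow_inv_natCast_pow hn T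
  have hle : ∀ z : ℝ≥0∞, z ^ n ≤ T → z ≤ m := fun z hz => by
    rw [← hmn] at hz
    exact (ENNReal.pow_le_pow_left_iff hn).1 hz
  have hfk : f k ≤ m := hle _ le_self_add
  have hx : ∀ p ∈ Finset.Icc k₀ k₂, (p - k).natAbs ≤ (l - k).natAbs → x p ≤ m := fun p hp hp' => by
    refine hle _ (le_trans ?_ le_add_self)
    exact Finset.single_le_sum (f := fun p => x p ^ n) (fun _ _ => zero_le)
      (Finset.mem_filter.2 ⟨hp, hp'⟩)
  rw [← hmn, ← mul_pow]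
  gcongr
  simp only [Finset.mem_Icc] at hk hl h hx
  have key : f l ≤ f k + ((l - k).natAbs : ℝ≥0∞) * m := by
    rcases le_total k l with hkl | hkl
    · have e : l = k + ((l - k).natAbs : ℤ) := by omega
      have := (chain_nat (f := f) (x := x) (m := m) (l - k).natAbs k (fun p h1 h2 =>
        ⟨(h p (by omega)).1, (h p (by omega)).2, hx p (by omega) (by omega)⟩)).1
      rwa [← e] at this
    · have e : k = l + ((l - k).natAbs : ℤ) := by omega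
      have := (chain_nat (f := f) (x := x) (m := m) (l - k).natAbs l (fun p h1 h2 =>
        ⟨(h p (by omega)).1, (h p (by omega)).2, hx p (by omega) (by omega)⟩)).2
      rwa [← e] at this
  calc f l ≤ f k + ((l - k).natAbs : ℝ≥0∞) * m := key
    _ ≤ m + ((l - k).natAbs : ℝ≥0∞) * m := by gcongr
    _ = _ := by ring

lemma absorb {Z A : ℝ≥0∞} (hZ : Z ≠ ⊤) (h : Z ≤ 2⁻¹ * Z + A) : Z ≤ 2 * A := by
  have h2 : (2 : ℝ≥0∞) * Z ≤ Z + 2 * A := by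
    calc 2 * Z ≤ 2 * (2⁻¹ * Z + A) := by gcongr
      _ = (2 * 2⁻¹) * Z + 2 * A := by ring
      _ = Z + 2 * A := by rw [ENNReal.mul_inv_cancel (by norm_num) (by norm_num), one_mul]
  rw [two_mul] at h2
  exact (ENNReal.add_le_add_iff_left hZ).1 h2

/-- The ratio of the geometric weights. -/
noncomputable def sg : ℝ≥0 := (2 : ℝ≥0) ^ (-(1 / 16) : ℝ)

lemma sg_pos : 0 < sg := NNReal.rpow_pos (by norm_num)

lemma sg_lt : sg < 1 := NNReal.rpow_lt_one_of_one_lt_of_neg (by norm_num) (by norm_num)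

lemma two_rpow {n : ℕ} (hn : n ≠ 0) (j : ℤ) :
    ((2 : ℝ≥0∞) ^ (-|((j : ℤ) : ℝ)| / (4 * n))) ^ n = (sg : ℝ≥0∞) ^ (4 * j.natAbs) := by
  have h2 : (sg : ℝ≥0∞) = (2 : ℝ≥0∞) ^ (-(1 / 16) : ℝ) := by
    rw [sg, ENNReal.coe_rpow_of_ne_zero (by norm_num)]
    norm_num
  rw [h2, ← ENNReal.rpow_natCast, ← ENNReal.rpow_natCast, ← ENNReal.rpow_mul, ← ENNReal.rpow_mul]
  congr 1
  have hn' : (n : ℝ) ≠ 0 := by exact_mod_cast hn
  have : |((j : ℤ) : ℝ)| = (j.natAbs : ℝ) := by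
    rw [Nat.cast_natAbs]; push_cast; rfl
  rw [this]
  push_cast
  field_simp
  ring

lemma Yq_le (n : ℕ) (c : ℝ≥0) (f a : ℝ≥0∞) : Yq n c f a ≤ a ^ n := by
  unfold Yq; split_ifs
  · exact le_rfl
  · exact zero_le

lemma sg_le_one : (sg : ℝ≥0∞) ≤ 1 := by exact_mod_cast sg_lt.le

lemma sg_anti {i j : ℕ} (h : i ≤ j) : (sg : ℝ≥0∞) ^ j ≤ (sg : ℝ≥0∞) ^ i :=
  pow_le_pow_right_of_le_one' sg_le_one h

/-- Pointwise bound for the full size term. -/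
lemma point {n : ℕ} (hn : n ≠ 0) {C₁ c K : ℝ≥0} (hK1 : 1 ≤ K)
    (hK : ∀ d : ℕ, ((d : ℝ≥0) + 1) ^ n * sg ^ (2 * d) ≤ K)
    (hc : (C₁ : ℝ≥0∞) ^ (n + 1) * K * (c : ℝ≥0∞) ^ n ≤ 2⁻¹)
    {a al e f x : ℤ → ℝ≥0∞} {k₀ k₂ k : ℤ} (hk : k ∈ Finset.Icc k₀ k₂)
    (ha : a k ≤ C₁) (hal : ∀ l, al l ≤ C₁)
    (hl : ∃ l : ℤ, a k ≤ C₁ * 2 ^ (-|((l - k : ℤ) : ℝ)| / (4 * n)) * al l)
    (h2 : ∀ l ∈ Finset.Icc k₀ k₂, al l ^ n ≤ C₁ * (f l ^ n + e l) ∧ f (l + 1) ≤ f l + x l ∧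
      f l ≤ f (l + 1) + x l) :
    Yq n c (f k) (a k) ≤
      (C₁ : ℝ≥0∞) ^ (2 * n) * ((sg : ℝ≥0∞) ^ (2 * (k₀ - k).natAbs) + (sg : ℝ≥0∞) ^ (2 * (k₂ - k).natAbs)) +
      2 * ((C₁ : ℝ≥0∞) ^ (n + 1) * K) *
        ∑ p ∈ Finset.Icc k₀ k₂, (sg : ℝ≥0∞) ^ (2 * (p - k).natAbs) * (x p ^ n + e p) := by
  unfold Yq
  split_ifs with hf
  swap
  · exact zero_le
  obtain ⟨l, hl⟩ := hl
  set d := (l - k).natAbs with hd
  have hl' : a k ^ n ≤ (C₁ : ℝ≥0∞) ^ n * (sg : ℝ≥0∞) ^ (4 * d) * al l ^ n := by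
    calc a k ^ n ≤ (C₁ * 2 ^ (-|((l - k : ℤ) : ℝ)| / (4 * n)) * al l) ^ n := by gcongr
      _ = _ := by rw [mul_pow, mul_pow, two_rpow hn]
  by_cases hlm : l ∈ Finset.Icc k₀ k₂
  · refine le_trans ?_ le_add_self
    set S := ∑ p ∈ Finset.Icc k₀ k₂, (sg : ℝ≥0∞) ^ (2 * (p - k).natAbs) * (x p ^ n + e p) with hS
    have hch := chain hn hk hlm (fun l hl => (h2 l hl).2)
    set X := ∑ p ∈ (Finset.Icc k₀ k₂).filter (fun p => (p - k).natAbs ≤ (l - k).natAbs), x p ^ n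
      with hX
    have hKd : (((d : ℝ≥0∞)) + 1) ^ n * (sg : ℝ≥0∞) ^ (2 * d) ≤ K := by exact_mod_cast hK d
    have hK1' : (1 : ℝ≥0∞) ≤ K := by exact_mod_cast hK1
    have hXS : (sg : ℝ≥0∞) ^ (2 * d) * (X + e l) ≤ S := by
      have e1 : (sg : ℝ≥0∞) ^ (2 * d) * X ≤
          ∑ p ∈ Finset.Icc k₀ k₂, (sg : ℝ≥0∞) ^ (2 * (p - k).natAbs) * x p ^ n := by
        rw [hX, Finset.mul_sum]
        refine le_trans (Finset.sum_le_sum fun p hp => ?_)
          (Finset.sum_le_sum_of_subset (Finset.filter_subset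
            (fun p => (p - k).natAbs ≤ (l - k).natAbs) _))
        have := (Finset.mem_filter.1 hp).2
        gcongr ?_ * _
        exact sg_anti (by omega)
      have e2 : (sg : ℝ≥0∞) ^ (2 * d) * e l ≤
          ∑ p ∈ Finset.Icc k₀ k₂, (sg : ℝ≥0∞) ^ (2 * (p - k).natAbs) * e p :=
        Finset.single_le_sum (f := fun p => (sg : ℝ≥0∞) ^ (2 * (p - k).natAbs) * e p)
          (fun _ _ => zero_le) hlm
      rw [mul_add, hS]
      simp only [mul_add, Finset.sum_add_distrib]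
      exact add_le_add e1 e2
    have hfk : f k ^ n ≤ (c : ℝ≥0∞) ^ n * a k ^ n := by
      rw [← mul_pow]; gcongr
    have h4 : (sg : ℝ≥0∞) ^ (4 * d) = (sg : ℝ≥0∞) ^ (2 * d) * (sg : ℝ≥0∞) ^ (2 * d) := by
      rw [← pow_add]; congr 1; ring
    have hs1 : (sg : ℝ≥0∞) ^ (2 * d) ≤ 1 := pow_le_one₀ zero_le sg_le_one
    have h5 : (sg : ℝ≥0∞) ^ (4 * d) * (f l ^ n + e l) ≤ K * (f k ^ n + S) := by
      calc (sg : ℝ≥0∞) ^ (4 * d) * (f l ^ n + e l)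
          ≤ (sg : ℝ≥0∞) ^ (4 * d) * ((((d : ℝ≥0∞)) + 1) ^ n * (f k ^ n + X) + e l) := by gcongr
        _ = ((((d : ℝ≥0∞)) + 1) ^ n * (sg : ℝ≥0∞) ^ (2 * d)) *
              ((sg : ℝ≥0∞) ^ (2 * d) * f k ^ n + (sg : ℝ≥0∞) ^ (2 * d) * X) +
              (sg : ℝ≥0∞) ^ (2 * d) * ((sg : ℝ≥0∞) ^ (2 * d) * e l) := by rw [h4]; ring
        _ ≤ K * (1 * f k ^ n + (sg : ℝ≥0∞) ^ (2 * d) * X) +
              K * ((sg : ℝ≥0∞) ^ (2 * d) * e l) := by
            gcongr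
            exact hs1.trans hK1'
        _ = K * (f k ^ n + (sg : ℝ≥0∞) ^ (2 * d) * (X + e l)) := by ring
        _ ≤ K * (f k ^ n + S) := by gcongr
    refine le_trans (absorb (A := (C₁ : ℝ≥0∞) ^ (n + 1) * K * S) ?_ ?_) (le_of_eq (by ring))
    · exact ne_top_of_le_ne_top (ENNReal.pow_ne_top ENNReal.coe_ne_top) (by gcongr : a k ^ n ≤ (C₁ : ℝ≥0∞) ^ n)
    · calc a k ^ n ≤ (C₁ : ℝ≥0∞) ^ n * (sg : ℝ≥0∞) ^ (4 * d) * al l ^ n := hl'
        _ ≤ (C₁ : ℝ≥0∞) ^ n * (sg : ℝ≥0∞) ^ (4 * d) * (C₁ * (f l ^ n + e l)) := by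
            gcongr; exact (h2 l hlm).1
        _ = (C₁ : ℝ≥0∞) ^ (n + 1) * ((sg : ℝ≥0∞) ^ (4 * d) * (f l ^ n + e l)) := by ring
        _ ≤ (C₁ : ℝ≥0∞) ^ (n + 1) * (K * ((c : ℝ≥0∞) ^ n * a k ^ n + S)) := by
            refine mul_le_mul_right (h5.trans ?_) _
            gcongr
        _ = ((C₁ : ℝ≥0∞) ^ (n + 1) * K * (c : ℝ≥0∞) ^ n) * a k ^ n +
            (C₁ : ℝ≥0∞) ^ (n + 1) * K * S := by ring
        _ ≤ 2⁻¹ * a k ^ n + (C₁ : ℝ≥0∞) ^ (n + 1) * K * S := by gcongr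
  · refine le_trans ?_ le_self_add
    have h1 : (sg : ℝ≥0∞) ^ (4 * d) ≤
        (sg : ℝ≥0∞) ^ (2 * (k₀ - k).natAbs) + (sg : ℝ≥0∞) ^ (2 * (k₂ - k).natAbs) := by
      simp only [Finset.mem_Icc] at hk hlm
      by_cases h : l < k₀
      · exact le_trans (sg_anti (by omega)) le_self_add
      · exact le_trans (sg_anti (by omega)) le_add_self
    calc a k ^ n ≤ (C₁ : ℝ≥0∞) ^ n * (sg : ℝ≥0∞) ^ (4 * d) * al l ^ n := hl'
      _ ≤ (C₁ : ℝ≥0∞) ^ n * ((sg : ℝ≥0∞) ^ (2 * (k₀ - k).natAbs) +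
          (sg : ℝ≥0∞) ^ (2 * (k₂ - k).natAbs)) * (C₁ : ℝ≥0∞) ^ n := by
          gcongr; exact hal l
      _ = _ := by ring

lemma wgeo {θ : ℝ≥0} {w : ℤ → ℝ≥0} (h : Slow θ w) (hs : (1 + θ) * sg ≤ 1) (p : ℤ) (F : Finset ℤ) :
    ∑ k ∈ F, (w k : ℝ≥0∞) * (sg : ℝ≥0∞) ^ (2 * (p - k).natAbs) ≤
      (w p : ℝ≥0∞) * (2 * (1 - (sg : ℝ≥0∞))⁻¹) := by
  refine le_trans (Finset.sum_le_sum (g := fun k => (w p : ℝ≥0∞) * (sg : ℝ≥0∞) ^ (p - k).natAbs)
    fun k _ => ?_) ?_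
  · exact_mod_cast slow_damp h hs k p
  · rw [← Finset.mul_sum]
    gcongr
    exact geo _ p F

/-- Sums over windows of length five. -/
lemma window {w v : ℤ → ℝ≥0} {A : ℝ≥0} (u : ℤ → ℝ≥0∞) (F G : Finset ℤ)
    (hG : ∀ k ∈ F, Finset.Icc (k - 2) (k + 2) ⊆ G)
    (hv : ∀ k ∈ F, ∀ l ∈ Finset.Icc (k - 2) (k + 2), v k ≤ A * w l) :
    ∑ k ∈ F, (v k : ℝ≥0∞) * ∑ l ∈ Finset.Icc (k - 2) (k + 2), u l ≤
      5 * A * ∑ l ∈ G, (w l : ℝ≥0∞) * u l := by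
  calc ∑ k ∈ F, (v k : ℝ≥0∞) * ∑ l ∈ Finset.Icc (k - 2) (k + 2), u l
      ≤ ∑ k ∈ F, ∑ l ∈ G, if k ∈ Finset.Icc (l - 2) (l + 2) then (A : ℝ≥0∞) * (w l * u l) else 0 := by
        refine Finset.sum_le_sum fun k hk => ?_
        rw [← Finset.sum_filter, Finset.mul_sum]
        have : G.filter (fun l => k ∈ Finset.Icc (l - 2) (l + 2)) = Finset.Icc (k - 2) (k + 2) := by
          ext l
          simp only [Finset.mem_filter]
          constructor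
          · rintro ⟨_, h⟩
            simp only [Finset.mem_Icc] at h ⊢
            omega
          · intro h
            refine ⟨hG k hk h, ?_⟩
            simp only [Finset.mem_Icc] at h ⊢
            omega
        rw [this]
        refine Finset.sum_le_sum fun l hl => ?_
        rw [← mul_assoc]
        gcongr
        exact_mod_cast hv k hk l hl
    _ = ∑ l ∈ G, ∑ k ∈ F, if k ∈ Finset.Icc (l - 2) (l + 2) then (A : ℝ≥0∞) * (w l * u l) else 0 :=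
        Finset.sum_comm
    _ ≤ ∑ l ∈ G, 5 * ((A : ℝ≥0∞) * (w l * u l)) := by
        refine Finset.sum_le_sum fun l _ => ?_
        rw [← Finset.sum_filter, Finset.sum_const, nsmul_eq_mul]
        gcongr
        have : (F.filter (fun k => k ∈ Finset.Icc (l - 2) (l + 2))).card ≤ 5 := by
          refine le_trans (Finset.card_le_card (t := Finset.Icc (l - 2) (l + 2))
            fun k hk => (Finset.mem_filter.1 hk).2) ?_
          simp only [Int.card_Icc]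
          omega
        exact_mod_cast this
    _ = _ := by rw [Finset.mul_sum]; exact Finset.sum_congr rfl fun l _ => by ring

/-- Extending a sum by three terms on each side. -/
lemma extend {θ : ℝ≥0} {w : ℤ → ℝ≥0} (h : Slow θ w) (h1 : θ ≤ 1) (u : ℤ → ℝ≥0∞) {D : ℝ≥0∞}
    (hu : ∀ l, u l ≤ D) (k₀ k₂ : ℤ) :
    ∑ l ∈ Finset.Icc (k₀ - 3) (k₂ + 3), (w l : ℝ≥0∞) * u l ≤
      ∑ l ∈ Finset.Icc k₀ k₂, (w l : ℝ≥0∞) * u l + 24 * D * (w k₀ + w k₂) := by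
  have hsub : Finset.Icc (k₀ - 3) (k₂ + 3) ⊆
      Finset.Icc k₀ k₂ ∪ (Finset.Icc (k₀ - 3) (k₀ - 1) ∪ Finset.Icc (k₂ + 1) (k₂ + 3)) := by
    intro l hl
    simp only [Finset.mem_union, Finset.mem_Icc] at hl ⊢
    omega
  have hun : ∀ (A B : Finset ℤ) (g : ℤ → ℝ≥0∞), ∑ l ∈ A ∪ B, g l ≤ ∑ l ∈ A, g l + ∑ l ∈ B, g l :=
    fun A B g => by rw [← Finset.sum_union_inter]; exact le_self_add
  have hside : ∀ (p : ℤ) (A : Finset ℤ), A.card ≤ 3 → (∀ l ∈ A, (p - l).natAbs ≤ 3) →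
      ∑ l ∈ A, (w l : ℝ≥0∞) * u l ≤ 24 * D * w p := fun p A hA hp => by
    calc ∑ l ∈ A, (w l : ℝ≥0∞) * u l ≤ ∑ _l ∈ A, 8 * (w p : ℝ≥0∞) * D := by
          refine Finset.sum_le_sum fun l hl => ?_
          gcongr
          · exact_mod_cast slow_eight h h1 (hp l hl)
          · exact hu l
      _ = A.card * (8 * (w p : ℝ≥0∞) * D) := by rw [Finset.sum_const, nsmul_eq_mul]
      _ ≤ 3 * (8 * (w p : ℝ≥0∞) * D) := by gcongr; exact_mod_cast hA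
      _ = _ := by ring
  refine (Finset.sum_le_sum_of_subset hsub).trans ((hun _ _ _).trans ?_)
  gcongr
  refine (hun _ _ _).trans ?_
  rw [mul_add]
  refine add_le_add (hside _ _ ?_ ?_) (hside _ _ ?_ ?_)
  · simp only [Int.card_Icc]; omega
  · intro l hl; simp only [Finset.mem_Icc] at hl; omega
  · simp only [Int.card_Icc]; omega
  · intro l hl; simp only [Finset.mem_Icc] at hl; omega

lemma nnd_le (a b : ℝ≥0) : nndist a b ≤ a + b := by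
  rw [NNReal.nndist_eq]
  exact max_le (tsub_le_self.trans le_self_add) (tsub_le_self.trans le_add_self)

lemma nnd_slow {θ a b : ℝ≥0} (h1 : b ≤ (1 + θ) * a) (h2 : a ≤ (1 + θ) * b) :
    nndist a b ≤ θ * (a + b) := by
  rw [NNReal.nndist_eq]
  refine max_le ?_ ?_
  · rw [tsub_le_iff_right]
    calc a ≤ (1 + θ) * b := h2
      _ = θ * b + b := by ring
      _ ≤ θ * (a + b) + b := by gcongr; exact le_add_self
  · rw [tsub_le_iff_right]
    calc b ≤ (1 + θ) * a := h1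
      _ = θ * a + a := by ring
      _ ≤ θ * (a + b) + a := by gcongr; exact le_self_add

/-- The energy bound. -/
lemma xbound {θ γ Cc C₂ : ℝ≥0} {w : ℤ → ℝ≥0} (h : Slow θ w) (h1 : θ ≤ 1) {e u r : ℤ → ℝ≥0∞}
    {D : ℝ≥0∞} (hu : ∀ l, u l ≤ D) {k₀ k₂ : ℤ} (hk : k₀ ≤ k₂)
    (H : ∀ w' : ℤ → ℝ≥0, w' (k₀ - 1) = 0 → w' (k₂ + 2) = 0 →
      ∑ k ∈ Finset.Icc (k₀ - 1) (k₂ + 1), (min (w' k) (w' (k + 1)) : ℝ≥0) * e k ≤
        ∑ k ∈ Finset.Icc (k₀ - 1) (k₂ + 1),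
          ((γ * (w' k + w' (k + 1)) + Cc * nndist (w' k) (w' (k + 1)) : ℝ≥0) *
              ∑ l ∈ Finset.Icc (k - 2) (k + 2), u l +
            (C₂ * (w' k + w' (k + 1)) : ℝ≥0) * ∑ l ∈ Finset.Icc (k - 2) (k + 2), r l)) :
    ∑ k ∈ Finset.Icc k₀ k₂, (w k : ℝ≥0∞) * e k ≤
      8 * (80 * ((γ : ℝ≥0∞) + Cc * θ) * (∑ l ∈ Finset.Icc k₀ k₂, (w l : ℝ≥0∞) * u l +
        24 * D * (w k₀ + w k₂)) + 80 * Cc * D * (w k₀ + w k₂) +
        80 * C₂ * ∑ l ∈ Finset.Icc (k₀ - 3) (k₂ + 3), (w l : ℝ≥0∞) * r l) := by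
  set w' : ℤ → ℝ≥0 := fun k => if k₀ ≤ k ∧ k ≤ k₂ + 1 then w k else 0 with hw'
  have hw'le : ∀ k, w' k ≤ w k := fun k => by
    simp only [hw']; split_ifs
    · exact le_rfl
    · exact zero_le
  have hw'eq : ∀ k, k₀ ≤ k → k ≤ k₂ + 1 → w' k = w k := fun k h1 h2 => by
    simp only [hw']; rw [if_pos ⟨h1, h2⟩]
  have z1 : w' (k₀ - 1) = 0 := by simp only [hw']; rw [if_neg (by omega)]
  have z2 : w' (k₂ + 2) = 0 := by simp only [hw']; rw [if_neg (by omega)]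
  have H' := H w' z1 z2
  have hL : ∑ k ∈ Finset.Icc k₀ k₂, (w k : ℝ≥0∞) * e k ≤
      8 * ∑ k ∈ Finset.Icc (k₀ - 1) (k₂ + 1), (min (w' k) (w' (k + 1)) : ℝ≥0) * e k := by
    refine le_trans ?_ (mul_le_mul_right (Finset.sum_le_sum_of_subset
      (Finset.Icc_subset_Icc (by omega) (by omega) : Finset.Icc k₀ k₂ ⊆ _)) _)
    rw [Finset.mul_sum]
    refine Finset.sum_le_sum fun k hk => ?_
    simp only [Finset.mem_Icc] at hk
    rw [← mul_assoc, hw'eq k (by omega) (by omega), hw'eq (k + 1) (by omega) (by omega)]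
    gcongr
    have : w k ≤ 8 * min (w k) (w (k + 1)) := by
      rw [mul_min]
      exact le_min (slow_eight h h1 (by omega)) (slow_eight h h1 (by omega))
    exact_mod_cast this
  refine hL.trans (mul_le_mul_right (H'.trans ?_) _)
  have hG : ∀ k ∈ Finset.Icc (k₀ - 1) (k₂ + 1),
      Finset.Icc (k - 2) (k + 2) ⊆ Finset.Icc (k₀ - 3) (k₂ + 3) := fun k hk => by
    simp only [Finset.mem_Icc] at hk
    exact Finset.Icc_subset_Icc (by omega) (by omega)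
  have h16 : ∀ k, ∀ l ∈ Finset.Icc (k - 2) (k + 2), w k + w (k + 1) ≤ 16 * w l := fun k l hl => by
    simp only [Finset.mem_Icc] at hl
    calc w k + w (k + 1) ≤ 8 * w l + 8 * w l :=
          add_le_add (slow_eight h h1 (by omega)) (slow_eight h h1 (by omega))
      _ = _ := by ring
  rw [Finset.sum_add_distrib]
  refine add_le_add ?_ ?_
  · set v2 : ℤ → ℝ≥0 := fun k => if k ∈ ({k₀ - 1, k₂ + 1} : Finset ℤ) then
      Cc * (8 * (w k₀ + w k₂)) else 0 with hv2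
    have hv : ∀ k ∈ Finset.Icc (k₀ - 1) (k₂ + 1),
        γ * (w' k + w' (k + 1)) + Cc * nndist (w' k) (w' (k + 1)) ≤
          (γ + Cc * θ) * (w k + w (k + 1)) + v2 k := fun k hk' => by
      simp only [Finset.mem_Icc] at hk'
      have hγ : γ * (w' k + w' (k + 1)) ≤ γ * (w k + w (k + 1)) := by
        gcongr <;> exact hw'le _
      have hC : Cc * nndist (w' k) (w' (k + 1)) ≤ Cc * θ * (w k + w (k + 1)) + v2 k := by
        by_cases hk1 : k = k₀ - 1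
        · refine le_trans ?_ le_add_self
          simp only [hv2]
          rw [if_pos (by simp [hk1])]
          gcongr
          refine (nnd_le _ _).trans ?_
          rw [hk1, z1, zero_add, sub_add_cancel]
          refine (hw'le _).trans ((slow_eight h h1 (p := k₀) (by omega)).trans ?_)
          gcongr; exact le_self_add
        by_cases hk2 : k = k₂ + 1
        · refine le_trans ?_ le_add_self
          simp only [hv2]
          rw [if_pos (by simp [hk2])]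
          gcongr
          refine (nnd_le _ _).trans ?_
          rw [hk2, add_assoc k₂, one_add_one_eq_two, z2, add_zero]
          refine (hw'le _).trans ((slow_eight h h1 (p := k₂) (by omega)).trans ?_)
          gcongr; exact le_add_self
        · refine le_trans ?_ le_self_add
          rw [hw'eq k (by omega) (by omega), hw'eq (k + 1) (by omega) (by omega), mul_assoc]
          gcongr
          exact nnd_slow (h k).2.1 (h k).2.2
      calc _ ≤ γ * (w k + w (k + 1)) + (Cc * θ * (w k + w (k + 1)) + v2 k) := add_le_add hγ hC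
        _ = _ := by ring
    calc _ ≤ ∑ k ∈ Finset.Icc (k₀ - 1) (k₂ + 1),
          ((((γ + Cc * θ) * (w k + w (k + 1)) : ℝ≥0) : ℝ≥0∞) * ∑ l ∈ Finset.Icc (k - 2) (k + 2), u l +
            (v2 k : ℝ≥0∞) * (5 * D)) := by
          refine Finset.sum_le_sum fun k hk => ?_
          have h5 : ∑ l ∈ Finset.Icc (k - 2) (k + 2), u l ≤ 5 * D := by
            refine (Finset.sum_le_card_nsmul _ _ D fun l _ => hu l).trans ?_
            rw [nsmul_eq_mul]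
            gcongr
            have : (Finset.Icc (k - 2) (k + 2)).card ≤ 5 := by simp only [Int.card_Icc]; omega
            exact_mod_cast this
          calc _ ≤ (((γ + Cc * θ) * (w k + w (k + 1)) + v2 k : ℝ≥0) : ℝ≥0∞) *
                ∑ l ∈ Finset.Icc (k - 2) (k + 2), u l := by
                exact mul_le_mul_left (ENNReal.coe_le_coe.2 (hv k hk)) _
            _ ≤ _ := by
                rw [ENNReal.coe_add, add_mul]
                gcongr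
      _ ≤ _ := by
          rw [Finset.sum_add_distrib]
          refine add_le_add ?_ ?_
          · refine (window (w := w) (A := (γ + Cc * θ) * 16) u _ _ hG fun k _ l hl => ?_).trans ?_
            · rw [mul_assoc]; gcongr; exact h16 k l hl
            · calc _ ≤ 5 * (((γ + Cc * θ) * 16 : ℝ≥0) : ℝ≥0∞) *
                    (∑ l ∈ Finset.Icc k₀ k₂, (w l : ℝ≥0∞) * u l + 24 * D * (w k₀ + w k₂)) := by
                    gcongr; exact extend h h1 u hu k₀ k₂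
                _ = _ := by push_cast; ring
          · calc ∑ k ∈ Finset.Icc (k₀ - 1) (k₂ + 1), (v2 k : ℝ≥0∞) * (5 * D)
                = ∑ k ∈ (Finset.Icc (k₀ - 1) (k₂ + 1)).filter
                    (fun k => k ∈ ({k₀ - 1, k₂ + 1} : Finset ℤ)),
                    ((Cc * (8 * (w k₀ + w k₂)) : ℝ≥0) : ℝ≥0∞) * (5 * D) := by
                  rw [Finset.sum_filter]
                  refine Finset.sum_congr rfl fun k _ => ?_
                  simp only [hv2]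
                  split_ifs <;> simp
              _ ≤ 2 * (((Cc * (8 * (w k₀ + w k₂)) : ℝ≥0) : ℝ≥0∞) * (5 * D)) := by
                  rw [Finset.sum_const, nsmul_eq_mul]
                  gcongr
                  have : ((Finset.Icc (k₀ - 1) (k₂ + 1)).filter
                      (fun k => k ∈ ({k₀ - 1, k₂ + 1} : Finset ℤ))).card ≤ 2 :=
                    le_trans (Finset.card_le_card fun k hk => (Finset.mem_filter.1 hk).2)
                      Finset.card_le_two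
                  exact_mod_cast this
              _ = _ := by push_cast; ring
  · refine (window (w := w) (A := C₂ * 16) r _ _ hG fun k _ l hl => ?_).trans (le_of_eq ?_)
    · rw [mul_assoc]
      gcongr
      exact (add_le_add (hw'le _) (hw'le _)).trans (h16 k l hl)
    · push_cast; ring

/-- The bound for the full size terms. -/
lemma ybound {θ γ C₂ : ℝ≥0} {w : ℤ → ℝ≥0} (h : Slow θ w) (hs : (1 + θ) * sg ≤ 1)
    {A B S : ℝ≥0∞} (hS : S = 2 * (1 - (sg : ℝ≥0∞))⁻¹) {Y e z r : ℤ → ℝ≥0∞} {k₀ k₂ : ℤ}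
    (hp : ∀ k ∈ Finset.Icc k₀ k₂, Y k ≤
      A * ((sg : ℝ≥0∞) ^ (2 * (k₀ - k).natAbs) + (sg : ℝ≥0∞) ^ (2 * (k₂ - k).natAbs)) +
      B * ∑ p ∈ Finset.Icc k₀ k₂, (sg : ℝ≥0∞) ^ (2 * (p - k).natAbs) * (z p + e p))
    (hz : ∀ k ∈ Finset.Icc k₀ k₂, z k ≤ γ * Y k + C₂ * r k) :
    ∑ k ∈ Finset.Icc k₀ k₂, (w k : ℝ≥0∞) * Y k ≤ A * S * (w k₀ + w k₂) +
      B * S * (γ * ∑ k ∈ Finset.Icc k₀ k₂, (w k : ℝ≥0∞) * Y k +
        C₂ * ∑ k ∈ Finset.Icc (k₀ - 3) (k₂ + 3), (w k : ℝ≥0∞) * r k +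
        ∑ k ∈ Finset.Icc k₀ k₂, (w k : ℝ≥0∞) * e k) := by
  have hg : ∀ p, ∑ k ∈ Finset.Icc k₀ k₂, (w k : ℝ≥0∞) * (sg : ℝ≥0∞) ^ (2 * (p - k).natAbs) ≤
      (w p : ℝ≥0∞) * S := fun p => hS ▸ wgeo h hs p _
  calc ∑ k ∈ Finset.Icc k₀ k₂, (w k : ℝ≥0∞) * Y k
      ≤ ∑ k ∈ Finset.Icc k₀ k₂, (w k : ℝ≥0∞) *
        (A * ((sg : ℝ≥0∞) ^ (2 * (k₀ - k).natAbs) + (sg : ℝ≥0∞) ^ (2 * (k₂ - k).natAbs)) +
          B * ∑ p ∈ Finset.Icc k₀ k₂, (sg : ℝ≥0∞) ^ (2 * (p - k).natAbs) * (z p + e p)) :=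
        Finset.sum_le_sum fun k hk => mul_le_mul_right (hp k hk) _
    _ = A * (∑ k ∈ Finset.Icc k₀ k₂, (w k : ℝ≥0∞) * (sg : ℝ≥0∞) ^ (2 * (k₀ - k).natAbs) +
          ∑ k ∈ Finset.Icc k₀ k₂, (w k : ℝ≥0∞) * (sg : ℝ≥0∞) ^ (2 * (k₂ - k).natAbs)) +
        B * ∑ p ∈ Finset.Icc k₀ k₂, (∑ k ∈ Finset.Icc k₀ k₂,
          (w k : ℝ≥0∞) * (sg : ℝ≥0∞) ^ (2 * (p - k).natAbs)) * (z p + e p) := by
        simp only [Finset.sum_mul]
        rw [Finset.sum_comm, ← Finset.sum_add_distrib, Finset.mul_sum, Finset.mul_sum,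
          ← Finset.sum_add_distrib]
        refine Finset.sum_congr rfl fun k _ => ?_
        rw [mul_add, Finset.mul_sum, Finset.mul_sum, Finset.mul_sum]
        congr 1
        · ring
        · exact Finset.sum_congr rfl fun p _ => by ring
    _ ≤ A * ((w k₀ : ℝ≥0∞) * S + (w k₂ : ℝ≥0∞) * S) +
        B * ∑ p ∈ Finset.Icc k₀ k₂, ((w p : ℝ≥0∞) * S) * ((γ * Y p + C₂ * r p) + e p) := by
        gcongr with p hp'
        · exact hg _
        · exact hg _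
        · exact hg _
        · exact hz p hp'
    _ = A * S * (w k₀ + w k₂) + B * S * (γ * ∑ k ∈ Finset.Icc k₀ k₂, (w k : ℝ≥0∞) * Y k +
        C₂ * ∑ k ∈ Finset.Icc k₀ k₂, (w k : ℝ≥0∞) * r k +
        ∑ k ∈ Finset.Icc k₀ k₂, (w k : ℝ≥0∞) * e k) := by
        congr 1
        · ring
        · rw [Finset.mul_sum, Finset.mul_sum, Finset.mul_sum, ← Finset.sum_add_distrib,
            ← Finset.sum_add_distrib, Finset.mul_sum]
          exact Finset.sum_congr rfl fun p _ => by ring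
    _ ≤ _ := by
        gcongr <;> omega

end DP

open DP in
theorem stDP : StDP := by
  intro n hn C₁
  have hn0 : n ≠ 0 := by omega
  obtain ⟨K, hK1, hK⟩ := exists_K n sg_pos sg_lt
  set B₀ : ℝ≥0 := C₁ ^ (n + 1) * K with hB₀
  have hc : ∃ c : ℝ≥0, 0 < c ∧ B₀ * c ^ n ≤ 2⁻¹ := by
    refine ⟨(2 * (B₀ + 1))⁻¹, by positivity, ?_⟩
    have h1 : (2 * (B₀ + 1))⁻¹ ≤ 1 := by
      apply inv_le_one_of_one_le₀
      calc (1 : ℝ≥0) ≤ 2 * (0 + 1) := by norm_num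
        _ ≤ 2 * (B₀ + 1) := by gcongr; exact zero_le
    calc B₀ * ((2 * (B₀ + 1))⁻¹) ^ n ≤ (B₀ + 1) * ((2 * (B₀ + 1))⁻¹) ^ 1 := by
          refine mul_le_mul' le_self_add (pow_le_pow_right_of_le_one' h1 (by omega))
      _ = 2⁻¹ := by field_simp
  obtain ⟨c, hc0, hc⟩ := hc
  refine ⟨c, hc0, fun Cc => ?_⟩
  set S : ℝ≥0 := 2 * (1 - sg)⁻¹ with hS
  have hS' : (S : ℝ≥0∞) = 2 * (1 - (sg : ℝ≥0∞))⁻¹ := by
    have : (1 - sg) ≠ 0 := (tsub_pos_of_lt sg_lt).ne'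
    rw [hS, ENNReal.coe_mul, ENNReal.coe_inv this, ENNReal.coe_sub]
    simp
  set M : ℝ≥0 := 1 + 2 * B₀ * S with hM
  have hM0 : 0 < M := by positivity
  set γ : ℝ≥0 := (4000 * M)⁻¹ with hγ
  set θ : ℝ≥0 := min (1 - sg) (4000 * M * (Cc + 1))⁻¹ with hθ
  have hθ1 : θ ≤ 1 := (min_le_left _ _).trans tsub_le_self
  have hθs : (1 + θ) * sg ≤ 1 := by
    have h1 : θ ≤ 1 - sg := min_le_left _ _
    calc (1 + θ) * sg = sg + θ * sg := by ring
      _ ≤ sg + (1 - sg) * 1 := by gcongr; exact sg_lt.le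
      _ = 1 := by rw [mul_one, add_tsub_cancel_of_le sg_lt.le]
  have hsmall : M * (640 * (γ + Cc * θ)) + 2 * B₀ * S * γ ≤ 2⁻¹ := by
    have h1 : Cc * θ ≤ γ := by
      calc Cc * θ ≤ (Cc + 1) * (4000 * M * (Cc + 1))⁻¹ :=
            mul_le_mul' le_self_add (min_le_right _ _)
        _ = γ := by rw [hγ]; field_simp
    calc M * (640 * (γ + Cc * θ)) + 2 * B₀ * S * γ ≤ M * (640 * (γ + γ)) + M * γ := by
          gcongr; exact le_add_self
      _ = 1281 / 4000 := by rw [hγ]; field_simp; norm_num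
      _ ≤ 2⁻¹ := by rw [← NNReal.coe_le_coe]; push_cast; norm_num
  refine ⟨γ, θ, by positivity, lt_min (tsub_pos_of_lt sg_lt) (by positivity), hθ1, fun C₂ => ?_⟩
  set D : ℝ≥0 := C₂ + C₁ ^ n with hD
  set P₁ : ℝ≥0 := M * (8 * (80 * (γ + Cc * θ) * (24 * D) + 80 * Cc * D)) + C₁ ^ (2 * n) * S with hP₁
  set P₂ : ℝ≥0 := M * (640 * C₂) + 2 * B₀ * S * C₂ with hP₂
  refine ⟨2 * (P₁ + P₂), fun a al e f x r k₀ k₂ w hk hw H1 H2 H3 => ?_⟩
  have hu : ∀ l, e l + Yq n c (f l) (a l) ≤ (D : ℝ≥0∞) := fun l => by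
    rw [hD]; push_cast
    refine add_le_add (H1 l).2.2.1 ((Yq_le _ _ _ _).trans ?_)
    gcongr; exact (H1 l).1
  have hX := xbound hw hθ1 hu hk H3
  have hY := ybound (γ := γ) (C₂ := C₂) hw hθs (A := (C₁ : ℝ≥0∞) ^ (2 * n))
    (B := 2 * ((C₁ : ℝ≥0∞) ^ (n + 1) * K)) hS' (Y := fun k => Yq n c (f k) (a k)) (e := e)
    (z := fun k => x k ^ n) (r := r) (k₀ := k₀) (k₂ := k₂)
    (fun k hk' => point hn0 hK1 hK (by
        have : ((B₀ * c ^ n : ℝ≥0) : ℝ≥0∞) ≤ ((2⁻¹ : ℝ≥0) : ℝ≥0∞) := by exact_mod_cast hc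
        simpa [hB₀] using this) hk' (H1 k).1 (fun l => (H1 l).2.1) (H1 k).2.2.2
      (fun l hl => ⟨(H2 l hl).1, (H2 l hl).2.1, (H2 l hl).2.2.1⟩))
    (fun k hk' => (H2 k hk').2.2.2)
  have hB : (C₁ : ℝ≥0∞) ^ (n + 1) * K = B₀ := by rw [hB₀]; push_cast; ring
  rw [hB] at hY
  set Z := ∑ k ∈ Finset.Icc k₀ k₂, (w k : ℝ≥0∞) * (e k + Yq n c (f k) (a k)) with hZ
  set X := ∑ k ∈ Finset.Icc k₀ k₂, (w k : ℝ≥0∞) * e k with hXd
  set Y := ∑ k ∈ Finset.Icc k₀ k₂, (w k : ℝ≥0∞) * Yq n c (f k) (a k) with hYd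
  set R := ∑ k ∈ Finset.Icc (k₀ - 3) (k₂ + 3), (w k : ℝ≥0∞) * r k with hR
  set W := (w k₀ : ℝ≥0∞) + w k₂ with hW
  have hZe : Z = X + Y := by
    rw [hZ, hXd, hYd, ← Finset.sum_add_distrib]
    exact Finset.sum_congr rfl fun k _ => mul_add _ _ _
  have hZt : Z ≠ ⊤ := by
    refine ENNReal.sum_ne_top.2 fun k _ => ENNReal.mul_ne_top ENNReal.coe_ne_top ?_
    exact ne_top_of_le_ne_top ENNReal.coe_ne_top (hu k)
  have hMe : (M : ℝ≥0∞) = 1 + 2 * B₀ * S := by rw [hM]; push_cast; ring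
  have hsm : (M : ℝ≥0∞) * (640 * (γ + Cc * θ)) + 2 * B₀ * S * γ ≤ 2⁻¹ := by
    have : ((M * (640 * (γ + Cc * θ)) + 2 * B₀ * S * γ : ℝ≥0) : ℝ≥0∞) ≤ ((2⁻¹ : ℝ≥0) : ℝ≥0∞) := by
      exact_mod_cast hsmall
    simpa using this
  have key : Z ≤ 2⁻¹ * Z + (P₁ * W + P₂ * R) := by
    have hYZ : Y ≤ Z := hZe ▸ le_add_self
    calc Z = X + Y := hZe
      _ ≤ X + ((C₁ : ℝ≥0∞) ^ (2 * n) * S * W + 2 * B₀ * S * (γ * Y + C₂ * R + X)) := by gcongr
      _ = M * X + ((C₁ : ℝ≥0∞) ^ (2 * n) * S * W + 2 * B₀ * S * (γ * Y + C₂ * R)) := by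
          rw [hMe]; ring
      _ ≤ M * (8 * (80 * ((γ : ℝ≥0∞) + Cc * θ) * (Z + 24 * D * W) + 80 * Cc * D * W +
            80 * C₂ * R)) +
          ((C₁ : ℝ≥0∞) ^ (2 * n) * S * W + 2 * B₀ * S * (γ * Z + C₂ * R)) := by gcongr
      _ = ((M : ℝ≥0∞) * (640 * (γ + Cc * θ)) + 2 * B₀ * S * γ) * Z + (P₁ * W + P₂ * R) := by
          rw [hP₁, hP₂]; push_cast; ring
      _ ≤ _ := by gcongr
  calc Z ≤ 2 * (P₁ * W + P₂ * R) := absorb hZt key
    _ ≤ 2 * ((P₁ + P₂) * W + (P₁ + P₂) * R) := by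
        gcongr
        · exact le_self_add
        · exact le_add_self
    _ = _ := by push_cast; ring

end Pool.Agent.P.MP_28243e_an
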