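import Mathlib

/-! Definitions shared by the proof of continuity for n-Laplace systems with antisymmetric
potentials in the Lorentz class `(n,2)`. -/

namespace Pool.Agent.P.MP_28243e_an

open Set MeasureTheory Metric
open scoped ENNReal NNReal ContDiff RealInnerProductSpace Classical

noncomputable section

/-- Domain space. -/
abbrev E (n : ℕ) := EuclideanSpace ℝ (Fin n)
/-- Target space. -/
abbrev V (m : ℕ) := EuclideanSpace ℝ (Fin m)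
/-- Gradient matrices with the Frobenius norm. -/
abbrev Mt (m n : ℕ) := EuclideanSpace ℝ (Fin m × Fin n)

variable {n m : ℕ}

/-! ### Averages and maximal functions -/

/-- The exponent `n - 1/2`. -/
def q1 (n : ℕ) : ℝ := (n : ℝ) - 1 / 2
/-- Dyadic radius `2^(-k)`. -/
def rho (k : ℤ) : ℝ := (2 : ℝ) ^ (-k)
/-- Average over an open ball. -/
def av (f : E n → ℝ≥0∞) (x : E n) (r : ℝ) : ℝ≥0∞ := (∫⁻ y in ball x r, f y) / volume (ball x r)
/-- Centred maximal function. -/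
def mx (f : E n → ℝ≥0∞) (x : E n) : ℝ≥0∞ := ⨆ (r : ℝ) (_ : 0 < r), av f x r
/-- `L^(q1)` average. -/
def gq (G : E n → ℝ≥0∞) (x : E n) (r : ℝ) : ℝ≥0∞ := av (fun y => G y ^ q1 n) x r ^ (1 / q1 n)
/-- `L^(q1)` maximal function. -/
def mq (G : E n → ℝ≥0∞) (x : E n) : ℝ≥0∞ := mx (fun y => G y ^ q1 n) x ^ (1 / q1 n)
/-- `L^(q1)` maximal function over radii at least `r`. -/
def gs (G : E n → ℝ≥0∞) (x : E n) (r : ℝ) : ℝ≥0∞ := ⨆ (s : ℝ) (_ : r ≤ s), gq G x s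
/-- Weak `L^n` bound. -/
def Weak (G : E n → ℝ≥0∞) (M : ℝ≥0) : Prop :=
  ∀ t : ℝ≥0∞, t ^ n * volume {x | t < G x} ≤ (M : ℝ≥0∞) ^ n
/-- Discrete Riesz potential below scale `t`. -/
def pot (f : E n → ℝ≥0∞) (t : ℝ) (x : E n) : ℝ≥0∞ :=
  ∑' j : ℕ, ENNReal.ofReal (t / 2 ^ j) * av f x (t / 2 ^ j)
/-- `A_1` weight. -/
def A1 (W : E n → ℝ≥0∞) (C : ℝ≥0) : Prop :=
  ∀ x r, 0 < r → ∀ z ∈ ball x r, av W x r ≤ C * W z
/-- The weight `mq G ^ (n-2)`. -/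
def Wt (G : E n → ℝ≥0∞) (x : E n) : ℝ≥0∞ := mq G x ^ (n - 2)
/-- The damping factor `min(1,(l/s)^d)`. -/
def psi (l : ℝ≥0∞) (d : ℝ) (s : ℝ≥0∞) : ℝ≥0∞ := min 1 ((l / s) ^ d)
/-- The quantity `(μ+d)^(n-2) d`. -/
def Pd (n : ℕ) (μ d : ℝ≥0∞) : ℝ≥0∞ := (μ + d) ^ (n - 2) * d
/-- Damped energy density. -/
def Phi (n : ℕ) (l : ℝ≥0∞) (δ : ℝ) (μ d : ℝ≥0∞) : ℝ≥0∞ := Pd n μ d * d * psi l δ d
/-- The universal absorbing density. -/
def NN (n : ℕ) (δ : ℝ) (T l S M : ℝ≥0∞) : ℝ≥0∞ :=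
  l ^ (n - 2) * S ^ 2 + (if l < 2 * S then l ^ δ * S ^ ((n : ℝ) - δ) else 0) +
    (if T * l < M then l ^ δ * M ^ ((n : ℝ) - δ) else 0)
/-- Weights used to average over truncation levels. -/
def wt (δ : ℝ) (i : ℕ) : ℝ≥0∞ := ENNReal.ofReal ((1 - (2 : ℝ) ^ (-δ)) * (2 : ℝ) ^ (-δ * i))
/-- Damped error integral. -/
def kk (G k : E n → ℝ≥0∞) (δ : ℝ) (y : E n) (r : ℝ) (l : ℝ≥0∞) : ℝ≥0∞ :=
  ∫⁻ x in ball y r, k x * psi l δ (mq G x)
/-- Diagonal paraproduct. -/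
def T0 (G z : E n → ℝ≥0∞) (x : E n) : ℝ≥0∞ :=
  ∑' j : ℕ, ENNReal.ofReal (rho (j + 4)) * av z x (4 * rho (j + 4)) * av G x (4 * rho (j + 4))
/-- Adjoint of the diagonal paraproduct. -/
def T0s (G e : E n → ℝ≥0∞) (x : E n) : ℝ≥0∞ :=
  ∑' j : ℕ, ENNReal.ofReal (rho (j + 4)) *
    av (fun y => e y * av G y (4 * rho (j + 4))) x (4 * rho (j + 4))
/-- End terms of the paraproduct. -/
def LN (z : E n → ℝ≥0∞) (N : ℕ) (x : E n) : ℝ≥0∞ :=
  av z x (1 / 4) + pot z (4 * rho N) x / ENNReal.ofReal (rho N)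

/-! ### Weak gradients, mollifiers, cut-offs -/

/-- Smooth with compact support in `O`. -/
def IsTest (O : Set (E n)) (φ : E n → ℝ) : Prop :=
  ContDiff ℝ ∞ φ ∧ HasCompactSupport φ ∧ tsupport φ ⊆ O
/-- Coordinate derivative. -/
def pd (φ : E n → ℝ) (α : Fin n) (x : E n) : ℝ := fderiv ℝ φ x (EuclideanSpace.single α 1)
/-- `g` is the weak gradient of `f` in `O`, both integrable. -/
def WG (O : Set (E n)) (f : E n → ℝ) (g : E n → E n) : Prop :=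
  IntegrableOn f O ∧ IntegrableOn g O ∧
    ∀ φ, IsTest O φ → ∀ α, ∫ x in O, f x * pd φ α x = -∫ x in O, g x α * φ x
/-- Bump with radii `t/2 < t` (radii `1/2 < 1` if `t` is not positive). -/
def bump (n : ℕ) (t : ℝ) : ContDiffBump (0 : E n) :=
  if h : 0 < t then ⟨t / 2, t, by positivity, by linarith⟩ else ⟨1 / 2, 1, by norm_num, by norm_num⟩
/-- Mollification at scale `t`. -/
def mol (t : ℝ) (f : E n → ℝ) (x : E n) : ℝ :=
  ∫ y, (bump n t).normed volume (x - y) * f y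
/-- Average of a vector valued function over a ball. -/
def bav {F : Type} [NormedAddCommGroup F] [NormedSpace ℝ F] (f : E n → F) (x : E n) (t : ℝ) : F :=
  ⨍ z in ball x t, f z
/-- Smooth cut-off equal to one on the ball of radius `r₁`, vanishing outside radius `r₂`. -/
def cut (y : E n) (r₁ r₂ : ℝ) (x : E n) : ℝ :=
  Real.smoothTransition ((r₂ ^ 2 - ‖x - y‖ ^ 2) / (r₂ ^ 2 - r₁ ^ 2))
/-- Gradient matrix. -/
def grad (φ : E n → V m) (x : E n) : Mt m n :=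
  WithLp.toLp 2 fun p => fderiv ℝ φ x (EuclideanSpace.single p.2 1) p.1
/-- The map `ξ ↦ |ξ|^(n-2) ξ`. -/
def sig {X : Type} [NormedAddCommGroup X] [NormedSpace ℝ X] (n : ℕ) (ξ : X) : X :=
  ‖ξ‖ ^ (n - 2) • ξ
/-- The inverse of `sig`. -/
def isig (n : ℕ) (ξ : V m) : V m := ‖ξ‖ ^ ((2 - (n : ℝ)) / ((n : ℝ) - 1)) • ξ
/-- Row `i` of a gradient matrix. -/
def row (A : Mt m n) (i : Fin m) : E n := WithLp.toLp 2 fun α => A (i, α)
/-- Tensor product. -/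
def tens (a : V m) (b : E n) : Mt m n := WithLp.toLp 2 fun p => a p.1 * b p.2
/-- The field `(x-y)/|x-y|^n`. -/
def newt (y x : E n) : E n := (‖x - y‖ ^ n)⁻¹ • (x - y)
/-- Gradient of `log|x-y| F`. -/
def mdl (F : V m) (y x : E n) : Mt m n := tens F ((‖x - y‖ ^ 2)⁻¹ • (x - y))
/-- Flux of `sig U` through the shell between radii `r/2` and `r`. -/
def flux (U : E n → Mt m n) (y : E n) (r : ℝ) : V m :=
  WithLp.toLp 2 fun i => ∫ x, ⟪row (sig n (U x)) i, gradient (cut y (r / 2) r) x⟫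
/-- The constant flux of the field `newt`. -/
def cN (n : ℕ) : ℝ := -∫ x : E n, ⟪newt 0 x, gradient (cut 0 (1 / 2) 1) x⟫

/-! ### Solutions -/

/-- Squared Frobenius norm of a potential. -/
def sqO (Ω : Fin m → Fin m → Fin n → ℝ) : ℝ := ∑ i, ∑ j, ∑ α, Ω i j α ^ 2
/-- The functional equivalent to the squared `L^(n,2)` norm. -/
def Lf (O : Set (E n)) (Ω : E n → Fin m → Fin m → Fin n → ℝ) : ℝ≥0∞ :=
  ∫⁻ t in Ioi (0 : ℝ), volume {x | x ∈ O ∧ t < sqO (Ω x)} ^ (2 / (n : ℝ))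
/-- Measurable weak solution in `O`. -/
structure Sol (O : Set (E n)) (u : E n → V m) (Du : E n → Mt m n)
    (Ω : E n → Fin m → Fin m → Fin n → ℝ) : Prop where
  mu : Measurable u
  mDu : Measurable Du
  mΩ : Measurable Ω
  anti : ∀ x i j α, Ω x i j α = -Ω x j i α
  wg : ∀ i, WG O (fun x => u x i) (fun x => row (Du x) i)
  fin : ∫⁻ x in O, ‖Du x‖ₑ ^ n < ⊤
  eqn : ∀ i φ, IsTest O φ → ∫ x in O, ⟪row (sig n (Du x)) i, gradient φ x⟫ =
    ∫ x in O, (∑ j, ∑ α, Ω x i j α * sig n (Du x) (j, α)) * φ x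
/-- Modulus of the gradient, extended by zero. -/
def GG (O : Set (E n)) (Du : E n → Mt m n) : E n → ℝ≥0∞ := O.indicator fun x => ‖Du x‖ₑ
/-- Standing assumptions on the modulus of the gradient. -/
structure Gd (G : E n → ℝ≥0∞) : Prop where
  meas : Measurable G
  weak : Weak G 1
  fin : ∫⁻ x, G x ^ n < ⊤
  pos : 0 < ∫⁻ x, G x
/-- Points where the gradient is much smaller than its maximal function. -/
def Zs (G : E n → ℝ≥0∞) (c : ℝ≥0) : Set (E n) := {x | G x < c * mq G x}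
/-- The energy carried by `Zs` in a ball around the origin. -/
def DD (G : E n → ℝ≥0∞) (c : ℝ≥0) (r : ℝ) : ℝ≥0∞ := ∫⁻ x in ball 0 r ∩ Zs G c, mq G x ^ n

/-- The structure extracted from a solution after the weighted gauge. -/
structure Str (C : ℝ≥0) (U : E n → Mt m n) (v : E n → V m) (G ν k kf h : E n → ℝ≥0∞) : Prop where
  gd : Gd G
  mU : Measurable U
  mν : Measurable ν
  mk' : Measurable k
  mkf : Measurable kf
  mh : Measurable h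
  normU : ∀ x, ‖U x‖ₑ = G x
  finν : ∫⁻ x, ν x < ⊤
  fink : ∫⁻ x, k x < ⊤
  kfk : ∀ᵐ x, kf x ^ 2 ≤ Wt G x * k x
  hk : ∀ᵐ x, Wt G x * mx h x ^ 2 ≤ k x
  cv : ContDiff ℝ 1 v
  err : ∀ᵐ x, x ∈ ball (0 : E n) (1 / 2) → ‖U x - grad v x‖ₑ ≤ h x
  osc : ∀ x ∈ ball (0 : E n) (1 / 2), ∀ x' ∈ ball (0 : E n) (1 / 2), ∀ t : ℝ, 0 < t → t ≤ 2 →
    ‖x - x'‖ ≤ t → ‖v x - v x'‖ₑ ≤
      C * (pot G (8 * t) x + pot G (8 * t) x' + (ENNReal.ofReal t * gs G x t) ^ (1 / 2 : ℝ))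
  eqn : ∀ (φ : E n → V m) (K : ℝ≥0), LipschitzWith K φ → tsupport φ ⊆ ball 0 (1 / 2) →
    ‖∫ x, ⟪sig n (U x), grad φ x⟫‖ₑ ≤ (∫⁻ x, ν x * ‖φ x‖ₑ) + ∫⁻ x, kf x * ‖grad φ x‖ₑ

/-! ### Gauge -/

/-- Matrix times gradient. -/
def act (Q : Fin m → Fin m → ℝ) (A : Mt m n) : Mt m n :=
  WithLp.toLp 2 fun p => ∑ j, Q p.1 j * A (j, p.2)
/-- The transformed potential `Q Ω - ∇Q`. -/
def Th (Q : E n → Fin m → Fin m → ℝ) (Ω : E n → Fin m → Fin m → Fin n → ℝ) (x : E n) :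
    Fin m → Fin m → Fin n → ℝ :=
  fun i j α => (∑ l, Q x i l * Ω x l j α) - pd (fun y => Q y i j) α x
/-- A smooth approximate gauge adapted to the weight `w`. -/
structure Gauge (w : E n → ℝ≥0∞) (Ω : E n → Fin m → Fin m → Fin n → ℝ) (τ : ℝ)
    (Q : E n → Fin m → Fin m → ℝ) : Prop where
  smooth : ∀ i j, ContDiff ℝ ∞ fun x => Q x i j
  orth : ∀ x i j, ∑ l, Q x l i * Q x l j = if i = j then 1 else 0
  orth' : ∀ x i j, ∑ l, Q x i l * Q x j l = if i = j then 1 else 0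
  en : ∫⁻ x in ball 0 1, w x * ENNReal.ofReal (sqO (Th Q Ω x)) ≤
    ∫⁻ x in ball 0 1, w x * ENNReal.ofReal (sqO (Ω x))
  div : ∀ i l (ψ : E n → ℝ) (K : ℝ), ContDiff ℝ ∞ ψ → (∀ x ∈ ball (0 : E n) 1, ‖fderiv ℝ ψ x‖ ≤ K) →
    |∫ x in ball 0 1, (w x).toReal * ∑ α, (∑ j, Th Q Ω x i j α * Q x l j) * pd ψ α x| ≤ τ * K

/-! ### Quantities along a chain of dyadic shells -/

/-- Dyadic shell. -/
def Zn (y : E n) (k : ℤ) : Set (E n) := ball y (rho k) \ ball y (rho (k + 1))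
/-- Level attached to scale `k`. -/
def lam (G : E n → ℝ≥0∞) (y : E n) (k : ℤ) : ℝ≥0∞ := gs G y (rho k)
/-- Scale invariant size. -/
def ah (G : E n → ℝ≥0∞) (y : E n) (k : ℤ) : ℝ≥0∞ := ENNReal.ofReal (rho k) * lam G y k
/-- Scale invariant size of the shell alone. -/
def al (G : E n → ℝ≥0∞) (y : E n) (k : ℤ) : ℝ≥0∞ :=
  ENNReal.ofReal (rho k) *
    ((∫⁻ x in Zn y k, G x ^ q1 n) / ENNReal.ofReal (rho k ^ n)) ^ (1 / q1 n)
/-- Coefficient of the logarithmic model whose flux matches that of `U`. -/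
def Ft (U : E n → Mt m n) (y : E n) (k : ℤ) : V m := isig n (-(cN n)⁻¹ • flux U y (rho k))
/-- Size of the model coefficient. -/
def ff (U : E n → Mt m n) (y : E n) (k : ℤ) : ℝ≥0∞ := ‖Ft U y k‖ₑ
/-- Jump of the model coefficient. -/
def xx (U : E n → Mt m n) (y : E n) (k : ℤ) : ℝ≥0∞ := ‖Ft U y (k + 1) - Ft U y k‖ₑ
/-- Jump of the flux. -/
def dF (U : E n → Mt m n) (y : E n) (k : ℤ) : ℝ≥0∞ :=
  ‖sig n (Ft U y (k + 1)) - sig n (Ft U y k)‖ₑ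
/-- Deviation from the model. -/
def dev (U : E n → Mt m n) (y : E n) (k : ℤ) (x : E n) : ℝ≥0∞ := ‖U x - mdl (Ft U y k) y x‖ₑ
/-- Damped deviation energy of a shell. -/
def en (δ : ℝ) (U : E n → Mt m n) (G : E n → ℝ≥0∞) (y : E n) (k : ℤ) : ℝ≥0∞ :=
  ∫⁻ x in Zn y k, Phi n (lam G y k) δ ‖mdl (Ft U y k) y x‖ₑ (dev U y k x)
/-- `a^n` if `f < c a`, zero otherwise. -/
def Yq (n : ℕ) (c : ℝ≥0) (f a : ℝ≥0∞) : ℝ≥0∞ := if f < c * a then a ^ n else 0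
/-- Full size at the scales where the model does not dominate. -/
def YY (c : ℝ≥0) (U : E n → Mt m n) (G : E n → ℝ≥0∞) (y : E n) (k : ℤ) : ℝ≥0∞ :=
  Yq n c (ff U y k) (ah G y k)
/-- The quantity controlled along chains. -/
def XX (c : ℝ≥0) (δ : ℝ) (U : E n → Mt m n) (G : E n → ℝ≥0∞) (y : E n) (k : ℤ) : ℝ≥0∞ :=
  en δ U G y k + YY c U G y k
/-- Damped error at scale `k`. -/
def kap (G k' : E n → ℝ≥0∞) (δ : ℝ) (y : E n) (k : ℤ) : ℝ≥0∞ :=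
  kk G k' δ y (rho (k - 1)) (lam G y k)
/-- Mass of three consecutive shells. -/
def nu (ν : E n → ℝ≥0∞) (y : E n) (k : ℤ) : ℝ≥0∞ :=
  ∫⁻ x in ball y (rho (k - 1)) \ ball y (rho (k + 2)), ν x
/-- Mass of a ball. -/
def ms (ν : E n → ℝ≥0∞) (y : E n) (k : ℤ) : ℝ≥0∞ := ∫⁻ x in ball y (rho k), ν x
/-- The error term built from a damped error, a mass and a size. -/
def er (n : ℕ) (κ ν a : ℝ≥0∞) : ℝ≥0∞ :=
  κ + ν * a ^ (1 / 2 : ℝ) + ν ^ ((n : ℝ) / ((n : ℝ) - 1))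
/-- Total error at scale `k`. -/
def rr (G ν k' : E n → ℝ≥0∞) (δ : ℝ) (y : E n) (k : ℤ) : ℝ≥0∞ :=
  er n (kap G k' δ y k) (nu ν y k) (ah G y k)
/-- Slowly varying positive weights. -/
def Slow (θ : ℝ≥0) (w : ℤ → ℝ≥0) : Prop :=
  ∀ k, 0 < w k ∧ w (k + 1) ≤ (1 + θ) * w k ∧ w k ≤ (1 + θ) * w (k + 1)
/-- The cost of scale `k`. -/
def cost (c : ℝ≥0) (δ : ℝ) (l₀ : ℕ) (U : E n → Mt m n) (G ν k' : E n → ℝ≥0∞) (y : E n) (k : ℤ) :
    ℝ≥0∞ :=
  min (ah G y k ^ n)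
    (∑ l ∈ Finset.Icc (k - 1) (k + l₀ + 1), (XX c δ U G y l + rr G ν k' δ y l))

/-! ### The test functions along a chain -/

/-- Cut-off whose gradient lives on the shell `Zn y k`. -/
def chi (y : E n) (k : ℤ) : E n → ℝ := cut y (rho k / 2) (rho k)
/-- Open neighbourhood of the two shells adjacent to the sphere of radius `rho k`. -/
def On (y : E n) (k : ℤ) : Set (E n) := ball y (4 * rho k) \ closedBall y (rho k / 4)
/-- The logarithmic model at scale `k`, normalised by an average near `y + rho k • e`. -/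
def hm (U : E n → Mt m n) (v : E n → V m) (y e : E n) (k : ℤ) (x : E n) : V m :=
  Real.log ‖x - y‖ • Ft U y k +
    bav (fun z => v z - Real.log ‖z - y‖ • Ft U y k) (y + rho k • e) (rho k / 32)
/-- `v` minus the glued models, on the shells `k - 1` and `k`. -/
def xp (U : E n → Mt m n) (v : E n → V m) (y e : E n) (k : ℤ) (x : E n) : V m :=
  v x - (hm U v y e k x - (1 - chi y (k - 1) x) • (hm U v y e k x - hm U v y e (k - 1) x) +
    chi y k x • (hm U v y e (k + 1) x - hm U v y e k x))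
/-- Main part of the control function on the shell `k`. -/
def s1 (U : E n → Mt m n) (y : E n) (k : ℤ) (x : E n) : ℝ≥0∞ :=
  dev U y k x + mx ((On y k).indicator (dev U y k)) x +
    mx ((On y (k + 1)).indicator (dev U y (k + 1))) x +
    (xx U y (k - 1) + xx U y k + xx U y (k + 1)) / ENNReal.ofReal (rho k)
/-- Control function on the shell `k`. -/
def ss (U : E n → Mt m n) (h : E n → ℝ≥0∞) (y : E n) (k : ℤ) (x : E n) : ℝ≥0∞ :=
  s1 U y k x + mx h x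
/-- Good part of the shell `k` at level `i`. -/
def Gm (U : E n → Mt m n) (G h : E n → ℝ≥0∞) (y : E n) (k : ℤ) (i : ℕ) : Set (E n) :=
  Zn y k ∩ {x | ss U h y k x ≤ 2 ^ i * lam G y k}
/-- Energy of the large part of the gradient near scale `k`. -/
def BB (T : ℝ≥0) (δ : ℝ) (G : E n → ℝ≥0∞) (y : E n) (k : ℤ) : ℝ≥0∞ :=
  lam G y k ^ δ * ∫⁻ x in On y k ∩ {x | T * lam G y k < G x}, G x ^ ((n : ℝ) - δ)
/-- The density `Pd` for the model of the shell `k`. -/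
def Pk (U : E n → Mt m n) (y : E n) (k : ℤ) (x : E n) : ℝ≥0∞ :=
  Pd n ‖mdl (Ft U y k) y x‖ₑ (dev U y k x)

/-! ### Dyadic cells -/

/-- Index of the dyadic cell of generation `k` containing `x`. -/
def idx (k : ℤ) (x : E n) : Fin n → ℤ := fun i => ⌊x i / rho k⌋
/-- Dyadic cell. -/
def cell (k : ℤ) (z : Fin n → ℤ) : Set (E n) := {x | idx k x = z}
/-- Corner of a dyadic cell. -/
def ctr (k : ℤ) (z : Fin n → ℤ) : E n := WithLp.toLp 2 fun i => z i * rho k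
/-- Union of a family of cells. -/
def Un (p : ℤ → (Fin n → ℤ) → Prop) : Set (E n) := {x | ∃ k, p k (idx k x)}
/-- Average attached to a cell. -/
def gh (G : E n → ℝ≥0∞) (k : ℤ) (z : Fin n → ℤ) : ℝ≥0∞ := gq G (ctr k z) (2 * n * rho k)
/-- Maximal cell at level `2^j`. -/
def Fj (G : E n → ℝ≥0∞) (j k : ℤ) (z : Fin n → ℤ) : Prop :=
  (2 : ℝ≥0∞) ^ j < gh G k z ∧ ∀ k' < k, gh G k' (idx k' (ctr k z)) ≤ (2 : ℝ≥0∞) ^ j
/-- Level set of the dyadic maximal function. -/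
def Oj (G : E n → ℝ≥0∞) (j : ℤ) : Set (E n) := Un fun k z => (2 : ℝ≥0∞) ^ j < gh G k z
/-- Size `2^j 2^(-k)` of a cell at level `j`. -/
def sz (j k : ℤ) : ℝ≥0∞ := (2 : ℝ≥0∞) ^ (j - k)
/-- Cells with large damped error. -/
def isK (G k' : E n → ℝ≥0∞) (δ : ℝ) (d : ℝ≥0) (j k : ℤ) (z : Fin n → ℤ) : Prop :=
  d * sz j k ^ n < kk G k' δ (ctr k z) (8 * n * rho k) (2 ^ (j + 4))
/-- Cells with large mass. -/
def isN (ν : E n → ℝ≥0∞) (d : ℝ≥0) (j k : ℤ) (z : Fin n → ℤ) : Prop :=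
  d * sz j k ^ q1 n < ∫⁻ x in ball (ctr k z) (8 * n * rho k), ν x
/-- Union of the source-free maximal cells at level `j`. -/
def Tj (G ν k' : E n → ℝ≥0∞) (δ : ℝ) (d : ℝ≥0) (j : ℤ) : Set (E n) :=
  Un fun k z => Fj G j k z ∧ ¬ isK G k' δ d j k z ∧ ¬ isN ν d j k z
/-- The points that have to be paid for at level `j`. -/
def bad (G ν k' : E n → ℝ≥0∞) (δ : ℝ) (d c : ℝ≥0) (J : ℕ) (j : ℤ) : Set (E n) :=
  (Zs G c \ Oj G (j + 2 * J + 1)) ∪
    {x | ∃ i i' : ℕ, J ≤ i ∧ i < 2 * J ∧ J ≤ i' ∧ i' < 2 * J ∧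
      x ∈ Tj G ν k' δ d (j + i) ∧ x ∈ Oj G (j + i + i')}

end

end Pool.Agent.P.MP_28243e_an
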