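import Pool.Agent.P.MP_28243e_an.FL3

/-! The package of sizes and fluxes. -/

namespace Pool.Agent.P.MP_28243e_an

open Set MeasureTheory Metric Filter Topology ENNReal
open scoped NNReal ContDiff RealInnerProductSpace Classical

variable {n m : ℕ}

namespace FL

theorem xx_le (hS : StSig) (hn : 3 ≤ n) : ∃ C : ℝ≥0, ∀ (U : E n → Mt m n) (y : E n) (k : ℤ),
    xx U y k * (ff U y k + xx U y k) ^ (n - 2) ≤ C * dF U y k := by
  obtain ⟨c, C, hc, -, h, -⟩ := hS n hn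
  refine ⟨c⁻¹.toNNReal, fun U y k => ?_⟩
  have h1 := ((h (V m)).2 (Ft U y k) (Ft U y (k + 1))).2.2.1
  have h2 : ‖Ft U y (k + 1) - Ft U y k‖ * (‖Ft U y k‖ + ‖Ft U y (k + 1) - Ft U y k‖) ^ (n - 2) ≤
      c⁻¹ * ‖sig n (Ft U y (k + 1)) - sig n (Ft U y k)‖ := by
    rw [le_inv_mul_iff₀ hc, mul_comm ‖Ft U y (k + 1) - Ft U y k‖]
    exact h1
  have h3 := ENNReal.ofReal_le_ofReal h2
  rwa [ENNReal.ofReal_mul (norm_nonneg _), ENNReal.ofReal_pow (by positivity),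
    ENNReal.ofReal_add (norm_nonneg _) (norm_nonneg _), ENNReal.ofReal_mul (inv_pos.2 hc).le,
    ofReal_norm, ofReal_norm, ofReal_norm] at h3

theorem chi_enorm (y : E n) (k : ℤ) (x : E n) :
    ‖chi y k x‖ₑ ≤ (ball y (rho k)).indicator (fun _ => 1) x := by
  have hr := rho_pos k
  by_cases hx : x ∈ ball y (rho k)
  · unfold chi
    rw [indicator_of_mem hx, ← ofReal_norm, ENNReal.ofReal_le_one,
      Real.norm_of_nonneg (cut_nonneg _ _ _ _)]
    exact cut_le_one _ _ _ _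
  · rw [indicator_of_notMem hx]
    rw [mem_ball, not_lt, dist_eq_norm] at hx
    unfold chi
    rw [cut_eq_zero (by linarith) (by linarith) hx]
    simp

theorem chi_sub_enorm (y : E n) (k : ℤ) (x : E n) : ‖chi y k x - chi y (k + 1) x‖ₑ ≤
    (ball y (rho (k - 1)) \ ball y (rho (k + 2))).indicator (fun _ => 1) x := by
  have hr := rho_pos k
  have e1 := rho_succ k
  have e2 : rho (k + 2) = rho (k + 1) / 2 := by rw [← rho_succ]; congr 1; ring
  have e3 := rho_pred k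
  by_cases hx : x ∈ ball y (rho (k - 1)) \ ball y (rho (k + 2))
  · rw [indicator_of_mem hx, ← ofReal_norm, ENNReal.ofReal_le_one, Real.norm_eq_abs, abs_le]
    unfold chi
    have a1 := cut_nonneg y (rho k / 2) (rho k) x
    have a2 := cut_le_one y (rho k / 2) (rho k) x
    have a3 := cut_nonneg y (rho (k + 1) / 2) (rho (k + 1)) x
    have a4 := cut_le_one y (rho (k + 1) / 2) (rho (k + 1)) x
    constructor <;> linarith
  · rw [indicator_of_notMem hx]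
    rw [Set.mem_sdiff, not_and_or, not_not, mem_ball, mem_ball, not_lt, dist_eq_norm] at hx
    unfold chi
    rcases hx with hx | hx
    · rw [cut_eq_zero (by linarith) (by linarith) (by linarith),
        cut_eq_zero (by linarith) (by linarith) (by linarith)]
      simp
    · rw [cut_eq_one (by linarith) (by linarith) (by linarith),
        cut_eq_one (by linarith) (by linarith) (by linarith)]
      simp

theorem tsupport_chi {y : E n} {k l : ℤ} (hl : k ≤ l) (h : ball y (rho (k - 2)) ⊆ ball 0 (1 / 2)) :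
    tsupport (chi y l) ⊆ ball 0 (1 / 2) := by
  have hr := rho_pos l
  refine (tsupport_cut (by linarith) (by linarith)).trans ((closedBall_subset_ball ?_).trans h)
  have h1 : rho (l - 1) ≤ rho (k - 2) := rho_anti (by omega)
  rw [rho_pred] at h1
  linarith

theorem cancel_r (k : ℤ) (a b z : ℝ≥0∞) :
    a / ENNReal.ofReal (rho k) * (b * ENNReal.ofReal (rho k) * z) = a * b * z := by
  calc _ = ENNReal.ofReal (rho k) * (a / ENNReal.ofReal (rho k)) * b * z := by ring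
    _ = _ := by rw [ENNReal.mul_div_cancel (rE_ne_zero k) ofReal_ne_top]

theorem flux_bounds (h4 : StA4) (h8 : StA8) (hS : StSig) (hM : StMdl) (hn : 3 ≤ n) :
    ∃ C : ℝ≥0, ∀ δ : ℝ, 0 < δ → δ ≤ 1 / 4 →
    ∀ (Co : ℝ≥0) (U : E n → Mt m n) (v : E n → V m) (G ν k' kf h : E n → ℝ≥0∞),
    Str Co U v G ν k' kf h → ∀ (y : E n) (k : ℤ), ah G y k ≠ 0 → ah G y k ≠ ⊤ →
    ball y (rho (k - 2)) ⊆ ball 0 (1 / 2) →
      ff U y k ^ (n - 1) ≤
        C * (ms ν y k + kap G k' δ y k ^ (1 / 2 : ℝ) * ah G y k ^ (((n : ℝ) - 2) / 2)) ∧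
      dF U y k ≤ C * (nu ν y k + kap G k' δ y k ^ (1 / 2 : ℝ) * ah G y k ^ (((n : ℝ) - 2) / 2)) := by
  obtain ⟨Cc, hCc⟩ := grad_chi
  obtain ⟨Ck, hCk⟩ := kf_le h4 h8 hn
  obtain ⟨C, -, hC⟩ := exists_nn
    (x := ENNReal.ofReal (cN n)⁻¹ * (1 + 3 * Cc * Ck)) (by finiteness)
  refine ⟨C, fun δ hδ hδ' Co U v G ν k' kf h hs y k h0 ht hb => ?_⟩
  have hkf := hCk δ hδ hδ' G k' kf y k hs.gd hs.mk' hs.kfk h0 ht
  set z := kap G k' δ y k ^ (1 / 2 : ℝ) * ah G y k ^ (((n : ℝ) - 2) / 2) with hz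
  have hL : ∀ (a : ℝ≥0∞) (l : ℤ), a ≠ ⊤ → a / ENNReal.ofReal (rho l) ≠ ⊤ := fun a l ha =>
    ENNReal.div_ne_top ha (rE_ne_zero l)
  have hfin := lint_pow_ne_top hn hs.gd.meas y k ht
  have hdiff : ∀ l, Differentiable ℝ (chi y l) := fun l =>
    (cut_contDiff y _ _).differentiable (by simp)
  have fin : ∀ (w F : ℝ≥0∞), F ≤ w + 3 * Cc / ENNReal.ofReal (rho k) * ∫⁻ x in ball y (rho k), kf x →
      ENNReal.ofReal (cN n)⁻¹ * F ≤ C * (w + z) := by
    intro w F hF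
    calc ENNReal.ofReal (cN n)⁻¹ * F ≤ ENNReal.ofReal (cN n)⁻¹ *
          (w + 3 * Cc / ENNReal.ofReal (rho k) * (Ck * ENNReal.ofReal (rho k) * z)) := by
          gcongr
          exact hF.trans (by gcongr)
      _ = ENNReal.ofReal (cN n)⁻¹ * (1 * w + 3 * Cc * Ck * z) := by rw [cancel_r, one_mul]
      _ ≤ ENNReal.ofReal (cN n)⁻¹ * ((1 + 3 * Cc * Ck) * w + (1 + 3 * Cc * Ck) * z) := by
          gcongr
          · exact le_self_add
          · exact le_add_self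
      _ = ENNReal.ofReal (cN n)⁻¹ * (1 + 3 * Cc * Ck) * (w + z) := by ring
      _ ≤ _ := by gcongr
  have g1 := (hCc n y k).1
  have g2 : ∀ x, ‖gradient (chi y (k + 1)) x‖ₑ ≤
      (ball y (rho k)).indicator (fun _ => 2 * ((Cc : ℝ≥0∞) / ENNReal.ofReal (rho k))) x := by
    intro x
    refine ((hCc n y (k + 1)).1 x).trans ?_
    have e : (Cc : ℝ≥0∞) / ENNReal.ofReal (rho (k + 1)) =
        2 * ((Cc : ℝ≥0∞) / ENNReal.ofReal (rho k)) := by
      rw [rho_succ, ENNReal.ofReal_div_of_pos (by norm_num), ENNReal.ofReal_ofNat, div_eq_mul_inv,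
        ENNReal.inv_div (Or.inl (by norm_num)) (Or.inl (by norm_num)), div_eq_mul_inv, div_eq_mul_inv]
      ring
    rw [e]
    exact indicator_le_indicator_of_subset (ball_subset_ball (rho_anti (by omega)))
      (fun _ => zero_le) x
  have hL2 : 2 * ((Cc : ℝ≥0∞) / ENNReal.ofReal (rho k)) ≠ ⊤ :=
    ENNReal.mul_ne_top (by norm_num) (hL _ _ coe_ne_top)
  have e3 : 3 * (Cc : ℝ≥0∞) / ENNReal.ofReal (rho k) =
      Cc / ENNReal.ofReal (rho k) + 2 * ((Cc : ℝ≥0∞) / ENNReal.ofReal (rho k)) := by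
    rw [mul_div_assoc]; ring
  constructor
  · rw [ff_pow hS hM hn]
    refine fin _ _ (enorm_le_of_unit fun e he => ?_)
    rw [flux_inner hS hn hs.mU hs.normU measurableSet_ball (hL _ _ coe_ne_top) g1 hfin]
    obtain ⟨K, hK⟩ := (hCc n y k).2
    refine (eqn_le hs (hdiff k) hK (tsupport_chi le_rfl hb) measurableSet_ball measurableSet_ball
      (hL _ _ coe_ne_top) (chi_enorm y k) g1 he).trans ?_
    unfold ms
    gcongr
    exact le_mul_of_one_le_left' (by norm_num)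
  · rw [dF_eq hS hM hn]
    refine fin _ _ (enorm_le_of_unit fun e he => ?_)
    obtain ⟨K, hK⟩ := (hCc n y k).2
    obtain ⟨K', hK'⟩ := (hCc n y (k + 1)).2
    have hg : ∀ x, gradient (fun x => chi y k x - chi y (k + 1) x) x =
        gradient (chi y k) x - gradient (chi y (k + 1)) x := by
      intro x
      unfold gradient
      rw [fderiv_fun_sub (hdiff k x) (hdiff (k + 1) x), map_sub]
    have h3 := eqn_le hs (π := fun x => chi y k x - chi y (k + 1) x) ((hdiff k).sub (hdiff (k + 1)))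
      (hK.sub hK') ((tsupport_sub _ _).trans (union_subset (tsupport_chi le_rfl hb)
        (tsupport_chi (by omega) hb))) (measurableSet_ball.diff measurableSet_ball)
      (O := ball y (rho k)) measurableSet_ball (hL (3 * Cc) k (by finiteness)) (chi_sub_enorm y k)
      (fun x => by
        rw [hg, e3]
        refine enorm_sub_le.trans ((add_le_add (g1 x) (g2 x)).trans_eq ?_)
        by_cases hx : x ∈ ball y (rho k) <;> simp [hx]) he
    rw [inner_sub_left, flux_inner hS hn hs.mU hs.normU measurableSet_ball (hL _ _ coe_ne_top) g1 hfin,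
      flux_inner hS hn hs.mU hs.normU measurableSet_ball hL2 g2 hfin]
    simp only [hg, tens_sub_right, inner_sub_right] at h3
    rw [integral_sub
      (integrable_pair hS hn hs.mU hs.normU (measurable_gradient _) measurableSet_ball
        (hL _ _ coe_ne_top) g1 hfin he.le)
      (integrable_pair hS hn hs.mU hs.normU (measurable_gradient _) measurableSet_ball hL2 g2 hfin
        he.le)] at h3
    exact h3

theorem sq_div_le (hn : 3 ≤ n) (C₁ C₂ C₃ : ℝ≥0) : ∃ C : ℝ≥0, ∀ D ν κ a : ℝ≥0∞, a ≠ 0 → a ≤ C₁ →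
    D ≤ C₂ * a ^ (n - 1) → D ≤ C₃ * (ν + κ ^ (1 / 2 : ℝ) * a ^ (((n : ℝ) - 2) / 2)) →
    D ^ 2 / a ^ (n - 2) ≤ C * er n κ ν a := by
  refine ⟨4 * C₃ ^ 2 + 2 * C₃ * C₂ * (C₁ + 1), fun D ν κ a h0 h1 h2 h3 => ?_⟩
  have ht : a ≠ ⊤ := ne_top_of_le_ne_top coe_ne_top h1
  have hn' : (3 : ℝ) ≤ n := by exact_mod_cast hn
  refine ENNReal.div_le_of_le_mul ?_
  rcases le_total ν (κ ^ (1 / 2 : ℝ) * a ^ (((n : ℝ) - 2) / 2)) with h | h
  · have e : (κ ^ (1 / 2 : ℝ) * a ^ (((n : ℝ) - 2) / 2)) ^ 2 = κ * a ^ (n - 2) := by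
      rw [mul_pow, ← ENNReal.rpow_two, ← ENNReal.rpow_two, ← ENNReal.rpow_mul, ← ENNReal.rpow_mul,
        ← ENNReal.rpow_natCast, Nat.cast_sub (by omega)]
      norm_num
    calc D ^ 2 ≤ (C₃ * (κ ^ (1 / 2 : ℝ) * a ^ (((n : ℝ) - 2) / 2) +
          κ ^ (1 / 2 : ℝ) * a ^ (((n : ℝ) - 2) / 2))) ^ 2 := by
          gcongr; exact h3.trans (by gcongr)
      _ = 4 * C₃ ^ 2 * (κ ^ (1 / 2 : ℝ) * a ^ (((n : ℝ) - 2) / 2)) ^ 2 := by ring
      _ = 4 * C₃ ^ 2 * κ * a ^ (n - 2) := by rw [e]; ring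
      _ ≤ _ := by
          push_cast
          gcongr
          · exact le_self_add
          · unfold er; rw [add_assoc]; exact le_self_add
  · have e1 : a ^ (n - 1) = a ^ (1 / 2 : ℝ) * a ^ (1 / 2 : ℝ) * a ^ (n - 2) := by
      rw [← ENNReal.rpow_add _ _ h0 ht, add_halves, ENNReal.rpow_one, ← pow_succ']
      congr 1; omega
    have e2 : a ^ (1 / 2 : ℝ) ≤ C₁ + 1 := by
      rcases le_total a 1 with h' | h'
      · exact (ENNReal.rpow_le_one h' (by norm_num)).trans le_add_self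
      · calc a ^ (1 / 2 : ℝ) ≤ a ^ (1 : ℝ) := ENNReal.rpow_le_rpow_of_exponent_le h' (by norm_num)
          _ = a := ENNReal.rpow_one a
          _ ≤ _ := h1.trans le_self_add
    calc D ^ 2 = D * D := sq D
      _ ≤ (C₃ * (ν + ν)) * (C₂ * a ^ (n - 1)) := by
          gcongr; exact h3.trans (by gcongr)
      _ = 2 * C₃ * C₂ * a ^ (1 / 2 : ℝ) * (ν * a ^ (1 / 2 : ℝ)) * a ^ (n - 2) := by rw [e1]; ring
      _ ≤ _ := by
          push_cast
          gcongr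
          · exact le_trans (by gcongr) le_add_self
          · unfold er; exact le_add_self.trans le_self_add

theorem last (hn : 3 ≤ n) (C K c γ : ℝ≥0) (hc : 0 < c) (hγ : 0 < γ) : ∃ C' : ℝ≥0,
    ∀ a f x D R : ℝ≥0∞, a ≠ 0 → a ≠ ⊤ → x ≤ K * a → x * (f + x) ^ (n - 2) ≤ C * D →
    D ^ 2 / a ^ (n - 2) ≤ C * R →
    a ^ (n - 2) * x ^ 2 ≤ γ * Yq n c f a + C' * R ∧ x ^ n ≤ γ * Yq n c f a + C' * R := by
  set η : ℝ≥0 := min c (min γ 1) with hη
  have hη0 : 0 < η := lt_min hc (lt_min hγ one_pos)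
  have hηc : (η : ℝ≥0∞) ≤ c := by exact_mod_cast min_le_left _ _
  have hηγ : (η : ℝ≥0∞) ≤ γ := by exact_mod_cast (min_le_right _ _).trans (min_le_left _ _)
  have hη1 : (η : ℝ≥0∞) ≤ 1 := by exact_mod_cast (min_le_right _ _).trans (min_le_right _ _)
  set B : ℝ≥0 := (η ^ (n - 2))⁻¹ * C with hB
  refine ⟨(1 + K ^ (n - 2)) * (B ^ 2 * C), fun a f x D R h0 ht hx h1 h2 => ?_⟩
  have hn2 : ∀ z : ℝ≥0∞, z ^ n = z ^ (n - 2) * z ^ 2 := fun z => by
    rw [← pow_add]; congr 1; omega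
  by_cases hcase : f < c * a ∧ x ≤ η * a
  · have hY : Yq n c f a = a ^ n := if_pos hcase.1
    have h3 : a ^ (n - 2) * x ^ 2 ≤ γ * a ^ n := by
      calc a ^ (n - 2) * x ^ 2 ≤ a ^ (n - 2) * (η * a) ^ 2 := by gcongr; exact hcase.2
        _ = η * η * a ^ n := by rw [hn2 a]; ring
        _ ≤ γ * 1 * a ^ n := by gcongr
        _ = _ := by rw [mul_one]
    rw [hY]
    refine ⟨h3.trans le_self_add, le_trans ?_ (h3.trans le_self_add)⟩
    rw [hn2 x]
    gcongr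
    exact hcase.2.trans (mul_le_of_le_one_left' hη1)
  · have h3 : η * a ≤ f + x := by
      rw [not_and_or, not_lt, not_le] at hcase
      rcases hcase with h | h
      · exact le_trans (by gcongr) (h.trans le_self_add)
      · exact h.le.trans le_add_self
    have hηn : (η : ℝ≥0∞) ^ (n - 2) ≠ 0 := pow_ne_zero _ (by exact_mod_cast hη0.ne')
    have h4 : x * a ^ (n - 2) ≤ B * D := by
      refine (ENNReal.mul_le_mul_iff_right hηn (by finiteness)).1 ?_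
      calc (η : ℝ≥0∞) ^ (n - 2) * (x * a ^ (n - 2)) = x * (η * a) ^ (n - 2) := by rw [mul_pow]; ring
        _ ≤ x * (f + x) ^ (n - 2) := by gcongr
        _ ≤ C * D := h1
        _ = _ := by
            rw [hB, ENNReal.coe_mul, ENNReal.coe_inv (pow_ne_zero _ hη0.ne'), ENNReal.coe_pow,
              ← mul_assoc, ← mul_assoc, ENNReal.mul_inv_cancel hηn (by finiteness), one_mul]
    have han : a ^ (n - 2) ≠ 0 := pow_ne_zero _ h0
    have hat : a ^ (n - 2) ≠ ⊤ := pow_ne_top ht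
    have h5 : a ^ (n - 2) * x ^ 2 ≤ B ^ 2 * C * R := by
      refine (ENNReal.mul_le_mul_iff_left han hat).1 ?_
      calc a ^ (n - 2) * x ^ 2 * a ^ (n - 2) = (x * a ^ (n - 2)) ^ 2 := by ring
        _ ≤ (B * D) ^ 2 := by gcongr
        _ = B ^ 2 * D ^ 2 := mul_pow _ _ _
        _ ≤ B ^ 2 * (C * R * a ^ (n - 2)) := by
            gcongr; exact (ENNReal.div_le_iff han hat).1 h2
        _ = _ := by ring
    constructor
    · refine le_trans (h5.trans ?_) le_add_self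
      push_cast
      calc (B : ℝ≥0∞) ^ 2 * C * R = 1 * ((B : ℝ≥0∞) ^ 2 * C) * R := by rw [one_mul]
        _ ≤ _ := by gcongr; exact le_self_add
    · refine le_trans ?_ (le_add_self (α := ℝ≥0∞))
      calc x ^ n = x ^ (n - 2) * x ^ 2 := hn2 x
        _ ≤ (K * a) ^ (n - 2) * x ^ 2 := by gcongr
        _ = K ^ (n - 2) * (a ^ (n - 2) * x ^ 2) := by rw [mul_pow]; ring
        _ ≤ ((1 : ℝ≥0∞) + (K : ℝ≥0∞) ^ (n - 2)) * (B ^ 2 * C * R) := mul_le_mul' le_add_self h5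
        _ = _ := by push_cast; ring

end FL

open FL in
theorem stFL (h4 : StA4) (h5 : StA5) (h8 : StA8) (hS : StSig) (hM : StMdl) : StFL := by
  intro n m hn
  obtain ⟨C5, hC5⟩ := h5 n hn
  obtain ⟨C8, hC8⟩ := h8 n hn
  obtain ⟨Cv, -, -, hal⟩ := al_le hn
  obtain ⟨C7, h7⟩ := exists_al hn
  obtain ⟨Kf, hff⟩ := ff_le (m := m) hS hM hn
  obtain ⟨C10, h10⟩ := al_pow_le (m := m) hM hn
  obtain ⟨C11, h11⟩ := en_le (m := m) h5 hM hn Kf
  obtain ⟨C12, h12⟩ := xx_le (m := m) hS hn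
  obtain ⟨C13, h13⟩ := flux_bounds (m := m) h4 h8 hS hM hn
  obtain ⟨C14, h14⟩ := sq_div_le hn C5 (Kf ^ (n - 1) + (Kf * 2) ^ (n - 1)) C13
  have ha0 : ∀ (G : E n → ℝ≥0∞), Gd G → ∀ y k, ah G y k ≠ 0 := fun G hG y k =>
    mul_ne_zero (rE_ne_zero k) ((hC8 G hG).2.2.2.1 y _ (rho_pos k)).ne'
  have ha1 : ∀ (G : E n → ℝ≥0∞), Gd G → ∀ y k, ah G y k ≤ C5 := fun G hG y k => by
    simpa [ah, lam] using (hC5 G 1 hG.meas hG.weak).2.2.2.1 y (rho k) (rho_pos k)
  have hat : ∀ (G : E n → ℝ≥0∞), Gd G → ∀ y k, ah G y k ≠ ⊤ := fun G hG y k =>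
    ne_top_of_le_ne_top coe_ne_top (ha1 G hG y k)
  have hfa : ∀ (U : E n → Mt m n) (G : E n → ℝ≥0∞), Measurable U → Gd G → (∀ x, ‖U x‖ₑ = G x) →
      ∀ y k, ff U y k ≤ Kf * ah G y k := fun U G hU hG hUG y k =>
    (hff U G y k hU hG.meas hUG (hat G hG y k)).trans
      (mul_le_mul_right (mul_le_mul_right (gq_le_gs G y le_rfl) _) _)
  have hfa' : ∀ (U : E n → Mt m n) (G : E n → ℝ≥0∞), Measurable U → Gd G → (∀ x, ‖U x‖ₑ = G x) →
      ∀ y k, ff U y (k + 1) ≤ Kf * 2 * ah G y k := fun U G hU hG hUG y k => by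
    rw [mul_assoc]
    exact (hfa U G hU hG hUG y (k + 1)).trans (mul_le_mul_right (ah_succ_le hn G y k) _)
  have hrr : ∀ δ : ℝ, 0 < δ → δ ≤ 1 / 4 →
      ∀ (Co : ℝ≥0) (U : E n → Mt m n) (v : E n → V m) (G ν k' kf h : E n → ℝ≥0∞),
      Str Co U v G ν k' kf h → ∀ (y : E n) (k : ℤ), ball y (rho (k - 2)) ⊆ ball 0 (1 / 2) →
      dF U y k ^ 2 / ah G y k ^ (n - 2) ≤ C14 * rr G ν k' δ y k := by
    intro δ hδ hδ' Co U v G ν k' kf h hs y k hb
    refine h14 _ _ _ _ (ha0 G hs.gd y k) (ha1 G hs.gd y k) ?_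
      (h13 δ hδ hδ' Co U v G ν k' kf h hs y k (ha0 G hs.gd y k) (hat G hs.gd y k) hb).2
    refine enorm_sub_le.trans ?_
    rw [enorm_sigV hS hn, enorm_sigV hS hn]
    calc ff U y (k + 1) ^ (n - 1) + ff U y k ^ (n - 1) ≤
          (Kf * 2 * ah G y k) ^ (n - 1) + (Kf * ah G y k) ^ (n - 1) := by
          gcongr
          · exact hfa' U G hs.mU hs.gd hs.normU y k
          · exact hfa U G hs.mU hs.gd hs.normU y k
      _ = _ := by push_cast; simp only [mul_pow]; ring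
  obtain ⟨C, hC1, hC⟩ : ∃ C : ℝ≥0, 1 ≤ C ∧ C5 ≤ C ∧ Cv * C5 ≤ C ∧ C7 ≤ C ∧ Kf ≤ C ∧ C10 ≤ C ∧
      C11 ≤ C ∧ C12 ≤ C ∧ C13 ≤ C ∧ C14 ≤ C :=
    ⟨max 1 (max C5 (max (Cv * C5) (max C7 (max Kf (max C10 (max C11 (max C12 (max C13 C14)))))))),
      by simp only [le_max_iff, le_refl, true_or, or_true, and_self]⟩
  obtain ⟨c1, c2, c3, c4, c5, c6, c7, c8, c9⟩ := hC
  have up : ∀ {A : ℝ≥0} {s t : ℝ≥0∞}, A ≤ C → s ≤ A * t → s ≤ C * t := fun hA h =>
    h.trans (mul_le_mul_left (by exact_mod_cast hA) _)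
  refine ⟨C, hC1, fun δ hδ hδ' => ⟨fun Co U v G ν k' kf h hs y k => ⟨⟨?_, ?_, ?_, ?_, ?_, ?_, ?_, ?_,
    ?_, ?_, ?_, ?_⟩, fun hb => ⟨?_, ?_, ?_⟩⟩, fun c γ hc hγ => ?_⟩⟩
  · exact pos_iff_ne_zero.2 (ha0 G hs.gd y k)
  · exact (ha1 G hs.gd y k).trans (by exact_mod_cast c1)
  · exact (hal G y k).trans ((mul_le_mul_right (ha1 G hs.gd y k) _).trans (by exact_mod_cast c2))
  · exact ah_succ_le hn G y k
  · exact ah_le_succ G y k
  · exact lam_le_succ G y k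
  · obtain ⟨l, hl⟩ := h7 G y k (ha0 G hs.gd y k) (hat G hs.gd y k)
    exact ⟨l, hl.trans (by gcongr)⟩
  · exact up c4 (hff U G y k hs.mU hs.gd.meas hs.normU (hat G hs.gd y k))
  · exact up c4 (hfa U G hs.mU hs.gd hs.normU y k)
  · exact up c5 (h10 δ hδ hδ' U G y k hs.mU hs.normU (ha0 G hs.gd y k) (hat G hs.gd y k))
  · exact (h11 δ hδ hδ' U G y k hs.gd hs.normU (hfa U G hs.mU hs.gd hs.normU y k)).trans
      (by exact_mod_cast c6)
  · exact up c7 (h12 U y k)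
  · exact up c8 (h13 δ hδ hδ' Co U v G ν k' kf h hs y k (ha0 G hs.gd y k) (hat G hs.gd y k) hb).1
  · exact up c8 (h13 δ hδ hδ' Co U v G ν k' kf h hs y k (ha0 G hs.gd y k) (hat G hs.gd y k) hb).2
  · exact up c9 (hrr δ hδ hδ' Co U v G ν k' kf h hs y k hb)
  · obtain ⟨C', hC'⟩ := last hn C (Kf * 2 + Kf) c γ hc hγ
    refine ⟨C', fun Co U v G ν k' kf h hs y k hb => ?_⟩
    refine hC' _ _ _ (dF U y k) _ (ha0 G hs.gd y k) (hat G hs.gd y k) ?_ (up c7 (h12 U y k))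
      (up c9 (hrr δ hδ hδ' Co U v G ν k' kf h hs y k hb))
    refine enorm_sub_le.trans ?_
    push_cast
    rw [add_mul]
    exact add_le_add (hfa' U G hs.mU hs.gd hs.normU y k) (hfa U G hs.mU hs.gd hs.normU y k)

end Pool.Agent.P.MP_28243e_an
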