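import Pool.Agent.P.MP_28243e_an.Basic

/-! Sizes along a chain of dyadic shells. -/

namespace Pool.Agent.P.MP_28243e_an

open Set MeasureTheory Metric Filter Topology ENNReal
open scoped NNReal ContDiff RealInnerProductSpace Classical

variable {n m : ℕ}

namespace FL

theorem exists_nn {x : ℝ≥0∞} (hx : x ≠ ⊤) : ∃ C : ℝ≥0, 1 ≤ C ∧ x ≤ C :=
  ⟨x.toNNReal + 1, le_add_self, by
    rw [ENNReal.coe_add, ENNReal.coe_toNNReal hx]; exact le_self_add⟩

theorem rE_ne_zero (k : ℤ) : ENNReal.ofReal (rho k) ≠ 0 :=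
  (ENNReal.ofReal_pos.2 (rho_pos k)).ne'

theorem rE_eq (k : ℤ) : ENNReal.ofReal (rho k) = (2 : ℝ≥0∞) ^ (-(k : ℝ)) := by
  have h : rho k = (2 : ℝ) ^ (-(k : ℝ)) := by
    unfold rho
    rw [← Real.rpow_intCast]
    simp
  rw [h, ← ENNReal.ofReal_rpow_of_pos (by norm_num)]
  simp

theorem half_add_q1 (x : ℝ≥0∞) (hn : 3 ≤ n) : x ^ (1 / 2 : ℝ) * x ^ q1 n = x ^ n := by
  rw [← ENNReal.rpow_add_of_nonneg _ _ (by norm_num) (q1_pos hn).le, ← ENNReal.rpow_natCast]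
  congr 1
  unfold q1
  ring

theorem vol_ball' (y : E n) (k : ℤ) :
    volume (ball y (rho k)) = ENNReal.ofReal (vb n) * ENNReal.ofReal (rho k) ^ n := by
  rw [vol_ball y (rho_pos k), ENNReal.ofReal_mul vb_pos.le, ENNReal.ofReal_pow (rho_pos k).le]

theorem measurableSet_Zn (y : E n) (k : ℤ) : MeasurableSet (Zn y k) :=
  measurableSet_ball.diff measurableSet_ball

theorem al_rpow (hn : 3 ≤ n) (G : E n → ℝ≥0∞) (y : E n) (k : ℤ) :
    ENNReal.ofReal (rho k) ^ (1 / 2 : ℝ) * al G y k ^ q1 n = ∫⁻ x in Zn y k, G x ^ q1 n := by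
  have hq := q1_pos hn
  unfold al
  rw [ENNReal.mul_rpow_of_nonneg _ _ hq.le, ← ENNReal.rpow_mul, one_div_mul_cancel hq.ne',
    ENNReal.rpow_one, ← mul_assoc, half_add_q1 _ hn, ENNReal.ofReal_pow (rho_pos k).le]
  exact ENNReal.mul_div_cancel (pow_ne_zero _ (rE_ne_zero k)) (pow_ne_top ofReal_ne_top)

theorem lint_ball_q1 (hn : 3 ≤ n) (G : E n → ℝ≥0∞) (y : E n) (k : ℤ) :
    ∫⁻ x in ball y (rho k), G x ^ q1 n =
      ENNReal.ofReal (vb n) * ENNReal.ofReal (rho k) ^ n * gq G y (rho k) ^ q1 n := by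
  rw [lint_ball_eq _ _ (rho_pos k), vol_ball', gq_rpow hn]

theorem le_self_rpow {C : ℝ≥0∞} (hC : 1 ≤ C) {p : ℝ} (hp : 1 ≤ p) : C ≤ C ^ p := by
  calc C = C ^ (1 : ℝ) := (ENNReal.rpow_one C).symm
    _ ≤ C ^ p := ENNReal.rpow_le_rpow_of_exponent_le hC hp

theorem al_le (hn : 3 ≤ n) : ∃ C : ℝ≥0, 1 ≤ C ∧ ENNReal.ofReal (vb n) ≤ C ∧
    ∀ (G : E n → ℝ≥0∞) (y : E n) (k : ℤ), al G y k ≤ C * ah G y k := by
  obtain ⟨C, hC, hv⟩ := exists_nn (x := ENNReal.ofReal (vb n)) ofReal_ne_top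
  refine ⟨C, hC, hv, fun G y k => ?_⟩
  have hq := q1_pos hn
  have h1 : ENNReal.ofReal (rho k) ^ (1 / 2 : ℝ) * al G y k ^ q1 n ≤
      ENNReal.ofReal (rho k) ^ (1 / 2 : ℝ) * (C * ah G y k) ^ q1 n := by
    rw [al_rpow hn]
    calc ∫⁻ x in Zn y k, G x ^ q1 n ≤ ∫⁻ x in ball y (rho k), G x ^ q1 n :=
          lintegral_mono_set sdiff_subset
      _ = ENNReal.ofReal (vb n) * ENNReal.ofReal (rho k) ^ n * gq G y (rho k) ^ q1 n :=
          lint_ball_q1 hn G y k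
      _ ≤ (C : ℝ≥0∞) ^ q1 n * ENNReal.ofReal (rho k) ^ n * lam G y k ^ q1 n := by
          gcongr
          · exact hv.trans (le_self_rpow (by exact_mod_cast hC) (one_lt_q1 hn).le)
          · exact gq_le_gs G y le_rfl
      _ = _ := by
          unfold ah
          rw [ENNReal.mul_rpow_of_nonneg _ _ hq.le, ENNReal.mul_rpow_of_nonneg _ _ hq.le,
            ← half_add_q1 _ hn]
          ring
  have h2 := (ENNReal.mul_le_mul_iff_right
    (ENNReal.rpow_pos (pos_iff_ne_zero.2 (rE_ne_zero k)) ofReal_ne_top).ne'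
    (ENNReal.rpow_ne_top_of_nonneg (by norm_num) ofReal_ne_top)).1 h1
  exact (ENNReal.rpow_le_rpow_iff hq).1 h2

theorem ah_succ_le (hn : 3 ≤ n) (G : E n → ℝ≥0∞) (y : E n) (k : ℤ) :
    ah G y (k + 1) ≤ 2 * ah G y k := by
  have h := gs_le_gs hn G (x := y) (x' := y) (r := rho (k + 1)) (r' := rho k) (K := 2)
    (rho_pos _) (by have := rho_pos (k + 1); simp; linarith) (by rw [rho_succ]; linarith)
  unfold ah lam
  have h2 : ENNReal.ofReal (rho k) = 2 * ENNReal.ofReal (rho (k + 1)) := by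
    rw [rho_succ, ← ENNReal.ofReal_ofNat 2, ← ENNReal.ofReal_mul (by norm_num)]
    congr 1; ring
  have h4 : ENNReal.ofReal ((2 : ℝ) ^ 2) = 4 := by norm_num
  rw [h4] at h
  rw [h2]
  calc ENNReal.ofReal (rho (k + 1)) * gs G y (rho (k + 1))
      ≤ ENNReal.ofReal (rho (k + 1)) * (4 * gs G y (rho k)) := by gcongr
    _ = _ := by ring

theorem lam_le_succ (G : E n → ℝ≥0∞) (y : E n) (k : ℤ) : lam G y k ≤ lam G y (k + 1) :=
  gs_anti G y (rho_anti (by omega))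

theorem ah_le_succ (G : E n → ℝ≥0∞) (y : E n) (k : ℤ) : ah G y k ≤ 2 * ah G y (k + 1) := by
  unfold ah
  have h2 : ENNReal.ofReal (rho k) = 2 * ENNReal.ofReal (rho (k + 1)) := by
    rw [rho_succ, ← ENNReal.ofReal_ofNat 2, ← ENNReal.ofReal_mul (by norm_num)]
    congr 1; ring
  rw [h2, mul_assoc]
  gcongr
  exact lam_le_succ G y k

theorem ball_subset_shells (y : E n) (k : ℤ) :
    ball y (rho k) ⊆ {y} ∪ ⋃ j : ℕ, Zn y (k + j) := by
  intro x hx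
  by_cases hxy : x = y
  · exact Or.inl hxy
  right
  have hd : 0 < dist x y := dist_pos.2 hxy
  have hex : ∃ j : ℕ, x ∉ ball y (rho (k + j + 1)) := by
    obtain ⟨l, hl, -⟩ := exists_rho hd
    refine ⟨(l - k).toNat, ?_⟩
    rw [mem_ball, not_lt]
    exact (rho_anti (by omega)).trans hl.le
  refine mem_iUnion.2 ⟨Nat.find hex, ?_, Nat.find_spec hex⟩
  rcases Nat.eq_zero_or_pos (Nat.find hex) with h0 | h0
  · rw [h0]; simpa using hx
  · have := Nat.find_min hex (m := Nat.find hex - 1) (by omega)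
    rw [not_not] at this
    have e : k + ((Nat.find hex - 1 : ℕ) : ℤ) + 1 = k + (Nat.find hex : ℕ) := by omega
    rwa [e] at this

theorem shell_term (hn : 3 ≤ n) {k k' : ℤ} (hk : k' ≤ k) (j : ℕ) :
    ENNReal.ofReal (rho k) ^ q1 n * (ENNReal.ofReal (rho (k' + j)) ^ (1 / 2 : ℝ) *
      ((2 : ℝ≥0∞) ^ (|((k' + j - k : ℤ) : ℝ)| / (4 * n))) ^ q1 n) ≤
    ENNReal.ofReal (rho k') ^ n * ((2 : ℝ≥0∞) ^ (-(1 / 4 : ℝ))) ^ j := by
  rw [rE_eq, rE_eq, rE_eq, ← ENNReal.rpow_natCast, ← ENNReal.rpow_natCast]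
  simp only [← ENNReal.rpow_mul]
  rw [← ENNReal.rpow_add _ _ (by norm_num) (by norm_num),
    ← ENNReal.rpow_add _ _ (by norm_num) (by norm_num),
    ← ENNReal.rpow_add _ _ (by norm_num) (by norm_num)]
  refine ENNReal.rpow_le_rpow_of_exponent_le (by norm_num) ?_
  have hn' : (3 : ℝ) ≤ n := by exact_mod_cast hn
  have hd : (0 : ℝ) ≤ (k : ℝ) - k' := by
    have : (k' : ℝ) ≤ k := by exact_mod_cast hk
    linarith
  have hj : (0 : ℝ) ≤ j := Nat.cast_nonneg j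
  have h1 : |((k' + j - k : ℤ) : ℝ)| ≤ ((k : ℝ) - k') + j := by
    push_cast
    rw [abs_le]
    constructor <;> linarith
  have h2 : |((k' + j - k : ℤ) : ℝ)| / (4 * n) * q1 n ≤ (((k : ℝ) - k') + j) / 4 := by
    have h3 : q1 n / n ≤ 1 := by
      rw [div_le_one (by linarith)]; unfold q1; linarith
    have h4 : |((k' + j - k : ℤ) : ℝ)| / (4 * n) * q1 n =
        |((k' + j - k : ℤ) : ℝ)| / 4 * (q1 n / n) := by field_simp
    rw [h4]
    calc _ ≤ |((k' + j - k : ℤ) : ℝ)| / 4 * 1 := by gcongr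
      _ ≤ _ := by linarith
  have h5 : q1 n = (n : ℝ) - 1 / 2 := rfl
  push_cast at h2 ⊢
  rw [h5] at h2 ⊢
  nlinarith

theorem ah_le_of_al (hn : 3 ≤ n) : ∃ C : ℝ≥0, ∀ (G : E n → ℝ≥0∞) (y : E n) (k : ℤ) (S : ℝ≥0∞),
    (∀ l : ℤ, al G y l ≤ S * (2 : ℝ≥0∞) ^ (|((l - k : ℤ) : ℝ)| / (4 * n))) →
    ah G y k ≤ C * S := by
  have hq := q1_pos hn
  have hg : (1 - (2 : ℝ≥0∞) ^ (-(1 / 4 : ℝ)))⁻¹ ≠ ⊤ := by
    rw [ENNReal.inv_ne_top]
    have : (2 : ℝ≥0∞) ^ (-(1 / 4 : ℝ)) < 1 :=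
      ENNReal.rpow_lt_one_of_one_lt_of_neg (by norm_num) (by norm_num)
    exact (tsub_pos_iff_lt.2 this).ne'
  have hvb : ENNReal.ofReal (vb n) ≠ 0 := (ENNReal.ofReal_pos.2 vb_pos).ne'
  obtain ⟨C, hC, hv⟩ := exists_nn
    (x := (1 - (2 : ℝ≥0∞) ^ (-(1 / 4 : ℝ)))⁻¹ / ENNReal.ofReal (vb n)) (ENNReal.div_ne_top hg hvb)
  have hv' : (1 - (2 : ℝ≥0∞) ^ (-(1 / 4 : ℝ)))⁻¹ ≤ ENNReal.ofReal (vb n) * C := by
    rwa [ENNReal.div_le_iff hvb ofReal_ne_top, mul_comm] at hv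
  refine ⟨4 * C, fun G y k S hS => ?_⟩
  have : Nontrivial (E n) := by
    have : Nonempty (Fin n) := ⟨⟨0, by omega⟩⟩
    infer_instance
  have key : ∀ k' ≤ k, ENNReal.ofReal (rho k) * gq G y (rho k') ≤ C * S := by
    intro k' hk
    have h1 : ∫⁻ x in ball y (rho k'), G x ^ q1 n ≤
        ∑' j : ℕ, ∫⁻ x in Zn y (k' + j), G x ^ q1 n := by
      refine (lintegral_mono_set (ball_subset_shells y k')).trans ?_
      refine (lintegral_union_le _ _ _).trans ?_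
      rw [setLIntegral_measure_zero _ _ (measure_singleton y), zero_add]
      exact lintegral_iUnion_le _ _
    have h2 : ENNReal.ofReal (vb n) * ENNReal.ofReal (rho k') ^ n *
        (ENNReal.ofReal (rho k) * gq G y (rho k')) ^ q1 n ≤
        ENNReal.ofReal (vb n) * ENNReal.ofReal (rho k') ^ n * (C * S) ^ q1 n := by
      calc _ = ENNReal.ofReal (rho k) ^ q1 n * ∫⁻ x in ball y (rho k'), G x ^ q1 n := by
            rw [lint_ball_q1 hn, ENNReal.mul_rpow_of_nonneg _ _ hq.le]; ring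
        _ ≤ ENNReal.ofReal (rho k) ^ q1 n * ∑' j : ℕ, ∫⁻ x in Zn y (k' + j), G x ^ q1 n := by
            gcongr
        _ ≤ ∑' j : ℕ, S ^ q1 n *
            (ENNReal.ofReal (rho k') ^ n * ((2 : ℝ≥0∞) ^ (-(1 / 4 : ℝ))) ^ j) := by
            rw [← ENNReal.tsum_mul_left]
            refine ENNReal.tsum_le_tsum fun j => ?_
            rw [← al_rpow hn]
            refine le_trans ?_ (mul_le_mul_right (shell_term hn hk j) _)
            calc _ ≤ ENNReal.ofReal (rho k) ^ q1 n *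
                (ENNReal.ofReal (rho (k' + j)) ^ (1 / 2 : ℝ) *
                (S * (2 : ℝ≥0∞) ^ (|((k' + j - k : ℤ) : ℝ)| / (4 * n))) ^ q1 n) := by
                  gcongr
                  exact hS _
              _ = _ := by rw [ENNReal.mul_rpow_of_nonneg _ _ hq.le]; ring
        _ = S ^ q1 n * ENNReal.ofReal (rho k') ^ n * (1 - (2 : ℝ≥0∞) ^ (-(1 / 4 : ℝ)))⁻¹ := by
            rw [ENNReal.tsum_mul_left, ENNReal.tsum_mul_left, ENNReal.tsum_geometric, mul_assoc]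
        _ ≤ S ^ q1 n * ENNReal.ofReal (rho k') ^ n *
            (ENNReal.ofReal (vb n) * (C : ℝ≥0∞) ^ q1 n) := by
            gcongr
            refine hv'.trans ?_
            gcongr
            exact le_self_rpow (by exact_mod_cast hC) (one_lt_q1 hn).le
        _ = _ := by rw [ENNReal.mul_rpow_of_nonneg _ _ hq.le]; ring
    have h3 := (ENNReal.mul_le_mul_iff_right
      (mul_ne_zero hvb (pow_ne_zero _ (rE_ne_zero k')))
      (ENNReal.mul_ne_top ofReal_ne_top (pow_ne_top ofReal_ne_top))).1 h2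
    exact (ENNReal.rpow_le_rpow_iff hq).1 h3
  unfold ah lam gs
  rw [ENNReal.mul_iSup]
  refine iSup_le fun s => ?_
  rw [ENNReal.mul_iSup]
  refine iSup_le fun hs => ?_
  have hs0 : 0 < s := (rho_pos k).trans_le hs
  obtain ⟨k', h1, h2⟩ := exists_rho hs0
  have hk : k' ≤ k := by
    by_contra hlt
    have h3 : rho k' ≤ rho (k + 1) := rho_anti (by omega)
    have h4 := rho_succ k
    have h5 := rho_pos k
    linarith
  have h6 := gq_le_gq hn G (x := y) (x' := y) (r := s) (r' := rho k') (K := 2) hs0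
    (ball_subset_ball h2) (by rw [rho_succ] at h1; linarith)
  have h4 : ENNReal.ofReal ((2 : ℝ) ^ 2) = 4 := by norm_num
  rw [h4] at h6
  calc ENNReal.ofReal (rho k) * gq G y s ≤ ENNReal.ofReal (rho k) * (4 * gq G y (rho k')) := by
        gcongr
    _ = 4 * (ENNReal.ofReal (rho k) * gq G y (rho k')) := by ring
    _ ≤ 4 * (C * S) := mul_le_mul_right (key k' hk) 4
    _ = _ := by push_cast; ring

theorem exists_al (hn : 3 ≤ n) : ∃ C : ℝ≥0, ∀ (G : E n → ℝ≥0∞) (y : E n) (k : ℤ),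
    ah G y k ≠ 0 → ah G y k ≠ ⊤ →
    ∃ l : ℤ, ah G y k ≤ C * 2 ^ (-|((l - k : ℤ) : ℝ)| / (4 * n)) * al G y l := by
  obtain ⟨C, hC⟩ := ah_le_of_al hn
  refine ⟨C + 1, fun G y k h0 ht => ?_⟩
  by_contra hcon
  push Not at hcon
  have hC1 : ((C + 1 : ℝ≥0) : ℝ≥0∞) ≠ 0 := by simp
  have h1 := hC G y k (ah G y k / (C + 1 : ℝ≥0)) (fun l => by
    have h2 := (hcon l).le
    have h3 : (2 : ℝ≥0∞) ^ (-|((l - k : ℤ) : ℝ)| / (4 * n)) *
        (2 : ℝ≥0∞) ^ (|((l - k : ℤ) : ℝ)| / (4 * n)) = 1 := by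
      rw [← ENNReal.rpow_add _ _ (by norm_num) (by norm_num), neg_div, neg_add_cancel,
        ENNReal.rpow_zero]
    have h4 : (2 : ℝ≥0∞) ^ (-|((l - k : ℤ) : ℝ)| / (4 * n)) * al G y l ≤
        ah G y k / (C + 1 : ℝ≥0) := by
      rw [ENNReal.le_div_iff_mul_le (Or.inl hC1) (Or.inl coe_ne_top)]
      calc _ = ((C + 1 : ℝ≥0) : ℝ≥0∞) * 2 ^ (-|((l - k : ℤ) : ℝ)| / (4 * n)) * al G y l := by ring
        _ ≤ _ := h2
    calc al G y l = (2 : ℝ≥0∞) ^ (-|((l - k : ℤ) : ℝ)| / (4 * n)) * al G y l *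
          (2 : ℝ≥0∞) ^ (|((l - k : ℤ) : ℝ)| / (4 * n)) := by
          rw [mul_right_comm, h3, one_mul]
      _ ≤ _ := by gcongr)
  have h5 : ((C + 1 : ℝ≥0) : ℝ≥0∞) * ah G y k ≤ C * ah G y k := by
    calc ((C + 1 : ℝ≥0) : ℝ≥0∞) * ah G y k
        ≤ ((C + 1 : ℝ≥0) : ℝ≥0∞) * (C * (ah G y k / (C + 1 : ℝ≥0))) := by gcongr
      _ = C * (((C + 1 : ℝ≥0) : ℝ≥0∞) * (ah G y k / (C + 1 : ℝ≥0))) := by ring
      _ = C * ah G y k := by rw [ENNReal.mul_div_cancel hC1 coe_ne_top]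
  have h6 := (ENNReal.mul_le_mul_iff_left h0 ht).1 h5
  have h7 : C + 1 ≤ C := by exact_mod_cast h6
  exact absurd h7 (by simp)

end FL

end Pool.Agent.P.MP_28243e_an
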