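import Pool.Agent.P.MP_28243e_an.FL1

/-! Energies of the shells and fluxes. -/

namespace Pool.Agent.P.MP_28243e_an

open Set MeasureTheory Metric Filter Topology ENNReal
open scoped NNReal ContDiff RealInnerProductSpace Classical

variable {n m : ℕ}

namespace FL

theorem pow_le_Pd (hn : 3 ≤ n) (μ d : ℝ≥0∞) : d ^ n ≤ Pd n μ d * d := by
  unfold Pd
  have : d ^ n = d ^ (n - 2) * d * d := by
    rw [← pow_succ, ← pow_succ]; congr 1; omega
  rw [this]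
  gcongr
  exact le_add_self

theorem young_half (hn : 3 ≤ n) (τ φ : ℝ≥0∞) : τ ^ (1 / 2 : ℝ) * φ ^ q1 n ≤ τ ^ n + φ ^ n := by
  have hq := q1_pos hn
  rcases le_total τ φ with h | h
  · calc _ ≤ φ ^ (1 / 2 : ℝ) * φ ^ q1 n := by gcongr
      _ = φ ^ n := half_add_q1 _ hn
      _ ≤ _ := le_add_self
  · calc _ ≤ τ ^ (1 / 2 : ℝ) * τ ^ q1 n := by gcongr
      _ = τ ^ n := half_add_q1 _ hn
      _ ≤ _ := le_self_add

theorem young_Phi (hn : 3 ≤ n) {τ l μ d : ℝ≥0∞} {δ : ℝ} (hδ : 0 < δ) (hδ' : δ ≤ 1 / 4)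
    (hτ : τ ≤ l) (hl0 : l ≠ 0) (hl : l ≠ ⊤) (hd : d ≠ ⊤) :
    τ ^ (1 / 2 : ℝ) * d ^ q1 n ≤ τ ^ n + Phi n l δ μ d := by
  unfold Phi
  rcases le_or_gt d l with h | h
  · rw [psi_of_le hδ.le hl0 hl h, mul_one]
    refine (young_half hn τ d).trans ?_
    gcongr
    exact pow_le_Pd hn μ d
  · refine le_trans ?_ le_add_self
    have hd0 : d ≠ 0 := (pos_of_gt h).ne'
    rw [psi_of_ge hδ.le h.le]
    have h1 : (l / d) ^ (1 / 2 : ℝ) ≤ (l / d) ^ δ :=
      ENNReal.rpow_le_rpow_of_exponent_ge (ENNReal.div_le_of_le_mul (by simpa using h.le))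
        (by linarith)
    calc τ ^ (1 / 2 : ℝ) * d ^ q1 n ≤ l ^ (1 / 2 : ℝ) * d ^ q1 n := by gcongr
      _ = (d * (l / d)) ^ (1 / 2 : ℝ) * d ^ q1 n := by rw [ENNReal.mul_div_cancel hd0 hd]
      _ = d ^ n * (l / d) ^ (1 / 2 : ℝ) := by
          rw [ENNReal.mul_rpow_of_nonneg _ _ (by norm_num), ← half_add_q1 d hn]; ring
      _ ≤ _ := by gcongr; exact pow_le_Pd hn μ d

theorem add_rpow_q1 (hn : 3 ≤ n) (a b : ℝ≥0∞) :
    (a + b) ^ q1 n ≤ 2 ^ n * (a ^ q1 n + b ^ q1 n) := by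
  refine (ENNReal.rpow_add_le_mul_rpow_add_rpow a b (one_lt_q1 hn).le).trans ?_
  gcongr
  rw [← ENNReal.rpow_natCast]
  exact ENNReal.rpow_le_rpow_of_exponent_le (by norm_num) (by unfold q1; linarith)

theorem G_le (U : E n → Mt m n) (y : E n) (k : ℤ) (x : E n) :
    ‖U x‖ₑ ≤ ‖mdl (Ft U y k) y x‖ₑ + dev U y k x := by
  unfold dev
  have : U x = mdl (Ft U y k) y x + (U x - mdl (Ft U y k) y x) := by abel
  conv_lhs => rw [this]
  exact enorm_add_le _ _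

theorem dev_le (U : E n → Mt m n) (y : E n) (k : ℤ) (x : E n) :
    dev U y k x ≤ ‖U x‖ₑ + ‖mdl (Ft U y k) y x‖ₑ := enorm_sub_le

theorem mdl_le (hM : StMdl) (hn : 3 ≤ n) (U : E n → Mt m n) (y : E n) (k : ℤ) {x : E n}
    (hx : x ∈ Zn y k) : ENNReal.ofReal (rho k) * ‖mdl (Ft U y k) y x‖ₑ ≤ 2 * ff U y k := by
  have h1 := (((hM n hn).2.2 m (Ft U y k) y).1 x).1
  have h2 : rho k / 2 ≤ ‖x - y‖ := by
    have := hx.2
    rwa [mem_ball, not_lt, rho_succ, dist_eq_norm] at this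
  have h3 := rho_pos k
  have h4 : rho k * ‖mdl (Ft U y k) y x‖ ≤ 2 * ‖Ft U y k‖ := by
    rw [h1, ← mul_div_assoc, div_le_iff₀ (by linarith)]
    nlinarith [norm_nonneg (Ft U y k)]
  unfold ff
  have h5 := ENNReal.ofReal_le_ofReal h4
  rwa [ENNReal.ofReal_mul h3.le, ENNReal.ofReal_mul (by norm_num), ofReal_norm, ofReal_norm,
    ENNReal.ofReal_ofNat] at h5

theorem measurable_Phi (hM : StMdl) (hn : 3 ≤ n) {U : E n → Mt m n} (hU : Measurable U) (y : E n)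
    (k : ℤ) (l : ℝ≥0∞) (δ : ℝ) :
    Measurable fun x => Phi n l δ ‖mdl (Ft U y k) y x‖ₑ (dev U y k x) := by
  have h1 : Measurable (mdl (Ft U y k) y) := ((hM n hn).2.2 m (Ft U y k) y).2.1
  have h2 : Measurable (dev U y k) := (hU.sub h1).enorm
  unfold Phi Pd
  exact ((((h1.enorm.add h2).pow_const _).mul h2).mul h2).mul ((measurable_psi l δ).comp h2)

theorem al_pow_le (hM : StMdl) (hn : 3 ≤ n) : ∃ C : ℝ≥0, ∀ δ : ℝ, 0 < δ → δ ≤ 1 / 4 →
    ∀ (U : E n → Mt m n) (G : E n → ℝ≥0∞) (y : E n) (k : ℤ), Measurable U → (∀ x, ‖U x‖ₑ = G x) →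
    ah G y k ≠ 0 → ah G y k ≠ ⊤ → al G y k ^ n ≤ C * (ff U y k ^ n + en δ U G y k) := by
  obtain ⟨Cv, hCv, hv, hal⟩ := al_le hn
  have hq := q1_pos hn
  set K : ℝ≥0 := 2 ^ n * (2 * Cv) + Cv with hK
  have hKv : Cv ≤ K := le_add_self
  have hK1 : (1 : ℝ≥0∞) ≤ K := by exact_mod_cast hCv.trans hKv
  have hK0 : (K : ℝ≥0∞) ≠ 0 := (zero_lt_one.trans_le hK1).ne'
  refine ⟨K ^ n * (2 ^ n * (2 ^ n * Cv)), fun δ hδ hδ' U G y k hU hG h0 ht => ?_⟩
  set r := ENNReal.ofReal (rho k) with hr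
  have hr0 : r ≠ 0 := rE_ne_zero k
  have hrt : r ≠ ⊤ := ofReal_ne_top
  have hl0 : lam G y k ≠ 0 := fun h => h0 (by unfold ah; rw [h, mul_zero])
  have hlt : lam G y k ≠ ⊤ := fun h => ht (by unfold ah; rw [h, ENNReal.mul_top hr0])
  have hAt : al G y k ≠ ⊤ := ne_top_of_le_ne_top (ENNReal.mul_ne_top coe_ne_top ht) (hal G y k)
  obtain ⟨s, hs⟩ : ∃ s, al G y k = K * s := ⟨al G y k / K, (ENNReal.mul_div_cancel hK0 coe_ne_top).symm⟩
  obtain ⟨τ, hτ⟩ : ∃ τ, s = r * τ := ⟨s / r, (ENNReal.mul_div_cancel hr0 hrt).symm⟩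
  obtain ⟨φ, hφ⟩ : ∃ φ, 2 * ff U y k = r * φ := ⟨_ / r, (ENNReal.mul_div_cancel hr0 hrt).symm⟩
  have hst : s ≠ ⊤ := fun h => hAt (by rw [hs, h, ENNReal.mul_top hK0])
  have hτl : τ ≤ lam G y k := by
    have h1 : (K : ℝ≥0∞) * (r * τ) ≤ K * (r * lam G y k) := by
      rw [← hτ, ← hs]
      exact (hal G y k).trans (mul_le_mul_left (by exact_mod_cast hKv) _)
    exact (ENNReal.mul_le_mul_iff_right hr0 hrt).1 ((ENNReal.mul_le_mul_iff_right hK0 coe_ne_top).1 h1)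
  have hpt : ∀ x ∈ Zn y k, τ ^ (1 / 2 : ℝ) * G x ^ q1 n ≤ 2 ^ n * ((2 * τ ^ n + φ ^ n) +
      Phi n (lam G y k) δ ‖mdl (Ft U y k) y x‖ₑ (dev U y k x)) := by
    intro x hx
    have h1 : ‖mdl (Ft U y k) y x‖ₑ ≤ φ := by
      have := mdl_le hM hn U y k hx
      rw [hφ] at this
      exact (ENNReal.mul_le_mul_iff_right hr0 hrt).1 this
    have h2 : G x ≤ φ + dev U y k x := by
      rw [← hG]; exact (G_le U y k x).trans (by gcongr)
    have h3 := young_half hn τ φ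
    have h4 := young_Phi hn (μ := ‖mdl (Ft U y k) y x‖ₑ) (d := dev U y k x) hδ hδ' hτl hl0 hlt
      enorm_ne_top
    calc τ ^ (1 / 2 : ℝ) * G x ^ q1 n ≤ τ ^ (1 / 2 : ℝ) * (φ + dev U y k x) ^ q1 n := by gcongr
      _ ≤ τ ^ (1 / 2 : ℝ) * (2 ^ n * (φ ^ q1 n + dev U y k x ^ q1 n)) := by
          gcongr; exact add_rpow_q1 hn _ _
      _ = 2 ^ n * (τ ^ (1 / 2 : ℝ) * φ ^ q1 n + τ ^ (1 / 2 : ℝ) * dev U y k x ^ q1 n) := by ring
      _ ≤ 2 ^ n * ((τ ^ n + φ ^ n) + (τ ^ n +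
          Phi n (lam G y k) δ ‖mdl (Ft U y k) y x‖ₑ (dev U y k x))) := by gcongr
      _ = _ := by ring
  have hτt : τ ^ (1 / 2 : ℝ) ≠ ⊤ :=
    ENNReal.rpow_ne_top_of_nonneg (by norm_num) (ne_top_of_le_ne_top hlt hτl)
  have hint : τ ^ (1 / 2 : ℝ) * ∫⁻ x in Zn y k, G x ^ q1 n ≤
      2 ^ n * ((2 * τ ^ n + φ ^ n) * (Cv * r ^ n) + en δ U G y k) := by
    rw [← lintegral_const_mul' _ _ hτt]
    refine (setLIntegral_mono' (measurableSet_Zn y k) hpt).trans ?_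
    rw [lintegral_const_mul' _ _ (by simp), lintegral_add_left measurable_const,
      setLIntegral_const]
    unfold en
    gcongr
    refine (measure_mono sdiff_subset).trans ?_
    rw [vol_ball']
    gcongr
  have hL : (K : ℝ≥0∞) * s ^ n ≤ τ ^ (1 / 2 : ℝ) * ∫⁻ x in Zn y k, G x ^ q1 n := by
    rw [← al_rpow hn, ← mul_assoc, ← ENNReal.mul_rpow_of_nonneg _ _ (by norm_num), ← hr,
      mul_comm τ r, ← hτ, hs, ENNReal.mul_rpow_of_nonneg _ _ hq.le, ← half_add_q1 s hn]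
    calc _ ≤ (K : ℝ≥0∞) ^ q1 n * (s ^ (1 / 2 : ℝ) * s ^ q1 n) := by
          gcongr; exact le_self_rpow hK1 (one_lt_q1 hn).le
      _ = _ := by ring
  have hR : (2 * τ ^ n + φ ^ n) * (Cv * r ^ n) = 2 * Cv * s ^ n + Cv * (2 * ff U y k) ^ n := by
    rw [hτ, hφ, mul_pow, mul_pow]; ring
  rw [hR] at hint
  have h5 : 2 ^ n * (2 * Cv) * s ^ n + Cv * s ^ n ≤ 2 ^ n * (2 * Cv) * s ^ n +
      2 ^ n * (Cv * (2 * ff U y k) ^ n + en δ U G y k) := by
    calc _ = (K : ℝ≥0∞) * s ^ n := by rw [hK]; push_cast; ring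
      _ ≤ _ := hL.trans hint
      _ = _ := by ring
  have h6 := (ENNReal.add_le_add_iff_left (ENNReal.mul_ne_top (by finiteness)
    (pow_ne_top hst))).1 h5
  have hCv' : (1 : ℝ≥0∞) ≤ Cv := by exact_mod_cast hCv
  have h7 : s ^ n ≤ 2 ^ n * (2 ^ n * Cv) * (ff U y k ^ n + en δ U G y k) := by
    calc s ^ n ≤ Cv * s ^ n := le_mul_of_one_le_left' hCv'
      _ ≤ _ := h6
      _ = 2 ^ n * (2 ^ n * Cv * ff U y k ^ n + 1 * en δ U G y k) := by rw [mul_pow]; ring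
      _ ≤ 2 ^ n * (2 ^ n * Cv * ff U y k ^ n + 2 ^ n * Cv * en δ U G y k) := by
          gcongr
          exact one_le_mul (one_le_pow₀ (by norm_num)) hCv'
      _ = _ := by ring
  rw [hs, mul_pow]
  push_cast
  rw [mul_assoc]
  gcongr

theorem Phi_le (hn : 3 ≤ n) {l μ d g B : ℝ≥0∞} {δ : ℝ} (hδ : 0 < δ) (hδ' : δ ≤ 1 / 4)
    (hdt : d ≠ ⊤) (hμ : μ ≤ B * l) (hd : d ≤ g + μ) :
    Phi n l δ μ d ≤ (2 * B + 1) ^ n * (l ^ n + if l < g then l ^ δ * g ^ ((n : ℝ) - δ) else 0) := by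
  have hn2 : ∀ z : ℝ≥0∞, z ^ n = z ^ (n - 2) * z * z := fun z => by
    rw [← pow_succ, ← pow_succ]; congr 1; omega
  have key : ∀ z : ℝ≥0∞, l ≤ z → g ≤ z → μ + d ≤ (2 * B + 1) * z := fun z h1 h2 => by
    calc μ + d ≤ B * l + (g + B * l) := by gcongr; exact hd.trans (by gcongr)
      _ ≤ B * z + (z + B * z) := by gcongr
      _ = _ := by ring
  unfold Phi Pd
  split_ifs with h
  · refine le_trans ?_ (mul_le_mul_right le_add_self _)
    have h1 := key g h.le le_rfl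
    have h2 : d ≤ (2 * B + 1) * g := le_add_self.trans h1
    have hQ : (1 : ℝ≥0∞) ≤ 2 * B + 1 := le_add_self
    have h3 : d * d * psi l δ d ≤ (2 * B + 1) ^ 2 * (l ^ δ * g ^ (2 - δ)) := by
      by_cases hd0 : d = 0
      · simp [hd0]
      calc d * d * psi l δ d ≤ d * d * (l / d) ^ δ := by gcongr; exact min_le_right _ _
        _ = l ^ δ * d ^ (2 - δ) := by
            rw [ENNReal.div_rpow_of_nonneg _ _ hδ.le, ENNReal.rpow_sub _ _ hd0 hdt,
              ENNReal.rpow_two, div_eq_mul_inv, div_eq_mul_inv]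
            ring
        _ ≤ l ^ δ * ((2 * B + 1) * g) ^ (2 - δ) := by gcongr; linarith
        _ = (2 * B + 1) ^ (2 - δ) * (l ^ δ * g ^ (2 - δ)) := by
            rw [ENNReal.mul_rpow_of_nonneg _ _ (by linarith)]; ring
        _ ≤ _ := by
            gcongr
            rw [← ENNReal.rpow_two]
            exact ENNReal.rpow_le_rpow_of_exponent_le hQ (by linarith)
    have h4 : g ^ (n - 2) * g ^ (2 - δ) = g ^ ((n : ℝ) - δ) := by
      rw [← ENNReal.rpow_natCast, ← ENNReal.rpow_add_of_nonneg _ _ (by positivity) (by linarith),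
        Nat.cast_sub (by omega)]
      congr 1
      push_cast
      ring
    calc (μ + d) ^ (n - 2) * d * d * psi l δ d = (μ + d) ^ (n - 2) * (d * d * psi l δ d) := by ring
      _ ≤ ((2 * B + 1) * g) ^ (n - 2) * ((2 * B + 1) ^ 2 * (l ^ δ * g ^ (2 - δ))) := by gcongr
      _ = _ := by rw [mul_pow, ← h4, hn2 (2 * B + 1)]; ring
  · rw [add_zero, ← mul_pow, hn2]
    have h1 := key l le_rfl (not_lt.1 h)
    have h2 : d ≤ (2 * B + 1) * l := le_add_self.trans h1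
    calc _ ≤ ((2 * B + 1) * l) ^ (n - 2) * ((2 * B + 1) * l) * ((2 * B + 1) * l) * 1 := by
          gcongr; exact psi_le_one _ _ _
      _ = _ := mul_one _

theorem en_le (h5 : StA5) (hM : StMdl) (hn : 3 ≤ n) (K : ℝ≥0) : ∃ C : ℝ≥0, ∀ δ : ℝ, 0 < δ →
    δ ≤ 1 / 4 → ∀ (U : E n → Mt m n) (G : E n → ℝ≥0∞) (y : E n) (k : ℤ), Gd G →
    (∀ x, ‖U x‖ₑ = G x) → ff U y k ≤ K * ah G y k → ENNReal.ofReal δ * en δ U G y k ≤ C := by
  obtain ⟨C5, hC5⟩ := h5 n hn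
  obtain ⟨Cv, -, hv, -⟩ := al_le hn
  refine ⟨(2 * (2 * K) + 1) ^ n * (Cv * C5 ^ n + C5), fun δ hδ hδ' U G y k hG hU hf => ?_⟩
  obtain ⟨-, -, -, ha, hb⟩ := hC5 G 1 hG.meas hG.weak
  have ha' : ah G y k ≤ C5 := by simpa [ah, lam] using ha y (rho k) (rho_pos k)
  have hb' := hb δ hδ (by linarith) (lam G y k)
  simp only [ENNReal.coe_one, one_pow, mul_one] at hb'
  have hr0 := rE_ne_zero k
  have hlt : lam G y k ≠ ⊤ := fun h => by
    unfold ah at ha'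
    rw [h, ENNReal.mul_top hr0] at ha'
    exact coe_ne_top (top_le_iff.1 ha')
  have hpt : ∀ x ∈ Zn y k, Phi n (lam G y k) δ ‖mdl (Ft U y k) y x‖ₑ (dev U y k x) ≤
      (2 * (2 * K) + 1) ^ n * (lam G y k ^ n +
        {x | lam G y k < G x}.indicator (fun x => lam G y k ^ δ * G x ^ ((n : ℝ) - δ)) x) := by
    intro x hx
    have h1 : ‖mdl (Ft U y k) y x‖ₑ ≤ 2 * K * lam G y k := by
      refine (ENNReal.mul_le_mul_iff_right hr0 ofReal_ne_top).1 ?_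
      refine (mdl_le hM hn U y k hx).trans ((mul_le_mul_right hf 2).trans_eq ?_)
      unfold ah; ring
    have := Phi_le hn (g := G x) (d := dev U y k x) hδ hδ' enorm_ne_top h1
      (by rw [← hU]; exact dev_le U y k x)
    simpa only [indicator_apply, mem_ofPred_eq] using this
  have hm : MeasurableSet {x | lam G y k < G x} := measurableSet_lt measurable_const hG.meas
  have hint : en δ U G y k ≤ (2 * (2 * K) + 1) ^ n * (Cv * ah G y k ^ n +
      lam G y k ^ δ * ∫⁻ x in {x | lam G y k < G x}, G x ^ ((n : ℝ) - δ)) := by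
    refine (setLIntegral_mono' (measurableSet_Zn y k) hpt).trans ?_
    rw [lintegral_const_mul' _ _ (by finiteness), lintegral_add_left measurable_const,
      setLIntegral_const]
    refine mul_le_mul_right (add_le_add ?_ ?_) _
    · calc lam G y k ^ n * volume (Zn y k) ≤ lam G y k ^ n * (Cv * ENNReal.ofReal (rho k) ^ n) := by
            gcongr
            refine (measure_mono sdiff_subset).trans ?_
            rw [vol_ball']
            gcongr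
        _ = Cv * ah G y k ^ n := by unfold ah; rw [mul_pow]; ring
    · refine (setLIntegral_le_lintegral _ _).trans ?_
      rw [lintegral_indicator hm, lintegral_const_mul' _ _
        (ENNReal.rpow_ne_top_of_nonneg hδ.le hlt)]
  have hδ1 : ENNReal.ofReal δ ≤ 1 := ENNReal.ofReal_le_one.2 (by linarith)
  calc ENNReal.ofReal δ * en δ U G y k ≤ ENNReal.ofReal δ * ((2 * (2 * K) + 1) ^ n *
        (Cv * ah G y k ^ n + lam G y k ^ δ * ∫⁻ x in {x | lam G y k < G x}, G x ^ ((n : ℝ) - δ))) := by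
        gcongr
    _ = (2 * (2 * K) + 1) ^ n * (ENNReal.ofReal δ * (Cv * ah G y k ^ n) + ENNReal.ofReal δ *
        (lam G y k ^ δ * ∫⁻ x in {x | lam G y k < G x}, G x ^ ((n : ℝ) - δ))) := by ring
    _ ≤ (2 * (2 * K) + 1) ^ n * (1 * (Cv * C5 ^ n) + C5) := by gcongr
    _ = _ := by push_cast; ring

end FL

end Pool.Agent.P.MP_28243e_an
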