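import Pool.Agent.P.MP_28243e_an.FL2

/-! Fluxes through the shells. -/

namespace Pool.Agent.P.MP_28243e_an

open Set MeasureTheory Metric Filter Topology ENNReal
open scoped NNReal ContDiff RealInnerProductSpace Classical

variable {n m : ℕ}

namespace FL

theorem enorm_le_of_unit {F : V m} {B : ℝ≥0∞} (h : ∀ e : V m, ‖e‖ = 1 → ‖⟪F, e⟫‖ₑ ≤ B) :
    ‖F‖ₑ ≤ B := by
  by_cases hF : F = 0
  · simp [hF]
  have hn : ‖F‖ ≠ 0 := norm_ne_zero_iff.2 hF
  have h1 := h (‖F‖⁻¹ • F) (by rw [norm_smul, norm_inv, norm_norm, inv_mul_cancel₀ hn])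
  have h2 : ⟪F, ‖F‖⁻¹ • F⟫ = ‖F‖ := by
    rw [real_inner_smul_right, real_inner_self_eq_norm_sq]; field_simp
  rwa [h2, enorm_norm] at h1

theorem enorm_sig (hS : StSig) (hn : 3 ≤ n) (A : Mt m n) : ‖sig n A‖ₑ = ‖A‖ₑ ^ (n - 1) := by
  obtain ⟨c, C, -, -, h, -⟩ := hS n hn
  rw [← ofReal_norm, ((h (Mt m n)).2 A A).1, ENNReal.ofReal_pow (norm_nonneg _), ofReal_norm]

theorem enorm_sigV (hS : StSig) (hn : 3 ≤ n) (A : V m) : ‖sig n A‖ₑ = ‖A‖ₑ ^ (n - 1) := by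
  obtain ⟨c, C, -, -, h, -⟩ := hS n hn
  rw [← ofReal_norm, ((h (V m)).2 A A).1, ENNReal.ofReal_pow (norm_nonneg _), ofReal_norm]

theorem lint_pow_le (hn : 3 ≤ n) {G : E n → ℝ≥0∞} (hG : Measurable G) (y : E n) (k : ℤ) :
    ∫⁻ x in ball y (rho k), G x ^ (n - 1) ≤ ENNReal.ofReal (vb n) * ENNReal.ofReal (rho k) *
      (ENNReal.ofReal (rho k) * gq G y (rho k)) ^ (n - 1) := by
  have hn' : (3 : ℝ) ≤ n := by exact_mod_cast hn
  have hc : ((n - 1 : ℕ) : ℝ) = n - 1 := by rw [Nat.cast_sub (by omega)]; simp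
  have h := av_rpow_le hn hG y (p := ((n - 1 : ℕ) : ℝ)) (rho_pos k) (by rw [hc]; linarith)
    (by rw [hc]; unfold q1; linarith)
  simp only [ENNReal.rpow_natCast] at h
  rw [lint_ball_eq _ _ (rho_pos k), vol_ball']
  have e : ENNReal.ofReal (rho k) ^ n = ENNReal.ofReal (rho k) * ENNReal.ofReal (rho k) ^ (n - 1) := by
    rw [← pow_succ']; congr 1; omega
  rw [e, mul_pow]
  calc _ ≤ ENNReal.ofReal (vb n) * (ENNReal.ofReal (rho k) * ENNReal.ofReal (rho k) ^ (n - 1)) *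
        gq G y (rho k) ^ (n - 1) := by gcongr
    _ = _ := by ring

theorem lint_pair_le (hS : StSig) (hn : 3 ≤ n) {U : E n → Mt m n} {G : E n → ℝ≥0∞}
    (hG : ∀ x, ‖U x‖ₑ = G x) {w : E n → E n} {O : Set (E n)} (hO : MeasurableSet O) {L : ℝ≥0∞}
    (hL : L ≠ ⊤) (hw : ∀ x, ‖w x‖ₑ ≤ O.indicator (fun _ => L) x) {e : V m} (he : ‖e‖ ≤ 1) :
    ∫⁻ x, ‖⟪sig n (U x), tens e (w x)⟫‖ₑ ≤ L * ∫⁻ x in O, G x ^ (n - 1) := by
  rw [← lintegral_const_mul' _ _ hL, ← lintegral_indicator hO]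
  refine lintegral_mono fun x => ?_
  have h1 : ‖⟪sig n (U x), tens e (w x)⟫‖ ≤ ‖sig n (U x)‖ * ‖w x‖ := by
    refine (norm_inner_le_norm _ _).trans ?_
    rw [norm_tens]
    gcongr
    exact mul_le_of_le_one_left (norm_nonneg _) he
  have h2 := ENNReal.ofReal_le_ofReal h1
  rw [ENNReal.ofReal_mul (norm_nonneg _), ofReal_norm, ofReal_norm, ofReal_norm, enorm_sig hS hn,
    hG] at h2
  refine h2.trans ?_
  have h3 := hw x
  by_cases hx : x ∈ O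
  · rw [indicator_of_mem hx] at h3 ⊢
    rw [mul_comm]
    gcongr
  · rw [indicator_of_notMem hx] at h3 ⊢
    rw [le_zero_iff.1 h3, mul_zero]

theorem integrable_pair (hS : StSig) (hn : 3 ≤ n) {U : E n → Mt m n} {G : E n → ℝ≥0∞}
    (hU : Measurable U) (hG : ∀ x, ‖U x‖ₑ = G x) {w : E n → E n} (hwm : Measurable w)
    {O : Set (E n)} (hO : MeasurableSet O) {L : ℝ≥0∞} (hL : L ≠ ⊤)
    (hw : ∀ x, ‖w x‖ₑ ≤ O.indicator (fun _ => L) x) (hfin : ∫⁻ x in O, G x ^ (n - 1) ≠ ⊤)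
    {e : V m} (he : ‖e‖ ≤ 1) : Integrable fun x => ⟪sig n (U x), tens e (w x)⟫ := by
  obtain ⟨c, C, -, -, h, -⟩ := hS n hn
  refine ⟨Measurable.aestronglyMeasurable ?_, ?_⟩
  · exact ((h (Mt m n)).1.measurable.comp hU).inner
      (continuous_tens.measurable.comp (measurable_const.prodMk hwm))
  · exact (lint_pair_le hS hn hG hO hL hw he).trans_lt (ENNReal.mul_lt_top hL.lt_top hfin.lt_top)

theorem flux_inner (hS : StSig) (hn : 3 ≤ n) {U : E n → Mt m n} {G : E n → ℝ≥0∞}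
    (hU : Measurable U) (hG : ∀ x, ‖U x‖ₑ = G x) {y : E n} {r : ℝ}
    {O : Set (E n)} (hO : MeasurableSet O) {L : ℝ≥0∞} (hL : L ≠ ⊤)
    (hw : ∀ x, ‖gradient (cut y (r / 2) r) x‖ₑ ≤ O.indicator (fun _ => L) x)
    (hfin : ∫⁻ x in O, G x ^ (n - 1) ≠ ⊤) (e : V m) :
    ⟪flux U y r, e⟫ = ∫ x, ⟪sig n (U x), tens e (gradient (cut y (r / 2) r) x)⟫ := by
  have hi : ∀ i : Fin m,
      Integrable fun x => ⟪row (sig n (U x)) i, gradient (cut y (r / 2) r) x⟫ := by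
    intro i
    have := integrable_pair hS hn hU hG (measurable_gradient _) hO hL hw hfin
      (e := EuclideanSpace.single i 1) (by simp)
    refine this.congr (Eventually.of_forall fun x => ?_)
    simp only [inner_tens]
    rw [Finset.sum_eq_single i] <;> simp +contextual
  simp only [inner_tens]
  rw [integral_finsetSum _ fun i _ => (hi i).const_mul _, PiLp.inner_apply]
  refine Finset.sum_congr rfl fun i _ => ?_
  rw [integral_const_mul]
  simp [flux]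

theorem grad_chi : ∃ C : ℝ≥0, ∀ (n : ℕ) (y : E n) (k : ℤ),
    (∀ x, ‖gradient (chi y k) x‖ₑ ≤
      (ball y (rho k)).indicator (fun _ => (C : ℝ≥0∞) / ENNReal.ofReal (rho k)) x) ∧
    ∃ K, LipschitzWith K (chi y k) := by
  obtain ⟨C, -, hC⟩ := exists_cut_bound
  refine ⟨2 * C, fun n y k => ?_⟩
  have hr := rho_pos k
  obtain ⟨h1, h2⟩ := hC n y (rho k / 2) (rho k) (by linarith) (by linarith)
  refine ⟨fun x => ?_, _, h2⟩
  rw [← ofReal_norm, norm_gradient]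
  by_cases hx : x ∈ ball y (rho k)
  · rw [indicator_of_mem hx]
    refine (ENNReal.ofReal_le_ofReal (h1 x)).trans_eq ?_
    have e : (C : ℝ) / (rho k - rho k / 2) = ((2 * C : ℝ≥0) : ℝ) / rho k := by
      push_cast; field_simp; ring
    rw [e, ENNReal.ofReal_div_of_pos hr, ENNReal.ofReal_coe_nnreal]
  · rw [indicator_of_notMem hx]
    rw [mem_ball, not_lt, dist_eq_norm] at hx
    unfold chi
    rw [fderiv_cut_eq_zero (by linarith) (by linarith) (Or.inr hx)]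
    simp

theorem ff_pow (hS : StSig) (hM : StMdl) (hn : 3 ≤ n) (U : E n → Mt m n) (y : E n) (k : ℤ) :
    ff U y k ^ (n - 1) = ENNReal.ofReal (cN n)⁻¹ * ‖flux U y (rho k)‖ₑ := by
  obtain ⟨c, C, -, -, -, h⟩ := hS n hn
  have hc := (hM n hn).1
  unfold ff Ft
  rw [← ofReal_norm, ← ENNReal.ofReal_pow (norm_nonneg _), (h m _).2, norm_smul, norm_neg,
    Real.norm_of_nonneg (inv_pos.2 hc).le, ENNReal.ofReal_mul (inv_pos.2 hc).le, ofReal_norm]

theorem dF_eq (hS : StSig) (hM : StMdl) (hn : 3 ≤ n) (U : E n → Mt m n) (y : E n) (k : ℤ) :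
    dF U y k = ENNReal.ofReal (cN n)⁻¹ * ‖flux U y (rho k) - flux U y (rho (k + 1))‖ₑ := by
  obtain ⟨c, C, -, -, -, h⟩ := hS n hn
  have hc := (hM n hn).1
  unfold dF Ft
  rw [(h m _).1, (h m _).1]
  have e : -(cN n)⁻¹ • flux U y (rho (k + 1)) - -(cN n)⁻¹ • flux U y (rho k) =
      (cN n)⁻¹ • (flux U y (rho k) - flux U y (rho (k + 1))) := by
    rw [smul_sub, neg_smul, neg_smul]; abel
  rw [e, ← ofReal_norm, norm_smul, Real.norm_of_nonneg (inv_pos.2 hc).le,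
    ENNReal.ofReal_mul (inv_pos.2 hc).le, ofReal_norm]

theorem lint_pow_ne_top (hn : 3 ≤ n) {G : E n → ℝ≥0∞} (hG : Measurable G) (y : E n) (k : ℤ)
    (ht : ah G y k ≠ ⊤) : ∫⁻ x in ball y (rho k), G x ^ (n - 1) ≠ ⊤ := by
  refine ne_top_of_le_ne_top ?_ (lint_pow_le hn hG y k)
  have : ENNReal.ofReal (rho k) * gq G y (rho k) ≠ ⊤ :=
    ne_top_of_le_ne_top ht (mul_le_mul_right (gq_le_gs G y le_rfl) _)
  finiteness

theorem ff_le (hS : StSig) (hM : StMdl) (hn : 3 ≤ n) : ∃ C : ℝ≥0,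
    ∀ (U : E n → Mt m n) (G : E n → ℝ≥0∞) (y : E n) (k : ℤ), Measurable U → Measurable G →
    (∀ x, ‖U x‖ₑ = G x) → ah G y k ≠ ⊤ →
    ff U y k ≤ C * (ENNReal.ofReal (rho k) * gq G y (rho k)) := by
  obtain ⟨Cc, hCc⟩ := grad_chi
  obtain ⟨C, hC1, hC⟩ := exists_nn
    (x := ENNReal.ofReal (cN n)⁻¹ * Cc * ENNReal.ofReal (vb n)) (by finiteness)
  refine ⟨C, fun U G y k hU hGm hG ht => ?_⟩
  have hr0 := rE_ne_zero k
  have hL : (Cc : ℝ≥0∞) / ENNReal.ofReal (rho k) ≠ ⊤ := ENNReal.div_ne_top coe_ne_top hr0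
  have h1 : ‖flux U y (rho k)‖ₑ ≤ (Cc : ℝ≥0∞) / ENNReal.ofReal (rho k) *
      ∫⁻ x in ball y (rho k), G x ^ (n - 1) := by
    refine enorm_le_of_unit fun e he => ?_
    rw [flux_inner hS hn hU hG measurableSet_ball hL (hCc n y k).1 (lint_pow_ne_top hn hGm y k ht)]
    exact (enorm_integral_le_lintegral_enorm _).trans
      (lint_pair_le hS hn hG measurableSet_ball hL (hCc n y k).1 he.le)
  rw [← ENNReal.pow_le_pow_left_iff (n := n - 1) (by omega), ff_pow hS hM hn, mul_pow]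
  calc _ ≤ ENNReal.ofReal (cN n)⁻¹ * ((Cc : ℝ≥0∞) / ENNReal.ofReal (rho k) *
        (ENNReal.ofReal (vb n) * ENNReal.ofReal (rho k) *
        (ENNReal.ofReal (rho k) * gq G y (rho k)) ^ (n - 1))) := by
        gcongr
        exact h1.trans (mul_le_mul_right (lint_pow_le hn hGm y k) _)
    _ = ENNReal.ofReal (cN n)⁻¹ * (ENNReal.ofReal (rho k) * ((Cc : ℝ≥0∞) / ENNReal.ofReal (rho k))) *
        ENNReal.ofReal (vb n) * (ENNReal.ofReal (rho k) * gq G y (rho k)) ^ (n - 1) := by ring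
    _ ≤ _ := by
        rw [ENNReal.mul_div_cancel hr0 ofReal_ne_top]
        gcongr
        exact hC.trans (le_self_pow₀ (by exact_mod_cast hC1) (by omega))

theorem Wt_le {l M : ℝ≥0∞} {δ : ℝ} (hn : 3 ≤ n) (hδ : 0 < δ) (hl0 : l ≠ 0) (hl : l ≠ ⊤)
    (hM : M ≠ ⊤) :
    M ^ (n - 2) ≤ psi l δ M * (M ^ ((n : ℝ) - 2) + M ^ ((n : ℝ) - 2 + δ) / l ^ δ) := by
  have hn' : (3 : ℝ) ≤ n := by exact_mod_cast hn
  have e : M ^ (n - 2) = M ^ ((n : ℝ) - 2) := by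
    rw [← ENNReal.rpow_natCast, Nat.cast_sub (by omega)]; simp
  rw [e]
  rcases le_or_gt M l with h | h
  · rw [psi_of_le hδ.le hl0 hl h, one_mul]; exact le_self_add
  · have hM0 : M ≠ 0 := (pos_of_gt h).ne'
    rw [psi_of_ge hδ.le h.le]
    refine le_trans (le_of_eq ?_) (mul_le_mul_right le_add_self _)
    have a0 : l ^ δ ≠ 0 := (ENNReal.rpow_pos (pos_iff_ne_zero.2 hl0) hl).ne'
    have a1 : l ^ δ ≠ ⊤ := ENNReal.rpow_ne_top_of_nonneg hδ.le hl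
    have b0 : M ^ δ ≠ 0 := (ENNReal.rpow_pos (pos_iff_ne_zero.2 hM0) hM).ne'
    have b1 : M ^ δ ≠ ⊤ := ENNReal.rpow_ne_top_of_nonneg hδ.le hM
    rw [ENNReal.div_rpow_of_nonneg _ _ hδ.le, ENNReal.rpow_add _ _ hM0 hM, div_eq_mul_inv,
      div_eq_mul_inv]
    calc M ^ ((n : ℝ) - 2) = (l ^ δ * (l ^ δ)⁻¹) * (M ^ δ * (M ^ δ)⁻¹) * M ^ ((n : ℝ) - 2) := by
          rw [ENNReal.mul_inv_cancel a0 a1, ENNReal.mul_inv_cancel b0 b1, one_mul, one_mul]
      _ = _ := by ring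

theorem kf_le (h4 : StA4) (h8 : StA8) (hn : 3 ≤ n) : ∃ C : ℝ≥0, ∀ δ : ℝ, 0 < δ → δ ≤ 1 / 4 →
    ∀ (G k' kf : E n → ℝ≥0∞) (y : E n) (k : ℤ), Gd G → Measurable k' →
    (∀ᵐ x, kf x ^ 2 ≤ Wt G x * k' x) → ah G y k ≠ 0 → ah G y k ≠ ⊤ →
    ∫⁻ x in ball y (rho k), kf x ≤ C * ENNReal.ofReal (rho k) *
      (kap G k' δ y k ^ (1 / 2 : ℝ) * ah G y k ^ (((n : ℝ) - 2) / 2)) := by
  obtain ⟨C4, hC4⟩ := h4 n hn
  obtain ⟨C8, hC8⟩ := h8 n hn
  obtain ⟨C, hC1, hC⟩ := exists_nn (x := ENNReal.ofReal (vb n) * (2 * C4)) (by finiteness)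
  refine ⟨C, fun δ hδ hδ' G k' kf y k hG hk' hkf h0 ht => ?_⟩
  have hn' : (3 : ℝ) ≤ n := by exact_mod_cast hn
  have hr0 := rE_ne_zero k
  have hl0 : lam G y k ≠ 0 := fun h => h0 (by unfold ah; rw [h, mul_zero])
  have hlt : lam G y k ≠ ⊤ := fun h => ht (by unfold ah; rw [h, ENNReal.mul_top hr0])
  have hmq := measurable_mq hG.meas
  set W : E n → ℝ≥0∞ := fun x =>
    mq G x ^ ((n : ℝ) - 2) + mq G x ^ ((n : ℝ) - 2 + δ) / lam G y k ^ δ with hW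
  set P : E n → ℝ≥0∞ := fun x => k' x * psi (lam G y k) δ (mq G x) with hP
  have hWm : Measurable W := (hmq.pow_const _).add ((hmq.pow_const _).div_const _)
  have hPm : Measurable P := hk'.mul ((measurable_psi _ _).comp hmq)
  have hsq : ∀ z : ℝ≥0∞, (z ^ (1 / 2 : ℝ)) ^ (2 : ℝ) = z := fun z => by
    rw [← ENNReal.rpow_mul]; norm_num
  have h1 : ∫⁻ x in ball y (rho k), kf x ≤
      ∫⁻ x in ball y (rho k), ((fun x => P x ^ (1 / 2 : ℝ)) * fun x => W x ^ (1 / 2 : ℝ)) x := by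
    refine lintegral_mono_ae (ae_restrict_of_ae ?_)
    filter_upwards [hkf, (hC8 G hG).2.1] with x h1 h2
    have h3 : kf x ^ 2 ≤ P x * W x := by
      refine h1.trans ?_
      calc Wt G x * k' x ≤ psi (lam G y k) δ (mq G x) * W x * k' x :=
            mul_le_mul_left (Wt_le hn hδ hl0 hlt h2.ne) _
        _ = _ := by rw [hP]; ring
    have h4 := ENNReal.rpow_le_rpow h3 (z := 1 / 2) (by norm_num)
    rw [← ENNReal.rpow_two, ← ENNReal.rpow_mul, ENNReal.mul_rpow_of_nonneg _ _ (by norm_num)] at h4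
    simpa using h4
  have h2 := ENNReal.lintegral_mul_le_Lp_mul_Lq (volume.restrict (ball y (rho k)))
    Real.HolderConjugate.two_two (hPm.pow_const (1 / 2 : ℝ)).aemeasurable
    (hWm.pow_const (1 / 2 : ℝ)).aemeasurable
  simp only [hsq] at h2
  have h3 : ∫⁻ x in ball y (rho k), P x ≤ kap G k' δ y k :=
    lintegral_mono_set (ball_subset_ball (rho_anti (by omega)))
  have a0 : lam G y k ^ δ ≠ 0 := (ENNReal.rpow_pos (pos_iff_ne_zero.2 hl0) hlt).ne'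
  have a1 : lam G y k ^ δ ≠ ⊤ := ENNReal.rpow_ne_top_of_nonneg hδ.le hlt
  have h5 : av W y (rho k) ≤ 2 * C4 * lam G y k ^ ((n : ℝ) - 2) := by
    have b1 := (hC4 G hG.meas).1 y (rho k) ((n : ℝ) - 2) (rho_pos k) (by linarith) (by linarith)
    have b2 := (hC4 G hG.meas).1 y (rho k) ((n : ℝ) - 2 + δ) (rho_pos k) (by linarith) (by linarith)
    rw [hW, av_add (hmq.pow_const _)]
    simp only [ENNReal.div_eq_inv_mul]
    rw [av_const_mul (hmq.pow_const _), mul_assoc, two_mul]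
    refine add_le_add b1 ((mul_le_mul_right b2 _).trans_eq ?_)
    change (lam G y k ^ δ)⁻¹ * (C4 * lam G y k ^ ((n : ℝ) - 2 + δ)) = _
    rw [ENNReal.rpow_add _ _ hl0 hlt]
    calc _ = (lam G y k ^ δ * (lam G y k ^ δ)⁻¹) * (C4 * lam G y k ^ ((n : ℝ) - 2)) := by ring
      _ = _ := by rw [ENNReal.mul_inv_cancel a0 a1, one_mul]
  have h6 : ∫⁻ x in ball y (rho k), W x ≤
      (C * ENNReal.ofReal (rho k) * ah G y k ^ (((n : ℝ) - 2) / 2)) ^ (2 : ℝ) := by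
    rw [lint_ball_eq _ _ (rho_pos k), vol_ball', ENNReal.mul_rpow_of_nonneg _ _ (by norm_num),
      ENNReal.mul_rpow_of_nonneg _ _ (by norm_num), ← ENNReal.rpow_mul,
      div_mul_cancel₀ _ (by norm_num : (2 : ℝ) ≠ 0)]
    unfold ah
    have e : ENNReal.ofReal (rho k) ^ n =
        ENNReal.ofReal (rho k) ^ (2 : ℝ) * ENNReal.ofReal (rho k) ^ ((n : ℝ) - 2) := by
      rw [← ENNReal.rpow_add _ _ hr0 ofReal_ne_top, ← ENNReal.rpow_natCast]; congr 1; ring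
    rw [ENNReal.mul_rpow_of_nonneg _ _ (by linarith), e]
    calc _ ≤ ENNReal.ofReal (vb n) * (ENNReal.ofReal (rho k) ^ (2 : ℝ) *
          ENNReal.ofReal (rho k) ^ ((n : ℝ) - 2)) * (2 * C4 * lam G y k ^ ((n : ℝ) - 2)) := by gcongr
      _ = ENNReal.ofReal (vb n) * (2 * C4) * ENNReal.ofReal (rho k) ^ (2 : ℝ) *
          (ENNReal.ofReal (rho k) ^ ((n : ℝ) - 2) * lam G y k ^ ((n : ℝ) - 2)) := by ring
      _ ≤ _ := by
          gcongr
          exact hC.trans (le_self_rpow (by exact_mod_cast hC1) (by norm_num))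
  have h7 := ENNReal.rpow_le_rpow h6 (z := 1 / 2) (by norm_num)
  rw [← ENNReal.rpow_mul, show (2 : ℝ) * (1 / 2) = 1 by norm_num, ENNReal.rpow_one] at h7
  refine h1.trans (h2.trans ?_)
  calc _ ≤ kap G k' δ y k ^ (1 / 2 : ℝ) *
        (C * ENNReal.ofReal (rho k) * ah G y k ^ (((n : ℝ) - 2) / 2)) := by gcongr
    _ = _ := by ring

theorem eqn_le {Co : ℝ≥0} {U : E n → Mt m n} {v : E n → V m} {G ν k' kf h : E n → ℝ≥0∞}
    (hs : Str Co U v G ν k' kf h) {π : E n → ℝ} (hπ : Differentiable ℝ π) {K : ℝ≥0}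
    (hK : LipschitzWith K π) (hsupp : tsupport π ⊆ ball 0 (1 / 2)) {S O : Set (E n)}
    (hS : MeasurableSet S) (hO : MeasurableSet O) {L : ℝ≥0∞} (hL : L ≠ ⊤)
    (h1 : ∀ x, ‖π x‖ₑ ≤ S.indicator (fun _ => 1) x)
    (h2 : ∀ x, ‖gradient π x‖ₑ ≤ O.indicator (fun _ => L) x) {e : V m} (he : ‖e‖ = 1) :
    ‖∫ x, ⟪sig n (U x), tens e (gradient π x)⟫‖ₑ ≤ (∫⁻ x in S, ν x) + L * ∫⁻ x in O, kf x := by
  have hee : ‖e‖ₑ = 1 := by rw [← ofReal_norm, he, ENNReal.ofReal_one]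
  have hlip : LipschitzWith K fun x => π x • e := by
    refine LipschitzWith.of_dist_le_mul fun x z => ?_
    rw [dist_eq_norm, ← sub_smul, norm_smul, he, mul_one, ← dist_eq_norm]
    exact hK.dist_le_mul x z
  have := hs.eqn (fun x => π x • e) K hlip ((tsupport_smul_subset_left _ _).trans hsupp)
  simp only [grad_smul_const (hπ _)] at this
  refine this.trans (add_le_add ?_ ?_)
  · rw [← lintegral_indicator hS]
    refine lintegral_mono fun x => ?_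
    rw [enorm_smul, hee, mul_one]
    refine (mul_le_mul_right (h1 x) _).trans_eq ?_
    by_cases hx : x ∈ S <;> simp [hx]
  · rw [← lintegral_const_mul' _ _ hL, ← lintegral_indicator hO]
    refine lintegral_mono fun x => ?_
    have e1 : ‖tens e (gradient π x)‖ₑ = ‖gradient π x‖ₑ := by
      rw [← ofReal_norm, norm_tens, he, one_mul, ofReal_norm]
    rw [e1]
    refine (mul_le_mul_right (h2 x) _).trans_eq ?_
    by_cases hx : x ∈ O <;> simp [hx, mul_comm]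

end FL

end Pool.Agent.P.MP_28243e_an
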