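import Pool.Agent.P.MP_28243e_an.GNa

/-! Dyadic cells. -/

namespace Pool.Agent.P.MP_28243e_an

open Set MeasureTheory Metric Filter Topology ENNReal
open scoped NNReal Classical

namespace G0

variable {n : ℕ}

theorem measurable_idx (k : ℤ) : Measurable (idx k : E n → Fin n → ℤ) := by
  refine measurable_pi_lambda _ fun i => Int.measurable_floor.comp ?_
  fun_prop

theorem mem_cell {k : ℤ} {z : Fin n → ℤ} {x : E n} :
    x ∈ cell k z ↔ ∀ i, z i * rho k ≤ x i ∧ x i < z i * rho k + rho k := by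
  have hρ := rho_pos k
  simp only [cell, mem_ofPred_eq, funext_iff, idx, Int.floor_eq_iff, le_div_iff₀ hρ,
    div_lt_iff₀ hρ, add_mul, one_mul]

theorem measurableSet_cell (k : ℤ) (z : Fin n → ℤ) : MeasurableSet (cell k z) :=
  measurable_idx k (measurableSet_singleton z)

theorem volume_cell (k : ℤ) (z : Fin n → ℤ) : volume (cell k z) = ENNReal.ofReal (rho k ^ n) := by
  have h : cell k z = (WithLp.ofLp : E n → Fin n → ℝ) ⁻¹'
      Set.pi univ fun i => Ico (z i * rho k) (z i * rho k + rho k) := by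
    ext x
    rw [mem_cell]
    simp [Set.mem_pi]
  rw [h, (PiLp.volume_preserving_ofLp (Fin n)).measure_preimage
    (MeasurableSet.univ_pi fun i => measurableSet_Ico).nullMeasurableSet, Real.volume_pi_Ico]
  simp [ENNReal.ofReal_pow (rho_pos k).le]

theorem ctr_mem (k : ℤ) (z : Fin n → ℤ) : ctr k z ∈ cell k z := by
  rw [mem_cell]
  intro i
  have := rho_pos k
  simp [ctr, this]

theorem norm_sub_ctr (hn : 3 ≤ n) {k : ℤ} {z : Fin n → ℤ} {x : E n} (hx : x ∈ cell k z) :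
    ‖x - ctr k z‖ < n * rho k := by
  rw [mem_cell] at hx
  have hρ := rho_pos k
  have hn' : (3 : ℝ) ≤ n := by exact_mod_cast hn
  have h1 : ‖x - ctr k z‖ ^ 2 ≤ n * rho k ^ 2 := by
    rw [EuclideanSpace.real_norm_sq_eq]
    have : ∀ i ∈ (Finset.univ : Finset (Fin n)), (x - ctr k z) i ^ 2 ≤ rho k ^ 2 := by
      intro i _
      have e : (x - ctr k z) i = x i - z i * rho k := by simp [ctr]
      rw [e]
      obtain ⟨a, b⟩ := hx i
      nlinarith
    simpa using Finset.sum_le_card_nsmul _ _ _ this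
  refine lt_of_pow_lt_pow_left₀ 2 (by positivity) (lt_of_le_of_lt h1 ?_)
  have : 0 < rho k ^ 2 := by positivity
  nlinarith

theorem idx_eq {k k' : ℤ} (h : k' ≤ k) {z : Fin n → ℤ} {x : E n} (hx : x ∈ cell k z) :
    idx k' x = idx k' (ctr k z) := by
  obtain ⟨a, rfl⟩ : ∃ a : ℕ, k' = k - a := ⟨(k - k').toNat, by omega⟩
  have hρ := rho_pos k
  have key : ∀ y : E n, y ∈ cell k z → idx (k - a) y = fun i => z i / ((2 ^ a : ℕ) : ℤ) := by
    intro y hy
    funext i
    have e : y i / rho (k - a) = (y i / rho k) / ((2 ^ a : ℕ) : ℝ) := by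
      rw [GN.rho_sub_nat]; push_cast; field_simp
    have hz : ⌊y i / rho k⌋ = z i := congrFun hy i
    simp only [idx]
    rw [e, Int.floor_div_natCast, hz]
  rw [key x hx, key _ (ctr_mem k z)]

theorem mem_idx (k : ℤ) (x : E n) : x ∈ cell k (idx k x) := rfl

theorem measurableSet_Un (p : ℤ → (Fin n → ℤ) → Prop) : MeasurableSet (Un p) := by
  have : Un p = ⋃ k, idx k ⁻¹' {z | p k z} := by
    ext x; simp [Un]
  rw [this]
  exact MeasurableSet.iUnion fun k => measurable_idx k (Set.to_countable _).measurableSet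

theorem gh_le_mq (hn : 3 ≤ n) (G : E n → ℝ≥0∞) (k : ℤ) (x : E n) :
    gh G k (idx k x) ≤ 4 * mq G x := by
  have hρ := rho_pos k
  have hn' : (3 : ℝ) ≤ n := by exact_mod_cast hn
  have hnρ : 0 < n * rho k := by positivity
  have h1 := norm_sub_ctr hn (mem_idx k x)
  have h2 := gq_le_gq hn G (x := ctr k (idx k x)) (x' := x) (r := 2 * n * rho k)
    (r' := 3 * (n * rho k)) (K := 2) (by positivity)
    (ball_subset_ball' (by rw [dist_comm, dist_eq_norm]; linarith)) (by linarith)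
  refine le_trans h2 (mul_le_mul' (le_of_eq ?_) (gq_le_mq hn G x (by positivity)))
  rw [show (2 : ℝ) ^ 2 = 4 by norm_num]
  simp

theorem gq_le_gh (hn : 3 ≤ n) (G : E n → ℝ≥0∞) (x : E n) {r : ℝ} (hr : 0 < r) :
    ∃ k, r ≤ n * rho k ∧ gq G x r ≤ 16 * gh G k (idx k x) := by
  have hn' : (3 : ℝ) ≤ n := by exact_mod_cast hn
  have hn0 : (0 : ℝ) < n := by linarith
  obtain ⟨k, h1, h2⟩ := exists_rho (div_pos hr hn0)
  rw [rho_succ, lt_div_iff₀ hn0] at h1
  rw [div_le_iff₀ hn0] at h2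
  refine ⟨k, by linarith, ?_⟩
  have h3 := norm_sub_ctr hn (mem_idx k x)
  have h4 := gq_le_gq hn G (x := x) (x' := ctr k (idx k x)) (r := r)
    (r' := 2 * n * rho k) (K := 4) hr
    (ball_subset_ball' (by rw [dist_eq_norm]; linarith)) (by linarith)
  refine le_trans h4 (mul_le_mul' (le_of_eq ?_) le_rfl)
  rw [show (4 : ℝ) ^ 2 = 16 by norm_num]
  simp

theorem gh_le_parent (hn : 3 ≤ n) (G : E n → ℝ≥0∞) (k : ℤ) (z : Fin n → ℤ) :
    gh G k z ≤ 4 * gh G (k - 1) (idx (k - 1) (ctr k z)) := by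
  have hρ := rho_pos k
  have hn' : (3 : ℝ) ≤ n := by exact_mod_cast hn
  have h1 := norm_sub_ctr hn (mem_idx (k - 1) (ctr k z))
  have e := rho_pred k
  have h2 := gq_le_gq hn G (x := ctr k z) (x' := ctr (k - 1) (idx (k - 1) (ctr k z)))
    (r := 2 * n * rho k) (r' := 2 * n * rho (k - 1)) (K := 2) (by positivity)
    (ball_subset_ball' (by rw [dist_eq_norm]; rw [e] at h1 ⊢; linarith)) (by rw [e]; linarith)
  refine le_trans h2 (mul_le_mul' (le_of_eq ?_) le_rfl)
  rw [show (2 : ℝ) ^ 2 = 4 by norm_num]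
  simp

theorem two_zpow_add (j : ℤ) (a : ℕ) : (2 : ℝ≥0∞) ^ (j + a) = 2 ^ a * 2 ^ j := by
  rw [ENNReal.zpow_add (by norm_num) (by norm_num), zpow_natCast, mul_comm]

theorem two_zpow_mono {i j : ℤ} (h : i ≤ j) : (2 : ℝ≥0∞) ^ i ≤ 2 ^ j :=
  ENNReal.zpow_le_of_le (by norm_num) h

theorem two_zpow_ne_top (j : ℤ) : (2 : ℝ≥0∞) ^ j ≠ ⊤ :=
  ENNReal.zpow_ne_top (by norm_num) (by norm_num) _

theorem sz_le (hn : 3 ≤ n) {G : E n → ℝ≥0∞} {C : ℝ≥0∞}
    (hC : ∀ (x : E n) (r : ℝ), 0 < r → ENNReal.ofReal r * gs G x r ≤ C) {j k : ℤ}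
    {z : Fin n → ℤ} (h : (2 : ℝ≥0∞) ^ j < gh G k z) : sz j k ≤ C := by
  have hρ := rho_pos k
  have hn' : (3 : ℝ) ≤ n := by exact_mod_cast hn
  refine le_trans ?_ (hC (ctr k z) (2 * n * rho k) (by positivity))
  rw [sz, sub_eq_add_neg, ENNReal.zpow_add (by norm_num) (by norm_num), mul_comm, ← GN.ofReal_rho]
  exact mul_le_mul' (ENNReal.ofReal_le_ofReal (by nlinarith))
    (h.le.trans (gq_le_gs G _ le_rfl))

theorem geom_sum (hn : 3 ≤ n) (s : ℝ≥0∞) :
    ∑' j : ℤ, (if (2 : ℝ≥0∞) ^ j < s then ((2 : ℝ≥0∞) ^ j) ^ n else 0) ≤ 2 * s ^ n := by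
  set a : ℤ → ℝ≥0∞ := fun k => min (2 ^ (-k)) s ^ n with ha
  have hanti : Antitone a := fun k l h =>
    pow_le_pow_left' (min_le_min (two_zpow_mono (by omega)) le_rfl) n
  have h1 := GN.tele a hanti (s ^ n) fun k => pow_le_pow_left' (min_le_right _ _) n
  rw [← (Equiv.neg ℤ).tsum_eq]
  refine le_trans (ENNReal.tsum_le_tsum (g := fun k => 2 * (a k - a (k + 1))) fun k => ?_) ?_
  · simp only [Equiv.neg_apply]
    split_ifs with h
    · have e1 : a k = ((2 : ℝ≥0∞) ^ (-k)) ^ n := by simp only [ha, min_eq_left h.le]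
      have e2 : (2 : ℝ≥0∞) ^ (-k) = 2 * 2 ^ (-(k + 1)) := by
        have := two_zpow_add (-(k + 1)) 1
        rw [pow_one] at this
        rw [← this]; congr 1; push_cast; ring
      have e3 : 2 * a (k + 1) ≤ a k := by
        rw [e1, e2, mul_pow]
        refine mul_le_mul' ?_ (pow_le_pow_left' (min_le_left _ _) n)
        calc (2 : ℝ≥0∞) = 2 ^ 1 := (pow_one _).symm
          _ ≤ 2 ^ n := pow_le_pow_right₀ (by norm_num) (by omega)
      have hfin : a k ≠ ⊤ := by rw [e1]; exact ENNReal.pow_ne_top (two_zpow_ne_top _)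
      rw [← e1, ENNReal.mul_sub (fun _ _ => by norm_num)]
      refine le_trans (le_of_eq ?_) (tsub_le_tsub_left e3 _)
      rw [two_mul, ENNReal.add_sub_cancel_right hfin]
    · exact zero_le
  · rw [ENNReal.tsum_mul_left]
    gcongr

theorem gen_le {G : E n → ℝ≥0∞} {j j' k k' : ℤ} {x : E n} (hj : j ≤ j')
    (hF : Fj G j k (idx k x)) (h : (2 : ℝ≥0∞) ^ j' < gh G k' (idx k' x)) : k ≤ k' := by
  by_contra hk
  push Not at hk
  have h1 := hF.2 k' hk
  rw [← idx_eq hk.le (mem_idx k x)] at h1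
  exact absurd (h.trans_le (h1.trans (two_zpow_mono hj))) (lt_irrefl _)

end G0

open G0 in
theorem stG0 (hA5 : StA5) (hA8 : StA8) : StG0 := by
  intro n hn
  refine ⟨fun k z => ⟨measurableSet_cell k z, volume_cell k z, ctr_mem k z,
    fun x hx => ⟨norm_sub_ctr hn hx, fun k' hk' => idx_eq hk' hx⟩⟩, measurableSet_Un, ?_⟩
  obtain ⟨C, hA5⟩ := hA5 n hn
  obtain ⟨C8, hA8⟩ := hA8 n hn
  refine ⟨C + (4 * C) ^ n, 2, fun G hG => ?_⟩
  obtain ⟨hW, -, -, hgs, -⟩ := hA5 G 1 hG.meas hG.weak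
  obtain ⟨-, -, hfin, -⟩ := hA8 G hG
  simp only [ENNReal.coe_one, mul_one] at hgs hW
  have hO : ∀ j, ∀ x ∈ Oj G j, (2 : ℝ≥0∞) ^ j < 4 * mq G x := by
    rintro j x ⟨k, hk⟩
    exact hk.trans_le (gh_le_mq hn G k x)
  refine ⟨fun j => ⟨?_, ?_, hO j, ?_, ?_⟩, ?_, fun j j' k k' x => gen_le, ?_, ?_⟩
  · ext x
    constructor
    · rintro ⟨k, hk⟩
      obtain ⟨N, hN⟩ := ENNReal.exists_nat_gt (r := C) ENNReal.coe_ne_top
      obtain ⟨k₀, h1, h2⟩ := Int.exists_least_of_bdd
        (P := fun k => (2 : ℝ≥0∞) ^ j < gh G k (idx k x))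
        ⟨j - N, fun l hl => by
          by_contra hc
          have h3 : (N : ℤ) ≤ j - l := by omega
          have h4 : (2 : ℝ≥0∞) ^ (N : ℤ) ≤ C := (two_zpow_mono h3).trans (sz_le hn hgs hl)
          rw [zpow_natCast] at h4
          have h5 : (N : ℝ≥0∞) ≤ 2 ^ N := by exact_mod_cast (Nat.lt_two_pow_self (n := N)).le
          exact absurd (hN.trans_le (h5.trans h4)) (lt_irrefl _)⟩ ⟨k, hk⟩
      refine ⟨k₀, h1, fun k' hk' => ?_⟩
      rw [← idx_eq hk'.le (mem_idx k₀ x)]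
      by_contra hc
      exact absurd (h2 k' (not_le.1 hc)) (not_le.2 hk')
    · rintro ⟨k, hk⟩
      exact ⟨k, hk.1⟩
  · rintro x ⟨k, hk⟩
    exact ⟨k, (two_zpow_mono (by omega)).trans_lt hk⟩
  · intro x hx
    rw [mq_eq_iSup hn] at hx
    obtain ⟨r, hx⟩ := lt_iSup_iff.1 hx
    obtain ⟨hr, hx⟩ := lt_iSup_iff.1 hx
    obtain ⟨k, -, hk⟩ := gq_le_gh hn G x hr
    refine ⟨k, ?_⟩
    have h1 := hx.trans_le hk
    have e := two_zpow_add j 4
    rw [show ((4 : ℕ) : ℤ) = 4 from rfl, show (2 : ℝ≥0∞) ^ 4 = 16 by norm_num] at e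
    rw [e] at h1
    by_contra hc
    exact absurd (h1.trans_le (mul_le_mul_right (not_lt.1 hc) _)) (lt_irrefl _)
  · have e := two_zpow_add (j - 2) 2
    rw [show j - 2 + ((2 : ℕ) : ℤ) = j by push_cast; ring,
      show (2 : ℝ≥0∞) ^ 2 = 4 by norm_num] at e
    have hsub : Oj G j ⊆ {x | (2 : ℝ≥0∞) ^ (j - 2) < mq G x} := by
      intro x hx
      have h1 := hO j x hx
      rw [e] at h1
      by_contra hc
      exact absurd (h1.trans_le (mul_le_mul_right (not_lt.1 hc) _)) (lt_irrefl _)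
    calc ((2 : ℝ≥0∞) ^ j) ^ n * volume (Oj G j)
        ≤ 4 ^ n * (((2 : ℝ≥0∞) ^ (j - 2)) ^ n * volume {x | (2 : ℝ≥0∞) ^ (j - 2) < mq G x}) := by
          rw [← mul_assoc, ← mul_pow, ← e]
          gcongr
      _ ≤ 4 ^ n * (C : ℝ≥0∞) ^ n := by gcongr; exact hW _
      _ ≤ _ := by push_cast; rw [mul_pow]; exact le_add_self
  · have hm := measurable_mq hG.meas
    have hms : ∀ j : ℤ, MeasurableSet {x | (2 : ℝ≥0∞) ^ j < 4 * mq G x} := fun j =>
      measurableSet_lt measurable_const (hm.const_mul _)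
    calc ∑' j : ℤ, ((2 : ℝ≥0∞) ^ j) ^ n * volume (Oj G j)
        ≤ ∑' j : ℤ, ∫⁻ x, {x | (2 : ℝ≥0∞) ^ j < 4 * mq G x}.indicator
            (fun _ => ((2 : ℝ≥0∞) ^ j) ^ n) x := by
          refine ENNReal.tsum_le_tsum fun j => ?_
          rw [lintegral_indicator_const (hms j)]
          gcongr
          exact hO j
      _ = ∫⁻ x, ∑' j : ℤ, {x | (2 : ℝ≥0∞) ^ j < 4 * mq G x}.indicator
            (fun _ => ((2 : ℝ≥0∞) ^ j) ^ n) x :=
          (lintegral_tsum fun j => (measurable_const.indicator (hms j)).aemeasurable).symm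
      _ ≤ ∫⁻ x, (2 * 4 ^ n) * mq G x ^ n := by
          refine lintegral_mono fun x => ?_
          rw [mul_assoc, ← mul_pow]
          refine le_trans (le_of_eq ?_) (geom_sum hn (4 * mq G x))
          congr 1
          funext j
          rw [indicator_apply]
          rfl
      _ < ⊤ := by
          rw [lintegral_const_mul _ (hm.pow_const n)]
          exact ENNReal.mul_lt_top (by finiteness) hfin
  · intro j k z hF
    refine ⟨(sz_le hn hgs hF.1).trans (by push_cast; exact le_self_add), ?_, fun j' hF' => ?_⟩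
    · have hρ := rho_pos k
      have hn' : (3 : ℝ) ≤ n := by exact_mod_cast hn
      have hnρ : 0 < n * rho k := by positivity
      refine iSup₂_le fun s hs => ?_
      obtain ⟨k', h1, h2⟩ := gq_le_gh hn G (ctr k z) (r := s) (by linarith)
      have hk : k' < k := by
        by_contra hc
        have h3 := rho_anti (not_lt.1 hc)
        have h4 : n * rho k' ≤ n * rho k := by gcongr
        linarith
      have e := two_zpow_add j 4
      rw [show ((4 : ℕ) : ℤ) = 4 from rfl, show (2 : ℝ≥0∞) ^ 4 = 16 by norm_num] at e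
      rw [e]
      exact h2.trans (mul_le_mul_right (hF.2 k' hk) _)
    · have e := two_zpow_add j 2
      rw [show (2 : ℝ≥0∞) ^ 2 = 4 by norm_num] at e
      have h1 : (2 : ℝ≥0∞) ^ j' < 2 ^ (j + ((2 : ℕ) : ℤ)) := by
        rw [e]
        exact hF'.1.trans_le ((gh_le_parent hn G k z).trans
          (mul_le_mul_right (hF.2 (k - 1) (by omega)) _))
      by_contra hc
      exact absurd (h1.trans_le (two_zpow_mono (not_le.1 hc).le)) (lt_irrefl _)
  · intro j p hp A hA
    have hU : A ∩ Un p =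
        ⋃ q : ℤ × (Fin n → ℤ), if p q.1 q.2 then A ∩ cell q.1 q.2 else ∅ := by
      ext x
      rw [mem_iUnion]
      constructor
      · rintro ⟨hx, k, hk⟩
        refine ⟨(k, idx k x), ?_⟩
        rw [if_pos hk]
        exact ⟨hx, rfl⟩
      · rintro ⟨q, hq⟩
        split_ifs at hq with h
        · refine ⟨hq.1, q.1, ?_⟩
          have : idx q.1 x = q.2 := hq.2
          rwa [this]
        · exact hq.elim
    rw [hU, measure_iUnion]
    · congr 1
      funext q
      split_ifs <;> simp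
    · intro q q' hne
      refine Set.disjoint_left.2 fun x hx hx' => hne ?_
      beta_reduce at hx hx'
      split_ifs at hx hx' with h h'
      · have e : idx q.1 x = q.2 := hx.2
        have e' : idx q'.1 x = q'.2 := hx'.2
        have f := hp _ _ h
        have f' := hp _ _ h'
        rw [← e] at f
        rw [← e'] at f'
        have hk : q.1 = q'.1 := le_antisymm (gen_le le_rfl f f'.1) (gen_le le_rfl f' f.1)
        refine Prod.ext hk ?_
        rw [← e, ← e', hk]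
      all_goals simp_all
    · intro q
      split_ifs
      · exact hA.inter (measurableSet_cell _ _)
      · exact MeasurableSet.empty

end Pool.Agent.P.MP_28243e_an
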