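import Pool.Agent.P.MP_28243e_an.Stmts

/-! Smooth almost minimising gauges. -/

namespace Pool.Agent.P.MP_28243e_an

open Set MeasureTheory Metric
open scoped ENNReal NNReal ContDiff Classical

namespace GA

variable {n m : ℕ}

/-- smooth orthogonal frames -/
structure Cls (Q : E n → Fin m → Fin m → ℝ) : Prop where
  smooth : ∀ i j, ContDiff ℝ ∞ fun x => Q x i j
  orth : ∀ x i j, ∑ l, Q x l i * Q x l j = if i = j then 1 else 0
  orth' : ∀ x i j, ∑ l, Q x i l * Q x j l = if i = j then 1 else 0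

lemma sum_two {a b : Fin m} (hab : a ≠ b) (f g : Fin m → ℝ) (h : ∀ i, i ≠ a → i ≠ b → f i = g i) :
    ∑ i, f i = ∑ i, g i + (f a + f b - g a - g b) := by
  have h1 : ∑ i, (f i - g i) = (f a - g a) + (f b - g b) := by
    rw [← Finset.sum_pair (f := fun i => f i - g i) hab]
    symm
    refine Finset.sum_subset (Finset.subset_univ _) fun i _ hi => ?_
    simp only [Finset.mem_insert, Finset.mem_singleton, not_or] at hi
    rw [h i hi.1 hi.2, sub_self]
  rw [Finset.sum_sub_distrib] at h1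
  linarith

/-- rotation of the rows `a`, `b` by the angle `θ x` -/
noncomputable def rot (Q : E n → Fin m → Fin m → ℝ) (a b : Fin m) (θ : E n → ℝ) :
    E n → Fin m → Fin m → ℝ := fun x i j =>
  if i = a then Real.cos (θ x) * Q x a j - Real.sin (θ x) * Q x b j
  else if i = b then Real.sin (θ x) * Q x a j + Real.cos (θ x) * Q x b j else Q x i j

lemma rot_a (Q : E n → Fin m → Fin m → ℝ) (a b : Fin m) (θ : E n → ℝ) (x : E n) (j : Fin m) :
    rot Q a b θ x a j = Real.cos (θ x) * Q x a j - Real.sin (θ x) * Q x b j := by simp [rot]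

lemma rot_b (Q : E n → Fin m → Fin m → ℝ) {a b : Fin m} (hab : a ≠ b) (θ : E n → ℝ) (x : E n)
    (j : Fin m) :
    rot Q a b θ x b j = Real.sin (θ x) * Q x a j + Real.cos (θ x) * Q x b j := by
  simp [rot, hab.symm]

lemma rot_o (Q : E n → Fin m → Fin m → ℝ) {a b i : Fin m} (ha : i ≠ a) (hb : i ≠ b)
    (θ : E n → ℝ) (x : E n) (j : Fin m) : rot Q a b θ x i j = Q x i j := by simp [rot, ha, hb]

lemma orth'_of_orth {A : Fin m → Fin m → ℝ}
    (h : ∀ i j, ∑ l, A l i * A l j = if i = j then 1 else 0) (i j : Fin m) :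
    ∑ l, A i l * A j l = if i = j then 1 else 0 := by
  have h1 : (Matrix.of A).transpose * Matrix.of A = 1 := by
    ext i j; simp [Matrix.mul_apply, Matrix.one_apply, h]
  have h2 : Matrix.of A * (Matrix.of A).transpose = 1 := mul_eq_one_comm.1 h1
  have := congrFun (congrFun h2 i) j
  simpa [Matrix.mul_apply, Matrix.one_apply] using this

lemma cls_rot {Q : E n → Fin m → Fin m → ℝ} (hQ : Cls Q) {a b : Fin m} (hab : a ≠ b)
    {θ : E n → ℝ} (hθ : ContDiff ℝ ∞ θ) : Cls (rot Q a b θ) := by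
  have ho : ∀ x i j, ∑ l, rot Q a b θ x l i * rot Q a b θ x l j = if i = j then 1 else 0 := by
    intro x i j
    rw [sum_two hab _ (fun l => Q x l i * Q x l j) fun l h1 h2 => by
      rw [rot_o Q h1 h2, rot_o Q h1 h2], hQ.orth, rot_a, rot_a, rot_b Q hab, rot_b Q hab]
    have := Real.sin_sq_add_cos_sq (θ x)
    linear_combination (Q x a i * Q x a j + Q x b i * Q x b j) * this
  refine ⟨fun i j => ?_, ho, fun x => orth'_of_orth (ho x)⟩
  have hc := Real.contDiff_cos.comp hθ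
  have hs := Real.contDiff_sin.comp hθ
  by_cases h1 : i = a
  · subst h1; simp only [rot_a]
    exact (hc.mul (hQ.smooth _ _)).sub (hs.mul (hQ.smooth _ _))
  by_cases h2 : i = b
  · subst h2; simp only [rot_b Q hab]
    exact (hs.mul (hQ.smooth _ _)).add (hc.mul (hQ.smooth _ _))
  · simp only [rot_o Q h1 h2]; exact hQ.smooth _ _

lemma pd_of {f : E n → ℝ} {x : E n} {L : E n →L[ℝ] ℝ} (h : HasFDerivAt f L x) (α : Fin n) :
    pd f α x = L (EuclideanSpace.single α 1) := by rw [pd, h.fderiv]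

lemma diff_of {f : E n → ℝ} (h : ContDiff ℝ ∞ f) (x : E n) : HasFDerivAt f (fderiv ℝ f x) x :=
  (h.differentiable (by simp) x).hasFDerivAt

/-- the potential in the frame `Q` -/
noncomputable def OQ (Q : E n → Fin m → Fin m → ℝ) (Ω : E n → Fin m → Fin m → Fin n → ℝ)
    (x : E n) (i l : Fin m) (α : Fin n) : ℝ := ∑ j, Th Q Ω x i j α * Q x l j

lemma OQ_anti {Q : E n → Fin m → Fin m → ℝ} (hQ : Cls Q) {Ω : E n → Fin m → Fin m → Fin n → ℝ}
    (hΩ : ∀ x i j α, Ω x i j α = -Ω x j i α) (x : E n) (i l : Fin m) (α : Fin n) :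
    OQ Q Ω x i l α = -OQ Q Ω x l i α := by
  have h1 : HasFDerivAt (fun y => ∑ j, Q y i j * Q y l j)
      (∑ j, (Q x i j • fderiv ℝ (fun y => Q y l j) x + Q x l j • fderiv ℝ (fun y => Q y i j) x))
      x := HasFDerivAt.fun_sum fun j _ => (diff_of (hQ.smooth i j) x).mul (diff_of (hQ.smooth l j) x)
  have h2 : (fun y => ∑ j, Q y i j * Q y l j) = fun _ => if i = l then 1 else 0 :=
    funext fun y => hQ.orth' y i l
  rw [h2] at h1
  have h3 := congrArg (fun L : E n →L[ℝ] ℝ => L (EuclideanSpace.single α 1))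
    (h1.unique (hasFDerivAt_const _ _))
  simp only [_root_.sum_apply, _root_.add_apply,
    _root_.smul_apply, smul_eq_mul, _root_.zero_apply] at h3
  have h4 : ∑ j, (∑ k, Q x i k * Ω x k j α) * Q x l j =
      -∑ j, (∑ k, Q x l k * Ω x k j α) * Q x i j := by
    simp only [Finset.sum_mul]
    rw [Finset.sum_comm, ← Finset.sum_neg_distrib]
    refine Finset.sum_congr rfl fun j _ => ?_
    rw [← Finset.sum_neg_distrib]
    refine Finset.sum_congr rfl fun k _ => ?_
    rw [hΩ x j k α]; ring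
  simp only [OQ, Th, sub_mul, Finset.sum_sub_distrib, pd]
  rw [Finset.sum_add_distrib] at h3
  have h5 : ∀ (i l : Fin m), ∑ j, (fderiv ℝ (fun y => Q y i j) x) (EuclideanSpace.single α 1) *
      Q x l j = ∑ j, Q x l j * (fderiv ℝ (fun y => Q y i j) x) (EuclideanSpace.single α 1) :=
    fun i l => Finset.sum_congr rfl fun j _ => mul_comm _ _
  rw [h4, h5 i l, h5 l i]
  linarith

lemma sq_rot {Q : E n → Fin m → Fin m → ℝ} (hQ : Cls Q) {Ω : E n → Fin m → Fin m → Fin n → ℝ}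
    (hΩ : ∀ x i j α, Ω x i j α = -Ω x j i α) {a b : Fin m} (hab : a ≠ b) {ψ : E n → ℝ}
    (hψ : ContDiff ℝ ∞ ψ) (t : ℝ) (x : E n) :
    sqO (Th (rot Q a b fun y => t * ψ y) Ω x) = sqO (Th Q Ω x) +
      4 * t * ∑ α, OQ Q Ω x a b α * pd ψ α x + 2 * t ^ 2 * ∑ α, pd ψ α x ^ 2 := by
  set θ : E n → ℝ := fun y => t * ψ y with hθ
  have hθd : HasFDerivAt θ (t • fderiv ℝ ψ x) x := (diff_of hψ x).const_mul t
  have hc := hθd.cos
  have hs := hθd.sin
  set c := Real.cos (θ x) with hcd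
  set s := Real.sin (θ x) with hsd
  have hcs : s ^ 2 + c ^ 2 = 1 := Real.sin_sq_add_cos_sq (θ x)
  have hA : ∀ j α, Th (rot Q a b θ) Ω x a j α = c * Th Q Ω x a j α - s * Th Q Ω x b j α +
      t * pd ψ α x * (s * Q x a j + c * Q x b j) := by
    intro j α
    have h1 := pd_of ((hc.mul (diff_of (hQ.smooth a j) x)).sub
      (hs.mul (diff_of (hQ.smooth b j) x))) α
    have h2 : (fun y => rot Q a b θ y a j) =
        ((fun y => Real.cos (θ y)) * fun y => Q y a j) -
          (fun y => Real.sin (θ y)) * fun y => Q y b j := funext fun y => rot_a Q a b θ y j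
    rw [← h2] at h1
    simp only [Th, h1]
    simp only [rot_a, sub_mul, mul_assoc, Finset.sum_sub_distrib, ← Finset.mul_sum]
    simp only [pd, _root_.sub_apply, _root_.add_apply,
      _root_.smul_apply, smul_eq_mul, ← hcd, ← hsd]
    ring
  have hB : ∀ j α, Th (rot Q a b θ) Ω x b j α = s * Th Q Ω x a j α + c * Th Q Ω x b j α -
      t * pd ψ α x * (c * Q x a j - s * Q x b j) := by
    intro j α
    have h1 := pd_of ((hs.mul (diff_of (hQ.smooth a j) x)).add
      (hc.mul (diff_of (hQ.smooth b j) x))) α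
    have h2 : (fun y => rot Q a b θ y b j) =
        ((fun y => Real.sin (θ y)) * fun y => Q y a j) +
          (fun y => Real.cos (θ y)) * fun y => Q y b j := funext fun y => rot_b Q hab θ y j
    rw [← h2] at h1
    simp only [Th, h1]
    simp only [rot_b Q hab, add_mul, mul_assoc, Finset.sum_add_distrib,
      ← Finset.mul_sum]
    simp only [pd, _root_.add_apply, _root_.smul_apply, smul_eq_mul, ← hcd, ← hsd]
    ring
  have hO : ∀ i, i ≠ a → i ≠ b → ∀ j α, Th (rot Q a b θ) Ω x i j α = Th Q Ω x i j α := by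
    intro i h1 h2 j α
    simp only [Th, rot_o Q h1 h2]
  unfold sqO
  rw [sum_two hab _ (fun i => ∑ j, ∑ α, Th Q Ω x i j α ^ 2) fun i h1 h2 => by
    simp only [hO i h1 h2]]
  have key : ∀ α, ∑ j, (Th (rot Q a b θ) Ω x a j α ^ 2 + Th (rot Q a b θ) Ω x b j α ^ 2 -
      Th Q Ω x a j α ^ 2 - Th Q Ω x b j α ^ 2) =
      4 * t * (OQ Q Ω x a b α * pd ψ α x) + 2 * t ^ 2 * pd ψ α x ^ 2 := by
    intro α
    have e1 : ∀ j, Th (rot Q a b θ) Ω x a j α ^ 2 + Th (rot Q a b θ) Ω x b j α ^ 2 -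
        Th Q Ω x a j α ^ 2 - Th Q Ω x b j α ^ 2 =
        2 * (t * pd ψ α x) * (Th Q Ω x a j α * Q x b j) -
          2 * (t * pd ψ α x) * (Th Q Ω x b j α * Q x a j) +
          (t * pd ψ α x) ^ 2 * (Q x a j * Q x a j) + (t * pd ψ α x) ^ 2 * (Q x b j * Q x b j) := by
      intro j
      rw [hA, hB]
      linear_combination ((Th Q Ω x a j α + t * pd ψ α x * Q x b j) ^ 2 +
        (Th Q Ω x b j α - t * pd ψ α x * Q x a j) ^ 2) * hcs
    simp only [e1, Finset.sum_add_distrib, Finset.sum_sub_distrib, ← Finset.mul_sum, hQ.orth']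
    have e2 := OQ_anti hQ hΩ x b a α
    simp only [OQ] at e2 ⊢
    rw [e2]; simp only [if_true]; ring
  have e3 : ∑ j, ∑ α, Th (rot Q a b θ) Ω x a j α ^ 2 + ∑ j, ∑ α, Th (rot Q a b θ) Ω x b j α ^ 2 -
      ∑ j, ∑ α, Th Q Ω x a j α ^ 2 - ∑ j, ∑ α, Th Q Ω x b j α ^ 2 =
      ∑ α, ∑ j, (Th (rot Q a b θ) Ω x a j α ^ 2 + Th (rot Q a b θ) Ω x b j α ^ 2 -
        Th Q Ω x a j α ^ 2 - Th Q Ω x b j α ^ 2) := by
    rw [Finset.sum_comm (s := Finset.univ) (t := Finset.univ)
      (f := fun α j => Th (rot Q a b θ) Ω x a j α ^ 2 + Th (rot Q a b θ) Ω x b j α ^ 2 -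
        Th Q Ω x a j α ^ 2 - Th Q Ω x b j α ^ 2)]
    simp only [Finset.sum_add_distrib, Finset.sum_sub_distrib]
  rw [e3]
  simp only [key, Finset.sum_add_distrib, ← Finset.mul_sum]
  ring

lemma cont_pd {f : E n → ℝ} (h : ContDiff ℝ ∞ f) (α : Fin n) : Continuous (pd f α) :=
  (h.continuous_fderiv (by simp)).clm_apply continuous_const

lemma meas_Th {Q : E n → Fin m → Fin m → ℝ} (hQ : Cls Q) {Ω : E n → Fin m → Fin m → Fin n → ℝ}
    (hΩ : Measurable Ω) (i j : Fin m) (α : Fin n) : Measurable fun x => Th Q Ω x i j α := by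
  refine Measurable.sub (Finset.measurable_sum _ fun l _ => Measurable.mul
    (hQ.smooth i l).continuous.measurable ?_) (cont_pd (hQ.smooth i j) α).measurable
  exact (measurable_pi_apply α).comp ((measurable_pi_apply j).comp
    ((measurable_pi_apply l).comp hΩ))

lemma meas_sq {Q : E n → Fin m → Fin m → ℝ} (hQ : Cls Q) {Ω : E n → Fin m → Fin m → Fin n → ℝ}
    (hΩ : Measurable Ω) : Measurable fun x => sqO (Th Q Ω x) :=
  Finset.measurable_sum _ fun i _ => Finset.measurable_sum _ fun j _ =>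
    Finset.measurable_sum _ fun α _ => (meas_Th hQ hΩ i j α).pow_const 2

lemma sqO_nonneg (Ω : Fin m → Fin m → Fin n → ℝ) : 0 ≤ sqO Ω :=
  Finset.sum_nonneg fun _ _ => Finset.sum_nonneg fun _ _ => Finset.sum_nonneg fun _ _ =>
    sq_nonneg _

lemma sq_le_sqO (Ω : Fin m → Fin m → Fin n → ℝ) (i j : Fin m) (α : Fin n) :
    Ω i j α ^ 2 ≤ sqO Ω :=
  ((Finset.single_le_sum (f := fun α => Ω i j α ^ 2) (fun _ _ => sq_nonneg _)
    (Finset.mem_univ α)).trans
    (Finset.single_le_sum (f := fun j => ∑ α, Ω i j α ^ 2)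
      (fun _ _ => Finset.sum_nonneg fun _ _ => sq_nonneg _) (Finset.mem_univ j))).trans
    (Finset.single_le_sum (f := fun i => ∑ j, ∑ α, Ω i j α ^ 2)
      (fun _ _ => Finset.sum_nonneg fun _ _ => Finset.sum_nonneg fun _ _ => sq_nonneg _)
      (Finset.mem_univ i))

lemma abs_Q_le {Q : E n → Fin m → Fin m → ℝ} (hQ : Cls Q) (x : E n) (i j : Fin m) :
    |Q x i j| ≤ 1 := by
  have h1 := hQ.orth' x i i
  rw [if_pos rfl] at h1
  have h2 := Finset.single_le_sum (f := fun l => Q x i l * Q x i l)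
    (fun _ _ => mul_self_nonneg _) (Finset.mem_univ j)
  exact abs_le_one_iff_mul_self_le_one.2 (h1 ▸ h2)

/-- the identity frame -/
noncomputable def idQ (n m : ℕ) : E n → Fin m → Fin m → ℝ := fun _ i j => if i = j then 1 else 0

lemma cls_id : Cls (idQ n m) :=
  ⟨fun _ _ => contDiff_const, fun _ i j => by by_cases h : i = j <;> simp [idQ, h, eq_comm],
    fun _ i j => by by_cases h : i = j <;> simp [idQ, h, eq_comm]⟩

lemma Th_id (Ω : E n → Fin m → Fin m → Fin n → ℝ) (x : E n) : Th (idQ n m) Ω x = Ω x := by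
  funext i j α
  simp [Th, idQ, pd]

end GA

open GA in
theorem stGA : StGA := by
  intro n m w Ω τ hw hΩm hΩ hw1 hw2 hτ
  set μ : Measure (E n) := (volume.restrict (ball (0 : E n) 1)).withDensity w with hμ
  have hfin : IsFiniteMeasure μ := isFiniteMeasure_withDensity hw1.ne
  have hball : ∀ᵐ x ∂μ, x ∈ ball (0 : E n) 1 :=
    withDensity_absolutelyContinuous _ _ (ae_restrict_mem measurableSet_ball)
  let e : (E n → Fin m → Fin m → ℝ) → ℝ≥0∞ := fun Q => ∫⁻ x, ENNReal.ofReal (sqO (Th Q Ω x)) ∂μ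
  have he : ∀ Q, Cls Q → e Q = ∫⁻ x in ball 0 1, w x * ENNReal.ofReal (sqO (Th Q Ω x)) :=
    fun Q hQ => lintegral_withDensity_eq_lintegral_mul _ hw (meas_sq hQ hΩm).ennreal_ofReal
  have heI : e (idQ n m) = ∫⁻ x in ball 0 1, w x * ENNReal.ofReal (sqO (Ω x)) := by
    rw [he _ cls_id]; simp only [Th_id]
  set W : ℝ := μ.real univ with hW
  have hW0 : 0 ≤ W := measureReal_nonneg
  set τ' : ℝ := τ ^ 2 / (n * W + 1) with hτ'
  have hτ'0 : 0 < τ' := by positivity
  set I₀ : ℝ≥0∞ := ⨅ (Q : E n → Fin m → Fin m → ℝ) (_ : Cls Q), e Q with hI₀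
  have hI : ∀ Q, Cls Q → I₀ ≤ e Q := fun Q hQ => iInf₂_le Q hQ
  have hI0 : I₀ ≠ ⊤ := ((hI _ cls_id).trans_lt (heI ▸ hw2)).ne
  obtain ⟨Q, hQ, hQ1, hQ2⟩ : ∃ Q, Cls Q ∧ e Q ≤ e (idQ n m) ∧ e Q ≤ I₀ + ENNReal.ofReal τ' := by
    have h1 : I₀ < I₀ + ENNReal.ofReal τ' :=
      ENNReal.lt_add_right hI0 (ENNReal.ofReal_pos.2 hτ'0).ne'
    conv_lhs at h1 => rw [hI₀]
    simp only [iInf_lt_iff] at h1
    obtain ⟨Q, hQ, h1⟩ := h1
    rcases le_total (e Q) (e (idQ n m)) with h | h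
    · exact ⟨Q, hQ, h, h1.le⟩
    · exact ⟨_, cls_id, le_rfl, h.trans h1.le⟩
  have hQfin : e Q ≠ ⊤ := (hQ1.trans_lt (heI ▸ hw2)).ne
  refine ⟨Q, hQ.smooth, hQ.orth, hQ.orth', by rw [← he Q hQ, ← heI]; exact hQ1, ?_⟩
  intro a b ψ K hψ hK
  have hK0 : 0 ≤ K := (norm_nonneg _).trans (hK 0 (mem_ball_self one_pos))
  by_cases hab : a = b
  · subst hab
    have : ∀ x α, ∑ j, Th Q Ω x a j α * Q x a j = 0 := fun x α => by
      have := OQ_anti hQ hΩ x a a α
      simp only [OQ] at this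
      linarith
    simp only [this, zero_mul, Finset.sum_const_zero, mul_zero, integral_zero, abs_zero]
    positivity
  have hL : ∫ x in ball 0 1, (w x).toReal * ∑ α, (∑ j, Th Q Ω x a j α * Q x b j) * pd ψ α x =
      ∫ x, ∑ α, OQ Q Ω x a b α * pd ψ α x ∂μ := by
    rw [hμ, integral_withDensity_eq_integral_toReal_smul hw (ae_lt_top hw hw1.ne)]
    rfl
  rw [hL]
  set L := ∫ x, ∑ α, OQ Q Ω x a b α * pd ψ α x ∂μ with hLdef
  have hpd : ∀ x ∈ ball (0 : E n) 1, ∀ α, |pd ψ α x| ≤ K := fun x hx α => by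
    have := (fderiv ℝ ψ x).le_opNorm (EuclideanSpace.single α 1)
    simp only [PiLp.norm_single, norm_one, mul_one] at this
    exact this.trans (hK x hx)
  have hi1 : Integrable (fun x => sqO (Th Q Ω x)) μ :=
    (lintegral_ofReal_ne_top_iff_integrable (meas_sq hQ hΩm).aestronglyMeasurable
      (Filter.Eventually.of_forall fun x => sqO_nonneg _)).1 hQfin
  have hi2 : Integrable (fun x => ∑ α, OQ Q Ω x a b α * pd ψ α x) μ := by
    refine integrable_finsetSum _ fun α _ => ?_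
    simp only [OQ, Finset.sum_mul]
    refine integrable_finsetSum _ fun j _ => ?_
    refine (((integrable_const (1 : ℝ)).add hi1).mul_const K).mono'
      (((meas_Th hQ hΩm a j α).mul (hQ.smooth b j).continuous.measurable).mul
        (cont_pd hψ α).measurable).aestronglyMeasurable ?_
    filter_upwards [hball] with x hx
    rw [Real.norm_eq_abs, abs_mul, abs_mul]
    have h1 : |Th Q Ω x a j α| ≤ 1 + sqO (Th Q Ω x) := by
      have := sq_le_sqO (Th Q Ω x) a j α
      nlinarith [sq_abs (Th Q Ω x a j α), sq_nonneg (|Th Q Ω x a j α| - 1)]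
    have h2 : |Th Q Ω x a j α| * |Q x b j| ≤ 1 + sqO (Th Q Ω x) :=
      (mul_le_of_le_one_right (abs_nonneg _) (abs_Q_le hQ x b j)).trans h1
    exact mul_le_mul h2 (hpd x hx α) (abs_nonneg _) ((abs_nonneg _).trans h1)
  have hb3 : ∀ᵐ x ∂μ, ∑ α, pd ψ α x ^ 2 ≤ n * K ^ 2 := by
    filter_upwards [hball] with x hx
    calc ∑ α, pd ψ α x ^ 2 ≤ ∑ _α : Fin n, K ^ 2 := Finset.sum_le_sum fun α _ => by
          rw [← sq_abs]; exact pow_le_pow_left₀ (abs_nonneg _) (hpd x hx α) 2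
      _ = n * K ^ 2 := by simp
  have hi3 : Integrable (fun x => ∑ α, pd ψ α x ^ 2) μ := by
    refine (integrable_const ((n : ℝ) * K ^ 2)).mono'
      (continuous_finsetSum _ fun α _ => (cont_pd hψ α).pow 2).aestronglyMeasurable ?_
    filter_upwards [hb3] with x hx
    rwa [Real.norm_of_nonneg (Finset.sum_nonneg fun _ _ => sq_nonneg _)]
  have hP : ∫ x, ∑ α, pd ψ α x ^ 2 ∂μ ≤ n * K ^ 2 * W := by
    refine (integral_mono_ae hi3 (integrable_const _) hb3).trans ?_
    rw [integral_const, smul_eq_mul, mul_comm]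
  have hquad : ∀ t : ℝ, 0 ≤ 2 * (n * K ^ 2 * W) * (t * t) + 4 * L * t + τ' := by
    intro t
    have hc := cls_rot hQ hab (θ := fun y => t * ψ y) (contDiff_const.mul hψ)
    have hi4 : Integrable (fun x => sqO (Th (rot Q a b fun y => t * ψ y) Ω x)) μ := by
      simp only [sq_rot hQ hΩ hab hψ t]
      exact (hi1.add (hi2.const_mul _)).add (hi3.const_mul _)
    have h1 : e Q ≤ e (rot Q a b fun y => t * ψ y) + ENNReal.ofReal τ' :=
      hQ2.trans (by gcongr; exact hI _ hc)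
    simp only [e] at h1
    rw [← ofReal_integral_eq_lintegral_ofReal hi1 (Filter.Eventually.of_forall fun x =>
      sqO_nonneg _), ← ofReal_integral_eq_lintegral_ofReal hi4 (Filter.Eventually.of_forall
      fun x => sqO_nonneg _), ← ENNReal.ofReal_add (integral_nonneg fun x => sqO_nonneg _) hτ'0.le,
      ENNReal.ofReal_le_ofReal_iff (add_nonneg (integral_nonneg fun x => sqO_nonneg _) hτ'0.le)]
      at h1
    simp only [sq_rot hQ hΩ hab hψ t] at h1
    have hi5 : Integrable (fun x => sqO (Th Q Ω x) + 4 * t * ∑ α, OQ Q Ω x a b α * pd ψ α x) μ :=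
      hi1.add (hi2.const_mul _)
    rw [integral_add hi5 (hi3.const_mul _),
      integral_add hi1 (hi2.const_mul _), integral_const_mul, integral_const_mul, ← hLdef] at h1
    nlinarith [sq_nonneg t, mul_le_mul_of_nonneg_left hP (sq_nonneg t)]
  have hd := discrim_le_zero hquad
  rw [discrim] at hd
  have h5 : n * W * τ' ≤ τ ^ 2 := by
    rw [hτ', mul_div_assoc', div_le_iff₀ (by positivity)]
    nlinarith [sq_nonneg τ]
  refine abs_le_of_sq_le_sq' ?_ (by positivity) |> abs_le.2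
  nlinarith [mul_le_mul_of_nonneg_left h5 (sq_nonneg K), sq_nonneg (τ * K)]

end Pool.Agent.P.MP_28243e_an
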