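import Pool.Agent.P.MP_28243e_an.Basic

/-! Source-free cells, cells with large error and cells with large mass. -/

namespace Pool.Agent.P.MP_28243e_an

open Set MeasureTheory Metric Filter Topology ENNReal
open scoped NNReal Classical

variable {n : ℕ}

namespace GI

theorem ofReal_rho (k : ℤ) : ENNReal.ofReal (rho k) = (2 : ℝ≥0∞) ^ (-k) := by
  have : rho k = (((2 : ℝ≥0) ^ (-k) : ℝ≥0) : ℝ) := by simp [rho]
  rw [this, ENNReal.ofReal_coe_nnreal, ENNReal.coe_zpow (by norm_num)]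
  simp

theorem z_ne_zero (j : ℤ) : (2 : ℝ≥0∞) ^ j ≠ 0 :=
  (ENNReal.zpow_pos (by norm_num) (by norm_num) _).ne'

theorem z_ne_top (j : ℤ) : (2 : ℝ≥0∞) ^ j ≠ ⊤ := ENNReal.zpow_ne_top (by norm_num) (by norm_num) _

theorem z_add (i j : ℤ) : (2 : ℝ≥0∞) ^ (i + j) = 2 ^ i * 2 ^ j :=
  ENNReal.zpow_add (by norm_num) (by norm_num) _ _

theorem z_add_nat (i : ℤ) (j : ℕ) : (2 : ℝ≥0∞) ^ (i + j) = 2 ^ i * 2 ^ j := by
  rw [z_add, zpow_natCast]

theorem sz_eq (j k : ℤ) : sz j k = 2 ^ j * ENNReal.ofReal (rho k) := by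
  rw [ofReal_rho, sz, sub_eq_add_neg, z_add]

theorem pow_split (hn : 3 ≤ n) (s : ℝ≥0∞) : s ^ n = s ^ q1 n * s ^ (1 / 2 : ℝ) := by
  rw [← ENNReal.rpow_add_of_nonneg _ _ (q1_pos hn).le (by norm_num), ← ENNReal.rpow_natCast]
  congr 1
  unfold q1; ring

theorem ball_sub {x y : E n} {a r s : ℝ} (h : ‖x - y‖ < a) (hs : r + a ≤ s) :
    ball x r ⊆ ball y s :=
  ball_subset_ball' (by rw [dist_eq_norm]; linarith)

theorem four_le : (4 : ℝ≥0∞) ≤ 3 * 2 ^ (1 / 2 : ℝ) := by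
  rw [← ENNReal.rpow_le_rpow_iff (z := 2) (by norm_num), ENNReal.mul_rpow_of_nonneg _ _ (by norm_num),
    ← ENNReal.rpow_mul]
  norm_num

theorem two_half_le : (2 : ℝ≥0∞) ^ (1 / 2 : ℝ) ≤ 2 := by
  simpa using ENNReal.rpow_le_rpow_of_exponent_le (x := 2) (y := 1 / 2) (z := 1) (by norm_num)
    (by norm_num)

theorem geo0 (a : ℝ≥0∞) (N : ℕ) :
    ∑ i ∈ Finset.range N, (a * 2 ^ i) ^ (1 / 2 : ℝ) ≤ 3 * (a * 2 ^ N) ^ (1 / 2 : ℝ) := by
  induction N with
  | zero => simp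
  | succ N ih =>
    rw [Finset.sum_range_succ, pow_succ, ← mul_assoc, ENNReal.mul_rpow_of_nonneg _ 2 (by norm_num)]
    calc _ ≤ 3 * (a * 2 ^ N) ^ (1 / 2 : ℝ) + (a * 2 ^ N) ^ (1 / 2 : ℝ) := by gcongr
      _ = 4 * (a * 2 ^ N) ^ (1 / 2 : ℝ) := by ring
      _ ≤ (3 * 2 ^ (1 / 2 : ℝ)) * (a * 2 ^ N) ^ (1 / 2 : ℝ) := by gcongr; exact four_le
      _ = _ := by ring

theorem geo (a M : ℝ≥0∞) (N : ℕ) :
    ∑ i ∈ Finset.range N, (if a * 2 ^ i ≤ M then (a * 2 ^ i) ^ (1 / 2 : ℝ) else 0) ≤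
      4 * M ^ (1 / 2 : ℝ) := by
  induction N with
  | zero => simp
  | succ N ih =>
    rw [Finset.sum_range_succ]
    split_ifs with h
    · calc _ ≤ 3 * (a * 2 ^ N) ^ (1 / 2 : ℝ) + (a * 2 ^ N) ^ (1 / 2 : ℝ) := by
            gcongr
            refine le_trans (Finset.sum_le_sum fun i _ => ?_) (geo0 a N)
            split_ifs
            exacts [le_rfl, zero_le]
        _ = 4 * (a * 2 ^ N) ^ (1 / 2 : ℝ) := by ring
        _ ≤ _ := by gcongr
    · simpa using ih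

theorem half_psi_mono {l s s' : ℝ≥0∞} {δ : ℝ} (h0 : l ≠ 0) (hl : l ≠ ⊤) (hδ : 0 ≤ δ)
    (hδ2 : δ ≤ 1 / 2) (h : s ≤ s') (hs' : s' ≠ ⊤) :
    s ^ (1 / 2 : ℝ) * psi l δ s ≤ s' ^ (1 / 2 : ℝ) * psi l δ s' := by
  rcases le_total s' l with h1 | h1
  · rw [psi_of_le hδ h0 hl h1]
    gcongr
    exact psi_le_one _ _ _
  rcases eq_or_ne s 0 with rfl | hs0
  · simp
  have key : ∀ t : ℝ≥0∞, t ≠ 0 → t ≠ ⊤ →
      t ^ (1 / 2 : ℝ) * (l / t) ^ δ = l ^ δ * t ^ (1 / 2 - δ) := fun t t0 t1 => by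
    rw [ENNReal.div_rpow_of_nonneg _ _ hδ, ENNReal.rpow_sub _ _ t0 t1, mul_div_assoc',
      mul_div_assoc', mul_comm]
  rw [psi_of_ge hδ h1, key s' (fun e => hs0 (le_zero_iff.1 (e ▸ h))) hs']
  calc _ ≤ s ^ (1 / 2 : ℝ) * (l / s) ^ δ := by gcongr; exact min_le_right _ _
    _ = l ^ δ * s ^ (1 / 2 - δ) := key s hs0 (ne_top_of_le_ne_top hs' h)
    _ ≤ _ := by gcongr

theorem psi_ge {l : ℝ≥0∞} {δ : ℝ} {N : ℕ} (h0 : l ≠ 0) (hl : l ≠ ⊤) (hδ : 0 ≤ δ)
    (hN : N * δ ≤ 1) : 1 ≤ 2 * psi l δ (l * 2 ^ N) := by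
  have h1 : l / (l * 2 ^ N) = (2 ^ N)⁻¹ := by
    rw [div_eq_mul_inv, ENNReal.mul_inv (Or.inl h0) (Or.inl hl), ← mul_assoc,
      ENNReal.mul_inv_cancel h0 hl, one_mul]
  have h2 : ((2 : ℝ≥0∞) ^ N) ^ δ ≤ 2 := by
    rw [← ENNReal.rpow_natCast, ← ENNReal.rpow_mul]
    simpa using ENNReal.rpow_le_rpow_of_exponent_le (x := 2) (by norm_num) hN
  rw [psi_of_ge hδ (le_mul_of_one_le_right' (one_le_pow₀ (by norm_num))), h1, ENNReal.inv_rpow]
  calc (1 : ℝ≥0∞) = 2 * 2⁻¹ := (ENNReal.mul_inv_cancel (by norm_num) (by norm_num)).symm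
    _ ≤ _ := by gcongr

/-- the pointwise summation over levels -/
theorem pt (hn : 3 ≤ n) {a l g : ℝ≥0∞} {δ : ℝ} {J : ℕ} (h0 : l ≠ 0) (hl : l ≠ ⊤) (hal : a ≤ l)
    (hδ : 0 ≤ δ) (hδ2 : δ ≤ 1 / 2) (hJ : 2 * J * δ ≤ 1) (hg : g ≠ ⊤) :
    ∑ i ∈ Finset.Ico J (2 * J),
      (if a * 2 ^ i < 2 * g then (a * 2 ^ i) ^ (1 / 2 : ℝ) * g ^ q1 n else 0) ≤
      16 * Phi n l δ 0 g := by
  have hP : Phi n l δ 0 g = g ^ q1 n * (g ^ (1 / 2 : ℝ) * psi l δ g) := by
    rw [← mul_assoc, ← pow_split hn, Phi, Pd, zero_add, ← pow_succ, ← pow_succ]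
    congr 2; omega
  set T := l * 2 ^ (2 * J) with hT
  have h1 := geo a (2 * min g T) (2 * J)
  have h2 : (2 * min g T) ^ (1 / 2 : ℝ) ≤ 4 * (g ^ (1 / 2 : ℝ) * psi l δ g) := by
    have b1 := psi_ge (N := 2 * J) h0 hl hδ (by push_cast; exact hJ)
    calc _ ≤ 2 * (min g T) ^ (1 / 2 : ℝ) * 1 := by
          rw [mul_one, ENNReal.mul_rpow_of_nonneg _ _ (by norm_num)]
          gcongr; exact two_half_le
      _ ≤ 2 * (min g T) ^ (1 / 2 : ℝ) * (2 * psi l δ (min g T)) := by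
          gcongr
          exact b1.trans (by gcongr; exact psi_anti hδ (min_le_right _ _))
      _ = 4 * ((min g T) ^ (1 / 2 : ℝ) * psi l δ (min g T)) := by ring
      _ ≤ _ := mul_le_mul_right (half_psi_mono h0 hl hδ hδ2 (min_le_left _ _) hg) _
  calc _ ≤ ∑ i ∈ Finset.range (2 * J),
        (if a * 2 ^ i ≤ 2 * min g T then (a * 2 ^ i) ^ (1 / 2 : ℝ) else 0) * g ^ q1 n := by
        refine le_trans (Finset.sum_le_sum fun i hi => ?_) (Finset.sum_le_sum_of_subset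
          (fun i hi => Finset.mem_range.2 (Finset.mem_Ico.1 hi).2))
        by_cases c : a * 2 ^ i < 2 * g
        · rw [if_pos c, if_pos]
          rw [mul_min]
          refine le_min c.le (le_trans ?_ (le_mul_of_one_le_left' (by norm_num)))
          rw [hT]
          gcongr
          · norm_num
          · exact (Finset.mem_Ico.1 hi).2.le
        · rw [if_neg c]; exact zero_le
    _ ≤ 4 * (4 * (g ^ (1 / 2 : ℝ) * psi l δ g)) * g ^ q1 n := by
        rw [← Finset.sum_mul]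
        gcongr
        exact h1.trans (by gcongr)
    _ = _ := by rw [hP]; ring

/-- weak type bound for unions of cells -/
theorem cellweak (hn : 3 ≤ n) (h2 : StA2) (h0 : StG0) : ∃ K : ℝ≥0∞, K ≠ ⊤ ∧
    ∀ f : E n → ℝ≥0∞, Measurable f → ∀ (j : ℤ) (p : ℤ → (Fin n → ℤ) → Prop) (a : ℝ≥0∞),
    (∀ k z, p k z → a * sz j k ^ n < ∫⁻ x in ball (ctr k z) (8 * n * rho k), f x) →
    a * (((2 : ℝ≥0∞) ^ j) ^ n * volume (Un p)) ≤ K * ∫⁻ x, f x := by
  obtain ⟨C, hC⟩ := (h2 n hn).1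
  have hn' : (3 : ℝ) ≤ n := by exact_mod_cast hn
  obtain ⟨W, hW⟩ : ∃ W, W = ENNReal.ofReal (vb n * (9 * n) ^ n) := ⟨_, rfl⟩
  have W0 : W ≠ 0 := by
    have := vb_pos (n := n)
    rw [hW]; exact (ENNReal.ofReal_pos.2 (by positivity)).ne'
  have W1 : W ≠ ⊤ := by rw [hW]; exact ENNReal.ofReal_ne_top
  refine ⟨W * C, ENNReal.mul_ne_top W1 ENNReal.coe_ne_top, fun f hf j p a h => ?_⟩
  have hsub : Un p ⊆ {x | a * (2 ^ j) ^ n / W < mx f x} := by
    rintro x ⟨k, hk⟩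
    have hx := (((h0 n hn).1 k (idx k x)).2.2.2 x rfl).1
    have hr := rho_pos k
    have h3 := (h k _ hk).trans_le (lintegral_mono_set (ball_sub (s := 9 * n * rho k)
      (by rwa [norm_sub_rev]) (by linarith)))
    rw [lint_ball_eq f x (by positivity), vol_ball x (by positivity)] at h3
    by_contra h4
    refine absurd h3 (not_lt.2 ?_)
    have h5 : av f x (9 * n * rho k) ≤ a * (2 ^ j) ^ n / W :=
      (av_le_mx f x (by positivity)).trans (not_lt.1 h4)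
    have e : ENNReal.ofReal (vb n * (9 * n * rho k) ^ n) = ENNReal.ofReal (rho k) ^ n * W := by
      rw [hW, ← ENNReal.ofReal_pow hr.le, ← ENNReal.ofReal_mul (by positivity)]
      congr 1; ring
    calc _ ≤ ENNReal.ofReal (rho k) ^ n * W * (a * (2 ^ j) ^ n / W) := by rw [e]; gcongr
      _ = _ := by rw [mul_assoc, ENNReal.mul_div_cancel W0 W1, sz_eq]; ring
  calc _ = W * (a * (2 ^ j) ^ n / W * volume (Un p)) := by
        rw [← mul_assoc W, ENNReal.mul_div_cancel W0 W1, mul_assoc]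
    _ ≤ W * (C * ∫⁻ x, f x) := by
        refine mul_le_mul_right (le_trans (mul_le_mul_right (measure_mono hsub) _)
          ((hC f hf _).trans ?_)) _
        exact mul_le_mul_right (setLIntegral_le_lintegral _ _) _
    _ = _ := by ring

/-- summation of the damping factors over all levels -/
theorem psi_sum {δ : ℝ} (hδ : 0 < δ) (hδ1 : δ ≤ 1) : ∃ K : ℝ≥0∞, K ≠ ⊤ ∧ ∀ M : ℝ≥0∞,
    ∑' j : ℤ, (if (2 : ℝ≥0∞) ^ j < 25 * M then psi (2 ^ (j + 4)) δ M else 0) ≤ K := by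
  have hθ : (2⁻¹ : ℝ≥0∞) ^ δ < 1 := ENNReal.rpow_lt_one (by norm_num) hδ
  refine ⟨800 * (1 - 2⁻¹ ^ δ)⁻¹, ENNReal.mul_ne_top (by norm_num)
    (ENNReal.inv_ne_top.2 (tsub_pos_of_lt hθ).ne'), fun M => ?_⟩
  rcases eq_or_ne M 0 with rfl | hM0
  · simp
  rcases eq_or_ne M ⊤ with rfl | hM1
  · simp [psi, hδ]
  obtain ⟨j0, h1, h2⟩ := ENNReal.exists_mem_Ioc_zpow (x := 25 * M) (y := 2)
    (mul_ne_zero (by norm_num) hM0) (ENNReal.mul_ne_top (by norm_num) hM1) (by norm_num)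
    (by norm_num)
  have hinj : Function.Injective fun i : ℕ => j0 - i := fun a b h => by
    simpa using h
  rw [← hinj.tsum_eq, ← ENNReal.tsum_geometric, ← ENNReal.tsum_mul_left]
  · refine ENNReal.tsum_le_tsum fun i => ?_
    split_ifs
    swap
    · exact zero_le
    have h3 : 2 ^ (j0 - i + 4) / M ≤ 800 * 2⁻¹ ^ i := by
      refine ENNReal.div_le_of_le_mul ?_
      have e : (2 : ℝ≥0∞) ^ (j0 - i + 4) = 16 * 2⁻¹ ^ i * 2 ^ j0 := by
        rw [z_add, sub_eq_add_neg, z_add, ENNReal.zpow_neg, zpow_natCast, ENNReal.inv_pow]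
        have : (2 : ℝ≥0∞) ^ (4 : ℤ) = 16 := by norm_num
        rw [this]; ring
      calc _ ≤ 16 * 2⁻¹ ^ i * (25 * M) := by rw [e]; gcongr
        _ = 400 * 2⁻¹ ^ i * M := by ring
        _ ≤ _ := by gcongr; norm_num
    calc _ ≤ (800 * 2⁻¹ ^ i : ℝ≥0∞) ^ δ :=
          (min_le_right _ _).trans (ENNReal.rpow_le_rpow h3 hδ.le)
      _ = 800 ^ δ * (2⁻¹ ^ δ) ^ i := by
          rw [ENNReal.mul_rpow_of_nonneg _ _ hδ.le, ← ENNReal.rpow_natCast, ← ENNReal.rpow_natCast,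
            ← ENNReal.rpow_mul, ← ENNReal.rpow_mul, mul_comm δ]
      _ ≤ _ := by
          gcongr
          simpa using ENNReal.rpow_le_rpow_of_exponent_le (x := 800) (by norm_num) hδ1
  · intro j hj
    have h3 : (2 : ℝ≥0∞) ^ j < 25 * M := by
      by_contra h; exact hj (if_neg h)
    have h4 : j ≤ j0 := by
      by_contra h
      exact absurd (h3.trans_le h2) (not_lt.2 (ENNReal.zpow_le_of_le (by norm_num) (by omega)))
    exact ⟨(j0 - j).toNat, by simp only; omega⟩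

end GI

open GI

theorem stGK (h2 : StA2) (_h5 : StA5) (_h8 : StA8) (h0 : StG0) : StGK := by
  intro n hn δ d hδ hδ1 hd
  obtain ⟨K, hK, hw⟩ := cellweak hn h2 h0
  obtain ⟨K', hK', hs⟩ := psi_sum hδ hδ1
  obtain ⟨-, -, C, L, hG0⟩ := h0 n hn
  have hn' : (3 : ℝ) ≤ n := by exact_mod_cast hn
  have d0 : (d : ℝ≥0∞) ≠ 0 := by exact_mod_cast hd.ne'
  obtain ⟨C', hC'⟩ : ∃ C' : ℝ≥0∞, C' = max (C : ℝ≥0∞) 1 := ⟨_, rfl⟩
  have c0 : C' ≠ 0 := by rw [hC']; exact (lt_max_of_lt_right zero_lt_one).ne'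
  have c1 : C' ≠ ⊤ := by rw [hC']; exact (max_lt ENNReal.coe_lt_top ENNReal.one_lt_top).ne
  have hfin : (d : ℝ≥0∞)⁻¹ * K * (K' + C') ≠ ⊤ :=
    ENNReal.mul_ne_top (ENNReal.mul_ne_top (ENNReal.inv_ne_top.2 d0) hK)
      (ENNReal.add_ne_top.2 ⟨hK', c1⟩)
  refine ⟨((d : ℝ≥0∞)⁻¹ * K * (K' + C')).toNNReal, fun G ν k' hG hν hk => ?_⟩
  rw [ENNReal.coe_toNNReal hfin]
  have hdiv : ∀ X Y : ℝ≥0∞, d * X ≤ Y → X ≤ (d : ℝ≥0∞)⁻¹ * Y := fun X Y h => by
    calc X = (d : ℝ≥0∞)⁻¹ * (d * X) := by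
          rw [← mul_assoc, ENNReal.inv_mul_cancel d0 ENNReal.coe_ne_top, one_mul]
      _ ≤ _ := by gcongr
  have hmq := measurable_mq hG.meas
  constructor
  · let kj : ℤ → E n → ℝ≥0∞ := fun j x =>
      k' x * (if (2 : ℝ≥0∞) ^ j < 25 * mq G x then psi (2 ^ (j + 4)) δ (mq G x) else 0)
    have hkj : ∀ j, Measurable (kj j) := fun j =>
      hk.mul (Measurable.ite (measurableSet_lt measurable_const (hmq.const_mul _))
        ((measurable_psi _ _).comp hmq) measurable_const)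
    have h1 : ∀ j : ℤ, ((2 : ℝ≥0∞) ^ j) ^ n * volume (Un fun k z => Fj G j k z ∧ isK G k' δ d j k z)
        ≤ (d : ℝ≥0∞)⁻¹ * (K * ∫⁻ x, kj j x) := fun j => by
      refine hdiv _ _ (hw _ (hkj j) j _ d fun k z h => h.2.trans_le ?_)
      refine setLIntegral_mono' measurableSet_ball fun y hy => ?_
      have hr := rho_pos k
      have h3 := gq_le_gq hn G (x := ctr k z) (x' := y) (r := 2 * n * rho k) (r' := 10 * n * rho k)
        (K := 5) (by positivity)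
        (ball_sub (a := 8 * n * rho k) (by rwa [norm_sub_rev, ← dist_eq_norm]) (by linarith))
        (by linarith)
      have h4 : (2 : ℝ≥0∞) ^ j < 25 * mq G y := by
        refine h.1.1.trans_le (h3.trans ?_)
        gcongr
        · norm_num
        · exact gq_le_mq hn G y (by positivity)
      simp only [kj, if_pos h4, le_refl]
    calc _ ≤ ∑' j : ℤ, (d : ℝ≥0∞)⁻¹ * (K * ∫⁻ x, kj j x) := ENNReal.tsum_le_tsum h1
      _ = (d : ℝ≥0∞)⁻¹ * (K * ∫⁻ x, ∑' j : ℤ, kj j x) := by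
          rw [ENNReal.tsum_mul_left, ENNReal.tsum_mul_left,
            lintegral_tsum fun j => (hkj j).aemeasurable]
      _ ≤ (d : ℝ≥0∞)⁻¹ * (K * ∫⁻ x, (K' + C') * k' x) := by
          gcongr with x
          simp only [kj]
          rw [ENNReal.tsum_mul_left, mul_comm]
          gcongr
          exact (hs _).trans le_self_add
      _ = _ := by rw [lintegral_const_mul _ hk]; ring
  · intro j r
    have h1 := hw ((ball 0 r).indicator ν) (hν.indicator measurableSet_ball) j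
      (fun k z => Fj G j k z ∧ isN ν d j k z ∧ ball (ctr k z) (8 * n * rho k) ⊆ ball 0 r)
      (d * C'⁻¹) (fun k z h => by
        have h3 : sz j k ^ (1 / 2 : ℝ) ≤ C' := by
          have h4 : sz j k ≤ C' := hC' ▸ ((hG0 G hG).2.2.2.1 j k z h.1).1.trans (le_max_left _ _)
          refine (ENNReal.rpow_le_rpow h4 (by norm_num)).trans ?_
          simpa using ENNReal.rpow_le_rpow_of_exponent_le (x := C') (y := 1 / 2) (z := 1)
            (hC' ▸ le_max_right _ _) (by norm_num)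
        refine lt_of_le_of_lt ?_ (h.2.1.trans_le (setLIntegral_mono' measurableSet_ball
          fun y hy => by rw [indicator_of_mem (h.2.2 hy)]))
        calc _ ≤ d * C'⁻¹ * (sz j k ^ q1 n * C') := by rw [pow_split hn]; gcongr
          _ = d * sz j k ^ q1 n * (C'⁻¹ * C') := by ring
          _ = _ := by rw [ENNReal.inv_mul_cancel c0 c1, mul_one])
    rw [lintegral_indicator measurableSet_ball, mul_assoc] at h1
    have h3 := mul_le_mul_right (hdiv _ _ h1) C'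
    rw [← mul_assoc, ENNReal.mul_inv_cancel c0 c1, one_mul] at h3
    calc _ ≤ _ := h3
      _ = (d : ℝ≥0∞)⁻¹ * K * C' * ∫⁻ x in ball 0 r, ν x := by ring
      _ ≤ _ := by gcongr; exact le_add_self

theorem stGI (h2 : StA2) (_h5 : StA5) (h0 : StG0) (hL : StLE) : StGI := by
  intro n m hn Co
  obtain ⟨C₁, δ₀, hδ₀, hδ₀', hLE⟩ := hL n m hn Co
  obtain ⟨Cw, hw⟩ := (h2 n hn).2.2
  obtain ⟨hcell, -, C, L, hG0⟩ := h0 n hn
  have hn' : (3 : ℝ) ≤ n := by exact_mod_cast hn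
  refine ⟨4 ^ n * Cw * 16 * C₁ * (64 * n) ^ n, δ₀, hδ₀, fun δ hδ hδ1 => ?_⟩
  obtain ⟨c, hc, hLE⟩ := hLE δ hδ hδ1 (64 * n * C)
  refine ⟨c, hc, fun d hd J hJ hJδ U v G ν k' kf h hS j k z hF hK hN hB => ?_⟩
  have hG := hS.gd
  have hr := rho_pos k
  obtain ⟨-, -, g3, g4, -⟩ := hG0 G hG
  obtain ⟨g5, g6, -⟩ := g4 j k z hF
  have e16 : (2 : ℝ≥0∞) ^ (j + 4) = 16 * 2 ^ j := by
    have : (2 : ℝ≥0∞) ^ (4 : ℤ) = 16 := by norm_num
    rw [z_add, this, mul_comm]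
  have e1 : ENNReal.ofReal (4 * n * rho k) * 2 ^ (j + 4) = 64 * n * sz j k := by
    rw [e16, sz_eq, ENNReal.ofReal_mul (by positivity), ENNReal.ofReal_mul (by positivity)]
    simp only [ENNReal.ofReal_ofNat, ENNReal.ofReal_natCast]
    ring
  have e2 : 2 * (4 * n * rho k) = 8 * n * rho k := by ring
  have e3 : 4 * n * rho k / 2 = 2 * n * rho k := by ring
  have hsz : sz j k ≤ 64 * n * sz j k := by
    refine le_mul_of_one_le_left' ?_
    exact_mod_cast (by omega : 1 ≤ 64 * n)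
  have hd' : (d : ℝ≥0∞) ≤ c := by exact_mod_cast hd
  have key := hLE U v G ν k' kf h hS (ctr k z) (4 * n * rho k) (2 ^ (j + 4)) (by positivity)
    (e2 ▸ hB) g6 (by rw [e3, e16]; gcongr; exact hF.1.le) (by rw [e1]; push_cast; gcongr)
    (by
      rw [e1, e2]
      refine (not_lt.1 hN).trans ?_
      have := (q1_pos hn).le
      gcongr)
    (by
      rw [e1, e2]
      refine (not_lt.1 hK).trans ?_
      gcongr)
  rw [e1] at key
  set B := ball (ctr k z) (4 * n * rho k) with hBdef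
  set G' := B.indicator G with hG'
  have hm : Measurable G' := hG.meas.indicator measurableSet_ball
  set a : ℝ≥0∞ := 2 ^ (j - 2) with ha
  have e4 : ∀ i : ℕ, (2 : ℝ≥0∞) ^ (j + i) = 4 * (a * 2 ^ i) := fun i => by
    have : (2 : ℝ≥0∞) ^ (2 : ℤ) = 4 := by norm_num
    rw [ha, ← z_add_nat, ← this, ← z_add]
    congr 1; ring
  have hsub : ∀ i : ℕ, cell k z ∩ Oj G (j + i) ⊆ {x | a * 2 ^ i < mq G' x} := by
    rintro i x ⟨hx, k₁, hk₁⟩
    have hx' : idx k x = z := hx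
    have hkk := g3 j (j + i) k k₁ x (by omega) (hx' ▸ hF) hk₁
    have b1 := ((hcell k z).2.2.2 x hx).1
    have b2 := ((hcell k₁ (idx k₁ x)).2.2.2 x rfl).1
    have hr1 := rho_pos k₁
    have b3 : n * rho k₁ ≤ n * rho k := by gcongr; exact rho_anti hkk
    have b4 := gq_le_gq hn G (x := ctr k₁ (idx k₁ x)) (x' := x) (r := 2 * n * rho k₁)
      (r' := 3 * n * rho k₁) (K := 2) (by positivity)
      (ball_sub (by rwa [norm_sub_rev]) (by linarith)) (by nlinarith)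
    have b5 : gq G x (3 * n * rho k₁) ≤ gq G' x (3 * n * rho k₁) := by
      have hq := q1_pos hn
      refine ENNReal.rpow_le_rpow (av_mono fun y hy => ?_) (by positivity)
      rw [hG', indicator_of_mem (ball_sub b1 (by linarith) hy)]
    have b6 : 4 * (a * 2 ^ i) < 4 * mq G' x := by
      rw [← e4]
      refine hk₁.trans_le (b4.trans ?_)
      gcongr
      · norm_num
      · exact b5.trans (gq_le_mq hn G' x (by positivity))
    exact lt_of_mul_lt_mul_left' b6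
  let F : ℕ → E n → ℝ≥0∞ := fun i x =>
    if a * 2 ^ i < 2 * G' x then (a * 2 ^ i) ^ (1 / 2 : ℝ) * G' x ^ q1 n else 0
  have hF' : ∀ i, Measurable (F i) := fun i =>
    Measurable.ite (measurableSet_lt measurable_const (hm.const_mul _))
      ((hm.pow_const _).const_mul _) measurable_const
  have h1 : ∀ i : ℕ, ((2 : ℝ≥0∞) ^ (j + i)) ^ n * volume (cell k z ∩ Oj G (j + i)) ≤
      4 ^ n * Cw * ∫⁻ x, F i x := fun i => by
    have b1 := (hw G' hm (a * 2 ^ i)).1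
    have b2 : ∫⁻ x, F i x =
        (a * 2 ^ i) ^ (1 / 2 : ℝ) * ∫⁻ x in {x | a * 2 ^ i < 2 * G' x}, G' x ^ q1 n := by
      rw [← lintegral_const_mul _ (hm.pow_const _),
        ← lintegral_indicator (measurableSet_lt measurable_const (hm.const_mul _))]
      exact lintegral_congr fun x => by simp only [F, indicator_apply, mem_ofPred_eq]
    calc _ ≤ (4 * (a * 2 ^ i)) ^ n * volume {x | a * 2 ^ i < mq G' x} := by
          rw [e4]; gcongr; exact hsub i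
      _ = 4 ^ n * (a * 2 ^ i) ^ (1 / 2 : ℝ) *
          ((a * 2 ^ i) ^ q1 n * volume {x | a * 2 ^ i < mq G' x}) := by
          rw [mul_pow, pow_split hn (a * 2 ^ i)]; ring
      _ ≤ 4 ^ n * (a * 2 ^ i) ^ (1 / 2 : ℝ) *
          (Cw * ∫⁻ x in {x | a * 2 ^ i < 2 * G' x}, G' x ^ q1 n) := by gcongr
      _ = _ := by rw [b2]; ring
  have hP : Measurable fun x => Phi n (2 ^ (j + 4)) δ 0 (G x) := by
    unfold Phi Pd
    exact ((((hG.meas.const_add _).pow_const _).mul hG.meas).mul hG.meas).mul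
      ((measurable_psi _ _).comp hG.meas)
  calc _ ≤ ∑ i ∈ Finset.Ico J (2 * J), 4 ^ n * Cw * ∫⁻ x, F i x := Finset.sum_le_sum fun i _ => h1 i
    _ = 4 ^ n * Cw * ∫⁻ x, ∑ i ∈ Finset.Ico J (2 * J), F i x := by
        rw [← Finset.mul_sum, lintegral_finsetSum _ fun i _ => hF' i]
    _ ≤ 4 ^ n * Cw * ∫⁻ x, B.indicator (fun x => 16 * Phi n (2 ^ (j + 4)) δ 0 (G x)) x := by
        gcongr with x
        by_cases hx : x ∈ B
        · simp only [F, hG', indicator_of_mem hx]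
          exact pt hn (z_ne_zero _) (z_ne_top _) (ENNReal.zpow_le_of_le (by norm_num) (by omega))
            hδ.le (by linarith) hJδ (by rw [← hS.normU]; exact enorm_ne_top)
        · simp [F, hG', indicator_of_notMem hx]
    _ ≤ 4 ^ n * Cw * (16 * (C₁ * (64 * n * sz j k) ^ n)) := by
        rw [lintegral_indicator measurableSet_ball, lintegral_const_mul _ hP]
        gcongr
    _ = _ := by push_cast; rw [mul_pow (64 * (n : ℝ≥0∞))]; ring

end Pool.Agent.P.MP_28243e_an
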