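import Pool.Agent.P.MP_28243e_an.GNa

/-! Total cost of the cells with large mass. -/

namespace Pool.Agent.P.MP_28243e_an

open Set MeasureTheory Metric Filter Topology ENNReal
open scoped NNReal Classical

namespace GN

variable {n m : ℕ}

theorem two_mul_le_pow (hn : 3 ≤ n) : (2 : ℝ) * n ≤ 2 ^ n := by
  have h : ∀ a : ℕ, 2 * (a + 1) ≤ 2 ^ (a + 1) := by
    intro a
    have := Nat.lt_two_pow_self (n := a)
    rw [pow_succ]; omega
  obtain ⟨a, rfl⟩ : ∃ a, n = a + 1 := ⟨n - 1, by omega⟩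
  exact_mod_cast h a

/-- The choice of the transport set of one cell. -/
theorem choose_set (hn : 3 ≤ n) {ν : E n → ℝ≥0∞} (hfin : ∫⁻ x, ν x < ⊤) {d CS : ℝ≥0} (hd : 0 < d)
    {r : ℝ} {j k : ℤ} {z : Fin n → ℤ} (cP : ℝ≥0∞) (ahf cst : E n → ℝ≥0∞)
    (hN : isN ν d j k z) (hB : ball (ctr k z) (2 ^ (n + 12) * rho k) ⊆ ball 0 r)
    (hc1 : cP ≤ sz j k ^ n)
    (hSH : ∀ y, ‖y - ctr k z‖ ≤ 3 / 4 * rho (k - (n + 4)) →
      ball y (rho (k - (n + 4) - 3)) ⊆ ball 0 r → ahf y ≤ CS * sz j k ∧ cP ≤ CS * cst y) :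
    ∃ S : Set (E n), MeasurableSet S ∧ S ⊆ ball 0 r ∧ ∫⁻ x in S, ν x ≠ 0 ∧
      ∀ y ∈ S, ‖y - ctr k z‖ ≤ (12 * 2 ^ n : ℕ) * rho k ∧ cP / ∫⁻ x in S, ν x ≤
        (if ball y (rho (k - (n + 4) - 6)) ⊆ ball 0 r ∧
            ms ν y (k - (n + 4) - 6) ≤ 2 * ms ν y (k - (n + 4)) ∧
            ahf y ^ q1 n ≤ ((CS : ℝ≥0∞) ^ q1 n / d) * ms ν y (k - (n + 4)) then
          2 * CS * (cst y / ms ν y (k - (n + 4))) else 0) +
        (d : ℝ≥0∞)⁻¹ * ((d : ℝ≥0∞)⁻¹) ^ (1 / (2 * q1 n)) *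
          (if 2 * ms ν y (k - (n + 4) + 1) < ms ν y (k - (n + 4) - 7) ∧
              ms ν y (k - (n + 4) - 7) ≤ ∫⁻ x in ball 0 r, ν x then
            ms ν y (k - (n + 4) - 7) ^ (1 / (2 * q1 n)) else 0) := by
  set kb : ℤ := k - (n + 4) with hkb
  have hρ := rho_pos k
  have hq := q1_pos hn
  have hP : (0 : ℝ) < 2 ^ n := by positivity
  have hPρ : 0 < 2 ^ n * rho k := by positivity
  have h2n := two_mul_le_pow hn
  have e0 : rho kb = 16 * (2 ^ n * rho k) := by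
    have := rho_sub_nat k (n + 4)
    push_cast at this
    rw [hkb, this]; ring
  have e1 : rho (kb + 1) = 8 * (2 ^ n * rho k) := by rw [rho_succ, e0]; ring
  have e3 : rho (kb - 3) = 128 * (2 ^ n * rho k) := by
    have := rho_sub_nat kb 3
    push_cast at this
    rw [this, e0]; ring
  have e6 : rho (kb - 6) = 1024 * (2 ^ n * rho k) := by
    have := rho_sub_nat kb 6
    push_cast at this
    rw [this, e0]; ring
  have e7 : rho (kb - 7) = 2048 * (2 ^ n * rho k) := by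
    have := rho_sub_nat kb 7
    push_cast at this
    rw [this, e0]; ring
  have e12 : (2 : ℝ) ^ (n + 12) * rho k = 4096 * (2 ^ n * rho k) := by ring
  have e8 : 8 * n * rho k ≤ 4 * (2 ^ n * rho k) := by nlinarith
  have eM : ((12 * 2 ^ n : ℕ) : ℝ) * rho k = 12 * (2 ^ n * rho k) := by push_cast; ring
  have hsub : ∀ y s, ‖y - ctr k z‖ + s ≤ 4096 * (2 ^ n * rho k) → ball y s ⊆ ball 0 r := by
    intro y s h
    refine subset_trans (ball_subset_ball' ?_) hB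
    rw [dist_eq_norm, e12]; linarith
  have hd0 : (d : ℝ≥0∞) ≠ 0 := by exact_mod_cast hd.ne'
  have hdt : (d : ℝ≥0∞) ≠ ⊤ := ENNReal.coe_ne_top
  set NB := ∫⁻ x in ball (ctr k z) (8 * n * rho k), ν x with hNB
  have hN' : d * sz j k ^ q1 n < NB := hN
  have hNB0 : NB ≠ 0 := (lt_of_le_of_lt zero_le hN').ne'
  have hNBms : ∀ (y : E n) (l : ℤ), ‖y - ctr k z‖ + 4 * (2 ^ n * rho k) ≤ rho l → NB ≤ ms ν y l := by
    intro y l h
    refine lintegral_mono_set (ball_subset_ball' ?_)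
    rw [dist_comm, dist_eq_norm]; linarith
  have hmsfin : ∀ (y : E n) (l : ℤ), ms ν y l ≠ ⊤ := fun y l =>
    (lt_of_le_of_lt (setLIntegral_le_lintegral _ _) hfin).ne
  by_cases hA : ∃ y₀ ∈ ball (ctr k z) (8 * n * rho k), ms ν y₀ (kb - 7) ≤ 2 * ms ν y₀ (kb + 1)
  · obtain ⟨y₀, hy₀, hdbl⟩ := hA
    rw [mem_ball, dist_eq_norm] at hy₀
    have hS0 : ms ν y₀ (kb + 1) ≠ 0 := by
      intro h
      rw [h, mul_zero] at hdbl
      exact hNB0 (le_antisymm (le_trans (hNBms y₀ (kb - 7) (by linarith)) hdbl) zero_le)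
    refine ⟨ball y₀ (rho (kb + 1)), measurableSet_ball, hsub _ _ (by linarith), hS0, ?_⟩
    intro y hy
    rw [mem_ball, dist_eq_norm] at hy
    have hyc : ‖y - ctr k z‖ ≤ 12 * (2 ^ n * rho k) := by
      have := norm_sub_le_norm_sub_add_norm_sub y y₀ (ctr k z)
      linarith
    refine ⟨by rw [eM]; exact hyc, le_trans ?_ le_self_add⟩
    obtain ⟨ha, hc⟩ := hSH y (by linarith) (hsub _ _ (by linarith))
    have h1 : ms ν y (kb - 6) ≤ ms ν y₀ (kb - 7) := ms_mono (by linarith)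
    have h2 : ms ν y₀ (kb + 1) ≤ ms ν y kb := ms_mono (by rw [norm_sub_rev]; linarith)
    have h3 : ms ν y kb ≤ ms ν y (kb - 6) := ms_anti ν y (by omega)
    have h4 : ms ν y kb ≤ 2 * ms ν y₀ (kb + 1) := h3.trans (h1.trans hdbl)
    have h5 : ahf y ^ q1 n ≤ ((CS : ℝ≥0∞) ^ q1 n / d) * ms ν y kb := by
      calc ahf y ^ q1 n ≤ (CS * sz j k) ^ q1 n := ENNReal.rpow_le_rpow ha hq.le
        _ = ((CS : ℝ≥0∞) ^ q1 n / d) * (d * sz j k ^ q1 n) := by
            rw [ENNReal.mul_rpow_of_nonneg _ _ hq.le, ← mul_assoc,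
              ENNReal.div_mul_cancel hd0 hdt]
        _ ≤ _ := by
            gcongr
            exact hN'.le.trans (hNBms y kb (by linarith))
    rw [if_pos ⟨hsub _ _ (by linarith), h1.trans (hdbl.trans (by gcongr)), h5⟩]
    have h6 : (ms ν y₀ (kb + 1))⁻¹ ≤ 2 * (ms ν y kb)⁻¹ := by
      calc (ms ν y₀ (kb + 1))⁻¹ = 2 * (2 * ms ν y₀ (kb + 1))⁻¹ := by
            rw [ENNReal.mul_inv (by simp) (by simp), ← mul_assoc,
              ENNReal.mul_inv_cancel (by norm_num) (by norm_num), one_mul]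
        _ ≤ _ := by gcongr
    calc cP / ∫⁻ x in ball y₀ (rho (kb + 1)), ν x = cP * (ms ν y₀ (kb + 1))⁻¹ := div_eq_mul_inv _ _
      _ ≤ (CS * cst y) * (2 * (ms ν y kb)⁻¹) := by gcongr
      _ = _ := by rw [div_eq_mul_inv]; ring
  · push Not at hA
    refine ⟨ball (ctr k z) (8 * n * rho k), measurableSet_ball,
      hsub _ _ (by rw [sub_self, norm_zero]; linarith), hNB0, ?_⟩
    intro y hy
    have hnd := hA y hy
    rw [mem_ball, dist_eq_norm] at hy
    refine ⟨by rw [eM]; linarith, le_trans ?_ le_add_self⟩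
    rw [if_pos ⟨hnd, lintegral_mono_set (hsub _ _ (by linarith))⟩]
    have hs0 := sz_ne_zero j k
    have hst := sz_ne_top j k
    have hγ : 0 < 1 / (2 * q1 n) := by positivity
    have h1 : sz j k ^ n = sz j k ^ q1 n * (sz j k ^ q1 n) ^ (1 / (2 * q1 n)) := by
      rw [← ENNReal.rpow_mul, ← ENNReal.rpow_add _ _ hs0 hst, ← ENNReal.rpow_natCast]
      congr 1
      field_simp
      unfold q1
      ring
    have h2 : sz j k ^ q1 n ≤ (d : ℝ≥0∞)⁻¹ * NB := by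
      calc sz j k ^ q1 n = (d : ℝ≥0∞)⁻¹ * (d * sz j k ^ q1 n) := by
            rw [← mul_assoc, ENNReal.inv_mul_cancel hd0 hdt, one_mul]
        _ ≤ _ := by gcongr
    have h3 : NB ≤ ms ν y (kb - 7) := hNBms y _ (by linarith)
    refine ENNReal.div_le_of_le_mul ?_
    calc cP ≤ sz j k ^ q1 n * (sz j k ^ q1 n) ^ (1 / (2 * q1 n)) := h1 ▸ hc1
      _ ≤ ((d : ℝ≥0∞)⁻¹ * NB) * ((d : ℝ≥0∞)⁻¹ * ms ν y (kb - 7)) ^ (1 / (2 * q1 n)) := by
          gcongr
          exact h2.trans (by gcongr)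
      _ = _ := by
          rw [ENNReal.mul_rpow_of_nonneg _ _ hγ.le]; ring

theorem un_le (A : Set (E n)) (p : ℤ → (Fin n → ℤ) → Prop) [∀ k z, Decidable (p k z)] :
    volume (A ∩ Un p) ≤
      ∑' q : ℤ × (Fin n → ℤ), if p q.1 q.2 then volume (A ∩ cell q.1 q.2) else 0 := by
  have hsub : A ∩ Un p ⊆
      ⋃ q : ℤ × (Fin n → ℤ), if p q.1 q.2 then A ∩ cell q.1 q.2 else ∅ := by
    rintro x ⟨hx, k, hk⟩
    refine mem_iUnion.2 ⟨(k, idx k x), ?_⟩
    rw [if_pos hk]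
    exact ⟨hx, rfl⟩
  refine le_trans (measure_mono hsub) (le_trans (measure_iUnion_le _) (le_of_eq ?_))
  congr 1
  funext q
  split_ifs <;> simp

theorem final_bound (A B N K : ℝ≥0∞) :
    A * (1 + N) * N + B * K ≤ (2 * A + B) * (1 + N ^ 2 + K) := by
  have h1 : N ≤ 1 + N ^ 2 := by
    rcases le_total N 1 with h | h
    · exact h.trans le_self_add
    · refine le_trans ?_ le_add_self
      calc N = N * 1 := (mul_one N).symm
        _ ≤ N * N := by gcongr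
        _ = N ^ 2 := (sq N).symm
  have h2 : (1 + N) * N ≤ 2 * (1 + N ^ 2 + K) := by
    calc (1 + N) * N = N + N ^ 2 := by ring
      _ ≤ (1 + N ^ 2 + K) + (1 + N ^ 2 + K) :=
          add_le_add (h1.trans le_self_add) (le_trans le_add_self le_self_add)
      _ = _ := (two_mul _).symm
  calc A * (1 + N) * N + B * K = A * ((1 + N) * N) + B * K := by ring
    _ ≤ A * (2 * (1 + N ^ 2 + K)) + B * (1 + N ^ 2 + K) := by
        gcongr
        exact le_add_self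
    _ = _ := by ring

end GN

open GN in
theorem stGN (_hA5 : StA5) (hG0 : StG0) (hNY : StNY) (hSH : StSH) : StGN := by
  intro n m hn Co
  obtain ⟨c, δ₀, hc, hδ₀, hδ4, hNY⟩ := hNY n m hn Co
  obtain ⟨c', J₀, hc', hc'1, hSH⟩ := hSH n m hn c hc
  refine ⟨c', J₀, δ₀, hc', hc'1, hδ₀, fun J hJ => ?_⟩
  obtain ⟨l₀, d₀, CS, hd₀, hSH⟩ := hSH J hJ
  refine ⟨d₀, hd₀, fun d hd hdd δ hδ hδδ => ?_⟩
  obtain ⟨hcell, -, CG, L, hG0⟩ := hG0 n hn
  have hq := q1_pos hn
  have hq1 := one_lt_q1 hn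
  have hd0 : (d : ℝ≥0∞) ≠ 0 := by exact_mod_cast hd.ne'
  have hΛ : (CS : ℝ≥0∞) ^ q1 n / d ≠ ⊤ :=
    ENNReal.div_ne_top (ENNReal.rpow_ne_top_of_nonneg hq.le ENNReal.coe_ne_top) hd0
  obtain ⟨CN, hNY⟩ := hNY δ hδ hδδ ((CS : ℝ≥0∞) ^ q1 n / d).toNNReal l₀
  rw [ENNReal.coe_toNNReal hΛ] at hNY
  have hγ : 0 < 1 / (2 * q1 n) := by positivity
  obtain ⟨Cg, hgeo⟩ := geo hγ (by rw [div_le_one (by positivity)]; linarith)
  set D : ℝ≥0∞ := (d : ℝ≥0∞)⁻¹ * ((d : ℝ≥0∞)⁻¹) ^ (1 / (2 * q1 n)) with hD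
  have hDt : D ≠ ⊤ := ENNReal.mul_ne_top (ENNReal.inv_ne_top.2 hd0)
    (ENNReal.rpow_ne_top_of_nonneg hγ.le (ENNReal.inv_ne_top.2 hd0))
  set K : ℝ≥0∞ := (((2 * (12 * 2 ^ n) + 1) ^ n : ℕ) : ℝ≥0∞) * ((2 * L + 1 : ℕ) : ℝ≥0∞) with hK
  have hKt : K ≠ ⊤ := ENNReal.mul_ne_top (ENNReal.natCast_ne_top _) (ENNReal.natCast_ne_top _)
  set A : ℝ≥0∞ := K * (2 * CS * CN + D * Cg) with hA
  set B : ℝ≥0∞ := K * (2 * CS * CN) with hB
  have hAt : A ≠ ⊤ := by rw [hA]; finiteness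
  have hBt : B ≠ ⊤ := by rw [hB]; finiteness
  refine ⟨(2 * A + B * CN).toNNReal, fun U v G ν k' kf h hS r hr => ?_⟩
  rw [ENNReal.coe_toNNReal (by finiteness)]
  obtain ⟨Ψ, hΨm, hΨ, hNY⟩ := hNY U v G ν k' kf h hS
  obtain ⟨-, -, -, hF, -⟩ := hG0 G hS.gd
  set N := ∫⁻ x in ball 0 r, ν x with hN
  have hNt : N ≠ ⊤ := (lt_of_le_of_lt (setLIntegral_le_lintegral _ _) hS.finν).ne
  set adm : ℤ → ℤ → (Fin n → ℤ) → Prop := fun j k z => Fj G j k z ∧ isN ν d j k z ∧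
    ball (ctr k z) (2 ^ (n + 12) * rho k) ⊆ ball 0 r with hadm
  set cP : (ℤ × (Fin n → ℤ)) × ℤ → ℝ≥0∞ := fun P => ((2 : ℝ≥0∞) ^ P.2) ^ n *
    if adm P.2 P.1.1 P.1.2 then volume (bad G ν k' δ d c' J P.2 ∩ cell P.1.1 P.1.2) else 0 with hcP
  set g : E n → ℤ → ℝ≥0∞ := fun y kb =>
    (if ball y (rho (kb - 6)) ⊆ ball 0 r ∧ ms ν y (kb - 6) ≤ 2 * ms ν y kb ∧
        ah G y kb ^ q1 n ≤ ((CS : ℝ≥0∞) ^ q1 n / d) * ms ν y kb then
      2 * CS * (cost c δ l₀ U G ν k' y kb / ms ν y kb) else 0) +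
    D * (if 2 * ms ν y (kb + 1) < ms ν y (kb - 7) ∧ ms ν y (kb - 7) ≤ N then
      ms ν y (kb - 7) ^ (1 / (2 * q1 n)) else 0) with hg
  have hex : ∀ P : (ℤ × (Fin n → ℤ)) × ℤ, ∃ S : Set (E n), MeasurableSet S ∧ S ⊆ ball 0 r ∧
      (cP P ≠ 0 → ∫⁻ x in S, ν x ≠ 0) ∧ ∀ y ∈ S, Fj G P.2 P.1.1 P.1.2 ∧
        ‖y - ctr P.1.1 P.1.2‖ ≤ (12 * 2 ^ n : ℕ) * rho P.1.1 ∧
        cP P / ∫⁻ x in S, ν x ≤ g y (P.1.1 - (n + 4)) := by
    rintro ⟨⟨k, z⟩, j⟩
    by_cases hP : adm j k z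
    · have ecP : cP ((k, z), j) =
          ((2 : ℝ≥0∞) ^ j) ^ n * volume (bad G ν k' δ d c' J j ∩ cell k z) := by
        simp only [hcP, if_pos hP]
      obtain ⟨S, h1, h2, h3, h4⟩ := choose_set hn hS.finν (CS := CS) hd (cP ((k, z), j))
        (fun y => ah G y (k - (n + 4))) (fun y => cost c δ l₀ U G ν k' y (k - (n + 4)))
        hP.2.1 hP.2.2
        (by
          rw [ecP, ← sz_pow, ← (hcell k z).2.1]
          gcongr
          exact inter_subset_right)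
        (by
          intro y hy1 hy2
          rw [ecP]
          exact hSH d hdd δ hδ (hδδ.trans hδ4) Co U v G ν k' kf h hS j k z y hP.1 hy1
            (hy2.trans (ball_subset_ball hr)))
      exact ⟨S, h1, h2, fun _ => h3, fun y hy => ⟨hP.1, (h4 y hy).1, (h4 y hy).2⟩⟩
    · refine ⟨∅, MeasurableSet.empty, empty_subset _, fun h0 => absurd ?_ h0, fun y hy => hy.elim⟩
      simp only [hcP, if_neg hP, mul_zero]
  choose S hSm hSr hS0 hSy using hex
  have hSfin : ∀ P, ∫⁻ x in S P, ν x ≠ ⊤ := fun P =>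
    (lt_of_le_of_lt (setLIntegral_le_lintegral _ _) hS.finν).ne
  set F : ℤ → E n → ℝ≥0∞ := fun k x => k' x * Ψ k x with hFdef
  have hFm : ∀ k, Measurable (F k) := fun k => hS.mk'.mul (hΨm k)
  set R : ℤ → E n → ℝ≥0∞ := fun k y =>
    (∫⁻ x in ball y (rho (k - 1)), F k x) / ms ν y (k - 2) with hR
  have hRm : ∀ k, Measurable (R k) := fun k =>
    (measurable_lint_ball (hFm k) _).div (measurable_lint_ball hS.mν _)
  -- the sum over scales seen from one point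
  have hgsum : ∀ y, ∑' kb, g y kb ≤
      (2 * CS * CN + D * Cg) * (1 + N) + 2 * CS * CN * ∑' k, R k y := by
    intro y
    simp only [hg]
    rw [ENNReal.tsum_add, ENNReal.tsum_mul_left]
    set T : Set ℤ := {kb | ball y (rho (kb - 6)) ⊆ ball 0 r ∧ ms ν y (kb - 6) ≤ 2 * ms ν y kb ∧
        ah G y kb ^ q1 n ≤ ((CS : ℝ≥0∞) ^ q1 n / d) * ms ν y kb} with hT
    have h1 := hNY r y T hr (fun k hk => hk)
    rw [tsum_subtype T (fun k => cost c δ l₀ U G ν k' y k / ms ν y k)] at h1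
    have h2 : ∑' kb, (if ball y (rho (kb - 6)) ⊆ ball 0 r ∧ ms ν y (kb - 6) ≤ 2 * ms ν y kb ∧
        ah G y kb ^ q1 n ≤ ((CS : ℝ≥0∞) ^ q1 n / d) * ms ν y kb then
          2 * CS * (cost c δ l₀ U G ν k' y kb / ms ν y kb) else 0) =
        2 * CS * ∑' kb, T.indicator (fun k => cost c δ l₀ U G ν k' y k / ms ν y k) kb := by
      rw [← ENNReal.tsum_mul_left]
      congr 1
      funext kb
      by_cases hk : kb ∈ T
      · rw [indicator_of_mem hk]
        exact if_pos hk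
      · rw [indicator_of_notMem hk, mul_zero]
        exact if_neg hk
    rw [h2]
    have h3 := hgeo (ms ν y) N (ms_anti ν y) hNt
    calc _ ≤ 2 * CS * (CN * (1 + N) + CN * ∑' k, R k y) + D * (Cg * (1 + N)) := by
          gcongr
      _ = _ := by ring
  -- bounded overlap
  have hpt : ∀ y, ∑' P, (S P).indicator (fun _ => cP P / ∫⁻ x in S P, ν x) y ≤
      K * ∑' kb, g y kb := by
    intro y
    rw [ENNReal.tsum_prod', ENNReal.tsum_prod', ← tsum_shift (g y) (-(n + 4)),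
      ← ENNReal.tsum_mul_left]
    refine ENNReal.tsum_le_tsum fun k => ?_
    obtain ⟨s, hs, hsm⟩ := near_corners (12 * 2 ^ n) y k
    rw [← sub_eq_add_neg, hK, ← hs, mul_assoc]
    refine tsum_le_card _ s _ (fun z hz => ?_) fun z => ?_
    · refine ENNReal.tsum_eq_zero.2 fun j => indicator_of_notMem (fun hy => hz ?_) _
      exact hsm z (hSy ((k, z), j) y hy).2.1
    · have hb : ∀ j, (S ((k, z), j)).indicator
          (fun _ => cP ((k, z), j) / ∫⁻ x in S ((k, z), j), ν x) y ≤ g y (k - (n + 4)) := by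
        intro j
        by_cases hy : y ∈ S ((k, z), j)
        · rw [indicator_of_mem hy]
          exact (hSy _ y hy).2.2
        · rw [indicator_of_notMem hy]
          exact zero_le
      by_cases hj : ∃ j₀, Fj G j₀ k z
      · obtain ⟨j₀, hj₀⟩ := hj
        have hcard : (Finset.Icc (j₀ - L) (j₀ + L)).card = 2 * L + 1 := by
          rw [Int.card_Icc]; omega
        rw [← hcard]
        refine tsum_le_card _ _ _ (fun j hj => ?_) hb
        refine indicator_of_notMem (fun hy => hj ?_) _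
        have hFj : Fj G j k z := (hSy ((k, z), j) y hy).1
        have a1 := (hF j k z hFj).2.2 j₀ hj₀
        have a2 := (hF j₀ k z hj₀).2.2 j hFj
        rw [Finset.mem_Icc]
        omega
      · refine le_trans (le_of_eq (ENNReal.tsum_eq_zero.2 fun j => ?_)) zero_le
        exact indicator_of_notMem (fun hy => hj ⟨j, (hSy ((k, z), j) y hy).1⟩) _
  have hpt2 : ∀ y, ν y * ∑' P, (S P).indicator (fun _ => cP P / ∫⁻ x in S P, ν x) y ≤
      A * (1 + N) * (ball (0 : E n) r).indicator ν y + B * ∑' k, ν y * R k y := by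
    intro y
    by_cases hy : y ∈ ball (0 : E n) r
    · rw [indicator_of_mem hy, ENNReal.tsum_mul_left]
      calc _ ≤ ν y * (K * ((2 * CS * CN + D * Cg) * (1 + N) + 2 * CS * CN * ∑' k, R k y)) := by
            gcongr
            exact (hpt y).trans (by gcongr; exact hgsum y)
        _ = _ := by rw [hA, hB]; ring
    · have : ∑' P, (S P).indicator (fun _ => cP P / ∫⁻ x in S P, ν x) y = 0 :=
        ENNReal.tsum_eq_zero.2 fun P => indicator_of_notMem (fun h' => hy (hSr P h')) _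
      rw [this, mul_zero]
      exact zero_le
  have hlast : ∫⁻ y, ∑' k, ν y * R k y ≤ CN * ∫⁻ x, k' x := by
    rw [lintegral_tsum (f := fun k y => ν y * R k y) fun k => (hS.mν.mul (hRm k)).aemeasurable]
    calc ∑' k, ∫⁻ y, ν y * R k y ≤ ∑' k, ∫⁻ x, F k x :=
          ENNReal.tsum_le_tsum fun k => tonelli hS.mν (hFm k) k
      _ = ∫⁻ x, ∑' k, F k x := (lintegral_tsum fun k => (hFm k).aemeasurable).symm
      _ ≤ ∫⁻ x, CN * k' x := by
          refine lintegral_mono fun x => ?_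
          simp only [hFdef]
          rw [ENNReal.tsum_mul_left, mul_comm]
          gcongr
          exact hΨ x
      _ = _ := lintegral_const_mul _ hS.mk'
  calc _ ≤ ∑' j : ℤ, ∑' q : ℤ × (Fin n → ℤ), cP (q, j) := by
        refine ENNReal.tsum_le_tsum fun j => ?_
        simp only [hcP]
        rw [ENNReal.tsum_mul_left]
        gcongr
        exact un_le _ (adm j)
    _ = ∑' P, cP P := by rw [ENNReal.tsum_comm, ← ENNReal.tsum_prod']
    _ ≤ _ := transport volume ν hS.mν cP S hSm hS0 hSfin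
    _ ≤ ∫⁻ y, (A * (1 + N) * (ball (0 : E n) r).indicator ν y + B * ∑' k, ν y * R k y) :=
        lintegral_mono hpt2
    _ = A * (1 + N) * N + B * ∫⁻ y, ∑' k, ν y * R k y := by
        rw [lintegral_add_left ((hS.mν.indicator measurableSet_ball).const_mul _),
          lintegral_const_mul _ (hS.mν.indicator measurableSet_ball),
          lintegral_indicator measurableSet_ball, lintegral_const_mul' _ _ hBt]
    _ ≤ A * (1 + N) * N + B * CN * ∫⁻ x, k' x := by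
        rw [mul_assoc B]
        gcongr
    _ ≤ _ := final_bound _ _ _ _

end Pool.Agent.P.MP_28243e_an
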