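import Pool.Agent.P.MP_28243e_an.Basic

/-! Auxiliary lemmas for the total cost of the cells with large mass. -/

namespace Pool.Agent.P.MP_28243e_an.GN

open Set MeasureTheory Metric Filter Topology ENNReal
open scoped NNReal Classical

variable {n m : ℕ}

/-- Mass transport. -/
theorem transport {X ι : Type} [MeasurableSpace X] (μ : Measure X) [Countable ι]
    (ν : X → ℝ≥0∞) (hν : Measurable ν) (c : ι → ℝ≥0∞) (S : ι → Set X)
    (hS : ∀ i, MeasurableSet (S i)) (hpos : ∀ i, c i ≠ 0 → ∫⁻ x in S i, ν x ∂μ ≠ 0)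
    (hfin : ∀ i, ∫⁻ x in S i, ν x ∂μ ≠ ⊤) :
    ∑' i, c i ≤
      ∫⁻ y, ν y * ∑' i, (S i).indicator (fun _ => c i / ∫⁻ x in S i, ν x ∂μ) y ∂μ := by
  have h1 : ∀ i, c i ≤
      ∫⁻ y, ν y * (S i).indicator (fun _ => c i / ∫⁻ x in S i, ν x ∂μ) y ∂μ := by
    intro i
    by_cases hc : c i = 0
    · simp [hc]
    have : (fun y => ν y * (S i).indicator (fun _ => c i / ∫⁻ x in S i, ν x ∂μ) y) =
        (S i).indicator (fun y => ν y * (c i / ∫⁻ x in S i, ν x ∂μ)) := by
      funext y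
      by_cases hy : y ∈ S i <;> simp [hy]
    rw [this, lintegral_indicator (hS i), lintegral_mul_const _ hν,
      ENNReal.mul_div_cancel (hpos i hc) (hfin i)]
  calc ∑' i, c i ≤ ∑' i, ∫⁻ y, ν y *
        (S i).indicator (fun _ => c i / ∫⁻ x in S i, ν x ∂μ) y ∂μ := ENNReal.tsum_le_tsum h1
    _ = _ := by
      rw [← lintegral_tsum]
      · congr 1
        funext y
        rw [ENNReal.tsum_mul_left]
      · intro i
        exact (hν.mul (measurable_const.indicator (hS i))).aemeasurable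

theorem tsum_le_card {ι : Type} (f : ι → ℝ≥0∞) (s : Finset ι) (g : ℝ≥0∞)
    (h0 : ∀ i ∉ s, f i = 0) (h : ∀ i, f i ≤ g) : ∑' i, f i ≤ s.card * g := by
  rw [tsum_eq_sum h0]
  simpa [nsmul_eq_mul] using Finset.sum_le_card_nsmul s f g fun i _ => h i

theorem tele_fin (a : ℤ → ℝ≥0∞) (ha : Antitone a) (lo : ℤ) (M : ℕ) :
    ∑ i ∈ Finset.range M, (a (lo + i) - a (lo + i + 1)) + a (lo + M) ≤ a lo := by
  induction M with
  | zero => simp
  | succ M ih =>
    rw [Finset.sum_range_succ, add_assoc]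
    refine le_trans (add_le_add le_rfl ?_) ih
    have : (lo + ((M + 1 : ℕ) : ℤ)) = lo + M + 1 := by push_cast; ring
    rw [this, tsub_add_cancel_of_le (ha (by omega))]

theorem tele (a : ℤ → ℝ≥0∞) (ha : Antitone a) (A : ℝ≥0∞) (hA : ∀ k, a k ≤ A) :
    ∑' k, (a k - a (k + 1)) ≤ A := by
  rw [ENNReal.tsum_eq_iSup_sum]
  refine iSup_le fun s => ?_
  obtain ⟨lo, hlo⟩ := s.bddBelow
  obtain ⟨hi, hhi⟩ := s.bddAbove
  have hsub : s ⊆ (Finset.range (hi - lo + 1).toNat).image (fun i : ℕ => lo + i) := by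
    intro k hk
    have h1 := hlo (Finset.mem_coe.2 hk)
    have h2 := hhi (Finset.mem_coe.2 hk)
    refine Finset.mem_image.2 ⟨(k - lo).toNat, Finset.mem_range.2 (by omega), by omega⟩
  refine le_trans (Finset.sum_le_sum_of_subset hsub) ?_
  rw [Finset.sum_image (by intro i _ j _ h; simpa using h)]
  exact le_trans (le_trans le_self_add (tele_fin a ha lo _)) (hA lo)

theorem tsum_shift (f : ℤ → ℝ≥0∞) (s : ℤ) : ∑' k, f (k + s) = ∑' k, f k :=
  (Equiv.addRight s).tsum_eq f

theorem tele8 (a : ℤ → ℝ≥0∞) (ha : Antitone a) (A : ℝ≥0∞) (hA : ∀ k, a k ≤ A) :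
    ∑' k, (a (k - 7) - a (k + 1)) ≤ 8 * A := by
  have h1 : ∀ k, a (k - 7) - a (k + 1) ≤
      ∑ i ∈ Finset.range 8, (a (k + (i - 7)) - a (k + (i - 7) + 1)) := by
    intro k
    have h : ∀ M : ℕ, a (k - 7) - a (k - 7 + M) ≤
        ∑ i ∈ Finset.range M, (a (k + (i - 7)) - a (k + (i - 7) + 1)) := by
      intro M
      induction M with
      | zero => simp
      | succ M ih =>
        rw [Finset.sum_range_succ]
        refine le_trans (tsub_le_tsub_add_tsub (b := a (k - 7 + M))) (add_le_add ih ?_)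
        apply le_of_eq
        congr 2 <;> push_cast <;> ring
    have h8 := h 8
    have : k - 7 + ((8 : ℕ) : ℤ) = k + 1 := by push_cast; ring
    rwa [this] at h8
  refine le_trans (ENNReal.tsum_le_tsum h1) ?_
  rw [Summable.tsum_finsetSum (fun _ _ => ENNReal.summable)]
  have h2 : ∀ i ∈ Finset.range 8,
      ∑' k : ℤ, (a (k + ((i : ℤ) - 7)) - a (k + ((i : ℤ) - 7) + 1)) ≤ A := by
    intro i _
    rw [tsum_shift (fun k => a k - a (k + 1))]
    exact tele a ha A hA
  simpa [nsmul_eq_mul] using Finset.sum_le_card_nsmul _ _ A h2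

/-- Geometric decay along non-doubling scales. -/
theorem geo {γ : ℝ} (h0 : 0 < γ) (h1 : γ ≤ 1) : ∃ C : ℝ≥0, ∀ (a : ℤ → ℝ≥0∞) (N : ℝ≥0∞),
    Antitone a → N ≠ ⊤ →
    ∑' k, (if 2 * a (k + 1) < a (k - 7) ∧ a (k - 7) ≤ N then a (k - 7) ^ γ else 0) ≤
      C * (1 + N) := by
  set θ : ℝ≥0∞ := (2⁻¹ : ℝ≥0∞) ^ γ with hθ
  have hθ1 : θ < 1 := ENNReal.rpow_lt_one (by norm_num) h0
  have hne : 1 - θ ≠ 0 := (tsub_pos_of_lt hθ1).ne'
  have hnt : (1 - θ)⁻¹ ≠ ⊤ := ENNReal.inv_ne_top.2 hne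
  refine ⟨((1 - θ)⁻¹ * 8).toNNReal, fun a N ha hN => ?_⟩
  rw [ENNReal.coe_toNNReal (ENNReal.mul_ne_top hnt (by norm_num))]
  set b : ℤ → ℝ≥0∞ := fun k => min (a k) N ^ γ with hb
  have hba : Antitone b := fun k l hkl =>
    ENNReal.rpow_le_rpow (min_le_min (ha hkl) le_rfl) h0.le
  have hbN : ∀ k, b k ≤ 1 + N := by
    intro k
    refine le_trans (ENNReal.rpow_le_rpow (min_le_right _ _) h0.le) ?_
    rcases le_total N 1 with h | h
    · exact le_trans (ENNReal.rpow_le_one h h0.le) le_self_add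
    · refine le_trans ?_ le_add_self
      calc N ^ γ ≤ N ^ (1 : ℝ) := ENNReal.rpow_le_rpow_of_exponent_le h h1
        _ = N := ENNReal.rpow_one N
  have key : ∀ k, (if 2 * a (k + 1) < a (k - 7) ∧ a (k - 7) ≤ N then a (k - 7) ^ γ else 0) ≤
      (1 - θ)⁻¹ * (b (k - 7) - b (k + 1)) := by
    intro k
    split_ifs with h
    · obtain ⟨h2, h3⟩ := h
      have e1 : b (k - 7) = a (k - 7) ^ γ := by simp only [hb, min_eq_left h3]
      have e2 : b (k + 1) ≤ θ * a (k - 7) ^ γ := by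
        rw [hθ, ← ENNReal.mul_rpow_of_nonneg _ _ h0.le]
        refine ENNReal.rpow_le_rpow (le_trans (min_le_left _ _) ?_) h0.le
        calc a (k + 1) = 2⁻¹ * (2 * a (k + 1)) := by
              rw [← mul_assoc, ENNReal.inv_mul_cancel (by norm_num) (by norm_num), one_mul]
          _ ≤ 2⁻¹ * a (k - 7) := by gcongr
      have hfin : a (k - 7) ^ γ ≠ ⊤ :=
        ENNReal.rpow_ne_top_of_nonneg h0.le (ne_top_of_le_ne_top hN h3)
      have e3 : (1 - θ) * a (k - 7) ^ γ ≤ b (k - 7) - b (k + 1) := by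
        rw [ENNReal.sub_mul (fun _ _ => hfin), one_mul, e1]
        exact tsub_le_tsub_left e2 _
      calc a (k - 7) ^ γ = (1 - θ)⁻¹ * ((1 - θ) * a (k - 7) ^ γ) := by
            rw [← mul_assoc, ENNReal.inv_mul_cancel hne (by simp), one_mul]
        _ ≤ _ := by gcongr
    · exact zero_le
  refine le_trans (ENNReal.tsum_le_tsum key) ?_
  rw [ENNReal.tsum_mul_left, mul_assoc]
  gcongr
  exact tele8 b hba _ hbN

theorem measurableSet_near (s : ℝ) : MeasurableSet {p : E n × E n | dist p.2 p.1 < s} :=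
  measurableSet_lt (measurable_snd.dist measurable_fst) measurable_const

theorem measurable_lint_ball {f : E n → ℝ≥0∞} (hf : Measurable f) (s : ℝ) :
    Measurable fun y : E n => ∫⁻ x in ball y s, f x := by
  have : (fun y : E n => ∫⁻ x in ball y s, f x) = fun y : E n =>
      ∫⁻ x, {p : E n × E n | dist p.2 p.1 < s}.indicator (fun p => f p.2) (y, x) := by
    funext y
    rw [← lintegral_indicator measurableSet_ball]
    congr 1
  rw [this]
  exact ((hf.comp measurable_snd).indicator (measurableSet_near s)).lintegral_prod_right'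

theorem swap_ball {f g : E n → ℝ≥0∞} (hf : Measurable f) (hg : Measurable g) (s : ℝ) :
    ∫⁻ y, f y * ∫⁻ x in ball y s, g x = ∫⁻ x, g x * ∫⁻ y in ball x s, f y := by
  have hm : Measurable fun p : E n × E n =>
      {p : E n × E n | dist p.2 p.1 < s}.indicator (fun p => f p.1 * g p.2) p :=
    ((hf.comp measurable_fst).mul (hg.comp measurable_snd)).indicator (measurableSet_near s)
  have e1 : ∀ y, f y * ∫⁻ x in ball y s, g x =
      ∫⁻ x, {p : E n × E n | dist p.2 p.1 < s}.indicator (fun p => f p.1 * g p.2) (y, x) := by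
    intro y
    rw [← lintegral_const_mul _ hg, ← lintegral_indicator measurableSet_ball]
    congr 1
  have e2 : ∀ x, g x * ∫⁻ y in ball x s, f y =
      ∫⁻ y, {p : E n × E n | dist p.2 p.1 < s}.indicator (fun p => f p.1 * g p.2) (y, x) := by
    intro x
    rw [← lintegral_const_mul _ hf, ← lintegral_indicator measurableSet_ball]
    congr 1
    funext y
    by_cases h : dist x y < s
    · have h' : y ∈ ball x s := by rwa [mem_ball, dist_comm]
      simp [h, h', mul_comm]
    · have h' : y ∉ ball x s := by rwa [mem_ball, dist_comm]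
      simp [h, h']
  simp_rw [e1, e2]
  exact lintegral_lintegral_swap hm.aemeasurable

theorem ms_mono {ν : E n → ℝ≥0∞} {y y' : E n} {k k' : ℤ}
    (h : ‖y - y'‖ + rho k ≤ rho k') : ms ν y k ≤ ms ν y' k' :=
  lintegral_mono_set (ball_subset_ball' (by rwa [dist_eq_norm, add_comm]))

theorem ms_anti (ν : E n → ℝ≥0∞) (y : E n) : Antitone (ms ν y) := fun _ _ h =>
  ms_mono (by simpa using rho_anti h)

/-- The Tonelli step. -/
theorem tonelli {ν F : E n → ℝ≥0∞} (hν : Measurable ν) (hF : Measurable F) (k : ℤ) :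
    ∫⁻ y, ν y * ((∫⁻ x in ball y (rho (k - 1)), F x) / ms ν y (k - 2)) ≤ ∫⁻ x, F x := by
  have hm : Measurable fun x => F x / ms ν x (k - 1) :=
    hF.div (measurable_lint_ball hν _)
  calc ∫⁻ y, ν y * ((∫⁻ x in ball y (rho (k - 1)), F x) / ms ν y (k - 2))
      ≤ ∫⁻ y, ν y * ∫⁻ x in ball y (rho (k - 1)), F x / ms ν x (k - 1) := by
        refine lintegral_mono fun y => mul_le_mul_right ?_ _
        rw [div_eq_mul_inv, ← lintegral_mul_const _ hF]
        refine setLIntegral_mono' measurableSet_ball fun x hx => ?_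
        rw [div_eq_mul_inv]
        refine mul_le_mul_right (ENNReal.inv_le_inv.2 (ms_mono ?_)) _
        have h2 : rho (k - 2) = 2 * rho (k - 1) := by
          rw [← rho_pred]; congr 1; ring
        rw [mem_ball, dist_eq_norm] at hx
        linarith
    _ = ∫⁻ x, F x / ms ν x (k - 1) * ms ν x (k - 1) := swap_ball hν hm _
    _ ≤ ∫⁻ x, F x := by
        refine lintegral_mono fun x => ?_
        rw [div_eq_mul_inv, mul_assoc]
        calc F x * ((ms ν x (k - 1))⁻¹ * ms ν x (k - 1)) ≤ F x * 1 := by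
              gcongr
              exact ENNReal.inv_mul_le_one _
          _ = F x := mul_one _

/-- Few corners are close to a given point. -/
theorem near_corners (M : ℕ) (y : E n) (k : ℤ) : ∃ s : Finset (Fin n → ℤ),
    s.card = (2 * M + 1) ^ n ∧ ∀ z, ‖y - ctr k z‖ ≤ M * rho k → z ∈ s := by
  refine ⟨Fintype.piFinset fun i => Finset.Icc (⌊y i / rho k⌋ - M) (⌊y i / rho k⌋ + M), ?_, ?_⟩
  · rw [Fintype.card_piFinset]
    have : ∀ i : Fin n, (Finset.Icc (⌊y i / rho k⌋ - M) (⌊y i / rho k⌋ + M)).card = 2 * M + 1 := by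
      intro i
      rw [Int.card_Icc]
      omega
    simp [this]
  · intro z hz
    rw [Fintype.mem_piFinset]
    intro i
    have hρ := rho_pos k
    have h1 : |y i - z i * rho k| ≤ M * rho k := by
      refine le_trans ?_ hz
      have := EuclideanSpace.norm_eq (y - ctr k z)
      have h2 := PiLp.norm_apply_le (y - ctr k z) i
      simpa [ctr] using h2
    rw [abs_le] at h1
    have h3 : (z i : ℝ) - M ≤ y i / rho k := by
      rw [le_div_iff₀ hρ]; nlinarith [h1.1]
    have h4 : y i / rho k ≤ (z i : ℝ) + M := by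
      rw [div_le_iff₀ hρ]; nlinarith [h1.2]
    have h5 : z i - M ≤ ⌊y i / rho k⌋ := Int.le_floor.2 (by push_cast; exact h3)
    have h6 : ⌊y i / rho k⌋ ≤ z i + M := by
      have := Int.floor_le_floor h4
      have e : ((z i : ℝ) + M) = ((z i + M : ℤ) : ℝ) := by push_cast; ring
      rwa [e, Int.floor_intCast] at this
    rw [Finset.mem_Icc]
    omega

theorem ofReal_rho (k : ℤ) : ENNReal.ofReal (rho k) = (2 : ℝ≥0∞) ^ (-k) := by
  have : rho k = (((2 : ℝ≥0) ^ (-k) : ℝ≥0) : ℝ) := by simp [rho]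
  rw [this, ENNReal.ofReal_coe_nnreal, ENNReal.coe_zpow (by norm_num)]
  norm_num

theorem sz_pow (j k : ℤ) :
    ((2 : ℝ≥0∞) ^ j) ^ n * ENNReal.ofReal (rho k ^ n) = sz j k ^ n := by
  rw [ENNReal.ofReal_pow (rho_pos k).le, ofReal_rho, ← mul_pow, sz, sub_eq_add_neg,
    ENNReal.zpow_add (by norm_num) (by norm_num)]

theorem sz_ne_zero (j k : ℤ) : sz j k ≠ 0 := (ENNReal.zpow_pos (by norm_num) (by norm_num) _).ne'

theorem sz_ne_top (j k : ℤ) : sz j k ≠ ⊤ := ENNReal.zpow_ne_top (by norm_num) (by norm_num) _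

theorem rho_sub_nat (k : ℤ) (a : ℕ) : rho (k - a) = 2 ^ a * rho k := by
  induction a with
  | zero => simp
  | succ a ih =>
    have : k - ((a + 1 : ℕ) : ℤ) = k - a - 1 := by push_cast; ring
    rw [this, rho_pred, ih]; ring

end Pool.Agent.P.MP_28243e_an.GN
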