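import Mathlib

/-! The notions used in the statement: Sobolev maps on the unit ball, weak solutions of the
n-Laplace system with a potential, Lorentz classes. -/

namespace Pool.Agent.P.MP_28243e_an.Spec

open Set MeasureTheory Metric
open scoped ENNReal ContDiff

noncomputable section

/-- Euclidean space `R^n`. -/
abbrev Euc (n : ℕ) := EuclideanSpace ℝ (Fin n)

variable {n m : ℕ}

/-- Lebesgue measure on the open unit ball `B`. -/
def volB (n : ℕ) : Measure (Euc n) := volume.restrict (ball 0 1)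

/-- `φ` is smooth with compact support in `B`. -/
def IsTest (φ : Euc n → ℝ) : Prop :=
  ContDiff ℝ ∞ φ ∧ HasCompactSupport φ ∧ tsupport φ ⊆ ball 0 1

/-- The partial derivative in direction `α`. -/
def pd (φ : Euc n → ℝ) (α : Fin n) (x : Euc n) : ℝ := fderiv ℝ φ x (EuclideanSpace.single α 1)

/-- `u` lies in `W^{1,n}(B, R^m)` and `Du` is its weak gradient. -/
def InW (u : Euc n → Euc m) (Du : Euc n → EuclideanSpace ℝ (Fin m × Fin n)) : Prop :=
  MemLp u n (volB n) ∧ MemLp Du n (volB n) ∧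
    ∀ i α φ, IsTest φ → ∫ x, u x i * pd φ α x ∂volB n = -∫ x, Du x (i, α) * φ x ∂volB n

/-- Weak form of `-div(|Du|^(n-2) Du^i) = Σ_j Σ_α Ω^α_{ij} |Du|^(n-2) ∂_α u^j`. -/
def Solves (Ω : Euc n → Fin m → Fin m → Fin n → ℝ)
    (Du : Euc n → EuclideanSpace ℝ (Fin m × Fin n)) : Prop :=
  ∀ i φ, IsTest φ →
    ∫ x, ∑ α, ‖Du x‖ ^ (n - 2) * Du x (i, α) * pd φ α x ∂volB n =
      ∫ x, (∑ j, ∑ α, Ω x i j α * (‖Du x‖ ^ (n - 2) * Du x (j, α))) * φ x ∂volB n

/-- Decreasing rearrangement of `|f|` on `B`. -/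
def rearr (f : Euc n → ℝ) (t : ℝ) : ℝ≥0∞ :=
  sInf {s : ℝ≥0∞ | volB n {x | s < ‖f x‖ₑ} ≤ ENNReal.ofReal t}

/-- `f` lies in the Lorentz space `L^{(n,p)}(B)`. -/
def Lorentz (p : ℝ) (f : Euc n → ℝ) : Prop :=
  AEMeasurable f (volB n) ∧
    ∫⁻ t in Ioi (0 : ℝ), (ENNReal.ofReal (t ^ (1 / (n : ℝ))) * rearr f t) ^ p / ENNReal.ofReal t < ⊤

/-- For every `m ≥ 1` and every antisymmetric potential of class `L^{(n,p)}`, every weak solution
has a representative that is continuous in `B`. -/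
def Good (n : ℕ) (p : ℝ) : Prop :=
  ∀ m : ℕ, 1 ≤ m → ∀ Ω : Euc n → Fin m → Fin m → Fin n → ℝ,
    (∀ᵐ x ∂volB n, ∀ i j α, Ω x i j α = -Ω x j i α) → (∀ i j α, Lorentz p fun x => Ω x i j α) →
      ∀ u Du, InW u Du → Solves Ω Du →
        ∃ w : Euc n → Euc m, ContinuousOn w (ball 0 1) ∧ w =ᵐ[volB n] u

end

end Pool.Agent.P.MP_28243e_an.Spec
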