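import Pool.Agent.P.MP_28243e_an.Defs
import Pool.Agent.P.MP_28243e_an.Spec

/-! Statements of the packages of the proof. Each one is a `Prop`; each package proves one of
them from some of the others. -/

namespace Pool.Agent.P.MP_28243e_an

open Set MeasureTheory Metric Filter Topology ENNReal
open scoped NNReal ContDiff RealInnerProductSpace Classical

/-! ### Maximal functions -/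

/-- Weak and strong type bounds with thresholds. -/
def StA2 : Prop := ∀ n : ℕ, 3 ≤ n →
  (∃ C : ℝ≥0, ∀ f : E n → ℝ≥0∞, Measurable f → ∀ t : ℝ≥0∞,
    t * volume {x | t < mx f x} ≤ C * ∫⁻ x in {x | t < 2 * f x}, f x) ∧
  (∀ p₀ p₁ : ℝ, 1 < p₀ → ∃ C : ℝ≥0, ∀ p : ℝ, p₀ ≤ p → p ≤ p₁ → ∀ f : E n → ℝ≥0∞, Measurable f →
    ∀ l : ℝ≥0∞, ∫⁻ x in {x | l < mx f x}, mx f x ^ p ≤ C * ∫⁻ x in {x | l < 2 * f x}, f x ^ p) ∧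
  (∃ C : ℝ≥0, ∀ G : E n → ℝ≥0∞, Measurable G → ∀ t : ℝ≥0∞,
    t ^ q1 n * volume {x | t < mq G x} ≤ C * (∫⁻ x in {x | t < 2 * G x}, G x ^ q1 n) ∧
    ∀ p : ℝ, (n : ℝ) - 1 / 4 ≤ p → p ≤ n →
      ∫⁻ x in {x | t < mq G x}, mq G x ^ p ≤ C * ∫⁻ x in {x | t < 2 * G x}, G x ^ p)

/-- Weighted `L^2` bounds for an `A_1` weight and its inverse. -/
def StA7 : Prop := ∀ n : ℕ, 3 ≤ n → ∀ C₀ : ℝ≥0, ∃ C : ℝ≥0, ∀ W : E n → ℝ≥0∞, Measurable W →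
  A1 W C₀ → (∀ x, 0 < W x) → (∀ x r, ∫⁻ y in ball x r, W y < ⊤) →
  ∀ g : E n → ℝ≥0∞, Measurable g →
    (∫⁻ x, W x * mx g x ^ 2 ≤ C * ∫⁻ x, W x * g x ^ 2) ∧
    (∫⁻ x, mx g x ^ 2 / W x ≤ C * ∫⁻ x, g x ^ 2 / W x)

/-- Kolmogorov inequality. -/
def StA4 : Prop := ∀ n : ℕ, 3 ≤ n → ∃ C : ℝ≥0, ∀ G : E n → ℝ≥0∞, Measurable G →
  (∀ (x : E n) (r p : ℝ), 0 < r → 0 < p → p ≤ (n : ℝ) - 1 →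
    av (fun y => mq G y ^ p) x r ≤ C * gs G x r ^ p) ∧ A1 (Wt G) C

/-- Consequences of a weak `L^n` bound. -/
def StA5 : Prop := ∀ n : ℕ, 3 ≤ n → ∃ C : ℝ≥0, ∀ (G : E n → ℝ≥0∞) (M : ℝ≥0), Measurable G →
  Weak G M → Weak (mq G) (C * M) ∧
    (∀ A : Set (E n), MeasurableSet A →
      ∫⁻ x in A, G x ≤ C * M * volume A ^ (1 - 1 / (n : ℝ))) ∧
    (∀ A : Set (E n), MeasurableSet A →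
      ∫⁻ x in A, Wt G x ≤ C * M ^ (n - 2) * volume A ^ (2 / (n : ℝ))) ∧
    (∀ (x : E n) (r : ℝ), 0 < r → ENNReal.ofReal r * gs G x r ≤ C * M) ∧
    (∀ δ : ℝ, 0 < δ → δ ≤ 1 / 2 → ∀ l : ℝ≥0∞,
      ENNReal.ofReal δ * (l ^ δ * ∫⁻ x in {x | l < G x}, G x ^ ((n : ℝ) - δ)) ≤ C * M ^ n)

/-- Weighted bounds for the paraproduct and the maximal function. -/
def StA8 : Prop := ∀ n : ℕ, 3 ≤ n → ∃ C : ℝ≥0, ∀ G : E n → ℝ≥0∞, Gd G →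
  (∀ x, 0 < mq G x) ∧ (∀ᵐ x, mq G x < ⊤) ∧ (∫⁻ x, mq G x ^ n < ⊤) ∧
  (∀ (x : E n) (r : ℝ), 0 < r → 0 < gs G x r) ∧
  ∀ z : E n → ℝ≥0∞, Measurable z →
    Measurable (T0 G z) ∧ Measurable (T0s G z) ∧ (∀ N, Measurable (LN z N)) ∧
    (∀ N x, LN z N x ≤ 9 * mx z x) ∧
    (∀ e : E n → ℝ≥0∞, Measurable e → (∫⁻ x, e x * T0 G z x = ∫⁻ x, z x * T0s G e x) ∧
      ∀ N, ∫⁻ x, e x * LN z N x ≤ 9 * ∫⁻ x, z x * mx e x) ∧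
    (∫⁻ x, Wt G x * T0 G z x ^ 2 ≤ C * ∫⁻ x, Wt G x * z x ^ 2) ∧
    (∫⁻ x, T0s G z x ^ 2 / Wt G x ≤ C * ∫⁻ x, z x ^ 2 / Wt G x) ∧
    (∫⁻ x, Wt G x * mx z x ^ 2 ≤ C * ∫⁻ x, Wt G x * z x ^ 2) ∧
    (∫⁻ x, mx z x ^ 2 / Wt G x ≤ C * ∫⁻ x, z x ^ 2 / Wt G x)

/-- Potential bound at a point where the maximal function is controlled. -/
def StAP : Prop := ∀ n : ℕ, 3 ≤ n → ∃ C : ℝ≥0, ∀ δ : ℝ, 0 < δ → δ ≤ 1 / 2 →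
  ∀ (G : E n → ℝ≥0∞) (x : E n) (t : ℝ) (l B : ℝ≥0∞) (K : ℝ≥0) (i : ℕ), Measurable G → 0 < t →
    0 < l → l < ⊤ → 1 ≤ K →
    ∫⁻ y in ball x t, G y ^ q1 n ≤ K * l ^ q1 n * ENNReal.ofReal (t ^ n) →
    mx ((ball x t).indicator G) x ≤ K * (2 ^ i * l) →
    l ^ δ * ∫⁻ y in ball x t ∩ {y | l < G y}, G y ^ ((n : ℝ) - δ) ≤ B →
    pot G t x ≤ C * K * (ENNReal.ofReal t * l +
      (i + 1) * 2 ^ ((i : ℝ) * δ / 2) * B ^ (1 / (n : ℝ)))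

/-! ### Calculus -/

/-- Poincare type inequalities for `C^1` maps. -/
def StB : Prop := ∀ n : ℕ, 3 ≤ n → ∃ C : ℝ≥0,
  ∀ (F : Type) [NormedAddCommGroup F] [NormedSpace ℝ F] [CompleteSpace F]
    (f : E n → F) (O : Set (E n)) (Z : E n → ℝ≥0∞), IsOpen O → ContDiffOn ℝ 1 f O →
    Measurable Z → (∀ᵐ z, z ∈ O → ‖fderiv ℝ f z‖ₑ ≤ Z z) →
    (∀ x t, 0 < t → closedBall x t ⊆ O → ‖f x - bav f x t‖ₑ ≤ C * pot Z t x) ∧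
    (∀ x x' t, 0 < t → (∀ τ ∈ Icc (0 : ℝ) 1, closedBall (x + τ • (x' - x)) t ⊆ O) →
      ‖bav f x t - bav f x' t‖ₑ ≤ C * ENNReal.ofReal (‖x - x'‖ / t ^ n) * ∫⁻ z in O, Z z) ∧
    (∀ x t, 0 < t → closedBall x (2 * t) ⊆ O →
      av (fun z => ‖f z - bav f x t‖ₑ) x t ≤ C * ENNReal.ofReal t * av Z x (2 * t)) ∧
    (∀ x x', closedBall x (2 * ‖x - x'‖) ⊆ O →
      ‖f x - f x'‖ₑ ≤ C * ‖x - x'‖ₑ * (mx (O.indicator Z) x + mx (O.indicator Z) x')) ∧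
    (∀ y ρ, 0 < ρ → O = ball y (4 * ρ) \ closedBall y (ρ / 4) →
      ∀ a b t t', ρ / 2 ≤ ‖a - y‖ → ‖a - y‖ ≤ 2 * ρ → ρ / 2 ≤ ‖b - y‖ → ‖b - y‖ ≤ 2 * ρ →
        ρ / 64 ≤ t → t ≤ ρ / 16 → ρ / 64 ≤ t' → t' ≤ ρ / 16 →
        ‖bav f a t - bav f b t'‖ₑ ≤ C * ENNReal.ofReal (ρ / ρ ^ n) * (∫⁻ z in O, Z z) ∧
        ‖f a - bav f b t'‖ₑ ≤ C * ENNReal.ofReal ρ * mx (O.indicator Z) a)

/-- Mollifiers. -/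
def StM : Prop := ∀ n : ℕ, 3 ≤ n → ∃ C : ℝ≥0, ∀ f : E n → ℝ,
  (LocallyIntegrable f volume →
    (∀ t, 0 < t → ContDiff ℝ ∞ (mol t f) ∧ ∀ x,
      (∀ c : ℝ, ‖mol t f x - c‖ₑ ≤ C * av (fun y => ‖f y - c‖ₑ) x t) ∧
      ‖fderiv ℝ (mol t f) x‖ₑ ≤ C * av (fun y => ‖f y‖ₑ) x t / ENNReal.ofReal t) ∧
    ∀ᵐ x, Tendsto (fun j : ℕ => mol (rho j) f x) atTop (𝓝 (f x))) ∧
  ((ContDiff ℝ 1 f ∨ ∃ K, LipschitzWith K f) → ∀ t, 0 < t → ∀ x,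
    (∀ α, pd (mol t f) α x = mol t (pd f α) x) ∧
    ‖fderiv ℝ (mol t f) x‖ₑ ≤ C * av (fun y => ‖fderiv ℝ f y‖ₑ) x t) ∧
  (∀ (O : Set (E n)) (g : E n → E n), MeasurableSet O → WG O f g → ∀ t, 0 < t → ∀ x,
    closedBall x t ⊆ O →
    (∀ α, pd (mol t (O.indicator f)) α x = mol t (O.indicator fun y => g y α) x) ∧
    ‖fderiv ℝ (mol t (O.indicator f)) x‖ₑ ≤ C * av (O.indicator fun y => ‖g y‖ₑ) x t)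

/-- From smooth to Lipschitz test maps. -/
def StEXT : Prop := ∀ n m : ℕ, 3 ≤ n → ∀ (S : E n → Mt m n) (ν kf : E n → ℝ≥0∞),
  IntegrableOn S (ball 0 (1 / 2)) → Measurable ν → Measurable kf →
  ∫⁻ x in ball 0 (1 / 2), ν x < ⊤ → ∫⁻ x in ball 0 (1 / 2), kf x < ⊤ →
  (∀ φ : E n → V m, (∀ i, IsTest (ball 0 (1 / 2)) fun x => φ x i) →
    ‖∫ x, ⟪S x, grad φ x⟫‖ₑ ≤ (∫⁻ x, ν x * ‖φ x‖ₑ) + ∫⁻ x, kf x * ‖grad φ x‖ₑ) →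
  ∀ (φ : E n → V m) (K : ℝ≥0), LipschitzWith K φ → tsupport φ ⊆ ball 0 (1 / 2) →
    ‖∫ x, ⟪S x, grad φ x⟫‖ₑ ≤ (∫⁻ x, ν x * ‖φ x‖ₑ) + ∫⁻ x, kf x * ‖grad φ x‖ₑ

/-- Lipschitz extension with the same gradient on the set. -/
def StTL : Prop := ∀ n m : ℕ, 3 ≤ n → ∃ C : ℝ≥0,
  ∀ (ξ : E n → V m) (Γ : Set (E n)) (L b : ℝ≥0), MeasurableSet Γ → LipschitzOnWith L ξ Γ →
    (∀ x ∈ Γ, ‖ξ x‖ ≤ b) → (∀ x ∈ Γ, DifferentiableAt ℝ ξ x) →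
    ∃ φ : E n → V m, LipschitzWith (C * L) φ ∧ (∀ x, ‖φ x‖ ≤ C * b) ∧ (∀ x ∈ Γ, φ x = ξ x) ∧
      ∀ᵐ x, x ∈ Γ → grad φ x = grad ξ x

/-- Monotonicity of `sig`. -/
def StSig : Prop := ∀ n : ℕ, 3 ≤ n → ∃ c C : ℝ, 0 < c ∧ 0 < C ∧
  (∀ (X : Type) [NormedAddCommGroup X] [InnerProductSpace ℝ X],
    Continuous (sig n : X → X) ∧ ∀ A B : X, ‖sig n A‖ = ‖A‖ ^ (n - 1) ∧
      c * ((‖A‖ + ‖B - A‖) ^ (n - 2) * ‖B - A‖ * ‖B - A‖) ≤ ⟪sig n B - sig n A, B - A⟫ ∧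
      c * ((‖A‖ + ‖B - A‖) ^ (n - 2) * ‖B - A‖) ≤ ‖sig n B - sig n A‖ ∧
      ‖sig n B - sig n A‖ ≤ C * ((‖A‖ + ‖B - A‖) ^ (n - 2) * ‖B - A‖)) ∧
  ∀ (m : ℕ) (ξ : V m), sig n (isig n ξ) = ξ ∧ ‖isig n ξ‖ ^ (n - 1) = ‖ξ‖

/-- The logarithmic model. -/
def StMdl : Prop := ∀ n : ℕ, 3 ≤ n → 0 < cN n ∧
  (∀ (y : E n) (r : ℝ), 0 < r → ∫ x, ⟪newt y x, gradient (cut y (r / 2) r) x⟫ = -cN n) ∧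
  ∀ (m : ℕ) (F : V m) (y : E n),
    (∀ x, ‖mdl F y x‖ = ‖F‖ / ‖x - y‖ ∧ sig n (mdl F y x) = tens (sig n F) (newt y x) ∧
      ‖newt y x‖ = (‖x - y‖ ^ (n - 1))⁻¹) ∧
    Measurable (mdl F y) ∧ Measurable (newt y) ∧
    ContDiffOn ℝ 1 (fun x : E n => Real.log ‖x - y‖) {y}ᶜ ∧
    (∀ x, x ≠ y → grad (fun z => Real.log ‖z - y‖ • F) x = mdl F y x) ∧
    ∀ (φ : E n → V m) (K : ℝ≥0), LipschitzWith K φ → HasCompactSupport φ → y ∉ tsupport φ →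
      Integrable (fun x => ⟪tens F (newt y x), grad φ x⟫) ∧
      ∫ x, ⟪tens F (newt y x), grad φ x⟫ = 0

/-! ### Gauge, paraproduct, structure -/

/-- Smooth almost minimisers of the weighted gauge energy. -/
def StGA : Prop := ∀ (n m : ℕ) (w : E n → ℝ≥0∞) (Ω : E n → Fin m → Fin m → Fin n → ℝ) (τ : ℝ),
  Measurable w → Measurable Ω → (∀ x i j α, Ω x i j α = -Ω x j i α) →
  ∫⁻ x in ball 0 1, w x < ⊤ → ∫⁻ x in ball 0 1, w x * ENNReal.ofReal (sqO (Ω x)) < ⊤ → 0 < τ →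
  ∃ Q, Gauge w Ω τ Q

/-- The paraproduct of a `C^1` function with a smooth function whose gradient is dominated by `G`. -/
def StPP : Prop := ∀ n : ℕ, 3 ≤ n → ∀ Cf : ℝ≥0, ∃ C : ℝ≥0, ∀ G : E n → ℝ≥0∞, Gd G →
  ∀ N : ℕ, 5 ≤ N → ∀ f : E n → ℝ, ContDiff ℝ ∞ f →
    (∀ z ∈ ball (0 : E n) (7 / 8), ‖fderiv ℝ f z‖ₑ ≤ Cf * av G z (rho N)) →
    ∃ K : ℝ, 0 ≤ K ∧ ∀ ψ : E n → ℝ, ContDiff ℝ 1 ψ → ∃ v : E n → ℝ, ContDiff ℝ ∞ v ∧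
      (∀ z : E n → ℝ≥0∞, Measurable z → (∀ y ∈ ball (0 : E n) 1, ‖fderiv ℝ ψ y‖ₑ ≤ z y) →
        ∀ x ∈ ball (0 : E n) (3 / 4),
          ‖ψ x • gradient f x - gradient v x‖ₑ ≤ C * (T0 G z x + LN z N x)) ∧
      (tsupport ψ ⊆ ball 0 (1 / 2) → (∀ x ∉ ball (0 : E n) (3 / 4), fderiv ℝ v x = 0) ∧
        ∀ x, ‖fderiv ℝ v x‖ ≤ K * ∫ y, |ψ y|) ∧
      ((∀ x, |ψ x| ≤ 1) → ∀ x ∈ ball (0 : E n) (1 / 2), ∀ x' ∈ ball (0 : E n) (1 / 2), ∀ t : ℝ,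
        0 < t → t ≤ 2 → ‖x - x'‖ ≤ t → ‖v x - v x'‖ₑ ≤
          C * (pot G (8 * t) x + pot G (8 * t) x' + (ENNReal.ofReal t * gs G x t) ^ (1 / 2 : ℝ)))

/-- The equation after a smooth orthogonal change of frame. -/
def StSTa : Prop := ∀ (n m : ℕ), 3 ≤ n → ∀ (u : E n → V m) (Du : E n → Mt m n)
  (Ω : E n → Fin m → Fin m → Fin n → ℝ) (Q : E n → Fin m → Fin m → ℝ), Sol (ball 0 1) u Du Ω →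
  (∀ i j, ContDiff ℝ ∞ fun x => Q x i j) →
  (∀ x i j, ∑ l, Q x l i * Q x l j = if i = j then 1 else 0) →
  ∫⁻ x in ball 0 1, ENNReal.ofReal (sqO (Ω x)) ^ (1 / 2 : ℝ) * ‖Du x‖ₑ ^ (n - 1) < ⊤ →
  (∀ x, ‖act (Q x) (Du x)‖ = ‖Du x‖) ∧
  ∀ φ : E n → V m, (∀ i, IsTest (ball 0 1) fun x => φ x i) →
    ∫ x in ball 0 1, ⟪sig n (act (Q x) (Du x)), grad φ x⟫ =
      ∫ x in ball 0 1, ∑ i, ∑ j, ∑ α, φ x i * Th Q Ω x i j α * sig n (Du x) (j, α)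

/-- Mollified solution. -/
def StSTb : Prop := ∀ (n m : ℕ), 3 ≤ n → ∃ Cf : ℝ≥0, ∀ (u : E n → V m) (Du : E n → Mt m n)
  (Ω : E n → Fin m → Fin m → Fin n → ℝ), Sol (ball 0 1) u Du Ω → Gd (GG (ball 0 1) Du) →
  ∀ η : ℝ≥0∞, 0 < η → ∃ (N : ℕ) (f : Fin m → E n → ℝ) (τ : E n → ℝ≥0∞), 5 ≤ N ∧ Measurable τ ∧
    ∫⁻ x, Wt (GG (ball 0 1) Du) x * τ x ^ 2 ≤ η ∧ ∀ j, ContDiff ℝ ∞ (f j) ∧
      (∀ z ∈ ball (0 : E n) (7 / 8),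
        ‖fderiv ℝ (f j) z‖ₑ ≤ Cf * av (GG (ball 0 1) Du) z (rho N)) ∧
      ∀ x ∈ ball (0 : E n) (3 / 4), ‖row (Du x) j - gradient (f j) x‖ₑ ≤ τ x

/-- The structure theorem. -/
def StST : Prop := ∀ (n m : ℕ), 3 ≤ n → ∃ Co : ℝ≥0, ∀ c : ℝ≥0, 0 < c → c ≤ 1 → ∃ C : ℝ≥0,
  ∀ (u : E n → V m) (Du : E n → Mt m n) (Ω : E n → Fin m → Fin m → Fin n → ℝ) (ε : ℝ≥0),
    Sol (ball 0 1) u Du Ω → Gd (GG (ball 0 1) Du) → 0 < ε → ε ≤ 1 → Lf (ball 0 1) Ω ≤ ε →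
    ∃ (U : E n → Mt m n) (v : E n → V m) (ν k kf h : E n → ℝ≥0∞),
      Str Co U v (GG (ball 0 1) Du) ν k kf h ∧ ∫⁻ x, k x ≤ C * ε ∧
      ∀ r : ℝ, (∫⁻ x in ball 0 r, ν x) ^ 2 ≤ C * ε * (1 + DD (GG (ball 0 1) Du) c r)

/-! ### Truncated tests -/

/-- One truncated test. -/
def StLT : Prop := ∀ (n m : ℕ), 3 ≤ n → ∃ C : ℝ≥0, ∀ (Co : ℝ≥0) (U : E n → Mt m n) (v : E n → V m)
  (G ν k kf h : E n → ℝ≥0∞), Str Co U v G ν k kf h →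
  ∀ (ξ : E n → V m) (π : E n → ℝ) (R Γ : Set (E n)) (S₀ : E n → Mt m n) (kf' : E n → ℝ≥0∞)
    (L b Lπ : ℝ≥0) (B₀ : ℝ), MeasurableSet R → MeasurableSet Γ → Γ ⊆ R → R ⊆ ball 0 1 →
    ContDiff ℝ 1 π → (∀ x, |π x| ≤ 1) → LipschitzWith Lπ π → tsupport π ⊆ ball 0 (1 / 2) →
    (∀ x ∉ R, π x = 0 ∧ gradient π x = 0) → Measurable S₀ → (∀ x ∈ R, ‖S₀ x‖ ≤ B₀) →
    Measurable kf' →
    (∀ (φ : E n → V m) (K : ℝ≥0), LipschitzWith K φ → tsupport φ ⊆ tsupport π →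
      (∀ᵐ x, x ∉ R → grad φ x = 0) →
      ‖∫ x in R, ⟪S₀ x, grad φ x⟫‖ₑ ≤ ∫⁻ x in R, kf' x * ‖grad φ x‖ₑ) →
    LipschitzOnWith L ξ Γ → (∀ x ∈ Γ, ‖ξ x‖ ≤ b) → (∀ x ∈ Γ, DifferentiableAt ℝ ξ x) →
    IntegrableOn (fun x => ⟪sig n (U x) - S₀ x, π x • grad ξ x + tens (ξ x) (gradient π x)⟫) Γ ∧
    ENNReal.ofReal (∫ x in Γ, ⟪sig n (U x) - S₀ x, π x • grad ξ x + tens (ξ x) (gradient π x)⟫) ≤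
      C * b * (∫⁻ x in R, ν x) +
      (∫⁻ x in Γ, (kf x + kf' x) * ‖π x • grad ξ x + tens (ξ x) (gradient π x)‖ₑ) +
      C * (L + Lπ * b) * ∫⁻ x in R \ Γ, (‖sig n (U x) - S₀ x‖ₑ + kf x + kf' x)

/-- Averaging over the truncation levels. -/
def StW : Prop := ∀ δ : ℝ, 0 < δ → δ ≤ 1 / 2 →
  (∑' i, wt δ i = 1) ∧ (∑' i : ℕ, wt δ i * ((i + 1) * 2 ^ ((i : ℝ) * δ / 2)) < ⊤) ∧
  ∀ (n : ℕ) (l : ℝ≥0∞) (s a : E n → ℝ≥0∞) (A : Set (E n)), 0 < l → l < ⊤ → Measurable s →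
    MeasurableSet A → AEMeasurable a (volume.restrict A) → (∀ᵐ x, x ∈ A → s x < ⊤) →
    (∫⁻ x in A, a x * psi l δ (s x) ≤
      2 * ∑' i : ℕ, wt δ i * ∫⁻ x in A ∩ {x | s x ≤ 2 ^ i * l}, a x) ∧
    (∑' i : ℕ, wt δ i * ∫⁻ x in A ∩ {x | s x ≤ 2 ^ i * l}, a x ≤
      ∫⁻ x in A, a x * psi l δ (s x)) ∧
    (∑' i : ℕ, wt δ i * (2 ^ i * l * ∫⁻ x in A \ (A ∩ {x | s x ≤ 2 ^ i * l}), a x) ≤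
      8 * ENNReal.ofReal δ * ∫⁻ x in A, a x * s x * psi l δ (s x))

/-- Pointwise inequalities behind the averaged test. -/
def StLC : Prop := ∀ n : ℕ, 3 ≤ n → ∀ Cd T : ℝ≥0, 1 ≤ T → ∃ C₀ : ℝ≥0, ∀ γ : ℝ≥0, 0 < γ →
  ∃ δ₀ : ℝ, 0 < δ₀ ∧ δ₀ ≤ 1 / 4 ∧ ∀ δ : ℝ, 0 < δ → δ ≤ δ₀ → ∃ C : ℝ≥0,
    ∀ l μ d s S₁ S₂ M p h kf kf' k : ℝ≥0∞, 0 < l → l < ⊤ → S₁ < ⊤ → S₂ < ⊤ → M < ⊤ → k < ⊤ →
      kf' < ⊤ → μ ≤ Cd * l → l ≤ Cd * M → μ + d ≤ Cd * M → d ≤ S₁ → d ≤ s → s ≤ S₁ + S₂ →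
      M ^ (n - 2) * S₂ ^ 2 ≤ Cd * k → kf ^ 2 ≤ M ^ (n - 2) * k → p ≤ Cd * l → h ≤ S₂ →
      Phi n l δ μ d ≤ 2 * (Pd n μ d * d * psi l δ s) + γ * NN n δ T l S₁ M + C * (k * psi l δ M) ∧
      Pd n μ d * (h + p) * psi l δ s + ENNReal.ofReal δ * (Pd n μ d * s * psi l δ s) +
          (kf + kf') * s * psi l δ s ≤
        γ * NN n δ T l S₁ M + C * (k * psi l δ M + l ^ (n - 2) * p ^ 2 + kf' ^ 2 / l ^ (n - 2)) ∧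
      Pd n μ d * s * psi l δ s ≤ C₀ * NN n δ T l S₁ M + C * (k * psi l δ M)

/-- Iteration over radii. -/
def StIt : Prop := ∀ p : ℕ, ∃ C : ℝ≥0, ∀ (f : ℝ → ℝ≥0∞) (a b : ℝ) (F X Y : ℝ≥0∞), a < b → F < ⊤ →
  (∀ r ∈ Icc a b, f r ≤ F) →
  (∀ r₁ r₂, a ≤ r₁ → r₁ < r₂ → r₂ ≤ b →
    f r₁ ≤ f r₂ / 2 + X / ENNReal.ofReal ((r₂ - r₁) ^ p) + Y) →
  f a ≤ C * (X / ENNReal.ofReal ((b - a) ^ p) + Y)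

/-- Local energy estimate in source-free balls. -/
def StLE : Prop := ∀ (n m : ℕ), 3 ≤ n → ∀ Co : ℝ≥0, ∃ (C₁ : ℝ≥0) (δ₀ : ℝ), 0 < δ₀ ∧ δ₀ ≤ 1 / 4 ∧
  ∀ δ : ℝ, 0 < δ → δ ≤ δ₀ → ∀ A₀ : ℝ≥0, ∃ c : ℝ≥0, 0 < c ∧
    ∀ (U : E n → Mt m n) (v : E n → V m) (G ν k kf h : E n → ℝ≥0∞), Str Co U v G ν k kf h →
      ∀ (x₀ : E n) (r : ℝ) (l : ℝ≥0∞), 0 < r → ball x₀ (2 * r) ⊆ ball 0 (1 / 2) →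
        gs G x₀ r ≤ l → l ≤ 16 * gq G x₀ (r / 2) → ENNReal.ofReal r * l ≤ A₀ →
        ∫⁻ x in ball x₀ (2 * r), ν x ≤ c * (ENNReal.ofReal r * l) ^ q1 n →
        kk G k δ x₀ (2 * r) l ≤ c * (ENNReal.ofReal r * l) ^ n →
        ∫⁻ x in ball x₀ r, Phi n l δ 0 (G x) ≤ C₁ * (ENNReal.ofReal r * l) ^ n

/-! ### Chains of shells -/

/-- Sizes and fluxes. -/
def StFL : Prop := ∀ (n m : ℕ), 3 ≤ n → ∃ C : ℝ≥0, 1 ≤ C ∧ ∀ δ : ℝ, 0 < δ → δ ≤ 1 / 4 →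
  (∀ (Co : ℝ≥0) (U : E n → Mt m n) (v : E n → V m) (G ν k' kf h : E n → ℝ≥0∞),
    Str Co U v G ν k' kf h → ∀ (y : E n) (k : ℤ),
    (0 < ah G y k ∧ ah G y k ≤ C ∧ al G y k ≤ C ∧ ah G y (k + 1) ≤ 2 * ah G y k ∧
      ah G y k ≤ 2 * ah G y (k + 1) ∧ lam G y k ≤ lam G y (k + 1) ∧
      (∃ l : ℤ, ah G y k ≤ C * 2 ^ (-|((l - k : ℤ) : ℝ)| / (4 * n)) * al G y l) ∧
      ff U y k ≤ C * (ENNReal.ofReal (rho k) * gq G y (rho k)) ∧ ff U y k ≤ C * ah G y k ∧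
      al G y k ^ n ≤ C * (ff U y k ^ n + en δ U G y k) ∧ ENNReal.ofReal δ * en δ U G y k ≤ C ∧
      xx U y k * (ff U y k + xx U y k) ^ (n - 2) ≤ C * dF U y k) ∧
    (ball y (rho (k - 2)) ⊆ ball 0 (1 / 2) →
      ff U y k ^ (n - 1) ≤
        C * (ms ν y k + kap G k' δ y k ^ (1 / 2 : ℝ) * ah G y k ^ (((n : ℝ) - 2) / 2)) ∧
      dF U y k ≤ C * (nu ν y k + kap G k' δ y k ^ (1 / 2 : ℝ) * ah G y k ^ (((n : ℝ) - 2) / 2)) ∧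
      dF U y k ^ 2 / ah G y k ^ (n - 2) ≤ C * rr G ν k' δ y k)) ∧
  ∀ c γ : ℝ≥0, 0 < c → 0 < γ → ∃ C' : ℝ≥0,
    ∀ (Co : ℝ≥0) (U : E n → Mt m n) (v : E n → V m) (G ν k' kf h : E n → ℝ≥0∞),
      Str Co U v G ν k' kf h → ∀ (y : E n) (k : ℤ), ball y (rho (k - 2)) ⊆ ball 0 (1 / 2) →
      ah G y k ^ (n - 2) * xx U y k ^ 2 ≤ γ * YY c U G y k + C' * rr G ν k' δ y k ∧
      xx U y k ^ n ≤ γ * YY c U G y k + C' * rr G ν k' δ y k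

/-- Properties of the functions `xp`. -/
def StRP1 : Prop := ∀ (n m : ℕ), 3 ≤ n → ∀ Co T : ℝ≥0, 1 ≤ T → ∃ C : ℝ≥0,
  ∀ (U : E n → Mt m n) (v : E n → V m) (G ν k' kf h : E n → ℝ≥0∞), Str Co U v G ν k' kf h →
    ∀ (y e : E n) (k : ℤ), ‖e‖ = 1 → ball y (rho (k - 2)) ⊆ ball 0 (1 / 2) →
    Measurable (s1 U y k) ∧ (∀ᵐ x, x ∈ Zn y k → ss U h y k x < ⊤) ∧
    (∀ x, x ≠ y → DifferentiableAt ℝ (xp U v y e k) x) ∧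
    (∀ x ∈ Zn y k, xp U v y e (k + 1) x = xp U v y e k x ∧
      grad (xp U v y e (k + 1)) x = grad (xp U v y e k) x ∧
      ‖xp U v y e k x‖ₑ ≤ C * ENNReal.ofReal (rho k) * ss U h y k x) ∧
    (∃ β : V m, (∀ x ∈ Zn y k, ‖β‖ₑ ≤ C * ENNReal.ofReal (rho k) * ss U h y k x) ∧
      ∀ᵐ x, x ∈ Zn y k →
        ‖grad (xp U v y e k) x - (U x - mdl (Ft U y k) y x) + tens β (gradient (chi y k) x)‖ₑ ≤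
          h x + C * (xx U y k / ENNReal.ofReal (rho k))) ∧
    ∀ i : ℕ,
      (∀ x ∈ Gm U G h y (k - 1) i ∪ Gm U G h y k i, ∀ x' ∈ Gm U G h y (k - 1) i ∪ Gm U G h y k i,
        ‖xp U v y e k x - xp U v y e k x'‖ₑ ≤ C * (2 ^ i * lam G y k) * ‖x - x'‖ₑ) ∧
      ∀ x ∈ Gm U G h y (k - 1) i ∪ Gm U G h y k i,
        ‖xp U v y e k x‖ₑ ≤ C * ENNReal.ofReal (rho k) * (2 ^ i * lam G y k) ∧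
        ∀ δ : ℝ, 0 < δ → δ ≤ 1 / 4 → ‖xp U v y e k x‖ₑ ≤ C * (ah G y k ^ (1 / 2 : ℝ) +
          (i + 1) * 2 ^ ((i : ℝ) * δ / 2) * BB T δ G y k ^ (1 / (n : ℝ)))

/-- The inequality along a chain at one truncation level. -/
def StRP2 : Prop := ∀ (n m : ℕ), 3 ≤ n → ∀ Co T : ℝ≥0, 1 ≤ T → ∃ C : ℝ≥0,
  ∀ (U : E n → Mt m n) (v : E n → V m) (G ν k' kf h : E n → ℝ≥0∞), Str Co U v G ν k' kf h →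
    ∀ (y : E n) (a b : ℤ) (w : ℤ → ℝ≥0) (i : ℕ) (δ : ℝ), 0 < δ → δ ≤ 1 / 4 → a ≤ b →
    ball y (rho (a - 2)) ⊆ ball 0 (1 / 2) → w a = 0 → w (b + 1) = 0 →
    ∑ k ∈ Finset.Icc a b, (min (w k) (w (k + 1)) : ℝ≥0) *
        ∫⁻ x in Gm U G h y k i, Pk U y k x * dev U y k x ≤
      C * ∑ k ∈ Finset.Icc a b, ((w k + w (k + 1) : ℝ≥0) *
        ((∫⁻ x in Gm U G h y k i, (Pk U y k x * (h x + xx U y k / ENNReal.ofReal (rho k)) +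
            (kf x + dF U y k / ENNReal.ofReal (rho k ^ (n - 1))) * ss U h y k x)) +
          2 ^ i * lam G y k * (∫⁻ x in Zn y k \ Gm U G h y k i,
            (Pk U y k x + kf x + dF U y k / ENNReal.ofReal (rho k ^ (n - 1)))) +
          nu ν y k * (ah G y k ^ (1 / 2 : ℝ) +
            (i + 1) * 2 ^ ((i : ℝ) * δ / 2) * BB T δ G y k ^ (1 / (n : ℝ)))) +
        (nndist (w k) (w (k + 1)) : ℝ≥0) * ∫⁻ x in Gm U G h y k i, Pk U y k x * ss U h y k x)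

/-- Bounds for the absorbing density along a chain. -/
def StRP3 : Prop := ∀ (n m : ℕ), 3 ≤ n → ∃ Cd T : ℝ≥0, 1 ≤ T ∧ ∀ c : ℝ≥0, 0 < c → ∃ C : ℝ≥0,
  ∀ δ : ℝ, 0 < δ → δ ≤ 1 / 4 →
  ∀ (Co : ℝ≥0) (U : E n → Mt m n) (v : E n → V m) (G ν k' kf h : E n → ℝ≥0∞),
    Str Co U v G ν k' kf h → ∀ (y : E n) (k : ℤ),
    (∀ᵐ x, x ∈ Zn y k → ‖mdl (Ft U y k) y x‖ₑ ≤ Cd * lam G y k ∧ lam G y k ≤ Cd * mq G x ∧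
      ‖mdl (Ft U y k) y x‖ₑ + dev U y k x ≤ Cd * mq G x) ∧
    xx U y k / ENNReal.ofReal (rho k) ≤ Cd * lam G y k ∧
    (∫⁻ x in Zn y k, NN n δ T (lam G y k) (s1 U y k x) (mq G x)) + BB T δ G y k ≤
      C * ∑ l ∈ Finset.Icc (k - 2) (k + 2), (XX c δ U G y l + ah G y l ^ (n - 2) * xx U y l ^ 2)

/-- The averaged inequality along a chain. -/
def StRP : Prop := ∀ (n m : ℕ), 3 ≤ n → ∀ Co c : ℝ≥0, 0 < c → ∃ Cc : ℝ≥0, ∀ γ : ℝ≥0, 0 < γ →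
  ∃ δ₀ : ℝ, 0 < δ₀ ∧ δ₀ ≤ 1 / 4 ∧ ∀ δ : ℝ, 0 < δ → δ ≤ δ₀ → ∃ C : ℝ≥0,
  ∀ (U : E n → Mt m n) (v : E n → V m) (G ν k' kf h : E n → ℝ≥0∞), Str Co U v G ν k' kf h →
    ∀ (y : E n) (a b : ℤ) (w : ℤ → ℝ≥0), a ≤ b → ball y (rho (a - 4)) ⊆ ball 0 (1 / 2) →
    w a = 0 → w (b + 1) = 0 →
    ∑ k ∈ Finset.Icc a b, (min (w k) (w (k + 1)) : ℝ≥0) * en δ U G y k ≤
      ∑ k ∈ Finset.Icc a b,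
        ((γ * (w k + w (k + 1)) + Cc * nndist (w k) (w (k + 1)) : ℝ≥0) *
            ∑ l ∈ Finset.Icc (k - 2) (k + 2), XX c δ U G y l +
          (C * (w k + w (k + 1)) : ℝ≥0) * ∑ l ∈ Finset.Icc (k - 2) (k + 2), rr G ν k' δ y l)

/-- Discrete absorption. -/
def StDP : Prop := ∀ n : ℕ, 3 ≤ n → ∀ C₁ : ℝ≥0, ∃ c : ℝ≥0, 0 < c ∧ ∀ Cc : ℝ≥0, ∃ γ θ : ℝ≥0,
  0 < γ ∧ 0 < θ ∧ θ ≤ 1 ∧ ∀ C₂ : ℝ≥0, ∃ CP : ℝ≥0,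
  ∀ (a al e f x r : ℤ → ℝ≥0∞) (k₀ k₂ : ℤ) (w : ℤ → ℝ≥0), k₀ ≤ k₂ → Slow θ w →
    (∀ k, a k ≤ C₁ ∧ al k ≤ C₁ ∧ e k ≤ C₂ ∧
      ∃ l : ℤ, a k ≤ C₁ * 2 ^ (-|((l - k : ℤ) : ℝ)| / (4 * n)) * al l) →
    (∀ l ∈ Finset.Icc k₀ k₂, al l ^ n ≤ C₁ * (f l ^ n + e l) ∧ f (l + 1) ≤ f l + x l ∧
      f l ≤ f (l + 1) + x l ∧ x l ^ n ≤ γ * Yq n c (f l) (a l) + C₂ * r l) →
    (∀ w' : ℤ → ℝ≥0, w' (k₀ - 1) = 0 → w' (k₂ + 2) = 0 →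
      ∑ k ∈ Finset.Icc (k₀ - 1) (k₂ + 1), (min (w' k) (w' (k + 1)) : ℝ≥0) * e k ≤
        ∑ k ∈ Finset.Icc (k₀ - 1) (k₂ + 1),
          ((γ * (w' k + w' (k + 1)) + Cc * nndist (w' k) (w' (k + 1)) : ℝ≥0) *
              ∑ l ∈ Finset.Icc (k - 2) (k + 2), (e l + Yq n c (f l) (a l)) +
            (C₂ * (w' k + w' (k + 1)) : ℝ≥0) * ∑ l ∈ Finset.Icc (k - 2) (k + 2), r l)) →
    ∑ k ∈ Finset.Icc k₀ k₂, w k * (e k + Yq n c (f k) (a k)) ≤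
      CP * (w k₀ + w k₂) + CP * ∑ k ∈ Finset.Icc (k₀ - 3) (k₂ + 3), w k * r k

/-- The weighted inequality along a chain. -/
def StPL : Prop := ∀ (n m : ℕ), 3 ≤ n → ∀ Co : ℝ≥0, ∃ (c θ : ℝ≥0) (δ₀ : ℝ), 0 < c ∧ 0 < θ ∧ θ ≤ 1 ∧
  0 < δ₀ ∧ δ₀ ≤ 1 / 4 ∧ ∀ δ : ℝ, 0 < δ → δ ≤ δ₀ → ∃ CP : ℝ≥0,
  ∀ (U : E n → Mt m n) (v : E n → V m) (G ν k' kf h : E n → ℝ≥0∞), Str Co U v G ν k' kf h →
    ∀ (y : E n) (k₀ k₂ : ℤ) (w : ℤ → ℝ≥0), k₀ ≤ k₂ → Slow θ w →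
    ball y (rho (k₀ - 5)) ⊆ ball 0 (1 / 2) →
    ∑ k ∈ Finset.Icc k₀ k₂, w k * XX c δ U G y k ≤
      CP * (w k₀ + w k₂) + CP * ∑ k ∈ Finset.Icc (k₀ - 3) (k₂ + 3), w k * rr G ν k' δ y k

/-- Discrete summation over one class of scales. -/
def StSQ : Prop := ∀ n : ℕ, 3 ≤ n → ∀ θ₀ : ℝ≥0, 0 < θ₀ → θ₀ ≤ 1 → ∃ θ : ℝ, 0 < θ ∧
  ∀ (C₁ c CP Λ : ℝ≥0) (l₀ : ℕ), 0 < c → ∃ C : ℝ≥0,
  ∀ (a X κ ν f x : ℤ → ℝ≥0∞) (μ : ℝ≥0∞) (ks : ℤ) (T : Finset ℤ), 0 < μ → μ < ⊤ →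
    (∀ k, 0 < a k ∧ a k ≤ C₁ ∧ a (k + 1) ≤ 2 * a k ∧ a k ≤ 2 * a (k + 1)) →
    (∀ k, ks ≤ k → κ k < ⊤ ∧ f k ≤ C₁ * a k ∧ f k ≤ f (k + 1) + x k ∧
      f k ^ (n - 1) ≤ C₁ * (μ + κ k ^ (1 / 2 : ℝ) * a k ^ (((n : ℝ) - 2) / 2)) ∧
      x k ^ (n - 1) ≤ C₁ * (ν k + κ k ^ (1 / 2 : ℝ) * a k ^ (((n : ℝ) - 2) / 2)) ∧
      Yq n c (f k) (a k) ≤ X k ∧ ∑ l ∈ Finset.Icc ks k, ν l ≤ C₁ * μ) →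
    (∀ (k₂ : ℤ) (w : ℤ → ℝ≥0), ks + 3 ≤ k₂ → Slow θ₀ w →
      ∑ k ∈ Finset.Icc (ks + 3) k₂, w k * X k ≤ CP * (w (ks + 3) + w k₂) +
        CP * ∑ k ∈ Finset.Icc ks (k₂ + 3), w k * er n (κ k) (ν k) (a k)) →
    (∀ k ∈ T, ks + 4 ≤ k ∧ a k ^ q1 n ≤ Λ * μ) →
    ∃ (w : ℤ → ℝ≥0∞) (k₂ : ℤ),
      (∀ k, ks ≤ k → ∀ k' ≤ k, w k ≤ (2 ^ (((k - k' : ℤ) : ℝ) / 2) * a k / a k') ^ θ) ∧
      ∑ k ∈ T, min (a k ^ n)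
          (∑ l ∈ Finset.Icc (k - 1) (k + l₀ + 1), (X l + er n (κ l) (ν l) (a l))) ≤
        C * (μ ^ (1 + 1 / (4 * (n : ℝ))) + μ ^ 2 + ∑ k ∈ Finset.Icc ks k₂, w k * κ k)

/-- Summability of the damping factors. -/
def StKC : Prop := ∀ n : ℕ, 3 ≤ n → ∀ θ δ : ℝ, 0 < θ → 0 < δ → ∃ C : ℝ≥0, ∀ G : E n → ℝ≥0∞, Gd G →
  ∃ Ψ : ℤ → E n → ℝ≥0∞, (∀ k, Measurable (Ψ k)) ∧ (∀ x, ∑' k, Ψ k x ≤ C) ∧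
    ∀ (k : ℤ) (x y : E n) (w : ℝ≥0∞), x ∈ ball y (rho (k - 1)) →
      (∀ k' ≤ k, w ≤ (2 ^ (((k - k' : ℤ) : ℝ) / 2) * ah G y k / ah G y k') ^ θ) →
      w * psi (lam G y k) δ (mq G x) ≤ Ψ k x

/-- Total cost seen from one point. -/
def StNY : Prop := ∀ (n m : ℕ), 3 ≤ n → ∀ Co : ℝ≥0, ∃ (c : ℝ≥0) (δ₀ : ℝ), 0 < c ∧ 0 < δ₀ ∧
  δ₀ ≤ 1 / 4 ∧ ∀ δ : ℝ, 0 < δ → δ ≤ δ₀ → ∀ (Λ : ℝ≥0) (l₀ : ℕ), ∃ C : ℝ≥0,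
  ∀ (U : E n → Mt m n) (v : E n → V m) (G ν k' kf h : E n → ℝ≥0∞), Str Co U v G ν k' kf h →
    ∃ Ψ : ℤ → E n → ℝ≥0∞, (∀ k, Measurable (Ψ k)) ∧ (∀ x, ∑' k, Ψ k x ≤ C) ∧
      ∀ (r : ℝ) (y : E n) (T : Set ℤ), r ≤ 1 / 2 →
        (∀ k ∈ T, ball y (rho (k - 6)) ⊆ ball 0 r ∧ ms ν y (k - 6) ≤ 2 * ms ν y k ∧
          ah G y k ^ q1 n ≤ Λ * ms ν y k) →
        ∑' k : T, cost c δ l₀ U G ν k' y k / ms ν y k ≤ C * (1 + ∫⁻ x in ball 0 r, ν x) +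
          C * ∑' k : ℤ, (∫⁻ x in ball y (rho (k - 1)), k' x * Ψ k x) / ms ν y (k - 2)

/-! ### Dyadic accounting -/

/-- Dyadic cells. -/
def StG0 : Prop := ∀ n : ℕ, 3 ≤ n →
  (∀ (k : ℤ) (z : Fin n → ℤ), MeasurableSet (cell k z) ∧
    volume (cell k z) = ENNReal.ofReal (rho k ^ n) ∧ ctr k z ∈ cell k z ∧
    ∀ x ∈ cell k z, ‖x - ctr k z‖ < n * rho k ∧ ∀ k' ≤ k, idx k' x = idx k' (ctr k z)) ∧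
  (∀ p : ℤ → (Fin n → ℤ) → Prop, MeasurableSet (Un p)) ∧
  ∃ C : ℝ≥0, ∃ L : ℕ, ∀ G : E n → ℝ≥0∞, Gd G →
    (∀ j, Oj G j = Un (Fj G j) ∧ Oj G (j + 1) ⊆ Oj G j ∧
      (∀ x ∈ Oj G j, (2 : ℝ≥0∞) ^ j < 4 * mq G x) ∧
      (∀ x, (2 : ℝ≥0∞) ^ (j + 4) < mq G x → x ∈ Oj G j) ∧
      ((2 : ℝ≥0∞) ^ j) ^ n * volume (Oj G j) ≤ C) ∧
    (∑' j : ℤ, ((2 : ℝ≥0∞) ^ j) ^ n * volume (Oj G j) < ⊤) ∧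
    (∀ j j' k k' x, j ≤ j' → Fj G j k (idx k x) → (2 : ℝ≥0∞) ^ j' < gh G k' (idx k' x) → k ≤ k') ∧
    (∀ j k z, Fj G j k z → sz j k ≤ C ∧ gs G (ctr k z) (4 * n * rho k) ≤ 2 ^ (j + 4) ∧
      ∀ j', Fj G j' k z → j' ≤ j + L) ∧
    ∀ (j : ℤ) (p : ℤ → (Fin n → ℤ) → Prop), (∀ k z, p k z → Fj G j k z) →
      ∀ A : Set (E n), MeasurableSet A → volume (A ∩ Un p) =
        ∑' q : ℤ × (Fin n → ℤ), if p q.1 q.2 then volume (A ∩ cell q.1 q.2) else 0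

/-- Source-free cells. -/
def StGI : Prop := ∀ (n m : ℕ), 3 ≤ n → ∀ Co : ℝ≥0, ∃ (C₁ : ℝ≥0) (δ₀ : ℝ), 0 < δ₀ ∧
  ∀ δ : ℝ, 0 < δ → δ ≤ δ₀ → ∃ d₀ : ℝ≥0, 0 < d₀ ∧ ∀ d : ℝ≥0, d ≤ d₀ → ∀ J : ℕ, 1 ≤ J →
    2 * J * δ ≤ 1 →
    ∀ (U : E n → Mt m n) (v : E n → V m) (G ν k' kf h : E n → ℝ≥0∞), Str Co U v G ν k' kf h →
      ∀ (j k : ℤ) (z : Fin n → ℤ), Fj G j k z → ¬ isK G k' δ d j k z → ¬ isN ν d j k z →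
        ball (ctr k z) (8 * n * rho k) ⊆ ball 0 (1 / 2) →
        ∑ i ∈ Finset.Ico J (2 * J), ((2 : ℝ≥0∞) ^ (j + i)) ^ n * volume (cell k z ∩ Oj G (j + i)) ≤
          C₁ * sz j k ^ n

/-- Cells with large error, and cells with large mass at one level. -/
def StGK : Prop := ∀ n : ℕ, 3 ≤ n → ∀ (δ : ℝ) (d : ℝ≥0), 0 < δ → δ ≤ 1 → 0 < d → ∃ C : ℝ≥0,
  ∀ G ν k' : E n → ℝ≥0∞, Gd G → Measurable ν → Measurable k' →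
    (∑' j : ℤ, ((2 : ℝ≥0∞) ^ j) ^ n * volume (Un fun k z => Fj G j k z ∧ isK G k' δ d j k z) ≤
      C * ∫⁻ x, k' x) ∧
    ∀ (j : ℤ) (r : ℝ), ((2 : ℝ≥0∞) ^ j) ^ n * volume (Un fun k z => Fj G j k z ∧ isN ν d j k z ∧
      ball (ctr k z) (8 * n * rho k) ⊆ ball 0 r) ≤ C * ∫⁻ x in ball 0 r, ν x

/-- The cost of a cell is controlled by the chain through a nearby point. -/
def StSH : Prop := ∀ (n m : ℕ), 3 ≤ n → ∀ c : ℝ≥0, 0 < c → ∃ (c' : ℝ≥0) (J₀ : ℕ), 0 < c' ∧ c' ≤ 1 ∧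
  ∀ J : ℕ, J₀ ≤ J → ∃ (l₀ : ℕ) (d₀ C : ℝ≥0), 0 < d₀ ∧ ∀ d : ℝ≥0, d ≤ d₀ →
    ∀ δ : ℝ, 0 < δ → δ ≤ 1 / 4 →
    ∀ (Co : ℝ≥0) (U : E n → Mt m n) (v : E n → V m) (G ν k' kf h : E n → ℝ≥0∞),
      Str Co U v G ν k' kf h → ∀ (j k : ℤ) (z : Fin n → ℤ) (y : E n), Fj G j k z →
        ‖y - ctr k z‖ ≤ 3 / 4 * rho (k - (n + 4)) →
        ball y (rho (k - (n + 4) - 3)) ⊆ ball 0 (1 / 2) →
        ah G y (k - (n + 4)) ≤ C * sz j k ∧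
        ((2 : ℝ≥0∞) ^ j) ^ n * volume (bad G ν k' δ d c' J j ∩ cell k z) ≤
          C * cost c δ l₀ U G ν k' y (k - (n + 4))

/-- Total cost of the cells with large mass. -/
def StGN : Prop := ∀ (n m : ℕ), 3 ≤ n → ∀ Co : ℝ≥0, ∃ (c' : ℝ≥0) (J₀ : ℕ) (δ₀ : ℝ),
  0 < c' ∧ c' ≤ 1 ∧ 0 < δ₀ ∧ ∀ J : ℕ, J₀ ≤ J → ∃ d₀ : ℝ≥0, 0 < d₀ ∧ ∀ d : ℝ≥0, 0 < d → d ≤ d₀ →
    ∀ δ : ℝ, 0 < δ → δ ≤ δ₀ → ∃ C : ℝ≥0,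
    ∀ (U : E n → Mt m n) (v : E n → V m) (G ν k' kf h : E n → ℝ≥0∞), Str Co U v G ν k' kf h →
      ∀ r : ℝ, r ≤ 1 / 2 →
        ∑' j : ℤ, ((2 : ℝ≥0∞) ^ j) ^ n * volume (bad G ν k' δ d c' J j ∩
          Un fun k z => Fj G j k z ∧ isN ν d j k z ∧
            ball (ctr k z) (2 ^ (n + 12) * rho k) ⊆ ball 0 r) ≤
          C * (1 + (∫⁻ x in ball 0 r, ν x) ^ 2 + ∫⁻ x, k' x)

/-- The bound on the energy carried by `Zs`. -/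
def StP : Prop := ∀ (n m : ℕ), 3 ≤ n → ∀ Co : ℝ≥0, ∃ c' C : ℝ≥0, 0 < c' ∧ c' ≤ 1 ∧
  ∀ (U : E n → Mt m n) (v : E n → V m) (G ν k' kf h : E n → ℝ≥0∞), Str Co U v G ν k' kf h →
    ∀ r₁ r₂ : ℝ, 1 / 4 ≤ r₁ → r₁ < r₂ → r₂ ≤ 1 / 2 →
      DD G c' r₁ ≤ C * (1 / ENNReal.ofReal ((r₂ - r₁) ^ n) + (∫⁻ x in ball 0 r₂, ν x) ^ 2 +
        ∫⁻ x, k' x)

/-- The weak type bound on small balls. -/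
def StWk : Prop := ∀ (n m : ℕ), 3 ≤ n → ∀ Co η : ℝ≥0, 0 < η → ∃ (θ : ℝ) (C : ℝ≥0), 0 < θ ∧
  θ ≤ 1 / 8 ∧
  ∀ (U : E n → Mt m n) (v : E n → V m) (G ν k' kf h : E n → ℝ≥0∞), Str Co U v G ν k' kf h →
    ∀ t : ℝ≥0∞, t ^ n * volume (ball 0 θ ∩ {x | t < G x}) ≤
      η + C * ((∫⁻ x in ball 0 (1 / 4), ν x) + ∫⁻ x, k' x)

/-! ### Conclusion -/

/-- Decay on the unit ball. -/
def StH1 : Prop := ∀ (n m : ℕ), 3 ≤ n → ∃ (ε : ℝ≥0) (θ : ℝ), 0 < ε ∧ 0 < θ ∧ θ ≤ 1 / 2 ∧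
  ∀ (u : E n → V m) (Du : E n → Mt m n) (Ω : E n → Fin m → Fin m → Fin n → ℝ),
    Sol (ball 0 1) u Du Ω → Lf (ball 0 1) Ω ≤ ε → Weak (GG (ball 0 1) Du) 1 →
    Weak (GG (ball 0 θ) Du) (1 / 2)

/-- Decay on every ball. -/
def StH2 : Prop := ∀ (n m : ℕ), 3 ≤ n → ∃ (ε : ℝ≥0) (θ : ℝ), 0 < ε ∧ 0 < θ ∧ θ ≤ 1 / 2 ∧
  ∀ (u : E n → V m) (Du : E n → Mt m n) (Ω : E n → Fin m → Fin m → Fin n → ℝ),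
    Sol (ball 0 1) u Du Ω → ∀ (x₀ : E n) (r : ℝ) (M : ℝ≥0), 0 < r → ball x₀ r ⊆ ball 0 1 →
      Lf (ball x₀ r) Ω ≤ ε → Weak (GG (ball x₀ r) Du) M →
      Weak (GG (ball x₀ (θ * r)) Du) (M / 2)

/-- Continuity of measurable solutions. -/
def StH3 : Prop := ∀ (n m : ℕ), 3 ≤ n →
  ∀ (u : E n → V m) (Du : E n → Mt m n) (Ω : E n → Fin m → Fin m → Fin n → ℝ),
    Sol (ball 0 1) u Du Ω → Lf (ball 0 1) Ω < ⊤ →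
    ∃ w : E n → V m, ContinuousOn w (ball 0 1) ∧ w =ᵐ[volume.restrict (ball 0 1)] u

/-- Passage from the notions of the statement to measurable solutions. -/
def StL : Prop := ∀ (n m : ℕ), 3 ≤ n → ∀ p : ℝ, 1 ≤ p → p ≤ 2 →
  ∀ (Ω : E n → Fin m → Fin m → Fin n → ℝ) (u : E n → V m) (Du : E n → Mt m n),
    (∀ᵐ x ∂Spec.volB n, ∀ i j α, Ω x i j α = -Ω x j i α) →
    (∀ i j α, Spec.Lorentz p fun x => Ω x i j α) → Spec.InW u Du → Spec.Solves Ω Du →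
    ∃ (u' : E n → V m) (Du' : E n → Mt m n) (Ω' : E n → Fin m → Fin m → Fin n → ℝ),
      Sol (ball 0 1) u' Du' Ω' ∧ Lf (ball 0 1) Ω' < ⊤ ∧ u' =ᵐ[Spec.volB n] u

/-- Removable singularity for the divergence. -/
def StI1 : Prop := ∀ n : ℕ, 3 ≤ n → ∀ (X : E n → E n) (f : E n → ℝ),
  ContDiffOn ℝ 1 X (ball 0 1 \ {0}) →
  (∀ x ∈ ball (0 : E n) 1 \ {0}, ∑ α, Spec.pd (fun z => X z α) α x = f x) →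
  Integrable X (Spec.volB n) → Integrable f (Spec.volB n) →
  Tendsto (fun x : E n => ‖x‖ ^ (n - 1) * ‖X x‖) (𝓝[≠] 0) (𝓝 0) →
  ∀ φ, Spec.IsTest φ →
    ∫ x, ∑ α, X x α * Spec.pd φ α x ∂Spec.volB n = -∫ x, f x * φ x ∂Spec.volB n

/-- Radial bounds that give membership in Lorentz and Lebesgue classes. -/
def StI3 : Prop := ∀ n : ℕ, 3 ≤ n →
  (∀ (p C : ℝ) (f : E n → ℝ), 2 < p → Measurable f →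
    (∀ x ∈ ball (0 : E n) 1 \ {0}, |f x| ≤ C / (‖x‖ * √(1 - Real.log ‖x‖))) → Spec.Lorentz p f) ∧
  ∀ a : ℝ, 1 < a → Integrable (fun x : E n => (‖x‖ ^ n * (1 - Real.log ‖x‖) ^ a)⁻¹) (Spec.volB n)

/-- The counterexample. -/
def StI : Prop := ∀ n : ℕ, 3 ≤ n → ∀ p : ℝ, 2 < p → ¬ Spec.Good n p

end Pool.Agent.P.MP_28243e_an
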