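import Pool.Agent.P.MP_28243e_an.Basic
import Pool.Agent.P.MP_28243e_an.Stmts

/-! Closing the argument on the unit ball, and scaling to every ball. -/

namespace Pool.Agent.P.MP_28243e_an

open Set MeasureTheory Metric Filter Topology
open scoped ENNReal NNReal ContDiff RealInnerProductSpace Classical

namespace H1

variable {n m : ℕ}

theorem small (A b : ℝ≥0) (hb : 0 < b) : ∃ e : ℝ≥0, 0 < e ∧ ∀ e' ≤ e, A * e' ≤ b := by
  refine ⟨b / (A + 1), by positivity, fun e' he' => ?_⟩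
  calc A * e' ≤ (A + 1) * (b / (A + 1)) := by gcongr; exact le_self_add
    _ = b := by field_simp

theorem measurable_GG {O : Set (E n)} (hO : MeasurableSet O) {Du : E n → Mt m n}
    (h : Measurable Du) : Measurable (GG O Du) :=
  Measurable.indicator h.enorm hO

theorem GG_mono {O O' : Set (E n)} (h : O ⊆ O') (Du : E n → Mt m n) (x : E n) :
    GG O Du x ≤ GG O' Du x :=
  indicator_le_indicator_of_subset h (fun _ => zero_le) x

theorem level_subset {O O' : Set (E n)} (h : O ⊆ O') (Du : E n → Mt m n) (t : ℝ≥0∞) :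
    {x | t < GG O Du x} ⊆ O ∩ {x | t < GG O' Du x} := by
  intro x hx
  refine ⟨?_, lt_of_lt_of_le hx (GG_mono h Du x)⟩
  by_contra hxO
  have : GG O Du x = 0 := indicator_of_notMem hxO _
  simp only [mem_ofPred_eq, this] at hx
  exact not_lt_zero hx

theorem weak_mono {G G' : E n → ℝ≥0∞} {M : ℝ≥0} (h : ∀ x, G x ≤ G' x) (hW : Weak G' M) :
    Weak G M := fun t =>
  le_trans (by gcongr; exact h _) (hW t)

/-- The affine map sending the unit ball to the ball of centre `x₀` and radius `r`. -/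
def aff (x₀ : E n) (r : ℝ) (y : E n) : E n := x₀ + r • y

theorem aff_emb (x₀ : E n) {r : ℝ} (hr : 0 < r) : MeasurableEmbedding (aff x₀ r) :=
  ((Homeomorph.smulOfNeZero r hr.ne').trans (Homeomorph.addLeft x₀)).measurableEmbedding

theorem aff_pre (x₀ : E n) {r : ℝ} (hr : 0 < r) (ρ : ℝ) :
    aff x₀ r ⁻¹' ball x₀ (ρ * r) = ball 0 ρ := by
  ext y
  simp only [aff, mem_preimage, mem_ball, dist_self_add_left, dist_zero_right, norm_smul,
    Real.norm_of_nonneg hr.le]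
  rw [mul_comm r]
  exact mul_lt_mul_iff_left₀ hr

theorem aff_map (x₀ : E n) {r : ℝ} (hr : 0 < r) :
    Measure.map (aff x₀ r) volume = ENNReal.ofReal ((r ^ n)⁻¹) • (volume : Measure (E n)) := by
  have : aff x₀ r = (fun z => x₀ + z) ∘ fun y : E n => r • y := rfl
  rw [this, ← Measure.map_map (measurable_const_add x₀) (measurable_const_smul r),
    Measure.map_addHaar_smul volume hr.ne', Measure.map_smul, map_add_left_eq_self,
    finrank_euclideanSpace, Fintype.card_fin, abs_of_nonneg (by positivity)]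

theorem aff_map_res (x₀ : E n) {r : ℝ} (hr : 0 < r) :
    Measure.map (aff x₀ r) (volume.restrict (ball 0 1)) =
      ENNReal.ofReal ((r ^ n)⁻¹) • (volume : Measure (E n)).restrict (ball x₀ r) := by
  have h := aff_pre x₀ hr 1
  rw [one_mul] at h
  rw [← h, ← (aff_emb x₀ hr).restrict_map, aff_map x₀ hr, Measure.restrict_smul]

theorem aff_vol (x₀ : E n) {r : ℝ} (hr : 0 < r) (s : Set (E n)) :
    volume (aff x₀ r ⁻¹' s) = ENNReal.ofReal ((r ^ n)⁻¹) * volume s := by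
  rw [← (aff_emb x₀ hr).map_apply, aff_map x₀ hr, Measure.smul_apply, smul_eq_mul]

theorem aff_int (x₀ : E n) {r : ℝ} (hr : 0 < r) (F : E n → ℝ) :
    ∫ y in ball 0 1, F (aff x₀ r y) = (r ^ n)⁻¹ * ∫ x in ball x₀ r, F x := by
  rw [← (aff_emb x₀ hr).integral_map, aff_map_res x₀ hr, integral_smul_measure,
    ENNReal.toReal_ofReal (by positivity), smul_eq_mul]

theorem aff_lint (x₀ : E n) {r : ℝ} (hr : 0 < r) (F : E n → ℝ≥0∞) :
    ∫⁻ y in ball 0 1, F (aff x₀ r y) = ENNReal.ofReal ((r ^ n)⁻¹) * ∫⁻ x in ball x₀ r, F x := by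
  rw [← (aff_emb x₀ hr).lintegral_map, aff_map_res x₀ hr, lintegral_smul_measure, smul_eq_mul]

theorem aff_integrable {F : Type} [NormedAddCommGroup F] (x₀ : E n) {r : ℝ} (hr : 0 < r)
    {f : E n → F} (hf : IntegrableOn f (ball x₀ r)) :
    IntegrableOn (fun y => f (aff x₀ r y)) (ball 0 1) := by
  have : Integrable f (Measure.map (aff x₀ r) (volume.restrict (ball 0 1))) := by
    rw [aff_map_res x₀ hr]
    exact hf.smul_measure ENNReal.ofReal_ne_top
  exact ((aff_emb x₀ hr).integrable_map_iff).1 this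

/-- Push-forward of a test function. -/
noncomputable def psh (x₀ : E n) (r : ℝ) (φ : E n → ℝ) (x : E n) : ℝ := φ (r⁻¹ • (x - x₀))

theorem psh_aff (x₀ : E n) {r : ℝ} (hr : 0 < r) (φ : E n → ℝ) (y : E n) :
    psh x₀ r φ (aff x₀ r y) = φ y := by
  simp [psh, aff, smul_smul, hr.ne']

theorem psh_test (x₀ : E n) {r : ℝ} (hr : 0 < r) {φ : E n → ℝ} (h : IsTest (ball 0 1) φ) :
    IsTest (ball x₀ r) (psh x₀ r φ) := by
  let e : E n ≃ₜ E n :=
    (Homeomorph.subRight x₀).trans (Homeomorph.smulOfNeZero r⁻¹ (inv_ne_zero hr.ne'))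
  have he : psh x₀ r φ = φ ∘ e := rfl
  refine ⟨h.1.comp ((contDiff_id.sub contDiff_const).const_smul _), ?_, ?_⟩
  · rw [he]
    exact h.2.1.comp_homeomorph e
  · intro x hx
    have h1 : e x ∈ tsupport φ := by
      rw [he] at hx
      exact tsupport_comp_subset_preimage φ e.continuous hx
    have h2 := h.2.2 h1
    have h3 : e x = r⁻¹ • (x - x₀) := rfl
    rw [h3, mem_ball, dist_zero_right, norm_smul, Real.norm_of_nonneg (by positivity),
      inv_mul_lt_iff₀ hr, mul_one] at h2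
    rwa [mem_ball, dist_eq_norm]

theorem psh_pd (x₀ : E n) {r : ℝ} (hr : 0 < r) {φ : E n → ℝ} (h : IsTest (ball 0 1) φ)
    (α : Fin n) (y : E n) : pd φ α y = r * pd (psh x₀ r φ) α (aff x₀ r y) := by
  have hd : DifferentiableAt ℝ (psh x₀ r φ) (aff x₀ r y) :=
    (psh_test x₀ hr h).1.differentiable (by simp) _
  have ha : HasFDerivAt (aff x₀ r) (r • ContinuousLinearMap.id ℝ (E n)) y :=
    ((hasFDerivAt_id y).const_smul r).const_add x₀
  have := (hd.hasFDerivAt.comp y ha).fderiv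
  have e : psh x₀ r φ ∘ aff x₀ r = φ := funext (psh_aff x₀ hr φ)
  rw [e] at this
  simp [pd, this]

theorem psh_grad (x₀ : E n) {r : ℝ} (hr : 0 < r) {φ : E n → ℝ} (h : IsTest (ball 0 1) φ)
    (y : E n) : gradient φ y = r • gradient (psh x₀ r φ) (aff x₀ r y) := by
  ext α
  simp only [PiLp.smul_apply, gradient_apply, smul_eq_mul]
  exact psh_pd x₀ hr h α y

theorem row_smul (c : ℝ) (A : Mt m n) (i : Fin m) : row (c • A) i = c • row A i := by
  ext α
  simp [row]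

theorem sig_smul (hn : 3 ≤ n) {c : ℝ} (hc : 0 ≤ c) (A : Mt m n) :
    sig n (c • A) = c ^ (n - 1) • sig n A := by
  have : n - 1 = n - 2 + 1 := by omega
  simp only [sig, norm_smul, Real.norm_of_nonneg hc, smul_smul, this]
  congr 1
  ring

theorem sol_restrict {O O' : Set (E n)} (hO : MeasurableSet O) (h : O' ⊆ O) {u : E n → V m}
    {Du : E n → Mt m n} {Ω : E n → Fin m → Fin m → Fin n → ℝ} (hS : Sol O u Du Ω) :
    Sol O' u Du Ω := by
  have hφ0 : ∀ φ, IsTest O' φ → ∀ x ∈ O \ O', φ x = 0 ∧ fderiv ℝ φ x = 0 := fun φ hφ x hx =>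
    ⟨image_eq_zero_of_notMem_tsupport fun h' => hx.2 (hφ.2.2 h'),
      fderiv_of_notMem_tsupport ℝ fun h' => hx.2 (hφ.2.2 h')⟩
  have hT : ∀ φ, IsTest O' φ → IsTest O φ := fun φ hφ => ⟨hφ.1, hφ.2.1, hφ.2.2.trans h⟩
  refine ⟨hS.mu, hS.mDu, hS.mΩ, hS.anti, fun i => ⟨(hS.wg i).1.mono_set h,
    (hS.wg i).2.1.mono_set h, fun φ hφ α => ?_⟩,
    lt_of_le_of_lt (lintegral_mono_set h) hS.fin, fun i φ hφ => ?_⟩
  · have := (hS.wg i).2.2 φ (hT φ hφ) α
    rwa [setIntegral_eq_of_subset_of_forall_sdiff_eq_zero hO h,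
      setIntegral_eq_of_subset_of_forall_sdiff_eq_zero hO h] at this
    · intro x hx
      rw [(hφ0 φ hφ x hx).1, mul_zero]
    · intro x hx
      simp [pd, (hφ0 φ hφ x hx).2]
  · have := hS.eqn i φ (hT φ hφ)
    rwa [setIntegral_eq_of_subset_of_forall_sdiff_eq_zero hO h,
      setIntegral_eq_of_subset_of_forall_sdiff_eq_zero hO h] at this
    · intro x hx
      rw [(hφ0 φ hφ x hx).1, mul_zero]
    · intro x hx
      simp [gradient, (hφ0 φ hφ x hx).2]

theorem sol_scale (hn : 3 ≤ n) (x₀ : E n) {r a : ℝ} (hr : 0 < r) (ha : 0 ≤ a) {u : E n → V m}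
    {Du : E n → Mt m n} {Ω : E n → Fin m → Fin m → Fin n → ℝ} (hS : Sol (ball x₀ r) u Du Ω) :
    Sol (ball 0 1) (fun y => a • u (aff x₀ r y)) (fun y => (a * r) • Du (aff x₀ r y))
      (fun y i j α => r * Ω (aff x₀ r y) i j α) := by
  have hA := (aff_emb x₀ hr).measurable
  refine ⟨(hS.mu.comp hA).const_smul a, (hS.mDu.comp hA).const_smul (a * r), ?_, ?_,
    fun i => ⟨?_, ?_, fun φ hφ α => ?_⟩, ?_, fun i φ hφ => ?_⟩
  · exact (hS.mΩ.comp hA).const_smul r
  · intro x i j α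
    rw [hS.anti]
    ring
  · exact (aff_integrable x₀ hr (hS.wg i).1).const_mul a
  · simp only [row_smul]
    exact (aff_integrable x₀ hr (hS.wg i).2.1).smul (a * r)
  · have h1 := (hS.wg i).2.2 _ (psh_test x₀ hr hφ) α
    have h2 := aff_int x₀ hr fun x => u x i * pd (psh x₀ r φ) α x
    have h3 := aff_int x₀ hr fun x => row (Du x) i α * psh x₀ r φ x
    calc ∫ y in ball 0 1, (a • u (aff x₀ r y)) i * pd φ α y
        = ∫ y in ball 0 1, a * r * (u (aff x₀ r y) i * pd (psh x₀ r φ) α (aff x₀ r y)) := by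
          congr 1
          funext y
          rw [psh_pd x₀ hr hφ α y, PiLp.smul_apply, smul_eq_mul]
          ring
      _ = -∫ y in ball 0 1, a * r * (row (Du (aff x₀ r y)) i α * psh x₀ r φ (aff x₀ r y)) := by
          rw [integral_const_mul, integral_const_mul, h2, h3, h1]
          ring
      _ = _ := by
          congr 2
          funext y
          simp only [psh_aff x₀ hr, row_smul, PiLp.smul_apply, smul_eq_mul]
          ring
  · have h2 := aff_lint x₀ hr fun x => ‖Du x‖ₑ ^ n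
    simp only [enorm_smul, mul_pow]
    rw [lintegral_const_mul' _ _ (ENNReal.pow_ne_top enorm_ne_top), h2]
    exact ENNReal.mul_lt_top (ENNReal.pow_lt_top enorm_lt_top)
      (ENNReal.mul_lt_top ENNReal.ofReal_lt_top hS.fin)
  · have h1 := hS.eqn i _ (psh_test x₀ hr hφ)
    have h2 := aff_int x₀ hr fun x => ⟪row (sig n (Du x)) i, gradient (psh x₀ r φ) x⟫
    have h3 := aff_int x₀ hr fun x =>
      (∑ j, ∑ α, Ω x i j α * sig n (Du x) (j, α)) * psh x₀ r φ x
    have har : 0 ≤ a * r := by positivity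
    calc ∫ y in ball 0 1, ⟪row (sig n ((a * r) • Du (aff x₀ r y))) i, gradient φ y⟫
        = ∫ y in ball 0 1, (a * r) ^ (n - 1) * r *
            ⟪row (sig n (Du (aff x₀ r y))) i, gradient (psh x₀ r φ) (aff x₀ r y)⟫ := by
          congr 1
          funext y
          rw [psh_grad x₀ hr hφ y, sig_smul hn har, row_smul, real_inner_smul_left,
            real_inner_smul_right]
          ring
      _ = ∫ y in ball 0 1, (a * r) ^ (n - 1) * r *
            ((∑ j, ∑ α, Ω (aff x₀ r y) i j α * sig n (Du (aff x₀ r y)) (j, α)) *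
              psh x₀ r φ (aff x₀ r y)) := by
          rw [integral_const_mul, integral_const_mul, h2, h3, h1]
      _ = _ := by
          congr 1
          funext y
          rw [psh_aff x₀ hr, sig_smul hn har, ← mul_assoc]
          congr 1
          simp only [Finset.mul_sum, PiLp.smul_apply, smul_eq_mul]
          refine Finset.sum_congr rfl fun j _ => Finset.sum_congr rfl fun α _ => ?_
          ring

theorem lint_Ioi_scale {a : ℝ} (ha : 0 < a) (F : ℝ → ℝ≥0∞) :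
    ∫⁻ t in Ioi (0 : ℝ), F (a * t) = ENNReal.ofReal a⁻¹ * ∫⁻ t in Ioi (0 : ℝ), F t := by
  have hemb : MeasurableEmbedding fun t : ℝ => a * t :=
    (Homeomorph.mulLeft₀ a ha.ne').measurableEmbedding
  have hpre : (fun t : ℝ => a * t) ⁻¹' Ioi 0 = Ioi 0 := by
    ext t
    simp [mul_pos_iff_of_pos_left ha]
  rw [← hemb.lintegral_map]
  conv_lhs => rw [← hpre, ← hemb.restrict_map, Real.map_volume_mul_left ha.ne',
    Measure.restrict_smul, lintegral_smul_measure, abs_of_pos (inv_pos.2 ha), smul_eq_mul]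

theorem lf_scale (hn : 3 ≤ n) (x₀ : E n) {r : ℝ} (hr : 0 < r)
    (Ω : E n → Fin m → Fin m → Fin n → ℝ) :
    Lf (ball 0 1) (fun y i j α => r * Ω (aff x₀ r y) i j α) = Lf (ball x₀ r) Ω := by
  have hn0 : (n : ℝ) ≠ 0 := by
    have : n ≠ 0 := by omega
    exact_mod_cast this
  have hr2 : 0 < (r ^ 2)⁻¹ := by positivity
  have h1 : ∀ t : ℝ, {y | y ∈ ball (0 : E n) 1 ∧ t < sqO fun i j α => r * Ω (aff x₀ r y) i j α} =
      aff x₀ r ⁻¹' {x | x ∈ ball x₀ r ∧ (r ^ 2)⁻¹ * t < sqO (Ω x)} := by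
    intro t
    ext y
    have hb : y ∈ ball (0 : E n) 1 ↔ aff x₀ r y ∈ ball x₀ r := by
      rw [← aff_pre x₀ hr 1, one_mul, mem_preimage]
    have hq : (sqO fun i j α => r * Ω (aff x₀ r y) i j α) = r ^ 2 * sqO (Ω (aff x₀ r y)) := by
      simp only [sqO, Finset.mul_sum, mul_pow]
    simp only [mem_ofPred_eq, mem_preimage, hb, hq, inv_mul_lt_iff₀ (by positivity : 0 < r ^ 2)]
  have h2 : ENNReal.ofReal ((r ^ n)⁻¹) ^ (2 / (n : ℝ)) = ENNReal.ofReal ((r ^ 2)⁻¹) := by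
    rw [ENNReal.ofReal_rpow_of_pos (by positivity), ← inv_pow, ← inv_pow, ← Real.rpow_natCast,
      ← Real.rpow_mul (by positivity), mul_div_cancel₀ _ hn0, Real.rpow_two]
  unfold Lf
  simp only [h1, aff_vol x₀ hr]
  simp only [ENNReal.mul_rpow_of_nonneg _ _ (by positivity : 0 ≤ 2 / (n : ℝ)), h2]
  rw [lintegral_const_mul' _ _ ENNReal.ofReal_ne_top,
    lint_Ioi_scale hr2 fun t => volume {x | x ∈ ball x₀ r ∧ t < sqO (Ω x)} ^ (2 / (n : ℝ)),
    ← mul_assoc, ← ENNReal.ofReal_mul hr2.le, mul_inv_cancel₀ hr2.ne', ENNReal.ofReal_one, one_mul]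

theorem weak_scale (x₀ : E n) {r : ℝ} (hr : 0 < r) {M : ℝ≥0} (hM : 0 < M) (ρ : ℝ) (N : ℝ≥0)
    (Du : E n → Mt m n) :
    Weak (GG (ball 0 ρ) fun y => (((M : ℝ))⁻¹ * r) • Du (aff x₀ r y)) N ↔
      Weak (GG (ball x₀ (ρ * r)) Du) (N * M) := by
  lift r to ℝ≥0 using hr.le
  have hr' : 0 < r := by exact_mod_cast hr
  set l : ℝ≥0∞ := ((M⁻¹ * r : ℝ≥0) : ℝ≥0∞) with hl
  have hl0 : l ≠ 0 := by
    rw [hl]
    exact_mod_cast (by positivity : M⁻¹ * r ≠ 0)
  have hlt : l ≠ ⊤ := ENNReal.coe_ne_top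
  have h1 : ∀ y, GG (ball 0 ρ) (fun y => (((M : ℝ))⁻¹ * r) • Du (aff x₀ r y)) y =
      l * GG (ball x₀ (ρ * r)) Du (aff x₀ r y) := by
    intro y
    have hb : y ∈ ball (0 : E n) ρ ↔ aff x₀ r y ∈ ball x₀ (ρ * r) := by
      rw [← aff_pre x₀ hr ρ, mem_preimage]
    by_cases hy : y ∈ ball (0 : E n) ρ
    · simp only [GG, indicator_of_mem hy, indicator_of_mem (hb.1 hy), enorm_smul]
      congr 1
      rw [hl, ← NNReal.coe_inv, ← NNReal.coe_mul, NNReal.enorm_eq]
    · simp only [GG, indicator_of_notMem hy, indicator_of_notMem (mt hb.2 hy), mul_zero]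
  have h2 : ∀ s : ℝ≥0∞, (l * s) ^ n *
      volume {y | l * s < GG (ball 0 ρ) (fun y => (((M : ℝ))⁻¹ * r) • Du (aff x₀ r y)) y} =
      ((M : ℝ≥0∞) ^ n)⁻¹ * (s ^ n * volume {x | s < GG (ball x₀ (ρ * r)) Du x}) := by
    intro s
    have : {y | l * s < GG (ball 0 ρ) (fun y => (((M : ℝ))⁻¹ * r) • Du (aff x₀ r y)) y} =
        aff x₀ r ⁻¹' {x | s < GG (ball x₀ (ρ * r)) Du x} := by
      ext y
      simp only [mem_ofPred_eq, mem_preimage, h1, ENNReal.mul_lt_mul_iff_right hl0 hlt]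
    rw [this, aff_vol x₀ hr, mul_pow]
    have h3 : l ^ n * ENNReal.ofReal (((r : ℝ) ^ n)⁻¹) = ((M : ℝ≥0∞) ^ n)⁻¹ := by
      rw [← NNReal.coe_pow, ← NNReal.coe_inv, ENNReal.ofReal_coe_nnreal, hl, ← ENNReal.coe_pow,
        ← ENNReal.coe_mul, ← ENNReal.coe_pow, ← ENNReal.coe_inv (by positivity)]
      congr 1
      rw [mul_pow, inv_pow]
      field_simp
    rw [← h3]
    ring
  have hM0 : (M : ℝ≥0∞) ^ n ≠ 0 := pow_ne_zero _ (by exact_mod_cast hM.ne')
  have hMt : (M : ℝ≥0∞) ^ n ≠ ⊤ := ENNReal.pow_ne_top ENNReal.coe_ne_top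
  have h4 : ∀ X : ℝ≥0∞, ((M : ℝ≥0∞) ^ n)⁻¹ * X ≤ (N : ℝ≥0∞) ^ n ↔
      X ≤ ((N * M : ℝ≥0) : ℝ≥0∞) ^ n := by
    intro X
    rw [ENNReal.inv_mul_le_iff hM0 hMt, ENNReal.coe_mul, mul_pow, mul_comm]
  constructor
  · intro h s
    rw [← h4, ← h2]
    exact h _
  · intro h t
    have := h (l⁻¹ * t)
    rw [← h4, ← h2, ← mul_assoc, ENNReal.mul_inv_cancel hl0 hlt, one_mul] at this
    exact this

end H1

open H1 in
theorem stH1 (h8 : StA8) (hST : StST) (hP : StP) (hWk : StWk) (hIt : StIt) : StH1 := by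
  intro n m hn
  obtain ⟨Co, hCo⟩ := hST n m hn
  obtain ⟨c, CP, hc0, hc1, hCP⟩ := hP n m hn Co
  obtain ⟨CS, hCS⟩ := hCo c hc0 hc1
  obtain ⟨θ, CW, hθ0, hθ1, hCW⟩ := hWk n m hn Co ((1 / 2) ^ n / 2) (by positivity)
  obtain ⟨CI, hCI⟩ := hIt n
  obtain ⟨C8, hC8⟩ := h8 n hn
  obtain ⟨s, hs0, hs⟩ := small CW ((1 / 2) ^ n / 4) (by positivity)
  obtain ⟨e1, he1, h1⟩ := small (CP * CS) (1 / 2) (by positivity)
  obtain ⟨e2, he2, h2⟩ := small CS s hs0
  obtain ⟨e3, he3, h3⟩ := small (CS * (1 + CI * (CP * 4 ^ n + 1))) (s ^ 2) (by positivity)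
  set ε : ℝ≥0 := min (min 1 e1) (min e2 e3) with hε
  have hε0 : 0 < ε := by simp [hε, he1, he2, he3]
  have hε1 : ε ≤ 1 := (min_le_left _ _).trans (min_le_left _ _)
  have k1 := h1 ε ((min_le_left _ _).trans (min_le_right _ _))
  have k2 := h2 ε ((min_le_right _ _).trans (min_le_left _ _))
  have k3 := h3 ε ((min_le_right _ _).trans (min_le_right _ _))
  have k0 := hs s le_rfl
  refine ⟨ε, θ, hε0, hθ0, by linarith, ?_⟩
  intro u Du Ω hS hL hW
  have hsub : ball (0 : E n) θ ⊆ ball 0 1 := ball_subset_ball (by linarith)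
  set G := GG (ball (0 : E n) 1) Du with hG
  have hGm : Measurable G := measurable_GG measurableSet_ball hS.mDu
  by_cases hpos : ∫⁻ x, G x = 0
  · intro t
    have h0 : ∀ᵐ x, G x = 0 := (lintegral_eq_zero_iff hGm).1 hpos
    have : volume {x | t < GG (ball (0 : E n) θ) Du x} = 0 := by
      refine measure_mono_null (fun x hx => ?_) (ae_iff.1 h0)
      have := lt_of_lt_of_le hx (GG_mono hsub Du x)
      exact (lt_of_le_of_lt zero_le this).ne'
    rw [this, mul_zero]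
    exact zero_le
  have hGd : Gd G := by
    refine ⟨hGm, hW, ?_, pos_iff_ne_zero.2 hpos⟩
    have : (fun x => G x ^ n) = (ball (0 : E n) 1).indicator fun x => ‖Du x‖ₑ ^ n := by
      funext x
      by_cases hx : x ∈ ball (0 : E n) 1
      · simp [hG, GG, hx]
      · simp only [hG, GG, indicator_of_notMem hx]
        exact zero_pow (by omega)
    rw [this, lintegral_indicator measurableSet_ball]
    exact hS.fin
  obtain ⟨U, v, ν, k, kf, h, hStr, hk, hν⟩ := hCS u Du Ω ε hS hGd hε0 hε1 hL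
  have hhalf : (CP : ℝ≥0∞) * (CS * ε) ≤ 1 / 2 := by
    have : ((CP * CS * ε : ℝ≥0) : ℝ≥0∞) ≤ ((1 / 2 : ℝ≥0) : ℝ≥0∞) := ENNReal.coe_le_coe.2 k1
    simpa [mul_assoc] using this
  have hD : DD G c (1 / 4) ≤ CI * (CP * 4 ^ n + 1) := by
    have := hCI (fun r => DD G c r) (1 / 4) (1 / 2) (∫⁻ x, mq G x ^ n) CP 1 (by norm_num)
      (hC8 G hGd).2.2.1 (fun r _ => setLIntegral_le_lintegral _ _) ?_
    · refine this.trans (le_of_eq ?_)
      congr 2
      have h4 : ENNReal.ofReal (((1 : ℝ) / 2 - 1 / 4) ^ n) = (4 ^ n)⁻¹ := by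
        rw [ENNReal.ofReal_pow (by norm_num), ENNReal.inv_pow]
        congr 1
        rw [show (1 : ℝ) / 2 - 1 / 4 = 4⁻¹ by norm_num, ENNReal.ofReal_inv_of_pos (by norm_num)]
        simp
      rw [h4, div_eq_mul_inv, inv_inv]
    · intro r₁ r₂ ha hlt hb
      have := hCP U v G ν k kf h hStr r₁ r₂ ha hlt hb
      refine this.trans ?_
      calc (CP : ℝ≥0∞) * (1 / ENNReal.ofReal ((r₂ - r₁) ^ n) + (∫⁻ x in ball 0 r₂, ν x) ^ 2 +
            ∫⁻ x, k x)
          ≤ CP * (1 / ENNReal.ofReal ((r₂ - r₁) ^ n) + CS * ε * (1 + DD G c r₂) + CS * ε) := by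
            gcongr
            exact hν r₂
        _ = CP * (CS * ε) * DD G c r₂ + CP / ENNReal.ofReal ((r₂ - r₁) ^ n) +
            (CP * (CS * ε) + CP * (CS * ε)) := by
            simp only [div_eq_mul_inv]
            ring
        _ ≤ 1 / 2 * DD G c r₂ + CP / ENNReal.ofReal ((r₂ - r₁) ^ n) + (1 / 2 + 1 / 2) := by
            gcongr
        _ = DD G c r₂ / 2 + CP / ENNReal.ofReal ((r₂ - r₁) ^ n) + 1 := by
            rw [ENNReal.add_halves]
            simp only [div_eq_mul_inv, one_mul, mul_comm]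
  have hνs : ∫⁻ x in ball 0 (1 / 4), ν x ≤ s := by
    have h5 : (∫⁻ x in ball 0 (1 / 4), ν x) ^ 2 ≤ (s : ℝ≥0∞) ^ 2 := by
      calc _ ≤ (CS : ℝ≥0∞) * ε * (1 + DD G c (1 / 4)) := hν _
        _ ≤ CS * ε * (1 + CI * (CP * 4 ^ n + 1)) := by gcongr
        _ = ((CS * (1 + CI * (CP * 4 ^ n + 1)) * ε : ℝ≥0) : ℝ≥0∞) := by push_cast; ring
        _ ≤ ((s ^ 2 : ℝ≥0) : ℝ≥0∞) := ENNReal.coe_le_coe.2 k3
        _ = _ := by push_cast; rfl
    exact (ENNReal.pow_le_pow_left_iff two_ne_zero).1 h5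
  have hks : ∫⁻ x, k x ≤ s := hk.trans (by exact_mod_cast k2)
  intro t
  calc t ^ n * volume {x | t < GG (ball (0 : E n) θ) Du x}
      ≤ t ^ n * volume (ball 0 θ ∩ {x | t < G x}) := by
        gcongr
        exact level_subset hsub Du t
    _ ≤ (((1 / 2) ^ n / 2 : ℝ≥0) : ℝ≥0∞) + CW * (s + s) := by
        refine (hCW U v G ν k kf h hStr t).trans ?_
        gcongr
    _ = (((1 / 2) ^ n / 2 + (CW * s + CW * s) : ℝ≥0) : ℝ≥0∞) := by push_cast; ring
    _ ≤ (((1 / 2) ^ n / 2 + ((1 / 2) ^ n / 4 + (1 / 2) ^ n / 4) : ℝ≥0) : ℝ≥0∞) := by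
        gcongr
    _ = ((1 / 2 : ℝ≥0) : ℝ≥0∞) ^ n := by
        rw [← ENNReal.coe_pow]
        congr 1
        ring

open H1 in
theorem stH2 (h1 : StH1) : StH2 := by
  intro n m hn
  obtain ⟨ε, θ, hε, hθ0, hθ1, h⟩ := h1 n m hn
  refine ⟨ε, θ, hε, hθ0, hθ1, fun u Du Ω hS x₀ r M hr hsub hL hW => ?_⟩
  rcases eq_or_lt_of_le (zero_le : 0 ≤ M) with hM | hM
  · subst hM
    rw [zero_div]
    exact weak_mono (GG_mono (ball_subset_ball (by nlinarith)) Du) hW
  have hS' := sol_scale hn x₀ hr (a := (M : ℝ)⁻¹) (by positivity)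
    (sol_restrict measurableSet_ball hsub hS)
  have := h _ _ _ hS' (by rw [lf_scale hn x₀ hr]; exact hL)
    ((weak_scale x₀ hr hM 1 1 Du).2 (by rwa [one_mul, one_mul]))
  rw [weak_scale x₀ hr hM] at this
  convert this using 1
  ring

end Pool.Agent.P.MP_28243e_an
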