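import Pool.Agent.P.MP_28243e_an.H3L

/-! From the decay of the weak norm to continuity. -/

namespace Pool.Agent.P.MP_28243e_an

open Set MeasureTheory Metric Filter Topology ENNReal
open scoped NNReal ContDiff RealInnerProductSpace Classical

namespace H3

variable {n m : ℕ}

theorem lf_mono {O O' : Set (E n)} (h : O ⊆ O') (Ω : E n → Fin m → Fin m → Fin n → ℝ) :
    Lf O Ω ≤ Lf O' Ω := by
  unfold Lf
  refine lintegral_mono fun t => ENNReal.rpow_le_rpow (measure_mono fun x hx => ⟨h hx.1, hx.2⟩) ?_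
  positivity

theorem lf_small (hn : 3 ≤ n) {Ω : E n → Fin m → Fin m → Fin n → ℝ}
    (hΩ : Lf (ball 0 1) Ω < ⊤) {x₀ : E n} (hx : x₀ ∈ ball (0 : E n) 1) {ε : ℝ≥0} (hε : 0 < ε) :
    ∃ r : ℝ, 0 < r ∧ ball x₀ r ⊆ ball 0 1 ∧ Lf (ball x₀ r) Ω ≤ ε := by
  obtain ⟨r₀, hr₀, hsub⟩ := Metric.isOpen_iff.1 isOpen_ball x₀ hx
  have hn0 : (0 : ℝ) < n := by exact_mod_cast (by omega : 0 < n)
  have hpos : ∀ j : ℕ, 0 < r₀ * (1 / ((j : ℝ) + 1)) := fun j => by positivity
  have hle : ∀ j : ℕ, r₀ * (1 / ((j : ℝ) + 1)) ≤ r₀ := fun j => by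
    refine mul_le_of_le_one_right hr₀.le ?_
    rw [div_le_one (by positivity)]
    linarith [(Nat.cast_nonneg j : (0 : ℝ) ≤ j)]
  have hvol : Tendsto (fun j : ℕ => volume (ball x₀ (r₀ * (1 / ((j : ℝ) + 1)))) ^ (2 / (n : ℝ)))
      atTop (𝓝 0) := by
    have h1 : Tendsto (fun j : ℕ => vb n * (r₀ * (1 / ((j : ℝ) + 1))) ^ n) atTop
        (𝓝 (vb n * (r₀ * 0) ^ n)) :=
      ((tendsto_one_div_add_atTop_nhds_zero_nat.const_mul r₀).pow n).const_mul _
    rw [mul_zero, zero_pow (by omega), mul_zero] at h1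
    have h2 := ENNReal.tendsto_ofReal h1
    rw [ENNReal.ofReal_zero] at h2
    have h3 := (ENNReal.continuous_rpow_const (y := 2 / (n : ℝ))).continuousAt.tendsto.comp h2
    rw [ENNReal.zero_rpow_of_pos (by positivity)] at h3
    refine h3.congr fun j => ?_
    simp only [Function.comp]
    rw [vol_ball x₀ (hpos j)]
  have hlim : Tendsto (fun j : ℕ => Lf (ball x₀ (r₀ * (1 / ((j : ℝ) + 1)))) Ω) atTop
      (𝓝 (∫⁻ _ in Ioi (0 : ℝ), 0)) := by
    unfold Lf
    refine tendsto_lintegral_of_dominated_convergence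
      (fun t => volume {x | x ∈ ball (0 : E n) 1 ∧ t < sqO (Ω x)} ^ (2 / (n : ℝ)))
      (fun j => ?_) (fun j => Eventually.of_forall fun t => ?_) hΩ.ne
      (Eventually.of_forall fun t => ?_)
    · refine Measurable.pow_const (Antitone.measurable fun s t hst => ?_) _
      exact measure_mono fun x hx => ⟨hx.1, lt_of_le_of_lt hst hx.2⟩
    · exact ENNReal.rpow_le_rpow
        (measure_mono fun x hx => ⟨hsub (ball_subset_ball (hle j) hx.1), hx.2⟩) (by positivity)
    · refine tendsto_of_tendsto_of_tendsto_of_le_of_le tendsto_const_nhds hvol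
        (fun j => zero_le) fun j => ?_
      exact ENNReal.rpow_le_rpow (measure_mono fun x hx => hx.1) (by positivity)
  rw [lintegral_zero] at hlim
  obtain ⟨j, hj⟩ := (hlim.eventually (gt_mem_nhds (ENNReal.coe_pos.2 hε))).exists
  exact ⟨_, hpos j, (ball_subset_ball (hle j)).trans hsub, hj.le⟩

theorem weak_of_fin (hn : 3 ≤ n) {G : E n → ℝ≥0∞} (hG : Measurable G)
    (h : ∫⁻ x, G x ^ n < ⊤) : ∃ M : ℝ≥0, Weak G M := by
  obtain ⟨I, hI⟩ : ∃ I : ℝ≥0, ∫⁻ x, G x ^ n = I := ⟨_, (ENNReal.coe_toNNReal h.ne).symm⟩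
  refine ⟨max 1 I, fun t => ?_⟩
  calc t ^ n * volume {x | t < G x} ≤ t ^ n * volume {x | t ^ n ≤ G x ^ n} := by
        gcongr with x
        intro hx
        exact pow_le_pow_left' hx.le n
    _ ≤ ∫⁻ x, G x ^ n := mul_meas_ge_le_lintegral (hG.pow_const n) _
    _ ≤ ((max 1 I : ℝ≥0) : ℝ≥0∞) := by rw [hI]; exact_mod_cast le_max_right _ _
    _ ≤ _ := le_self_pow (by exact_mod_cast le_max_left _ _) (by omega)

theorem GG_mono {O O' : Set (E n)} (h : O ⊆ O') (Du : E n → Mt m n) (x : E n) :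
    GG O Du x ≤ GG O' Du x :=
  indicator_le_indicator_of_subset h (fun _ => zero_le) x

theorem weak_mono {O O' : Set (E n)} (h : O ⊆ O') {Du : E n → Mt m n} {M : ℝ≥0}
    (hw : Weak (GG O' Du) M) : Weak (GG O Du) M := fun t =>
  le_trans (mul_le_mul' le_rfl (measure_mono fun x hx => lt_of_lt_of_le hx (GG_mono h Du x))) (hw t)

theorem measurable_GG {O : Set (E n)} (hO : MeasurableSet O) {Du : E n → Mt m n}
    (h : Measurable Du) : Measurable (GG O Du) :=
  h.enorm.indicator hO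

/-- Morrey bound near a point. -/
def Mor (Z : E n → ℝ≥0∞) (x₀ : E n) (r K α : ℝ) : Prop :=
  ∀ x ∈ ball x₀ r, ∀ s : ℝ, 0 < s → s ≤ r → av Z x s ≤ ENNReal.ofReal (K * s ^ (α - 1))

theorem morrey (h5 : StA5) (h2 : StH2) (hn : 3 ≤ n) {u : E n → V m} {Du : E n → Mt m n}
    {Ω : E n → Fin m → Fin m → Fin n → ℝ} (hs : Sol (ball 0 1) u Du Ω)
    (hΩ : Lf (ball 0 1) Ω < ⊤) {x₀ : E n} (hx : x₀ ∈ ball (0 : E n) 1) :
    ∃ r K α : ℝ, 0 < r ∧ 0 ≤ K ∧ 0 < α ∧ α ≤ 1 ∧ ball x₀ (2 * r) ⊆ ball 0 1 ∧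
      Mor (GG (ball 0 1) Du) x₀ r K α := by
  obtain ⟨C, hC⟩ := h5 n hn
  obtain ⟨ε, θ, hε, hθ, hθ2, hH⟩ := h2 n m hn
  obtain ⟨r₀, hr₀, hsub, hL⟩ := lf_small hn hΩ hx hε
  have hGm := measurable_GG (O := ball (0 : E n) 1) measurableSet_ball hs.mDu
  obtain ⟨M, hM⟩ : ∃ M : ℝ≥0, Weak (GG (ball 0 1) Du) M := by
    refine weak_of_fin hn hGm ?_
    have : (fun x => GG (ball 0 1) Du x ^ n) = (ball 0 1).indicator fun x => ‖Du x‖ₑ ^ n := by
      funext x
      by_cases h : x ∈ ball (0 : E n) 1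
      · simp [GG, indicator_of_mem h]
      · simp [GG, indicator_of_notMem h, zero_pow (by omega : n ≠ 0)]
    rw [this, lintegral_indicator measurableSet_ball]
    exact hs.fin
  set r := r₀ / 2 with hr
  have hr0 : 0 < r := by positivity
  have hθ1 : θ < 1 := by linarith
  have hlog : Real.log θ ≤ -Real.log 2 := by
    rw [← Real.log_inv]
    exact Real.log_le_log hθ (by linarith)
  have hl2 : 0 < Real.log 2 := Real.log_pos (by norm_num)
  set α := Real.log 2 / (-Real.log θ) with hα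
  have hα0 : 0 < α := div_pos hl2 (by linarith)
  have hα1 : α ≤ 1 := by rw [hα, div_le_one (by linarith)]; linarith
  have hθα : θ ^ α = 1 / 2 := by
    have hne : Real.log θ ≠ 0 := by linarith
    rw [Real.rpow_def_of_pos hθ, hα,
      show Real.log θ * (Real.log 2 / -Real.log θ) = -Real.log 2 by field_simp,
      Real.exp_neg, Real.exp_log (by norm_num)]
    norm_num
  refine ⟨r, 2 * C * M / r ^ α, α, hr0, by positivity, hα0, hα1, by
    rw [show 2 * r = r₀ by rw [hr]; ring]; exact hsub, fun x hx' s hs0 hsr => ?_⟩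
  have hball : ∀ ρ : ℝ, ρ ≤ r → ball x ρ ⊆ ball x₀ r₀ := by
    intro ρ hρ
    refine ball_subset_ball' ?_
    have := mem_ball.1 hx'
    linarith
  have hpow : ∀ k : ℕ, θ ^ k * r ≤ r := fun k =>
    mul_le_of_le_one_left hr0.le (pow_le_one₀ hθ.le hθ1.le)
  have ind : ∀ k : ℕ, Weak (GG (ball x (θ ^ k * r)) Du) (M / 2 ^ k) := by
    intro k
    induction k with
    | zero =>
      simp only [pow_zero, one_mul, div_one]
      exact weak_mono ((hball r le_rfl).trans hsub) hM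
    | succ k ih =>
      have := hH u Du Ω hs x (θ ^ k * r) (M / 2 ^ k) (by positivity)
        ((hball _ (hpow k)).trans hsub) ((lf_mono (hball _ (hpow k)) Ω).trans hL) ih
      rw [div_div, ← pow_succ, ← mul_assoc, ← pow_succ'] at this
      exact this
  obtain ⟨k, hk1, hk2⟩ := exists_nat_pow_near_of_lt_one (div_pos hs0 hr0)
    ((div_le_one hr0).2 hsr) hθ hθ1
  have hsk : s ≤ θ ^ k * r := (div_le_iff₀ hr0).1 hk2
  have hGk := measurable_GG (O := ball x (θ ^ k * r)) measurableSet_ball hs.mDu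
  have h1 : av (GG (ball 0 1) Du) x s ≤ gs (GG (ball x (θ ^ k * r)) Du) x s := by
    refine le_trans (av_mono fun y hy => ?_) ((av_le_gq hn hGk x hs0).trans (gq_le_gs _ x le_rfl))
    have hy' : y ∈ ball x (θ ^ k * r) := ball_subset_ball hsk hy
    unfold GG
    rw [indicator_of_mem hy']
    exact indicator_le_self _ _ y
  have h3 := (hC _ _ hGk (ind k)).2.2.2.1 x s hs0
  have h4 : (C : ℝ) * (M / 2 ^ k) ≤ s * (2 * C * M / r ^ α * s ^ (α - 1)) := by
    have e1 : s * (2 * C * M / r ^ α * s ^ (α - 1)) = 2 * C * M * (s / r) ^ α := by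
      rw [Real.rpow_sub_one hs0.ne', Real.div_rpow hs0.le hr0.le]
      field_simp
    have e2 : (1 / 2 : ℝ) ^ (k + 1) ≤ (s / r) ^ α := by
      rw [← hθα, ← Real.rpow_natCast, ← Real.rpow_mul hθ.le, mul_comm, Real.rpow_mul hθ.le,
        Real.rpow_natCast]
      exact Real.rpow_le_rpow (by positivity) hk1.le hα0.le
    rw [e1]
    calc (C : ℝ) * (M / 2 ^ k) = 2 * C * M * (1 / 2) ^ (k + 1) := by
          rw [one_div, inv_pow, pow_succ]; field_simp
      _ ≤ _ := by gcongr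
  have hs' : ENNReal.ofReal s ≠ 0 := by simpa using hs0
  refine (ENNReal.mul_le_mul_iff_right hs' ENNReal.ofReal_ne_top).1 ?_
  calc ENNReal.ofReal s * av (GG (ball 0 1) Du) x s
      ≤ ENNReal.ofReal s * gs (GG (ball x (θ ^ k * r)) Du) x s := by gcongr
    _ ≤ C * (M / 2 ^ k : ℝ≥0) := h3
    _ = ENNReal.ofReal ((C : ℝ) * (M / 2 ^ k)) := by
        rw [← ENNReal.coe_mul, ← ENNReal.ofReal_coe_nnreal]; push_cast; rfl
    _ ≤ ENNReal.ofReal (s * (2 * C * M / r ^ α * s ^ (α - 1))) := ENNReal.ofReal_le_ofReal h4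
    _ = _ := ENNReal.ofReal_mul hs0.le

theorem mor_av {G : E n → ℝ≥0∞} (hG : Measurable G) {x₀ : E n} {r K α : ℝ} (hK : 0 ≤ K)
    (hα1 : α ≤ 1) (h : Mor G x₀ r K α) (C : ℝ≥0) {ρ : ℝ} (hρ : 0 < ρ) (hρr : ρ ≤ r) :
    Mor (fun z => C * av G z ρ) x₀ (r / 2) (C * 2 ^ n * K) α := by
  intro x hx s hs0 hsr
  have hxr := mem_ball.1 hx
  rw [av_const_mul (measurable_av hG ρ), mul_assoc, mul_assoc, ENNReal.ofReal_mul C.coe_nonneg,
    ENNReal.ofReal_coe_nnreal, ENNReal.ofReal_mul (by positivity),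
    ENNReal.ofReal_pow (by norm_num), ENNReal.ofReal_ofNat]
  gcongr
  rcases le_total ρ s with hle | hle
  · refine (av_av hG x hρ hle).trans ?_
    gcongr
    refine (h x (mem_ball.2 (by linarith)) (2 * s) (by positivity) (by linarith)).trans
      (ENNReal.ofReal_le_ofReal ?_)
    exact mul_le_mul_of_nonneg_left
      (Real.rpow_le_rpow_of_nonpos hs0 (by linarith) (by linarith)) hK
  · refine le_trans (av_le_const (Eventually.of_forall fun y hy => ?_))
      (le_mul_of_one_le_left zero_le (one_le_pow_of_one_le' (by norm_num) n))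
    have hy' : y ∈ ball x₀ r := by
      have := mem_ball.1 hy
      have := dist_triangle y x x₀
      exact mem_ball.2 (by linarith)
    refine (h y hy' ρ hρ hρr).trans (ENNReal.ofReal_le_ofReal ?_)
    exact mul_le_mul_of_nonneg_left (Real.rpow_le_rpow_of_nonpos hs0 hle (by linarith)) hK

theorem pot_le {Z : E n → ℝ≥0∞} {x₀ : E n} {r K α : ℝ} (hK : 0 ≤ K) (hα : 0 < α)
    (h : Mor Z x₀ r K α) {x : E n} (hx : x ∈ ball x₀ r) {t : ℝ} (ht : 0 < t) (htr : t ≤ r) :
    pot Z t x ≤ ENNReal.ofReal (K * (1 - (1 / 2 : ℝ) ^ α)⁻¹ * t ^ α) := by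
  have hq0 : 0 ≤ (1 / 2 : ℝ) ^ α := by positivity
  have hq1 : (1 / 2 : ℝ) ^ α < 1 := Real.rpow_lt_one (by norm_num) (by norm_num) hα
  have hsum := (hasSum_geometric_of_lt_one hq0 hq1).mul_left (K * t ^ α)
  unfold pot
  calc ∑' j : ℕ, ENNReal.ofReal (t / 2 ^ j) * av Z x (t / 2 ^ j)
      ≤ ∑' j : ℕ, ENNReal.ofReal (K * t ^ α * ((1 / 2 : ℝ) ^ α) ^ j) := by
        refine ENNReal.tsum_le_tsum fun j => ?_
        have hj : 0 < t / 2 ^ j := by positivity
        have hj' : t / 2 ^ j ≤ r :=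
          (div_le_self ht.le (one_le_pow₀ (by norm_num))).trans htr
        calc ENNReal.ofReal (t / 2 ^ j) * av Z x (t / 2 ^ j)
            ≤ ENNReal.ofReal (t / 2 ^ j) * ENNReal.ofReal (K * (t / 2 ^ j) ^ (α - 1)) := by
              gcongr; exact h x hx _ hj hj'
          _ = _ := by
              rw [← ENNReal.ofReal_mul hj.le]
              congr 1
              have e : (t / 2 ^ j) ^ α = t ^ α * ((1 / 2 : ℝ) ^ α) ^ j := by
                rw [← Real.rpow_natCast ((1 / 2 : ℝ) ^ α), ← Real.rpow_mul (by norm_num), mul_comm α,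
                  Real.rpow_mul (by norm_num), Real.rpow_natCast,
                  ← Real.mul_rpow ht.le (by positivity)]
                congr 1
                rw [one_div, inv_pow, div_eq_mul_inv]
              rw [Real.rpow_sub_one hj.ne', e]
              field_simp
    _ = ENNReal.ofReal (K * t ^ α * (1 - (1 / 2 : ℝ) ^ α)⁻¹) := by
        rw [← ENNReal.ofReal_tsum_of_nonneg (fun j => by positivity) hsum.summable, hsum.tsum_eq]
    _ = _ := by congr 1; ring

theorem hold (hB : StB) (hn : 3 ≤ n) {α : ℝ} (hα : 0 < α) (hα1 : α ≤ 1) :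
    ∃ C' : ℝ, 0 ≤ C' ∧ ∀ (f : E n → ℝ) (Z : E n → ℝ≥0∞) (x₀ : E n) (r K : ℝ), ContDiff ℝ 1 f →
      Measurable Z → 0 ≤ K → (∀ z ∈ ball x₀ (2 * r), ‖fderiv ℝ f z‖ₑ ≤ Z z) → Mor Z x₀ r K α →
      ∀ x ∈ ball x₀ (r / 6), ∀ x' ∈ ball x₀ (r / 6), |f x - f x'| ≤ C' * K * ‖x - x'‖ ^ α := by
  obtain ⟨C, hC⟩ := hB n hn
  have hq1 : (1 / 2 : ℝ) ^ α < 1 := Real.rpow_lt_one (by norm_num) (by norm_num) hα
  have hq : 0 < (1 - (1 / 2 : ℝ) ^ α)⁻¹ := inv_pos.2 (by linarith)
  have hvb : 0 < vb n := vb_pos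
  refine ⟨C * (2 * (1 - (1 / 2 : ℝ) ^ α)⁻¹ + vb n * 3 ^ n), by positivity,
    fun f Z x₀ r K hf hZ hK hd hM x hx x' hx' => ?_⟩
  rcases eq_or_ne x x' with rfl | hne
  · simp only [sub_self, abs_zero]; positivity
  set t := ‖x - x'‖ with ht
  have ht0 : 0 < t := norm_pos_iff.2 (sub_ne_zero.2 hne)
  have hx1 := mem_ball.1 hx
  have hx2 := mem_ball.1 hx'
  have htr : 3 * t ≤ r := by
    have := dist_triangle_right x x' x₀
    rw [dist_eq_norm] at this
    linarith
  have hxr : x ∈ ball x₀ r := mem_ball.2 (by linarith)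
  have hxr' : x' ∈ ball x₀ r := mem_ball.2 (by linarith)
  have hO : ball x (3 * t) ⊆ ball x₀ (2 * r) := ball_subset_ball' (by linarith)
  obtain ⟨b1, b2, -⟩ := hC ℝ f (ball x (3 * t)) Z isOpen_ball hf.contDiffOn hZ
    (Eventually.of_forall fun z hz => hd z (hO hz))
  have c1 := b1 x t ht0 (closedBall_subset_ball (by linarith))
  have c2 := b1 x' t ht0 (closedBall_subset_ball' (by
    rw [dist_comm, dist_eq_norm]; linarith))
  have c3 := b2 x x' t ht0 fun τ hτ => closedBall_subset_ball' (by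
    rw [dist_eq_norm, add_sub_cancel_left, norm_smul, norm_sub_rev, Real.norm_of_nonneg hτ.1]
    nlinarith [hτ.2])
  have p1 := pot_le hK hα hM hxr ht0 (by linarith)
  have p2 := pot_le hK hα hM hxr' ht0 (by linarith)
  have p3 : ENNReal.ofReal (t / t ^ n) * ∫⁻ z in ball x (3 * t), Z z ≤
      ENNReal.ofReal (K * (vb n * 3 ^ n) * t ^ α) := by
    rw [lint_ball_eq Z x (by positivity), vol_ball x (by positivity)]
    calc _ ≤ ENNReal.ofReal (t / t ^ n) * (ENNReal.ofReal (vb n * (3 * t) ^ n) *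
          ENNReal.ofReal (K * t ^ (α - 1))) := by
          gcongr
          refine (hM x hxr (3 * t) (by positivity) htr).trans (ENNReal.ofReal_le_ofReal ?_)
          exact mul_le_mul_of_nonneg_left
            (Real.rpow_le_rpow_of_nonpos ht0 (by linarith) (by linarith)) hK
      _ = _ := by
          rw [← ENNReal.ofReal_mul (by positivity), ← ENNReal.ofReal_mul (by positivity)]
          congr 1
          rw [Real.rpow_sub_one ht0.ne', mul_pow]
          field_simp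
  have tri : ‖f x - f x'‖ₑ ≤ ‖f x - bav f x t‖ₑ + ‖bav f x t - bav f x' t‖ₑ +
      ‖f x' - bav f x' t‖ₑ := by
    have : f x - f x' = (f x - bav f x t) + (bav f x t - bav f x' t) - (f x' - bav f x' t) := by
      ring
    rw [this]
    exact enorm_sub_le.trans (add_le_add (enorm_add_le _ _) le_rfl)
  have fin : ‖f x - f x'‖ₑ ≤
      ENNReal.ofReal (C * (2 * (1 - (1 / 2 : ℝ) ^ α)⁻¹ + vb n * 3 ^ n) * K * t ^ α) := by
    calc ‖f x - f x'‖ₑ ≤ C * ENNReal.ofReal (K * (1 - (1 / 2 : ℝ) ^ α)⁻¹ * t ^ α) +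
          C * ENNReal.ofReal (K * (vb n * 3 ^ n) * t ^ α) +
          C * ENNReal.ofReal (K * (1 - (1 / 2 : ℝ) ^ α)⁻¹ * t ^ α) := by
          refine tri.trans (add_le_add (add_le_add (c1.trans ?_) (c3.trans ?_)) (c2.trans ?_))
          · gcongr
          · rw [mul_assoc]; gcongr
          · gcongr
      _ = _ := by
          rw [← mul_add, ← mul_add, ← ENNReal.ofReal_add (by positivity) (by positivity),
            ← ENNReal.ofReal_add (by positivity) (by positivity), ← ENNReal.ofReal_coe_nnreal,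
            ← ENNReal.ofReal_mul C.coe_nonneg]
          congr 1; ring
  rw [← ofReal_norm, ENNReal.ofReal_le_ofReal_iff (by positivity), Real.norm_eq_abs] at fin
  exact fin

theorem limit {O : Set (E n)} {f : ℕ → E n → ℝ} {g : E n → ℝ}
    (hlim : ∀ᵐ x, Tendsto (fun j => f j x) atTop (𝓝 (g x)))
    (heq : ∀ x₀ ∈ O, ∃ r K α : ℝ, 0 < r ∧ 0 < α ∧ ∀ᶠ j in atTop,
      ∀ x ∈ ball x₀ r, ∀ x' ∈ ball x₀ r, |f j x - f j x'| ≤ K * ‖x - x'‖ ^ α) :
    ∃ w : E n → ℝ, ContinuousOn w O ∧ ∀ᵐ x, w x = g x := by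
  refine ⟨fun x => limUnder atTop fun j => f j x, fun x₀ hx₀ => ?_, ?_⟩
  · obtain ⟨r, K, α, hr, hα, hev⟩ := heq x₀ hx₀
    have hmod : ∀ x : E n, Tendsto (fun y => K * ‖y - x‖ ^ α) (𝓝 x) (𝓝 0) := by
      intro x
      have h1 : Continuous fun y : E n => K * ‖y - x‖ ^ α :=
        continuous_const.mul ((continuous_id.sub continuous_const).norm.rpow_const
          fun _ => Or.inr hα.le)
      have h2 := h1.tendsto x
      simpa [Real.zero_rpow hα.ne'] using h2
    have hconv : ∀ x ∈ ball x₀ r,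
        Tendsto (fun j => f j x) atTop (𝓝 (limUnder atTop fun j => f j x)) := by
      intro x hx
      refine CauchySeq.tendsto_limUnder (Metric.cauchySeq_iff'.2 fun ε hε => ?_)
      have h1 : ∀ᶠ y in 𝓝 x, K * ‖y - x‖ ^ α < ε / 3 ∧ y ∈ ball x₀ r :=
        ((hmod x).eventually (gt_mem_nhds (by positivity))).and (isOpen_ball.mem_nhds hx)
      obtain ⟨y, hy1, hy2, hy3⟩ := (Measure.dense_of_ae hlim).inter_nhds_nonempty h1 |>.imp
        fun y hy => (⟨hy.1, hy.2⟩ : _ ∧ _)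
      obtain ⟨N₁, hN₁⟩ := eventually_atTop.1 hev
      obtain ⟨N₂, hN₂⟩ := Metric.cauchySeq_iff.1 (Tendsto.cauchySeq hy1) (ε / 3) (by positivity)
      refine ⟨max N₁ N₂, fun j hj => ?_⟩
      have a1 := hN₁ j (le_trans (le_max_left _ _) hj) y hy3 x hx
      have a2 := hN₁ _ (le_max_left N₁ N₂) y hy3 x hx
      have a3 := hN₂ j (le_trans (le_max_right _ _) hj) _ (le_max_right N₁ N₂)
      rw [Real.dist_eq] at a3 ⊢
      rw [abs_le] at a1 a2
      rw [abs_lt] at a3 ⊢
      constructor <;> linarith [a1.1, a1.2, a2.1, a2.2, a3.1, a3.2]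
    refine ContinuousAt.continuousWithinAt (tendsto_iff_norm_sub_tendsto_zero.2 ?_)
    refine squeeze_zero' (Eventually.of_forall fun _ => norm_nonneg _) ?_ (hmod x₀)
    filter_upwards [ball_mem_nhds x₀ hr] with x hx
    refine le_of_tendsto ((hconv x hx).sub (hconv x₀ (mem_ball_self hr))).norm ?_
    filter_upwards [hev] with j hj
    exact hj x hx x₀ (mem_ball_self hr)
  · filter_upwards [hlim] with x hx
    exact hx.limUnder_eq

end H3

theorem stH3 (h5 : StA5) (hB : StB) (hM : StM) (h2 : StH2) : StH3 := by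
  intro n m hn u Du Ω hs hΩ
  obtain ⟨C, hC⟩ := hM n hn
  have hGm := H3.measurable_GG (O := ball (0 : E n) 1) measurableSet_ball hs.mDu
  have key : ∀ i, ∃ w : E n → ℝ, ContinuousOn w (ball 0 1) ∧
      ∀ᵐ x, w x = (ball (0 : E n) 1).indicator (fun x => u x i) x := by
    intro i
    have hloc : LocallyIntegrable ((ball (0 : E n) 1).indicator fun x => u x i) volume :=
      ((hs.wg i).1.integrable_indicator measurableSet_ball).locallyIntegrable
    obtain ⟨hsm, hlim⟩ := (hC _).1 hloc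
    refine H3.limit hlim fun x₀ hx₀ => ?_
    obtain ⟨r, K, α, hr, hK, hα, hα1, hsub, hmor⟩ := H3.morrey h5 h2 hn hs hΩ hx₀
    obtain ⟨C', hC'0, hC'⟩ := H3.hold hB hn hα hα1
    refine ⟨r / 2 / 6, C' * (C * 2 ^ n * K), α, by positivity, hα, ?_⟩
    have hrho : ∀ᶠ j : ℕ in atTop, rho j ≤ r := by
      obtain ⟨k, hk, -⟩ := exists_rho hr
      filter_upwards [eventually_ge_atTop (k + 1).toNat] with j hj
      exact (rho_anti (by omega)).trans hk.le
    filter_upwards [hrho] with j hj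
    refine hC' _ (fun z => C * av (GG (ball 0 1) Du) z (rho j)) x₀ (r / 2) _
      ((hsm _ (rho_pos j)).1.of_le (by exact_mod_cast le_top))
      ((measurable_av hGm _).const_mul _) (by positivity) (fun z hz => ?_)
      (H3.mor_av hGm hK hα1 hmor C (rho_pos j) hj)
    have hz' := mem_ball.1 hz
    have hcb : closedBall z (rho j) ⊆ ball 0 1 :=
      (closedBall_subset_ball' (by linarith)).trans hsub
    refine (((hC _).2.2 (ball 0 1) _ measurableSet_ball (hs.wg i) _ (rho_pos j) z hcb).2).trans ?_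
    gcongr
    refine av_mono fun y _ => ?_
    unfold GG
    refine indicator_le_indicator ?_
    rw [← ofReal_norm, ← ofReal_norm]
    exact ENNReal.ofReal_le_ofReal (norm_row_le _ _)
  choose w hw hw' using key
  refine ⟨fun x => WithLp.toLp 2 fun i => w i x,
    (PiLp.continuous_toLp 2 _).comp_continuousOn (continuousOn_pi.2 hw), ?_⟩
  rw [EventuallyEq, ae_restrict_iff' measurableSet_ball]
  filter_upwards [ae_all_iff.2 hw'] with x hx hxB
  ext i
  simp [hx i, indicator_of_mem hxB]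

end Pool.Agent.P.MP_28243e_an
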