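import Pool.Agent.P.MP_28243e_an.Basic

/-! Passage from the notions of the statement to measurable solutions. -/

namespace Pool.Agent.P.MP_28243e_an

open Set MeasureTheory Metric Filter Topology ENNReal
open scoped NNReal ContDiff RealInnerProductSpace Classical

namespace H3L

variable {n m : ℕ}

theorem rearr_anti (f : E n → ℝ) {s t : ℝ} (h : s ≤ t) : Spec.rearr f t ≤ Spec.rearr f s := by
  unfold Spec.rearr
  exact sInf_le_sInf fun a ha => le_trans ha (ENNReal.ofReal_le_ofReal h)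

theorem meas_le_of_lt (f : E n → ℝ) {t : ℝ} {s : ℝ≥0∞} (h : Spec.rearr f t < s) :
    Spec.volB n {x | s < ‖f x‖ₑ} ≤ ENNReal.ofReal t := by
  unfold Spec.rearr at h
  obtain ⟨a, ha, has⟩ := sInf_lt_iff.1 h
  exact le_trans (measure_mono fun x hx => lt_trans has hx) ha

/-- The weighted rearrangement. -/
noncomputable def hh (f : E n → ℝ) (t : ℝ) : ℝ≥0∞ :=
  ENNReal.ofReal (t ^ (1 / (n : ℝ))) * Spec.rearr f t

theorem hh_bound (hn : 3 ≤ n) {p : ℝ} (hp : 1 ≤ p) (f : E n → ℝ)
    (hf : ∫⁻ t in Ioi (0 : ℝ), hh f t ^ p / ENNReal.ofReal t < ⊤) :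
    ∃ A : ℝ≥0∞, A ≠ ⊤ ∧ ∀ t, 0 < t → hh f t ≤ A := by
  set I := ∫⁻ t in Ioi (0 : ℝ), hh f t ^ p / ENNReal.ofReal t with hI
  have hp0 : 0 < p := by linarith
  refine ⟨2 * (2 * I) ^ (1 / p), ?_, fun τ hτ => ?_⟩
  · exact ENNReal.mul_ne_top (by norm_num)
      (ENNReal.rpow_ne_top_of_nonneg (by positivity) (ENNReal.mul_ne_top (by norm_num) hf.ne))
  have hn0 : (0 : ℝ) < n := by exact_mod_cast (by omega : 0 < n)
  have hn1 : (1 : ℝ) ≤ n := by exact_mod_cast (by omega : 1 ≤ n)
  have key : ∀ t ∈ Ioc (τ / 2) τ,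
      (hh f τ / 2) ^ p / ENNReal.ofReal τ ≤ hh f t ^ p / ENNReal.ofReal t := by
    intro t ht
    have ht0 : 0 < t := by linarith [ht.1]
    have h1 : hh f τ / 2 ≤ hh f t := by
      unfold hh
      have h2 : τ ^ (1 / (n : ℝ)) ≤ 2 * t ^ (1 / (n : ℝ)) := by
        calc τ ^ (1 / (n : ℝ)) ≤ (2 * t) ^ (1 / (n : ℝ)) :=
              Real.rpow_le_rpow hτ.le (by linarith [ht.1]) (by positivity)
          _ = 2 ^ (1 / (n : ℝ)) * t ^ (1 / (n : ℝ)) := Real.mul_rpow (by norm_num) ht0.le
          _ ≤ 2 * t ^ (1 / (n : ℝ)) := by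
              gcongr
              calc (2 : ℝ) ^ (1 / (n : ℝ)) ≤ 2 ^ (1 : ℝ) :=
                    Real.rpow_le_rpow_of_exponent_le (by norm_num)
                      (by rw [div_le_one hn0]; exact hn1)
                _ = 2 := Real.rpow_one 2
      have h3 : ENNReal.ofReal (τ ^ (1 / (n : ℝ))) ≤ ENNReal.ofReal (t ^ (1 / (n : ℝ))) * 2 := by
        calc _ ≤ ENNReal.ofReal (2 * t ^ (1 / (n : ℝ))) := ENNReal.ofReal_le_ofReal h2
          _ = _ := by rw [ENNReal.ofReal_mul (by norm_num), mul_comm]; simp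
      apply ENNReal.div_le_of_le_mul
      calc ENNReal.ofReal (τ ^ (1 / (n : ℝ))) * Spec.rearr f τ
          ≤ (ENNReal.ofReal (t ^ (1 / (n : ℝ))) * 2) * Spec.rearr f t :=
            mul_le_mul' h3 (rearr_anti f ht.2)
        _ = _ := by ring
    exact ENNReal.div_le_div (ENNReal.rpow_le_rpow h1 hp0.le) (ENNReal.ofReal_le_ofReal ht.2)
  have h4 : (hh f τ / 2) ^ p / ENNReal.ofReal τ * ENNReal.ofReal (τ / 2) ≤ I := by
    calc (hh f τ / 2) ^ p / ENNReal.ofReal τ * ENNReal.ofReal (τ / 2)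
        = ∫⁻ _ in Ioc (τ / 2) τ, (hh f τ / 2) ^ p / ENNReal.ofReal τ := by
          rw [setLIntegral_const, Real.volume_Ioc]
          congr 2; ring
      _ ≤ ∫⁻ t in Ioc (τ / 2) τ, hh f t ^ p / ENNReal.ofReal t :=
          setLIntegral_mono' measurableSet_Ioc key
      _ ≤ I := lintegral_mono_set fun t ht => by
          simp only [mem_Ioi]; linarith [ht.1]
  have hτ0 : ENNReal.ofReal τ ≠ 0 := by simpa using hτ
  have h5 : (hh f τ / 2) ^ p ≤ 2 * I := by
    have : (hh f τ / 2) ^ p = 2 * ((hh f τ / 2) ^ p / ENNReal.ofReal τ * ENNReal.ofReal (τ / 2)) := by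
      have e : ENNReal.ofReal τ = 2 * ENNReal.ofReal (τ / 2) := by
        rw [show τ = 2 * (τ / 2) by ring, ENNReal.ofReal_mul (by norm_num)]
        simp
      calc (hh f τ / 2) ^ p = (hh f τ / 2) ^ p / ENNReal.ofReal τ * ENNReal.ofReal τ :=
            (ENNReal.div_mul_cancel hτ0 ENNReal.ofReal_ne_top).symm
        _ = _ := by nth_rewrite 2 [e]; ring
    rw [this]; gcongr
  have h6 : hh f τ / 2 ≤ (2 * I) ^ (1 / p) := by
    calc hh f τ / 2 = ((hh f τ / 2) ^ p) ^ (1 / p) := by
          rw [← ENNReal.rpow_mul, mul_one_div_cancel hp0.ne', ENNReal.rpow_one]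
      _ ≤ _ := ENNReal.rpow_le_rpow h5 (by positivity)
  calc hh f τ = 2 * (hh f τ / 2) := by
        rw [mul_comm, ENNReal.div_mul_cancel (by norm_num) (by norm_num)]
    _ ≤ _ := by gcongr

theorem hh_two (hn : 3 ≤ n) {p : ℝ} (hp : 1 ≤ p) (hp2 : p ≤ 2) (f : E n → ℝ)
    (hf : ∫⁻ t in Ioi (0 : ℝ), hh f t ^ p / ENNReal.ofReal t < ⊤) :
    ∫⁻ t in Ioi (0 : ℝ), hh f t ^ (2 : ℝ) / ENNReal.ofReal t < ⊤ := by
  obtain ⟨A, hA, hb⟩ := hh_bound hn hp f hf
  have hA' : A ^ (2 - p) ≠ ⊤ := ENNReal.rpow_ne_top_of_nonneg (by linarith) hA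
  calc ∫⁻ t in Ioi (0 : ℝ), hh f t ^ (2 : ℝ) / ENNReal.ofReal t
      ≤ ∫⁻ t in Ioi (0 : ℝ), A ^ (2 - p) * (hh f t ^ p / ENNReal.ofReal t) := by
        refine setLIntegral_mono' measurableSet_Ioi fun t ht => ?_
        rw [← mul_div_assoc]
        apply ENNReal.div_le_div_right
        calc hh f t ^ (2 : ℝ) = hh f t ^ (2 - p) * hh f t ^ p := by
              rw [← ENNReal.rpow_add_of_nonneg _ _ (by linarith) (by linarith)]
              congr 1; ring
          _ ≤ _ := mul_le_mul' (ENNReal.rpow_le_rpow (hb t ht) (by linarith)) le_rfl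
    _ = A ^ (2 - p) * ∫⁻ t in Ioi (0 : ℝ), hh f t ^ p / ENNReal.ofReal t :=
        lintegral_const_mul' _ _ hA'
    _ < ⊤ := ENNReal.mul_lt_top hA'.lt_top hf

instance : IsFiniteMeasure (Spec.volB n) := by
  unfold Spec.volB
  exact isFiniteMeasure_restrict.2 measure_ball_lt_top.ne

theorem comp_fin (hn : 3 ≤ n) (f : E n → ℝ) {N : ℝ} (hN : 0 < N)
    (hf : ∫⁻ t in Ioi (0 : ℝ), hh f t ^ (2 : ℝ) / ENNReal.ofReal t < ⊤) :
    ∫⁻ t in Ioi (0 : ℝ), Spec.volB n {x | t < N * f x ^ 2} ^ (2 / (n : ℝ)) < ⊤ := by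
  have hn0 : (0 : ℝ) < n := by exact_mod_cast (by omega : 0 < n)
  set g : ℝ → ℝ := fun t => (Spec.volB n {x | t < N * f x ^ 2}).toReal with hg
  have hanti : Antitone g := fun s t hst =>
    ENNReal.toReal_mono (measure_ne_top _ _) (measure_mono fun x hx => lt_of_le_of_lt hst hx)
  have e1 : ∀ t : ℝ, Spec.volB n {x | t < N * f x ^ 2} ^ (2 / (n : ℝ)) =
      ENNReal.ofReal (g t ^ (2 / (n : ℝ))) := by
    intro t
    rw [← ENNReal.ofReal_rpow_of_nonneg ENNReal.toReal_nonneg (by positivity),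
      ENNReal.ofReal_toReal (measure_ne_top _ _)]
  simp_rw [e1]
  rw [lintegral_rpow_eq_lintegral_meas_lt_mul _ (Eventually.of_forall fun t => ENNReal.toReal_nonneg)
    hanti.measurable.aemeasurable (by positivity)]
  refine ENNReal.mul_lt_top ENNReal.ofReal_lt_top ?_
  calc ∫⁻ τ in Ioi (0 : ℝ), (volume.restrict (Ioi (0 : ℝ))) {a | τ < g a} *
          ENNReal.ofReal (τ ^ (2 / (n : ℝ) - 1))
      ≤ ∫⁻ τ in Ioi (0 : ℝ), ENNReal.ofReal N * (hh f τ ^ (2 : ℝ) / ENNReal.ofReal τ) := by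
        refine setLIntegral_mono' measurableSet_Ioi fun τ hτ => ?_
        have hτ0 : 0 < τ := hτ
        have h1 : (volume.restrict (Ioi (0 : ℝ))) {a | τ < g a} ≤
            ENNReal.ofReal N * Spec.rearr f τ ^ (2 : ℝ) := by
          by_cases htop : Spec.rearr f τ = ⊤
          · rw [htop, ENNReal.top_rpow_of_pos (by norm_num),
              ENNReal.mul_top (by simpa using hN)]
            exact le_top
          obtain ⟨R, hR⟩ : ∃ R : ℝ≥0, Spec.rearr f τ = R := ⟨_, (ENNReal.coe_toNNReal htop).symm⟩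
          rw [Measure.restrict_apply' measurableSet_Ioi]
          calc volume ({a | τ < g a} ∩ Ioi (0 : ℝ)) ≤ volume (Ioc (0 : ℝ) (N * R ^ 2)) := by
                refine measure_mono fun a ha => ⟨ha.2, ?_⟩
                by_contra hlt
                push Not at hlt
                have ha0 : 0 < a := ha.2
                have hs : (R : ℝ) < √(a / N) := by
                  apply Real.lt_sqrt_of_sq_lt
                  rw [lt_div_iff₀ hN]; linarith
                have h2 : Spec.rearr f τ < ENNReal.ofReal (√(a / N)) := by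
                  rw [hR, ← ENNReal.ofReal_coe_nnreal]
                  exact (ENNReal.ofReal_lt_ofReal_iff (lt_of_le_of_lt R.2 hs)).2 hs
                have h3 := meas_le_of_lt f h2
                have h4 : Spec.volB n {x | a < N * f x ^ 2} ≤ ENNReal.ofReal τ := by
                  refine le_trans (measure_mono fun x hx => ?_) h3
                  have hx' : a < N * f x ^ 2 := hx
                  have : √(a / N) < |f x| := by
                    rw [Real.sqrt_lt' (by
                      rw [abs_pos]; rintro h0; rw [h0] at hx'; simp at hx'; linarith), sq_abs,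
                      div_lt_iff₀ hN]
                    linarith
                  simp only [mem_ofPred_eq]
                  rw [← ofReal_norm, Real.norm_eq_abs]
                  exact (ENNReal.ofReal_lt_ofReal_iff
                    (lt_of_le_of_lt (Real.sqrt_nonneg _) this)).2 this
                have h5 : g a ≤ τ := ENNReal.toReal_le_of_le_ofReal hτ0.le h4
                exact absurd ha.1 (not_lt.2 h5)
            _ = ENNReal.ofReal N * Spec.rearr f τ ^ (2 : ℝ) := by
                rw [Real.volume_Ioc, sub_zero, ENNReal.ofReal_mul hN.le, hR,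
                  ENNReal.ofReal_pow R.coe_nonneg, ENNReal.ofReal_coe_nnreal, ENNReal.rpow_two]
        have h2 : ENNReal.ofReal (τ ^ (2 / (n : ℝ) - 1)) =
            ENNReal.ofReal (τ ^ (1 / (n : ℝ))) ^ (2 : ℝ) / ENNReal.ofReal τ := by
          rw [ENNReal.ofReal_rpow_of_nonneg (by positivity) (by norm_num),
            ← ENNReal.ofReal_div_of_pos hτ0, ← Real.rpow_mul hτ0.le, Real.rpow_sub_one hτ0.ne']
          congr 3; ring
        rw [h2]
        calc _ ≤ ENNReal.ofReal N * Spec.rearr f τ ^ (2 : ℝ) *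
              (ENNReal.ofReal (τ ^ (1 / (n : ℝ))) ^ (2 : ℝ) / ENNReal.ofReal τ) := by gcongr
          _ = _ := by
              unfold hh
              rw [ENNReal.mul_rpow_of_nonneg _ _ (by norm_num), ENNReal.div_eq_inv_mul,
                ENNReal.div_eq_inv_mul]
              ring
    _ = ENNReal.ofReal N * ∫⁻ τ in Ioi (0 : ℝ), hh f τ ^ (2 : ℝ) / ENNReal.ofReal τ :=
        lintegral_const_mul' _ _ ENNReal.ofReal_ne_top
    _ < ⊤ := ENNReal.mul_lt_top ENNReal.ofReal_lt_top hf

theorem rpow_sum_le {ι : Type} (s : Finset ι) (a : ι → ℝ≥0∞) {q : ℝ} (h0 : 0 < q) (h1 : q ≤ 1) :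
    (∑ i ∈ s, a i) ^ q ≤ ∑ i ∈ s, a i ^ q := by
  induction s using Finset.induction_on with
  | empty => simp [ENNReal.zero_rpow_of_pos h0]
  | insert i s hi ih =>
    rw [Finset.sum_insert hi, Finset.sum_insert hi]
    exact (ENNReal.rpow_add_le_add_rpow _ _ h0.le h1).trans (by gcongr)

theorem lf_fin (hn : 3 ≤ n) {p : ℝ} (hp : 1 ≤ p) (hp2 : p ≤ 2)
    (Ω Ω' : E n → Fin m → Fin m → Fin n → ℝ) (hΩ : Ω' =ᵐ[Spec.volB n] Ω)
    (hL : ∀ i j α, Spec.Lorentz p fun x => Ω x i j α) : Lf (ball 0 1) Ω' < ⊤ := by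
  have hn0 : (0 : ℝ) < n := by exact_mod_cast (by omega : 0 < n)
  have hn2 : (2 : ℝ) ≤ n := by exact_mod_cast (by omega : 2 ≤ n)
  set N : ℝ := (Fintype.card (Fin m × Fin m × Fin n) : ℝ) + 1 with hN
  have hN0 : 0 < N := by positivity
  have key : ∀ t : ℝ, 0 < t → volume {x | x ∈ ball (0 : E n) 1 ∧ t < sqO (Ω' x)} ≤
      ∑ c : Fin m × Fin m × Fin n, Spec.volB n {x | t < N * Ω x c.1 c.2.1 c.2.2 ^ 2} := by
    intro t ht
    have e : volume {x | x ∈ ball (0 : E n) 1 ∧ t < sqO (Ω' x)} =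
        Spec.volB n {x | t < sqO (Ω' x)} := by
      unfold Spec.volB
      rw [Measure.restrict_apply' measurableSet_ball]
      congr 1; ext x; simp [and_comm]
    rw [e]
    refine le_trans (measure_mono_ae ?_) (measure_iUnion_fintype_le _ _)
    filter_upwards [hΩ] with x hx h
    have h' : t < sqO (Ω' x) := h
    rw [hx] at h'
    by_contra hne
    have hall : ∀ c : Fin m × Fin m × Fin n, Ω x c.1 c.2.1 c.2.2 ^ 2 ≤ t / N := by
      intro c
      by_contra hc
      push Not at hc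
      apply hne
      refine mem_iUnion.2 ⟨c, ?_⟩
      rw [div_lt_iff₀ hN0] at hc
      simp only [mem_ofPred_eq]; linarith
    have hs : sqO (Ω x) = ∑ c : Fin m × Fin m × Fin n, Ω x c.1 c.2.1 c.2.2 ^ 2 := by
      unfold sqO
      simp_rw [Fintype.sum_prod_type]
    have h2 : sqO (Ω x) ≤ (N - 1) * (t / N) := by
      rw [hs]
      calc _ ≤ ∑ _c : Fin m × Fin m × Fin n, t / N := Finset.sum_le_sum fun c _ => hall c
        _ = _ := by rw [Finset.sum_const, Finset.card_univ, nsmul_eq_mul, hN]; ring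
    have h3 : (N - 1) * (t / N) = t - t / N := by field_simp
    have h4 : 0 < t / N := by positivity
    linarith
  unfold Lf
  calc _ ≤ ∫⁻ t in Ioi (0 : ℝ), ∑ c : Fin m × Fin m × Fin n,
          Spec.volB n {x | t < N * Ω x c.1 c.2.1 c.2.2 ^ 2} ^ (2 / (n : ℝ)) := by
        refine setLIntegral_mono' measurableSet_Ioi fun t ht => ?_
        exact (ENNReal.rpow_le_rpow (key t ht) (by positivity)).trans
          (rpow_sum_le _ _ (by positivity) (by rw [div_le_one hn0]; exact hn2))
    _ = ∑ c : Fin m × Fin m × Fin n, ∫⁻ t in Ioi (0 : ℝ),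
          Spec.volB n {x | t < N * Ω x c.1 c.2.1 c.2.2 ^ 2} ^ (2 / (n : ℝ)) := by
        refine lintegral_finsetSum _ fun c _ => ?_
        refine Measurable.pow_const (Antitone.measurable fun s t hst => ?_) _
        exact measure_mono fun x hx => lt_of_le_of_lt hst hx
    _ < ⊤ := ENNReal.sum_lt_top.2 fun c _ =>
        comp_fin hn _ hN0 (hh_two hn hp hp2 _ (hL c.1 c.2.1 c.2.2).2)

end H3L

theorem stL : StL := by
  intro n m hn p hp hp2 Ω u Du hanti hL hW hS
  obtain ⟨hu, hD, hw⟩ := hW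
  have hΩm : AEMeasurable Ω (Spec.volB n) :=
    aemeasurable_pi_lambda _ fun i => aemeasurable_pi_lambda _ fun j =>
      aemeasurable_pi_lambda _ fun α => (hL i j α).1
  set u' := hu.1.mk u with hu'
  set Du' := hD.1.mk Du with hDu'
  set Ω₀ := hΩm.mk Ω with hΩ₀
  set Ω' : E n → Fin m → Fin m → Fin n → ℝ := fun x i j α => (Ω₀ x i j α - Ω₀ x j i α) / 2
    with hΩ'
  have e1 : u =ᵐ[Spec.volB n] u' := hu.1.ae_eq_mk
  have e2 : Du =ᵐ[Spec.volB n] Du' := hD.1.ae_eq_mk
  have e3 : Ω' =ᵐ[Spec.volB n] Ω := by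
    filter_upwards [hΩm.ae_eq_mk, hanti] with x hx ha
    funext i j α
    simp only [hΩ', hΩ₀, ← hx]
    rw [ha j i α]; ring
  have hn1 : (1 : ℝ≥0∞) ≤ n := by exact_mod_cast (by omega : 1 ≤ n)
  have hui : Integrable u' (Spec.volB n) := (hu.integrable hn1).congr e1
  have hDi : Integrable Du' (Spec.volB n) := (hD.integrable hn1).congr e2
  have mu : Measurable u' := hu.1.stronglyMeasurable_mk.measurable
  have mD : Measurable Du' := hD.1.stronglyMeasurable_mk.measurable
  have m0 : Measurable Ω₀ := hΩm.measurable_mk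
  refine ⟨u', Du', Ω', ⟨mu, mD, ?_, ?_, ?_, ?_, ?_⟩, H3L.lf_fin hn hp hp2 Ω Ω' e3 hL, e1.symm⟩
  · refine measurable_pi_lambda _ fun i => measurable_pi_lambda _ fun j =>
      measurable_pi_lambda _ fun α => ?_
    have hc : ∀ a b, Measurable fun x => Ω₀ x a b α := fun a b =>
      (measurable_pi_apply α).comp ((measurable_pi_apply b).comp ((measurable_pi_apply a).comp m0))
    exact ((hc i j).sub (hc j i)).div_const 2
  · intro x i j α
    simp only [hΩ']; ring
  · intro i
    refine ⟨?_, ?_, fun φ hφ α => ?_⟩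
    · exact (EuclideanSpace.proj i : V m →L[ℝ] ℝ).integrable_comp hui
    · refine hDi.mono ((continuous_row i).measurable.comp mD).aestronglyMeasurable
        (Eventually.of_forall fun x => norm_row_le _ _)
    · have := hw i α φ hφ
      calc ∫ x in ball 0 1, u' x i * pd φ α x = ∫ x, u x i * Spec.pd φ α x ∂Spec.volB n := by
            refine integral_congr_ae ?_
            filter_upwards [e1] with x hx
            rw [hx]; rfl
        _ = -∫ x, Du x (i, α) * φ x ∂Spec.volB n := this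
        _ = _ := by
            congr 1
            refine integral_congr_ae ?_
            filter_upwards [e2] with x hx
            rw [hx]; rfl
  · have h1 : MemLp Du' n (Spec.volB n) := hD.ae_eq e2
    have h2 := (eLpNorm_lt_top_iff_lintegral_rpow_enorm_lt_top
      (by exact_mod_cast (by omega : n ≠ 0)) (ENNReal.natCast_ne_top n)).1 h1.2
    simpa [ENNReal.rpow_natCast, Spec.volB] using h2
  · intro i φ hφ
    have := hS i φ hφ
    calc ∫ x in ball 0 1, ⟪row (sig n (Du' x)) i, gradient φ x⟫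
        = ∫ x, ∑ α, ‖Du x‖ ^ (n - 2) * Du x (i, α) * Spec.pd φ α x ∂Spec.volB n := by
          refine integral_congr_ae ?_
          filter_upwards [e2] with x hx
          rw [hx, PiLp.inner_apply]
          refine Finset.sum_congr rfl fun α _ => ?_
          rw [gradient_apply]
          simp [row, sig, pd, Spec.pd, mul_comm]
      _ = _ := this
      _ = _ := by
          refine integral_congr_ae ?_
          filter_upwards [e2, e3] with x hx hy
          rw [hx, hy]
          simp [sig]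

end Pool.Agent.P.MP_28243e_an
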