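import Pool.Agent.P.MP_28243e_an.IA

/-! The counterexample for Lorentz exponents above two. -/

namespace Pool.Agent.P.MP_28243e_an

open Set MeasureTheory Metric Filter Topology

noncomputable section

namespace PI

variable (k : ℕ)

def Pn (t : ℝ) : ℝ := 1 / t + (k + 2) / t ^ 2 + 1 / t ^ 4
def W (t : ℝ) : ℝ := √(Pn k t) ^ (k + 1)
def ka (t : ℝ) : ℝ := (k + 1) * (-(1 / t ^ 2) - 2 * (k + 2) / t ^ 3 - 4 / t ^ 5) / (2 * Pn k t)
def al (t : ℝ) : ℝ := -(W k t / √t * ex t ^ (k + 3))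
def be (t : ℝ) : ℝ := W k t / t * ex t ^ (k + 2)
def ga (t : ℝ) : ℝ := W k t * (1 / t ^ 2 - 1 / t) * ex t ^ (k + 4)
def ps (t : ℝ) : ℝ := √t * ((k + 2) / t + ka k t / t ^ 2 - 2 / t ^ 3)
def et (t : ℝ) : ℝ := (ka k t * √t - 1 / (2 * √t) + ps k t / t) / (k + 2)

def uu (x : E (k + 3)) : Spec.Euc (k + 3 + 1) :=
  WithLp.toLp 2 (Fin.cons (2 * √(T x)) fun i => ex (T x) / T x * x i)

def du (x : E (k + 3)) : Fin (k + 3 + 1) → Fin (k + 3) → ℝ :=
  Fin.cons (fun α => -(ex (T x) ^ 2 / √(T x)) * x α) fun i α =>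
    ex (T x) / T x * kr i α + (1 / T x ^ 2 - 1 / T x) * ex (T x) ^ 3 * x i * x α

def Du (x : E (k + 3)) : EuclideanSpace ℝ (Fin (k + 3 + 1) × Fin (k + 3)) :=
  WithLp.toLp 2 fun p => du k x p.1 p.2

def om (x : E (k + 3)) (i α : Fin (k + 3)) : ℝ :=
  ex (T x) * (et k (T x) * kr i α -
    (ps k (T x) + et k (T x)) * (x i * ex (T x)) * (x α * ex (T x)))

def Om (x : E (k + 3)) : Fin (k + 3 + 1) → Fin (k + 3 + 1) → Fin (k + 3) → ℝ :=
  Fin.cons (Fin.cons (fun _ => 0) fun j α => -om k x j α) fun i =>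
    Fin.cons (fun α => om k x i α) fun _ _ => 0

variable {k}

lemma P_pos {t : ℝ} (ht : 0 < t) : 0 < Pn k t := by unfold Pn; positivity

lemma hasDerivAt_P {t : ℝ} (ht : 0 < t) :
    HasDerivAt (Pn k) (-(1 / t ^ 2) - 2 * (k + 2) / t ^ 3 - 4 / t ^ 5) t := by
  have h := (((hasDerivAt_const t (1:ℝ)).fun_div (hasDerivAt_id' t) ht.ne').fun_add
    ((hasDerivAt_const t ((k:ℝ) + 2)).fun_div (hasDerivAt_pow 2 t) (by positivity))).fun_add
    ((hasDerivAt_const t (1:ℝ)).fun_div (hasDerivAt_pow 4 t) (by positivity))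
  refine HasDerivAt.congr_deriv (f := Pn k) h ?_
  field_simp
  push_cast
  ring

lemma hasDerivAt_W {t : ℝ} (ht : 0 < t) : HasDerivAt (W k) (ka k t * W k t) t := by
  have hP := P_pos (k := k) ht
  have h := ((hasDerivAt_P (k := k) ht).sqrt hP.ne').fun_pow (k + 1)
  refine HasDerivAt.congr_deriv (f := W k) h ?_
  have h1 := Real.sq_sqrt hP.le
  have h2 := Real.sqrt_pos.2 hP
  unfold ka W
  generalize √(Pn k t) = S at *
  rw [← h1, Nat.add_sub_cancel]
  field_simp
  push_cast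
  ring

lemma contDiffAt_W {t : ℝ} (ht : 0 < t) : ContDiffAt ℝ 1 (W k) t := by
  have h : ContDiffAt ℝ 1 (Pn k) t := by
    unfold Pn
    fun_prop (disch := positivity)
  exact (h.sqrt (P_pos ht).ne').pow _

lemma hasDerivAt_al {t : ℝ} (ht : 0 < t) : HasDerivAt (al k)
    ((k + 3) * al k t - W k t * (ka k t / √t - 1 / (2 * √t ^ 3)) * ex t ^ (k + 3)) t := by
  have h2 := Real.sqrt_pos.2 ht
  have h := (((hasDerivAt_W (k := k) ht).fun_div (Real.hasDerivAt_sqrt ht.ne') h2.ne').fun_mul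
    ((hasDerivAt_ex t).fun_pow (k + 3))).fun_neg
  refine HasDerivAt.congr_deriv (f := al k) h ?_
  unfold al
  rw [show k + 3 - 1 = k + 2 from rfl]
  field_simp
  push_cast
  ring

lemma hasDerivAt_be {t : ℝ} (ht : 0 < t) :
    HasDerivAt (be k) (be k t * (ka k t + (k + 2) - 1 / t)) t := by
  have h := ((hasDerivAt_W (k := k) ht).fun_div (hasDerivAt_id' t) ht.ne').fun_mul
    ((hasDerivAt_ex t).fun_pow (k + 2))
  refine HasDerivAt.congr_deriv (f := be k) h ?_
  unfold be
  rw [show k + 2 - 1 = k + 1 from rfl]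
  field_simp
  push_cast
  ring

lemma hasDerivAt_ga {t : ℝ} (ht : 0 < t) : HasDerivAt (ga k)
    ((ka k t + (k + 4)) * ga k t + W k t * (1 / t ^ 2 - 2 / t ^ 3) * ex t ^ (k + 4)) t := by
  have h := ((hasDerivAt_W (k := k) ht).fun_mul
    (((hasDerivAt_const t (1:ℝ)).fun_div (hasDerivAt_pow 2 t) (by positivity)).fun_sub
      ((hasDerivAt_const t (1:ℝ)).fun_div (hasDerivAt_id' t) ht.ne'))).fun_mul
    ((hasDerivAt_ex t).fun_pow (k + 4))
  refine HasDerivAt.congr_deriv (f := ga k) h ?_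
  unfold ga
  rw [show k + 4 - 1 = k + 3 from rfl]
  field_simp
  push_cast
  ring

lemma abs_ka {t : ℝ} (ht : 1 ≤ t) : |ka k t| ≤ 2 * (k + 1) / t := by
  have h0 : 0 < t := by linarith
  have hP := P_pos (k := k) h0
  have e : -(1 / t ^ 2) - 2 * ((k:ℝ) + 2) / t ^ 3 - 4 / t ^ 5 =
      -(4 * Pn k t / t - (3 / t ^ 2 + 2 * (k + 2) / t ^ 3)) := by unfold Pn; field_simp; ring
  have h1 : 0 ≤ 3 / t ^ 2 + 2 * ((k:ℝ) + 2) / t ^ 3 := by positivity
  have h2 : 0 ≤ 1 / t ^ 2 + 2 * ((k:ℝ) + 2) / t ^ 3 + 4 / t ^ 5 := by positivity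
  have h3 : |-(1 / t ^ 2) - 2 * ((k:ℝ) + 2) / t ^ 3 - 4 / t ^ 5| ≤ 4 * Pn k t / t := by
    rw [abs_of_nonpos (by linarith)]; linarith
  unfold ka
  rw [abs_div, abs_mul, abs_of_pos (by positivity : (0:ℝ) < k + 1),
    abs_of_pos (by positivity : 0 < 2 * Pn k t)]
  calc _ ≤ (k + 1) * (4 * Pn k t / t) / (2 * Pn k t) := by gcongr
    _ = _ := by field_simp; ring

lemma abs_ps {t : ℝ} (ht : 1 ≤ t) : |ps k t| ≤ (3 * k + 6) / √t := by
  have h0 : 0 < t := by linarith
  have h1 := Real.sqrt_pos.2 h0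
  have h2 := Real.mul_self_sqrt h0.le
  have a1 : |ka k t / t ^ 2| ≤ 2 * (k + 1) / t := by
    rw [abs_div, abs_of_pos (by positivity : 0 < t ^ 2)]
    exact (div_le_self (abs_nonneg _) (one_le_pow₀ ht)).trans (abs_ka ht)
  have a2 : 2 / t ^ 3 ≤ 2 / t := by
    gcongr
    simpa using pow_le_pow_right₀ ht (show 1 ≤ 3 by norm_num)
  have a3 : |((k:ℝ) + 2) / t + ka k t / t ^ 2 - 2 / t ^ 3| ≤ (3 * k + 6) / t := by
    have b1 : (0:ℝ) ≤ (k + 2) / t := by positivity
    have b2 : (0:ℝ) ≤ 2 / t ^ 3 := by positivity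
    have b3 : (3 * (k:ℝ) + 6) / t = (k + 2) / t + 2 * (k + 1) / t + 2 / t := by ring
    have := abs_le.1 a1
    rw [abs_le]
    constructor <;> linarith [this.1, this.2]
  unfold ps
  rw [abs_mul, abs_of_pos h1]
  calc _ ≤ √t * ((3 * k + 6) / t) := by gcongr
    _ = _ := by
      generalize √t = s at *
      subst h2
      field_simp

lemma abs_et {t : ℝ} (ht : 1 ≤ t) : |et k t| ≤ (5 * k + 9) / √t := by
  have h0 : 0 < t := by linarith
  have h1 := Real.sqrt_pos.2 h0
  have h2 := Real.mul_self_sqrt h0.le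
  have a1 : |ka k t * √t| ≤ 2 * (k + 1) / √t := by
    rw [abs_mul, abs_of_pos h1]
    calc _ ≤ 2 * (k + 1) / t * √t := by gcongr; exact abs_ka ht
      _ = _ := by
        generalize √t = s at *
        subst h2
        field_simp
  have a2 : |ps k t / t| ≤ (3 * k + 6) / √t := by
    rw [abs_div, abs_of_pos h0]
    exact (div_le_self (abs_nonneg _) ht).trans (abs_ps ht)
  have a3 : 1 / (2 * √t) ≤ 1 / √t := by gcongr; linarith
  have a4 : 0 ≤ 1 / (2 * √t) := by positivity
  have a5 : |ka k t * √t - 1 / (2 * √t) + ps k t / t| ≤ (5 * k + 9) / √t := by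
    have b3 : (5 * (k:ℝ) + 9) / √t = 2 * (k + 1) / √t + (3 * k + 6) / √t + 1 / √t := by ring
    have c1 := abs_le.1 a1
    have c2 := abs_le.1 a2
    have : 0 ≤ 1 / √t := by positivity
    rw [abs_le]
    constructor <;> linarith [c1.1, c1.2, c2.1, c2.2]
  unfold et
  rw [abs_div, abs_of_pos (by positivity : (0:ℝ) < k + 2)]
  exact (div_le_self (abs_nonneg _) (by linarith [Nat.cast_nonneg (α := ℝ) k])).trans a5

lemma abs_om {x : E (k + 3)} (hx : x ∈ ball (0 : E (k + 3)) 1 \ {0}) (i α : Fin (k + 3)) :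
    |om k x i α| ≤ (13 * k + 24) * (ex (T x) / √(T x)) := by
  have ht := one_le_T hx
  have h1 := abs_ps (k := k) ht
  have h2 := abs_et (k := k) ht
  have a1 : |et k (T x) * kr i α| ≤ (5 * k + 9) / √(T x) * 1 := by
    rw [abs_mul]; exact mul_le_mul h2 (abs_kr _ _) (abs_nonneg _) (by positivity)
  have a2 : |(ps k (T x) + et k (T x)) * (x i * ex (T x)) * (x α * ex (T x))| ≤
      ((3 * k + 6) / √(T x) + (5 * k + 9) / √(T x)) * 1 * 1 := by
    rw [abs_mul, abs_mul]
    exact mul_le_mul (mul_le_mul ((abs_add_le _ _).trans (add_le_add h1 h2)) (abs_mul_ex hx.2 i)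
      (abs_nonneg _) (by positivity)) (abs_mul_ex hx.2 α) (abs_nonneg _) (by positivity)
  unfold om
  rw [abs_mul, abs_of_pos (ex_pos _)]
  have := ex_pos (T x)
  calc _ ≤ ex (T x) * ((5 * k + 9) / √(T x) * 1 +
        ((3 * k + 6) / √(T x) + (5 * k + 9) / √(T x)) * 1 * 1) := by
        gcongr
        exact (abs_sub _ _).trans (add_le_add a1 a2)
    _ = _ := by ring

lemma abs_Om {x : E (k + 3)} (hx : x ∈ ball (0 : E (k + 3)) 1 \ {0}) (i j : Fin (k + 3 + 1))
    (α : Fin (k + 3)) : |Om k x i j α| ≤ (13 * k + 24) * (ex (T x) / √(T x)) := by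
  have := ex_pos (T x)
  have h0 : |(0:ℝ)| ≤ (13 * k + 24) * (ex (T x) / √(T x)) := by rw [abs_zero]; positivity
  refine Fin.cases (Fin.cases h0 (fun j => ?_) j) (fun i => Fin.cases ?_ (fun j => h0) j) i
  · exact (abs_neg _).le.trans (abs_om hx j α)
  · exact abs_om hx i α

@[fun_prop] lemma measurable_om (i α : Fin (k + 3)) : Measurable fun x => om k x i α := by
  unfold om et ps ka Pn
  fun_prop

lemma measurable_Om (i j : Fin (k + 3 + 1)) (α : Fin (k + 3)) :
    Measurable fun x => Om k x i j α :=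
  Fin.cases (Fin.cases measurable_const (fun j => (measurable_om j α).neg) j)
    (fun i => Fin.cases (measurable_om i α) (fun _ => measurable_const) j) i

lemma measurable_du (i : Fin (k + 3 + 1)) (α : Fin (k + 3)) : Measurable fun x => du k x i α := by
  refine Fin.cases ?_ (fun i => ?_) i
  · simp only [du, Fin.cons_zero]; fun_prop
  · simp only [du, Fin.cons_succ]; fun_prop

lemma measurable_Du : Measurable (Du k) :=
  (WithLp.measurable_toLp _ _).comp (measurable_pi_lambda _ fun p => measurable_du p.1 p.2)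

lemma measurable_uu : Measurable (uu k) := by
  refine (WithLp.measurable_toLp _ _).comp (measurable_pi_lambda _ fun i => ?_)
  refine Fin.cases ?_ (fun i => ?_) i
  · simp only [Fin.cons_zero]; fun_prop
  · simp only [Fin.cons_succ]; fun_prop

lemma norm_Du {x : E (k + 3)} (hx : x ∈ ball (0 : E (k + 3)) 1 \ {0}) :
    ‖Du k x‖ = √(Pn k (T x)) * ex (T x) := by
  have ht := one_le_T hx
  have h0 : 0 < T x := by linarith
  have h1 := Real.sqrt_pos.2 h0
  have h2 := Real.sq_sqrt h0.le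
  have h3 := sum_sq_ex hx.2
  have he := ex_pos (T x)
  rw [← pow_left_inj₀ (n := 2) (norm_nonneg _) (mul_nonneg (Real.sqrt_nonneg _) he.le) (by norm_num),
    EuclideanSpace.real_norm_sq_eq, mul_pow, Real.sq_sqrt (P_pos h0).le, Fintype.sum_prod_type,
    Fin.sum_univ_succ]
  simp only [Du, du, Fin.cons_zero, Fin.cons_succ]
  have e : ∀ (a b : ℝ) (i α : Fin (k + 3)), (a * kr i α + b * x i * x α) ^ 2 =
      kr i α * (a ^ 2 + 2 * a * b * x i * x α) + b ^ 2 * x i ^ 2 * x α ^ 2 := by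
    intro a b i α
    linear_combination a ^ 2 * kr_sq i α
  have e2 : ∀ (c : ℝ) (i : Fin (k + 3)), c * x i * x i = c * x i ^ 2 := fun c i => by ring
  simp only [e, e2, mul_pow, Finset.sum_add_distrib, sum_kr_mul, ← Finset.mul_sum, ← Finset.sum_mul,
    Finset.sum_const, Finset.card_univ, Fintype.card_fin, nsmul_eq_mul]
  have h4 : ∑ α, x α ^ 2 = 1 / ex (T x) ^ 2 := by rw [eq_div_iff (by positivity)]; exact h3
  rw [h4, neg_sq, div_pow, h2]
  unfold Pn
  field_simp
  push_cast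
  ring

lemma sqrt_P_le {t : ℝ} (ht : 1 ≤ t) : √(Pn k t) ≤ (k + 4) / √t := by
  have h0 : 0 < t := by linarith
  rw [Real.sqrt_le_left (by positivity), div_pow, Real.sq_sqrt h0.le]
  have a1 : ((k:ℝ) + 2) / t ^ 2 ≤ (k + 2) / t := by
    gcongr; simpa using pow_le_pow_right₀ ht (show 1 ≤ 2 by norm_num)
  have a2 : 1 / t ^ 4 ≤ 1 / t := by
    gcongr; simpa using pow_le_pow_right₀ ht (show 1 ≤ 4 by norm_num)
  have a3 : ((k:ℝ) + 4) / t ≤ (k + 4) ^ 2 / t := by
    gcongr; nlinarith [Nat.cast_nonneg (α := ℝ) k]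
  have a4 : ((k:ℝ) + 4) / t = 1 / t + (k + 2) / t + 1 / t := by ring
  unfold Pn
  linarith

lemma norm_Du_pow {x : E (k + 3)} (hx : x ∈ ball (0 : E (k + 3)) 1 \ {0}) (j m : ℕ) (h : j ≤ m) :
    ‖Du k x‖ ^ m ≤ (k + 4) ^ m * (ex (T x) ^ m / √(T x) ^ j) := by
  have ht := one_le_T hx
  have h1 : 1 ≤ √(T x) := Real.one_le_sqrt.2 ht
  have he := ex_pos (T x)
  rw [norm_Du hx]
  calc _ ≤ ((k + 4) / √(T x) * ex (T x)) ^ m := by gcongr; exact sqrt_P_le ht
    _ = (k + 4) ^ m * (ex (T x) ^ m / √(T x) ^ m) := by rw [mul_pow, div_pow]; ring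
    _ ≤ _ := by gcongr

lemma norm_uu {x : E (k + 3)} (hx : x ∈ ball (0 : E (k + 3)) 1 \ {0}) :
    ‖uu k x‖ ≤ 3 * √(T x) := by
  have ht := one_le_T hx
  have h0 : 0 < T x := by linarith
  apply le_of_pow_le_pow_left₀ (n := 2) (by norm_num) (by positivity)
  rw [EuclideanSpace.real_norm_sq_eq, Fin.sum_univ_succ]
  simp only [uu, Fin.cons_zero, Fin.cons_succ, mul_pow, ← Finset.mul_sum, Real.sq_sqrt h0.le]
  have h3 := sum_sq_ex hx.2
  have : (ex (T x) / T x) ^ 2 * ∑ α, x α ^ 2 = 1 / T x ^ 2 := by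
    rw [← h3]; ring
  rw [this]
  have : 1 / T x ^ 2 ≤ 1 := (div_le_one (by positivity)).2 (one_le_pow₀ ht)
  linarith

lemma sqrt_pow_le {t : ℝ} (ht : 1 ≤ t) {a b : ℕ} (h : a ≤ 2 * b) : √t ^ a ≤ ex t ^ b := by
  calc √t ^ a ≤ √t ^ (2 * b) := pow_le_pow_right₀ (Real.one_le_sqrt.2 ht) h
    _ = t ^ b := by rw [pow_mul, Real.sq_sqrt (by linarith)]
    _ ≤ _ := pow_le_pow_left₀ (by linarith) (le_ex t) b

lemma norm_single {X : E (k + 3)} {c : ℝ} {α : Fin (k + 3)} (h : ∀ β, X β = c * kr α β) :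
    ‖X‖ = |c| := by
  have : ‖X‖ ^ 2 = |c| ^ 2 := by
    rw [← sum_sq, sq_abs]
    simp only [h, mul_pow, kr_sq, ← Finset.mul_sum, sum_kr, mul_one]
  exact (pow_left_inj₀ (norm_nonneg _) (abs_nonneg _) (by norm_num)).1 this

lemma inW (h1 : StI1) (h3 : StI3) : Spec.InW (uu k) (Du k) := by
  have hn : 3 ≤ k + 3 := by omega
  have hq : ((k + 3 : ℕ) : ENNReal) ≠ 0 := by simp
  refine ⟨?_, ?_, fun i α φ hφ => ?_⟩
  · rw [← integrable_norm_rpow_iff measurable_uu.aestronglyMeasurable hq (by simp)]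
    refine integ h3 hn (C := 3 ^ (k + 3))
      (measurable_uu.norm.pow_const _).aestronglyMeasurable fun x hx => ?_
    have ht := one_le_T hx
    have h2 : 0 < √(T x) := Real.sqrt_pos.2 (by linarith)
    rw [ENNReal.toReal_natCast, Real.rpow_natCast, norm_pow, norm_norm]
    calc _ ≤ (3 * √(T x)) ^ (k + 3) := by gcongr; exact norm_uu hx
      _ ≤ _ := by
        rw [mul_pow]
        gcongr
        rw [le_div_iff₀ (by positivity), ← pow_add]
        exact sqrt_pow_le ht (by omega)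
  · rw [← integrable_norm_rpow_iff measurable_Du.aestronglyMeasurable hq (by simp)]
    refine integ h3 hn (C := (k + 4) ^ (k + 3))
      (measurable_Du.norm.pow_const _).aestronglyMeasurable fun x hx => ?_
    rw [ENNReal.toReal_natCast, Real.rpow_natCast, norm_pow, norm_norm]
    exact norm_Du_pow hx 3 _ hn
  have key : ∀ X : E (k + 3) → E (k + 3), (∀ x β, X x β = uu k x i * kr α β) →
      (∀ x ∈ ball (0 : E (k + 3)) 1 \ {0}, ContDiffAt ℝ 1 X x) →
      (∀ x ∈ ball (0 : E (k + 3)) 1 \ {0}, ∑ β, Spec.pd (fun z => X z β) β x = du k x i α) →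
      ∫ x, uu k x i * Spec.pd φ α x ∂Spec.volB (k + 3) =
        -∫ x, Du k x (i, α) * φ x ∂Spec.volB (k + 3) := by
    intro X hX hc hd
    have := weak h1 h3 hn (C := k + 4) hc hd (measurable_du i α) (fun x hx => ?_) (fun x hx => ?_) φ hφ
    · simp only [hX, mul_assoc, ← Finset.mul_sum, sum_kr_mul] at this
      exact this
    · have ht := one_le_T hx
      have h2 : 0 < √(T x) := Real.sqrt_pos.2 (by linarith)
      rw [norm_single (hX x)]
      calc _ ≤ ‖uu k x‖ := by simpa using PiLp.norm_apply_le (uu k x) i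
        _ ≤ 3 * √(T x) := norm_uu hx
        _ ≤ _ := by
          gcongr
          · linarith [Nat.cast_nonneg (α := ℝ) k]
          · rw [le_div_iff₀ h2, ← sq]
            exact sqrt_pow_le ht (by omega)
    · have ht := one_le_T hx
      have h2 : 0 < √(T x) := Real.sqrt_pos.2 (by linarith)
      have he := ex_pos (T x)
      calc _ ≤ ‖Du k x‖ ^ 1 := by rw [pow_one]; exact PiLp.norm_apply_le (Du k x) (i, α)
        _ ≤ _ := norm_Du_pow hx 1 1 le_rfl
        _ ≤ _ := by
          rw [pow_one, pow_one, pow_one]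
          gcongr ?_ * ?_
          rw [div_le_div_iff₀ h2 (by positivity)]
          calc ex (T x) * √(T x) ^ 3 = ex (T x) * √(T x) * √(T x) ^ 2 := by ring
            _ ≤ ex (T x) * √(T x) * ex (T x) ^ (k + 2) := by
              gcongr ?_ * ?_; exact sqrt_pow_le ht (by omega)
            _ = _ := by ring
  revert key
  refine Fin.cases (fun key => ?_) (fun i key => ?_) i
  · refine key (fld (fun _ => 0) (fun t => 2 * √t) (fun _ => 0) α) (fun x β => by simp [fld, uu])
      (fun x hx => contDiffAt_fld hx.2 _ contDiffAt_const ?_ contDiffAt_const) fun x hx => ?_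
    · exact contDiffAt_const.mul (contDiffAt_id.sqrt (by simpa using (one_pos.trans_le (one_le_T hx)).ne'))
    · have h0 : 0 < T x := one_pos.trans_le (one_le_T hx)
      rw [div_fld hx.2 α (hasDerivAt_const _ _) ((Real.hasDerivAt_sqrt h0.ne').const_mul 2)
        (hasDerivAt_const _ _)]
      simp only [du, Fin.cons_zero]
      ring
  · refine key (fl2 (fun t => ex t / t) i α) (fun x β => by simp [fl2, uu])
      (fun x hx => contDiffAt_fl2 hx.2 _ _ ?_) fun x hx => ?_
    · exact contDiff_ex.contDiffAt.div contDiffAt_id (one_pos.trans_le (one_le_T hx)).ne'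
    · have h0 : 0 < T x := one_pos.trans_le (one_le_T hx)
      rw [div_fl2 hx.2 i α ((hasDerivAt_ex _).fun_div (hasDerivAt_id' _) h0.ne')]
      simp only [du, Fin.cons_succ]
      field_simp
      ring

lemma sig_zero {x : E (k + 3)} (hx : x ∈ ball (0 : E (k + 3)) 1 \ {0}) (α : Fin (k + 3)) :
    ‖Du k x‖ ^ (k + 3 - 2) * Du k x (0, α) = al k (T x) * x α := by
  rw [norm_Du hx, show k + 3 - 2 = k + 1 from rfl]
  simp only [Du, du, Fin.cons_zero, al, W]
  ring

lemma sig_succ {x : E (k + 3)} (hx : x ∈ ball (0 : E (k + 3)) 1 \ {0}) (i α : Fin (k + 3)) :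
    ‖Du k x‖ ^ (k + 3 - 2) * Du k x (i.succ, α) =
      be k (T x) * kr i α + ga k (T x) * x i * x α := by
  rw [norm_Du hx, show k + 3 - 2 = k + 1 from rfl]
  simp only [Du, du, Fin.cons_succ, be, ga, W]
  ring

lemma solves (h1 : StI1) (h3 : StI3) : Spec.Solves (Om k) (Du k) := by
  have hn : 3 ≤ k + 3 := by omega
  intro i φ hφ
  have key : ∀ X : E (k + 3) → E (k + 3),
      (∀ x ∈ ball (0 : E (k + 3)) 1 \ {0}, ∀ β, X x β = ‖Du k x‖ ^ (k + 3 - 2) * Du k x (i, β)) →
      (∀ x ∈ ball (0 : E (k + 3)) 1 \ {0}, ContDiffAt ℝ 1 X x) →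
      (∀ x ∈ ball (0 : E (k + 3)) 1 \ {0}, ∑ β, Spec.pd (fun z => X z β) β x =
        -∑ j, ∑ α, Om k x i j α * (‖Du k x‖ ^ (k + 3 - 2) * Du k x (j, α))) →
      ∫ x, ∑ α, ‖Du k x‖ ^ (k + 3 - 2) * Du k x (i, α) * Spec.pd φ α x ∂Spec.volB (k + 3) =
        ∫ x, (∑ j, ∑ α, Om k x i j α * (‖Du k x‖ ^ (k + 3 - 2) * Du k x (j, α))) * φ x
          ∂Spec.volB (k + 3) := by
    intro X hX hc hd
    have hk : (0:ℝ) ≤ k := Nat.cast_nonneg k
    have := weak h1 h3 hn (C := (k + 4) ^ 2 * (13 * k + 24) * (k + 4) ^ (k + 2)) hc hd ?_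
      (fun x hx => ?_) (fun x hx => ?_) φ hφ
    · simp only [neg_mul, integral_neg, neg_neg] at this
      rw [← this]
      refine integral_congr_ae ?_
      filter_upwards [ae_mem hn] with x hx
      simp only [hX x hx]
    · refine (Finset.measurable_sum _ fun j _ => Finset.measurable_sum _ fun α _ => ?_).neg
      exact (measurable_Om i j α).mul ((measurable_Du.norm.pow_const _).mul (measurable_du j α))
    · have he := ex_pos (T x)
      have a1 : ‖X x‖ ≤ ‖Du k x‖ ^ (k + 2) := by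
        apply le_of_pow_le_pow_left₀ (n := 2) (by norm_num) (by positivity)
        rw [← sum_sq, pow_succ ‖Du k x‖ (k + 1), mul_pow, EuclideanSpace.real_norm_sq_eq,
          Fintype.sum_prod_type]
        simp only [hX x hx, mul_pow, ← Finset.mul_sum]
        exact mul_le_mul_of_nonneg_left (Finset.single_le_sum (f := fun j => ∑ β, Du k x (j, β) ^ 2)
          (fun j _ => by positivity) (Finset.mem_univ i)) (by positivity)
      have a2 := norm_Du_pow hx 1 (k + 2) (by omega)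
      rw [pow_one] at a2
      refine a1.trans (a2.trans ?_)
      rw [show k + 3 - 1 = k + 2 from rfl]
      gcongr
      exact le_mul_of_one_le_left (by positivity)
        (one_le_mul_of_one_le_of_one_le (by nlinarith) (by linarith))
    · have he := ex_pos (T x)
      have a2 := norm_Du_pow hx 2 (k + 2) (by omega)
      have a3 : ∀ j α, ‖Om k x i j α * (‖Du k x‖ ^ (k + 3 - 2) * Du k x (j, α))‖ ≤
          (13 * k + 24) * (k + 4) ^ (k + 2) * (ex (T x) ^ (k + 3) / √(T x) ^ 3) := by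
        intro j α
        rw [norm_mul, norm_mul, norm_pow, norm_norm, show k + 3 - 2 = k + 1 from rfl]
        calc _ ≤ (13 * k + 24) * (ex (T x) / √(T x)) * (‖Du k x‖ ^ (k + 1) * ‖Du k x‖) := by
              gcongr
              · exact abs_Om hx i j α
              · exact PiLp.norm_apply_le (Du k x) (j, α)
          _ ≤ (13 * k + 24) * (ex (T x) / √(T x)) *
              ((k + 4) ^ (k + 2) * (ex (T x) ^ (k + 2) / √(T x) ^ 2)) := by
              rw [← pow_succ]; gcongr
          _ = _ := by ring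
      rw [norm_neg]
      refine (norm_sum_le_of_le _ fun j _ => norm_sum_le_of_le _ fun α _ => a3 j α).trans ?_
      simp only [Finset.sum_const, Finset.card_univ, Fintype.card_fin, nsmul_eq_mul]
      have : 0 ≤ (13 * (k:ℝ) + 24) * (k + 4) ^ (k + 2) * (ex (T x) ^ (k + 3) / √(T x) ^ 3) := by
        positivity
      push_cast
      nlinarith
  have cW : ∀ x ∈ ball (0 : E (k + 3)) 1 \ {0}, 0 < T x ∧ ContDiffAt ℝ 1 (W k) (T x) :=
    fun x hx => ⟨one_pos.trans_le (one_le_T hx), contDiffAt_W (one_pos.trans_le (one_le_T hx))⟩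
  revert key
  refine Fin.cases (fun key => ?_) (fun i key => ?_) i
  · refine key (fld (al k) (fun _ => 0) (fun _ => 0) 0)
      (fun x hx β => by rw [sig_zero hx]; simp [fld])
      (fun x hx => contDiffAt_fld hx.2 _ ?_ contDiffAt_const contDiffAt_const) fun x hx => ?_
    · obtain ⟨h0, hW⟩ := cW x hx
      exact ((hW.div (contDiffAt_id.sqrt h0.ne') (Real.sqrt_pos.2 h0).ne').mul
        (contDiff_ex.contDiffAt.pow _)).neg
    · have h0 := (cW x hx).1
      have hs := Real.sqrt_pos.2 h0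
      have hs2 := Real.sq_sqrt h0.le
      have he := ex_pos (T x)
      rw [div_fld hx.2 0 (hasDerivAt_al h0) (hasDerivAt_const _ _) (hasDerivAt_const _ _),
        Fin.sum_univ_succ]
      simp only [sig_succ hx, Om, Fin.cons_zero, Fin.cons_succ, zero_mul, Finset.sum_const_zero, om]
      have e : ∀ (a b c d : ℝ) (j α : Fin (k + 3)),
          -(ex (T x) * (a * kr j α - b * (x j * ex (T x)) * (x α * ex (T x)))) *
            (c * kr j α + d * x j * x α) =
          kr j α * (-(ex (T x) * a * c) + (ex (T x) ^ 3 * b * c - ex (T x) * a * d) * x j * x α) +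
            ex (T x) ^ 3 * b * d * x j ^ 2 * x α ^ 2 := by
        intro a b c d j α
        linear_combination (-(ex (T x) * a * c)) * kr_sq j α
      have e2 : ∀ (c : ℝ) (i : Fin (k + 3)), c * x i * x i = c * x i ^ 2 := fun c i => by ring
      simp only [e, e2, Finset.sum_add_distrib, sum_kr_mul, ← Finset.mul_sum, ← Finset.sum_mul,
        Finset.sum_const, Finset.card_univ, Fintype.card_fin, nsmul_eq_mul]
      have h4 : ∑ α, x α ^ 2 = 1 / ex (T x) ^ 2 := by
        rw [eq_div_iff (by positivity)]; exact sum_sq_ex hx.2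
      rw [h4]
      unfold be ga et
      generalize ps k (T x) = ψ
      generalize ex (T x) = y at *
      generalize √(T x) = s at *
      rw [← hs2]
      field_simp
      push_cast
      ring
  · refine key (fld (fun _ => 0) (be k) (ga k) i)
      (fun x hx β => by rw [sig_succ hx]; simp [fld])
      (fun x hx => contDiffAt_fld hx.2 _ contDiffAt_const ?_ ?_) fun x hx => ?_
    · obtain ⟨h0, hW⟩ := cW x hx
      exact (hW.div contDiffAt_id h0.ne').mul (contDiff_ex.contDiffAt.pow _)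
    · obtain ⟨h0, hW⟩ := cW x hx
      have hc : ContDiffAt ℝ 1 (fun t : ℝ => 1 / t ^ 2 - 1 / t) (T x) := by
        fun_prop (disch := positivity)
      exact (hW.mul hc).mul (contDiff_ex.contDiffAt.pow _)
    · have h0 := (cW x hx).1
      have hs := Real.sqrt_pos.2 h0
      have he := ex_pos (T x)
      rw [div_fld hx.2 i (hasDerivAt_const _ _) (hasDerivAt_be h0) (hasDerivAt_ga h0),
        Fin.sum_univ_succ]
      simp only [sig_zero hx, Om, Fin.cons_zero, Fin.cons_succ, zero_mul, Finset.sum_const_zero, om]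
      have e : ∀ (a b c : ℝ) (α : Fin (k + 3)),
          ex (T x) * (a * kr i α - b * (x i * ex (T x)) * (x α * ex (T x))) * (c * x α) =
          kr i α * (ex (T x) * a * c * x α) - ex (T x) ^ 3 * b * c * x i * x α ^ 2 := by
        intro a b c α
        ring
      simp only [e, Finset.sum_sub_distrib, sum_kr_mul, ← Finset.mul_sum]
      have h4 : ∑ α, x α ^ 2 = 1 / ex (T x) ^ 2 := by
        rw [eq_div_iff (by positivity)]; exact sum_sq_ex hx.2
      rw [h4]
      unfold be ga al ps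
      field_simp
      push_cast
      ring

end PI

open PI in
theorem stI (h1 : StI1) (h3 : StI3) : StI := by
  intro n hn p hp hG
  obtain ⟨k, rfl⟩ : ∃ k, n = k + 3 := ⟨n - 3, by omega⟩
  obtain ⟨w, hw, hu⟩ := hG (k + 3 + 1) (by omega) (Om k)
    (Eventually.of_forall fun x i j α => by
      refine Fin.cases (Fin.cases ?_ (fun j => ?_) j) (fun i => Fin.cases ?_ (fun j => ?_) j) i <;>
        simp [Om])
    (fun i j α => (h3 _ hn).1 p (13 * k + 24) _ hp (measurable_Om i j α) fun x hx => by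
      refine (abs_Om hx i j α).trans (le_of_eq ?_)
      rw [eq_inv_of_mul_eq_one_right (norm_mul_ex hx.2), T]
      ring)
    (uu k) (Du k) (inW h1 h3) (solves h1 h3)
  have c1 : ContinuousAt w 0 := hw.continuousAt (ball_mem_nhds _ one_pos)
  have c2 : ∀ᶠ x in 𝓝 (0 : E (k + 3)), ‖w x‖ < ‖w 0‖ + 1 :=
    c1.norm.eventually_lt continuousAt_const (by linarith)
  have c3 : ∀ᶠ x in 𝓝[≠] (0 : E (k + 3)), ‖w 0‖ + 1 ≤ √(T x) :=
    (Real.tendsto_sqrt_atTop.comp tendsto_T).eventually_ge_atTop _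
  rw [eventually_nhdsWithin_iff] at c3
  obtain ⟨r, hr, H⟩ := Metric.eventually_nhds_iff_ball.1
    (c2.and (c3.and (ball_mem_nhds (0 : E (k + 3)) one_pos)))
  have h0 : ∀ᵐ x ∂Spec.volB (k + 3), x ∉ ball (0 : E (k + 3)) r := by
    filter_upwards [hu, ae_mem hn] with x a b hx
    obtain ⟨d1, d2, -⟩ := H x hx
    have d3 : ‖uu k x 0‖ ≤ ‖uu k x‖ := PiLp.norm_apply_le (uu k x) 0
    have d4 : uu k x 0 = 2 * √(T x) := rfl
    rw [d4, Real.norm_of_nonneg (by positivity), ← a] at d3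
    linarith [d2 b.2, Real.sqrt_nonneg (T x)]
  rw [← measure_eq_zero_iff_ae_notMem, Spec.volB, Measure.restrict_apply measurableSet_ball,
    inter_eq_left.2 (show ball (0 : E (k + 3)) r ⊆ ball 0 1 from fun x hx => (H x hx).2.2)] at h0
  exact (measure_ball_pos volume _ hr).ne' h0

end

end Pool.Agent.P.MP_28243e_an
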