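import Pool.Agent.P.MP_28243e_an.Basic

/-! Removable point singularities for divergence identities, and radial integrability bounds. -/

namespace Pool.Agent.P.MP_28243e_an

open Set MeasureTheory Metric Filter Topology ENNReal
open scoped NNReal ContDiff RealInnerProductSpace Classical

namespace I1

variable {n : ℕ}

theorem sum_pd (ψ : E n → ℝ) (x v : E n) :
    ∑ α, v α * Spec.pd ψ α x = fderiv ℝ ψ x v := by
  have hv : v = ∑ α, v α • EuclideanSpace.single α (1 : ℝ) := by
    ext β
    simp [Pi.single_apply]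
  conv_rhs => rw [hv]
  rw [map_sum]
  refine Finset.sum_congr rfl fun α _ => ?_
  rw [map_smul, smul_eq_mul, Spec.pd]

theorem isOpen_punct : IsOpen (ball (0 : E n) 1 \ {0}) := isOpen_ball.sdiff isClosed_singleton

theorem integrable_of_supp {K U : Set (E n)} (hK : IsCompact K) (hKU : K ⊆ U) {g : E n → ℝ}
    (hg : ContinuousOn g U) (h0 : ∀ x, x ∉ K → g x = 0) : Integrable g volume := by
  have h1 : IntegrableOn g K volume := (hg.mono hKU).integrableOn_compact hK
  refine (integrableOn_iff_integrable_of_support_subset ?_).1 h1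
  intro x hx
  by_contra hc
  exact hx (h0 x hc)

theorem away (X : E n → E n) (f : E n → ℝ) (hX : ContDiffOn ℝ 1 X (ball 0 1 \ {0}))
    (hf : ∀ x ∈ ball (0 : E n) 1 \ {0}, ∑ α, Spec.pd (fun z => X z α) α x = f x)
    (ψ : E n → ℝ) (hψ : ContDiff ℝ 1 ψ) (hc : HasCompactSupport ψ)
    (hs : tsupport ψ ⊆ ball 0 1 \ {0}) :
    ∫ x, fderiv ℝ ψ x (X x) ∂Spec.volB n = -∫ x, f x * ψ x ∂Spec.volB n := by
  have hXa : ∀ α, ContDiffOn ℝ 1 (fun z => X z α) (ball 0 1 \ {0}) := fun α =>
    (EuclideanSpace.proj (𝕜 := ℝ) α).contDiff.comp_contDiffOn hX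
  have hψ0 : ∀ x, x ∉ tsupport ψ → ψ x = 0 := fun x hx => image_eq_zero_of_notMem_tsupport hx
  have hd0 : ∀ x, x ∉ tsupport ψ → fderiv ℝ ψ x = 0 := fun x hx => by
    by_contra h
    exact hx (support_fderiv_subset ℝ h)
  have hcf : Continuous (fderiv ℝ ψ) := hψ.continuous_fderiv one_ne_zero
  have i1 : ∀ α, Integrable (fun x => fderiv ℝ (fun z => X z α) x (EuclideanSpace.single α 1) * ψ x)
      volume := fun α => by
    refine integrable_of_supp hc hs ?_ fun x hx => by rw [hψ0 x hx, mul_zero]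
    exact (((hXa α).continuousOn_fderiv_of_isOpen isOpen_punct le_rfl).clm_apply
      continuousOn_const).mul hψ.continuous.continuousOn
  have i2 : ∀ α, Integrable (fun x => X x α * fderiv ℝ ψ x (EuclideanSpace.single α 1))
      volume := fun α => by
    refine integrable_of_supp hc hs ?_ fun x hx => by rw [hd0 x hx]; simp
    exact (hXa α).continuousOn.mul (hcf.clm_apply continuous_const).continuousOn
  have i3 : ∀ α, Integrable (fun x => X x α * ψ x) volume := fun α => by
    refine integrable_of_supp hc hs ?_ fun x hx => by rw [hψ0 x hx, mul_zero]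
    exact (hXa α).continuousOn.mul hψ.continuous.continuousOn
  have key : ∀ α, ∫ x, X x α * fderiv ℝ ψ x (EuclideanSpace.single α 1) =
      -∫ x, fderiv ℝ (fun z => X z α) x (EuclideanSpace.single α 1) * ψ x := fun α =>
    integral_mul_fderiv_eq_neg_fderiv_mul_of_integrable (i1 α) (i2 α) (i3 α)
      (fun x hx => (((hXa α).contDiffAt (isOpen_punct.mem_nhds (hs hx))).differentiableAt
        one_ne_zero))
      (fun x _ => (hψ.differentiable one_ne_zero) x)
  have e1 : ∫ x, fderiv ℝ ψ x (X x) ∂Spec.volB n = ∫ x, fderiv ℝ ψ x (X x) := by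
    unfold Spec.volB
    refine setIntegral_eq_integral_of_forall_compl_eq_zero fun x hx => ?_
    rw [hd0 x fun h => hx (hs h).1]; simp
  have e2 : ∫ x, f x * ψ x ∂Spec.volB n = ∫ x, f x * ψ x := by
    unfold Spec.volB
    refine setIntegral_eq_integral_of_forall_compl_eq_zero fun x hx => ?_
    rw [hψ0 x fun h => hx (hs h).1, mul_zero]
  rw [e1, e2]
  calc ∫ x, fderiv ℝ ψ x (X x)
      = ∫ x, ∑ α, X x α * fderiv ℝ ψ x (EuclideanSpace.single α 1) := by
        refine integral_congr_ae (Eventually.of_forall fun x => ?_)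
        exact (sum_pd ψ x (X x)).symm
    _ = ∑ α, -∫ x, fderiv ℝ (fun z => X z α) x (EuclideanSpace.single α 1) * ψ x := by
        rw [integral_finsetSum _ fun α _ => i2 α]
        exact Finset.sum_congr rfl fun α _ => key α
    _ = -∫ x, ∑ α, fderiv ℝ (fun z => X z α) x (EuclideanSpace.single α 1) * ψ x := by
        rw [integral_finsetSum _ fun α _ => i1 α, Finset.sum_neg_distrib]
    _ = _ := by
        congr 1
        refine integral_congr_ae (Eventually.of_forall fun x => ?_)
        by_cases hx : x ∈ tsupport ψ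
        · show _ = f x * ψ x
          rw [← hf x (hs hx), Finset.sum_mul]; rfl
        · simp [hψ0 x hx]

theorem ae_ne_zero (hn : 3 ≤ n) : ∀ᵐ x ∂Spec.volB n, x ≠ (0 : E n) := by
  have : Nontrivial (E n) := by
    have : Nonempty (Fin n) := ⟨⟨0, by omega⟩⟩
    infer_instance
  refine ae_restrict_of_ae ?_
  have : (volume : Measure (E n)) {0} = 0 := measure_singleton 0
  exact compl_mem_ae_iff.2 this

theorem lim_cut (hn : 3 ≤ n) {g : E n → ℝ} (hg : Integrable g (Spec.volB n)) :
    Tendsto (fun ε : ℝ => ∫ x, g x * (1 - cut 0 (ε / 2) ε x) ∂Spec.volB n) (𝓝[>] 0)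
      (𝓝 (∫ x, g x ∂Spec.volB n)) := by
  refine tendsto_integral_filter_of_dominated_convergence (fun x => ‖g x‖) ?_ ?_ hg.norm ?_
  · refine Eventually.of_forall fun ε => hg.1.mul ?_
    exact (continuous_const.sub (cut_contDiff 0 (ε / 2) ε).continuous).aestronglyMeasurable
  · refine Eventually.of_forall fun ε => Eventually.of_forall fun x => ?_
    rw [norm_mul]
    refine mul_le_of_le_one_right (norm_nonneg _) ?_
    rw [Real.norm_eq_abs, abs_le]
    constructor <;> linarith [cut_nonneg 0 (ε / 2) ε x, cut_le_one 0 (ε / 2) ε x]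
  · filter_upwards [ae_ne_zero hn] with x hx
    refine tendsto_const_nhds.congr' ?_
    have hx' : 0 < ‖x‖ := norm_pos_iff.2 hx
    filter_upwards [Ioo_mem_nhdsGT hx'] with ε hε
    rw [cut_eq_zero (by linarith [hε.1]) (by linarith [hε.1]) (by simpa using hε.2.le)]
    simp

theorem lim_err (hn : 3 ≤ n) {X : E n → E n}
    (hX : Tendsto (fun x : E n => ‖x‖ ^ (n - 1) * ‖X x‖) (𝓝[≠] 0) (𝓝 0)) {φ : E n → ℝ} {M : ℝ}
    (hM : ∀ x, ‖φ x‖ ≤ M) :
    Tendsto (fun ε : ℝ => ∫ x, φ x * fderiv ℝ (cut 0 (ε / 2) ε) x (X x) ∂Spec.volB n) (𝓝[>] 0)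
      (𝓝 0) := by
  obtain ⟨C, hC1, hC⟩ := exists_cut_bound
  have hM0 : 0 ≤ M := (norm_nonneg _).trans (hM 0)
  set K : ℝ := M * (C : ℝ) * 2 ^ n * vb n + 1 with hK
  have hvb := vb_pos (n := n)
  have hK0 : 0 < K := by positivity
  rw [Metric.tendsto_nhds]
  intro η hη
  have h1 : ∀ᶠ x : E n in 𝓝[≠] 0, ‖x‖ ^ (n - 1) * ‖X x‖ < η / K :=
    hX.eventually (gt_mem_nhds (by positivity))
  obtain ⟨δ, hδ, hδ'⟩ := Metric.mem_nhdsWithin_iff.1 h1
  filter_upwards [Ioo_mem_nhdsGT hδ] with ε hε
  have hε0 := hε.1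
  rw [dist_zero_right]
  set B : ℝ := M * (C / (ε / 2)) * (η / K / (ε / 2) ^ (n - 1)) with hB
  have hB0 : 0 ≤ B := by positivity
  have hpt : ∀ x, ‖φ x * fderiv ℝ (cut 0 (ε / 2) ε) x (X x)‖ ≤ (ball (0 : E n) ε).indicator
      (fun _ => B) x := by
    intro x
    by_cases hx : ‖x - 0‖ ≤ ε / 2 ∨ ε ≤ ‖x - 0‖
    · rw [fderiv_cut_eq_zero (by linarith) (by linarith) hx]
      simp only [zero_apply, mul_zero, norm_zero]
      exact indicator_nonneg (fun _ _ => hB0) x
    · rw [not_or, not_le, not_le, sub_zero] at hx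
      rw [indicator_of_mem (mem_ball_zero_iff.2 hx.2), norm_mul]
      have hx0 : x ≠ 0 := norm_pos_iff.1 (by linarith [hx.1])
      have h2 : ‖x‖ ^ (n - 1) * ‖X x‖ < η / K :=
        hδ' ⟨mem_ball_zero_iff.2 (hx.2.trans hε.2), hx0⟩
      have h3 : ‖X x‖ ≤ η / K / (ε / 2) ^ (n - 1) := by
        rw [le_div_iff₀ (by positivity), mul_comm]
        refine le_trans ?_ h2.le
        gcongr
        exact hx.1.le
      have h4 := (hC n 0 (ε / 2) ε (by linarith) (by linarith)).1 x
      rw [show ε - ε / 2 = ε / 2 by ring] at h4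
      rw [hB, mul_assoc]
      refine mul_le_mul (hM x) ((ContinuousLinearMap.le_opNorm _ _).trans ?_) (norm_nonneg _) hM0
      exact mul_le_mul h4 h3 (norm_nonneg _) (by positivity)
  have hint : Integrable ((ball (0 : E n) ε).indicator fun _ => B) volume :=
    (integrable_indicator_iff measurableSet_ball).2
      (integrableOn_const (vol_ball_ne_top _ _))
  calc ‖∫ x, φ x * fderiv ℝ (cut 0 (ε / 2) ε) x (X x) ∂Spec.volB n‖
      ≤ ∫ x, (ball (0 : E n) ε).indicator (fun _ => B) x ∂Spec.volB n :=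
        norm_integral_le_of_norm_le hint.integrableOn (Eventually.of_forall hpt)
    _ ≤ ∫ x, (ball (0 : E n) ε).indicator (fun _ => B) x :=
        setIntegral_le_integral hint
          (Eventually.of_forall fun x => indicator_nonneg (fun _ _ => hB0) x)
    _ = vb n * ε ^ n * B := by
        rw [integral_indicator measurableSet_ball, setIntegral_const, smul_eq_mul, measureReal_def,
          vol_ball _ hε0, ENNReal.toReal_ofReal (by positivity)]
    _ = (K - 1) * (η / K) := by
        obtain ⟨k, rfl⟩ : ∃ k, n = k + 1 := ⟨n - 1, by omega⟩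
        rw [hB, hK]
        simp only [Nat.add_sub_cancel, add_sub_cancel_right, div_pow]
        field_simp
        ring
    _ < η := by
        rw [sub_mul, mul_div_cancel₀ _ hK0.ne', one_mul]
        have : 0 < η / K := by positivity
        linarith

theorem int_log {a c T : ℝ} (ha : 1 < a) (hc : 0 < c) (hT : 0 < T) :
    IntegrableOn (fun t : ℝ => (t * (1 - c * Real.log (t / T)) ^ a)⁻¹) (Ioo 0 T) := by
  have hpos : ∀ t ∈ Ioc 0 T, 1 ≤ 1 - c * Real.log (t / T) := fun t ht => by
    have : Real.log (t / T) ≤ 0 :=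
      Real.log_nonpos (div_pos ht.1 hT).le ((div_le_one hT).2 ht.2)
    nlinarith
  set g : ℝ → ℝ := fun t => (1 - c * Real.log (t / T)) ^ (1 - a) / (c * (a - 1)) with hg
  have hd : ∀ t ∈ Ioc 0 T, HasDerivAt g (t * (1 - c * Real.log (t / T)) ^ a)⁻¹ t := by
    intro t ht
    have h0 : 0 < 1 - c * Real.log (t / T) := lt_of_lt_of_le one_pos (hpos t ht)
    have h1 : HasDerivAt (fun t : ℝ => 1 - c * Real.log (t / T)) (-(c * (1 / T / (t / T)))) t :=
      ((((hasDerivAt_id t).div_const T).log (div_pos ht.1 hT).ne').const_mul c).const_sub 1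
    have h2 := (h1.rpow_const (p := 1 - a) (Or.inl h0.ne')).div_const (c * (a - 1))
    refine h2.congr_deriv ?_
    have h3 : (1 - c * Real.log (t / T)) ^ (1 - a - 1) = ((1 - c * Real.log (t / T)) ^ a)⁻¹ := by
      rw [show 1 - a - 1 = -a by ring, Real.rpow_neg h0.le]
    have h4 : 0 < (1 - c * Real.log (t / T)) ^ a := Real.rpow_pos_of_pos h0 a
    have h5 : a - 1 ≠ 0 := by linarith
    have h6 := ht.1.ne'
    rw [h3]
    field_simp
    ring
  have hlim : Tendsto g (𝓝[>] 0) (𝓝 0) := by
    have h1 : Tendsto (fun t : ℝ => t / T) (𝓝[>] 0) (𝓝[>] 0) := by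
      refine tendsto_nhdsWithin_iff.2 ⟨?_, ?_⟩
      · have : Tendsto (fun t : ℝ => t / T) (𝓝 0) (𝓝 (0 / T)) :=
          (continuous_id.div_const T).tendsto 0
        rw [zero_div] at this
        exact this.mono_left nhdsWithin_le_nhds
      · filter_upwards [self_mem_nhdsWithin] with t ht using div_pos ht hT
    have h2 : Tendsto (fun t : ℝ => 1 - c * Real.log (t / T)) (𝓝[>] 0) atTop := by
      have h3 := (Real.tendsto_log_nhdsGT_zero.comp h1).const_mul_atBot hc
      have h4 := tendsto_atTop_add_const_left _ (1 : ℝ) (tendsto_neg_atBot_atTop.comp h3)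
      exact h4.congr fun t => by simp [sub_eq_add_neg]
    have h5 := ((tendsto_rpow_neg_atTop (y := a - 1) (by linarith)).comp h2).div_const
      (c * (a - 1))
    rw [zero_div] at h5
    refine h5.congr fun t => ?_
    simp [hg]
  set G : ℝ → ℝ := fun t => if 0 < t then g t else 0 with hG
  have hGe : ∀ t, 0 < t → G =ᶠ[𝓝 t] g := fun t ht => by
    filter_upwards [Ioi_mem_nhds ht] with s hs
    exact if_pos hs
  have hcont : ContinuousOn G (Icc 0 T) := by
    intro t ht
    rcases ht.1.eq_or_lt with h | h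
    · subst h
      have h1 : Tendsto G (𝓝[>] 0) (𝓝 (G 0)) := by
        have : G 0 = 0 := if_neg (lt_irrefl _)
        rw [this]
        refine hlim.congr' ?_
        filter_upwards [self_mem_nhdsWithin] with s hs
        exact (if_pos hs).symm
      exact (continuousWithinAt_Ioi_iff_Ici.1 h1).mono Icc_subset_Ici_self
    · exact ((hd t ⟨h, ht.2⟩).continuousAt.congr (hGe t h).symm).continuousWithinAt
  refine (intervalIntegral.integrableOn_deriv_of_nonneg hcont (fun t ht => ?_)
    (fun t ht => ?_)).mono_set Ioo_subset_Ioc_self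
  · exact (hd t ⟨ht.1, ht.2.le⟩).congr_of_eventuallyEq (hGe t ht.1)
  · have h0 : 0 < 1 - c * Real.log (t / T) := lt_of_lt_of_le one_pos (hpos t ⟨ht.1, ht.2.le⟩)
    have := ht.1
    positivity

theorem mono_rad {ρ r : ℝ} (h0 : 0 < ρ) (h : ρ ≤ r) (h1 : r ≤ 1) :
    ρ * √(1 - Real.log ρ) ≤ r * √(1 - Real.log r) := by
  have hr : 0 < r := h0.trans_le h
  have l1 : Real.log r ≤ 0 := Real.log_nonpos hr.le h1
  have hs : 1 ≤ r / ρ := (one_le_div h0).2 h
  have l2 : Real.log (r / ρ) ≤ r / ρ - 1 := Real.log_le_sub_one_of_pos (by positivity)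
  rw [Real.log_div hr.ne' h0.ne'] at l2
  have e : r = ρ * (r / ρ) := by field_simp
  have key : 1 - Real.log ρ ≤ (r / ρ) ^ 2 * (1 - Real.log r) := by
    have h2 : r / ρ - 1 ≤ (r / ρ) ^ 2 - 1 := by nlinarith
    have h3 : 0 ≤ ((r / ρ) ^ 2 - 1) * (-Real.log r) := mul_nonneg (by linarith) (by linarith)
    nlinarith
  calc ρ * √(1 - Real.log ρ) ≤ ρ * √((r / ρ) ^ 2 * (1 - Real.log r)) := by gcongr
    _ = r * √(1 - Real.log r) := by
        rw [Real.sqrt_mul (sq_nonneg _), Real.sqrt_sq (by positivity), ← mul_assoc, ← e]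

theorem rearr_zero (f : E n → ℝ) {t : ℝ} (ht : vb n ≤ t) : Spec.rearr f t = 0 := by
  refine le_antisymm (sInf_le ?_) zero_le
  show Spec.volB n _ ≤ _
  unfold Spec.volB
  rw [Measure.restrict_apply' measurableSet_ball]
  refine (measure_mono inter_subset_right).trans ?_
  rw [vol_ball _ one_pos]
  exact ENNReal.ofReal_le_ofReal (by simpa using ht)

theorem rearr_le {f : E n → ℝ} {C ρ : ℝ} (hC : 0 ≤ C) (h0 : 0 < ρ)
    (hf : ∀ x ∈ ball (0 : E n) 1 \ {0}, |f x| ≤ C / (‖x‖ * √(1 - Real.log ‖x‖))) (h1 : ρ ≤ 1) :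
    Spec.rearr f (vb n * ρ ^ n) ≤ ENNReal.ofReal (C / (ρ * √(1 - Real.log ρ))) := by
  refine sInf_le ?_
  show Spec.volB n _ ≤ _
  unfold Spec.volB
  rw [Measure.restrict_apply' measurableSet_ball, ← vol_ball (0 : E n) h0]
  refine measure_mono ?_
  rintro x ⟨hx, hx1⟩
  by_contra hc
  rw [mem_ball_zero_iff, not_lt] at hc
  have hx0 : x ≠ 0 := norm_pos_iff.1 (h0.trans_le hc)
  refine absurd (mem_ofPred.1 hx) (not_lt.2 ?_)
  rw [← ofReal_norm, Real.norm_eq_abs]
  refine ENNReal.ofReal_le_ofReal ((hf x ⟨hx1, hx0⟩).trans ?_)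
  have l1 : Real.log ρ ≤ 0 := Real.log_nonpos h0.le h1
  have : 0 < ρ * √(1 - Real.log ρ) := mul_pos h0 (Real.sqrt_pos.2 (by linarith))
  exact div_le_div_of_nonneg_left hC this (mono_rad h0 hc (mem_ball_zero_iff.1 hx1).le)

end I1

open I1 in
theorem stI1 : StI1 := by
  intro n hn X f hX hf iX i_f hlim φ hφ
  obtain ⟨hφ1, hφc, hφs⟩ := hφ
  have hφ1' : ContDiff ℝ 1 φ := hφ1.of_le (by simp)
  obtain ⟨M, hM⟩ := hφ1.continuous.bounded_above_of_compact_support hφc
  have hcf : Continuous (fderiv ℝ φ) := hφ1'.continuous_fderiv one_ne_zero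
  obtain ⟨M', hM'⟩ := hcf.bounded_above_of_compact_support (hφc.fderiv ℝ)
  have hA : ∀ {L : E n → E n →L[ℝ] ℝ} {B : ℝ}, Continuous L → (∀ x, ‖L x‖ ≤ B) →
      Integrable (fun x => L x (X x)) (Spec.volB n) := by
    intro L B hL hB
    refine (iX.norm.const_mul B).mono' ?_ (Eventually.of_forall fun x => ?_)
    · exact (ContinuousLinearMap.apply ℝ ℝ (E := E n)).flip.aestronglyMeasurable_comp₂
        hL.aestronglyMeasurable iX.1
    · exact (ContinuousLinearMap.le_opNorm _ _).trans
        (mul_le_mul_of_nonneg_right (hB x) (norm_nonneg _))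
  have j1 : Integrable (fun x => fderiv ℝ φ x (X x)) (Spec.volB n) := hA hcf hM'
  have j2 : Integrable (fun x => f x * φ x) (Spec.volB n) :=
    i_f.mul_bdd hφ1.continuous.aestronglyMeasurable (Eventually.of_forall hM)
  obtain ⟨C, -, hC⟩ := exists_cut_bound
  have main : ∀ ε : ℝ, 0 < ε →
      ∫ x, fderiv ℝ φ x (X x) * (1 - cut 0 (ε / 2) ε x) ∂Spec.volB n -
        ∫ x, φ x * fderiv ℝ (cut 0 (ε / 2) ε) x (X x) ∂Spec.volB n =
      -∫ x, f x * φ x * (1 - cut 0 (ε / 2) ε x) ∂Spec.volB n := by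
    intro ε hε
    have hc1 : ContDiff ℝ 1 (cut (0 : E n) (ε / 2) ε) := (cut_contDiff _ _ _).of_le (by simp)
    have hb : ∀ x : E n, ‖1 - cut 0 (ε / 2) ε x‖ ≤ 1 := fun x => by
      rw [Real.norm_eq_abs, abs_le]
      constructor <;> linarith [cut_nonneg 0 (ε / 2) ε x, cut_le_one 0 (ε / 2) ε x]
    have hs : tsupport (fun x => φ x * (1 - cut 0 (ε / 2) ε x)) ⊆ ball 0 1 \ {0} := by
      intro x hx
      refine ⟨hφs (tsupport_mul_subset_left hx), fun h0 => ?_⟩
      rw [mem_singleton_iff] at h0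
      subst h0
      refine notMem_tsupport_iff_eventuallyEq.2 ?_ hx
      filter_upwards [ball_mem_nhds (0 : E n) (half_pos hε)] with z hz
      rw [cut_eq_one (half_pos hε) (by linarith) (by simpa using (mem_ball_zero_iff.1 hz).le)]
      simp
    have h := away X f hX hf (fun x => φ x * (1 - cut 0 (ε / 2) ε x))
      (hφ1'.mul (contDiff_const.sub hc1)) hφc.mul_right hs
    have k1 : Integrable (fun x => fderiv ℝ φ x (X x) * (1 - cut 0 (ε / 2) ε x)) (Spec.volB n) :=
      j1.mul_bdd (continuous_const.sub hc1.continuous).aestronglyMeasurable (Eventually.of_forall hb)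
    have k2 : Integrable (fun x => φ x * fderiv ℝ (cut 0 (ε / 2) ε) x (X x)) (Spec.volB n) :=
      (hA (hc1.continuous_fderiv one_ne_zero)
        (hC n 0 (ε / 2) ε (half_pos hε) (by linarith)).1).bdd_mul
        hφ1.continuous.aestronglyMeasurable (Eventually.of_forall hM)
    rw [← integral_sub k1 k2]
    simp only [← mul_assoc] at h
    rw [← h]
    refine integral_congr_ae (Eventually.of_forall fun x => ?_)
    have d1 := (hφ1'.differentiable one_ne_zero x).hasFDerivAt
    have d2 := (hc1.differentiable one_ne_zero x).hasFDerivAt.const_sub 1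
    have d3 := (d1.mul d2).fderiv
    have e : (fun x => φ x * (1 - cut 0 (ε / 2) ε x)) = φ * fun x => 1 - cut 0 (ε / 2) ε x := rfl
    show _ = fderiv ℝ (fun x => φ x * (1 - cut 0 (ε / 2) ε x)) x (X x)
    rw [e, d3]
    simp only [add_apply, smul_apply, neg_apply, smul_eq_mul]
    ring
  have t1 := (lim_cut hn j1).sub (lim_err hn hlim hM)
  have t2 := (lim_cut hn j2).neg
  have e := tendsto_nhds_unique_of_eventuallyEq t1 t2
    (by filter_upwards [self_mem_nhdsWithin] with ε hε using main ε hε)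
  rw [sub_zero] at e
  rw [← e]
  exact integral_congr_ae (Eventually.of_forall fun x => sum_pd φ x (X x))

open I1 in
theorem stI3 : StI3 := by
  intro n hn
  have hn0 : (0 : ℝ) < n := by exact_mod_cast (by omega : 0 < n)
  have hvb := vb_pos (n := n)
  refine ⟨fun p C f hp hm hf => ⟨hm.aemeasurable, ?_⟩, fun a ha => ?_⟩
  · have hf' : ∀ x ∈ ball (0 : E n) 1 \ {0}, |f x| ≤ |C| / (‖x‖ * √(1 - Real.log ‖x‖)) :=
      fun x hx => (hf x hx).trans (div_le_div_of_nonneg_right (le_abs_self C) (by positivity))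
    set A : ℝ := (vb n ^ (1 / (n : ℝ)) * |C|) ^ p with hA
    have hA0 : 0 ≤ A := by positivity
    have hI := (int_log (a := p / 2) (c := 1 / (n : ℝ)) (T := vb n) (by linarith) (by positivity)
      hvb).const_mul A
    have hb : ∀ t ∈ Ioi (0 : ℝ),
        (ENNReal.ofReal (t ^ (1 / (n : ℝ))) * Spec.rearr f t) ^ p / ENNReal.ofReal t ≤
        (Ioo 0 (vb n)).indicator (fun t => ENNReal.ofReal
          (A * (t * (1 - 1 / (n : ℝ) * Real.log (t / vb n)) ^ (p / 2))⁻¹)) t := by
      intro t ht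
      have ht0 : 0 < t := ht
      by_cases h : t < vb n
      · rw [indicator_of_mem (show t ∈ Ioo 0 (vb n) from ⟨ht0, h⟩)]
        set ρ : ℝ := (t / vb n) ^ (1 / (n : ℝ)) with hρ
        have hq : 0 < t / vb n := by positivity
        have hρ0 : 0 < ρ := by positivity
        have hρ1 : ρ ≤ 1 := Real.rpow_le_one hq.le ((div_le_one hvb).2 h.le) (by positivity)
        have hρn : vb n * ρ ^ n = t := by
          rw [hρ, one_div, Real.rpow_inv_natCast_pow hq.le (by omega)]
          field_simp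
        have hl : Real.log ρ = 1 / (n : ℝ) * Real.log (t / vb n) := Real.log_rpow hq _
        have hr := rearr_le (abs_nonneg C) hρ0 hf' hρ1
        rw [hρn] at hr
        have l1 : Real.log ρ ≤ 0 := Real.log_nonpos hρ0.le hρ1
        have hL : 0 < 1 - Real.log ρ := by linarith
        have hs : 0 < √(1 - Real.log ρ) := Real.sqrt_pos.2 hL
        have e1 : t ^ (1 / (n : ℝ)) = vb n ^ (1 / (n : ℝ)) * ρ := by
          rw [hρ, ← Real.mul_rpow hvb.le hq.le]
          congr 1
          field_simp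
        calc _ ≤ (ENNReal.ofReal (t ^ (1 / (n : ℝ))) *
              ENNReal.ofReal (|C| / (ρ * √(1 - Real.log ρ)))) ^ p / ENNReal.ofReal t := by
              gcongr
          _ = _ := by
              rw [← ENNReal.ofReal_mul (by positivity),
                ENNReal.ofReal_rpow_of_nonneg (by positivity) (by linarith),
                ← ENNReal.ofReal_div_of_pos ht0, ← hl]
              congr 1
              have e2 : t ^ (1 / (n : ℝ)) * (|C| / (ρ * √(1 - Real.log ρ))) =
                  vb n ^ (1 / (n : ℝ)) * |C| / √(1 - Real.log ρ) := by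
                rw [e1]; field_simp
              rw [e2, Real.div_rpow (by positivity) hs.le, Real.sqrt_eq_rpow,
                ← Real.rpow_mul hL.le, show 1 / 2 * p = p / 2 by ring, ← hA]
              have : 0 < (1 - Real.log ρ) ^ (p / 2) := Real.rpow_pos_of_pos hL _
              field_simp
      · rw [rearr_zero f (not_lt.1 h), mul_zero, ENNReal.zero_rpow_of_pos (by linarith),
          ENNReal.zero_div]
        exact zero_le
    refine lt_of_le_of_lt (setLIntegral_mono' measurableSet_Ioi hb) ?_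
    refine lt_of_le_of_lt (setLIntegral_le_lintegral _ _) ?_
    rw [lintegral_indicator measurableSet_Ioo]
    exact hI.lintegral_lt_top
  · have : Nontrivial (E n) := by
      have : Nonempty (Fin n) := ⟨⟨0, by omega⟩⟩
      infer_instance
    have h := (integrableOn_fun_norm_addHaar (volume : Measure (E n))
      (f := fun y : ℝ => (y ^ n * (1 - Real.log y) ^ a)⁻¹) (r := 1)).2 ?_
    · exact h
    refine (int_log ha one_pos one_pos).congr_fun (fun y hy => ?_) measurableSet_Ioo
    obtain ⟨k, rfl⟩ : ∃ k, n = k + 1 := ⟨n - 1, by omega⟩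
    have hy0 := hy.1.ne'
    simp only [finrank_euclideanSpace_fin, Nat.add_sub_cancel, smul_eq_mul, div_one, one_mul]
    rw [mul_inv, mul_inv, pow_succ, mul_inv, ← mul_assoc, ← mul_assoc,
      mul_inv_cancel₀ (pow_ne_zero k hy0), one_mul]

end Pool.Agent.P.MP_28243e_an
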