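import Pool.Agent.P.MP_28243e_an.Stmts

/-! Calculus of radial fields for the counterexample. -/

namespace Pool.Agent.P.MP_28243e_an.PI

open Set MeasureTheory Metric Filter Topology

noncomputable section

variable {n : ℕ}

/-- The logarithmic variable. -/
def T (x : E n) : ℝ := 1 - Real.log ‖x‖
/-- The inverse radius as a function of the logarithmic variable. -/
def ex (t : ℝ) : ℝ := Real.exp (t - 1)
/-- Kronecker symbol. -/
def kr (i j : Fin n) : ℝ := if i = j then 1 else 0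

lemma ex_pos (t : ℝ) : 0 < ex t := Real.exp_pos _

lemma le_ex (t : ℝ) : t ≤ ex t := by
  have := Real.add_one_le_exp (t - 1)
  unfold ex; linarith

lemma hasDerivAt_ex (t : ℝ) : HasDerivAt ex (ex t) t := by
  have := ((hasDerivAt_id t).sub_const 1).exp
  rw [mul_one] at this
  exact this

@[fun_prop] lemma contDiff_ex : ContDiff ℝ 1 ex := by unfold ex; fun_prop

@[fun_prop] lemma measurable_ex : Measurable ex := contDiff_ex.continuous.measurable

@[fun_prop] lemma measurable_T : Measurable (T : E n → ℝ) := by unfold T; fun_prop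

lemma norm_mul_ex {x : E n} (hx : x ≠ 0) : ‖x‖ * ex (T x) = 1 := by
  have h := norm_pos_iff.2 hx
  rw [ex, T, sub_sub_cancel_left, Real.exp_neg, Real.exp_log h]
  field_simp

lemma one_le_T {x : E n} (hx : x ∈ ball (0 : E n) 1 \ {0}) : 1 ≤ T x := by
  have h1 : ‖x‖ < 1 := by simpa using hx.1
  have := Real.log_nonpos (norm_nonneg x) h1.le
  unfold T; linarith

lemma sum_sq (x : E n) : ∑ α, x α ^ 2 = ‖x‖ ^ 2 := (EuclideanSpace.real_norm_sq_eq x).symm

lemma sum_sq_ex {x : E n} (hx : x ≠ 0) : (∑ α, x α ^ 2) * ex (T x) ^ 2 = 1 := by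
  rw [sum_sq, ← mul_pow, norm_mul_ex hx, one_pow]

lemma abs_mul_ex {x : E n} (hx : x ≠ 0) (i : Fin n) : |x i * ex (T x)| ≤ 1 := by
  rw [abs_mul, abs_of_pos (ex_pos _), ← norm_mul_ex hx]
  gcongr
  · exact (ex_pos _).le
  · simpa using PiLp.norm_apply_le x i

lemma kr_comm (i j : Fin n) : kr i j = kr j i := by simp [kr, eq_comm]
lemma abs_kr (i j : Fin n) : |kr i j| ≤ 1 := by unfold kr; split_ifs <;> simp
lemma sum_kr_mul (i : Fin n) (f : Fin n → ℝ) : ∑ α, kr i α * f α = f i := by simp [kr]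
lemma sum_kr (i : Fin n) : ∑ α, kr i α = 1 := by simp [kr]
lemma kr_self (i : Fin n) : kr i i = 1 := by simp [kr]
lemma kr_sq (i j : Fin n) : kr i j ^ 2 = kr i j := by unfold kr; split_ifs <;> simp

lemma contDiffAt_T {x : E n} (hx : x ≠ 0) : ContDiffAt ℝ 1 T x :=
  contDiffAt_const.sub ((contDiffAt_norm ℝ hx).log (norm_ne_zero_iff.2 hx))

lemma hasFDerivAt_T {x : E n} (hx : x ≠ 0) :
    HasFDerivAt T ((-ex (T x) ^ 2) • innerSL ℝ x) x := by
  have h0 := norm_pos_iff.2 hx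
  have h1 := ((hasStrictFDerivAt_norm_sq x).hasFDerivAt.log (by positivity)).const_mul (1 / 2 : ℝ)
  have e : (T : E n → ℝ) = fun z => 1 - 1 / 2 * Real.log (‖z‖ ^ 2) := by
    funext z; rw [T, Real.log_pow]; push_cast; ring
  have h2 : ex (T x) ^ 2 = (‖x‖ ^ 2)⁻¹ := by
    have := norm_mul_ex hx
    field_simp
    nlinarith
  rw [h2, e]
  refine (h1.const_sub 1).congr_fderiv ?_
  ext v
  simp
  ring

lemma hasF_rad {G : ℝ → ℝ} {G' : ℝ} {x : E n} (hx : x ≠ 0) (h : HasDerivAt G G' (T x)) :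
    HasFDerivAt (fun z => G (T z)) (G' • (-ex (T x) ^ 2) • innerSL ℝ x) x :=
  h.comp_hasFDerivAt x (hasFDerivAt_T hx)

lemma hasF_coord (x : E n) (i : Fin n) :
    HasFDerivAt (fun z : E n => z i) (EuclideanSpace.proj i : E n →L[ℝ] ℝ) x :=
  (EuclideanSpace.proj i : E n →L[ℝ] ℝ).hasFDerivAt

lemma inner_e (x : E n) (α : Fin n) : innerSL ℝ x (EuclideanSpace.single α 1) = x α := by
  simp [EuclideanSpace.inner_single_right]

lemma proj_e (i α : Fin n) :
    (EuclideanSpace.proj i : E n →L[ℝ] ℝ) (EuclideanSpace.single α 1) = kr i α := by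
  simp [kr]

/-- The general field. -/
def fld (A B C : ℝ → ℝ) (i : Fin n) (z : E n) : E n :=
  WithLp.toLp 2 fun α => A (T z) * z α + B (T z) * kr i α + C (T z) * z i * z α

lemma div_fld {A B C : ℝ → ℝ} {A' B' C' : ℝ} {x : E n} (hx : x ≠ 0) (i : Fin n)
    (hA : HasDerivAt A A' (T x)) (hB : HasDerivAt B B' (T x)) (hC : HasDerivAt C C' (T x)) :
    ∑ α, Spec.pd (fun z => fld A B C i z α) α x =
      n * A (T x) - A' + (-B' * ex (T x) ^ 2 + (n + 1) * C (T x) - C') * x i := by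
  have key : ∀ α, Spec.pd (fun z => fld A B C i z α) α x =
      A (T x) + C (T x) * x i - (A' + C' * x i) * ex (T x) ^ 2 * x α ^ 2 +
        kr i α * ((C (T x) - B' * ex (T x) ^ 2) * x α) := by
    intro α
    have h := ((((hasF_rad hx hA).fun_mul (hasF_coord x α)).fun_add
      ((hasF_rad hx hB).mul_const (kr i α))).fun_add
      (((hasF_rad hx hC).fun_mul (hasF_coord x i)).fun_mul (hasF_coord x α))).fderiv
    change fderiv ℝ (fun z : E n => A (T z) * z α + B (T z) * kr i α + C (T z) * z i * z α) x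
      (EuclideanSpace.single α 1) = _
    rw [h]
    simp only [add_apply, smul_apply, smul_eq_mul, inner_e, proj_e, kr_self]
    ring
  simp only [key, Finset.sum_add_distrib, Finset.sum_sub_distrib, sum_kr_mul, Finset.sum_const,
    Finset.card_univ, Fintype.card_fin, nsmul_eq_mul, ← Finset.mul_sum]
  linear_combination (-(A' + C' * x i)) * sum_sq_ex hx

lemma contDiffAt_fld {A B C : ℝ → ℝ} {x : E n} (hx : x ≠ 0) (i : Fin n)
    (hA : ContDiffAt ℝ 1 A (T x)) (hB : ContDiffAt ℝ 1 B (T x)) (hC : ContDiffAt ℝ 1 C (T x)) :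
    ContDiffAt ℝ 1 (fld A B C i) x := by
  have h := contDiffAt_T hx
  have hc : ∀ j, ContDiffAt ℝ 1 (fun z : E n => z j) x := fun j =>
    (EuclideanSpace.proj j : E n →L[ℝ] ℝ).contDiff.contDiffAt
  rw [contDiffAt_euclidean]
  intro α
  exact (((hA.comp x h).mul (hc α)).add ((hB.comp x h).mul contDiffAt_const)).add
    (((hC.comp x h).mul (hc i)).mul (hc α))

/-- The field used for the weak gradient of `G x_i`. -/
def fl2 (G : ℝ → ℝ) (i α : Fin n) (z : E n) : E n :=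
  WithLp.toLp 2 fun β => G (T z) * z i * kr α β

lemma div_fl2 {G : ℝ → ℝ} {G' : ℝ} {x : E n} (hx : x ≠ 0) (i α : Fin n)
    (hG : HasDerivAt G G' (T x)) :
    ∑ β, Spec.pd (fun z => fl2 G i α z β) β x =
      G (T x) * kr i α - G' * ex (T x) ^ 2 * x i * x α := by
  have key : ∀ β, Spec.pd (fun z => fl2 G i α z β) β x =
      kr α β * (G (T x) * kr i β - G' * ex (T x) ^ 2 * x i * x β) := by
    intro β
    have h := (((hasF_rad hx hG).fun_mul (hasF_coord x i)).mul_const (kr α β)).fderiv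
    change fderiv ℝ (fun z : E n => G (T z) * z i * kr α β) x (EuclideanSpace.single β 1) = _
    rw [h]
    simp only [add_apply, smul_apply, smul_eq_mul, inner_e, proj_e]
    ring
  simp only [key, sum_kr_mul]

lemma contDiffAt_fl2 {G : ℝ → ℝ} {x : E n} (hx : x ≠ 0) (i α : Fin n)
    (hG : ContDiffAt ℝ 1 G (T x)) : ContDiffAt ℝ 1 (fl2 G i α) x := by
  rw [contDiffAt_euclidean]
  intro β
  exact ((hG.comp x (contDiffAt_T hx)).mul
    (EuclideanSpace.proj i : E n →L[ℝ] ℝ).contDiff.contDiffAt).mul contDiffAt_const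

/-! Integration against test functions. -/

lemma ae_mem (hn : 3 ≤ n) : ∀ᵐ x ∂Spec.volB n, x ∈ ball (0 : E n) 1 \ {0} := by
  have : Nonempty (Fin n) := ⟨⟨0, by omega⟩⟩
  have h1 : ∀ᵐ x ∂Spec.volB n, x ∈ ball (0 : E n) 1 := ae_restrict_mem measurableSet_ball
  have h2 : ∀ᵐ x ∂Spec.volB n, x ∉ ({0} : Set (E n)) :=
    ae_restrict_of_ae (compl_mem_ae_iff.2 (measure_singleton 0))
  filter_upwards [h1, h2] with x a b using ⟨a, b⟩

lemma tendsto_T : Tendsto (T : E n → ℝ) (𝓝[≠] 0) atTop := by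
  have h1 : Tendsto (fun x : E n => ‖x‖) (𝓝[≠] 0) (𝓝[>] 0) := tendsto_norm_nhdsNE_zero
  have h2 := tendsto_neg_atBot_atTop.comp (Real.tendsto_log_nhdsGT_zero.comp h1)
  exact tendsto_atTop_add_const_left _ 1 h2

lemma integ (h3 : StI3) (hn : 3 ≤ n) {F : Type} [NormedAddCommGroup F] {f : E n → F} {C : ℝ}
    (hf : AEStronglyMeasurable f (Spec.volB n))
    (h : ∀ x ∈ ball (0 : E n) 1 \ {0}, ‖f x‖ ≤ C * (ex (T x) ^ n / √(T x) ^ 3)) :
    Integrable f (Spec.volB n) := by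
  refine (((h3 n hn).2 (3 / 2) (by norm_num)).const_mul C).mono' hf ?_
  filter_upwards [ae_mem hn] with x hx
  refine (h x hx).trans (le_of_eq ?_)
  have h1 := one_le_T hx
  have h2 := norm_mul_ex hx.2
  have h4 : √(T x) ^ 3 = T x ^ (3 / 2 : ℝ) := by
    rw [Real.sqrt_eq_rpow, ← Real.rpow_natCast, ← Real.rpow_mul (by linarith)]; norm_num
  have h5 : ex (T x) = ‖x‖⁻¹ := eq_inv_of_mul_eq_one_right h2
  rw [h4, h5, mul_inv, inv_pow, div_eq_mul_inv]
  rfl

lemma weak (h1 : StI1) (h3 : StI3) (hn : 3 ≤ n) {X : E n → E n} {f : E n → ℝ} {C : ℝ}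
    (hX : ∀ x ∈ ball (0 : E n) 1 \ {0}, ContDiffAt ℝ 1 X x)
    (hd : ∀ x ∈ ball (0 : E n) 1 \ {0}, ∑ α, Spec.pd (fun z => X z α) α x = f x)
    (hf : Measurable f)
    (bX : ∀ x ∈ ball (0 : E n) 1 \ {0}, ‖X x‖ ≤ C * (ex (T x) ^ (n - 1) / √(T x)))
    (bf : ∀ x ∈ ball (0 : E n) 1 \ {0}, ‖f x‖ ≤ C * (ex (T x) ^ n / √(T x) ^ 3))
    (φ : E n → ℝ) (hφ : Spec.IsTest φ) :
    ∫ x, ∑ α, X x α * Spec.pd φ α x ∂Spec.volB n = -∫ x, f x * φ x ∂Spec.volB n := by
  have hc : ContDiffOn ℝ 1 X (ball 0 1 \ {0}) := fun x hx => (hX x hx).contDiffWithinAt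
  have hm : AEStronglyMeasurable X (Spec.volB n) := by
    have h := hc.continuousOn.aestronglyMeasurable (μ := Spec.volB n)
      (measurableSet_ball.diff (measurableSet_singleton 0))
    rwa [Measure.restrict_eq_self_of_ae_mem (ae_mem hn)] at h
  refine h1 n hn X f hc hd (integ h3 hn (C := |C|) hm fun x hx => ?_)
    (integ h3 hn hf.aestronglyMeasurable bf) ?_ φ hφ
  · refine (bX x hx).trans (mul_le_mul (le_abs_self C) ?_ ?_ (abs_nonneg C))
    · have a1 := one_le_T hx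
      have a2 := Real.sqrt_pos.2 (show 0 < T x by linarith)
      have a3 := Real.sq_sqrt (show 0 ≤ T x by linarith)
      have a4 := ex_pos (T x)
      rw [div_le_div_iff₀ a2 (by positivity)]
      obtain ⟨k, rfl⟩ : ∃ k, n = k + 1 := ⟨n - 1, by omega⟩
      rw [Nat.add_sub_cancel]
      calc ex (T x) ^ k * √(T x) ^ 3 = ex (T x) ^ k * √(T x) * √(T x) ^ 2 := by ring
        _ ≤ ex (T x) ^ k * √(T x) * ex (T x) := by rw [a3]; gcongr; exact le_ex _
        _ = _ := by ring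
    · have := ex_pos (T x)
      positivity
  · have t1 : Tendsto (fun x : E n => C * (√(T x))⁻¹) (𝓝[≠] 0) (𝓝 0) := by
      simpa using ((Real.tendsto_sqrt_atTop.comp tendsto_T).inv_tendsto_atTop).const_mul C
    refine squeeze_zero' (Eventually.of_forall fun x => by positivity) ?_ t1
    filter_upwards [self_mem_nhdsWithin, mem_nhdsWithin_of_mem_nhds (ball_mem_nhds (0 : E n) one_pos)]
      with x a b
    calc ‖x‖ ^ (n - 1) * ‖X x‖ ≤ ‖x‖ ^ (n - 1) * (C * (ex (T x) ^ (n - 1) / √(T x))) := by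
          gcongr; exact bX x ⟨b, a⟩
      _ = C * (√(T x))⁻¹ * (‖x‖ * ex (T x)) ^ (n - 1) := by rw [mul_pow]; ring
      _ = _ := by rw [norm_mul_ex a, one_pow, mul_one]

end

end Pool.Agent.P.MP_28243e_an.PI
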