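import Pool.Agent.P.MP_28243e_an.Stmts

/-! Pointwise real inequalities for the damped energy densities. -/

namespace Pool.Agent.P.MP_28243e_an

open Set ENNReal
open scoped NNReal Classical

namespace LC

/-- Real version of the damping factor. -/
noncomputable def ps (l δ s : ℝ) : ℝ := if s ≤ l then 1 else (l / s) ^ δ

variable {l δ : ℝ}

theorem ps_pos (hl : 0 < l) (s : ℝ) : 0 < ps l δ s := by
  unfold ps
  split_ifs with h
  · exact one_pos
  · exact Real.rpow_pos_of_pos (div_pos hl (by linarith [not_le.mp h])) _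

theorem ps_of_le {s : ℝ} (h : s ≤ l) : ps l δ s = 1 := by simp [ps, h]

theorem ps_le_rpow (hδ : 0 ≤ δ) {s : ℝ} (hs : 0 < s) : ps l δ s ≤ (l / s) ^ δ := by
  unfold ps
  split_ifs with h
  · exact Real.one_le_rpow ((one_le_div hs).mpr h) hδ
  · exact le_rfl

theorem ps_le_one (hl : 0 < l) (hδ : 0 ≤ δ) (s : ℝ) : ps l δ s ≤ 1 := by
  unfold ps
  split_ifs with h
  · exact le_rfl
  · have hs : l < s := not_le.mp h
    exact Real.rpow_le_one (div_pos hl (by linarith)).le ((div_le_one (by linarith)).mpr hs.le) hδ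

theorem ps_anti (hl : 0 < l) (hδ : 0 ≤ δ) {x y : ℝ} (h : x ≤ y) : ps l δ y ≤ ps l δ x := by
  by_cases hx : x ≤ l
  · rw [ps_of_le hx]; exact ps_le_one hl hδ y
  · have hx' : l < x := not_le.mp hx
    have hy : ¬ y ≤ l := not_le.mpr (by linarith)
    simp only [ps, hx, hy, if_false]
    exact Real.rpow_le_rpow (div_pos hl (by linarith)).le
      (div_le_div_of_nonneg_left hl.le (by linarith) h) hδ

theorem ps_scale (hl : 0 < l) (hδ : 0 ≤ δ) {a x : ℝ} (ha : 1 ≤ a) (hx : 0 ≤ x) :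
    ps l δ x ≤ a ^ δ * ps l δ (a * x) := by
  have ha1 : 1 ≤ a ^ δ := Real.one_le_rpow ha hδ
  by_cases hax : a * x ≤ l
  · rw [ps_of_le hax, mul_one]; exact (ps_le_one hl hδ x).trans ha1
  · have hax' : l < a * x := not_le.mp hax
    have hx0 : 0 < x := by
      rcases hx.lt_or_eq with h | h
      · exact h
      · rw [← h, mul_zero] at hax'; linarith
    have e : ps l δ (a * x) = (l / (a * x)) ^ δ := by simp [ps, hax]
    rw [e, ← Real.mul_rpow (by linarith) (div_pos hl (by linarith)).le]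
    have : a * (l / (a * x)) = l / x := by field_simp
    rw [this]
    exact ps_le_rpow hδ hx0

theorem ps_scale1 (hl : 0 < l) (hδ : 0 ≤ δ) (hδ1 : δ ≤ 1) {a x : ℝ} (ha : 1 ≤ a) (hx : 0 ≤ x) :
    ps l δ x ≤ a * ps l δ (a * x) := by
  refine (ps_scale hl hδ ha hx).trans (mul_le_mul_of_nonneg_right ?_ (ps_pos hl _).le)
  calc a ^ δ ≤ a ^ (1 : ℝ) := Real.rpow_le_rpow_of_exponent_le ha hδ1
    _ = a := Real.rpow_one a

theorem mul_ps_mono (hl : 0 < l) (hδ : 0 ≤ δ) (hδ1 : δ ≤ 1) {x y : ℝ} (hx : 0 ≤ x) (h : x ≤ y) :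
    x * ps l δ x ≤ y * ps l δ y := by
  rcases hx.lt_or_eq with h0 | h0
  · have := ps_scale1 hl hδ hδ1 ((one_le_div h0).mpr h) hx
    have e : y / x * x = y := by field_simp
    rw [e] at this
    calc x * ps l δ x ≤ x * (y / x * ps l δ y) := mul_le_mul_of_nonneg_left this hx
      _ = y * ps l δ y := by field_simp
  · rw [← h0, zero_mul]
    exact mul_nonneg (hx.trans h) (ps_pos hl _).le

theorem ps_two (hl : 0 < l) (hδ : 0 ≤ δ) {ε : ℝ} (hε : 0 < ε) (hε1 : ε ≤ 1) (hδε : δ ≤ ε)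
    {d s : ℝ} (hs : 0 ≤ s) (h : ε * s ≤ d) : ps l δ d ≤ 2 * ps l δ s := by
  have h1 : ps l δ d ≤ ps l δ (ε * s) := ps_anti hl hδ h
  have ha : 1 ≤ 1 / ε := (one_le_div hε).mpr hε1
  have h2 := ps_scale (δ := δ) hl hδ ha (mul_nonneg hε.le hs)
  have e : 1 / ε * (ε * s) = s := by field_simp
  rw [e] at h2
  have h3 : (1 / ε) ^ δ ≤ 2 := by
    have := _root_.rpow_one_add_le_one_add_mul_self (s := 1 / ε - 1) (p := δ) (by linarith) hδ
      (hδε.trans hε1)
    have e2 : 1 + (1 / ε - 1) = 1 / ε := by ring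
    rw [e2] at this
    have h4 : δ * (1 / ε) ≤ 1 := by
      rw [mul_one_div]; exact (div_le_one hε).mpr hδε
    nlinarith
  exact h1.trans (h2.trans (mul_le_mul_of_nonneg_right h3 (ps_pos hl _).le))

/-- The comparison with the weight at the maximal function. -/
theorem pP (hl : 0 < l) (hδ : 0 ≤ δ) (hδ1 : δ ≤ 1) {N : ℕ} (hN : 1 ≤ N) {D x s M : ℝ}
    (hD : 0 ≤ D) (hx : 0 ≤ x) (hM : 0 ≤ M) (hxM : x ≤ D * M)
    (hxs : x ≤ D * max s l) : x ^ N * ps l δ s ≤ D ^ N * (M ^ N * ps l δ M) := by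
  have hxN : x ^ N ≤ D ^ N * M ^ N := by rw [← mul_pow]; exact pow_le_pow_left₀ hx hxM N
  by_cases h1 : M ≤ max s l
  · have : ps l δ s ≤ ps l δ M := by
      rcases le_max_iff.mp h1 with h | h
      · exact ps_anti hl hδ h
      · rw [ps_of_le h]; exact ps_le_one hl hδ s
    calc x ^ N * ps l δ s ≤ (D ^ N * M ^ N) * ps l δ M :=
          mul_le_mul hxN this (ps_pos hl _).le (by positivity)
      _ = _ := by ring
  · have h2 : max s l < M := not_le.mp h1
    have h0 : 0 ≤ max s l := hl.le.trans (le_max_right _ _)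
    have e : ps l δ s = ps l δ (max s l) := by
      rcases le_total s l with h | h
      · rw [max_eq_right h, ps_of_le h, ps_of_le le_rfl]
      · rw [max_eq_left h]
    obtain ⟨N', rfl⟩ : ∃ N', N = N' + 1 := ⟨N - 1, by omega⟩
    have h3 := mul_ps_mono hl hδ hδ1 h0 h2.le
    have h4 : (max s l) ^ N' ≤ M ^ N' := pow_le_pow_left₀ h0 h2.le N'
    have h5 : x ^ (N' + 1) ≤ (D * max s l) ^ (N' + 1) := pow_le_pow_left₀ hx hxs _
    have hp := (ps_pos (δ := δ) hl (max s l)).le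
    calc x ^ (N' + 1) * ps l δ s ≤ (D * max s l) ^ (N' + 1) * ps l δ (max s l) := by
          rw [e]; exact mul_le_mul_of_nonneg_right h5 hp
      _ = D ^ (N' + 1) * ((max s l) ^ N' * (max s l * ps l δ (max s l))) := by ring
      _ ≤ D ^ (N' + 1) * (M ^ N' * (M * ps l δ M)) := by
          refine mul_le_mul_of_nonneg_left ?_ (by positivity)
          exact mul_le_mul h4 h3 (mul_nonneg h0 hp) (by positivity)
      _ = _ := by ring

theorem young {a x L ε : ℝ} (hL : 0 < L) (hε : 0 < ε) :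
    a * x ≤ ε * (L * x ^ 2) + 1 / ε * (a ^ 2 / L) := by
  have h : 0 ≤ (ε * L * x - a) ^ 2 / (ε * L) := by positivity
  have e : (ε * L * x - a) ^ 2 / (ε * L) =
      ε * (L * x ^ 2) + 1 / ε * (a ^ 2 / L) - 2 * (a * x) := by field_simp; ring
  have h1 : 0 ≤ ε * (L * x ^ 2) := by positivity
  have h2 : 0 ≤ 1 / ε * (a ^ 2 / L) := by positivity
  rw [e] at h
  linarith

/-- All hypotheses of the real form of the statement. -/
structure Hyp (N : ℕ) (Cd T δ l μ d s S₁ S₂ M p h kf kf' k A : ℝ) : Prop where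
  hN : 1 ≤ N
  hCd : 0 ≤ Cd
  hT : 1 ≤ T
  hδ : 0 ≤ δ
  hδ1 : δ ≤ 1
  hl : 0 < l
  hμ : 0 ≤ μ
  hd : 0 ≤ d
  hS₂ : 0 ≤ S₂
  hM : 0 ≤ M
  hp : 0 ≤ p
  hh : 0 ≤ h
  hkf : 0 ≤ kf
  hkf' : 0 ≤ kf'
  hk : 0 ≤ k
  μl : μ ≤ Cd * l
  lM : l ≤ Cd * M
  μM : μ + d ≤ Cd * M
  dS : d ≤ S₁
  ds : d ≤ s
  sS : s ≤ S₁ + S₂
  Sk : M ^ N * S₂ ^ 2 ≤ Cd * k
  kfk : kf ^ 2 ≤ M ^ N * k
  pl : p ≤ Cd * l
  hS : h ≤ S₂
  A1 : l ^ N * S₁ ^ 2 ≤ A
  A2 : l < 2 * S₁ → S₁ ^ (N + 2) * ps l δ S₁ ≤ A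
  A3 : T * l < M → M ^ (N + 2) * ps l δ M ≤ A

variable {N : ℕ} {Cd T μ d s S₁ S₂ M p h kf kf' k A : ℝ}

namespace Hyp

variable (H : Hyp N Cd T δ l μ d s S₁ S₂ M p h kf kf' k A)
include H

theorem hs : 0 ≤ s := H.hd.trans H.ds
theorem hS₁ : 0 ≤ S₁ := H.hd.trans H.dS
theorem hA : 0 ≤ A := by
  have := H.hl
  exact le_trans (by positivity) H.A1
theorem hMpos : 0 < M := by
  rcases H.hM.lt_or_eq with h | h
  · exact h
  · have := H.lM; rw [← h, mul_zero] at this; linarith [H.hl]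
theorem hK : 0 ≤ k * ps l δ M := mul_nonneg H.hk (ps_pos H.hl _).le

theorem cases : s ≤ 2 * S₁ ∨ s ≤ 2 * S₂ := by
  have := H.sS
  rcases le_total S₁ S₂ with h | h
  · right; linarith
  · left; linarith

theorem B1 : (l + S₁) ^ N * (S₁ * (S₁ * ps l δ S₁)) ≤ 3 ^ N * A := by
  have hl := H.hl
  have hS := H.hS₁
  have hp := (ps_pos (δ := δ) hl S₁).le
  by_cases h1 : l < 2 * S₁
  · have h2 : (l + S₁) ^ N ≤ (3 * S₁) ^ N := pow_le_pow_left₀ (by linarith) (by linarith) N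
    calc (l + S₁) ^ N * (S₁ * (S₁ * ps l δ S₁)) ≤ (3 * S₁) ^ N * (S₁ * (S₁ * ps l δ S₁)) :=
          mul_le_mul_of_nonneg_right h2 (by positivity)
      _ = 3 ^ N * (S₁ ^ (N + 2) * ps l δ S₁) := by ring
      _ ≤ 3 ^ N * A := mul_le_mul_of_nonneg_left (H.A2 h1) (by positivity)
  · have h1' : 2 * S₁ ≤ l := not_lt.mp h1
    have h2 : (l + S₁) ^ N ≤ (3 * l) ^ N := pow_le_pow_left₀ (by linarith) (by linarith) N
    rw [ps_of_le (by linarith : S₁ ≤ l)]
    calc (l + S₁) ^ N * (S₁ * (S₁ * 1)) ≤ (3 * l) ^ N * (S₁ * (S₁ * 1)) :=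
          mul_le_mul_of_nonneg_right h2 (by positivity)
      _ = 3 ^ N * (l ^ N * S₁ ^ 2) := by ring
      _ ≤ 3 ^ N * A := mul_le_mul_of_nonneg_left H.A1 (by positivity)

theorem base : (μ + d) ^ N ≤ (Cd + 1) ^ N * (l + S₁) ^ N := by
  rw [← mul_pow]
  refine pow_le_pow_left₀ (add_nonneg H.hμ H.hd) ?_ N
  have := H.μl; have := H.dS; have := H.hl; have := mul_nonneg H.hCd H.hS₁
  nlinarith

theorem P1 {t : ℝ} (ht : d ≤ t) :
    (μ + d) ^ N * ps l δ t ≤ (Cd + 1) ^ N * (M ^ N * ps l δ M) := by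
  refine pP H.hl H.hδ H.hδ1 H.hN (by linarith [H.hCd]) (add_nonneg H.hμ H.hd) H.hM ?_ ?_
  · have := H.μM; have := H.hM; nlinarith
  · have h1 : l ≤ max t l := le_max_right _ _
    have h2 : d ≤ max t l := ht.trans (le_max_left _ _)
    have h3 := mul_le_mul_of_nonneg_left h1 H.hCd
    have := H.μl
    nlinarith

theorem P2 (t : ℝ) : l ^ N * ps l δ t ≤ (Cd + 1) ^ N * (M ^ N * ps l δ M) := by
  refine pP H.hl H.hδ H.hδ1 H.hN (by linarith [H.hCd]) H.hl.le H.hM ?_ ?_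
  · have := H.lM; have := H.hM; nlinarith
  · have h1 : l ≤ max t l := le_max_right _ _
    have h3 := mul_nonneg H.hCd (H.hl.le.trans h1)
    nlinarith

theorem MK : M ^ N * ps l δ M * S₂ ^ 2 ≤ Cd * (k * ps l δ M) := by
  have := mul_le_mul_of_nonneg_right H.Sk (ps_pos (δ := δ) H.hl M).le
  calc M ^ N * ps l δ M * S₂ ^ 2 = M ^ N * S₂ ^ 2 * ps l δ M := by ring
    _ ≤ Cd * k * ps l δ M := this
    _ = _ := by ring

/-- If a weight `w` is dominated by the weight at `M`, products of two quantities below `2 S₂` are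
paid by `k`. -/
theorem pay {w c x y : ℝ} (hc : 0 ≤ c) (hw : w ≤ c * (M ^ N * ps l δ M)) (hx : 0 ≤ x) (hy : 0 ≤ y)
    (hx2 : x ≤ 2 * S₂) (hy2 : y ≤ 2 * S₂) : w * (x * y) ≤ 4 * c * Cd * (k * ps l δ M) := by
  have h1 : x * y ≤ (2 * S₂) * (2 * S₂) := mul_le_mul hx2 hy2 hy (by linarith)
  have hM := H.hM
  have hp := (ps_pos (δ := δ) H.hl M).le
  calc w * (x * y) ≤ c * (M ^ N * ps l δ M) * (x * y) :=
        mul_le_mul_of_nonneg_right hw (mul_nonneg hx hy)
    _ ≤ c * (M ^ N * ps l δ M) * ((2 * S₂) * (2 * S₂)) :=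
        mul_le_mul_of_nonneg_left h1 (by positivity)
    _ = 4 * c * (M ^ N * ps l δ M * S₂ ^ 2) := by ring
    _ ≤ 4 * c * (Cd * (k * ps l δ M)) := mul_le_mul_of_nonneg_left H.MK (by positivity)
    _ = _ := by ring

theorem sps (h1 : s ≤ 2 * S₁) : s * ps l δ s ≤ 2 * (S₁ * ps l δ S₁) := by
  have h2 := mul_ps_mono H.hl H.hδ H.hδ1 H.hs h1
  have h3 : ps l δ (2 * S₁) ≤ ps l δ S₁ := ps_anti H.hl H.hδ (by linarith [H.hS₁])
  have h4 := mul_le_mul_of_nonneg_left h3 H.hS₁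
  linarith

theorem three : (μ + d) ^ N * d * s * ps l δ s ≤
    2 * (3 * (Cd + 1)) ^ N * A + 4 * (Cd + 1) ^ N * Cd * (k * ps l δ M) := by
  have hA := H.hA; have hK := H.hK; have hCd := H.hCd; have hl := H.hl; have hS := H.hS₁
  have hd := H.hd; have hs := H.hs
  rcases H.cases with h1 | h1
  · have hp := (ps_pos (δ := δ) hl s).le
    have hp' := (ps_pos (δ := δ) hl S₁).le
    have h2 : d * (s * ps l δ s) ≤ S₁ * (2 * (S₁ * ps l δ S₁)) :=
      mul_le_mul H.dS (H.sps h1) (by positivity) hS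
    have h3 : (μ + d) ^ N * d * s * ps l δ s ≤ 2 * (3 * (Cd + 1)) ^ N * A :=
      calc (μ + d) ^ N * d * s * ps l δ s = (μ + d) ^ N * (d * (s * ps l δ s)) := by ring
        _ ≤ ((Cd + 1) ^ N * (l + S₁) ^ N) * (S₁ * (2 * (S₁ * ps l δ S₁))) :=
            mul_le_mul H.base h2 (by positivity) (by positivity)
        _ = 2 * (Cd + 1) ^ N * ((l + S₁) ^ N * (S₁ * (S₁ * ps l δ S₁))) := by ring
        _ ≤ 2 * (Cd + 1) ^ N * (3 ^ N * A) := mul_le_mul_of_nonneg_left H.B1 (by positivity)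
        _ = _ := by rw [mul_pow]; ring
    have : 0 ≤ 4 * (Cd + 1) ^ N * Cd * (k * ps l δ M) := by positivity
    linarith
  · have h3 := H.pay (by positivity) (H.P1 H.ds) hd hs (H.ds.trans h1) h1
    have : 0 ≤ 2 * (3 * (Cd + 1)) ^ N * A := by positivity
    calc (μ + d) ^ N * d * s * ps l δ s = (μ + d) ^ N * ps l δ s * (d * s) := by ring
      _ ≤ _ := by linarith

theorem one {ε : ℝ} (hε : 0 < ε) (hε1 : ε ≤ 1) (hδε : δ ≤ ε) :
    (μ + d) ^ N * d * d * ps l δ d ≤ 2 * ((μ + d) ^ N * d * d * ps l δ s) +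
      ε * (2 * (3 * (Cd + 1)) ^ N) * A + 4 * (Cd + 1) ^ N * Cd * (k * ps l δ M) := by
  have hA := H.hA; have hK := H.hK; have hCd := H.hCd; have hl := H.hl; have hS := H.hS₁
  have hd := H.hd; have hs := H.hs; have hμ := H.hμ
  have hp := (ps_pos (δ := δ) hl s).le
  have hp' := (ps_pos (δ := δ) hl S₁).le
  have hp'' := (ps_pos (δ := δ) hl d).le
  have t1 : 0 ≤ 2 * ((μ + d) ^ N * d * d * ps l δ s) := by positivity
  have t2 : 0 ≤ ε * (2 * (3 * (Cd + 1)) ^ N) * A := by positivity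
  have t3 : 0 ≤ 4 * (Cd + 1) ^ N * Cd * (k * ps l δ M) := by positivity
  by_cases h0 : ε * s ≤ d
  · have h2 := mul_le_mul_of_nonneg_left (ps_two hl H.hδ hε hε1 hδε hs h0)
      (by positivity : 0 ≤ (μ + d) ^ N * d * d)
    nlinarith
  · have h0' : d < ε * s := not_le.mp h0
    rcases H.cases with h1 | h1
    · have h4 : d ≤ 2 * ε * S₁ := by nlinarith
      have h2 : d * (d * ps l δ d) ≤ (2 * ε * S₁) * (S₁ * ps l δ S₁) :=
        mul_le_mul h4 (mul_ps_mono hl H.hδ H.hδ1 hd H.dS) (by positivity) (by positivity)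
      have h3 : (μ + d) ^ N * d * d * ps l δ d ≤ ε * (2 * (3 * (Cd + 1)) ^ N) * A :=
        calc (μ + d) ^ N * d * d * ps l δ d = (μ + d) ^ N * (d * (d * ps l δ d)) := by ring
          _ ≤ ((Cd + 1) ^ N * (l + S₁) ^ N) * ((2 * ε * S₁) * (S₁ * ps l δ S₁)) :=
              mul_le_mul H.base h2 (by positivity) (by positivity)
          _ = 2 * ε * (Cd + 1) ^ N * ((l + S₁) ^ N * (S₁ * (S₁ * ps l δ S₁))) := by ring
          _ ≤ 2 * ε * (Cd + 1) ^ N * (3 ^ N * A) := mul_le_mul_of_nonneg_left H.B1 (by positivity)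
          _ = _ := by rw [mul_pow]; ring
      linarith
    · have h3 := H.pay (by positivity) (H.P1 le_rfl) hd hd (H.ds.trans h1) (H.ds.trans h1)
      have e : (μ + d) ^ N * d * d * ps l δ d = (μ + d) ^ N * ps l δ d * (d * d) := by ring
      linarith

theorem small {ε x : ℝ} (hε : 0 < ε) (hx : x ≤ ε * d) :
    (μ + d) ^ N * d * x * ps l δ s ≤
      ε * (2 * (3 * (Cd + 1)) ^ N * A + 4 * (Cd + 1) ^ N * Cd * (k * ps l δ M)) := by
  have hd := H.hd; have hμ := H.hμ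
  have hp := (ps_pos (δ := δ) H.hl s).le
  have h1 : x ≤ ε * s := hx.trans (mul_le_mul_of_nonneg_left H.ds hε.le)
  calc (μ + d) ^ N * d * x * ps l δ s = ((μ + d) ^ N * d * ps l δ s) * x := by ring
    _ ≤ ((μ + d) ^ N * d * ps l δ s) * (ε * s) := mul_le_mul_of_nonneg_left h1 (by positivity)
    _ = ε * ((μ + d) ^ N * d * s * ps l δ s) := by ring
    _ ≤ _ := mul_le_mul_of_nonneg_left H.three hε.le

theorem term_h {ε : ℝ} (hε : 0 < ε) : (μ + d) ^ N * d * h * ps l δ s ≤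
    ε * (2 * (3 * (Cd + 1)) ^ N * A + 4 * (Cd + 1) ^ N * Cd * (k * ps l δ M)) +
      1 / ε * (4 * (Cd + 1) ^ N * Cd * (k * ps l δ M)) := by
  have hA := H.hA; have hK := H.hK; have hCd := H.hCd; have hd := H.hd; have hμ := H.hμ
  have hh := H.hh; have hS₂ := H.hS₂
  have hp := (ps_pos (δ := δ) H.hl s).le
  by_cases h0 : h ≤ ε * d
  · have := H.small hε h0
    have : 0 ≤ 1 / ε * (4 * (Cd + 1) ^ N * Cd * (k * ps l δ M)) := by positivity
    linarith
  · have h1 : d ≤ 1 / ε * h := by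
      rw [one_div, ← div_eq_inv_mul, le_div_iff₀ hε]; linarith [not_le.mp h0]
    have h2 : h ≤ 2 * S₂ := by linarith [H.hS]
    have h3 := H.pay (by positivity) (H.P1 H.ds) hh hh h2 h2
    have h4 : (μ + d) ^ N * d * h * ps l δ s ≤ 1 / ε * (4 * (Cd + 1) ^ N * Cd * (k * ps l δ M)) :=
      calc (μ + d) ^ N * d * h * ps l δ s = ((μ + d) ^ N * ps l δ s * h) * d := by ring
        _ ≤ ((μ + d) ^ N * ps l δ s * h) * (1 / ε * h) :=
            mul_le_mul_of_nonneg_left h1 (by positivity)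
        _ = 1 / ε * ((μ + d) ^ N * ps l δ s * (h * h)) := by ring
        _ ≤ _ := mul_le_mul_of_nonneg_left h3 (by positivity)
    have : 0 ≤ ε * (2 * (3 * (Cd + 1)) ^ N * A + 4 * (Cd + 1) ^ N * Cd * (k * ps l δ M)) := by
      positivity
    linarith

theorem term_p {ε : ℝ} (hε : 0 < ε) : (μ + d) ^ N * d * p * ps l δ s ≤
    ε * (2 * (3 * (Cd + 1)) ^ N * A + 4 * (Cd + 1) ^ N * Cd * (k * ps l δ M)) +
      1 / ε * (Cd + 1 / ε * Cd) ^ N * (l ^ N * p ^ 2) := by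
  have hA := H.hA; have hK := H.hK; have hCd := H.hCd; have hd := H.hd; have hμ := H.hμ
  have hh := H.hp; have hl := H.hl
  have hp := (ps_pos (δ := δ) H.hl s).le
  by_cases h0 : p ≤ ε * d
  · have := H.small hε h0
    have : 0 ≤ 1 / ε * (Cd + 1 / ε * Cd) ^ N * (l ^ N * p ^ 2) := by positivity
    linarith
  · have h1 : d ≤ 1 / ε * p := by
      rw [one_div, ← div_eq_inv_mul, le_div_iff₀ hε]; linarith [not_le.mp h0]
    have h2 : 1 / ε * p ≤ 1 / ε * (Cd * l) := mul_le_mul_of_nonneg_left H.pl (by positivity)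
    have h3 : (μ + d) ^ N ≤ ((Cd + 1 / ε * Cd) * l) ^ N :=
      pow_le_pow_left₀ (by positivity) (by have := H.μl; nlinarith) N
    have h4 : (μ + d) ^ N * d * p * ps l δ s ≤ 1 / ε * (Cd + 1 / ε * Cd) ^ N * (l ^ N * p ^ 2) :=
      calc (μ + d) ^ N * d * p * ps l δ s ≤ (μ + d) ^ N * d * p * 1 :=
            mul_le_mul_of_nonneg_left (ps_le_one hl H.hδ s) (by positivity)
        _ = (μ + d) ^ N * d * p := by ring
        _ ≤ ((Cd + 1 / ε * Cd) * l) ^ N * (1 / ε * p) * p :=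
            mul_le_mul_of_nonneg_right (mul_le_mul h3 h1 hd (by positivity)) hh
        _ = _ := by rw [mul_pow]; ring
    have : 0 ≤ ε * (2 * (3 * (Cd + 1)) ^ N * A + 4 * (Cd + 1) ^ N * Cd * (k * ps l δ M)) := by
      positivity
    linarith

theorem sq_le : (s * ps l δ s) ^ 2 ≤ ps l δ s * (s * s) := by
  have hp := (ps_pos (δ := δ) H.hl s).le
  have h1 := ps_le_one (δ := δ) H.hl H.hδ s
  have hs := H.hs
  calc (s * ps l δ s) ^ 2 = ps l δ s * (s * s) * ps l δ s := by ring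
    _ ≤ ps l δ s * (s * s) * 1 := mul_le_mul_of_nonneg_left h1 (by positivity)
    _ = _ := mul_one _

theorem lsq (h1 : s ≤ 2 * S₁) : l ^ N * (ps l δ s * (s * s)) ≤ 4 * A := by
  have hs := H.hs; have hl := H.hl; have hS := H.hS₁
  have h2 : s * s ≤ (2 * S₁) * (2 * S₁) := mul_le_mul h1 h1 hs (by linarith)
  have h3 : ps l δ s * (s * s) ≤ 1 * ((2 * S₁) * (2 * S₁)) :=
    mul_le_mul (ps_le_one hl H.hδ s) h2 (by positivity) zero_le_one
  calc l ^ N * (ps l δ s * (s * s)) ≤ l ^ N * (1 * ((2 * S₁) * (2 * S₁))) :=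
        mul_le_mul_of_nonneg_left h3 (by positivity)
    _ = 4 * (l ^ N * S₁ ^ 2) := by ring
    _ ≤ 4 * A := by linarith [H.A1]

theorem term_kf' {ε : ℝ} (hε : 0 < ε) : kf' * s * ps l δ s ≤
    ε * (4 * A + 4 * (Cd + 1) ^ N * Cd * (k * ps l δ M)) + 1 / ε * (kf' ^ 2 / l ^ N) := by
  have hA := H.hA; have hK := H.hK; have hCd := H.hCd; have hl := H.hl; have hs := H.hs
  have h1 := young (a := kf') (x := s * ps l δ s) (pow_pos hl N) hε
  have h2 : l ^ N * (s * ps l δ s) ^ 2 ≤ l ^ N * (ps l δ s * (s * s)) :=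
    mul_le_mul_of_nonneg_left H.sq_le (by positivity)
  have h3 : l ^ N * (ps l δ s * (s * s)) ≤ 4 * A + 4 * (Cd + 1) ^ N * Cd * (k * ps l δ M) := by
    rcases H.cases with h | h
    · have := H.lsq h
      have : 0 ≤ 4 * (Cd + 1) ^ N * Cd * (k * ps l δ M) := by positivity
      linarith
    · have := H.pay (by positivity) (H.P2 s) hs hs h h
      have e : l ^ N * (ps l δ s * (s * s)) = l ^ N * ps l δ s * (s * s) := by ring
      linarith
  have h4 := mul_le_mul_of_nonneg_left (h2.trans h3) hε.le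
  calc kf' * s * ps l δ s = kf' * (s * ps l δ s) := by ring
    _ ≤ _ := by linarith

theorem term_kf {ε : ℝ} (hε : 0 < ε) : kf * s * ps l δ s ≤
    ε * ((1 + 4 * T * T ^ N + 4 * T * 6 ^ N) * A + 4 * T * T * Cd * (k * ps l δ M)) +
      1 / ε * (k * ps l δ M) := by
  have hA := H.hA; have hK := H.hK; have hCd := H.hCd; have hl := H.hl; have hs := H.hs
  have hM := H.hMpos; have hT := H.hT; have hS := H.hS₁
  have hT0 : 0 ≤ T := by linarith
  have hpM := ps_pos (δ := δ) hl M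
  have hp := (ps_pos (δ := δ) hl s).le
  have hp' := (ps_pos (δ := δ) hl S₁).le
  have h1 := young (a := kf) (x := s * ps l δ s) (L := M ^ N / ps l δ M) (by positivity) hε
  have h2 : kf ^ 2 / (M ^ N / ps l δ M) ≤ k * ps l δ M := by
    rw [div_le_iff₀ (by positivity)]
    calc kf ^ 2 ≤ M ^ N * k := H.kfk
      _ = _ := by field_simp
  have t1 : 0 ≤ 4 * T * T ^ N * A := by positivity
  have t2 : 0 ≤ 4 * T * 6 ^ N * A := by positivity
  have t3 : 0 ≤ 4 * T * T * Cd * (k * ps l δ M) := by positivity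
  have h3 : M ^ N / ps l δ M * (s * ps l δ s) ^ 2 ≤
      A + 4 * T * T ^ N * A + 4 * T * 6 ^ N * A + 4 * T * T * Cd * (k * ps l δ M) := by
    by_cases hc : T * l < M ∧ s ≤ M
    · have h4 := mul_ps_mono hl H.hδ H.hδ1 hs hc.2
      have h5 : (s * ps l δ s) ^ 2 ≤ (M * ps l δ M) ^ 2 := pow_le_pow_left₀ (by positivity) h4 2
      have h6 : M ^ N / ps l δ M * (s * ps l δ s) ^ 2 ≤ A :=
        calc M ^ N / ps l δ M * (s * ps l δ s) ^ 2 ≤ M ^ N / ps l δ M * (M * ps l δ M) ^ 2 :=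
              mul_le_mul_of_nonneg_left h5 (by positivity)
          _ = M ^ (N + 2) * ps l δ M := by field_simp; ring
          _ ≤ A := H.A3 hc.1
      linarith
    · have hc' : M ≤ T * l ∨ M < s := by
        by_cases h : T * l < M
        · right; exact not_le.mp fun h' => hc ⟨h, h'⟩
        · left; exact not_lt.mp h
      have h4 : ps l δ s ≤ T * ps l δ M := by
        rcases hc' with h | h
        · have a1 := ps_scale1 hl H.hδ H.hδ1 hT hl.le
          rw [ps_of_le le_rfl] at a1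
          have a2 := mul_le_mul_of_nonneg_left (ps_anti (δ := δ) hl H.hδ h) hT0
          linarith [ps_le_one (δ := δ) hl H.hδ s]
        · have a1 := ps_anti (δ := δ) hl H.hδ h.le
          nlinarith
      have h5 : M ^ N / ps l δ M * (s * ps l δ s) ^ 2 ≤ T * (M ^ N * (ps l δ s * (s * s))) :=
        calc M ^ N / ps l δ M * (s * ps l δ s) ^ 2
            = M ^ N / ps l δ M * (ps l δ s * (s * s)) * ps l δ s := by ring
          _ ≤ M ^ N / ps l δ M * (ps l δ s * (s * s)) * (T * ps l δ M) :=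
              mul_le_mul_of_nonneg_left h4 (by positivity)
          _ = _ := by field_simp
      rcases H.cases with h | h
      · rcases hc' with h' | h'
        · have a1 : M ^ N ≤ T ^ N * l ^ N := by
            rw [← mul_pow]; exact pow_le_pow_left₀ hM.le h' N
          have a2 : T * (M ^ N * (ps l δ s * (s * s))) ≤ 4 * T * T ^ N * A :=
            calc T * (M ^ N * (ps l δ s * (s * s)))
                ≤ T * ((T ^ N * l ^ N) * (ps l δ s * (s * s))) :=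
                  mul_le_mul_of_nonneg_left (mul_le_mul_of_nonneg_right a1 (by positivity)) hT0
              _ = T * T ^ N * (l ^ N * (ps l δ s * (s * s))) := by ring
              _ ≤ T * T ^ N * (4 * A) := mul_le_mul_of_nonneg_left (H.lsq h) (by positivity)
              _ = _ := by ring
          linarith
        · have a1 : M ^ N ≤ 2 ^ N * (l + S₁) ^ N := by
            rw [← mul_pow]; exact pow_le_pow_left₀ hM.le (by linarith) N
          have a0 : s * (s * ps l δ s) ≤ (2 * S₁) * (2 * (S₁ * ps l δ S₁)) :=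
            mul_le_mul h (H.sps h) (by positivity) (by positivity)
          have a2 : T * (M ^ N * (ps l δ s * (s * s))) ≤ 4 * T * 6 ^ N * A :=
            calc T * (M ^ N * (ps l δ s * (s * s))) = T * (M ^ N * (s * (s * ps l δ s))) := by ring
              _ ≤ T * ((2 ^ N * (l + S₁) ^ N) * ((2 * S₁) * (2 * (S₁ * ps l δ S₁)))) :=
                  mul_le_mul_of_nonneg_left (mul_le_mul a1 a0 (by positivity) (by positivity)) hT0
              _ = 4 * T * 2 ^ N * ((l + S₁) ^ N * (S₁ * (S₁ * ps l δ S₁))) := by ring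
              _ ≤ 4 * T * 2 ^ N * (3 ^ N * A) := mul_le_mul_of_nonneg_left H.B1 (by positivity)
              _ = 4 * T * (2 * 3) ^ N * A := by rw [mul_pow]; ring
              _ = _ := by norm_num
          linarith
      · have a1 : M ^ N * ps l δ s ≤ T * (M ^ N * ps l δ M) :=
          calc M ^ N * ps l δ s ≤ M ^ N * (T * ps l δ M) :=
                mul_le_mul_of_nonneg_left h4 (by positivity)
            _ = _ := by ring
        have a2 := mul_le_mul_of_nonneg_left (H.pay hT0 a1 hs hs h h) hT0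
        have e : T * (M ^ N * (ps l δ s * (s * s))) = T * (M ^ N * ps l δ s * (s * s)) := by ring
        have e' : T * (4 * T * Cd * (k * ps l δ M)) = 4 * T * T * Cd * (k * ps l δ M) := by ring
        linarith
  have h4 := mul_le_mul_of_nonneg_left h3 hε.le
  have h5 := mul_le_mul_of_nonneg_left h2 (by positivity : (0 : ℝ) ≤ 1 / ε)
  calc kf * s * ps l δ s = kf * (s * ps l δ s) := by ring
    _ ≤ ε * (A + 4 * T * T ^ N * A + 4 * T * 6 ^ N * A + 4 * T * T * Cd * (k * ps l δ M)) +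
      1 / ε * (k * ps l δ M) := by linarith
    _ = _ := by ring

end Hyp

/-- Coefficient of the absorbing density. -/
noncomputable def cE (N : ℕ) (Cd T : ℝ) : ℝ :=
  3 * (2 * (3 * (Cd + 1)) ^ N) + 4 + (1 + 4 * T * T ^ N + 4 * T * 6 ^ N)

/-- Coefficient of the error terms. -/
noncomputable def cC (N : ℕ) (Cd T ε : ℝ) : ℝ :=
  (4 + 1 / ε) * (4 * (Cd + 1) ^ N * Cd) + 4 * T * T * Cd + 1 / ε + 1 / ε * (Cd + 1 / ε * Cd) ^ N

theorem core {ε γ C : ℝ} (H : Hyp N Cd T δ l μ d s S₁ S₂ M p h kf kf' k A) (hε : 0 < ε)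
    (hε1 : ε ≤ 1) (hδε : δ ≤ ε) (hγ : ε * cE N Cd T ≤ γ) (hC : cC N Cd T ε ≤ C) :
    (μ + d) ^ N * d * d * ps l δ d ≤
        2 * ((μ + d) ^ N * d * d * ps l δ s) + γ * A + C * (k * ps l δ M) ∧
      (μ + d) ^ N * d * (h + p) * ps l δ s + δ * ((μ + d) ^ N * d * s * ps l δ s) +
          (kf + kf') * s * ps l δ s ≤
        γ * A + C * (k * ps l δ M + l ^ N * p ^ 2 + kf' ^ 2 / l ^ N) ∧
      (μ + d) ^ N * d * s * ps l δ s ≤ 2 * (3 * (Cd + 1)) ^ N * A + C * (k * ps l δ M) := by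
  have hA := H.hA; have hK := H.hK; have hCd := H.hCd; have hl := H.hl
  have hT0 : 0 ≤ T := by linarith [H.hT]
  have h3 := H.three
  have h1 := H.one hε hε1 hδε
  have hh := H.term_h hε
  have hp := H.term_p hε
  have hk := H.term_kf hε
  have hk' := H.term_kf' hε
  have hδ3 : δ * ((μ + d) ^ N * d * s * ps l δ s) ≤
      ε * (2 * (3 * (Cd + 1)) ^ N * A + 4 * (Cd + 1) ^ N * Cd * (k * ps l δ M)) :=
    mul_le_mul hδε h3 (by
      have := H.hd; have := H.hμ; have := H.hs; have := (ps_pos (δ := δ) hl s).le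
      positivity) hε.le
  unfold cE at hγ
  unfold cC at hC
  have hP : 0 ≤ l ^ N * p ^ 2 := by positivity
  have hQ : 0 ≤ kf' ^ 2 / l ^ N := by positivity
  generalize k * ps l δ M = K at *
  generalize l ^ N * p ^ 2 = P at *
  generalize kf' ^ 2 / l ^ N = Q at *
  have c0 : 0 ≤ 2 * (3 * (Cd + 1)) ^ N := by positivity
  have c1 : 0 ≤ 4 * (Cd + 1) ^ N * Cd := by positivity
  have c2 : 0 ≤ 1 + 4 * T * T ^ N + 4 * T * 6 ^ N := by positivity
  have c3 : 0 ≤ 4 * T * T * Cd := by positivity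
  have c4 : 0 ≤ 1 / ε * (Cd + 1 / ε * Cd) ^ N := by positivity
  have c5 : 0 ≤ 1 / ε := by positivity
  generalize 1 / ε * (Cd + 1 / ε * Cd) ^ N = c₄ at *
  generalize 2 * (3 * (Cd + 1)) ^ N = c₀ at *
  generalize 4 * (Cd + 1) ^ N * Cd = c₁ at *
  generalize 1 + 4 * T * T ^ N + 4 * T * 6 ^ N = c₂ at *
  generalize 4 * T * T * Cd = c₃ at *
  generalize 1 / ε = e at *
  have g1 := mul_le_mul_of_nonneg_right hγ hA
  have g2 := mul_le_mul_of_nonneg_right hC hK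
  have g3 := mul_le_mul_of_nonneg_right hC hP
  have g4 := mul_le_mul_of_nonneg_right hC hQ
  have k0 : 0 ≤ ε * c₀ * A := by positivity
  have k0' : 0 ≤ ε * A := by positivity
  have k0'' : 0 ≤ ε * c₂ * A := by positivity
  have k1 : 0 ≤ c₁ * K := by positivity
  have k2 : 0 ≤ e * c₁ * K := by positivity
  have k3 : 0 ≤ c₃ * K := by positivity
  have k4 : 0 ≤ e * K := by positivity
  have k5 : 0 ≤ c₄ * K := by positivity
  have k6 : ε * (c₁ * K) ≤ c₁ * K := by nlinarith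
  have k7 : ε * (c₃ * K) ≤ c₃ * K := by nlinarith
  have p1 : 0 ≤ ((4 + e) * c₁ + c₃ + e) * P := by positivity
  have q1 : 0 ≤ ((4 + e) * c₁ + c₃ + c₄) * Q := by positivity
  refine ⟨by nlinarith, ?_, by nlinarith⟩
  have e1 : (μ + d) ^ N * d * (h + p) * ps l δ s =
      (μ + d) ^ N * d * h * ps l δ s + (μ + d) ^ N * d * p * ps l δ s := by ring
  have e2 : (kf + kf') * s * ps l δ s = kf * s * ps l δ s + kf' * s * ps l δ s := by ring
  rw [e1, e2]
  nlinarith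

theorem cE_pos {N : ℕ} {Cd T : ℝ} (h : 0 ≤ Cd) (hT : 0 ≤ T) : 0 < cE N Cd T := by
  unfold cE; positivity

theorem cC_nonneg {N : ℕ} {Cd T ε : ℝ} (h : 0 ≤ Cd) (hT : 0 ≤ T) (hε : 0 < ε) :
    0 ≤ cC N Cd T ε := by
  unfold cC; positivity

/-- The damping factor as a nonnegative real. -/
noncomputable def pn (l : ℝ≥0) (δ : ℝ) (s : ℝ≥0) : ℝ≥0 := if s ≤ l then 1 else (l / s) ^ δ

theorem coe_pn (l : ℝ≥0) (δ : ℝ) (s : ℝ≥0) : (pn l δ s : ℝ) = ps l δ s := by
  unfold pn ps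
  by_cases h : s ≤ l
  · have h' : (s : ℝ) ≤ l := h
    simp [h, h']
  · have h' : ¬ (s : ℝ) ≤ l := h
    simp [h, h']

theorem psi_eq {l : ℝ≥0} (hl : 0 < l) {δ : ℝ} (hδ : 0 ≤ δ) (s : ℝ≥0) :
    psi l δ s = (pn l δ s : ℝ≥0∞) := by
  unfold psi pn
  by_cases h : s ≤ l
  · rw [if_pos h, ENNReal.coe_one]
    refine min_eq_left ?_
    have h1 : (1 : ℝ≥0∞) ≤ (l : ℝ≥0∞) / s := by
      rw [ENNReal.le_div_iff_mul_le (Or.inr (by exact_mod_cast hl.ne')) (Or.inl ENNReal.coe_ne_top),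
        one_mul]
      exact_mod_cast h
    calc (1 : ℝ≥0∞) = 1 ^ δ := (ENNReal.one_rpow δ).symm
      _ ≤ _ := ENNReal.rpow_le_rpow h1 hδ
  · have hs : l < s := not_le.mp h
    have hs0 : s ≠ 0 := (hl.trans hs).ne'
    rw [if_neg h, ENNReal.coe_rpow_of_nonneg _ hδ, ENNReal.coe_div hs0]
    refine min_eq_right ?_
    refine ENNReal.rpow_le_one ?_ hδ
    exact ENNReal.div_le_of_le_mul (by rw [one_mul]; exact_mod_cast hs.le)

theorem pow_pn_le {l : ℝ≥0} {δ : ℝ} (hδ : 0 ≤ δ) {n : ℕ} (hn : δ ≤ n) {x : ℝ≥0} (hx : 0 < x) :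
    ((x ^ n * pn l δ x : ℝ≥0) : ℝ≥0∞) ≤ (l : ℝ≥0∞) ^ δ * (x : ℝ≥0∞) ^ ((n : ℝ) - δ) := by
  rw [← ENNReal.coe_rpow_of_nonneg _ hδ, ← ENNReal.coe_rpow_of_nonneg _ (by linarith),
    ← ENNReal.coe_mul, ENNReal.coe_le_coe, ← NNReal.coe_le_coe]
  have hx' : (0 : ℝ) < x := hx
  push_cast
  rw [coe_pn]
  calc (x : ℝ) ^ n * ps l δ x ≤ (x : ℝ) ^ n * ((l : ℝ) / x) ^ δ :=
        mul_le_mul_of_nonneg_left (ps_le_rpow hδ hx') (by positivity)
    _ = _ := by
        rw [Real.div_rpow l.coe_nonneg hx'.le, Real.rpow_sub hx', Real.rpow_natCast]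
        field_simp

theorem NN_ne_top {n : ℕ} {δ : ℝ} (hδ : 0 ≤ δ) (hn : δ ≤ n) (T l S M : ℝ≥0) :
    NN n δ T l S M ≠ ⊤ := by
  have h1 : ∀ x : ℝ≥0, (l : ℝ≥0∞) ^ δ * (x : ℝ≥0∞) ^ ((n : ℝ) - δ) ≠ ⊤ := fun x =>
    ENNReal.mul_ne_top (ENNReal.rpow_ne_top_of_nonneg hδ ENNReal.coe_ne_top)
      (ENNReal.rpow_ne_top_of_nonneg (by linarith) ENNReal.coe_ne_top)
  unfold NN
  refine ENNReal.add_ne_top.mpr ⟨ENNReal.add_ne_top.mpr ⟨?_, ?_⟩, ?_⟩
  · exact ENNReal.mul_ne_top (ENNReal.pow_ne_top ENNReal.coe_ne_top)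
      (ENNReal.pow_ne_top ENNReal.coe_ne_top)
  · split_ifs
    · exact h1 _
    · exact ENNReal.zero_ne_top
  · split_ifs
    · exact h1 _
    · exact ENNReal.zero_ne_top

end LC

open LC in
theorem stLC : StLC := by
  intro n hn Cd T hT
  obtain ⟨N, rfl⟩ : ∃ N, n = N + 2 := ⟨n - 2, by omega⟩
  have hN : 1 ≤ N := by omega
  have hT0 : (0 : ℝ) ≤ T := T.coe_nonneg
  refine ⟨2 * (3 * (Cd + 1)) ^ N, fun γ hγ => ?_⟩
  have hγ' : (0 : ℝ) < γ := hγ
  have hE := cE_pos (N := N) Cd.coe_nonneg hT0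
  obtain ⟨ε, hε, hε4, hεγ⟩ : ∃ ε : ℝ, 0 < ε ∧ ε ≤ 1 / 4 ∧ ε * cE N Cd T ≤ γ := by
    refine ⟨min (1 / 4) (γ / cE N Cd T), lt_min (by norm_num) (by positivity), min_le_left _ _, ?_⟩
    exact (le_div_iff₀ hE).mp (min_le_right _ _)
  refine ⟨ε, hε, hε4, fun δ hδ hδε => ?_⟩
  refine ⟨⟨cC N Cd T ε, cC_nonneg Cd.coe_nonneg hT0 hε⟩, ?_⟩
  generalize hC : (⟨cC N Cd T ε, cC_nonneg Cd.coe_nonneg hT0 hε⟩ : ℝ≥0) = C
  have hC' : cC N Cd T ε ≤ C := by rw [← hC]
  intro l μ d s S₁ S₂ M p h kf kf' k hl hl' hS₁ hS₂ hM hk hkf' μl lM μM dS ds sS Sk kfk pl hS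
  lift l to ℝ≥0 using hl'.ne
  lift S₁ to ℝ≥0 using hS₁.ne
  lift S₂ to ℝ≥0 using hS₂.ne
  lift M to ℝ≥0 using hM.ne
  lift k to ℝ≥0 using hk.ne
  lift kf' to ℝ≥0 using hkf'.ne
  lift μ to ℝ≥0 using ne_top_of_le_ne_top (by finiteness) μl
  lift d to ℝ≥0 using ne_top_of_le_ne_top (by finiteness) dS
  lift s to ℝ≥0 using ne_top_of_le_ne_top (by finiteness) sS
  lift p to ℝ≥0 using ne_top_of_le_ne_top (by finiteness) pl
  lift h to ℝ≥0 using ne_top_of_le_ne_top (by finiteness) hS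
  lift kf to ℝ≥0 using by
    intro h0
    rw [h0] at kfk
    exact absurd (ne_top_of_le_ne_top (by finiteness) kfk) (by simp)
  have hl0 : 0 < l := by exact_mod_cast hl
  have hδn : δ ≤ ((N + 2 : ℕ) : ℝ) := by
    have : (0 : ℝ) ≤ N := N.cast_nonneg
    push_cast; linarith
  have hA1 : (l : ℝ≥0∞) ^ N * (S₁ : ℝ≥0∞) ^ 2 ≤ NN (N + 2) δ T l S₁ M := by
    unfold NN
    rw [Nat.add_sub_cancel, add_assoc]
    exact le_self_add
  have hA2 : l < 2 * S₁ →
      ((S₁ ^ (N + 2) * pn l δ S₁ : ℝ≥0) : ℝ≥0∞) ≤ NN (N + 2) δ T l S₁ M := by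
    intro h1
    have h2 : 0 < S₁ := by
      rcases (zero_le (a := S₁)).lt_or_eq with h | h
      · exact h
      · rw [← h, mul_zero] at h1; exact absurd h1 (not_lt.mpr hl0.le)
    have h3 : (l : ℝ≥0∞) < 2 * S₁ := by exact_mod_cast h1
    refine (pow_pn_le hδ.le hδn h2).trans ?_
    unfold NN
    rw [if_pos h3]
    exact le_add_right le_add_self
  have hA3 : T * l < M →
      ((M ^ (N + 2) * pn l δ M : ℝ≥0) : ℝ≥0∞) ≤ NN (N + 2) δ T l S₁ M := by
    intro h1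
    have h2 : 0 < M := lt_of_le_of_lt zero_le h1
    have h3 : (T : ℝ≥0∞) * l < M := by exact_mod_cast h1
    refine (pow_pn_le hδ.le hδn h2).trans ?_
    unfold NN
    rw [if_pos h3]
    exact le_add_self
  lift NN (N + 2) δ T l S₁ M to ℝ≥0 using NN_ne_top hδ.le hδn T l S₁ M with A hA
  rw [Nat.add_sub_cancel] at Sk kfk
  have H : Hyp N Cd T δ l μ d s S₁ S₂ M p h kf kf' k A :=
    { hN := hN
      hCd := Cd.coe_nonneg
      hT := by exact_mod_cast hT
      hδ := hδ.le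
      hδ1 := by linarith
      hl := hl0
      hμ := μ.coe_nonneg
      hd := d.coe_nonneg
      hS₂ := S₂.coe_nonneg
      hM := M.coe_nonneg
      hp := p.coe_nonneg
      hh := h.coe_nonneg
      hkf := kf.coe_nonneg
      hkf' := kf'.coe_nonneg
      hk := k.coe_nonneg
      μl := by exact_mod_cast μl
      lM := by exact_mod_cast lM
      μM := by exact_mod_cast μM
      dS := by exact_mod_cast dS
      ds := by exact_mod_cast ds
      sS := by exact_mod_cast sS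
      Sk := by exact_mod_cast Sk
      kfk := by exact_mod_cast kfk
      pl := by exact_mod_cast pl
      hS := by exact_mod_cast hS
      A1 := by exact_mod_cast hA1
      A2 := fun h1 => by
        have := hA2 (by exact_mod_cast h1)
        rw [← coe_pn]; exact_mod_cast this
      A3 := fun h1 => by
        have := hA3 (by exact_mod_cast h1)
        rw [← coe_pn]; exact_mod_cast this }
  obtain ⟨r1, r2, r3⟩ := core H hε (by linarith) hδε hεγ hC'
  simp only [← coe_pn] at r1 r2 r3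
  unfold Phi Pd
  rw [Nat.add_sub_cancel]
  simp only [psi_eq hl0 hδ.le]
  lift δ to ℝ≥0 using hδ.le
  rw [ENNReal.ofReal_coe_nnreal]
  have hlN : l ^ N ≠ 0 := pow_ne_zero _ hl0.ne'
  have ediv : (kf' : ℝ≥0∞) ^ 2 / (l : ℝ≥0∞) ^ N = ((kf' ^ 2 / l ^ N : ℝ≥0) : ℝ≥0∞) := by
    rw [ENNReal.coe_div hlN, ENNReal.coe_pow, ENNReal.coe_pow]
  rw [ediv]
  refine ⟨?_, ?_, ?_⟩
  · exact_mod_cast r1
  · exact_mod_cast r2
  · exact_mod_cast r3

end Pool.Agent.P.MP_28243e_an
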