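import Pool.Agent.P.MP_28243e_an.LE4

/-! Local energy estimate in source-free balls. -/

namespace Pool.Agent.P.MP_28243e_an

open Set MeasureTheory Metric Filter Topology ENNReal
open scoped NNReal ContDiff RealInnerProductSpace Classical

namespace LE

variable {n : ℕ}

theorem exists_small (A : ℝ≥0) : ∃ e : ℝ≥0, 0 < e ∧ e ≤ 1 / 4 ∧ A * e ≤ 1 / 8 := by
  refine ⟨1 / (8 * (A + 1)), by positivity, ?_, ?_⟩
  · rw [div_le_div_iff₀ (by positivity) (by positivity)]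
    nlinarith [zero_le (a := A)]
  · rw [mul_one_div, div_le_div_iff₀ (by positivity) (by positivity)]
    nlinarith [zero_le (a := A)]

theorem quarter_le : (1 / 4 : ℝ≥0) ≤ 1 := by
  rw [← NNReal.coe_le_coe]; norm_num

theorem step (h2 : StA2) (h4 : StA4) (h8 : StA8) (hAP : StAP) (hB : StB) (hLT : StLT) (hW : StW)
    (hLC : StLC) (hn : 3 ≤ n) (m : ℕ) (Co : ℝ≥0) : ∃ (CX : ℝ≥0) (δ₀ : ℝ), 0 < δ₀ ∧ δ₀ ≤ 1 / 4 ∧
    ∀ δ : ℝ, 0 < δ → δ ≤ δ₀ → ∀ A₀ : ℝ≥0, ∃ c : ℝ≥0, 0 < c ∧ c ≤ 1 / 4 ∧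
    ∀ {U : E n → Mt m n} {v : E n → V m} {G ν k kf h : E n → ℝ≥0∞}
    {x₀ : E n} {r r₁ g P l : ℝ≥0}, Str Co U v G ν k kf h → Su G k δ x₀ r r₁ g P l →
    (r : ℝ≥0∞) * l ≤ A₀ → ∫⁻ x in ball x₀ (2 * r), ν x ≤ c * ((r : ℝ≥0∞) * l) ^ q1 n →
    kk G k δ x₀ (2 * r) l ≤ c * ((r : ℝ≥0∞) * l) ^ n →
    en G δ l (ball x₀ r₁) ≤ en G δ l (OO x₀ r₁ g) / 2 +
      CX * ((P : ℝ≥0∞) ^ (2 * n) * ((r : ℝ≥0∞) * l) ^ n) := by
  obtain ⟨CN, hN⟩ := NN_bound h2 hn
  obtain ⟨Cl, hl⟩ := low_bound h4 h8 hn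
  obtain ⟨C, hT⟩ := test_bound hB h8 hn
  obtain ⟨K, hK⟩ := level hLT h8 hn m C
  obtain ⟨C₀, hLC⟩ := hLC n hn 400 1 le_rfl
  obtain ⟨η, η0, η1, η2⟩ := exists_small (4 * K * C₀ * CN)
  obtain ⟨Y₁, hT⟩ := hT η η0 η1
  obtain ⟨Y₂, hO⟩ := osc_bound hAP hn Co η η0 η1
  obtain ⟨γ, γ0, -, γ2⟩ := exists_small ((4 * (1 + 8 * K) + 1) * CN)
  obtain ⟨δ₀, d0, d1, hLC⟩ := hLC γ γ0
  refine ⟨1 + 4 * K * Y₁ * Cl, δ₀, d0, d1, fun δ e0 e1 A₀ => ?_⟩
  obtain ⟨CL, hLC⟩ := hLC δ e0 e1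
  obtain ⟨w1, w2, hW⟩ := hW δ e0 (by linarith)
  obtain ⟨W, eW⟩ : ∃ W : ℝ≥0, ∑' i : ℕ, wt δ i * ((i + 1) * 2 ^ ((i : ℝ) * δ / 2)) = W :=
    ⟨_, (ENNReal.coe_toNNReal w2.ne).symm⟩
  obtain ⟨c, c0, c1, c2⟩ := exists_small (12 * K * Y₂ * (A₀ + 1) * W +
    (4 * (1 + 8 * K) + 4 * K * η + 1) * CL)
  refine ⟨c, c0, c1, fun {U v G ν k kf h x₀ r r₁ g P l} hS H hA hν hk => ?_⟩
  have hN := hN H
  have hl := hl hS H
  obtain ⟨t1, t2⟩ := hT hS H
  have hO := hO hS H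
  have hK := fun i : ℕ => hK hS H _ η _ (2 ^ i * l) _ (η1.trans quarter_le) t1 (t2 _)
    (fun x hx hs => hO i x hx (by exact_mod_cast hs))
  set R := RR x₀ r₁ g with hR
  set O := OO x₀ r₁ g with hOO
  set s := sb G h O with hs
  set a : ℝ≥0∞ := (r : ℝ≥0∞) * l with ha
  set f := en G δ l O with hf
  set Q : ℝ≥0∞ := (P : ℝ≥0∞) ^ (2 * n) * a ^ n with hQ
  set N := ∫⁻ x in R, NN n δ (1 : ℝ≥0) l (sa G O x) (mq G x) with hNN
  set κ := ∫⁻ x in R, k x * psi l δ (mq G x) with hκ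
  have hP1 : (1 : ℝ≥0∞) ≤ P := by exact_mod_cast H.P1
  have aQ : a ^ n ≤ Q := le_mul_of_one_le_left zero_le (one_le_pow₀ hP1)
  have hκ' : κ ≤ c * Q :=
    (lintegral_mono_set (H.RO.trans H.OB)).trans (hk.trans (by gcongr))
  have hl0 : (0 : ℝ≥0∞) < l := by exact_mod_cast H.l0
  have ms : Measurable s := measurable_sb H.mG hS.mh measurableSet_ball
  have mG := H.mG
  have mh := hS.mh
  have mkf := hS.mkf
  have mR : MeasurableSet R := measurableSet_ball
  have mψ : Measurable fun x => psi l δ (s x) := (measurable_psi _ _).comp ms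
  have mκ := measurable_kpsi (δ := δ) H.mG hS.mk' l
  have sfin : ∀ A : Set (E n), ∀ᵐ x, x ∈ A → s x < ⊤ := fun A => by
    filter_upwards [ae_all h8 hn hS] with x B _
    exact add_lt_top.2 ⟨B.sa_lt hn H.mG O, B.ht⟩
  have hR1 : ball x₀ r₁ ⊆ R := ball_subset_ball (by have := g.coe_nonneg; linarith)
  have pt : ∀ᵐ x, x ∈ R →
      Phi n l δ 0 (G x) ≤ 2 * (G x ^ n * psi l δ (s x)) +
        (γ * NN n δ (1 : ℝ≥0) l (sa G O x) (mq G x) + CL * (k x * psi l δ (mq G x))) ∧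
      (G x ^ (n - 1) * h x + K * η * (G x ^ (n - 1) * s x) + K * (kf x * s x)) * psi l δ (s x) +
        K * (8 * ENNReal.ofReal δ) * ((G x ^ (n - 1) + kf x) * s x * psi l δ (s x)) ≤
        ((1 + 8 * K) * γ + K * η * C₀) * NN n δ (1 : ℝ≥0) l (sa G O x) (mq G x) +
          ((1 + 8 * K) + K * η) * CL * (k x * psi l δ (mq G x)) := by
    filter_upwards [ae_all h8 hn hS] with x B hx
    obtain ⟨p1, p2, p3⟩ := hLC l 0 (G x) (s x) (sa G O x) (mx h x) (mq G x) 0 (h x) (kf x) 0 (k x)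
      hl0 coe_lt_top (B.sa_lt hn H.mG O) B.ht B.mt B.kt zero_lt_top zero_le
      (by exact_mod_cast H.le_mq (H.OB (H.RO hx)))
      (by rw [zero_add]; exact B.Gm.trans (le_mul_of_one_le_left zero_le (by norm_num)))
      le_self_add (le_add_right le_self_add) le_rfl
      (B.hk.trans (le_mul_of_one_le_left zero_le (by norm_num))) B.kf zero_le B.hm
    rw [Pd_zero hn] at p1 p2 p3
    rw [← pow_succ, Nat.sub_add_cancel (by omega), add_assoc] at p1
    simp only [add_zero, ne_eq, OfNat.ofNat_ne_zero, not_false_eq_true, zero_pow, mul_zero,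
      ENNReal.zero_div] at p2
    refine ⟨p1, ?_⟩
    have dd : ENNReal.ofReal δ ≤ 2⁻¹ := by
      rw [← ENNReal.ofReal_ofNat, ← ENNReal.ofReal_inv_of_pos (by norm_num)]
      exact ENNReal.ofReal_le_ofReal (by linarith)
    have d8 : 8 * ENNReal.ofReal δ ≤ 4 := by
      calc _ ≤ 4 * 2 * (2⁻¹ : ℝ≥0∞) := by gcongr; norm_num
        _ = 4 := by rw [mul_assoc, ENNReal.mul_inv_cancel (by norm_num) (by norm_num), mul_one]
    calc _ = 1 * (G x ^ (n - 1) * h x * psi l δ (s x)) +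
          8 * K * (ENNReal.ofReal δ * (G x ^ (n - 1) * s x * psi l δ (s x))) +
          (1 + 8 * ENNReal.ofReal δ) * K * (kf x * s x * psi l δ (s x)) +
          K * η * (G x ^ (n - 1) * s x * psi l δ (s x)) := by ring
      _ ≤ (1 + 8 * K) * (G x ^ (n - 1) * h x * psi l δ (s x)) +
          (1 + 8 * K) * (ENNReal.ofReal δ * (G x ^ (n - 1) * s x * psi l δ (s x))) +
          (1 + 8 * K) * (kf x * s x * psi l δ (s x)) +
          K * η * (G x ^ (n - 1) * s x * psi l δ (s x)) := by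
          gcongr ?_ * _ + ?_ * _ + ?_ * _ + _
          · exact le_self_add
          · exact le_add_self
          · refine le_add_left ?_
            gcongr
            calc _ ≤ 1 + (4 : ℝ≥0∞) := by gcongr
              _ ≤ 8 := by norm_num
      _ ≤ (1 + 8 * K) * (γ * NN n δ (1 : ℝ≥0) l (sa G O x) (mq G x) +
            CL * (k x * psi l δ (mq G x))) +
          K * η * (C₀ * NN n δ (1 : ℝ≥0) l (sa G O x) (mq G x) +
            CL * (k x * psi l δ (mq G x))) := by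
          rw [← mul_add, ← mul_add]
          gcongr
      _ = _ := by ring
  have i1 : en G δ l (ball x₀ r₁) ≤
      2 * (∫⁻ x in ball x₀ r₁, G x ^ n * psi l δ (s x)) + (γ * N + CL * κ) := by
    calc _ ≤ ∫⁻ x in ball x₀ r₁, (2 * (G x ^ n * psi l δ (s x)) +
          (γ * NN n δ (1 : ℝ≥0) l (sa G O x) (mq G x) + CL * (k x * psi l δ (mq G x)))) := by
          refine setLIntegral_mono_ae' measurableSet_ball ?_
          filter_upwards [pt] with x hx hx'
          exact (hx (hR1 hx')).1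
      _ ≤ _ := by
          rw [lintegral_add_left (by fun_prop), lintegral_add_right _ (by fun_prop),
            lintegral_const_mul' _ _ ofNat_ne_top, lintegral_const_mul' _ _ coe_ne_top,
            lintegral_const_mul' _ _ coe_ne_top]
          gcongr <;> exact lintegral_mono_set hR1
  have i2 := (hW n l s (fun x => G x ^ n) (ball x₀ r₁) hl0 coe_lt_top ms measurableSet_ball
    (by fun_prop) (sfin _)).1
  have i3 := (hW n l s (fun x => G x ^ (n - 1) * h x + K * η * (G x ^ (n - 1) * s x) +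
    K * (kf x * s x)) R hl0 coe_lt_top ms mR (by fun_prop) (sfin _)).2.1
  have i4 := (hW n l s (fun x => G x ^ (n - 1) + kf x) R hl0 coe_lt_top ms mR
    (by fun_prop) (sfin _)).2.2
  have i5 : (∫⁻ x in R, (G x ^ (n - 1) * h x + K * η * (G x ^ (n - 1) * s x) +
      K * (kf x * s x)) * psi l δ (s x)) +
      K * (8 * ENNReal.ofReal δ * ∫⁻ x in R, (G x ^ (n - 1) + kf x) * s x * psi l δ (s x)) ≤
      ((1 + 8 * K) * γ + K * η * C₀) * N + ((1 + 8 * K) + K * η) * CL * κ := by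
    rw [← mul_assoc, ← lintegral_const_mul _ (by fun_prop), ← lintegral_add_left (by fun_prop),
      hNN, hκ, ← lintegral_const_mul' _ _ (by finiteness), ← lintegral_const_mul _ mκ,
      ← lintegral_add_right _ (by fun_prop)]
    refine setLIntegral_mono_ae' mR ?_
    filter_upwards [pt] with x hx hx'
    exact (hx hx').2
  have i6 : ∑' i : ℕ, wt δ i * ∫⁻ x in ball x₀ r₁ ∩ {x | s x ≤ 2 ^ i * l}, G x ^ n ≤
      3 * K * Y₂ * (A₀ + 1) * W * c * (f + Q) +
      (((1 + 8 * K) * γ + K * η * C₀) * N + ((1 + 8 * K) + K * η) * CL * κ) +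
      K * Y₁ * Cl * Q := by
    calc _ ≤ ∑' i : ℕ, (3 * K * Y₂ * (A₀ + 1) * c * (f + Q) *
            (wt δ i * ((i + 1) * 2 ^ ((i : ℝ) * δ / 2))) +
          (wt δ i * (∫⁻ x in R ∩ {x | s x ≤ 2 ^ i * l}, (G x ^ (n - 1) * h x +
            K * η * (G x ^ (n - 1) * s x) + K * (kf x * s x))) +
          K * (wt δ i * (2 ^ i * l * ∫⁻ x in R \ (R ∩ {x | s x ≤ 2 ^ i * l}),
            (G x ^ (n - 1) + kf x)))) + K * Y₁ * Cl * Q * wt δ i) := by
          refine ENNReal.tsum_le_tsum fun i => ?_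
          have j1 := hK i
          push_cast at j1
          have hw : (1 : ℝ≥0∞) ≤ (i + 1) * 2 ^ ((i : ℝ) * δ / 2) :=
            one_le_mul le_add_self (by
              calc (1 : ℝ≥0∞) = 2 ^ (0 : ℝ) := by simp
                _ ≤ _ := ENNReal.rpow_le_rpow_of_exponent_le (by norm_num) (by positivity))
          have j2 := nu_term hn (f := f) hA hw hP1
          have j3 : ∫⁻ x in R, ν x ≤ c * a ^ q1 n :=
            (lintegral_mono_set (H.RO.trans H.OB)).trans hν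
          calc _ ≤ wt δ i * (K * (Y₂ * c * (3 * (A₀ + 1) * ((i + 1) * 2 ^ ((i : ℝ) * δ / 2)) *
                (f + Q))) + (∫⁻ x in R ∩ {x | s x ≤ 2 ^ i * l}, (G x ^ (n - 1) * h x +
                K * η * (G x ^ (n - 1) * s x) + K * (kf x * s x))) +
                K * (2 ^ i * l * ∫⁻ x in R \ (R ∩ {x | s x ≤ 2 ^ i * l}),
                  (G x ^ (n - 1) + kf x)) + K * (Y₁ * (P : ℝ≥0∞) ^ (2 * n) * (Cl * a ^ n))) := by
                gcongr wt δ i * ?_
                refine j1.trans ?_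
                gcongr ?_ + _ + _ + _ * ?_
                · rw [mul_assoc]
                  gcongr _ * ?_
                  calc _ ≤ Y₂ * (P : ℝ≥0∞) ^ n * (a + a ^ (1 / 2 : ℝ) +
                        (i + 1) * 2 ^ ((i : ℝ) * δ / 2) * f ^ (1 / (n : ℝ))) * (c * a ^ q1 n) := by
                        gcongr
                    _ = Y₂ * c * ((P : ℝ≥0∞) ^ n * (a + a ^ (1 / 2 : ℝ) +
                        (i + 1) * 2 ^ ((i : ℝ) * δ / 2) * f ^ (1 / (n : ℝ))) * a ^ q1 n) := by ring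
                    _ ≤ _ := by gcongr
                · rw [mul_assoc]
                  gcongr
            _ = _ := by rw [hQ]; ring
      _ ≤ _ := by
          rw [ENNReal.tsum_add, ENNReal.tsum_add, ENNReal.tsum_add, ENNReal.tsum_mul_left,
            ENNReal.tsum_mul_left, ENNReal.tsum_mul_left, w1, eW, mul_one]
          gcongr ?_ + ?_ + _
          · apply le_of_eq; ring
          · refine le_trans ?_ i5
            gcongr
  have q1' : ((4 * K * C₀ * CN * η : ℝ≥0) : ℝ≥0∞) ≤ (1 / 8 : ℝ≥0) := by exact_mod_cast η2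
  have q2 : (((4 * (1 + 8 * K) + 1) * CN * γ : ℝ≥0) : ℝ≥0∞) ≤ (1 / 8 : ℝ≥0) := by exact_mod_cast γ2
  have q3 : ((12 * K * Y₂ * (A₀ + 1) * W * c : ℝ≥0) : ℝ≥0∞) ≤ (1 / 8 : ℝ≥0) := by
    exact_mod_cast le_trans (by gcongr; exact le_self_add) c2
  have q4 : (((4 * (1 + 8 * K) + 4 * K * η + 1) * CL * c : ℝ≥0) : ℝ≥0∞) ≤ (1 / 8 : ℝ≥0) := by
    exact_mod_cast le_trans (by gcongr; exact le_add_self) c2
  calc _ ≤ 2 * (2 * (3 * K * Y₂ * (A₀ + 1) * W * c * (f + Q) +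
        (((1 + 8 * K) * γ + K * η * C₀) * (CN * (f + Q)) + ((1 + 8 * K) + K * η) * CL * (c * Q)) +
        K * Y₁ * Cl * Q)) + (γ * (CN * (f + Q)) + CL * (c * Q)) := by
        refine i1.trans ?_
        gcongr
        refine i2.trans ?_
        gcongr
        refine i6.trans ?_
        gcongr
    _ = ((4 * K * C₀ * CN * η : ℝ≥0) : ℝ≥0∞) * (f + Q) +
        (((4 * (1 + 8 * K) + 1) * CN * γ : ℝ≥0) : ℝ≥0∞) * (f + Q) +
        ((12 * K * Y₂ * (A₀ + 1) * W * c : ℝ≥0) : ℝ≥0∞) * (f + Q) +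
        (((4 * (1 + 8 * K) + 4 * K * η + 1) * CL * c : ℝ≥0) : ℝ≥0∞) * Q + 4 * K * Y₁ * Cl * Q := by
        push_cast; ring
    _ ≤ (1 / 8 : ℝ≥0) * (f + Q) + (1 / 8 : ℝ≥0) * (f + Q) + (1 / 8 : ℝ≥0) * (f + Q) +
        (1 / 8 : ℝ≥0) * Q + 4 * K * Y₁ * Cl * Q := by gcongr
    _ = ((3 * (1 / 8) : ℝ≥0) : ℝ≥0∞) * f +
        (((4 * (1 / 8) : ℝ≥0) : ℝ≥0∞) + 4 * K * Y₁ * Cl) * Q := by
        simp only [ENNReal.coe_mul, ENNReal.coe_ofNat]; ring
    _ ≤ _ := by
        rw [ENNReal.div_eq_inv_mul]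
        gcongr
        · rw [← ENNReal.coe_ofNat, ← ENNReal.coe_inv (by norm_num), ENNReal.coe_le_coe,
            ← NNReal.coe_le_coe]
          norm_num
        · have : ((4 * (1 / 8) : ℝ≥0) : ℝ≥0∞) ≤ 1 := by
            rw [← ENNReal.coe_one, ENNReal.coe_le_coe, ← NNReal.coe_le_coe]
            norm_num
          simp only [ENNReal.coe_add, ENNReal.coe_one, ENNReal.coe_mul _ Cl,
            ENNReal.coe_mul _ Y₁, ENNReal.coe_mul _ K, ENNReal.coe_ofNat]
          gcongr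

end LE

theorem stLE (h2 : StA2) (h4 : StA4) (_h5 : StA5) (h8 : StA8) (hAP : StAP) (hB : StB)
    (hLT : StLT) (hW : StW) (hLC : StLC) (hIt : StIt) (_hSig : StSig) : StLE := by
  intro n m hn Co
  obtain ⟨CX, δ₀, d0, d1, hs⟩ := LE.step h2 h4 h8 hAP hB hLT hW hLC hn m Co
  obtain ⟨CI, hIt⟩ := hIt (2 * n)
  refine ⟨CI * CX, δ₀, d0, d1, fun δ e0 e1 A₀ => ?_⟩
  obtain ⟨c, c0, c1, hs⟩ := hs δ e0 e1 A₀
  refine ⟨c, c0, fun U v G ν k kf h hS x₀ r l hr hsub hup hlow hA hν hk => ?_⟩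
  obtain ⟨C8, h8'⟩ := h8 n hn
  have l0 : 0 < l := ((h8' G hS.gd).2.2.2.1 x₀ r hr).trans_le hup
  have l1 : l ≠ ⊤ := by
    rintro rfl
    rw [ENNReal.mul_top (by simpa using hr)] at hA
    exact absurd hA (by simp)
  lift l to ℝ≥0 using l1
  lift r to ℝ≥0 using hr.le
  rw [ENNReal.ofReal_coe_nnreal] at hA hν hk ⊢
  have hr' : (0 : ℝ≥0) < r := hr
  have key := hIt (fun ρ => LE.en G δ l (ball x₀ ρ)) r (2 * r) (∫⁻ x, G x ^ n)
    (CX * (r : ℝ≥0∞) ^ (2 * n) * ((r : ℝ≥0∞) * l) ^ n) 0 (by linarith) hS.gd.fin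
    (fun ρ _ => (setLIntegral_le_lintegral _ _).trans (lintegral_mono fun x => by
      rw [LE.Phi_zero hn]; exact mul_le_of_le_one_right zero_le (psi_le_one _ _ _))) ?_
  · refine key.trans (le_of_eq ?_)
    rw [add_zero, show 2 * (r : ℝ) - r = r by ring, ENNReal.ofReal_pow r.coe_nonneg,
      ENNReal.ofReal_coe_nnreal, mul_right_comm, mul_div_assoc,
      ENNReal.div_self (pow_ne_zero _ (by exact_mod_cast hr'.ne')) (by finiteness), mul_one]
    push_cast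
    ring
  · intro r₁ r₂ a1 a2 a3
    lift r₁ to ℝ≥0 using hr.le.trans a1
    obtain ⟨g, rfl⟩ : ∃ g : ℝ≥0, r₂ = r₁ + g := ⟨(r₂ - r₁).toNNReal, by
      rw [Real.coe_toNNReal _ (by linarith)]; ring⟩
    have g0 : 0 < g := by
      have : (0 : ℝ) < g := by linarith
      exact this
    have H : LE.Su G k δ x₀ r r₁ g (r / g) l :=
      { hn := hn
        mG := hS.gd.meas
        fG := fun x => by rw [← hS.normU]; exact enorm_ne_top
        d0 := e0
        d1 := e1.trans d1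
        g0 := g0
        l0 := by exact_mod_cast l0
        hP := (div_mul_cancel₀ _ g0.ne').symm
        P1 := by
          rw [one_le_div g0, ← NNReal.coe_le_coe]
          linarith
        h1 := a1
        h3 := by exact_mod_cast a3
        sub := hsub
        up := hup
        low := hlow
        hk := hk.trans (mul_le_of_le_one_left zero_le
          (by exact_mod_cast c1.trans LE.quarter_le)) }
    refine (hs hS H hA hν hk).trans (le_of_eq ?_)
    rw [add_zero, add_sub_cancel_left, ENNReal.ofReal_pow g.coe_nonneg, ENNReal.ofReal_coe_nnreal,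
      ENNReal.coe_div g0.ne']
    simp only [LE.OO, ENNReal.div_eq_inv_mul, ENNReal.inv_pow]
    ring

end Pool.Agent.P.MP_28243e_an
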