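import Pool.Agent.P.MP_28243e_an.Basic

/-! Local energy estimate, part one: setting and integral bounds. -/

namespace Pool.Agent.P.MP_28243e_an

open Set MeasureTheory Metric Filter Topology ENNReal
open scoped NNReal ContDiff RealInnerProductSpace Classical

namespace LE

variable {n m : ℕ}

/-- volume of the unit ball -/
noncomputable def vB (n : ℕ) : ℝ≥0 := (vb n).toNNReal

theorem vol (x : E n) {s : ℝ≥0} (hs : 0 < s) : volume (ball x (s : ℝ)) = vB n * (s : ℝ≥0∞) ^ n := by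
  rw [vol_ball x (by exact_mod_cast hs), ENNReal.ofReal_mul vb_pos.le,
    ENNReal.ofReal_pow s.coe_nonneg, ENNReal.ofReal_coe_nnreal]
  rfl

/-- the geometric setting -/
structure Su (G k : E n → ℝ≥0∞) (δ : ℝ) (x₀ : E n) (r r₁ g P l : ℝ≥0) : Prop where
  hn : 3 ≤ n
  mG : Measurable G
  fG : ∀ x, G x ≠ ⊤
  d0 : 0 < δ
  d1 : δ ≤ 1 / 4
  g0 : 0 < g
  l0 : 0 < l
  hP : r = P * g
  P1 : 1 ≤ P
  h1 : r ≤ r₁
  h3 : r₁ + g ≤ 2 * r
  sub : ball x₀ (2 * r) ⊆ ball 0 (1 / 2)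
  up : gs G x₀ r ≤ l
  low : (l : ℝ≥0∞) ≤ 16 * gq G x₀ (r / 2)
  hk : kk G k δ x₀ (2 * r) l ≤ ((r : ℝ≥0∞) * l) ^ n

/-- inner ball -/
def RR (x₀ : E n) (r₁ g : ℝ≥0) : Set (E n) := ball x₀ (r₁ + g / 2)
/-- outer ball -/
def OO (x₀ : E n) (r₁ g : ℝ≥0) : Set (E n) := ball x₀ (r₁ + g)
/-- main part of the control function -/
noncomputable def sa (G : E n → ℝ≥0∞) (O : Set (E n)) (x : E n) : ℝ≥0∞ :=
  G x + mx (O.indicator G) x
/-- control function -/
noncomputable def sb (G h : E n → ℝ≥0∞) (O : Set (E n)) (x : E n) : ℝ≥0∞ := sa G O x + mx h x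
/-- damped energy -/
noncomputable def en (G : E n → ℝ≥0∞) (δ : ℝ) (l : ℝ≥0∞) (O : Set (E n)) : ℝ≥0∞ :=
  ∫⁻ x in O, Phi n l δ 0 (G x)

theorem Phi_zero (hn : 3 ≤ n) (l : ℝ≥0∞) (δ : ℝ) (d : ℝ≥0∞) :
    Phi n l δ 0 d = d ^ n * psi l δ d := by
  obtain ⟨j, rfl⟩ : ∃ j, n = j + 2 := ⟨n - 2, by omega⟩
  simp only [Phi, Pd, zero_add, Nat.add_sub_cancel]
  ring

theorem Pd_zero (hn : 3 ≤ n) (d : ℝ≥0∞) : Pd n 0 d = d ^ (n - 1) := by
  obtain ⟨j, rfl⟩ : ∃ j, n = j + 2 := ⟨n - 2, by omega⟩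
  simp only [Pd, zero_add, Nat.add_sub_cancel]
  rw [← pow_succ]
  rfl

theorem rpow_split {l : ℝ≥0∞} (h0 : l ≠ 0) (h1 : l ≠ ⊤) (δ : ℝ) :
    l ^ δ * l ^ ((n : ℝ) - δ) = l ^ n := by
  rw [← ENNReal.rpow_add _ _ h0 h1, add_sub_cancel, ENNReal.rpow_natCast]

theorem Phi_big (hn : 3 ≤ n) {l d : ℝ≥0∞} {δ : ℝ} (hδ : 0 ≤ δ) (hd : d ≠ ⊤) (h : l < d) :
    Phi n l δ 0 d = l ^ δ * d ^ ((n : ℝ) - δ) := by
  have h0 : d ≠ 0 := (pos_of_gt h).ne'
  rw [Phi_zero hn, psi_of_ge hδ h.le, ENNReal.div_rpow_of_nonneg _ _ hδ, ← rpow_split h0 hd δ,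
    mul_comm (d ^ δ), mul_assoc, ENNReal.mul_div_cancel (by simp [h0, hd]) (by simp [h0, hd]),
    mul_comm]

theorem le_psi {l M : ℝ≥0∞} {δ : ℝ} (h0 : 0 ≤ δ) (h1 : δ ≤ 1) (h : l ≤ M) : l / M ≤ psi l δ M := by
  rw [psi_of_ge h0 h]
  calc l / M = (l / M) ^ (1 : ℝ) := by simp
    _ ≤ _ := ENNReal.rpow_le_rpow_of_exponent_ge (ENNReal.div_le_of_le_mul (by simpa using h)) h1

theorem le_add_of_sq_le {a b c : ℝ≥0∞} (h : a ^ 2 ≤ b * c) : a ≤ b + c := by
  by_contra hh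
  push Not at hh
  have hb : b < a := lt_of_le_of_lt le_self_add hh
  have hc : c < a := lt_of_le_of_lt le_add_self hh
  have := ENNReal.mul_lt_mul hb hc
  rw [← sq] at this
  exact absurd h this.not_ge

namespace Su

variable {G k : E n → ℝ≥0∞} {δ : ℝ} {x₀ : E n} {r r₁ g P l : ℝ≥0}

theorem gr (H : Su G k δ x₀ r r₁ g P l) : g ≤ r := by
  rw [H.hP]; exact le_mul_of_one_le_left zero_le H.P1

theorem r0 (H : Su G k δ x₀ r r₁ g P l) : 0 < r := H.g0.trans_le H.gr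

theorem RO (_H : Su G k δ x₀ r r₁ g P l) : RR x₀ r₁ g ⊆ OO x₀ r₁ g :=
  ball_subset_ball (by have := g.coe_nonneg; linarith)

theorem OB (H : Su G k δ x₀ r r₁ g P l) : OO x₀ r₁ g ⊆ ball x₀ (2 * r) :=
  ball_subset_ball (by exact_mod_cast H.h3)

theorem ball_sub (_H : Su G k δ x₀ r r₁ g P l) {x : E n} (hx : x ∈ RR x₀ r₁ g) :
    ball x (g / 2) ⊆ OO x₀ r₁ g :=
  ball_subset_ball' (by have := mem_ball.1 hx; linarith)

theorem cball_sub (_H : Su G k δ x₀ r r₁ g P l) {x : E n} (hx : x ∈ RR x₀ r₁ g) {t : ℝ}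
    (ht : t ≤ g / 2) : closedBall x t ⊆ OO x₀ r₁ g :=
  closedBall_subset_ball' (by have := mem_ball.1 hx; linarith)

theorem volB (H : Su G k δ x₀ r r₁ g P l) :
    volume (ball x₀ (2 * (r : ℝ))) = vB n * 2 ^ n * (r : ℝ≥0∞) ^ n := by
  have := vol x₀ (s := 2 * r) (by have := H.r0; positivity)
  push_cast at this
  rw [this, mul_pow, mul_assoc]

theorem gq2 (H : Su G k δ x₀ r r₁ g P l) {s : ℝ} (hs : (r : ℝ) ≤ s) : gq G x₀ s ≤ l :=
  (gq_le_gs G x₀ hs).trans H.up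

theorem le_mq (H : Su G k δ x₀ r r₁ g P l) {x : E n} (hx : x ∈ ball x₀ (2 * (r : ℝ))) :
    (l : ℝ≥0∞) ≤ 400 * mq G x := by
  have hr : (0 : ℝ) < r := H.r0
  have h1 := gq_le_gq H.hn G (x := x₀) (x' := x) (r := r / 2) (r' := 5 * (r / 2)) (K := 5)
    (by positivity) (ball_subset_ball' (by rw [dist_comm]; have := mem_ball.1 hx; linarith)) le_rfl
  have h2 := gq_le_mq H.hn G x (r := 5 * (r / 2)) (by positivity)
  calc (l : ℝ≥0∞) ≤ 16 * (ENNReal.ofReal (5 ^ 2) * mq G x) := H.low.trans (by gcongr; exact h1.trans (by gcongr))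
    _ = 400 * mq G x := by
      rw [← mul_assoc]
      norm_num

theorem int_rpow (H : Su G k δ x₀ r r₁ g P l) {p : ℝ} (hp : 0 < p) (hq : p ≤ q1 n) :
    ∫⁻ x in ball x₀ (2 * (r : ℝ)), G x ^ p ≤ vB n * 2 ^ n * (r : ℝ≥0∞) ^ n * (l : ℝ≥0∞) ^ p := by
  have hr : (0 : ℝ) < r := H.r0
  rw [lint_ball_eq _ _ (by positivity), H.volB]
  gcongr
  exact (av_rpow_le H.hn H.mG x₀ (by positivity) hp hq).trans
    (ENNReal.rpow_le_rpow (H.gq2 (by linarith)) hp.le)

theorem tail (H : Su G k δ x₀ r r₁ g P l) (A : Set (E n)) :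
    (l : ℝ≥0∞) ^ δ * ∫⁻ x in A, (OO x₀ r₁ g).indicator G x ^ ((n : ℝ) - δ) ≤
      vB n * 2 ^ n * ((r : ℝ≥0∞) * l) ^ n + en G δ l (OO x₀ r₁ g) := by
  have hl0 : (l : ℝ≥0∞) ≠ 0 := by exact_mod_cast H.l0.ne'
  have hq : 0 < (n : ℝ) - δ := by
    have : (3 : ℝ) ≤ n := by exact_mod_cast H.hn
    linarith [H.d1]
  have hO : MeasurableSet (OO x₀ r₁ g) := measurableSet_ball
  rw [← lintegral_const_mul' _ _ (by simp [hl0])]
  calc _ ≤ ∫⁻ x, (OO x₀ r₁ g).indicator (fun x => (l : ℝ≥0∞) ^ n + Phi n l δ 0 (G x)) x := by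
        refine (setLIntegral_le_lintegral _ _).trans (lintegral_mono fun x => ?_)
        by_cases hx : x ∈ OO x₀ r₁ g
        · simp only [indicator_of_mem hx]
          rcases le_or_gt (G x) l with h | h
          · refine le_add_right ?_
            rw [← rpow_split hl0 coe_ne_top δ]
            gcongr
          · rw [Phi_big H.hn H.d0.le (H.fG x) h]
            exact le_add_self
        · simp [indicator_of_notMem hx, hq]
    _ = (l : ℝ≥0∞) ^ n * volume (OO x₀ r₁ g) + en G δ l (OO x₀ r₁ g) := by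
        rw [lintegral_indicator hO, lintegral_add_left measurable_const, setLIntegral_const, en]
    _ ≤ _ := by
        gcongr ?_ + _
        calc _ ≤ (l : ℝ≥0∞) ^ n * (vB n * 2 ^ n * (r : ℝ≥0∞) ^ n) := by
              rw [← H.volB]; gcongr; exact H.OB
          _ = _ := by ring

theorem gs_le (H : Su G k δ x₀ r r₁ g P l) {x : E n} (hx : x ∈ RR x₀ r₁ g) :
    gs G x (g / 2) ≤ 25 * (P : ℝ≥0∞) ^ 2 * l := by
  have hg : (0 : ℝ) < g := H.g0
  have hP : (r : ℝ) = P * g := by exact_mod_cast H.hP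
  have h3 : (r₁ : ℝ) + g ≤ 2 * r := by exact_mod_cast H.h3
  have hx' : ‖x - x₀‖ < r₁ + g / 2 := by rw [← dist_eq_norm]; exact hx
  have hr : (0 : ℝ) < r := H.r0
  have h1 := gs_le_gs H.hn G (x := x) (x' := x₀) (r := g / 2) (r' := r) (K := 5 * P)
    (by positivity) (by nlinarith) (by nlinarith)
  refine h1.trans ?_
  rw [mul_pow, ENNReal.ofReal_mul (by positivity), ENNReal.ofReal_pow P.coe_nonneg,
    ENNReal.ofReal_coe_nnreal]
  gcongr
  · norm_num
  · exact H.up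

end Su

theorem NN_bound (h2 : StA2) (hn : 3 ≤ n) : ∃ C : ℝ≥0, ∀ {G k : E n → ℝ≥0∞} {δ : ℝ} {x₀ : E n}
    {r r₁ g P l : ℝ≥0}, Su G k δ x₀ r r₁ g P l →
    ∫⁻ x in RR x₀ r₁ g, NN n δ (1 : ℝ≥0) l (sa G (OO x₀ r₁ g) x) (mq G x) ≤
      C * (en G δ l (OO x₀ r₁ g) + (P : ℝ≥0∞) ^ (2 * n) * ((r : ℝ≥0∞) * l) ^ n) := by
  obtain ⟨-, h2b, C₃, h2c⟩ := h2 n hn
  obtain ⟨C₂, h2b⟩ := h2b 2 n (by norm_num)
  refine ⟨(4 * C₂ + 2 ^ n * C₂ + 25 ^ n + C₃) * (vB n * 2 ^ n + 1), fun {G k δ x₀ r r₁ g P l} H => ?_⟩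
  set O := OO x₀ r₁ g with hO
  set u := O.indicator G with hu
  have mu : Measurable u := H.mG.indicator measurableSet_ball
  have hn' : (3 : ℝ) ≤ n := by exact_mod_cast hn
  have hl0 : (l : ℝ≥0∞) ≠ 0 := by exact_mod_cast H.l0.ne'
  have hd1 := H.d1
  have hd0 := H.d0
  have hP1 : (1 : ℝ≥0∞) ≤ P := by exact_mod_cast H.P1
  have hP2 : (1 : ℝ≥0∞) ≤ (P : ℝ≥0∞) ^ (2 * n) := one_le_pow₀ hP1
  set a : ℝ≥0∞ := (r : ℝ≥0∞) * l with ha
  set f := en G δ l O with hf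
  have key : ∀ᵐ x, x ∈ RR x₀ r₁ g → NN n δ (1 : ℝ≥0) l (sa G O x) (mq G x) ≤
      4 * (l : ℝ≥0∞) ^ (n - 2) * {x | 0 < mx u x}.indicator (fun x => mx u x ^ (2 : ℝ)) x +
      2 ^ n * (l : ℝ≥0∞) ^ δ *
        {x | (l : ℝ≥0∞) / 4 < mx u x}.indicator (fun x => mx u x ^ ((n : ℝ) - δ)) x +
      ((25 * (P : ℝ≥0∞) ^ 2 * l) ^ n +
        (l : ℝ≥0∞) ^ δ * {x | (l : ℝ≥0∞) < mq u x}.indicator (fun x => mq u x ^ ((n : ℝ) - δ)) x) := by
    filter_upwards [le_mx_ae mu] with x hx hR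
    have h1 : sa G O x ≤ 2 * mx u x := by
      rw [sa, two_mul]
      gcongr
      rwa [hu, indicator_of_mem (H.RO hR)] at hx
    unfold NN
    gcongr ?_ + ?_ + ?_
    · by_cases h0 : 0 < mx u x
      · rw [indicator_of_mem (show x ∈ {x | 0 < mx u x} from h0)]
        calc _ ≤ (l : ℝ≥0∞) ^ (n - 2) * (2 * mx u x) ^ 2 := by gcongr
          _ = _ := by rw [ENNReal.rpow_two]; ring
      · have : sa G O x = 0 := by
          rw [not_lt, nonpos_iff_eq_zero] at h0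
          simpa [h0] using h1
        simp [this]
    · split_ifs with h0
      · have h3 : (l : ℝ≥0∞) / 4 < mx u x := by
          rw [ENNReal.div_lt_iff (by simp) (by simp)]
          calc (l : ℝ≥0∞) < 2 * sa G O x := h0
            _ ≤ 2 * (2 * mx u x) := by gcongr
            _ = _ := by ring
        rw [indicator_of_mem (show x ∈ {x | (l : ℝ≥0∞) / 4 < mx u x} from h3)]
        calc _ ≤ (l : ℝ≥0∞) ^ δ * (2 * mx u x) ^ ((n : ℝ) - δ) := by gcongr; linarith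
          _ = (2 : ℝ≥0∞) ^ ((n : ℝ) - δ) * (l : ℝ≥0∞) ^ δ * mx u x ^ ((n : ℝ) - δ) := by
            rw [ENNReal.mul_rpow_of_nonneg _ _ (by linarith)]; ring
          _ ≤ _ := by
            gcongr
            rw [← ENNReal.rpow_natCast]
            exact ENNReal.rpow_le_rpow_of_exponent_le (by norm_num) (by linarith)
      · exact zero_le
    · split_ifs with h0
      · have h4 := mq_le_max hn G (H.ball_sub hR)
        have hl : (l : ℝ≥0∞) ≤ 25 * (P : ℝ≥0∞) ^ 2 * l :=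
          le_mul_of_one_le_left zero_le (one_le_mul (by norm_num) (one_le_pow₀ hP1))
        rcases le_or_gt (mq G x) (25 * (P : ℝ≥0∞) ^ 2 * l) with h5 | h5
        · refine le_add_right ?_
          rw [← rpow_split (n := n) (l := 25 * (P : ℝ≥0∞) ^ 2 * l) (fun e => hl0 (by simpa [e] using hl))
            (by finiteness) δ]
          gcongr
          linarith
        · have h6 : mq G x ≤ mq u x := by
            rcases le_max_iff.1 h4 with h | h
            · exact h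
            · exact absurd (h.trans (H.gs_le hR)) h5.not_ge
          refine le_add_left ?_
          rw [indicator_of_mem (show x ∈ {x | (l : ℝ≥0∞) < mq u x} from (hl.trans_lt h5).trans_le h6)]
          gcongr
          linarith
      · exact zero_le
  have mm := measurable_mx mu
  have mmq := measurable_mq mu
  have s1 : MeasurableSet {x | 0 < mx u x} := measurableSet_lt measurable_const mm
  have s2 : MeasurableSet {x | (l : ℝ≥0∞) / 4 < mx u x} := measurableSet_lt measurable_const mm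
  have s3 : MeasurableSet {x | (l : ℝ≥0∞) < mq u x} := measurableSet_lt measurable_const mmq
  have e1 : ∫⁻ x in RR x₀ r₁ g, {x | 0 < mx u x}.indicator (fun x => mx u x ^ (2 : ℝ)) x ≤
      C₂ * (vB n * 2 ^ n * (r : ℝ≥0∞) ^ n * (l : ℝ≥0∞) ^ 2) := by
    refine (setLIntegral_le_lintegral _ _).trans ?_
    rw [lintegral_indicator s1]
    refine (h2b 2 le_rfl (by linarith) u mu 0).trans ?_
    gcongr
    refine (setLIntegral_le_lintegral _ _).trans ?_
    rw [← ENNReal.rpow_two]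
    refine le_trans ?_ (H.int_rpow (p := 2) (by norm_num) (by unfold q1; linarith))
    rw [← lintegral_indicator measurableSet_ball]
    refine lintegral_mono fun x => ?_
    by_cases hx : x ∈ O
    · rw [hu, indicator_of_mem hx, indicator_of_mem (H.OB hx)]
    · simp [hu, indicator_of_notMem hx]
  have e2 : (l : ℝ≥0∞) ^ δ * ∫⁻ x in RR x₀ r₁ g,
      {x | (l : ℝ≥0∞) / 4 < mx u x}.indicator (fun x => mx u x ^ ((n : ℝ) - δ)) x ≤
      C₂ * (vB n * 2 ^ n * a ^ n + f) := by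
    calc _ ≤ (l : ℝ≥0∞) ^ δ * (C₂ * ∫⁻ x in {x | (l : ℝ≥0∞) / 4 < 2 * u x}, u x ^ ((n : ℝ) - δ)) := by
          gcongr
          refine (setLIntegral_le_lintegral _ _).trans ?_
          rw [lintegral_indicator s2]
          exact h2b _ (by linarith) (by linarith) u mu _
      _ ≤ _ := by
          rw [mul_left_comm]
          gcongr
          exact H.tail _
  have e3 : (l : ℝ≥0∞) ^ δ * ∫⁻ x in RR x₀ r₁ g,
      {x | (l : ℝ≥0∞) < mq u x}.indicator (fun x => mq u x ^ ((n : ℝ) - δ)) x ≤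
      C₃ * (vB n * 2 ^ n * a ^ n + f) := by
    calc _ ≤ (l : ℝ≥0∞) ^ δ * (C₃ * ∫⁻ x in {x | (l : ℝ≥0∞) < 2 * u x}, u x ^ ((n : ℝ) - δ)) := by
          gcongr
          refine (setLIntegral_le_lintegral _ _).trans ?_
          rw [lintegral_indicator s3]
          exact (h2c u mu l).2 _ (by linarith) (by linarith)
      _ ≤ _ := by
          rw [mul_left_comm]
          gcongr
          exact H.tail _
  have e4 : (25 * (P : ℝ≥0∞) ^ 2 * l) ^ n * volume (RR x₀ r₁ g) ≤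
      25 ^ n * (vB n * 2 ^ n * ((P : ℝ≥0∞) ^ (2 * n) * a ^ n)) := by
    calc _ ≤ (25 * (P : ℝ≥0∞) ^ 2 * l) ^ n * (vB n * 2 ^ n * (r : ℝ≥0∞) ^ n) := by
          rw [← H.volB]; gcongr; exact H.RO.trans H.OB
      _ = _ := by rw [ha, pow_mul]; ring
  refine (setLIntegral_mono_ae' measurableSet_ball key).trans ?_
  have m1 : Measurable ({x | 0 < mx u x}.indicator fun x => mx u x ^ (2 : ℝ)) :=
    (mm.pow_const _).indicator s1
  have m2 : Measurable ({x | (l : ℝ≥0∞) / 4 < mx u x}.indicator fun x => mx u x ^ ((n : ℝ) - δ)) :=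
    (mm.pow_const _).indicator s2
  have m3 : Measurable ({x | (l : ℝ≥0∞) < mq u x}.indicator fun x => mq u x ^ ((n : ℝ) - δ)) :=
    (mmq.pow_const _).indicator s3
  rw [lintegral_add_left (by fun_prop), lintegral_add_left (by fun_prop),
    lintegral_add_left (by fun_prop), lintegral_const_mul _ m1, lintegral_const_mul _ m2,
    lintegral_const_mul _ m3, setLIntegral_const, mul_assoc (2 ^ n)]
  set B : ℝ≥0∞ := (vB n * 2 ^ n + 1) * (f + (P : ℝ≥0∞) ^ (2 * n) * a ^ n) with hB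
  have b1 : vB n * 2 ^ n * a ^ n + f ≤ B := by
    calc _ ≤ vB n * 2 ^ n * (f + (P : ℝ≥0∞) ^ (2 * n) * a ^ n) +
          1 * (f + (P : ℝ≥0∞) ^ (2 * n) * a ^ n) := by
          gcongr
          · exact le_add_left (le_mul_of_one_le_left zero_le hP2)
          · rw [one_mul]; exact le_self_add
      _ = B := by rw [hB]; ring
  have b2 : vB n * 2 ^ n * ((P : ℝ≥0∞) ^ (2 * n) * a ^ n) ≤ B := by
    rw [hB]
    gcongr
    · exact le_self_add
    · exact le_add_self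
  calc _ ≤ 4 * (l : ℝ≥0∞) ^ (n - 2) * (C₂ * (vB n * 2 ^ n * (r : ℝ≥0∞) ^ n * (l : ℝ≥0∞) ^ 2)) +
        2 ^ n * (C₂ * B) + (25 ^ n * B + C₃ * B) := by
        gcongr _ * ?_ + _ * ?_ + (?_ + ?_)
        · exact e1
        · exact e2.trans (by gcongr)
        · exact e4.trans (by gcongr)
        · exact e3.trans (by gcongr)
    _ ≤ 4 * C₂ * B + 2 ^ n * (C₂ * B) + (25 ^ n * B + C₃ * B) := by
        gcongr ?_ + _ + _
        calc _ = 4 * C₂ * (vB n * 2 ^ n * ((r : ℝ≥0∞) ^ n * ((l : ℝ≥0∞) ^ (n - 2) * (l : ℝ≥0∞) ^ 2))) := by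
              ring
          _ ≤ _ := by
            rw [← pow_add, Nat.sub_add_cancel (by omega), ← mul_pow]
            gcongr
            exact le_self_add.trans b1
    _ = _ := by rw [hB]; push_cast; ring

end LE

end Pool.Agent.P.MP_28243e_an
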