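import Pool.Agent.P.MP_28243e_an.LE1

/-! Local energy estimate, part two: bounds for the test function. -/

namespace Pool.Agent.P.MP_28243e_an

open Set MeasureTheory Metric Filter Topology ENNReal
open scoped NNReal ContDiff RealInnerProductSpace Classical

namespace LE

variable {n m : ℕ}

/-- pointwise facts valid almost everywhere -/
structure Ae (G k kf h : E n → ℝ≥0∞) (x : E n) : Prop where
  Gm : G x ≤ mq G x
  mt : mq G x < ⊤
  hm : h x ≤ mx h x
  ht : mx h x < ⊤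
  kt : k x < ⊤
  kf : kf x ^ 2 ≤ mq G x ^ (n - 2) * k x
  hk : mq G x ^ (n - 2) * mx h x ^ 2 ≤ k x

variable {Co : ℝ≥0} {U : E n → Mt m n} {v : E n → V m} {G ν k kf h : E n → ℝ≥0∞} {δ : ℝ}
  {x₀ : E n} {r r₁ g P l : ℝ≥0}

theorem ae_all (h8 : StA8) (hn : 3 ≤ n) (hS : Str Co U v G ν k kf h) : ∀ᵐ x, Ae G k kf h x := by
  obtain ⟨C, h8⟩ := h8 n hn
  obtain ⟨p0, p1, -⟩ := h8 G hS.gd
  filter_upwards [le_mq_ae hn hS.gd.meas, p1, le_mx_ae hS.mh, ae_lt_top hS.mk' hS.fink.ne, hS.kfk,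
    hS.hk] with x a1 a2 a3 a4 a5 a6
  refine ⟨a1, a2, a3, ?_, a4, a5, a6⟩
  by_contra ht
  rw [not_lt, top_le_iff] at ht
  rw [ht, Wt, ENNReal.top_pow (by norm_num), ENNReal.mul_top (pow_ne_zero _ (p0 x).ne')] at a6
  exact absurd a4 a6.not_gt

theorem Ae.sa_lt {x : E n} (A : Ae G k kf h x) (hn : 3 ≤ n) (hG : Measurable G) (O : Set (E n)) :
    sa G O x < ⊤ := by
  have h1 : mx (O.indicator G) x ≤ mq G x :=
    (mx_mono (Eventually.of_forall fun y => indicator_le_self _ _ y) x).trans (mx_le_mq hn hG x)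
  exact add_lt_top.2 ⟨A.Gm.trans_lt A.mt, h1.trans_lt A.mt⟩

theorem measurable_sa (hG : Measurable G) {O : Set (E n)} (hO : MeasurableSet O) :
    Measurable (sa G O) := hG.add (measurable_mx (hG.indicator hO))

theorem measurable_sb (hG : Measurable G) (hh : Measurable h) {O : Set (E n)}
    (hO : MeasurableSet O) : Measurable (sb G h O) := (measurable_sa hG hO).add (measurable_mx hh)

theorem measurable_kpsi (hG : Measurable G) (hk : Measurable k) (l : ℝ≥0∞) :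
    Measurable fun x => k x * psi l δ (mq G x) :=
  hk.mul ((measurable_psi _ _).comp (measurable_mq hG))

theorem pow_le_psi (hn : 3 ≤ n) {l M : ℝ≥0∞} (l0 : l ≠ 0) (l1 : l ≠ ⊤) (hM : M ≠ ⊤) (d0 : 0 ≤ δ)
    (d1 : δ ≤ 1) (h : l ≤ 400 * M) : l ^ (n - 2) ≤ 400 ^ (n - 2) * (M ^ (n - 2) * psi l δ M) := by
  rcases le_or_gt M l with h1 | h1
  · rw [psi_of_le d0 l0 l1 h1, mul_one, ← mul_pow]
    gcongr
  · obtain ⟨j, rfl⟩ : ∃ j, n = j + 3 := ⟨n - 3, by omega⟩
    have M0 : M ≠ 0 := (pos_of_gt h1).ne'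
    refine le_trans ?_ (le_mul_of_one_le_left zero_le (one_le_pow₀ (by norm_num)))
    calc l ^ (j + 3 - 2) = l ^ j * l := by rw [← pow_succ]; rfl
      _ ≤ M ^ j * (M * (l / M)) := by
        rw [ENNReal.mul_div_cancel M0 hM]
        gcongr
      _ = M ^ (j + 3 - 2) * (l / M) := by rw [← mul_assoc, ← pow_succ]; rfl
      _ ≤ _ := by
        gcongr
        exact le_psi d0 d1 h1.le

theorem kf_le (hn : 3 ≤ n) {l M a b : ℝ≥0∞} (l0 : l ≠ 0) (l1 : l ≠ ⊤) (hM : M ≠ ⊤) (d0 : 0 ≤ δ)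
    (d1 : δ ≤ 1) (h : l ≤ 400 * M) (hab : a ^ 2 ≤ M ^ (n - 2) * b) :
    l * a ≤ b * psi l δ M + 400 * (l * M ^ (n - 1)) := by
  obtain ⟨j, rfl⟩ : ∃ j, n = j + 2 := ⟨n - 2, by omega⟩
  simp only [Nat.add_sub_cancel, show j + 2 - 1 = j + 1 from rfl] at hab ⊢
  refine le_add_of_sq_le ?_
  rcases le_or_gt M l with h1 | h1
  · rw [psi_of_le d0 l0 l1 h1]
    calc (l * a) ^ 2 = l * l * a ^ 2 := by ring
      _ ≤ l * (400 * M) * (M ^ j * b) := by gcongr
      _ = _ := by ring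
  · have M0 : M ≠ 0 := (pos_of_gt h1).ne'
    calc (l * a) ^ 2 = l * l * a ^ 2 := by ring
      _ ≤ l * (M * (l / M)) * (M ^ j * b) := by
        rw [ENNReal.mul_div_cancel M0 hM]
        gcongr
      _ = b * (l / M) * (1 * (l * M ^ (j + 1))) := by ring
      _ ≤ _ := by
        gcongr
        · exact le_psi d0 d1 h1.le
        · norm_num

theorem low_bound (h4 : StA4) (h8 : StA8) (hn : 3 ≤ n) : ∃ C : ℝ≥0, ∀ {m : ℕ} {Co : ℝ≥0}
    {U : E n → Mt m n} {v : E n → V m} {G ν k kf h : E n → ℝ≥0∞} {δ : ℝ} {x₀ : E n}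
    {r r₁ g P l : ℝ≥0}, Str Co U v G ν k kf h → Su G k δ x₀ r r₁ g P l →
    (l : ℝ≥0∞) * ∫⁻ x in RR x₀ r₁ g, (G x ^ (n - 1) + kf x) ≤ C * ((r : ℝ≥0∞) * l) ^ n := by
  obtain ⟨C, h4⟩ := h4 n hn
  refine ⟨1 + 401 * (vB n * 2 ^ n * C), fun {m Co U v G ν k kf h δ x₀ r r₁ g P l} hS H => ?_⟩
  have hl0 : (l : ℝ≥0∞) ≠ 0 := by exact_mod_cast H.l0.ne'
  have hr : (0 : ℝ) < r := H.r0
  have hn' : (3 : ℝ) ≤ n := by exact_mod_cast hn
  have e : ∀ z : ℝ≥0∞, z ^ ((n : ℝ) - 1) = z ^ (n - 1) := fun z => by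
    rw [← ENNReal.rpow_natCast, Nat.cast_sub (by omega), Nat.cast_one]
  have h1 := (h4 G H.mG).1 x₀ (2 * r) (n - 1) (by positivity) (by linarith) le_rfl
  simp only [e] at h1
  have mm := measurable_mq H.mG
  rw [← lintegral_const_mul' _ _ coe_ne_top]
  calc _ ≤ ∫⁻ x in ball x₀ (2 * (r : ℝ)), l * (G x ^ (n - 1) + kf x) :=
        lintegral_mono_set (H.RO.trans H.OB)
    _ ≤ ∫⁻ x in ball x₀ (2 * (r : ℝ)), (k x * psi l δ (mq G x) + 401 * l * mq G x ^ (n - 1)) := by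
        refine setLIntegral_mono_ae' measurableSet_ball ?_
        filter_upwards [ae_all h8 hn hS] with x A hx
        have := kf_le hn hl0 coe_ne_top A.mt.ne H.d0.le (by linarith [H.d1]) (H.le_mq hx) A.kf
        calc _ = l * G x ^ (n - 1) + l * kf x := by ring
          _ ≤ l * mq G x ^ (n - 1) + (k x * psi l δ (mq G x) + 400 * (l * mq G x ^ (n - 1))) := by
            gcongr
            exact A.Gm
          _ = _ := by ring
    _ ≤ ((r : ℝ≥0∞) * l) ^ n +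
          401 * l * (vB n * 2 ^ n * (r : ℝ≥0∞) ^ n * (C * (l : ℝ≥0∞) ^ (n - 1))) := by
        rw [lintegral_add_left (measurable_kpsi H.mG hS.mk' _),
          lintegral_const_mul _ (by fun_prop), lint_ball_eq (fun x => mq G x ^ (n - 1)) _
            (by positivity), H.volB]
        gcongr
        · exact H.hk
        · refine h1.trans ?_
          gcongr
          exact (gs_anti G x₀ (by linarith)).trans H.up
    _ = _ := by
        obtain ⟨j, rfl⟩ : ∃ j, n = j + 1 := ⟨n - 1, by omega⟩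
        push_cast
        ring

theorem Z_bound (h8 : StA8) (hS : Str Co U v G ν k kf h) (H : Su G k δ x₀ r r₁ g P l) :
    ∫⁻ x in OO x₀ r₁ g, (G x + h x) ≤
      ((2 * (vB n * 2 ^ n) + 400 ^ (n - 2) : ℝ≥0) : ℝ≥0∞) * (l * (r : ℝ≥0∞) ^ n) := by
  have hn := H.hn
  have hl0 : (l : ℝ≥0∞) ≠ 0 := by exact_mod_cast H.l0.ne'
  have h1 := H.int_rpow (p := 1) one_pos (one_lt_q1 hn).le
  simp only [ENNReal.rpow_one] at h1
  have h2 : (l : ℝ≥0∞) ^ (n - 1) * ∫⁻ x in ball x₀ (2 * (r : ℝ)), h x ≤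
      (l : ℝ≥0∞) ^ (n - 1) * ((vB n * 2 ^ n + 400 ^ (n - 2)) * (l * (r : ℝ≥0∞) ^ n)) := by
    rw [← lintegral_const_mul' _ _ (by finiteness)]
    calc _ ≤ ∫⁻ x in ball x₀ (2 * (r : ℝ)),
          ((l : ℝ≥0∞) ^ n + 400 ^ (n - 2) * (k x * psi l δ (mq G x))) := by
          refine setLIntegral_mono_ae' measurableSet_ball ?_
          filter_upwards [ae_all h8 hn hS] with x A hx
          have h3 := pow_le_psi hn hl0 coe_ne_top A.mt.ne H.d0.le (by linarith [H.d1]) (H.le_mq hx)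
          have h5 := A.hk
          obtain ⟨j, rfl⟩ : ∃ j, n = j + 2 := ⟨n - 2, by omega⟩
          simp only [Nat.add_sub_cancel, show j + 2 - 1 = j + 1 from rfl] at h3 h5 ⊢
          rcases le_or_gt (h x) l with h4 | h4
          · refine le_add_right ?_
            rw [pow_succ _ (j + 1)]
            gcongr
          · refine le_add_left ?_
            calc _ = (l : ℝ≥0∞) ^ j * (l * h x) := by ring
              _ ≤ 400 ^ j * (mq G x ^ j * psi l δ (mq G x)) * (mx h x * mx h x) := by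
                gcongr
                · exact h4.le.trans A.hm
                · exact A.hm
              _ = 400 ^ j * (mq G x ^ j * mx h x ^ 2 * psi l δ (mq G x)) := by ring
              _ ≤ _ := by gcongr
      _ ≤ (l : ℝ≥0∞) ^ n * (vB n * 2 ^ n * (r : ℝ≥0∞) ^ n) +
            400 ^ (n - 2) * ((r : ℝ≥0∞) * l) ^ n := by
          rw [lintegral_add_left measurable_const, setLIntegral_const, H.volB,
            lintegral_const_mul _ (measurable_kpsi H.mG hS.mk' _)]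
          gcongr
          exact H.hk
      _ = _ := by
          obtain ⟨j, rfl⟩ : ∃ j, n = j + 1 := ⟨n - 1, by omega⟩
          simp only [Nat.add_sub_cancel]
          ring
  rw [ENNReal.mul_le_mul_iff_right (pow_ne_zero _ hl0) (by finiteness)] at h2
  calc _ ≤ ∫⁻ x in ball x₀ (2 * (r : ℝ)), (G x + h x) := lintegral_mono_set H.OB
    _ ≤ vB n * 2 ^ n * (r : ℝ≥0∞) ^ n * l +
        (vB n * 2 ^ n + 400 ^ (n - 2)) * (l * (r : ℝ≥0∞) ^ n) := by
        rw [lintegral_add_left H.mG]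
        gcongr
    _ = _ := by push_cast; ring

theorem fderiv_le (hS : Str Co U v G ν k kf h) (H : Su G k δ x₀ r r₁ g P l) :
    ∀ᵐ z, z ∈ OO x₀ r₁ g → ‖fderiv ℝ v z‖ₑ ≤ G z + h z := by
  filter_upwards [hS.err] with z hz hO
  have h1 := hz (H.sub (H.OB hO))
  calc ‖fderiv ℝ v z‖ₑ ≤ ‖grad v z‖ₑ := by
        rw [← ofReal_norm, ← ofReal_norm]
        exact ENNReal.ofReal_le_ofReal (norm_fderiv_le_grad v z)
    _ = ‖U z - (U z - grad v z)‖ₑ := by rw [_root_.sub_sub_cancel]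
    _ ≤ ‖U z‖ₑ + ‖U z - grad v z‖ₑ := enorm_sub_le
    _ ≤ _ := by rw [hS.normU]; gcongr

theorem mxZ_le (hG : Measurable G) {O : Set (E n)} (hO : MeasurableSet O) (x : E n) :
    mx (O.indicator fun z => G z + h z) x ≤ sb G h O x := by
  calc _ ≤ mx (fun z => O.indicator G z + h z) x := by
        refine mx_mono (Eventually.of_forall fun z => ?_) x
        by_cases hz : z ∈ O <;> simp [hz]
    _ ≤ mx (O.indicator G) x + mx h x := mx_add (hG.indicator hO) h x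
    _ ≤ _ := by
        unfold sb sa
        gcongr
        exact le_add_self

theorem test_bound (hB : StB) (h8 : StA8) (hn : 3 ≤ n) : ∃ C : ℝ≥0, ∀ η : ℝ≥0, 0 < η → η ≤ 1 / 4 →
    ∃ Y : ℝ≥0, ∀ {m : ℕ} {Co : ℝ≥0}
    {U : E n → Mt m n} {v : E n → V m} {G ν k kf h : E n → ℝ≥0∞} {δ : ℝ} {x₀ : E n}
    {r r₁ g P l : ℝ≥0}, Str Co U v G ν k kf h → Su G k δ x₀ r r₁ g P l →
    (∀ x ∈ RR x₀ r₁ g, ‖v x - bav v x₀ (η * g)‖ₑ ≤
      g * (C * η * sb G h (OO x₀ r₁ g) x + (Y * P ^ (2 * n) * l : ℝ≥0))) ∧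
    ∀ L : ℝ≥0, LipschitzOnWith (C * (L + Y * P ^ (2 * n) * l)) (fun x => v x - bav v x₀ (η * g))
      (RR x₀ r₁ g ∩ {x | sb G h (OO x₀ r₁ g) x ≤ L}) := by
  obtain ⟨C, hB⟩ := hB n hn
  refine ⟨6 * C + 8, fun η η0 η1 => ⟨2 * C * (2 * (vB n * 2 ^ n) + 400 ^ (n - 2)) / η ^ n,
    fun {m Co U v G ν k kf h δ x₀ r r₁ g P l} hS H => ?_⟩⟩
  set O := OO x₀ r₁ g with hO
  set CZ : ℝ≥0 := 2 * (vB n * 2 ^ n) + 400 ^ (n - 2) with hCZ
  set Y₀ : ℝ≥0 := 2 * C * CZ / η ^ n * P ^ (2 * n) * l with hY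
  obtain ⟨b1, b2, -, b4, -⟩ := hB (V m) v O (fun z => G z + h z) isOpen_ball hS.cv.contDiffOn
    (H.mG.add hS.mh) (fderiv_le hS H)
  have hg : (0 : ℝ) < g := H.g0
  have hη : (0 : ℝ) < η := η0
  have hη1 : (η : ℝ) ≤ 1 / 4 := by exact_mod_cast η1
  have ht : (0 : ℝ) < η * g := by positivity
  have ht2 : (η : ℝ) * g ≤ g / 2 := by nlinarith
  have mZ := fun x => mxZ_le (h := h) H.mG (O := O) measurableSet_ball x
  have sup : ∀ x ∈ RR x₀ r₁ g, ‖v x - bav v x₀ (η * g)‖ₑ ≤ g * (2 * C * η * sb G h O x + Y₀) := by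
    intro x hx
    have c1 := b1 x _ ht (H.cball_sub hx ht2)
    have c2 := b2 x x₀ _ ht fun τ hτ => H.cball_sub (by
      have h0 : x₀ ∈ RR x₀ r₁ g := mem_ball_self (by have := r₁.coe_nonneg; linarith)
      exact (convex_ball x₀ _).add_smul_sub_mem hx h0 hτ) ht2
    have c3 := pot_le_mx (fun z => G z + h z) ht (ball_subset_closedBall.trans (H.cball_sub hx ht2))
    have hx' : ‖x - x₀‖ ≤ 2 * r := by
      rw [← dist_eq_norm]; exact (mem_ball.1 (H.OB (H.RO hx))).le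
    have c4 : ENNReal.ofReal (‖x - x₀‖ / (η * g) ^ n) ≤ ((2 * r / (η * g) ^ n : ℝ≥0) : ℝ≥0∞) := by
      rw [← ENNReal.ofReal_coe_nnreal]
      refine ENNReal.ofReal_le_ofReal ?_
      push_cast
      gcongr
    have c5 : C * (2 * r / (η * g) ^ n) * (CZ * (l * r ^ n)) ≤ g * Y₀ := by
      have hP : P ^ (n + 1) ≤ P ^ (2 * n) := pow_le_pow_right₀ H.P1 (by omega)
      calc _ = g * (2 * C * CZ / η ^ n * P ^ (n + 1) * l) := by
            have := H.g0.ne'
            have := η0.ne'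
            rw [H.hP]
            field_simp
            ring
        _ ≤ _ := by rw [hY]; gcongr
    calc _ ≤ ‖v x - bav v x (η * g)‖ₑ + ‖bav v x (η * g) - bav v x₀ (η * g)‖ₑ := by
          rw [← sub_add_sub_cancel (v x) (bav v x (η * g))]
          exact enorm_add_le _ _
      _ ≤ C * (2 * ((η * g : ℝ≥0) : ℝ≥0∞) * sb G h O x) +
          C * ((2 * r / (η * g) ^ n : ℝ≥0) : ℝ≥0∞) * (CZ * (l * (r : ℝ≥0∞) ^ n)) := by
          gcongr ?_ + ?_
          · refine c1.trans ?_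
            gcongr
            refine c3.trans ?_
            rw [← NNReal.coe_mul, ENNReal.ofReal_coe_nnreal]
            gcongr
            exact mZ x
          · refine c2.trans ?_
            gcongr
            exact Z_bound h8 hS H
      _ ≤ C * (2 * ((η * g : ℝ≥0) : ℝ≥0∞) * sb G h O x) + (g * Y₀ : ℝ≥0) := by
          gcongr
          exact_mod_cast c5
      _ = _ := by push_cast; ring
  refine ⟨fun x hx => (sup x hx).trans ?_, fun L => ?_⟩
  · gcongr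
    exact_mod_cast (by nlinarith [zero_le (a := C)] : 2 * C ≤ 6 * C + 8)
  · intro x hx y hy
    rw [edist_eq_enorm_sub, edist_eq_enorm_sub]
    by_cases hd : 2 * ‖x - y‖ ≤ g / 2
    · rw [sub_sub_sub_cancel_right]
      refine (b4 x y (H.cball_sub hx.1 hd)).trans ?_
      calc _ ≤ C * ‖x - y‖ₑ * ((L : ℝ≥0∞) + L) := by
            gcongr
            · exact (mZ x).trans hx.2
            · exact (mZ y).trans hy.2
        _ = ((2 * C * L : ℝ≥0) : ℝ≥0∞) * ‖x - y‖ₑ := by push_cast; ring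
        _ ≤ _ := by
            gcongr
            · nlinarith [zero_le (a := C)]
            · exact le_self_add
    · have hg4 : (g : ℝ≥0∞) ≤ 4 * ‖x - y‖ₑ := by
        rw [← ofReal_norm, ← ENNReal.ofReal_coe_nnreal, ← ENNReal.ofReal_ofNat,
          ← ENNReal.ofReal_mul (by norm_num)]
        exact ENNReal.ofReal_le_ofReal (by linarith)
      have s1 : ∀ z ∈ RR x₀ r₁ g ∩ {x | sb G h O x ≤ L},
          ‖v z - bav v x₀ (η * g)‖ₑ ≤ 4 * ‖x - y‖ₑ * (2 * C * η * L + Y₀) := fun z hz =>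
        (sup z hz.1).trans (by gcongr; exact hz.2)
      calc _ ≤ 4 * ‖x - y‖ₑ * (2 * C * η * L + Y₀) + 4 * ‖x - y‖ₑ * (2 * C * η * L + Y₀) :=
            enorm_sub_le.trans (add_le_add (s1 x hx) (s1 y hy))
        _ = ((16 * η * (C * L) + 8 * Y₀ : ℝ≥0) : ℝ≥0∞) * ‖x - y‖ₑ := by push_cast; ring
        _ ≤ _ := by
            gcongr
            have : 16 * η * (C * L) ≤ 16 * (1 / 4) * (C * L) := by gcongr
            nlinarith [zero_le (a := C * L), zero_le (a := C * Y₀), zero_le (a := L),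
              zero_le (a := Y₀)]

end LE

end Pool.Agent.P.MP_28243e_an
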