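import Pool.Agent.P.MP_28243e_an.LE2

/-! Local energy estimate, part three: the oscillation bound for the test function. -/

namespace Pool.Agent.P.MP_28243e_an

open Set MeasureTheory Metric Filter Topology ENNReal
open scoped NNReal ContDiff RealInnerProductSpace Classical

namespace LE

variable {n m : ℕ}

theorem enorm_sub_bav_le {v : E n → V m} (hv : Continuous v) (c : V m) (x : E n) {t : ℝ}
    (ht : 0 < t) : ‖c - bav v x t‖ₑ ≤ av (fun z => ‖c - v z‖ₑ) x t := by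
  have h0 := vol_ball_pos x ht
  have h1 := vol_ball_ne_top x t
  have hi : IntegrableOn v (ball x t) :=
    (hv.continuousOn.integrableOn_compact (isCompact_closedBall x t)).mono_set
      ball_subset_closedBall
  have e : c - bav v x t = ⨍ z in ball x t, (c - v z) := by
    have hc : IntegrableOn (fun _ => c) (ball x t) := integrableOn_const h1
    rw [bav, setAverage_eq, setAverage_eq, integral_sub hc hi,
      setIntegral_const, smul_sub, smul_smul, inv_mul_cancel₀, one_smul]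
    exact (ENNReal.toReal_pos h0 h1).ne'
  rw [e, setAverage_eq, enorm_smul, av, ENNReal.div_eq_inv_mul]
  gcongr
  · rw [Real.enorm_eq_ofReal (by positivity), measureReal_def,
      ENNReal.ofReal_inv_of_pos (ENNReal.toReal_pos h0 h1), ENNReal.ofReal_toReal h1]
  · exact enorm_integral_le_lintegral_enorm _

theorem osc_bound (hAP : StAP) (hn : 3 ≤ n) (Co η : ℝ≥0) (η0 : 0 < η) (η1 : η ≤ 1 / 4) :
    ∃ Y : ℝ≥0, ∀ {m : ℕ} {U : E n → Mt m n} {v : E n → V m} {G ν k kf h : E n → ℝ≥0∞} {δ : ℝ}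
    {x₀ : E n} {r r₁ g P l : ℝ≥0}, Str Co U v G ν k kf h → Su G k δ x₀ r r₁ g P l →
    ∀ i : ℕ, ∀ x ∈ RR x₀ r₁ g, sb G h (OO x₀ r₁ g) x ≤ 2 ^ i * l →
      ‖v x - bav v x₀ (η * g)‖ₑ ≤ Y * (P : ℝ≥0∞) ^ n * ((r : ℝ≥0∞) * l +
        ((r : ℝ≥0∞) * l) ^ (1 / 2 : ℝ) +
        (i + 1) * 2 ^ ((i : ℝ) * δ / 2) * en G δ l (OO x₀ r₁ g) ^ (1 / (n : ℝ))) := by
  obtain ⟨C, hAP⟩ := hAP n hn
  refine ⟨Co * (2 ^ (n + 1) * (C * ((vB n + 1) * 4 ^ n)) + 192 * 48 ^ n +
    (24 / η) ^ n * 2 ^ (n + 1) * 24 + 4), fun {m U v G ν k kf h δ x₀ r r₁ g P l} hS H i x hx hs => ?_⟩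
  have hl0 : (l : ℝ≥0∞) ≠ 0 := by exact_mod_cast H.l0.ne'
  have hr : (0 : ℝ) < r := H.r0
  have hg : (0 : ℝ) < g := H.g0
  have hη : (0 : ℝ) < η := η0
  have hη1 : (η : ℝ) ≤ 1 / 4 := by exact_mod_cast η1
  have hP : (r : ℝ) = P * g := by exact_mod_cast H.hP
  have hgr : (g : ℝ) ≤ r := H.gr
  have hP1 : (1 : ℝ≥0∞) ≤ (P : ℝ≥0∞) ^ n := one_le_pow₀ (by exact_mod_cast H.P1)
  have ht : (0 : ℝ) < η * g := by positivity
  have ht2 : (η : ℝ) * g ≤ r / 4 := by nlinarith
  have hr4 : (r : ℝ) ≤ 1 / 4 := by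
    have := radius_le hn (by positivity) H.sub
    linarith [norm_nonneg (x₀ - 0)]
  have hx2 : ‖x - x₀‖ < 2 * r := by
    rw [← dist_eq_norm]; exact mem_ball.1 (H.OB (H.RO hx))
  set a : ℝ≥0∞ := (r : ℝ≥0∞) * l with ha
  set w : ℝ≥0∞ := (i + 1) * 2 ^ ((i : ℝ) * δ / 2) * en G δ l (OO x₀ r₁ g) ^ (1 / (n : ℝ)) with hw
  have g3 : gs G x (3 * r) ≤ 4 * l := by
    refine (gs_le_gs hn G (x' := x₀) (r' := r) (K := 2) (by positivity) (by linarith)
      (by linarith)).trans ?_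
    gcongr
    · norm_num
    · exact H.up
  have e1 : (ENNReal.ofReal (3 * r) * gs G x (3 * r)) ^ (1 / 2 : ℝ) ≤ 4 * a ^ (1 / 2 : ℝ) := by
    calc _ ≤ (4 ^ (2 : ℝ) * a) ^ (1 / 2 : ℝ) := by
          gcongr ?_ ^ _
          rw [ENNReal.ofReal_mul (by norm_num), ENNReal.ofReal_coe_nnreal, ENNReal.ofReal_ofNat]
          calc _ ≤ 4 * (r : ℝ≥0∞) * (4 * l) := by gcongr; norm_num
            _ = _ := by rw [ha, ENNReal.rpow_two]; ring
      _ = _ := by
          rw [ENNReal.mul_rpow_of_nonneg _ _ (by norm_num), ← ENNReal.rpow_mul]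
          norm_num
  have e2 : av (pot G (8 * (3 * r))) x₀ (η * g) ≤
      (((24 / η) ^ n * 2 ^ (n + 1) * 24 : ℝ≥0) : ℝ≥0∞) * ((P : ℝ≥0∞) ^ n * a) := by
    have c1 := av_le_av (pot G (8 * (3 * r))) (x := x₀) (x' := x₀) (r := η * g) (r' := 8 * (3 * r))
      (K := (24 / η * P : ℝ≥0)) ht (ball_subset_ball (by linarith))
      (by push_cast; rw [hP]; field_simp; linarith)
    have c2 := av_pot H.mG (T := 8 * (3 * r)) (by positivity) x₀
    have c3 : av G x₀ (2 * (8 * (3 * r))) ≤ l :=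
      (av_le_gq hn H.mG x₀ (by positivity)).trans (H.gq2 (by linarith))
    rw [ENNReal.ofReal_pow (NNReal.coe_nonneg _), ENNReal.ofReal_coe_nnreal] at c1
    rw [show (8 : ℝ) * (3 * r) = ((24 * r : ℝ≥0) : ℝ) by push_cast; ring,
      ENNReal.ofReal_coe_nnreal] at c2
    rw [show (8 : ℝ) * (3 * r) = ((24 * r : ℝ≥0) : ℝ) by push_cast; ring] at c1 c3 ⊢
    calc _ ≤ ((24 / η * P : ℝ≥0) : ℝ≥0∞) ^ n * (2 ^ (n + 1) * ((24 * r : ℝ≥0) : ℝ≥0∞) * l) :=
          c1.trans (by gcongr; exact c2.trans (by gcongr))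
      _ = _ := by
          rw [ha]
          simp only [ENNReal.coe_mul, ENNReal.coe_pow, ENNReal.coe_ofNat]
          ring
  have e3 : pot G (g / 2) x ≤ C * ((vB n + 1) * 4 ^ n) * ((P : ℝ≥0∞) ^ n * (a + w)) := by
    have hK : (1 : ℝ≥0) ≤ (vB n + 1) * (4 * P) ^ n :=
      one_le_mul le_add_self (one_le_pow₀ (one_le_mul (by norm_num) H.P1))
    have c1 := hAP δ H.d0 (by linarith [H.d1]) G x (g / 2) l (en G δ l (OO x₀ r₁ g))
      ((vB n + 1) * (4 * P) ^ n) i H.mG (by positivity) (pos_iff_ne_zero.2 hl0) coe_lt_top hK ?_ ?_ ?_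
    · refine c1.trans ?_
      calc _ ≤ C * (((vB n + 1) * (4 * P) ^ n : ℝ≥0) : ℝ≥0∞) * (a + w) := by
            gcongr
            rw [ha]
            gcongr
            rw [← ENNReal.ofReal_coe_nnreal]
            exact ENNReal.ofReal_le_ofReal (by linarith)
        _ = _ := by push_cast; ring
    · refine (lintegral_mono_set ((H.ball_sub hx).trans H.OB)).trans
        ((H.int_rpow (q1_pos hn) le_rfl).trans ?_)
      rw [show (g : ℝ) / 2 = ((g / 2 : ℝ≥0) : ℝ) by push_cast; ring,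
        ENNReal.ofReal_pow (NNReal.coe_nonneg _), ENNReal.ofReal_coe_nnreal,
        mul_right_comm _ (_ ^ q1 n)]
      gcongr ?_ * _
      have : vB n * 2 ^ n * r ^ n ≤ (vB n + 1) * (4 * P) ^ n * (g / 2) ^ n := by
        rw [mul_assoc, mul_assoc, ← mul_pow, ← mul_pow, H.hP]
        gcongr ?_ * ?_ ^ n
        · exact le_self_add
        · apply le_of_eq; ring
      exact_mod_cast this
    · calc _ ≤ mx ((OO x₀ r₁ g).indicator G) x :=
            mx_mono (Eventually.of_forall fun y =>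
              indicator_le_indicator_of_subset (H.ball_sub hx) (fun _ => zero_le) y) x
        _ ≤ 2 ^ i * l := le_trans (le_add_self.trans le_self_add) hs
        _ ≤ _ := le_mul_of_one_le_left zero_le (by exact_mod_cast hK)
    · rw [← lintegral_const_mul' _ _ (by simp [hl0])]
      calc _ = ∫⁻ y in ball x (g / 2) ∩ {y | (l : ℝ≥0∞) < G y}, Phi n l δ 0 (G y) := by
            refine setLIntegral_congr_fun
              (measurableSet_ball.inter (measurableSet_lt measurable_const H.mG)) fun y hy => ?_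
            exact (Phi_big hn H.d0.le (H.fG y) hy.2).symm
        _ ≤ _ := lintegral_mono_set (inter_subset_left.trans (H.ball_sub hx))
  have e4 : pot G (8 * (3 * r)) x ≤ 2 ^ (n + 1) * (C * ((vB n + 1) * 4 ^ n)) *
      ((P : ℝ≥0∞) ^ n * (a + w)) + 192 * 48 ^ n * ((P : ℝ≥0∞) ^ n * a) := by
    refine (pot_le_pot G (t := g / 2) (by positivity) (by linarith) x).trans ?_
    have c3 : av G x (8 * (3 * r)) ≤ 4 * l :=
      (av_le_gq hn H.mG x (by positivity)).trans ((gq_le_gs G x (by linarith)).trans g3)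
    have c4 : ENNReal.ofReal (8 * (3 * r) * (8 * (3 * r) / (g / 2)) ^ n) =
        ((24 * r * (48 * P) ^ n : ℝ≥0) : ℝ≥0∞) := by
      rw [← ENNReal.ofReal_coe_nnreal]
      congr 1
      push_cast
      have : 8 * (3 * (r : ℝ)) / (g / 2) = 48 * P := by rw [hP]; field_simp; ring
      rw [this]; ring
    rw [c4, mul_assoc (2 ^ (n + 1))]
    gcongr ?_ + ?_
    · gcongr
    · calc _ ≤ 2 * ((24 * r * (48 * P) ^ n : ℝ≥0) : ℝ≥0∞) * (4 * l) := by gcongr
        _ = _ := by rw [ha]; push_cast; ring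
  have mp := measurable_pot H.mG (8 * (3 * (r : ℝ)))
  calc _ ≤ av (fun z => ‖v x - v z‖ₑ) x₀ (η * g) := enorm_sub_bav_le hS.cv.continuous _ _ ht
    _ ≤ av (fun z => Co * (pot G (8 * (3 * r)) z +
          (pot G (8 * (3 * r)) x + 4 * a ^ (1 / 2 : ℝ)))) x₀ (η * g) := by
        refine av_mono fun z hz => ?_
        have hz' : ‖z - x₀‖ < η * g := by rw [← dist_eq_norm]; exact hz
        refine (hS.osc x (H.sub (H.OB (H.RO hx))) z (H.sub (ball_subset_ball (by linarith) hz))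
          (3 * r) (by positivity) (by linarith) ?_).trans ?_
        · have := norm_sub_le_norm_sub_add_norm_sub x x₀ z
          rw [norm_sub_rev x₀ z] at this
          linarith
        · rw [add_comm (pot G _ x), add_assoc]
          gcongr
    _ ≤ Co * ((((24 / η) ^ n * 2 ^ (n + 1) * 24 : ℝ≥0) : ℝ≥0∞) * ((P : ℝ≥0∞) ^ n * a) +
          (pot G (8 * (3 * r)) x + 4 * a ^ (1 / 2 : ℝ))) := by
        rw [av_const_mul (by fun_prop), av_add mp]
        gcongr
        exact av_le_const (Eventually.of_forall fun _ _ => le_rfl)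
    _ ≤ Co * ((((24 / η) ^ n * 2 ^ (n + 1) * 24 : ℝ≥0) : ℝ≥0∞) *
          ((P : ℝ≥0∞) ^ n * (a + a ^ (1 / 2 : ℝ) + w)) +
          (2 ^ (n + 1) * (C * ((vB n + 1) * 4 ^ n)) * ((P : ℝ≥0∞) ^ n * (a + a ^ (1 / 2 : ℝ) + w)) +
            192 * 48 ^ n * ((P : ℝ≥0∞) ^ n * (a + a ^ (1 / 2 : ℝ) + w)) +
            4 * ((P : ℝ≥0∞) ^ n * (a + a ^ (1 / 2 : ℝ) + w)))) := by
        have b1 : a ≤ a + a ^ (1 / 2 : ℝ) + w := le_add_right le_self_add
        gcongr _ * (_ * (_ * ?_) + (?_ + _ * ?_))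
        · refine e4.trans ?_
          gcongr
          exact le_self_add
        · exact (le_add_right le_add_self).trans (le_mul_of_one_le_left zero_le hP1)
    _ = _ := by
        simp only [ENNReal.coe_mul, ENNReal.coe_pow, ENNReal.coe_ofNat, ENNReal.coe_add,
          ENNReal.coe_one]
        ring

theorem nu_term (hn : 3 ≤ n) {a f w P : ℝ≥0∞} {A₀ : ℝ≥0} (hA : a ≤ A₀) (hw : 1 ≤ w) (hP : 1 ≤ P) :
    P ^ n * (a + a ^ (1 / 2 : ℝ) + w * f ^ (1 / (n : ℝ))) * a ^ q1 n ≤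
      3 * (A₀ + 1) * w * (f + P ^ (2 * n) * a ^ n) := by
  have hn' : (3 : ℝ) ≤ n := by exact_mod_cast hn
  have h1 : a ^ (1 / 2 : ℝ) ≤ A₀ + 1 := by
    rcases le_total a 1 with h | h
    · exact le_add_left (ENNReal.rpow_le_one h (by norm_num))
    · refine le_add_right (le_trans ?_ hA)
      calc _ ≤ a ^ (1 : ℝ) := ENNReal.rpow_le_rpow_of_exponent_le h (by norm_num)
        _ = a := by simp
  have h2 : a ^ q1 n = a ^ (1 / 2 : ℝ) * a ^ (n - 1) := by
    rw [← ENNReal.rpow_natCast, ← ENNReal.rpow_add_of_nonneg _ _ (by norm_num) (by positivity),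
      Nat.cast_sub (by omega), q1]
    congr 1
    push_cast
    ring
  have h3 : a ^ (1 / 2 : ℝ) * a ^ (1 / 2 : ℝ) = a := by
    rw [← ENNReal.rpow_add_of_nonneg _ _ (by norm_num) (by norm_num)]
    norm_num
  have h4 : (f ^ (1 / (n : ℝ))) ^ n = f := by
    rw [one_div, ENNReal.rpow_inv_natCast_pow (by omega)]
  generalize f ^ (1 / (n : ℝ)) = u at h4
  generalize a ^ (1 / 2 : ℝ) = b at h1 h2 h3
  rw [h2, ← h4]
  have hPn : 1 ≤ P ^ n := one_le_pow₀ hP
  have hA1 : (1 : ℝ≥0∞) ≤ A₀ + 1 := le_add_self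
  rw [two_mul n, pow_add]
  generalize P ^ n = Q at hPn
  obtain ⟨j, rfl⟩ : ∃ j, n = j + 2 := ⟨n - 2, by omega⟩
  simp only [show j + 2 - 1 = j + 1 from rfl]
  have h5 : Q * u * a ^ (j + 1) ≤ u ^ (j + 2) + Q * Q * a ^ (j + 2) := by
    rcases le_total u (Q * a) with h | h
    · refine le_add_left ?_
      calc _ ≤ Q * (Q * a) * a ^ (j + 1) := by gcongr
        _ = _ := by ring
    · refine le_add_right ?_
      calc _ = Q * a * u * a ^ j := by ring
        _ ≤ u * u * u ^ j := by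
          gcongr
          exact (le_mul_of_one_le_left zero_le hPn).trans h
        _ = _ := by ring
  have h6 : Q * a ^ (j + 2) ≤ w * (u ^ (j + 2) + Q * Q * a ^ (j + 2)) := by
    refine le_trans ?_ (le_mul_of_one_le_left zero_le hw)
    refine le_add_left ?_
    gcongr
    exact le_mul_of_one_le_left zero_le hPn
  calc _ = b * (Q * a ^ (j + 2)) + Q * (b * b * a ^ (j + 1)) + b * (w * (Q * u * a ^ (j + 1))) := by
        ring
    _ ≤ (A₀ + 1) * (w * (u ^ (j + 2) + Q * Q * a ^ (j + 2))) +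
        (A₀ + 1) * (w * (u ^ (j + 2) + Q * Q * a ^ (j + 2))) +
        (A₀ + 1) * (w * (u ^ (j + 2) + Q * Q * a ^ (j + 2))) := by
        gcongr ?_ + ?_ + ?_
        · gcongr
        · rw [h3, ← pow_succ']
          exact h6.trans (le_mul_of_one_le_left zero_le hA1)
        · gcongr
    _ = _ := by ring

end LE

end Pool.Agent.P.MP_28243e_an
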