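import Pool.Agent.P.MP_28243e_an.LE3

/-! Local energy estimate, part four: the truncated test at one level. -/

namespace Pool.Agent.P.MP_28243e_an

open Set MeasureTheory Metric Filter Topology ENNReal
open scoped NNReal ContDiff RealInnerProductSpace Classical

namespace LE

variable {n m : ℕ}

theorem lint_le {Γ : Set (E n)} {A I D : E n → ℝ} (hI : IntegrableOn I Γ) (hD : Measurable D)
    (A0 : ∀ x, 0 ≤ A x) (D0 : ∀ x, 0 ≤ D x) (h : ∀ x, A x ≤ I x + D x) :
    ∫⁻ x in Γ, ENNReal.ofReal (A x) ≤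
      ENNReal.ofReal (∫ x in Γ, I x) + ∫⁻ x in Γ, ENNReal.ofReal (D x) := by
  by_cases ht : ∫⁻ x in Γ, ENNReal.ofReal (D x) = ⊤
  · simp [ht]
  have hD' : IntegrableOn D Γ := ⟨hD.aestronglyMeasurable,
    (hasFiniteIntegral_iff_ofReal (Eventually.of_forall D0)).2 (lt_top_iff_ne_top.2 ht)⟩
  calc _ ≤ ∫⁻ x in Γ, ENNReal.ofReal (I x + D x) :=
        lintegral_mono fun x => ENNReal.ofReal_le_ofReal (h x)
    _ = ENNReal.ofReal (∫ x in Γ, (I x + D x)) :=
        (ofReal_integral_eq_lintegral_ofReal (hI.add hD')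
          (Eventually.of_forall fun x => (A0 x).trans (h x))).symm
    _ ≤ _ := by
        rw [integral_add hI hD', ← ofReal_integral_eq_lintegral_ofReal hD' (Eventually.of_forall D0)]
        exact ENNReal.ofReal_add_le

theorem norm_sig (hn : 3 ≤ n) (A : Mt m n) : ‖sig n A‖ = ‖A‖ ^ (n - 1) := by
  obtain ⟨j, rfl⟩ : ∃ j, n = j + 2 := ⟨n - 2, by omega⟩
  rw [sig, norm_smul, norm_pow, norm_norm, ← pow_succ]
  rfl

theorem pointwise (hn : 3 ≤ n) (A B T : Mt m n) {p : ℝ} (p0 : 0 ≤ p) (p1 : p ≤ 1) :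
    p * ‖A‖ ^ n ≤ ⟪sig n A - 0, p • B + T⟫ + ‖A‖ ^ (n - 1) * (‖A - B‖ + ‖T‖) := by
  have h1 : ⟪sig n A, p • A⟫ = p * ‖A‖ ^ n := by
    obtain ⟨j, rfl⟩ : ∃ j, n = j + 2 := ⟨n - 2, by omega⟩
    rw [sig, real_inner_smul_left, real_inner_smul_right, real_inner_self_eq_norm_sq,
      Nat.add_sub_cancel]
    ring
  have h2 : p • A = (p • B + T) + (p • (A - B) - T) := by rw [smul_sub]; abel
  rw [← h1, h2, inner_add_right, sub_zero, ← norm_sig hn]
  gcongr
  refine (real_inner_le_norm _ _).trans ?_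
  gcongr
  refine (norm_sub_le _ _).trans ?_
  rw [norm_smul, Real.norm_of_nonneg p0]
  gcongr
  exact mul_le_of_le_one_left (norm_nonneg _) p1

theorem level (hLT : StLT) (h8 : StA8) (hn : 3 ≤ n) (m : ℕ) (C : ℝ≥0) : ∃ K : ℝ≥0,
    ∀ {Co : ℝ≥0} {U : E n → Mt m n} {v : E n → V m} {G ν k kf h : E n → ℝ≥0∞} {δ : ℝ}
    {x₀ : E n} {r r₁ g P l : ℝ≥0}, Str Co U v G ν k kf h → Su G k δ x₀ r r₁ g P l →
    ∀ (c : V m) (η Y L : ℝ≥0) (b : ℝ≥0∞), η ≤ 1 →
    (∀ x ∈ RR x₀ r₁ g, ‖v x - c‖ₑ ≤ g * (C * η * sb G h (OO x₀ r₁ g) x + Y)) →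
    LipschitzOnWith (C * (L + Y)) (fun x => v x - c)
      (RR x₀ r₁ g ∩ {x | sb G h (OO x₀ r₁ g) x ≤ L}) →
    (∀ x ∈ RR x₀ r₁ g, sb G h (OO x₀ r₁ g) x ≤ L → ‖v x - c‖ₑ ≤ b) →
    ∫⁻ x in ball x₀ r₁ ∩ {x | sb G h (OO x₀ r₁ g) x ≤ L}, G x ^ n ≤
      K * b * (∫⁻ x in RR x₀ r₁ g, ν x) +
      (∫⁻ x in RR x₀ r₁ g ∩ {x | sb G h (OO x₀ r₁ g) x ≤ L}, (G x ^ (n - 1) * h x +
        K * η * (G x ^ (n - 1) * sb G h (OO x₀ r₁ g) x) + K * (kf x * sb G h (OO x₀ r₁ g) x))) +
      K * (L * ∫⁻ x in RR x₀ r₁ g \ (RR x₀ r₁ g ∩ {x | sb G h (OO x₀ r₁ g) x ≤ L}),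
        (G x ^ (n - 1) + kf x)) +
      K * (Y * ∫⁻ x in RR x₀ r₁ g, (G x ^ (n - 1) + kf x)) := by
  obtain ⟨C₁, hLT⟩ := hLT n m hn
  obtain ⟨C₂, -, hc⟩ := exists_cut_bound
  refine ⟨C₁ + 1 + 2 * C₂ * C + C₁ * (C + 2 * C₂ * C) + 2 * C₂ + C₁ * (C + 2 * C₂),
    fun {Co U v G ν k kf h δ x₀ r r₁ g P l} hS H c η Y L b η1 hs hL hb => ?_⟩
  set K : ℝ≥0 := C₁ + 1 + 2 * C₂ * C + C₁ * (C + 2 * C₂ * C) + 2 * C₂ + C₁ * (C + 2 * C₂) with hK
  set R := RR x₀ r₁ g with hR
  set s := sb G h (OO x₀ r₁ g) with hsd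
  set Γ := R ∩ {x | s x ≤ L} with hΓ
  have hg : (0 : ℝ) < g := H.g0
  have hr₁ : (0 : ℝ) < r₁ := H.r0.trans_le H.h1
  have h12 : (r₁ : ℝ) < r₁ + g / 2 := by linarith
  have ms : Measurable s := measurable_sb H.mG hS.mh measurableSet_ball
  have mR : MeasurableSet R := measurableSet_ball
  have mΓ : MeasurableSet Γ := mR.inter (measurableSet_le ms measurable_const)
  obtain ⟨c1, c2⟩ := hc n x₀ r₁ (r₁ + g / 2) hr₁ h12
  set π := cut x₀ (r₁ : ℝ) (r₁ + g / 2) with hπ
  have eL : ((C₂ : ℝ) / (r₁ + g / 2 - r₁)) = ((2 * C₂ / g : ℝ≥0) : ℝ) := by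
    push_cast; rw [add_sub_cancel_left]; field_simp
  rw [eL, Real.toNNReal_coe] at c2
  rw [eL] at c1
  set Lπ : ℝ≥0 := 2 * C₂ / g with hLπ
  have gL : (Lπ : ℝ≥0∞) * g = 2 * C₂ := by
    have : Lπ * g = 2 * C₂ := div_mul_cancel₀ _ H.g0.ne'
    exact_mod_cast this
  set b₁ : ℝ≥0 := g * (C * η * L + Y) with hb₁
  set b₀ : ℝ≥0 := (min (b₁ : ℝ≥0∞) b).toNNReal with hb₀
  have eb : (b₀ : ℝ≥0∞) = min (b₁ : ℝ≥0∞) b :=
    ENNReal.coe_toNNReal (ne_top_of_le_ne_top coe_ne_top (min_le_left _ _))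
  have dv : Differentiable ℝ v := hS.cv.differentiable one_ne_zero
  have eg : ∀ x, grad (fun x => v x - c) x = grad v x := fun x => by
    rw [grad_sub (dv x) (differentiableAt_const c), grad_const, sub_zero]
  have hRB : R ⊆ ball 0 (1 / 2) := H.RO.trans (H.OB.trans H.sub)
  obtain ⟨i1, i2⟩ := hLT Co U v G ν k kf h hS (fun x => v x - c) π R Γ (fun _ => 0) (fun _ => 0)
    (C * (L + Y)) b₀ Lπ 0 mR mΓ inter_subset_left (hRB.trans (ball_subset_ball (by norm_num)))
    ((cut_contDiff _ _ _).of_le (by exact_mod_cast le_top))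
    (fun x => by rw [abs_of_nonneg (cut_nonneg _ _ _ _)]; exact cut_le_one _ _ _ _) c2
    ((tsupport_cut hr₁ h12).trans ((closedBall_subset_ball (by linarith)).trans
      (H.OB.trans H.sub)))
    (fun x hx => by
      have hx' : (r₁ : ℝ) + g / 2 ≤ ‖x - x₀‖ := by
        rw [← dist_eq_norm]; exact not_lt.1 hx
      refine ⟨cut_eq_zero hr₁ h12 hx', ?_⟩
      rw [← norm_eq_zero, norm_gradient, fderiv_cut_eq_zero hr₁ h12 (Or.inr hx'), norm_zero])
    measurable_const (fun _ _ => by simp) measurable_const (fun _ _ _ _ _ => by simp) hL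
    (fun x hx => by
      have : ‖v x - c‖ₑ ≤ b₀ := by
        rw [eb]
        refine le_min ((hs x hx.1).trans ?_) (hb x hx.1 hx.2)
        rw [hb₁]
        push_cast
        gcongr
        exact hx.2
      exact_mod_cast (show ‖v x - c‖₊ ≤ b₀ from ENNReal.coe_le_coe.1 this))
    (fun x _ => (dv x).sub_const c)
  simp only [eg, add_zero] at i1 i2
  have mξ : Measurable fun x => tens (v x - c) (gradient π x) :=
    continuous_tens.measurable.comp
      ((hS.cv.continuous.measurable.sub_const c).prodMk (measurable_gradient π))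
  have i3 := lint_le (A := fun x => π x * ‖U x‖ ^ n) (D := fun x => ‖U x‖ ^ (n - 1) *
      (‖U x - grad v x‖ + ‖tens (v x - c) (gradient π x)‖)) i1
    ((hS.mU.norm.pow_const _).mul ((hS.mU.sub (measurable_grad v)).norm.add mξ.norm))
    (fun x => mul_nonneg (cut_nonneg _ _ _ _) (by positivity)) (fun x => by positivity)
    fun x => pointwise hn _ _ _ (cut_nonneg _ _ _ _) (cut_le_one _ _ _ _)
  have t1 : ∀ x ∈ R, ‖tens (v x - c) (gradient π x)‖ₑ ≤ 2 * C₂ * (C * η * s x + Y) := by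
    intro x hx
    calc _ = ‖v x - c‖ₑ * ‖gradient π x‖ₑ := by
          rw [← ofReal_norm, norm_tens, ENNReal.ofReal_mul (norm_nonneg _), ofReal_norm, ofReal_norm]
      _ ≤ g * (C * η * s x + Y) * Lπ := by
          gcongr
          · exact hs x hx
          · rw [← ofReal_norm, ← ENNReal.ofReal_coe_nnreal, norm_gradient]
            exact ENNReal.ofReal_le_ofReal (c1 x)
      _ = _ := by rw [← gL]; ring
  have mG1 : Measurable fun x => G x ^ (n - 1) + kf x := (H.mG.pow_const _).add hS.mkf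
  set J := ∫⁻ x in Γ, (G x ^ (n - 1) * h x + K * η * (G x ^ (n - 1) * s x) + K * (kf x * s x))
  set J₁ := ∫⁻ x in R \ Γ, (G x ^ (n - 1) + kf x)
  set J₂ := ∫⁻ x in R, (G x ^ (n - 1) + kf x)
  have k1 : (∫⁻ x in Γ, kf x * ‖π x • grad v x + tens (v x - c) (gradient π x)‖ₑ) +
      ∫⁻ x in Γ, ENNReal.ofReal (‖U x‖ ^ (n - 1) *
        (‖U x - grad v x‖ + ‖tens (v x - c) (gradient π x)‖)) ≤ J + 2 * C₂ * (Y * J₂) := by
    have mπ : Measurable π := (cut_contDiff _ _ _).continuous.measurable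
    have mq : Measurable fun x => kf x * ‖π x • grad v x + tens (v x - c) (gradient π x)‖ₑ :=
      hS.mkf.mul (Measurable.enorm ((mπ.smul (measurable_grad v)).add mξ))
    rw [← lintegral_add_left mq]
    calc _ ≤ ∫⁻ x in Γ, ((G x ^ (n - 1) * h x + K * η * (G x ^ (n - 1) * s x) + K * (kf x * s x)) +
          2 * C₂ * (Y * (G x ^ (n - 1) + kf x))) := by
          refine setLIntegral_mono_ae' mΓ ?_
          filter_upwards [ae_all h8 hn hS, hS.err] with x A he hx
          have e1 := he (hRB hx.1)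
          have e2 : ‖π x • grad v x‖ₑ ≤ s x := by
            calc _ ≤ ‖grad v x‖ₑ := by
                  rw [← ofReal_norm, ← ofReal_norm, norm_smul,
                    Real.norm_of_nonneg (cut_nonneg _ _ _ _)]
                  exact ENNReal.ofReal_le_ofReal
                    (mul_le_of_le_one_left (norm_nonneg _) (cut_le_one _ _ _ _))
              _ = ‖U x - (U x - grad v x)‖ₑ := by rw [_root_.sub_sub_cancel]
              _ ≤ G x + mx h x := by
                  refine enorm_sub_le.trans ?_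
                  rw [hS.normU]
                  gcongr
                  exact e1.trans A.hm
              _ ≤ _ := by
                  rw [hsd, sb, sa]
                  gcongr
                  exact le_self_add
          rw [ENNReal.ofReal_mul (by positivity), ENNReal.ofReal_pow (norm_nonneg _),
            ENNReal.ofReal_add (norm_nonneg _) (norm_nonneg _), ofReal_norm, ofReal_norm,
            ofReal_norm, hS.normU]
          have η1' : (η : ℝ≥0∞) ≤ 1 := by exact_mod_cast η1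
          have K1 : (2 * C₂ * C : ℝ≥0∞) ≤ K := by
            have : 2 * C₂ * C ≤ K := by
              rw [hK]; exact le_add_right (le_add_right (le_add_right le_add_self))
            exact_mod_cast this
          have K2 : (1 + 2 * C₂ * C : ℝ≥0∞) ≤ K := by
            have : 1 + 2 * C₂ * C ≤ K := by
              rw [hK, add_assoc C₁]; exact le_add_right (le_add_right (le_add_right le_add_self))
            exact_mod_cast this
          calc _ ≤ kf x * (s x + 2 * C₂ * (C * 1 * s x + Y)) +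
                G x ^ (n - 1) * (h x + 2 * C₂ * (C * η * s x + Y)) := by
                gcongr
                · refine (enorm_add_le _ _).trans (add_le_add e2 ((t1 x hx.1).trans ?_))
                  gcongr
                · exact t1 x hx.1
            _ = (G x ^ (n - 1) * h x + (2 * C₂ * C) * η * (G x ^ (n - 1) * s x) +
                (1 + 2 * C₂ * C) * (kf x * s x)) + 2 * C₂ * (Y * (G x ^ (n - 1) + kf x)) := by ring
            _ ≤ _ := by gcongr
      _ ≤ _ := by
          rw [lintegral_add_right _ (by fun_prop), lintegral_const_mul _ (by fun_prop),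
            lintegral_const_mul _ mG1]
          gcongr
          exact lintegral_mono_set inter_subset_left
  have k2 : ∫⁻ x in R \ Γ, (‖sig n (U x) - 0‖ₑ + kf x) = J₁ := by
    refine lintegral_congr fun x => ?_
    rw [sub_zero, ← ofReal_norm, norm_sig hn, ENNReal.ofReal_pow (norm_nonneg _), ofReal_norm,
      hS.normU]
  have k3 : (((C * (L + Y) : ℝ≥0) : ℝ≥0∞) + Lπ * b₀) ≤ (C + 2 * C₂ * C) * L + (C + 2 * C₂) * Y := by
    have η1' : (η : ℝ≥0∞) ≤ 1 := by exact_mod_cast η1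
    calc _ ≤ ((C * (L + Y) : ℝ≥0) : ℝ≥0∞) + Lπ * (g * (C * 1 * L + Y)) := by
          gcongr
          rw [eb]
          refine (min_le_left _ _).trans ?_
          rw [hb₁]
          push_cast
          gcongr
      _ = _ := by rw [← mul_assoc, gL]; push_cast; ring
  have J12 : J₁ ≤ J₂ := lintegral_mono_set sdiff_subset
  rw [k2] at i2
  calc _ = ∫⁻ x in ball x₀ r₁ ∩ {x | s x ≤ L}, ENNReal.ofReal (π x * ‖U x‖ ^ n) := by
        refine setLIntegral_congr_fun
          (measurableSet_ball.inter (measurableSet_le ms measurable_const)) fun x hx => ?_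
        have : π x = 1 := cut_eq_one hr₁ h12 (by rw [← dist_eq_norm]; exact (mem_ball.1 hx.1).le)
        simp only [this, one_mul]
        rw [ENNReal.ofReal_pow (norm_nonneg _), ofReal_norm, hS.normU]
    _ ≤ ∫⁻ x in Γ, ENNReal.ofReal (π x * ‖U x‖ ^ n) :=
        lintegral_mono_set (inter_subset_inter_left _ (ball_subset_ball h12.le))
    _ ≤ C₁ * b₀ * (∫⁻ x in R, ν x) + (J + 2 * C₂ * (Y * J₂)) +
        C₁ * ((C + 2 * C₂ * C) * L + (C + 2 * C₂) * Y) * J₁ := by
        refine i3.trans ((add_le_add_left i2 _).trans ?_)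
        rw [add_right_comm, add_assoc ((C₁ : ℝ≥0∞) * b₀ * _)]
        gcongr
    _ = C₁ * b₀ * (∫⁻ x in R, ν x) + J + C₁ * (C + 2 * C₂ * C) * (L * J₁) +
        (2 * C₂ * (Y * J₂) + C₁ * (C + 2 * C₂) * (Y * J₁)) := by ring
    _ ≤ K * b * (∫⁻ x in R, ν x) + J + K * (L * J₁) +
        (2 * C₂ * (Y * J₂) + C₁ * (C + 2 * C₂) * (Y * J₂)) := by
        gcongr
        · rw [hK]; exact le_add_right (le_add_right (le_add_right (le_add_right le_self_add)))
        · rw [eb]; exact min_le_right _ _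
        · have : C₁ * (C + 2 * C₂ * C) ≤ K := by
            rw [hK]; exact le_add_right (le_add_right le_add_self)
          exact_mod_cast this
    _ ≤ _ := by
        rw [← add_mul]
        gcongr
        have : 2 * C₂ + C₁ * (C + 2 * C₂) ≤ K := by
          rw [hK, add_assoc _ (2 * C₂)]; exact le_add_self
        exact_mod_cast this

end LE

end Pool.Agent.P.MP_28243e_an
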