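import Pool.Agent.P.MP_28243e_an.Basic

/-! Mollifiers. -/

namespace Pool.Agent.P.MP_28243e_an

open Set MeasureTheory Metric Filter Topology ENNReal
open scoped NNReal ContDiff RealInnerProductSpace Classical Convolution

variable {n m : ℕ}

namespace M

/-- The normalised kernel. -/
noncomputable def ker (n : ℕ) (t : ℝ) : E n → ℝ := (bump n t).normed volume

theorem mol_eq (t : ℝ) (f : E n → ℝ) (x : E n) : mol t f x = ∫ y, ker n t (x - y) * f y := rfl

theorem bump_rOut {t : ℝ} (ht : 0 < t) : (bump n t).rOut = t := by simp [bump, ht]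

theorem bump_rIn {t : ℝ} (ht : 0 < t) : (bump n t).rIn = t / 2 := by simp [bump, ht]

theorem bump_scale {t : ℝ} (ht : 0 < t) (z : E n) : bump n t z = bump n 1 (t⁻¹ • z) := by
  rw [ContDiffBump.apply, ContDiffBump.apply, bump_rOut ht, bump_rIn ht, bump_rOut one_pos,
    bump_rIn one_pos, sub_zero, sub_zero, smul_smul]
  have h1 : t / (t / 2) = 1 / (1 / 2) := by field_simp
  have h2 : (t / 2)⁻¹ = (1 / 2 : ℝ)⁻¹ * t⁻¹ := by field_simp
  rw [h1, h2]

theorem ker_contDiff (t : ℝ) : ContDiff ℝ ∞ (ker n t) := (bump n t).contDiff_normed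

theorem ker_contDiff_one (t : ℝ) : ContDiff ℝ 1 (ker n t) := (bump n t).contDiff_normed (n := 1)

theorem ker_compact (t : ℝ) : HasCompactSupport (ker n t) := (bump n t).hasCompactSupport_normed

theorem ker_nonneg (t : ℝ) (z : E n) : 0 ≤ ker n t z := (bump n t).nonneg_normed z

theorem ker_zero {t : ℝ} (ht : 0 < t) {x y : E n} (h : y ∉ ball x t) : ker n t (x - y) = 0 := by
  by_contra h0
  have h1 : x - y ∈ Function.support (ker n t) := h0
  rw [ker, (bump n t).support_normed_eq, bump_rOut ht, mem_ball_zero_iff] at h1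
  exact h (by rwa [mem_ball, dist_comm, dist_eq_norm])

theorem fderiv_ker_zero {t : ℝ} (ht : 0 < t) {x y : E n} (h : y ∉ ball x t) :
    fderiv ℝ (ker n t) (x - y) = 0 := by
  refine IsLocalMin.fderiv_eq_zero (Eventually.of_forall fun z => ?_)
  rw [ker_zero ht h]
  exact ker_nonneg t z

theorem vol_closed (hn : 3 ≤ n) (t : ℝ) :
    volume.real (closedBall (0 : E n) t) = volume.real (ball (0 : E n) t) := by
  have : Nontrivial (E n) := Module.nontrivial_of_finrank_pos (R := ℝ) (by simp; omega)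
  unfold Measure.real
  rw [Measure.addHaar_closedBall_eq_addHaar_ball]

theorem vol_real_pos {t : ℝ} (ht : 0 < t) : 0 < volume.real (ball (0 : E n) t) :=
  ENNReal.toReal_pos (measure_ball_pos _ _ ht).ne' measure_ball_lt_top.ne

theorem ker_le (hn : 3 ≤ n) {t : ℝ} (ht : 0 < t) (z : E n) :
    ker n t z ≤ 2 ^ n / volume.real (ball (0 : E n) t) := by
  have h := (bump n t).normed_le_div_measure_closedBall_rOut volume 2
    (by rw [bump_rOut ht, bump_rIn ht]; linarith) z
  rwa [bump_rOut ht, vol_closed hn, finrank_euclideanSpace_fin] at h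

theorem fderiv_ker_le (hn : 3 ≤ n) : ∃ B : ℝ, 0 ≤ B ∧ ∀ t : ℝ, 0 < t → ∀ z : E n,
    ‖fderiv ℝ (ker n t) z‖ ≤ B / t / volume.real (ball (0 : E n) t) := by
  have hc : ContDiff ℝ 1 (bump n 1) := (bump n 1).contDiff (n := 1)
  obtain ⟨B, hB⟩ := ((bump n 1).hasCompactSupport.fderiv ℝ).exists_bound_of_continuous
    (hc.continuous_fderiv one_ne_zero)
  have hB0 : 0 ≤ B := (norm_nonneg _).trans (hB 0)
  refine ⟨2 ^ n * B, by positivity, fun t ht z => ?_⟩
  have hI := (bump n t).measure_closedBall_div_le_integral volume 2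
    (by rw [bump_rOut ht, bump_rIn ht]; linarith)
  rw [bump_rOut ht, vol_closed hn, finrank_euclideanSpace_fin] at hI
  have hI0 := (bump n t).integral_pos (μ := volume)
  have hv := vol_real_pos (n := n) ht
  set I := ∫ x, bump n t x with hIdef
  have h1 : HasFDerivAt (fun z : E n => t⁻¹ • z) (t⁻¹ • ContinuousLinearMap.id ℝ (E n)) z :=
    (hasFDerivAt_id z).const_smul t⁻¹
  have h2 := (((hc.differentiable one_ne_zero) (t⁻¹ • z)).hasFDerivAt.comp z h1).const_smul I⁻¹
  have h3 : ker n t = I⁻¹ • ((bump n 1 : E n → ℝ) ∘ fun z : E n => t⁻¹ • z) := by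
    ext y
    simp only [ker, ContDiffBump.normed_def, Pi.smul_apply, Function.comp, smul_eq_mul,
      ← bump_scale ht, ← hIdef]
    rw [div_eq_inv_mul]
  rw [h3, h2.fderiv, norm_smul]
  have h4 : ‖(fderiv ℝ (bump n 1) (t⁻¹ • z)).comp (t⁻¹ • ContinuousLinearMap.id ℝ (E n))‖
      ≤ B * t⁻¹ := by
    refine (ContinuousLinearMap.opNorm_comp_le _ _).trans
      (mul_le_mul (hB _) ?_ (norm_nonneg _) hB0)
    rw [norm_smul, Real.norm_of_nonneg (by positivity)]
    exact mul_le_of_le_one_right (by positivity) ContinuousLinearMap.norm_id_le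
  have h5 : ‖I⁻¹‖ ≤ 2 ^ n / volume.real (ball (0 : E n) t) := by
    rw [Real.norm_of_nonneg (by positivity), ← inv_div]
    exact inv_anti₀ (by positivity) hI
  refine (mul_le_mul h5 h4 (norm_nonneg _) (by positivity)).trans (le_of_eq ?_)
  field_simp

/-- Integrals against a bounded kernel supported in a ball. -/
theorem enorm_int_le {X : Type} [NormedAddCommGroup X] [NormedSpace ℝ X] {G : E n → X}
    {g : E n → ℝ≥0∞} {x : E n} {t A : ℝ} (ht : 0 < t) (_hA : 0 ≤ A)
    (h0 : ∀ y, y ∉ ball x t → G y = 0)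
    (h1 : ∀ y, ‖G y‖ₑ ≤ ENNReal.ofReal (A / volume.real (ball (0 : E n) t)) * g y) :
    ‖∫ y, G y‖ₑ ≤ ENNReal.ofReal A * av g x t := by
  rw [← setIntegral_eq_integral_of_forall_compl_eq_zero h0]
  refine (enorm_integral_le_lintegral_enorm _).trans ((lintegral_mono h1).trans (le_of_eq ?_))
  rw [lintegral_const_mul' _ _ ENNReal.ofReal_ne_top, ENNReal.ofReal_div_of_pos (vol_real_pos ht),
    Measure.real, ENNReal.ofReal_toReal measure_ball_lt_top.ne, av, Measure.addHaar_ball_center volume x,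
    div_eq_mul_inv, div_eq_mul_inv]
  ring

theorem enorm_mol_le (hn : 3 ≤ n) {t : ℝ} (ht : 0 < t) (f : E n → ℝ) {g : E n → ℝ≥0∞}
    (h : ∀ y, ‖f y‖ₑ ≤ g y) (x : E n) : ‖mol t f x‖ₑ ≤ ENNReal.ofReal (2 ^ n) * av g x t := by
  rw [mol_eq]
  refine enorm_int_le ht (by positivity) (fun y hy => by rw [ker_zero ht hy, zero_mul])
    fun y => ?_
  rw [enorm_mul, Real.enorm_of_nonneg (ker_nonneg t _)]
  exact mul_le_mul' (ENNReal.ofReal_le_ofReal (ker_le hn ht _)) (h y)

theorem mol_conv (t : ℝ) (f : E n → ℝ) :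
    mol t f = f ⋆[ContinuousLinearMap.lsmul ℝ ℝ, volume] ker n t := by
  ext x
  rw [mol_eq, convolution_lsmul]
  simp only [smul_eq_mul, mul_comm]

theorem fderiv_mol {f : E n → ℝ} (hf : LocallyIntegrable f volume) (t : ℝ) (x : E n) :
    fderiv ℝ (mol t f) x = ∫ y, f y • fderiv ℝ (ker n t) (x - y) := by
  rw [mol_conv, ((ker_compact t).hasFDerivAt_convolution_right _ hf (ker_contDiff_one t) x).fderiv,
    convolution_def]
  rfl

theorem pd_mol {f : E n → ℝ} (hf : LocallyIntegrable f volume) (t : ℝ) (α : Fin n) (x : E n) :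
    pd (mol t f) α x = ∫ y, f y * fderiv ℝ (ker n t) (x - y) (EuclideanSpace.single α 1) := by
  rw [pd, mol_conv,
    ((ker_compact t).hasFDerivAt_convolution_right _ hf (ker_contDiff_one t) x).fderiv,
    convolution_precompR_apply _ hf ((ker_compact t).fderiv ℝ)
      ((ker_contDiff_one t).continuous_fderiv one_ne_zero), convolution_lsmul]
  rfl

theorem refl_contDiff (t : ℝ) (x : E n) : ContDiff ℝ ∞ fun y => ker n t (x - y) :=
  (ker_contDiff t).comp (contDiff_const.sub contDiff_id)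

theorem refl_tsupport {t : ℝ} (ht : 0 < t) (x : E n) :
    tsupport (fun y => ker n t (x - y)) ⊆ closedBall x t := by
  refine closure_minimal (fun y hy => ?_) isClosed_closedBall
  by_contra h
  exact hy (ker_zero ht fun h' => h (ball_subset_closedBall h'))

theorem refl_compact {t : ℝ} (ht : 0 < t) (x : E n) :
    HasCompactSupport fun y => ker n t (x - y) :=
  (isCompact_closedBall x t).of_isClosed_subset (isClosed_tsupport _) (refl_tsupport ht x)

theorem fderiv_refl (t : ℝ) (x y v : E n) :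
    fderiv ℝ (fun y => ker n t (x - y)) y v = -fderiv ℝ (ker n t) (x - y) v := by
  have h1 : HasFDerivAt (fun y : E n => x - y) (-ContinuousLinearMap.id ℝ (E n)) y :=
    (hasFDerivAt_id y).const_sub x
  have h2 := (((ker_contDiff_one t).differentiable one_ne_zero) (x - y)).hasFDerivAt.comp y h1
  have h3 : (fun y => ker n t (x - y)) = ker n t ∘ fun y : E n => x - y := rfl
  rw [h3, h2.fderiv]
  simp

theorem enorm_clm_le (L : E n →L[ℝ] ℝ) : ‖L‖ₑ ≤ ∑ α, ‖L (EuclideanSpace.single α 1)‖ₑ := by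
  have h : ‖L‖ ≤ ∑ α, ‖L (EuclideanSpace.single α 1)‖ := by
    refine L.opNorm_le_bound (Finset.sum_nonneg fun _ _ => norm_nonneg _) fun v => ?_
    have h1 : L v = ∑ α, v α * L (EuclideanSpace.single α 1) := by
      conv_lhs => rw [← (EuclideanSpace.basisFun (Fin n) ℝ).sum_repr v]
      simp
    rw [h1, Finset.sum_mul]
    refine (norm_sum_le _ _).trans (Finset.sum_le_sum fun α _ => ?_)
    rw [norm_mul, mul_comm]
    exact mul_le_mul_of_nonneg_left (PiLp.norm_apply_le v α) (norm_nonneg _)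
  simp only [← ofReal_norm]
  rw [← ENNReal.ofReal_sum_of_nonneg fun _ _ => norm_nonneg _]
  exact ENNReal.ofReal_le_ofReal h

theorem enorm_fderiv_le (hn : 3 ≤ n) {t : ℝ} (ht : 0 < t) {F : E n → ℝ} {x : E n}
    (h : Fin n → E n → ℝ) (hF : ∀ α, pd F α x = mol t (h α) x) {g : E n → ℝ≥0∞}
    (hg : ∀ α y, ‖h α y‖ₑ ≤ g y) :
    ‖fderiv ℝ F x‖ₑ ≤ ENNReal.ofReal (n * 2 ^ n) * av g x t := by
  refine (enorm_clm_le _).trans ?_
  have h1 : ∀ α ∈ (Finset.univ : Finset (Fin n)),
      ‖fderiv ℝ F x (EuclideanSpace.single α 1)‖ₑ ≤ ENNReal.ofReal (2 ^ n) * av g x t := by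
    intro α _
    have h2 := enorm_mol_le hn ht (h α) (hg α) x
    rwa [← hF α] at h2
  refine (Finset.sum_le_card_nsmul _ _ _ h1).trans (le_of_eq ?_)
  rw [Finset.card_univ, Fintype.card_fin, nsmul_eq_mul, ENNReal.ofReal_mul (by positivity),
    ENNReal.ofReal_natCast, mul_assoc]

theorem enorm_pd_le (f : E n → ℝ) (α : Fin n) (y : E n) : ‖pd f α y‖ₑ ≤ ‖fderiv ℝ f y‖ₑ := by
  have h : ‖pd f α y‖ ≤ ‖fderiv ℝ f y‖ := by
    have h1 := (fderiv ℝ f y).le_opNorm (EuclideanSpace.single α 1)
    rwa [PiLp.norm_single, norm_one, mul_one] at h1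
  simp only [← ofReal_norm]
  exact ENNReal.ofReal_le_ofReal h

theorem pd_mol_c1 {f : E n → ℝ} (hf : ContDiff ℝ 1 f) {t : ℝ} (ht : 0 < t) (α : Fin n)
    (x : E n) : pd (mol t f) α x = mol t (pd f α) x := by
  have hψ : ContDiff ℝ 1 fun y => ker n t (x - y) := (refl_contDiff t x).of_le (by norm_cast)
  have hc := refl_compact (n := n) ht x
  have h1 : Continuous fun y => fderiv ℝ f y (EuclideanSpace.single α 1) :=
    (hf.continuous_fderiv one_ne_zero).clm_apply continuous_const
  have h2 : Continuous fun y => fderiv ℝ (fun y => ker n t (x - y)) y (EuclideanSpace.single α 1) :=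
    (hψ.continuous_fderiv one_ne_zero).clm_apply continuous_const
  have h := integral_mul_fderiv_eq_neg_fderiv_mul_of_integrable (μ := volume) (f := f)
    (g := fun y => ker n t (x - y)) (v := EuclideanSpace.single α 1)
    ((h1.mul hψ.continuous).integrable_of_hasCompactSupport hc.mul_left)
    ((hf.continuous.mul h2).integrable_of_hasCompactSupport (hc.fderiv_apply ℝ _).mul_left)
    ((hf.continuous.mul hψ.continuous).integrable_of_hasCompactSupport hc.mul_left)
    (fun y _ => hf.differentiable one_ne_zero y) (fun y _ => hψ.differentiable one_ne_zero y)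
  simp only [fderiv_refl, mul_neg, integral_neg, neg_inj] at h
  rw [pd_mol hf.continuous.locallyIntegrable, h, mol_eq]
  simp only [pd, mul_comm]

theorem pd_mol_lip {f : E n → ℝ} {K : ℝ≥0} (hf : LipschitzWith K f) {t : ℝ} (ht : 0 < t)
    (α : Fin n) (x : E n) : pd (mol t f) α x = mol t (pd f α) x := by
  have hψ : ContDiff ℝ 1 fun y => ker n t (x - y) := (refl_contDiff t x).of_le (by norm_cast)
  have hc := refl_compact (n := n) ht x
  obtain ⟨D, hD⟩ := hψ.lipschitzWith_of_hasCompactSupport hc one_ne_zero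
  have h := hf.integral_lineDeriv_mul_eq (μ := volume) hD hc (EuclideanSpace.single α 1)
  have h1 : ∀ y, lineDeriv ℝ (fun y => ker n t (x - y)) y (-EuclideanSpace.single α 1) =
      fderiv ℝ (ker n t) (x - y) (EuclideanSpace.single α 1) := by
    intro y
    rw [(hψ.differentiable one_ne_zero y).lineDeriv_eq_fderiv, fderiv_refl, map_neg, neg_neg]
  simp only [h1] at h
  rw [pd_mol hf.continuous.locallyIntegrable, mol_eq]
  simp only [mul_comm (f _)]
  rw [← h]
  refine integral_congr_ae ?_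
  filter_upwards [hf.ae_differentiableAt (μ := volume)] with y hy
  rw [hy.lineDeriv_eq_fderiv, mul_comm, pd]

theorem pd_mol_wg {O : Set (E n)} (hO : MeasurableSet O) {f : E n → ℝ} {g : E n → E n}
    (h : WG O f g) {t : ℝ} (ht : 0 < t) {x : E n} (hx : closedBall x t ⊆ O) (α : Fin n) :
    pd (mol t (O.indicator f)) α x = mol t (O.indicator fun y => g y α) x := by
  have h1 := h.2.2 (fun y => ker n t (x - y))
    ⟨refl_contDiff t x, refl_compact ht x, (refl_tsupport ht x).trans hx⟩ α
  simp only [pd, fderiv_refl, mul_neg, integral_neg, neg_inj] at h1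
  rw [pd_mol ((integrable_indicator_iff hO).2 h.1).locallyIntegrable, mol_eq]
  have e1 : ∀ (u v : E n → ℝ), ∫ y, O.indicator u y * v y = ∫ y in O, u y * v y := by
    intro u v
    rw [← integral_indicator hO]
    refine integral_congr_ae (Eventually.of_forall fun y => ?_)
    by_cases hy : y ∈ O <;> simp [hy]
  simp only [mul_comm (ker n t _)]
  rw [e1, e1, h1]

theorem mol_sub_const {f : E n → ℝ} (hf : LocallyIntegrable f volume) {t : ℝ} (ht : 0 < t)
    (x : E n) (c : ℝ) : mol t f x - c = mol t (fun y => f y - c) x := by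
  have hψ := (refl_contDiff t x).continuous
  have hc := refl_compact (n := n) ht x
  have h1 : Integrable fun y => ker n t (x - y) * f y :=
    hf.integrable_smul_left_of_hasCompactSupport hψ hc
  have h2 : Integrable fun y => ker n t (x - y) * c :=
    (hψ.integrable_of_hasCompactSupport hc).mul_const c
  have h3 : ∫ y, ker n t (x - y) = 1 := by
    rw [integral_sub_left_eq_self (ker n t) volume x]
    exact (bump n t).integral_normed
  rw [mol_eq, mol_eq]
  simp only [mul_sub]
  rw [integral_sub h1 h2, integral_mul_const, h3, one_mul]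

theorem rho_nat_pos (j : ℕ) : 0 < rho j := zpow_pos two_pos _

theorem rho_tendsto : Tendsto (fun j : ℕ => rho j) atTop (𝓝 0) := by
  refine (tendsto_pow_atTop_nhds_zero_of_lt_one (r := (2 : ℝ)⁻¹) (by norm_num)
    (by norm_num)).congr fun j => ?_
  rw [rho, zpow_neg, zpow_natCast, inv_pow]

theorem ae_mol {f : E n → ℝ} (hf : LocallyIntegrable f volume) :
    ∀ᵐ x, Tendsto (fun j : ℕ => mol (rho j) f x) atTop (𝓝 (f x)) := by
  have h := ContDiffBump.ae_convolution_tendsto_right_of_locallyIntegrable (μ := volume)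
    (φ := fun j : ℕ => bump n (rho j)) (l := atTop) (K := 2)
    (rho_tendsto.congr fun j => (bump_rOut (rho_nat_pos j)).symm)
    (Eventually.of_forall fun j => by
      rw [bump_rOut (rho_nat_pos j), bump_rIn (rho_nat_pos j)]; linarith) hf
  filter_upwards [h] with x hx
  refine hx.congr fun j => ?_
  rw [convolution_lsmul_swap]
  rfl

end M

open M in
theorem stM : StM := by
  intro n hn
  obtain ⟨B, hB0, hB⟩ := fderiv_ker_le hn
  have hn0 : (0 : ℝ) ≤ n * 2 ^ n := by positivity
  have h2n : (0 : ℝ) ≤ 2 ^ n := by positivity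
  let C : ℝ≥0 := ⟨2 ^ n + B + n * 2 ^ n, by positivity⟩
  have hC : ∀ A : ℝ, A ≤ 2 ^ n + B + n * 2 ^ n → ENNReal.ofReal A ≤ C := fun A hA => by
    rw [← ENNReal.ofReal_coe_nnreal]
    exact ENNReal.ofReal_le_ofReal hA
  refine ⟨C, fun f => ⟨fun hf => ⟨fun t ht => ⟨?_, fun x => ⟨fun c => ?_, ?_⟩⟩, ae_mol hf⟩,
    fun hf t ht x => ?_, fun O g hO h t ht x hx => ⟨pd_mol_wg hO h ht hx, ?_⟩⟩⟩
  · rw [mol_conv]
    exact (ker_compact t).contDiff_convolution_right _ hf (ker_contDiff t)
  · rw [mol_sub_const hf ht]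
    exact (enorm_mol_le hn ht _ (fun _ => le_rfl) x).trans
      (mul_le_mul_left (hC _ (by linarith)) _)
  · rw [fderiv_mol hf]
    have h1 : ‖∫ y, f y • fderiv ℝ (ker n t) (x - y)‖ₑ ≤
        ENNReal.ofReal (B / t) * av (fun y => ‖f y‖ₑ) x t := by
      refine enorm_int_le ht (by positivity)
        (fun y hy => by rw [fderiv_ker_zero ht hy, smul_zero]) fun y => ?_
      rw [enorm_smul, mul_comm, ← ofReal_norm]
      exact mul_le_mul_left (ENNReal.ofReal_le_ofReal (hB t ht _)) _
    refine h1.trans ?_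
    rw [ENNReal.ofReal_div_of_pos ht, div_eq_mul_inv, div_eq_mul_inv, mul_right_comm]
    exact mul_le_mul_left (mul_le_mul_left (hC _ (by linarith)) _) _
  · have h1 : ∀ α, pd (mol t f) α x = mol t (pd f α) x := by
      intro α
      rcases hf with hf | ⟨K, hf⟩
      · exact pd_mol_c1 hf ht α x
      · exact pd_mol_lip hf ht α x
    exact ⟨h1, (enorm_fderiv_le hn ht _ h1 (enorm_pd_le f)).trans
      (mul_le_mul_left (hC _ (by linarith)) _)⟩
  · refine (enorm_fderiv_le hn ht _ (pd_mol_wg hO h ht hx) fun α y => ?_).trans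
      (mul_le_mul_left (hC _ (by linarith)) _)
    by_cases hy : y ∈ O
    · rw [indicator_of_mem hy, indicator_of_mem hy]
      simp only [← ofReal_norm]
      exact ENNReal.ofReal_le_ofReal (PiLp.norm_apply_le (g y) α)
    · rw [indicator_of_notMem hy, indicator_of_notMem hy, enorm_zero]

namespace M

theorem lint_conv {B : Set (E n)} {ν : E n → ℝ≥0∞} (hν : Measurable ν)
    (hfin : ∫⁻ x in B, ν x < ⊤) {F : ℕ → E n → ℝ≥0∞} {G : E n → ℝ≥0∞} {A : ℝ≥0}
    (hm : ∀ j, Measurable (F j)) (h0 : ∀ j x, x ∉ B → F j x = 0) (h0' : ∀ x, x ∉ B → G x = 0)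
    (hA : ∀ j x, F j x ≤ A) (hlim : ∀ᵐ x, Tendsto (fun j => F j x) atTop (𝓝 (G x))) :
    Tendsto (fun j => ∫⁻ x, ν x * F j x) atTop (𝓝 (∫⁻ x, ν x * G x)) := by
  have e : ∀ u : E n → ℝ≥0∞, (∀ x, x ∉ B → u x = 0) →
      ∫⁻ x, ν x * u x = ∫⁻ x in B, ν x * u x := by
    intro u hu
    refine (setLIntegral_eq_of_support_subset fun x hx => ?_).symm
    by_contra h
    exact hx (by simp only [hu x h, mul_zero])
  rw [e G h0']
  simp only [fun j => e (F j) (h0 j)]
  refine tendsto_lintegral_of_dominated_convergence (fun x => ν x * A)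
    (fun j => hν.mul (hm j)) (fun j => Eventually.of_forall fun x => mul_le_mul_right (hA j x) _)
    ?_ ?_
  · rw [lintegral_mul_const _ hν]
    exact ENNReal.mul_ne_top hfin.ne ENNReal.coe_ne_top
  · filter_upwards [ae_restrict_of_ae hlim, ae_lt_top hν hfin.ne] with x hx hx'
    exact ENNReal.Tendsto.const_mul hx (Or.inr hx'.ne)

theorem norm_le_of_coord {ι : Type} [Fintype ι] (v : EuclideanSpace ℝ ι) {a : ℝ}
    (h : ∀ i, ‖v i‖ ≤ a) : ‖v‖ ≤ Fintype.card ι * a := by
  have h1 : v = ∑ i, EuclideanSpace.single i (v i) := by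
    ext i
    simp [Pi.single_apply]
  calc ‖v‖ = ‖∑ i, EuclideanSpace.single i (v i)‖ := by rw [← h1]
    _ ≤ ∑ i, ‖EuclideanSpace.single i (v i)‖ := norm_sum_le _ _
    _ ≤ ∑ _i : ι, a := Finset.sum_le_sum fun i _ => by
        rw [PiLp.norm_single]
        exact h i
    _ = Fintype.card ι * a := by simp

theorem norm_mol_le (hn : 3 ≤ n) {t : ℝ} (ht : 0 < t) {f : E n → ℝ} {a : ℝ} (ha : 0 ≤ a)
    (h : ∀ y, ‖f y‖ ≤ a) (x : E n) : ‖mol t f x‖ ≤ 2 ^ n * a := by
  have h1 := enorm_mol_le hn ht f (g := fun _ => ENNReal.ofReal a)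
    (fun y => by rw [← ofReal_norm]; exact ENNReal.ofReal_le_ofReal (h y)) x
  have h2 : av (fun _ : E n => ENNReal.ofReal a) x t ≤ ENNReal.ofReal a :=
    av_le_const (Eventually.of_forall fun _ _ => le_rfl)
  have h3 := h1.trans (mul_le_mul_right h2 _)
  rwa [← ofReal_norm, ← ENNReal.ofReal_mul (by positivity),
    ENNReal.ofReal_le_ofReal_iff (by positivity)] at h3

theorem grad_apply {φ : E n → V m} {x : E n} (h : DifferentiableAt ℝ φ x) (p : Fin m × Fin n) :
    grad φ x p = pd (fun z => φ z p.1) p.2 x := by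
  have h1 := (EuclideanSpace.proj (𝕜 := ℝ) p.1).hasFDerivAt.comp x h.hasFDerivAt
  have h2 : (fun z => φ z p.1) = (EuclideanSpace.proj (𝕜 := ℝ) p.1) ∘ φ := rfl
  rw [pd, h2, h1.fderiv]
  rfl

end M

open M in
theorem stEXT (_h1 : StM) : StEXT := by
  intro n m hn S ν kf hS hν hkf hνf hkff h φ K hφ hsupp
  have hK : IsCompact (tsupport φ) :=
    (isCompact_closedBall (0 : E n) (1 / 2)).of_isClosed_subset (isClosed_tsupport _)
      (hsupp.trans ball_subset_closedBall)
  obtain ⟨δ, hδ, hδB⟩ := hK.exists_cthickening_subset_open isOpen_ball hsupp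
  obtain ⟨j0, hj0⟩ := eventually_atTop.1 (rho_tendsto.eventually (gt_mem_nhds hδ))
  obtain ⟨b, hb⟩ := HasCompactSupport.exists_bound_of_continuous hK hφ.continuous
  have hb0 : 0 ≤ b := (norm_nonneg _).trans (hb 0)
  have hφi : ∀ i, LipschitzWith K fun x => φ x i := fun i =>
    LipschitzWith.of_dist_le_mul fun x y =>
      (PiLp.dist_apply_le (φ x) (φ y) i).trans (hφ.dist_le_mul x y)
  have hpd : ∀ i α y, ‖pd (fun x => φ x i) α y‖ ≤ K := by
    intro i α y
    have h1 := (fderiv ℝ (fun x => φ x i) y).le_opNorm (EuclideanSpace.single α 1)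
    rw [PiLp.norm_single, norm_one, mul_one] at h1
    exact h1.trans (norm_fderiv_le_of_lipschitz ℝ (hφi i))
  have hpdi : ∀ i α, LocallyIntegrable (pd (fun x => φ x i) α) volume := by
    intro i α
    have h1 : Measurable (pd (fun x => φ x i) α) := measurable_fderiv_apply_const ℝ _ _
    exact (memLp_top_of_bound h1.aestronglyMeasurable K
      (Eventually.of_forall (hpd i α))).locallyIntegrable le_top
  let t : ℕ → ℝ := fun j => rho (j + j0 : ℕ)
  have ht : ∀ j, 0 < t j := fun j => rho_nat_pos _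
  let ψ : ℕ → E n → V m := fun j x => WithLp.toLp 2 fun i => mol (t j) (fun x => φ x i) x
  have hsm : ∀ j i, ContDiff ℝ ∞ fun x => ψ j x i := by
    intro j i
    change ContDiff ℝ ∞ (mol (t j) fun x => φ x i)
    rw [mol_conv]
    exact (ker_compact _).contDiff_convolution_right _ (hφi i).continuous.locallyIntegrable
      (ker_contDiff _)
  have hsm' : ∀ j, ContDiff ℝ ∞ (ψ j) := fun j => contDiff_euclidean.2 (hsm j)
  have hz : ∀ j x, x ∉ cthickening δ (tsupport φ) → ψ j x = 0 := by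
    intro j x hx
    ext i
    change mol (t j) (fun x => φ x i) x = 0
    rw [mol_eq]
    refine integral_eq_zero_of_ae (Eventually.of_forall fun y => ?_)
    by_cases hy : y ∈ ball x (t j)
    · have h1 : y ∉ tsupport φ := fun h1 => hx (mem_cthickening_of_dist_le x y δ _ h1 (by
        rw [dist_comm]
        exact (mem_ball.1 hy).le.trans (hj0 _ (Nat.le_add_left _ _)).le))
      simp [image_eq_zero_of_notMem_tsupport h1]
    · simp [ker_zero (ht j) hy]
  have hts : ∀ j, tsupport (ψ j) ⊆ cthickening δ (tsupport φ) := fun j =>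
    closure_minimal (fun x hx => by_contra fun h' => hx (hz j x h')) isClosed_cthickening
  have htest : ∀ j i, IsTest (ball 0 (1 / 2)) fun x => ψ j x i := by
    intro j i
    have h1 : tsupport (fun x => ψ j x i) ⊆ cthickening δ (tsupport φ) :=
      closure_minimal (fun x hx => by_contra fun h' => hx (by simp [hz j x h']))
        isClosed_cthickening
    exact ⟨hsm j i, hK.cthickening.of_isClosed_subset (isClosed_tsupport _) h1, h1.trans hδB⟩
  have hgr : ∀ j x p, grad (ψ j) x p = mol (t j) (pd (fun x => φ x p.1) p.2) x := by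
    intro j x p
    rw [grad_apply ((hsm' j).differentiable (by simp) x)]
    exact pd_mol_lip (hφi p.1) (ht j) p.2 x
  have hb1 : ∀ j x, ‖ψ j x‖ ≤ Fintype.card (Fin m) * (2 ^ n * b) := fun j x =>
    norm_le_of_coord _ fun i => norm_mol_le hn (ht j) hb0
      (fun y => (PiLp.norm_apply_le (φ y) i).trans (hb y)) x
  have hb2 : ∀ j x, ‖grad (ψ j) x‖ ≤ Fintype.card (Fin m × Fin n) * (2 ^ n * K) := fun j x =>
    norm_le_of_coord _ fun p => by
      rw [hgr]
      exact norm_mol_le hn (ht j) K.2 (hpd p.1 p.2) x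
  have hl1 : ∀ᵐ x, Tendsto (fun j => ψ j x) atTop (𝓝 (φ x)) := by
    filter_upwards [ae_all_iff.2 fun i => ae_mol (hφi i).continuous.locallyIntegrable] with x hx
    exact ((PiLp.continuous_toLp 2 _).tendsto _).comp
      (tendsto_pi_nhds.2 fun i => (hx i).comp (tendsto_add_atTop_nat j0))
  have hl2 : ∀ᵐ x, Tendsto (fun j => grad (ψ j) x) atTop (𝓝 (grad φ x)) := by
    filter_upwards [ae_all_iff.2 fun p : Fin m × Fin n => ae_mol (hpdi p.1 p.2),
      hφ.ae_differentiableAt (μ := volume)] with x hx hd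
    have h1 : Tendsto (fun j => (grad (ψ j) x).ofLp) atTop (𝓝 (grad φ x).ofLp) := by
      refine tendsto_pi_nhds.2 fun p => ?_
      simp only [hgr, grad_apply hd]
      exact (hx p).comp (tendsto_add_atTop_nat j0)
    exact ((PiLp.continuous_toLp 2 _).tendsto _).comp h1
  have hg0 : ∀ j x, x ∉ ball (0 : E n) (1 / 2) → grad (ψ j) x = 0 := fun j x hx =>
    grad_eq_zero_of_notMem fun h' => hx (hδB (hts j h'))
  have hg0' : ∀ x, x ∉ ball (0 : E n) (1 / 2) → grad φ x = 0 := fun x hx =>
    grad_eq_zero_of_notMem fun h' => hx (hsupp h')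
  have hL : Tendsto (fun j => ∫ x, ⟪S x, grad (ψ j) x⟫) atTop (𝓝 (∫ x, ⟪S x, grad φ x⟫)) := by
    have e : ∀ u : E n → Mt m n, (∀ x, x ∉ ball (0 : E n) (1 / 2) → u x = 0) →
        ∫ x, ⟪S x, u x⟫ = ∫ x in ball (0 : E n) (1 / 2), ⟪S x, u x⟫ := fun u hu =>
      (setIntegral_eq_integral_of_forall_compl_eq_zero fun x hx => by
        rw [hu x hx, inner_zero_right]).symm
    rw [e _ hg0']
    simp only [fun j => e _ (hg0 j)]
    refine tendsto_integral_of_dominated_convergence
      (fun x => ‖S x‖ * (Fintype.card (Fin m × Fin n) * (2 ^ n * K)))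
      (fun j => hS.1.inner (measurable_grad _).aestronglyMeasurable) (hS.norm.mul_const _)
      (fun j => Eventually.of_forall fun x => (norm_inner_le_norm _ _).trans
        (mul_le_mul_of_nonneg_left (hb2 j x) (norm_nonneg _))) ?_
    filter_upwards [ae_restrict_of_ae hl2] with x hx
    exact tendsto_const_nhds.inner hx
  have hR1 := lint_conv hν hνf (F := fun j x => ‖ψ j x‖ₑ) (G := fun x => ‖φ x‖ₑ)
    (A := ⟨Fintype.card (Fin m) * (2 ^ n * b), by positivity⟩)
    (fun j => (hsm' j).continuous.measurable.enorm)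
    (fun j x hx => by rw [hz j x fun h' => hx (hδB h'), enorm_zero])
    (fun x hx => by rw [image_eq_zero_of_notMem_tsupport fun h' => hx (hsupp h'), enorm_zero])
    (fun j x => ENNReal.coe_le_coe.2 (hb1 j x))
    (hl1.mono fun x hx => (continuous_enorm.tendsto _).comp hx)
  have hR2 := lint_conv hkf hkff (F := fun j x => ‖grad (ψ j) x‖ₑ) (G := fun x => ‖grad φ x‖ₑ)
    (A := ⟨Fintype.card (Fin m × Fin n) * (2 ^ n * K), by positivity⟩)
    (fun j => (measurable_grad _).enorm)
    (fun j x hx => by rw [hg0 j x hx, enorm_zero])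
    (fun x hx => by rw [hg0' x hx, enorm_zero])
    (fun j x => ENNReal.coe_le_coe.2 (hb2 j x))
    (hl2.mono fun x hx => (continuous_enorm.tendsto _).comp hx)
  exact le_of_tendsto_of_tendsto' ((continuous_enorm.tendsto _).comp hL) (hR1.add hR2)
    fun j => h (ψ j) (htest j)

end Pool.Agent.P.MP_28243e_an
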