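import Pool.Agent.P.MP_28243e_an.ST1

/-! Integral bounds for the structure theorem. -/

namespace Pool.Agent.P.MP_28243e_an.ST

open Set MeasureTheory Metric Filter Topology ENNReal
open scoped NNReal ContDiff RealInnerProductSpace Classical

variable {n m : ℕ}

theorem bound_e {W w θ om : E n → ℝ≥0∞} {B : Set (E n)} (hB : MeasurableSet B) {a : ℝ≥0∞}
    (hwW : ∀ᵐ x, w x ≤ W x) (hen : ∫⁻ x in B, w x * θ x ^ 2 ≤ ∫⁻ x in B, w x * om x ^ 2)
    (ha : ∫⁻ x in B, W x * om x ^ 2 ≤ a) :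
    ∫⁻ x in B, w x * θ x ^ 2 ≤ a ∧
      ∫⁻ x, (B.indicator (fun x => w x * θ x) x) ^ 2 / W x ≤ a := by
  have h1 : ∫⁻ x in B, w x * θ x ^ 2 ≤ a := by
    refine hen.trans (le_trans (lintegral_mono_ae (ae_restrict_of_ae ?_)) ha)
    filter_upwards [hwW] with x hx
    gcongr
  refine ⟨h1, le_trans ?_ h1⟩
  rw [← lintegral_indicator hB]
  refine lintegral_mono_ae ?_
  filter_upwards [hwW] with x hx
  by_cases hxB : x ∈ B
  · simp only [indicator_of_mem hxB]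
    refine ENNReal.div_le_of_le_mul ?_
    calc (w x * θ x) ^ 2 = w x * θ x ^ 2 * w x := by ring
      _ ≤ _ := by gcongr
  · simp [indicator_of_notMem hxB]

theorem bound_g {W w θ om : E n → ℝ≥0∞} {B : Set (E n)} (hB : MeasurableSet B) {a cc A : ℝ≥0∞}
    (hW : Measurable W) (hom : Measurable om) (hc0 : cc ≠ 0) (hc1 : cc ≠ ⊤) (hA : A ≠ ⊤)
    (hWw : ∀ x, cc * W x ≤ w x) (h1 : ∫⁻ x in B, w x * θ x ^ 2 ≤ a)
    (ha : ∫⁻ x in B, W x * om x ^ 2 ≤ a) :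
    ∫⁻ x, W x * (B.indicator (fun x => A * (om x + θ x)) x) ^ 2 ≤ A ^ 2 * (4 + 4 * cc⁻¹) * a := by
  have hci : cc⁻¹ ≠ ⊤ := ENNReal.inv_ne_top.2 hc0
  calc ∫⁻ x, W x * (B.indicator (fun x => A * (om x + θ x)) x) ^ 2
      ≤ ∫⁻ x, B.indicator (fun x => A ^ 2 * 4 * (W x * om x ^ 2) +
          A ^ 2 * (4 * cc⁻¹) * (w x * θ x ^ 2)) x := by
        refine lintegral_mono fun x => ?_
        by_cases hxB : x ∈ B
        · simp only [indicator_of_mem hxB]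
          have h2 : W x ≤ cc⁻¹ * w x := by
            calc W x = cc⁻¹ * (cc * W x) := by
                  rw [← mul_assoc, ENNReal.inv_mul_cancel hc0 hc1, one_mul]
              _ ≤ _ := by gcongr; exact hWw x
          calc W x * (A * (om x + θ x)) ^ 2 = A ^ 2 * (W x * (om x + θ x) ^ 2) := by ring
            _ ≤ A ^ 2 * (W x * (4 * om x ^ 2 + 4 * θ x ^ 2)) := by gcongr; exact sq_add_le _ _
            _ = A ^ 2 * 4 * (W x * om x ^ 2) + A ^ 2 * 4 * (W x * θ x ^ 2) := by ring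
            _ ≤ A ^ 2 * 4 * (W x * om x ^ 2) + A ^ 2 * 4 * (cc⁻¹ * w x * θ x ^ 2) := by gcongr
            _ = _ := by ring
        · simp [indicator_of_notMem hxB]
    _ = A ^ 2 * 4 * (∫⁻ x in B, W x * om x ^ 2) +
          A ^ 2 * (4 * cc⁻¹) * ∫⁻ x in B, w x * θ x ^ 2 := by
        rw [lintegral_indicator hB, lintegral_add_left (by fun_prop),
          lintegral_const_mul' _ _ (by finiteness), lintegral_const_mul' _ _ (by finiteness)]
    _ ≤ A ^ 2 * 4 * a + A ^ 2 * (4 * cc⁻¹) * a := by gcongr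
    _ = _ := by ring

theorem bound_h {W τ T L M : E n → ℝ≥0∞} {a b c A C : ℝ≥0∞} (hW : Measurable W)
    (hτ : Measurable τ) (hT : Measurable T) (hA : A ≠ ⊤) (hC : C ≠ ⊤) (hL : ∀ x, L x ≤ 9 * M x)
    (h1 : ∫⁻ x, W x * τ x ^ 2 ≤ a) (h2 : ∫⁻ x, W x * T x ^ 2 ≤ b)
    (h3 : ∫⁻ x, W x * M x ^ 2 ≤ c) :
    ∫⁻ x, W x * (A * (τ x + C * (T x + L x))) ^ 2 ≤
      A ^ 2 * (4 * a + 16 * C ^ 2 * b + 1296 * C ^ 2 * c) := by
  calc ∫⁻ x, W x * (A * (τ x + C * (T x + L x))) ^ 2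
      ≤ ∫⁻ x, (A ^ 2 * 4 * (W x * τ x ^ 2) + (A ^ 2 * (16 * C ^ 2) * (W x * T x ^ 2) +
          A ^ 2 * (1296 * C ^ 2) * (W x * M x ^ 2))) := by
        refine lintegral_mono fun x => ?_
        have e1 : (T x + L x) ^ 2 ≤ 4 * T x ^ 2 + 4 * (9 * M x) ^ 2 :=
          (sq_add_le _ _).trans (by gcongr; exact hL x)
        calc W x * (A * (τ x + C * (T x + L x))) ^ 2
            = A ^ 2 * (W x * (τ x + C * (T x + L x)) ^ 2) := by ring
          _ ≤ A ^ 2 * (W x * (4 * τ x ^ 2 + 4 * (C * (T x + L x)) ^ 2)) := by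
              gcongr; exact sq_add_le _ _
          _ = A ^ 2 * (W x * (4 * τ x ^ 2 + 4 * (C ^ 2 * (T x + L x) ^ 2))) := by ring
          _ ≤ A ^ 2 * (W x * (4 * τ x ^ 2 + 4 * (C ^ 2 * (4 * T x ^ 2 + 4 * (9 * M x) ^ 2)))) := by
              gcongr
          _ = _ := by ring
    _ = A ^ 2 * 4 * (∫⁻ x, W x * τ x ^ 2) + (A ^ 2 * (16 * C ^ 2) * (∫⁻ x, W x * T x ^ 2) +
          A ^ 2 * (1296 * C ^ 2) * ∫⁻ x, W x * M x ^ 2) := by
        rw [lintegral_add_left (by fun_prop), lintegral_add_left (by fun_prop),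
          lintegral_const_mul' _ _ (by finiteness), lintegral_const_mul' _ _ (by finiteness),
          lintegral_const_mul' _ _ (by finiteness)]
    _ ≤ A ^ 2 * 4 * a + (A ^ 2 * (16 * C ^ 2) * b + A ^ 2 * (1296 * C ^ 2) * c) := by gcongr
    _ = _ := by ring

theorem bound_kf {W T M : E n → ℝ≥0∞} {b A : ℝ≥0∞} (hW : Measurable W) (hT : Measurable T)
    (hA : A ≠ ⊤) (h2 : ∫⁻ x, T x ^ 2 / W x ≤ b) (h3 : ∫⁻ x, M x ^ 2 / W x ≤ b) :
    ∫⁻ x, (A * (T x + M x)) ^ 2 / W x ≤ A ^ 2 * 8 * b := by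
  calc ∫⁻ x, (A * (T x + M x)) ^ 2 / W x
      ≤ ∫⁻ x, (A ^ 2 * 4 * (T x ^ 2 / W x) + A ^ 2 * 4 * (M x ^ 2 / W x)) := by
        refine lintegral_mono fun x => ?_
        simp only [div_eq_mul_inv]
        calc (A * (T x + M x)) ^ 2 * (W x)⁻¹ = A ^ 2 * ((T x + M x) ^ 2 * (W x)⁻¹) := by ring
          _ ≤ A ^ 2 * ((4 * T x ^ 2 + 4 * M x ^ 2) * (W x)⁻¹) := by gcongr; exact sq_add_le _ _
          _ = _ := by ring
    _ = A ^ 2 * 4 * (∫⁻ x, T x ^ 2 / W x) + A ^ 2 * 4 * ∫⁻ x, M x ^ 2 / W x := by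
        rw [lintegral_add_left (by fun_prop),
          lintegral_const_mul' _ _ (by finiteness), lintegral_const_mul' _ _ (by finiteness)]
    _ ≤ A ^ 2 * 4 * b + A ^ 2 * 4 * b := by gcongr
    _ = _ := by ring

theorem bound_mul {W f g : E n → ℝ≥0∞} {a b : ℝ≥0∞} (hW : Measurable W) (hf : Measurable f)
    (h : ∀ᵐ x, W x ≠ 0 ∧ W x ≠ ⊤) (h1 : ∫⁻ x, f x ^ 2 / W x ≤ a)
    (h2 : ∫⁻ x, W x * g x ^ 2 ≤ b) : ∫⁻ x, f x * g x ≤ a + b := by
  calc ∫⁻ x, f x * g x ≤ ∫⁻ x, (f x ^ 2 / W x + W x * g x ^ 2) :=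
        lintegral_mono_ae (h.mono fun x hx => amgm hx.1 hx.2)
    _ = (∫⁻ x, f x ^ 2 / W x) + ∫⁻ x, W x * g x ^ 2 := lintegral_add_left (by fun_prop) _
    _ ≤ _ := add_le_add h1 h2

theorem bound_loc {W f : E n → ℝ≥0∞} {B : Set (E n)} (hW : Measurable W) (hf : Measurable f)
    (h : ∀ᵐ x, W x ≠ 0 ∧ W x ≠ ⊤) (h1 : ∫⁻ x, f x ^ 2 / W x < ⊤) (h2 : ∫⁻ x in B, W x < ⊤) :
    ∫⁻ x in B, f x < ⊤ := by
  calc ∫⁻ x in B, f x ≤ ∫⁻ x in B, (f x ^ 2 / W x + W x) := by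
        refine lintegral_mono_ae (ae_restrict_of_ae (h.mono fun x hx => ?_))
        simpa using amgm (f := f x) (g := 1) hx.1 hx.2
    _ = (∫⁻ x in B, f x ^ 2 / W x) + ∫⁻ x in B, W x := lintegral_add_left (by fun_prop) _
    _ < ⊤ := ENNReal.add_lt_top.2 ⟨(setLIntegral_le_lintegral _ _).trans_lt h1, h2⟩

theorem bound_Z (hn : 3 ≤ n) {G e : E n → ℝ≥0∞} {a : ℝ≥0∞} (hG : Measurable G) (he : Measurable e)
    (h : ∀ᵐ x, Wt G x ≠ 0 ∧ Wt G x ≠ ⊤) (h1 : ∫⁻ x, e x ^ 2 / Wt G x ≤ a) (S : Set (E n)) :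
    (∫⁻ x in S, e x * G x) ^ 2 ≤ a * ∫⁻ x in S, mq G x ^ n := by
  refine (cs he hG (measurable_Wt hG) (ae_restrict_of_ae h)).trans (mul_le_mul' ?_ ?_)
  · exact (setLIntegral_le_lintegral _ _).trans h1
  · refine lintegral_mono_ae (ae_restrict_of_ae ((le_mq_ae hn hG).mono fun x hx => ?_))
    unfold Wt
    calc mq G x ^ (n - 2) * G x ^ 2 ≤ mq G x ^ (n - 2) * mq G x ^ 2 := by gcongr
      _ = mq G x ^ n := by rw [← pow_add]; congr 1; omega

/-- The duality step. -/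
theorem dual {e T L Ts Me z : E n → ℝ≥0∞} {A : ℝ≥0∞} (he : Measurable e) (hT : Measurable T)
    (hz : Measurable z) (hTs : Measurable Ts) (hA : A ≠ ⊤)
    (h1 : ∫⁻ x, e x * T x = ∫⁻ x, z x * Ts x) (h2 : ∫⁻ x, e x * L x ≤ 9 * ∫⁻ x, z x * Me x) :
    ∫⁻ x, A * (e x * (T x + L x)) ≤ ∫⁻ x, z x * (9 * A * (Ts x + Me x)) := by
  calc ∫⁻ x, A * (e x * (T x + L x)) = A * ((∫⁻ x, e x * T x) + ∫⁻ x, e x * L x) := by
        rw [lintegral_const_mul' _ _ hA, ← lintegral_add_left (by fun_prop)]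
        simp only [mul_add]
    _ ≤ A * (9 * (∫⁻ x, z x * Ts x) + 9 * ∫⁻ x, z x * Me x) := by
        rw [h1]
        gcongr
        exact le_mul_of_one_le_left' (by norm_num)
    _ = 9 * A * ∫⁻ x, (z x * Ts x + z x * Me x) := by
        rw [lintegral_add_left (by fun_prop)]; ring
    _ = _ := by
        rw [← lintegral_const_mul' _ _ (by finiteness)]
        exact lintegral_congr fun x => by ring

theorem norm_le_rows (A : Mt m n) {b : ℝ≥0∞} (h : ∀ i, ‖row A i‖ₑ ≤ b) : ‖A‖ₑ ≤ m * b := by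
  calc ‖A‖ₑ = ENNReal.ofReal ‖A‖ := (ofReal_norm _).symm
    _ ≤ ENNReal.ofReal (∑ i, ‖row A i‖) := ENNReal.ofReal_le_ofReal (norm_le_sum_row A)
    _ = ∑ i, ‖row A i‖ₑ := by
        rw [ENNReal.ofReal_sum_of_nonneg fun _ _ => norm_nonneg _]; simp only [ofReal_norm]
    _ ≤ ∑ _i : Fin m, b := Finset.sum_le_sum fun i _ => h i
    _ = _ := by simp

theorem err_bound {Q : E n → Fin m → Fin m → ℝ} {D : Mt m n} {f : Fin m → E n → ℝ}
    {v : Fin m → Fin m → E n → ℝ} {x : E n} {a b : ℝ≥0∞} (hQ : ∀ i j, |Q x i j| ≤ 1)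
    (hv : ∀ i j, ContDiff ℝ ∞ (v i j)) (h1 : ∀ j, ‖row D j - gradient (f j) x‖ₑ ≤ a)
    (h2 : ∀ i j, ‖Q x i j • gradient (f j) x - gradient (v i j) x‖ₑ ≤ b) :
    ‖act (Q x) D - grad (fun y => (WithLp.toLp 2 fun i => ∑ j, v i j y : V m)) x‖ₑ ≤
      m ^ 2 * (a + b) := by
  have hs : ContDiff ℝ ∞ fun y => (WithLp.toLp 2 fun i => ∑ j, v i j y : V m) :=
    contDiff_euclidean.2 fun i => ContDiff.sum (s := Finset.univ) fun j _ => hv i j
  have key : ∀ i, row (act (Q x) D -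
      grad (fun y => (WithLp.toLp 2 fun i => ∑ j, v i j y : V m)) x) i =
      ∑ j, (Q x i j • (row D j - gradient (f j) x) +
        (Q x i j • gradient (f j) x - gradient (v i j) x)) := by
    intro i
    have e1 := row_grad (hs.differentiable (by simp) x) i
    ext α
    have e2 := congrArg (fun b : E n => b α) e1
    simp only [gradient_apply] at e2
    have e3 : pd (fun z => ∑ j, v i j z) α x = ∑ j, pd (v i j) α x := by
      unfold pd
      rw [fderiv_fun_sum fun j _ => (hv i j).differentiable (by simp) x]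
      simp
    simp only [row, PiLp.sub_apply] at e2 ⊢
    rw [e2, e3]
    simp only [act, WithLp.ofLp_sum, Finset.sum_apply, PiLp.add_apply, PiLp.sub_apply,
      PiLp.smul_apply, smul_eq_mul, gradient_apply]
    rw [← Finset.sum_sub_distrib]
    exact Finset.sum_congr rfl fun j _ => by ring
  refine (norm_le_rows _ (b := m * (a + b)) fun i => ?_).trans (le_of_eq (by ring))
  rw [key i]
  refine esumF fun j => (enorm_add_le _ _).trans (add_le_add ?_ (h2 i j))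
  rw [enorm_smul]
  calc _ ≤ 1 * a := mul_le_mul' (enorm_le_one (hQ i j)) (h1 j)
    _ = a := one_mul a

theorem fderiv_Q_le {Q : E n → Fin m → Fin m → ℝ} {Ω : E n → Fin m → Fin m → Fin n → ℝ}
    {x : E n} (hQ : ∀ i j, |Q x i j| ≤ 1) (i j : Fin m) :
    ‖fderiv ℝ (fun y => Q y i j) x‖ₑ ≤ n * (m + 1) * (rt (Ω x) + rt (Th Q Ω x)) := by
  refine (efderiv_le _ x (b := m * rt (Ω x) + rt (Th Q Ω x)) fun α => ?_).trans ?_
  · have e : pd (fun y => Q y i j) α x = (∑ l, Q x i l * Ω x l j α) - Th Q Ω x i j α := by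
      unfold Th; ring
    rw [e]
    refine (enorm_sub_le).trans (add_le_add (esumF fun l => ?_) (le_rt _ i j α))
    rw [enorm_mul]
    calc _ ≤ 1 * rt (Ω x) := mul_le_mul' (enorm_le_one (hQ i l)) (le_rt _ l j α)
      _ = _ := one_mul _
  · rw [mul_assoc]
    gcongr
    calc (m : ℝ≥0∞) * rt (Ω x) + rt (Th Q Ω x) ≤
          (m + 1) * rt (Ω x) + (m + 1) * rt (Th Q Ω x) := by
          gcongr
          · exact le_self_add
          · exact le_mul_of_one_le_left' le_add_self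
      _ = _ := by ring

theorem weight_gap {G : E n → ℝ≥0∞} {c : ℝ≥0} {x : E n} {p : ℝ} (hp : 0 ≤ p)
    (hG : G x = ENNReal.ofReal p)
    (hw : max (G x ^ (n - 2)) ((c : ℝ≥0∞) ^ (n - 2) * Wt G x) ≠ ⊤) :
    ‖p ^ (n - 2) - (max (G x ^ (n - 2)) ((c : ℝ≥0∞) ^ (n - 2) * Wt G x)).toReal‖ₑ ≤
      (Zs G c).indicator (fun x => max (G x ^ (n - 2)) ((c : ℝ≥0∞) ^ (n - 2) * Wt G x)) x := by
  have e1 : (G x ^ (n - 2)).toReal = p ^ (n - 2) := by
    rw [hG, ENNReal.toReal_pow, ENNReal.toReal_ofReal hp]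
  by_cases hx : x ∈ Zs G c
  · rw [indicator_of_mem hx]
    set w := max (G x ^ (n - 2)) ((c : ℝ≥0∞) ^ (n - 2) * Wt G x)
    have h1 : p ^ (n - 2) ≤ w.toReal := e1 ▸ ENNReal.toReal_mono hw (le_max_left _ _)
    have h2 : 0 ≤ p ^ (n - 2) := by positivity
    rw [Real.enorm_eq_ofReal_abs, abs_sub_comm, abs_of_nonneg (by linarith)]
    calc ENNReal.ofReal (w.toReal - p ^ (n - 2)) ≤ ENNReal.ofReal w.toReal :=
          ENNReal.ofReal_le_ofReal (by linarith)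
      _ ≤ w := ENNReal.ofReal_toReal_le
  · have h1 : (c : ℝ≥0∞) * mq G x ≤ G x := not_lt.1 hx
    have h2 : (c : ℝ≥0∞) ^ (n - 2) * Wt G x ≤ G x ^ (n - 2) := by
      unfold Wt; rw [← mul_pow]; gcongr
    rw [max_eq_left h2, e1]; simp

end Pool.Agent.P.MP_28243e_an.ST
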