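import Pool.Agent.P.MP_28243e_an.ST2
import Pool.Agent.P.MP_28243e_an.ST3

/-! The structure theorem. -/

namespace Pool.Agent.P.MP_28243e_an

open Set MeasureTheory Metric Filter Topology ENNReal
open scoped NNReal ContDiff RealInnerProductSpace Classical

namespace ST

variable {n m : ℕ}

theorem measurable_act {Q : E n → Fin m → Fin m → ℝ} (hQ : ∀ i j, Measurable fun x => Q x i j)
    {D : E n → Mt m n} (hD : Measurable D) : Measurable fun x => act (Q x) (D x) := by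
  unfold act
  refine (WithLp.measurable_toLp 2 _).comp (measurable_pi_lambda _ fun p => ?_)
  refine Finset.measurable_sum _ fun j _ => (hQ p.1 j).mul ?_
  exact (measurable_pi_apply (j, p.2)).comp ((WithLp.measurable_ofLp 2 _).comp hD)

theorem final_nu {a b x D X ε : ℝ≥0∞} {p q : ℝ≥0∞} (hε : ε ≤ 1) (hx : x ≤ a + b)
    (ha : a ^ 2 ≤ p * ε * D) (hb : b ≤ q * ε) (hX : 4 * p + 4 * q ^ 2 ≤ X) :
    x ^ 2 ≤ X * ε * (1 + D) := by
  calc x ^ 2 ≤ (a + b) ^ 2 := by gcongr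
    _ ≤ 4 * a ^ 2 + 4 * b ^ 2 := sq_add_le _ _
    _ ≤ 4 * (p * ε * D) + 4 * (q * ε) ^ 2 := by gcongr
    _ = 4 * p * ε * D + 4 * q ^ 2 * ε * ε := by ring
    _ ≤ 4 * p * ε * (1 + D) + 4 * q ^ 2 * ε * (1 + D) := by
        gcongr
        · exact le_add_self
        · exact hε.trans le_self_add
    _ = (4 * p + 4 * q ^ 2) * ε * (1 + D) := by ring
    _ ≤ _ := by gcongr

end ST

open _root_.Pool.Agent.P.MP_28243e_an.ST in
theorem stST (h5 : StA5) (h8 : StA8) (hGA : StGA) (hPP : StPP) (hSa : StSTa) (hSb : StSTb)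
    (hEXT : StEXT) (hSig : StSig) : StST := by
  intro n m hn
  obtain ⟨C5, H5⟩ := h5 n hn
  obtain ⟨C8, H8⟩ := h8 n hn
  obtain ⟨Cf, HSb⟩ := hSb n m hn
  obtain ⟨CP, HPP⟩ := hPP n hn Cf
  obtain ⟨_, _, -, -, HSig, -⟩ := hSig n hn
  refine ⟨(m : ℝ≥0) ^ 2 * CP, fun c hc0 hc1 => ?_⟩
  obtain ⟨cc, hcc⟩ : ∃ cc : ℝ≥0∞, cc = (c : ℝ≥0∞) ^ (n - 2) := ⟨_, rfl⟩
  have hcc0 : cc ≠ 0 := by rw [hcc]; exact pow_ne_zero _ (by exact_mod_cast hc0.ne')
  have hcc1 : cc ≤ 1 := by rw [hcc]; exact pow_le_one' (by exact_mod_cast hc1) _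
  have hcct : cc ≠ ⊤ := ne_top_of_le_ne_top one_ne_top hcc1
  have hcci : cc⁻¹ ≠ ⊤ := ENNReal.inv_ne_top.2 hcc0
  obtain ⟨A, hA⟩ : ∃ A : ℝ≥0∞, A = n * (m + 1) := ⟨_, rfl⟩
  have hAt : A ≠ ⊤ := by rw [hA]; finiteness
  obtain ⟨g1, hg1⟩ : ∃ g1 : ℝ≥0∞, g1 = A ^ 2 * (4 + 4 * cc⁻¹) * C5 := ⟨_, rfl⟩
  have hg1t : g1 ≠ ⊤ := by rw [hg1]; finiteness
  obtain ⟨h1, hh1⟩ : ∃ h1 : ℝ≥0∞, h1 = ((m : ℝ≥0∞) ^ 2) ^ 2 *
    (4 + 16 * (CP : ℝ≥0∞) ^ 2 * (C8 * g1) + 1296 * (CP : ℝ≥0∞) ^ 2 * (C8 * g1)) := ⟨_, rfl⟩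
  have hh1t : h1 ≠ ⊤ := by rw [hh1]; finiteness
  obtain ⟨B, hB⟩ : ∃ B : ℝ≥0∞, B = m ^ 4 * n * CP := ⟨_, rfl⟩
  have hBt : B ≠ ⊤ := by rw [hB]; finiteness
  obtain ⟨k1, hk1⟩ : ∃ k1 : ℝ≥0∞, k1 = (9 * B) ^ 2 * 8 * (C8 * C5) := ⟨_, rfl⟩
  have hk1t : k1 ≠ ⊤ := by rw [hk1]; finiteness
  have hvt : volume (ball (0 : E n) 1) ≠ ⊤ := vol_ball_ne_top _ _
  obtain ⟨n1, hn1⟩ : ∃ n1 : ℝ≥0∞, n1 = k1 + g1 + m ^ 4 * n * (C5 + 1) +
    volume (ball (0 : E n) 1) := ⟨_, rfl⟩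
  have hn1t : n1 ≠ ⊤ := by rw [hn1]; finiteness
  obtain ⟨X, hX⟩ : ∃ X : ℝ≥0∞, X = C8 * h1 + k1 +
    (4 * (((m : ℝ≥0∞) ^ 2 * n) ^ 2 * C5) + 4 * n1 ^ 2) := ⟨_, rfl⟩
  have hXt : X ≠ ⊤ := by rw [hX]; finiteness
  refine ⟨X.toNNReal, fun u Du Ω ε hS hG hε0 hε1 hL => ?_⟩
  rw [ENNReal.coe_toNNReal hXt]
  obtain ⟨G, hGd⟩ : ∃ G, G = GG (ball 0 1) Du := ⟨_, rfl⟩
  obtain ⟨N, f, τ, hN, hτm, hτε, hf⟩ := HSb u Du Ω hS hG ε (by exact_mod_cast hε0)
  rw [← hGd] at hG hτε hf ⊢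
  have hGB : ∀ x ∈ ball (0 : E n) 1, G x = ‖Du x‖ₑ := fun x hx => by
    rw [hGd, GG, indicator_of_mem hx]
  have hGB' : ∀ x ∉ ball (0 : E n) 1, G x = 0 := fun x hx => by
    rw [hGd, GG, indicator_of_notMem hx]
  have hGm := hG.meas
  obtain ⟨hmq0, hmqt, hmqi, -, H8z⟩ := H8 G hG
  obtain ⟨-, -, H5W, -, -⟩ := H5 G 1 hGm hG.weak
  simp only [ENNReal.coe_one, one_pow, mul_one] at H5W
  have hWm := measurable_Wt hGm
  have hW : ∀ᵐ x, Wt G x ≠ 0 ∧ Wt G x ≠ ⊤ := hmqt.mono fun x hx =>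
    ⟨pow_ne_zero _ (hmq0 x).ne', ENNReal.pow_ne_top hx.ne⟩
  have hWB : ∫⁻ x in ball 0 1, Wt G x < ⊤ := (H5W _ measurableSet_ball).trans_lt
    (ENNReal.mul_lt_top ENNReal.coe_lt_top
      (ENNReal.rpow_lt_top_of_nonneg (by positivity) hvt))
  have hom := measurable_rt hS.mΩ
  have ha : ∫⁻ x in ball 0 1, Wt G x * rt (Ω x) ^ 2 ≤ C5 * ε :=
    (layer hWm hS.mΩ ENNReal.coe_ne_top H5W).trans (by gcongr)
  have hat : (C5 : ℝ≥0∞) * ε ≠ ⊤ := by finiteness
  obtain ⟨w, hwd⟩ : ∃ w : E n → ℝ≥0∞,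
    w = fun x => max (G x ^ (n - 2)) ((c : ℝ≥0∞) ^ (n - 2) * Wt G x) := ⟨_, rfl⟩
  have hwm : Measurable w := by rw [hwd]; exact (hGm.pow_const _).max (hWm.const_mul _)
  have hGW : ∀ᵐ x, G x ^ (n - 2) ≤ Wt G x := (le_mq_ae hn hGm).mono fun x hx => by
    unfold Wt; gcongr
  have hwW : ∀ᵐ x, w x ≤ Wt G x := hGW.mono fun x hx => by
    rw [hwd]; exact max_le hx (by rw [← hcc]; exact mul_le_of_le_one_left' hcc1)
  have hWw : ∀ x, cc * Wt G x ≤ w x := fun x => by rw [hwd, hcc]; exact le_max_right _ _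
  have hwf : ∀ᵐ x, w x ≠ ⊤ := by
    filter_upwards [hwW, hW] with x h1 h2 using ne_top_of_le_ne_top h2.2 h1
  choose K hK0 hK using fun j => HPP G hG N hN (f j) (hf j).1 (hf j).2.1
  have hKs : 0 ≤ ∑ j, K j := Finset.sum_nonneg fun j _ => hK0 j
  obtain ⟨t, htd⟩ : ∃ t : ℝ, t = ε / (m ^ 3 * ∑ j, K j + 1) := ⟨_, rfl⟩
  have ht0 : 0 < t := by rw [htd]; positivity
  have htK : (m : ℝ≥0∞) ^ 3 * ENNReal.ofReal (t * ∑ j, K j) ≤ ε := by
    rw [← ENNReal.ofReal_natCast, ← ENNReal.ofReal_pow (by positivity),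
      ← ENNReal.ofReal_mul (by positivity), ← ENNReal.ofReal_coe_nnreal]
    refine ENNReal.ofReal_le_ofReal ?_
    have hp : (0 : ℝ) < m ^ 3 * ∑ j, K j + 1 := by positivity
    have e : (ε : ℝ) = t * (m ^ 3 * ∑ j, K j + 1) := by rw [htd]; field_simp
    rw [e]; nlinarith
  obtain ⟨Q, hQ⟩ := hGA n m w Ω t hwm hS.mΩ hS.anti
    ((lintegral_mono_ae (ae_restrict_of_ae hwW)).trans_lt hWB)
    (by
      refine lt_of_le_of_lt (lintegral_mono_ae (ae_restrict_of_ae ?_)) (ha.trans_lt hat.lt_top)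
      filter_upwards [hwW] with x hx
      rw [rt_sq]; gcongr) ht0
  have hQm : ∀ i j, Measurable fun x => Q x i j := fun i j => (hQ.smooth i j).continuous.measurable
  have hQ1 : ∀ x i j, |Q x i j| ≤ 1 := fun x => abs_le_one_of_orth (hQ.orth' x)
  have hth := measurable_rt (measurable_Th hS.mΩ hQm)
  obtain ⟨hen, hei⟩ := bound_e (θ := fun x => rt (Th Q Ω x)) (om := fun x => rt (Ω x))
    measurableSet_ball hwW (by simpa only [rt_sq] using hQ.en) ha
  have hgi := bound_g (θ := fun x => rt (Th Q Ω x)) (A := A) measurableSet_ball hWm hom hcc0 hcct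
    hAt hWw hen ha
  obtain ⟨e, hed⟩ : ∃ e : E n → ℝ≥0∞,
    e = (ball 0 1).indicator fun x => w x * rt (Th Q Ω x) := ⟨_, rfl⟩
  obtain ⟨g, hgd⟩ : ∃ g : E n → ℝ≥0∞,
    g = (ball 0 1).indicator fun x => A * (rt (Ω x) + rt (Th Q Ω x)) := ⟨_, rfl⟩
  have hem : Measurable e := by rw [hed]; exact (hwm.mul hth).indicator measurableSet_ball
  have hgm : Measurable g := by
    rw [hgd]; exact ((hom.add hth).const_mul _).indicator measurableSet_ball
  have heB : ∀ x ∈ ball (0 : E n) 1, e x = w x * rt (Th Q Ω x) := fun x hx => by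
    rw [hed, indicator_of_mem hx]
  rw [← hed] at hei
  rw [← hgd, ← mul_assoc, ← hg1] at hgi
  have hgQ : ∀ i j, ∀ y ∈ ball (0 : E n) 1, ‖fderiv ℝ (fun x => Q x i j) y‖ₑ ≤ g y := by
    intro i j y hy
    rw [hgd, indicator_of_mem hy, hA]
    exact fderiv_Q_le (hQ1 y) i j
  choose v hv1 hv2 _ hv4 using fun i j =>
    hK j (fun x => Q x i j) ((hQ.smooth i j).of_le (by exact_mod_cast le_top))
  obtain ⟨hTg, -, hLg, hLg9, -, hTgi, -, hMgi, -⟩ := H8z g hgm
  obtain ⟨-, hTe, -, -, -, -, hTei, -, hMei⟩ := H8z e hem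
  obtain ⟨h, hhd⟩ : ∃ h : E n → ℝ≥0∞,
    h = fun x => (m : ℝ≥0∞) ^ 2 * (τ x + CP * (T0 G g x + LN g N x)) := ⟨_, rfl⟩
  have hhm : Measurable h := by
    rw [hhd]; exact (hτm.add ((hTg.add (hLg N)).const_mul _)).const_mul _
  have hhi : ∫⁻ x, Wt G x * h x ^ 2 ≤ h1 * ε := by
    rw [hhd]
    refine (bound_h (b := C8 * (g1 * ε)) (c := C8 * (g1 * ε)) hWm hτm hTg (by finiteness)
      ENNReal.coe_ne_top (hLg9 N) hτε (hTgi.trans (by gcongr)) (hMgi.trans (by gcongr))).trans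
      (le_of_eq ?_)
    rw [hh1]; ring
  obtain ⟨kf, hkd⟩ : ∃ kf : E n → ℝ≥0∞, kf = fun x => 9 * B * (T0s G e x + mx e x) := ⟨_, rfl⟩
  have hkm : Measurable kf := by rw [hkd]; exact (hTe.add (measurable_mx hem)).const_mul _
  have hki : ∫⁻ x, kf x ^ 2 / Wt G x ≤ k1 * ε := by
    rw [hkd]
    refine (bound_kf (b := C8 * (C5 * ε)) hWm hTe (by finiteness) (hTei.trans (by gcongr))
      (hMei.trans (by gcongr))).trans (le_of_eq ?_)
    rw [hk1]; ring
  obtain ⟨-, -, -, -, -, -, -, hMhi, -⟩ := H8z h hhm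
  have hZm : MeasurableSet (Zs G c) := measurableSet_lt hGm ((measurable_mq hGm).const_mul _)
  obtain ⟨ν₂, hν₂⟩ : ∃ ν₂ : E n → ℝ≥0∞, ν₂ = fun x => kf x * g x + (m ^ 4 * n * (e x * τ x) +
    (ball (0 : E n) 1).indicator (fun _ => (ε : ℝ≥0∞)) x) := ⟨_, rfl⟩
  have hν₂m : Measurable ν₂ := by
    rw [hν₂]
    exact (hkm.mul hgm).add (((hem.mul hτm).const_mul _).add
      (measurable_const.indicator measurableSet_ball))
  have hν₂i : ∫⁻ x, ν₂ x ≤ n1 * ε := by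
    rw [hν₂]
    beta_reduce
    have m1 : Measurable fun x => kf x * g x := hkm.mul hgm
    have m2 : Measurable fun x => (m : ℝ≥0∞) ^ 4 * n * (e x * τ x) := (hem.mul hτm).const_mul _
    rw [lintegral_add_left m1, lintegral_add_left m2,
      lintegral_const_mul' _ _ (by finiteness), lintegral_indicator_const measurableSet_ball]
    calc _ ≤ (k1 * ε + g1 * ε) + (m ^ 4 * n * (C5 * ε + ε) + ε * volume (ball (0 : E n) 1)) := by
          gcongr
          · exact bound_mul hWm hkm hW hki hgi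
          · exact bound_mul hWm hem hW hei hτε
      _ = _ := by rw [hn1]; ring
  obtain ⟨ν₁, hν₁⟩ : ∃ ν₁ : E n → ℝ≥0∞,
    ν₁ = (Zs G c).indicator fun x => m ^ 2 * n * (e x * G x) := ⟨_, rfl⟩
  have hν₁m : Measurable ν₁ := by rw [hν₁]; exact ((hem.mul hGm).const_mul _).indicator hZm
  have hν₁i : ∀ S : Set (E n), (∫⁻ x in S, ν₁ x) ^ 2 ≤
      ((m : ℝ≥0∞) ^ 2 * n) ^ 2 * C5 * ε * ∫⁻ x in S ∩ Zs G c, mq G x ^ n := by
    intro S
    rw [hν₁, setLIntegral_indicator hZm, lintegral_const_mul' _ _ (by finiteness), mul_pow,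
      inter_comm]
    calc _ ≤ ((m : ℝ≥0∞) ^ 2 * n) ^ 2 * (C5 * ε * ∫⁻ x in S ∩ Zs G c, mq G x ^ n) := by
          gcongr; exact bound_Z hn hGm hem hW hei _
      _ = _ := by ring
  have hνS : ∀ S : Set (E n), (∫⁻ x in S, (ν₁ x + ν₂ x)) ^ 2 ≤
      X * ε * (1 + ∫⁻ x in S ∩ Zs G c, mq G x ^ n) := by
    intro S
    refine final_nu (by exact_mod_cast hε1) ?_ (hν₁i S) hν₂i (by rw [hX]; exact le_add_self)
    rw [lintegral_add_left hν₁m]
    gcongr
    exact Measure.restrict_le_self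
  have hνt : ∫⁻ x, (ν₁ x + ν₂ x) < ⊤ := by
    have h1 := hνS univ
    rw [Measure.restrict_univ] at h1
    have h2 : ∫⁻ x in univ ∩ Zs G c, mq G x ^ n ≠ ⊤ :=
      ((setLIntegral_le_lintegral _ _).trans_lt hmqi).ne
    have h3 : (∫⁻ x, (ν₁ x + ν₂ x)) ^ 2 ≠ ⊤ := ne_top_of_le_ne_top (by finiteness) h1
    exact lt_top_iff_ne_top.2 fun h => h3 (by rw [h]; simp)
  have hkI : ∫⁻ x, (Wt G x * mx h x ^ 2 + kf x ^ 2 / Wt G x) ≤ X * ε := by
    have m1 : Measurable fun x => Wt G x * mx h x ^ 2 :=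
      hWm.mul ((measurable_mx hhm).pow_const 2)
    rw [lintegral_add_left m1]
    calc _ ≤ C8 * (h1 * ε) + k1 * ε := add_le_add (hMhi.trans (by gcongr)) hki
      _ = (C8 * h1 + k1) * ε := by ring
      _ ≤ _ := by rw [hX]; exact mul_le_mul' le_self_add le_rfl
  obtain ⟨hact, hSE⟩ := hSa n m hn u Du Ω Q hS hQ.smooth hQ.orth (by
    calc _ ≤ ∫⁻ x in ball 0 1, (Wt G x * rt (Ω x) ^ 2 + G x ^ n) := by
          refine setLIntegral_mono_ae' measurableSet_ball ?_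
          filter_upwards [hGW] with x hx hxB
          rw [rt_eq, ← hGB x hxB]
          exact (split_le _ _ hn).trans (by gcongr)
      _ = (∫⁻ x in ball 0 1, Wt G x * rt (Ω x) ^ 2) + ∫⁻ x in ball 0 1, G x ^ n :=
          lintegral_add_left (hWm.mul (hom.pow_const 2)) _
      _ < ⊤ := ENNReal.add_lt_top.2 ⟨ha.trans_lt hat.lt_top,
          (setLIntegral_le_lintegral _ _).trans_lt hG.fin⟩)
  obtain ⟨U, hUd⟩ : ∃ U : E n → Mt m n,
    U = (ball 0 1).indicator fun x => act (Q x) (Du x) := ⟨_, rfl⟩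
  have hUm : Measurable U := by
    rw [hUd]; exact (measurable_act hQm hS.mDu).indicator measurableSet_ball
  have hUB : ∀ x ∈ ball (0 : E n) 1, U x = act (Q x) (Du x) := fun x hx => by
    rw [hUd, indicator_of_mem hx]
  have hUB' : ∀ x ∉ ball (0 : E n) 1, U x = 0 := fun x hx => by
    rw [hUd, indicator_of_notMem hx]
  have hUn : ∀ x, ‖U x‖ₑ = G x := fun x => by
    by_cases hx : x ∈ ball (0 : E n) 1
    · rw [hUB x hx, hGB x hx, ← ofReal_norm, hact, ofReal_norm]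
    · rw [hUB' x hx, hGB' x hx, enorm_zero]
  refine ⟨U, fun y => WithLp.toLp 2 fun i => ∑ j, v i j y, fun x => ν₁ x + ν₂ x,
    fun x => Wt G x * mx h x ^ 2 + kf x ^ 2 / Wt G x, kf, h,
    ⟨hG, hUm, hν₁m.add hν₂m, ?_, hkm, hhm, hUn, hνt, hkI.trans_lt (by finiteness), ?_, ?_, ?_, ?_,
      ?_, ?_⟩, hkI, fun r => hνS _⟩
  · exact (hWm.mul ((measurable_mx hhm).pow_const 2)).add ((hkm.pow_const 2).div hWm)
  · filter_upwards [hW] with x hx
    calc kf x ^ 2 = Wt G x * (kf x ^ 2 / Wt G x) := (ENNReal.mul_div_cancel hx.1 hx.2).symm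
      _ ≤ _ := by gcongr; exact le_add_self
  · exact Eventually.of_forall fun x => le_self_add
  · exact contDiff_euclidean.2 fun i => ContDiff.sum (s := Finset.univ) fun j _ =>
      (hv1 i j).of_le (by exact_mod_cast le_top)
  · refine Eventually.of_forall fun x hx => ?_
    have hx3 : x ∈ ball (0 : E n) (3 / 4) := ball_subset_ball (by norm_num) hx
    rw [hUB x (ball_subset_ball (by norm_num) hx), hhd]
    exact err_bound (hQ1 x) hv1 (fun j => (hf j).2.2 x hx3)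
      fun i j => hv2 i j g hgm (hgQ i j) x hx3
  · intro x hx x' hx' s hs0 hs2 hxs
    have := enorm_le_sum ((WithLp.toLp 2 fun i => ∑ j, v i j x : V m) -
      (WithLp.toLp 2 fun i => ∑ j, v i j x')) (b := m * (CP * (pot G (8 * s) x +
        pot G (8 * s) x' + (ENNReal.ofReal s * gs G x s) ^ (1 / 2 : ℝ)))) fun i => by
      simp only [PiLp.sub_apply]
      rw [← Finset.sum_sub_distrib]
      exact esumF fun j => hv4 i j (fun y => hQ1 y i j) x hx x' hx' s hs0 hs2 hxs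
    refine this.trans (le_of_eq ?_)
    simp only [Fintype.card_fin, ENNReal.coe_mul, ENNReal.coe_pow, ENNReal.coe_natCast]
    ring
  · obtain ⟨hsc, hsn⟩ := HSig (Mt m n)
    refine hEXT n m hn (fun x => sig n (U x)) _ kf ?_ (hν₁m.add hν₂m) hkm
      ((setLIntegral_le_lintegral _ _).trans_lt hνt)
      (bound_loc hWm hkm hW (hki.trans_lt (by finiteness))
        ((lintegral_mono_set (ball_subset_ball (by norm_num))).trans_lt hWB)) ?_
    · refine ⟨(hsc.measurable.comp hUm).aestronglyMeasurable, ?_⟩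
      calc ∫⁻ x in ball 0 (1 / 2), ‖sig n (U x)‖ₑ ≤ ∫⁻ x in ball 0 (1 / 2), (1 + G x ^ n) := by
            refine lintegral_mono fun x => ?_
            rw [← ofReal_norm, (hsn _ 0).1, ENNReal.ofReal_pow (norm_nonneg _), ofReal_norm, hUn]
            rcases le_total (G x) 1 with h | h
            · exact (pow_le_one' h _).trans le_self_add
            · exact (pow_le_pow_right' h (Nat.sub_le _ _)).trans le_add_self
        _ = volume (ball (0 : E n) (1 / 2)) + ∫⁻ x in ball 0 (1 / 2), G x ^ n := by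
            rw [lintegral_add_left measurable_const, setLIntegral_one]
        _ < ⊤ := ENNReal.add_lt_top.2 ⟨measure_ball_lt_top,
            (setLIntegral_le_lintegral _ _).trans_lt hG.fin⟩
    · intro φ hφ
      have hφs : ContDiff ℝ ∞ φ := contDiff_euclidean.2 fun i => (hφ i).1
      have hφm : Measurable fun x => ‖φ x‖ₑ := hφs.continuous.measurable.enorm
      have e1 : ∫ x, ⟪sig n (U x), grad φ x⟫ =
          ∫ x in ball 0 1, ⟪sig n (act (Q x) (Du x)), grad φ x⟫ := by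
        rw [← setIntegral_eq_integral_of_forall_compl_eq_zero (s := ball (0 : E n) 1)
          fun x hx => by rw [hUB' x hx]; simp [sig]]
        exact setIntegral_congr_fun measurableSet_ball fun x hx => by simp only [hUB x hx]
      rw [e1, hSE φ fun i => ⟨(hφ i).1, (hφ i).2.1,
        (hφ i).2.2.trans (ball_subset_ball (by norm_num))⟩]
      have hint : ∫⁻ x in ball 0 1, w x * rt (Th Q Ω x) < ⊤ := by
        rw [← setLIntegral_congr_fun measurableSet_ball heB]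
        exact bound_loc hWm hem hW (hei.trans_lt hat.lt_top) hWB
      refine (key (d := (Zs G c).indicator w) (τ := τ) (f := f)
        (Φ := fun z x => CP * (T0 G z x + LN z N x)) hKs ht0.le hS.mΩ hQ hwm hgm hwf hint ?_ hgQ
        (fun j => (hf j).2.2) ?_ φ hφ).trans ?_
      · filter_upwards [hwf] with x hx hxB
        rw [hwd] at hx ⊢
        exact weight_gap (norm_nonneg _) (by rw [hGB x hxB, ofReal_norm]) hx
      · intro j ψ hψ
        obtain ⟨v', h1, h2, h3, -⟩ := hK j ψ hψ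
        refine ⟨v', h1, h2, fun hs => ⟨(h3 hs).1, fun x => ((h3 hs).2 x).trans ?_⟩⟩
        exact mul_le_mul_of_nonneg_right
          (Finset.single_le_sum (f := K) (fun j _ => hK0 j) (Finset.mem_univ j))
          (integral_nonneg fun y => abs_nonneg _)
      · obtain ⟨z, hzd⟩ : ∃ z : E n → ℝ≥0∞, z = fun y => ‖φ y‖ₑ * g y + ‖grad φ y‖ₑ := ⟨_, rfl⟩
        rw [← hzd]
        have hzm : Measurable z := by rw [hzd]; exact (hφm.mul hgm).add (measurable_grad φ).enorm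
        obtain ⟨hTz, -, -, -, hdu, -⟩ := H8z z hzm
        have hd := dual hem hTz hzm hTe hBt (hdu e hem).1 ((hdu e hem).2 N)
        have s1 : ∫⁻ x in ball 0 1, ((m : ℝ≥0∞) ^ 2 * n * ((Zs G c).indicator w x *
            rt (Th Q Ω x) * ‖Du x‖ₑ * ‖φ x‖ₑ) + m ^ 4 * n * (w x * rt (Th Q Ω x) *
              (‖φ x‖ₑ * τ x + CP * (T0 G z x + LN z N x)))) ≤
            ∫⁻ x, ((ν₁ x + m ^ 4 * n * (e x * τ x)) * ‖φ x‖ₑ +
              B * (e x * (T0 G z x + LN z N x))) := by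
          refine le_trans (setLIntegral_mono' measurableSet_ball fun x hx => le_of_eq ?_)
            (setLIntegral_le_lintegral _ _)
          rw [hν₁, hB, ← hGB x hx]
          by_cases hxZ : x ∈ Zs G c
          · simp only [indicator_of_mem hxZ, heB x hx]; ring
          · simp only [indicator_of_notMem hxZ, heB x hx]; ring
        have s2 : (m : ℝ≥0∞) ^ 3 * (ENNReal.ofReal (t * ∑ j, K j) * ∫⁻ x, ‖φ x‖ₑ) ≤
            ∫⁻ x, (ball (0 : E n) 1).indicator (fun _ => (ε : ℝ≥0∞)) x * ‖φ x‖ₑ := by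
          rw [← mul_assoc]
          refine (mul_le_mul' htK le_rfl).trans ?_
          rw [← lintegral_const_mul' _ _ ENNReal.coe_ne_top]
          refine lintegral_mono fun x => ?_
          by_cases hx : x ∈ ball (0 : E n) 1
          · rw [indicator_of_mem hx]
          · have : φ x = 0 := by
              ext i
              exact image_eq_zero_of_notMem_tsupport (f := fun x => φ x i) fun h =>
                hx (ball_subset_ball (by norm_num) ((hφ i).2.2 h))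
            simp [this]
        have m1 : Measurable fun x => (ν₁ x + m ^ 4 * n * (e x * τ x)) * ‖φ x‖ₑ :=
          (hν₁m.add ((hem.mul hτm).const_mul _)).mul hφm
        have m2 : Measurable fun x => z x * kf x := hzm.mul hkm
        refine (add_le_add s1 s2).trans ?_
        rw [lintegral_add_left m1]
        have hd' : ∫⁻ x, B * (e x * (T0 G z x + LN z N x)) ≤ ∫⁻ x, z x * kf x := by
          rw [hkd]; exact hd
        refine (add_le_add (add_le_add le_rfl hd') le_rfl).trans (le_of_eq ?_)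
        have m3 : Measurable fun x => (ν₁ x + m ^ 4 * n * (e x * τ x)) * ‖φ x‖ₑ + z x * kf x :=
          m1.add m2
        have m4 : Measurable fun x => (ν₁ x + ν₂ x) * ‖φ x‖ₑ := (hν₁m.add hν₂m).mul hφm
        rw [← lintegral_add_left m1, ← lintegral_add_left m3, ← lintegral_add_left m4]
        refine lintegral_congr fun x => ?_
        rw [hzd, hν₂]
        ring

end Pool.Agent.P.MP_28243e_an
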