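import Pool.Agent.P.MP_28243e_an.Main0
import Pool.Agent.P.MP_28243e_an.LE
import Pool.Agent.P.MP_28243e_an.ST

/-! Continuity of measurable solutions. -/

namespace Pool.Agent.P.MP_28243e_an

theorem regular : StH3 := by
  have hA2 := stA2
  have hA4 := stA4 hA2
  have hA5 := stA5 hA2
  have hA8 := stA8 hA2 hA4 hA5 stA7
  exact regular_of (stLE hA2 hA4 hA5 hA8 stAP stB (stLT stTL hA5) stW stLC stIt stSig)
    (stST hA5 hA8 stGA (stPP stB stM hA5) stSTa (stSTb stM hA8) (stEXT stM) stSig)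

end Pool.Agent.P.MP_28243e_an
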