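import Pool.Agent.P.MP_28243e_an.Mdl1

/-! The logarithmic model and the divergence free field `newt`. -/

namespace Pool.Agent.P.MP_28243e_an

open Set MeasureTheory Metric Filter Topology ENNReal
open scoped NNReal ContDiff RealInnerProductSpace Classical

namespace Mdl

variable {n m : ℕ}

theorem flux_eq (y x : E n) (r₁ r₂ : ℝ) : ⟪newt y x, gradient (cut y r₁ r₂) x⟫ =
    -(deriv Real.smoothTransition ((r₂ ^ 2 - ‖x - y‖ ^ 2) / (r₂ ^ 2 - r₁ ^ 2)) *
      ((r₂ ^ 2 - r₁ ^ 2)⁻¹ * (2 * ((‖x - y‖ ^ n)⁻¹ * ‖x - y‖ ^ 2)))) := by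
  rw [real_inner_comm, inner_gradient_left, (hasFDerivAt_cut y x r₁ r₂).fderiv, newt]
  simp only [_root_.smul_apply, map_smul, innerSL_apply_apply, smul_eq_mul,
    real_inner_self_eq_norm_sq]
  ring

theorem flux_scale (y : E n) {r : ℝ} (hr : 0 < r) (z : E n) :
    ⟪newt y (y + r • z), gradient (cut y (r / 2) r) (y + r • z)⟫ =
      (r ^ n)⁻¹ * ⟪newt 0 z, gradient (cut 0 (1 / 2) 1) z⟫ := by
  rw [flux_eq, flux_eq, add_sub_cancel_left, sub_zero, norm_smul, Real.norm_eq_abs, abs_of_pos hr]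
  have e : (r ^ 2 - (r * ‖z‖) ^ 2) / (r ^ 2 - (r / 2) ^ 2) =
      (1 ^ 2 - ‖z‖ ^ 2) / (1 ^ 2 - (1 / 2) ^ 2) := by
    have h1 : r ^ 2 - (r / 2) ^ 2 = r ^ 2 * (3 / 4) := by ring
    rw [h1]
    field_simp
    ring
  have h1 : r ^ 2 - (r / 2) ^ 2 = r ^ 2 * (3 / 4) := by ring
  rw [e, h1, mul_pow, mul_pow, mul_inv, mul_inv]
  have h2 : (r ^ 2)⁻¹ * r ^ 2 = 1 := inv_mul_cancel₀ (by positivity)
  have h3 : ((1 : ℝ) ^ 2 - (1 / 2) ^ 2)⁻¹ = (3 / 4)⁻¹ := by norm_num
  rw [h3]
  linear_combination (-(deriv Real.smoothTransition ((1 ^ 2 - ‖z‖ ^ 2) / (1 ^ 2 - (1 / 2) ^ 2)) *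
    ((3 / 4)⁻¹ * (2 * ((r ^ n)⁻¹ * (‖z‖ ^ n)⁻¹ * ‖z‖ ^ 2))))) * h2

theorem flux_int (y : E n) {r : ℝ} (hr : 0 < r) :
    ∫ x, ⟪newt y x, gradient (cut y (r / 2) r) x⟫ = -cN n := by
  rw [cN, neg_neg, ← integral_add_left_eq_self _ y]
  have h := Measure.integral_comp_smul volume
    (fun x : E n => ⟪newt y (y + x), gradient (cut y (r / 2) r) (y + x)⟫) r
  simp only [flux_scale y hr, finrank_euclideanSpace, Fintype.card_fin, smul_eq_mul] at h
  rw [integral_const_mul, abs_of_pos (by positivity)] at h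
  exact (mul_left_cancel₀ (by positivity) h).symm

theorem contDiffAt_norm' {y x : E n} (h : x ≠ y) : ContDiffAt ℝ 1 (fun z : E n => ‖z - y‖) x :=
  (contDiffAt_id.sub contDiffAt_const).norm ℝ (sub_ne_zero.2 h)

theorem contDiffAt_newt {y x : E n} (h : x ≠ y) : ContDiffAt ℝ 1 (newt y) x := by
  have h0 : ‖x - y‖ ^ n ≠ 0 := pow_ne_zero _ (norm_ne_zero_iff.2 (sub_ne_zero.2 h))
  exact (((contDiffAt_norm' h).pow n).inv h0).smul (contDiffAt_id.sub contDiffAt_const)

theorem cN_pos (hn : 3 ≤ n) : 0 < cN n := by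
  rw [cN, ← integral_neg]
  have hz : ∀ x : E n, ‖x - 0‖ ≤ 1 / 2 ∨ 1 ≤ ‖x - 0‖ →
      -⟪newt 0 x, gradient (cut 0 (1 / 2) 1) x⟫ = 0 := fun x hx => by
    rw [real_inner_comm, inner_gradient_left, fderiv_cut_eq_zero (by norm_num) (by norm_num) hx]
    simp
  have hg : Continuous (gradient (cut (0 : E n) (1 / 2) 1)) :=
    (InnerProductSpace.toDual ℝ (E n)).symm.continuous.comp
      ((cut_contDiff 0 (1 / 2) 1).continuous_fderiv (by simp))
  obtain ⟨s, hs, hd⟩ := exists_deriv_eq_slope Real.smoothTransition zero_lt_one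
    Real.smoothTransition.continuous.continuousOn
    ((Real.smoothTransition.contDiff (n := 1)).differentiable one_ne_zero).differentiableOn
  have hq : 0 < 1 - 3 / 4 * s := by linarith [hs.2]
  let x0 : E n := EuclideanSpace.single ⟨0, by omega⟩ (√(1 - 3 / 4 * s))
  have hx0 : ‖x0‖ ^ 2 = 1 - 3 / 4 * s := by
    simp only [x0, PiLp.norm_single, Real.norm_eq_abs, sq_abs]
    exact Real.sq_sqrt hq.le
  refine Continuous.integral_pos_of_hasCompactSupport_nonneg_nonzero (x := x0) ?_ ?_ ?_ ?_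
  · rw [continuous_iff_continuousAt]
    intro x
    rcases eq_or_ne x 0 with rfl | h
    · refine (continuousAt_const (y := (0 : ℝ))).congr ?_
      filter_upwards [closedBall_mem_nhds (0 : E n) (by norm_num : (0 : ℝ) < 1 / 2)] with z hz'
      exact (hz z (Or.inl (by simpa using hz'))).symm
    · exact ((contDiffAt_newt h).continuousAt.inner hg.continuousAt).neg
  · refine HasCompactSupport.intro (isCompact_closedBall (0 : E n) 1) fun x hx => hz x (Or.inr ?_)
    rw [mem_closedBall, dist_eq_norm, not_le] at hx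
    exact hx.le
  · intro x
    simp only [flux_eq, neg_neg, Pi.zero_apply]
    have := Real.smoothTransition.monotone.deriv_nonneg
      (x := (1 ^ 2 - ‖x - 0‖ ^ 2) / (1 ^ 2 - (1 / 2) ^ 2))
    have h3 : (0 : ℝ) < (1 ^ 2 - (1 / 2) ^ 2)⁻¹ := by norm_num
    positivity
  · have hp : 0 < ‖x0‖ := by
      rcases (norm_nonneg x0).eq_or_lt with h | h
      · rw [← h] at hx0; norm_num at hx0; linarith
      · exact h
    have e : (1 ^ 2 - ‖x0‖ ^ 2) / (1 ^ 2 - (1 / 2) ^ 2) = s := by rw [hx0]; ring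
    rw [flux_eq, neg_neg, sub_zero, e, hd, Real.smoothTransition.one, Real.smoothTransition.zero]
    have h3 : (0 : ℝ) < (1 ^ 2 - (1 / 2) ^ 2)⁻¹ := by norm_num
    have h4 : (0 : ℝ) < (1 - 0) / (1 - 0) := by norm_num
    positivity

theorem gradient_log {y x : E n} (h : x ≠ y) :
    gradient (fun z : E n => Real.log ‖z - y‖) x = (‖x - y‖ ^ 2)⁻¹ • (x - y) := by
  have h0 : ‖x - y‖ ^ 2 ≠ 0 := pow_ne_zero _ (norm_ne_zero_iff.2 (sub_ne_zero.2 h))
  have h1 : HasFDerivAt (fun x : E n => ‖x - y‖ ^ 2) ((2 : ℝ) • innerSL ℝ (x - y)) x := by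
    refine (((hasFDerivAt_id x).sub_const y).norm_sq).congr_fderiv ?_
    ext v; simp
  have h2 := (h1.log h0).const_mul (1 / 2 : ℝ)
  have e : (fun z : E n => Real.log ‖z - y‖) = fun z => 1 / 2 * Real.log (‖z - y‖ ^ 2) := by
    funext z
    rw [Real.log_pow]
    push_cast
    ring
  apply ext_inner_right ℝ
  intro v
  rw [inner_gradient_left, e, h2.fderiv, inner_smul_left]
  simp only [_root_.smul_apply, innerSL_apply_apply, smul_eq_mul, conj_trivial]
  ring

theorem div_newt (hn : 3 ≤ n) {y x : E n} (h : x ≠ y) :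
    ∑ α, fderiv ℝ (fun z => newt y z α) x (EuclideanSpace.single α 1) = 0 := by
  have hp : 0 < ‖x - y‖ := norm_pos_iff.2 (sub_ne_zero.2 h)
  have hn1 : (1 : ℝ) < n := by exact_mod_cast (by omega : 1 < n)
  have h1 : HasFDerivAt (fun z : E n => ‖z - y‖ ^ n)
      (((n : ℝ) * ‖x - y‖ ^ (n - 2)) • innerSL ℝ (x - y)) x := by
    have h2 := (hasFDerivAt_norm_rpow (x - y) hn1).comp x ((hasFDerivAt_id x).sub_const y)
    have e : ((n : ℝ) - 2) = ((n - 2 : ℕ) : ℝ) := by rw [Nat.cast_sub (by omega)]; norm_num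
    simp only [e, Real.rpow_natCast, ContinuousLinearMap.comp_id] at h2
    exact h2
  have h0 : ‖x - y‖ ^ n ≠ 0 := by positivity
  have h2 := (hasDerivAt_inv h0).comp_hasFDerivAt x h1
  have key : ∀ α, fderiv ℝ (fun z => newt y z α) x (EuclideanSpace.single α 1) =
      (‖x - y‖ ^ n)⁻¹ - ((‖x - y‖ ^ n) ^ 2)⁻¹ * (n * ‖x - y‖ ^ (n - 2)) * (x - y) α ^ 2 := by
    intro α
    have h3 : HasFDerivAt (fun z : E n => (z - y) α) (EuclideanSpace.proj α : E n →L[ℝ] ℝ) x := by
      have := (EuclideanSpace.proj α : E n →L[ℝ] ℝ).hasFDerivAt.comp x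
        ((hasFDerivAt_id x).sub_const y)
      rw [ContinuousLinearMap.comp_id] at this
      exact this
    have h4 := h2.mul h3
    have e : (fun z => newt y z α) =
        ((fun t : ℝ => t⁻¹) ∘ fun z : E n => ‖z - y‖ ^ n) * fun z : E n => (z - y) α := by
      funext z
      simp [newt]
    rw [e, h4.fderiv]
    simp only [_root_.add_apply, _root_.smul_apply, innerSL_apply_apply,
      smul_eq_mul, EuclideanSpace.inner_single_right, Function.comp_apply, conj_trivial]
    simp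
    ring
  simp only [key, Finset.sum_sub_distrib, Finset.sum_const, Finset.card_univ, Fintype.card_fin,
    nsmul_eq_mul, ← Finset.mul_sum]
  rw [← EuclideanSpace.real_norm_sq_eq]
  have e : ‖x - y‖ ^ n = ‖x - y‖ ^ (n - 2) * ‖x - y‖ ^ 2 := by
    rw [← pow_add]; congr 1; omega
  rw [mul_assoc, mul_assoc, ← e]
  field_simp
  ring

theorem scalar (hn : 3 ≤ n) {y : E n} {ψ : E n → ℝ} {K : ℝ≥0} (hψ : LipschitzWith K ψ)
    (hc : HasCompactSupport ψ) (hy : y ∉ tsupport ψ) :
    Integrable (fun x => ⟪gradient ψ x, newt y x⟫) ∧ ∫ x, ⟪gradient ψ x, newt y x⟫ = 0 := by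
  obtain ⟨ε, hε, hεs⟩ := Metric.nhds_basis_closedBall.mem_iff.1
    ((isClosed_tsupport ψ).isOpen_compl.mem_nhds hy)
  obtain ⟨R, hR, hRs⟩ := hc.isCompact.isBounded.subset_ball_lt 0 y
  set U : Set (E n) := ball y R \ closedBall y ε with hU
  have hUo : IsOpen U := isOpen_ball.sdiff isClosed_closedBall
  have hsU : tsupport ψ ⊆ U := fun x hx => ⟨hRs hx, fun h => hεs h hx⟩
  set N : Fin n → E n → ℝ :=
    fun α x => (1 - cut y (ε / 2) ε x) * cut y R (2 * R) x * newt y x α with hN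
  have hNU : ∀ α, ∀ x ∈ U, N α x = newt y x α := by
    intro α x hx
    have h1 : ‖x - y‖ < R := by simpa [dist_eq_norm] using hx.1
    have h2 : ε < ‖x - y‖ := by simpa [dist_eq_norm] using hx.2
    simp only [hN]
    rw [cut_eq_zero (by linarith) (by linarith) h2.le, cut_eq_one hR (by linarith) h1.le]
    ring
  have hNd : ∀ α, ContDiff ℝ 1 (N α) := by
    intro α
    rw [contDiff_iff_contDiffAt]
    intro x
    rcases eq_or_ne x y with rfl | h
    · refine (contDiffAt_const (c := (0 : ℝ))).congr_of_eventuallyEq ?_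
      filter_upwards [closedBall_mem_nhds x (half_pos hε)] with z hz
      simp only [hN]
      rw [cut_eq_one (half_pos hε) (by linarith) (by simpa [dist_eq_norm] using hz)]
      ring
    · refine ((contDiffAt_const.sub ((cut_contDiff _ _ _).of_le (by simp)).contDiffAt).mul
        ((cut_contDiff _ _ _).of_le (by simp)).contDiffAt).mul ?_
      exact (EuclideanSpace.proj α : E n →L[ℝ] ℝ).contDiff.contDiffAt.comp x (contDiffAt_newt h)
  have hNc : ∀ α, HasCompactSupport (N α) := fun α =>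
    HasCompactSupport.intro (isCompact_closedBall y (2 * R)) fun x hx => by
      rw [mem_closedBall, dist_eq_norm, not_le] at hx
      simp only [hN]
      rw [cut_eq_zero hR (by linarith) hx.le]
      ring
  have hI : ∀ α, Integrable fun x => lineDeriv ℝ ψ x (EuclideanSpace.single α 1) * N α x :=
    fun α => ((hNd α).continuous.integrable_of_hasCompactSupport (hNc α)).mul_of_top_right
      (hψ.memLp_lineDeriv _)
  have hae : (fun x => ⟪gradient ψ x, newt y x⟫) =ᵐ[volume]
      fun x => ∑ α, lineDeriv ℝ ψ x (EuclideanSpace.single α 1) * N α x := by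
    filter_upwards [hψ.ae_differentiableAt] with x hx
    simp only [PiLp.inner_apply, gradient_apply, hx.lineDeriv_eq_fderiv, pd]
    refine Finset.sum_congr rfl fun α _ => ?_
    by_cases hxU : x ∈ U
    · rw [hNU α x hxU]; simp [mul_comm]
    · have : fderiv ℝ ψ x = 0 := fderiv_of_notMem_tsupport ℝ fun h => hxU (hsU h)
      simp [this]
  refine ⟨(integrable_finsetSum _ fun α _ => hI α).congr hae.symm, ?_⟩
  rw [integral_congr_ae hae, integral_finsetSum _ fun α _ => hI α]
  have hparts : ∀ α, ∫ x, lineDeriv ℝ ψ x (EuclideanSpace.single α 1) * N α x =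
      ∫ x, -(fderiv ℝ (N α) x (EuclideanSpace.single α 1) * ψ x) := by
    intro α
    obtain ⟨D, hD⟩ := (hNd α).lipschitzWith_of_hasCompactSupport (hNc α) one_ne_zero
    rw [hψ.integral_lineDeriv_mul_eq hD (hNc α)]
    congr 1
    funext x
    rw [((hNd α).differentiable one_ne_zero x).lineDeriv_eq_fderiv, map_neg, neg_mul]
  simp only [hparts]
  rw [← integral_finsetSum]
  · apply integral_eq_zero_of_ae
    refine Eventually.of_forall fun x => ?_
    simp only [Finset.sum_neg_distrib, ← Finset.sum_mul, Pi.zero_apply, neg_eq_zero, mul_eq_zero]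
    by_cases hxU : x ∈ U
    · left
      have hne : x ≠ y := fun h => hxU.2 (h ▸ mem_closedBall_self hε.le)
      rw [← div_newt hn hne]
      refine Finset.sum_congr rfl fun α _ => ?_
      have : N α =ᶠ[𝓝 x] fun z => newt y z α := by
        filter_upwards [hUo.mem_nhds hxU] with z hz using hNU α z hz
      rw [this.fderiv_eq]
    · right
      exact image_eq_zero_of_notMem_tsupport fun h => hxU (hsU h)
  · intro α _
    apply Integrable.neg
    apply Continuous.integrable_of_hasCompactSupport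
    · exact (((hNd α).continuous_fderiv one_ne_zero).clm_apply continuous_const).mul
        hψ.continuous
    · exact hc.mul_left

theorem vector (hn : 3 ≤ n) (F : V m) {y : E n} {φ : E n → V m} {K : ℝ≥0}
    (hφ : LipschitzWith K φ) (hc : HasCompactSupport φ) (hy : y ∉ tsupport φ) :
    Integrable (fun x => ⟪tens F (newt y x), grad φ x⟫) ∧
      ∫ x, ⟪tens F (newt y x), grad φ x⟫ = 0 := by
  have hs : ∀ i, Integrable (fun x => ⟪gradient (fun z => φ z i) x, newt y x⟫) ∧
      ∫ x, ⟪gradient (fun z => φ z i) x, newt y x⟫ = 0 := fun i =>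
    scalar hn ((EuclideanSpace.proj i : V m →L[ℝ] ℝ).lipschitz.comp hφ)
      (hc.comp_left (g := fun v : V m => v i) rfl)
      fun h => hy (tsupport_comp_subset (g := fun v : V m => v i) rfl φ h)
  have hae : (fun x => ⟪tens F (newt y x), grad φ x⟫) =ᵐ[volume]
      fun x => ∑ i, F i * ⟪gradient (fun z => φ z i) x, newt y x⟫ := by
    filter_upwards [hφ.ae_differentiableAt] with x hx
    rw [real_inner_comm, inner_tens]
    simp only [row_grad hx]
  refine ⟨(integrable_finsetSum _ fun i _ => (hs i).1.const_mul _).congr hae.symm, ?_⟩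
  rw [integral_congr_ae hae, integral_finsetSum _ fun i _ => (hs i).1.const_mul _]
  simp only [integral_const_mul, (hs _).2, mul_zero, Finset.sum_const_zero]

theorem norm_mdl (F : V m) (y x : E n) : ‖mdl F y x‖ = ‖F‖ / ‖x - y‖ := by
  rw [mdl, norm_tens, norm_smul, norm_inv, norm_pow, norm_norm]
  rcases eq_or_ne ‖x - y‖ 0 with h | h
  · simp [h]
  · field_simp

end Mdl

theorem stMdl : StMdl := by
  intro n hn
  refine ⟨Mdl.cN_pos hn, fun y r hr => Mdl.flux_int y hr, fun m F y =>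
    ⟨fun x => ⟨Mdl.norm_mdl F y x, ?_, ?_⟩, ?_, ?_, ?_, ?_, fun φ K h1 h2 h3 =>
      Mdl.vector hn F h1 h2 h3⟩⟩
  · rw [sig, Mdl.norm_mdl, mdl, sig, newt, tens_smul_left, tens_smul_right, tens_smul_right,
      smul_smul, smul_smul]
    congr 1
    have e : ‖x - y‖ ^ n = ‖x - y‖ ^ (n - 2) * ‖x - y‖ ^ 2 := by
      rw [← pow_add]; congr 1; omega
    rw [e, div_pow, mul_inv, div_eq_mul_inv, mul_assoc]
  · rw [newt, norm_smul, norm_inv, norm_pow, norm_norm]
    have e : ‖x - y‖ ^ n = ‖x - y‖ ^ (n - 1) * ‖x - y‖ := by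
      rw [← pow_succ]; congr 1; omega
    rcases eq_or_ne ‖x - y‖ 0 with h | h
    · rw [h, mul_zero, zero_pow (by omega), _root_.inv_zero]
    · rw [e]; field_simp
  · have h : Measurable fun x : E n => (F, (‖x - y‖ ^ 2)⁻¹ • (x - y)) := by fun_prop
    exact continuous_tens.measurable.comp h
  · unfold newt
    fun_prop
  · intro x hx
    exact ((Mdl.contDiffAt_norm' hx).log
      (norm_ne_zero_iff.2 (sub_ne_zero.2 hx))).contDiffWithinAt
  · intro x hx
    rw [grad_smul_const (((Mdl.contDiffAt_norm' hx).log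
      (norm_ne_zero_iff.2 (sub_ne_zero.2 hx))).differentiableAt one_ne_zero), Mdl.gradient_log hx,
      mdl]

end Pool.Agent.P.MP_28243e_an
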