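import Pool.Agent.P.MP_28243e_an.Basic

/-! Summability of the damping factors and the total cost seen from one point. -/

namespace Pool.Agent.P.MP_28243e_an

open Set MeasureTheory Metric Filter Topology ENNReal
open scoped NNReal

namespace NY

lemma ofReal_rho (k : ℤ) : ENNReal.ofReal (rho k) = (2 : ℝ≥0∞) ^ (-(k : ℝ)) := by
  rw [rho, ← Real.rpow_intCast, ← ENNReal.ofReal_rpow_of_pos (by norm_num)]
  simp

lemma exists_level {b : ℝ≥0∞} (h0 : b ≠ 0) (h1 : b ≤ 1) :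
    ∃ i : ℕ, 2⁻¹ ^ (i + 1) < b ∧ b ≤ 2⁻¹ ^ i := by
  classical
  have h := ENNReal.exists_inv_two_pow_lt h0
  have h2 := Nat.find_spec h
  obtain ⟨i, hi⟩ : ∃ i, Nat.find h = i + 1 := Nat.exists_eq_succ_of_ne_zero fun h3 => by
    rw [h3, pow_zero] at h2
    exact absurd h1 (not_le.2 h2)
  exact ⟨i, hi ▸ h2, not_lt.1 (Nat.find_min h (by omega))⟩

lemma tsum_tail (κ : ℤ) (r : ℝ≥0∞) :
    ∑' k : ℤ, (if κ ≤ k then r ^ (k - κ).toNat else 0) = (1 - r)⁻¹ := by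
  have hi : Function.Injective fun j : ℕ => κ + j := fun a b h => by simpa using h
  rw [← hi.tsum_eq, ← ENNReal.tsum_geometric]
  · exact tsum_congr fun j => by simp
  · intro k hk
    have : κ ≤ k := by
      by_contra h
      exact hk (if_neg h)
    exact ⟨(k - κ).toNat, by simp [Int.toNat_of_nonneg (sub_nonneg.2 this)]⟩

lemma sum_abs {b t : ℤ → ℝ≥0∞} {A r s : ℝ≥0∞} (h0 : ∀ k, b k ≠ 0) (h1 : ∀ k, b k ≤ 1)
    (hb : ∀ ε : ℝ≥0∞, ε ≠ 0 → ∃ k0, ∀ k, ε < b k → k0 ≤ k)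
    (ht : ∀ k k' (i : ℕ), k' ≤ k → b k ≤ 2⁻¹ ^ i → 2⁻¹ ^ (i + 1) < b k' →
      t k ≤ A * s ^ i * r ^ (k - k').toNat) :
    ∑' k, t k ≤ A * (1 - s)⁻¹ * (1 - r)⁻¹ := by
  have hκ : ∀ i : ℕ, ∃ κ : ℤ, ∀ k, 2⁻¹ ^ (i + 1) < b k → κ ≤ k ∧ 2⁻¹ ^ (i + 1) < b κ := fun i => by
    by_cases h : ∃ k, 2⁻¹ ^ (i + 1) < b k
    · obtain ⟨κ, h2, h3⟩ := Int.exists_least_of_bdd (hb _ (pow_ne_zero _ (by simp))) h
      exact ⟨κ, fun k hk => ⟨h3 k hk, h2⟩⟩
    · exact ⟨0, fun k hk => absurd ⟨k, hk⟩ h⟩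
  choose κ hκ using hκ
  calc _ ≤ ∑' k : ℤ, ∑' i : ℕ, A * s ^ i * (if κ i ≤ k then r ^ (k - κ i).toNat else 0) := by
        refine ENNReal.tsum_le_tsum fun k => ?_
        obtain ⟨i, a1, a2⟩ := exists_level (h0 k) (h1 k)
        refine le_trans ?_ (ENNReal.le_tsum i)
        rw [if_pos (hκ i k a1).1]
        exact ht k _ i (hκ i k a1).1 a2 (hκ i k a1).2
    _ = _ := by
        rw [ENNReal.tsum_comm]
        simp only [ENNReal.tsum_mul_left, tsum_tail]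
        rw [ENNReal.tsum_mul_right, ENNReal.tsum_mul_left, ENNReal.tsum_geometric]

lemma two_rpow_lt_one {a : ℝ} (ha : 0 < a) : (2 : ℝ≥0∞) ^ (-a) < 1 :=
  ENNReal.rpow_lt_one_of_one_lt_of_neg (by norm_num) (by linarith)

lemma geo_ne_top {a : ℝ} (ha : 0 < a) : (1 - (2 : ℝ≥0∞) ^ (-a))⁻¹ ≠ ⊤ :=
  ENNReal.inv_ne_top.2 (tsub_pos_of_lt (two_rpow_lt_one ha)).ne'

lemma half_pow_rpow (i : ℕ) (a : ℝ) : ((2 : ℝ≥0∞)⁻¹ ^ i) ^ a = (2 ^ (-a)) ^ i := by
  rw [← ENNReal.rpow_natCast, ← ENNReal.rpow_natCast, ← ENNReal.rpow_neg_one, ← ENNReal.rpow_mul,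
    ← ENNReal.rpow_mul, ← ENNReal.rpow_mul]
  congr 1
  ring

lemma ratio {k k' : ℤ} {l l' g g' : ℝ≥0∞} (h1 : l ≤ 16 * g) (h2 : g' ≤ 4 * l') :
    2 ^ (((k - k' : ℤ) : ℝ) / 2) * (ENNReal.ofReal (rho k) * l) / (ENNReal.ofReal (rho k') * l') ≤
      64 * 2 ^ (-((k - k' : ℤ) : ℝ) / 2) * g / g' := by
  have h3 : l'⁻¹ ≤ 4 * g'⁻¹ := by
    have := ENNReal.inv_le_inv.2 h2
    rw [ENNReal.mul_inv (by simp) (by simp)] at this
    calc _ = 4 * (4⁻¹ * l'⁻¹) := by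
          rw [← mul_assoc, ENNReal.mul_inv_cancel (by simp) (by simp), one_mul]
      _ ≤ _ := by gcongr
  have e1 : (2 : ℝ≥0∞) ^ (((k - k' : ℤ) : ℝ) / 2) * 2 ^ (-(k : ℝ)) * (2 ^ (-(k' : ℝ)))⁻¹ =
      2 ^ (-((k - k' : ℤ) : ℝ) / 2) := by
    rw [← ENNReal.rpow_neg, ← ENNReal.rpow_add _ _ (by simp) (by simp),
      ← ENNReal.rpow_add _ _ (by simp) (by simp)]
    congr 1
    push_cast
    ring
  rw [ofReal_rho, ofReal_rho, ENNReal.div_eq_inv_mul, ENNReal.div_eq_inv_mul,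
    ENNReal.mul_inv (Or.inl (by simp)) (Or.inl (by simp)), ← e1]
  calc _ = 2 ^ (((k - k' : ℤ) : ℝ) / 2) * 2 ^ (-(k : ℝ)) * (2 ^ (-(k' : ℝ)))⁻¹ * l * l'⁻¹ := by
        ring
    _ ≤ 2 ^ (((k - k' : ℤ) : ℝ) / 2) * 2 ^ (-(k : ℝ)) * (2 ^ (-(k' : ℝ)))⁻¹ * (16 * g) *
          (4 * g'⁻¹) := by gcongr
    _ = _ := by ring

end NY

open NY in
theorem stKC (h5 : StA5) (h8 : StA8) : StKC := by
  intro n hn θ δ hθ hδ
  obtain ⟨C5, h5⟩ := h5 n hn
  obtain ⟨C8, h8⟩ := h8 n hn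
  have hA : (128 : ℝ≥0∞) ^ θ * 16 ^ δ * (1 - 2 ^ (-δ))⁻¹ * (1 - 2 ^ (-(θ / 2)))⁻¹ ≠ ⊤ :=
    mul_ne_top (mul_ne_top (mul_ne_top (rpow_ne_top_of_nonneg hθ.le (by simp))
      (rpow_ne_top_of_nonneg hδ.le (by simp))) (geo_ne_top hδ)) (geo_ne_top (half_pos hθ))
  refine ⟨((128 : ℝ≥0∞) ^ θ * 16 ^ δ * (1 - 2 ^ (-δ))⁻¹ * (1 - 2 ^ (-(θ / 2)))⁻¹).toNNReal,
    fun G hG => ⟨fun k x => (⨅ (k' : ℤ) (_ : k' ≤ k),
    (64 * 2 ^ (-((k - k' : ℤ) : ℝ) / 2) * gs G x (rho (k - 2)) / gs G x (rho (k' - 2))) ^ θ) *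
    (16 * gs G x (rho (k - 2)) / mq G x) ^ δ, fun k => ?_, fun x => ?_, fun k x y w hx hw => ?_⟩⟩
  · have m1 := fun r => measurable_gs hn hG.meas r
    have m2 := measurable_mq hG.meas
    refine Measurable.mul (Measurable.iInf fun k' => Measurable.iInf fun _ => ?_) ?_
    · exact (((m1 _).const_mul _).div (m1 _)).pow_const _
    · exact (((m1 _).const_mul _).div m2).pow_const _
  · rw [ENNReal.coe_toNNReal hA]
    obtain ⟨p1, -, -, p2, -⟩ := h8 G hG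
    obtain ⟨-, -, -, p3, -⟩ := h5 G 1 hG.meas hG.weak
    by_cases hM : mq G x = ⊤
    · simp [hM, ENNReal.zero_rpow_of_pos hδ]
    have hM0 := (p1 x).ne'
    refine sum_abs (b := fun k => gs G x (rho (k - 2)) / mq G x)
      (fun k => (ENNReal.div_pos (p2 x _ (rho_pos _)).ne' hM).ne')
      (fun k => ENNReal.div_le_of_le_mul (by rw [one_mul]; exact gs_le_mq hn G x (rho_pos _)))
      (fun ε hε => ?_) fun k k' i hk a1 a2 => ?_
    · obtain ⟨j, hj⟩ := ENNReal.exists_nat_mul_gt (mul_ne_zero hε hM0) (b := C5) coe_ne_top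
      obtain ⟨k0, -, h0⟩ := exists_rho (s := j + 1) (by positivity)
      refine ⟨k0 + 2, fun k hk => not_lt.1 fun h1 => ?_⟩
      have h2 := p3 x (rho (k - 2)) (rho_pos _)
      have h3 : (j : ℝ≥0∞) ≤ ENNReal.ofReal (rho (k - 2)) := by
        rw [← ENNReal.ofReal_natCast]
        exact ENNReal.ofReal_le_ofReal (by linarith [rho_anti (show k - 2 ≤ k0 by omega)])
      have h4 : ε * mq G x ≤ gs G x (rho (k - 2)) := ENNReal.mul_le_of_le_div hk.le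
      rw [ENNReal.coe_one, mul_one] at h2
      exact absurd ((mul_le_mul' h3 h4).trans h2) (not_le.2 hj)
    · have b1 : gs G x (rho (k - 2)) / gs G x (rho (k' - 2)) ≤ 2 := by
        refine ENNReal.div_le_of_le_mul ?_
        have c1 := (ENNReal.div_le_iff hM0 hM).1 a1
        have c2 := ENNReal.mul_le_of_le_div a2.le
        calc _ ≤ 2⁻¹ ^ i * mq G x := c1
          _ = 2 * (2⁻¹ ^ (i + 1) * mq G x) := by
              rw [pow_succ', ← mul_assoc, ← mul_assoc, ENNReal.mul_inv_cancel (by simp) (by simp),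
                one_mul]
          _ ≤ _ := by gcongr
      have b2 : ((2 : ℝ≥0∞) ^ (-((k - k' : ℤ) : ℝ) / 2)) ^ θ = (2 ^ (-(θ / 2))) ^ (k - k').toNat := by
        rw [← ENNReal.rpow_natCast, ← ENNReal.rpow_mul, ← ENNReal.rpow_mul,
          ← Int.cast_natCast, Int.toNat_of_nonneg (sub_nonneg.2 hk)]
        congr 1
        ring
      calc _ ≤ ((128 : ℝ≥0∞) * 2 ^ (-((k - k' : ℤ) : ℝ) / 2)) ^ θ *
            ((16 : ℝ≥0∞) * 2⁻¹ ^ i) ^ δ := by
            refine mul_le_mul' ((iInf₂_le k' hk).trans (ENNReal.rpow_le_rpow ?_ hθ.le))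
              (ENNReal.rpow_le_rpow (by rw [mul_div_assoc]; gcongr) hδ.le)
            calc _ = 64 * 2 ^ (-((k - k' : ℤ) : ℝ) / 2) *
                  (gs G x (rho (k - 2)) / gs G x (rho (k' - 2))) := by rw [mul_div_assoc]
              _ ≤ 64 * 2 ^ (-((k - k' : ℤ) : ℝ) / 2) * 2 := by gcongr
              _ = _ := by ring
        _ = _ := by
            rw [ENNReal.mul_rpow_of_nonneg _ _ hθ.le, ENNReal.mul_rpow_of_nonneg _ _ hδ.le, b2,
              half_pow_rpow]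
            ring
  · have r1 : ∀ l : ℤ, rho (l - 2) = 4 * rho l := fun l => by
      rw [show l - 2 = l - 1 - 1 by ring, rho_pred, rho_pred]; ring
    rw [mem_ball, dist_eq_norm, rho_pred] at hx
    have a1 : lam G y k ≤ 16 * gs G x (rho (k - 2)) := by
      have := gs_le_gs hn G (x := y) (x' := x) (r' := rho (k - 2)) (K := 4) (rho_pos k)
        (by rw [norm_sub_rev]; linarith [rho_pos k]) (r1 k).le
      rwa [show ENNReal.ofReal (4 ^ 2) = 16 by norm_num] at this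
    refine mul_le_mul' (le_iInf₂ fun k' hk => (hw k' hk).trans (ENNReal.rpow_le_rpow
      (ratio a1 ?_) hθ.le)) ((min_le_right _ _).trans (ENNReal.rpow_le_rpow (by gcongr) hδ.le))
    have := gs_le_gs hn G (x := x) (x' := y) (r' := rho k') (K := 2) (rho_pos (k' - 2))
      (by rw [r1]; linarith [rho_pos k', rho_anti hk]) (by rw [r1]; linarith [rho_pos k'])
    rwa [show ENNReal.ofReal (2 ^ 2) = 4 by norm_num] at this

namespace NY

lemma sum_pow_le (S : Finset ℕ) (a B : ℝ≥0∞) (h : ∀ i ∈ S, a * 2 ^ i ≤ B) :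
    ∑ i ∈ S, a * 2 ^ i ≤ 2 * B := by
  rcases S.eq_empty_or_nonempty with rfl | hS
  · simp
  have h1 : ∀ j : ℕ, ∑ i ∈ Finset.range j, (2 : ℝ≥0∞) ^ i ≤ 2 ^ j := fun j => by
    induction j with
    | zero => simp
    | succ j ih => rw [Finset.sum_range_succ, pow_succ, mul_two]; gcongr
  calc _ ≤ ∑ i ∈ Finset.range (S.max' hS + 1), a * 2 ^ i :=
        Finset.sum_le_sum_of_subset fun i hi =>
          Finset.mem_range.2 (Nat.lt_succ_of_le (S.le_max' i hi))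
    _ ≤ a * 2 ^ (S.max' hS + 1) := by rw [← Finset.mul_sum]; gcongr; exact h1 _
    _ = 2 * (a * 2 ^ S.max' hS) := by ring
    _ ≤ _ := by gcongr; exact h _ (S.max'_mem hS)

lemma cls {g s s2 I : ℤ → ℝ≥0∞} {N C : ℝ≥0∞} {e : ℝ} (he : 0 < e) (he1 : e ≤ 1) (hN : N ≠ ⊤)
    (T : Finset ℤ) (hT : ∀ k ∈ T, s k ≠ 0 ∧ s k ≤ N)
    (H : ∀ μ : ℝ≥0∞, 0 < μ → μ < ⊤ → ∀ T' ⊆ T, T'.Nonempty → (∀ k ∈ T', s k ≤ μ) →
      ∑ k ∈ T', g k ≤ C * (μ ^ (1 + e) + μ ^ 2 + ∑' k, if s2 k ≤ 2 * μ then I k else 0)) :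
    ∑ k ∈ T, g k / s k ≤
      2 * C * ((1 - 2 ^ (-e))⁻¹ + 2) * (1 + N) + 8 * C * ∑' k, I k / s2 k := by
  classical
  rcases T.eq_empty_or_nonempty with rfl | ⟨k0, hk0⟩
  · simp
  have hN0 : N ≠ 0 := fun h => (hT k0 hk0).1 (le_antisymm (h ▸ (hT k0 hk0).2) zero_le)
  have hl : ∀ k, ∃ i : ℕ, k ∈ T → N * 2⁻¹ ^ i ≤ 2 * s k ∧ s k ≤ N * 2⁻¹ ^ i := fun k => by
    by_cases hk : k ∈ T
    · obtain ⟨i, a1, a2⟩ := exists_level (b := s k / N) (ENNReal.div_pos (hT k hk).1 hN).ne'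
        (ENNReal.div_le_of_le_mul (by rw [one_mul]; exact (hT k hk).2))
      refine ⟨i, fun _ => ⟨?_, by rw [mul_comm]; exact (ENNReal.div_le_iff hN0 hN).1 a2⟩⟩
      calc _ = 2 * (2⁻¹ ^ (i + 1) * N) := by
            rw [pow_succ', ← mul_assoc, ← mul_assoc, ENNReal.mul_inv_cancel (by simp) (by simp),
              one_mul, mul_comm]
        _ ≤ _ := by gcongr; exact ENNReal.mul_le_of_le_div a1.le
    · exact ⟨0, fun h => absurd h hk⟩
  choose lev hl using hl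
  have m0 : ∀ i : ℕ, N * 2⁻¹ ^ i ≠ 0 := fun i => mul_ne_zero hN0 (pow_ne_zero _ (by simp))
  have m1 : ∀ i : ℕ, N * 2⁻¹ ^ i ≠ ⊤ := fun i => mul_ne_top hN (pow_ne_top (by simp))
  have m2 : ∀ i : ℕ, (N * 2⁻¹ ^ i)⁻¹ = N⁻¹ * 2 ^ i := fun i => by
    rw [ENNReal.mul_inv (Or.inl hN0) (Or.inl hN), ENNReal.inv_pow, inv_inv]
  have h1 : ∀ i ∈ T.image lev, ∑ k ∈ T with lev k = i, g k / s k ≤
      2 * C * ((N * 2⁻¹ ^ i) ^ e + N * 2⁻¹ ^ i +
        ∑' k, I k * if s2 k ≤ 2 * (N * 2⁻¹ ^ i) then N⁻¹ * 2 ^ i else 0) := by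
    intro i hi
    obtain ⟨k1, a1, a2⟩ := Finset.mem_image.1 hi
    have a3 := H _ (pos_iff_ne_zero.2 (m0 i)) (m1 i).lt_top (T.filter fun k => lev k = i)
      (Finset.filter_subset _ _) ⟨k1, Finset.mem_filter.2 ⟨a1, a2⟩⟩ fun k hk => by
        have := Finset.mem_filter.1 hk
        exact this.2 ▸ (hl k this.1).2
    have a4 := m0 i
    have a5 := m1 i
    rw [← m2]
    generalize hμ : N * 2⁻¹ ^ i = μ at a3 a4 a5 ⊢
    calc _ ≤ ∑ k ∈ T with lev k = i, 2 * μ⁻¹ * g k := by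
          refine Finset.sum_le_sum fun k hk => ?_
          have b0 := Finset.mem_filter.1 hk
          have b1 := ENNReal.inv_le_inv.2 (hl k b0.1).1
          rw [b0.2, hμ, ENNReal.mul_inv (by simp) (by simp)] at b1
          rw [ENNReal.div_eq_inv_mul]
          gcongr
          calc _ = 2 * (2⁻¹ * (s k)⁻¹) := by
                rw [← mul_assoc, ENNReal.mul_inv_cancel (by simp) (by simp), one_mul]
            _ ≤ _ := by gcongr
      _ ≤ 2 * μ⁻¹ * (C * (μ ^ (1 + e) + μ ^ 2 + ∑' k, if s2 k ≤ 2 * μ then I k else 0)) := by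
          rw [← Finset.mul_sum]; gcongr
      _ = 2 * C * ((μ⁻¹ * μ) * μ ^ e + (μ⁻¹ * μ) * μ +
            μ⁻¹ * ∑' k, if s2 k ≤ 2 * μ then I k else 0) := by
          rw [ENNReal.rpow_add _ _ a4 a5, ENNReal.rpow_one]; ring
      _ = _ := by
          rw [ENNReal.inv_mul_cancel a4 a5, one_mul, one_mul, ← ENNReal.tsum_mul_left]
          congr 2
          exact tsum_congr fun k => by split_ifs <;> simp [mul_comm]
  have h2 : ∑ i ∈ T.image lev, (N * 2⁻¹ ^ i) ^ e ≤ (1 - 2 ^ (-e))⁻¹ * (1 + N) := by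
    simp only [ENNReal.mul_rpow_of_nonneg _ _ he.le, half_pow_rpow]
    rw [← Finset.mul_sum, mul_comm, ← ENNReal.tsum_geometric]
    refine mul_le_mul' (ENNReal.sum_le_tsum _) ?_
    rcases le_total N 1 with h | h
    · exact (ENNReal.rpow_le_one h he.le).trans le_self_add
    · exact ((ENNReal.rpow_le_rpow_of_exponent_le h he1).trans_eq (ENNReal.rpow_one N)).trans
        le_add_self
  have h3 : ∑ i ∈ T.image lev, N * 2⁻¹ ^ i ≤ 2 * (1 + N) := by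
    rw [← Finset.mul_sum, mul_comm]
    exact mul_le_mul' ((ENNReal.sum_le_tsum _).trans_eq ENNReal.tsum_geometric_two) le_add_self
  have h4 : ∑ i ∈ T.image lev, ∑' k, I k * (if s2 k ≤ 2 * (N * 2⁻¹ ^ i) then N⁻¹ * 2 ^ i else 0) ≤
      4 * ∑' k, I k / s2 k := by
    rw [← Summable.tsum_finsetSum (fun _ _ => ENNReal.summable), ← ENNReal.tsum_mul_left]
    refine ENNReal.tsum_le_tsum fun k => ?_
    rw [← Finset.mul_sum, ← Finset.sum_filter, div_eq_mul_inv, mul_left_comm]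
    gcongr
    refine (sum_pow_le _ _ (2 * (s2 k)⁻¹) fun i hi => ?_).trans_eq (by ring)
    have b1 := ENNReal.inv_le_inv.2 (Finset.mem_filter.1 hi).2
    rw [ENNReal.mul_inv (by simp) (by simp), m2] at b1
    calc _ = 2 * (2⁻¹ * (N⁻¹ * 2 ^ i)) := by
          rw [← mul_assoc, ENNReal.mul_inv_cancel (by simp) (by simp), one_mul]
      _ ≤ _ := by gcongr
  rw [← Finset.sum_fiberwise_of_maps_to (fun k hk => Finset.mem_image_of_mem lev hk)]
  refine (Finset.sum_le_sum h1).trans ?_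
  rw [← Finset.mul_sum, Finset.sum_add_distrib, Finset.sum_add_distrib]
  calc _ ≤ 2 * C * ((1 - 2 ^ (-e))⁻¹ * (1 + N) + 2 * (1 + N) + 4 * ∑' k, I k / s2 k) := by gcongr
    _ = _ := by ring

variable {n : ℕ}

lemma ms_anti (ν : E n → ℝ≥0∞) (y : E n) {k l : ℤ} (h : k ≤ l) : ms ν y l ≤ ms ν y k :=
  lintegral_mono_set (ball_subset_ball (rho_anti h))

lemma nu_add (ν : E n → ℝ≥0∞) (y : E n) (k : ℤ) : nu ν y k + ms ν y (k + 2) = ms ν y (k - 1) := by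
  unfold nu ms
  rw [← lintegral_union measurableSet_ball disjoint_sdiff_left,
    sdiff_union_of_subset (ball_subset_ball (rho_anti (by omega)))]

lemma sum_nu (ν : E n → ℝ≥0∞) (y : E n) {k l : ℤ} (h : k ≤ l) :
    ∑ j ∈ Finset.Icc k l, nu ν y j ≤ 3 * ms ν y (k - 1) := by
  have h1 : ∑ j ∈ Finset.Icc k l, nu ν y j + (ms ν y (l + 2) + ms ν y (l + 1) + ms ν y l) ≤
      3 * ms ν y (k - 1) := by
    induction l, h using Int.leInduction with
    | base =>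
      rw [Finset.Icc_self, Finset.sum_singleton, ← add_assoc, ← add_assoc, nu_add,
        show (3 : ℝ≥0∞) = 1 + 1 + 1 by norm_num, add_mul, add_mul, one_mul]
      gcongr <;> exact ms_anti ν y (by omega)
    | succ l hl ih =>
      rw [← Finset.insert_Icc_right_eq_Icc_add_one (by omega), Finset.sum_insert (by simp)]
      have := nu_add ν y (l + 1)
      rw [add_sub_cancel_right] at this
      refine le_trans (le_of_eq ?_) ih
      rw [← this, show l + 1 + 1 = l + 2 by ring]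
      ring
  exact le_self_add.trans h1

end NY

open NY in
theorem stNY (hFL : StFL) (hPL : StPL) (hSQ : StSQ) (hKC : StKC) : StNY := by
  intro n m hn Co
  obtain ⟨c, θ₀, δ₀, hc, hθ₀, hθ1, hδ₀, hδ1, hPL⟩ := hPL n m hn Co
  obtain ⟨θ, hθ, hSQ⟩ := hSQ n hn θ₀ hθ₀ hθ1
  obtain ⟨CF, hCF, hFL⟩ := hFL n m hn
  refine ⟨c, δ₀, hc, hδ₀, hδ1, fun δ hδ hδ' Λ l₀ => ?_⟩
  obtain ⟨CP, hPL⟩ := hPL δ hδ hδ'
  obtain ⟨hFL, -⟩ := hFL δ hδ (hδ'.trans hδ1)
  obtain ⟨CK, hKC⟩ := hKC n hn θ δ hθ hδ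
  obtain ⟨CS, hSQ⟩ := hSQ (6 * CF ^ 2) c CP Λ l₀ hc
  have hn' : (3 : ℝ) ≤ n := by exact_mod_cast hn
  have he : 0 < 1 / (4 * (n : ℝ)) := by positivity
  have he1 : 1 / (4 * (n : ℝ)) ≤ 1 := by rw [div_le_one (by positivity)]; linarith
  have hA : 2 * (CS : ℝ≥0∞) * ((1 - 2 ^ (-(1 / (4 * (n : ℝ)))))⁻¹ + 2) ≠ ⊤ :=
    mul_ne_top (mul_ne_top (by simp) coe_ne_top) (add_ne_top.2 ⟨geo_ne_top he, by simp⟩)
  obtain ⟨A, hA⟩ : ∃ A : ℝ≥0, 2 * (CS : ℝ≥0∞) * ((1 - 2 ^ (-(1 / (4 * (n : ℝ)))))⁻¹ + 2) = A :=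
    ⟨_, (ENNReal.coe_toNNReal hA).symm⟩
  refine ⟨CK + A + 8 * CS, fun U v G ν k' kf h hS => ?_⟩
  obtain ⟨Ψ, p1, p2, p3⟩ := hKC G hS.gd
  refine ⟨Ψ, p1, fun x => (p2 x).trans (by push_cast; exact le_self_add.trans le_self_add),
    fun r y T hr hT => ?_⟩
  have hF := hFL Co U v G ν k' kf h hS y
  have c1 : (1 : ℝ≥0∞) ≤ CF := by exact_mod_cast hCF
  have c2 : (CF : ℝ≥0∞) ^ 2 ≤ (6 * CF ^ 2 : ℝ≥0) := by
    push_cast; exact le_mul_of_one_le_left' (by norm_num)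
  have c3 : (CF : ℝ≥0∞) ≤ CF ^ 2 := by rw [sq]; exact le_mul_of_one_le_left' c1
  have c4 := c3.trans c2
  have c5 : (CF : ℝ≥0∞) * 2 ≤ (6 * CF ^ 2 : ℝ≥0) := by
    push_cast; rw [mul_comm]; gcongr; norm_num
  have c6 : (6 : ℝ≥0∞) ≤ (6 * CF ^ 2 : ℝ≥0) := by
    push_cast; exact le_mul_of_one_le_right' (c1.trans c3)
  rw [ENNReal.tsum_eq_iSup_sum]
  refine iSup_le fun s => ?_
  have e0 : ∑ k ∈ s, cost c δ l₀ U G ν k' y k / ms ν y k =
      ∑ k ∈ s.map (Function.Embedding.subtype _), cost c δ l₀ U G ν k' y k / ms ν y k := by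
    rw [Finset.sum_map]; rfl
  have e1 : ∀ k ∈ s.map (Function.Embedding.subtype _), k ∈ T := fun k hk => by
    obtain ⟨k1, -, rfl⟩ := Finset.mem_map.1 hk
    exact k1.2
  rw [e0]
  refine (cls (s2 := fun k => ms ν y (k - 2))
    (I := fun k => ∫⁻ x in ball y (rho (k - 1)), k' x * Ψ k x) (N := ∫⁻ x in ball 0 r, ν x)
    (C := CS) he he1 ((setLIntegral_le_lintegral _ _).trans_lt hS.finν).ne _
    (fun k hk => ⟨fun h0 => ?_, ?_⟩) fun μ hμ0 hμ1 T' hT' hne hμ => ?_).trans ?_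
  · have a1 := (hT k (e1 k hk)).2.2
    rw [h0, mul_zero, nonpos_iff_eq_zero, ENNReal.rpow_eq_zero_iff_of_pos (q1_pos hn)] at a1
    exact (hF k).1.1.ne' a1
  · exact (ms_anti ν y (by omega)).trans (lintegral_mono_set (hT k (e1 k hk)).1)
  · obtain ⟨k0, hk0, hmin⟩ := T'.exists_min_image id hne
    obtain ⟨a1, a2, -⟩ := hT k0 (e1 k0 (hT' hk0))
    have a3 : ∀ l, k0 - 6 ≤ l → ball y (rho l) ⊆ ball 0 (1 / 2) := fun l hl =>
      ((ball_subset_ball (rho_anti hl)).trans a1).trans (ball_subset_ball hr)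
    have a4 : ∀ l, k0 - 6 ≤ l → ms ν y l ≤ 2 * μ := fun l hl =>
      ((ms_anti ν y hl).trans a2).trans (by gcongr; exact hμ k0 hk0)
    obtain ⟨w, k₂, w1, w2⟩ := hSQ (ah G y) (XX c δ U G y) (kap G k' δ y) (nu ν y) (ff U y) (xx U y)
      μ (k0 - 4) T' hμ0 hμ1
      (fun k => ⟨(hF k).1.1, (hF k).1.2.1.trans c4, (hF k).1.2.2.2.1, (hF k).1.2.2.2.2.1⟩)
      (fun k hk => by
        obtain ⟨⟨-, -, -, -, -, -, -, -, b1, -, -, b2⟩, b3⟩ := hF k
        obtain ⟨b3, b4, -⟩ := b3 (a3 _ (by omega))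
        refine ⟨?_, b1.trans (by gcongr), ?_, ?_, ?_, le_add_self, ?_⟩
        · refine lt_of_le_of_lt ?_ hS.fink
          exact (setLIntegral_le_lintegral _ _).trans (lintegral_mono fun x =>
            mul_le_of_le_one_right' (psi_le_one _ _ _))
        · unfold ff xx
          rw [← enorm_neg (Ft U y (k + 1) - Ft U y k)]
          exact (le_of_eq (by congr 1; abel)).trans (enorm_add_le _ _)
        · calc _ ≤ CF * (2 * μ + 2 * (kap G k' δ y k ^ (1 / 2 : ℝ) *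
                ah G y k ^ (((n : ℝ) - 2) / 2))) := by
                refine b3.trans ?_
                exact mul_le_mul_right (add_le_add (a4 _ (by omega))
                  (by rw [two_mul]; exact le_self_add)) _
            _ = CF * 2 * (μ + kap G k' δ y k ^ (1 / 2 : ℝ) * ah G y k ^ (((n : ℝ) - 2) / 2)) := by
                ring
            _ ≤ _ := by gcongr
        · calc _ = xx U y k * xx U y k ^ (n - 2) := by
                rw [← pow_succ']; congr 1; omega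
            _ ≤ xx U y k * (ff U y k + xx U y k) ^ (n - 2) := by gcongr; exact le_add_self
            _ ≤ CF * (CF * _) := b2.trans (mul_le_mul_right b4 _)
            _ ≤ _ := by rw [← mul_assoc, ← sq]; gcongr
        · calc _ ≤ 3 * (2 * μ) := (sum_nu ν y hk).trans (by gcongr; exact a4 _ (by omega))
            _ = 6 * μ := by ring
            _ ≤ _ := by gcongr)
      (fun k₂ w hk hw => by
        have := hPL U v G ν k' kf h hS y (k0 - 4 + 3) k₂ w hk hw (a3 _ (by omega))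
        rwa [add_sub_cancel_right] at this)
      (fun k hk => ⟨by have := hmin k hk; simp only [id] at this; omega,
        (hT k (e1 k (hT' hk))).2.2.trans (by gcongr; exact hμ k hk)⟩)
    refine w2.trans ?_
    gcongr
    refine le_trans (Finset.sum_le_sum fun k hk => ?_) (ENNReal.sum_le_tsum _)
    have b1 := (Finset.mem_Icc.1 hk).1
    rw [if_pos (a4 _ (by omega))]
    refine (lintegral_const_mul_le _ _).trans (setLIntegral_mono' measurableSet_ball fun x hx => ?_)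
    rw [mul_left_comm]
    gcongr
    exact p3 k x y _ hx (w1 k b1)
  · rw [hA]
    push_cast
    gcongr
    exacts [le_add_self.trans le_self_add, le_add_self]

end Pool.Agent.P.MP_28243e_an
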