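import Pool.Agent.P.MP_28243e_an.P1

/-! Dyadic recursion, second file: the bound on the energy carried by `Zs` and the weak type
bound on small balls. -/

namespace Pool.Agent.P.MP_28243e_an

open Set MeasureTheory Metric Filter Topology ENNReal
open scoped NNReal Classical

namespace PR

variable {n : ℕ} {C : ℝ≥0} {G ν k' : E n → ℝ≥0∞} {δ : ℝ} {d C₁ : ℝ≥0} {J : ℕ}

/-- Maximal cells with large damped error. -/
def Ks (G k' : E n → ℝ≥0∞) (δ : ℝ) (d : ℝ≥0) (j : ℤ) : Set (E n) :=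
  Un fun k z => Fj G j k z ∧ isK G k' δ d j k z

/-- Maximal cells with large mass inside a ball. -/
def Ns (G ν : E n → ℝ≥0∞) (d : ℝ≥0) (r : ℝ) (j : ℤ) : Set (E n) :=
  Un fun k z => Fj G j k z ∧ isN ν d j k z ∧ ball (ctr k z) (2 ^ (n + 12) * rho k) ⊆ ball 0 r

theorem Cx.T_sub (h : Cx C G) (j : ℤ) : Tj G ν k' δ d j ⊆ Oj G j := by
  rw [h.OF]
  rintro x ⟨k, hk⟩
  exact ⟨k, hk.1⟩

theorem Cx.split (h : Cx C G) (ν k' : E n → ℝ≥0∞) (δ : ℝ) (d : ℝ≥0) {j₀ j : ℤ} {r₁ r₂ : ℝ}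
    (hgap : C * rho j₀ * 2 ^ (n + 13) ≤ r₂ - r₁) (hj : j₀ ≤ j) {x : E n} (hx : x ∈ Vs G j₀ r₁)
    (hO : x ∈ Oj G j) :
    x ∈ (Tj G ν k' δ d j ∩ Vs G j₀ r₁) ∪ Ks G k' δ d j ∪ Ns G ν d r₂ j := by
  rw [h.OF] at hO
  obtain ⟨k, hk⟩ := hO
  by_cases hK : isK G k' δ d j k (idx k x)
  · exact Or.inl (Or.inr ⟨k, hk, hK⟩)
  by_cases hN : isN ν d j k (idx k x)
  · exact Or.inr ⟨k, hk, hN, h.ball_Vs hgap hj hx hk⟩
  · exact Or.inl (Or.inl ⟨⟨k, hk, hK, hN⟩, hx⟩)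

theorem Cx.ball_half (h : Cx C G) {j₀ l : ℤ} {r₁ r₂ : ℝ}
    (hgap : C * rho j₀ * 2 ^ (n + 13) ≤ r₂ - r₁) (hr : r₂ ≤ 1 / 2) (hl : j₀ ≤ l) :
    ∀ x ∈ Vs G j₀ r₁, ∀ k, Fj G l k (idx k x) →
      ball (ctr k (idx k x)) (8 * n * rho k) ⊆ ball 0 (1 / 2) :=
  fun _ hx k hF => (ball_small k _).trans ((h.ball_Vs hgap hl hx hF).trans (ball_subset_ball hr))

theorem Cx.tau_rec (h : Cx C G) (hgi : Gi G ν k' δ d C₁ J) (c : ℝ≥0) {j₀ j : ℤ} {r₁ r₂ : ℝ}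
    (hgap : C * rho j₀ * 2 ^ (n + 13) ≤ r₂ - r₁) (hr : r₂ ≤ 1 / 2) (hj : j₀ ≤ j) :
    ∑ i ∈ Finset.Ico J (2 * J), tau G ν k' δ d J (j + i) (Vs G j₀ r₁) ≤
      C₁ * tau G ν k' δ d J j (Vs G j₀ r₁) + J * (J * (2 ^ (4 * J)) ^ n) *
        (w n j * volume (Ks G k' δ d j) +
          w n j * volume (bad G ν k' δ d c J j ∩ Ns G ν d r₂ j)) := by
  have h1 : ∀ i ∈ Finset.Ico J (2 * J), tau G ν k' δ d J (j + i) (Vs G j₀ r₁) ≤
      C₁ * (w n (j + i) * volume (Oj G (j + i) ∩ (Tj G ν k' δ d j ∩ Vs G j₀ r₁))) +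
        (J * (2 ^ (4 * J)) ^ n) * (w n j * volume (Ks G k' δ d j) +
          w n j * volume (bad G ν k' δ d c J j ∩ Ns G ν d r₂ j)) := by
    intro i hi
    rw [Finset.mem_Ico] at hi
    have hji : j ≤ j + i := by omega
    refine (tau_union3 (A₁ := Tj G ν k' δ d j ∩ Vs G j₀ r₁) (A₂ := Ks G k' δ d j)
      (A₃ := Ns G ν d r₂ j)
      fun x hx => h.split ν k' δ d hgap hj hx.2 (h.Omono _ _ hji (h.T_sub _ hx.1))).trans ?_
    rw [mul_add, add_assoc, mul_assoc, mul_assoc]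
    refine add_le_add ?_ (add_le_add ?_ ?_)
    · refine (h.tau_le hgi ((h.sat_Un (fun _ _ hp => hp.1) hji).inter
        (h.sat_Vs r₁ (hj.trans hji)))
        fun x hx => h.ball_half hgap hr (hj.trans hji) x hx.2).trans ?_
      exact mul_le_mul_right (mul_le_mul_right
        (measure_mono (inter_subset_inter_left _ (h.T_sub _))) _) _
    · exact tau_le_of_subset rfl hi.2.le fun i' _ _ x hx => hx.2.2
    · exact tau_le_of_subset rfl hi.2.le fun i' a b x hx =>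
        ⟨Or.inr ⟨i, i', hi.1, hi.2, a, b, hx.2.1, hx.1⟩, hx.2.2⟩
  refine (Finset.sum_le_sum h1).trans ?_
  rw [Finset.sum_add_distrib, ← Finset.mul_sum, Finset.sum_const, Nat.card_Ico, nsmul_eq_mul,
    show 2 * J - J = J by omega, ← mul_assoc]
  rfl

theorem tsum_shift_le (f : ℤ → ℝ≥0∞) (j : ℤ) : ∑' a : ℕ, f (j + a) ≤ ∑' l, f l :=
  ENNReal.tsum_comp_le_tsum_of_injective (f := fun a : ℕ => j + (a : ℤ))
    (fun a b hab => by simpa using hab) f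

theorem Cx.tau_sum (h : Cx C G) (hgi : Gi G ν k' δ d C₁ J) (hc : (C₁ : ℝ≥0∞) + 1 ≤ J) (c : ℝ≥0)
    {j₀ : ℤ} {r₁ r₂ : ℝ} (hgap : C * rho j₀ * 2 ^ (n + 13) ≤ r₂ - r₁) (hr : r₂ ≤ 1 / 2) :
    ∑' a : ℕ, tau G ν k' δ d J (j₀ + a) (Vs G j₀ r₁) ≤ J * (2 * J * (J * C)) +
      J * (J * (2 ^ (4 * J)) ^ n) * ((∑' j, w n j * volume (Ks G k' δ d j)) +
        ∑' j, w n j * volume (bad G ν k' δ d c J j ∩ Ns G ν d r₂ j)) := by
  have hle : ∀ l, tau G ν k' δ d J l (Vs G j₀ r₁) ≤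
      ∑ i ∈ Finset.Ico J (2 * J), w n (l + i) * volume (Oj G (l + i)) := fun l =>
    Finset.sum_le_sum fun i _ => mul_le_mul_right (measure_mono inter_subset_left) _
  refine (tsum_absorb (fun a => tau G ν k' δ d J (j₀ + a) (Vs G j₀ r₁))
    (fun a => J * (J * (2 ^ (4 * J)) ^ n) * (w n (j₀ + a) * volume (Ks G k' δ d (j₀ + a)) +
      w n (j₀ + a) * volume (bad G ν k' δ d c J (j₀ + a) ∩ Ns G ν d r₂ (j₀ + a))))
    J C₁ (J * C) hc ?_ ?_ ?_).trans ?_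
  · intro a
    have := h.tau_rec hgi c hgap hr (j := j₀ + a) (by omega)
    simpa only [Nat.cast_add, add_assoc] using this
  · refine ne_top_of_le_ne_top ?_ (ENNReal.tsum_le_tsum fun a => hle _)
    rw [Summable.tsum_finsetSum (fun _ _ => ENNReal.summable)]
    refine ENNReal.sum_ne_top.2 fun i _ => ne_top_of_le_ne_top h.Osum ?_
    have := tsum_shift_le (fun l => w n l * volume (Oj G l)) (j₀ + i)
    refine le_of_eq_of_le (tsum_congr fun a => ?_) this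
    rw [add_right_comm]
  · intro a
    refine (hle _).trans ((Finset.sum_le_card_nsmul _ _ (C : ℝ≥0∞) fun i _ => h.Ovol _).trans ?_)
    rw [Nat.card_Ico, nsmul_eq_mul, show 2 * J - J = J by omega]
  · rw [ENNReal.tsum_mul_left, ENNReal.tsum_add]
    gcongr
    · exact tsum_shift_le (fun l => w n l * volume (Ks G k' δ d l)) j₀
    · exact tsum_shift_le (fun l => w n l * volume (bad G ν k' δ d c J l ∩ Ns G ν d r₂ l)) j₀

theorem Cx.pow_le_of_notMem (h : Cx C G) {l : ℤ} {x : E n} (hx : x ∉ Oj G l) :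
    mq G x ^ n ≤ (2 ^ 4) ^ n * w n l := by
  have h1 : mq G x ≤ 2 ^ (l + 4) := not_lt.1 fun hlt => hx (h.Oin l x hlt)
  have := w_add (n := n) l 4
  rw [← this]
  exact pow_le_pow_left' h1 n

theorem Cx.exists_exit (h : Cx C G) {l : ℤ} {x : E n} (hx : x ∈ Oj G l) (hfin : mq G x ≠ ⊤) :
    ∃ a : ℕ, x ∈ Oj G (l + a) ∧ x ∉ Oj G (l + a + 1) := by
  by_contra hcon
  push Not at hcon
  have hall : ∀ a : ℕ, x ∈ Oj G (l + a) := by
    intro a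
    induction a with
    | zero => simpa using hx
    | succ a ih =>
      have := hcon a ih
      push_cast
      rwa [← add_assoc]
  obtain ⟨N, hN⟩ := ENNReal.exists_mem_Ioc_zpow (x := 4 * mq G x + 1) (y := 2) (by simp)
    (ENNReal.add_ne_top.2 ⟨ENNReal.mul_ne_top (by norm_num) hfin, by norm_num⟩) (by norm_num)
    (by norm_num)
  have h1 := h.Oout _ x (hall (N + 1 - l).toNat)
  have h2 : (2 : ℝ≥0∞) ^ (N + 1) ≤ 2 ^ (l + ((N + 1 - l).toNat : ℤ)) :=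
    ENNReal.zpow_le_of_le (by norm_num) (by omega)
  exact absurd (h1.trans_le (le_self_add.trans (hN.2.trans h2))) (lt_irrefl _)

theorem Cx.DD_le (h : Cx C G) (hgi : Gi G ν k' δ d C₁ J) (hJ : 1 ≤ J)
    (hc : (C₁ : ℝ≥0∞) + 1 ≤ J) (c : ℝ≥0) {j₀ : ℤ} {r₁ r₂ : ℝ}
    (hgap : C * rho j₀ * 2 ^ (n + 13) ≤ r₂ - r₁) (hr : r₂ ≤ 1 / 2) (hr₁ : r₁ ≤ 1)
    (hfin : ∀ᵐ x, mq G x < ⊤) :
    DD G c r₁ ≤ (2 ^ 4) ^ n * ((2 ^ J) ^ n * w n j₀) * volume (ball (0 : E n) 1) +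
      (2 ^ 5) ^ n * (J * (2 * J * (J * C)) + (J * (J * (2 ^ (4 * J)) ^ n) + (2 ^ J) ^ n) *
        ((∑' j, w n j * volume (Ks G k' δ d j)) +
          ∑' j, w n j * volume (bad G ν k' δ d c J j ∩ Ns G ν d r₂ j))) := by
  set A : ℕ → Set (E n) := fun a =>
    (Zs G c ∩ Vs G j₀ r₁) ∩ (Oj G (j₀ + a + J) \ Oj G (j₀ + a + J + 1)) with hA
  have hsub : ball (0 : E n) r₁ ∩ Zs G c ⊆
      (ball 0 1 \ Oj G (j₀ + J)) ∪ (⋃ a, A a) ∪ {x | ¬ mq G x < ⊤} := by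
    rintro x ⟨hx, hZ⟩
    by_cases hO : x ∈ Oj G (j₀ + J)
    · by_cases ht : mq G x < ⊤
      · obtain ⟨a, h1, h2⟩ := h.exists_exit hO ht.ne
        rw [add_right_comm j₀] at h1 h2
        exact Or.inl (Or.inr (mem_iUnion.2
          ⟨a, ⟨hZ, h.mem_Vs (l := j₀ + J) (by omega) hx hO⟩, h1, h2⟩))
      · exact Or.inr ht
    · exact Or.inl (Or.inl ⟨ball_subset_ball hr₁ hx, hO⟩)
  have hpiece : ∀ a : ℕ, ∫⁻ x in A a, mq G x ^ n ≤ (2 ^ 5) ^ n *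
      (tau G ν k' δ d J (j₀ + a) (Vs G j₀ r₁) + (2 ^ J) ^ n *
        (w n (j₀ + a) * volume (Ks G k' δ d (j₀ + a)) +
          w n (j₀ + a) * volume (bad G ν k' δ d c J (j₀ + a) ∩ Ns G ν d r₂ (j₀ + a)))) := by
    intro a
    refine (setLIntegral_mono (g := fun _ => (2 ^ 4) ^ n * w n (j₀ + a + J + 1))
      measurable_const fun x hx => h.pow_le_of_notMem hx.2.2).trans ?_
    have e1 : (2 ^ 4) ^ n * w n (j₀ + a + J + 1) = (2 ^ 5) ^ n * w n (j₀ + a + J) := by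
      have := w_add (n := n) (j₀ + a + J) 1
      rw [Nat.cast_one] at this
      rw [this, ← mul_assoc, ← mul_pow]
      norm_num
    rw [setLIntegral_const, e1, mul_assoc]
    gcongr
    have hs : A a ⊆ (Oj G (j₀ + a + J) ∩ (Tj G ν k' δ d (j₀ + a) ∩ Vs G j₀ r₁)) ∪
        (Ks G k' δ d (j₀ + a) ∪ (bad G ν k' δ d c J (j₀ + a) ∩ Ns G ν d r₂ (j₀ + a))) := by
      rintro x ⟨⟨hZ, hV⟩, h1, h2⟩
      rcases h.split ν k' δ d hgap (j := j₀ + a) (by omega) hV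
        (h.Omono _ _ (by omega) h1) with (b | b) | b
      · exact Or.inl ⟨h1, b⟩
      · exact Or.inr (Or.inl b)
      · exact Or.inr (Or.inr ⟨Or.inl ⟨hZ, fun h3 => h2 (h.Omono _ _ (by omega) h3)⟩, b⟩)
    refine (mul_le_mul_right ((measure_mono hs).trans ((measure_union_le _ _).trans
      (add_le_add_right (measure_union_le _ _) _))) _).trans ?_
    rw [mul_add]
    refine add_le_add ?_ ?_
    · exact Finset.single_le_sum (f := fun i : ℕ => w n (j₀ + a + i) *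
        volume (Oj G (j₀ + a + i) ∩ (Tj G ν k' δ d (j₀ + a) ∩ Vs G j₀ r₁)))
        (fun _ _ => zero_le) (Finset.mem_Ico.2 ⟨le_rfl, by omega⟩)
    · rw [w_add, mul_assoc, mul_add]
  unfold DD
  refine (lintegral_mono_set hsub).trans ((lintegral_union_le _ _ _).trans ?_)
  rw [setLIntegral_measure_zero _ _ (ae_iff.1 hfin), add_zero]
  refine (lintegral_union_le _ _ _).trans (add_le_add ?_ ?_)
  · refine (setLIntegral_mono (g := fun _ => (2 ^ 4) ^ n * w n (j₀ + J))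
      measurable_const fun x hx => h.pow_le_of_notMem hx.2).trans ?_
    rw [setLIntegral_const, w_add]
    gcongr
    exact sdiff_subset
  · refine (lintegral_iUnion_le _ _).trans ((ENNReal.tsum_le_tsum hpiece).trans ?_)
    rw [ENNReal.tsum_mul_left, ENNReal.tsum_add, ENNReal.tsum_mul_left, ENNReal.tsum_add,
      add_mul, ← add_assoc]
    gcongr
    · exact h.tau_sum hgi hc c hgap hr
    · exact tsum_shift_le (fun l => w n l * volume (Ks G k' δ d l)) j₀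
    · exact tsum_shift_le (fun l => w n l * volume (bad G ν k' δ d c J l ∩ Ns G ν d r₂ l)) j₀

theorem exists_level (n : ℕ) (C : ℝ≥0) {g : ℝ} (hg : 0 < g) : ∃ j₀ : ℤ,
    C * rho j₀ * 2 ^ (n + 13) ≤ g ∧ w n j₀ ≤
      ENNReal.ofReal ((2 * ((C + 1) * 2 ^ (n + 13))) ^ n) * (1 / ENNReal.ofReal (g ^ n)) := by
  have hD : (0 : ℝ) < (C + 1) * 2 ^ (n + 13) := by positivity
  obtain ⟨k, h1, h2⟩ := exists_rho (div_pos hg hD)
  rw [lt_div_iff₀ hD] at h1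
  rw [div_le_iff₀ hD] at h2
  have hp := rho_pos (k + 1)
  have hP : (0 : ℝ) < 2 ^ (n + 13) := by positivity
  refine ⟨k + 1, by nlinarith, ?_⟩
  have h3 : g ≤ 2 * ((C + 1) * 2 ^ (n + 13)) * rho (k + 1) := by
    rw [rho_succ]
    linarith
  rw [mul_one_div, ENNReal.le_div_iff_mul_le (Or.inl (by simpa using by positivity))
    (Or.inl ENNReal.ofReal_ne_top)]
  have h4 := w_mul_vol (n := n) (k + 1) (k + 1)
  rw [sz, sub_self, zpow_zero, one_pow] at h4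
  calc w n (k + 1) * ENNReal.ofReal (g ^ n)
      ≤ w n (k + 1) * ENNReal.ofReal ((2 * ((C + 1) * 2 ^ (n + 13)) * rho (k + 1)) ^ n) := by
        gcongr
    _ = ENNReal.ofReal ((2 * ((C + 1) * 2 ^ (n + 13))) ^ n) *
          (w n (k + 1) * ENNReal.ofReal (rho (k + 1) ^ n)) := by
        rw [mul_pow, ENNReal.ofReal_mul (by positivity)]
        ring
    _ = _ := by rw [h4, mul_one]

theorem Cx.xi_rec (h : Cx C G) (hgi : Gi G ν k' δ d C₁ J) {j₀ j : ℤ} {r₁ r₂ : ℝ}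
    (hgap : C * rho j₀ * 2 ^ (n + 13) ≤ r₂ - r₁) (hr : r₂ ≤ 1 / 2) (hj : j₀ ≤ j) :
    ∑ i ∈ Finset.Ico J (2 * J), w n (j + i) * volume (Oj G (j + i) ∩ Vs G j₀ r₁) ≤
      C₁ * (w n j * volume (Oj G j ∩ Vs G j₀ r₁)) + J * (2 ^ (2 * J)) ^ n *
        (w n j * volume (Ks G k' δ d j) + w n j * volume (Ns G ν d r₂ j)) := by
  have h1 : ∀ i ∈ Finset.Ico J (2 * J), w n (j + i) * volume (Oj G (j + i) ∩ Vs G j₀ r₁) ≤
      w n (j + i) * volume (Oj G (j + i) ∩ (Tj G ν k' δ d j ∩ Vs G j₀ r₁)) +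
        (2 ^ (2 * J)) ^ n * (w n j * volume (Ks G k' δ d j) + w n j * volume (Ns G ν d r₂ j)) := by
    intro i hi
    rw [Finset.mem_Ico] at hi
    have hs : Oj G (j + i) ∩ Vs G j₀ r₁ ⊆ (Oj G (j + i) ∩ (Tj G ν k' δ d j ∩ Vs G j₀ r₁)) ∪
        (Ks G k' δ d j ∪ Ns G ν d r₂ j) := by
      rintro x ⟨h1, hV⟩
      rcases h.split ν k' δ d hgap hj hV (h.Omono _ _ (by omega) h1) with (b | b) | b
      · exact Or.inl ⟨h1, b⟩
      · exact Or.inr (Or.inl b)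
      · exact Or.inr (Or.inr b)
    refine (mul_le_mul_right ((measure_mono hs).trans ((measure_union_le _ _).trans
      (add_le_add_right (measure_union_le _ _) _))) _).trans ?_
    rw [mul_add, ← mul_add (w n j), ← mul_assoc]
    gcongr
    exact w_add_le j hi.2.le
  refine (Finset.sum_le_sum h1).trans ?_
  rw [Finset.sum_add_distrib, Finset.sum_const, Nat.card_Ico, nsmul_eq_mul,
    show 2 * J - J = J by omega, ← mul_assoc]
  gcongr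
  refine (h.tau_le hgi (h.sat_Vs r₁ hj) (h.ball_half hgap hr hj)).trans ?_
  gcongr
  exact h.T_sub _

theorem exists_J (J₀ : ℕ) (C₁ : ℝ≥0) :
    ∃ J : ℕ, J₀ ≤ J ∧ 1 ≤ J ∧ (C₁ : ℝ≥0∞) + 1 ≤ J ∧ 2 * (C₁ : ℝ≥0∞) ≤ J := by
  obtain ⟨N, hN⟩ := exists_nat_ge (2 * C₁ + 1)
  have h1 : (2 * C₁ + 1 : ℝ≥0) ≤ (N + J₀ + 1 : ℕ) := hN.trans (by exact_mod_cast by omega)
  have h2 : 2 * (C₁ : ℝ≥0∞) + 1 ≤ (N + J₀ + 1 : ℕ) := by exact_mod_cast h1
  refine ⟨N + J₀ + 1, by omega, by omega, le_trans ?_ h2, le_self_add.trans h2⟩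
  gcongr
  exact le_mul_of_one_le_left' (by norm_num)

theorem two_J_delta {J : ℕ} (hJ : 1 ≤ J) {δ : ℝ} (h : δ ≤ 1 / (2 * J)) :
    2 * J * δ ≤ 1 ∧ δ ≤ 1 := by
  have h1 : (1 : ℝ) ≤ J := by exact_mod_cast hJ
  have h2 : (0 : ℝ) < 2 * J := by linarith
  rw [le_div_iff₀ h2] at h
  refine ⟨by linarith, ?_⟩
  by_contra hc
  push Not at hc
  nlinarith

end PR

open PR

theorem stP (hA8 : StA8) (hG0 : StG0) (hGI : StGI) (hGK : StGK) (hGN : StGN) : StP := by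
  intro n m hn Co
  obtain ⟨_, hA⟩ := hA8 n hn
  obtain ⟨C, hC⟩ := exists_cx hG0 hn
  obtain ⟨C₁, δ₁, hδ₁, hI⟩ := hGI n m hn Co
  obtain ⟨c', J₀, δ₂, hc0, hc1, hδ₂, hN⟩ := hGN n m hn Co
  obtain ⟨J, hJ0, hJ1, hJc, -⟩ := exists_J J₀ C₁
  obtain ⟨d₂, hd₂, hN⟩ := hN J hJ0
  have hJp : (0 : ℝ) < 1 / (2 * J) := by
    have : (0 : ℝ) < J := by exact_mod_cast hJ1
    positivity
  set δ : ℝ := min (min δ₁ δ₂) (1 / (2 * J)) with hδ
  have hδ0 : 0 < δ := lt_min (lt_min hδ₁ hδ₂) hJp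
  obtain ⟨e1, e2⟩ := two_J_delta hJ1 (δ := δ) (min_le_right _ _)
  obtain ⟨d₁, hd₁, hI⟩ := hI δ hδ0 ((min_le_left _ _).trans (min_le_left _ _))
  have hd0 : 0 < min d₁ d₂ := lt_min hd₁ hd₂
  obtain ⟨CN, hN⟩ := hN (min d₁ d₂) hd0 (min_le_right _ _) δ hδ0
    ((min_le_left _ _).trans (min_le_right _ _))
  obtain ⟨CK, hK⟩ := hGK n hn δ (min d₁ d₂) hδ0 e2 hd0
  set D : ℝ≥0∞ := ENNReal.ofReal ((2 * ((C + 1) * 2 ^ (n + 13))) ^ n) with hD
  set K : ℝ≥0∞ := (2 ^ 4) ^ n * ((2 ^ J) ^ n * D) * volume (ball (0 : E n) 1) +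
    (2 ^ 5) ^ n * (J * (2 * J * (J * C)) + (J * (J * (2 ^ (4 * J)) ^ n) + (2 ^ J) ^ n) *
      (CK + CN)) with hKdef
  have hKt : K ≠ ⊤ := by
    have := vol_ball_ne_top (0 : E n) 1
    have hDt : D ≠ ⊤ := ENNReal.ofReal_ne_top
    rw [hKdef]
    finiteness
  refine ⟨c', K.toNNReal, hc0, hc1, fun U v G ν k' kf h hS r₁ r₂ h1 h2 h3 => ?_⟩
  rw [ENNReal.coe_toNNReal hKt]
  obtain ⟨j₀, hgap, hw⟩ := exists_level n C (sub_pos.2 h2)
  have hgi : Gi G ν k' δ (min d₁ d₂) C₁ J :=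
    hI _ (min_le_left _ _) J hJ1 e1 U v G ν k' kf h hS
  refine ((hC G hS.gd).DD_le hgi hJ1 hJc c' hgap h3 (by linarith) (hA G hS.gd).2.1).trans ?_
  set X := 1 / ENNReal.ofReal ((r₂ - r₁) ^ n) + (∫⁻ x in ball 0 r₂, ν x) ^ 2 + ∫⁻ x, k' x with hX
  have g1 : (1 : ℝ≥0∞) ≤ 1 / ENNReal.ofReal ((r₂ - r₁) ^ n) := by
    rw [one_div, ENNReal.one_le_inv, ENNReal.ofReal_le_one]
    exact pow_le_one₀ (by linarith) (by linarith)
  have g2 : 1 / ENNReal.ofReal ((r₂ - r₁) ^ n) ≤ X := le_self_add.trans le_self_add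
  have g3 : ∑' j, w n j * volume (Ks G k' δ (min d₁ d₂) j) ≤ CK * X :=
    (hK G ν k' hS.gd hS.mν hS.mk').1.trans (mul_le_mul_right le_add_self _)
  have g4 : ∑' j, w n j * volume (bad G ν k' δ (min d₁ d₂) c' J j ∩ Ns G ν (min d₁ d₂) r₂ j) ≤
      CN * X := (hN U v G ν k' kf h hS r₂ h3).trans (by rw [hX]; gcongr)
  have g5 : w n j₀ ≤ D * X := hw.trans (mul_le_mul_right g2 _)
  calc _ ≤ (2 ^ 4) ^ n * ((2 ^ J) ^ n * (D * X)) * volume (ball (0 : E n) 1) +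
        (2 ^ 5) ^ n * (J * (2 * J * (J * C)) * X +
          (J * (J * (2 ^ (4 * J)) ^ n) + (2 ^ J) ^ n) * (CK * X + CN * X)) := by
        exact add_le_add (by gcongr) (mul_le_mul_right (add_le_add
          (le_mul_of_one_le_right' (g1.trans g2)) (mul_le_mul_right (add_le_add g3 g4) _)) _)
    _ = K * X := by rw [hKdef]; ring

theorem stWk (_ : StA8) (hG0 : StG0) (hGI : StGI) (hGK : StGK) : StWk := by
  intro n m hn Co η hη
  obtain ⟨C, hC⟩ := exists_cx hG0 hn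
  obtain ⟨C₁, δ₁, hδ₁, hI⟩ := hGI n m hn Co
  obtain ⟨J, -, hJ1, -, hJc⟩ := exists_J 0 C₁
  have hJp : (0 : ℝ) < 1 / (2 * J) := by
    have : (0 : ℝ) < J := by exact_mod_cast hJ1
    positivity
  set δ : ℝ := min δ₁ (1 / (2 * J)) with hδ
  have hδ0 : 0 < δ := lt_min hδ₁ hJp
  obtain ⟨e1, e2⟩ := two_J_delta hJ1 (δ := δ) (min_le_right _ _)
  obtain ⟨d, hd, hI⟩ := hI δ hδ0 (min_le_left _ _)
  obtain ⟨CK, hK⟩ := hGK n hn δ d hδ0 e2 hd
  obtain ⟨j₀, hgap, -⟩ := exists_level n C (g := 1 / 4 - 1 / 8) (by norm_num)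
  have hη' : (0 : ℝ≥0∞) < η := by exact_mod_cast hη
  set B : ℝ≥0∞ := (2 ^ 5) ^ n * (2 ^ (2 * J)) ^ n with hB
  have hBt : B ≠ ⊤ := by rw [hB]; finiteness
  obtain ⟨s, hs⟩ : ∃ s : ℕ, B * C * 2⁻¹ ^ s ≤ η := by
    have h1 : Tendsto (fun s : ℕ => B * C * 2⁻¹ ^ s) atTop (𝓝 (B * C * 0)) :=
      ENNReal.Tendsto.const_mul (ENNReal.tendsto_pow_atTop_nhds_zero_of_lt_one (by norm_num))
        (Or.inr (ENNReal.mul_ne_top hBt ENNReal.coe_ne_top))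
    rw [mul_zero] at h1
    exact (h1.eventually (ge_mem_nhds hη')).exists
  set l₁ : ℤ := j₀ + 2 * J * s with hl₁
  obtain ⟨θ, hθ0, hθ1, hθ⟩ : ∃ θ : ℝ, 0 < θ ∧ θ ≤ 1 / 8 ∧
      w n (l₁ + 4) * volume (ball (0 : E n) θ) ≤ η := by
    have h0 : Tendsto (fun θ : ℝ => ENNReal.ofReal (vb n * θ ^ n)) (𝓝[>] 0) (𝓝 0) := by
      have : Tendsto (fun θ : ℝ => ENNReal.ofReal (vb n * θ ^ n)) (𝓝 0)
          (𝓝 (ENNReal.ofReal (vb n * 0 ^ n))) :=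
        (ENNReal.continuous_ofReal.comp (by fun_prop)).tendsto 0
      rw [zero_pow (by omega), mul_zero, ENNReal.ofReal_zero] at this
      exact this.mono_left nhdsWithin_le_nhds
    have h1 := ENNReal.Tendsto.const_mul (a := w n (l₁ + 4)) h0 (Or.inr (w_ne_top _))
    rw [mul_zero] at h1
    have h2 : ∀ᶠ θ : ℝ in 𝓝[>] 0, θ ∈ Ioc (0 : ℝ) (1 / 8) := Ioc_mem_nhdsGT (by norm_num)
    obtain ⟨θ, a, b⟩ := ((h1.eventually (ge_mem_nhds hη')).and h2).exists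
    exact ⟨θ, b.1, b.2, by rwa [vol_ball _ b.1]⟩
  set K : ℝ≥0∞ := B * (2 * (J * (2 ^ (2 * J)) ^ n * CK)) with hKdef
  have hKt : K ≠ ⊤ := by rw [hKdef]; finiteness
  refine ⟨θ, K.toNNReal, hθ0, hθ1, fun U v G ν k' kf h hS t => ?_⟩
  rw [ENNReal.coe_toNNReal hKt]
  have hx := hC G hS.gd
  have hgi : Gi G ν k' δ d C₁ J := hI _ le_rfl J hJ1 e1 U v G ν k' kf h hS
  by_cases ht : t ≤ 2 ^ (l₁ + 4)
  · refine le_trans ?_ (hθ.trans le_self_add)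
    exact mul_le_mul' (pow_le_pow_left' ht n) (measure_mono inter_subset_left)
  push Not at ht
  rcases eq_or_ne t ⊤ with rfl | htt
  · simp
  obtain ⟨N, hN1, hN2⟩ := ENNReal.exists_mem_Ioc_zpow (x := t) (y := 2) ht.ne_bot htt
    (by norm_num) (by norm_num)
  have hNl : l₁ ≤ N - 4 := by
    by_contra hcon
    have : (2 : ℝ≥0∞) ^ (N + 1) ≤ 2 ^ (l₁ + 4) := ENNReal.zpow_le_of_le (by norm_num) (by omega)
    exact absurd (ht.trans_le (hN2.trans this)) (lt_irrefl _)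
  set Y := (∫⁻ x in ball 0 (1 / 4), ν x) + ∫⁻ x, k' x with hY
  obtain ⟨j, i, hji, hi, hξ⟩ := chain_decay (fun l => w n l * volume (Oj G l ∩ Vs G j₀ (1 / 8)))
    j₀ J C₁ C (J * (2 ^ (2 * J)) ^ n * (CK * Y)) hJ1 hJc (fun j hj => by
      refine (hx.xi_rec hgi hgap (by norm_num) hj).trans ?_
      rw [hY, mul_add (CK : ℝ≥0∞), add_comm ((CK : ℝ≥0∞) * _)]
      refine add_le_add_right (mul_le_mul_right (add_le_add ?_ ?_) _) _
      · exact (ENNReal.le_tsum (f := fun j => w n j * volume (Ks G k' δ d j)) j).trans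
          (hK G ν k' hS.gd hS.mν hS.mk').1
      · refine le_trans (mul_le_mul_right (measure_mono ?_) _)
          ((hK G ν k' hS.gd hS.mν hS.mk').2 j (1 / 4))
        rintro x ⟨k, a, b, c⟩
        exact ⟨k, a, b, (ball_small k _).trans c⟩)
    ((mul_le_mul_right (measure_mono inter_subset_left) _).trans (hx.Ovol j₀)) s (N - 4) hNl
  have hl0 : j₀ ≤ N - 4 := le_trans (by rw [hl₁]; exact le_add_of_nonneg_right (by positivity)) hNl
  have hvol : volume (ball (0 : E n) θ ∩ {x | t < G x}) ≤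
      volume (Oj G j ∩ Vs G j₀ (1 / 8)) := by
    refine measure_mono_ae ?_
    filter_upwards [le_mq_ae hn hS.gd.meas] with x hxq hm
    have hO : x ∈ Oj G (N - 4) := hx.Oin _ x (by
      rw [sub_add_cancel]; exact hN1.trans (lt_of_lt_of_le hm.2 hxq))
    exact ⟨hx.Omono _ _ (by omega) hO, hx.mem_Vs hl0 (ball_subset_ball hθ1 hm.1) hO⟩
  have htw : t ^ n ≤ B * w n j := by
    have a1 : t ^ n ≤ w n (N - 4 + (5 : ℕ)) := by
      refine pow_le_pow_left' (hN2.trans (le_of_eq ?_)) n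
      congr 1
      push_cast
      ring
    rw [w_add, hji] at a1
    rw [hB, mul_assoc]
    exact a1.trans (mul_le_mul_right (w_add_le j hi) _)
  calc _ ≤ B * w n j * volume (Oj G j ∩ Vs G j₀ (1 / 8)) := mul_le_mul' htw hvol
    _ ≤ B * (C * 2⁻¹ ^ s + 2 * (J * (2 ^ (2 * J)) ^ n * (CK * Y))) := by
        rw [mul_assoc]
        exact mul_le_mul_right hξ _
    _ = B * C * 2⁻¹ ^ s + K * Y := by rw [hKdef]; ring
    _ ≤ _ := by gcongr

end Pool.Agent.P.MP_28243e_an
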