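import Pool.Agent.P.MP_28243e_an.PPb

/-! Paraproduct: the oscillation bound and the final statement. -/

namespace Pool.Agent.P.MP_28243e_an

open Set MeasureTheory Metric Filter Topology ENNReal
open scoped NNReal ContDiff RealInnerProductSpace Classical

namespace PP

variable {n : ℕ}

theorem le_mul_of_sq {a u v : ℝ≥0∞} (hu : a ≤ u * u) (hv : a ≤ v * v) : a ≤ u * v := by
  rcases le_total u v with h | h
  · exact hu.trans (by gcongr)
  · exact hv.trans (by gcongr)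

theorem sqrt_mul_self (a : ℝ≥0∞) : a ^ (1 / 2 : ℝ) * a ^ (1 / 2 : ℝ) = a := by
  rw [← ENNReal.rpow_add_of_nonneg _ _ (by norm_num) (by norm_num)]; norm_num

theorem geom_le (m : ℕ) : ∑ i ∈ Finset.range m, ENNReal.ofReal ((3 / 4 : ℝ) ^ i) ≤ 4 := by
  have h : ∑ i ∈ Finset.range m, (3 / 4 : ℝ) ^ i = 4 - 4 * (3 / 4) ^ m := by
    induction m with
    | zero => simp
    | succ m ih => rw [Finset.sum_range_succ, ih]; ring
  rw [← ENNReal.ofReal_sum_of_nonneg (fun i _ => by positivity), h]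
  have : (0 : ℝ) ≤ 4 * (3 / 4) ^ m := by positivity
  calc ENNReal.ofReal (4 - 4 * (3 / 4 : ℝ) ^ m) ≤ ENNReal.ofReal 4 :=
        ENNReal.ofReal_le_ofReal (by linarith)
    _ = 4 := by simp

theorem exists_rd_le {t : ℝ} (ht : 0 < t) : ∃ j, rd j ≤ t := by
  obtain ⟨j, hj⟩ := exists_pow_lt_of_lt_one ht (show (1 / 2 : ℝ) < 1 by norm_num)
  refine ⟨j, ?_⟩
  have h := rd_add 0 j
  rw [zero_add, rd_zero] at h
  rw [h]
  have h2 : (0 : ℝ) < (1 / 2) ^ j := by positivity
  have : (1 / 16 : ℝ) / 2 ^ j = 1 / 16 * (1 / 2) ^ j := by rw [one_div_pow]; ring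
  linarith

theorem tail_le (G : E n → ℝ≥0∞) (x : E n) {t : ℝ} {j₀ : ℕ} (h : rd j₀ ≤ t) (M : ℕ) :
    ∑ j ∈ Finset.Ico j₀ M, ENNReal.ofReal (rd j) * av G x (4 * rd j) ≤
      2 ^ (n + 1) * pot G (8 * t) x := by
  have hp := rd_pos j₀
  refine le_trans ?_ (pot_le_pot' G (t := 4 * rd j₀) (by linarith) (by linarith) x)
  rw [Finset.sum_Ico_eq_sum_range]
  refine le_trans (Finset.sum_le_sum fun i _ => ?_) (ENNReal.sum_le_tsum _)
  rw [rd_add, mul_div_assoc]
  gcongr
  have : 0 < rd j₀ / 2 ^ i := by positivity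
  linarith

theorem av_le_gs (hn : 3 ≤ n) {G : E n → ℝ≥0∞} (hG : Measurable G) (x : E n) {r : ℝ}
    (hr : 0 < r) : av G x r ≤ gs G x r := (av_le_gq hn hG x hr).trans (gq_le_gs G x le_rfl)

/-- Item (iii). -/
theorem item3 (hn : 3 ≤ n) {A B CA : ℝ≥0} (hA : Pack n A) {G : E n → ℝ≥0∞} (hG : Measurable G)
    {M : ℕ} {F : ℕ → E n → ℝ} (hF : FOk B G M F)
    (hC : ∀ (x : E n) (r : ℝ), 0 < r → ENNReal.ofReal r * av G x r ≤ CA)
    {ψ : E n → ℝ} (hψ : ContDiff ℝ 1 ψ) (hψ1 : ∀ x, |ψ x| ≤ 1) {x x' : E n}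
    (hx : x ∈ ball (0 : E n) (1 / 2)) (hx' : x' ∈ ball (0 : E n) (1 / 2)) {t : ℝ} (ht : 0 < t)
    (ht2 : t ≤ 2) (hxx : ‖x - x'‖ ≤ t) :
    ‖vv (fun j => mol (rd j) ψ) F M x - vv (fun j => mol (rd j) ψ) F M x'‖ₑ ≤
      (A * B * (2 ^ (n + 1) + (17 * 48 + 8 * (2 ^ n + 2)) * (1 + CA)) : ℝ≥0) *
        (pot G (8 * t) x + pot G (8 * t) x' + (ENNReal.ofReal t * gs G x t) ^ (1 / 2 : ℝ)) := by
  set P : ℕ → E n → ℝ := fun j => mol (rd j) ψ with hPdef
  have hP : ∀ j, ContDiff ℝ ∞ (P j) := fun j => (hA ψ hψ _ (rd_pos j)).1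
  have hav1 : ∀ y r, av (fun y => ‖ψ y‖ₑ) y r ≤ 1 := fun y r =>
    av_le_const (Eventually.of_forall fun w _ => by
      rw [← ofReal_norm, ← ENNReal.ofReal_one]
      exact ENNReal.ofReal_le_ofReal (hψ1 w))
  have hP0 : ∀ j y, ‖P j y‖ₑ ≤ A := fun j y =>
    ((hA ψ hψ _ (rd_pos j)).2.1 y).trans (mul_le_of_le_one_right' (hav1 _ _))
  have hP1 : ∀ j y, ‖fderiv ℝ (P j) y‖ₑ ≤ A / ENNReal.ofReal (rd j) := fun j y =>
    ((hA ψ hψ _ (rd_pos j)).2.2.1 y).trans
      (ENNReal.div_le_div_right (mul_le_of_le_one_right' (hav1 _ _)) _)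
  have hsub : ball (0 : E n) (1 / 2) ⊆ ball 0 (3 / 4) := ball_subset_ball (by norm_num)
  set S : ℝ≥0∞ := (ENNReal.ofReal t * gs G x t) ^ (1 / 2 : ℝ) with hS
  have hSS : S * S = ENNReal.ofReal t * gs G x t := sqrt_mul_self _
  have hxt : ‖x - x'‖ₑ ≤ ENNReal.ofReal t := by
    rw [← ofReal_norm]; exact ENNReal.ofReal_le_ofReal hxx
  have hCA : (CA : ℝ≥0∞) ≤ (1 + CA) * (1 + CA) :=
    le_add_self.trans (le_mul_of_one_le_left' le_self_add)
  -- the first term
  have h1 : ‖P 0 x * (F 0 x - F 0 0) - P 0 x' * (F 0 x' - F 0 0)‖ₑ ≤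
      A * B * (17 * 48 * (1 + CA)) * S := by
    set m₀ : ℝ≥0∞ := min (64 * gs G x t) (CA * 16) with hm₀
    have h4 : 4 * rd 0 = 1 / 4 := by rw [rd_zero]; norm_num
    have k1 : ∀ w ∈ ball (0 : E n) (1 / 2), ‖fderiv ℝ (F 0) w‖ₑ ≤ B * m₀ := by
      intro w hw
      refine (hF.der 0 (Nat.zero_le M) w (hsub hw)).trans ?_
      gcongr
      refine le_min ?_ ?_
      · rw [h4]
        refine (av_le_gs hn hG w (by norm_num)).trans ?_
        have := gs_le_gs hn G (x := w) (x' := x) (r := 1 / 4) (r' := t) (K := 8) (by norm_num)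
          (by linarith [norm_sub_le w x, mem_ball_zero_iff.1 hw, mem_ball_zero_iff.1 hx])
          (by linarith)
        rwa [show (8 : ℝ) ^ 2 = 64 by norm_num, ENNReal.ofReal_ofNat] at this
      · refine (av_le_div hC w (rd_pos 0)).trans ?_
        rw [ofReal_rd_zero, div_eq_mul_inv, inv_inv]
    have k2 : ∀ w ∈ ball (0 : E n) (1 / 2),
        ‖fderiv ℝ (fun y => P 0 y * (F 0 y - F 0 0)) w‖ₑ ≤ A * B * 17 * m₀ := by
      intro w hw
      rw [fderiv_blk (dif_of (hP 0)) (dif_of (hF.sm 0)) (differentiable_const _)]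
      simp only [fderiv_fun_const, Pi.zero_apply, sub_zero]
      refine (en_add _ _).trans ?_
      rw [enorm_smul, enorm_smul]
      have hm := mvt (dif_of (hF.sm 0)) (convex_ball (0 : E n) (1 / 2)) k1 hw
        (mem_ball_self (by norm_num))
      have hw1 : ‖w - 0‖ₑ ≤ 1 := by
        rw [sub_zero, ← ofReal_norm, ← ENNReal.ofReal_one]
        exact ENNReal.ofReal_le_ofReal (by linarith [mem_ball_zero_iff.1 hw])
      have hd := hP1 0 w
      rw [ofReal_rd_zero, div_eq_mul_inv, inv_inv] at hd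
      calc ‖P 0 w‖ₑ * ‖fderiv ℝ (F 0) w‖ₑ + ‖F 0 w - F 0 0‖ₑ * ‖fderiv ℝ (P 0) w‖ₑ
          ≤ A * (B * m₀) + B * m₀ * 1 * (A * 16) := by
            gcongr
            exacts [hP0 0 w, k1 w hw, hm.trans (by gcongr)]
        _ = _ := by ring
    have k3 : ENNReal.ofReal t * m₀ ≤ 8 * S * (6 * (1 + CA)) := by
      refine le_mul_of_sq ?_ ?_
      · calc ENNReal.ofReal t * m₀ ≤ ENNReal.ofReal t * (64 * gs G x t) := by
              gcongr; exact min_le_left _ _
          _ = 64 * (S * S) := by rw [hSS]; ring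
          _ = _ := by ring
      · have : ENNReal.ofReal t ≤ 2 := by
          simpa using ENNReal.ofReal_le_ofReal ht2
        calc ENNReal.ofReal t * m₀ ≤ 2 * (CA * 16) := by
              gcongr; exact min_le_right _ _
          _ = 32 * CA := by ring
          _ ≤ 36 * ((1 + CA) * (1 + CA)) := by gcongr; norm_num
          _ = _ := by ring
    refine (mvt (dif_of ((hP 0).mul ((hF.sm 0).sub contDiff_const)))
      (convex_ball (0 : E n) (1 / 2)) k2 hx hx').trans ?_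
    calc (A : ℝ≥0∞) * B * 17 * m₀ * ‖x - x'‖ₑ ≤ A * B * 17 * m₀ * ENNReal.ofReal t := by gcongr
      _ = A * B * 17 * (ENNReal.ofReal t * m₀) := by ring
      _ ≤ A * B * 17 * (8 * S * (6 * (1 + CA))) := by gcongr
      _ = _ := by ring
  -- the blocks
  set b : ℕ → ℝ := fun j => P j x * (F (j + 1) x - F j x) - P j x' * (F (j + 1) x' - F j x')
    with hb
  have hval : ∀ j < M, ∀ y ∈ ball (0 : E n) (1 / 2), ‖P j y * (F (j + 1) y - F j y)‖ₑ ≤
      A * B * (ENNReal.ofReal (rd j) * av G y (4 * rd j)) := by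
    intro j hj y hy
    rw [enorm_mul, mul_assoc]
    exact mul_le_mul' (hP0 j y) (hF.dif j hj y (hsub hy))
  have h2 : ∀ j < M, ‖b j‖ₑ ≤ A * B * (ENNReal.ofReal (rd j) * av G x (4 * rd j)) +
      A * B * (ENNReal.ofReal (rd j) * av G x' (4 * rd j)) := fun j hj =>
    enorm_sub_le.trans (add_le_add (hval j hj x hx) (hval j hj x' hx'))
  have h3 : ∀ j < M, ∀ i : ℕ, t < rd (j + i) →
      ‖b j‖ₑ ≤ A * B * (2 * (2 ^ n + 2) * (1 + CA)) * S * ENNReal.ofReal ((3 / 4 : ℝ) ^ i) := by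
    intro j hj i hi
    have hr := rd_pos j
    have htj : t < rd j := hi.trans_le (rd_anti (Nat.le_add_right j i))
    have hr0 : ENNReal.ofReal (rd j) ≠ 0 := by simpa using hr
    set mj : ℝ≥0∞ := min (4 * gs G x t) (CA / ENNReal.ofReal (rd j)) with hmj
    have k1 : ∀ w ∈ ball (0 : E n) (1 / 2) ∩ closedBall x t,
        ‖fderiv ℝ (fun y => P j y * (F (j + 1) y - F j y)) w‖ₑ ≤ A * B * (2 ^ n + 2) * mj := by
      intro w hw
      have hw1 := hsub hw.1
      have ha : av G w (4 * rd j) ≤ mj := by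
        refine le_min ?_ (av_le_div hC w hr)
        refine (av_le_gs hn hG w (by linarith)).trans ?_
        have hwx := hw.2
        rw [mem_closedBall, dist_eq_norm] at hwx
        have := gs_le_gs hn G (x := w) (x' := x) (r := 4 * rd j) (r' := t) (K := 2) (by linarith)
          (by linarith) (by linarith)
        rwa [show (2 : ℝ) ^ 2 = 4 by norm_num, ENNReal.ofReal_ofNat] at this
      have ha' : av G w (4 * rd (j + 1)) ≤ 2 ^ n * mj := by
        have := av_two G w (t := 4 * rd (j + 1)) (by linarith [rd_pos (j + 1)])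
        rw [show 2 * (4 * rd (j + 1)) = 4 * rd j by rw [rd_succ]; ring] at this
        exact this.trans (by gcongr)
      rw [fderiv_blk (dif_of (hP j)) (dif_of (hF.sm _)) (dif_of (hF.sm _))]
      refine (en_add _ _).trans ?_
      rw [enorm_smul, enorm_smul]
      calc ‖P j w‖ₑ * ‖fderiv ℝ (F (j + 1)) w - fderiv ℝ (F j) w‖ₑ +
            ‖F (j + 1) w - F j w‖ₑ * ‖fderiv ℝ (P j) w‖ₑ
          ≤ A * (B * (2 ^ n * mj) + B * mj) +
            B * (ENNReal.ofReal (rd j) * mj) * (A / ENNReal.ofReal (rd j)) := by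
            gcongr
            · exact hP0 j w
            · exact enorm_sub_le.trans (add_le_add ((hF.der _ hj w hw1).trans (by gcongr))
                ((hF.der _ hj.le w hw1).trans (by gcongr)))
            · exact (hF.dif j hj w hw1).trans (by gcongr)
            · exact hP1 j w
        _ = A * (B * (2 ^ n * mj) + B * mj) +
            B * mj * A * (ENNReal.ofReal (rd j) * (ENNReal.ofReal (rd j))⁻¹) := by
            rw [div_eq_mul_inv]; ring
        _ = _ := by rw [ENNReal.mul_inv_cancel hr0 ENNReal.ofReal_ne_top]; ring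
    have k3 : ENNReal.ofReal t * mj ≤ 2 * S * ((1 + CA) * ENNReal.ofReal ((3 / 4 : ℝ) ^ i)) := by
      refine le_mul_of_sq ?_ ?_
      · calc ENNReal.ofReal t * mj ≤ ENNReal.ofReal t * (4 * gs G x t) := by
              gcongr; exact min_le_left _ _
          _ = 4 * (S * S) := by rw [hSS]; ring
          _ = _ := by ring
      · have hq : t ≤ rd j * ((3 / 4 : ℝ) ^ i * (3 / 4) ^ i) := by
          rw [rd_add] at hi
          refine hi.le.trans ?_
          rw [div_eq_mul_inv, ← inv_pow, ← mul_pow]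
          gcongr; norm_num
        have hq' : ENNReal.ofReal t ≤ ENNReal.ofReal (rd j) *
            (ENNReal.ofReal ((3 / 4 : ℝ) ^ i) * ENNReal.ofReal ((3 / 4 : ℝ) ^ i)) := by
          rw [← ENNReal.ofReal_mul (by positivity), ← ENNReal.ofReal_mul hr.le]
          exact ENNReal.ofReal_le_ofReal hq
        calc ENNReal.ofReal t * mj ≤ ENNReal.ofReal (rd j) *
              (ENNReal.ofReal ((3 / 4 : ℝ) ^ i) * ENNReal.ofReal ((3 / 4 : ℝ) ^ i)) *
              (CA / ENNReal.ofReal (rd j)) := mul_le_mul' hq' (min_le_right _ _)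
          _ = CA * (ENNReal.ofReal ((3 / 4 : ℝ) ^ i) * ENNReal.ofReal ((3 / 4 : ℝ) ^ i)) *
              (ENNReal.ofReal (rd j) * (ENNReal.ofReal (rd j))⁻¹) := by
              rw [ENNReal.div_eq_inv_mul]; ring
          _ ≤ (1 + CA) * (1 + CA) *
              (ENNReal.ofReal ((3 / 4 : ℝ) ^ i) * ENNReal.ofReal ((3 / 4 : ℝ) ^ i)) * 1 := by
              rw [ENNReal.mul_inv_cancel hr0 ENNReal.ofReal_ne_top]; gcongr
          _ = _ := by ring
    have hm := mvt (dif_of ((hP j).mul ((hF.sm (j + 1)).sub (hF.sm j))))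
      ((convex_ball (0 : E n) (1 / 2)).inter (convex_closedBall x t)) k1
      ⟨hx, mem_closedBall_self ht.le⟩ ⟨hx', by rwa [mem_closedBall, dist_comm, dist_eq_norm]⟩
    refine le_trans hm ?_
    calc (A : ℝ≥0∞) * B * (2 ^ n + 2) * mj * ‖x - x'‖ₑ
        ≤ A * B * (2 ^ n + 2) * mj * ENNReal.ofReal t := by gcongr
      _ = A * B * (2 ^ n + 2) * (ENNReal.ofReal t * mj) := by ring
      _ ≤ A * B * (2 ^ n + 2) * (2 * S * ((1 + CA) * ENNReal.ofReal ((3 / 4 : ℝ) ^ i))) := by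
          gcongr
      _ = _ := by ring
  set j₀ := Nat.find (exists_rd_le ht) with hj₀
  have hj₀1 : rd j₀ ≤ t := Nat.find_spec (exists_rd_le ht)
  have hj₀2 : ∀ j < j₀, t < rd j := fun j hj => not_le.1 (Nat.find_min (exists_rd_le ht) hj)
  have h4 : ∑ j ∈ (Finset.range M).filter (· < j₀), ‖b j‖ₑ ≤
      A * B * (8 * (2 ^ n + 2) * (1 + CA)) * S := by
    calc ∑ j ∈ (Finset.range M).filter (· < j₀), ‖b j‖ₑ
        ≤ ∑ j ∈ (Finset.range M).filter (· < j₀), A * B * (2 * (2 ^ n + 2) * (1 + CA)) * S *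
            ENNReal.ofReal ((3 / 4 : ℝ) ^ (j₀ - 1 - j)) := by
          refine Finset.sum_le_sum fun j hj => ?_
          rw [Finset.mem_filter, Finset.mem_range] at hj
          exact h3 j hj.1 _ (hj₀2 _ (by omega))
      _ ≤ ∑ j ∈ Finset.range j₀, A * B * (2 * (2 ^ n + 2) * (1 + CA)) * S *
            ENNReal.ofReal ((3 / 4 : ℝ) ^ (j₀ - 1 - j)) := by
          refine Finset.sum_le_sum_of_subset fun j hj => ?_
          rw [Finset.mem_filter] at hj
          exact Finset.mem_range.2 hj.2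
      _ ≤ A * B * (2 * (2 ^ n + 2) * (1 + CA)) * S * 4 := by
          rw [← Finset.mul_sum,
            Finset.sum_range_reflect (fun i => ENNReal.ofReal ((3 / 4 : ℝ) ^ i)) j₀]
          gcongr; exact geom_le _
      _ = _ := by ring
  have h5 : ∑ j ∈ (Finset.range M).filter (fun j => ¬ j < j₀), ‖b j‖ₑ ≤
      A * B * 2 ^ (n + 1) * pot G (8 * t) x + A * B * 2 ^ (n + 1) * pot G (8 * t) x' := by
    have e : (Finset.range M).filter (fun j => ¬ j < j₀) = Finset.Ico j₀ M := by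
      ext j; simp [and_comm]
    rw [e]
    refine (Finset.sum_le_sum fun j hj => h2 j (Finset.mem_Ico.1 hj).2).trans ?_
    rw [Finset.sum_add_distrib, ← Finset.mul_sum, ← Finset.mul_sum, mul_assoc (_ * _),
      mul_assoc (_ * _)]
    gcongr
    exacts [tail_le G x hj₀1 M, tail_le G x' hj₀1 M]
  have e0 : vv P F M x - vv P F M x' =
      (P 0 x * (F 0 x - F 0 0) - P 0 x' * (F 0 x' - F 0 0)) + ∑ j ∈ Finset.range M, b j := by
    simp only [vv, hb, Finset.sum_sub_distrib]; ring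
  rw [e0]
  refine (en_add _ _).trans ((add_le_add h1 ((en_sum _ _).trans
    ((Finset.sum_filter_add_sum_filter_not _ (· < j₀) _).ge.trans (add_le_add h4 h5)))).trans ?_)
  push_cast
  have k1 : ((17 * 48 + 8 * (2 ^ n + 2)) * (1 + CA) : ℝ≥0∞) ≤
      2 ^ (n + 1) + (17 * 48 + 8 * (2 ^ n + 2)) * (1 + CA) := le_add_self
  have k2 : (2 ^ (n + 1) : ℝ≥0∞) ≤ 2 ^ (n + 1) + (17 * 48 + 8 * (2 ^ n + 2)) * (1 + CA) :=
    le_self_add
  generalize (2 ^ (n + 1) + (17 * 48 + 8 * (2 ^ n + 2)) * (1 + CA) : ℝ≥0∞) = D at k1 k2 ⊢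
  calc _ = A * B * ((17 * 48 + 8 * (2 ^ n + 2)) * (1 + CA)) * S +
        (A * B * 2 ^ (n + 1) * pot G (8 * t) x + A * B * 2 ^ (n + 1) * pot G (8 * t) x') := by
        ring
    _ ≤ A * B * D * S + (A * B * D * pot G (8 * t) x + A * B * D * pot G (8 * t) x') := by gcongr
    _ = _ := by ring

theorem enorm_grad (c : ℝ) (f v : E n → ℝ) (x : E n) :
    ‖c • gradient f x - gradient v x‖ₑ = ‖c • fderiv ℝ f x - fderiv ℝ v x‖ₑ := by
  unfold gradient
  rw [← map_smul, ← map_sub, LinearIsometryEquiv.enorm_map]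

end PP

open PP in
theorem stPP (hB : StB) (hM : StM) (hA5 : StA5) : StPP := by
  intro n hn Cf
  obtain ⟨A, hA1, hA⟩ := pack hB hM hn
  obtain ⟨CA, h5⟩ := hA5 n hn
  set B : ℝ≥0 := A * (4 * 8 ^ n * Cf) with hBdef
  refine ⟨A * B * (2 + 2 ^ n + 16 * 2 ^ n * CA) +
    A * B * (2 ^ (n + 1) + (17 * 48 + 8 * (2 ^ n + 2)) * (1 + CA)), fun G hG N hN f hf hfG => ?_⟩
  obtain ⟨M, rfl⟩ : ∃ M, N = M + 4 := ⟨N - 4, by omega⟩
  have hr : rho ((M + 4 : ℕ) : ℤ) = rd M := by unfold rd; push_cast; rfl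
  have hC : ∀ (x : E n) (r : ℝ), 0 < r → ENNReal.ofReal r * av G x r ≤ CA := by
    intro x r hr
    have := (h5 G 1 hG.meas hG.weak).2.2.2.1 x r hr
    rw [ENNReal.coe_one, mul_one] at this
    exact le_trans (by gcongr; exact av_le_gs hn hG.meas x hr) this
  rw [hr] at hfG
  have hF : FOk B G M (Fq f M) := fok hA1 hA Cf hG.meas hf hfG
  have hFM : Fq f M M = f := by simp [Fq]
  obtain ⟨K, hK, h2⟩ := item2 hA M hF.sm
  refine ⟨K, hK, fun ψ hψ => ⟨vv (fun j => mol (rd j) ψ) (Fq f M) M,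
    vv_smooth (fun j => (hA ψ hψ _ (rd_pos j)).1) hF.sm M, fun z hz hψz x hx => ?_, h2 ψ hψ,
    fun hψ1 x hx x' hx' t ht ht2 hxx => ?_⟩⟩
  · have := item1 hA hF hC hψ hz hψz hx
    rw [hFM] at this
    rw [enorm_grad, LN, hr]
    exact this.trans (by gcongr; exact le_self_add)
  · exact (item3 hn hA hG.meas hF hC hψ hψ1 hx hx' ht ht2 hxx).trans
      (by gcongr; exact le_add_self)

end Pool.Agent.P.MP_28243e_an
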