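import Pool.Agent.P.MP_28243e_an.Basic

/-! The averaged inequality along a chain of shells and its weighted consequence. -/

namespace Pool.Agent.P.MP_28243e_an

open Set MeasureTheory Metric Filter Topology ENNReal
open scoped NNReal ContDiff RealInnerProductSpace Classical

namespace RP

variable {n m : ℕ}

theorem small (K γ : ℝ≥0) (hγ : 0 < γ) : ∃ ε : ℝ≥0, 0 < ε ∧ ε ≤ 1 ∧ 2 * (ε * K) ≤ γ := by
  refine ⟨min 1 (γ / (2 * (K + 1))), by positivity, min_le_left _ _, ?_⟩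
  have h1 : min 1 (γ / (2 * (K + 1))) ≤ γ / (2 * (K + 1)) := min_le_right _ _
  calc 2 * (min 1 (γ / (2 * (K + 1))) * K) ≤ 2 * (γ / (2 * (K + 1)) * (K + 1)) := by
        gcongr; exact le_self_add
    _ = γ := by field_simp

theorem young (hn : 3 ≤ n) {K : ℝ≥0∞} (hK : K ≠ ⊤) {γ : ℝ≥0} (hγ : 0 < γ) :
    ∃ C : ℝ≥0, ∀ ν B : ℝ≥0∞,
      ν * (K * B ^ (1 / (n : ℝ))) ≤ γ * B + C * ν ^ ((n : ℝ) / ((n : ℝ) - 1)) := by
  have h3 : (3 : ℝ) ≤ n := by exact_mod_cast hn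
  have hpq : Real.HolderConjugate (n : ℝ) ((n : ℝ) / ((n : ℝ) - 1)) :=
    Real.HolderConjugate.conjExponent (by linarith)
  set ε : ℝ≥0∞ := (γ : ℝ≥0∞) ^ (1 / (n : ℝ)) with hε
  have hγ0 : (γ : ℝ≥0∞) ≠ 0 := by exact_mod_cast hγ.ne'
  have hε0 : ε ≠ 0 := (ENNReal.rpow_pos (pos_iff_ne_zero.2 hγ0) coe_ne_top).ne'
  have hε1 : ε ≠ ⊤ := ENNReal.rpow_ne_top_of_nonneg (by positivity) coe_ne_top
  have hq0 : 0 ≤ (n : ℝ) / ((n : ℝ) - 1) := hpq.symm.nonneg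
  have hfin : (K / ε) ^ ((n : ℝ) / ((n : ℝ) - 1)) ≠ ⊤ :=
    ENNReal.rpow_ne_top_of_nonneg hq0 (ENNReal.div_ne_top hK hε0)
  refine ⟨((K / ε) ^ ((n : ℝ) / ((n : ℝ) - 1))).toNNReal, fun ν B => ?_⟩
  rw [ENNReal.coe_toNNReal hfin]
  have e1 : ν * (K * B ^ (1 / (n : ℝ))) = (ε * B ^ (1 / (n : ℝ))) * (K / ε * ν) := by
    calc ν * (K * B ^ (1 / (n : ℝ))) = ν * ((ε * (K / ε)) * B ^ (1 / (n : ℝ))) := by
          rw [ENNReal.mul_div_cancel hε0 hε1]
      _ = _ := by ring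
  have hdiv : ∀ (a : ℝ≥0∞) (p : ℝ), 1 ≤ p → a / ENNReal.ofReal p ≤ a := fun a p hp => by
    refine ENNReal.div_le_of_le_mul ?_
    calc a = a * 1 := (mul_one a).symm
      _ ≤ a * ENNReal.ofReal p := by gcongr; exact ENNReal.one_le_ofReal.2 hp
  have e2 : (ε * B ^ (1 / (n : ℝ))) ^ (n : ℝ) = γ * B := by
    rw [hε, ← ENNReal.mul_rpow_of_nonneg _ _ (by positivity), ← ENNReal.rpow_mul,
      one_div_mul_cancel (by linarith), ENNReal.rpow_one]
  rw [e1]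
  refine (ENNReal.young_inequality _ _ hpq).trans (add_le_add ?_ ?_)
  · rw [e2]; exact hdiv _ _ (by linarith)
  · rw [ENNReal.mul_rpow_of_nonneg _ _ hq0]; exact hdiv _ _ hpq.symm.lt.le

theorem scale (hn : 3 ≤ n) {R : ℝ≥0∞} (h0 : R ≠ 0) (h1 : R ≠ ⊤) (l x D : ℝ≥0∞) :
    (l ^ (n - 2) * (x / R) ^ 2 + (D / R ^ (n - 1)) ^ 2 / l ^ (n - 2)) * R ^ n =
      (R * l) ^ (n - 2) * x ^ 2 + D ^ 2 / (R * l) ^ (n - 2) := by
  obtain ⟨j, rfl⟩ : ∃ j, n = j + 2 := ⟨n - 2, by omega⟩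
  have e1 : j + 2 - 2 = j := by omega
  have e2 : j + 2 - 1 = j + 1 := by omega
  rw [e1, e2]
  have hR : R * R⁻¹ = 1 := ENNReal.mul_inv_cancel h0 h1
  simp only [div_eq_mul_inv, ENNReal.inv_pow]
  rw [ENNReal.mul_inv (Or.inl h0) (Or.inl h1)]
  calc (l ^ j * (x * R⁻¹) ^ 2 + (D * R⁻¹ ^ (j + 1)) ^ 2 * l⁻¹ ^ j) * R ^ (j + 2)
      = (R * l) ^ j * x ^ 2 * (R * R⁻¹) ^ 2 + D ^ 2 * (R⁻¹ * l⁻¹) ^ j * (R * R⁻¹) ^ (j + 2) := by
        ring
    _ = _ := by rw [hR]; simp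

theorem swap {S : Finset ℤ} {w : ℕ → ℝ≥0∞} {L R : ℤ → ℕ → ℝ≥0∞} {μ : ℤ → ℝ≥0∞} {C : ℝ≥0∞}
    (h : ∀ i, ∑ k ∈ S, μ k * L k i ≤ C * ∑ k ∈ S, R k i) :
    ∑ k ∈ S, μ k * ∑' i, w i * L k i ≤ C * ∑ k ∈ S, ∑' i, w i * R k i := by
  calc ∑ k ∈ S, μ k * ∑' i, w i * L k i = ∑ k ∈ S, ∑' i, w i * (μ k * L k i) := by
        refine Finset.sum_congr rfl fun k _ => ?_
        rw [← ENNReal.tsum_mul_left]
        exact tsum_congr fun i => by ring
    _ = ∑' i, w i * ∑ k ∈ S, μ k * L k i := by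
        rw [← Summable.tsum_finsetSum fun _ _ => ENNReal.summable]
        exact tsum_congr fun i => (Finset.mul_sum _ _ _).symm
    _ ≤ ∑' i, w i * (C * ∑ k ∈ S, R k i) := by gcongr with i; exact h i
    _ = C * ∑ k ∈ S, ∑' i, w i * R k i := by
        rw [← Summable.tsum_finsetSum fun _ _ => ENNReal.summable, ← ENNReal.tsum_mul_left]
        exact tsum_congr fun i => by rw [← Finset.mul_sum]; ring

theorem avg {w c A B F : ℕ → ℝ≥0∞} (hw : ∑' i, w i = 1) (W d ν a b : ℝ≥0∞) :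
    ∑' i, w i * (W * (A i + B i + ν * (a + c i * b)) + d * F i) =
      W * (∑' i, w i * A i + ∑' i, w i * B i + (ν * a + ν * ((∑' i, w i * c i) * b))) +
        d * ∑' i, w i * F i := by
  have h : ∀ i, w i * (W * (A i + B i + ν * (a + c i * b)) + d * F i) =
      W * (w i * A i) + W * (w i * B i) + W * ν * a * w i + W * ν * b * (w i * c i) +
        d * (w i * F i) := fun i => by ring
  simp_rw [h, ENNReal.tsum_add, ENNReal.tsum_mul_left, hw]
  ring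

theorem lint_split {Z : Set (E n)} {N K : E n → ℝ≥0∞} (hK : Measurable K) (γ C : ℝ≥0)
    (Q : ℝ≥0∞) : ∫⁻ x in Z, (γ * N x + C * (K x + Q)) =
      γ * (∫⁻ x in Z, N x) + C * ((∫⁻ x in Z, K x) + Q * volume Z) := by
  have h1 : Measurable fun x => (C : ℝ≥0∞) * (K x + Q) := (hK.add measurable_const).const_mul _
  rw [lintegral_add_right _ h1,
    lintegral_const_mul' _ _ coe_ne_top, lintegral_const_mul' _ _ coe_ne_top,
    lintegral_add_right _ measurable_const, setLIntegral_const]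

/-- Averaging the pointwise inequalities over one shell. -/
theorem shell (hW : StW) {δ : ℝ} (hδ : 0 < δ) (hδ2 : δ ≤ 1 / 2) {Z : Set (E n)}
    (hZ : MeasurableSet Z) {l : ℝ≥0∞} (hl0 : 0 < l) (hl : l < ⊤)
    {P d s h kf Ph N K : E n → ℝ≥0∞} (mP : Measurable P) (md : Measurable d) (ms : Measurable s)
    (mh : Measurable h) (mkf : Measurable kf) (mK : Measurable K) {p kf' Q₁ Q₂ : ℝ≥0∞}
    {γ C C₀ : ℝ≥0} (hs : ∀ᵐ x, x ∈ Z → s x < ⊤)
    (hLC : ∀ᵐ x, x ∈ Z →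
      Ph x ≤ 2 * (P x * d x * psi l δ (s x)) + γ * N x + C * K x ∧
      P x * (h x + p) * psi l δ (s x) + ENNReal.ofReal δ * (P x * s x * psi l δ (s x)) +
          (kf x + kf') * s x * psi l δ (s x) ≤ γ * N x + C * (K x + Q₁ + Q₂) ∧
      P x * s x * psi l δ (s x) ≤ C₀ * N x + C * K x) :
    (∫⁻ x in Z, Ph x ≤ 4 * (∑' i : ℕ, wt δ i * ∫⁻ x in Z ∩ {x | s x ≤ 2 ^ i * l}, P x * d x) +
      (γ * (∫⁻ x in Z, N x) + C * ∫⁻ x in Z, K x)) ∧
    ((∑' i : ℕ, wt δ i * ∫⁻ x in Z ∩ {x | s x ≤ 2 ^ i * l},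
        (P x * (h x + p) + (kf x + kf') * s x)) +
      ∑' i : ℕ, wt δ i * (2 ^ i * l * ∫⁻ x in Z \ (Z ∩ {x | s x ≤ 2 ^ i * l}),
        (P x + kf x + kf')) ≤
      9 * (γ * (∫⁻ x in Z, N x) + C * ((∫⁻ x in Z, K x) + (Q₁ + Q₂) * volume Z))) ∧
    ((∑' i : ℕ, wt δ i * ∫⁻ x in Z ∩ {x | s x ≤ 2 ^ i * l}, P x * s x) ≤
      C₀ * (∫⁻ x in Z, N x) + C * ∫⁻ x in Z, K x) := by
  obtain ⟨-, -, hW⟩ := hW δ hδ hδ2
  have mψ : Measurable fun x => psi l δ (s x) := (measurable_psi l δ).comp ms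
  have hLC' := (ae_restrict_iff' hZ).2 hLC
  have hs0 : ∀ γ : ℝ≥0, ∫⁻ x in Z, (γ * N x + C * K x) =
      γ * (∫⁻ x in Z, N x) + C * ∫⁻ x in Z, K x := fun γ => by
    simpa using lint_split (Z := Z) (N := N) mK γ C 0
  refine ⟨?_, ?_, ?_⟩
  · have h1 := (hW n l s (fun x => P x * d x) Z hl0 hl ms hZ (mP.mul md).aemeasurable hs).1
    calc ∫⁻ x in Z, Ph x
        ≤ ∫⁻ x in Z, (2 * (P x * d x * psi l δ (s x)) + (γ * N x + C * K x)) :=
          lintegral_mono_ae (hLC'.mono fun x hx => by rw [← add_assoc]; exact hx.1)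
      _ = 2 * (∫⁻ x in Z, P x * d x * psi l δ (s x)) +
          (γ * (∫⁻ x in Z, N x) + C * ∫⁻ x in Z, K x) := by
          have h2 : Measurable fun x => 2 * (P x * d x * psi l δ (s x)) :=
            ((mP.mul md).mul mψ).const_mul _
          rw [lintegral_add_left h2, hs0,
            lintegral_const_mul' _ _ ofNat_ne_top]
      _ ≤ 2 * (2 * _) + _ := by gcongr
      _ = _ := by rw [← mul_assoc]; norm_num
  · have h1 := (hW n l s (fun x => P x * (h x + p) + (kf x + kf') * s x) Z hl0 hl ms hZ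
      ((mP.mul (mh.add measurable_const)).add ((mkf.add measurable_const).mul ms)).aemeasurable
      hs).2.1
    have h2 := (hW n l s (fun x => P x + kf x + kf') Z hl0 hl ms hZ
      ((mP.add mkf).add measurable_const).aemeasurable hs).2.2
    have hδ1 : ENNReal.ofReal δ ≤ 1 := ENNReal.ofReal_le_one.2 (by linarith)
    have h3 : ∫⁻ x in Z, (P x * (h x + p) + (kf x + kf') * s x) * psi l δ (s x) ≤
        γ * (∫⁻ x in Z, N x) + C * ((∫⁻ x in Z, K x) + (Q₁ + Q₂) * volume Z) := by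
      rw [← lint_split mK]
      refine lintegral_mono_ae (hLC'.mono fun x hx => ?_)
      rw [← add_assoc]
      refine le_trans ?_ hx.2.1
      rw [add_mul]
      gcongr
      exact le_self_add
    have h4 : ENNReal.ofReal δ * ∫⁻ x in Z, (P x + kf x + kf') * s x * psi l δ (s x) ≤
        γ * (∫⁻ x in Z, N x) + C * ((∫⁻ x in Z, K x) + (Q₁ + Q₂) * volume Z) := by
      rw [← lint_split mK, ← lintegral_const_mul' _ _ ofReal_ne_top]
      refine lintegral_mono_ae (hLC'.mono fun x hx => ?_)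
      rw [← add_assoc]
      refine le_trans ?_ hx.2.1
      calc ENNReal.ofReal δ * ((P x + kf x + kf') * s x * psi l δ (s x))
          = ENNReal.ofReal δ * (P x * s x * psi l δ (s x)) +
            ENNReal.ofReal δ * ((kf x + kf') * s x * psi l δ (s x)) := by ring
        _ ≤ (P x * (h x + p) * psi l δ (s x) + ENNReal.ofReal δ * (P x * s x * psi l δ (s x))) +
            1 * ((kf x + kf') * s x * psi l δ (s x)) := by
            gcongr; exact le_add_self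
        _ = _ := by rw [one_mul]
    rw [mul_assoc] at h2
    refine (add_le_add (h1.trans h3) (h2.trans (mul_le_mul_right h4 8))).trans (le_of_eq ?_)
    ring
  · have h1 := (hW n l s (fun x => P x * s x) Z hl0 hl ms hZ (mP.mul ms).aemeasurable hs).2.1
    refine h1.trans ?_
    rw [← hs0]
    exact lintegral_mono_ae (hLC'.mono fun x hx => hx.2.2)

theorem alg {C₂ C₃ C C₀ C' CF C₄ vb γ γ' γ'' W d μ : ℝ≥0} (hd : d ≤ W) (hμ : μ ≤ W)
    (h1 : 2 * (γ' * (80 * C₂ * C₃ + 2 * C₃)) ≤ γ) (h2 : 2 * (γ'' * (36 * C₂ * C * vb)) ≤ γ)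
    {N B κ Q AB F t₁ t₂ t₃ X R q₁ q₂ : ℝ≥0∞}
    (hN : N + B ≤ 2 * C₃ * X + C₃ * C' * R) (hκ : κ ≤ R) (hQ : Q ≤ vb * (q₁ + q₂))
    (hq₁ : q₁ ≤ γ'' * X + C' * R) (hq₂ : q₂ ≤ CF * R) (ht₁ : t₁ ≤ R) (ht₃ : t₃ ≤ R)
    (ht₂ : t₂ ≤ γ' * B + C₄ * t₃) (hAB : AB ≤ 9 * (γ' * N + C * (κ + Q)))
    (hF : F ≤ C₀ * N + C * κ) :
    4 * (C₂ * (W * (AB + (t₁ + t₂)) + d * F)) + μ * (γ' * N + C * κ) ≤
      (γ * W + 8 * C₂ * C₀ * C₃ * d : ℝ≥0) * X +
        ((4 * C₂ * (10 * γ' * C₃ * C' + 9 * C * (1 + vb * (C' + CF)) + 1 + C₄ +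
          C₀ * C₃ * C' + C) + γ' * C₃ * C' + C) * W : ℝ≥0) * R := by
  have hN1 : N ≤ 2 * C₃ * X + C₃ * C' * R := le_self_add.trans hN
  have hB1 : B ≤ 2 * C₃ * X + C₃ * C' * R := le_add_self.trans hN
  have hd' : (d : ℝ≥0∞) ≤ W := by exact_mod_cast hd
  have hμ' : (μ : ℝ≥0∞) ≤ W := by exact_mod_cast hμ
  have h3 : γ' * (80 * C₂ * C₃ + 2 * C₃) + γ'' * (36 * C₂ * C * vb) ≤ γ := by
    have : 2 * (γ' * (80 * C₂ * C₃ + 2 * C₃) + γ'' * (36 * C₂ * C * vb)) ≤ 2 * γ := by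
      rw [mul_add, two_mul γ]; exact add_le_add h1 h2
    exact le_of_mul_le_mul_left this two_pos
  have h4 : (γ' : ℝ≥0∞) * (80 * C₂ * C₃ + 2 * C₃) + γ'' * (36 * C₂ * C * vb) ≤ γ := by
    exact_mod_cast h3
  have hQ' : Q ≤ vb * ((γ'' * X + C' * R) + CF * R) := hQ.trans (by gcongr)
  have hAB' : AB ≤ 9 * (γ' * (2 * C₃ * X + C₃ * C' * R) +
      C * (R + vb * ((γ'' * X + C' * R) + CF * R))) := hAB.trans (by gcongr)
  have ht₂' : t₂ ≤ γ' * (2 * C₃ * X + C₃ * C' * R) + C₄ * R := ht₂.trans (by gcongr)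
  have hF' : F ≤ C₀ * (2 * C₃ * X + C₃ * C' * R) + C * R := hF.trans (by gcongr)
  push_cast
  calc 4 * (C₂ * (W * (AB + (t₁ + t₂)) + d * F)) + μ * (γ' * N + C * κ)
      ≤ 4 * (C₂ * (W * (9 * (γ' * (2 * C₃ * X + C₃ * C' * R) +
          C * (R + vb * ((γ'' * X + C' * R) + CF * R))) +
          (R + (γ' * (2 * C₃ * X + C₃ * C' * R) + C₄ * R))) +
          d * (C₀ * (2 * C₃ * X + C₃ * C' * R) + C * R))) +
          W * (γ' * (2 * C₃ * X + C₃ * C' * R) + C * R) := by gcongr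
    _ = ((γ' * (80 * C₂ * C₃ + 2 * C₃) + γ'' * (36 * C₂ * C * vb)) * W +
          8 * C₂ * C₀ * C₃ * d) * X +
        ((4 * C₂ * (10 * γ' * C₃ * C' + 9 * C * (1 + vb * (C' + CF)) + 1 + C₄) +
          γ' * C₃ * C' + C) * W + 4 * C₂ * (C₀ * C₃ * C' + C) * d) * R := by ring
    _ ≤ (γ * W + 8 * C₂ * C₀ * C₃ * d) * X +
        ((4 * C₂ * (10 * γ' * C₃ * C' + 9 * C * (1 + vb * (C' + CF)) + 1 + C₄) +
          γ' * C₃ * C' + C) * W + 4 * C₂ * (C₀ * C₃ * C' + C) * W) * R := by gcongr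
    _ = _ := by ring

theorem measurableSet_Zn (y : E n) (k : ℤ) : MeasurableSet (Zn y k) :=
  measurableSet_ball.diff measurableSet_ball

theorem measurable_mdl (F : V m) (y : E n) : Measurable (mdl F y) := by
  have h1 : Measurable fun x : E n => (‖x - y‖ ^ 2)⁻¹ • (x - y) := by fun_prop
  exact continuous_tens.measurable.comp (measurable_const.prodMk h1)

theorem measurable_dev {U : E n → Mt m n} (hU : Measurable U) (y : E n) (k : ℤ) :
    Measurable (dev U y k) := (hU.sub (measurable_mdl _ y)).enorm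

theorem measurable_Pk {U : E n → Mt m n} (hU : Measurable U) (y : E n) (k : ℤ) :
    Measurable (Pk U y k) :=
  (((measurable_mdl _ y).enorm.add (measurable_dev hU y k)).pow_const _).mul (measurable_dev hU y k)

theorem ball_sub {y : E n} {k l : ℤ} (h : k ≤ l) : ball y (rho l) ⊆ ball y (rho k) :=
  ball_subset_ball (rho_anti h)

theorem vol_Zn (y : E n) (k : ℤ) :
    volume (Zn y k) ≤ ((vb n).toNNReal : ℝ≥0∞) * ENNReal.ofReal (rho k) ^ n := by
  refine (measure_mono sdiff_subset).trans (le_of_eq ?_)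
  rw [vol_ball y (rho_pos k), ENNReal.ofReal_mul vb_pos.le, ENNReal.ofReal_pow (rho_pos k).le]
  rfl

end RP

open RP in
theorem stRP (hA8 : StA8) (hW : StW) (hLC : StLC) (hFL : StFL) (hRP1 : StRP1) (hRP2 : StRP2)
    (hRP3 : StRP3) : StRP := by
  intro n m hn Co c hc
  obtain ⟨Cd, T, hT, h3⟩ := hRP3 n m hn
  obtain ⟨C₃, h3⟩ := h3 c hc
  obtain ⟨C₀, hLC⟩ := hLC n hn (Cd + 1) T hT
  obtain ⟨C₂, h2⟩ := hRP2 n m hn Co T hT
  obtain ⟨C₁, h1⟩ := hRP1 n m hn Co T hT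
  obtain ⟨CF, -, hFL⟩ := hFL n m hn
  obtain ⟨C₈, h8⟩ := hA8 n hn
  refine ⟨8 * C₂ * C₀ * C₃, fun γ hγ => ?_⟩
  obtain ⟨γ', hγ'0, -, hγ'⟩ := small (80 * C₂ * C₃ + 2 * C₃) γ hγ
  obtain ⟨δ₀, hδ₀, hδ₀', hLC⟩ := hLC γ' hγ'0
  refine ⟨δ₀, hδ₀, hδ₀', fun δ hδ hδ' => ?_⟩
  have hδ4 : δ ≤ 1 / 4 := hδ'.trans hδ₀'
  have hδ2 : δ ≤ 1 / 2 := by linarith
  obtain ⟨C, hLC⟩ := hLC δ hδ hδ'
  obtain ⟨γ'', hγ''0, hγ''1, hγ''⟩ := small (36 * C₂ * C * (vb n).toNNReal) γ hγ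
  obtain ⟨hF1, hF2⟩ := hFL δ hδ hδ4
  obtain ⟨C', hF2⟩ := hF2 c γ'' hc hγ''0
  obtain ⟨hw1, hw2, -⟩ := hW δ hδ hδ2
  obtain ⟨C₄, hY⟩ := young hn hw2.ne hγ'0
  refine ⟨4 * C₂ * (10 * γ' * C₃ * C' + 9 * C * (1 + (vb n).toNNReal * (C' + CF)) + 1 + C₄ +
    C₀ * C₃ * C' + C) + γ' * C₃ * C' + C, ?_⟩
  intro U v G ν k' kf h hS y a b w hab hball hwa hwb
  obtain ⟨-, hMfin, -, hgs, -⟩ := h8 G hS.gd
  have hCd : (Cd : ℝ≥0∞) ≤ (Cd + 1 : ℝ≥0) := by exact_mod_cast le_self_add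
  have hCd1 : (1 : ℝ≥0∞) ≤ (Cd + 1 : ℝ≥0) := by exact_mod_cast le_add_self
  have hR0 : ∀ k, ENNReal.ofReal (rho k) ≠ 0 := fun k => (ENNReal.ofReal_pos.2 (rho_pos k)).ne'
  have hsh : ∀ k ∈ Finset.Icc a b,
      (en δ U G y k ≤ 4 * (∑' i : ℕ, wt δ i * ∫⁻ x in Gm U G h y k i, Pk U y k x * dev U y k x) +
        (γ' * (∫⁻ x in Zn y k, NN n δ T (lam G y k) (s1 U y k x) (mq G x)) +
          C * ∫⁻ x in Zn y k, k' x * psi (lam G y k) δ (mq G x))) ∧
      ((∑' i : ℕ, wt δ i * ∫⁻ x in Gm U G h y k i,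
          (Pk U y k x * (h x + xx U y k / ENNReal.ofReal (rho k)) +
            (kf x + dF U y k / ENNReal.ofReal (rho k ^ (n - 1))) * ss U h y k x)) +
        ∑' i : ℕ, wt δ i * (2 ^ i * lam G y k * ∫⁻ x in Zn y k \ Gm U G h y k i,
          (Pk U y k x + kf x + dF U y k / ENNReal.ofReal (rho k ^ (n - 1)))) ≤
        9 * (γ' * (∫⁻ x in Zn y k, NN n δ T (lam G y k) (s1 U y k x) (mq G x)) +
          C * ((∫⁻ x in Zn y k, k' x * psi (lam G y k) δ (mq G x)) +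
            (lam G y k ^ (n - 2) * (xx U y k / ENNReal.ofReal (rho k)) ^ 2 +
              (dF U y k / ENNReal.ofReal (rho k ^ (n - 1))) ^ 2 / lam G y k ^ (n - 2)) *
              volume (Zn y k)))) ∧
      ((∑' i : ℕ, wt δ i * ∫⁻ x in Gm U G h y k i, Pk U y k x * ss U h y k x) ≤
        C₀ * (∫⁻ x in Zn y k, NN n δ T (lam G y k) (s1 U y k x) (mq G x)) +
          C * ∫⁻ x in Zn y k, k' x * psi (lam G y k) δ (mq G x)) := by
    intro k hk
    have hak := (Finset.mem_Icc.1 hk).1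
    have hl0 : 0 < lam G y k := hgs y _ (rho_pos k)
    have hl : lam G y k < ⊤ := by
      have h4 := (hF1 Co U v G ν k' kf h hS y k).1.2.1
      by_contra h5
      rw [not_lt, top_le_iff] at h5
      rw [ah, h5, ENNReal.mul_top (hR0 k)] at h4
      exact absurd h4 (by simp)
    obtain ⟨ms1, hss, -⟩ := h1 U v G ν k' kf h hS y
      (EuclideanSpace.single (⟨0, by omega⟩ : Fin n) 1) k (by simp)
      ((ball_sub (by omega)).trans hball)
    obtain ⟨h31, h32, -⟩ := h3 δ hδ hδ4 Co U v G ν k' kf h hS y k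
    have hkf' : dF U y k / ENNReal.ofReal (rho k ^ (n - 1)) < ⊤ :=
      ENNReal.div_lt_top enorm_ne_top (ENNReal.ofReal_pos.2 (pow_pos (rho_pos k) _)).ne'
    refine shell hW hδ hδ2 (measurableSet_Zn y k) hl0 hl (measurable_Pk hS.mU y k)
      (measurable_dev hS.mU y k) (ms1.add (measurable_mx hS.mh)) hS.mh hS.mkf
      (hS.mk'.mul ((measurable_psi _ δ).comp (measurable_mq hS.gd.meas))) hss ?_
    filter_upwards [hss, h31, hMfin, ae_lt_top hS.mk' hS.fink.ne, hS.hk, hS.kfk, le_mx_ae hS.mh]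
      with x a1 a2 a3 a4 a5 a6 a7 hx
    obtain ⟨b1, b2, b3⟩ := a2 hx
    have b4 : dev U y k x ≤ s1 U y k x := by
      unfold s1; rw [add_assoc, add_assoc]; exact le_self_add
    exact hLC (lam G y k) _ (dev U y k x) (ss U h y k x) (s1 U y k x) (mx h x) (mq G x) _ (h x)
      (kf x) _ (k' x) hl0 hl (lt_of_le_of_lt le_self_add (a1 hx))
      (lt_of_le_of_lt le_add_self (a1 hx)) a3 a4 hkf' (b1.trans (by gcongr))
      (b2.trans (by gcongr)) (b3.trans (by gcongr)) b4 (b4.trans le_self_add) le_rfl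
      (a5.trans (le_mul_of_one_le_left' hCd1)) a6 (h32.trans (by gcongr)) a7
  have hsw := swap (w := wt δ) fun i => h2 U v G ν k' kf h hS y a b w i δ hδ hδ4 hab
    ((ball_sub (by omega)).trans hball) hwa hwb
  simp only [avg hw1] at hsw
  calc ∑ k ∈ Finset.Icc a b, (min (w k) (w (k + 1)) : ℝ≥0) * en δ U G y k
      ≤ ∑ k ∈ Finset.Icc a b, (min (w k) (w (k + 1)) : ℝ≥0) *
        (4 * (∑' i : ℕ, wt δ i * ∫⁻ x in Gm U G h y k i, Pk U y k x * dev U y k x) +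
        (γ' * (∫⁻ x in Zn y k, NN n δ T (lam G y k) (s1 U y k x) (mq G x)) +
          C * ∫⁻ x in Zn y k, k' x * psi (lam G y k) δ (mq G x))) :=
        Finset.sum_le_sum fun k hk => mul_le_mul_right (hsh k hk).1 _
    _ = 4 * (∑ k ∈ Finset.Icc a b, (min (w k) (w (k + 1)) : ℝ≥0) *
          ∑' i : ℕ, wt δ i * ∫⁻ x in Gm U G h y k i, Pk U y k x * dev U y k x) +
        ∑ k ∈ Finset.Icc a b, (min (w k) (w (k + 1)) : ℝ≥0) *
          (γ' * (∫⁻ x in Zn y k, NN n δ T (lam G y k) (s1 U y k x) (mq G x)) +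
          C * ∫⁻ x in Zn y k, k' x * psi (lam G y k) δ (mq G x)) := by
        rw [Finset.mul_sum, ← Finset.sum_add_distrib]
        exact Finset.sum_congr rfl fun k _ => by ring
    _ ≤ _ := by
        refine (add_le_add_left (mul_le_mul_right hsw 4) _).trans ?_
        rw [Finset.mul_sum, Finset.mul_sum, ← Finset.sum_add_distrib]
        refine Finset.sum_le_sum fun k hk => ?_
        have hak := (Finset.mem_Icc.1 hk).1
        have hkk : k ∈ Finset.Icc (k - 2) (k + 2) := Finset.mem_Icc.2 ⟨by omega, by omega⟩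
        have hr : rr G ν k' δ y k ≤ ∑ l ∈ Finset.Icc (k - 2) (k + 2), rr G ν k' δ y l :=
          Finset.single_le_sum (f := fun l => rr G ν k' δ y l) (fun _ _ => zero_le) hkk
        have hX : XX c δ U G y k ≤ ∑ l ∈ Finset.Icc (k - 2) (k + 2), XX c δ U G y l :=
          Finset.single_le_sum (f := fun l => XX c δ U G y l) (fun _ _ => zero_le) hkk
        have hb : ∀ l ∈ Finset.Icc (k - 2) (k + 2), ball y (rho (l - 2)) ⊆ ball 0 (1 / 2) :=
          fun l hl => (ball_sub (by have := (Finset.mem_Icc.1 hl).1; omega)).trans hball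
        have hq : ∀ l ∈ Finset.Icc (k - 2) (k + 2), ah G y l ^ (n - 2) * xx U y l ^ 2 ≤
            γ'' * XX c δ U G y l + C' * rr G ν k' δ y l := fun l hl =>
          (hF2 Co U v G ν k' kf h hS y l (hb l hl)).1.trans (by gcongr; exact le_add_self)
        have hγ1 : (γ'' : ℝ≥0∞) ≤ 1 := by exact_mod_cast hγ''1
        refine alg (B := BB T δ G y k) (t₃ := nu ν y k ^ ((n : ℝ) / ((n : ℝ) - 1)))
          (q₁ := ah G y k ^ (n - 2) * xx U y k ^ 2) (q₂ := dF U y k ^ 2 / ah G y k ^ (n - 2))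
          ?_ ((min_le_left _ _).trans le_self_add) hγ' hγ'' ?_ ?_ ?_ ?_ ?_ ?_ ?_ (hY _ _)
          (hsh k hk).2.1 (hsh k hk).2.2
        · rw [NNReal.nndist_eq]
          exact max_le (tsub_le_self.trans le_self_add) (tsub_le_self.trans le_add_self)
        · refine (h3 δ hδ hδ4 Co U v G ν k' kf h hS y k).2.2.trans ?_
          calc (C₃ : ℝ≥0∞) * ∑ l ∈ Finset.Icc (k - 2) (k + 2),
                (XX c δ U G y l + ah G y l ^ (n - 2) * xx U y l ^ 2)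
              ≤ C₃ * ∑ l ∈ Finset.Icc (k - 2) (k + 2),
                (2 * XX c δ U G y l + C' * rr G ν k' δ y l) := by
                refine mul_le_mul_right (Finset.sum_le_sum fun l hl => ?_) _
                calc XX c δ U G y l + ah G y l ^ (n - 2) * xx U y l ^ 2
                    ≤ XX c δ U G y l + (1 * XX c δ U G y l + C' * rr G ν k' δ y l) :=
                      add_le_add_right ((hq l hl).trans (by gcongr)) _
                  _ = _ := by ring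
            _ = _ := by
                rw [Finset.sum_add_distrib, ← Finset.mul_sum, ← Finset.mul_sum]; ring
        · refine le_trans ?_ hr
          refine le_trans ?_ (le_self_add.trans le_self_add)
          exact lintegral_mono_set (sdiff_subset.trans (ball_sub (by omega)))
        · refine (mul_le_mul_right (vol_Zn y k) _).trans (le_of_eq ?_)
          rw [mul_left_comm, ENNReal.ofReal_pow (rho_pos k).le, scale hn (hR0 k) ofReal_ne_top]
          rfl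
        · exact (hq k hkk).trans (by gcongr)
        · exact ((hF1 Co U v G ν k' kf h hS y k).2 (hb k hkk)).2.2.trans (by gcongr)
        · exact le_trans (le_add_self.trans le_self_add) hr
        · exact le_trans le_add_self hr

theorem stPL (hFL : StFL) (hRP : StRP) (hDP : StDP) : StPL := by
  intro n m hn Co
  obtain ⟨CF, -, hFL⟩ := hFL n m hn
  obtain ⟨c, hc, hDP⟩ := hDP n hn CF
  obtain ⟨Cc, hRP⟩ := hRP n m hn Co c hc
  obtain ⟨γ, θ, hγ, hθ, hθ1, hDP⟩ := hDP Cc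
  obtain ⟨δ₀, hδ₀, hδ₀', hRP⟩ := hRP γ hγ
  refine ⟨c, θ, δ₀, hc, hθ, hθ1, hδ₀, hδ₀', fun δ hδ hδ' => ?_⟩
  obtain ⟨C, hRP⟩ := hRP δ hδ hδ'
  obtain ⟨hF1, hF2⟩ := hFL δ hδ (hδ'.trans hδ₀')
  obtain ⟨C', hF2⟩ := hF2 c γ hc hγ
  obtain ⟨CP, hDP⟩ := hDP (C + C' + CF / δ.toNNReal)
  refine ⟨CP, ?_⟩
  intro U v G ν k' kf h hS y k₀ k₂ w hk hw hball
  have hδ0 : δ.toNNReal ≠ 0 := (Real.toNNReal_pos.2 hδ).ne'
  refine hDP (ah G y) (al G y) (en δ U G y) (ff U y) (xx U y) (rr G ν k' δ y) k₀ k₂ w hk hw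
    (fun k => ?_) (fun l hl => ?_) fun w' h1 h2 => ?_
  · obtain ⟨⟨-, a2, a3, -, -, -, a7, -, -, -, a11, -⟩, -⟩ := hF1 Co U v G ν k' kf h hS y k
    refine ⟨a2, a3, ?_, a7⟩
    refine le_trans ?_ (ENNReal.coe_le_coe.2 le_add_self)
    rw [ENNReal.coe_div hδ0]
    refine (ENNReal.le_div_iff_mul_le (Or.inl (by exact_mod_cast hδ0)) (Or.inl coe_ne_top)).2 ?_
    rw [mul_comm]; exact a11
  · obtain ⟨⟨-, -, -, -, -, -, -, -, -, a10, -⟩, -⟩ := hF1 Co U v G ν k' kf h hS y l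
    have hl1 := (Finset.mem_Icc.1 hl).1
    refine ⟨a10, ?_, ?_, ?_⟩
    · unfold ff xx
      calc ‖Ft U y (l + 1)‖ₑ = ‖Ft U y l + (Ft U y (l + 1) - Ft U y l)‖ₑ := by
            rw [add_sub_cancel]
        _ ≤ _ := enorm_add_le _ _
    · unfold ff xx
      calc ‖Ft U y l‖ₑ = ‖Ft U y (l + 1) - (Ft U y (l + 1) - Ft U y l)‖ₑ := by
            rw [_root_.sub_sub_cancel]
        _ ≤ _ := enorm_sub_le
    · refine (hF2 Co U v G ν k' kf h hS y l ((RP.ball_sub (by omega)).trans hball)).2.trans ?_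
      have : (C' : ℝ≥0∞) ≤ (C + C' + CF / δ.toNNReal : ℝ≥0) := by
        exact_mod_cast le_add_self.trans le_self_add
      unfold YY
      gcongr
  · have h3 := hRP U v G ν k' kf h hS y (k₀ - 1) (k₂ + 1) w' (by omega)
      ((RP.ball_sub (by omega)).trans hball) h1 (by rw [← h2]; congr 1; ring)
    refine h3.trans (Finset.sum_le_sum fun k _ => ?_)
    have : C ≤ C + C' + CF / δ.toNNReal := le_self_add.trans le_self_add
    unfold XX YY
    gcongr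

end Pool.Agent.P.MP_28243e_an
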