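import Pool.Agent.P.MP_28243e_an.RP1b

/-! Properties of the glued test functions `xp`. -/

namespace Pool.Agent.P.MP_28243e_an

open Set MeasureTheory Metric Filter Topology ENNReal
open scoped NNReal ContDiff RealInnerProductSpace Classical

namespace RP1

variable {n m : ℕ}

lemma enorm_mdl_le (hM : StMdl) (hn : 3 ≤ n) {F : V m} {y z : E n} {k : ℤ} {μ : ℝ≥0∞}
    (hz : z ∈ On y k) (hF : ‖F‖ₑ ≤ ENNReal.ofReal (rho k) * μ) : ‖mdl F y z‖ₑ ≤ 4 * μ := by
  have hk := rho_pos k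
  have h1 : ENNReal.ofReal (rho k) * ‖mdl F y z‖ₑ ≤ 4 * ‖F‖ₑ := by
    have h2 : rho k * ‖mdl F y z‖ ≤ 4 * ‖F‖ := by
      rw [(((hM n hn).2.2 m F y).1 z).1]
      calc rho k * (‖F‖ / ‖z - y‖) ≤ rho k * (‖F‖ / (rho k / 4)) :=
            mul_le_mul_of_nonneg_left
              (div_le_div_of_nonneg_left (norm_nonneg _) (by linarith) (mem_On.mp hz).1.le) hk.le
        _ = 4 * ‖F‖ := by field_simp
    have h3 := ENNReal.ofReal_le_ofReal h2
    rwa [ENNReal.ofReal_mul hk.le, ENNReal.ofReal_mul (by norm_num), ENNReal.ofReal_ofNat,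
      ofReal_norm, ofReal_norm] at h3
  have h4 : ENNReal.ofReal (rho k) * ‖mdl F y z‖ₑ ≤ ENNReal.ofReal (rho k) * (4 * μ) :=
    h1.trans ((mul_le_mul' le_rfl hF).trans_eq (by ring))
  exact (ENNReal.mul_le_mul_iff_right (ofReal_rho_ne k) ENNReal.ofReal_ne_top).mp h4

lemma mx_add_const {f g : E n → ℝ≥0∞} (hg : Measurable g) {c : ℝ≥0∞} (h : ∀ z, f z ≤ g z + c)
    (x : E n) : mx f x ≤ mx g x + c :=
  (mx_mono (g := fun z => g z + c) (Eventually.of_forall h) x).trans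
    ((mx_add hg (fun _ => c) x).trans
      (add_le_add le_rfl (mx_le_const (Eventually.of_forall fun _ => le_rfl) x)))

lemma mx_dev_lt_top (hM : StMdl) (hn : 3 ≤ n) {U : E n → Mt m n} {G : E n → ℝ≥0∞}
    (hG : Measurable G) (hU : ∀ x, ‖U x‖ₑ = G x) (y : E n) (k : ℤ) {x : E n}
    (hx : mq G x < ⊤) : mx ((On y k).indicator (dev U y k)) x < ⊤ := by
  have h1 := mx_add_const (f := (On y k).indicator (dev U y k)) hG
    (c := 4 * (‖Ft U y k‖ₑ / ENNReal.ofReal (rho k))) (fun z => by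
      by_cases hz : z ∈ On y k
      · rw [indicator_of_mem hz, ← hU]
        exact enorm_sub_le.trans (add_le_add le_rfl
          (enorm_mdl_le hM hn hz (le_mul_of_div_le le_rfl le_rfl)))
      · rw [indicator_of_notMem hz]; exact zero_le) x
  refine h1.trans_lt (ENNReal.add_lt_top.mpr ⟨(mx_le_mq hn hG x).trans_lt hx, ?_⟩)
  exact ENNReal.mul_lt_top (by norm_num) (ENNReal.div_lt_top enorm_ne_top (ofReal_rho_ne k))

lemma ss_lt_top (h8 : StA8) (hM : StMdl) (hn : 3 ≤ n) {Co : ℝ≥0} {U : E n → Mt m n}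
    {v : E n → V m} {G ν k' kf h : E n → ℝ≥0∞} (hS : Str Co U v G ν k' kf h) (y : E n) (k : ℤ) :
    ∀ᵐ x, x ∈ Zn y k → ss U h y k x < ⊤ := by
  obtain ⟨C, hC⟩ := h8 n hn
  obtain ⟨h1, h2, -⟩ := hC G hS.gd
  filter_upwards [h2, hS.hk, ae_lt_top hS.mk' hS.fink.ne] with x hx1 hx2 hx3 _
  have h3 : mx h x < ⊤ := by
    by_contra hc
    rw [not_lt_top_iff.mp hc, ENNReal.top_pow two_ne_zero, Wt,
      ENNReal.mul_top (pow_ne_zero _ (h1 x).ne')] at hx2
    exact absurd hx3 (not_lt.mpr hx2)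
  refine ENNReal.add_lt_top.mpr ⟨ENNReal.add_lt_top.mpr ⟨ENNReal.add_lt_top.mpr
    ⟨ENNReal.add_lt_top.mpr ⟨enorm_lt_top, mx_dev_lt_top hM hn hS.gd.meas hS.normU y k hx1⟩,
      mx_dev_lt_top hM hn hS.gd.meas hS.normU y (k + 1) hx1⟩, ?_⟩, h3⟩
  exact ENNReal.div_lt_top (ENNReal.add_ne_top.mpr
    ⟨ENNReal.add_ne_top.mpr ⟨enorm_ne_top, enorm_ne_top⟩, enorm_ne_top⟩) (ofReal_rho_ne k)

lemma measurable_s1 (hM : StMdl) (hn : 3 ≤ n) {U : E n → Mt m n} (hU : Measurable U) (y : E n)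
    (k : ℤ) : Measurable (s1 U y k) :=
  (((measurable_dev hM hn hU y k).add (measurable_mx
    ((measurable_dev hM hn hU y k).indicator (isOpen_On y k).measurableSet))).add (measurable_mx
    ((measurable_dev hM hn hU y (k + 1)).indicator (isOpen_On y (k + 1)).measurableSet))).add_const _

/-! ### the oscillation bound -/

lemma gs_far (hn : 3 ≤ n) (G : E n → ℝ≥0∞) {y p : E n} {k : ℤ} {s : ℝ}
    (hp : ‖p - y‖ ≤ 2 * rho k) (hs : 2 * rho k ≤ s) : gs G p s ≤ 4 * lam G y k := by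
  have hk := rho_pos k
  have := gs_le_gs hn G (x := p) (x' := y) (r := s) (r' := rho k) (K := 2) (by linarith)
    (by linarith) (by linarith)
  rwa [show (2 : ℝ) ^ 2 = 4 by norm_num, ENNReal.ofReal_ofNat] at this

lemma av_far (hn : 3 ≤ n) {G : E n → ℝ≥0∞} (hG : Measurable G) {y p : E n} {k : ℤ} {s : ℝ}
    (hp : ‖p - y‖ ≤ 2 * rho k) (hs : 2 * rho k ≤ s) : av G p s ≤ 4 * lam G y k :=
  (av_le_gq hn hG p (by linarith [rho_pos k])).trans
    ((gq_le_gs G p le_rfl).trans (gs_far hn G hp hs))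

lemma ofReal_mul_rho (c : ℝ) (hc : 0 ≤ c) (k : ℤ) :
    ENNReal.ofReal (c * rho k) = ENNReal.ofReal c * ENNReal.ofReal (rho k) :=
  ENNReal.ofReal_mul hc

lemma av_pot_le (hn : 3 ≤ n) {G : E n → ℝ≥0∞} (hG : Measurable G) {y p : E n} {k : ℤ} {t : ℝ}
    (hp : ‖p - y‖ ≤ 2 * rho k) (ht1 : rho k / 64 ≤ t) (ht2 : t ≤ rho k) :
    av (pot G (40 * rho k)) p t ≤ ENNReal.ofReal (2560 ^ n) * 2 ^ (n + 1) * 160 * ah G y k := by
  have hk := rho_pos k
  refine (av_le_av _ (x' := p) (r' := 40 * rho k) (K := 2560) (by linarith)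
    (ball_subset_ball (by linarith)) (by linarith)).trans ?_
  refine (mul_le_mul' le_rfl ((av_pot hG (by linarith) p).trans
    (mul_le_mul' le_rfl (av_far hn hG hp (by linarith))))).trans_eq ?_
  rw [ofReal_mul_rho 40 (by norm_num), ENNReal.ofReal_ofNat, ah]
  ring

lemma pot_big_le (hn : 3 ≤ n) {G : E n → ℝ≥0∞} (hG : Measurable G) {y x : E n} {k : ℤ}
    (hx : ‖x - y‖ ≤ 2 * rho k) :
    pot G (40 * rho k) x ≤
      2 ^ (n + 1) * pot G (rho k / 8) x + ENNReal.ofReal (320 ^ n) * 320 * ah G y k := by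
  have hk := rho_pos k
  refine (pot_le_pot G (t := rho k / 8) (by linarith) (by linarith) x).trans (add_le_add le_rfl ?_)
  refine (mul_le_mul' le_rfl (av_far hn hG hx (by linarith))).trans_eq ?_
  rw [show 40 * rho k / (rho k / 8) = 320 by field_simp; norm_num,
    ENNReal.ofReal_mul (by linarith), ofReal_mul_rho 40 (by norm_num), ENNReal.ofReal_ofNat, ah]
  ring

lemma rpow_le_self' {a : ℝ≥0∞} (ha : 1 ≤ a) {p : ℝ} (hp : p ≤ 1) : a ^ p ≤ a := by
  simpa using ENNReal.rpow_le_rpow_of_exponent_le ha hp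

lemma root_le (hn : 3 ≤ n) (G : E n → ℝ≥0∞) {y x : E n} {k : ℤ} (hx : ‖x - y‖ ≤ 2 * rho k) :
    (ENNReal.ofReal (5 * rho k) * gs G x (5 * rho k)) ^ (1 / 2 : ℝ) ≤
      20 * ah G y k ^ (1 / 2 : ℝ) := by
  have hk := rho_pos k
  have h1 : ENNReal.ofReal (5 * rho k) * gs G x (5 * rho k) ≤ 20 * ah G y k := by
    refine (mul_le_mul' le_rfl (gs_far hn G hx (by linarith))).trans_eq ?_
    rw [ofReal_mul_rho 5 (by norm_num), ENNReal.ofReal_ofNat, ah]
    ring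
  refine (ENNReal.rpow_le_rpow h1 (by norm_num)).trans ?_
  rw [ENNReal.mul_rpow_of_nonneg _ _ (by norm_num)]
  exact mul_le_mul' (rpow_le_self' (by norm_num) (by norm_num)) le_rfl

lemma le_root {a C : ℝ≥0∞} (hC : 1 ≤ C) (h : a ≤ C) : a ≤ C * a ^ (1 / 2 : ℝ) := by
  calc a = a ^ (1 / 2 : ℝ) * a ^ (1 / 2 : ℝ) := by
        rw [← ENNReal.rpow_add_of_nonneg _ _ (by norm_num) (by norm_num)]; norm_num
    _ ≤ C * a ^ (1 / 2 : ℝ) := mul_le_mul'
        ((ENNReal.rpow_le_rpow h (by norm_num)).trans (rpow_le_self' hC (by norm_num))) le_rfl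

/-- the potential at a good point -/
lemma exists_pot (hAP : StAP) (hM : StMdl) (hn : 3 ≤ n) (T CF : ℝ≥0) (hT : 1 ≤ T) : ∃ C : ℝ≥0,
    ∀ (U : E n → Mt m n) (G : E n → ℝ≥0∞), Measurable U → Measurable G → (∀ x, ‖U x‖ₑ = G x) →
    ∀ (y x : E n) (k : ℤ) (i : ℕ) (δ : ℝ), 0 < δ → δ ≤ 1 / 4 → 0 < ah G y k → ah G y k ≤ CF →
      ff U y k ≤ CF * ah G y k → rho k / 2 ≤ ‖x - y‖ → ‖x - y‖ ≤ 2 * rho k →
      mx ((On y k).indicator (dev U y k)) x ≤ 2 * (2 ^ i * lam G y k) →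
      pot G (rho k / 8) x ≤
        C * (ah G y k + (i + 1) * 2 ^ ((i : ℝ) * δ / 2) * BB T δ G y k ^ (1 / (n : ℝ))) := by
  obtain ⟨C, hC⟩ := hAP n hn
  set K : ℝ≥0 := 1 + (vb n).toNNReal * 289 ^ n + (2 + 4 * CF) with hK
  refine ⟨C * K * T, ?_⟩
  intro U G hU hG hUG y x k i δ hδ hδ' ha0 ha1 hf hx1 hx2 hmx
  have hk := rho_pos k
  have ht : 0 < rho k / 8 := by linarith
  have hT' : (1 : ℝ≥0∞) ≤ T := by exact_mod_cast hT
  have hl0 : lam G y k ≠ 0 := fun e => by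
    rw [ah, e, mul_zero] at ha0; exact lt_irrefl _ ha0
  have hl1 : lam G y k ≠ ⊤ := fun e => by
    rw [ah, e, ENNReal.mul_top (ofReal_rho_ne k)] at ha1
    exact absurd ha1 (not_le.mpr ENNReal.coe_lt_top)
  have hlT : lam G y k ≤ T * lam G y k := le_mul_of_one_le_left zero_le hT'
  have hsub : ball x (rho k / 8) ⊆ On y k :=
    ball_subset_closedBall.trans (closedBall_sub_On le_rfl hx1 hx2)
  have hq := q1_pos hn
  have b1 : ∫⁻ z in ball x (rho k / 8), G z ^ q1 n ≤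
      K * (T * lam G y k) ^ q1 n * ENNReal.ofReal ((rho k / 8) ^ n) := by
    have h1 := gs_le_gs hn G (x := x) (x' := y) (r := rho k / 8) (r' := rho k) (K := 17) ht
      (by linarith) (by linarith)
    rw [show (17 : ℝ) ^ 2 = 289 by norm_num, ENNReal.ofReal_ofNat] at h1
    have h2 : gq G x (rho k / 8) ≤ 289 * (T * lam G y k) :=
      (gq_le_gs G x le_rfl).trans (h1.trans (mul_le_mul' le_rfl hlT))
    have h3 : (289 : ℝ≥0∞) ^ q1 n ≤ 289 ^ n := by
      rw [← ENNReal.rpow_natCast]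
      exact ENNReal.rpow_le_rpow_of_exponent_le (by norm_num) (by unfold q1; linarith)
    have h4 : ENNReal.ofReal (vb n) * 289 ^ n ≤ K := by
      rw [hK]
      push_cast
      exact le_add_self.trans le_self_add
    rw [lint_ball_eq _ _ ht, ← gq_rpow hn, vol_ball _ ht, ENNReal.ofReal_mul vb_pos.le]
    calc ENNReal.ofReal (vb n) * ENNReal.ofReal ((rho k / 8) ^ n) * gq G x (rho k / 8) ^ q1 n
        ≤ ENNReal.ofReal (vb n) * ENNReal.ofReal ((rho k / 8) ^ n) *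
          (289 ^ n * (T * lam G y k) ^ q1 n) := by
          refine mul_le_mul' le_rfl ((ENNReal.rpow_le_rpow h2 hq.le).trans ?_)
          rw [ENNReal.mul_rpow_of_nonneg _ _ hq.le]
          exact mul_le_mul' h3 le_rfl
      _ = ENNReal.ofReal (vb n) * 289 ^ n * (T * lam G y k) ^ q1 n *
          ENNReal.ofReal ((rho k / 8) ^ n) := by ring
      _ ≤ _ := mul_le_mul' (mul_le_mul' h4 le_rfl) le_rfl
  have b2 : mx ((ball x (rho k / 8)).indicator G) x ≤ K * (2 ^ i * (T * lam G y k)) := by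
    have hF : ‖Ft U y k‖ₑ ≤ ENNReal.ofReal (rho k) * (CF * lam G y k) :=
      hf.trans_eq (by rw [ah]; ring)
    have h1 := mx_add_const (f := (ball x (rho k / 8)).indicator G)
      ((measurable_dev hM hn hU y k).indicator (isOpen_On y k).measurableSet)
      (c := 4 * (CF * lam G y k)) (fun z => by
        by_cases hz : z ∈ ball x (rho k / 8)
        · rw [indicator_of_mem hz, indicator_of_mem (hsub hz), ← hUG,
            ← sub_add_cancel (U z) (mdl (Ft U y k) y z)]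
          exact (enorm_add_le _ _).trans (add_le_add le_rfl (enorm_mdl_le hM hn (hsub hz) hF))
        · rw [indicator_of_notMem hz]; exact zero_le) x
    have h2 : lam G y k ≤ 2 ^ i * (T * lam G y k) :=
      hlT.trans (le_mul_of_one_le_left zero_le (one_le_pow₀ one_le_two))
    have h4 : (2 + 4 * CF : ℝ≥0∞) ≤ K := by
      rw [hK]
      push_cast
      exact le_add_self
    calc _ ≤ 2 * (2 ^ i * (T * lam G y k)) + 4 * (CF * (2 ^ i * (T * lam G y k))) :=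
          h1.trans (add_le_add (hmx.trans (by gcongr)) (by gcongr))
      _ = (2 + 4 * CF) * (2 ^ i * (T * lam G y k)) := by ring
      _ ≤ _ := mul_le_mul' h4 le_rfl
  have b3 : (T * lam G y k) ^ δ *
      ∫⁻ z in ball x (rho k / 8) ∩ {z | T * lam G y k < G z}, G z ^ ((n : ℝ) - δ) ≤
      T * BB T δ G y k := by
    rw [ENNReal.mul_rpow_of_nonneg _ _ hδ.le, mul_assoc]
    exact mul_le_mul' (rpow_le_self' hT' (by linarith))
      (mul_le_mul' le_rfl (lintegral_mono_set (inter_subset_inter_left _ hsub)))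
  have hK1 : 1 ≤ K := le_self_add.trans le_self_add
  have hn' : (3 : ℝ) ≤ n := by exact_mod_cast hn
  refine (hC δ hδ (by linarith) G x (rho k / 8) (T * lam G y k) (T * BB T δ G y k) K i hG ht
    (ENNReal.mul_pos (zero_lt_one.trans_le hT').ne' hl0)
    (ENNReal.mul_lt_top ENNReal.coe_lt_top hl1.lt_top) hK1 b1 b2 b3).trans ?_
  have c1 : ENNReal.ofReal (rho k / 8) * (T * lam G y k) ≤ T * ah G y k := by
    refine (mul_le_mul' (ENNReal.ofReal_le_ofReal (by linarith : rho k / 8 ≤ rho k))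
      le_rfl).trans_eq ?_
    rw [ah]; ring
  have c2 : ((T : ℝ≥0∞) * BB T δ G y k) ^ (1 / (n : ℝ)) ≤ T * BB T δ G y k ^ (1 / (n : ℝ)) := by
    rw [ENNReal.mul_rpow_of_nonneg _ _ (by positivity)]
    exact mul_le_mul' (rpow_le_self' hT' (by rw [div_le_one (by linarith)]; linarith)) le_rfl
  refine (mul_le_mul' le_rfl (add_le_add c1 (mul_le_mul' le_rfl c2))).trans_eq ?_
  push_cast
  ring

/-- the distance from `v` to the three neighbouring models -/
lemma sub_hm_le (hn : 3 ≤ n) {Co : ℝ≥0} {U : E n → Mt m n} {v : E n → V m}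
    {G ν k' kf h : E n → ℝ≥0∞} (hS : Str Co U v G ν k' kf h) {y e x : E n} {k l : ℤ}
    (he : ‖e‖ = 1) (hb : ball y (rho (k - 2)) ⊆ ball 0 (1 / 2)) (hl1 : k - 1 ≤ l)
    (hl2 : l ≤ k + 1) (hx1 : rho k / 2 ≤ ‖x - y‖) (hx2 : ‖x - y‖ ≤ 2 * rho k) :
    ‖v x - hm U v y e l x‖ₑ ≤
      Co * (ENNReal.ofReal (2560 ^ n) * 2 ^ (n + 1) * 160 * ah G y k +
        ((2 ^ (n + 1) * pot G (rho k / 8) x + ENNReal.ofReal (320 ^ n) * 320 * ah G y k) +
          20 * ah G y k ^ (1 / 2 : ℝ))) + 16 * ff U y l := by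
  have hk := rho_pos k
  have hv : Continuous v := hS.cv.continuous
  obtain ⟨h1, h2⟩ := rho_near hl1 hl2
  have ht : 0 < rho l / 32 := by linarith
  have hr := radius_le hn (rho_pos (k - 2)) hb
  rw [rho_two] at hr hb
  have hin : ∀ z : E n, ‖z - y‖ < 4 * rho k → z ∈ ball (0 : E n) (1 / 2) := fun z hz =>
    hb (by rw [mem_ball, dist_eq_norm]; exact hz)
  rw [sub_hm hv he]
  refine enorm_sub_le.trans (add_le_add ?_ ?_)
  · refine (norm_sub_bav_le ht (integrableOn_ball hv.continuousOn) (v x)).trans ?_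
    set c := (2 ^ (n + 1) * pot G (rho k / 8) x + ENNReal.ofReal (320 ^ n) * 320 * ah G y k) +
      20 * ah G y k ^ (1 / 2 : ℝ) with hc
    have hp : Measurable (pot G (40 * rho k)) := measurable_pot hS.gd.meas _
    refine (av_mono (g := fun z => Co * (pot G (40 * rho k) z + c)) fun z hz => ?_).trans ?_
    · have h3 := (mem_small he (ball_subset_closedBall hz)).2
      have h4 := norm_sub_le_norm_sub_add_norm_sub x y z
      rw [norm_sub_rev y z] at h4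
      have h5 := hS.osc x (hin x (by linarith)) z (hin z (by linarith)) (5 * rho k) (by linarith)
        (by linarith [norm_nonneg (y - 0)]) (by linarith)
      rw [show 8 * (5 * rho k) = 40 * rho k by ring] at h5
      refine h5.trans (mul_le_mul' le_rfl ?_)
      rw [add_comm (pot G (40 * rho k) x), add_assoc]
      exact add_le_add le_rfl (add_le_add (pot_big_le hn hS.gd.meas hx2) (root_le hn G hx2))
    · rw [av_const_mul (hp.add_const c), av_add hp]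
      refine mul_le_mul' le_rfl (add_le_add ?_ (av_le_const (Eventually.of_forall fun _ _ => le_rfl)))
      exact av_pot_le hn hS.gd.meas (by rw [norm_pt he]; exact h2) (by linarith) (by linarith)
  · have h3 := enorm_smul_le_of (Ft U y l) (abs_lg_sub_Lk he hl1 hl2 hx1 hx2)
    rwa [ENNReal.ofReal_ofNat] at h3

lemma xp_le_of {U : E n → Mt m n} {v : E n → V m} {y e x : E n} {k : ℤ} {W : ℝ≥0∞}
    (h : ∀ l, k - 1 ≤ l → l ≤ k + 1 → ‖v x - hm U v y e l x‖ₑ ≤ W) :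
    ‖xp U v y e k x‖ₑ ≤ 5 * W := by
  have e1 : xp U v y e k x = (v x - hm U v y e k x) -
      (1 - chi y (k - 1) x) • ((v x - hm U v y e k x) - (v x - hm U v y e (k - 1) x)) -
      chi y k x • ((v x - hm U v y e k x) - (v x - hm U v y e (k + 1) x)) := by
    unfold xp; module
  have h0 := h k (by omega) (by omega)
  have h1 := h (k - 1) le_rfl (by omega)
  have h2 := h (k + 1) (by omega) le_rfl
  rw [e1]
  calc _ ≤ W + (W + W) + (W + W) :=
        enorm_sub_le.trans (add_le_add (enorm_sub_le.trans (add_le_add h0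
          ((enorm_smul_le_one _ (abs_one_sub_chi_le _ _ _)).trans
            (enorm_sub_le.trans (add_le_add h0 h1)))))
          ((enorm_smul_le_one _ (abs_chi_le _ _ _)).trans (enorm_sub_le.trans (add_le_add h0 h2))))
    _ = 5 * W := by ring

/-- the second bound on the size of `xp` -/
lemma exists_osc (hAP : StAP) (hM : StMdl) (hF : StFL) (hn : 3 ≤ n) (Co T : ℝ≥0) (hT : 1 ≤ T) :
    ∃ C : ℝ≥0, ∀ (U : E n → Mt m n) (v : E n → V m) (G ν k' kf h : E n → ℝ≥0∞),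
    Str Co U v G ν k' kf h → ∀ (y e : E n) (k : ℤ), ‖e‖ = 1 →
    ball y (rho (k - 2)) ⊆ ball 0 (1 / 2) → ∀ (i : ℕ) (x : E n),
    Hm U h y k x (2 * (2 ^ i * lam G y k)) → ∀ δ : ℝ, 0 < δ → δ ≤ 1 / 4 →
      ‖xp U v y e k x‖ₑ ≤ C * (ah G y k ^ (1 / 2 : ℝ) +
        (i + 1) * 2 ^ ((i : ℝ) * δ / 2) * BB T δ G y k ^ (1 / (n : ℝ))) := by
  obtain ⟨CF, hCF1, hCF⟩ := hF n m hn
  obtain ⟨CP, hCP⟩ := exists_pot (m := m) hAP hM hn T CF hT
  set K : ℝ≥0∞ := 5 * (Co * (ENNReal.ofReal (2560 ^ n) * 2 ^ (n + 1) * 160 * CF +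
    ((2 ^ (n + 1) * (CP * CF) + ENNReal.ofReal (320 ^ n) * 320 * CF) + 20)) + 16 * (CF * (2 * CF)))
    with hK
  have hKt : K ≠ ⊤ := by rw [hK]; finiteness
  refine ⟨K.toNNReal, ?_⟩
  intro U v G ν k' kf h hS y e k he hb i x H δ hδ hδ'
  rw [ENNReal.coe_toNNReal hKt]
  have hCF1' : (1 : ℝ≥0∞) ≤ CF := by exact_mod_cast hCF1
  have FL := fun l => ((hCF δ hδ hδ').1 Co U v G ν k' kf h hS y l).1
  set R := ah G y k ^ (1 / 2 : ℝ) +
    (i + 1) * 2 ^ ((i : ℝ) * δ / 2) * BB T δ G y k ^ (1 / (n : ℝ)) with hR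
  have r1 : ah G y k ^ (1 / 2 : ℝ) ≤ R := le_self_add
  have r2 : ah G y k ≤ CF * R := (le_root hCF1' (FL k).2.1).trans (mul_le_mul' le_rfl r1)
  have r3 : pot G (rho k / 8) x ≤ CP * CF * R := by
    refine (hCP U G hS.mU hS.gd.meas hS.normU y x k i δ hδ hδ' (FL k).1 (FL k).2.1
      (FL k).2.2.2.2.2.2.2.2.1 H.1 H.2.1 (le_self_add.trans H.2.2.1)).trans ?_
    rw [mul_assoc (CP : ℝ≥0∞), hR, mul_add (CF : ℝ≥0∞)]
    exact mul_le_mul' le_rfl (add_le_add (le_root hCF1' (FL k).2.1)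
      (le_mul_of_one_le_left zero_le hCF1'))
  have r4 : ∀ l, k - 1 ≤ l → l ≤ k + 1 → ff U y l ≤ CF * (2 * CF) * R := by
    intro l hl1 hl2
    have h1 : ah G y l ≤ 2 * ah G y k := by
      rcases (by omega : l = k - 1 ∨ l = k ∨ l = k + 1) with rfl | rfl | rfl
      · have := (FL (k - 1)).2.2.2.2.1
        rwa [sub_add_cancel] at this
      · rw [two_mul]; exact le_self_add
      · exact (FL k).2.2.2.1
    calc ff U y l ≤ CF * (2 * (CF * R)) :=
          (FL l).2.2.2.2.2.2.2.2.1.trans (mul_le_mul' le_rfl (h1.trans (mul_le_mul' le_rfl r2)))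
      _ = _ := by ring
  refine (xp_le_of (W := Co * (ENNReal.ofReal (2560 ^ n) * 2 ^ (n + 1) * 160 * (CF * R) +
    ((2 ^ (n + 1) * (CP * CF * R) + ENNReal.ofReal (320 ^ n) * 320 * (CF * R)) + 20 * R)) +
      16 * (CF * (2 * CF) * R)) fun l hl1 hl2 => ?_).trans_eq (by rw [hK]; ring)
  refine (sub_hm_le hn hS he hb hl1 hl2 H.1 H.2.1).trans ?_
  have := r4 l hl1 hl2
  gcongr

end RP1

open RP1

theorem stRP1 (_h2 : StA2) (_h5 : StA5) (h8 : StA8) (hAP : StAP) (hB : StB) (hM : StMdl)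
    (hF : StFL) : StRP1 := by
  intro n m hn Co T hT
  obtain ⟨C₁, hC₁⟩ := exists_xp (m := m) hB hM hn
  obtain ⟨C₂, hC₂⟩ := exists_grad (m := m) hM hn
  obtain ⟨C₃, hC₃⟩ := exists_osc (m := m) hAP hM hF hn Co T hT
  obtain ⟨CF, -, hCF⟩ := hF n m hn
  refine ⟨2 * C₁ + C₂ + C₃, ?_⟩
  intro U v G ν k' kf h hS y e k he hb
  have k1 : (2 * C₁ : ℝ≥0∞) ≤ ((2 * C₁ + C₂ + C₃ : ℝ≥0) : ℝ≥0∞) := by
    push_cast; exact le_self_add.trans le_self_add
  have k0 : (C₁ : ℝ≥0∞) ≤ ((2 * C₁ + C₂ + C₃ : ℝ≥0) : ℝ≥0∞) :=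
    le_trans (by rw [two_mul]; exact le_self_add) k1
  have k2 : (C₂ : ℝ≥0∞) ≤ ((2 * C₁ + C₂ + C₃ : ℝ≥0) : ℝ≥0∞) := by
    push_cast; exact le_add_self.trans le_self_add
  have k3 : (C₃ : ℝ≥0∞) ≤ ((2 * C₁ + C₂ + C₃ : ℝ≥0) : ℝ≥0∞) := by
    push_cast; exact le_add_self
  have H1 := hC₁ Co U v G ν k' kf h hS y e k he hb
  have hlam : lam G y (k - 1) ≤ lam G y k := by
    have := ((hCF (1 / 4) (by norm_num) le_rfl).1 Co U v G ν k' kf h hS y (k - 1)).1.2.2.2.2.2.1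
    rwa [sub_add_cancel] at this
  have HG : ∀ i : ℕ, ∀ x ∈ Gm U G h y (k - 1) i ∪ Gm U G h y k i,
      Hm U h y k x (2 * (2 ^ i * lam G y k)) := by
    rintro i x (hx | hx)
    · exact (hm_of_Zn' U h hx.1).mono
        (mul_le_mul' le_rfl (le_trans hx.2 (mul_le_mul' le_rfl hlam)))
    · exact (hm_of_Zn U h hx.1).mono (le_trans hx.2 (by rw [two_mul]; exact le_self_add))
  refine ⟨measurable_s1 hM hn hS.mU y k, ss_lt_top h8 hM hn hS y k,
    fun x hx => xp_diff hM hn U hS.cv e k hx, fun x hx => ?_,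
    ⟨Ak U v y e k (k + 1) - Ak U v y e k k, fun x hx => ?_, ?_⟩, fun i => ⟨?_, fun x hx => ⟨?_, ?_⟩⟩⟩
  · exact ⟨(xp_succ hM hn U hS.cv e hx).1, (xp_succ hM hn U hS.cv e hx).2,
      (H1 x _ (hm_of_Zn U h hx)).1.trans (mul_le_mul' (mul_le_mul' k0 le_rfl) le_rfl)⟩
  · exact (H1 x _ (hm_of_Zn U h hx)).2.1.trans (mul_le_mul' (mul_le_mul' k0 le_rfl) le_rfl)
  · filter_upwards [hC₂ Co U v G ν k' kf h hS y e k he hb] with x hx hxZ
    exact (hx hxZ).trans (add_le_add le_rfl (mul_le_mul' k2 le_rfl))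
  · intro x hx x' hx'
    refine ((H1 x _ (HG i x hx)).2.2 x' (HG i x' hx')).trans (mul_le_mul' ?_ le_rfl)
    rw [← mul_assoc, mul_comm (C₁ : ℝ≥0∞) 2]
    exact mul_le_mul' k1 le_rfl
  · calc _ ≤ C₁ * ENNReal.ofReal (rho k) * (2 * (2 ^ i * lam G y k)) := (H1 x _ (HG i x hx)).1
      _ = 2 * C₁ * ENNReal.ofReal (rho k) * (2 ^ i * lam G y k) := by ring
      _ ≤ _ := mul_le_mul' (mul_le_mul' k1 le_rfl) le_rfl
  · intro δ hδ hδ'
    exact (hC₃ U v G ν k' kf h hS y e k he hb i x (HG i x hx) δ hδ hδ').trans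
      (mul_le_mul' k3 le_rfl)

end Pool.Agent.P.MP_28243e_an
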