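import Pool.Agent.P.MP_28243e_an.RP2c

/-! The inequality along a chain at one truncation level. -/

namespace Pool.Agent.P.MP_28243e_an

open Set MeasureTheory Metric Filter Topology ENNReal
open scoped NNReal ContDiff RealInnerProductSpace Classical

namespace RP2

theorem reindex (a b : ℤ) (w : ℤ → ℝ≥0) (P Q : ℤ → ℝ) (ha : w a = 0) (hb : w (b + 1) = 0) :
    ∑ k ∈ Finset.Icc a b, ((w k : ℝ) * P k + w (k + 1) * Q k) =
      ∑ k ∈ Finset.Ico a b, (w (k + 1) : ℝ) * (Q k + P (k + 1)) := by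
  have e1 : ∑ k ∈ Finset.Icc a b, (w k : ℝ) * P k =
      ∑ k ∈ Finset.Ico a b, (w (k + 1) : ℝ) * P (k + 1) := by
    rw [Finset.sum_Ico_add' (fun k => (w k : ℝ) * P k) a b 1]
    symm
    apply Finset.sum_subset
    · intro k hk; simp only [Finset.mem_Ico, Finset.mem_Icc] at hk ⊢; omega
    · intro k hk hk'
      simp only [Finset.mem_Ico, Finset.mem_Icc] at hk hk'
      have : k = a := by omega
      rw [this, ha]; simp
  have e2 : ∑ k ∈ Finset.Icc a b, (w (k + 1) : ℝ) * Q k =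
      ∑ k ∈ Finset.Ico a b, (w (k + 1) : ℝ) * Q k := by
    symm
    apply Finset.sum_subset
    · intro k hk; simp only [Finset.mem_Ico, Finset.mem_Icc] at hk ⊢; omega
    · intro k hk hk'
      simp only [Finset.mem_Ico, Finset.mem_Icc] at hk hk'
      have : k = b := by omega
      rw [this, hb]; simp
  rw [Finset.sum_add_distrib, e1, e2, ← Finset.sum_add_distrib]
  exact Finset.sum_congr rfl fun k _ => by ring

theorem ofReal_sum_le {ι : Type} (s : Finset ι) (f : ι → ℝ) :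
    ENNReal.ofReal (∑ k ∈ s, f k) ≤ ∑ k ∈ s, ENNReal.ofReal (f k) := by
  induction s using Finset.induction_on with
  | empty => simp
  | insert a s ha ih =>
    rw [Finset.sum_insert ha, Finset.sum_insert ha]
    exact ENNReal.ofReal_add_le.trans (add_le_add le_rfl ih)

theorem shift_le (a b : ℤ) (f : ℤ → ℝ≥0∞) :
    ∑ k ∈ Finset.Ico a b, f (k + 1) ≤ ∑ k ∈ Finset.Icc a b, f k := by
  rw [Finset.sum_Ico_add' f a b 1]
  apply Finset.sum_le_sum_of_subset
  intro k hk; simp only [Finset.mem_Ico, Finset.mem_Icc] at hk ⊢; omega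

end RP2

open RP2 in
theorem stRP2 (h5 : StA5) (_h8 : StA8) (hLT : StLT) (hS : StSig) (hM : StMdl) (_hFL : StFL)
    (hR1 : StRP1) : StRP2 := by
  intro n m hn Co T hT
  obtain ⟨C₅, h5⟩ := h5 n hn
  obtain ⟨C₁, hR1⟩ := hR1 n m hn Co T hT
  obtain ⟨c, hc, K, hz⟩ := zone (m := m) hn hS hM C₁ T
  obtain ⟨K', hp⟩ := piece (m := m) hn hLT hS hM C₁ T K
  refine ⟨(3 * K' + 2 * K ^ 2) * c⁻¹.toNNReal, ?_⟩
  intro U v G ν k' kf h hstr y a b w i δ hδ0 hδ hab hdom ha hb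
  set e : E n := EuclideanSpace.single ⟨0, by omega⟩ 1 with he
  have he1 : ‖e‖ = 1 := by simp [he]
  have hdom' : ∀ k, a ≤ k → ball y (rho (k - 2)) ⊆ ball 0 (1 / 2) := fun k hk =>
    (ball_subset_ball (rho_anti (by omega))).trans hdom
  have hR : ∀ k, a ≤ k → R1 C₁ T U v G h y e k := fun k hk =>
    hR1 U v G ν k' kf h hstr y e k he1 (hdom' k hk)
  have hlam : ∀ k, lam G y k ≠ ⊤ := by
    intro k hk
    have := (h5 G 1 hstr.gd.meas hstr.gd.weak).2.2.2.1 y (rho k) (rho_pos k)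
    rw [lam] at hk
    rw [hk, ENNReal.mul_top (by simpa using rho_pos k)] at this
    exact absurd this (not_le.2 (by finiteness))
  have hz' := fun k (hk : a ≤ k) => hz Co U v G ν k' kf h hstr y e k i (hR k hk) (hlam k)
  set P : ℤ → ℝ := fun k => ∫ x in Gm U G h y k i, ⟪Sk U y k x, Pin U v y e k x⟫ with hP
  set Q : ℤ → ℝ := fun k => ∫ x in Gm U G h y k i, ⟪Sk U y k x, Pout U v y e k x⟫ with hQ
  set N : ℤ → ℝ≥0∞ := fun k => nu ν y k * (ah G y k ^ (1 / 2 : ℝ) +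
    (i + 1) * 2 ^ ((i : ℝ) * δ / 2) * BB T δ G y k ^ (1 / (n : ℝ))) with hN
  set Br : ℤ → ℝ≥0∞ := fun k =>
    (∫⁻ x in Gm U G h y k i, (Pk U y k x * (h x + xx U y k / ENNReal.ofReal (rho k)) +
      (kf x + dF U y k / ENNReal.ofReal (rho k ^ (n - 1))) * ss U h y k x)) +
    2 ^ i * lam G y k * (∫⁻ x in Zn y k \ Gm U G h y k i,
      (Pk U y k x + kf x + dF U y k / ENNReal.ofReal (rho k ^ (n - 1)))) + N k with hBr
  set D : ℤ → ℝ≥0∞ := fun k => ∫⁻ x in Gm U G h y k i, Pk U y k x * ss U h y k x with hD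
  set L : ℤ → ℝ≥0∞ := fun k => ∫⁻ x in Gm U G h y k i, Pk U y k x * dev U y k x with hL
  set S : ℝ≥0∞ := ∑ k ∈ Finset.Icc a b, ((w k + w (k + 1) : ℝ≥0) * Br k +
    (nndist (w k) (w (k + 1)) : ℝ≥0) * D k) with hSd
  change ∑ k ∈ Finset.Icc a b, (min (w k) (w (k + 1)) : ℝ≥0) * L k ≤ _ * S
  have hex : ∀ k, ∃ I Er : ℝ, a ≤ k → 0 ≤ I ∧ ENNReal.ofReal I = L k ∧
      (min (w k) (w (k + 1)) : ℝ≥0) * (c * I) ≤ w k * P k + w (k + 1) * Q k + Er ∧
      ENNReal.ofReal Er ≤ 2 * K ^ 2 * ((w k + w (k + 1) : ℝ≥0) * Br k +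
        (nndist (w k) (w (k + 1)) : ℝ≥0) * D k) := by
    intro k
    by_cases hk : a ≤ k
    · obtain ⟨-, -, -, -, I, hI0, hI, hE⟩ := hz' k hk
      obtain ⟨Er, h1, h2⟩ := hE (w k) (w (k + 1))
      refine ⟨I, Er, fun _ => ⟨hI0, hI, h1, h2.trans ?_⟩⟩
      have : (∫⁻ x in Gm U G h y k i, Pk U y k x * (h x + xx U y k / ENNReal.ofReal (rho k))) +
          2 ^ i * lam G y k * ∫⁻ x in Zn y k \ Gm U G h y k i, Pk U y k x ≤ Br k := by
        refine le_trans (add_le_add (lintegral_mono fun x => le_self_add) ?_) le_self_add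
        exact mul_le_mul_right (lintegral_mono fun x => le_self_add.trans le_self_add) _
      calc _ ≤ (K : ℝ≥0∞) ^ 2 * ((w k + w (k + 1) : ℝ≥0) * Br k +
            2 * ((nndist (w k) (w (k + 1)) : ℝ≥0) * D k)) := by gcongr
        _ ≤ (K : ℝ≥0∞) ^ 2 * (2 * ((w k + w (k + 1) : ℝ≥0) * Br k) +
            2 * ((nndist (w k) (w (k + 1)) : ℝ≥0) * D k)) := by
            refine mul_le_mul_right (add_le_add ?_ le_rfl) _
            rw [two_mul]; exact le_self_add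
        _ = _ := by ring
    · exact ⟨0, 0, fun h => absurd h hk⟩
  choose I Er hI using hex
  have hH : ∀ k, HH U G kf h y k i ≤ Br k := fun k =>
    le_trans (add_le_add (lintegral_mono fun x => le_add_self) le_rfl) le_self_add
  have hpc : ∀ k, a ≤ k → ENNReal.ofReal (Q k + P (k + 1)) ≤ K' * (Br k + 2 * Br (k + 1)) := by
    intro k hk
    obtain ⟨s0, a0, -⟩ := hz' k hk
    obtain ⟨s1', a1, -⟩ := hz' (k + 1) (by omega)
    refine (hp Co U v G ν k' kf h hstr y e k i δ hδ0 hδ (hR k hk) (hR (k + 1) (by omega)) (hlam k)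
      ((ball_subset_ball (rho_anti (by omega))).trans (hdom' k hk)) s0 s1'
      (a0.mono fun x hx hx' => (hx hx').2) (a1.mono fun x hx hx' => (hx hx').1)).trans ?_
    rw [two_mul, ← add_assoc]
    exact mul_le_mul_right (add_le_add (add_le_add (hH k) (hH (k + 1))) le_add_self) _
  have real : c * ∑ k ∈ Finset.Icc a b, ((min (w k) (w (k + 1)) : ℝ≥0) : ℝ) * I k ≤
      ∑ k ∈ Finset.Ico a b, (w (k + 1) : ℝ) * (Q k + P (k + 1)) + ∑ k ∈ Finset.Icc a b, Er k := by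
    rw [← reindex a b w P Q ha hb, ← Finset.sum_add_distrib, Finset.mul_sum]
    refine Finset.sum_le_sum fun k hk => ?_
    have := (hI k (Finset.mem_Icc.1 hk).1).2.2.1
    linarith
  have eL : ∑ k ∈ Finset.Icc a b, (min (w k) (w (k + 1)) : ℝ≥0) * L k =
      ENNReal.ofReal (∑ k ∈ Finset.Icc a b, ((min (w k) (w (k + 1)) : ℝ≥0) : ℝ) * I k) := by
    rw [ENNReal.ofReal_sum_of_nonneg fun k hk =>
      mul_nonneg (NNReal.coe_nonneg _) (hI k (Finset.mem_Icc.1 hk).1).1]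
    refine Finset.sum_congr rfl fun k hk => ?_
    rw [ENNReal.ofReal_mul (NNReal.coe_nonneg _), (hI k (Finset.mem_Icc.1 hk).1).2.1,
      ENNReal.ofReal_coe_nnreal]
  have b1 : ENNReal.ofReal (∑ k ∈ Finset.Ico a b, (w (k + 1) : ℝ) * (Q k + P (k + 1))) ≤
      3 * K' * S := by
    have u1 : ∑ k ∈ Finset.Ico a b, (w (k + 1) : ℝ≥0∞) * Br k ≤ S := by
      refine (Finset.sum_le_sum_of_subset Finset.Ico_subset_Icc_self).trans
        (Finset.sum_le_sum fun k _ => le_trans ?_ le_self_add)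
      gcongr; exact le_add_self
    have u2 : ∑ k ∈ Finset.Ico a b, (w (k + 1) : ℝ≥0∞) * Br (k + 1) ≤ S := by
      refine (shift_le a b fun k => (w k : ℝ≥0∞) * Br k).trans
        (Finset.sum_le_sum fun k _ => le_trans ?_ le_self_add)
      gcongr; exact le_self_add
    calc _ ≤ ∑ k ∈ Finset.Ico a b, (w (k + 1) : ℝ≥0∞) * (K' * (Br k + 2 * Br (k + 1))) := by
          refine (ofReal_sum_le _ _).trans (Finset.sum_le_sum fun k hk => ?_)
          rw [ENNReal.ofReal_mul (NNReal.coe_nonneg _), ENNReal.ofReal_coe_nnreal]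
          exact mul_le_mul_right (hpc k (Finset.mem_Ico.1 hk).1) _
      _ = K' * (∑ k ∈ Finset.Ico a b, (w (k + 1) : ℝ≥0∞) * Br k +
          2 * ∑ k ∈ Finset.Ico a b, (w (k + 1) : ℝ≥0∞) * Br (k + 1)) := by
          rw [Finset.mul_sum _ _ 2, ← Finset.sum_add_distrib, Finset.mul_sum]
          exact Finset.sum_congr rfl fun k _ => by ring
      _ ≤ K' * (S + 2 * S) := by gcongr
      _ = _ := by ring
  have b2 : ENNReal.ofReal (∑ k ∈ Finset.Icc a b, Er k) ≤ 2 * K ^ 2 * S := by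
    rw [hSd, Finset.mul_sum]
    exact (ofReal_sum_le _ _).trans
      (Finset.sum_le_sum fun k hk => (hI k (Finset.mem_Icc.1 hk).1).2.2.2)
  have fin : ∑ k ∈ Finset.Icc a b, ((min (w k) (w (k + 1)) : ℝ≥0) : ℝ) * I k ≤
      c⁻¹ * (∑ k ∈ Finset.Ico a b, (w (k + 1) : ℝ) * (Q k + P (k + 1)) +
        ∑ k ∈ Finset.Icc a b, Er k) := by
    rw [le_inv_mul_iff₀ hc]; exact real
  rw [eL]
  refine (ENNReal.ofReal_le_ofReal fin).trans ?_
  rw [ENNReal.ofReal_mul (by positivity)]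
  calc _ ≤ ENNReal.ofReal c⁻¹ * (3 * K' * S + 2 * K ^ 2 * S) :=
        mul_le_mul_right (ENNReal.ofReal_add_le.trans (add_le_add b1 b2)) _
    _ = _ := by rw [ENNReal.ofReal]; push_cast; ring

end Pool.Agent.P.MP_28243e_an
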