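import Pool.Agent.P.MP_28243e_an.SHB

/-! The cost of a cell. -/

namespace Pool.Agent.P.MP_28243e_an

open Set MeasureTheory Metric ENNReal
open scoped NNReal

namespace SH

variable {n m : ℕ}

lemma cell_size (hG : StG0) (hn : 3 ≤ n) {G : E n → ℝ≥0∞} (hGd : Gd G) {j k : ℤ} {z : Fin n → ℤ}
    {y : E n} (hF : Fj G j k z) (hy : ‖y - ctr k z‖ ≤ 3 / 4 * rho (k - (n + 4))) :
    ah G y (k - (n + 4)) ≤ 2 ^ (n + 10) * sz j k ∧
    (2 : ℝ≥0∞) ^ j < 2 ^ (2 * n + 8) * lam G y (k - (n + 4)) ∧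
    sz j k ≤ 2 ^ (2 * n + 8) * ah G y (k - (n + 4)) ∧
    ∀ x ∈ cell k z, ‖x - y‖ < rho (k - (n + 4)) := by
  set kb := k - (n + 4) with hkb
  have e0 : kb + ((n + 4 : ℕ) : ℤ) = k := by rw [hkb]; push_cast; ring
  have e1 := rho_nat kb (n + 4)
  have e2 := orho_nat kb (n + 4)
  rw [e0] at e1 e2
  have r0 := rho_pos k
  have r1 := rho_pos kb
  have n3 : (3 : ℝ) ≤ n := by exact_mod_cast hn
  have n2 : (n : ℝ) ≤ 2 ^ n := by exact_mod_cast Nat.lt_two_pow_self.le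
  have e3 : 16 * (n * rho k) ≤ rho kb := by
    rw [e1, pow_add]
    nlinarith
  have nr : 0 < n * rho k := by positivity
  obtain ⟨C0, L, hC⟩ := (hG n hn).2.2
  have h1 := ((hC G hGd).2.2.2.1 j k z hF).2.1
  have h2 := gs_le_gs hn G (x := y) (x' := ctr k z) (r := rho kb) (r' := 4 * n * rho k) (K := 2) r1
    (by linarith) (by linarith)
  have h3 := gq_le_gq hn G (x := ctr k z) (x' := y) (r := 2 * n * rho k) (r' := rho kb)
    (K := 2 ^ (n + 4)) (by positivity) (ball_subset_ball' (by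
      rw [dist_eq_norm, norm_sub_rev]; linarith)) (by
      rw [e1]
      have : rho k ≤ 2 * n * rho k := by nlinarith
      gcongr)
  have h4 : (2 : ℝ≥0∞) ^ j < 2 ^ (2 * n + 8) * lam G y kb := by
    refine hF.1.trans_le (h3.trans ?_)
    rw [← pow_mul, ENNReal.ofReal_pow (by norm_num), ENNReal.ofReal_ofNat,
      show (n + 4) * 2 = 2 * n + 8 by ring]
    exact mul_le_mul_right (gq_le_gs G y le_rfl) _
  refine ⟨?_, h4, ?_, fun x hx => ?_⟩
  · calc ah G y kb ≤ 2 ^ (n + 4) * ENNReal.ofReal (rho k) * (4 * 2 ^ (j + (4 : ℕ))) := by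
          rw [ah, e2]
          refine mul_le_mul_right (h2.trans ?_) _
          rw [show ENNReal.ofReal ((2 : ℝ) ^ 2) = 4 by norm_num]
          exact mul_le_mul_right h1 _
      _ = _ := by rw [two_zpow_nat, sz_eq]; ring
  · rw [sz_eq, ah, mul_comm (ENNReal.ofReal _), ← mul_assoc]
    exact mul_le_mul' h4.le (ENNReal.ofReal_le_ofReal (rho_anti (by omega)))
  · have h5 := (((hG n hn).1 k z).2.2.2 x hx).1
    have h6 := norm_sub_le_norm_sub_add_norm_sub x (ctr k z) y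
    rw [norm_sub_rev (ctr k z) y] at h6
    linarith

lemma good_pt (hG : StG0) (hM : StMdl) (hn : 3 ≤ n) {C c c' d : ℝ≥0} {δ : ℝ} {U : E n → Mt m n}
    {G ν k' : E n → ℝ≥0∞} {y x : E n} {kb j k : ℤ} {J l₀ : ℕ} (hU : Measurable U) (hGd : Gd G)
    (h : Fl C δ U G ν k' y kb) (hc : c ≠ 0) (hc' : 64 * C * c' ≤ c)
    (hJ : 128 * C * (C * (4 * n ^ 2)) ≤ c * 2 ^ J) (hF : Fj G j k (idx k x))
    (hx : ‖x - y‖ < rho kb) (hf : ∀ l, kb ≤ l → l ≤ kb + l₀ → c * ah G y l ≤ ff U y l)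
    (hN : ∀ l, kb ≤ l → l ≤ kb + l₀ → d * (2 ^ (2 * J) * sz j k) ^ q1 n < ms ν y l)
    (hl : C * (4 * n ^ 2) * 2 ^ (j + 2 * J + 1) < c * lam G y (kb + l₀)) {τ : ℝ≥0∞}
    (τ1 : 2 * τ ≤ lam G y kb) (τ2 : 4 * τ ≤ c * lam G y kb)
    (d1 : Dv U y (Finset.Icc (kb - 1) (kb + l₀ + 1)) x ≤ 2 * τ)
    (d2 : mq (Dv U y (Finset.Icc (kb - 1) (kb + l₀ + 1))) x ≤ 2 * τ) :
    x ∉ bad G ν k' δ d c' J j := by
  by_cases h0 : ‖x - y‖ < rho (kb + l₀)
  · rintro (⟨-, h1⟩ | ⟨i, i', -, h1, -, -, h2, -⟩)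
    · exact h1 ⟨kb + l₀, gh_big hG hn h h0 (hf _ (by omega) le_rfl) hl⟩
    · refine not_T (J := 2 * J) hG hn hGd h hF h0 (hf _ (by omega) le_rfl) (lt_of_le_of_lt ?_ hl)
        (by omega) (by push_cast; omega) (hN _ (by omega) le_rfl) h2
      exact mul_le_mul_right (two_zpow_mono (by omega)) _
  · obtain ⟨l, l1, l2, hxl⟩ := exists_Zn l₀ hx (not_lt.1 h0)
    have lm := h.lmono l1
    have hW : ∀ l', l - 1 ≤ l' → l' ≤ l + 1 → l' ∈ Finset.Icc (kb - 1) (kb + l₀ + 1) :=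
      fun l' a b => Finset.mem_Icc.2 ⟨by omega, by omega⟩
    have g1 := shell_G hM hn h hxl (hf l l1 l2.le) (by
      rw [← Dv_eq (hW l (by omega) (by omega)) hxl]
      calc _ ≤ 2 * (2 * τ) := by gcongr
        _ = 4 * τ := by ring
        _ ≤ _ := τ2.trans (by gcongr))
    have g2 := shell_M hM hn h hxl (meas_Dv hM hn hU y _)
      (fun l' a b x' hx' => (Dv_eq (hW l' a b) hx').ge) (d2.trans (τ1.trans lm))
    rintro (⟨h1, -⟩ | ⟨i, i', -, h1, h3, -, h2, h4⟩)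
    · refine absurd (show G x < c' * mq G x from h1) (not_lt.2 ?_)
      have h2 : (64 : ℝ≥0∞) * C * c' ≤ c := by exact_mod_cast hc'
      rw [← ENNReal.mul_le_mul_iff_right (a := 2) (by norm_num) (by norm_num)]
      calc 2 * (c' * mq G x) ≤ 2 * (c' * (32 * C * lam G y l)) := by gcongr
        _ = 64 * C * c' * lam G y l := by ring
        _ ≤ _ := le_trans (by gcongr) g1
    · obtain ⟨C0, L, hC⟩ := (hG n hn).2.2
      have h5 := ((hC G hGd).1 _).2.2.1 x h4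
      have h6 : (128 : ℝ≥0∞) * C * (C * (4 * n ^ 2)) ≤ c * 2 ^ J := by exact_mod_cast hJ
      refine not_T (J := 2 * J) hG hn hGd h hF (mem_Zn.1 hxl).1 (hf l l1 l2.le) ?_
        (by omega) (by push_cast; omega) (hN l l1 l2.le) h2
      refine lt_of_mul_lt_mul_left' (a := 128 * (C : ℝ≥0∞)) ?_
      calc _ = (128 : ℝ≥0∞) * C * (C * (4 * n ^ 2)) * 2 ^ (j + i) := by ring
        _ ≤ (c : ℝ≥0∞) * 2 ^ J * 2 ^ (j + i) := by gcongr
        _ = (c : ℝ≥0∞) * 2 ^ (j + i + J) := by rw [two_zpow_nat _ J, mul_assoc]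
        _ ≤ (c : ℝ≥0∞) * 2 ^ (j + i + i') := mul_le_mul_right (two_zpow_mono (by omega)) _
        _ < c * (4 * mq G x) := ENNReal.mul_lt_mul_right (by simpa using hc) coe_ne_top h5
        _ ≤ c * (4 * (32 * C * lam G y l)) := by gcongr
        _ = _ := by ring

end SH

open SH in
theorem stSH (h1 : StA2) (_h2 : StA8) (h3 : StG0) (h4 : StMdl) (h5 : StFL) : StSH := by
  intro n m hn c c0
  obtain ⟨C, C1, hC⟩ := h5 n m hn
  obtain ⟨CA, hA⟩ := (h1 n hn).2.2
  have C0 : 0 < C := zero_lt_one.trans_le C1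
  obtain ⟨J₀, hJ₀⟩ := pow_unbounded_of_one_lt (128 * C * (C * (4 * n ^ 2)) / c)
    (show (1 : ℝ≥0) < 2 by norm_num)
  refine ⟨min 1 (c / (64 * C)), J₀, lt_min zero_lt_one (by positivity), min_le_left _ _,
    fun J hJ => ?_⟩
  set A : ℝ≥0 := 2 ^ (2 * n + 8) with hAd
  have A1 : 1 ≤ A := one_le_pow₀ (by norm_num)
  obtain ⟨l₀, hl₀⟩ := pow_unbounded_of_one_lt (C * (C * (4 * n ^ 2)) * 2 ^ (2 * J + 1) * A / c ^ 2)
    (show (1 : ℝ≥0) < 3 / 2 by norm_num)
  set e : ℝ≥0 := c ^ (n - 1) / (4 * C ^ 2) with he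
  have e0 : 0 < e := by positivity
  set P : ℝ≥0 := 2 ^ (2 * J) * A with hP
  have P1 : 1 ≤ P := one_le_mul (one_le_pow₀ (by norm_num)) A1
  set c2 : ℝ≥0 := min 1 c / 4 with hc2
  have c20 : 0 < c2 := div_pos (lt_min zero_lt_one c0) (by norm_num)
  set K1 : ℝ≥0 := A ^ n * ((2 ^ l₀) ^ n * (1 + (e ^ 2)⁻¹)) with hK1
  set K2 : ℝ≥0 := A ^ n * (c2⁻¹ ^ n * CA) with hK2
  refine ⟨l₀, c ^ (n - 1) / (4 * (2 ^ l₀) ^ (n - 1) * C ^ 2 * P ^ n),
    2 ^ (n + 10) + A ^ n + K1 + K2, by positivity, ?_⟩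
  intro d hd δ δ0 δ1 Co U v G ν k' kf h hS j k z y hF hy hb
  obtain ⟨s1, s2, s3, s4⟩ := cell_size h3 hn hS.gd hF hy
  set kb := k - (n + 4) with hkb
  have hA' : (2 : ℝ≥0∞) ^ (2 * n + 8) = A := by rw [hAd]; push_cast; rfl
  rw [hA'] at s2 s3
  have hq := fun l => (hC δ δ0 δ1).1 Co U v G ν k' kf h hS y l
  have hb' : ∀ l, kb ≤ l → ball y (rho (l - 2)) ⊆ ball 0 (1 / 2) := fun l hl =>
    (ball_subset_ball (rho_anti (by omega))).trans hb
  have fl : Fl C δ U G ν k' y kb := ⟨C1, hS.normU, fun l => (hq l).1.1, fun l => (hq l).1.2.1,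
    fun l => (hq l).1.2.2.2.1, fun l => (hq l).1.2.2.2.2.1, fun l => (hq l).1.2.2.2.2.2.1,
    fun l => (hq l).1.2.2.2.2.2.2.2.1, fun l => (hq l).1.2.2.2.2.2.2.2.2.1,
    fun l => (hq l).1.2.2.2.2.2.2.2.2.2.2.2, fun l hl => ((hq l).2 (hb' l hl)).1,
    fun l hl => ((hq l).2 (hb' l hl)).2.2⟩
  refine ⟨s1.trans (mul_le_mul_left ?_ _), ?_⟩
  · push_cast
    exact le_self_add.trans (le_self_add.trans le_self_add)
  set X := ((2 : ℝ≥0∞) ^ j) ^ n * volume (bad G ν k' δ d (min 1 (c / (64 * C))) J j ∩ cell k z)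
    with hX
  have x1 : X ≤ A ^ n * ah G y kb ^ n := by
    calc X ≤ ((2 : ℝ≥0∞) ^ j) ^ n * volume (cell k z) :=
          mul_le_mul_right (measure_mono inter_subset_right) _
      _ = sz j k ^ n := by
          rw [((h3 n hn).1 k z).2.1, ENNReal.ofReal_pow (rho_pos k).le, sz_eq, mul_pow]
      _ ≤ _ := by rw [← mul_pow]; exact pow_le_pow_left' s3 _
  set W := Finset.Icc (kb - 1) (kb + l₀ + 1) with hW
  set Y := ∑ l ∈ W, (XX c δ U G y l + rr G ν k' δ y l) with hY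
  have x2 : X ≤ K1 * Y ∨ X ≤ K2 * Y := by
    by_cases hh : ∀ l, kb ≤ l → l ≤ kb + l₀ →
        c * ah G y l ≤ ff U y l ∧ rr G ν k' δ y l ≤ e ^ 2 * ah G y l ^ n
    · right
      have he' : 4 * C ^ 2 * e ≤ c ^ (n - 1) := by
        rw [he, mul_div_cancel₀ _ (by positivity)]
      have g1 := growth hn fl c0.ne' he' (fun l a b => (hh l a b).1) (fun l a b => (hh l a b).2)
      have g2 : (C : ℝ≥0∞) * (4 * n ^ 2) * 2 ^ (j + 2 * J + 1) < c * lam G y (kb + l₀) := by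
        have g3 : 2 ^ l₀ * (C * (C * (4 * n ^ 2)) * 2 ^ (2 * J + 1) * A) ≤ 3 ^ l₀ * c ^ 2 := by
          rw [div_pow, div_lt_div_iff₀ (by positivity) (by positivity)] at hl₀
          rw [mul_comm]; exact hl₀.le
        have g4 : (2 : ℝ≥0∞) ^ l₀ * (C * (C * (4 * n ^ 2)) * 2 ^ (2 * J + 1) * A) ≤
            3 ^ l₀ * c ^ 2 := by exact_mod_cast g3
        have n0 : (n : ℝ≥0∞) ≠ 0 := by simp; omega
        refine lt_of_mul_lt_mul_left' (a := 2 ^ l₀ * (C : ℝ≥0∞)) ?_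
        calc _ = (2 : ℝ≥0∞) ^ l₀ * (C * (C * (4 * n ^ 2)) * 2 ^ (2 * J + 1)) * 2 ^ j := by
              rw [show j + 2 * J + 1 = j + ((2 * J + 1 : ℕ) : ℤ) by push_cast; ring, two_zpow_nat]
              ring
          _ < 2 ^ l₀ * (C * (C * (4 * n ^ 2)) * 2 ^ (2 * J + 1)) * (A * lam G y kb) :=
              ENNReal.mul_lt_mul_right (by simp [C0.ne', n0]) (by finiteness) s2
          _ = 2 ^ l₀ * (C * (C * (4 * n ^ 2)) * 2 ^ (2 * J + 1) * A) * lam G y kb := by ring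
          _ ≤ 3 ^ l₀ * c ^ 2 * lam G y kb := by gcongr
          _ = c * (3 ^ l₀ * c * lam G y kb) := by ring
          _ ≤ c * (2 ^ l₀ * C * lam G y (kb + l₀)) := by gcongr
          _ = _ := by ring
      have hd' : 4 * (2 ^ l₀) ^ (n - 1) * C ^ 2 * P ^ n * d ≤ c ^ (n - 1) := by
        rwa [le_div_iff₀ (by positivity), mul_comm] at hd
      have c21 : (4 : ℝ≥0∞) * c2 ≤ 1 := by
        have : 4 * c2 ≤ 1 := by rw [hc2, mul_div_cancel₀ _ (by norm_num)]; exact min_le_left _ _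
        exact_mod_cast this
      have c22 : (4 : ℝ≥0∞) * c2 ≤ c := by
        have : 4 * c2 ≤ c := by rw [hc2, mul_div_cancel₀ _ (by norm_num)]; exact min_le_right _ _
        exact_mod_cast this
      set τ : ℝ≥0∞ := c2 * lam G y kb with hτ
      have τ4 : 4 * τ ≤ lam G y kb := by
        rw [hτ, ← mul_assoc]; exact mul_le_of_le_one_left' c21
      have g5 := exc h4 hn (fun G hG t => (hA G hG t).1) hS.mU G y W δ0 δ1 (τ := τ)
        (mul_ne_zero (by simpa using c20.ne') (fl.lpos kb))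
        (ENNReal.mul_ne_top coe_ne_top (fl.ltop kb)) (fun l hl => by
          rw [← ENNReal.mul_le_mul_iff_right (a := 4) (by norm_num) (by norm_num)]
          exact τ4.trans ((fl.lam4 kb).trans
            (mul_le_mul_right (fl.lmono (Finset.mem_Icc.1 hl).1) _)))
      have g6 : volume (bad G ν k' δ d (min 1 (c / (64 * C))) J j ∩ cell k z) ≤
          volume {x | 2 * τ < mq (Dv U y W) x} := by
        refine measure_mono_ae ?_
        filter_upwards [le_mq_ae hn (meas_Dv h4 hn hS.mU y W)] with x hx hx'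
        by_contra h6
        have h7 : mq (Dv U y W) x ≤ 2 * τ := not_lt.1 h6
        have h8 : idx k x = z := hx'.2
        refine good_pt h3 h4 hn hS.mU hS.gd fl c0.ne' ?_ ?_ (h8 ▸ hF) (s4 x hx'.2)
          (fun l a b => (hh l a b).1) (fun l a b => mass_big hn fl c0.ne' P1 he' a b (hh l a b).1
            (hh l a b).2 hd' ?_) g2 (le_trans (by gcongr; norm_num) τ4) ?_ (hx.trans h7) h7 hx'.1
        · exact (mul_le_mul_right (min_le_right _ _) _).trans_eq
            (mul_div_cancel₀ _ (by positivity))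
        · rw [div_lt_iff₀ c0, mul_comm (2 ^ J₀)] at hJ₀
          exact hJ₀.le.trans (by gcongr; norm_num)
        · rw [hP]; push_cast; rw [mul_assoc]; gcongr
        · rw [hτ, ← mul_assoc]; gcongr
      have g7 : lam G y kb = (c2⁻¹ : ℝ≥0) * τ := by
        rw [hτ, ← mul_assoc, ← ENNReal.coe_mul, inv_mul_cancel₀ c20.ne', ENNReal.coe_one, one_mul]
      calc X ≤ (A * lam G y kb) ^ n * volume {x | 2 * τ < mq (Dv U y W) x} :=
            mul_le_mul' (pow_le_pow_left' s2.le _) g6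
        _ = A ^ n * ((c2⁻¹ : ℝ≥0) ^ n * (τ ^ n * volume {x | 2 * τ < mq (Dv U y W) x})) := by
            conv_lhs => rw [g7]
            rw [mul_pow, mul_pow]; ring
        _ ≤ A ^ n * ((c2⁻¹ : ℝ≥0) ^ n * (CA * Y)) :=
            mul_le_mul_right (mul_le_mul_right (g5.trans (mul_le_mul_right
              (Finset.sum_le_sum fun l _ => le_self_add.trans le_self_add) _)) _) _
        _ = _ := by rw [hK2]; simp only [ENNReal.coe_mul, ENNReal.coe_pow]; ring
    · left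
      push Not at hh
      obtain ⟨l, l1, l2, hl⟩ := hh
      have y1 : XX c δ U G y l + rr G ν k' δ y l ≤ Y :=
        Finset.single_le_sum (f := fun l => XX c δ U G y l + rr G ν k' δ y l) (fun _ _ => bot_le)
          (Finset.mem_Icc.2 ⟨by omega, by omega⟩)
      have y2 : ah G y l ^ n ≤ (1 + ((e ^ 2)⁻¹ : ℝ≥0)) * Y := by
        rw [add_mul, one_mul]
        by_cases h6 : c * ah G y l ≤ ff U y l
        · refine le_trans ?_ le_add_self
          calc ah G y l ^ n = ((e ^ 2)⁻¹ : ℝ≥0) * (e ^ 2 * ah G y l ^ n) := by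
                rw [← mul_assoc, ← ENNReal.coe_pow, ← ENNReal.coe_mul,
                  inv_mul_cancel₀ (by positivity), ENNReal.coe_one, one_mul]
            _ ≤ _ := mul_le_mul_right ((hl h6).le.trans (le_add_self.trans y1)) _
        · refine le_trans (le_trans ?_ (le_self_add.trans y1)) le_self_add
          rw [XX, YY, Yq, if_pos (not_le.1 h6)]
          exact le_add_self
      calc X ≤ A ^ n * (2 ^ l₀ * ah G y l) ^ n :=
            x1.trans (mul_le_mul_right (pow_le_pow_left' (fl.adn' l1 l2) _) _)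
        _ ≤ A ^ n * ((2 ^ l₀) ^ n * ((1 + ((e ^ 2)⁻¹ : ℝ≥0)) * Y)) := by rw [mul_pow]; gcongr
        _ = _ := by
            rw [hK1]
            simp only [ENNReal.coe_mul, ENNReal.coe_pow, ENNReal.coe_add, ENNReal.coe_one,
              ENNReal.coe_ofNat]
            ring
  rw [cost, ← hW, ← hY, min_def]
  push_cast
  split_ifs
  · exact x1.trans (mul_le_mul_left (le_add_self.trans (le_self_add.trans le_self_add)) _)
  · rcases x2 with x2 | x2
    · exact x2.trans (mul_le_mul_left (le_add_self.trans le_self_add) _)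
    · exact x2.trans (mul_le_mul_left le_add_self _)

end Pool.Agent.P.MP_28243e_an
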