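import Pool.Agent.P.MP_28243e_an.Stmts

/-! The discrete summation lemma `StSQ`. -/

namespace Pool.Agent.P.MP_28243e_an

open scoped NNReal ENNReal

namespace SQ

open Finset

lemma geo_half {t : ℝ} (h0 : 0 ≤ t) (h1 : t < 1) (T : Finset ℤ) (g : ℤ → ℕ)
    (hg : Set.InjOn g T) : ∑ k ∈ T, t ^ g k ≤ (1 - t)⁻¹ := by
  rw [← Finset.sum_image (f := fun j => t ^ j) (fun x hx y hy h => hg hx hy h),
    ← tsum_geometric_of_lt_one h0 h1]
  exact (summable_geometric_of_lt_one h0 h1).sum_le_tsum _ (fun _ _ => by positivity)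

lemma geo_sum {t : ℝ} (h0 : 0 ≤ t) (h1 : t < 1) (T : Finset ℤ) (l : ℤ) :
    ∑ k ∈ T, t ^ (k - l).natAbs ≤ 2 * (1 - t)⁻¹ := by
  rw [← Finset.sum_filter_add_sum_filter_not T (fun k => l ≤ k), two_mul]
  refine add_le_add (geo_half h0 h1 _ _ ?_) (geo_half h0 h1 _ _ ?_)
  · intro x hx y hy h
    simp only [coe_filter, Set.mem_ofPred_eq] at hx hy h
    omega
  · intro x hx y hy h
    simp only [coe_filter, Set.mem_ofPred_eq] at hx hy h
    omega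

lemma pw {μ p₀ p : ℝ} (hμ : 0 < μ) (h1 : p₀ ≤ p) (h2 : p ≤ 2) : μ ^ p ≤ μ ^ p₀ + μ ^ 2 := by
  rcases le_total μ 1 with h | h
  · have := Real.rpow_le_rpow_of_exponent_ge hμ h h1
    have : 0 ≤ μ ^ 2 := by positivity
    linarith
  · have := Real.rpow_le_rpow_of_exponent_le h h2
    rw [Real.rpow_two] at this
    have : 0 ≤ μ ^ p₀ := by positivity
    linarith

lemma kap {n : ℕ} (hn : 3 ≤ n) {a κ g : ℝ} (ha : 0 < a) (hκ : 0 ≤ κ) (hg : 0 < g)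
    (h : g * a ^ (n - 1) ≤ κ ^ (1 / 2 : ℝ) * a ^ (((n : ℝ) - 2) / 2)) :
    a ^ n ≤ 1 / g ^ 2 * κ := by
  obtain ⟨m, rfl⟩ : ∃ m, n = m + 2 := ⟨n - 2, by omega⟩
  have e1 : (κ ^ (1 / 2 : ℝ)) ^ 2 = κ := by
    rw [← Real.rpow_natCast, ← Real.rpow_mul hκ]; norm_num
  have e2 : (a ^ ((((m + 2 : ℕ) : ℝ) - 2) / 2)) ^ 2 = a ^ m := by
    rw [← Real.rpow_natCast, ← Real.rpow_mul ha.le, ← Real.rpow_natCast]
    congr 1; push_cast; ring
  have h2 := pow_le_pow_left₀ (by positivity) h 2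
  rw [mul_pow, mul_pow, e1, e2, show m + 2 - 1 = m + 1 by omega] at h2
  have h3 : (g ^ 2 * a ^ (m + 2)) * a ^ m ≤ κ * a ^ m := by
    refine le_of_eq_of_le ?_ h2
    ring
  have h4 := le_of_mul_le_mul_right h3 (pow_pos ha m)
  rw [one_div, inv_mul_eq_div, le_div_iff₀ (by positivity)]
  linarith

lemma nu {n : ℕ} (hn : 3 ≤ n) {a ν g : ℝ} (ha : 0 < a) (hg : 0 < g)
    (h : g * a ^ (n - 1) ≤ ν) :
    a ^ n ≤ (1 / g) ^ ((n : ℝ) / ((n : ℝ) - 1)) * ν ^ ((n : ℝ) / ((n : ℝ) - 1)) := by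
  have h3 : (3 : ℝ) ≤ n := by exact_mod_cast hn
  have hν : 0 ≤ ν := le_trans (by positivity) h
  have h1 : a ^ (n - 1) ≤ 1 / g * ν := by
    rw [one_div, inv_mul_eq_div, le_div_iff₀ hg]; linarith
  have e : a ^ n = (a ^ (n - 1)) ^ ((n : ℝ) / ((n : ℝ) - 1)) := by
    rw [← Real.rpow_natCast a (n - 1), ← Real.rpow_mul ha.le, ← Real.rpow_natCast]
    congr 1
    rw [Nat.cast_sub (by omega), Nat.cast_one]
    have : (n : ℝ) - 1 ≠ 0 := by linarith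
    field_simp
  rw [e, ← Real.mul_rpow (by positivity) hν]
  exact Real.rpow_le_rpow (by positivity) h1 (div_nonneg (by linarith) (by linarith))

/-- the error term over the reals -/
noncomputable def e (n : ℕ) (κ ν a : ℝ) : ℝ :=
  κ + ν * a ^ (1 / 2 : ℝ) + ν ^ ((n : ℝ) / ((n : ℝ) - 1))

lemma e_nonneg (n : ℕ) {κ ν a : ℝ} (h1 : 0 ≤ κ) (h2 : 0 ≤ ν) (h3 : 0 ≤ a) : 0 ≤ e n κ ν a := by
  unfold e; positivity

lemma of_jump {n : ℕ} (hn : 3 ≤ n) {C d : ℝ} (hC : 1 ≤ C) (hd : 0 < d) :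
    ∃ K : ℝ, 0 ≤ K ∧ ∀ {α a κ ν x : ℝ}, 0 < a → a ≤ α → 0 ≤ κ → 0 ≤ ν → d * α ≤ x →
      x ^ (n - 1) ≤ C * (ν + κ ^ (1 / 2 : ℝ) * a ^ (((n : ℝ) - 2) / 2)) →
      α ^ n ≤ K * e n κ ν a := by
  have h3 : (3 : ℝ) ≤ n := by exact_mod_cast hn
  set g : ℝ := d ^ (n - 1) / (2 * C) with hg
  have g0 : 0 < g := by positivity
  refine ⟨1 / g ^ 2 + (1 / g) ^ ((n : ℝ) / ((n : ℝ) - 1)), by positivity, ?_⟩
  intro α a κ ν x ha haα hκ hν hx h
  have hα : 0 < α := ha.trans_le haα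
  have h1 : (d * α) ^ (n - 1) ≤ x ^ (n - 1) := pow_le_pow_left₀ (by positivity) hx _
  have h2 : a ^ (((n : ℝ) - 2) / 2) ≤ α ^ (((n : ℝ) - 2) / 2) :=
    Real.rpow_le_rpow ha.le haα (by linarith)
  have h4 : κ ^ (1 / 2 : ℝ) * a ^ (((n : ℝ) - 2) / 2) ≤
      κ ^ (1 / 2 : ℝ) * α ^ (((n : ℝ) - 2) / 2) := by gcongr
  have h5 : 2 * (g * α ^ (n - 1)) ≤ ν + κ ^ (1 / 2 : ℝ) * α ^ (((n : ℝ) - 2) / 2) := by
    have : 2 * (g * α ^ (n - 1)) = (d * α) ^ (n - 1) / C := by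
      rw [hg, mul_pow]; field_simp
    rw [this, div_le_iff₀ (by linarith)]
    nlinarith
  have p1 : 0 ≤ ν * a ^ (1 / 2 : ℝ) := by positivity
  have p2 : 0 ≤ ν ^ ((n : ℝ) / ((n : ℝ) - 1)) := by positivity
  have p3 : 0 ≤ (1 / g) ^ ((n : ℝ) / ((n : ℝ) - 1)) := by positivity
  have p4 : 0 ≤ 1 / g ^ 2 := by positivity
  have q1 : κ ≤ e n κ ν a := by unfold e; linarith
  have q2 : ν ^ ((n : ℝ) / ((n : ℝ) - 1)) ≤ e n κ ν a := by unfold e; linarith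
  have q3 := e_nonneg n hκ hν ha.le
  rcases le_total (g * α ^ (n - 1)) ν with h6 | h6
  · have := nu hn hα g0 h6
    nlinarith [mul_le_mul_of_nonneg_left q2 p3, mul_nonneg p4 q3]
  · have := kap hn hα hκ g0 (by linarith)
    nlinarith [mul_le_mul_of_nonneg_left q1 p4, mul_nonneg p3 q3]

/-- the mass term at one scale -/
lemma mass {n : ℕ} (hn : 3 ≤ n) {C c L μ a κ ν f : ℝ} (hC : 1 ≤ C) (hc : 0 < c) (hL : 0 < L)
    (hL2 : 2 * C ^ 2 / c ^ (n - 1) ≤ L) (hμ : 0 < μ) (ha : 0 < a) (haC : a ≤ C) (hκ : 0 ≤ κ)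
    (hν : 0 ≤ ν) (hνμ : ν ≤ C * μ)
    (hf : f ^ (n - 1) ≤ C * (μ + κ ^ (1 / 2 : ℝ) * a ^ (((n : ℝ) - 2) / 2))) :
    ν * a ^ (1 / 2 : ℝ) ≤ (L * μ) ^ (1 / (2 * (n : ℝ) - 1)) * ν ∨
      (ν * a ^ (1 / 2 : ℝ) ≤ C / L * a ^ n ∧
        (c * a ≤ f → a ^ n ≤ 1 / (c ^ (n - 1) / (2 * C)) ^ 2 * κ)) := by
  have h3 : (3 : ℝ) ≤ n := by exact_mod_cast hn
  obtain ⟨m, rfl⟩ : ∃ m, n = m + 1 := ⟨n - 1, by omega⟩
  set t := a ^ (1 / 2 : ℝ) with ht
  set B := (L * μ) ^ (1 / (2 * ((m + 1 : ℕ) : ℝ) - 1)) with hB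
  have t0 : 0 < t := by positivity
  have B0 : 0 < B := by positivity
  have et : t ^ 2 = a := by
    rw [ht, ← Real.rpow_natCast, ← Real.rpow_mul ha.le]; norm_num
  have eB : B ^ (2 * m + 1) = L * μ := by
    rw [hB, ← Real.rpow_natCast, ← Real.rpow_mul (by positivity)]
    have : 1 / (2 * ((m + 1 : ℕ) : ℝ) - 1) * ((2 * m + 1 : ℕ) : ℝ) = 1 := by
      have : (2 * ((m + 1 : ℕ) : ℝ) - 1) ≠ 0 := by linarith
      field_simp
      push_cast; ring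
    rw [this, Real.rpow_one]
  rcases le_total t B with h | h
  · left; rw [mul_comm]; gcongr
  · right
    have h1 : L * μ ≤ a ^ m * t := by
      rw [← eB, ← et, ← pow_mul, ← pow_succ]
      exact pow_le_pow_left₀ B0.le h _
    have h2 : μ ≤ a ^ m * t / L := by rw [le_div_iff₀ hL]; linarith
    have am : 0 < a ^ m := pow_pos ha m
    refine ⟨?_, fun hcf => ?_⟩
    · calc ν * t ≤ C * (a ^ m * t / L) * t := by gcongr; exact hνμ.trans (by gcongr)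
        _ = C / L * a ^ (m + 1) := by rw [pow_succ a m, ← et]; field_simp
    · refine kap hn ha hκ (by positivity) ?_
      simp only [Nat.add_sub_cancel] at hf hL2 ⊢
      have tC : t ≤ C := by nlinarith
      have h4 : (c * a) ^ m ≤ f ^ m := pow_le_pow_left₀ (by positivity) hcf _
      have cm : 0 < c ^ m := pow_pos hc m
      have h5 : C * μ ≤ c ^ m * a ^ m / 2 := by
        rw [div_le_iff₀ cm] at hL2
        have : C * μ ≤ C * (a ^ m * C / L) := by gcongr; exact h2.trans (by gcongr)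
        refine this.trans ?_
        rw [mul_div_assoc', div_le_div_iff₀ hL (by norm_num)]
        nlinarith
      rw [mul_pow] at h4
      rw [div_mul_eq_mul_div, div_le_iff₀ (by positivity)]
      nlinarith

lemma nu_pow {n : ℕ} (hn : 3 ≤ n) {ν b : ℝ} (hν : 0 ≤ ν) (h : ν ≤ b) :
    ν ^ ((n : ℝ) / ((n : ℝ) - 1)) ≤ b ^ (1 / ((n : ℝ) - 1)) * ν := by
  have h3 : (3 : ℝ) ≤ n := by exact_mod_cast hn
  have h1 : (0 : ℝ) < (n : ℝ) - 1 := by linarith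
  have e : (n : ℝ) / ((n : ℝ) - 1) = 1 / ((n : ℝ) - 1) + 1 := by field_simp; ring
  rw [e, Real.rpow_add_one' hν (by positivity)]
  gcongr

/-- the envelope -/
lemma exists_env (a : ℤ → ℝ) (ks : ℤ) (Ξ : ℝ) : ∃ H : ℤ → ℝ, (∀ k ≤ ks, H k = Ξ) ∧
    ∀ k, ks ≤ k → H (k + 1) = max (3 / 4 * H k) (a (k + 1)) := by
  let G : ℕ → ℝ := fun j => Nat.rec Ξ (fun i z => max (3 / 4 * z) (a (ks + i + 1))) j
  refine ⟨fun k => G (k - ks).toNat, fun k hk => ?_, fun k hk => ?_⟩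
  · have : (k - ks).toNat = 0 := by omega
    simp only [this]; rfl
  · obtain ⟨j, rfl⟩ : ∃ j : ℕ, k = ks + j := ⟨(k - ks).toNat, by omega⟩
    have e1 : (ks + j + 1 - ks).toNat = j + 1 := by omega
    have e2 : (ks + j - ks).toNat = j := by omega
    simp only [e1, e2]; rfl

lemma slow_pow {y : ℤ → ℝ}
    (h : ∀ k, y (k + 1) ≤ 16 * y k ∧ y k ≤ 16 * y (k + 1)) (k l : ℤ) :
    y k ≤ 16 ^ (k - l).natAbs * y l := by
  have key : ∀ (j : ℕ) (k : ℤ), y (k + j) ≤ 16 ^ j * y k ∧ y k ≤ 16 ^ j * y (k + j) := by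
    intro j k
    induction j with
    | zero => simp
    | succ j ih =>
      have := h (k + j)
      have p : (0 : ℝ) < 16 ^ j := by positivity
      push_cast
      rw [← add_assoc, pow_succ]
      constructor <;> nlinarith [ih.1, ih.2, this.1, this.2]
  rcases le_total k l with hkl | hkl
  · obtain ⟨j, rfl⟩ : ∃ j : ℕ, l = k + j := ⟨(l - k).toNat, by omega⟩
    rw [show (k - (k + j)).natAbs = j by omega]
    exact (key j k).2
  · obtain ⟨j, rfl⟩ : ∃ j : ℕ, k = l + j := ⟨(k - l).toNat, by omega⟩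
    rw [show (l + j - l).natAbs = j by omega]
    exact (key j l).1

structure Env (a H : ℤ → ℝ) (ks : ℤ) (Ξ : ℝ) : Prop where
  low : ∀ k ≤ ks, H k = Ξ
  pos : ∀ k, 0 < H k
  le : ∀ k, ks ≤ k → a k ≤ H k
  dec : ∀ k, ks ≤ k → ∀ j : ℕ, (3 / 4) ^ j * H k ≤ H (k + j)
  two : ∀ k, ks ≤ k → H (k + 1) ≤ 2 * H k
  str : ∀ j : ℕ, H (ks + j) = (3 / 4) ^ j * Ξ ∨ ∃ i m : ℕ, i + m = j ∧
    H (ks + i) = a (ks + i) ∧ H (ks + j) = (3 / 4) ^ m * a (ks + i)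

lemma exists_Env {a : ℤ → ℝ} (ks : ℤ) {Ξ : ℝ} (h0 : ∀ k, 0 < a k) (h1 : ∀ k, a k ≤ Ξ)
    (h2 : ∀ k, a (k + 1) ≤ 2 * a k) : ∃ H, Env a H ks Ξ := by
  obtain ⟨H, hl, hr⟩ := exists_env a ks Ξ
  have le : ∀ k, ks ≤ k → a k ≤ H k := by
    intro k hk
    rcases eq_or_lt_of_le hk with rfl | hk
    · rw [hl _ le_rfl]; exact h1 _
    · have := hr (k - 1) (by omega)
      rw [sub_add_cancel] at this
      rw [this]; exact le_max_right _ _
  have pos : ∀ k, 0 < H k := by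
    intro k
    rcases le_total k ks with hk | hk
    · rw [hl _ hk]; exact (h0 0).trans_le (h1 0)
    · exact (h0 k).trans_le (le k hk)
  refine ⟨H, hl, pos, le, fun k hk j => ?_, fun k hk => ?_, fun j => ?_⟩
  · induction j with
    | zero => simp
    | succ j ih =>
      push_cast
      rw [← add_assoc, hr _ (by omega), pow_succ]
      refine le_trans ?_ (le_max_left _ _)
      linarith
  · rw [hr k hk]
    have := le k hk
    have := h2 k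
    have := pos k
    exact max_le (by linarith) (by linarith)
  · induction j with
    | zero => left; simp [hl]
    | succ j ih =>
      have e := hr (ks + j) (by omega)
      have e' : ks + ((j + 1 : ℕ) : ℤ) = ks + j + 1 := by push_cast; ring
      rcases le_total (3 / 4 * H (ks + j)) (a (ks + j + 1)) with h | h
      · right
        refine ⟨j + 1, 0, rfl, ?_, ?_⟩ <;> rw [e', e, max_eq_right h]
        simp
      · rw [e', e, max_eq_left h]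
        rcases ih with ih | ⟨i, m, him, hi, ih⟩
        · left; rw [ih]; ring
        · right
          exact ⟨i, m + 1, by omega, hi, by rw [ih]; ring⟩

lemma exists_y {a H : ℤ → ℝ} {ks : ℤ} {Ξ : ℝ} (hE : Env a H ks Ξ) (h0 : ∀ k, 0 < a k)
    (h2 : ∀ k, a (k + 1) ≤ 2 * a k ∧ a k ≤ 2 * a (k + 1)) (k₁ : ℤ) :
    ∃ y : ℤ → ℝ, (∀ k, 0 < y k ∧ y k ≤ a (max k ks) / H k ∧ y k ≤ 1) ∧
      (∀ k, y (k + 1) ≤ 16 * y k ∧ y k ≤ 16 * y (k + 1)) ∧
      (∀ k, ks ≤ k → k ≤ k₁ → y k = a k / H k) ∧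
      ∀ (N : ℕ) (k : ℤ), k₁ + N ≤ k → y k ≤ (1 / 4) ^ N := by
  have r0 : ∀ k, 0 < a (max k ks) / H k := fun k => div_pos (h0 _) (hE.pos _)
  have r1 : ∀ k, a (max k ks) / H k ≤ 1 := by
    intro k
    rw [div_le_one (hE.pos _)]
    rcases le_total k ks with hk | hk
    · rw [max_eq_right hk, hE.low k hk, ← hE.low ks le_rfl]; exact hE.le _ le_rfl
    · rw [max_eq_left hk]; exact hE.le _ hk
  have r2 : ∀ k, a (max (k + 1) ks) / H (k + 1) ≤ 4 * (a (max k ks) / H k) ∧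
      a (max k ks) / H k ≤ 4 * (a (max (k + 1) ks) / H (k + 1)) := by
    intro k
    rcases lt_or_ge k ks with hk | hk
    · have := r0 k
      rw [max_eq_right hk.le, hE.low k hk.le] at this
      rw [max_eq_right hk.le, max_eq_right (by omega), hE.low k hk.le, hE.low (k + 1) (by omega)]
      constructor <;> linarith
    · rw [max_eq_left hk, max_eq_left (by omega), ← mul_div_assoc, ← mul_div_assoc,
        div_le_div_iff₀ (hE.pos _) (hE.pos _), div_le_div_iff₀ (hE.pos _) (hE.pos _)]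
      have d := hE.dec k hk 1
      simp only [pow_one, Nat.cast_one] at d
      have t := hE.two k hk
      have := h2 k
      have p1 := hE.pos k
      have p2 := hE.pos (k + 1)
      have p3 := h0 k
      have p4 := h0 (k + 1)
      constructor <;> nlinarith [this.1, this.2]
  have p0 : ∀ k : ℤ, (0 : ℝ) < (1 / 4) ^ (k - k₁).toNat := fun k => by positivity
  have p1 : ∀ k : ℤ, ((1 / 4 : ℝ)) ^ (k - k₁).toNat ≤ 1 := fun k =>
    pow_le_one₀ (by norm_num) (by norm_num)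
  have p2 : ∀ k : ℤ, ((1 / 4 : ℝ)) ^ (k + 1 - k₁).toNat ≤ (1 / 4) ^ (k - k₁).toNat ∧
      ((1 / 4 : ℝ)) ^ (k - k₁).toNat ≤ 4 * (1 / 4) ^ (k + 1 - k₁).toNat := by
    intro k
    have := p0 k
    rcases lt_or_ge k k₁ with hk | hk
    · rw [show (k + 1 - k₁).toNat = (k - k₁).toNat by omega]
      constructor <;> linarith
    · rw [show (k + 1 - k₁).toNat = (k - k₁).toNat + 1 by omega, pow_succ]
      constructor <;> linarith
  refine ⟨fun k => a (max k ks) / H k * (1 / 4) ^ (k - k₁).toNat, fun k => ⟨?_, ?_, ?_⟩,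
    fun k => ⟨?_, ?_⟩, fun k hk hk' => ?_, fun N k hk => ?_⟩
  · exact mul_pos (r0 k) (p0 k)
  · exact mul_le_of_le_one_right (r0 k).le (p1 k)
  · exact mul_le_one₀ (r1 k) (p0 k).le (p1 k)
  · have := mul_le_mul (r2 k).1 (p2 k).1 (p0 _).le (by linarith [r0 k])
    nlinarith [mul_pos (r0 k) (p0 k)]
  · have := mul_le_mul (r2 k).2 (p2 k).2 (p0 _).le (by linarith [r0 (k + 1)])
    linarith
  · simp only [max_eq_left hk, show (k - k₁).toNat = 0 by omega, pow_zero, mul_one]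
  · exact (mul_le_of_le_one_left (p0 k).le (r1 k)).trans
      (pow_le_pow_of_le_one (by norm_num) (by norm_num) (by omega))

lemma env_W {a H : ℤ → ℝ} {ks : ℤ} {Ξ : ℝ} (hE : Env a H ks Ξ) (h0 : ∀ k, 0 < a k)
    (h1 : ∀ k, a k ≤ Ξ) {k k' : ℤ} (hk : ks ≤ k) (hk' : k' ≤ k) :
    a k / H k ≤ 2 ^ (((k - k' : ℤ) : ℝ) / 2) * a k / a k' := by
  obtain ⟨j, rfl⟩ : ∃ j : ℕ, k = k' + j := ⟨(k - k').toNat, by omega⟩
  have h3 : (3 / 4) ^ j * a k' ≤ H (k' + j) := by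
    rcases le_total ks k' with h | h
    · exact le_trans (by gcongr; exact hE.le _ h) (hE.dec k' h j)
    · obtain ⟨i, hi⟩ : ∃ i : ℕ, k' + j = ks + i := ⟨(k' + j - ks).toNat, by omega⟩
      have := hE.dec ks le_rfl i
      rw [hE.low ks le_rfl, ← hi] at this
      refine le_trans ?_ this
      exact mul_le_mul (pow_le_pow_of_le_one (by norm_num) (by norm_num) (by omega)) (h1 _)
        (h0 _).le (by positivity)
  have h4 : (1 : ℝ) ≤ 2 ^ ((((k' + j - k' : ℤ)) : ℝ) / 2) * (3 / 4) ^ j := by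
    have : (((k' + j - k' : ℤ)) : ℝ) / 2 = 1 / 2 * (j : ℝ) := by push_cast; ring
    rw [this, Real.rpow_mul (by norm_num), Real.rpow_natCast, ← mul_pow]
    refine one_le_pow₀ ?_
    have h5 : (4 / 3 : ℝ) ≤ 2 ^ (1 / 2 : ℝ) := by
      rw [← Real.sqrt_eq_rpow]; exact Real.le_sqrt_of_sq_le (by norm_num)
    linarith
  rw [div_le_div_iff₀ (hE.pos _) (h0 _)]
  have p1 := h0 (k' + j)
  have p2 := h0 k'
  have p3 : (0 : ℝ) < 2 ^ ((((k' + j - k' : ℤ)) : ℝ) / 2) := by positivity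
  nlinarith [mul_le_mul_of_nonneg_left h3 (mul_pos p3 p1).le,
    mul_le_mul_of_nonneg_left h4 (mul_pos p1 p2).le]

/-- a drop of the size forces a jump of the flux -/
lemma drop {f x : ℤ → ℝ} {k' : ℤ} {β ξ : ℝ} (hξ : 0 ≤ ξ) (L : ℕ) (hL : L * ξ ≤ β / 2)
    (hf : ∀ k, k' ≤ k → f k ≤ f (k + 1) + x k) (h0 : β ≤ f k') (j : ℕ) (hj : j ≤ L)
    (h1 : f (k' + j) < β / 2) : ∃ i : ℕ, i < j ∧ ξ ≤ x (k' + i) ∧ β / 2 ≤ f (k' + i) := by
  have key : ∀ m : ℕ, m ≤ L → (∃ i : ℕ, i < m ∧ ξ ≤ x (k' + i) ∧ β / 2 ≤ f (k' + i)) ∨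
      β ≤ f (k' + m) + m * ξ := by
    intro m hm
    induction m with
    | zero => right; simpa using h0
    | succ m ih =>
      rcases ih (by omega) with ⟨i, hi, h⟩ | ih
      · exact Or.inl ⟨i, by omega, h⟩
      · have hm' : (m : ℝ) * ξ ≤ L * ξ := by gcongr; omega
        rcases le_total ξ (x (k' + m)) with h | h
        · exact Or.inl ⟨m, by omega, h, by linarith⟩
        · right
          have := hf (k' + m) (by omega)
          push_cast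
          rw [← add_assoc]
          linarith
  rcases key j hj with h | h
  · exact h
  · have hm' : (j : ℝ) * ξ ≤ L * ξ := by gcongr
    linarith

lemma third {n : ℕ} (hn : 3 ≤ n) {C c : ℝ} (hC : 1 ≤ C) (hc : 0 < c) :
    ∃ K : ℝ, 0 ≤ K ∧ ∀ {a H X κ ν f x w : ℤ → ℝ} {ks k' : ℤ} {Ξ : ℝ} (m : ℕ), Env a H ks Ξ →
      (∀ k, 0 < a k) → (∀ k, 0 ≤ X k ∧ 0 ≤ κ k ∧ 0 ≤ ν k) →
      (∀ k, ks ≤ k → f k ≤ C * a k ∧ f k ≤ f (k + 1) + x k ∧
        x k ^ (n - 1) ≤ C * (ν k + κ k ^ (1 / 2 : ℝ) * a k ^ (((n : ℝ) - 2) / 2))) →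
      ks ≤ k' → (f k' < c * a k' → a k' ^ n ≤ X k') → H k' = a k' →
      H (k' + m) = (3 / 4) ^ m * a k' → a (k' + m) < c / (2 * C) * H (k' + m) →
      (∀ l, ks ≤ l → l ≤ k' + m → a l / H l ≤ w l) →
      ∃ l, k' ≤ l ∧ l ≤ k' + m ∧ a k' ^ n ≤ K * (w l * (X l + e n (κ l) (ν l) (a l))) := by
  set c₁ := c / (2 * C) with hc₁
  have c0 : 0 < c₁ := by positivity
  obtain ⟨L, hL⟩ := exists_pow_lt_of_lt_one c0 (show (3 / 4 : ℝ) < 1 by norm_num)
  have hL' : (3 / 4 : ℝ) ^ (L + 1) < c₁ := by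
    rw [pow_succ]; have : (0 : ℝ) < (3 / 4) ^ L := by positivity
    linarith
  obtain ⟨K, K0, hK⟩ := of_jump hn hC (show 0 < c / (2 * ((L + 1 : ℕ) : ℝ)) by positivity)
  refine ⟨1 + K / c₁, by positivity, ?_⟩
  intro a H X κ ν f x w ks k' Ξ m hE h0 hn0 h2 hk' hX e1 e2 hlt hw
  have α0 := h0 k'
  have ee := fun l => e_nonneg n (hn0 l).2.1 (hn0 l).2.2 (h0 l).le
  have Hle : ∀ j : ℕ, j ≤ m → H (k' + j) ≤ (3 / 4) ^ j * a k' := by
    intro j hj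
    obtain ⟨i, rfl⟩ := Nat.exists_eq_add_of_le hj
    have := hE.dec (k' + j) (by omega) i
    rw [add_assoc, ← Nat.cast_add, e2, pow_add] at this
    have p : (0 : ℝ) < (3 / 4) ^ i := by positivity
    refine le_of_mul_le_mul_left ?_ p
    linarith
  have Hle' : ∀ j : ℕ, j ≤ m → H (k' + j) ≤ a k' := fun j hj => (Hle j hj).trans
    (mul_le_of_le_one_left α0.le (pow_le_one₀ (by norm_num) (by norm_num)))
  rcases lt_or_ge (f k') (c * a k') with h | h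
  · refine ⟨k', le_rfl, by omega, (hX h).trans ?_⟩
    have w1 := hw k' hk' (by omega)
    rw [e1, div_self α0.ne'] at w1
    have := (hn0 k').1
    have := ee k'
    have p : 0 ≤ K / c₁ := by positivity
    have q : X k' ≤ w k' * (X k' + e n (κ k') (ν k') (a k')) := by nlinarith
    nlinarith
  · have h3 : a (k' + (min m (L + 1) : ℕ)) < c₁ * a k' := by
      rcases le_total m (L + 1) with h' | h'
      · rw [min_eq_left h']
        exact hlt.trans_le (mul_le_mul_of_nonneg_left (Hle' m le_rfl) c0.le)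
      · rw [min_eq_right h']
        exact ((hE.le _ (by omega)).trans (Hle _ h')).trans_lt (by gcongr)
    have e3 : C * (c₁ * a k') = c * a k' / 2 := by rw [hc₁]; field_simp
    obtain ⟨i, hi, hx, hf⟩ := drop (f := f) (x := x) (k' := k') (β := c * a k')
      (ξ := c / (2 * ((L + 1 : ℕ) : ℝ)) * a k') (by positivity) (L + 1)
      (le_of_eq (by field_simp)) (fun k hk => (h2 k (by omega)).2.1) h (min m (L + 1))
      (min_le_right _ _) (by
        refine (h2 _ (by omega)).1.trans_lt ?_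
        rw [← e3]; gcongr)
    have him : i ≤ m := (hi.trans_le (min_le_left _ _)).le
    refine ⟨k' + i, by omega, by omega, ?_⟩
    have h4 := h2 (k' + i) (by omega)
    have h5 := hK (h0 _) ((hE.le _ (by omega)).trans (Hle' i him)) (hn0 _).2.1 (hn0 _).2.2 hx h4.2.2
    have h6 : c₁ * a k' ≤ a (k' + i) := by
      refine le_of_mul_le_mul_left ?_ (show 0 < C by linarith)
      rw [e3]; exact hf.trans h4.1
    have h7 : c₁ ≤ w (k' + i) := by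
      refine le_trans ?_ (hw _ (by omega) (by omega))
      rw [le_div_iff₀ (hE.pos _)]
      exact (mul_le_mul_of_nonneg_left (Hle' i him) c0.le).trans h6
    have := (hn0 (k' + i)).1
    have h8 := ee (k' + i)
    set E := e n (κ (k' + i)) (ν (k' + i)) (a (k' + i))
    have h9 : c₁ * E ≤ w (k' + i) * (X (k' + i) + E) := by nlinarith
    have h10 : K * E = K / c₁ * (c₁ * E) := by field_simp
    have p : 0 ≤ K / c₁ := by positivity
    nlinarith [mul_le_mul_of_nonneg_left h9 p, mul_nonneg c0.le h8]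

lemma first {n : ℕ} (hn : 3 ≤ n) {θ C L : ℝ} (hθ : 0 < θ) (hθ1 : θ ≤ 1) (hC : 1 ≤ C) (hL : 0 < L) :
    ∃ K σ : ℝ, 0 ≤ K ∧ 0 ≤ σ ∧ σ < 1 ∧ ∀ {a μ : ℝ} (j : ℕ), 0 < a → 0 < μ →
      a ^ ((n : ℝ) - 1 / 2) ≤ L * μ →
      a ≤ (3 / 4) ^ j * (3 * C / (min 1 μ ^ 2) ^ (1 / θ)) →
      a ^ n ≤ K * (μ ^ (1 + 1 / (4 * (n : ℝ))) + μ ^ 2) * σ ^ j := by
  have h3 : (3 : ℝ) ≤ n := by exact_mod_cast hn
  set ε := θ / (16 * n) with hε
  have ε0 : 0 < ε := by positivity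
  have ε1 : ε ≤ 1 / 8 := by
    rw [hε, div_le_iff₀ (by positivity)]; linarith
  set p := ((n : ℝ) - ε) / ((n : ℝ) - 1 / 2) with hp
  have q0 : (0 : ℝ) < (n : ℝ) - 1 / 2 := by linarith
  have p0 : 0 ≤ p := div_nonneg (by linarith) q0.le
  refine ⟨L ^ p * (3 * C) ^ ε, (3 / 4) ^ ε, by positivity, by positivity,
    Real.rpow_lt_one (by norm_num) (by norm_num) ε0, ?_⟩
  intro a μ j ha hμ h1 h2
  have m0 : 0 < min 1 μ := lt_min one_pos hμ
  have e1 : a ^ n = (a ^ ((n : ℝ) - 1 / 2)) ^ p * a ^ ε := by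
    rw [← Real.rpow_mul ha.le, ← Real.rpow_add ha, ← Real.rpow_natCast]
    congr 1
    rw [hp, mul_div_cancel₀ _ q0.ne']; ring
  have e2 : ((3 / 4) ^ j * (3 * C / (min 1 μ ^ 2) ^ (1 / θ))) ^ ε =
      ((3 / 4 : ℝ) ^ ε) ^ j * ((3 * C) ^ ε / min 1 μ ^ (1 / (8 * (n : ℝ)))) := by
    rw [Real.mul_rpow (by positivity) (by positivity), Real.div_rpow (by positivity) (by positivity),
      ← Real.rpow_natCast (3 / 4) j, ← Real.rpow_mul (by norm_num), mul_comm (j : ℝ),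
      Real.rpow_mul (by norm_num), Real.rpow_natCast, ← Real.rpow_natCast (min 1 μ) 2,
      ← Real.rpow_mul m0.le, ← Real.rpow_mul m0.le]
    congr 3
    rw [hε]; push_cast; field_simp; norm_num
  have h4 : μ ^ p / min 1 μ ^ (1 / (8 * (n : ℝ))) ≤ μ ^ (1 + 1 / (4 * (n : ℝ))) + μ ^ 2 := by
    have p2 : p ≤ 2 := by rw [hp, div_le_iff₀ q0]; linarith
    have n8 : 0 ≤ 1 / (8 * (n : ℝ)) := by positivity
    have p3 : 1 + 1 / (4 * (n : ℝ)) ≤ p - 1 / (8 * (n : ℝ)) := by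
      have : 1 + 1 / (4 * (n : ℝ)) + 1 / (8 * (n : ℝ)) = 1 + 3 / 8 * (1 / n) := by
        field_simp; ring
      rw [le_sub_iff_add_le, this, hp, le_div_iff₀ q0]
      have h5 : 1 / (n : ℝ) * n = 1 := by field_simp
      have h6 : 0 ≤ 1 / (n : ℝ) := by positivity
      nlinarith
    rcases le_total 1 μ with h | h
    · rw [min_eq_left h, Real.one_rpow, div_one]
      exact pw hμ (by linarith) p2
    · rw [min_eq_right h, ← Real.rpow_sub hμ]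
      exact pw hμ p3 (by linarith)
  calc a ^ n ≤ (L * μ) ^ p * ((3 / 4) ^ j * (3 * C / (min 1 μ ^ 2) ^ (1 / θ))) ^ ε := by
        rw [e1]; gcongr
    _ = L ^ p * (3 * C) ^ ε * (μ ^ p / min 1 μ ^ (1 / (8 * (n : ℝ)))) * ((3 / 4 : ℝ) ^ ε) ^ j := by
        rw [e2, Real.mul_rpow hL.le hμ.le]; ring
    _ ≤ _ := by gcongr

/-- the weighted total is small -/
lemma total {n : ℕ} (hn : 3 ≤ n) {C c CP L : ℝ} (hC : 1 ≤ C) (hc : 0 < c) (hCP : 0 ≤ CP)
    (hL : 0 < L) (hL1 : 2 * CP * C ≤ L) (hL2 : 2 * C ^ 2 / c ^ (n - 1) ≤ L) :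
    ∃ K : ℝ, 0 ≤ K ∧ ∀ {a X κ ν f w : ℤ → ℝ} {μ : ℝ} {ks k₂ : ℤ}, 0 < μ → ks + 3 ≤ k₂ →
      (∀ k, 0 < a k ∧ a k ≤ C) → (∀ k, 0 ≤ X k ∧ 0 ≤ κ k ∧ 0 ≤ ν k) →
      (∀ k, 0 ≤ w k ∧ w k ≤ 1) → (∀ k, k ≤ ks + 3 ∨ k₂ ≤ k → w k ≤ μ ^ 2) →
      (∀ k, ks ≤ k →
        f k ^ (n - 1) ≤ C * (μ + κ k ^ (1 / 2 : ℝ) * a k ^ (((n : ℝ) - 2) / 2))) →
      (∀ k, ks + 3 ≤ k → f k < c * a k → a k ^ n ≤ X k) →
      ∑ l ∈ Icc ks (k₂ + 3), ν l ≤ C * μ →
      ∑ k ∈ Icc (ks + 3) k₂, w k * X k ≤ CP * (w (ks + 3) + w k₂) +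
        CP * ∑ k ∈ Icc ks (k₂ + 3), w k * e n (κ k) (ν k) (a k) →
      ∑ k ∈ Icc (ks + 3) k₂, w k * (X k + e n (κ k) (ν k) (a k)) ≤
        K * (μ ^ (1 + 1 / (4 * (n : ℝ))) + μ ^ 2 + ∑ k ∈ Icc ks (k₂ + 3), w k * κ k) := by
  have h3 : (3 : ℝ) ≤ n := by exact_mod_cast hn
  set η := C / L with hη
  have η0 : 0 ≤ η := by positivity
  have η1 : CP * η ≤ 1 / 2 := by
    rw [hη, mul_div_assoc', div_le_iff₀ hL]; linarith
  set D := 1 + η * (1 / (c ^ (n - 1) / (2 * C)) ^ 2) with hD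
  have D1 : 1 ≤ D := le_add_of_nonneg_right (by positivity)
  set R := D + C * L ^ (1 / (2 * (n : ℝ) - 1)) + C * C ^ (1 / ((n : ℝ) - 1)) + 6 * η * C ^ n
    with hR
  have R0 : 0 ≤ R := by positivity
  refine ⟨(1 + η) * (4 * CP + 2 * CP * R) + R, by positivity, ?_⟩
  intro a X κ ν f w μ ks k₂ hμ hk ha hn0 hw hend hf hX hν H
  set B := (L * μ) ^ (1 / (2 * (n : ℝ) - 1)) + (C * μ) ^ (1 / ((n : ℝ) - 1)) with hB
  have hν' : ∀ k ∈ Icc ks (k₂ + 3), ν k ≤ C * μ := fun k hk =>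
    (single_le_sum (fun l _ => (hn0 l).2.2) hk).trans hν
  have pt : ∀ k ∈ Icc ks (k₂ + 3), w k * e n (κ k) (ν k) (a k) ≤ D * (w k * κ k) + B * ν k ∨
      (w k * e n (κ k) (ν k) (a k) ≤ D * (w k * κ k) + B * ν k + η * (w k * a k ^ n) ∧
        f k < c * a k) := by
    intro k hk
    obtain ⟨-, n2, n3⟩ := hn0 k
    obtain ⟨w0, w1⟩ := hw k
    have v := nu_pow hn n3 (hν' k hk)
    have b1 : 0 ≤ (L * μ) ^ (1 / (2 * (n : ℝ) - 1)) * ν k := by positivity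
    have b2 : 0 ≤ (C * μ) ^ (1 / ((n : ℝ) - 1)) * ν k := by positivity
    have v' : w k * ν k ^ ((n : ℝ) / ((n : ℝ) - 1)) ≤ (C * μ) ^ (1 / ((n : ℝ) - 1)) * ν k :=
      (mul_le_mul_of_nonneg_left v w0).trans (mul_le_of_le_one_left b2 w1)
    have wk := mul_nonneg w0 n2
    have dk : w k * κ k ≤ D * (w k * κ k) := le_mul_of_one_le_left wk D1
    unfold e
    rw [hB]
    rcases mass hn hC hc hL hL2 hμ (ha k).1 (ha k).2 n2 n3 (hν' k hk) (hf k (mem_Icc.1 hk).1)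
      with h | ⟨h, h'⟩
    · left
      have := (mul_le_mul_of_nonneg_left h w0).trans (mul_le_of_le_one_left b1 w1)
      nlinarith
    · have h4 := mul_le_mul_of_nonneg_left h w0
      rcases lt_or_ge (f k) (c * a k) with h5 | h5
      · exact Or.inr ⟨by nlinarith, h5⟩
      · left
        have h6 := mul_le_mul_of_nonneg_left (h' h5) (mul_nonneg w0 η0)
        rw [hD]
        nlinarith
  have sub : Icc (ks + 3) k₂ ⊆ Icc ks (k₂ + 3) := Icc_subset_Icc (by omega) (by omega)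
  have s1 : ∑ k ∈ Icc (ks + 3) k₂, w k * e n (κ k) (ν k) (a k) ≤
      ∑ k ∈ Icc (ks + 3) k₂, (D * (w k * κ k) + B * ν k + η * (w k * X k)) := by
    refine sum_le_sum fun k hk => ?_
    rcases pt k (sub hk) with h | ⟨h, h'⟩
    · exact h.trans (le_add_of_nonneg_right (mul_nonneg η0 (mul_nonneg (hw k).1 (hn0 k).1)))
    · refine h.trans ?_
      gcongr
      · exact (hw k).1
      · exact hX k (mem_Icc.1 hk).1 h'
  have s2 : ∑ k ∈ Icc ks (k₂ + 3) \ Icc (ks + 3) k₂, w k * e n (κ k) (ν k) (a k) ≤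
      ∑ k ∈ Icc ks (k₂ + 3) \ Icc (ks + 3) k₂,
        (D * (w k * κ k) + B * ν k + η * (μ ^ 2 * C ^ n)) := by
    refine sum_le_sum fun k hk => ?_
    rw [mem_sdiff] at hk
    rcases pt k hk.1 with h | ⟨h, -⟩
    · exact h.trans (le_add_of_nonneg_right (by positivity))
    · refine h.trans ?_
      have := (ha k).1
      gcongr
      · refine hend k ?_
        have := hk.2
        rw [mem_Icc] at this
        omega
      · exact (ha k).2
  have hcard : (Icc ks (k₂ + 3) \ Icc (ks + 3) k₂).card = 6 := by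
    rw [card_sdiff_of_subset sub, Int.card_Icc, Int.card_Icc]; omega
  have t1 := sum_sdiff (f := fun k => w k * e n (κ k) (ν k) (a k)) sub
  have t2 := sum_sdiff (f := fun k => w k * κ k) sub
  have t3 := sum_sdiff (f := ν) sub
  simp only [sum_add_distrib, ← mul_sum, sum_const, hcard, nsmul_eq_mul, Nat.cast_ofNat] at s1 s2
  have t4 : 0 ≤ ∑ k ∈ Icc ks (k₂ + 3) \ Icc (ks + 3) k₂, w k * e n (κ k) (ν k) (a k) :=
    sum_nonneg fun k _ => mul_nonneg (hw k).1 (e_nonneg n (hn0 k).2.1 (hn0 k).2.2 (ha k).1.le)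
  have Sκ0 : 0 ≤ ∑ k ∈ Icc ks (k₂ + 3), w k * κ k :=
    sum_nonneg fun k _ => mul_nonneg (hw k).1 (hn0 k).2.1
  have SX0 : 0 ≤ ∑ k ∈ Icc (ks + 3) k₂, w k * X k :=
    sum_nonneg fun k _ => mul_nonneg (hw k).1 (hn0 k).1
  simp only [mul_add (w _), sum_add_distrib]
  set M := μ ^ (1 + 1 / (4 * (n : ℝ))) + μ ^ 2 with hM
  have M2 : μ ^ 2 ≤ M := le_add_of_nonneg_left (by positivity)
  have m0 : 0 ≤ μ ^ 2 := by positivity
  have b1 : μ * μ ^ (1 / (2 * (n : ℝ) - 1)) ≤ M := by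
    have q : (0 : ℝ) < 2 * n - 1 := by linarith
    rw [mul_comm, ← Real.rpow_add_one hμ.ne']
    refine pw hμ ?_ ?_
    · have : 1 / (4 * (n : ℝ)) ≤ 1 / (2 * n - 1) := one_div_le_one_div_of_le q (by linarith)
      linarith
    · have : 1 / (2 * (n : ℝ) - 1) ≤ 1 := by rw [div_le_one q]; linarith
      linarith
  have b2 : μ * μ ^ (1 / ((n : ℝ) - 1)) ≤ M := by
    have q : (0 : ℝ) < n - 1 := by linarith
    rw [mul_comm, ← Real.rpow_add_one hμ.ne']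
    refine pw hμ ?_ ?_
    · have : 1 / (4 * (n : ℝ)) ≤ 1 / (n - 1) := one_div_le_one_div_of_le q (by linarith)
      linarith
    · have : 1 / ((n : ℝ) - 1) ≤ 1 := by rw [div_le_one q]; linarith
      linarith
  have b3 : B * ∑ l ∈ Icc ks (k₂ + 3), ν l ≤
      (C * L ^ (1 / (2 * (n : ℝ) - 1)) + C * C ^ (1 / ((n : ℝ) - 1))) * M := by
    refine (mul_le_mul_of_nonneg_left hν (by positivity)).trans ?_
    rw [hB, Real.mul_rpow hL.le hμ.le, Real.mul_rpow (by linarith) hμ.le]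
    have q1 := mul_le_mul_of_nonneg_left b1
      (show 0 ≤ C * L ^ (1 / (2 * (n : ℝ) - 1)) by positivity)
    have q2 := mul_le_mul_of_nonneg_left b2 (show 0 ≤ C * C ^ (1 / ((n : ℝ) - 1)) by positivity)
    linarith
  set Sκ := ∑ k ∈ Icc ks (k₂ + 3), w k * κ k
  set SX := ∑ k ∈ Icc (ks + 3) k₂, w k * X k
  set E := ∑ k ∈ Icc ks (k₂ + 3), w k * e n (κ k) (ν k) (a k)
  have r1 : 0 ≤ C * L ^ (1 / (2 * (n : ℝ) - 1)) + C * C ^ (1 / ((n : ℝ) - 1)) := by positivity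
  have r2 : 0 ≤ 6 * η * C ^ n := by positivity
  have hE : E ≤ R * (M + Sκ) + η * SX := by
    have q1 : E ≤ D * Sκ + B * ∑ l ∈ Icc ks (k₂ + 3), ν l + η * SX + 6 * η * C ^ n * μ ^ 2 := by
      rw [← t1, ← t2, ← t3]; linarith
    have q2 := mul_le_mul_of_nonneg_left M2 r2
    have q3 := mul_nonneg r1 Sκ0
    have q4 := mul_nonneg r2 Sκ0
    have q5 := mul_nonneg (zero_le_one.trans D1) (m0.trans M2)
    rw [hR]
    linarith
  have hX' : SX ≤ (4 * CP + 2 * CP * R) * (M + Sκ) := by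
    have q1 := hend (ks + 3) (Or.inl le_rfl)
    have q2 := hend k₂ (Or.inr le_rfl)
    have q3 := mul_le_mul_of_nonneg_left hE hCP
    have q4 := mul_le_mul_of_nonneg_right η1 SX0
    have q5 := mul_le_mul_of_nonneg_left (show w (ks + 3) + w k₂ ≤ 2 * (M + Sκ) by linarith) hCP
    linarith
  have := mul_le_mul_of_nonneg_left hX' (show 0 ≤ 1 + η by linarith)
  linarith

theorem core {n : ℕ} (hn : 3 ≤ n) {θ₀ θ : ℝ} (hθ : 0 < θ) (hθ1 : θ ≤ 1)
    (h16 : (16 : ℝ) ^ θ ≤ 1 + θ₀) {C c CP Λ : ℝ} (l₀ : ℕ) (hC : 1 ≤ C) (hc : 0 < c) (hCP : 0 ≤ CP)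
    (hΛ : 0 ≤ Λ) : ∃ K : ℝ, 0 ≤ K ∧
    ∀ (a X κ ν f x : ℤ → ℝ) (μ : ℝ) (ks : ℤ) (T : Finset ℤ), 0 < μ →
      (∀ k, 0 < a k ∧ a k ≤ C ∧ a (k + 1) ≤ 2 * a k ∧ a k ≤ 2 * a (k + 1)) →
      (∀ k, 0 ≤ X k ∧ 0 ≤ κ k ∧ 0 ≤ ν k) →
      (∀ k, ks ≤ k → f k ≤ C * a k ∧ f k ≤ f (k + 1) + x k ∧
        f k ^ (n - 1) ≤ C * (μ + κ k ^ (1 / 2 : ℝ) * a k ^ (((n : ℝ) - 2) / 2)) ∧
        x k ^ (n - 1) ≤ C * (ν k + κ k ^ (1 / 2 : ℝ) * a k ^ (((n : ℝ) - 2) / 2)) ∧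
        ∑ l ∈ Icc ks k, ν l ≤ C * μ) →
      (∀ k, ks + 3 ≤ k → f k < c * a k → a k ^ n ≤ X k) →
      (∀ (k₂ : ℤ) (w : ℤ → ℝ), ks + 3 ≤ k₂ →
        (∀ k, 0 < w k ∧ w (k + 1) ≤ (1 + θ₀) * w k ∧ w k ≤ (1 + θ₀) * w (k + 1)) →
        ∑ k ∈ Icc (ks + 3) k₂, w k * X k ≤ CP * (w (ks + 3) + w k₂) +
          CP * ∑ k ∈ Icc ks (k₂ + 3), w k * e n (κ k) (ν k) (a k)) →
      (∀ k ∈ T, ks + 4 ≤ k ∧ a k ^ ((n : ℝ) - 1 / 2) ≤ Λ * μ) →
      ∃ (w : ℤ → ℝ) (k₂ : ℤ), (∀ k, 0 ≤ w k) ∧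
        (∀ k, ks ≤ k → ∀ k' ≤ k, w k ≤ (2 ^ (((k - k' : ℤ) : ℝ) / 2) * a k / a k') ^ θ) ∧
        ∑ k ∈ T, min (a k ^ n)
            (∑ l ∈ Icc (k - 1) (k + l₀ + 1), (X l + e n (κ l) (ν l) (a l))) ≤
          K * (μ ^ (1 + 1 / (4 * (n : ℝ))) + μ ^ 2 + ∑ k ∈ Icc ks k₂, w k * κ k) := by
  set L := Λ + 2 * CP * C + 2 * C ^ 2 / c ^ (n - 1) + 1 with hL
  have l1 : 0 ≤ 2 * CP * C := by positivity
  have l2 : 0 ≤ 2 * C ^ 2 / c ^ (n - 1) := by positivity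
  have L0 : 0 < L := by positivity
  obtain ⟨K₁, σ, K1, σ0, σ1, h1⟩ := first hn hθ hθ1 hC L0
  obtain ⟨K₂, K2, h2⟩ := total hn hC hc hCP L0 (by linarith) (by linarith)
  obtain ⟨K₃, K3, h3⟩ := third hn hC hc
  set c₁ := c / (2 * C) with hc₁
  have c0 : 0 < c₁ := by positivity
  set K₄ := K₃ + 16 ^ (l₀ + 1) / c₁ * (4 / 3) ^ (l₀ + 1) with hK₄
  have K4' : 0 ≤ 16 ^ (l₀ + 1) / c₁ * (4 / 3) ^ (l₀ + 1) := by positivity
  have K4 : 0 ≤ K₄ := by positivity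
  have σ2 : 0 ≤ 2 * (1 - σ)⁻¹ := mul_nonneg zero_le_two (inv_nonneg.2 (by linarith))
  refine ⟨K₁ * (2 * (1 - σ)⁻¹) + K₄ * 8 * K₂, by positivity, ?_⟩
  intro a X κ ν f x μ ks T hμ ha hn0 hf hX H hT
  have m0 : 0 < min 1 μ := lt_min one_pos hμ
  set ρ := (min 1 μ ^ 2) ^ (1 / θ) with hρ
  have ρ0 : 0 < ρ := by positivity
  have ρ1 : ρ ≤ 1 := Real.rpow_le_one (by positivity)
    (pow_le_one₀ m0.le (min_le_left _ _)) (by positivity)
  have ρ2 : ρ ^ θ ≤ μ ^ 2 := by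
    rw [hρ, ← Real.rpow_mul (by positivity), one_div_mul_cancel hθ.ne', Real.rpow_one]
    exact pow_le_pow_left₀ m0.le (min_le_right _ _) 2
  set Ξ := 3 * C / ρ with hΞ
  have Ξ1 : 3 * C ≤ Ξ := by rw [hΞ, le_div_iff₀ ρ0]; nlinarith
  have aΞ : ∀ k, a k ≤ Ξ := fun k => by linarith [(ha k).2.1]
  have a0 : ∀ k, 0 < a k := fun k => (ha k).1
  obtain ⟨H', hE⟩ := exists_Env ks a0 aΞ fun k => (ha k).2.2.1
  obtain ⟨k₁', hk₁'⟩ := T.bddAbove
  obtain ⟨k₁, hk₁, hk₁s⟩ : ∃ k₁ : ℤ, (∀ k ∈ T, k ≤ k₁) ∧ ks + 3 ≤ k₁ :=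
    ⟨max k₁' (ks + 3), fun k hk => (hk₁' hk).trans (le_max_left _ _), le_max_right _ _⟩
  obtain ⟨y, y1, y2, y3, y4⟩ := exists_y hE a0 (fun k => (ha k).2.2) k₁
  obtain ⟨N, hN⟩ := exists_pow_lt_of_lt_one ρ0 (show (1 / 4 : ℝ) < 1 by norm_num)
  have early : ∀ k, k ≤ ks + 3 → 27 / 64 * Ξ ≤ H' k := by
    intro k hk
    have Ξ0 : 0 ≤ Ξ := by linarith
    rcases le_total k ks with h | h
    · rw [hE.low k h]; linarith
    · obtain ⟨j, rfl⟩ : ∃ j : ℕ, k = ks + j := ⟨(k - ks).toNat, by omega⟩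
      have := hE.dec ks le_rfl j
      rw [hE.low ks le_rfl] at this
      refine le_trans ?_ this
      have : ((3 / 4 : ℝ)) ^ 3 ≤ (3 / 4) ^ j :=
        pow_le_pow_of_le_one (by norm_num) (by norm_num) (by omega)
      exact mul_le_mul_of_nonneg_right (by linarith) Ξ0
  set k₂ : ℤ := k₁ + N + l₀ + 1 with hk₂
  set w : ℤ → ℝ := fun k => y k ^ θ with hw
  have w0 : ∀ k, 0 < w k := fun k => Real.rpow_pos_of_pos (y1 k).1 _
  have w1 : ∀ k, w k ≤ 1 := fun k => Real.rpow_le_one (y1 k).1.le (y1 k).2.2 hθ.le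
  have w2 : ∀ k, y k ≤ w k := fun k => by
    have := Real.rpow_le_rpow_of_exponent_ge (y1 k).1 (y1 k).2.2 hθ1
    rwa [Real.rpow_one] at this
  have w3 : ∀ k l, y k ≤ 16 * y l → w k ≤ (1 + θ₀) * w l := by
    intro k l h
    refine (Real.rpow_le_rpow (y1 k).1.le h hθ.le).trans ?_
    rw [Real.mul_rpow (by norm_num) (y1 l).1.le]
    exact mul_le_mul_of_nonneg_right h16 (w0 l).le
  have w4 : ∀ k, k ≤ ks + 3 ∨ k₂ ≤ k → w k ≤ μ ^ 2 := by
    intro k hk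
    refine le_trans (Real.rpow_le_rpow (y1 k).1.le ?_ hθ.le) ρ2
    rcases hk with hk | hk
    · refine (y1 k).2.1.trans ?_
      rw [div_le_iff₀ (hE.pos _)]
      have q1 := mul_le_mul_of_nonneg_left (early k hk) ρ0.le
      have q2 : ρ * (27 / 64 * Ξ) = 81 / 64 * C := by rw [hΞ]; field_simp; norm_num
      linarith [(ha (max k ks)).2.1]
    · exact (y4 N k (by omega)).trans hN.le
  have hS := h2 hμ (show ks + 3 ≤ k₂ by omega) (fun k => ⟨a0 k, (ha k).2.1⟩) hn0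
    (fun k => ⟨(w0 k).le, w1 k⟩) w4 (fun k hk => (hf k hk).2.2.1) hX
    (hf _ (by omega)).2.2.2.2
    (H k₂ w (by omega) fun k => ⟨w0 k, w3 _ _ (y2 k).1, w3 _ _ (y2 k).2⟩)
  refine ⟨w, k₂ + 3, fun k => (w0 k).le, fun k hk k' hk' => ?_, ?_⟩
  · refine Real.rpow_le_rpow (y1 k).1.le ((y1 k).2.1.trans ?_) hθ.le
    rw [max_eq_left hk]
    exact env_W hE a0 aΞ hk hk'
  set M := μ ^ (1 + 1 / (4 * (n : ℝ))) + μ ^ 2 with hM
  have M0 : 0 ≤ M := by positivity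
  set Z : ℤ → ℝ := fun l => w l * (X l + e n (κ l) (ν l) (a l)) with hZ
  have Y0 : ∀ l, 0 ≤ X l + e n (κ l) (ν l) (a l) := fun l =>
    add_nonneg (hn0 l).1 (e_nonneg n (hn0 l).2.1 (hn0 l).2.2 (a0 l).le)
  have Z0 : ∀ l, 0 ≤ Z l := fun l => mul_nonneg (w0 l).le (Y0 l)
  have g0 : ∀ k l : ℤ, 0 ≤ (3 / 4 : ℝ) ^ (k - l).natAbs * Z l := fun k l =>
    mul_nonneg (by positivity) (Z0 l)
  have cost : ∀ k ∈ T, min (a k ^ n)
      (∑ l ∈ Icc (k - 1) (k + l₀ + 1), (X l + e n (κ l) (ν l) (a l))) ≤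
      K₁ * M * σ ^ (k - ks).natAbs +
        K₄ * ∑ l ∈ Icc (ks + 3) k₂, (3 / 4) ^ (k - l).natAbs * Z l := by
    intro k hk
    obtain ⟨t1, t2⟩ := hT k hk
    have t3 := hk₁ k hk
    have p1 : 0 ≤ K₁ * M * σ ^ (k - ks).natAbs := by positivity
    have p2 : 0 ≤ ∑ l ∈ Icc (ks + 3) k₂, (3 / 4 : ℝ) ^ (k - l).natAbs * Z l :=
      sum_nonneg fun l _ => g0 k l
    rcases le_or_gt (c₁ * H' k) (a k) with hr | hr
    · refine (min_le_right _ _).trans (le_add_of_nonneg_of_le p1 ?_)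
      have q1 : c₁ ≤ y k := by rw [y3 k (by omega) t3, le_div_iff₀ (hE.pos _)]; exact hr
      calc ∑ l ∈ Icc (k - 1) (k + l₀ + 1), (X l + e n (κ l) (ν l) (a l))
          ≤ ∑ l ∈ Icc (k - 1) (k + l₀ + 1), 16 ^ (l₀ + 1) / c₁ * (4 / 3) ^ (l₀ + 1) *
            ((3 / 4) ^ (k - l).natAbs * Z l) := by
            refine sum_le_sum fun l hl => ?_
            rw [mem_Icc] at hl
            have d : (k - l).natAbs ≤ l₀ + 1 := by omega
            have q2 : c₁ ≤ 16 ^ (l₀ + 1) * w l :=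
              q1.trans ((slow_pow y2 k l).trans (mul_le_mul
                (pow_le_pow_right₀ (by norm_num) d) (w2 l) (y1 l).1.le (by positivity)))
            have q3 : (1 : ℝ) ≤ (4 / 3) ^ (l₀ + 1) * (3 / 4) ^ (k - l).natAbs := by
              have : ((3 / 4 : ℝ)) ^ (l₀ + 1) ≤ (3 / 4) ^ (k - l).natAbs :=
                pow_le_pow_of_le_one (by norm_num) (by norm_num) d
              refine le_trans (le_of_eq ?_) (mul_le_mul_of_nonneg_left this (by positivity))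
              rw [← mul_pow]; norm_num
            have q4 : (1 : ℝ) ≤ 16 ^ (l₀ + 1) / c₁ * w l := by
              rw [div_mul_eq_mul_div, le_div_iff₀ c0]; linarith
            have q5 := mul_le_mul q3 q4 zero_le_one (by positivity)
            have q6 := mul_le_mul_of_nonneg_right q5 (Y0 l)
            simp only [hZ]
            linarith
        _ ≤ 16 ^ (l₀ + 1) / c₁ * (4 / 3) ^ (l₀ + 1) *
            ∑ l ∈ Icc (ks + 3) k₂, (3 / 4) ^ (k - l).natAbs * Z l := by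
            rw [← mul_sum]
            exact mul_le_mul_of_nonneg_left (sum_le_sum_of_subset_of_nonneg
              (Icc_subset_Icc (by omega) (by omega)) fun l _ _ => g0 k l) K4'
        _ ≤ _ := mul_le_mul_of_nonneg_right (le_add_of_nonneg_left K3) p2
    · refine (min_le_left _ _).trans ?_
      obtain ⟨j, rfl⟩ : ∃ j : ℕ, k = ks + j := ⟨(k - ks).toNat, by omega⟩
      rcases hE.str j with hs | ⟨i, m, rfl, hi, hs⟩
      · refine le_add_of_le_of_nonneg ?_ (mul_nonneg K4 p2)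
        rw [show (ks + j - ks).natAbs = j by omega]
        refine h1 j (a0 _) hμ (t2.trans (mul_le_mul_of_nonneg_right (by linarith) hμ.le)) ?_
        rw [← hρ, ← hΞ, ← hs]
        exact hE.le _ (by omega)
      · refine le_add_of_nonneg_of_le p1 ?_
        have i4 : 3 < i := by
          by_contra hi3
          have := early (ks + i) (by omega)
          linarith [(ha (ks + i)).2.1]
        have ek : ks + ((i + m : ℕ) : ℤ) = ks + i + m := by push_cast; ring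
        rw [ek] at hs hr t3 p2 ⊢
        obtain ⟨l, hl1, hl2, hl⟩ := h3 (w := w) m hE a0 hn0
          (fun k hk => ⟨(hf k hk).1, (hf k hk).2.1, (hf k hk).2.2.2.1⟩) (by omega)
          (hX _ (by omega)) hi hs hr fun l hl hl' => by
            rw [← y3 l hl (by omega)]; exact w2 l
        have q1 : a (ks + i + m) ^ n ≤ (3 / 4) ^ (ks + i + m - l).natAbs * a (ks + i) ^ n := by
          refine (pow_le_pow_left₀ (a0 _).le ((hE.le _ (by omega)).trans_eq hs) n).trans ?_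
          rw [mul_pow, ← pow_mul]
          refine mul_le_mul_of_nonneg_right
            (pow_le_pow_of_le_one (by norm_num) (by norm_num) ?_) (pow_pos (a0 _) _).le
          exact le_trans (by omega) (Nat.le_mul_of_pos_right m (by omega))
        have q2 := mul_le_mul_of_nonneg_left hl
          (show (0 : ℝ) ≤ (3 / 4) ^ (ks + i + m - l).natAbs by positivity)
        have q3 : (3 / 4 : ℝ) ^ (ks + i + m - l).natAbs * Z l ≤
            ∑ l ∈ Icc (ks + 3) k₂, (3 / 4) ^ (ks + i + m - l).natAbs * Z l :=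
          single_le_sum (f := fun l => (3 / 4 : ℝ) ^ (ks + i + m - l).natAbs * Z l)
            (fun l _ => g0 _ l) (mem_Icc.2 ⟨by omega, by omega⟩)
        have q4 := mul_le_mul_of_nonneg_left q3 K3
        have q5 := mul_nonneg K4' p2
        simp only [hZ] at q4
        rw [hK₄]
        simp only [hZ] at q5 ⊢
        linarith
  refine (sum_le_sum cost).trans ?_
  rw [sum_add_distrib, ← mul_sum, ← mul_sum, sum_comm]
  have s1 := mul_le_mul_of_nonneg_left (geo_sum σ0 σ1 T ks) (mul_nonneg K1 M0)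
  have s2 : ∑ l ∈ Icc (ks + 3) k₂, ∑ k ∈ T, (3 / 4 : ℝ) ^ (k - l).natAbs * Z l ≤
      8 * ∑ l ∈ Icc (ks + 3) k₂, Z l := by
    rw [mul_sum]
    refine sum_le_sum fun l _ => ?_
    rw [← sum_mul]
    refine mul_le_mul_of_nonneg_right ((geo_sum (by norm_num) (by norm_num) T l).trans ?_) (Z0 l)
    norm_num
  have s3 := mul_le_mul_of_nonneg_left (s2.trans (mul_le_mul_of_nonneg_left hS (by norm_num))) K4
  have s4 : 0 ≤ ∑ k ∈ Icc ks (k₂ + 3), w k * κ k :=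
    sum_nonneg fun k _ => mul_nonneg (w0 k).le (hn0 k).2.1
  have s5 := mul_nonneg (mul_nonneg K1 σ2) s4
  linarith

lemma er_ne {n : ℕ} (hn : 3 ≤ n) {κ ν a : ℝ≥0∞} (h1 : κ ≠ ⊤) (h2 : ν ≠ ⊤) (h3 : a ≠ ⊤) :
    er n κ ν a ≠ ⊤ ∧ (er n κ ν a).toReal = e n κ.toReal ν.toReal a.toReal := by
  have h : (3 : ℝ) ≤ n := by exact_mod_cast hn
  have q1 : ν * a ^ (1 / 2 : ℝ) ≠ ⊤ :=
    ENNReal.mul_ne_top h2 (ENNReal.rpow_ne_top_of_nonneg (by norm_num) h3)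
  have q2 : ν ^ ((n : ℝ) / ((n : ℝ) - 1)) ≠ ⊤ :=
    ENNReal.rpow_ne_top_of_nonneg (div_nonneg (by linarith) (by linarith)) h2
  have q3 := ENNReal.add_ne_top.2 ⟨h1, q1⟩
  refine ⟨ENNReal.add_ne_top.2 ⟨q3, q2⟩, ?_⟩
  rw [er, e, ENNReal.toReal_add q3 q2, ENNReal.toReal_add h1 q1, ENNReal.toReal_mul,
    ← ENNReal.toReal_rpow, ← ENNReal.toReal_rpow]

lemma flux_le {n : ℕ} (hn : 3 ≤ n) {C : ℝ≥0} {z μ κ a : ℝ≥0∞} (h1 : μ ≠ ⊤) (h2 : κ ≠ ⊤) (h3 : a ≠ ⊤)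
    (h : z ^ (n - 1) ≤ C * (μ + κ ^ (1 / 2 : ℝ) * a ^ (((n : ℝ) - 2) / 2))) :
    z ≠ ⊤ ∧ z.toReal ^ (n - 1) ≤ ((C : ℝ) + 1) *
      (μ.toReal + κ.toReal ^ (1 / 2 : ℝ) * a.toReal ^ (((n : ℝ) - 2) / 2)) := by
  have h' : (3 : ℝ) ≤ n := by exact_mod_cast hn
  have q1 : κ ^ (1 / 2 : ℝ) * a ^ (((n : ℝ) - 2) / 2) ≠ ⊤ :=
    ENNReal.mul_ne_top (ENNReal.rpow_ne_top_of_nonneg (by norm_num) h2)
      (ENNReal.rpow_ne_top_of_nonneg (by linarith) h3)
  have q2 := ENNReal.mul_ne_top (ENNReal.coe_ne_top (r := C)) (ENNReal.add_ne_top.2 ⟨h1, q1⟩)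
  refine ⟨fun hz => ?_, ?_⟩
  · rw [hz, ENNReal.top_pow (by omega)] at h
    exact q2 (top_le_iff.1 h)
  · have := ENNReal.toReal_mono q2 h
    rw [ENNReal.toReal_pow, ENNReal.toReal_mul, ENNReal.toReal_add h1 q1, ENNReal.toReal_mul,
      ← ENNReal.toReal_rpow, ← ENNReal.toReal_rpow, ENNReal.coe_toReal] at this
    refine this.trans ?_
    gcongr
    linarith

end SQ

open SQ Finset in
theorem stSQ : StSQ := by
  intro n hn θ₀ θ0 θ1
  have t0 : (0 : ℝ) < θ₀ := θ0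
  have t1 : (θ₀ : ℝ) ≤ 1 := θ1
  refine ⟨θ₀ / 15, by positivity, fun C₁ c CP Λ l₀ hc => ?_⟩
  have h16 : (16 : ℝ) ^ ((θ₀ : ℝ) / 15) ≤ 1 + θ₀ := by
    have := rpow_one_add_le_one_add_mul_self (s := 15) (by norm_num) (p := (θ₀ : ℝ) / 15)
      (by positivity) (by linarith)
    norm_num at this ⊢
    linarith
  obtain ⟨K, K0, hK⟩ := core hn (show (0 : ℝ) < θ₀ / 15 by positivity) (by linarith) h16
    (C := (C₁ : ℝ) + 1) (c := c) (CP := CP) (Λ := Λ) l₀ (by simp) hc CP.2 Λ.2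
  refine ⟨K.toNNReal, fun a X κ ν f x μ ks T μ0 μ1 ha hf H hT => ?_⟩
  have af : ∀ k, a k ≠ ⊤ := fun k => ne_top_of_le_ne_top ENNReal.coe_ne_top (ha k).2.1
  have Cμ : (C₁ : ℝ≥0∞) * μ ≠ ⊤ := ENNReal.mul_ne_top ENNReal.coe_ne_top μ1.ne
  have κf : ∀ k, ks ≤ k → κ k ≠ ⊤ := fun k hk => (hf k hk).1.ne
  have νf : ∀ k, ks ≤ k → ν k ≠ ⊤ := fun k hk => ne_top_of_le_ne_top Cμ
    ((single_le_sum (fun _ _ => zero_le) (mem_Icc.2 ⟨hk, le_rfl⟩)).trans (hf k hk).2.2.2.2.2.2)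
  have hfl := fun k hk => flux_le hn μ1.ne (κf k hk) (af k) (hf k hk).2.2.2.1
  have hxl := fun k hk => flux_le hn (νf k hk) (κf k hk) (af k) (hf k hk).2.2.2.2.1
  have he := fun k hk => er_ne hn (κf k hk) (νf k hk) (af k)
  have rhs : ∀ (k₂ : ℤ) (w : ℤ → ℝ≥0), (CP : ℝ≥0∞) * (w (ks + 3) + w k₂) +
      CP * ∑ k ∈ Icc ks (k₂ + 3), w k * er n (κ k) (ν k) (a k) ≠ ⊤ := fun k₂ w =>
    ENNReal.add_ne_top.2 ⟨ENNReal.mul_ne_top ENNReal.coe_ne_top
      (ENNReal.add_ne_top.2 ⟨ENNReal.coe_ne_top, ENNReal.coe_ne_top⟩),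
      ENNReal.mul_ne_top ENNReal.coe_ne_top (ENNReal.sum_ne_top.2 fun k hk =>
        ENNReal.mul_ne_top ENNReal.coe_ne_top (he k (mem_Icc.1 hk).1).1)⟩
  have Xf : ∀ k, ks + 3 ≤ k → X k ≠ ⊤ := by
    intro k hk
    have := ne_top_of_le_ne_top (rhs k fun _ => 1) (H k (fun _ => 1) hk fun _ => by simp)
    simpa using ENNReal.sum_ne_top.1 this k (mem_Icc.2 ⟨hk, le_rfl⟩)
  have two : ∀ u v : ℝ≥0∞, v ≠ ⊤ → u ≤ 2 * v → u.toReal ≤ 2 * v.toReal := fun u v hv h => by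
    simpa using ENNReal.toReal_mono (ENNReal.mul_ne_top (by simp) hv) h
  obtain ⟨w, k₂, w0, hw, hS⟩ := hK (fun k => (a k).toReal) (fun k => (X k).toReal)
    (fun k => (κ k).toReal) (fun k => (ν k).toReal) (fun k => (f k).toReal)
    (fun k => (x k).toReal) μ.toReal ks T (ENNReal.toReal_pos μ0.ne' μ1.ne)
    (fun k => ⟨ENNReal.toReal_pos (ha k).1.ne' (af k), by
      have := ENNReal.toReal_mono ENNReal.coe_ne_top (ha k).2.1
      rw [ENNReal.coe_toReal] at this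
      linarith, two _ _ (af _) (ha k).2.2.1, two _ _ (af _) (ha k).2.2.2⟩)
    (fun k => ⟨ENNReal.toReal_nonneg, ENNReal.toReal_nonneg, ENNReal.toReal_nonneg⟩)
    (fun k hk => ⟨by
      have := ENNReal.toReal_mono (ENNReal.mul_ne_top ENNReal.coe_ne_top (af k)) (hf k hk).2.1
      rw [ENNReal.toReal_mul, ENNReal.coe_toReal] at this
      nlinarith [ENNReal.toReal_nonneg (a := a k)], by
      have := ENNReal.toReal_mono (ENNReal.add_ne_top.2 ⟨(hfl (k + 1) (by omega)).1, (hxl k hk).1⟩)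
        (hf k hk).2.2.1
      rwa [ENNReal.toReal_add (hfl (k + 1) (by omega)).1 (hxl k hk).1] at this,
      (hfl k hk).2, (hxl k hk).2, by
      have := ENNReal.toReal_mono Cμ (hf k hk).2.2.2.2.2.2
      rw [ENNReal.toReal_sum (fun l hl => νf l (mem_Icc.1 hl).1), ENNReal.toReal_mul,
        ENNReal.coe_toReal] at this
      nlinarith [ENNReal.toReal_nonneg (a := μ)]⟩)
    (fun k hk h => by
      have h1 : f k < c * a k := by
        rw [← ENNReal.toReal_lt_toReal (hfl k (by omega)).1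
          (ENNReal.mul_ne_top ENNReal.coe_ne_top (af k)), ENNReal.toReal_mul, ENNReal.coe_toReal]
        exact h
      have h2 := (hf k (by omega)).2.2.2.2.2.1
      rw [Yq, if_pos h1] at h2
      simpa using ENNReal.toReal_mono (Xf k hk) h2)
    (fun k₂ w hk hw => by
      have := ENNReal.toReal_mono (rhs k₂ _)
        (H k₂ (fun k => ⟨w k, (hw k).1.le⟩) hk fun k => ⟨(hw k).1, (hw k).2.1, (hw k).2.2⟩)
      rw [ENNReal.toReal_add (ENNReal.mul_ne_top ENNReal.coe_ne_top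
          (ENNReal.add_ne_top.2 ⟨ENNReal.coe_ne_top, ENNReal.coe_ne_top⟩))
          (ENNReal.add_ne_top.1 (rhs k₂ _)).2, ENNReal.toReal_mul, ENNReal.toReal_mul,
        ENNReal.toReal_add ENNReal.coe_ne_top ENNReal.coe_ne_top,
        ENNReal.toReal_sum (fun k hk => ENNReal.mul_ne_top ENNReal.coe_ne_top
          (Xf k (mem_Icc.1 hk).1)),
        ENNReal.toReal_sum (fun k hk => ENNReal.mul_ne_top ENNReal.coe_ne_top
          (he k (mem_Icc.1 hk).1).1)] at this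
      simp only [ENNReal.toReal_mul, ENNReal.coe_toReal] at this
      rw [← sum_congr rfl fun k hk => congrArg (w k * ·) (he k (mem_Icc.1 hk).1).2]
      exact this)
    (fun k hk => ⟨(hT k hk).1, by
      have := ENNReal.toReal_mono (ENNReal.mul_ne_top ENNReal.coe_ne_top μ1.ne) (hT k hk).2
      rwa [← ENNReal.toReal_rpow, ENNReal.toReal_mul, ENNReal.coe_toReal] at this⟩)
  refine ⟨fun k => ENNReal.ofReal (w k), k₂, fun k hk k' hk' => ?_, ?_⟩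
  · refine ENNReal.ofReal_le_of_le_toReal ((hw k hk k' hk').trans_eq ?_)
    rw [← ENNReal.toReal_rpow, ENNReal.toReal_div, ENNReal.toReal_mul, ← ENNReal.toReal_rpow,
      ENNReal.toReal_ofNat]
  · have an : ∀ k, a k ^ n ≠ ⊤ := fun k => ENNReal.pow_ne_top (af k)
    have win : ∀ k ∈ T, ∀ l ∈ Icc (k - 1) (k + l₀ + 1), ks + 3 ≤ l := fun k hk l hl => by
      have := (hT k hk).1
      have := (mem_Icc.1 hl).1
      omega
    have wf : ∀ k ∈ T, ∀ l ∈ Icc (k - 1) (k + l₀ + 1), X l + er n (κ l) (ν l) (a l) ≠ ⊤ :=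
      fun k hk l hl => ENNReal.add_ne_top.2 ⟨Xf l (win k hk l hl),
        (he l (by have := win k hk l hl; omega)).1⟩
    have m1 : μ ^ (1 + 1 / (4 * (n : ℝ))) ≠ ⊤ :=
      ENNReal.rpow_ne_top_of_nonneg (by positivity) μ1.ne
    have m2 : μ ^ 2 ≠ ⊤ := ENNReal.pow_ne_top μ1.ne
    have m3 : ∀ k ∈ Icc ks k₂, ENNReal.ofReal (w k) * κ k ≠ ⊤ := fun k hk =>
      ENNReal.mul_ne_top ENNReal.ofReal_ne_top (κf k (mem_Icc.1 hk).1)
    have m4 := ENNReal.add_ne_top.2 ⟨m1, m2⟩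
    have m5 : ∀ k ∈ T, min (a k ^ n)
        (∑ l ∈ Icc (k - 1) (k + l₀ + 1), (X l + er n (κ l) (ν l) (a l))) ≠ ⊤ := fun k _ =>
      ne_top_of_le_ne_top (an k) (min_le_left _ _)
    rw [← ENNReal.toReal_le_toReal (ENNReal.sum_ne_top.2 m5) (ENNReal.mul_ne_top ENNReal.coe_ne_top
      (ENNReal.add_ne_top.2 ⟨m4, ENNReal.sum_ne_top.2 m3⟩)), ENNReal.toReal_sum m5,
      ENNReal.toReal_mul, ENNReal.toReal_add m4 (ENNReal.sum_ne_top.2 m3), ENNReal.toReal_add m1 m2,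
      ENNReal.toReal_sum m3, ← ENNReal.toReal_rpow, ENNReal.toReal_pow, ENNReal.coe_toReal,
      Real.coe_toNNReal _ K0]
    refine le_of_eq_of_le (sum_congr rfl fun k hk => ?_) (hS.trans_eq ?_)
    · rw [ENNReal.toReal_min (an k) (ENNReal.sum_ne_top.2 (wf k hk)), ENNReal.toReal_pow,
        ENNReal.toReal_sum (wf k hk)]
      congr 1
      refine sum_congr rfl fun l hl => ?_
      have := he l (by have := win k hk l hl; omega)
      rw [ENNReal.toReal_add (Xf l (win k hk l hl)) this.1, this.2]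
    · congr 2
      exact sum_congr rfl fun k _ => by rw [ENNReal.toReal_mul, ENNReal.toReal_ofReal (w0 k)]

end Pool.Agent.P.MP_28243e_an
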