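import Pool.Agent.P.MP_28243e_an.Basic

/-! Change of frame and mollified solution. -/

namespace Pool.Agent.P.MP_28243e_an

open Set MeasureTheory Metric Filter Topology ENNReal
open scoped NNReal ContDiff RealInnerProductSpace Classical

namespace STa

variable {n m : ℕ}

lemma norm_act {Q : Fin m → Fin m → ℝ}
    (hQ : ∀ i j, ∑ l, Q l i * Q l j = if i = j then 1 else 0) (A : Mt m n) :
    ‖act Q A‖ = ‖A‖ := by
  have h : ‖act Q A‖ ^ 2 = ‖A‖ ^ 2 := by
    rw [EuclideanSpace.norm_sq_eq, EuclideanSpace.norm_sq_eq, Fintype.sum_prod_type,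
      Fintype.sum_prod_type, Finset.sum_comm, Finset.sum_comm (f := fun i α => ‖A (i, α)‖ ^ 2)]
    refine Finset.sum_congr rfl fun α _ => ?_
    simp only [act, Real.norm_eq_abs, sq_abs]
    calc ∑ i, (∑ j, Q i j * A (j, α)) ^ 2
        = ∑ i, ∑ j, ∑ j', A (j, α) * A (j', α) * (Q i j * Q i j') := by
          refine Finset.sum_congr rfl fun i _ => ?_
          rw [sq, Finset.sum_mul_sum]
          exact Finset.sum_congr rfl fun j _ => Finset.sum_congr rfl fun j' _ => by ring
      _ = ∑ j, ∑ j', A (j, α) * A (j', α) * ∑ i, Q i j * Q i j' := by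
          rw [Finset.sum_comm]
          refine Finset.sum_congr rfl fun j _ => ?_
          rw [Finset.sum_comm]
          exact Finset.sum_congr rfl fun j' _ => by rw [Finset.mul_sum]
      _ = ∑ j, A (j, α) ^ 2 := by
          refine Finset.sum_congr rfl fun j _ => ?_
          simp [hQ, sq]
  exact (pow_left_inj₀ (norm_nonneg _) (norm_nonneg _) two_ne_zero).1 h

lemma sig_act {Q : Fin m → Fin m → ℝ}
    (hQ : ∀ i j, ∑ l, Q l i * Q l j = if i = j then 1 else 0) (A : Mt m n) (i : Fin m) (α : Fin n) :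
    sig n (act Q A) (i, α) = ∑ l, Q i l * sig n A (l, α) := by
  simp only [sig, norm_act hQ, PiLp.smul_apply, smul_eq_mul]
  simp only [act, Finset.mul_sum]
  exact Finset.sum_congr rfl fun l _ => by ring

lemma norm_sig (hn : 3 ≤ n) (A : Mt m n) : ‖sig n A‖ = ‖A‖ ^ (n - 1) := by
  rw [sig, norm_smul, norm_pow, norm_norm, ← pow_succ]
  congr 1; omega

lemma measurable_sig {Du : E n → Mt m n} (h : Measurable Du) (p : Fin m × Fin n) :
    Measurable fun x => sig n (Du x) p := by
  simp only [sig, PiLp.smul_apply, smul_eq_mul]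
  exact (h.norm.pow_const _).mul
    ((EuclideanSpace.proj p : Mt m n →L[ℝ] ℝ).continuous.measurable.comp h)

lemma enorm_sig_le (hn : 3 ≤ n) (A : Mt m n) (p : Fin m × Fin n) :
    ‖sig n A p‖ₑ ≤ ‖A‖ₑ ^ (n - 1) := by
  rw [← ofReal_norm, ← ofReal_norm, ← ENNReal.ofReal_pow (norm_nonneg _),
    ← norm_sig hn]
  exact ENNReal.ofReal_le_ofReal (PiLp.norm_apply_le _ _)

lemma int_sig (hn : 3 ≤ n) {Du : E n → Mt m n} (h : Measurable Du)
    (hf : ∫⁻ x in ball 0 1, ‖Du x‖ₑ ^ n < ⊤) (p : Fin m × Fin n) :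
    IntegrableOn (fun x => sig n (Du x) p) (ball 0 1) := by
  refine ⟨(measurable_sig h p).aestronglyMeasurable, ?_⟩
  refine lt_of_le_of_lt (lintegral_mono (g := fun x => 1 + ‖Du x‖ₑ ^ n) fun x => ?_) ?_
  · refine (enorm_sig_le hn _ p).trans ?_
    rcases le_total ‖Du x‖ₑ 1 with h1 | h1
    · exact (pow_le_one₀ zero_le h1).trans le_self_add
    · exact (pow_le_pow_right₀ h1 (by omega)).trans le_add_self
  · rw [lintegral_add_left measurable_const]
    refine ENNReal.add_lt_top.2 ⟨?_, hf⟩
    simp only [lintegral_const, one_mul, Measure.restrict_apply MeasurableSet.univ, univ_inter]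
    exact measure_ball_lt_top

lemma int_om (hn : 3 ≤ n) {Du : E n → Mt m n} (h : Measurable Du)
    {Ω : E n → Fin m → Fin m → Fin n → ℝ} (hΩ : Measurable Ω)
    (hf : ∫⁻ x in ball 0 1, ENNReal.ofReal (sqO (Ω x)) ^ (1 / 2 : ℝ) * ‖Du x‖ₑ ^ (n - 1) < ⊤)
    (l j : Fin m) (α : Fin n) :
    IntegrableOn (fun x => Ω x l j α * sig n (Du x) (j, α)) (ball 0 1) := by
  have hm : Measurable fun x => Ω x l j α :=
    (measurable_pi_apply α).comp ((measurable_pi_apply j).comp ((measurable_pi_apply l).comp hΩ))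
  refine ⟨(hm.mul (measurable_sig h _)).aestronglyMeasurable, ?_⟩
  refine lt_of_le_of_lt (lintegral_mono fun x => ?_) hf
  rw [enorm_mul]
  refine mul_le_mul' ?_ (enorm_sig_le hn _ _)
  have h1 : Ω x l j α ^ 2 ≤ sqO (Ω x) := by
    unfold sqO
    refine le_trans ?_ (Finset.single_le_sum (f := fun i => ∑ j, ∑ α, Ω x i j α ^ 2)
      (fun _ _ => by positivity) (Finset.mem_univ l))
    refine le_trans ?_ (Finset.single_le_sum (f := fun j => ∑ α, Ω x l j α ^ 2)
      (fun _ _ => by positivity) (Finset.mem_univ j))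
    exact Finset.single_le_sum (f := fun α => Ω x l j α ^ 2)
      (fun _ _ => by positivity) (Finset.mem_univ α)
  rw [ENNReal.ofReal_rpow_of_nonneg ((sq_nonneg _).trans h1) (by norm_num), ← Real.sqrt_eq_rpow,
    ← ofReal_norm, Real.norm_eq_abs]
  exact ENNReal.ofReal_le_ofReal (Real.abs_le_sqrt h1)

lemma int_mul {g b : E n → ℝ} (hg : IntegrableOn g (ball 0 1)) (hb : Continuous b) :
    IntegrableOn (fun x => g x * b x) (ball 0 1) :=
  hg.mul_continuousOn_of_subset hb.continuousOn measurableSet_ball (isCompact_closedBall 0 1)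
    ball_subset_closedBall

lemma cont_pd {φ : E n → ℝ} (h : ContDiff ℝ ∞ φ) (α : Fin n) : Continuous (pd φ α) :=
  (h.continuous_fderiv (by simp)).clm_apply continuous_const

lemma test_sum {O : Set (E n)} {q φ : Fin m → E n → ℝ} (hq : ∀ i, ContDiff ℝ ∞ (q i))
    (hφ : ∀ i, IsTest O (φ i)) : IsTest O fun x => ∑ i, q i x * φ i x := by
  have hK : IsCompact (⋃ i, tsupport (φ i)) := isCompact_iUnion fun i => (hφ i).2.1
  have hs : tsupport (fun x => ∑ i, q i x * φ i x) ⊆ ⋃ i, tsupport (φ i) := by
    refine closure_minimal (fun x hx => ?_) hK.isClosed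
    by_contra hc
    simp only [mem_iUnion, not_exists] at hc
    exact hx (Finset.sum_eq_zero fun i _ => by rw [image_eq_zero_of_notMem_tsupport (hc i), mul_zero])
  refine ⟨ContDiff.sum fun i _ => (hq i).mul (hφ i).1, ?_, ?_⟩
  · exact hK.of_isClosed_subset (isClosed_tsupport _) hs
  · exact hs.trans (iUnion_subset fun i => (hφ i).2.2)

lemma pd_sum {q φ : Fin m → E n → ℝ} (hq : ∀ i, ContDiff ℝ ∞ (q i))
    (hφ : ∀ i, ContDiff ℝ ∞ (φ i)) (α : Fin n) (x : E n) :
    pd (fun x => ∑ i, q i x * φ i x) α x =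
      ∑ i, (q i x * pd (φ i) α x + φ i x * pd (q i) α x) := by
  have h : HasFDerivAt (fun x => ∑ i, q i x * φ i x)
      (∑ i, (q i x • fderiv ℝ (φ i) x + φ i x • fderiv ℝ (q i) x)) x :=
    HasFDerivAt.fun_sum fun i _ =>
      (((hq i).differentiable (by simp)) x).hasFDerivAt.mul
        (((hφ i).differentiable (by simp)) x).hasFDerivAt
  unfold pd
  rw [h.fderiv]
  simp

end STa

open STa in
theorem stSTa : StSTa := by
  intro n m hn u Du Ω Q hs hQ hO hf
  refine ⟨fun x => norm_act (hO x) _, fun φ hφ => ?_⟩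
  have hφd : ∀ x, DifferentiableAt ℝ φ x := fun x =>
    ((contDiff_euclidean.2 fun i => (hφ i).1).differentiable (by simp)) x
  set ψ : Fin m → E n → ℝ := fun l x => ∑ i, Q x i l * φ x i with hψ
  have hψt : ∀ l, IsTest (ball 0 1) (ψ l) := fun l =>
    test_sum (q := fun i x => Q x i l) (φ := fun i x => φ x i) (fun i => hQ i l) hφ
  set A : Fin m → E n → ℝ := fun l x => ⟪row (sig n (Du x)) l, gradient (ψ l) x⟫ with hA
  set B : Fin m → E n → ℝ := fun l x => (∑ j, ∑ α, Ω x l j α * sig n (Du x) (j, α)) * ψ l x with hB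
  set C : E n → ℝ := fun x => ∑ i, ∑ j, ∑ α,
    sig n (Du x) (j, α) * (φ x i * pd (fun y => Q y i j) α x) with hC
  have hAe : ∀ l x, A l x = ∑ α, sig n (Du x) (l, α) * pd (ψ l) α x := fun l x => by
    simp only [hA, PiLp.inner_apply, gradient_apply, row]
    exact Finset.sum_congr rfl fun α _ => by simp [mul_comm]
  have iA : ∀ l, IntegrableOn (A l) (ball 0 1) := fun l => by
    have : A l = fun x => ∑ α, sig n (Du x) (l, α) * pd (ψ l) α x := funext (hAe l)
    rw [this]
    exact integrable_finsetSum _ fun α _ =>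
      int_mul (int_sig hn hs.mDu hs.fin _) (cont_pd (hψt l).1 α)
  have iB : ∀ l, IntegrableOn (B l) (ball 0 1) := fun l =>
    int_mul (integrable_finsetSum _ fun j _ => integrable_finsetSum _ fun α _ =>
      int_om hn hs.mDu hs.mΩ hf l j α) (hψt l).1.continuous
  have iC : IntegrableOn C (ball 0 1) :=
    integrable_finsetSum _ fun i _ => integrable_finsetSum _ fun j _ =>
      integrable_finsetSum _ fun α _ => int_mul (int_sig hn hs.mDu hs.fin _)
        ((hφ i).1.continuous.mul (cont_pd (hQ i j) α))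
  have e1 : ∀ x, ⟪sig n (act (Q x) (Du x)), grad φ x⟫ = ∑ l, A l x - C x := fun x => by
    have : ∀ l α, pd (ψ l) α x =
        ∑ i, (Q x i l * pd (fun y => φ y i) α x + φ x i * pd (fun y => Q y i l) α x) := fun l α =>
      pd_sum (q := fun i x => Q x i l) (φ := fun i x => φ x i) (fun i => hQ i l)
        (fun i => (hφ i).1) α x
    rw [inner_eq_sum_row, eq_sub_iff_add_eq]
    simp only [row_grad (hφd x), hAe, this, hC]
    simp only [PiLp.inner_apply, gradient_apply, row, sig_act (hO x), mul_add, Finset.mul_sum,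
      Finset.sum_add_distrib]
    congr 1
    · calc _ = ∑ i, ∑ α, ∑ l, sig n (Du x) (l, α) * (Q x i l * pd (fun y => φ y i) α x) := by
            refine Finset.sum_congr rfl fun i _ => Finset.sum_congr rfl fun α _ => ?_
            simp only [RCLike.inner_apply, conj_trivial, Finset.mul_sum]
            exact Finset.sum_congr rfl fun l _ => by ring
        _ = ∑ i, ∑ l, ∑ α, sig n (Du x) (l, α) * (Q x i l * pd (fun y => φ y i) α x) :=
            Finset.sum_congr rfl fun i _ => Finset.sum_comm
        _ = _ := by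
            rw [Finset.sum_comm]
            exact Finset.sum_congr rfl fun l _ => Finset.sum_comm
    · rw [Finset.sum_comm]
      exact Finset.sum_congr rfl fun l _ => Finset.sum_comm
  have e2 : ∀ x, ∑ i, ∑ j, ∑ α, φ x i * Th Q Ω x i j α * sig n (Du x) (j, α) =
      ∑ l, B l x - C x := fun x => by
    rw [eq_sub_iff_add_eq]
    simp only [hB, hC, hψ, Th, ← Finset.sum_add_distrib]
    calc _ = ∑ i, ∑ j, ∑ α, ∑ l, Ω x l j α * sig n (Du x) (j, α) * (Q x i l * φ x i) := by
          refine Finset.sum_congr rfl fun i _ => Finset.sum_congr rfl fun j _ =>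
            Finset.sum_congr rfl fun α _ => ?_
          have : ∑ l, Ω x l j α * sig n (Du x) (j, α) * (Q x i l * φ x i) =
              φ x i * (∑ l, Q x i l * Ω x l j α) * sig n (Du x) (j, α) := by
            rw [Finset.mul_sum, Finset.sum_mul]
            exact Finset.sum_congr rfl fun l _ => by ring
          rw [this]; ring
      _ = ∑ i, ∑ l, ∑ j, ∑ α, Ω x l j α * sig n (Du x) (j, α) * (Q x i l * φ x i) := by
          refine Finset.sum_congr rfl fun i _ => ?_
          rw [Finset.sum_comm (s := Finset.univ) (t := Finset.univ)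
            (f := fun l j => ∑ α, Ω x l j α * sig n (Du x) (j, α) * (Q x i l * φ x i))]
          exact Finset.sum_congr rfl fun j _ => Finset.sum_comm
      _ = _ := by
          rw [Finset.sum_comm]
          refine Finset.sum_congr rfl fun l _ => ?_
          rw [Finset.mul_sum]
          refine Finset.sum_congr rfl fun i _ => ?_
          rw [Finset.sum_mul]
          exact Finset.sum_congr rfl fun j _ => by rw [Finset.sum_mul]
  simp only [e1, e2]
  rw [integral_sub (integrable_finsetSum _ fun l _ => iA l) iC,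
    integral_sub (integrable_finsetSum _ fun l _ => iB l) iC,
    integral_finsetSum _ fun l _ => iA l, integral_finsetSum _ fun l _ => iB l]
  congr 1
  exact Finset.sum_congr rfl fun l _ => hs.eqn l (ψ l) (hψt l)

theorem stSTb (hM : StM) (hA8 : StA8) : StSTb := by
  intro n m hn
  obtain ⟨C, hC⟩ := hM n hn
  obtain ⟨_, h8⟩ := hA8 n hn
  refine ⟨C, fun u Du Ω hs hG η hη => ?_⟩
  set G := GG (ball 0 1) Du with hGd
  obtain ⟨_, hfin, hint, _⟩ := h8 G hG
  set f : ℕ → Fin m → E n → ℝ := fun N j =>
    mol (rho (N + 5 : ℕ)) ((ball (0 : E n) 1).indicator fun x => u x j) with hf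
  have hrho : ∀ N : ℕ, rho (N + 5 : ℕ) ≤ 1 / 32 := fun N => by
    have : rho (N + 5 : ℕ) ≤ rho 5 := rho_anti (by push_cast; omega)
    refine this.trans (le_of_eq ?_)
    unfold rho; norm_num
  have hsub : ∀ (N : ℕ), ∀ z ∈ ball (0 : E n) (7 / 8),
      closedBall z (rho (N + 5 : ℕ)) ⊆ ball (0 : E n) 1 := fun N z hz y hy => by
    rw [mem_ball, dist_zero_right] at hz ⊢
    rw [mem_closedBall, dist_eq_norm] at hy
    have := norm_add_le (y - z) z
    rw [sub_add_cancel] at this
    linarith [hrho N]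
  have hsm : ∀ N j, ContDiff ℝ ∞ (f N j) := fun N j =>
    (((hC _).1 ((hs.wg j).1.integrable_indicator measurableSet_ball).locallyIntegrable).1 _
      (rho_pos _)).1
  have hb : ∀ N j, ∀ z ∈ ball (0 : E n) (7 / 8),
      ‖fderiv ℝ (f N j) z‖ₑ ≤ C * av G z (rho (N + 5 : ℕ)) := fun N j z hz => by
    refine ((hC _).2.2 _ _ measurableSet_ball (hs.wg j) _ (rho_pos _) z (hsub N z hz)).2.trans ?_
    gcongr
    refine av_mono fun y _ => ?_
    refine indicator_le_indicator ?_
    rw [← ofReal_norm, ← ofReal_norm]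
    exact ENNReal.ofReal_le_ofReal (norm_row_le _ _)
  set τ : ℕ → E n → ℝ≥0∞ := fun N => (ball (0 : E n) (3 / 4)).indicator fun x =>
    ∑ j, ‖row (Du x) j - gradient (f N j) x‖ₑ with hτ
  have hτm : ∀ N, Measurable (τ N) := fun N =>
    (Finset.measurable_sum _ fun j _ =>
      (((continuous_row j).measurable.comp hs.mDu).sub (measurable_gradient _)).enorm).indicator
      measurableSet_ball
  have h34 : ball (0 : E n) (3 / 4) ⊆ ball 0 (7 / 8) := ball_subset_ball (by norm_num)
  have h341 : ball (0 : E n) (3 / 4) ⊆ ball 0 1 := ball_subset_ball (by norm_num)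
  have hdom : ∀ N, ∀ᵐ x, Wt G x * τ N x ^ 2 ≤ ((m : ℝ≥0∞) * (1 + C)) ^ 2 * mq G x ^ n := fun N => by
    filter_upwards [le_mq_ae hn hG.meas] with x hx
    have h1 : τ N x ≤ (m : ℝ≥0∞) * (1 + C) * mq G x := by
      by_cases hx' : x ∈ ball (0 : E n) (3 / 4)
      · simp only [hτ, indicator_of_mem hx']
        refine (Finset.sum_le_card_nsmul _ _ ((1 + C) * mq G x) fun j _ => ?_).trans
          (by simp [mul_assoc])
        refine enorm_sub_le.trans ?_
        rw [add_mul, one_mul]
        refine add_le_add (le_trans ?_ hx) ?_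
        · rw [hGd, GG, indicator_of_mem (h341 hx'), ← ofReal_norm, ← ofReal_norm]
          exact ENNReal.ofReal_le_ofReal (norm_row_le _ _)
        · rw [← ofReal_norm, norm_gradient, ofReal_norm]
          refine (hb N j x (h34 hx')).trans ?_
          gcongr
          exact (av_le_mx G x (rho_pos _)).trans (mx_le_mq hn hG.meas x)
      · simp [hτ, indicator_of_notMem hx']
    calc Wt G x * τ N x ^ 2 ≤ mq G x ^ (n - 2) * ((m : ℝ≥0∞) * (1 + C) * mq G x) ^ 2 := by
          unfold Wt; gcongr
      _ = ((m : ℝ≥0∞) * (1 + C)) ^ 2 * (mq G x ^ (n - 2) * mq G x ^ 2) := by ring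
      _ = _ := by rw [← pow_add]; congr 2; omega
  have hlim : ∀ᵐ x, Tendsto (fun N => Wt G x * τ N x ^ 2) atTop (𝓝 0) := by
    have hae : ∀ᵐ x, ∀ (j : Fin m) (α : Fin n), Tendsto (fun N : ℕ =>
        mol (rho N) ((ball (0 : E n) 1).indicator fun y => row (Du y) j α) x) atTop
        (𝓝 ((ball (0 : E n) 1).indicator (fun y => row (Du y) j α) x)) := by
      refine ae_all_iff.2 fun j => ae_all_iff.2 fun α => ((hC _).1 ?_).2
      have : IntegrableOn (fun y => row (Du y) j α) (ball 0 1) :=
        (EuclideanSpace.proj α : E n →L[ℝ] ℝ).integrable_comp (hs.wg j).2.1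
      exact (this.integrable_indicator measurableSet_ball).locallyIntegrable
    filter_upwards [hae, hfin] with x hx hx'
    have h1 : Tendsto (fun N => τ N x) atTop (𝓝 0) := by
      by_cases hxb : x ∈ ball (0 : E n) (3 / 4)
      · simp only [hτ, indicator_of_mem hxb]
        have hj : ∀ j, Tendsto (fun N => ‖row (Du x) j - gradient (f N j) x‖ₑ) atTop (𝓝 0) := by
          intro j
          have h2 : Tendsto (fun N => gradient (f N j) x) atTop (𝓝 (row (Du x) j)) := by
            refine (PiLp.continuousLinearEquiv 2 ℝ (fun _ : Fin n => ℝ)).toHomeomorph.isInducing.tendsto_nhds_iff.2 ?_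
            refine tendsto_pi_nhds.2 fun α => ?_
            have h3 := (hx j α).comp (tendsto_add_atTop_nat 5)
            rw [indicator_of_mem (h341 hxb)] at h3
            refine h3.congr fun N => ?_
            have := ((hC _).2.2 _ _ measurableSet_ball (hs.wg j) _ (rho_pos (N + 5 : ℕ)) x
              (hsub N x (h34 hxb))).1 α
            simp only [Function.comp_apply]
            rw [← this]
            exact (gradient_apply _ _ _).symm
          have h4 := ((tendsto_const_nhds (x := row (Du x) j)).sub h2).enorm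
          simpa using h4
        simpa using tendsto_finsetSum Finset.univ fun j _ => hj j
      · simp [hτ, indicator_of_notMem hxb]
    have h2 : Tendsto (fun N => τ N x ^ 2) atTop (𝓝 0) := by
      have := (ENNReal.continuous_pow 2).continuousAt.tendsto.comp h1
      simpa [Function.comp_def] using this
    have h3 := ENNReal.Tendsto.const_mul (a := Wt G x) h2
      (Or.inr (ENNReal.pow_ne_top hx'.ne))
    simpa using h3
  have hT := tendsto_lintegral_of_dominated_convergence
    (F := fun N x => Wt G x * τ N x ^ 2) (f := fun _ => 0)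
    (fun x => ((m : ℝ≥0∞) * (1 + C)) ^ 2 * mq G x ^ n)
    (fun N => (measurable_Wt hG.meas).mul ((hτm N).pow_const 2)) hdom
    (by
      rw [lintegral_const_mul _ ((measurable_mq hG.meas).pow_const n)]
      exact ENNReal.mul_ne_top (ENNReal.pow_ne_top (ENNReal.mul_ne_top (by simp) (by simp))) hint.ne)
    hlim
  simp only [lintegral_zero] at hT
  obtain ⟨N, hN⟩ := (hT.eventually (ge_mem_nhds hη)).exists
  refine ⟨N + 5, f N, τ N, by omega, hτm N, hN, fun j => ⟨hsm N j, hb N j, fun x hx => ?_⟩⟩
  simp only [hτ, indicator_of_mem hx]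
  exact Finset.single_le_sum (f := fun j => ‖row (Du x) j - gradient (f N j) x‖ₑ)
    (fun _ _ => zero_le) (Finset.mem_univ j)

end Pool.Agent.P.MP_28243e_an
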