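import Pool.Agent.P.MP_28243e_an.Basic

/-! Lipschitz truncation: extension with the same gradient and one truncated test. -/

namespace Pool.Agent.P.MP_28243e_an

open Set MeasureTheory Metric Filter Topology ENNReal
open scoped NNReal ContDiff RealInnerProductSpace Classical

namespace TL

variable {n m : ℕ}

/-- Coordinatewise truncation at height `b`. -/
noncomputable def cl (b : ℝ) (y : V m) : V m := WithLp.toLp 2 fun i => max (-b) (min b (y i))

theorem cl_lip (b : ℝ) : LipschitzWith 1 (cl b : V m → V m) := by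
  refine LipschitzWith.of_dist_le_mul fun y z => ?_
  rw [NNReal.coe_one, one_mul, EuclideanSpace.dist_eq, EuclideanSpace.dist_eq]
  refine Real.sqrt_le_sqrt (Finset.sum_le_sum fun i _ => ?_)
  refine pow_le_pow_left₀ dist_nonneg ?_ 2
  have h : LipschitzWith 1 fun t : ℝ => max (-b) (min b t) :=
    (LipschitzWith.id.const_min b).const_max (-b)
  simpa [cl] using h.dist_le_mul (y i) (z i)

theorem cl_norm {b : ℝ} (hb : 0 ≤ b) (y : V m) : ‖cl b y‖ ≤ m * b := by
  rw [EuclideanSpace.norm_eq]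
  refine Real.sqrt_le_iff.2 ⟨by positivity, ?_⟩
  refine (Finset.sum_sq_le_sq_sum_of_nonneg fun _ _ => norm_nonneg _).trans ?_
  refine pow_le_pow_left₀ (Finset.sum_nonneg fun _ _ => norm_nonneg _) ?_ 2
  calc ∑ i, ‖cl b y i‖ ≤ ∑ _i : Fin m, b := by
        refine Finset.sum_le_sum fun i _ => ?_
        rw [Real.norm_eq_abs, abs_le]
        simp only [cl]
        exact ⟨le_max_left _ _, max_le (by linarith) (min_le_left _ _)⟩
    _ = m * b := by simp

theorem cl_eq {b : ℝ} {y : V m} (h : ‖y‖ ≤ b) : cl b y = y := by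
  ext i
  have h1 : |y i| ≤ b := le_trans (by simpa using PiLp.norm_apply_le y i) h
  rw [abs_le] at h1
  simp only [cl]
  rw [min_eq_right h1.2, max_eq_right h1.1]

theorem grad_eq_ae (hn : 3 ≤ n) {φ ξ : E n → V m} {s : Set (E n)} (hs : MeasurableSet s)
    (h : ∀ x ∈ s, φ x = ξ x) (hφ : ∀ x ∈ s, DifferentiableAt ℝ φ x)
    (hξ : ∀ x ∈ s, DifferentiableAt ℝ ξ x) : ∀ᵐ x, x ∈ s → grad φ x = grad ξ x := by
  set e : E n := EuclideanSpace.single ⟨0, by omega⟩ 1 with he
  have he0 : e ≠ 0 := by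
    intro h0
    have := congrArg norm h0
    simp [he] at this
  have key : ∀ i : Fin m, ∀ᵐ x, x ∈ s → ∀ w, fderiv ℝ φ x w i = fderiv ℝ ξ x w i := by
    intro i
    set T : V m →L[ℝ] E n := (EuclideanSpace.proj i : V m →L[ℝ] ℝ).smulRight e with hT
    have happ : ApproximatesLinearOn (fun z => T (φ z - ξ z)) (0 : E n →L[ℝ] E n) s 0 := by
      intro x hx y hy
      simp [h x hx, h y hy]
    have := happ.norm_fderiv_sub_le volume hs (fun x => T.comp (fderiv ℝ φ x - fderiv ℝ ξ x))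
      fun x hx => (T.hasFDerivAt.comp x
        ((hφ x hx).hasFDerivAt.sub (hξ x hx).hasFDerivAt)).hasFDerivWithinAt
    filter_upwards [(ae_restrict_iff' hs).1 this] with x hx hxs w
    have h1 := hx hxs
    rw [sub_zero, nonpos_iff_eq_zero, nnnorm_eq_zero] at h1
    have h2 := congrArg (fun A : E n →L[ℝ] E n => A w) h1
    simp only [hT, ContinuousLinearMap.comp_apply, ContinuousLinearMap.smulRight_apply,
      _root_.zero_apply, smul_eq_zero, he0, or_false,
      _root_.sub_apply] at h2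
    simpa [sub_eq_zero] using h2
  filter_upwards [ae_all_iff.2 key] with x hx hxs
  ext p
  simp only [grad]
  exact hx p.1 hxs _

theorem lip_smul {π : E n → ℝ} {φ : E n → V m} {Lπ K b : ℝ≥0} (hπ : LipschitzWith Lπ π)
    (h1 : ∀ x, |π x| ≤ 1) (hφ : LipschitzWith K φ) (hb : ∀ x, ‖φ x‖ ≤ b) :
    LipschitzWith (K + Lπ * b) fun x => π x • φ x := by
  refine LipschitzWith.of_dist_le_mul fun x y => ?_
  have e : π x • φ x - π y • φ y = π x • (φ x - φ y) + (π x - π y) • φ y := by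
    rw [smul_sub, sub_smul]; abel
  rw [dist_eq_norm, e]
  have a1 := hφ.dist_le_mul x y
  have a2 := hπ.dist_le_mul x y
  rw [dist_eq_norm] at a1 a2
  calc _ ≤ ‖π x‖ * ‖φ x - φ y‖ + ‖π x - π y‖ * ‖φ y‖ := by
        rw [← norm_smul, ← norm_smul]; exact norm_add_le _ _
    _ ≤ 1 * (K * dist x y) + (Lπ * dist x y) * b := by
        gcongr
        · exact h1 x
        · exact hb y
    _ = _ := by push_cast; ring

theorem norm_sig (hn : 3 ≤ n) (A : Mt m n) : ‖sig n A‖ₑ = ‖A‖ₑ ^ (n - 1) := by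
  rw [sig, enorm_smul, enorm_pow, enorm_norm, ← pow_succ, show n - 2 + 1 = n - 1 by omega]

theorem continuous_sig : Continuous (sig n : Mt m n → Mt m n) := by
  unfold sig; fun_prop

theorem integrableOn_sig (hn : 3 ≤ n) {U : E n → Mt m n} {G : E n → ℝ≥0∞} (hU : Measurable U)
    (hG : Gd G) (hUG : ∀ x, ‖U x‖ₑ = G x) :
    IntegrableOn (fun x => sig n (U x)) (ball 0 1) := by
  refine ⟨(continuous_sig.measurable.comp hU).aestronglyMeasurable, ?_⟩
  rw [HasFiniteIntegral]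
  calc ∫⁻ x in ball (0 : E n) 1, ‖sig n (U x)‖ₑ ≤ ∫⁻ x in ball (0 : E n) 1, (1 + G x ^ n) := by
        refine lintegral_mono fun x => ?_
        rw [norm_sig hn, hUG]
        rcases le_total (G x) 1 with h | h
        · exact (pow_le_one₀ zero_le h).trans le_self_add
        · exact (pow_le_pow_right₀ h (by omega)).trans le_add_self
    _ = volume (ball (0 : E n) 1) + ∫⁻ x in ball (0 : E n) 1, G x ^ n := by
        rw [lintegral_add_left measurable_const, setLIntegral_one]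
    _ < ⊤ := ENNReal.add_lt_top.2 ⟨measure_ball_lt_top,
        (setLIntegral_le_lintegral _ _).trans_lt hG.fin⟩

end TL

open TL

theorem stTL : StTL := by
  intro n m hn
  refine ⟨lipschitzExtensionConstant (V m) + m, fun ξ Γ L b hΓ hL hb hd => ?_⟩
  obtain ⟨g, hg, hEq⟩ := hL.extend_finite_dimension
  have hlip : LipschitzWith (lipschitzExtensionConstant (V m) * L) fun x => cl b (g x) := by
    have := (cl_lip (b : ℝ)).comp hg
    rw [one_mul] at this
    exact this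
  have heq : ∀ x ∈ Γ, cl b (g x) = ξ x := fun x hx => by
    rw [← hEq hx, cl_eq (hb x hx)]
  refine ⟨fun x => cl b (g x), hlip.weaken (by gcongr; exact le_self_add), fun x => ?_, heq, ?_⟩
  · refine (cl_norm b.2 _).trans ?_
    push_cast
    exact mul_le_mul_of_nonneg_right
      (le_add_of_nonneg_left (lipschitzExtensionConstant (V m)).2) b.2
  · have hs : MeasurableSet (Γ ∩ {x | DifferentiableAt ℝ (fun x => cl b (g x)) x}) :=
      hΓ.inter (measurableSet_of_differentiableAt ℝ _)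
    filter_upwards [grad_eq_ae hn hs (fun x hx => heq x hx.1) (fun x hx => hx.2)
      (fun x hx => hd x hx.1), hlip.ae_differentiableAt (μ := volume)] with x h1 h2 hx
    exact h1 ⟨hx, h2⟩

theorem stLT (hTL : StTL) (_hA5 : StA5) : StLT := by
  intro n m hn
  obtain ⟨C, hC⟩ := hTL n m hn
  refine ⟨(n + 1) * C, ?_⟩
  intro Co U v G ν k kf h hS ξ π R Γ S₀ kf' L b Lπ B₀ hR hΓ hΓR hR1 hπ hπ1 hπL hπs hπ0 hS₀ hS₀b
    hkf' hdiv hL hb hd
  obtain ⟨ψ, hψL, hψb, hψe, hψg⟩ := hC ξ Γ L b hΓ hL hb hd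
  set φ : E n → V m := fun x => π x • ψ x with hφ
  set A : E n → Mt m n := fun x => π x • grad ξ x + tens (ξ x) (gradient π x) with hA
  set K : ℝ≥0 := C * L + Lπ * (C * b) with hK
  have hφL : LipschitzWith K φ := lip_smul hπL hπ1 hψL (by exact_mod_cast hψb)
  have hφs : tsupport φ ⊆ tsupport π := tsupport_smul_subset_left _ _
  have hgr : ∀ᵐ x, grad φ x = π x • grad ψ x + tens (ψ x) (gradient π x) := by
    filter_upwards [hψL.ae_differentiableAt (μ := volume)] with x hx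
    exact grad_smul (hπ.differentiable one_ne_zero x) hx
  have hoff : ∀ᵐ x, x ∉ R → grad φ x = 0 := by
    filter_upwards [hgr] with x hx hxR
    rw [hx, (hπ0 x hxR).1, (hπ0 x hxR).2, zero_smul, zero_add, ← norm_eq_zero, norm_tens]
    simp
  have hon : ∀ᵐ x, x ∈ Γ → grad φ x = A x := by
    filter_upwards [hgr, hψg] with x hx hx' hxΓ
    rw [hx, hx' hxΓ, hψe x hxΓ]
  have hbd : ∀ x, ‖grad φ x‖ ≤ n * K := norm_grad_le_of_lip hφL
  have hbde : ∀ x, ‖grad φ x‖ₑ ≤ (((n + 1) * C : ℝ≥0) : ℝ≥0∞) * (L + Lπ * b) := by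
    intro x
    have h1 : ‖grad φ x‖₊ ≤ (n + 1) * C * (L + Lπ * b) := by
      rw [← NNReal.coe_le_coe, coe_nnnorm]
      refine (hbd x).trans ?_
      rw [hK]
      push_cast
      have : (0 : ℝ) ≤ C * L + Lπ * (C * b) := by positivity
      nlinarith
    rw [enorm_eq_nnnorm]
    exact_mod_cast h1
  have hRfin : volume R < ⊤ := (measure_mono hR1).trans_lt measure_ball_lt_top
  have iσ : IntegrableOn (fun x => sig n (U x)) R :=
    (integrableOn_sig hn hS.mU hS.gd hS.normU).mono_set hR1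
  have iS : IntegrableOn S₀ R :=
    Measure.integrableOn_of_bounded hRfin.ne hS₀.aestronglyMeasurable
      ((ae_restrict_iff' hR).2 (Eventually.of_forall hS₀b))
  have ipair : ∀ F : E n → Mt m n, IntegrableOn F R →
      IntegrableOn (fun x => ⟪F x, grad φ x⟫) R := by
    intro F hF
    refine Integrable.mono' (hF.norm.mul_const (n * K))
      (hF.1.inner (measurable_grad φ).aestronglyMeasurable) (Eventually.of_forall fun x => ?_)
    exact (norm_inner_le_norm _ _).trans (by gcongr; exact hbd x)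
  have iF := ipair (fun x => sig n (U x) - S₀ x) (iσ.sub iS)
  have hae : (fun x => ⟪sig n (U x) - S₀ x, grad φ x⟫) =ᵐ[volume.restrict Γ]
      fun x => ⟪sig n (U x) - S₀ x, A x⟫ := by
    filter_upwards [(ae_restrict_iff' hΓ).2 hon] with x hx
    rw [hx]
  refine ⟨(iF.mono_set hΓR).congr hae, ?_⟩
  have e1 : ∫ x in Γ, ⟪sig n (U x) - S₀ x, A x⟫ =
      (∫ x, ⟪sig n (U x), grad φ x⟫) - (∫ x in R, ⟪S₀ x, grad φ x⟫) -
        ∫ x in R \ Γ, ⟪sig n (U x) - S₀ x, grad φ x⟫ := by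
    have e0 : ∫ x in R, ⟪sig n (U x), grad φ x⟫ = ∫ x, ⟪sig n (U x), grad φ x⟫ :=
      setIntegral_eq_integral_of_ae_compl_eq_zero (by
        filter_upwards [hoff] with x hx hxR
        rw [hx hxR, inner_zero_right])
    rw [← integral_congr_ae hae, setIntegral_sdiff hΓ iF hΓR, ← e0,
      ← integral_sub (ipair _ iσ) (ipair _ iS)]
    simp only [inner_sub_left]
    ring
  set D : ℝ≥0∞ := (((n + 1) * C : ℝ≥0) : ℝ≥0∞) * (L + Lπ * b) with hD
  have mg : Measurable fun x => ‖grad φ x‖ₑ := (measurable_grad φ).enorm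
  have b1 : ∫⁻ x, ν x * ‖φ x‖ₑ ≤ (((n + 1) * C : ℝ≥0) : ℝ≥0∞) * b * ∫⁻ x in R, ν x := by
    rw [← lintegral_const_mul _ hS.mν, ← lintegral_indicator hR]
    refine lintegral_mono fun x => ?_
    by_cases hx : x ∈ R
    · rw [indicator_of_mem hx, mul_comm]
      gcongr
      have h1 : ‖φ x‖₊ ≤ (n + 1) * C * b := by
        rw [← NNReal.coe_le_coe, coe_nnnorm, hφ, norm_smul]
        push_cast
        have a1 := hπ1 x
        have a2 := hψb x
        have a3 : (0 : ℝ) ≤ n * (C * b) := by positivity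
        rw [Real.norm_eq_abs]
        nlinarith [norm_nonneg (ψ x), abs_nonneg (π x)]
      rw [enorm_eq_nnnorm, ← ENNReal.coe_mul]
      exact ENNReal.coe_le_coe.2 h1
    · simp [hφ, (hπ0 x hx).1]
  have b2 : ∫⁻ x, kf x * ‖grad φ x‖ₑ = ∫⁻ x in R, kf x * ‖grad φ x‖ₑ := by
    rw [← lintegral_indicator hR]
    refine lintegral_congr_ae ?_
    filter_upwards [hoff] with x hx
    by_cases hxR : x ∈ R
    · rw [indicator_of_mem hxR]
    · rw [indicator_of_notMem hxR, hx hxR]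
      simp
  have b3 : (∫⁻ x in R, kf x * ‖grad φ x‖ₑ) + ∫⁻ x in R, kf' x * ‖grad φ x‖ₑ ≤
      (∫⁻ x in Γ, (kf x + kf' x) * ‖A x‖ₑ) + D * ∫⁻ x in R \ Γ, (kf x + kf' x) := by
    rw [← lintegral_add_left (show Measurable fun x => kf x * ‖grad φ x‖ₑ from hS.mkf.mul mg),
      ← lintegral_inter_add_sdiff _ R hΓ, inter_eq_right.2 hΓR,
      ← lintegral_const_mul _ (show Measurable fun x => kf x + kf' x from hS.mkf.add hkf')]
    refine add_le_add (le_of_eq (lintegral_congr_ae ?_)) (lintegral_mono fun x => ?_)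
    · filter_upwards [(ae_restrict_iff' hΓ).2 hon] with x hx
      rw [hx, add_mul]
    · rw [← add_mul, mul_comm]
      gcongr
      exact hbde x
  have mF : Measurable fun x => ‖sig n (U x) - S₀ x‖ₑ :=
    ((continuous_sig.measurable.comp hS.mU).sub hS₀).enorm
  have b4 : ‖∫ x in R \ Γ, ⟪sig n (U x) - S₀ x, grad φ x⟫‖ₑ ≤
      D * ∫⁻ x in R \ Γ, ‖sig n (U x) - S₀ x‖ₑ := by
    rw [← lintegral_const_mul _ mF]
    refine (enorm_integral_le_lintegral_enorm _).trans (lintegral_mono fun x => ?_)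
    calc ‖⟪sig n (U x) - S₀ x, grad φ x⟫‖ₑ ≤ ‖sig n (U x) - S₀ x‖ₑ * ‖grad φ x‖ₑ := by
          rw [enorm_eq_nnnorm, enorm_eq_nnnorm, enorm_eq_nnnorm]
          exact_mod_cast nnnorm_inner_le_nnnorm (𝕜 := ℝ) _ _
      _ ≤ ‖sig n (U x) - S₀ x‖ₑ * D := by gcongr; exact hbde x
      _ = _ := mul_comm _ _
  have b5 := hS.eqn φ K hφL (hφs.trans hπs)
  have b6 := hdiv φ K hφL hφs hoff
  rw [b2] at b5
  calc ENNReal.ofReal (∫ x in Γ, ⟪sig n (U x) - S₀ x, A x⟫)
      ≤ ‖∫ x in Γ, ⟪sig n (U x) - S₀ x, A x⟫‖ₑ := Real.ofReal_le_enorm _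
    _ ≤ ‖∫ x, ⟪sig n (U x), grad φ x⟫‖ₑ + ‖∫ x in R, ⟪S₀ x, grad φ x⟫‖ₑ +
          ‖∫ x in R \ Γ, ⟪sig n (U x) - S₀ x, grad φ x⟫‖ₑ := by
        rw [e1]
        exact enorm_sub_le.trans (add_le_add_left enorm_sub_le _)
    _ ≤ ((∫⁻ x, ν x * ‖φ x‖ₑ) + ∫⁻ x in R, kf x * ‖grad φ x‖ₑ) +
          (∫⁻ x in R, kf' x * ‖grad φ x‖ₑ) + D * ∫⁻ x in R \ Γ, ‖sig n (U x) - S₀ x‖ₑ :=
        add_le_add (add_le_add b5 b6) b4
    _ ≤ (((n + 1) * C : ℝ≥0) : ℝ≥0∞) * b * (∫⁻ x in R, ν x) +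
          ((∫⁻ x in Γ, (kf x + kf' x) * ‖A x‖ₑ) + D * ∫⁻ x in R \ Γ, (kf x + kf' x)) +
          D * ∫⁻ x in R \ Γ, ‖sig n (U x) - S₀ x‖ₑ := by
        rw [add_assoc (∫⁻ x, ν x * ‖φ x‖ₑ)]
        exact add_le_add_left (add_le_add b1 b3) _
    _ = _ := by
        simp only [add_assoc]
        rw [lintegral_add_left mF, mul_add D, add_comm (D * ∫⁻ x in R \ Γ, (kf x + kf' x))]

end Pool.Agent.P.MP_28243e_an
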