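import Pool.Agent.P.MP_28243e_an.A2
import Pool.Agent.P.MP_28243e_an.A4
import Pool.Agent.P.MP_28243e_an.A8
import Pool.Agent.P.MP_28243e_an.AP
import Pool.Agent.P.MP_28243e_an.B
import Pool.Agent.P.MP_28243e_an.DP
import Pool.Agent.P.MP_28243e_an.FL
import Pool.Agent.P.MP_28243e_an.G0
import Pool.Agent.P.MP_28243e_an.GA
import Pool.Agent.P.MP_28243e_an.GI
import Pool.Agent.P.MP_28243e_an.GN
import Pool.Agent.P.MP_28243e_an.H1
import Pool.Agent.P.MP_28243e_an.H3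
import Pool.Agent.P.MP_28243e_an.H3L
import Pool.Agent.P.MP_28243e_an.I
import Pool.Agent.P.MP_28243e_an.I1
import Pool.Agent.P.MP_28243e_an.LC
import Pool.Agent.P.MP_28243e_an.M
import Pool.Agent.P.MP_28243e_an.Mdl
import Pool.Agent.P.MP_28243e_an.NY
import Pool.Agent.P.MP_28243e_an.P
import Pool.Agent.P.MP_28243e_an.PP
import Pool.Agent.P.MP_28243e_an.RP
import Pool.Agent.P.MP_28243e_an.RP1
import Pool.Agent.P.MP_28243e_an.RP2
import Pool.Agent.P.MP_28243e_an.RP3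
import Pool.Agent.P.MP_28243e_an.SH
import Pool.Agent.P.MP_28243e_an.SQ
import Pool.Agent.P.MP_28243e_an.STa
import Pool.Agent.P.MP_28243e_an.TL

/-! Assembly of the packages. -/

namespace Pool.Agent.P.MP_28243e_an

open Set MeasureTheory

theorem regular_of (hLE : StLE) (hST : StST) : StH3 := by
  have hA2 := stA2
  have hA4 := stA4 hA2
  have hA5 := stA5 hA2
  have hA8 := stA8 hA2 hA4 hA5 stA7
  have hLT := stLT stTL hA5
  have hFL := stFL hA4 hA5 hA8 stSig stMdl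
  have hRP1 := stRP1 hA2 hA5 hA8 stAP stB stMdl hFL
  have hRP2 := stRP2 hA5 hA8 hLT stSig stMdl hFL hRP1
  have hRP3 := stRP3 hA2 hA8 stMdl hFL
  have hRP := stRP hA8 stW stLC hFL hRP1 hRP2 hRP3
  have hPL := stPL hFL hRP stDP
  have hNY := stNY hFL hPL stSQ (stKC hA5 hA8)
  have hG0 := stG0 hA5 hA8
  have hGI := stGI hA2 hA5 hG0 hLE
  have hGK := stGK hA2 hA5 hA8 hG0
  have hGN := stGN hA5 hG0 hNY (stSH hA2 hA8 hG0 stMdl hFL)
  have hP := stP hA8 hG0 hGI hGK hGN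
  have hWk := stWk hA8 hG0 hGI hGK
  exact stH3 hA5 stB stM (stH2 (stH1 hA8 hST hP hWk stIt))

theorem good_of (h3 : StH3) (n : ℕ) (hn : 3 ≤ n) (p : ℝ) (h1 : 1 ≤ p) (h2 : p ≤ 2) :
    Spec.Good n p := by
  intro m _ Ω hΩ hL u Du hu hs
  obtain ⟨u', Du', Ω', hsol, hf, he⟩ := stL n m hn p h1 h2 Ω u Du hΩ hL hu hs
  obtain ⟨w, hw, hw'⟩ := h3 n m hn u' Du' Ω' hsol hf
  exact ⟨w, hw, hw'.trans he⟩

theorem range_of (h3 : StH3) (n : ℕ) (hn : 3 ≤ n) :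
    {p ∈ Icc (1 : ℝ) n | Spec.Good n p} = Icc 1 2 := by
  ext p
  have h : (3 : ℝ) ≤ n := by exact_mod_cast hn
  constructor
  · rintro ⟨⟨h1, -⟩, hg⟩
    exact ⟨h1, not_lt.1 fun h2 => stI stI1 stI3 n hn p h2 hg⟩
  · rintro ⟨h1, h2⟩
    exact ⟨⟨h1, by linarith⟩, good_of h3 n hn p h1 h2⟩

end Pool.Agent.P.MP_28243e_an
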