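import Pool.Agent.P.MP_28243e_an.Basic

/-! Monotonicity inequalities for the map `sig`. -/

namespace Pool.Agent.P.MP_28243e_an

open Set MeasureTheory Metric Filter Topology ENNReal
open scoped NNReal ContDiff RealInnerProductSpace Classical

namespace Mdl

section
variable {X : Type} [NormedAddCommGroup X] [InnerProductSpace ℝ X]

theorem norm_sig (k : ℕ) (A : X) : ‖sig (k + 3) A‖ = ‖A‖ ^ (k + 3 - 1) := by
  rw [sig, norm_smul, norm_pow, norm_norm]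
  exact (pow_succ _ _).symm

theorem inner_lower (p : ℕ) (A B : X) :
    (2 * 3 ^ p)⁻¹ * ((‖A‖ + ‖B - A‖) ^ p * ‖B - A‖ * ‖B - A‖) ≤
      ⟪‖B‖ ^ p • B - ‖A‖ ^ p • A, B - A⟫ := by
  have hd : ‖B - A‖ ^ 2 = ‖B‖ ^ 2 - 2 * ⟪B, A⟫ + ‖A‖ ^ 2 := norm_sub_sq_real B A
  have e : ⟪‖B‖ ^ p • B - ‖A‖ ^ p • A, B - A⟫ =
      (‖A‖ ^ p + ‖B‖ ^ p) * ‖B - A‖ ^ 2 / 2 + (‖B‖ ^ p - ‖A‖ ^ p) * (‖B‖ ^ 2 - ‖A‖ ^ 2) / 2 := by
    rw [hd, inner_sub_left, inner_smul_left, inner_smul_left, inner_sub_right, inner_sub_right,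
      real_inner_self_eq_norm_sq, real_inner_self_eq_norm_sq, real_inner_comm B A]
    simp only [conj_trivial]
    ring
  have ha := norm_nonneg A
  have hb := norm_nonneg B
  have h1 : 0 ≤ (‖B‖ ^ p - ‖A‖ ^ p) * (‖B‖ ^ 2 - ‖A‖ ^ 2) := by
    rcases le_total ‖A‖ ‖B‖ with h | h
    · exact mul_nonneg (sub_nonneg.2 (pow_le_pow_left₀ ha h p))
        (sub_nonneg.2 (pow_le_pow_left₀ ha h 2))
    · exact mul_nonneg_of_nonpos_of_nonpos (sub_nonpos.2 (pow_le_pow_left₀ hb h p))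
        (sub_nonpos.2 (pow_le_pow_left₀ hb h 2))
  have h2 : (‖A‖ + ‖B - A‖) ^ p ≤ 3 ^ p * (‖A‖ ^ p + ‖B‖ ^ p) := by
    have h3 := norm_sub_le B A
    rcases le_total ‖A‖ ‖B‖ with h | h
    · calc (‖A‖ + ‖B - A‖) ^ p ≤ (3 * ‖B‖) ^ p := by gcongr; linarith
        _ = 3 ^ p * ‖B‖ ^ p := mul_pow _ _ _
        _ ≤ _ := by gcongr; exact le_add_of_nonneg_left (by positivity)
    · calc (‖A‖ + ‖B - A‖) ^ p ≤ (3 * ‖A‖) ^ p := by gcongr; linarith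
        _ = 3 ^ p * ‖A‖ ^ p := mul_pow _ _ _
        _ ≤ _ := by gcongr; exact le_add_of_nonneg_right (by positivity)
  rw [e]
  calc (2 * 3 ^ p)⁻¹ * ((‖A‖ + ‖B - A‖) ^ p * ‖B - A‖ * ‖B - A‖)
      ≤ (2 * 3 ^ p)⁻¹ * (3 ^ p * (‖A‖ ^ p + ‖B‖ ^ p) * ‖B - A‖ * ‖B - A‖) := by gcongr
    _ = (‖A‖ ^ p + ‖B‖ ^ p) * ‖B - A‖ ^ 2 / 2 := by field_simp
    _ ≤ _ := by linarith

theorem norm_upper (k : ℕ) (A B : X) :
    ‖‖B‖ ^ (k + 1) • B - ‖A‖ ^ (k + 1) • A‖ ≤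
      ((k : ℝ) + 2) * ((‖A‖ + ‖B - A‖) ^ (k + 1) * ‖B - A‖) := by
  have e : ‖B‖ ^ (k + 1) • B - ‖A‖ ^ (k + 1) • A =
      ‖B‖ ^ (k + 1) • (B - A) + (‖B‖ ^ (k + 1) - ‖A‖ ^ (k + 1)) • A := by module
  set M := ‖A‖ + ‖B - A‖ with hM
  have hA : ‖A‖ ≤ M := le_add_of_nonneg_right (norm_nonneg _)
  have hB : ‖B‖ ≤ M := by
    have := norm_add_le A (B - A)
    rwa [add_sub_cancel] at this
  have h1 := abs_pow_sub_pow_le ‖B‖ ‖A‖ (k + 1)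
  rw [abs_norm, abs_norm, Nat.add_sub_cancel] at h1
  have h2 : |‖B‖ - ‖A‖| ≤ ‖B - A‖ := abs_norm_sub_norm_le B A
  have h3 : max ‖B‖ ‖A‖ ≤ M := max_le hB hA
  have h4 : 0 ≤ max ‖B‖ ‖A‖ := le_max_of_le_left (norm_nonneg _)
  rw [e]
  refine (norm_add_le _ _).trans ?_
  rw [norm_smul, norm_smul, norm_pow, norm_norm, Real.norm_eq_abs]
  calc ‖B‖ ^ (k + 1) * ‖B - A‖ + |‖B‖ ^ (k + 1) - ‖A‖ ^ (k + 1)| * ‖A‖
      ≤ M ^ (k + 1) * ‖B - A‖ + (‖B - A‖ * ((k + 1 : ℕ) : ℝ) * M ^ k) * M := by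
        gcongr
        exact h1.trans (by gcongr)
    _ = ((k : ℝ) + 2) * (M ^ (k + 1) * ‖B - A‖) := by push_cast; ring

end

theorem isig_facts (k m : ℕ) (ξ : V m) :
    sig (k + 3) (isig (k + 3) ξ) = ξ ∧ ‖isig (k + 3) ξ‖ ^ (k + 3 - 1) = ‖ξ‖ := by
  rcases eq_or_ne ξ 0 with rfl | h
  · simp [sig, isig]
  have hp : 0 < ‖ξ‖ := norm_pos_iff.2 h
  have hk : (0 : ℝ) < k + 2 := by positivity
  have e : (2 - ((k + 3 : ℕ) : ℝ)) / (((k + 3 : ℕ) : ℝ) - 1) = 1 / (k + 2) - 1 := by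
    push_cast
    have : (k : ℝ) + 3 - 1 = k + 2 := by ring
    rw [this]
    field_simp
    ring
  have hn : ‖isig (k + 3) ξ‖ = ‖ξ‖ ^ (1 / ((k : ℝ) + 2)) := by
    rw [isig, e, norm_smul, Real.norm_eq_abs, abs_of_pos (Real.rpow_pos_of_pos hp _),
      Real.rpow_sub hp, Real.rpow_one]
    field_simp
  constructor
  · rw [sig, hn, isig, e, smul_smul, ← Real.rpow_natCast, ← Real.rpow_mul hp.le,
      ← Real.rpow_add hp]
    have : 1 / ((k : ℝ) + 2) * ((k + 3 - 2 : ℕ) : ℝ) + (1 / ((k : ℝ) + 2) - 1) = 0 := by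
      have : k + 3 - 2 = k + 1 := rfl
      rw [this]
      push_cast
      field_simp
      ring
    rw [this, Real.rpow_zero, one_smul]
  · rw [hn, ← Real.rpow_natCast, ← Real.rpow_mul hp.le]
    have : 1 / ((k : ℝ) + 2) * ((k + 3 - 1 : ℕ) : ℝ) = 1 := by
      have : k + 3 - 1 = k + 2 := rfl
      rw [this]
      push_cast
      field_simp
    rw [this, Real.rpow_one]

end Mdl

theorem stSig : StSig := by
  intro n hn
  obtain ⟨k, rfl⟩ : ∃ k, n = k + 3 := ⟨n - 3, by omega⟩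
  refine ⟨(2 * 3 ^ (k + 1))⁻¹, k + 2, by positivity, by positivity, fun X _ _ => ⟨?_, ?_⟩,
    fun m ξ => Mdl.isig_facts k m ξ⟩
  · unfold sig
    fun_prop
  · intro A B
    have h1 := Mdl.inner_lower (k + 1) A B
    refine ⟨Mdl.norm_sig k A, h1, ?_, Mdl.norm_upper k A B⟩
    rcases (norm_nonneg (B - A)).eq_or_lt with h | h
    · rw [← h]; simp
    · have h2 := h1.trans (real_inner_le_norm _ _)
      rw [← mul_assoc] at h2
      exact le_of_mul_le_mul_right h2 h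

end Pool.Agent.P.MP_28243e_an
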