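import Pool.Agent.P.MP_28243e_an.Basic

/-! Dyadic recursion, first file: weights, saturated sets, the summed estimate on source-free
cells and two facts on sequences. -/

namespace Pool.Agent.P.MP_28243e_an.PR

open Set MeasureTheory Metric Filter Topology ENNReal
open scoped NNReal Classical

variable {n : ℕ}

/-- The weight of level `j`. -/
noncomputable def w (n : ℕ) (j : ℤ) : ℝ≥0∞ := ((2 : ℝ≥0∞) ^ j) ^ n

theorem two_zpow_eq (j : ℤ) : (2 : ℝ≥0∞) ^ j = ENNReal.ofReal ((2 : ℝ) ^ j) := by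
  rw [← ENNReal.rpow_intCast, ← Real.rpow_intCast, ← ENNReal.ofReal_rpow_of_pos (by norm_num)]
  simp

theorem w_add (j : ℤ) (i : ℕ) : w n (j + i) = (2 ^ i) ^ n * w n j := by
  unfold w
  rw [ENNReal.zpow_add (by norm_num) (by norm_num), mul_pow, zpow_natCast, mul_comm]

theorem w_add_le (j : ℤ) {i I : ℕ} (h : i ≤ I) : w n (j + i) ≤ (2 ^ I) ^ n * w n j := by
  rw [w_add]
  gcongr
  norm_num

theorem w_ne_top (j : ℤ) : w n j ≠ ⊤ :=
  ENNReal.pow_ne_top (ENNReal.zpow_ne_top (by norm_num) (by norm_num) j)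

theorem w_mul_vol (l k : ℤ) : w n l * ENNReal.ofReal (rho k ^ n) = sz l k ^ n := by
  unfold w sz rho
  rw [ENNReal.ofReal_pow (by positivity), ← two_zpow_eq, ← mul_pow,
    ← ENNReal.zpow_add (by norm_num) (by norm_num), sub_eq_add_neg]

/-- The facts on dyadic cells that are used. -/
structure Cx (C : ℝ≥0) (G : E n → ℝ≥0∞) : Prop where
  vol : ∀ k (z : Fin n → ℤ), volume (cell k z) = ENNReal.ofReal (rho k ^ n)
  near : ∀ k (x : E n), ‖x - ctr k (idx k x)‖ < n * rho k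
  up : ∀ k k' (x y : E n), k' ≤ k → idx k x = idx k y → idx k' x = idx k' y
  mUn : ∀ p : ℤ → (Fin n → ℤ) → Prop, MeasurableSet (Un p)
  OF : ∀ j, Oj G j = Un (Fj G j)
  Omono : ∀ j j', j ≤ j' → Oj G j' ⊆ Oj G j
  Oout : ∀ j, ∀ x ∈ Oj G j, (2 : ℝ≥0∞) ^ j < 4 * mq G x
  Oin : ∀ j x, (2 : ℝ≥0∞) ^ (j + 4) < mq G x → x ∈ Oj G j
  Ovol : ∀ j, w n j * volume (Oj G j) ≤ C
  Osum : ∑' j : ℤ, w n j * volume (Oj G j) ≠ ⊤
  gen : ∀ j j' k k' x, j ≤ j' → Fj G j k (idx k x) → Fj G j' k' (idx k' x) → k ≤ k'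
  size : ∀ j k z, Fj G j k z → rho k ≤ C * rho j
  dec : ∀ (j : ℤ) (p : ℤ → (Fin n → ℤ) → Prop), (∀ k z, p k z → Fj G j k z) →
    ∀ A : Set (E n), MeasurableSet A → volume (A ∩ Un p) =
      ∑' q : ℤ × (Fin n → ℤ), if p q.1 q.2 then volume (A ∩ cell q.1 q.2) else 0

theorem exists_cx (h : StG0) (hn : 3 ≤ n) : ∃ C : ℝ≥0, ∀ G : E n → ℝ≥0∞, Gd G → Cx C G := by
  obtain ⟨h1, h2, C, L, h3⟩ := h n hn
  refine ⟨C, fun G hG => ?_⟩
  obtain ⟨a1, a2, a3, a4, a5⟩ := h3 G hG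
  refine ⟨fun k z => (h1 k z).2.1, fun k x => ((h1 k (idx k x)).2.2.2 x rfl).1, ?_, h2,
    fun j => (a1 j).1, ?_, fun j => (a1 j).2.2.1, fun j => (a1 j).2.2.2.1,
    fun j => (a1 j).2.2.2.2, a2.ne, fun j j' k k' x hj hF hF' => a3 j j' k k' x hj hF hF'.1,
    ?_, a5⟩
  · intro k k' x y hk hxy
    rw [((h1 k (idx k x)).2.2.2 x rfl).2 k' hk, ((h1 k (idx k x)).2.2.2 y hxy.symm).2 k' hk]
  · intro j j' hj
    induction j', hj using Int.leInduction with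
    | base => exact Subset.rfl
    | succ l _ ih => exact (a1 l).2.1.trans ih
  · intro j k z hF
    have h0 := (a4 j k z hF).1
    unfold sz at h0
    rw [two_zpow_eq, ← ENNReal.ofReal_coe_nnreal,
      ENNReal.ofReal_le_ofReal_iff C.coe_nonneg] at h0
    have : rho k = 2 ^ (j - k) * rho j := by
      unfold rho
      rw [← zpow_add₀ (by norm_num)]
      congr 1
      ring
    rw [this]
    exact mul_le_mul_of_nonneg_right h0 (rho_pos j).le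

variable {C : ℝ≥0} {G : E n → ℝ≥0∞}

theorem Cx.mO (h : Cx C G) (j : ℤ) : MeasurableSet (Oj G j) := h.mUn _

/-- Sets that are unions of maximal cells of level `l` inside the level set. -/
def Sat (G : E n → ℝ≥0∞) (l : ℤ) (A : Set (E n)) : Prop :=
  ∀ x y k, x ∈ A → Fj G l k (idx k x) → idx k y = idx k x → y ∈ A

theorem Cx.sat_Un (h : Cx C G) {j l : ℤ} {p : ℤ → (Fin n → ℤ) → Prop}
    (hp : ∀ k z, p k z → Fj G j k z) (hl : j ≤ l) : Sat G l (Un p) := by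
  rintro x y k ⟨k0, hk0⟩ hF hxy
  refine ⟨k0, ?_⟩
  rw [h.up k k0 y x (h.gen j l k0 k x hl (hp _ _ hk0) hF) hxy]
  exact hk0

theorem Sat.inter {l : ℤ} {A B : Set (E n)} (hA : Sat G l A) (hB : Sat G l B) :
    Sat G l (A ∩ B) :=
  fun x y k hx hF hxy => ⟨hA x y k hx.1 hF hxy, hB x y k hx.2 hF hxy⟩

/-- The maximal cells of level `j₀` that meet the ball of radius `r`. -/
def Vs (G : E n → ℝ≥0∞) (j₀ : ℤ) (r : ℝ) : Set (E n) :=
  Un fun k z => Fj G j₀ k z ∧ ∃ y : E n, idx k y = z ∧ ‖y‖ < r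

theorem Cx.sat_Vs (h : Cx C G) {j₀ l : ℤ} (r : ℝ) (hl : j₀ ≤ l) : Sat G l (Vs G j₀ r) :=
  h.sat_Un (fun _ _ hp => hp.1) hl

theorem Cx.mem_Vs (h : Cx C G) {j₀ l : ℤ} {r : ℝ} {x : E n} (hl : j₀ ≤ l)
    (hx : x ∈ ball (0 : E n) r) (hO : x ∈ Oj G l) : x ∈ Vs G j₀ r := by
  have := h.Omono _ _ hl hO
  rw [h.OF] at this
  obtain ⟨k, hk⟩ := this
  exact ⟨k, hk, x, rfl, by simpa using hx⟩

theorem nat_le_pow (n : ℕ) : (8 * n : ℝ) ≤ 2 ^ (n + 12) := by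
  have : (n : ℝ) ≤ 2 ^ n := by exact_mod_cast n.lt_two_pow_self.le
  rw [pow_add]
  have h2 : (0 : ℝ) < 2 ^ n := by positivity
  nlinarith

theorem Cx.ball_Vs (h : Cx C G) {j₀ j k : ℤ} {r₁ r₂ : ℝ} {x : E n}
    (hgap : C * rho j₀ * 2 ^ (n + 13) ≤ r₂ - r₁) (hj : j₀ ≤ j) (hx : x ∈ Vs G j₀ r₁)
    (hF : Fj G j k (idx k x)) :
    ball (ctr k (idx k x)) (2 ^ (n + 12) * rho k) ⊆ ball 0 r₂ := by
  obtain ⟨k0, hF0, y, hy, hyr⟩ := hx
  have hk : rho k ≤ rho k0 := rho_anti (h.gen j₀ j k0 k x hj hF0 hF)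
  have hs := h.size _ _ _ hF0
  have h1 := h.near k x
  have h2 := h.near k0 x
  have h3 := h.near k0 y
  rw [hy] at h3
  have hp := rho_pos k
  have hn := nat_le_pow n
  have hn0 : (0 : ℝ) ≤ n := Nat.cast_nonneg n
  have hP : (0 : ℝ) < 2 ^ (n + 12) := by positivity
  apply ball_subset_ball'
  rw [dist_zero_right]
  have e : ctr k (idx k x) = y - (y - ctr k0 (idx k0 x)) + (x - ctr k0 (idx k0 x)) -
      (x - ctr k (idx k x)) := by abel
  have h4 : ‖ctr k (idx k x)‖ ≤ ‖y‖ + ‖y - ctr k0 (idx k0 x)‖ + ‖x - ctr k0 (idx k0 x)‖ +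
      ‖x - ctr k (idx k x)‖ := by
    conv_lhs => rw [e]
    refine (norm_sub_le _ _).trans (add_le_add_left ((norm_add_le _ _).trans
      (add_le_add_left (norm_sub_le _ _) _)) _)
  have h5 : (n : ℝ) * rho k ≤ n * rho k0 := mul_le_mul_of_nonneg_left hk hn0
  have h6 : (2 : ℝ) ^ (n + 12) * rho k ≤ 2 ^ (n + 12) * rho k0 :=
    mul_le_mul_of_nonneg_left hk hP.le
  have h7 : (8 * n : ℝ) * rho k0 ≤ 2 ^ (n + 12) * rho k0 :=
    mul_le_mul_of_nonneg_right hn (rho_pos k0).le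
  have h8 : (2 : ℝ) ^ (n + 12) * rho k0 ≤ 2 ^ (n + 12) * (C * rho j₀) :=
    mul_le_mul_of_nonneg_left hs hP.le
  have h9 : (0 : ℝ) ≤ n * rho k0 := mul_nonneg hn0 (rho_pos k0).le
  rw [show n + 13 = (n + 12) + 1 by ring, pow_succ] at hgap
  nlinarith

theorem ball_small (k : ℤ) (c : E n) : ball c (8 * n * rho k) ⊆ ball c (2 ^ (n + 12) * rho k) :=
  ball_subset_ball (mul_le_mul_of_nonneg_right (nat_le_pow n) (rho_pos k).le)

/-- The estimate on one source-free cell. -/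
def Gi (G ν k' : E n → ℝ≥0∞) (δ : ℝ) (d C₁ : ℝ≥0) (J : ℕ) : Prop :=
  ∀ (j k : ℤ) (z : Fin n → ℤ), Fj G j k z → ¬ isK G k' δ d j k z → ¬ isN ν d j k z →
    ball (ctr k z) (8 * n * rho k) ⊆ ball 0 (1 / 2) →
    ∑ i ∈ Finset.Ico J (2 * J), w n (j + i) * volume (cell k z ∩ Oj G (j + i)) ≤ C₁ * sz j k ^ n

/-- Mass of the higher levels inside the source-free cells of level `l`. -/
noncomputable def tau (G ν k' : E n → ℝ≥0∞) (δ : ℝ) (d : ℝ≥0) (J : ℕ) (l : ℤ) (A : Set (E n)) :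
    ℝ≥0∞ :=
  ∑ i ∈ Finset.Ico J (2 * J), w n (l + i) * volume (Oj G (l + i) ∩ (Tj G ν k' δ d l ∩ A))

variable {ν k' : E n → ℝ≥0∞} {δ : ℝ} {d C₁ : ℝ≥0} {J : ℕ}

theorem Cx.tau_le (h : Cx C G) (hgi : Gi G ν k' δ d C₁ J) {l : ℤ} {A : Set (E n)}
    (hA : Sat G l A) (hb : ∀ x ∈ A, ∀ k, Fj G l k (idx k x) →
      ball (ctr k (idx k x)) (8 * n * rho k) ⊆ ball 0 (1 / 2)) :
    tau G ν k' δ d J l A ≤ C₁ * (w n l * volume (Tj G ν k' δ d l ∩ A)) := by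
  set p : ℤ → (Fin n → ℤ) → Prop := fun k z =>
    (Fj G l k z ∧ ¬ isK G k' δ d l k z ∧ ¬ isN ν d l k z) ∧ ∃ y ∈ A, idx k y = z with hp
  have hU : Tj G ν k' δ d l ∩ A = Un p := by
    ext x
    constructor
    · rintro ⟨⟨k, hk⟩, hx⟩
      exact ⟨k, hk, x, hx, rfl⟩
    · rintro ⟨k, hk, y, hy, hyx⟩
      exact ⟨⟨k, hk⟩, hA y x k hy (by rw [hyx]; exact hk.1) hyx.symm⟩
  have hpF : ∀ k z, p k z → Fj G l k z := fun _ _ hq => hq.1.1
  unfold tau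
  rw [hU, ← univ_inter (Un p), h.dec l p hpF _ MeasurableSet.univ, univ_inter]
  simp_rw [h.dec l p hpF _ (h.mO _), ← ENNReal.tsum_mul_left]
  rw [← Summable.tsum_finsetSum (fun _ _ => ENNReal.summable)]
  refine ENNReal.tsum_le_tsum fun q => ?_
  by_cases hq : p q.1 q.2
  · simp only [if_pos hq, univ_inter]
    rw [h.vol, w_mul_vol]
    obtain ⟨⟨a, b, c⟩, y, hy, hyz⟩ := hq
    have := hgi l q.1 q.2 a b c (by rw [← hyz]; exact hb y hy _ (by rw [hyz]; exact a))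
    simpa only [inter_comm] using this
  · simp only [if_neg hq]
    simp

theorem tau_le_of_subset {l : ℤ} {A B : Set (E n)} {j : ℤ} {i : ℕ} (hl : l = j + i)
    (hi : i ≤ 2 * J)
    (hB : ∀ i' : ℕ, J ≤ i' → i' < 2 * J → Oj G (l + i') ∩ (Tj G ν k' δ d l ∩ A) ⊆ B) :
    tau G ν k' δ d J l A ≤ J * ((2 ^ (4 * J)) ^ n * (w n j * volume B)) := by
  unfold tau
  refine (Finset.sum_le_card_nsmul _ _ ((2 ^ (4 * J)) ^ n * (w n j * volume B)) ?_).trans ?_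
  · intro i' hi'
    rw [Finset.mem_Ico] at hi'
    rw [← mul_assoc]
    refine mul_le_mul' ?_ (measure_mono (hB i' hi'.1 hi'.2))
    rw [hl, add_assoc, ← Nat.cast_add]
    exact w_add_le j (by omega)
  · rw [Nat.card_Ico, nsmul_eq_mul, show 2 * J - J = J by omega]

theorem tau_union3 {l : ℤ} {A A₁ A₂ A₃ : Set (E n)}
    (hA : Tj G ν k' δ d l ∩ A ⊆ A₁ ∪ A₂ ∪ A₃) :
    tau G ν k' δ d J l A ≤
      tau G ν k' δ d J l A₁ + tau G ν k' δ d J l A₂ + tau G ν k' δ d J l A₃ := by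
  unfold tau
  rw [← Finset.sum_add_distrib, ← Finset.sum_add_distrib]
  refine Finset.sum_le_sum fun i _ => ?_
  rw [← mul_add, ← mul_add]
  gcongr
  refine le_trans (measure_mono ?_) ((measure_union_le _ _).trans
    (add_le_add_left (measure_union_le _ _) _))
  rintro x ⟨hO, hT, hx⟩
  rcases hA ⟨hT, hx⟩ with (h | h) | h
  · exact Or.inl (Or.inl ⟨hO, hT, h⟩)
  · exact Or.inl (Or.inr ⟨hO, hT, h⟩)
  · exact Or.inr ⟨hO, hT, h⟩

/-- Absorption in a sum over shifted windows. -/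
theorem tsum_absorb (τ e : ℕ → ℝ≥0∞) (J : ℕ) (c M : ℝ≥0∞) (hc : c + 1 ≤ J)
    (hrec : ∀ a, ∑ i ∈ Finset.Ico J (2 * J), τ (a + i) ≤ c * τ a + e a)
    (hfin : ∑' a, τ a ≠ ⊤) (hM : ∀ a, τ a ≤ M) :
    ∑' a, τ a ≤ J * (2 * J * M) + ∑' a, e a := by
  have h1 : ∀ i ∈ Finset.Ico J (2 * J), ∑' a, τ a ≤ 2 * J * M + ∑' a, τ (a + i) := by
    intro i hi
    rw [Finset.mem_Ico] at hi
    rw [← ENNReal.summable.sum_add_tsum_nat_add' (k := i) (f := τ)]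
    gcongr
    refine (Finset.sum_le_card_nsmul _ _ M fun a _ => hM a).trans ?_
    rw [Finset.card_range, nsmul_eq_mul]
    gcongr
    exact_mod_cast hi.2.le
  have h2 := Finset.sum_le_sum h1
  rw [Finset.sum_const, Finset.sum_add_distrib, Finset.sum_const, Nat.card_Ico, nsmul_eq_mul,
    nsmul_eq_mul, show 2 * J - J = J by omega,
    ← Summable.tsum_finsetSum (fun _ _ => ENNReal.summable)] at h2
  have h3 : ∑' a, ∑ i ∈ Finset.Ico J (2 * J), τ (a + i) ≤ c * ∑' a, τ a + ∑' a, e a := by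
    rw [← ENNReal.tsum_mul_left, ← ENNReal.tsum_add]
    exact ENNReal.tsum_le_tsum hrec
  have hct : c ≠ ⊤ := ne_top_of_le_ne_top (ENNReal.natCast_ne_top J) (le_self_add.trans hc)
  have h4 : c * ∑' a, τ a + ∑' a, τ a ≤ c * ∑' a, τ a + (J * (2 * J * M) + ∑' a, e a) := by
    calc c * ∑' a, τ a + ∑' a, τ a = (c + 1) * ∑' a, τ a := by ring
      _ ≤ J * ∑' a, τ a := by gcongr
      _ ≤ J * (2 * J * M) + (c * ∑' a, τ a + ∑' a, e a) := h2.trans (by gcongr)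
      _ = _ := by ring
  exact (ENNReal.add_le_add_iff_left (ENNReal.mul_ne_top hct hfin)).1 h4

/-- Contraction along a chain of windows. -/
theorem chain_decay (ξ : ℤ → ℝ≥0∞) (j₀ : ℤ) (J : ℕ) (c M e : ℝ≥0∞) (hJ : 1 ≤ J)
    (hc : 2 * c ≤ J)
    (hrec : ∀ j, j₀ ≤ j → ∑ i ∈ Finset.Ico J (2 * J), ξ (j + i) ≤ c * ξ j + e)
    (hM : ξ j₀ ≤ M) (s : ℕ) (l : ℤ) (hl : j₀ + 2 * J * s ≤ l) :
    ∃ (j : ℤ) (i : ℕ), l = j + i ∧ i ≤ 2 * J ∧ ξ j ≤ M * 2⁻¹ ^ s + 2 * e := by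
  have step : ∀ (s : ℕ) (j : ℤ), j₀ ≤ j → ξ j ≤ M * 2⁻¹ ^ s + 2 * e →
      ∃ i : ℕ, J ≤ i ∧ i < 2 * J ∧ ξ (j + i) ≤ M * 2⁻¹ ^ (s + 1) + 2 * e := by
    intro s j hj hx
    obtain ⟨i, hi, hmin⟩ := Finset.exists_min_image (Finset.Ico J (2 * J))
      (fun i : ℕ => ξ (j + i)) ⟨J, by rw [Finset.mem_Ico]; omega⟩
    have h1 := (Finset.card_nsmul_le_sum _ _ _ hmin).trans (hrec j hj)
    rw [Nat.card_Ico, nsmul_eq_mul, show 2 * J - J = J by omega] at h1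
    rw [Finset.mem_Ico] at hi
    refine ⟨i, hi.1, hi.2, ?_⟩
    have hJ0 : (J : ℝ≥0∞) ≠ 0 := by exact_mod_cast (by omega : J ≠ 0)
    have hJ1 : (1 : ℝ≥0∞) ≤ J := by exact_mod_cast hJ
    have h2 : c ≤ J * 2⁻¹ := by
      calc c = 2 * c * 2⁻¹ := by
            rw [mul_comm 2 c, mul_assoc, ENNReal.mul_inv_cancel (by norm_num) (by norm_num),
              mul_one]
        _ ≤ _ := by gcongr
    rw [← ENNReal.mul_le_mul_iff_right hJ0 (ENNReal.natCast_ne_top J)]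
    refine h1.trans ?_
    have h3 : (2 : ℝ≥0∞)⁻¹ * 2 = 1 := ENNReal.inv_mul_cancel (by norm_num) (by norm_num)
    calc c * ξ j + e ≤ J * 2⁻¹ * (M * 2⁻¹ ^ s + 2 * e) + J * e := by
          gcongr
          exact le_mul_of_one_le_left' hJ1
      _ = J * (M * 2⁻¹ ^ (s + 1) + (2⁻¹ * 2) * e + e) := by ring
      _ = _ := by rw [h3]; ring
  have hA : ∀ s : ℕ, ∃ j, j₀ ≤ j ∧ j ≤ j₀ + 2 * J * s ∧ ξ j ≤ M * 2⁻¹ ^ s + 2 * e := by
    intro s
    induction s with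
    | zero => exact ⟨j₀, le_rfl, by simp, by simpa using hM.trans le_self_add⟩
    | succ s ih =>
      obtain ⟨j, h1, h2, h3⟩ := ih
      obtain ⟨i, a1, a2, a3⟩ := step s j h1 h3
      refine ⟨j + i, by omega, ?_, a3⟩
      push_cast
      have : (i : ℤ) ≤ 2 * J := by exact_mod_cast a2.le
      linarith
  obtain ⟨j₁, b1, b2, b3⟩ := hA s
  have hB : ∀ l, j₁ ≤ l → ∃ j, j₀ ≤ j ∧ j ≤ l ∧ l < j + 2 * J ∧ ξ j ≤ M * 2⁻¹ ^ s + 2 * e := by
    intro l hl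
    induction l, hl using Int.leInduction with
    | base => exact ⟨j₁, b1, le_rfl, by omega, b3⟩
    | succ l _ ih =>
      obtain ⟨j, c1, c2, c3, c4⟩ := ih
      by_cases hlt : l + 1 < j + 2 * J
      · exact ⟨j, c1, by omega, hlt, c4⟩
      · obtain ⟨i, a1, a2, a3⟩ := step s j c1 c4
        refine ⟨j + i, by omega, by omega, by omega, a3.trans ?_⟩
        exact add_le_add_left (mul_le_mul_right
          (pow_le_pow_right_of_le_one' (by norm_num) (Nat.le_succ s)) _) _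
  obtain ⟨j, _, c2, c3, c4⟩ := hB l (b2.trans hl)
  exact ⟨j, (l - j).toNat, by omega, by omega, c4⟩

end Pool.Agent.P.MP_28243e_an.PR
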