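import Pool.Agent.P.MP_28243e_an.Basic

/-! Paraproduct, first half: estimates for the mollified pieces. -/

namespace Pool.Agent.P.MP_28243e_an

open Set MeasureTheory Metric Filter Topology ENNReal
open scoped NNReal ContDiff RealInnerProductSpace Classical

namespace PP

variable {n : ℕ}

/-- Mean value inequality with an extended bound. -/
theorem mvt {g : E n → ℝ} (hg : Differentiable ℝ g) {s : Set (E n)} (hs : Convex ℝ s)
    {B : ℝ≥0∞} (hB : ∀ w ∈ s, ‖fderiv ℝ g w‖ₑ ≤ B) {x y : E n} (hx : x ∈ s) (hy : y ∈ s) :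
    ‖g x - g y‖ₑ ≤ B * ‖x - y‖ₑ := by
  by_cases hxy : x = y
  · simp [hxy]
  by_cases hT : B = ⊤
  · rw [hT, ENNReal.top_mul (by simpa [sub_eq_zero] using hxy)]
    exact le_top
  lift B to ℝ≥0 using hT
  have h := hs.norm_image_sub_le_of_norm_fderiv_le (𝕜 := ℝ) (C := B) (fun w _ => hg w)
    (fun w hw => by
      have := hB w hw
      rw [enorm_eq_nnnorm, ENNReal.coe_le_coe] at this
      exact this) hy hx
  rw [enorm_eq_nnnorm, enorm_eq_nnnorm, ← ENNReal.coe_mul, ENNReal.coe_le_coe]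
  exact h

theorem ofReal_two_pow : ENNReal.ofReal ((2 : ℝ) ^ n) = 2 ^ n := by
  rw [ENNReal.ofReal_pow (by norm_num)]; simp

theorem av_two (f : E n → ℝ≥0∞) (x : E n) {t : ℝ} (ht : 0 < t) :
    av f x t ≤ 2 ^ n * av f x (2 * t) := by
  have := av_le_av f (x := x) (x' := x) (r' := 2 * t) (K := 2) ht
    (ball_subset_ball (by linarith)) le_rfl
  rwa [ofReal_two_pow] at this

theorem first_le_pot (f : E n → ℝ≥0∞) (t : ℝ) (x : E n) :
    ENNReal.ofReal t * av f x t ≤ pot f t x := by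
  have := ENNReal.le_tsum (f := fun j : ℕ => ENNReal.ofReal (t / 2 ^ j) * av f x (t / 2 ^ j)) 0
  simpa [pot] using this

/-- The estimates for the mollifications of a `C^1` function. -/
def Pack (n : ℕ) (A : ℝ≥0) : Prop := ∀ g : E n → ℝ, ContDiff ℝ 1 g → ∀ t : ℝ, 0 < t →
  ContDiff ℝ ∞ (mol t g) ∧
  (∀ x, ‖mol t g x‖ₑ ≤ A * av (fun y => ‖g y‖ₑ) x t) ∧
  (∀ x, ‖fderiv ℝ (mol t g) x‖ₑ ≤ A * av (fun y => ‖g y‖ₑ) x t / ENNReal.ofReal t) ∧
  ∀ (R : ℝ) (Z : E n → ℝ≥0∞), Measurable Z → (∀ y ∈ ball (0 : E n) R, ‖fderiv ℝ g y‖ₑ ≤ Z y) →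
    ∀ x, closedBall x (2 * t) ⊆ ball 0 R →
      ‖fderiv ℝ (mol t g) x‖ₑ ≤ A * av Z x (2 * t) ∧
      ‖mol (t / 2) g x - mol t g x‖ₑ ≤ A * (ENNReal.ofReal t * av Z x (2 * t)) ∧
      ‖g x - mol t g x‖ₑ ≤ A * pot Z (2 * t) x

theorem pack (hB : StB) (hM : StM) (hn : 3 ≤ n) : ∃ A : ℝ≥0, 1 ≤ A ∧ Pack n A := by
  obtain ⟨CB, hB⟩ := hB n hn
  obtain ⟨CM, hM⟩ := hM n hn
  refine ⟨1 + CM * 2 ^ n + (CM * 2 ^ n * CB + CM * CB) + (CB * 2 ^ (n + 1) + CM * CB), ?_, ?_⟩
  · have : (0 : ℝ≥0) ≤ CM * 2 ^ n + (CM * 2 ^ n * CB + CM * CB) + (CB * 2 ^ (n + 1) + CM * CB) :=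
      zero_le
    calc (1 : ℝ≥0) ≤ 1 + (CM * 2 ^ n + (CM * 2 ^ n * CB + CM * CB) + (CB * 2 ^ (n + 1) + CM * CB)) :=
          le_self_add
      _ = _ := by ring
  intro g hg t ht
  set A : ℝ≥0 := 1 + CM * 2 ^ n + (CM * 2 ^ n * CB + CM * CB) + (CB * 2 ^ (n + 1) + CM * CB)
    with hA
  have h2 : (1 : ℝ≥0) ≤ 2 ^ n := one_le_pow₀ (by norm_num)
  have hA1 : (CM : ℝ≥0∞) * 2 ^ n ≤ A := by
    have : CM * 2 ^ n ≤ A := by
      rw [hA]; exact le_add_right (le_add_right le_add_self)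
    exact_mod_cast this
  have hA0 : (CM : ℝ≥0∞) ≤ A := by
    refine le_trans ?_ hA1
    exact le_mul_of_one_le_right' (by exact_mod_cast h2)
  have hA2 : (CM : ℝ≥0∞) * 2 ^ n * CB + CM * CB ≤ A := by
    have : CM * 2 ^ n * CB + CM * CB ≤ A := by
      rw [hA]; exact le_add_right le_add_self
    exact_mod_cast this
  have hA3 : (CB : ℝ≥0∞) * 2 ^ (n + 1) + CM * CB ≤ A := by
    have : CB * 2 ^ (n + 1) + CM * CB ≤ A := by
      rw [hA]; exact le_add_self
    exact_mod_cast this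
  obtain ⟨h1, h2', -⟩ := hM g
  have h1 := (h1 hg.continuous.locallyIntegrable).1
  have h2' := h2' (Or.inl hg)
  refine ⟨(h1 t ht).1, fun x => ?_, fun x => ?_, fun R Z hZ hgZ x hx => ?_⟩
  · have := ((h1 t ht).2 x).1 0
    simp only [sub_zero] at this
    exact this.trans (by gcongr)
  · exact ((h1 t ht).2 x).2.trans (by gcongr)
  have hB' := hB ℝ g (ball 0 R) Z isOpen_ball hg.contDiffOn hZ (Eventually.of_forall hgZ)
  have hsub : ball x t ⊆ ball 0 R :=
    (ball_subset_closedBall.trans (closedBall_subset_closedBall (by linarith))).trans hx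
  have hb3 := hB'.2.2.1 x t ht hx
  have hm1 : ‖mol t g x - bav g x t‖ₑ ≤ CM * CB * (ENNReal.ofReal t * av Z x (2 * t)) := by
    refine (((h1 t ht).2 x).1 _).trans ?_
    calc (CM : ℝ≥0∞) * av (fun y => ‖g y - bav g x t‖ₑ) x t
        ≤ CM * (CB * ENNReal.ofReal t * av Z x (2 * t)) := by gcongr
      _ = _ := by ring
  refine ⟨?_, ?_, ?_⟩
  · refine (h2' t ht x).2.trans ?_
    calc (CM : ℝ≥0∞) * av (fun y => ‖fderiv ℝ g y‖ₑ) x t ≤ CM * av Z x t := by
          gcongr; exact av_mono fun y hy => hgZ y (hsub hy)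
      _ ≤ CM * (2 ^ n * av Z x (2 * t)) := by gcongr; exact av_two Z x ht
      _ = CM * 2 ^ n * av Z x (2 * t) := by ring
      _ ≤ _ := by gcongr
  · have hm2 : ‖mol (t / 2) g x - bav g x t‖ₑ ≤
        CM * 2 ^ n * CB * (ENNReal.ofReal t * av Z x (2 * t)) := by
      refine (((h1 (t / 2) (by linarith)).2 x).1 _).trans ?_
      have h3 := av_two (fun y => ‖g y - bav g x t‖ₑ) x (t := t / 2) (by linarith)
      rw [show 2 * (t / 2) = t by ring] at h3
      calc (CM : ℝ≥0∞) * av (fun y => ‖g y - bav g x t‖ₑ) x (t / 2)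
          ≤ CM * (2 ^ n * (CB * ENNReal.ofReal t * av Z x (2 * t))) := by
            gcongr; exact h3.trans (by gcongr)
        _ = _ := by ring
    calc ‖mol (t / 2) g x - mol t g x‖ₑ
        = ‖(mol (t / 2) g x - bav g x t) - (mol t g x - bav g x t)‖ₑ := by congr 1; ring
      _ ≤ ‖mol (t / 2) g x - bav g x t‖ₑ + ‖mol t g x - bav g x t‖ₑ := enorm_sub_le
      _ ≤ (CM * 2 ^ n * CB + CM * CB) * (ENNReal.ofReal t * av Z x (2 * t)) := by
          rw [add_mul]; exact add_le_add hm2 hm1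
      _ ≤ _ := by gcongr
  · have hb1 := hB'.1 x t ht ((closedBall_subset_closedBall (by linarith)).trans hx)
    have hp1 : pot Z t x ≤ 2 ^ (n + 1) * pot Z (2 * t) x := pot_le_pot' Z ht (by linarith) x
    have hp2 : ENNReal.ofReal t * av Z x (2 * t) ≤ pot Z (2 * t) x := by
      refine le_trans ?_ (first_le_pot Z (2 * t) x)
      gcongr; linarith
    calc ‖g x - mol t g x‖ₑ = ‖(g x - bav g x t) - (mol t g x - bav g x t)‖ₑ := by congr 1; ring
      _ ≤ ‖g x - bav g x t‖ₑ + ‖mol t g x - bav g x t‖ₑ := enorm_sub_le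
      _ ≤ CB * (2 ^ (n + 1) * pot Z (2 * t) x) + CM * CB * pot Z (2 * t) x := by
          refine add_le_add (hb1.trans (by gcongr)) (hm1.trans (by gcongr))
      _ = (CB * 2 ^ (n + 1) + CM * CB) * pot Z (2 * t) x := by ring
      _ ≤ _ := by gcongr

/-- The radii of the paraproduct. -/
noncomputable def rd (j : ℕ) : ℝ := rho (j + 4)

theorem rd_pos (j : ℕ) : 0 < rd j := rho_pos _

theorem rd_succ (j : ℕ) : rd (j + 1) = rd j / 2 := by
  unfold rd
  rw [← rho_succ]; congr 1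

theorem rd_zero : rd 0 = 1 / 16 := by
  unfold rd rho; norm_num

theorem rd_add (j i : ℕ) : rd (j + i) = rd j / 2 ^ i := by
  induction i with
  | zero => simp
  | succ i ih => rw [← add_assoc, rd_succ, ih]; ring

theorem rd_anti {i j : ℕ} (h : i ≤ j) : rd j ≤ rd i := rho_anti (by omega)

theorem rd_le (j : ℕ) : rd j ≤ 1 / 16 := rd_zero ▸ rd_anti (Nat.zero_le j)

theorem cb_sub {x : E n} (hx : x ∈ ball (0 : E n) (3 / 4)) (j : ℕ) :
    closedBall x (2 * rd j) ⊆ ball 0 (7 / 8) := by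
  intro y hy
  rw [mem_ball_zero_iff] at hx ⊢
  rw [mem_closedBall, dist_eq_norm] at hy
  have h1 := rd_le j
  have : ‖y‖ ≤ ‖y - x‖ + ‖x‖ := by simpa using norm_add_le (y - x) x
  linarith

/-- The regularisations of `f`. -/
noncomputable def Fq (f : E n → ℝ) (M j : ℕ) : E n → ℝ := if j < M then mol (rd j) f else f

/-- The estimates for the regularisations of `f`. -/
structure FOk (A : ℝ≥0) (G : E n → ℝ≥0∞) (M : ℕ) (F : ℕ → E n → ℝ) : Prop where
  sm : ∀ j, ContDiff ℝ ∞ (F j)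
  der : ∀ j ≤ M, ∀ x ∈ ball (0 : E n) (3 / 4), ‖fderiv ℝ (F j) x‖ₑ ≤ A * av G x (4 * rd j)
  dif : ∀ j < M, ∀ x ∈ ball (0 : E n) (3 / 4),
    ‖F (j + 1) x - F j x‖ₑ ≤ A * (ENNReal.ofReal (rd j) * av G x (4 * rd j))

theorem fok {A : ℝ≥0} (hA1 : 1 ≤ A) (hA : Pack n A) (Cf : ℝ≥0) {G : E n → ℝ≥0∞}
    (hG : Measurable G) {M : ℕ} {f : E n → ℝ} (hf : ContDiff ℝ ∞ f)
    (hfG : ∀ z ∈ ball (0 : E n) (7 / 8), ‖fderiv ℝ f z‖ₑ ≤ Cf * av G z (rd M)) :
    FOk (A * (4 * 8 ^ n * Cf)) G M (Fq f M) := by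
  have hf1 : ContDiff ℝ 1 f := hf.of_le (by exact_mod_cast le_top)
  have hZ : Measurable fun z => (Cf : ℝ≥0∞) * av G z (rd M) := (measurable_av hG _).const_mul _
  have h28 : (2 : ℝ≥0∞) ^ n ≤ 4 * 8 ^ n :=
    le_trans (by gcongr; norm_num) (le_mul_of_one_le_left' (by norm_num))
  have hav : ∀ j ≤ M, ∀ x : E n, av (fun z => (Cf : ℝ≥0∞) * av G z (rd M)) x (2 * rd j) ≤
      4 * 8 ^ n * Cf * av G x (4 * rd j) := by
    intro j hj x
    rw [av_const_mul (measurable_av hG _)]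
    have h1 := av_av hG x (rd_pos M) (t := 2 * rd j) (by linarith [rd_anti hj, rd_pos j])
    rw [show 2 * (2 * rd j) = 4 * rd j by ring] at h1
    calc (Cf : ℝ≥0∞) * av (fun z => av G z (rd M)) x (2 * rd j)
        ≤ Cf * (4 * 8 ^ n * av G x (4 * rd j)) := by gcongr; exact h1.trans (by gcongr)
      _ = _ := by ring
  have h8 : ENNReal.ofReal ((8 : ℝ) ^ n) = 8 ^ n := by
    rw [ENNReal.ofReal_pow (by norm_num)]; simp
  refine ⟨fun j => ?_, fun j hj x hx => ?_, fun j hj x hx => ?_⟩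
  · unfold Fq; split_ifs
    · exact (hA f hf1 _ (rd_pos j)).1
    · exact hf
  · unfold Fq; split_ifs with h
    · refine ((hA f hf1 _ (rd_pos j)).2.2.2 _ _ hZ hfG x (cb_sub hx j)).1.trans ?_
      push_cast
      rw [mul_assoc]
      gcongr
      exact hav j hj x
    · have hjM : j = M := by omega
      subst hjM
      refine (hfG x (ball_subset_ball (by norm_num) hx)).trans ?_
      have h1 := av_le_av G (x := x) (x' := x) (r' := 4 * rd j) (K := 8) (rd_pos j)
        (ball_subset_ball (by linarith [rd_pos j])) (by linarith [rd_pos j])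
      rw [h8] at h1
      push_cast
      calc (Cf : ℝ≥0∞) * av G x (rd j) ≤ Cf * (8 ^ n * av G x (4 * rd j)) := by gcongr
        _ = 1 * (1 * 8 ^ n * Cf) * av G x (4 * rd j) := by ring
        _ ≤ _ := by gcongr; exacts [by exact_mod_cast hA1, by norm_num]
  · have hP := (hA f hf1 _ (rd_pos j)).2.2.2 _ _ hZ hfG x (cb_sub hx j)
    unfold Fq
    rw [if_pos hj]
    split_ifs with h
    · rw [rd_succ]
      refine hP.2.1.trans ?_
      push_cast
      calc (A : ℝ≥0∞) * (ENNReal.ofReal (rd j) *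
            av (fun z => (Cf : ℝ≥0∞) * av G z (rd M)) x (2 * rd j))
          ≤ A * (ENNReal.ofReal (rd j) * (4 * 8 ^ n * Cf * av G x (4 * rd j))) := by
            gcongr; exact hav j hj.le x
        _ = _ := by ring
    · have hjM : M = j + 1 := by omega
      refine hP.2.2.trans ?_
      have hp := rd_pos j
      have h1 := pot_le_mx (fun z => (Cf : ℝ≥0∞) * av G z (rd M)) (t := 2 * rd j) (by linarith)
        (O := ball x (2 * rd j)) (x := x) subset_rfl
      have h2 : mx ((ball x (2 * rd j)).indicator fun z => (Cf : ℝ≥0∞) * av G z (rd M)) x ≤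
          Cf * (8 ^ n * av G x (4 * rd j)) := by
        refine mx_le_const (Eventually.of_forall fun y => ?_) x
        refine indicator_apply_le' (fun hy => ?_) (fun _ => zero_le)
        gcongr
        rw [← h8]
        refine av_le_av G (rd_pos M) ?_ (by rw [hjM, rd_succ]; linarith)
        rw [hjM, rd_succ]
        intro w hw
        rw [mem_ball] at hw hy ⊢
        linarith [dist_triangle w y x]
      push_cast
      calc (A : ℝ≥0∞) * pot (fun z => (Cf : ℝ≥0∞) * av G z (rd M)) (2 * rd j) x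
          ≤ A * (2 * ENNReal.ofReal (2 * rd j) * (Cf * (8 ^ n * av G x (4 * rd j)))) := by
            gcongr; exact h1.trans (by gcongr)
        _ = _ := by
            rw [ENNReal.ofReal_mul (by norm_num)]; simp only [ENNReal.ofReal_ofNat]; ring

end PP

end Pool.Agent.P.MP_28243e_an
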