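import Pool.Agent.P.MP_28243e_an.PPa

/-! Paraproduct, second half: the gradient identity and the size of the gradient. -/

namespace Pool.Agent.P.MP_28243e_an

open Set MeasureTheory Metric Filter Topology ENNReal
open scoped NNReal ContDiff RealInnerProductSpace Classical

namespace PP

variable {n : ℕ}

/-- The paraproduct with `m` blocks. -/
noncomputable def vv (P F : ℕ → E n → ℝ) (m : ℕ) (x : E n) : ℝ :=
  P 0 x * (F 0 x - F 0 0) + ∑ j ∈ Finset.range m, P j x * (F (j + 1) x - F j x)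

theorem vv_smooth {P F : ℕ → E n → ℝ} (hP : ∀ j, ContDiff ℝ ∞ (P j)) (hF : ∀ j, ContDiff ℝ ∞ (F j))
    (m : ℕ) : ContDiff ℝ ∞ (vv P F m) := by
  unfold vv
  exact ((hP 0).mul ((hF 0).sub contDiff_const)).add
    (ContDiff.sum fun j _ => (hP j).mul ((hF (j + 1)).sub (hF j)))

theorem dif_of {g : E n → ℝ} (hg : ContDiff ℝ ∞ g) : Differentiable ℝ g :=
  hg.differentiable (by simp)

theorem fderiv_blk {p a b : E n → ℝ} (hp : Differentiable ℝ p) (ha : Differentiable ℝ a)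
    (hb : Differentiable ℝ b) (x : E n) :
    fderiv ℝ (fun y => p y * (a y - b y)) x =
      p x • (fderiv ℝ a x - fderiv ℝ b x) + (a x - b x) • fderiv ℝ p x :=
  ((hp x).hasFDerivAt.mul ((ha x).hasFDerivAt.sub (hb x).hasFDerivAt)).fderiv

theorem fderiv_vv {P F : ℕ → E n → ℝ} (hP : ∀ j, ContDiff ℝ ∞ (P j))
    (hF : ∀ j, ContDiff ℝ ∞ (F j)) (m : ℕ) (x : E n) :
    fderiv ℝ (vv P F m) x = fderiv ℝ (fun y => P 0 y * (F 0 y - F 0 0)) x +
      ∑ j ∈ Finset.range m, fderiv ℝ (fun y => P j y * (F (j + 1) y - F j y)) x := by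
  have h1 : DifferentiableAt ℝ (fun y => P 0 y * (F 0 y - F 0 0)) x :=
    dif_of ((hP 0).mul ((hF 0).sub contDiff_const)) x
  have h2 : ∀ j ∈ Finset.range m, DifferentiableAt ℝ (fun y => P j y * (F (j + 1) y - F j y)) x :=
    fun j _ => dif_of ((hP j).mul ((hF (j + 1)).sub (hF j))) x
  exact (h1.hasFDerivAt.add (HasFDerivAt.fun_sum fun j hj => (h2 j hj).hasFDerivAt)).fderiv

theorem abel_vv {P F : ℕ → E n → ℝ} (hP : ∀ j, ContDiff ℝ ∞ (P j))
    (hF : ∀ j, ContDiff ℝ ∞ (F j)) (m : ℕ) (x : E n) :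
    P m x • fderiv ℝ (F m) x - fderiv ℝ (vv P F m) x =
      -((F 0 x - F 0 0) • fderiv ℝ (P 0) x) + ∑ j ∈ Finset.range m,
        ((P (j + 1) x - P j x) • fderiv ℝ (F (j + 1)) x -
          (F (j + 1) x - F j x) • fderiv ℝ (P j) x) := by
  rw [fderiv_vv hP hF, fderiv_blk (dif_of (hP 0)) (dif_of (hF 0)) (differentiable_const _)]
  simp only [fderiv_blk (dif_of (hP _)) (dif_of (hF _)) (dif_of (hF _)), fderiv_fun_const,
    Pi.zero_apply, sub_zero]
  induction m with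
  | zero => simp
  | succ m ih =>
    rw [Finset.sum_range_succ, Finset.sum_range_succ]
    linear_combination (norm := module) ih

theorem en_add {X : Type} [NormedAddCommGroup X] (a b : X) : ‖a + b‖ₑ ≤ ‖a‖ₑ + ‖b‖ₑ :=
  enorm_add_le a b

theorem en_sum {X : Type} [NormedAddCommGroup X] (s : Finset ℕ) (a : ℕ → X) :
    ‖∑ i ∈ s, a i‖ₑ ≤ ∑ i ∈ s, ‖a i‖ₑ :=
  enorm_sum_le s a

theorem av_le_div {G : E n → ℝ≥0∞} {CA : ℝ≥0}
    (hA : ∀ (x : E n) (r : ℝ), 0 < r → ENNReal.ofReal r * av G x r ≤ CA) (x : E n) {r : ℝ}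
    (hr : 0 < r) : av G x (4 * r) ≤ CA / ENNReal.ofReal r := by
  rw [ENNReal.le_div_iff_mul_le (Or.inl (by simpa using hr)) (Or.inl ENNReal.ofReal_ne_top),
    mul_comm]
  refine le_trans ?_ (hA x (4 * r) (by linarith))
  gcongr; linarith

theorem cb_sub' {x : E n} (hx : x ∈ ball (0 : E n) (3 / 4)) (j : ℕ) :
    closedBall x (2 * rd j) ⊆ ball 0 1 := (cb_sub hx j).trans (ball_subset_ball (by norm_num))

theorem ofReal_rd_zero : ENNReal.ofReal (rd 0) = 16⁻¹ := by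
  rw [rd_zero, one_div, ENNReal.ofReal_inv_of_pos (by norm_num)]; simp

/-- Item (i). -/
theorem item1 {A B CA : ℝ≥0} (hA : Pack n A) {G : E n → ℝ≥0∞} {M : ℕ} {F : ℕ → E n → ℝ}
    (hF : FOk B G M F) (hC : ∀ (x : E n) (r : ℝ), 0 < r → ENNReal.ofReal r * av G x r ≤ CA)
    {ψ : E n → ℝ} (hψ : ContDiff ℝ 1 ψ) {z : E n → ℝ≥0∞} (hz : Measurable z)
    (hψz : ∀ y ∈ ball (0 : E n) 1, ‖fderiv ℝ ψ y‖ₑ ≤ z y) {x : E n}
    (hx : x ∈ ball (0 : E n) (3 / 4)) :
    ‖ψ x • fderiv ℝ (F M) x - fderiv ℝ (vv (fun j => mol (rd j) ψ) F M) x‖ₑ ≤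
      (A * B * (2 + 2 ^ n + 16 * 2 ^ n * CA) : ℝ≥0) *
        (T0 G z x + (av z x (1 / 4) + pot z (4 * rd M) x / ENNReal.ofReal (rd M))) := by
  set P : ℕ → E n → ℝ := fun j => mol (rd j) ψ with hPdef
  have hP : ∀ j, ContDiff ℝ ∞ (P j) := fun j => (hA ψ hψ _ (rd_pos j)).1
  have hPz := fun j => (hA ψ hψ _ (rd_pos j)).2.2.2 1 z hz hψz x (cb_sub' hx j)
  set τ : ℕ → ℝ≥0∞ := fun j => ENNReal.ofReal (rd j) * av z x (4 * rd j) * av G x (4 * rd j)
    with hτ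
  have hT : T0 G z x = ∑' j, τ j := rfl
  have hz2 : ∀ j, av z x (2 * rd j) ≤ 2 ^ n * av z x (4 * rd j) := fun j => by
    have := av_two z x (t := 2 * rd j) (by linarith [rd_pos j])
    rwa [show 2 * (2 * rd j) = 4 * rd j by ring] at this
  have e0 : ψ x • fderiv ℝ (F M) x - fderiv ℝ (vv P F M) x =
      (ψ x - P M x) • fderiv ℝ (F M) x + (P M x • fderiv ℝ (F M) x - fderiv ℝ (vv P F M) x) := by
    module
  -- the last term
  have h1 : ‖(ψ x - P M x) • fderiv ℝ (F M) x‖ₑ ≤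
      A * B * (2 * 2 ^ n * CA) * (pot z (4 * rd M) x / ENNReal.ofReal (rd M)) := by
    rw [enorm_smul]
    have hp : pot z (2 * rd M) x ≤ 2 ^ (n + 1) * pot z (4 * rd M) x :=
      pot_le_pot' z (by linarith [rd_pos M]) (by linarith [rd_pos M]) x
    calc ‖ψ x - P M x‖ₑ * ‖fderiv ℝ (F M) x‖ₑ
        ≤ A * (2 ^ (n + 1) * pot z (4 * rd M) x) * (B * (CA / ENNReal.ofReal (rd M))) := by
          gcongr
          · exact (hPz M).2.2.trans (by gcongr)
          · exact (hF.der M le_rfl x hx).trans (by gcongr; exact av_le_div hC x (rd_pos M))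
      _ = _ := by simp only [div_eq_mul_inv]; ring
  -- the first term
  have h2 : ‖-((F 0 x - F 0 0) • fderiv ℝ (P 0) x)‖ₑ ≤
      A * B * (16 * 2 ^ n * CA) * av z x (1 / 4) := by
    rw [enorm_neg, enorm_smul]
    have hm : ‖F 0 x - F 0 0‖ₑ ≤ B * (CA * 16) * ‖x - 0‖ₑ := by
      refine mvt (dif_of (hF.sm 0)) (convex_ball (0 : E n) (3 / 4)) (fun w hw => ?_) hx
        (mem_ball_self (by norm_num))
      refine (hF.der 0 (Nat.zero_le M) w hw).trans ?_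
      gcongr
      refine (av_le_div hC w (rd_pos 0)).trans ?_
      rw [ofReal_rd_zero, div_eq_mul_inv, inv_inv]
    have hx1 : ‖x - 0‖ₑ ≤ 1 := by
      rw [sub_zero, ← ofReal_norm, ← ENNReal.ofReal_one]
      exact ENNReal.ofReal_le_ofReal (by linarith [mem_ball_zero_iff.1 hx])
    have h4 : 4 * rd 0 = 1 / 4 := by rw [rd_zero]; norm_num
    calc ‖F 0 x - F 0 0‖ₑ * ‖fderiv ℝ (P 0) x‖ₑ
        ≤ B * (CA * 16) * 1 * (A * (2 ^ n * av z x (1 / 4))) := by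
          gcongr
          · exact hm.trans (by gcongr)
          · exact (hPz 0).1.trans (by gcongr; exact h4 ▸ hz2 0)
      _ = _ := by ring
  -- the blocks
  have h3 : ∀ j ∈ Finset.range M, ‖(P (j + 1) x - P j x) • fderiv ℝ (F (j + 1)) x -
      (F (j + 1) x - F j x) • fderiv ℝ (P j) x‖ₑ ≤
        A * B * 2 * τ (j + 1) + A * B * 2 ^ n * τ j := by
    intro j hj
    rw [Finset.mem_range] at hj
    refine enorm_sub_le.trans (add_le_add ?_ ?_)
    · rw [enorm_smul]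
      have e1 : rd j = 2 * rd (j + 1) := by rw [rd_succ]; ring
      have h5 := (hPz j).2.1
      rw [← rd_succ] at h5
      calc ‖P (j + 1) x - P j x‖ₑ * ‖fderiv ℝ (F (j + 1)) x‖ₑ
          ≤ A * (ENNReal.ofReal (rd j) * av z x (2 * rd j)) * (B * av G x (4 * rd (j + 1))) :=
            mul_le_mul' h5 (hF.der (j + 1) hj x hx)
        _ = _ := by
            rw [hτ]
            simp only
            rw [show 2 * rd j = 4 * rd (j + 1) by rw [e1]; ring]
            conv_lhs => rw [e1, ENNReal.ofReal_mul (by norm_num)]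
            simp only [ENNReal.ofReal_ofNat]
            ring
    · rw [enorm_smul]
      calc ‖F (j + 1) x - F j x‖ₑ * ‖fderiv ℝ (P j) x‖ₑ
          ≤ B * (ENNReal.ofReal (rd j) * av G x (4 * rd j)) * (A * (2 ^ n * av z x (4 * rd j))) :=
            mul_le_mul' (hF.dif j hj x hx) ((hPz j).1.trans (by gcongr; exact hz2 j))
        _ = _ := by rw [hτ]; ring
  have h4 : ∑ j ∈ Finset.range M, τ (j + 1) ≤ T0 G z x := by
    rw [hT]
    refine le_trans ?_ (ENNReal.sum_le_tsum (Finset.range (M + 1)))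
    rw [Finset.sum_range_succ']
    exact le_self_add
  have h5 : ∑ j ∈ Finset.range M, τ j ≤ T0 G z x := hT ▸ ENNReal.sum_le_tsum _
  have h6 : ‖∑ j ∈ Finset.range M, ((P (j + 1) x - P j x) • fderiv ℝ (F (j + 1)) x -
      (F (j + 1) x - F j x) • fderiv ℝ (P j) x)‖ₑ ≤ A * B * (2 + 2 ^ n) * T0 G z x := by
    refine (en_sum _ _).trans ((Finset.sum_le_sum h3).trans ?_)
    rw [Finset.sum_add_distrib, ← Finset.mul_sum, ← Finset.mul_sum]
    calc _ ≤ A * B * 2 * T0 G z x + A * B * 2 ^ n * T0 G z x := by gcongr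
      _ = _ := by ring
  rw [e0, abel_vv hP hF.sm]
  refine (en_add _ _).trans ((add_le_add h1 ((en_add _ _).trans
    (add_le_add h2 h6))).trans ?_)
  push_cast
  have k1 : (2 * 2 ^ n * CA : ℝ≥0∞) ≤ 2 + 2 ^ n + 16 * 2 ^ n * CA :=
    le_add_left (by gcongr; norm_num)
  have k2 : (16 * 2 ^ n * CA : ℝ≥0∞) ≤ 2 + 2 ^ n + 16 * 2 ^ n * CA := le_add_self
  have k3 : (2 + 2 ^ n : ℝ≥0∞) ≤ 2 + 2 ^ n + 16 * 2 ^ n * CA := le_self_add
  generalize (2 + 2 ^ n + 16 * 2 ^ n * CA : ℝ≥0∞) = D at k1 k2 k3 ⊢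
  calc _ ≤ A * B * D * (pot z (4 * rd M) x / ENNReal.ofReal (rd M)) +
        (A * B * D * av z x (1 / 4) + A * B * D * T0 G z x) := by gcongr
    _ = _ := by ring

theorem mol_zero {A : ℝ≥0} (hA : Pack n A) {ψ : E n → ℝ} (hψ : ContDiff ℝ 1 ψ)
    (hs : tsupport ψ ⊆ ball 0 (1 / 2)) (j : ℕ) {x : E n} (hx : 9 / 16 ≤ ‖x‖) :
    mol (rd j) ψ x = 0 := by
  have h1 := (hA ψ hψ _ (rd_pos j)).2.1 x
  have h2 : av (fun y => ‖ψ y‖ₑ) x (rd j) ≤ 0 := by
    refine av_le_const (Eventually.of_forall fun y hy => ?_)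
    have : y ∉ tsupport ψ := fun h => by
      have h3 := mem_ball_zero_iff.1 (hs h)
      rw [mem_ball, dist_eq_norm] at hy
      have h4 : ‖x‖ ≤ ‖y - x‖ + ‖y‖ := by
        simpa [norm_sub_rev y x] using norm_add_le (x - y) y
      linarith [rd_le j]
    simp [image_eq_zero_of_notMem_tsupport this]
  rw [nonpos_iff_eq_zero.1 h2, mul_zero] at h1
  simpa using h1

theorem blk_bound {A : ℝ≥0} (hA : Pack n A) (j : ℕ) {g : E n → ℝ} (hg : ContDiff ℝ ∞ g) :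
    ∃ K : ℝ, 0 ≤ K ∧ ∀ ψ : E n → ℝ, ContDiff ℝ 1 ψ → tsupport ψ ⊆ ball 0 (1 / 2) →
      ∀ x ∈ ball (0 : E n) (3 / 4),
        ‖fderiv ℝ (fun y => mol (rd j) ψ y * g y) x‖ ≤ K * ∫ y, |ψ y| := by
  obtain ⟨K1, hK1⟩ := (isCompact_closedBall (0 : E n) (3 / 4)).exists_bound_of_continuousOn
    hg.continuous.continuousOn
  obtain ⟨K2, hK2⟩ := (isCompact_closedBall (0 : E n) (3 / 4)).exists_bound_of_continuousOn
    (hg.continuous_fderiv (by simp)).continuousOn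
  have h0 : (0 : E n) ∈ closedBall (0 : E n) (3 / 4) := mem_closedBall_self (by norm_num)
  have hK10 : 0 ≤ K1 := (norm_nonneg _).trans (hK1 0 h0)
  have hK20 : 0 ≤ K2 := (norm_nonneg _).trans (hK2 0 h0)
  have hr := rd_pos j
  have hv : 0 < vb n * rd j ^ n := mul_pos vb_pos (pow_pos hr n)
  refine ⟨A / (vb n * rd j ^ n) * K2 + K1 * (A / (vb n * rd j ^ n) / rd j), by positivity,
    fun ψ hψ hs x hx => ?_⟩
  have hc : HasCompactSupport ψ :=
    (isCompact_closedBall (0 : E n) (1 / 2)).of_isClosed_subset (isClosed_tsupport ψ)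
      (hs.trans ball_subset_closedBall)
  have hi : Integrable ψ volume := hψ.continuous.integrable_of_hasCompactSupport hc
  have hI : 0 ≤ ∫ y, |ψ y| := integral_nonneg fun y => abs_nonneg _
  have hav : (A : ℝ≥0∞) * av (fun y => ‖ψ y‖ₑ) x (rd j) ≤
      ENNReal.ofReal (A / (vb n * rd j ^ n) * ∫ y, |ψ y|) := by
    have e1 : (A : ℝ) / (vb n * rd j ^ n) * ∫ y, |ψ y| = A * ((∫ y, |ψ y|) / (vb n * rd j ^ n)) := by
      ring
    rw [e1, ENNReal.ofReal_mul A.coe_nonneg, ENNReal.ofReal_coe_nnreal,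
      ENNReal.ofReal_div_of_pos hv, av, vol_ball x hr]
    gcongr
    have := ofReal_integral_norm_eq_lintegral_enorm hi
    simp only [Real.norm_eq_abs] at this
    rw [this]
    exact setLIntegral_le_lintegral _ _
  have h1 : ‖mol (rd j) ψ x‖ ≤ A / (vb n * rd j ^ n) * ∫ y, |ψ y| := by
    have := ((hA ψ hψ _ hr).2.1 x).trans hav
    rwa [← ofReal_norm, ENNReal.ofReal_le_ofReal_iff (by positivity)] at this
  have h2 : ‖fderiv ℝ (mol (rd j) ψ) x‖ ≤ (A / (vb n * rd j ^ n) * ∫ y, |ψ y|) / rd j := by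
    have := ((hA ψ hψ _ hr).2.2.1 x).trans (ENNReal.div_le_div_right hav _)
    rwa [← ofReal_norm, ← ENNReal.ofReal_div_of_pos hr,
      ENNReal.ofReal_le_ofReal_iff (by positivity)] at this
  have hd := ((dif_of (hA ψ hψ _ hr).1 x).hasFDerivAt.mul (dif_of hg x).hasFDerivAt).fderiv
  have hx' := ball_subset_closedBall hx
  calc ‖fderiv ℝ (fun y => mol (rd j) ψ y * g y) x‖
      = ‖mol (rd j) ψ x • fderiv ℝ g x + g x • fderiv ℝ (mol (rd j) ψ) x‖ := congrArg norm hd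
    _ ≤ ‖mol (rd j) ψ x‖ * ‖fderiv ℝ g x‖ + ‖g x‖ * ‖fderiv ℝ (mol (rd j) ψ) x‖ := by
        refine (norm_add_le _ _).trans ?_
        rw [norm_smul, norm_smul]
    _ ≤ (A / (vb n * rd j ^ n) * ∫ y, |ψ y|) * K2 +
          K1 * ((A / (vb n * rd j ^ n) * ∫ y, |ψ y|) / rd j) := by
        gcongr
        exacts [hK2 x hx', hK1 x hx']
    _ = _ := by ring

/-- Item (ii). -/
theorem item2 {A : ℝ≥0} (hA : Pack n A) (M : ℕ) {F : ℕ → E n → ℝ}
    (hF : ∀ j, ContDiff ℝ ∞ (F j)) :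
    ∃ K : ℝ, 0 ≤ K ∧ ∀ ψ : E n → ℝ, ContDiff ℝ 1 ψ → tsupport ψ ⊆ ball 0 (1 / 2) →
      (∀ x ∉ ball (0 : E n) (3 / 4), fderiv ℝ (vv (fun j => mol (rd j) ψ) F M) x = 0) ∧
      ∀ x, ‖fderiv ℝ (vv (fun j => mol (rd j) ψ) F M) x‖ ≤ K * ∫ y, |ψ y| := by
  obtain ⟨K0, hK0, h0⟩ := blk_bound hA 0 ((hF 0).sub (contDiff_const (c := F 0 0)))
  choose K hK h using fun j => blk_bound hA j ((hF (j + 1)).sub (hF j))
  have hS : 0 ≤ ∑ j ∈ Finset.range M, K j := Finset.sum_nonneg fun j _ => hK j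
  refine ⟨K0 + ∑ j ∈ Finset.range M, K j, by positivity, fun ψ hψ hs => ?_⟩
  have hz : ∀ x ∉ ball (0 : E n) (3 / 4), fderiv ℝ (vv (fun j => mol (rd j) ψ) F M) x = 0 := by
    intro x hx
    rw [mem_ball_zero_iff, not_lt] at hx
    have ho : IsOpen {y : E n | 9 / 16 < ‖y‖} := isOpen_lt continuous_const continuous_norm
    have he : vv (fun j => mol (rd j) ψ) F M =ᶠ[𝓝 x] fun _ => 0 := by
      filter_upwards [ho.mem_nhds (show 9 / 16 < ‖x‖ by linarith)] with y hy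
      simp [vv, mol_zero hA hψ hs _ (le_of_lt hy)]
    rw [he.fderiv_eq]; simp
  refine ⟨hz, fun x => ?_⟩
  have hI : 0 ≤ ∫ y, |ψ y| := integral_nonneg fun y => abs_nonneg _
  by_cases hx : x ∈ ball (0 : E n) (3 / 4)
  · rw [fderiv_vv (fun j => (hA ψ hψ _ (rd_pos j)).1) hF, add_mul, Finset.sum_mul]
    refine (norm_add_le _ _).trans (add_le_add (h0 ψ hψ hs x hx) ?_)
    exact (norm_sum_le _ _).trans (Finset.sum_le_sum fun j _ => h j ψ hψ hs x hx)
  · rw [hz x hx, norm_zero]; positivity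

end PP

end Pool.Agent.P.MP_28243e_an
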