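import Pool.Agent.P.MP_28243e_an.Basic

/-! Structure of the glued test functions `xp`: algebraic form and Poincare type bounds. -/

namespace Pool.Agent.P.MP_28243e_an

open Set MeasureTheory Metric Filter Topology ENNReal
open scoped NNReal ContDiff RealInnerProductSpace Classical

namespace RP1

variable {n m : ℕ}

lemma enorm_le_iff {F : Type*} [SeminormedAddCommGroup F] (a : F) {r : ℝ} (hr : 0 ≤ r) :
    ‖a‖ₑ ≤ ENNReal.ofReal r ↔ ‖a‖ ≤ r := by
  rw [← ofReal_norm, ENNReal.ofReal_le_ofReal_iff hr]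

lemma log_sub_le {a b s : ℝ} (hs : 0 < s) (ha : s ≤ a) (hb : s ≤ b) :
    Real.log a - Real.log b ≤ |a - b| / s := by
  have ha0 : 0 < a := hs.trans_le ha
  have hb0 : 0 < b := hs.trans_le hb
  rw [← Real.log_div ha0.ne' hb0.ne']
  refine (Real.log_le_sub_one_of_pos (div_pos ha0 hb0)).trans ?_
  rw [div_sub_one hb0.ne']
  calc (a - b) / b ≤ |a - b| / b := div_le_div_of_nonneg_right (le_abs_self _) hb0.le
    _ ≤ |a - b| / s := div_le_div_of_nonneg_left (abs_nonneg _) hs hb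

lemma abs_log_sub {a b s : ℝ} (hs : 0 < s) (ha : s ≤ a) (hb : s ≤ b) :
    |Real.log a - Real.log b| ≤ |a - b| / s := by
  rw [abs_le]
  refine ⟨?_, log_sub_le hs ha hb⟩
  have := log_sub_le hs hb ha
  rw [abs_sub_comm] at this
  linarith

lemma lg_lip {y x x' : E n} {s : ℝ} (hs : 0 < s) (ha : s ≤ ‖x - y‖) (hb : s ≤ ‖x' - y‖) :
    |Real.log ‖x - y‖ - Real.log ‖x' - y‖| ≤ ‖x - x'‖ / s := by
  refine (abs_log_sub hs ha hb).trans (div_le_div_of_nonneg_right ?_ hs.le)
  have := abs_norm_sub_norm_le (x - y) (x' - y)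
  rwa [sub_sub_sub_cancel_right] at this

lemma lg_contOn (y : E n) : ContinuousOn (fun z : E n => Real.log ‖z - y‖) {y}ᶜ :=
  ContinuousOn.log (continuous_id.sub continuous_const).norm.continuousOn
    (fun _ hz => norm_ne_zero_iff.mpr (sub_ne_zero.mpr hz))

lemma integrableOn_ball {F : Type*} [NormedAddCommGroup F] {f : E n → F} {p : E n} {t : ℝ}
    (hf : ContinuousOn f (closedBall p t)) : IntegrableOn f (ball p t) :=
  (hf.integrableOn_compact (isCompact_closedBall p t)).mono_set ball_subset_closedBall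

lemma bav_sub_smul {v : E n → V m} {g : E n → ℝ} {p : E n} {t : ℝ}
    (hv : IntegrableOn v (ball p t)) (hg : IntegrableOn g (ball p t)) (F : V m) :
    bav (fun z => v z - g z • F) p t = bav v p t - bav g p t • F := by
  unfold bav
  rw [setAverage_eq, setAverage_eq, setAverage_eq, integral_sub hv (hg.smul_const F),
    integral_smul_const, smul_sub, smul_assoc]

lemma norm_sub_bav_le {F : Type} [NormedAddCommGroup F] [NormedSpace ℝ F] [CompleteSpace F]
    {f : E n → F} {p : E n} {t : ℝ} (ht : 0 < t) (hf : IntegrableOn f (ball p t)) (c : F) :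
    ‖c - bav f p t‖ₑ ≤ av (fun z => ‖c - f z‖ₑ) p t := by
  have h0 : volume (ball p t) ≠ 0 := vol_ball_pos p ht
  have h1 : volume (ball p t) ≠ ⊤ := vol_ball_ne_top p t
  have hr : 0 < (volume : Measure (E n)).real (ball p t) := ENNReal.toReal_pos h0 h1
  have hc : IntegrableOn (fun _ : E n => c) (ball p t) := integrableOn_const h1
  have e : c - bav f p t =
      ((volume : Measure (E n)).real (ball p t))⁻¹ • ∫ z in ball p t, (c - f z) := by
    unfold bav
    rw [setAverage_eq, integral_sub hc hf, smul_sub, setIntegral_const, smul_smul,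
      inv_mul_cancel₀ hr.ne', one_smul]
  rw [e, enorm_smul]
  unfold av
  rw [ENNReal.div_eq_inv_mul]
  refine mul_le_mul' (le_of_eq ?_) (enorm_integral_le_lintegral_enorm _)
  rw [Real.enorm_eq_ofReal (inv_nonneg.mpr hr.le), ENNReal.ofReal_inv_of_pos hr, Measure.real,
    ENNReal.ofReal_toReal h1]

/-- `v` minus the logarithmic model -/
noncomputable def zk (U : E n → Mt m n) (v : E n → V m) (y : E n) (k : ℤ) (z : E n) : V m :=
  v z - Real.log ‖z - y‖ • Ft U y k

/-- averages of `zk` -/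
noncomputable def Ak (U : E n → Mt m n) (v : E n → V m) (y e : E n) (k l : ℤ) : V m :=
  bav (zk U v y k) (y + rho l • e) (rho l / 32)

/-- averages of the logarithm -/
noncomputable def Lk (y e : E n) (l : ℤ) : ℝ :=
  bav (fun z => Real.log ‖z - y‖) (y + rho l • e) (rho l / 32)

/-- difference of two models -/
noncomputable def Dk (U : E n → Mt m n) (v : E n → V m) (y e : E n) (k l : ℤ) (x : E n) : V m :=
  (Real.log ‖x - y‖ - Lk y e l) • (Ft U y l - Ft U y k) + (Ak U v y e k l - Ak U v y e k k)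

lemma norm_pt {y e : E n} (he : ‖e‖ = 1) (l : ℤ) : ‖y + rho l • e - y‖ = rho l := by
  rw [add_sub_cancel_left, norm_smul, he, mul_one, Real.norm_of_nonneg (rho_pos l).le]

lemma mem_small {y e z : E n} (he : ‖e‖ = 1) {l : ℤ}
    (hz : z ∈ closedBall (y + rho l • e) (rho l / 32)) :
    31 / 32 * rho l ≤ ‖z - y‖ ∧ ‖z - y‖ ≤ 33 / 32 * rho l := by
  have h1 := abs_norm_sub_norm_le (z - y) (y + rho l • e - y)
  rw [sub_sub_sub_cancel_right, norm_pt he, abs_le] at h1
  rw [mem_closedBall, dist_eq_norm] at hz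
  constructor <;> linarith [h1.1, h1.2]

lemma lg_int {y e : E n} (he : ‖e‖ = 1) (l : ℤ) :
    IntegrableOn (fun z : E n => Real.log ‖z - y‖) (ball (y + rho l • e) (rho l / 32)) := by
  refine integrableOn_ball ((lg_contOn y).mono fun z hz hy => ?_)
  have h1 := (mem_small he hz).1
  rw [mem_singleton_iff.mp hy, sub_self, norm_zero] at h1
  linarith [rho_pos l]

lemma Ak_eq {U : E n → Mt m n} {v : E n → V m} (hv : Continuous v) {y e : E n} (he : ‖e‖ = 1)
    (k l : ℤ) :
    Ak U v y e k l = bav v (y + rho l • e) (rho l / 32) - Lk y e l • Ft U y k :=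
  bav_sub_smul (integrableOn_ball hv.continuousOn) (lg_int he l) _

lemma hm_self (U : E n → Mt m n) (v : E n → V m) (y e : E n) (k : ℤ) (x : E n) :
    hm U v y e k x = Real.log ‖x - y‖ • Ft U y k + Ak U v y e k k := rfl

lemma hm_sub {U : E n → Mt m n} {v : E n → V m} (hv : Continuous v) {y e : E n} (he : ‖e‖ = 1)
    (k l : ℤ) (x : E n) : hm U v y e l x - hm U v y e k x = Dk U v y e k l x := by
  rw [hm_self, hm_self, Dk, Ak_eq hv he l l, Ak_eq hv he k l]
  module

lemma xp_eq {U : E n → Mt m n} {v : E n → V m} (hv : Continuous v) {y e : E n} (he : ‖e‖ = 1)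
    (k : ℤ) (x : E n) :
    xp U v y e k x = zk U v y k x - Ak U v y e k k -
      (1 - chi y (k - 1) x) • Dk U v y e k (k - 1) x - chi y k x • Dk U v y e k (k + 1) x := by
  rw [← hm_sub hv he, ← hm_sub hv he, xp, zk, hm_self U v y e k]
  module

lemma sub_hm {U : E n → Mt m n} {v : E n → V m} (hv : Continuous v) {y e : E n} (he : ‖e‖ = 1)
    (l : ℤ) (x : E n) :
    v x - hm U v y e l x = (v x - bav v (y + rho l • e) (rho l / 32)) -
      (Real.log ‖x - y‖ - Lk y e l) • Ft U y l := by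
  rw [hm_self, Ak_eq hv he]
  module

/-- the three neighbouring scales -/
lemma rho_near {k l : ℤ} (h1 : k - 1 ≤ l) (h2 : l ≤ k + 1) :
    rho k / 2 ≤ rho l ∧ rho l ≤ 2 * rho k :=
  ⟨rho_succ k ▸ rho_anti h2, rho_pred k ▸ rho_anti h1⟩

lemma abs_lg_sub_Lk {y e x : E n} (he : ‖e‖ = 1) {k l : ℤ} (h1 : k - 1 ≤ l) (h2 : l ≤ k + 1)
    (hx1 : rho k / 2 ≤ ‖x - y‖) (hx2 : ‖x - y‖ ≤ 2 * rho k) :
    |Real.log ‖x - y‖ - Lk y e l| ≤ 16 := by
  have hk := rho_pos k
  obtain ⟨h3, h4⟩ := rho_near h1 h2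
  have h5 := norm_sub_bav_le (F := ℝ) (div_pos (rho_pos l) (by norm_num : (0 : ℝ) < 32))
    (lg_int (y := y) he l) (Real.log ‖x - y‖)
  rw [← Real.norm_eq_abs, ← enorm_le_iff _ (by norm_num)]
  refine h5.trans (av_le_const (Eventually.of_forall fun z hz => ?_))
  obtain ⟨h6, h7⟩ := mem_small he (ball_subset_closedBall hz)
  rw [enorm_le_iff _ (by norm_num), Real.norm_eq_abs]
  refine (abs_log_sub (s := rho k / 4) (by linarith) (by linarith) (by linarith)).trans ?_
  rw [div_le_iff₀ (by linarith), abs_le]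
  constructor <;> linarith

lemma isOpen_On (y : E n) (k : ℤ) : IsOpen (On y k) := isOpen_ball.sdiff isClosed_closedBall

lemma mem_On {y x : E n} {k : ℤ} :
    x ∈ On y k ↔ rho k / 4 < ‖x - y‖ ∧ ‖x - y‖ < 4 * rho k := by
  unfold On
  rw [Set.mem_sdiff, mem_ball, mem_closedBall, dist_eq_norm, not_le, and_comm]

lemma mem_Zn {y x : E n} {k : ℤ} :
    x ∈ Zn y k ↔ rho k / 2 ≤ ‖x - y‖ ∧ ‖x - y‖ < rho k := by
  unfold Zn
  rw [Set.mem_sdiff, mem_ball, mem_ball, dist_eq_norm, not_lt, and_comm, rho_succ]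

lemma rho_two (k : ℤ) : rho (k - 2) = 4 * rho k := by
  rw [show k - 2 = k - 1 - 1 by ring, rho_pred, rho_pred]; ring

lemma closedBall_sub_On {y x : E n} {k : ℤ} {t : ℝ} (ht : t ≤ rho k / 8)
    (hx1 : rho k / 2 ≤ ‖x - y‖) (hx2 : ‖x - y‖ ≤ 2 * rho k) : closedBall x t ⊆ On y k := by
  intro z hz
  have h1 := abs_norm_sub_norm_le (z - y) (x - y)
  rw [sub_sub_sub_cancel_right, abs_le] at h1
  rw [mem_closedBall, dist_eq_norm] at hz
  have hk := rho_pos k
  rw [mem_On]
  constructor <;> linarith [h1.1, h1.2]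

lemma ne_of_On {y x : E n} {k : ℤ} (hx : x ∈ On y k) : x ≠ y := by
  rintro rfl
  have := (mem_On.mp hx).1
  rw [sub_self, norm_zero] at this
  linarith [rho_pos k]

/-- an integral over the annulus is bounded by the maximal function -/
lemma lint_On_le (Z : E n → ℝ≥0∞) {y x : E n} {k : ℤ} (hx2 : ‖x - y‖ ≤ 2 * rho k) :
    ENNReal.ofReal (rho k / rho k ^ n) * ∫⁻ z in On y k, Z z ≤
      ENNReal.ofReal (vb n * 6 ^ n) * ENNReal.ofReal (rho k) * mx ((On y k).indicator Z) x := by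
  have hk := rho_pos k
  have h6 : 0 < 6 * rho k := by linarith
  have hsub : On y k ⊆ ball x (6 * rho k) := by
    intro z hz
    have h1 := (mem_On.mp hz).2
    have h2 := norm_sub_le_norm_sub_add_norm_sub z y x
    rw [norm_sub_rev y x] at h2
    rw [mem_ball, dist_eq_norm]
    linarith
  have h1 : ∫⁻ z in On y k, Z z = ∫⁻ z in ball x (6 * rho k), (On y k).indicator Z z := by
    rw [lintegral_indicator (isOpen_On y k).measurableSet,
      Measure.restrict_restrict (isOpen_On y k).measurableSet, inter_eq_left.mpr hsub]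
  rw [h1, lint_ball_eq _ _ h6, vol_ball _ h6, ← mul_assoc]
  refine mul_le_mul' (le_of_eq ?_) (av_le_mx _ _ h6)
  rw [← ENNReal.ofReal_mul (by positivity), ← ENNReal.ofReal_mul (by have := @vb_pos n; positivity)]
  congr 1
  rw [mul_pow]
  field_simp

/-- the control function for `zk` -/
noncomputable def Mk (U : E n → Mt m n) (h : E n → ℝ≥0∞) (y : E n) (k : ℤ) : E n → ℝ≥0∞ :=
  mx ((On y k).indicator fun z => dev U y k z + h z)

lemma measurable_dev (hM : StMdl) (hn : 3 ≤ n) {U : E n → Mt m n} (hU : Measurable U) (y : E n)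
    (k : ℤ) : Measurable (dev U y k) :=
  (hU.sub ((hM n hn).2.2 m (Ft U y k) y).2.1).enorm

lemma lg_diff (hM : StMdl) (hn : 3 ≤ n) {y x : E n} (hx : x ≠ y) :
    DifferentiableAt ℝ (fun z : E n => Real.log ‖z - y‖) x :=
  (((hM n hn).2.2 0 0 y).2.2.2.1.differentiableOn one_ne_zero).differentiableAt
    (isOpen_compl_singleton.mem_nhds hx)

lemma grad_zk (hM : StMdl) (hn : 3 ≤ n) (U : E n → Mt m n) {v : E n → V m} (hv : ContDiff ℝ 1 v)
    {y x : E n} (k : ℤ) (hx : x ≠ y) : grad (zk U v y k) x = grad v x - mdl (Ft U y k) y x := by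
  rw [← ((hM n hn).2.2 m (Ft U y k) y).2.2.2.2.1 x hx]
  exact grad_sub (hv.differentiable one_ne_zero x) ((lg_diff hM hn hx).smul_const _)

lemma Mk_le (hM : StMdl) (hn : 3 ≤ n) {U : E n → Mt m n} (hU : Measurable U) (h : E n → ℝ≥0∞)
    (y : E n) (k : ℤ) (x : E n) :
    Mk U h y k x ≤ mx ((On y k).indicator (dev U y k)) x + mx h x := by
  refine le_trans (mx_mono (g := fun z => (On y k).indicator (dev U y k) z + h z)
    (Eventually.of_forall fun z => ?_) x)
    (mx_add ((measurable_dev hM hn hU y k).indicator (isOpen_On y k).measurableSet) h x)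
  by_cases hz : z ∈ On y k
  · simp [indicator_of_mem hz]
  · simp [indicator_of_notMem hz]

/-- Poincare type bounds for `zk` -/
lemma exists_core (hB : StB) (hM : StMdl) (hn : 3 ≤ n) : ∃ C : ℝ≥0, ∀ (Co : ℝ≥0)
    (U : E n → Mt m n) (v : E n → V m) (G ν k' kf h : E n → ℝ≥0∞), Str Co U v G ν k' kf h →
    ∀ (y e : E n) (k : ℤ), ‖e‖ = 1 → ball y (rho (k - 2)) ⊆ ball 0 (1 / 2) →
    ∀ x, rho k / 2 ≤ ‖x - y‖ → ‖x - y‖ ≤ 2 * rho k →
      ‖zk U v y k x - Ak U v y e k k‖ₑ ≤ C * ENNReal.ofReal (rho k) * Mk U h y k x ∧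
      (∀ l, k - 1 ≤ l → l ≤ k + 1 →
        ‖Ak U v y e k l - Ak U v y e k k‖ₑ ≤ C * ENNReal.ofReal (rho k) * Mk U h y k x) ∧
      ∀ x', rho k / 2 ≤ ‖x' - y‖ → ‖x' - y‖ ≤ 2 * rho k →
        ‖zk U v y k x - zk U v y k x'‖ₑ ≤ C * ‖x - x'‖ₑ * (Mk U h y k x + Mk U h y k x') := by
  obtain ⟨C, hC⟩ := hB n hn
  refine ⟨16 * C + C * (vb n * 6 ^ n).toNNReal, ?_⟩
  intro Co U v G ν k' kf h hS y e k he hb
  have hk := rho_pos k
  have hcd : ContDiffOn ℝ 1 (zk U v y k) (On y k) :=
    hS.cv.contDiffOn.sub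
      ((((hM n hn).2.2 0 0 y).2.2.2.1.mono fun z hz => ne_of_On hz).smul contDiffOn_const)
  have hfd : ∀ᵐ z, z ∈ On y k → ‖fderiv ℝ (zk U v y k) z‖ₑ ≤ dev U y k z + h z := by
    filter_upwards [hS.err] with z hz hzO
    have h1 : z ∈ ball (0 : E n) (1 / 2) := by
      refine hb ?_
      rw [rho_two, mem_ball, dist_eq_norm]
      exact (mem_On.mp hzO).2
    have h2 : ‖fderiv ℝ (zk U v y k) z‖ₑ ≤ ‖grad (zk U v y k) z‖ₑ :=
      enorm_le_iff_norm_le.mpr (norm_fderiv_le_grad _ _)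
    refine h2.trans ?_
    rw [grad_zk hM hn U hS.cv k (ne_of_On hzO),
      show grad v z - mdl (Ft U y k) y z = (U z - mdl (Ft U y k) y z) - (U z - grad v z) by abel]
    exact enorm_sub_le.trans (add_le_add le_rfl (hz h1))
  obtain ⟨-, -, -, h4, h5⟩ := hC (V m) (zk U v y k) (On y k) (fun z => dev U y k z + h z)
    (isOpen_On y k) hcd ((measurable_dev hM hn hS.mU y k).add hS.mh) hfd
  have h5' := h5 y (rho k) hk rfl
  have hCle : (C : ℝ≥0∞) ≤ ((16 * C + C * (vb n * 6 ^ n).toNNReal : ℝ≥0) : ℝ≥0∞) := by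
    rw [ENNReal.coe_le_coe]
    refine le_trans ?_ le_self_add
    exact le_mul_of_one_le_left zero_le (by norm_num)
  have hsup : ∀ x, rho k / 2 ≤ ‖x - y‖ → ‖x - y‖ ≤ 2 * rho k →
      ‖zk U v y k x - Ak U v y e k k‖ₑ ≤ C * ENNReal.ofReal (rho k) * Mk U h y k x := by
    intro x hx1 hx2
    exact (h5' x (y + rho k • e) (rho k / 32) (rho k / 32) hx1 hx2
      (by rw [norm_pt he]; linarith) (by rw [norm_pt he]; linarith) (by linarith) (by linarith)
      (by linarith) (by linarith)).2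
  intro x hx1 hx2
  refine ⟨(hsup x hx1 hx2).trans (by gcongr), fun l hl1 hl2 => ?_, fun x' hx1' hx2' => ?_⟩
  · obtain ⟨h6, h7⟩ := rho_near hl1 hl2
    have h8 := (h5' (y + rho l • e) (y + rho k • e) (rho l / 32) (rho k / 32)
      (by rw [norm_pt he]; linarith) (by rw [norm_pt he]; linarith)
      (by rw [norm_pt he]; linarith) (by rw [norm_pt he]; linarith) (by linarith) (by linarith)
      (by linarith) (by linarith)).1
    refine h8.trans ?_
    rw [mul_assoc]
    refine (mul_le_mul' le_rfl (lint_On_le _ hx2)).trans ?_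
    rw [← mul_assoc, ← mul_assoc]
    refine mul_le_mul' (mul_le_mul' ?_ le_rfl) le_rfl
    rw [ENNReal.coe_add, ENNReal.coe_mul C]
    exact le_add_self
  · rcases le_total ‖x - x'‖ (rho k / 16) with hd | hd
    · exact (h4 x x' (closedBall_sub_On (by linarith) hx1 hx2)).trans
        (mul_le_mul' (mul_le_mul' hCle le_rfl) le_rfl)
    · have h1 : ENNReal.ofReal (rho k) ≤ 16 * ‖x - x'‖ₑ := by
        rw [← ofReal_norm, ← ENNReal.ofReal_ofNat, ← ENNReal.ofReal_mul (by norm_num)]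
        exact ENNReal.ofReal_le_ofReal (by linarith)
      have h2 : (16 : ℝ≥0∞) * C ≤ ((16 * C + C * (vb n * 6 ^ n).toNNReal : ℝ≥0) : ℝ≥0∞) := by
        rw [ENNReal.coe_add, ENNReal.coe_mul]
        exact le_self_add
      calc ‖zk U v y k x - zk U v y k x'‖ₑ
          = ‖(zk U v y k x - Ak U v y e k k) - (zk U v y k x' - Ak U v y e k k)‖ₑ := by
            rw [sub_sub_sub_cancel_right]
        _ ≤ C * ENNReal.ofReal (rho k) * Mk U h y k x +
            C * ENNReal.ofReal (rho k) * Mk U h y k x' :=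
            enorm_sub_le.trans (add_le_add (hsup x hx1 hx2) (hsup x' hx1' hx2'))
        _ = C * ENNReal.ofReal (rho k) * (Mk U h y k x + Mk U h y k x') := by rw [mul_add]
        _ ≤ C * (16 * ‖x - x'‖ₑ) * (Mk U h y k x + Mk U h y k x') := by gcongr
        _ = 16 * C * ‖x - x'‖ₑ * (Mk U h y k x + Mk U h y k x') := by ring
        _ ≤ _ := by gcongr

end RP1

end Pool.Agent.P.MP_28243e_an
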