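import Pool.Agent.P.MP_28243e_an.RP1a

/-! The glued test functions `xp`: size, Lipschitz bound and gradient. -/

namespace Pool.Agent.P.MP_28243e_an

open Set MeasureTheory Metric Filter Topology ENNReal
open scoped NNReal ContDiff RealInnerProductSpace Classical

namespace RP1

variable {n m : ℕ}

/-- all quantities that enter the bounds at `x` are controlled by `μ` -/
def Hm (U : E n → Mt m n) (h : E n → ℝ≥0∞) (y : E n) (k : ℤ) (x : E n) (μ : ℝ≥0∞) : Prop :=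
  rho k / 2 ≤ ‖x - y‖ ∧ ‖x - y‖ ≤ 2 * rho k ∧
    mx ((On y k).indicator (dev U y k)) x + mx h x ≤ μ ∧
    xx U y (k - 1) ≤ ENNReal.ofReal (rho k) * μ ∧ xx U y k ≤ ENNReal.ofReal (rho k) * μ

lemma Hm.mono {U : E n → Mt m n} {h : E n → ℝ≥0∞} {y : E n} {k : ℤ} {x : E n} {μ μ' : ℝ≥0∞}
    (H : Hm U h y k x μ) (hμ : μ ≤ μ') : Hm U h y k x μ' :=
  ⟨H.1, H.2.1, H.2.2.1.trans hμ, H.2.2.2.1.trans (mul_le_mul' le_rfl hμ),
    H.2.2.2.2.trans (mul_le_mul' le_rfl hμ)⟩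

lemma ofReal_rho_ne (k : ℤ) : ENNReal.ofReal (rho k) ≠ 0 :=
  (ENNReal.ofReal_pos.mpr (rho_pos k)).ne'

lemma le_mul_of_div_le {a b μ : ℝ≥0∞} {k : ℤ} (hab : a ≤ b)
    (h : b / ENNReal.ofReal (rho k) ≤ μ) : a ≤ ENNReal.ofReal (rho k) * μ := by
  rw [ENNReal.div_le_iff (ofReal_rho_ne k) ENNReal.ofReal_ne_top, mul_comm] at h
  exact hab.trans h

lemma hm_of_Zn (U : E n → Mt m n) (h : E n → ℝ≥0∞) {y x : E n} {k : ℤ} (hx : x ∈ Zn y k) :
    Hm U h y k x (ss U h y k x) := by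
  obtain ⟨h1, h2⟩ := mem_Zn.mp hx
  have h3 : (xx U y (k - 1) + xx U y k + xx U y (k + 1)) / ENNReal.ofReal (rho k) ≤
      ss U h y k x := le_add_self.trans le_self_add
  refine ⟨h1, by linarith [rho_pos k], ?_, le_mul_of_div_le (le_self_add.trans le_self_add) h3,
    le_mul_of_div_le (le_add_self.trans le_self_add) h3⟩
  exact add_le_add ((le_add_self.trans le_self_add).trans le_self_add) le_rfl

lemma hm_of_Zn' (U : E n → Mt m n) (h : E n → ℝ≥0∞) {y x : E n} {k : ℤ}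
    (hx : x ∈ Zn y (k - 1)) : Hm U h y k x (2 * ss U h y (k - 1) x) := by
  obtain ⟨h1, h2⟩ := mem_Zn.mp hx
  rw [rho_pred] at h1 h2
  have h3 : (xx U y (k - 1 - 1) + xx U y (k - 1) + xx U y (k - 1 + 1)) /
      ENNReal.ofReal (rho (k - 1)) ≤ ss U h y (k - 1) x := le_add_self.trans le_self_add
  have h4 : ENNReal.ofReal (rho (k - 1)) * ss U h y (k - 1) x =
      ENNReal.ofReal (rho k) * (2 * ss U h y (k - 1) x) := by
    rw [rho_pred, ENNReal.ofReal_mul (by norm_num), ENNReal.ofReal_ofNat]; ring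
  have h5 : mx ((On y (k - 1 + 1)).indicator (dev U y (k - 1 + 1))) x + mx h x ≤
      ss U h y (k - 1) x := add_le_add (le_add_self.trans le_self_add) le_rfl
  have h6 := le_mul_of_div_le (le_add_self.trans le_self_add) h3
  have h7 := le_mul_of_div_le le_add_self h3
  rw [sub_add_cancel] at h5 h7
  rw [h4] at h6 h7
  refine ⟨by linarith [rho_pos k], h2.le, h5.trans ?_, h6, h7⟩
  rw [two_mul]; exact le_self_add

lemma enorm_dF {U : E n → Mt m n} {h : E n → ℝ≥0∞} {y : E n} {k : ℤ} {x : E n} {μ : ℝ≥0∞}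
    (H : Hm U h y k x μ) {l : ℤ} (hl : l = k - 1 ∨ l = k + 1) :
    ‖Ft U y l - Ft U y k‖ₑ ≤ ENNReal.ofReal (rho k) * μ := by
  rcases hl with rfl | rfl
  · have := H.2.2.2.1
    rw [xx, sub_add_cancel, enorm_sub_rev] at this
    exact this
  · exact H.2.2.2.2

lemma enorm_smul_le_of {F : Type*} [NormedAddCommGroup F] [NormedSpace ℝ F] {c : ℝ} (a : F)
    {r : ℝ} (hc : |c| ≤ r) : ‖c • a‖ₑ ≤ ENNReal.ofReal r * ‖a‖ₑ := by
  rw [enorm_smul]
  refine mul_le_mul' ?_ le_rfl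
  rw [enorm_le_iff _ ((abs_nonneg c).trans hc)]
  exact hc

lemma enorm_smul_le_one {F : Type*} [NormedAddCommGroup F] [NormedSpace ℝ F] {c : ℝ} (a : F)
    (hc : |c| ≤ 1) : ‖c • a‖ₑ ≤ ‖a‖ₑ := by
  simpa using enorm_smul_le_of a hc

lemma abs_chi_le (y : E n) (k : ℤ) (x : E n) : |chi y k x| ≤ 1 := by
  have h1 : 0 ≤ chi y k x := cut_nonneg _ _ _ _
  have h2 : chi y k x ≤ 1 := cut_le_one _ _ _ _
  exact abs_le.mpr ⟨by linarith, h2⟩

lemma abs_one_sub_chi_le (y : E n) (k : ℤ) (x : E n) : |1 - chi y k x| ≤ 1 := by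
  have h1 : 0 ≤ chi y k x := cut_nonneg _ _ _ _
  have h2 : chi y k x ≤ 1 := cut_le_one _ _ _ _
  exact abs_le.mpr ⟨by linarith, by linarith⟩

lemma Dk_le {U : E n → Mt m n} {v : E n → V m} {h : E n → ℝ≥0∞} {y e : E n} (he : ‖e‖ = 1)
    {k : ℤ} {x : E n} {μ C : ℝ≥0∞} (H : Hm U h y k x μ) {l : ℤ} (hl : l = k - 1 ∨ l = k + 1)
    (hA : ‖Ak U v y e k l - Ak U v y e k k‖ₑ ≤ C * ENNReal.ofReal (rho k) * μ) :
    ‖Dk U v y e k l x‖ₑ ≤ (16 + C) * ENNReal.ofReal (rho k) * μ := by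
  have h1 := abs_lg_sub_Lk he (k := k) (l := l) (by omega) (by omega) H.1 H.2.1
  have h2 := enorm_smul_le_of (Ft U y l - Ft U y k) h1
  rw [ENNReal.ofReal_ofNat] at h2
  calc ‖Dk U v y e k l x‖ₑ ≤ 16 * (ENNReal.ofReal (rho k) * μ) + C * ENNReal.ofReal (rho k) * μ :=
        (enorm_add_le _ _).trans
          (add_le_add (h2.trans (mul_le_mul' le_rfl (enorm_dF H hl))) hA)
    _ = _ := by ring

lemma lip_term {π g : E n → ℝ} {D : E n → V m} {Δ : V m} {x x' : E n} {ρ μ K Kc : ℝ≥0∞}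
    (hπ : |π x'| ≤ 1) (hπl : ‖π x - π x'‖ₑ * ρ ≤ Kc * ‖x - x'‖ₑ) (hD : ‖D x‖ₑ ≤ K * ρ * μ)
    (hsub : D x - D x' = (g x - g x') • Δ) (hg : ‖g x - g x'‖ₑ * ρ ≤ 2 * ‖x - x'‖ₑ)
    (hΔ : ‖Δ‖ₑ ≤ ρ * μ) :
    ‖π x • D x - π x' • D x'‖ₑ ≤ (Kc * K + 2) * μ * ‖x - x'‖ₑ := by
  have e : π x • D x - π x' • D x' = (π x - π x') • D x + π x' • (D x - D x') := by module
  rw [e, hsub]
  calc ‖(π x - π x') • D x + π x' • (g x - g x') • Δ‖ₑ
      ≤ ‖π x - π x'‖ₑ * (K * ρ * μ) + ‖g x - g x'‖ₑ * (ρ * μ) := by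
        refine (enorm_add_le _ _).trans (add_le_add ?_ ((enorm_smul_le_one _ hπ).trans ?_))
        · rw [enorm_smul]; exact mul_le_mul' le_rfl hD
        · rw [enorm_smul]; exact mul_le_mul' le_rfl hΔ
    _ = (‖π x - π x'‖ₑ * ρ) * (K * μ) + (‖g x - g x'‖ₑ * ρ) * μ := by ring
    _ ≤ (Kc * ‖x - x'‖ₑ) * (K * μ) + (2 * ‖x - x'‖ₑ) * μ := by gcongr
    _ = _ := by ring

lemma enorm_mul_le {a r c d : ℝ} (hr : 0 < r) (hc : 0 ≤ c) {w : E n} (hd : ‖w‖ = d)
    (h : |a| ≤ c * d / r) : ‖a‖ₑ * ENNReal.ofReal r ≤ ENNReal.ofReal c * ‖w‖ₑ := by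
  rw [← ofReal_norm, ← ofReal_norm, ← ENNReal.ofReal_mul (norm_nonneg _),
    ← ENNReal.ofReal_mul hc, hd]
  exact ENNReal.ofReal_le_ofReal ((le_div_iff₀ hr).mp h)

/-- bounds for the cut-offs `chi` -/
lemma exists_chi : ∃ C : ℝ≥0, ∀ (n : ℕ) (y : E n) (k : ℤ),
    (∀ x, ‖gradient (chi y k) x‖ ≤ C / rho k) ∧
    ∀ x x', |chi y k x - chi y k x'| ≤ C * ‖x - x'‖ / rho k := by
  obtain ⟨C, -, hC⟩ := exists_cut_bound
  refine ⟨2 * C, fun n y k => ?_⟩
  have hk := rho_pos k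
  obtain ⟨h1, h2⟩ := hC n y (rho k / 2) (rho k) (by linarith) (by linarith)
  have e : (C : ℝ) / (rho k - rho k / 2) = (2 * C : ℝ≥0) / rho k := by
    push_cast; field_simp; ring
  rw [e] at h1 h2
  refine ⟨fun x => (norm_gradient _ x).trans_le (h1 x), fun x x' => ?_⟩
  have h3 := h2.dist_le_mul x x'
  rw [Real.dist_eq, dist_eq_norm, Real.coe_toNNReal _ (by positivity)] at h3
  rw [mul_div_right_comm]
  exact h3

/-- size and Lipschitz bounds for `xp` -/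
lemma exists_xp (hB : StB) (hM : StMdl) (hn : 3 ≤ n) : ∃ C : ℝ≥0, ∀ (Co : ℝ≥0)
    (U : E n → Mt m n) (v : E n → V m) (G ν k' kf h : E n → ℝ≥0∞), Str Co U v G ν k' kf h →
    ∀ (y e : E n) (k : ℤ), ‖e‖ = 1 → ball y (rho (k - 2)) ⊆ ball 0 (1 / 2) →
    ∀ x μ, Hm U h y k x μ →
      ‖xp U v y e k x‖ₑ ≤ C * ENNReal.ofReal (rho k) * μ ∧
      ‖Ak U v y e k (k + 1) - Ak U v y e k k‖ₑ ≤ C * ENNReal.ofReal (rho k) * μ ∧
      ∀ x', Hm U h y k x' μ → ‖xp U v y e k x - xp U v y e k x'‖ₑ ≤ C * μ * ‖x - x'‖ₑ := by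
  obtain ⟨C, hC⟩ := exists_core (m := m) hB hM hn
  obtain ⟨Cc, hCc⟩ := exists_chi
  refine ⟨3 * C + 32 + 2 * (Cc * (16 + C) + 2), ?_⟩
  intro Co U v G ν k' kf h hS y e k he hb x μ H
  have hk := rho_pos k
  have hv : Continuous v := hS.cv.continuous
  obtain ⟨h1, h2, h3⟩ := hC Co U v G ν k' kf h hS y e k he hb x H.1 H.2.1
  have hMk : Mk U h y k x ≤ μ := (Mk_le hM hn hS.mU h y k x).trans H.2.2.1
  have h1' := h1.trans (mul_le_mul' le_rfl hMk)
  have hA : ∀ l, l = k - 1 ∨ l = k + 1 →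
      ‖Ak U v y e k l - Ak U v y e k k‖ₑ ≤ C * ENNReal.ofReal (rho k) * μ := fun l hl =>
    (h2 l (by omega) (by omega)).trans (mul_le_mul' le_rfl hMk)
  have hD1 := Dk_le he H (Or.inl rfl) (hA _ (Or.inl rfl))
  have hD2 := Dk_le he H (Or.inr rfl) (hA _ (Or.inr rfl))
  push_cast
  refine ⟨?_, (hA _ (Or.inr rfl)).trans ?_, fun x' H' => ?_⟩
  · rw [xp_eq hv he]
    calc _ ≤ C * ENNReal.ofReal (rho k) * μ + (16 + C) * ENNReal.ofReal (rho k) * μ +
          (16 + C) * ENNReal.ofReal (rho k) * μ :=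
          enorm_sub_le.trans (add_le_add (enorm_sub_le.trans (add_le_add h1'
            ((enorm_smul_le_one _ (abs_one_sub_chi_le _ _ _)).trans hD1)))
            ((enorm_smul_le_one _ (abs_chi_le _ _ _)).trans hD2))
      _ = (3 * C + 32) * ENNReal.ofReal (rho k) * μ := by ring
      _ ≤ _ := mul_le_mul' (mul_le_mul' le_self_add le_rfl) le_rfl
  · refine mul_le_mul' (mul_le_mul' ?_ le_rfl) le_rfl
    calc (C : ℝ≥0∞) ≤ C + (2 * C + 32 + 2 * (Cc * (16 + C) + 2)) := le_self_add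
      _ = _ := by ring
  · have hMk' : Mk U h y k x' ≤ μ := (Mk_le hM hn hS.mU h y k x').trans H'.2.2.1
    have h4 := (h3 x' H'.1 H'.2.1).trans (mul_le_mul' le_rfl (add_le_add hMk hMk'))
    have hg : ‖Real.log ‖x - y‖ - Real.log ‖x' - y‖‖ₑ * ENNReal.ofReal (rho k) ≤
        2 * ‖x - x'‖ₑ := by
      have h5 := enorm_mul_le (c := 2) (w := x - x') hk (by norm_num) rfl
        ((lg_lip (half_pos hk) H.1 H'.1).trans_eq (by field_simp))
      rwa [ENNReal.ofReal_ofNat] at h5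
    have hsub : ∀ l, Dk U v y e k l x - Dk U v y e k l x' =
        (Real.log ‖x - y‖ - Real.log ‖x' - y‖) • (Ft U y l - Ft U y k) := by
      intro l; unfold Dk; module
    have hp1 : ‖(1 - chi y (k - 1) x) - (1 - chi y (k - 1) x')‖ₑ * ENNReal.ofReal (rho k) ≤
        Cc * ‖x - x'‖ₑ := by
      rw [← ENNReal.ofReal_coe_nnreal]
      refine enorm_mul_le hk Cc.2 rfl ?_
      rw [_root_.sub_sub_sub_cancel_left, abs_sub_comm]
      refine ((hCc n y (k - 1)).2 x x').trans ?_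
      exact div_le_div_of_nonneg_left (by positivity) hk (rho_anti (by omega))
    have hp2 : ‖chi y k x - chi y k x'‖ₑ * ENNReal.ofReal (rho k) ≤ Cc * ‖x - x'‖ₑ := by
      rw [← ENNReal.ofReal_coe_nnreal]
      exact enorm_mul_le hk Cc.2 rfl ((hCc n y k).2 x x')
    have t1 := lip_term (π := fun z => 1 - chi y (k - 1) z) (g := fun z => Real.log ‖z - y‖)
      (D := Dk U v y e k (k - 1)) (abs_one_sub_chi_le _ _ _) hp1 hD1 (hsub _) hg
      (enorm_dF H (Or.inl rfl))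
    have t2 := lip_term (π := chi y k) (g := fun z => Real.log ‖z - y‖)
      (D := Dk U v y e k (k + 1)) (abs_chi_le _ _ _) hp2 hD2 (hsub _) hg
      (enorm_dF H (Or.inr rfl))
    have e1 : xp U v y e k x - xp U v y e k x' = (zk U v y k x - zk U v y k x') -
        ((1 - chi y (k - 1) x) • Dk U v y e k (k - 1) x -
          (1 - chi y (k - 1) x') • Dk U v y e k (k - 1) x') -
        (chi y k x • Dk U v y e k (k + 1) x - chi y k x' • Dk U v y e k (k + 1) x') := by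
      rw [xp_eq hv he, xp_eq hv he]; abel
    rw [e1]
    calc _ ≤ C * ‖x - x'‖ₑ * (μ + μ) + (Cc * (16 + C) + 2) * μ * ‖x - x'‖ₑ +
          (Cc * (16 + C) + 2) * μ * ‖x - x'‖ₑ :=
          enorm_sub_le.trans (add_le_add (enorm_sub_le.trans (add_le_add h4 t1)) t2)
      _ = (2 * C + 2 * (Cc * (16 + C) + 2)) * μ * ‖x - x'‖ₑ := by ring
      _ ≤ _ := by
        refine mul_le_mul' (mul_le_mul' (add_le_add ?_ le_rfl) le_rfl) le_rfl
        calc (2 * C : ℝ≥0∞) ≤ 2 * C + (C + 32) := le_self_add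
          _ = _ := by ring

/-! ### gradients -/

lemma chi_diff (y : E n) (k : ℤ) (x : E n) : DifferentiableAt ℝ (chi y k) x :=
  (cut_contDiff y _ _).differentiable (by simp) x

lemma hm_diff (hM : StMdl) (hn : 3 ≤ n) (U : E n → Mt m n) (v : E n → V m) {y x : E n} (e : E n)
    (k : ℤ) (hx : x ≠ y) : DifferentiableAt ℝ (hm U v y e k) x :=
  ((lg_diff hM hn hx).smul_const _).add_const _

lemma xp_diff (hM : StMdl) (hn : 3 ≤ n) (U : E n → Mt m n) {v : E n → V m} (hv : ContDiff ℝ 1 v)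
    {y x : E n} (e : E n) (k : ℤ) (hx : x ≠ y) : DifferentiableAt ℝ (xp U v y e k) x :=
  (hv.differentiable one_ne_zero x).sub (((hm_diff hM hn U v e k hx).sub
    (((chi_diff y (k - 1) x).const_sub 1).smul
      ((hm_diff hM hn U v e k hx).sub (hm_diff hM hn U v e (k - 1) hx)))).add
    ((chi_diff y k x).smul ((hm_diff hM hn U v e (k + 1) hx).sub (hm_diff hM hn U v e k hx))))

lemma grad_smul_zero {π : E n → ℝ} {φ : E n → V m} {x : E n} (hπ : DifferentiableAt ℝ π x)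
    (hφ : DifferentiableAt ℝ φ x) (h0 : π x = 0) (h1 : fderiv ℝ π x = 0) :
    grad (fun z => π z • φ z) x = 0 := by
  have h2 : ‖tens (φ x) (gradient π x)‖ = 0 := by
    rw [norm_tens, norm_gradient, h1, norm_zero, mul_zero]
  rw [grad_smul hπ hφ, h0, zero_smul, zero_add, norm_eq_zero.mp h2]

lemma ne_of_Zn {y x : E n} {k : ℤ} (hx : x ∈ Zn y k) : x ≠ y := by
  rintro rfl
  have := (mem_Zn.mp hx).1
  rw [sub_self, norm_zero] at this
  linarith [rho_pos k]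

lemma chi_pred {y x : E n} {k : ℤ} (hx : x ∈ Zn y k) :
    1 - chi y (k - 1) x = 0 ∧ fderiv ℝ (fun z => 1 - chi y (k - 1) z) x = 0 := by
  have hk := rho_pos (k - 1)
  have h1 : ‖x - y‖ ≤ rho (k - 1) / 2 := by
    rw [rho_pred]; linarith [(mem_Zn.mp hx).2]
  refine ⟨sub_eq_zero.mpr (cut_eq_one (by linarith) (by linarith) h1).symm, ?_⟩
  rw [fderiv_const_sub, neg_eq_zero]
  exact fderiv_cut_eq_zero (by linarith) (by linarith) (Or.inl h1)

lemma chi_succ {y x : E n} {k : ℤ} (hx : x ∈ Zn y k) :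
    chi y (k + 1) x = 0 ∧ fderiv ℝ (chi y (k + 1)) x = 0 := by
  have hk := rho_pos (k + 1)
  have h1 : rho (k + 1) ≤ ‖x - y‖ := by
    rw [rho_succ]; exact (mem_Zn.mp hx).1
  exact ⟨cut_eq_zero (by linarith) (by linarith) h1,
    fderiv_cut_eq_zero (by linarith) (by linarith) (Or.inr h1)⟩

lemma xp_succ (hM : StMdl) (hn : 3 ≤ n) (U : E n → Mt m n) {v : E n → V m} (hv : ContDiff ℝ 1 v)
    {y x : E n} (e : E n) {k : ℤ} (hx : x ∈ Zn y k) :
    xp U v y e (k + 1) x = xp U v y e k x ∧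
      grad (xp U v y e (k + 1)) x = grad (xp U v y e k) x := by
  have hxy := ne_of_Zn hx
  have e1 : xp U v y e (k + 1) = fun z => xp U v y e k z -
      (1 - chi y (k - 1) z) • (hm U v y e k z - hm U v y e (k - 1) z) -
      chi y (k + 1) z • (hm U v y e (k + 1 + 1) z - hm U v y e (k + 1) z) := by
    funext z
    unfold xp
    rw [add_sub_cancel_right]
    module
  have d1 := (chi_diff y (k - 1) x).const_sub 1
  have d2 := (hm_diff hM hn U v e k hxy).fun_sub (hm_diff hM hn U v e (k - 1) hxy)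
  have d3 := (hm_diff hM hn U v e (k + 1 + 1) hxy).fun_sub (hm_diff hM hn U v e (k + 1) hxy)
  have g1 : grad (fun z => (1 - chi y (k - 1) z) • (hm U v y e k z - hm U v y e (k - 1) z)) x = 0 :=
    grad_smul_zero d1 d2 (chi_pred hx).1 (chi_pred hx).2
  have g2 : grad (fun z =>
      chi y (k + 1) z • (hm U v y e (k + 1 + 1) z - hm U v y e (k + 1) z)) x = 0 :=
    grad_smul_zero (chi_diff y (k + 1) x) d3 (chi_succ hx).1 (chi_succ hx).2
  constructor
  · rw [e1]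
    simp only [(chi_pred hx).1, (chi_succ hx).1, zero_smul, sub_zero]
  · rw [e1, grad_sub ((xp_diff hM hn U hv e k hxy).fun_sub (d1.fun_smul d2))
      ((chi_diff y (k + 1) x).fun_smul d3),
      grad_sub (xp_diff hM hn U hv e k hxy) (d1.fun_smul d2), g1, g2, sub_zero, sub_zero]

lemma Dk_diff (hM : StMdl) (hn : 3 ≤ n) (U : E n → Mt m n) (v : E n → V m) {y x : E n} (e : E n)
    (k l : ℤ) (hx : x ≠ y) : DifferentiableAt ℝ (Dk U v y e k l) x :=
  (((lg_diff hM hn hx).sub_const _).smul_const _).add_const _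

lemma grad_Dk (hM : StMdl) (hn : 3 ≤ n) (U : E n → Mt m n) (v : E n → V m) {y x : E n} (e : E n)
    (k l : ℤ) (hx : x ≠ y) : grad (Dk U v y e k l) x = mdl (Ft U y l - Ft U y k) y x := by
  have e1 : Dk U v y e k l = fun z => Real.log ‖z - y‖ • (Ft U y l - Ft U y k) +
      ((Ak U v y e k l - Ak U v y e k k) - Lk y e l • (Ft U y l - Ft U y k)) := by
    funext z; unfold Dk; module
  rw [e1, grad_add ((lg_diff hM hn hx).smul_const _) (differentiableAt_const _), grad_const,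
    add_zero]
  exact ((hM n hn).2.2 m _ y).2.2.2.2.1 x hx

lemma grad_xp (hM : StMdl) (hn : 3 ≤ n) (U : E n → Mt m n) {v : E n → V m} (hv : ContDiff ℝ 1 v)
    {y x e : E n} (he : ‖e‖ = 1) {k : ℤ} (hx : x ∈ Zn y k) :
    grad (xp U v y e k) x = grad v x - mdl (Ft U y k) y x -
      (chi y k x • mdl (Ft U y (k + 1) - Ft U y k) y x +
        tens (Dk U v y e k (k + 1) x) (gradient (chi y k) x)) := by
  have hxy := ne_of_Zn hx
  have e1 : xp U v y e k = fun z => zk U v y k z - Ak U v y e k k -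
      (1 - chi y (k - 1) z) • Dk U v y e k (k - 1) z - chi y k z • Dk U v y e k (k + 1) z :=
    funext (xp_eq hv.continuous he k)
  have d0 : DifferentiableAt ℝ (zk U v y k) x :=
    (hv.differentiable one_ne_zero x).sub ((lg_diff hM hn hxy).smul_const _)
  have d1 := (chi_diff y (k - 1) x).const_sub 1
  have d2 := Dk_diff hM hn U v e k (k - 1) hxy
  have d3 := Dk_diff hM hn U v e k (k + 1) hxy
  rw [e1, grad_sub ((d0.sub_const _).fun_sub (d1.fun_smul d2)) ((chi_diff y k x).fun_smul d3),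
    grad_sub (d0.sub_const _) (d1.fun_smul d2), grad_sub d0 (differentiableAt_const _), grad_const,
    grad_smul_zero d1 d2 (chi_pred hx).1 (chi_pred hx).2, grad_smul (chi_diff y k x) d3,
    grad_zk hM hn U hv k hxy, grad_Dk hM hn U v e k (k + 1) hxy, sub_zero, sub_zero]

/-- the gradient of `xp` on the shell `k` -/
lemma exists_grad (hM : StMdl) (hn : 3 ≤ n) : ∃ C : ℝ≥0, ∀ (Co : ℝ≥0)
    (U : E n → Mt m n) (v : E n → V m) (G ν k' kf h : E n → ℝ≥0∞), Str Co U v G ν k' kf h →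
    ∀ (y e : E n) (k : ℤ), ‖e‖ = 1 → ball y (rho (k - 2)) ⊆ ball 0 (1 / 2) →
    ∀ᵐ x, x ∈ Zn y k →
      ‖grad (xp U v y e k) x - (U x - mdl (Ft U y k) y x) +
          tens (Ak U v y e k (k + 1) - Ak U v y e k k) (gradient (chi y k) x)‖ₑ ≤
        h x + C * (xx U y k / ENNReal.ofReal (rho k)) := by
  obtain ⟨Cc, hCc⟩ := exists_chi
  refine ⟨2 + 16 * Cc, ?_⟩
  intro Co U v G ν k' kf h hS y e k he hb
  have hk := rho_pos k
  filter_upwards [hS.err] with x hx hxZ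
  obtain ⟨hx1, hx2⟩ := mem_Zn.mp hxZ
  have h1 : x ∈ ball (0 : E n) (1 / 2) := by
    refine hb ?_
    rw [rho_two, mem_ball, dist_eq_norm]
    linarith
  set Δ := Ft U y (k + 1) - Ft U y k with hΔ
  have e1 : grad (xp U v y e k) x - (U x - mdl (Ft U y k) y x) +
      tens (Ak U v y e k (k + 1) - Ak U v y e k k) (gradient (chi y k) x) =
      -((U x - grad v x) + (chi y k x • mdl Δ y x +
        (Real.log ‖x - y‖ - Lk y e (k + 1)) • tens Δ (gradient (chi y k) x))) := by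
    rw [grad_xp hM hn U hS.cv he hxZ, Dk, tens_add_left, tens_smul_left]
    abel
  rw [e1, enorm_neg]
  refine (enorm_add_le _ _).trans (add_le_add (hx h1) ?_)
  have e2 : ((2 + 16 * Cc : ℝ≥0) : ℝ≥0∞) * (xx U y k / ENNReal.ofReal (rho k)) =
      ENNReal.ofReal ((2 + 16 * Cc : ℝ≥0) * (‖Δ‖ / rho k)) := by
    rw [ENNReal.ofReal_mul (NNReal.coe_nonneg _), ENNReal.ofReal_coe_nnreal,
      ENNReal.ofReal_div_of_pos hk, ofReal_norm]
    rfl
  rw [e2, enorm_le_iff _ (by positivity)]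
  have h2 : ‖chi y k x • mdl Δ y x‖ ≤ 2 * (‖Δ‖ / rho k) := by
    rw [norm_smul, (((hM n hn).2.2 m Δ y).1 x).1, Real.norm_eq_abs]
    calc |chi y k x| * (‖Δ‖ / ‖x - y‖) ≤ 1 * (‖Δ‖ / (rho k / 2)) :=
          mul_le_mul (abs_chi_le _ _ _)
            (div_le_div_of_nonneg_left (norm_nonneg _) (half_pos hk) hx1) (by positivity)
            zero_le_one
      _ = _ := by field_simp
  have h3 : ‖(Real.log ‖x - y‖ - Lk y e (k + 1)) • tens Δ (gradient (chi y k) x)‖ ≤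
      16 * Cc * (‖Δ‖ / rho k) := by
    rw [norm_smul, norm_tens, Real.norm_eq_abs]
    calc _ ≤ 16 * (‖Δ‖ * (Cc / rho k)) :=
          mul_le_mul (abs_lg_sub_Lk he (by omega) le_rfl hx1 (by linarith))
            (mul_le_mul_of_nonneg_left ((hCc n y k).1 x) (norm_nonneg _)) (by positivity)
            (by norm_num)
      _ = _ := by ring
  refine (norm_add_le _ _).trans ((add_le_add h2 h3).trans_eq ?_)
  push_cast
  ring

end RP1

end Pool.Agent.P.MP_28243e_an
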