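import Pool.Agent.P.MP_28243e_an.Basic

/-! The estimate on one shell, in abstract form. -/

namespace Pool.Agent.P.MP_28243e_an.RP2

open Set MeasureTheory Metric Filter Topology ENNReal
open scoped NNReal ContDiff RealInnerProductSpace Classical

variable {n m : ℕ}

theorem ofReal_integral_le {α : Type} [MeasurableSpace α] {μ : Measure α} {F : α → ℝ}
    (hF : Integrable F μ) {g : α → ℝ≥0∞} (h : ∀ᵐ x ∂μ, ENNReal.ofReal (F x) ≤ g x) :
    ENNReal.ofReal (∫ x, F x ∂μ) ≤ ∫⁻ x, g x ∂μ := by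
  calc ENNReal.ofReal (∫ x, F x ∂μ) ≤ ENNReal.ofReal (∫ x, max (F x) 0 ∂μ) :=
        ENNReal.ofReal_le_ofReal (integral_mono hF hF.pos_part fun x => le_max_left _ _)
    _ = ∫⁻ x, ENNReal.ofReal (max (F x) 0) ∂μ :=
        ofReal_integral_eq_lintegral_ofReal hF.pos_part
          (Eventually.of_forall fun x => le_max_right _ _)
    _ ≤ _ := lintegral_mono_ae (h.mono fun x hx => by rwa [ENNReal.ofReal_max, ENNReal.ofReal_zero,
        max_eq_left (zero_le)])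

theorem integrable_inner {α : Type} [MeasurableSpace α] {μ : Measure α} {f g : α → Mt m n}
    (hf : Integrable f μ) (hg : AEStronglyMeasurable g μ) {B : ℝ} (hb : ∀ᵐ x ∂μ, ‖g x‖ ≤ B) :
    Integrable (fun x => ⟪f x, g x⟫) μ := by
  refine (hf.norm.mul_const B).mono' (hf.aestronglyMeasurable.inner hg) (hb.mono fun x hx => ?_)
  exact (norm_inner_le_norm _ _).trans (by gcongr)

theorem ofReal_inner_le (A B : Mt m n) : ENNReal.ofReal |⟪A, B⟫| ≤ ‖A‖ₑ * ‖B‖ₑ := by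
  rw [← ofReal_norm, ← ofReal_norm, ← ENNReal.ofReal_mul (norm_nonneg _)]
  exact ENNReal.ofReal_le_ofReal (abs_real_inner_le_norm _ _)

theorem zone_bound {Γ Z : Set (E n)} (hΓ : MeasurableSet Γ) (hΓZ : Γ ⊆ Z) (hZ : MeasurableSet Z)
    {S D Gx Tξ Tβ : E n → Mt m n} {χ J : E n → ℝ} {P s hh : E n → ℝ≥0∞} {c B : ℝ} {K w₀ w₁ : ℝ≥0}
    {t : ℝ≥0∞} (hc : 0 < c) (hS : IntegrableOn S Z)
    (mD : AEStronglyMeasurable D (volume.restrict Γ))
    (mG : AEStronglyMeasurable Gx (volume.restrict Γ))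
    (mξ : AEStronglyMeasurable Tξ (volume.restrict Γ))
    (mβ : AEStronglyMeasurable Tβ (volume.restrict Z)) (mχ : Measurable χ) (mJ : Measurable J)
    (mP : Measurable P) (ms : Measurable s) (mh : Measurable hh)
    (hχ : ∀ x, 0 ≤ χ x ∧ χ x ≤ 1) (hJ : ∀ x, 0 ≤ J x ∧ c * J x ≤ ⟪S x, D x⟫)
    (hSP : ∀ x, ‖S x‖ₑ ≤ K * P x)
    (hb : ∀ᵐ x, x ∈ Γ → ‖D x‖ ≤ B ∧ ‖Gx x‖ ≤ B ∧ ‖Tξ x‖ ≤ B ∧ ‖Gx x - D x + Tβ x‖ₑ ≤ K * hh x ∧
      ‖Tξ x‖ₑ ≤ K * s x ∧ ‖Tβ x‖ₑ ≤ K * s x)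
    (hβB : ∀ x ∈ Z, ‖Tβ x‖ ≤ B) (hβt : Γ.Nonempty → ∀ x ∈ Z, ‖Tβ x‖ₑ ≤ K * t)
    (h0 : ∫ x in Z, ⟪S x, Tβ x⟫ = 0) :
    IntegrableOn J Γ ∧ IntegrableOn (fun x => ⟪S x, (1 - χ x) • Gx x - Tξ x⟫) Γ ∧
    IntegrableOn (fun x => ⟪S x, χ x • Gx x + Tξ x⟫) Γ ∧ ∃ Er : ℝ,
      (min w₀ w₁ : ℝ≥0) * (c * ∫ x in Γ, J x) ≤
        w₀ * (∫ x in Γ, ⟪S x, (1 - χ x) • Gx x - Tξ x⟫) +
          w₁ * (∫ x in Γ, ⟪S x, χ x • Gx x + Tξ x⟫) + Er ∧
      ENNReal.ofReal Er ≤ K ^ 2 * ((w₀ + w₁ : ℝ≥0) * ((∫⁻ x in Γ, P x * hh x) +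
        t * ∫⁻ x in Z \ Γ, P x) + 2 * ((nndist w₀ w₁ : ℝ≥0) * ∫⁻ x in Γ, P x * s x)) := by
  have hSΓ : IntegrableOn S Γ := hS.mono_set hΓZ
  have hb' := (ae_restrict_iff' hΓ).2 hb
  have iD : IntegrableOn (fun x => ⟪S x, D x⟫) Γ :=
    integrable_inner hSΓ mD (hb'.mono fun x hx => hx.1)
  have iJ : IntegrableOn J Γ := by
    refine (iD.const_mul c⁻¹).mono' mJ.aestronglyMeasurable (Eventually.of_forall fun x => ?_)
    rw [Real.norm_eq_abs, abs_of_nonneg (hJ x).1, ← div_eq_inv_mul, le_div_iff₀ hc, mul_comm]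
    exact (hJ x).2
  have iP : IntegrableOn (fun x => ⟪S x, (1 - χ x) • Gx x - Tξ x⟫) Γ := by
    refine integrable_inner hSΓ (((measurable_const.sub mχ).aestronglyMeasurable.smul mG).sub mξ)
      (B := B + B) (hb'.mono fun x hx => ?_)
    refine (norm_sub_le _ _).trans (add_le_add ?_ hx.2.2.1)
    rw [norm_smul, Real.norm_eq_abs, abs_of_nonneg (by linarith [(hχ x).2])]
    nlinarith [(hχ x).1, (hχ x).2, norm_nonneg (Gx x), hx.2.1]
  have iQ : IntegrableOn (fun x => ⟪S x, χ x • Gx x + Tξ x⟫) Γ := by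
    refine integrable_inner hSΓ ((mχ.aestronglyMeasurable.smul mG).add mξ)
      (B := B + B) (hb'.mono fun x hx => ?_)
    refine (norm_add_le _ _).trans (add_le_add ?_ hx.2.2.1)
    rw [norm_smul, Real.norm_eq_abs, abs_of_nonneg (hχ x).1]
    nlinarith [(hχ x).1, (hχ x).2, norm_nonneg (Gx x), hx.2.1]
  have iβ : IntegrableOn (fun x => ⟪S x, Tβ x⟫) Z :=
    integrable_inner hS mβ ((ae_restrict_iff' hZ).2 (Eventually.of_forall hβB))
  have iβΓ : IntegrableOn (fun x => ⟪S x, Tβ x⟫) Γ := iβ.mono_set hΓZ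
  refine ⟨iJ, iP, iQ, ?_⟩
  set F : E n → ℝ := fun x => (min w₀ w₁ : ℝ≥0) * (c * J x) -
    w₀ * ⟪S x, (1 - χ x) • Gx x - Tξ x⟫ - w₁ * ⟪S x, χ x • Gx x + Tξ x⟫ - w₀ * ⟪S x, Tβ x⟫ with hF
  have iF : IntegrableOn F Γ :=
    ((((iJ.const_mul c).const_mul _).sub (iP.const_mul _)).sub (iQ.const_mul _)).sub
      (iβΓ.const_mul _)
  have eF : ∫ x in Γ, F x = (min w₀ w₁ : ℝ≥0) * (c * ∫ x in Γ, J x) -
      w₀ * (∫ x in Γ, ⟪S x, (1 - χ x) • Gx x - Tξ x⟫) -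
      w₁ * (∫ x in Γ, ⟪S x, χ x • Gx x + Tξ x⟫) - w₀ * ∫ x in Γ, ⟪S x, Tβ x⟫ := by
    rw [hF]
    rw [integral_sub, integral_sub, integral_sub, integral_const_mul, integral_const_mul,
      integral_const_mul, integral_const_mul, integral_const_mul]
    · exact (iJ.const_mul c).const_mul _
    · exact iP.const_mul _
    · exact ((iJ.const_mul c).const_mul _).sub (iP.const_mul _)
    · exact iQ.const_mul _
    · exact (((iJ.const_mul c).const_mul _).sub (iP.const_mul _)).sub (iQ.const_mul _)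
    · exact iβΓ.const_mul _
  refine ⟨(∫ x in Γ, F x) + w₀ * ∫ x in Γ, ⟪S x, Tβ x⟫, by rw [eF]; linarith, ?_⟩
  have h1 : ENNReal.ofReal (∫ x in Γ, F x) ≤ ∫⁻ x in Γ, (K ^ 2 * (w₀ + w₁ : ℝ≥0) * (P x * hh x) +
      K ^ 2 * (2 * (nndist w₀ w₁ : ℝ≥0)) * (P x * s x)) := by
    refine ofReal_integral_le iF (hb'.mono fun x hx => ?_)
    obtain ⟨-, -, -, e1, e2, e3⟩ := hx
    set R := Gx x - D x + Tβ x with hR
    have hG : Gx x = D x - Tβ x + R := by rw [hR]; abel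
    have hle : F x ≤ (w₀ + w₁ : ℝ≥0) * |⟪S x, R⟫| +
        (nndist w₀ w₁ : ℝ≥0) * (|⟪S x, Tξ x⟫| + |⟪S x, Tβ x⟫|) := by
      have a1 := (hJ x).2
      have a0 : 0 ≤ c * J x := mul_nonneg hc.le (hJ x).1
      obtain ⟨c0, c1⟩ := hχ x
      have w0 : (0 : ℝ) ≤ w₀ := w₀.2
      have w1 : (0 : ℝ) ≤ w₁ := w₁.2
      have hm0 : ((min w₀ w₁ : ℝ≥0) : ℝ) ≤ w₀ := by exact_mod_cast min_le_left _ _
      have hm1 : ((min w₀ w₁ : ℝ≥0) : ℝ) ≤ w₁ := by exact_mod_cast min_le_right _ _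
      have hd : ((nndist w₀ w₁ : ℝ≥0) : ℝ) = |(w₀ : ℝ) - w₁| := by
        rw [coe_nndist, NNReal.dist_eq]
      rw [hF, hd]
      simp only [hG, inner_sub_right, inner_add_right, inner_smul_right]
      push_cast
      set a := ⟪S x, D x⟫
      set b := ⟪S x, Tβ x⟫
      set r := ⟪S x, R⟫
      set u := ⟪S x, Tξ x⟫
      set o : ℝ := w₀ * (1 - χ x) + w₁ * χ x with ho
      have o1 : ((min w₀ w₁ : ℝ≥0) : ℝ) ≤ o := by rw [ho]; nlinarith
      have o2 : o ≤ w₀ + w₁ := by rw [ho]; nlinarith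
      have o0 : 0 ≤ o := by rw [ho]; nlinarith
      have b1 : ((min w₀ w₁ : ℝ≥0) : ℝ) * (c * J x) ≤ o * a := by gcongr
      have b2 : -(o * r) ≤ (w₀ + w₁) * |r| := by
        have := neg_abs_le r
        nlinarith [abs_nonneg r]
      have b3 : ((w₀ : ℝ) - w₁) * u ≤ |(w₀ : ℝ) - w₁| * |u| := by
        rw [← abs_mul]; exact le_abs_self _
      have b4 : -(((w₀ : ℝ) - w₁) * (χ x * b)) ≤ |(w₀ : ℝ) - w₁| * |b| := by
        calc _ ≤ |((w₀ : ℝ) - w₁) * (χ x * b)| := neg_le_abs _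
          _ = |(w₀ : ℝ) - w₁| * (χ x * |b|) := by rw [abs_mul, abs_mul, abs_of_nonneg c0]
          _ ≤ _ := by gcongr; nlinarith [abs_nonneg b]
      push_cast at b1
      have : (min (w₀ : ℝ) w₁) * (c * J x) - w₀ * ((1 - χ x) * (a - b + r) - u) -
          w₁ * (χ x * (a - b + r) + u) - w₀ * b = (min (w₀ : ℝ) w₁) * (c * J x) - o * a - o * r +
            (w₀ - w₁) * u - (w₀ - w₁) * (χ x * b) := by rw [ho]; ring
      rw [this]; linarith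
    refine (ENNReal.ofReal_le_ofReal hle).trans (ENNReal.ofReal_add_le.trans ?_)
    rw [ENNReal.ofReal_mul (NNReal.coe_nonneg _), ENNReal.ofReal_mul (NNReal.coe_nonneg _),
      ENNReal.ofReal_coe_nnreal, ENNReal.ofReal_coe_nnreal]
    have f1 : ENNReal.ofReal |⟪S x, R⟫| ≤ K * P x * (K * hh x) :=
      (ofReal_inner_le _ _).trans (mul_le_mul' (hSP x) e1)
    have f2 : ENNReal.ofReal (|⟪S x, Tξ x⟫| + |⟪S x, Tβ x⟫|) ≤
        K * P x * (K * s x) + K * P x * (K * s x) :=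
      ENNReal.ofReal_add_le.trans (add_le_add ((ofReal_inner_le _ _).trans (mul_le_mul' (hSP x) e2))
        ((ofReal_inner_le _ _).trans (mul_le_mul' (hSP x) e3)))
    calc _ ≤ ((w₀ + w₁ : ℝ≥0) : ℝ≥0∞) * (K * P x * (K * hh x)) + (nndist w₀ w₁ : ℝ≥0) *
          (K * P x * (K * s x) + K * P x * (K * s x)) := by gcongr
      _ = _ := by ring
  have m1 : Measurable fun x => P x * hh x := mP.mul mh
  have m2 : Measurable fun x => P x * s x := mP.mul ms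
  rw [lintegral_add_left (m1.const_mul _), lintegral_const_mul _ m1,
    lintegral_const_mul _ m2] at h1
  have h2 : ENNReal.ofReal (w₀ * ∫ x in Γ, ⟪S x, Tβ x⟫) ≤
      K ^ 2 * (w₀ + w₁ : ℝ≥0) * (t * ∫⁻ x in Z \ Γ, P x) := by
    rcases Γ.eq_empty_or_nonempty with he | hne
    · simp [he]
    have e1 : ∫ x in Γ, ⟪S x, Tβ x⟫ = ∫ x in Z \ Γ, -⟪S x, Tβ x⟫ := by
      have := setIntegral_sdiff hΓ iβ hΓZ
      rw [integral_neg, this, h0]; ring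
    rw [e1, ENNReal.ofReal_mul (NNReal.coe_nonneg _), ENNReal.ofReal_coe_nnreal]
    have e2 : ENNReal.ofReal (∫ x in Z \ Γ, -⟪S x, Tβ x⟫) ≤ ∫⁻ x in Z \ Γ, K * (K * t) * P x := by
      refine ofReal_integral_le (iβ.mono_set sdiff_subset).neg
        ((ae_restrict_iff' (hZ.diff hΓ)).2 (Eventually.of_forall fun x hx => ?_))
      refine (ENNReal.ofReal_le_ofReal (neg_le_abs _)).trans ((ofReal_inner_le _ _).trans ?_)
      exact (mul_le_mul' (hSP x) (hβt hne x hx.1)).trans (le_of_eq (by ring))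
    rw [lintegral_const_mul _ mP] at e2
    calc _ ≤ ((w₀ + w₁ : ℝ≥0) : ℝ≥0∞) * (K * (K * t) * ∫⁻ x in Z \ Γ, P x) := by
          gcongr; exact le_self_add
      _ = _ := by ring
  refine ENNReal.ofReal_add_le.trans ((add_le_add h1 h2).trans (le_of_eq (by ring)))

end Pool.Agent.P.MP_28243e_an.RP2
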