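import Pool.Agent.P.MP_28243e_an.RP2a

/-! The estimate on one shell. -/

namespace Pool.Agent.P.MP_28243e_an.RP2

open Set MeasureTheory Metric Filter Topology ENNReal
open scoped NNReal ContDiff RealInnerProductSpace Classical

variable {n m : ℕ}

/-- The conclusion of the package RP1 at one scale. -/
def R1 (C T : ℝ≥0) (U : E n → Mt m n) (v : E n → V m) (G h : E n → ℝ≥0∞) (y e : E n) (k : ℤ) :
    Prop :=
    Measurable (s1 U y k) ∧ (∀ᵐ x, x ∈ Zn y k → ss U h y k x < ⊤) ∧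
    (∀ x, x ≠ y → DifferentiableAt ℝ (xp U v y e k) x) ∧
    (∀ x ∈ Zn y k, xp U v y e (k + 1) x = xp U v y e k x ∧
      grad (xp U v y e (k + 1)) x = grad (xp U v y e k) x ∧
      ‖xp U v y e k x‖ₑ ≤ C * ENNReal.ofReal (rho k) * ss U h y k x) ∧
    (∃ β : V m, (∀ x ∈ Zn y k, ‖β‖ₑ ≤ C * ENNReal.ofReal (rho k) * ss U h y k x) ∧
      ∀ᵐ x, x ∈ Zn y k →
        ‖grad (xp U v y e k) x - (U x - mdl (Ft U y k) y x) + tens β (gradient (chi y k) x)‖ₑ ≤
          h x + C * (xx U y k / ENNReal.ofReal (rho k))) ∧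
    ∀ i : ℕ,
      (∀ x ∈ Gm U G h y (k - 1) i ∪ Gm U G h y k i, ∀ x' ∈ Gm U G h y (k - 1) i ∪ Gm U G h y k i,
        ‖xp U v y e k x - xp U v y e k x'‖ₑ ≤ C * (2 ^ i * lam G y k) * ‖x - x'‖ₑ) ∧
      ∀ x ∈ Gm U G h y (k - 1) i ∪ Gm U G h y k i,
        ‖xp U v y e k x‖ₑ ≤ C * ENNReal.ofReal (rho k) * (2 ^ i * lam G y k) ∧
        ∀ δ : ℝ, 0 < δ → δ ≤ 1 / 4 → ‖xp U v y e k x‖ₑ ≤ C * (ah G y k ^ (1 / 2 : ℝ) +
          (i + 1) * 2 ^ ((i : ℝ) * δ / 2) * BB T δ G y k ^ (1 / (n : ℝ)))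

/-- difference of fluxes -/
noncomputable def Sk (U : E n → Mt m n) (y : E n) (k : ℤ) (x : E n) : Mt m n :=
  sig n (U x) - sig n (mdl (Ft U y k) y x)
/-- gradient of the piece `k` on the shell `k` -/
noncomputable def Pin (U : E n → Mt m n) (v : E n → V m) (y e : E n) (k : ℤ) (x : E n) : Mt m n :=
  (1 - chi y k x) • grad (xp U v y e k) x - tens (xp U v y e k x) (gradient (chi y k) x)
/-- gradient of the piece `k + 1` on the shell `k` -/
noncomputable def Pout (U : E n → Mt m n) (v : E n → V m) (y e : E n) (k : ℤ) (x : E n) : Mt m n :=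
  chi y k x • grad (xp U v y e k) x + tens (xp U v y e k x) (gradient (chi y k) x)

theorem mem_Zn {y x : E n} {k : ℤ} : x ∈ Zn y k ↔ ‖x - y‖ < rho k ∧ rho k / 2 ≤ ‖x - y‖ := by
  simp [Zn, mem_ball, dist_eq_norm, rho_succ]

theorem measurableSet_Zn (y : E n) (k : ℤ) : MeasurableSet (Zn y k) :=
  measurableSet_ball.diff measurableSet_ball

theorem ne_of_mem_Zn {y x : E n} {k : ℤ} (h : x ∈ Zn y k) : x ≠ y := by
  rintro rfl
  have := (mem_Zn.1 h).2
  have := rho_pos k
  simp at *; linarith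

theorem chi_contDiff (y : E n) (k : ℤ) : ContDiff ℝ ∞ (chi y k) := cut_contDiff _ _ _

theorem gradient_chi_eq_zero {y x : E n} {k : ℤ} (h : x ∉ Zn y k) : gradient (chi y k) x = 0 := by
  have hr := rho_pos k
  rw [mem_Zn, not_and_or, not_lt, not_le] at h
  have : fderiv ℝ (chi y k) x = 0 :=
    fderiv_cut_eq_zero (by linarith) (by linarith) (h.symm.imp le_of_lt id)
  simp [gradient, this]

theorem continuous_gradient_chi (y : E n) (k : ℤ) : Continuous (gradient (chi y k)) :=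
  (InnerProductSpace.toDual ℝ (E n)).symm.continuous.comp
    ((chi_contDiff y k).continuous_fderiv (by simp))

theorem enorm_tens_chi {Cc : ℝ≥0} (hCc : ∀ (y : E n) (r₁ r₂ : ℝ), 0 < r₁ → r₁ < r₂ →
    ∀ x, ‖fderiv ℝ (cut y r₁ r₂) x‖ ≤ Cc / (r₂ - r₁)) (y : E n) (k : ℤ) (x : E n) (a : V m)
    {C s : ℝ≥0∞} (ha : ‖a‖ₑ ≤ C * ENNReal.ofReal (rho k) * s) :
    ‖tens a (gradient (chi y k) x)‖ₑ ≤ 2 * Cc * C * s := by
  have hr := rho_pos k
  have h1 : ‖gradient (chi y k) x‖ ≤ 2 * Cc / rho k := by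
    rw [norm_gradient]
    refine (hCc y _ _ (by linarith) (by linarith) x).trans (le_of_eq ?_)
    field_simp; ring
  have h2 : ‖gradient (chi y k) x‖ₑ * ENNReal.ofReal (rho k) ≤ 2 * Cc := by
    rw [← ofReal_norm, ← ENNReal.ofReal_mul (norm_nonneg _)]
    rw [le_div_iff₀ hr] at h1
    refine (ENNReal.ofReal_le_ofReal h1).trans ?_
    rw [ENNReal.ofReal_mul (by norm_num)]; simp
  rw [← ofReal_norm, norm_tens, ENNReal.ofReal_mul (norm_nonneg _), ofReal_norm, ofReal_norm]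
  calc _ ≤ C * ENNReal.ofReal (rho k) * s * ‖gradient (chi y k) x‖ₑ := by gcongr
    _ = (‖gradient (chi y k) x‖ₑ * ENNReal.ofReal (rho k)) * C * s := by ring
    _ ≤ _ := by gcongr

theorem integrableOn_sig (hn : 3 ≤ n) {U : E n → Mt m n} {G : E n → ℝ≥0∞} (mU : Measurable U)
    (hG : Gd G) (hU : ∀ x, ‖U x‖ₑ = G x) (hc : Continuous (sig n : Mt m n → Mt m n))
    (hs : ∀ A : Mt m n, ‖sig n A‖ = ‖A‖ ^ (n - 1)) {A : Set (E n)} (hA : volume A ≠ ⊤) :
    IntegrableOn (fun x => sig n (U x)) A := by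
  refine ⟨(hc.measurable.comp mU).aestronglyMeasurable, ?_⟩
  have h1 : ∀ x, ‖sig n (U x)‖ₑ ≤ 1 + G x ^ n := by
    intro x
    rw [← ofReal_norm, hs, ENNReal.ofReal_pow (norm_nonneg _), ofReal_norm, hU]
    rcases le_total (G x) 1 with h | h
    · exact (pow_le_one₀ (zero_le) h).trans le_self_add
    · exact (pow_le_pow_right₀ h (by omega)).trans le_add_self
  refine (lintegral_mono h1).trans_lt ?_
  rw [lintegral_add_left measurable_const]
  refine ENNReal.add_lt_top.2 ⟨by simpa using hA.lt_top, ?_⟩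
  exact (setLIntegral_le_lintegral _ _).trans_lt hG.fin

theorem matching (hn : 3 ≤ n) (hM : StMdl) {U : E n → Mt m n} {y : E n} {k : ℤ} (β : V m)
    (hsi : sig n (isig n (-(cN n)⁻¹ • flux U y (rho k))) = -(cN n)⁻¹ • flux U y (rho k))
    (hU : IntegrableOn (fun x => sig n (U x)) (Zn y k))
    (hS : IntegrableOn (fun x => sig n (mdl (Ft U y k) y x)) (Zn y k)) :
    ∫ x in Zn y k, ⟪Sk U y k x, tens β (gradient (chi y k) x)⟫ = 0 := by
  obtain ⟨hc0, hfl, hmd⟩ := hM n hn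
  obtain ⟨Cc, -, hCc⟩ := exists_cut_bound
  have hr := rho_pos k
  have hb : ∀ x, ‖gradient (chi y k) x‖ ≤ Cc / (rho k - rho k / 2) := fun x => by
    rw [norm_gradient]; exact (hCc n y _ _ (by linarith) (by linarith)).1 x
  have mT : ∀ a : V m, AEStronglyMeasurable (fun x => tens a (gradient (chi y k) x))
      (volume.restrict (Zn y k)) := fun a =>
    (continuous_tens.comp (continuous_const.prodMk (continuous_gradient_chi y k))).aestronglyMeasurable
  have bT : ∀ a : V m, ∀ᵐ x ∂volume.restrict (Zn y k), ‖tens a (gradient (chi y k) x)‖ ≤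
      ‖a‖ * (Cc / (rho k - rho k / 2)) := fun a => Eventually.of_forall fun x => by
    rw [norm_tens]; gcongr; exact hb x
  have i1 := integrable_inner hU (mT β) (bT β)
  have i2 := integrable_inner hS (mT β) (bT β)
  simp only [Sk, inner_sub_left]
  rw [integral_sub i1 i2]
  have e1 : ∫ x in Zn y k, ⟪sig n (U x), tens β (gradient (chi y k) x)⟫ = ⟪flux U y (rho k), β⟫ := by
    simp only [inner_tens]
    rw [integral_finsetSum]
    · rw [PiLp.inner_apply]
      refine Finset.sum_congr rfl fun i _ => ?_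
      rw [integral_const_mul, setIntegral_eq_integral_of_forall_compl_eq_zero]
      · simp [flux, chi]
      · intro x hx; rw [gradient_chi_eq_zero hx, inner_zero_right]
    · intro i _
      refine Integrable.const_mul ?_ _
      have := integrable_inner hU (mT (EuclideanSpace.single i 1)) (bT _)
      refine this.congr (Eventually.of_forall fun x => ?_)
      simp [inner_tens]
  have e2 : ∫ x in Zn y k, ⟪sig n (mdl (Ft U y k) y x), tens β (gradient (chi y k) x)⟫ =
      ⟪flux U y (rho k), β⟫ := by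
    simp only [((hmd m (Ft U y k) y).1 _).2.1, inner_tens_tens]
    rw [integral_const_mul, setIntegral_eq_integral_of_forall_compl_eq_zero]
    · rw [chi, hfl y _ hr, Ft, hsi, inner_smul_left]
      simp only [conj_trivial]
      field_simp
    · intro x hx; rw [gradient_chi_eq_zero hx, inner_zero_right]
  rw [e1, e2, sub_self]

theorem zone (hn : 3 ≤ n) (hS : StSig) (hM : StMdl) (C₁ T : ℝ≥0) : ∃ c : ℝ, 0 < c ∧ ∃ K : ℝ≥0,
    ∀ (Co : ℝ≥0) (U : E n → Mt m n) (v : E n → V m) (G ν k' kf h : E n → ℝ≥0∞),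
    Str Co U v G ν k' kf h → ∀ (y e : E n) (k : ℤ) (i : ℕ), R1 C₁ T U v G h y e k →
    lam G y k ≠ ⊤ →
    (∀ x, ‖Sk U y k x‖ₑ ≤ K * Pk U y k x) ∧
    (∀ᵐ x, x ∈ Gm U G h y k i → ‖Pin U v y e k x‖ₑ ≤ K * ss U h y k x ∧
      ‖Pout U v y e k x‖ₑ ≤ K * ss U h y k x) ∧
    IntegrableOn (fun x => ⟪Sk U y k x, Pin U v y e k x⟫) (Gm U G h y k i) ∧
    IntegrableOn (fun x => ⟪Sk U y k x, Pout U v y e k x⟫) (Gm U G h y k i) ∧
    ∃ I : ℝ, 0 ≤ I ∧ ENNReal.ofReal I = ∫⁻ x in Gm U G h y k i, Pk U y k x * dev U y k x ∧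
      ∀ w₀ w₁ : ℝ≥0, ∃ Er : ℝ, (min w₀ w₁ : ℝ≥0) * (c * I) ≤
        w₀ * (∫ x in Gm U G h y k i, ⟪Sk U y k x, Pin U v y e k x⟫) +
          w₁ * (∫ x in Gm U G h y k i, ⟪Sk U y k x, Pout U v y e k x⟫) + Er ∧
      ENNReal.ofReal Er ≤ K ^ 2 * ((w₀ + w₁ : ℝ≥0) *
        ((∫⁻ x in Gm U G h y k i, Pk U y k x * (h x + xx U y k / ENNReal.ofReal (rho k))) +
        2 ^ i * lam G y k * ∫⁻ x in Zn y k \ Gm U G h y k i, Pk U y k x) +
        2 * ((nndist w₀ w₁ : ℝ≥0) * ∫⁻ x in Gm U G h y k i, Pk U y k x * ss U h y k x)) := by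
  obtain ⟨c, CS, hc, hCS, hsig, hisig⟩ := hS n hn
  obtain ⟨hcont, hsig⟩ := hsig (Mt m n)
  obtain ⟨Cc, hCc1, hCc⟩ := exists_cut_bound
  refine ⟨c, hc, CS.toNNReal + 2 + 2 * C₁ + 4 * Cc * C₁, ?_⟩
  intro Co U v G ν k' kf h hstr y e k i hR hlam
  set K : ℝ≥0 := CS.toNNReal + 2 + 2 * C₁ + 4 * Cc * C₁ with hK
  obtain ⟨ms1, -, hdiff, hZ, ⟨β, hβ, hgr⟩, -⟩ := hR
  obtain ⟨hmd, mmd, -, -, -, -⟩ := (hM n hn).2.2 m (Ft U y k) y
  have hr := rho_pos k
  set A : E n → Mt m n := fun x => mdl (Ft U y k) y x with hA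
  have mD : Measurable fun x => U x - A x := hstr.mU.sub mmd
  have mdev : Measurable (dev U y k) := mD.enorm
  have mP : Measurable (Pk U y k) := ((mmd.enorm.add mdev).pow_const _).mul mdev
  have mss : Measurable (ss U h y k) := ms1.add (measurable_mx hstr.mh)
  have mΓ : MeasurableSet (Gm U G h y k i) :=
    (measurableSet_Zn y k).inter (measurableSet_le mss measurable_const)
  set J : E n → ℝ := fun x => (‖A x‖ + ‖U x - A x‖) ^ (n - 2) * ‖U x - A x‖ * ‖U x - A x‖ with hJ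
  have eP : ∀ x, Pk U y k x = ENNReal.ofReal ((‖A x‖ + ‖U x - A x‖) ^ (n - 2) * ‖U x - A x‖) := by
    intro x
    rw [ENNReal.ofReal_mul (by positivity), ENNReal.ofReal_pow (by positivity),
      ENNReal.ofReal_add (norm_nonneg _) (norm_nonneg _), ofReal_norm, ofReal_norm]; rfl
  have eJ : ∀ x, ENNReal.ofReal (J x) = Pk U y k x * dev U y k x := by
    intro x
    rw [hJ, ENNReal.ofReal_mul (by positivity), ← eP, ofReal_norm]; rfl
  have hSP : ∀ x, ‖Sk U y k x‖ₑ ≤ K * Pk U y k x := by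
    intro x
    rw [← ofReal_norm, eP]
    refine (ENNReal.ofReal_le_ofReal (hsig (A x) (U x)).2.2.2).trans ?_
    rw [ENNReal.ofReal_mul hCS.le]
    gcongr
    rw [hK]; push_cast
    exact le_add_right (le_add_right le_self_add)
  have hhm : ∀ᵐ x, h x ≤ mx h x := le_mx_ae hstr.mh
  have k1 : (2 : ℝ≥0∞) * Cc * C₁ ≤ K := by
    rw [hK]; push_cast
    exact le_add_left (by gcongr; norm_num)
  have hd : ∀ x, dev U y k x ≤ ss U h y k x := fun x =>
    le_add_right (le_add_right (le_add_right le_self_add))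
  have hx : ∀ x, xx U y k / ENNReal.ofReal (rho k) ≤ ss U h y k x := fun x => by
    refine le_add_right (le_add_left ?_)
    gcongr; exact le_add_right le_add_self
  have hb : ∀ᵐ x, x ∈ Zn y k →
      ‖grad (xp U v y e k) x‖ₑ ≤ (2 + C₁ + 2 * Cc * C₁) * ss U h y k x ∧
      ‖tens (xp U v y e k x) (gradient (chi y k) x)‖ₑ ≤ 2 * Cc * C₁ * ss U h y k x ∧
      ‖tens β (gradient (chi y k) x)‖ₑ ≤ 2 * Cc * C₁ * ss U h y k x := by
    filter_upwards [hgr, hhm] with x h1 h2 hxZ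
    have t1 := enorm_tens_chi (fun y r₁ r₂ a b => (hCc n y r₁ r₂ a b).1) y k x _ (hZ x hxZ).2.2
    have t2 := enorm_tens_chi (fun y r₁ r₂ a b => (hCc n y r₁ r₂ a b).1) y k x _ (hβ x hxZ)
    refine ⟨?_, t1, t2⟩
    have e1 : grad (xp U v y e k) x = (grad (xp U v y e k) x - (U x - A x) +
        tens β (gradient (chi y k) x)) + (U x - A x) - tens β (gradient (chi y k) x) := by abel
    rw [e1]
    refine (enorm_sub_le).trans ((add_le_add (enorm_add_le _ _) t2).trans ?_)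
    have h3 : h x ≤ ss U h y k x := h2.trans le_add_self
    calc _ ≤ (ss U h y k x + C₁ * ss U h y k x) + ss U h y k x + 2 * Cc * C₁ * ss U h y k x := by
          gcongr
          · exact (h1 hxZ).trans (add_le_add h3 (by gcongr; exact hx x))
          · exact hd x
      _ = _ := by ring
  have k2 : (2 + C₁ + 2 * Cc * C₁ : ℝ≥0∞) + 2 * Cc * C₁ ≤ K := by
    rw [hK]; push_cast
    calc (2 + C₁ + 2 * Cc * C₁ : ℝ≥0∞) + 2 * Cc * C₁ = 2 + C₁ + 4 * Cc * C₁ := by ring
      _ ≤ (CS.toNNReal + 2) + 2 * C₁ + 4 * Cc * C₁ := by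
        gcongr
        · exact le_add_self
        · rw [two_mul]; exact le_self_add
  have hχ : ∀ x, 0 ≤ chi y k x ∧ chi y k x ≤ 1 := fun x => ⟨cut_nonneg _ _ _ _, cut_le_one _ _ _ _⟩
  have sm : ∀ (t : ℝ) (B : Mt m n), 0 ≤ t → t ≤ 1 → ‖t • B‖ₑ ≤ ‖B‖ₑ := fun t B h0 h1 => by
    rw [← ofReal_norm, ← ofReal_norm, norm_smul, Real.norm_eq_abs, abs_of_nonneg h0]
    exact ENNReal.ofReal_le_ofReal (by nlinarith [norm_nonneg B])
  refine ⟨hSP, ?_, ?_⟩
  · filter_upwards [hb] with x hx hxΓ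
    obtain ⟨a1, a2, -⟩ := hx hxΓ.1
    constructor
    · refine enorm_sub_le.trans ((add_le_add ((sm _ _ (by linarith [(hχ x).2])
        (by linarith [(hχ x).1])).trans a1) a2).trans ?_)
      rw [← add_mul]; gcongr
    · refine (enorm_add_le _ _).trans ((add_le_add ((sm _ _ (hχ x).1 (hχ x).2).trans a1) a2).trans ?_)
      rw [← add_mul]; gcongr
  have hfin : (K : ℝ≥0∞) * (2 ^ i * lam G y k) ≠ ⊤ := by finiteness
  have toR : ∀ {B : Mt m n} {s : ℝ≥0∞}, ‖B‖ₑ ≤ K * s → s ≤ 2 ^ i * lam G y k →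
      ‖B‖ ≤ (K * (2 ^ i * lam G y k)).toReal := fun {B s} h1 h2 => by
    rw [← ofReal_norm] at h1
    exact (ENNReal.ofReal_le_iff_le_toReal hfin).1 (h1.trans (by gcongr))
  have hK1 : (1 : ℝ≥0∞) + C₁ ≤ K := by
    rw [hK]; push_cast
    refine le_add_right (add_le_add (le_add_left one_le_two) ?_)
    rw [two_mul]; exact le_self_add
  have iU : IntegrableOn (fun x => sig n (U x)) (Zn y k) :=
    integrableOn_sig hn hstr.mU hstr.gd hstr.normU hcont (fun A => (hsig A A).1)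
      (ne_top_of_le_ne_top (vol_ball_ne_top y _) (measure_mono sdiff_subset))
  have iA : IntegrableOn (fun x => sig n (mdl (Ft U y k) y x)) (Zn y k) := by
    refine Measure.integrableOn_of_bounded (M := (‖Ft U y k‖ / (rho k / 2)) ^ (n - 1))
      (ne_top_of_le_ne_top (vol_ball_ne_top y _) (measure_mono sdiff_subset))
      (hcont.measurable.comp mmd).aestronglyMeasurable
      ((ae_restrict_iff' (measurableSet_Zn y k)).2 (Eventually.of_forall fun x hx => ?_))
    rw [(hsig _ (U x)).1, (hmd x).1]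
    gcongr
    exact (mem_Zn.1 hx).2
  have mT : AEStronglyMeasurable (fun x => tens (xp U v y e k x) (gradient (chi y k) x))
      (volume.restrict (Gm U G h y k i)) := by
    refine ContinuousOn.aestronglyMeasurable ?_ mΓ
    refine continuous_tens.comp_continuousOn (ContinuousOn.prodMk ?_
      (continuous_gradient_chi y k).continuousOn)
    exact fun x hx => (hdiff x (ne_of_mem_Zn hx.1)).continuousAt.continuousWithinAt
  have key := fun w₀ w₁ : ℝ≥0 => zone_bound (S := Sk U y k) (D := fun x => U x - A x)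
    (Gx := grad (xp U v y e k)) (Tξ := fun x => tens (xp U v y e k x) (gradient (chi y k) x))
    (Tβ := fun x => tens β (gradient (chi y k) x)) (χ := chi y k) (J := J) (P := Pk U y k)
    (s := ss U h y k) (hh := fun x => h x + xx U y k / ENNReal.ofReal (rho k)) (K := K)
    (w₀ := w₀) (w₁ := w₁) (t := 2 ^ i * lam G y k)
    (B := max (K * (2 ^ i * lam G y k)).toReal (‖β‖ * (Cc / (rho k - rho k / 2))))
    mΓ inter_subset_left (measurableSet_Zn y k) hc (iU.sub iA) mD.aestronglyMeasurable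
    (measurable_grad _).aestronglyMeasurable mT
    (continuous_tens.comp (continuous_const.prodMk
      (continuous_gradient_chi y k))).aestronglyMeasurable
    (chi_contDiff y k).continuous.measurable
    (((mmd.norm.add mD.norm).pow_const _).mul mD.norm |>.mul mD.norm) mP mss
    (hstr.mh.add measurable_const) hχ
    (fun x => ⟨by positivity, (hsig (A x) (U x)).2.1⟩) hSP
    (by
      filter_upwards [hb, hgr] with x h1 h2 hxΓ
      obtain ⟨a1, a2, a3⟩ := h1 hxΓ.1
      have b2 := a2.trans (mul_le_mul_left k1 _)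
      refine ⟨le_max_of_le_left (toR (s := ss U h y k x) ?_ hxΓ.2),
        le_max_of_le_left (toR (a1.trans (mul_le_mul_left (le_self_add.trans k2) _)) hxΓ.2),
        le_max_of_le_left (toR b2 hxΓ.2), (h2 hxΓ.1).trans ?_, b2, a3.trans (mul_le_mul_left k1 _)⟩
      · exact (hd x).trans (le_mul_of_one_le_left' (le_self_add.trans hK1))
      · rw [mul_add]
        exact add_le_add (le_mul_of_one_le_left' (le_self_add.trans hK1))
          (mul_le_mul_left (le_add_self.trans hK1) _))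
    (fun x _ => le_max_of_le_right (by
      rw [norm_tens, norm_gradient]; gcongr
      exact (hCc n y _ _ (by linarith) (by linarith)).1 x))
    (by
      rintro ⟨x₀, hx₀⟩ x _
      exact (enorm_tens_chi (fun y r₁ r₂ a b => (hCc n y r₁ r₂ a b).1) y k x _
        ((hβ x₀ hx₀.1).trans (mul_le_mul_right hx₀.2 _))).trans (mul_le_mul_left k1 _))
    (matching hn hM β (hisig m _).1 iU iA)
  refine ⟨(key 0 0).2.1, (key 0 0).2.2.1, ∫ x in Gm U G h y k i, J x,
    integral_nonneg fun x => by positivity, ?_, fun w₀ w₁ => (key w₀ w₁).2.2.2⟩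
  rw [ofReal_integral_eq_lintegral_ofReal (key 0 0).1 (Eventually.of_forall fun x => by positivity)]
  simp only [eJ]

end Pool.Agent.P.MP_28243e_an.RP2
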