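import Pool.Agent.P.MP_28243e_an.RP2b

/-! One truncated piece. -/

namespace Pool.Agent.P.MP_28243e_an.RP2

open Set MeasureTheory Metric Filter Topology ENNReal
open scoped NNReal ContDiff RealInnerProductSpace Classical

variable {n m : ℕ}

/-- jump of the flux, as a density on the shell -/
noncomputable def jd (U : E n → Mt m n) (y : E n) (k : ℤ) : ℝ≥0∞ :=
  dF U y k / ENNReal.ofReal (rho k ^ (n - 1))
/-- errors on the shell `k` -/
noncomputable def HH (U : E n → Mt m n) (G kf h : E n → ℝ≥0∞) (y : E n) (k : ℤ) (i : ℕ) : ℝ≥0∞ :=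
  (∫⁻ x in Gm U G h y k i, (kf x + jd U y k) * ss U h y k x) +
    2 ^ i * lam G y k * ∫⁻ x in Zn y k \ Gm U G h y k i, (Pk U y k x + kf x + jd U y k)

theorem gradient_sub' {f g : E n → ℝ} {x : E n} (hf : DifferentiableAt ℝ f x)
    (hg : DifferentiableAt ℝ g x) :
    gradient (fun z => f z - g z) x = gradient f x - gradient g x := by
  simp [gradient, fderiv_fun_sub hf hg]

theorem disjoint_Zn (y : E n) (k : ℤ) : Disjoint (Zn y k) (Zn y (k + 1)) := by
  rw [Set.disjoint_left]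
  intro x h1 h2
  have := (mem_Zn.1 h1).2
  have := (mem_Zn.1 h2).1
  rw [rho_succ] at this; linarith

theorem lam_succ_le (hn : 3 ≤ n) (G : E n → ℝ≥0∞) (y : E n) (k : ℤ) :
    lam G y (k + 1) ≤ 4 * lam G y k := by
  have hr := rho_pos k
  have := gs_le_gs hn G (x := y) (x' := y) (r := rho (k + 1)) (r' := rho k) (K := 2) (rho_pos _)
    (by rw [rho_succ]; simp; linarith) (by rw [rho_succ]; linarith)
  refine this.trans (le_of_eq ?_)
  rw [ENNReal.ofReal_pow (by norm_num)]; simp [lam]; norm_num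

theorem model_bound (hn : 3 ≤ n) (hM : StMdl) (U : E n → Mt m n) (y : E n) (k : ℤ)
    (φ : E n → V m) (K : ℝ≥0) (hφ : LipschitzWith K φ)
    (hs : tsupport φ ⊆ closedBall y (rho k) \ ball y (rho (k + 1 + 1)))
    (h0 : ∀ᵐ x, x ∉ Zn y k ∪ Zn y (k + 1) → grad φ x = 0) :
    ‖∫ x in Zn y k ∪ Zn y (k + 1), ⟪(if x ∈ Zn y k then sig n (mdl (Ft U y k) y x)
        else sig n (mdl (Ft U y (k + 1)) y x)), grad φ x⟫‖ₑ ≤
      ∫⁻ x in Zn y k ∪ Zn y (k + 1),
        (Zn y k).indicator (fun _ => 2 ^ (n - 1) * jd U y k) x * ‖grad φ x‖ₑ := by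
  obtain ⟨-, -, hmd⟩ := hM n hn
  have hR : MeasurableSet (Zn y k ∪ Zn y (k + 1)) := (measurableSet_Zn _ _).union (measurableSet_Zn _ _)
  have hc : HasCompactSupport φ :=
    (isCompact_closedBall y (rho k)).of_isClosed_subset (isClosed_tsupport φ)
      (hs.trans sdiff_subset)
  have hy : y ∉ tsupport φ := fun h => (hs h).2 (mem_ball_self (rho_pos _))
  set F₀ := sig n (Ft U y k)
  set F₁ := sig n (Ft U y (k + 1))
  obtain ⟨i1, e1⟩ := (hmd m F₁ y).2.2.2.2.2 φ K hφ hc hy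
  obtain ⟨i2, -⟩ := (hmd m (F₀ - F₁) y).2.2.2.2.2 φ K hφ hc hy
  have e2 : ∀ x, ⟪(if x ∈ Zn y k then sig n (mdl (Ft U y k) y x)
        else sig n (mdl (Ft U y (k + 1)) y x)), grad φ x⟫ = ⟪tens F₁ (newt y x), grad φ x⟫ +
        (Zn y k).indicator (fun x => ⟪tens (F₀ - F₁) (newt y x), grad φ x⟫) x := by
    intro x
    by_cases hx : x ∈ Zn y k
    · rw [if_pos hx, indicator_of_mem hx, ((hmd m _ y).1 x).2.1, tens_sub_left, inner_sub_left]; ring
    · rw [if_neg hx, indicator_of_notMem hx, ((hmd m _ y).1 x).2.1, add_zero]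
  simp only [e2]
  rw [integral_add i1.integrableOn (i2.indicator (measurableSet_Zn _ _)).integrableOn,
    setIntegral_eq_integral_of_ae_compl_eq_zero (h0.mono fun x hx hx' => by
      rw [hx hx', inner_zero_right]), e1, zero_add]
  refine (enorm_integral_le_lintegral_enorm _).trans (lintegral_mono fun x => ?_)
  by_cases hx : x ∈ Zn y k
  · rw [indicator_of_mem hx, indicator_of_mem hx]
    refine (le_of_eq ?_).trans ((ofReal_inner_le (tens (F₀ - F₁) (newt y x)) (grad φ x)).trans ?_)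
    · rw [← ofReal_norm, Real.norm_eq_abs]
    gcongr
    have hr := rho_pos k
    rw [← ofReal_norm, norm_tens, ((hmd m F₀ y).1 x).2.2, jd, dF, ← ofReal_norm, norm_sub_rev,
      ← ENNReal.ofReal_div_of_pos (by positivity)]
    have e3 : (2 : ℝ≥0∞) ^ (n - 1) = ENNReal.ofReal (2 ^ (n - 1)) := by
      rw [ENNReal.ofReal_pow (by norm_num)]; simp
    rw [e3, ← ENNReal.ofReal_mul (by positivity)]
    apply ENNReal.ofReal_le_ofReal
    have h3 : (‖x - y‖ ^ (n - 1))⁻¹ ≤ ((rho k / 2) ^ (n - 1))⁻¹ := by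
      gcongr; exact (mem_Zn.1 hx).2
    calc _ ≤ ‖F₁ - F₀‖ * ((rho k / 2) ^ (n - 1))⁻¹ := by gcongr
      _ = _ := by rw [div_pow]; field_simp; rfl
  · simp [indicator_of_notMem hx]

theorem piece (hn : 3 ≤ n) (hLT : StLT) (hS : StSig) (hM : StMdl) (C₁ T K : ℝ≥0) : ∃ K' : ℝ≥0,
    ∀ (Co : ℝ≥0) (U : E n → Mt m n) (v : E n → V m) (G ν k' kf h : E n → ℝ≥0∞),
    Str Co U v G ν k' kf h → ∀ (y e : E n) (k : ℤ) (i : ℕ) (δ : ℝ), 0 < δ → δ ≤ 1 / 4 →
    R1 C₁ T U v G h y e k → R1 C₁ T U v G h y e (k + 1) → lam G y k ≠ ⊤ →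
    ball y (rho (k - 1)) ⊆ ball 0 (1 / 2) →
    (∀ x, ‖Sk U y k x‖ₑ ≤ K * Pk U y k x) → (∀ x, ‖Sk U y (k + 1) x‖ₑ ≤ K * Pk U y (k + 1) x) →
    (∀ᵐ x, x ∈ Gm U G h y k i → ‖Pout U v y e k x‖ₑ ≤ K * ss U h y k x) →
    (∀ᵐ x, x ∈ Gm U G h y (k + 1) i → ‖Pin U v y e (k + 1) x‖ₑ ≤ K * ss U h y (k + 1) x) →
    ENNReal.ofReal ((∫ x in Gm U G h y k i, ⟪Sk U y k x, Pout U v y e k x⟫) +
      ∫ x in Gm U G h y (k + 1) i, ⟪Sk U y (k + 1) x, Pin U v y e (k + 1) x⟫) ≤
      K' * (HH U G kf h y k i + HH U G kf h y (k + 1) i + nu ν y (k + 1) *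
        (ah G y (k + 1) ^ (1 / 2 : ℝ) +
          (i + 1) * 2 ^ ((i : ℝ) * δ / 2) * BB T δ G y (k + 1) ^ (1 / (n : ℝ)))) := by
  obtain ⟨CL, hLT⟩ := hLT n m hn
  obtain ⟨c, CS, hc, hCS, hsig, -⟩ := hS n hn
  obtain ⟨hcont, hsig⟩ := hsig (Mt m n)
  obtain ⟨Cc, hCc1, hCc⟩ := exists_cut_bound
  refine ⟨CL * C₁ + 2 ^ (n - 1) * K + CL * (C₁ + 3 * Cc * C₁) * 4 * (K + 2 ^ (n - 1)), ?_⟩
  intro Co U v G ν k' kf h hstr y e k i δ hδ0 hδ hR0 hR1 hlam hdom hS0 hS1 hP0 hP1
  obtain ⟨ms0, -, -, hZ0, -, -⟩ := hR0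
  obtain ⟨ms1, -, hdiff, -, -, hlev⟩ := hR1
  obtain ⟨hlip, hbd⟩ := hlev i
  simp only [add_sub_cancel_right] at hlip hbd
  have hr := rho_pos k
  have hr1 := rho_pos (k + 1)
  have er1 := rho_succ k
  have er2 := rho_succ (k + 1)
  have hl4 := lam_succ_le hn G y k
  have hlam1 : lam G y (k + 1) ≠ ⊤ := ne_top_of_le_ne_top (by finiteness) hl4
  set t : ℝ≥0∞ := 2 ^ i * lam G y (k + 1) with ht
  have htf : t ≠ ⊤ := by rw [ht]; finiteness
  set b₁ : ℝ≥0∞ := ah G y (k + 1) ^ (1 / 2 : ℝ) +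
    (i + 1) * 2 ^ ((i : ℝ) * δ / 2) * BB T δ G y (k + 1) ^ (1 / (n : ℝ)) with hb₁
  set b : ℝ≥0∞ := min (C₁ * ENNReal.ofReal (rho (k + 1)) * t) (C₁ * b₁) with hb
  have hbf : b ≠ ⊤ := ne_top_of_le_ne_top (by finiteness) (min_le_left _ _)
  have mss0 : Measurable (ss U h y k) := ms0.add (measurable_mx hstr.mh)
  have mss1 : Measurable (ss U h y (k + 1)) := ms1.add (measurable_mx hstr.mh)
  have mΓ0 : MeasurableSet (Gm U G h y k i) :=
    (measurableSet_Zn y k).inter (measurableSet_le mss0 measurable_const)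
  have mΓ1 : MeasurableSet (Gm U G h y (k + 1) i) :=
    (measurableSet_Zn y _).inter (measurableSet_le mss1 measurable_const)
  have mZ0 := measurableSet_Zn y k
  have mZ1 := measurableSet_Zn y (k + 1)
  have dχ : ∀ l x, DifferentiableAt ℝ (chi y l) x := fun l x =>
    (chi_contDiff y l).differentiable (by simp) x
  set π : E n → ℝ := fun x => chi y k x - chi y (k + 1) x with hπ
  have gπ : ∀ x, gradient π x = gradient (chi y k) x - gradient (chi y (k + 1)) x := fun x =>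
    gradient_sub' (dχ _ _) (dχ _ _)
  have c1 : ∀ x, ‖x - y‖ ≤ rho (k + 1) → chi y k x = 1 := fun x hx =>
    cut_eq_one (by linarith) (by linarith) (by linarith)
  have c2 : ∀ x, rho (k + 1) ≤ ‖x - y‖ → chi y (k + 1) x = 0 := fun x hx =>
    cut_eq_zero (by linarith) (by linarith) hx
  have hoff : ∀ x ∉ Zn y k ∪ Zn y (k + 1), π x = 0 := by
    intro x hx
    rw [mem_union, not_or, mem_Zn, mem_Zn] at hx
    by_cases h1 : rho k ≤ ‖x - y‖
    · rw [hπ]; dsimp only
      rw [c2 x (by linarith), chi, cut_eq_zero (by linarith) (by linarith) h1, sub_self]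
    · push Not at hx h1
      have h2 := hx.1 h1
      have h3 := hx.2 (by linarith)
      rw [hπ]; dsimp only
      rw [c1 x (by linarith), chi, cut_eq_one (by linarith) (by linarith) h3.le, sub_self]
  have hsupp : tsupport π ⊆ closedBall y (rho k) \ ball y (rho (k + 1 + 1)) := by
    apply closure_minimal _ (isClosed_closedBall.sdiff isOpen_ball)
    intro x hx
    have : x ∈ Zn y k ∪ Zn y (k + 1) := by by_contra hc; exact hx (hoff x hc)
    rw [mem_union, mem_Zn, mem_Zn] at this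
    rw [Set.mem_sdiff, mem_closedBall, mem_ball, dist_eq_norm, not_lt]
    rcases this with h1 | h1 <;> constructor <;> linarith [h1.1, h1.2]
  have hcb : closedBall y (rho k) ⊆ ball 0 (1 / 2) :=
    (closedBall_subset_ball (by rw [rho_pred]; linarith)).trans hdom
  have hRb : Zn y k ∪ Zn y (k + 1) ⊆ closedBall y (rho k) := by
    intro x hx
    rw [mem_union, mem_Zn, mem_Zn] at hx
    rw [mem_closedBall, dist_eq_norm]
    rcases hx with h1 | h1 <;> linarith [h1.1]
  obtain ⟨hmd0, mm0, -⟩ := (hM n hn).2.2 m (Ft U y k) y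
  obtain ⟨hmd1, mm1, -⟩ := (hM n hn).2.2 m (Ft U y (k + 1)) y
  set Lπ : ℝ≥0 := (Cc / (rho k - rho k / 2)).toNNReal +
    (Cc / (rho (k + 1) - rho (k + 1) / 2)).toNNReal with hLπ
  have key := hLT Co U v G ν k' kf h hstr (xp U v y e (k + 1)) π (Zn y k ∪ Zn y (k + 1))
    (Gm U G h y k i ∪ Gm U G h y (k + 1) i)
    (fun x => if x ∈ Zn y k then sig n (mdl (Ft U y k) y x) else sig n (mdl (Ft U y (k + 1)) y x))
    ((Zn y k).indicator fun _ => 2 ^ (n - 1) * jd U y k) (C₁ * t).toNNReal b.toNNReal Lπ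
    (max ((‖Ft U y k‖ / (rho k / 2)) ^ (n - 1)) ((‖Ft U y (k + 1)‖ / (rho (k + 1) / 2)) ^ (n - 1)))
    (mZ0.union mZ1) (mΓ0.union mΓ1) (union_subset_union inter_subset_left inter_subset_left)
    (hRb.trans (hcb.trans (ball_subset_ball (by norm_num))))
    (((chi_contDiff y k).sub (chi_contDiff y (k + 1))).of_le (by simp))
    (fun x => by
      have a1 := cut_nonneg y (rho k / 2) (rho k) x
      have a2 := cut_le_one y (rho k / 2) (rho k) x
      have a3 := cut_nonneg y (rho (k + 1) / 2) (rho (k + 1)) x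
      have a4 := cut_le_one y (rho (k + 1) / 2) (rho (k + 1)) x
      rw [hπ, abs_le]; simp only [chi]; constructor <;> linarith)
    (((hCc n y _ _ (by linarith) (by linarith)).2).sub (hCc n y _ _ (by linarith) (by linarith)).2)
    (hsupp.trans (sdiff_subset.trans hcb))
    (fun x hx => ⟨hoff x hx, by
      rw [gπ, gradient_chi_eq_zero (fun h => hx (Or.inl h)),
        gradient_chi_eq_zero (fun h => hx (Or.inr h)), sub_self]⟩)
    (Measurable.ite mZ0 (hcont.measurable.comp mm0) (hcont.measurable.comp mm1))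
    (fun x hx => by
      by_cases h1 : x ∈ Zn y k
      · rw [if_pos h1, (hsig _ (U x)).1, (hmd0 x).1]
        refine le_max_of_le_left ?_
        gcongr; exact (mem_Zn.1 h1).2
      · rw [if_neg h1, (hsig _ (U x)).1, (hmd1 x).1]
        refine le_max_of_le_right ?_
        gcongr; exact (mem_Zn.1 (hx.resolve_left h1)).2)
    (measurable_const.indicator mZ0)
    (fun φ K hφ hs h0 => model_bound hn hM U y k φ K hφ (hs.trans hsupp) h0)
    (fun x hx x' hx' => by
      rw [ENNReal.coe_toNNReal (by finiteness), edist_eq_enorm_sub, edist_eq_enorm_sub]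
      exact hlip x hx x' hx')
    (fun x hx => by
      rw [← toReal_enorm]
      exact ENNReal.toReal_mono hbf (le_min (hbd x hx).1 ((hbd x hx).2 δ hδ0 hδ)))
    (fun x hx => hdiff x (by
      rcases hx with hx | hx
      · exact ne_of_mem_Zn hx.1
      · exact ne_of_mem_Zn hx.1))
  obtain ⟨hint, key⟩ := key
  have dΓ : Disjoint (Gm U G h y k i) (Gm U G h y (k + 1) i) :=
    (disjoint_Zn y k).mono inter_subset_left inter_subset_left
  have a0 : ∀ x ∈ Zn y k, π x • grad (xp U v y e (k + 1)) x +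
      tens (xp U v y e (k + 1) x) (gradient π x) = Pout U v y e k x := by
    intro x hx
    have h1 : x ∉ Zn y (k + 1) := Set.disjoint_left.1 (disjoint_Zn y k) hx
    rw [gπ, gradient_chi_eq_zero h1, sub_zero, (hZ0 x hx).1, (hZ0 x hx).2.1, hπ]
    dsimp only
    rw [c2 x (by linarith [(mem_Zn.1 hx).2]), sub_zero, Pout]
  have a1 : ∀ x ∈ Zn y (k + 1), π x • grad (xp U v y e (k + 1)) x +
      tens (xp U v y e (k + 1) x) (gradient π x) = Pin U v y e (k + 1) x := by
    intro x hx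
    have h1 : x ∉ Zn y k := Set.disjoint_right.1 (disjoint_Zn y k) hx
    rw [gπ, gradient_chi_eq_zero h1, hπ]
    dsimp only
    rw [c1 x (mem_Zn.1 hx).1.le, tens_sub_right, Pin]
    have : tens (xp U v y e (k + 1) x) (0 : E n) = 0 := by ext p; simp [tens]
    rw [this]; abel
  rw [setIntegral_union dΓ mΓ1 (hint.mono_set subset_union_left) (hint.mono_set subset_union_right),
    setIntegral_congr_fun mΓ0 (g := fun x => ⟪Sk U y k x, Pout U v y e k x⟫)
      (fun x hx => by dsimp only; rw [a0 x hx.1, if_pos hx.1, Sk]),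
    setIntegral_congr_fun mΓ1 (g := fun x => ⟪Sk U y (k + 1) x, Pin U v y e (k + 1) x⟫)
      (fun x hx => by
        dsimp only
        rw [a1 x hx.1, if_neg (Set.disjoint_right.1 (disjoint_Zn y k) hx.1), Sk])] at key
  refine key.trans ?_
  rw [ENNReal.coe_toNNReal hbf, ENNReal.coe_toNNReal (by finiteness)]
  set H0 := HH U G kf h y k i
  set H1 := HH U G kf h y (k + 1) i
  have p1 : (1 : ℝ≥0∞) ≤ 2 ^ (n - 1) := one_le_pow₀ one_le_two
  have t1 : (CL : ℝ≥0∞) * b * ∫⁻ x in Zn y k ∪ Zn y (k + 1), ν x ≤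
      (CL * C₁) * (H0 + H1 + nu ν y (k + 1) * b₁) := by
    have : ∫⁻ x in Zn y k ∪ Zn y (k + 1), ν x ≤ nu ν y (k + 1) := by
      apply lintegral_mono_set
      intro x hx
      rw [mem_union, mem_Zn, mem_Zn] at hx
      have e3 : rho (k + 1 + 2) = rho (k + 1) / 4 := by
        rw [show k + 1 + 2 = k + 1 + 1 + 1 by ring, rho_succ, er2]; ring
      rw [add_sub_cancel_right, Set.mem_sdiff, mem_ball, mem_ball, dist_eq_norm, not_lt, e3]
      rcases hx with h1 | h1 <;> constructor <;> linarith [h1.1, h1.2]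
    calc _ ≤ (CL : ℝ≥0∞) * (C₁ * b₁) * nu ν y (k + 1) := by gcongr; exact min_le_right _ _
      _ = (CL * C₁) * (nu ν y (k + 1) * b₁) := by ring
      _ ≤ _ := by gcongr; exact le_add_self
  have t2 : ∫⁻ x in Gm U G h y k i ∪ Gm U G h y (k + 1) i,
      (kf x + (Zn y k).indicator (fun _ => 2 ^ (n - 1) * jd U y k) x) *
      ‖π x • grad (xp U v y e (k + 1)) x + tens (xp U v y e (k + 1) x) (gradient π x)‖ₑ ≤
      (2 ^ (n - 1) * K) * (H0 + H1 + nu ν y (k + 1) * b₁) := by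
    refine (lintegral_union_le _ _ _).trans ?_
    have u0 : ∫⁻ x in Gm U G h y k i, (kf x + (Zn y k).indicator (fun _ => 2 ^ (n - 1) * jd U y k) x) *
        ‖π x • grad (xp U v y e (k + 1)) x + tens (xp U v y e (k + 1) x) (gradient π x)‖ₑ ≤
        (2 ^ (n - 1) * K) * H0 := by
      refine le_trans ?_ (mul_le_mul_right le_self_add _)
      rw [← lintegral_const_mul' _ _ (by finiteness)]
      refine lintegral_mono_ae ((ae_restrict_iff' mΓ0).2 (hP0.mono fun x hx hxΓ => ?_))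
      rw [a0 x hxΓ.1, indicator_of_mem hxΓ.1]
      calc _ ≤ (2 ^ (n - 1) * kf x + 2 ^ (n - 1) * jd U y k) * (K * ss U h y k x) := by
            gcongr
            · exact le_mul_of_one_le_left' p1
            · exact hx hxΓ
        _ = _ := by ring
    have u1 : ∫⁻ x in Gm U G h y (k + 1) i,
        (kf x + (Zn y k).indicator (fun _ => 2 ^ (n - 1) * jd U y k) x) *
        ‖π x • grad (xp U v y e (k + 1)) x + tens (xp U v y e (k + 1) x) (gradient π x)‖ₑ ≤
        (2 ^ (n - 1) * K) * H1 := by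
      refine le_trans ?_ (mul_le_mul_right le_self_add _)
      rw [← lintegral_const_mul' _ _ (by finiteness)]
      refine lintegral_mono_ae ((ae_restrict_iff' mΓ1).2 (hP1.mono fun x hx hxΓ => ?_))
      rw [a1 x hxΓ.1, indicator_of_notMem (Set.disjoint_right.1 (disjoint_Zn y k) hxΓ.1), add_zero]
      calc _ ≤ (2 ^ (n - 1) * (kf x + jd U y (k + 1))) * (K * ss U h y (k + 1) x) := by
            gcongr
            · exact le_self_add.trans (le_mul_of_one_le_left' p1)
            · exact hx hxΓ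
        _ = _ := by ring
    refine (add_le_add u0 u1).trans ?_
    rw [← mul_add]; exact mul_le_mul_right le_self_add _
  have hLb : (Lπ : ℝ≥0∞) * ENNReal.ofReal (rho (k + 1)) ≤ 3 * Cc := by
    have e1 : (Lπ : ℝ) * rho (k + 1) = 3 * Cc := by
      rw [hLπ, NNReal.coe_add, Real.coe_toNNReal _ (by apply div_nonneg Cc.2; linarith),
        Real.coe_toNNReal _ (by apply div_nonneg Cc.2; linarith), er1]
      field_simp; ring
    rw [← ENNReal.ofReal_coe_nnreal, ← ENNReal.ofReal_mul (NNReal.coe_nonneg _), e1,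
      ENNReal.ofReal_mul (by norm_num)]
    simp
  have t3 : (CL : ℝ≥0∞) * (C₁ * t + Lπ * b) *
      ∫⁻ x in (Zn y k ∪ Zn y (k + 1)) \ (Gm U G h y k i ∪ Gm U G h y (k + 1) i),
      (‖sig n (U x) - if x ∈ Zn y k then sig n (mdl (Ft U y k) y x)
        else sig n (mdl (Ft U y (k + 1)) y x)‖ₑ + kf x +
        (Zn y k).indicator (fun _ => 2 ^ (n - 1) * jd U y k) x) ≤
      (CL * (C₁ + 3 * Cc * C₁) * 4 * (K + 2 ^ (n - 1))) * (H0 + H1 + nu ν y (k + 1) * b₁) := by
    have v0 : (C₁ * t + Lπ * b : ℝ≥0∞) ≤ (C₁ + 3 * Cc * C₁) * t := by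
      calc _ ≤ C₁ * t + Lπ * (C₁ * ENNReal.ofReal (rho (k + 1)) * t) := by
            gcongr; exact min_le_left _ _
        _ = C₁ * t + (Lπ * ENNReal.ofReal (rho (k + 1))) * C₁ * t := by ring
        _ ≤ C₁ * t + (3 * Cc) * C₁ * t := by gcongr
        _ = _ := by ring
    set I0 := ∫⁻ x in Zn y k \ Gm U G h y k i, (Pk U y k x + kf x + jd U y k)
    set I1 := ∫⁻ x in Zn y (k + 1) \ Gm U G h y (k + 1) i,
      (Pk U y (k + 1) x + kf x + jd U y (k + 1))
    have p2 : (1 : ℝ≥0∞) ≤ K + 2 ^ (n - 1) := p1.trans le_add_self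
    have v1 : ∫⁻ x in (Zn y k ∪ Zn y (k + 1)) \ (Gm U G h y k i ∪ Gm U G h y (k + 1) i),
        (‖sig n (U x) - if x ∈ Zn y k then sig n (mdl (Ft U y k) y x)
          else sig n (mdl (Ft U y (k + 1)) y x)‖ₑ + kf x +
          (Zn y k).indicator (fun _ => 2 ^ (n - 1) * jd U y k) x) ≤
        (K + 2 ^ (n - 1)) * I0 + (K + 2 ^ (n - 1)) * I1 := by
      refine (lintegral_mono_set (t := (Zn y k \ Gm U G h y k i) ∪
        (Zn y (k + 1) \ Gm U G h y (k + 1) i)) ?_).trans ((lintegral_union_le _ _ _).trans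
        (add_le_add ?_ ?_))
      · rintro x ⟨h1 | h1, h2⟩
        · exact Or.inl ⟨h1, fun h => h2 (Or.inl h)⟩
        · exact Or.inr ⟨h1, fun h => h2 (Or.inr h)⟩
      · rw [← lintegral_const_mul' _ _ (by finiteness)]
        refine setLIntegral_mono' (mZ0.diff mΓ0) fun x hx => ?_
        rw [if_pos hx.1, indicator_of_mem hx.1, mul_add, mul_add]
        gcongr
        · exact (hS0 x).trans (by gcongr; exact le_self_add)
        · exact le_mul_of_one_le_left' p2
        · exact le_add_self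
      · rw [← lintegral_const_mul' _ _ (by finiteness)]
        refine setLIntegral_mono' (mZ1.diff mΓ1) fun x hx => ?_
        have h1 : x ∉ Zn y k := Set.disjoint_right.1 (disjoint_Zn y k) hx.1
        rw [if_neg h1, indicator_of_notMem h1, mul_add, mul_add]
        gcongr
        · exact (hS1 x).trans (by gcongr; exact le_self_add)
        · exact le_mul_of_one_le_left' p2
        · exact zero_le
    have v2 : t * I0 ≤ 4 * H0 := by
      calc t * I0 ≤ (2 ^ i * (4 * lam G y k)) * I0 := by rw [ht]; gcongr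
        _ = 4 * (2 ^ i * lam G y k * I0) := by ring
        _ ≤ _ := by gcongr; exact le_add_self
    have v3 : t * I1 ≤ 4 * H1 :=
      (le_add_self : t * I1 ≤ H1).trans (le_mul_of_one_le_left' (by norm_num))
    calc _ ≤ (CL : ℝ≥0∞) * ((C₁ + 3 * Cc * C₁) * t) *
          ((K + 2 ^ (n - 1)) * I0 + (K + 2 ^ (n - 1)) * I1) := by gcongr
      _ = CL * (C₁ + 3 * Cc * C₁) * (K + 2 ^ (n - 1)) * (t * I0 + t * I1) := by ring
      _ ≤ CL * (C₁ + 3 * Cc * C₁) * (K + 2 ^ (n - 1)) * (4 * H0 + 4 * H1) := by gcongr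
      _ = (CL * (C₁ + 3 * Cc * C₁) * 4 * (K + 2 ^ (n - 1))) * (H0 + H1) := by ring
      _ ≤ _ := mul_le_mul_right le_self_add _
  refine (add_le_add (add_le_add t1 t2) t3).trans (le_of_eq ?_)
  push_cast
  ring

end Pool.Agent.P.MP_28243e_an.RP2
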