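import Pool.Agent.P.MP_28243e_an.RP3b

/-! Bounds for the absorbing density along a chain of shells. -/

namespace Pool.Agent.P.MP_28243e_an

open Set MeasureTheory Metric Filter Topology ENNReal
open scoped NNReal ContDiff RealInnerProductSpace Classical

namespace RP3

variable {n m : ℕ} {C : ℝ≥0} {U : E n → Mt m n} {G : E n → ℝ≥0∞} {y : E n}

/-- The right-hand side. -/
noncomputable def Sg (c : ℝ≥0) (δ : ℝ) (U : E n → Mt m n) (G : E n → ℝ≥0∞) (y : E n) (k : ℤ) :
    ℝ≥0∞ :=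
  ∑ l ∈ Finset.Icc (k - 2) (k + 2), (XX c δ U G y l + ah G y l ^ (n - 2) * xx U y l ^ 2)

theorem Hy.int_sq (H : Hy C U G y) (hn : 3 ≤ n) {c : ℝ≥0} (hc : 0 < c) {δ : ℝ} (hδ : 0 < δ)
    (hδ1 : δ ≤ 1 / 4) (k : ℤ) :
    lam G y k ^ (n - 2) * ∫⁻ x, DG U y k x ^ 2 ≤
      16 ^ n * (((1 + c⁻¹ ^ (n - 2) : ℝ≥0) : ℝ≥0∞) + (vb n).toNNReal) * Sg c δ U G y k := by
  rw [← lintegral_const_mul' _ _ (ENNReal.pow_ne_top (H.lam_ne_top k))]
  refine (lint_le_sum (I := Finset.Icc (k - 2) (k + 2)) (y := y)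
    (F := fun l x => 16 ^ n * (((1 + c⁻¹ ^ (n - 2) : ℝ≥0) : ℝ≥0∞) *
      Phi n (lam G y l) δ ‖mdl (Ft U y l) y x‖ₑ (dev U y l x) +
      if ff U y l < c * ah G y l then lam G y l ^ n else 0))
    (fun l => (((H.meas_phi δ l).const_mul _).add_const _).const_mul _) fun x => ?_).trans ?_
  · rcases DG_cases (U := U) (y := y) k x with h | ⟨l, hl, hx, h⟩
    · left; rw [h]; simp
    · refine Or.inr ⟨l, hl, hx, ?_⟩
      rw [h]
      calc lam G y k ^ (n - 2) * dev U y l x ^ 2
          ≤ (16 * lam G y l) ^ (n - 2) * dev U y l x ^ 2 := by gcongr; exact (H.lam_near hl).2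
        _ = 16 ^ (n - 2) * (lam G y l ^ (n - 2) * dev U y l x ^ 2) := by rw [mul_pow]; ring
        _ ≤ _ := mul_le_mul' (pow_le_pow_right₀ (by norm_num) (by omega))
            (sq_le_phi hn hδ hδ1 hc (H.lam_ne l) (H.lam_ne_top l) (dev_ne_top l x) (H.mu_ge hx))
  · unfold Sg
    rw [Finset.mul_sum]
    refine Finset.sum_le_sum fun l _ => ?_
    rw [lintegral_const_mul' _ _ (ENNReal.pow_ne_top (by norm_num)),
      lintegral_add_right _ measurable_const, lintegral_const_mul' _ _ ENNReal.coe_ne_top,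
      setLIntegral_const, mul_assoc]
    gcongr
    have h1 : (if ff U y l < c * ah G y l then lam G y l ^ n else 0) * volume (Zn y l) ≤
        (vb n).toNNReal * YY c U G y l := by
      unfold YY Yq
      split_ifs
      · refine (mul_le_mul_right (vol_Zn y l) _).trans (le_of_eq ?_)
        unfold ah; rw [mul_pow]; ring
      · simp
    calc _ ≤ ((1 + c⁻¹ ^ (n - 2) : ℝ≥0) : ℝ≥0∞) * en δ U G y l + (vb n).toNNReal * YY c U G y l :=
          add_le_add le_rfl h1
      _ ≤ ((1 + c⁻¹ ^ (n - 2) : ℝ≥0) : ℝ≥0∞) * (XX c δ U G y l + ah G y l ^ (n - 2) * xx U y l ^ 2)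
          + (vb n).toNNReal * (XX c δ U G y l + ah G y l ^ (n - 2) * xx U y l ^ 2) := by
          gcongr
          · exact le_self_add.trans le_self_add
          · exact le_add_self.trans le_self_add
      _ = _ := by ring

theorem Hy.int_big (H : Hy C U G y) (hn : 3 ≤ n) (c : ℝ≥0) {δ : ℝ} (hδ : 0 < δ)
    (hδ1 : δ ≤ 1 / 4) (k : ℤ) {g : E n → ℝ≥0∞} {A : Set (E n)} (hA : MeasurableSet A)
    (h : ∀ x ∈ A, ∃ l ∈ Finset.Icc (k - 2) (k + 2), x ∈ Zn y l ∧ lam G y l ≤ dev U y l x ∧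
      g x ≤ 2 * dev U y l x) :
    lam G y k ^ δ * ∫⁻ x in A, g x ^ ((n : ℝ) - δ) ≤ 16 * 2 ^ n * Sg c δ U G y k := by
  have h3 : (3 : ℝ) ≤ n := by exact_mod_cast hn
  have hq : 0 ≤ (n : ℝ) - δ := by linarith
  rw [← lintegral_indicator hA,
    ← lintegral_const_mul' _ _ (ENNReal.rpow_ne_top_of_nonneg hδ.le (H.lam_ne_top k))]
  refine (lint_le_sum (I := Finset.Icc (k - 2) (k + 2)) (y := y)
    (F := fun l x => 16 * 2 ^ n * Phi n (lam G y l) δ ‖mdl (Ft U y l) y x‖ₑ (dev U y l x))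
    (fun l => (H.meas_phi δ l).const_mul _) fun x => ?_).trans ?_
  · by_cases hx : x ∈ A
    · obtain ⟨l, hl, hz, h1, h2⟩ := h x hx
      refine Or.inr ⟨l, hl, hz, ?_⟩
      rw [indicator_of_mem hx]
      have e1 : lam G y k ^ δ ≤ 16 * lam G y l ^ δ := by
        calc lam G y k ^ δ ≤ (16 * lam G y l) ^ δ := ENNReal.rpow_le_rpow (H.lam_near hl).2 hδ.le
          _ = 16 ^ δ * lam G y l ^ δ := ENNReal.mul_rpow_of_nonneg _ _ hδ.le
          _ ≤ 16 ^ (1 : ℝ) * lam G y l ^ δ :=
              mul_le_mul_left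
                (ENNReal.rpow_le_rpow_of_exponent_le (by norm_num) (by linarith)) _
          _ = _ := by rw [ENNReal.rpow_one]
      have e2 : g x ^ ((n : ℝ) - δ) ≤ 2 ^ n * dev U y l x ^ ((n : ℝ) - δ) := by
        calc g x ^ ((n : ℝ) - δ) ≤ (2 * dev U y l x) ^ ((n : ℝ) - δ) := ENNReal.rpow_le_rpow h2 hq
          _ = 2 ^ ((n : ℝ) - δ) * dev U y l x ^ ((n : ℝ) - δ) := ENNReal.mul_rpow_of_nonneg _ _ hq
          _ ≤ _ := mul_le_mul_left (rpow_le_pow (by norm_num) (by linarith)) _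
      calc lam G y k ^ δ * g x ^ ((n : ℝ) - δ)
          ≤ 16 * lam G y l ^ δ * (2 ^ n * dev U y l x ^ ((n : ℝ) - δ)) := mul_le_mul' e1 e2
        _ = 16 * 2 ^ n * (lam G y l ^ δ * dev U y l x ^ ((n : ℝ) - δ)) := by ring
        _ ≤ _ := mul_le_mul_right (phi_big hn hδ (H.lam_ne l) (dev_ne_top l x) h1) _
    · left; rw [indicator_of_notMem hx, mul_zero]
  · unfold Sg
    rw [Finset.mul_sum]
    refine Finset.sum_le_sum fun l _ => ?_
    rw [lintegral_const_mul' _ _ (ENNReal.mul_ne_top (by norm_num) (ENNReal.pow_ne_top (by norm_num)))]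
    gcongr
    exact le_self_add.trans le_self_add

theorem Hy.int_pp (H : Hy C U G y) (hn : 3 ≤ n) (c : ℝ≥0) (δ : ℝ) (k : ℤ) :
    lam G y k ^ (n - 2) * pp U y k ^ 2 * volume (Zn y k) ≤
      25 * 4 ^ n * (vb n).toNNReal * Sg c δ U G y k := by
  obtain ⟨l, hl, hmax⟩ := Finset.exists_max_image (Finset.Icc (k - 2) (k + 2)) (xx U y)
    ⟨k, Finset.mem_Icc.2 ⟨by omega, by omega⟩⟩
  have h1 : XS U y k ≤ 5 * xx U y l := by
    refine (Finset.sum_le_card_nsmul _ _ _ hmax).trans (le_of_eq ?_)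
    rw [Int.card_Icc, show (k + 2 + 1 - (k - 2)).toNat = 5 by omega, nsmul_eq_mul]
    norm_num
  have h2 : pp U y k * ENNReal.ofReal (rho k) = XS U y k :=
    ENNReal.div_mul_cancel (r_ne k) ENNReal.ofReal_ne_top
  have h3 : ENNReal.ofReal (rho k) ^ n =
      ENNReal.ofReal (rho k) ^ (n - 2) * ENNReal.ofReal (rho k) ^ 2 := by
    rw [← pow_add]; congr 1; omega
  have h4 : ah G y l ^ (n - 2) * xx U y l ^ 2 ≤ Sg c δ U G y k :=
    le_add_self.trans (Finset.single_le_sum
      (f := fun l => XX c δ U G y l + ah G y l ^ (n - 2) * xx U y l ^ 2) (fun _ _ => bot_le) hl)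
  calc lam G y k ^ (n - 2) * pp U y k ^ 2 * volume (Zn y k)
      ≤ lam G y k ^ (n - 2) * pp U y k ^ 2 *
        (((vb n).toNNReal : ℝ≥0∞) * ENNReal.ofReal (rho k) ^ n) := mul_le_mul_right (vol_Zn y k) _
    _ = (vb n).toNNReal * ah G y k ^ (n - 2) * (pp U y k * ENNReal.ofReal (rho k)) ^ 2 := by
        rw [h3]; unfold ah; rw [mul_pow]; ring
    _ ≤ (vb n).toNNReal * (4 * ah G y l) ^ (n - 2) * (5 * xx U y l) ^ 2 := by
        rw [h2]; gcongr; exact (H.ah_near hl).2
    _ = 25 * 4 ^ (n - 2) * (vb n).toNNReal * (ah G y l ^ (n - 2) * xx U y l ^ 2) := by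
        rw [mul_pow]; ring
    _ ≤ _ := by gcongr <;> norm_num

theorem half_le {a b s : ℝ≥0∞} (h : s ≤ a + b) (h2 : 2 * b < s) :
    s ≤ 2 * a := by
  by_contra hc
  rw [not_le] at hc
  rcases le_total a b with hab | hab
  · exact absurd (h.trans (by rw [two_mul]; gcongr)) (not_le.2 h2)
  · exact absurd (h.trans (by rw [two_mul]; gcongr)) (not_le.2 hc)

theorem Hy.big_G (H : Hy C U G y) {k : ℤ} {x : E n} (hx : x ∈ On y k)
    (h : ((128 * C : ℝ≥0) : ℝ≥0∞) * lam G y k < 2 * G x) :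
    ∃ l ∈ Finset.Icc (k - 2) (k + 2), x ∈ Zn y l ∧ lam G y l ≤ dev U y l x ∧
      G x ≤ 2 * dev U y l x := by
  obtain ⟨l, h1, h2, hz⟩ := On_cover hx
  have hl : l ∈ Finset.Icc (k - 2) (k + 2) := Finset.mem_Icc.2 ⟨h1, by omega⟩
  have hC : (1 : ℝ≥0∞) ≤ C := by exact_mod_cast H.hC
  have h4 : 64 * C * lam G y k < G x := by
    refine (ENNReal.mul_lt_mul_iff_right (a := 2) (by norm_num) (by norm_num)).1 ?_
    refine lt_of_le_of_lt (le_of_eq ?_) h
    push_cast; ring
  have h5 : 2 * ‖mdl (Ft U y l) y x‖ₑ ≤ 64 * C * lam G y k := by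
    calc 2 * ‖mdl (Ft U y l) y x‖ₑ ≤ 2 * (2 * C * (16 * lam G y k)) :=
          mul_le_mul_right ((H.mu_le hz).trans (mul_le_mul_right (H.lam_near hl).1 _)) _
      _ = _ := by ring
  have h6 : G x ≤ 2 * dev U y l x :=
    half_le (by rw [add_comm]; exact H.G_le l x) (h5.trans_lt h4)
  refine ⟨l, hl, hz, ?_, h6⟩
  refine (ENNReal.mul_le_mul_iff_right (a := 2) (by norm_num) (by norm_num)).1 ?_
  refine le_trans ?_ (h4.le.trans h6)
  calc 2 * lam G y l ≤ 2 * (16 * lam G y k) := mul_le_mul_right (H.lam_near hl).1 _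
    _ = 32 * 1 * lam G y k := by ring
    _ ≤ _ := by gcongr; norm_num

theorem Hy.nn_le (H : Hy C U G y) (hn : 3 ≤ n) {δ : ℝ} (hδ : 0 < δ) (hδ1 : δ ≤ 1 / 4) (k : ℤ) :
    ∀ᵐ x, x ∈ Zn y k → NN n δ ((128 * C : ℝ≥0) : ℝ≥0∞) (lam G y k) (s1 U y k x) (mq G x) ≤
      (1 + (2040 * C) ^ n) * 400 * (lam G y k ^ (n - 2) *
        {z | 0 < mx (DG U y k) z}.indicator (fun z => mx (DG U y k) z ^ (2 : ℝ)) x) +
      (1 + (2040 * C) ^ n) * 400 * (lam G y k ^ (n - 2) * pp U y k ^ 2) +
      6 ^ n * (lam G y k ^ δ * {z | 32 * lam G y k < mx (DG U y k) z}.indicator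
        (fun z => mx (DG U y k) z ^ ((n : ℝ) - δ)) x) +
      lam G y k ^ δ * {z | ((128 * C : ℝ≥0) : ℝ≥0∞) * lam G y k <
        mq ((On y k).indicator G) z}.indicator
        (fun z => mq ((On y k).indicator G) z ^ ((n : ℝ) - δ)) x := by
  filter_upwards [H.s1_le k] with x hx hz
  have hs := hx hz
  have h3 : (3 : ℝ) ≤ n := by exact_mod_cast hn
  have hq : 0 ≤ (n : ℝ) - δ := by linarith
  have hC : (1 : ℝ≥0∞) ≤ C := by exact_mod_cast H.hC
  set M := mx (DG U y k) x with hM
  set p := pp U y k with hp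
  set S := s1 U y k x with hS
  set l := lam G y k with hl
  have e0 : {z | 0 < mx (DG U y k) z}.indicator (fun z => mx (DG U y k) z ^ (2 : ℝ)) x = M ^ 2 := by
    by_cases h : 0 < M
    · rw [indicator_of_mem (show x ∈ {z | 0 < mx (DG U y k) z} from h)]
      exact_mod_cast ENNReal.rpow_natCast M 2
    · rw [indicator_of_notMem (show x ∉ {z | 0 < mx (DG U y k) z} from h)]
      rw [not_lt, nonpos_iff_eq_zero] at h
      rw [h]; simp
  have e1 : S ^ 2 ≤ 400 * (M ^ 2 + p ^ 2) := by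
    rcases le_total M p with h | h
    · calc S ^ 2 ≤ (3 * p + 17 * p) ^ 2 := by gcongr; exact hs.trans (by gcongr)
        _ = 400 * p ^ 2 := by ring
        _ ≤ _ := mul_le_mul_right le_add_self _
    · calc S ^ 2 ≤ (3 * M + 17 * M) ^ 2 := by gcongr; exact hs.trans (by gcongr)
        _ = 400 * M ^ 2 := by ring
        _ ≤ _ := mul_le_mul_right le_self_add _
  have e2 : (if l < 2 * S then l ^ δ * S ^ ((n : ℝ) - δ) else 0) ≤
      (2040 * C) ^ n * (l ^ (n - 2) * S ^ 2) +
      6 ^ n * (l ^ δ * {z | 32 * l < mx (DG U y k) z}.indicator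
        (fun z => mx (DG U y k) z ^ ((n : ℝ) - δ)) x) := by
    refine le_trans (b := l ^ δ * S ^ ((n : ℝ) - δ)) (by split_ifs; exacts [le_rfl, bot_le]) ?_
    rcases le_or_gt S (2040 * C * l) with h | h
    · refine le_trans (small_S hn hδ hδ1 ?_ h) le_self_add
      calc (1 : ℝ≥0∞) ≤ 2040 * 1 := by norm_num
        _ ≤ _ := by gcongr
    · refine le_trans ?_ le_add_self
      have hpl : p ≤ 60 * C * l := H.pp_le k
      have h6 : S ≤ 6 * M := by
        have := half_le hs (lt_of_le_of_lt (by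
          calc 2 * (17 * p) ≤ 2 * (17 * (60 * C * l)) := by gcongr
            _ = 2040 * C * l := by ring) h)
        exact this.trans (le_of_eq (by ring))
      have h7 : 32 * l < M := by
        refine (ENNReal.mul_lt_mul_iff_right (a := 6) (by norm_num) (by norm_num)).1 ?_
        refine lt_of_le_of_lt ?_ (h.trans_le h6)
        calc 6 * (32 * l) = 192 * 1 * l := by ring
          _ ≤ _ := by gcongr; norm_num
      rw [indicator_of_mem (show x ∈ {z | 32 * l < mx (DG U y k) z} from h7)]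
      calc l ^ δ * S ^ ((n : ℝ) - δ) ≤ l ^ δ * (6 * M) ^ ((n : ℝ) - δ) :=
            mul_le_mul_right (ENNReal.rpow_le_rpow h6 hq) _
        _ = l ^ δ * (6 ^ ((n : ℝ) - δ) * M ^ ((n : ℝ) - δ)) := by
            rw [ENNReal.mul_rpow_of_nonneg _ _ hq]
        _ ≤ l ^ δ * (6 ^ n * M ^ ((n : ℝ) - δ)) :=
            mul_le_mul_right (mul_le_mul_left (rpow_le_pow (by norm_num) (by linarith)) _) _
        _ = _ := by ring
  have e3 : (if ((128 * C : ℝ≥0) : ℝ≥0∞) * l < mq G x then l ^ δ * mq G x ^ ((n : ℝ) - δ) else 0) ≤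
      l ^ δ * {z | ((128 * C : ℝ≥0) : ℝ≥0∞) * l < mq ((On y k).indicator G) z}.indicator
        (fun z => mq ((On y k).indicator G) z ^ ((n : ℝ) - δ)) x := by
    split_ifs with h
    · have h25 : 25 * l ≤ ((128 * C : ℝ≥0) : ℝ≥0∞) * l := by
        push_cast
        calc 25 * l = 25 * 1 * l := by ring
          _ ≤ _ := by gcongr; norm_num
      have h8 : mq G x ≤ mq ((On y k).indicator G) x := by
        rcases le_max_iff.1 (mq_le (G := G) hn hz) with h' | h'
        · exact h'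
        · exact absurd (h'.trans h25) (not_le.2 h)
      rw [indicator_of_mem (show x ∈ {z | ((128 * C : ℝ≥0) : ℝ≥0∞) * l <
        mq ((On y k).indicator G) z} from h.trans_le h8)]
      exact mul_le_mul_right (ENNReal.rpow_le_rpow h8 hq) _
    · exact bot_le
  rw [e0]
  unfold NN
  refine (add_le_add (add_le_add le_rfl e2) e3).trans (add_le_add ?_ le_rfl)
  rw [← add_assoc]
  refine add_le_add ?_ le_rfl
  calc l ^ (n - 2) * S ^ 2 + (2040 * C) ^ n * (l ^ (n - 2) * S ^ 2)
      = (1 + (2040 * C) ^ n) * (l ^ (n - 2) * S ^ 2) := by ring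
    _ ≤ (1 + (2040 * C) ^ n) * (l ^ (n - 2) * (400 * (M ^ 2 + p ^ 2))) := by gcongr
    _ = _ := by ring

end RP3

open RP3 in
theorem stRP3 (hA2 : StA2) (_hA8 : StA8) (hMdl : StMdl) (hFL : StFL) : StRP3 := by
  intro n m hn
  obtain ⟨C, hC, hF⟩ := hFL n m hn
  obtain ⟨-, hA, CB, hB⟩ := hA2 n hn
  obtain ⟨CA, hA⟩ := hA 2 n (by norm_num)
  have h3 : (3 : ℝ) ≤ n := by exact_mod_cast hn
  refine ⟨17 * C, 128 * C, hC.trans (le_mul_of_one_le_left bot_le (by norm_num)), fun c hc => ?_⟩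
  refine ⟨(1 + (2040 * C) ^ n) * 400 * (CA * (16 ^ n * ((1 + c⁻¹ ^ (n - 2)) + (vb n).toNNReal))) +
    (1 + (2040 * C) ^ n) * 400 * (25 * 4 ^ n * (vb n).toNNReal) + 6 ^ n * (CA * (16 * 2 ^ n)) +
    CB * (16 * 2 ^ n) + 16 * 2 ^ n, ?_⟩
  intro δ hδ hδ1 Co U v G ν k' kf h hS y k
  have hF' := fun k => ((hF δ hδ hδ1).1 Co U v G ν k' kf h hS y k).1
  have H : Hy C U G y :=
    { hC := hC
      mU := hS.mU
      mG := hS.gd.meas
      normU := hS.normU
      apos := fun k => (hF' k).1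
      ale := fun k => (hF' k).2.1
      a1 := fun k => (hF' k).2.2.2.1
      a2 := fun k => (hF' k).2.2.2.2.1
      l1 := fun k => (hF' k).2.2.2.2.2.1
      fle := fun k => (hF' k).2.2.2.2.2.2.2.2.1
      nm := fun F x => (((hMdl n hn).2.2 m F y).1 x).1
      mm := fun F => ((hMdl n hn).2.2 m F y).2.1 }
  have hC' : (1 : ℝ≥0∞) ≤ C := by exact_mod_cast hC
  refine ⟨?_, ?_, ?_⟩
  · filter_upwards [le_mq_ae hn H.mG] with x hx hz
    have h1 := H.mu_le hz
    have h2 := lam_le_mq (G := G) hn hz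
    push_cast
    refine ⟨h1.trans (by gcongr; norm_num), h2.trans ?_, ?_⟩
    · calc 4 * mq G x = 4 * 1 * mq G x := by ring
        _ ≤ _ := by gcongr; norm_num
    · have h4 : ‖mdl (Ft U y k) y x‖ₑ ≤ 2 * C * (4 * mq G x) := h1.trans (mul_le_mul_right h2 _)
      calc ‖mdl (Ft U y k) y x‖ₑ + dev U y k x
          ≤ 2 * C * (4 * mq G x) + (1 * mq G x + 2 * C * (4 * mq G x)) :=
            add_le_add h4 ((H.dev_le k x).trans (add_le_add (by rw [one_mul]; exact hx) h4))
        _ ≤ 2 * C * (4 * mq G x) + (C * mq G x + 2 * C * (4 * mq G x)) := by gcongr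
        _ = _ := by ring
  · refine div_r_le ((H.xx_le k).trans ?_)
    unfold ah
    push_cast
    calc 3 * C * (ENNReal.ofReal (rho k) * lam G y k)
        ≤ 17 * C * (ENNReal.ofReal (rho k) * lam G y k) := by gcongr; norm_num
      _ = _ := by ring
  · change _ ≤ _ * Sg c δ U G y k
    have mD := H.meas_DG k
    have mG' : Measurable ((On y k).indicator G) := H.mG.indicator (meas_On y k)
    have s1m : MeasurableSet {z | 0 < mx (DG U y k) z} :=
      measurableSet_lt measurable_const (measurable_mx mD)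
    have s2m : MeasurableSet {z | 32 * lam G y k < mx (DG U y k) z} :=
      measurableSet_lt measurable_const (measurable_mx mD)
    have s3m : MeasurableSet {z | ((128 * C : ℝ≥0) : ℝ≥0∞) * lam G y k <
        mq ((On y k).indicator G) z} := measurableSet_lt measurable_const (measurable_mq mG')
    have g1m : Measurable ({z | 0 < mx (DG U y k) z}.indicator
      (fun z => mx (DG U y k) z ^ (2 : ℝ))) := ((measurable_mx mD).pow_const _).indicator s1m
    have g2m : Measurable ({z | 32 * lam G y k < mx (DG U y k) z}.indicator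
      (fun z => mx (DG U y k) z ^ ((n : ℝ) - δ))) := ((measurable_mx mD).pow_const _).indicator s2m
    have g3m : Measurable ({z | ((128 * C : ℝ≥0) : ℝ≥0∞) * lam G y k <
        mq ((On y k).indicator G) z}.indicator
        (fun z => mq ((On y k).indicator G) z ^ ((n : ℝ) - δ))) :=
      ((measurable_mq mG').pow_const _).indicator s3m
    have b1 : lam G y k ^ (n - 2) * ∫⁻ x in Zn y k, {z | 0 < mx (DG U y k) z}.indicator
        (fun z => mx (DG U y k) z ^ (2 : ℝ)) x ≤ CA * (16 ^ n *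
          (((1 + c⁻¹ ^ (n - 2) : ℝ≥0) : ℝ≥0∞) + (vb n).toNNReal) * Sg c δ U G y k) := by
      have t1 := hA 2 le_rfl (by linarith) _ mD 0
      have t2 : ∫⁻ x in {x | 0 < 2 * DG U y k x}, DG U y k x ^ (2 : ℝ) ≤ ∫⁻ x, DG U y k x ^ 2 := by
        refine (setLIntegral_le_lintegral _ _).trans (le_of_eq (lintegral_congr fun x => ?_))
        exact_mod_cast ENNReal.rpow_natCast (DG U y k x) 2
      calc _ ≤ lam G y k ^ (n - 2) * (CA * ∫⁻ x, DG U y k x ^ 2) := by
            refine mul_le_mul_right ((setLIntegral_le_lintegral _ _).trans ?_) _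
            rw [lintegral_indicator s1m]
            exact t1.trans (mul_le_mul_right t2 _)
        _ = CA * (lam G y k ^ (n - 2) * ∫⁻ x, DG U y k x ^ 2) := by ring
        _ ≤ _ := mul_le_mul_right (H.int_sq hn hc hδ hδ1 k) _
    have b2 : lam G y k ^ δ * ∫⁻ x in Zn y k, {z | 32 * lam G y k < mx (DG U y k) z}.indicator
        (fun z => mx (DG U y k) z ^ ((n : ℝ) - δ)) x ≤ CA * (16 * 2 ^ n * Sg c δ U G y k) := by
      have t1 := hA ((n : ℝ) - δ) (by linarith) (by linarith) _ mD (32 * lam G y k)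
      have t2 := H.int_big hn c hδ hδ1 k (g := DG U y k)
        (A := {x | 32 * lam G y k < 2 * DG U y k x})
        (measurableSet_lt measurable_const (mD.const_mul _)) (by
          intro x hx
          rw [Set.mem_ofPred_eq] at hx
          rcases DG_cases (U := U) (y := y) k x with h0 | ⟨l, hl, hz, h0⟩
          · rw [h0] at hx; simp at hx
          · refine ⟨l, hl, hz, ?_, ?_⟩
            · refine (ENNReal.mul_le_mul_iff_right (a := 2) (by norm_num) (by norm_num)).1 ?_
              rw [← h0]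
              refine le_trans ?_ hx.le
              calc 2 * lam G y l ≤ 2 * (16 * lam G y k) := mul_le_mul_right (H.lam_near hl).1 _
                _ = _ := by ring
            · rw [h0]; exact le_mul_of_one_le_left bot_le (by norm_num))
      calc _ ≤ lam G y k ^ δ * (CA * ∫⁻ x in {x | 32 * lam G y k < 2 * DG U y k x},
            DG U y k x ^ ((n : ℝ) - δ)) := by
            refine mul_le_mul_right ((setLIntegral_le_lintegral _ _).trans ?_) _
            rw [lintegral_indicator s2m]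
            exact t1
        _ = CA * (lam G y k ^ δ * ∫⁻ x in {x | 32 * lam G y k < 2 * DG U y k x},
            DG U y k x ^ ((n : ℝ) - δ)) := by ring
        _ ≤ _ := mul_le_mul_right t2 _
    have b3 : lam G y k ^ δ * ∫⁻ x in Zn y k, {z | ((128 * C : ℝ≥0) : ℝ≥0∞) * lam G y k <
        mq ((On y k).indicator G) z}.indicator
        (fun z => mq ((On y k).indicator G) z ^ ((n : ℝ) - δ)) x ≤
        CB * (16 * 2 ^ n * Sg c δ U G y k) := by
      have t1 := (hB _ mG' (((128 * C : ℝ≥0) : ℝ≥0∞) * lam G y k)).2 ((n : ℝ) - δ)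
        (by linarith) (by linarith)
      have t2 := H.int_big hn c hδ hδ1 k (g := (On y k).indicator G)
        (A := {x | ((128 * C : ℝ≥0) : ℝ≥0∞) * lam G y k < 2 * (On y k).indicator G x})
        (measurableSet_lt measurable_const (mG'.const_mul _)) (by
          intro x hx
          rw [Set.mem_ofPred_eq] at hx
          by_cases hO : x ∈ On y k
          · rw [indicator_of_mem hO] at hx ⊢
            exact H.big_G hO hx
          · rw [indicator_of_notMem hO] at hx; simp at hx)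
      calc _ ≤ lam G y k ^ δ * (CB * ∫⁻ x in {x | ((128 * C : ℝ≥0) : ℝ≥0∞) * lam G y k <
            2 * (On y k).indicator G x}, (On y k).indicator G x ^ ((n : ℝ) - δ)) := by
            refine mul_le_mul_right ((setLIntegral_le_lintegral _ _).trans ?_) _
            rw [lintegral_indicator s3m]
            exact t1
        _ = CB * (lam G y k ^ δ * ∫⁻ x in {x | ((128 * C : ℝ≥0) : ℝ≥0∞) * lam G y k <
            2 * (On y k).indicator G x}, (On y k).indicator G x ^ ((n : ℝ) - δ)) := by ring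
        _ ≤ _ := mul_le_mul_right t2 _
    have b4 : BB (128 * C) δ G y k ≤ 16 * 2 ^ n * Sg c δ U G y k :=
      H.int_big hn c hδ hδ1 k (g := G)
        ((meas_On y k).inter (measurableSet_lt measurable_const H.mG)) fun x hx =>
          H.big_G hx.1 (lt_of_lt_of_le hx.2 (le_mul_of_one_le_left bot_le (by norm_num)))
    have b5 := H.int_pp hn c δ k
    have b0 := lintegral_mono_ae ((ae_restrict_iff' (meas_Zn y k)).2 (H.nn_le hn hδ hδ1 k))
    rw [lintegral_add_right _ (g3m.const_mul _),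
      lintegral_add_right _ ((g2m.const_mul _).const_mul _),
      lintegral_add_right _ measurable_const, lintegral_const_mul _ (g1m.const_mul _),
      lintegral_const_mul _ g1m, setLIntegral_const, lintegral_const_mul _ (g2m.const_mul _),
      lintegral_const_mul _ g2m, lintegral_const_mul _ g3m, mul_assoc _ _ (volume (Zn y k))] at b0
    refine (add_le_add (b0.trans (add_le_add (add_le_add (add_le_add (mul_le_mul_right b1 _)
      (mul_le_mul_right b5 _)) (mul_le_mul_right b2 _)) b3)) b4).trans (le_of_eq ?_)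
    generalize (1 + c⁻¹ ^ (n - 2) : ℝ≥0) = K
    push_cast
    ring

end Pool.Agent.P.MP_28243e_an
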