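import Pool.Agent.P.MP_28243e_an.Basic

/-! Pointwise inequalities and shell geometry used for the bounds on the absorbing density. -/

namespace Pool.Agent.P.MP_28243e_an

open Set MeasureTheory Metric Filter Topology ENNReal
open scoped NNReal ContDiff RealInnerProductSpace Classical

namespace RP3

variable {n m : ℕ}

theorem cast_sub_two (hn : 3 ≤ n) : ((n - 2 : ℕ) : ℝ) = (n : ℝ) - 2 := by
  rw [Nat.cast_sub (by omega)]; norm_num

theorem phi_big (hn : 3 ≤ n) {δ : ℝ} (hδ : 0 < δ) {l μ d : ℝ≥0∞} (h0 : l ≠ 0) (hd : d ≠ ⊤)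
    (h : l ≤ d) : l ^ δ * d ^ ((n : ℝ) - δ) ≤ Phi n l δ μ d := by
  have hd0 : d ≠ 0 := fun e => h0 (le_antisymm (e ▸ h) bot_le)
  have e1 : d ^ ((n : ℝ) - δ) = d ^ (n - 2) * d * d * (d ^ δ)⁻¹ := by
    rw [ENNReal.rpow_sub _ _ hd0 hd, ENNReal.rpow_natCast, div_eq_mul_inv]
    congr 1
    obtain ⟨k, rfl⟩ : ∃ k, n = k + 2 := ⟨n - 2, by omega⟩
    simp only [Nat.add_sub_cancel]; ring
  unfold Phi Pd
  rw [psi_of_ge hδ.le h, ENNReal.div_rpow_of_nonneg _ _ hδ.le, e1, div_eq_mul_inv]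
  calc l ^ δ * (d ^ (n - 2) * d * d * (d ^ δ)⁻¹) = d ^ (n - 2) * d * d * (l ^ δ * (d ^ δ)⁻¹) := by
        ring
    _ ≤ _ := by gcongr; exact le_add_self

theorem split_l (hn : 3 ≤ n) {δ : ℝ} (hδ : 0 < δ) (hδ1 : δ ≤ 1 / 4) (l : ℝ≥0∞) :
    l ^ (n - 2) = l ^ δ * l ^ ((n : ℝ) - 2 - δ) := by
  have h3 : (3 : ℝ) ≤ n := by exact_mod_cast hn
  rw [← ENNReal.rpow_add_of_nonneg _ _ hδ.le (by linarith), ← ENNReal.rpow_natCast,
    cast_sub_two hn]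
  congr 1; ring

theorem split_d (hn : 3 ≤ n) {δ : ℝ} (hδ1 : δ ≤ 1 / 4) (d : ℝ≥0∞) :
    d ^ ((n : ℝ) - δ) = d ^ ((n : ℝ) - 2 - δ) * d ^ 2 := by
  have h3 : (3 : ℝ) ≤ n := by exact_mod_cast hn
  rw [← ENNReal.rpow_natCast d 2, ← ENNReal.rpow_add_of_nonneg _ _ (by linarith) (by norm_num)]
  congr 1; push_cast; ring

theorem sq_le_big (hn : 3 ≤ n) {δ : ℝ} (hδ : 0 < δ) (hδ1 : δ ≤ 1 / 4) {l d : ℝ≥0∞} (h : l ≤ d) :
    l ^ (n - 2) * d ^ 2 ≤ l ^ δ * d ^ ((n : ℝ) - δ) := by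
  have h3 : (3 : ℝ) ≤ n := by exact_mod_cast hn
  rw [split_l hn hδ hδ1, split_d hn hδ1, mul_assoc]
  gcongr
  linarith

theorem rpow_le_pow {K : ℝ≥0∞} (hK : 1 ≤ K) {p : ℝ} (hp : p ≤ n) : K ^ p ≤ K ^ n := by
  rw [← ENNReal.rpow_natCast]
  exact ENNReal.rpow_le_rpow_of_exponent_le hK hp

theorem small_S (hn : 3 ≤ n) {δ : ℝ} (hδ : 0 < δ) (hδ1 : δ ≤ 1 / 4) {l S K : ℝ≥0∞} (hK : 1 ≤ K)
    (h : S ≤ K * l) : l ^ δ * S ^ ((n : ℝ) - δ) ≤ K ^ n * (l ^ (n - 2) * S ^ 2) := by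
  have h3 : (3 : ℝ) ≤ n := by exact_mod_cast hn
  have hp : 0 ≤ (n : ℝ) - 2 - δ := by linarith
  have e : S ^ ((n : ℝ) - 2 - δ) ≤ K ^ n * l ^ ((n : ℝ) - 2 - δ) := by
    calc S ^ ((n : ℝ) - 2 - δ) ≤ (K * l) ^ ((n : ℝ) - 2 - δ) := ENNReal.rpow_le_rpow h hp
      _ = K ^ ((n : ℝ) - 2 - δ) * l ^ ((n : ℝ) - 2 - δ) := ENNReal.mul_rpow_of_nonneg _ _ hp
      _ ≤ _ := by gcongr; exact rpow_le_pow hK (by linarith)
  rw [split_l hn hδ hδ1, split_d hn hδ1]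
  calc l ^ δ * (S ^ ((n : ℝ) - 2 - δ) * S ^ 2)
      ≤ l ^ δ * (K ^ n * l ^ ((n : ℝ) - 2 - δ) * S ^ 2) := by gcongr
    _ = _ := by ring

theorem sq_le_phi (hn : 3 ≤ n) {δ : ℝ} (hδ : 0 < δ) (hδ1 : δ ≤ 1 / 4) {l μ d : ℝ≥0∞} {c : ℝ≥0}
    (hc : 0 < c) (h0 : l ≠ 0) (hl : l ≠ ⊤) (hd : d ≠ ⊤) {P : Prop} [Decidable P]
    (hP : ¬ P → c * l ≤ μ) :
    l ^ (n - 2) * d ^ 2 ≤ ((1 + c⁻¹ ^ (n - 2) : ℝ≥0) : ℝ≥0∞) * Phi n l δ μ d +
      if P then l ^ n else 0 := by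
  rcases le_total l d with h | h
  · refine le_trans ?_ le_self_add
    refine (sq_le_big hn hδ hδ1 h).trans ((phi_big (μ := μ) hn hδ h0 hd h).trans ?_)
    refine le_mul_of_one_le_left bot_le ?_
    exact_mod_cast le_self_add
  · by_cases hp : P
    · rw [if_pos hp]
      refine le_trans ?_ le_add_self
      calc l ^ (n - 2) * d ^ 2 ≤ l ^ (n - 2) * l ^ 2 := by gcongr
        _ = l ^ n := by rw [← pow_add]; congr 1; omega
    · refine le_trans ?_ le_self_add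
      have h1 : l ≤ (c⁻¹ : ℝ≥0) * (μ + d) := by
        calc l = (c⁻¹ : ℝ≥0) * (c * l) := by
              rw [← mul_assoc, ← ENNReal.coe_mul, inv_mul_cancel₀ hc.ne']; simp
          _ ≤ _ := by gcongr; exact (hP hp).trans le_self_add
      unfold Phi Pd
      rw [psi_of_le hδ.le h0 hl h, mul_one]
      calc l ^ (n - 2) * d ^ 2 ≤ ((c⁻¹ : ℝ≥0) * (μ + d)) ^ (n - 2) * d ^ 2 := by gcongr
        _ = ((c⁻¹ ^ (n - 2) : ℝ≥0) : ℝ≥0∞) * ((μ + d) ^ (n - 2) * d * d) := by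
            rw [mul_pow, ENNReal.coe_pow]; ring
        _ ≤ _ := by gcongr; exact le_add_self

theorem near {g : ℤ → ℝ≥0∞} {K : ℝ≥0∞} (hK : 1 ≤ K) (h1 : ∀ l, g (l + 1) ≤ K * g l)
    (h2 : ∀ l, g l ≤ K * g (l + 1)) {k l : ℤ} (hl : l ∈ Finset.Icc (k - 2) (k + 2)) :
    g l ≤ K ^ 2 * g k ∧ g k ≤ K ^ 2 * g l := by
  have hKK : K ≤ K ^ 2 := by rw [sq]; exact le_mul_of_one_le_left bot_le hK
  have one : ∀ l, g (l + 1) ≤ K ^ 2 * g l ∧ g l ≤ K ^ 2 * g (l + 1) := fun l =>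
    ⟨(h1 l).trans (by gcongr), (h2 l).trans (by gcongr)⟩
  have two : ∀ l, g (l + 2) ≤ K ^ 2 * g l ∧ g l ≤ K ^ 2 * g (l + 2) := by
    intro l
    have e : l + 2 = l + 1 + 1 := by ring
    rw [e]
    constructor
    · calc g (l + 1 + 1) ≤ K * g (l + 1) := h1 _
        _ ≤ K * (K * g l) := by gcongr; exact h1 _
        _ = _ := by ring
    · calc g l ≤ K * g (l + 1) := h2 _
        _ ≤ K * (K * g (l + 1 + 1)) := by gcongr; exact h2 _
        _ = _ := by ring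
  have zero : ∀ l, g l ≤ K ^ 2 * g l := fun l => le_mul_of_one_le_left bot_le (hK.trans hKK)
  rw [Finset.mem_Icc] at hl
  have hc : k = l + 2 ∨ k = l + 1 ∨ l = k ∨ l = k + 1 ∨ l = k + 2 := by omega
  rcases hc with h | h | h | h | h
  · rw [h]; exact (two l).symm
  · rw [h]; exact (one l).symm
  · rw [h]; exact ⟨zero _, zero _⟩
  · rw [h]; exact one k
  · rw [h]; exact two k

theorem tele (F : ℤ → V m) {a b : ℤ} (h : a ≤ b) :
    ‖F b - F a‖ₑ ≤ ∑ j ∈ Finset.Ico a b, ‖F (j + 1) - F j‖ₑ := by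
  induction b, h using Int.leInduction with
  | base => simp
  | succ b hb ih =>
    rw [← Finset.insert_Ico_right_eq_Ico_add_one hb, Finset.sum_insert (by simp)]
    calc ‖F (b + 1) - F a‖ₑ = ‖(F (b + 1) - F b) + (F b - F a)‖ₑ := by congr 1; abel
      _ ≤ ‖F (b + 1) - F b‖ₑ + ‖F b - F a‖ₑ := enorm_add_le _ _
      _ ≤ _ := by gcongr

theorem tele' (F : ℤ → V m) {k a b : ℤ} (ha : a ∈ Finset.Icc (k - 2) (k + 2))
    (hb : b ∈ Finset.Icc (k - 2) (k + 2)) :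
    ‖F b - F a‖ₑ ≤ ∑ j ∈ Finset.Icc (k - 2) (k + 2), ‖F (j + 1) - F j‖ₑ := by
  rw [Finset.mem_Icc] at ha hb
  rcases le_total a b with h | h
  · refine (tele F h).trans (Finset.sum_le_sum_of_subset ?_)
    intro j hj
    rw [Finset.mem_Ico] at hj
    rw [Finset.mem_Icc]; omega
  · rw [enorm_sub_rev]
    refine (tele F h).trans (Finset.sum_le_sum_of_subset ?_)
    intro j hj
    rw [Finset.mem_Ico] at hj
    rw [Finset.mem_Icc]; omega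

theorem mem_Zn {y x : E n} {l : ℤ} : x ∈ Zn y l ↔ rho l / 2 ≤ ‖x - y‖ ∧ ‖x - y‖ < rho l := by
  unfold Zn
  rw [Set.mem_sdiff, mem_ball, mem_ball, dist_eq_norm, rho_succ, not_lt]
  exact and_comm

theorem mem_On {y x : E n} {l : ℤ} : x ∈ On y l ↔ rho l / 4 < ‖x - y‖ ∧ ‖x - y‖ < 4 * rho l := by
  unfold On
  rw [Set.mem_sdiff, mem_ball, mem_closedBall, dist_eq_norm, not_le]
  exact and_comm

theorem meas_Zn (y : E n) (l : ℤ) : MeasurableSet (Zn y l) :=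
  measurableSet_ball.diff measurableSet_ball

theorem meas_On (y : E n) (l : ℤ) : MeasurableSet (On y l) :=
  measurableSet_ball.diff measurableSet_closedBall

theorem Zn_uniq {y x : E n} {l l' : ℤ} (h : x ∈ Zn y l) (h' : x ∈ Zn y l') : l = l' := by
  rw [mem_Zn] at h h'
  by_contra hne
  rcases lt_or_gt_of_ne hne with hl | hl
  · have := rho_anti (show l + 1 ≤ l' from hl)
    rw [rho_succ] at this
    linarith [h.1, h'.2]
  · have := rho_anti (show l' + 1 ≤ l from hl)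
    rw [rho_succ] at this
    linarith [h'.1, h.2]

theorem On_cover {y x : E n} {k : ℤ} (h : x ∈ On y k) :
    ∃ l, k - 2 ≤ l ∧ l ≤ k + 1 ∧ x ∈ Zn y l := by
  rw [mem_On] at h
  have e1 : rho (k - 1) = 2 * rho k := rho_pred k
  have e2 : rho (k - 2) = 4 * rho k := by
    have := rho_pred (k - 1)
    rw [show k - 1 - 1 = k - 2 by ring] at this
    rw [this, e1]; ring
  have e3 : rho (k + 1) = rho k / 2 := rho_succ k
  by_cases c1 : 2 * rho k ≤ ‖x - y‖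
  · exact ⟨k - 2, le_rfl, by omega, mem_Zn.2 ⟨by rw [e2]; linarith, by rw [e2]; exact h.2⟩⟩
  by_cases c2 : rho k ≤ ‖x - y‖
  · exact ⟨k - 1, by omega, by omega, mem_Zn.2 ⟨by rw [e1]; linarith, by rw [e1]; linarith⟩⟩
  by_cases c3 : rho k / 2 ≤ ‖x - y‖
  · exact ⟨k, by omega, by omega, mem_Zn.2 ⟨c3, by linarith⟩⟩
  · exact ⟨k + 1, by omega, by omega,
      mem_Zn.2 ⟨by rw [e3]; linarith [h.1], by rw [e3]; linarith⟩⟩

theorem ball_sub_On {y x : E n} {k : ℤ} (h : x ∈ Zn y k) : ball x (rho k / 4) ⊆ On y k := by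
  intro z hz
  rw [mem_Zn] at h
  rw [mem_ball, dist_eq_norm] at hz
  have hp := rho_pos k
  have t1 : ‖z - y‖ ≤ ‖z - x‖ + ‖x - y‖ := norm_sub_le_norm_sub_add_norm_sub _ _ _
  have t2 : ‖x - y‖ ≤ ‖x - z‖ + ‖z - y‖ := norm_sub_le_norm_sub_add_norm_sub _ _ _
  rw [norm_sub_rev x z] at t2
  exact mem_On.2 ⟨by linarith [h.1], by linarith [h.2]⟩

theorem lint_le_sum {I : Finset ℤ} {y : E n} {g : E n → ℝ≥0∞} {F : ℤ → E n → ℝ≥0∞}
    (hF : ∀ l, Measurable (F l)) (h : ∀ x, g x = 0 ∨ ∃ l ∈ I, x ∈ Zn y l ∧ g x ≤ F l x) :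
    ∫⁻ x, g x ≤ ∑ l ∈ I, ∫⁻ x in Zn y l, F l x := by
  calc ∫⁻ x, g x ≤ ∫⁻ x, ∑ l ∈ I, (Zn y l).indicator (F l) x := by
        refine lintegral_mono fun x => ?_
        rcases h x with h0 | ⟨l, hl, hx, hle⟩
        · rw [h0]; exact bot_le
        · refine le_trans ?_ (Finset.single_le_sum
            (f := fun l => (Zn y l).indicator (F l) x) (fun _ _ => bot_le) hl)
          simp only [indicator_of_mem hx]; exact hle
    _ = ∑ l ∈ I, ∫⁻ x, (Zn y l).indicator (F l) x :=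
        lintegral_finsetSum _ fun l _ => (hF l).indicator (meas_Zn y l)
    _ = _ := Finset.sum_congr rfl fun l _ => lintegral_indicator (meas_Zn y l) _

theorem vol_Zn (y : E n) (l : ℤ) :
    volume (Zn y l) ≤ ((vb n).toNNReal : ℝ≥0∞) * ENNReal.ofReal (rho l) ^ n := by
  refine (measure_mono sdiff_subset).trans ?_
  rw [vol_ball y (rho_pos l), ENNReal.ofReal_mul vb_pos.le, ENNReal.ofReal_pow (rho_pos l).le]
  rfl

end RP3

end Pool.Agent.P.MP_28243e_an
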