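import Pool.Agent.P.MP_28243e_an.RP3a

/-! Comparison of the quantities attached to neighbouring shells. -/

namespace Pool.Agent.P.MP_28243e_an

open Set MeasureTheory Metric Filter Topology ENNReal
open scoped NNReal ContDiff RealInnerProductSpace Classical

namespace RP3

variable {n m : ℕ}

/-- The facts on sizes and models that are used below. -/
structure Hy (C : ℝ≥0) (U : E n → Mt m n) (G : E n → ℝ≥0∞) (y : E n) : Prop where
  hC : 1 ≤ C
  mU : Measurable U
  mG : Measurable G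
  normU : ∀ x, ‖U x‖ₑ = G x
  apos : ∀ k, 0 < ah G y k
  ale : ∀ k, ah G y k ≤ C
  a1 : ∀ k, ah G y (k + 1) ≤ 2 * ah G y k
  a2 : ∀ k, ah G y k ≤ 2 * ah G y (k + 1)
  l1 : ∀ k, lam G y k ≤ lam G y (k + 1)
  fle : ∀ k, ff U y k ≤ C * ah G y k
  nm : ∀ (F : V m) x, ‖mdl F y x‖ = ‖F‖ / ‖x - y‖
  mm : ∀ F : V m, Measurable (mdl F y)

theorem r_ne (k : ℤ) : ENNReal.ofReal (rho k) ≠ 0 := by
  simpa using rho_pos k

theorem r_succ (k : ℤ) : ENNReal.ofReal (rho k) = 2 * ENNReal.ofReal (rho (k + 1)) := by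
  rw [rho_succ, ← ENNReal.ofReal_ofNat 2, ← ENNReal.ofReal_mul (by norm_num)]
  congr 1; ring

theorem r_near {k l : ℤ} (hl : l ∈ Finset.Icc (k - 2) (k + 2)) :
    ENNReal.ofReal (rho k) ≤ 4 * ENNReal.ofReal (rho l) := by
  have := (near (g := fun l => ENNReal.ofReal (rho l)) (K := 2) (by norm_num)
    (fun l => by
      rw [r_succ l]
      exact (le_mul_of_one_le_left bot_le (by norm_num)).trans
        (le_mul_of_one_le_left bot_le (by norm_num)))
    (fun l => (r_succ l).le) hl).2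
  norm_num at this
  exact this

variable {C : ℝ≥0} {U : E n → Mt m n} {G : E n → ℝ≥0∞} {y : E n}

theorem Hy.lam_ne (H : Hy C U G y) (k : ℤ) : lam G y k ≠ 0 := by
  intro h
  have := H.apos k
  unfold ah at this
  rw [h, mul_zero] at this
  exact lt_irrefl _ this

theorem Hy.lam_ne_top (H : Hy C U G y) (k : ℤ) : lam G y k ≠ ⊤ := by
  intro h
  have := H.ale k
  unfold ah at this
  rw [h, ENNReal.mul_top (r_ne k)] at this
  exact ENNReal.coe_ne_top (top_le_iff.1 this)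

theorem Hy.l2 (H : Hy C U G y) (k : ℤ) : lam G y (k + 1) ≤ 4 * lam G y k := by
  have := H.a1 k
  unfold ah at this
  rw [r_succ k] at this
  refine (ENNReal.mul_le_mul_iff_right (r_ne (k + 1)) ENNReal.ofReal_ne_top).1 (this.trans ?_)
  exact le_of_eq (by ring)

theorem Hy.lam_near (H : Hy C U G y) {k l : ℤ} (hl : l ∈ Finset.Icc (k - 2) (k + 2)) :
    lam G y l ≤ 16 * lam G y k ∧ lam G y k ≤ 16 * lam G y l := by
  have := near (g := lam G y) (K := 4) (by norm_num) H.l2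
    (fun l => (H.l1 l).trans (le_mul_of_one_le_left bot_le (by norm_num))) hl
  norm_num at this
  exact this

theorem Hy.ah_near (H : Hy C U G y) {k l : ℤ} (hl : l ∈ Finset.Icc (k - 2) (k + 2)) :
    ah G y l ≤ 4 * ah G y k ∧ ah G y k ≤ 4 * ah G y l := by
  have := near (g := ah G y) (K := 2) (by norm_num) H.a1 H.a2 hl
  norm_num at this
  exact this

theorem Hy.mdl_up (H : Hy C U G y) (F : V m) {l : ℤ} {x : E n} (hx : x ∈ Zn y l) :
    ENNReal.ofReal (rho l) * ‖mdl F y x‖ₑ ≤ 2 * ‖F‖ₑ := by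
  rw [mem_Zn] at hx
  have hp := rho_pos l
  have hxy : 0 < ‖x - y‖ := by linarith [hx.1]
  have e : 2 * ENNReal.ofReal ‖F‖ = ENNReal.ofReal (2 * ‖F‖) := by
    rw [ENNReal.ofReal_mul (by norm_num), ENNReal.ofReal_ofNat]
  rw [← ofReal_norm, ← ofReal_norm, H.nm, ← ENNReal.ofReal_mul hp.le, e]
  refine ENNReal.ofReal_le_ofReal ?_
  rw [← mul_div_assoc, div_le_iff₀ hxy]
  nlinarith [norm_nonneg F, hx.1]

theorem Hy.mdl_low (H : Hy C U G y) (F : V m) {l : ℤ} {x : E n} (hx : x ∈ Zn y l) :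
    ‖F‖ₑ ≤ ENNReal.ofReal (rho l) * ‖mdl F y x‖ₑ := by
  rw [mem_Zn] at hx
  have hp := rho_pos l
  have hxy : 0 < ‖x - y‖ := by linarith [hx.1]
  rw [← ofReal_norm, ← ofReal_norm, H.nm, ← ENNReal.ofReal_mul hp.le]
  refine ENNReal.ofReal_le_ofReal ?_
  rw [← mul_div_assoc, le_div_iff₀ hxy]
  nlinarith [norm_nonneg F, hx.2]

theorem Hy.mu_le (H : Hy C U G y) {l : ℤ} {x : E n} (hx : x ∈ Zn y l) :
    ‖mdl (Ft U y l) y x‖ₑ ≤ 2 * C * lam G y l := by
  refine (ENNReal.mul_le_mul_iff_right (r_ne l) ENNReal.ofReal_ne_top).1 ?_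
  refine (H.mdl_up _ hx).trans ?_
  calc 2 * ‖Ft U y l‖ₑ ≤ 2 * (C * ah G y l) := by gcongr; exact H.fle l
    _ = _ := by unfold ah; ring

theorem Hy.mu_ge (H : Hy C U G y) {c : ℝ≥0} {l : ℤ} {x : E n} (hx : x ∈ Zn y l)
    (h : ¬ ff U y l < c * ah G y l) : c * lam G y l ≤ ‖mdl (Ft U y l) y x‖ₑ := by
  refine (ENNReal.mul_le_mul_iff_right (r_ne l) ENNReal.ofReal_ne_top).1 ?_
  refine le_trans ?_ (H.mdl_low _ hx)
  refine le_trans (le_of_eq ?_) (not_lt.1 h)
  unfold ah; ring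

theorem Hy.xx_le (H : Hy C U G y) (l : ℤ) : xx U y l ≤ 3 * C * ah G y l := by
  calc xx U y l ≤ ff U y (l + 1) + ff U y l := enorm_sub_le
    _ ≤ C * ah G y (l + 1) + C * ah G y l := add_le_add (H.fle _) (H.fle _)
    _ ≤ C * (2 * ah G y l) + C * ah G y l := by gcongr; exact H.a1 l
    _ = _ := by ring

theorem div_r_le {a b : ℝ≥0∞} {k : ℤ} (h : a ≤ ENNReal.ofReal (rho k) * b) :
    a / ENNReal.ofReal (rho k) ≤ b :=
  ENNReal.div_le_of_le_mul' h

theorem Hy.G_le (H : Hy C U G y) (l : ℤ) (x : E n) :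
    G x ≤ ‖mdl (Ft U y l) y x‖ₑ + dev U y l x := by
  rw [← H.normU]
  calc ‖U x‖ₑ = ‖mdl (Ft U y l) y x + (U x - mdl (Ft U y l) y x)‖ₑ := by congr 1; abel
    _ ≤ _ := enorm_add_le _ _

theorem Hy.dev_le (H : Hy C U G y) (l : ℤ) (x : E n) :
    dev U y l x ≤ G x + ‖mdl (Ft U y l) y x‖ₑ := by
  rw [← H.normU]; exact enorm_sub_le

theorem dev_ne_top (l : ℤ) (x : E n) : dev U y l x ≠ ⊤ := enorm_ne_top

theorem Hy.meas_dev (H : Hy C U G y) (l : ℤ) : Measurable (dev U y l) :=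
  (H.mU.sub (H.mm _)).enorm

theorem Hy.meas_phi (H : Hy C U G y) (δ : ℝ) (l : ℤ) :
    Measurable fun x => Phi n (lam G y l) δ ‖mdl (Ft U y l) y x‖ₑ (dev U y l x) := by
  unfold Phi Pd
  exact (((((H.mm _).enorm.add (H.meas_dev l)).pow_const _).mul (H.meas_dev l)).mul
    (H.meas_dev l)).mul ((measurable_psi _ _).comp (H.meas_dev l))

/-- Sum of the jumps near scale `k`. -/
noncomputable def XS (U : E n → Mt m n) (y : E n) (k : ℤ) : ℝ≥0∞ :=
  ∑ l ∈ Finset.Icc (k - 2) (k + 2), xx U y l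

/-- The normalised sum of the jumps. -/
noncomputable def pp (U : E n → Mt m n) (y : E n) (k : ℤ) : ℝ≥0∞ :=
  XS U y k / ENNReal.ofReal (rho k)

/-- The deviations of five shells glued together. -/
noncomputable def DG (U : E n → Mt m n) (y : E n) (k : ℤ) (x : E n) : ℝ≥0∞ :=
  ∑ l ∈ Finset.Icc (k - 2) (k + 2), (Zn y l).indicator (dev U y l) x

theorem Hy.meas_DG (H : Hy C U G y) (k : ℤ) : Measurable (DG U y k) :=
  Finset.measurable_sum _ fun l _ => (H.meas_dev l).indicator (meas_Zn y l)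

theorem DG_eq {k l : ℤ} (hl : l ∈ Finset.Icc (k - 2) (k + 2)) {x : E n} (hx : x ∈ Zn y l) :
    DG U y k x = dev U y l x := by
  unfold DG
  rw [Finset.sum_eq_single_of_mem l hl, indicator_of_mem hx]
  intro l' _ hne
  exact indicator_of_notMem (fun h => hne (Zn_uniq h hx)) _

theorem DG_cases (k : ℤ) (x : E n) : DG U y k x = 0 ∨
    ∃ l ∈ Finset.Icc (k - 2) (k + 2), x ∈ Zn y l ∧ DG U y k x = dev U y l x := by
  by_cases h : ∃ l ∈ Finset.Icc (k - 2) (k + 2), x ∈ Zn y l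
  · obtain ⟨l, hl, hx⟩ := h
    exact Or.inr ⟨l, hl, hx, DG_eq hl hx⟩
  · left
    exact Finset.sum_eq_zero fun l hl => indicator_of_notMem (fun hx => h ⟨l, hl, hx⟩) _

theorem Hy.pp_le (H : Hy C U G y) (k : ℤ) : pp U y k ≤ 60 * C * lam G y k := by
  refine div_r_le ?_
  calc XS U y k ≤ ∑ l ∈ Finset.Icc (k - 2) (k + 2), 3 * C * (4 * ah G y k) :=
        Finset.sum_le_sum fun l hl => (H.xx_le l).trans (by gcongr; exact (H.ah_near hl).1)
    _ = _ := by
        rw [Finset.sum_const, Int.card_Icc, show (k + 2 + 1 - (k - 2)).toNat = 5 by omega]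
        unfold ah
        simp only [nsmul_eq_mul]; push_cast; ring

theorem Hy.dev_near (H : Hy C U G y) {k k' l : ℤ} (hk : k' ∈ Finset.Icc (k - 2) (k + 2))
    (hl : l ∈ Finset.Icc (k - 2) (k + 2)) {x : E n} (hx : x ∈ Zn y l) :
    dev U y k' x ≤ DG U y k x + 8 * pp U y k := by
  rw [DG_eq hl hx]
  have e : mdl (Ft U y l - Ft U y k') y x = mdl (Ft U y l) y x - mdl (Ft U y k') y x := by
    unfold mdl; exact tens_sub_left _ _ _
  have h1 : ‖mdl (Ft U y l - Ft U y k') y x‖ₑ ≤ 8 * pp U y k := by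
    unfold pp
    rw [← mul_div_assoc]
    refine (ENNReal.le_div_iff_mul_le (Or.inl (r_ne k)) (Or.inl ENNReal.ofReal_ne_top)).2 ?_
    calc ‖mdl (Ft U y l - Ft U y k') y x‖ₑ * ENNReal.ofReal (rho k)
        ≤ ‖mdl (Ft U y l - Ft U y k') y x‖ₑ * (4 * ENNReal.ofReal (rho l)) := by
          gcongr; exact r_near hl
      _ = 4 * (ENNReal.ofReal (rho l) * ‖mdl (Ft U y l - Ft U y k') y x‖ₑ) := by ring
      _ ≤ 4 * (2 * XS U y k) :=
          mul_le_mul_right ((H.mdl_up _ hx).trans (mul_le_mul_right (tele' (Ft U y) hk hl) _)) _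
      _ = _ := by ring
  calc dev U y k' x = ‖(U x - mdl (Ft U y l) y x) + mdl (Ft U y l - Ft U y k') y x‖ₑ := by
        unfold dev; rw [e]; congr 1; abel
    _ ≤ _ := (enorm_add_le _ _).trans (add_le_add le_rfl h1)

theorem Hy.mx_le (H : Hy C U G y) {k k' : ℤ} (hk : k ≤ k') (hk' : k' ≤ k + 1) (x : E n) :
    mx ((On y k').indicator (dev U y k')) x ≤ mx (DG U y k) x + 8 * pp U y k := by
  calc mx ((On y k').indicator (dev U y k')) x ≤ mx (fun z => DG U y k z + 8 * pp U y k) x := by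
        refine mx_mono (Eventually.of_forall fun z => ?_) x
        by_cases hz : z ∈ On y k'
        · rw [indicator_of_mem hz]
          obtain ⟨l, h1, h2, h3⟩ := On_cover hz
          exact H.dev_near (Finset.mem_Icc.2 ⟨by omega, by omega⟩)
            (Finset.mem_Icc.2 ⟨by omega, by omega⟩) h3
        · rw [indicator_of_notMem hz]; exact bot_le
    _ ≤ mx (DG U y k) x + mx (fun _ => 8 * pp U y k) x := mx_add (H.meas_DG k) _ x
    _ ≤ _ := add_le_add le_rfl (mx_le_const (Eventually.of_forall fun _ => le_rfl) x)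

theorem Hy.s1_le (H : Hy C U G y) (k : ℤ) :
    ∀ᵐ x, x ∈ Zn y k → s1 U y k x ≤ 3 * mx (DG U y k) x + 17 * pp U y k := by
  filter_upwards [le_mx_ae (H.meas_DG k)] with x hx hz
  have h0 : dev U y k x ≤ mx (DG U y k) x := by
    rw [← DG_eq (k := k) (Finset.mem_Icc.2 ⟨by omega, by omega⟩) hz]; exact hx
  have h3 : (xx U y (k - 1) + xx U y k + xx U y (k + 1)) / ENNReal.ofReal (rho k) ≤ pp U y k := by
    unfold pp
    refine ENNReal.div_le_div_right ?_ _
    have e : xx U y (k - 1) + xx U y k + xx U y (k + 1) =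
        ∑ l ∈ ({k - 1, k, k + 1} : Finset ℤ), xx U y l := by
      rw [Finset.sum_insert (by simp; omega), Finset.sum_insert (by simp), Finset.sum_singleton,
        add_assoc]
    rw [e]
    refine Finset.sum_le_sum_of_subset fun l hl => ?_
    simp only [Finset.mem_insert, Finset.mem_singleton] at hl
    rw [Finset.mem_Icc]; omega
  calc s1 U y k x ≤ mx (DG U y k) x + (mx (DG U y k) x + 8 * pp U y k) +
        (mx (DG U y k) x + 8 * pp U y k) + pp U y k :=
        add_le_add (add_le_add (add_le_add h0 (H.mx_le le_rfl (by omega) x))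
          (H.mx_le (by omega) le_rfl x)) h3
    _ = _ := by ring

theorem lam_le_mq (hn : 3 ≤ n) {k : ℤ} {x : E n} (hx : x ∈ Zn y k) :
    lam G y k ≤ 4 * mq G x := by
  rw [mem_Zn] at hx
  have hp := rho_pos k
  have := gs_le_gs hn G (x := y) (x' := x) (r := rho k) (r' := rho k) (K := 2) hp
    (by rw [norm_sub_rev]; linarith [hx.2]) (by linarith)
  refine this.trans ?_
  have e : ENNReal.ofReal ((2 : ℝ) ^ 2) = 4 := by norm_num
  rw [e]
  gcongr
  exact gs_le_mq hn G x hp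

theorem mq_le (hn : 3 ≤ n) {k : ℤ} {x : E n} (hx : x ∈ Zn y k) :
    mq G x ≤ max (mq ((On y k).indicator G) x) (25 * lam G y k) := by
  refine (mq_le_max hn G (ball_sub_On hx)).trans (max_le_max le_rfl ?_)
  rw [mem_Zn] at hx
  have hp := rho_pos k
  have := gs_le_gs hn G (x := x) (x' := y) (r := rho k / 4) (r' := rho k) (K := 5)
    (by linarith) (by linarith [hx.2]) (by linarith)
  refine this.trans ?_
  have e : ENNReal.ofReal ((5 : ℝ) ^ 2) = 25 := by norm_num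
  rw [e]; rfl

end RP3

end Pool.Agent.P.MP_28243e_an
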