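import Pool.Agent.P.MP_28243e_an.Basic

/-! Elementary lemmas for the cost of a cell. -/

namespace Pool.Agent.P.MP_28243e_an

open Set MeasureTheory Metric ENNReal
open scoped NNReal

namespace SH

variable {n m : ℕ}

lemma two_zpow_add (a b : ℤ) : (2 : ℝ≥0∞) ^ (a + b) = 2 ^ a * 2 ^ b :=
  ENNReal.zpow_add (by norm_num) (by norm_num) a b

lemma two_zpow_nat (a : ℤ) (i : ℕ) : (2 : ℝ≥0∞) ^ (a + i) = 2 ^ i * 2 ^ a := by
  rw [two_zpow_add, zpow_natCast, mul_comm]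

lemma two_zpow_mono {a b : ℤ} (h : a ≤ b) : (2 : ℝ≥0∞) ^ a ≤ 2 ^ b :=
  ENNReal.zpow_le_of_le (by norm_num) h

lemma ofReal_rho (k : ℤ) : ENNReal.ofReal (rho k) = 2 ^ (-k) := by
  have h : rho k = (((2 : ℝ≥0) ^ (-k) : ℝ≥0) : ℝ) := by simp [rho]
  rw [h, ENNReal.ofReal_coe_nnreal, ENNReal.coe_zpow (by norm_num)]
  rfl

lemma rho_ne (k : ℤ) : ENNReal.ofReal (rho k) ≠ 0 := by
  simpa using rho_pos k

lemma sz_eq (j k : ℤ) : sz j k = 2 ^ j * ENNReal.ofReal (rho k) := by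
  rw [sz, sub_eq_add_neg, two_zpow_add, ofReal_rho]

lemma rho_nat (k : ℤ) (i : ℕ) : rho k = 2 ^ i * rho (k + i) := by
  induction i with
  | zero => simp
  | succ i ih =>
    rw [Nat.cast_succ, ← add_assoc, rho_succ, pow_succ, ih]; ring

lemma orho_nat (k : ℤ) (i : ℕ) : ENNReal.ofReal (rho k) = 2 ^ i * ENNReal.ofReal (rho (k + i)) := by
  rw [rho_nat k i, ENNReal.ofReal_mul (by positivity), ENNReal.ofReal_pow (by norm_num)]
  simp

lemma mem_Zn {x y : E n} {l : ℤ} : x ∈ Zn y l ↔ ‖x - y‖ < rho l ∧ rho l / 2 ≤ ‖x - y‖ := by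
  simp only [Zn, mem_sdiff, mem_ball, dist_eq_norm, not_lt, rho_succ]

lemma Zn_uniq {x y : E n} {l l' : ℤ} (h : x ∈ Zn y l) (h' : x ∈ Zn y l') : l = l' := by
  have key : ∀ {a b : ℤ}, x ∈ Zn y a → x ∈ Zn y b → b ≤ a := fun {a b} ha hb => by
    by_contra hab
    have h1 := rho_anti (show a + 1 ≤ b by omega)
    rw [rho_succ] at h1
    linarith [(mem_Zn.1 ha).2, (mem_Zn.1 hb).1]
  exact le_antisymm (key h' h) (key h h')

lemma exists_Zn {x y : E n} {k : ℤ} (i : ℕ) (h : ‖x - y‖ < rho k) (h' : rho (k + i) ≤ ‖x - y‖) :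
    ∃ l, k ≤ l ∧ l < k + i ∧ x ∈ Zn y l := by
  induction i with
  | zero => simp at h'; linarith
  | succ i ih =>
    by_cases h1 : rho (k + i) ≤ ‖x - y‖
    · obtain ⟨l, h2, h3, h4⟩ := ih h1
      exact ⟨l, h2, by push_cast; omega, h4⟩
    · refine ⟨k + i, by omega, by push_cast; omega, mem_Zn.2 ⟨not_le.1 h1, ?_⟩⟩
      rwa [Nat.cast_succ, ← add_assoc, rho_succ] at h'

lemma half_le {X M : ℝ≥0∞} (hX : X ≠ ⊤) (h : 2 * X ≤ M + X) : X ≤ M := by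
  rw [two_mul] at h
  exact (ENNReal.add_le_add_iff_right hX).1 h

lemma mass_low (hn : 3 ≤ n) {a f κ M : ℝ≥0∞} {C c e : ℝ≥0} (ha : a ≠ ⊤) (hf : c * a ≤ f)
    (h : f ^ (n - 1) ≤ C * (M + κ ^ (1 / 2 : ℝ) * a ^ (((n : ℝ) - 2) / 2)))
    (hκ : κ ≤ e ^ 2 * a ^ n) (he : 2 * C * e ≤ c ^ (n - 1)) :
    (c : ℝ≥0∞) ^ (n - 1) * a ^ (n - 1) ≤ 2 * C * M := by
  have n3 : (3 : ℝ) ≤ n := by exact_mod_cast hn
  have h1 : κ ^ (1 / 2 : ℝ) ≤ e * a ^ ((n : ℝ) / 2) := by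
    refine (ENNReal.rpow_le_rpow hκ (by norm_num)).trans_eq ?_
    rw [ENNReal.mul_rpow_of_nonneg _ _ (by norm_num), ← ENNReal.rpow_natCast, ← ENNReal.rpow_mul,
      ← ENNReal.rpow_natCast, ← ENNReal.rpow_mul]
    norm_num [div_eq_mul_inv]
  have h2 : a ^ ((n : ℝ) / 2) * a ^ (((n : ℝ) - 2) / 2) = a ^ (n - 1) := by
    rw [← ENNReal.rpow_add_of_nonneg _ _ (by linarith) (by linarith), ← ENNReal.rpow_natCast,
      Nat.cast_sub (by omega)]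
    congr 1; push_cast; ring
  have he' : (2 : ℝ≥0∞) * C * e ≤ (c : ℝ≥0∞) ^ (n - 1) := by exact_mod_cast he
  refine half_le (ENNReal.mul_ne_top (by simp) (ENNReal.pow_ne_top ha)) ?_
  calc 2 * ((c : ℝ≥0∞) ^ (n - 1) * a ^ (n - 1)) = 2 * (c * a) ^ (n - 1) := by rw [mul_pow]
    _ ≤ 2 * (C * (M + e * a ^ ((n : ℝ) / 2) * a ^ (((n : ℝ) - 2) / 2))) := by
        gcongr
        exact (pow_le_pow_left' hf _).trans (h.trans (by gcongr))
    _ = 2 * C * M + 2 * C * e * a ^ (n - 1) := by rw [mul_assoc (e : ℝ≥0∞), h2]; ring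
    _ ≤ _ := by gcongr

lemma jump_small (hn : 3 ≤ n) {a f x D r : ℝ≥0∞} {C c e : ℝ≥0} (ha0 : a ≠ 0) (ha : a ≠ ⊤)
    (hc : c ≠ 0) (hf' : f ≠ ⊤) (hC : 1 ≤ C) (hf : c * a ≤ f)
    (h1 : x * (f + x) ^ (n - 2) ≤ C * D) (h2 : D ^ 2 / a ^ (n - 2) ≤ C * r)
    (hr : r ≤ e ^ 2 * a ^ n) (he : 4 * C ^ 2 * e ≤ c ^ (n - 1)) : 4 * x ≤ f := by
  obtain ⟨p, rfl⟩ : ∃ p, n = p + 2 := ⟨n - 2, by omega⟩
  simp only [Nat.add_sub_cancel, show p + 2 - 1 = p + 1 by omega] at *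
  have C1 : (1 : ℝ≥0∞) ≤ C := by exact_mod_cast hC
  have he' : (4 : ℝ≥0∞) * C ^ 2 * e ≤ (c : ℝ≥0∞) ^ (p + 1) := by exact_mod_cast he
  have f0 : f ≠ 0 := fun h => by
    rw [h, nonpos_iff_eq_zero, mul_eq_zero] at hf
    exact hf.elim (by simpa using hc) ha0
  rw [ENNReal.div_le_iff (pow_ne_zero _ ha0) (ENNReal.pow_ne_top ha)] at h2
  have h3 : D ≤ C * e * a ^ (p + 1) := by
    rw [← ENNReal.pow_le_pow_left_iff two_ne_zero]
    calc D ^ 2 ≤ C * (e ^ 2 * a ^ (p + 2)) * a ^ p := h2.trans (by gcongr)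
      _ = 1 * C * (e ^ 2 * a ^ (p + 2)) * a ^ p := by rw [one_mul]
      _ ≤ C * C * (e ^ 2 * a ^ (p + 2)) * a ^ p := by gcongr
      _ = _ := by ring
  rw [← ENNReal.mul_le_mul_iff_left (pow_ne_zero p f0) (ENNReal.pow_ne_top hf')]
  calc 4 * x * f ^ p ≤ 4 * (x * (f + x) ^ p) := by
        rw [mul_assoc]; gcongr; exact le_self_add
    _ ≤ 4 * (C * D) := by gcongr
    _ ≤ 4 * (C * (C * e * a ^ (p + 1))) := by gcongr
    _ = 4 * C ^ 2 * e * a ^ (p + 1) := by ring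
    _ ≤ c ^ (p + 1) * a ^ (p + 1) := by gcongr
    _ = (c * a) ^ (p + 1) := by rw [mul_pow]
    _ ≤ f ^ (p + 1) := pow_le_pow_left' hf _
    _ = _ := by ring

lemma ff_step {U : E n → Mt m n} {y : E n} {l : ℤ} (h : 4 * xx U y l ≤ ff U y l) :
    3 * ff U y l ≤ 4 * ff U y (l + 1) := by
  have h1 : ff U y l ≤ ff U y (l + 1) + xx U y l := by
    calc ff U y l = ‖Ft U y (l + 1) - (Ft U y (l + 1) - Ft U y l)‖ₑ := by
          rw [_root_.sub_sub_cancel, ff]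
      _ ≤ _ := enorm_sub_le
  have h2 : ff U y l ≠ ⊤ := enorm_ne_top
  rw [← ENNReal.add_le_add_iff_right h2]
  calc 3 * ff U y l + ff U y l = 4 * ff U y l := by ring
    _ ≤ 4 * (ff U y (l + 1) + xx U y l) := by gcongr
    _ = 4 * ff U y (l + 1) + 4 * xx U y l := by ring
    _ ≤ _ := by gcongr

lemma mdl_up (hM : StMdl) (hn : 3 ≤ n) (F : V m) {x y : E n} {r : ℝ} (hr : 0 < r)
    (h : r ≤ 4 * ‖x - y‖) : ENNReal.ofReal r * ‖mdl F y x‖ₑ ≤ 4 * ‖F‖ₑ := by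
  have h1 := (((hM n hn).2.2 m F y).1 x).1
  have h2 : 0 < ‖x - y‖ := by linarith
  rw [← ofReal_norm, ← ofReal_norm, ← ENNReal.ofReal_mul hr.le, h1,
    ← ENNReal.ofReal_ofNat 4, ← ENNReal.ofReal_mul (by norm_num)]
  refine ENNReal.ofReal_le_ofReal ?_
  rw [← mul_div_assoc, div_le_iff₀ h2]
  nlinarith [norm_nonneg F]

lemma mdl_lo (hM : StMdl) (hn : 3 ≤ n) (F : V m) {x y : E n} {r : ℝ} (h2 : 0 < ‖x - y‖)
    (h : ‖x - y‖ ≤ r) : ‖F‖ₑ ≤ ENNReal.ofReal r * ‖mdl F y x‖ₑ := by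
  have h1 := (((hM n hn).2.2 m F y).1 x).1
  rw [← ofReal_norm, ← ofReal_norm, ← ENNReal.ofReal_mul (h2.le.trans h), h1]
  refine ENNReal.ofReal_le_ofReal ?_
  rw [← mul_div_assoc, le_div_iff₀ h2]
  nlinarith [norm_nonneg F]

lemma phi_low (hn : 3 ≤ n) {τ l μ d : ℝ≥0∞} {δ : ℝ} (hδ0 : 0 < δ) (hδ : δ ≤ 1 / 4)
    (hd : d ≠ ⊤) (h1 : τ ≤ l) (h2 : τ < d) : τ ^ (1 / 2 : ℝ) * d ^ q1 n ≤ Phi n l δ μ d := by
  have d0 : d ≠ 0 := (lt_of_le_of_lt bot_le h2).ne'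
  have n3 : (3 : ℝ) ≤ n := by exact_mod_cast hn
  have h3 : (τ / d) ^ (1 / 2 : ℝ) ≤ psi l δ d := by
    refine le_trans ?_ (psi_mono hδ0.le h1)
    rw [psi_of_ge hδ0.le h2.le]
    exact ENNReal.rpow_le_rpow_of_exponent_ge (ENNReal.div_le_of_le_mul (by simpa using h2.le))
      (by linarith)
  have h4 : d ^ (n - 2) * d * d = d ^ q1 n * d ^ (1 / 2 : ℝ) := by
    rw [← ENNReal.rpow_add _ _ d0 hd, q1, sub_add_cancel, ENNReal.rpow_natCast, ← pow_succ,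
      ← pow_succ]
    congr 1; omega
  calc τ ^ (1 / 2 : ℝ) * d ^ q1 n = d ^ (n - 2) * d * d * (τ / d) ^ (1 / 2 : ℝ) := by
        rw [h4, mul_assoc, ← ENNReal.mul_rpow_of_nonneg _ _ (by norm_num),
          ENNReal.mul_div_cancel d0 hd, mul_comm]
    _ ≤ (μ + d) ^ (n - 2) * d * d * psi l δ d := by gcongr; exact le_add_self
    _ = _ := rfl

/-- sum of the deviations over a window of shells -/
noncomputable def Dv (U : E n → Mt m n) (y : E n) (W : Finset ℤ) (x : E n) : ℝ≥0∞ :=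
  ∑ l ∈ W, (Zn y l).indicator (dev U y l) x

lemma meas_Zn (y : E n) (l : ℤ) : MeasurableSet (Zn y l) := measurableSet_ball.diff measurableSet_ball

lemma meas_dev (hM : StMdl) (hn : 3 ≤ n) {U : E n → Mt m n} (hU : Measurable U) (y : E n)
    (l : ℤ) : Measurable (dev U y l) := (hU.sub ((hM n hn).2.2 m (Ft U y l) y).2.1).enorm

lemma meas_Dv (hM : StMdl) (hn : 3 ≤ n) {U : E n → Mt m n} (hU : Measurable U) (y : E n)
    (W : Finset ℤ) : Measurable (Dv U y W) :=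
  Finset.measurable_sum _ fun l _ => (meas_dev hM hn hU y l).indicator (meas_Zn y l)

lemma Dv_eq {U : E n → Mt m n} {y x : E n} {W : Finset ℤ} {l : ℤ} (hl : l ∈ W) (hx : x ∈ Zn y l) :
    Dv U y W x = dev U y l x := by
  rw [Dv, Finset.sum_eq_single l, indicator_of_mem hx]
  · exact fun l' _ h => indicator_of_notMem (fun h' => h (Zn_uniq h' hx)) _
  · exact fun h => absurd hl h

lemma exc (hM : StMdl) (hn : 3 ≤ n) {CA : ℝ≥0}
    (hA : ∀ G : E n → ℝ≥0∞, Measurable G → ∀ t : ℝ≥0∞,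
      t ^ q1 n * volume {x | t < mq G x} ≤ CA * (∫⁻ x in {x | t < 2 * G x}, G x ^ q1 n))
    {U : E n → Mt m n} (hU : Measurable U) (G : E n → ℝ≥0∞) (y : E n) (W : Finset ℤ) {δ : ℝ}
    (hδ0 : 0 < δ) (hδ : δ ≤ 1 / 4) {τ : ℝ≥0∞} (τ0 : τ ≠ 0) (τ1 : τ ≠ ⊤)
    (hτ : ∀ l ∈ W, τ ≤ lam G y l) :
    τ ^ n * volume {x | 2 * τ < mq (Dv U y W) x} ≤ CA * ∑ l ∈ W, en δ U G y l := by
  have hD := meas_Dv hM hn hU y W
  have h1 := hA _ hD (2 * τ)
  have h2 : τ ^ n = τ ^ (1 / 2 : ℝ) * τ ^ q1 n := by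
    rw [← ENNReal.rpow_add _ _ τ0 τ1, q1, add_sub_cancel, ENNReal.rpow_natCast]
  have h3 : τ ^ q1 n ≤ (2 * τ) ^ q1 n :=
    ENNReal.rpow_le_rpow (by rw [two_mul]; exact le_self_add) (q1_pos hn).le
  have hS : MeasurableSet {x | 2 * τ < 2 * Dv U y W x} :=
    measurableSet_lt measurable_const (hD.const_mul 2)
  have h4 : τ ^ (1 / 2 : ℝ) * ∫⁻ x in {x | 2 * τ < 2 * Dv U y W x}, Dv U y W x ^ q1 n ≤
      ∑ l ∈ W, en δ U G y l := by
    rw [← lintegral_const_mul' _ _ (ENNReal.rpow_ne_top_of_nonneg (by norm_num) τ1),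
      ← lintegral_indicator hS]
    simp only [en, ← lintegral_indicator (meas_Zn y _)]
    rw [← lintegral_finsetSum]
    · refine lintegral_mono fun x => ?_
      by_cases hx : x ∈ {x | 2 * τ < 2 * Dv U y W x}
      · rw [indicator_of_mem hx]
        have h5 : τ < Dv U y W x := lt_of_mul_lt_mul_left' hx
        obtain ⟨l, hl, hxl⟩ : ∃ l ∈ W, x ∈ Zn y l := by
          by_contra h6
          push Not at h6
          rw [Dv, Finset.sum_eq_zero fun l hl => indicator_of_notMem (h6 l hl) _] at h5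
          exact not_lt_bot h5
        rw [Dv_eq hl hxl] at h5 ⊢
        refine le_trans ?_ (Finset.single_le_sum (f := fun l => (Zn y l).indicator (fun x =>
          Phi n (lam G y l) δ ‖mdl (Ft U y l) y x‖ₑ (dev U y l x)) x) (fun _ _ => bot_le) hl)
        rw [indicator_of_mem hxl]
        exact phi_low hn hδ0 hδ enorm_ne_top (hτ l hl) h5
      · rw [indicator_of_notMem hx]; exact bot_le
    · intro l _
      have md := meas_dev hM hn hU y l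
      have mμ := ((hM n hn).2.2 m (Ft U y l) y).2.1.enorm
      exact (((((mμ.add md).pow_const _).mul md).mul md).mul
        ((measurable_psi _ _).comp md)).indicator (meas_Zn y l)
  calc τ ^ n * volume {x | 2 * τ < mq (Dv U y W) x} ≤
        τ ^ (1 / 2 : ℝ) * ((2 * τ) ^ q1 n * volume {x | 2 * τ < mq (Dv U y W) x}) := by
        rw [h2, mul_assoc]; gcongr
    _ ≤ τ ^ (1 / 2 : ℝ) * (CA * ∫⁻ x in {x | 2 * τ < 2 * Dv U y W x}, Dv U y W x ^ q1 n) := by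
        gcongr
    _ ≤ _ := by rw [mul_left_comm]; gcongr

end SH

end Pool.Agent.P.MP_28243e_an
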