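import Pool.Agent.P.MP_28243e_an.SHA

/-! Shell estimates for the cost of a cell. -/

namespace Pool.Agent.P.MP_28243e_an

open Set MeasureTheory Metric ENNReal
open scoped NNReal

namespace SH

variable {n m : ℕ}

/-- the facts on sizes and fluxes that are used -/
structure Fl (C : ℝ≥0) (δ : ℝ) (U : E n → Mt m n) (G ν k' : E n → ℝ≥0∞) (y : E n) (kb : ℤ) :
    Prop where
  one : 1 ≤ C
  normU : ∀ x, ‖U x‖ₑ = G x
  apos : ∀ l, 0 < ah G y l
  ale : ∀ l, ah G y l ≤ C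
  up : ∀ l, ah G y (l + 1) ≤ 2 * ah G y l
  dn : ∀ l, ah G y l ≤ 2 * ah G y (l + 1)
  lm : ∀ l, lam G y l ≤ lam G y (l + 1)
  fg : ∀ l, ff U y l ≤ C * (ENNReal.ofReal (rho l) * gq G y (rho l))
  fa : ∀ l, ff U y l ≤ C * ah G y l
  xd : ∀ l, xx U y l * (ff U y l + xx U y l) ^ (n - 2) ≤ C * dF U y l
  fm : ∀ l, kb ≤ l → ff U y l ^ (n - 1) ≤
    C * (ms ν y l + kap G k' δ y l ^ (1 / 2 : ℝ) * ah G y l ^ (((n : ℝ) - 2) / 2))
  dr : ∀ l, kb ≤ l → dF U y l ^ 2 / ah G y l ^ (n - 2) ≤ C * rr G ν k' δ y l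

variable {C : ℝ≥0} {δ : ℝ} {U : E n → Mt m n} {G ν k' : E n → ℝ≥0∞} {y : E n} {kb : ℤ}

lemma Fl.atop (h : Fl C δ U G ν k' y kb) (l : ℤ) : ah G y l ≠ ⊤ :=
  ne_top_of_le_ne_top coe_ne_top (h.ale l)

lemma Fl.ltop (h : Fl C δ U G ν k' y kb) (l : ℤ) : lam G y l ≠ ⊤ := fun h1 =>
  h.atop l (by rw [ah, h1, ENNReal.mul_top (rho_ne l)])

lemma Fl.lpos (h : Fl C δ U G ν k' y kb) (l : ℤ) : lam G y l ≠ 0 := fun h1 =>
  (h.apos l).ne' (by rw [ah, h1, mul_zero])

lemma Fl.lmono (h : Fl C δ U G ν k' y kb) {l l' : ℤ} (hl : l ≤ l') : lam G y l ≤ lam G y l' :=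
  monotone_int_of_le_succ h.lm hl

lemma Fl.adn (h : Fl C δ U G ν k' y kb) (l : ℤ) (i : ℕ) : ah G y l ≤ 2 ^ i * ah G y (l + i) := by
  induction i with
  | zero => simp
  | succ i ih =>
    rw [Nat.cast_succ, ← add_assoc, pow_succ, mul_assoc]
    exact ih.trans (by gcongr; exact h.dn _)

lemma Fl.adn' (h : Fl C δ U G ν k' y kb) {l l' : ℤ} {i : ℕ} (h1 : l ≤ l') (h2 : l' ≤ l + i) :
    ah G y l ≤ 2 ^ i * ah G y l' := by
  obtain ⟨j, rfl⟩ : ∃ j : ℕ, l' = l + j := ⟨(l' - l).toNat, by omega⟩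
  exact (h.adn l j).trans (by gcongr; · norm_num
                              · omega)

lemma Fl.lam4 (h : Fl C δ U G ν k' y kb) (l : ℤ) : lam G y l ≤ 4 * lam G y (l - 1) := by
  have h1 := h.up (l - 1)
  rw [sub_add_cancel, ah, ah, orho_nat (l - 1) 1] at h1
  simp only [Nat.cast_one, sub_add_cancel] at h1
  rw [← ENNReal.mul_le_mul_iff_right (rho_ne l) ENNReal.ofReal_ne_top]
  exact h1.trans_eq (by ring)

lemma shell_G (hM : StMdl) (hn : 3 ≤ n) (h : Fl C δ U G ν k' y kb) {c : ℝ≥0} {l : ℤ} {x : E n}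
    (hx : x ∈ Zn y l) (hf : c * ah G y l ≤ ff U y l) (hd : 2 * dev U y l x ≤ c * lam G y l) :
    c * lam G y l ≤ 2 * G x := by
  obtain ⟨h1, h2⟩ := mem_Zn.1 hx
  have h3 := hf.trans (mdl_lo hM hn (Ft U y l) (by linarith [rho_pos l]) h1.le)
  rw [ah, mul_left_comm, ENNReal.mul_le_mul_iff_right (rho_ne l) ENNReal.ofReal_ne_top] at h3
  have h4 : ‖mdl (Ft U y l) y x‖ₑ ≤ G x + dev U y l x := by
    calc _ = ‖U x - (U x - mdl (Ft U y l) y x)‖ₑ := by rw [_root_.sub_sub_cancel]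
      _ ≤ _ := enorm_sub_le
      _ = _ := by rw [h.normU, dev]
  refine half_le (ENNReal.mul_ne_top coe_ne_top (h.ltop l)) ?_
  calc 2 * (c * lam G y l) ≤ 2 * (G x + dev U y l x) := by gcongr; exact h3.trans h4
    _ = 2 * G x + 2 * dev U y l x := by ring
    _ ≤ _ := by gcongr

lemma shell_M (hM : StMdl) (hn : 3 ≤ n) (h : Fl C δ U G ν k' y kb) {l : ℤ} {x : E n}
    (hx : x ∈ Zn y l) {D : E n → ℝ≥0∞} (hD : Measurable D)
    (hDv : ∀ l', l - 1 ≤ l' → l' ≤ l + 1 → ∀ x' ∈ Zn y l', dev U y l' x' ≤ D x')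
    (hq : mq D x ≤ lam G y l) : mq G x ≤ 32 * C * lam G y l := by
  obtain ⟨h1, h2⟩ := mem_Zn.1 hx
  have r0 := rho_pos l
  have C1 : (1 : ℝ≥0∞) ≤ C := by exact_mod_cast h.one
  have q0 := q1_pos hn
  refine (mq_le_max hn G (s := rho l / 4) Subset.rfl).trans (max_le ?_ ?_)
  · set L := 8 * C * lam G y l with hL
    have hp : ∀ x', (ball x (rho l / 4)).indicator G x' ≤ L + D x' := by
      intro x'
      by_cases hx' : x' ∈ ball x (rho l / 4)
      · rw [indicator_of_mem hx']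
        rw [mem_ball, dist_eq_norm] at hx'
        have t1 := norm_sub_le_norm_sub_add_norm_sub x' x y
        have t2 := norm_sub_le_norm_sub_add_norm_sub x x' y
        rw [norm_sub_rev x x'] at t2
        have e1 := rho_pred l
        have e2 := rho_nat l 2
        obtain ⟨l', a1, a2, a3⟩ := exists_Zn (x := x') (y := y) (k := l - 1) 3 (by linarith) (by
          rw [show l - 1 + (3 : ℕ) = l + (2 : ℕ) by push_cast; ring]
          norm_num at e2 ⊢
          linarith)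
        have a4 : ah G y l' ≤ 2 * ah G y l := by
          have a5 : l' = l - 1 ∨ l' = l ∨ l' = l + 1 := by omega
          rcases a5 with rfl | rfl | rfl
          · simpa using h.dn (l - 1)
          · rw [two_mul]; exact le_self_add
          · exact h.up l
        have a6 : ‖mdl (Ft U y l') y x'‖ₑ ≤ L := by
          rw [← ENNReal.mul_le_mul_iff_right (rho_ne l) ENNReal.ofReal_ne_top]
          calc _ ≤ 4 * ff U y l' := mdl_up hM hn _ r0 (by linarith)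
            _ ≤ 4 * (C * (2 * ah G y l)) := by gcongr; exact (h.fa l').trans (by gcongr)
            _ = _ := by rw [hL, ah]; ring
        calc G x' = ‖mdl (Ft U y l') y x' + (U x' - mdl (Ft U y l') y x')‖ₑ := by
              rw [_root_.add_sub_cancel, h.normU]
          _ ≤ _ := enorm_add_le _ _
          _ ≤ _ := add_le_add a6 (hDv l' a1 (by omega) x' a3)
      · rw [indicator_of_notMem hx']; exact bot_le
    have hL1 : lam G y l ≤ L := by
      calc lam G y l = 1 * 1 * lam G y l := by simp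
        _ ≤ _ := by rw [hL]; gcongr; norm_num
    have b1 : mq ((ball x (rho l / 4)).indicator G) x ≤ 2 * L := by
      rw [← ENNReal.rpow_le_rpow_iff q0, mq_rpow hn]
      calc _ ≤ mx (fun x' => 2 ^ (q1 n - 1) * (L ^ q1 n + D x' ^ q1 n)) x :=
            mx_mono (Filter.Eventually.of_forall fun x' =>
              (ENNReal.rpow_le_rpow (hp x') q0.le).trans
                (ENNReal.rpow_add_le_mul_rpow_add_rpow _ _ (one_lt_q1 hn).le)) x
        _ = 2 ^ (q1 n - 1) * mx (fun x' => L ^ q1 n + D x' ^ q1 n) x :=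
            mx_const_mul (measurable_const.add (hD.pow_const _)) _ x
        _ ≤ 2 ^ (q1 n - 1) * (L ^ q1 n + L ^ q1 n) := by
            gcongr
            refine (mx_add measurable_const _ x).trans (add_le_add
              (mx_le_const (Filter.Eventually.of_forall fun _ => le_rfl) x) ?_)
            rw [← mq_rpow hn]
            exact ENNReal.rpow_le_rpow (hq.trans hL1) q0.le
        _ = 2 ^ (q1 n - 1) * 2 ^ (1 : ℝ) * L ^ q1 n := by rw [ENNReal.rpow_one]; ring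
        _ = _ := by
            rw [← ENNReal.rpow_add _ _ (by norm_num) (by norm_num), sub_add_cancel,
              ENNReal.mul_rpow_of_nonneg 2 L q0.le]
    refine b1.trans ?_
    calc 2 * L = 16 * C * lam G y l := by rw [hL]; ring
      _ ≤ _ := by gcongr; norm_num
  · refine (gs_le_gs hn G (x' := y) (r' := rho l) (K := 5) (by positivity) (by linarith)
      (by linarith)).trans ?_
    calc _ = 25 * 1 * lam G y l := by rw [lam]; norm_num
      _ ≤ _ := by gcongr; norm_num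

lemma gh_big (hG : StG0) (hn : 3 ≤ n) (h : Fl C δ U G ν k' y kb) {c : ℝ≥0} {l j : ℤ} {x : E n}
    (hx : ‖x - y‖ < rho l) (hf : c * ah G y l ≤ ff U y l)
    (hj : C * (4 * n ^ 2) * 2 ^ j < c * lam G y l) : (2 : ℝ≥0∞) ^ j < gh G l (idx l x) := by
  have n3 : (3 : ℝ) ≤ n := by exact_mod_cast hn
  have r0 := rho_pos l
  have h1 := (((hG n hn).1 l (idx l x)).2.2.2 x rfl).1
  have h2 := hf.trans (h.fg l)
  rw [ah, mul_left_comm, mul_left_comm (C : ℝ≥0∞),
    ENNReal.mul_le_mul_iff_right (rho_ne l) ENNReal.ofReal_ne_top] at h2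
  have h3 := gq_le_gq hn G (x := y) (x' := ctr l (idx l x)) (r := rho l) (r' := 2 * n * rho l)
    (K := 2 * n) r0 (ball_subset_ball' (by
      have := norm_sub_le_norm_sub_add_norm_sub y x (ctr l (idx l x))
      rw [norm_sub_rev y x] at this
      rw [dist_eq_norm]
      nlinarith)) le_rfl
  have e1 : ENNReal.ofReal ((2 * n : ℝ) ^ 2) = 4 * n ^ 2 := by
    rw [ENNReal.ofReal_pow (by positivity), ENNReal.ofReal_mul (by norm_num)]
    simp only [ENNReal.ofReal_ofNat, ENNReal.ofReal_natCast]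
    ring
  rw [e1] at h3
  refine lt_of_mul_lt_mul_left' (hj.trans_le (h2.trans ?_))
  rw [mul_assoc]
  gcongr
  exact h3

lemma not_T (hG : StG0) (hn : 3 ≤ n) (hGd : Gd G) (h : Fl C δ U G ν k' y kb) {c d : ℝ≥0}
    {l j j' k : ℤ} {J : ℕ} {x : E n} (hF : Fj G j k (idx k x)) (hx : ‖x - y‖ < rho l)
    (hf : c * ah G y l ≤ ff U y l) (hj : C * (4 * n ^ 2) * 2 ^ j' < c * lam G y l)
    (h1 : j ≤ j') (h2 : j' ≤ j + J) (hN : d * (2 ^ J * sz j k) ^ q1 n < ms ν y l) :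
    x ∉ Tj G ν k' δ d j' := by
  rintro ⟨k'', a1, -, a3⟩
  have n3 : (3 : ℝ) ≤ n := by exact_mod_cast hn
  obtain ⟨C0, L, hC⟩ := (hG n hn).2.2
  have hk := (hC G hGd).2.2.1
  have b1 : k ≤ k'' := hk j j' k k'' x h1 hF a1.1
  have b2 : k'' ≤ l := hk j' j' k'' l x le_rfl a1 (gh_big hG hn h hx hf hj)
  have b3 := (((hG n hn).1 k'' (idx k'' x)).2.2.2 x rfl).1
  have b4 := rho_anti b2
  have r0 := rho_pos l
  refine a3 (lt_of_le_of_lt ?_ (hN.trans_le (lintegral_mono_set (ball_subset_ball' ?_))))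
  · refine mul_le_mul_right (ENNReal.rpow_le_rpow ?_ (q1_pos hn).le) _
    rw [sz, sz, ← two_zpow_nat]
    exact two_zpow_mono (by omega)
  · have := norm_sub_le_norm_sub_add_norm_sub y x (ctr k'' (idx k'' x))
    rw [norm_sub_rev y x] at this
    rw [dist_eq_norm]
    nlinarith

lemma growth (hn : 3 ≤ n) (h : Fl C δ U G ν k' y kb) {c e : ℝ≥0} (hc : c ≠ 0)
    (he : 4 * C ^ 2 * e ≤ c ^ (n - 1)) {l₀ : ℕ}
    (hf : ∀ l, kb ≤ l → l ≤ kb + l₀ → c * ah G y l ≤ ff U y l)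
    (hr : ∀ l, kb ≤ l → l ≤ kb + l₀ → rr G ν k' δ y l ≤ e ^ 2 * ah G y l ^ n) :
    3 ^ l₀ * c * lam G y kb ≤ 2 ^ l₀ * C * lam G y (kb + l₀) := by
  have h1 : ∀ i : ℕ, i ≤ l₀ → 3 ^ i * ff U y kb ≤ 4 ^ i * ff U y (kb + i) := by
    intro i hi
    induction i with
    | zero => simp
    | succ i ih =>
      have h2 := ff_step (jump_small hn (h.apos (kb + i)).ne' (h.atop _) hc enorm_ne_top h.one
        (hf _ (by omega) (by omega)) (h.xd _) (h.dr _ (by omega)) (hr _ (by omega) (by omega)) he)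
      calc 3 ^ (i + 1) * ff U y kb = 3 * (3 ^ i * ff U y kb) := by ring
        _ ≤ 3 * (4 ^ i * ff U y (kb + i)) := mul_le_mul_right (ih (by omega)) _
        _ = 4 ^ i * (3 * ff U y (kb + i)) := by ring
        _ ≤ 4 ^ i * (4 * ff U y (kb + i + 1)) := by gcongr
        _ = _ := by rw [Nat.cast_succ, ← add_assoc]; ring
  rw [← ENNReal.mul_le_mul_iff_right (rho_ne kb) ENNReal.ofReal_ne_top]
  calc _ = 3 ^ l₀ * (c * ah G y kb) := by rw [ah]; ring
    _ ≤ 3 ^ l₀ * ff U y kb := by gcongr; exact hf kb le_rfl (by omega)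
    _ ≤ 4 ^ l₀ * (C * ah G y (kb + l₀)) := (h1 l₀ le_rfl).trans (by gcongr; exact h.fa _)
    _ = _ := by
      rw [ah, orho_nat kb l₀, show (4 : ℝ≥0∞) = 2 * 2 by norm_num, mul_pow]; ring

lemma mass_big (hn : 3 ≤ n) (h : Fl C δ U G ν k' y kb) {c e d P : ℝ≥0} (hc : c ≠ 0) (hP : 1 ≤ P)
    (he : 4 * C ^ 2 * e ≤ c ^ (n - 1)) {l₀ : ℕ} {l : ℤ} (h1 : kb ≤ l) (h2 : l ≤ kb + l₀)
    (hf : c * ah G y l ≤ ff U y l) (hr : rr G ν k' δ y l ≤ e ^ 2 * ah G y l ^ n)
    (hd : 4 * (2 ^ l₀) ^ (n - 1) * C ^ 2 * P ^ n * d ≤ c ^ (n - 1)) {s : ℝ≥0∞}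
    (hs : s ≤ P * ah G y kb) : d * s ^ q1 n < ms ν y l := by
  have C1 := h.one
  have he2 : 2 * C * e ≤ c ^ (n - 1) := by
    refine le_trans ?_ he
    calc 2 * C * e = 2 * (C * 1) * e := by ring
      _ ≤ 4 * (C * C) * e := by gcongr; norm_num
      _ = _ := by ring
  have h3 := mass_low hn (h.atop l) hf (h.fm l h1)
    (le_trans (le_self_add.trans le_self_add) hr) he2
  by_contra h4
  rw [not_lt] at h4
  set a := ah G y kb with ha
  have a0 : a ≠ 0 := (h.apos kb).ne'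
  have a1 : a ≠ ⊤ := h.atop kb
  have PC : (1 : ℝ≥0∞) ≤ P * C := by exact_mod_cast one_le_mul hP C1
  have P0 : (P : ℝ≥0∞) ≠ 0 := by
    have : (0 : ℝ≥0) < P := zero_lt_one.trans_le hP
    simpa using this.ne'
  have h5 : s ^ q1 n ≤ (P * a) ^ (n - 1) * (P * C) := by
    calc s ^ q1 n ≤ (P * a) ^ q1 n := ENNReal.rpow_le_rpow hs (q1_pos hn).le
      _ = (P * a) ^ (n - 1) * (P * a) ^ (1 / 2 : ℝ) := by
          rw [← ENNReal.rpow_natCast, ← ENNReal.rpow_add _ _ (mul_ne_zero P0 a0)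
            (ENNReal.mul_ne_top coe_ne_top a1), Nat.cast_sub (by omega), q1]
          congr 1; push_cast; ring
      _ ≤ (P * a) ^ (n - 1) * (P * C) ^ (1 / 2 : ℝ) := by gcongr; exact h.ale kb
      _ ≤ (P * a) ^ (n - 1) * (P * C) ^ (1 : ℝ) :=
          mul_le_mul_right (ENNReal.rpow_le_rpow_of_exponent_le PC (by norm_num)) _
      _ = _ := by rw [ENNReal.rpow_one]
  have h6 : (c : ℝ≥0∞) ^ (n - 1) * a ^ (n - 1) ≤
      ((2 * (2 ^ l₀) ^ (n - 1) * C ^ 2 * P ^ n * d : ℝ≥0) : ℝ≥0∞) * a ^ (n - 1) := by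
    obtain ⟨p, rfl⟩ : ∃ p, n = p + 1 := ⟨n - 1, by omega⟩
    simp only [Nat.add_sub_cancel] at *
    calc (c : ℝ≥0∞) ^ p * a ^ p ≤ c ^ p * (2 ^ l₀ * ah G y l) ^ p := by
          gcongr; exact h.adn' h1 h2
      _ = (2 ^ l₀) ^ p * (c ^ p * ah G y l ^ p) := by rw [mul_pow]; ring
      _ ≤ (2 ^ l₀) ^ p * (2 * C * (d * ((P * a) ^ p * (P * C)))) :=
          mul_le_mul_right (h3.trans (mul_le_mul_right (h4.trans (mul_le_mul_right h5 _)) _)) _
      _ = _ := by push_cast; rw [mul_pow]; ring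
  rw [ENNReal.mul_le_mul_iff_left (pow_ne_zero _ a0) (ENNReal.pow_ne_top a1)] at h6
  have h7 : c ^ (n - 1) ≤ 2 * (2 ^ l₀) ^ (n - 1) * C ^ 2 * P ^ n * d := by exact_mod_cast h6
  have h8 : 0 < c ^ (n - 1) := pow_pos (pos_iff_ne_zero.2 hc) _
  have h9 : 2 * c ^ (n - 1) ≤ c ^ (n - 1) := by
    refine le_trans ?_ hd
    calc 2 * c ^ (n - 1) ≤ 2 * (2 * (2 ^ l₀) ^ (n - 1) * C ^ 2 * P ^ n * d) := by gcongr
      _ = _ := by ring
  nlinarith

end SH

end Pool.Agent.P.MP_28243e_an
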