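import Pool.Agent.P.MP_28243e_an.Basic

/-! Auxiliary inequalities for the structure theorem. -/

namespace Pool.Agent.P.MP_28243e_an.ST

open Set MeasureTheory Metric Filter Topology ENNReal
open scoped NNReal ContDiff RealInnerProductSpace Classical

variable {n m : ℕ}

theorem amgm {f g W : ℝ≥0∞} (h0 : W ≠ 0) (h1 : W ≠ ⊤) : f * g ≤ f ^ 2 / W + W * g ^ 2 := by
  rcases le_total f (W * g) with h | h
  · calc f * g ≤ W * g * g := by gcongr
      _ = W * g ^ 2 := by ring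
      _ ≤ _ := le_add_self
  · have hg : g ≤ f / W := by
      rw [ENNReal.le_div_iff_mul_le (Or.inl h0) (Or.inl h1), mul_comm]; exact h
    calc f * g ≤ f * (f / W) := by gcongr
      _ = f ^ 2 / W := by rw [sq, mul_div_assoc]
      _ ≤ _ := le_self_add

theorem cs {α : Type} [MeasurableSpace α] {μ : Measure α} {f g W : α → ℝ≥0∞} (hf : Measurable f)
    (hg : Measurable g) (hW : Measurable W) (h : ∀ᵐ x ∂μ, W x ≠ 0 ∧ W x ≠ ⊤) :
    (∫⁻ x, f x * g x ∂μ) ^ 2 ≤ (∫⁻ x, f x ^ 2 / W x ∂μ) * ∫⁻ x, W x * g x ^ 2 ∂μ := by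
  have hpq : (2 : ℝ).HolderConjugate 2 := Real.HolderConjugate.two_two
  have key := ENNReal.lintegral_mul_le_Lp_mul_Lq μ hpq
    (f := fun x => (f x ^ 2 / W x) ^ (1 / 2 : ℝ)) (g := fun x => (W x * g x ^ 2) ^ (1 / 2 : ℝ))
    (by fun_prop) (by fun_prop)
  have e1 : ∀ a : ℝ≥0∞, (a ^ (1 / 2 : ℝ)) ^ (2 : ℝ) = a := fun a => by
    rw [← ENNReal.rpow_mul]; norm_num
  have e2 : ∀ a : ℝ≥0∞, (a ^ (1 / 2 : ℝ)) ^ 2 = a := fun a => by
    rw [← ENNReal.rpow_two]; exact e1 a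
  simp only [Pi.mul_apply, e1] at key
  have e3 : ∫⁻ x, f x * g x ∂μ =
      ∫⁻ x, (f x ^ 2 / W x) ^ (1 / 2 : ℝ) * (W x * g x ^ 2) ^ (1 / 2 : ℝ) ∂μ := by
    refine lintegral_congr_ae (h.mono fun x hx => ?_)
    show f x * g x = (f x ^ 2 / W x) ^ (1 / 2 : ℝ) * (W x * g x ^ 2) ^ (1 / 2 : ℝ)
    rw [← ENNReal.mul_rpow_of_nonneg _ _ (by norm_num), ← mul_assoc,
      ENNReal.div_mul_cancel hx.1 hx.2, ← mul_pow, ← ENNReal.rpow_two, ← ENNReal.rpow_mul]
    norm_num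
  rw [e3]
  calc _ ≤ ((∫⁻ x, f x ^ 2 / W x ∂μ) ^ (1 / 2 : ℝ) *
        (∫⁻ x, W x * g x ^ 2 ∂μ) ^ (1 / 2 : ℝ)) ^ 2 := by gcongr
    _ = _ := by rw [mul_pow, e2, e2]

theorem esum {ι F : Type} [Fintype ι] [NormedAddCommGroup F] {f : ι → F} {b : ℝ≥0∞}
    (h : ∀ i, ‖f i‖ₑ ≤ b) : ‖∑ i, f i‖ₑ ≤ Fintype.card ι * b := by
  refine (enorm_sum_le _ _).trans ?_
  calc ∑ i, ‖f i‖ₑ ≤ ∑ _i : ι, b := Finset.sum_le_sum fun i _ => h i
    _ = _ := by simp

theorem esumF {k : ℕ} {F : Type} [NormedAddCommGroup F] {f : Fin k → F} {b : ℝ≥0∞}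
    (h : ∀ i, ‖f i‖ₑ ≤ b) : ‖∑ i, f i‖ₑ ≤ k * b := by
  simpa using esum h

theorem sq_add_le (a b : ℝ≥0∞) : (a + b) ^ 2 ≤ 4 * a ^ 2 + 4 * b ^ 2 := by
  rcases le_total a b with h | h
  · calc (a + b) ^ 2 ≤ (b + b) ^ 2 := by gcongr
      _ = 4 * b ^ 2 := by ring
      _ ≤ _ := le_add_self
  · calc (a + b) ^ 2 ≤ (a + a) ^ 2 := by gcongr
      _ = 4 * a ^ 2 := by ring
      _ ≤ _ := le_self_add

theorem sqO_nonneg (Ω : Fin m → Fin m → Fin n → ℝ) : 0 ≤ sqO Ω := by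
  unfold sqO; positivity

/-- Frobenius norm of a potential. -/
noncomputable def rt (Ω : Fin m → Fin m → Fin n → ℝ) : ℝ≥0∞ := ENNReal.ofReal (√(sqO Ω))

theorem rt_sq (Ω : Fin m → Fin m → Fin n → ℝ) : rt Ω ^ 2 = ENNReal.ofReal (sqO Ω) := by
  unfold rt
  rw [← ENNReal.ofReal_pow (Real.sqrt_nonneg _), Real.sq_sqrt (sqO_nonneg Ω)]

theorem rt_eq (Ω : Fin m → Fin m → Fin n → ℝ) :
    ENNReal.ofReal (sqO Ω) ^ (1 / 2 : ℝ) = rt Ω := by
  rw [← rt_sq, ← ENNReal.rpow_two, ← ENNReal.rpow_mul]; norm_num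

theorem le_rt (Ω : Fin m → Fin m → Fin n → ℝ) (i j : Fin m) (α : Fin n) : ‖Ω i j α‖ₑ ≤ rt Ω := by
  unfold rt
  rw [Real.enorm_eq_ofReal_abs]
  refine ENNReal.ofReal_le_ofReal (Real.abs_le_sqrt ?_)
  unfold sqO
  calc Ω i j α ^ 2 ≤ ∑ β, Ω i j β ^ 2 :=
        Finset.single_le_sum (f := fun β => Ω i j β ^ 2) (fun _ _ => sq_nonneg _)
          (Finset.mem_univ α)
    _ ≤ ∑ l, ∑ β, Ω i l β ^ 2 :=
        Finset.single_le_sum (f := fun l => ∑ β, Ω i l β ^ 2) (fun _ _ => by positivity)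
          (Finset.mem_univ j)
    _ ≤ _ :=
        Finset.single_le_sum (f := fun k => ∑ l, ∑ β, Ω k l β ^ 2) (fun _ _ => by positivity)
          (Finset.mem_univ i)

theorem measurable_sqO {Ω : E n → Fin m → Fin m → Fin n → ℝ} (h : Measurable Ω) :
    Measurable fun x => sqO (Ω x) := by
  unfold sqO
  refine Finset.measurable_sum _ fun i _ => Finset.measurable_sum _ fun j _ =>
    Finset.measurable_sum _ fun α _ => Measurable.pow_const ?_ _
  exact (measurable_pi_apply α).comp ((measurable_pi_apply j).comp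
    ((measurable_pi_apply i).comp h))

theorem measurable_rt {Ω : E n → Fin m → Fin m → Fin n → ℝ} (h : Measurable Ω) :
    Measurable fun x => rt (Ω x) :=
  ENNReal.measurable_ofReal.comp (measurable_sqO h).sqrt

theorem measurable_pd (φ : E n → ℝ) (α : Fin n) : Measurable (pd φ α) :=
  measurable_fderiv_apply_const ℝ φ _

theorem measurable_comp3 {Ω : E n → Fin m → Fin m → Fin n → ℝ} (h : Measurable Ω) (i j : Fin m)
    (α : Fin n) : Measurable fun x => Ω x i j α :=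
  (measurable_pi_apply α).comp ((measurable_pi_apply j).comp ((measurable_pi_apply i).comp h))

theorem measurable_Th {Ω : E n → Fin m → Fin m → Fin n → ℝ} (h : Measurable Ω)
    {Q : E n → Fin m → Fin m → ℝ} (hQ : ∀ i j, Measurable fun x => Q x i j) :
    Measurable (Th Q Ω) := by
  refine measurable_pi_lambda _ fun i => measurable_pi_lambda _ fun j =>
    measurable_pi_lambda _ fun α => ?_
  unfold Th
  exact (Finset.measurable_sum _ fun l _ => (hQ i l).mul (measurable_comp3 h l j α)).sub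
    (measurable_pd _ α)

theorem abs_le_one_of_orth {Q : Fin m → Fin m → ℝ}
    (h : ∀ i j, ∑ l, Q i l * Q j l = if i = j then 1 else 0) (i j : Fin m) : |Q i j| ≤ 1 := by
  have h1 := h i i
  simp only [if_true] at h1
  have h2 : Q i j * Q i j ≤ ∑ l, Q i l * Q i l :=
    Finset.single_le_sum (f := fun l => Q i l * Q i l) (fun _ _ => mul_self_nonneg _)
      (Finset.mem_univ j)
  rw [h1] at h2
  exact abs_le_one_iff_mul_self_le_one.2 h2

theorem enorm_le_one {a : ℝ} (h : |a| ≤ 1) : ‖a‖ₑ ≤ 1 := by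
  rw [Real.enorm_eq_ofReal_abs]; exact ENNReal.ofReal_le_one.2 h

theorem ecomp_le {ι : Type} [Fintype ι] (a : EuclideanSpace ℝ ι) (i : ι) : ‖a i‖ₑ ≤ ‖a‖ₑ := by
  rw [← ofReal_norm, ← ofReal_norm]
  exact ENNReal.ofReal_le_ofReal (PiLp.norm_apply_le a i)

theorem enorm_le_sum {ι : Type} [Fintype ι] (a : EuclideanSpace ℝ ι) {b : ℝ≥0∞}
    (h : ∀ i, ‖a i‖ₑ ≤ b) : ‖a‖ₑ ≤ Fintype.card ι * b := by
  have e : a = ∑ i, EuclideanSpace.single i (a i) := by
    ext β; simp [Finset.sum_apply, Pi.single_apply]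
  rw [e]
  refine esum fun i => ?_
  rw [← ofReal_norm, PiLp.norm_single, ofReal_norm]
  exact h i

theorem efderiv_le (φ : E n → ℝ) (x : E n) {b : ℝ≥0∞} (h : ∀ α, ‖pd φ α x‖ₑ ≤ b) :
    ‖fderiv ℝ φ x‖ₑ ≤ n * b := by
  rw [← ofReal_norm, ← norm_gradient, ofReal_norm]
  have := enorm_le_sum (gradient φ x) (b := b) fun α => by rw [gradient_apply]; exact h α
  simpa using this

theorem layer {W : E n → ℝ≥0∞} (hW : Measurable W) {Ω : E n → Fin m → Fin m → Fin n → ℝ}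
    (hΩ : Measurable Ω) {C : ℝ≥0∞} (hC : C ≠ ⊤)
    (h : ∀ A : Set (E n), MeasurableSet A → ∫⁻ x in A, W x ≤ C * volume A ^ (2 / (n : ℝ))) :
    ∫⁻ x in ball 0 1, W x * rt (Ω x) ^ 2 ≤ C * Lf (ball 0 1) Ω := by
  have hs := measurable_sqO hΩ
  have e1 : ∫⁻ x in ball 0 1, W x * rt (Ω x) ^ 2 =
      ∫⁻ x, ENNReal.ofReal (sqO (Ω x)) ∂((volume.restrict (ball 0 1)).withDensity W) := by
    rw [lintegral_withDensity_eq_lintegral_mul _ hW hs.ennreal_ofReal]
    simp only [rt_sq, Pi.mul_apply]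
  rw [e1, lintegral_eq_lintegral_meas_lt _ (Eventually.of_forall fun x => sqO_nonneg _)
    hs.aemeasurable]
  unfold Lf
  rw [← lintegral_const_mul' _ _ hC]
  refine lintegral_mono fun t => ?_
  have hm : MeasurableSet {a : E n | t < sqO (Ω a)} := measurableSet_lt measurable_const hs
  rw [withDensity_apply _ hm, Measure.restrict_restrict hm]
  refine (h _ (hm.inter measurableSet_ball)).trans (le_of_eq ?_)
  congr 3
  ext x; simp [and_comm]

theorem split_le (X G : ℝ≥0∞) {n : ℕ} (hn : 3 ≤ n) :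
    X * G ^ (n - 1) ≤ G ^ (n - 2) * X ^ 2 + G ^ n := by
  obtain ⟨k, rfl⟩ : ∃ k, n = k + 2 := ⟨n - 2, by omega⟩
  have e1 : k + 2 - 1 = k + 1 := by omega
  have e2 : k + 2 - 2 = k := by omega
  rw [e1, e2]
  rcases le_total X G with h | h
  · calc X * G ^ (k + 1) ≤ G * G ^ (k + 1) := by gcongr
      _ = G ^ (k + 2) := by ring
      _ ≤ _ := le_add_self
  · calc X * G ^ (k + 1) = X * G * G ^ k := by ring
      _ ≤ X * X * G ^ k := by gcongr
      _ = G ^ k * X ^ 2 := by ring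
      _ ≤ _ := le_self_add

/-- The pointwise algebra behind the transformed equation. -/
theorem alg (φ : Fin m → ℝ) (T : Fin m → Fin m → Fin n → ℝ) (Q : Fin m → Fin m → ℝ)
    (hQ : ∀ i j, ∑ l, Q l i * Q l j = if i = j then 1 else 0) (D : Fin m → Fin n → ℝ)
    (P : Fin m → Fin m → Fin m → Fin n → ℝ) (w p : ℝ) :
    (∑ i, ∑ j, ∑ α, φ i * T i j α * (p * D j α)) -
      ∑ i, ∑ l, ∑ j, w * ∑ α, (∑ k, T i k α * Q l k) * P i l j α =
    (p - w) * (∑ i, ∑ j, ∑ α, φ i * T i j α * D j α) +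
      ∑ i, ∑ l, ∑ j, w * ∑ α, (∑ k, T i k α * Q l k) * (φ i * Q l j * D j α - P i l j α) := by
  have h1 : ∀ i j α, T i j α = ∑ l, (∑ k, T i k α * Q l k) * Q l j := by
    intro i j α
    simp only [Finset.sum_mul]
    rw [Finset.sum_comm]
    have : ∀ k, ∑ l, T i k α * Q l k * Q l j = T i k α * if k = j then 1 else 0 := fun k => by
      rw [← hQ k j, Finset.mul_sum]; exact Finset.sum_congr rfl fun l _ => by ring
    simp [this]
  have h2 : ∑ i, ∑ l, ∑ j, w * ∑ α, (∑ k, T i k α * Q l k) * (φ i * Q l j * D j α) =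
      w * ∑ i, ∑ j, ∑ α, φ i * T i j α * D j α := by
    rw [Finset.mul_sum]
    refine Finset.sum_congr rfl fun i _ => ?_
    rw [Finset.sum_comm, Finset.mul_sum]
    refine Finset.sum_congr rfl fun j _ => ?_
    rw [← Finset.mul_sum, Finset.sum_comm]
    congr 1
    refine Finset.sum_congr rfl fun α _ => ?_
    conv_rhs => rw [h1 i j α]
    rw [Finset.mul_sum, Finset.sum_mul]
    exact Finset.sum_congr rfl fun l _ => by ring
  have h3 : ∑ i, ∑ j, ∑ α, φ i * T i j α * (p * D j α) =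
      p * ∑ i, ∑ j, ∑ α, φ i * T i j α * D j α := by
    simp only [Finset.mul_sum]
    exact Finset.sum_congr rfl fun i _ => Finset.sum_congr rfl fun j _ =>
      Finset.sum_congr rfl fun α _ => by ring
  simp only [mul_sub, Finset.sum_sub_distrib]
  rw [h2, h3]; ring

/-- The pointwise bound for the remainder. -/
theorem alg_bound (φ : Fin m → ℝ) (T : Fin m → Fin m → Fin n → ℝ) (Q : Fin m → Fin m → ℝ)
    (hQ : ∀ i j, ∑ l, Q l i * Q l j = if i = j then 1 else 0) (hQ1 : ∀ i j, |Q i j| ≤ 1)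
    (D : Fin m → Fin n → ℝ) (P : Fin m → Fin m → Fin m → Fin n → ℝ) (w p : ℝ)
    {a g b d : ℝ≥0∞} (ha : ∀ i, ‖φ i‖ₑ ≤ a) (hg : ∀ j α, ‖D j α‖ₑ ≤ g)
    (hb : ∀ i l j α, ‖φ i * Q l j * D j α - P i l j α‖ₑ ≤ b) (hd : ‖p - w‖ₑ ≤ d) :
    ‖(∑ i, ∑ j, ∑ α, φ i * T i j α * (p * D j α)) -
      ∑ i, ∑ l, ∑ j, w * ∑ α, (∑ k, T i k α * Q l k) * P i l j α‖ₑ ≤
      m ^ 2 * n * (d * rt T * g * a) + m ^ 4 * n * (‖w‖ₑ * rt T * b) := by
  rw [alg φ T Q hQ]
  refine (enorm_add_le _ _).trans (add_le_add ?_ ?_)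
  · rw [enorm_mul]
    have : ‖∑ i, ∑ j, ∑ α, φ i * T i j α * D j α‖ₑ ≤ m * (m * (n * (a * rt T * g))) :=
      esumF fun i => esumF fun j => esumF fun α => by
        rw [enorm_mul, enorm_mul]
        gcongr
        · exact ha i
        · exact le_rt T i j α
        · exact hg j α
    calc _ ≤ d * (m * (m * (n * (a * rt T * g)))) := by gcongr
      _ = _ := by ring
  · have : ‖∑ i, ∑ l, ∑ j, w * ∑ α, (∑ k, T i k α * Q l k) *
        (φ i * Q l j * D j α - P i l j α)‖ₑ ≤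
        m * (m * (m * (‖w‖ₑ * (n * ((m * (rt T * 1)) * b))))) :=
      esumF fun i => esumF fun l => esumF fun j => by
        rw [enorm_mul]
        gcongr
        refine esumF fun α => ?_
        rw [enorm_mul]
        gcongr
        · refine esumF fun k => ?_
          rw [enorm_mul]
          gcongr
          · exact le_rt T i k α
          · exact enorm_le_one (hQ1 l k)
        · exact hb i l j α
    refine this.trans (le_of_eq ?_)
    ring

end Pool.Agent.P.MP_28243e_an.ST
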