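import Pool.Agent.P.MP_28243e_an.ST1

/-! The transformed equation tested with smooth maps. -/

namespace Pool.Agent.P.MP_28243e_an.ST

open Set MeasureTheory Metric Filter Topology ENNReal
open scoped NNReal ContDiff RealInnerProductSpace Classical

variable {n m : ℕ}

theorem split_int {α : Type} [MeasurableSpace α] {μ : Measure α} {F R : α → ℝ} {B : α → ℝ≥0∞}
    {b : ℝ≥0∞} (hR : Integrable R μ) (hb : ‖∫ x, R x ∂μ‖ₑ ≤ b) (h : ∀ᵐ x ∂μ, ‖F x - R x‖ₑ ≤ B x) :
    ‖∫ x, F x ∂μ‖ₑ ≤ (∫⁻ x, B x ∂μ) + b := by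
  by_cases hF : Integrable F μ
  · have e : ∫ x, F x ∂μ = (∫ x, (F x - R x) ∂μ) + ∫ x, R x ∂μ := by
      rw [integral_sub hF hR]; ring
    rw [e]
    refine (enorm_add_le _ _).trans (add_le_add ?_ hb)
    exact (enorm_integral_le_lintegral_enorm _).trans (lintegral_mono_ae h)
  · rw [integral_undef hF]; simp

theorem key {Du : E n → Mt m n} {Ω : E n → Fin m → Fin m → Fin n → ℝ}
    {Q : E n → Fin m → Fin m → ℝ} {w g τ d : E n → ℝ≥0∞} {f : Fin m → E n → ℝ}
    {Φ : (E n → ℝ≥0∞) → E n → ℝ≥0∞} {K t : ℝ} (hK : 0 ≤ K) (ht : 0 ≤ t)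
    (hΩ : Measurable Ω) (hG : Gauge w Ω t Q) (hw : Measurable w) (hg : Measurable g)
    (hwf : ∀ᵐ x, w x ≠ ⊤) (hint : ∫⁻ x in ball 0 1, w x * rt (Th Q Ω x) < ⊤)
    (hd : ∀ᵐ x, x ∈ ball (0 : E n) 1 → ‖‖Du x‖ ^ (n - 2) - (w x).toReal‖ₑ ≤ d x)
    (hgQ : ∀ i j, ∀ y ∈ ball (0 : E n) 1, ‖fderiv ℝ (fun x => Q x i j) y‖ₑ ≤ g y)
    (hτ : ∀ j, ∀ x ∈ ball (0 : E n) (3 / 4), ‖row (Du x) j - gradient (f j) x‖ₑ ≤ τ x)
    (hPP : ∀ j, ∀ ψ : E n → ℝ, ContDiff ℝ 1 ψ → ∃ v : E n → ℝ, ContDiff ℝ ∞ v ∧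
      (∀ z : E n → ℝ≥0∞, Measurable z → (∀ y ∈ ball (0 : E n) 1, ‖fderiv ℝ ψ y‖ₑ ≤ z y) →
        ∀ x ∈ ball (0 : E n) (3 / 4), ‖ψ x • gradient (f j) x - gradient v x‖ₑ ≤ Φ z x) ∧
      (tsupport ψ ⊆ ball 0 (1 / 2) → (∀ x ∉ ball (0 : E n) (3 / 4), fderiv ℝ v x = 0) ∧
        ∀ x, ‖fderiv ℝ v x‖ ≤ K * ∫ y, |ψ y|))
    (φ : E n → V m) (hφ : ∀ i, IsTest (ball 0 (1 / 2)) fun x => φ x i) :
    ‖∫ x in ball 0 1, ∑ i, ∑ j, ∑ α, φ x i * Th Q Ω x i j α * sig n (Du x) (j, α)‖ₑ ≤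
      (∫⁻ x in ball 0 1, (m ^ 2 * n * (d x * rt (Th Q Ω x) * ‖Du x‖ₑ * ‖φ x‖ₑ) +
        m ^ 4 * n * (w x * rt (Th Q Ω x) *
          (‖φ x‖ₑ * τ x + Φ (fun y => ‖φ y‖ₑ * g y + ‖grad φ y‖ₑ) x)))) +
      m ^ 3 * (ENNReal.ofReal (t * K) * ∫⁻ x, ‖φ x‖ₑ) := by
  have hφs : ContDiff ℝ ∞ φ := contDiff_euclidean.2 fun i => (hφ i).1
  have hQ1 : ∀ x i j, |Q x i j| ≤ 1 := fun x => abs_le_one_of_orth (hG.orth' x)
  have hψ : ∀ i l j, ContDiff ℝ ∞ fun x => φ x i * Q x l j := fun i l j =>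
    (hφ i).1.mul (hG.smooth l j)
  have hts : ∀ i l j, tsupport (fun x => φ x i * Q x l j) ⊆ ball 0 (1 / 2) := fun i l j =>
    (tsupport_mul_subset_left (f := fun x => φ x i) (g := fun x => Q x l j)).trans (hφ i).2.2
  choose v hv1 hv2 hv3 using fun i l j =>
    hPP j (fun x => φ x i * Q x l j) ((hψ i l j).of_le (by exact_mod_cast le_top))
  set z : E n → ℝ≥0∞ := fun y => ‖φ y‖ₑ * g y + ‖grad φ y‖ₑ with hz
  have hzm : Measurable z :=
    (hφs.continuous.measurable.enorm.mul hg).add (measurable_grad φ).enorm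
  have hzb : ∀ i l j, ∀ y ∈ ball (0 : E n) 1,
      ‖fderiv ℝ (fun x => φ x i * Q x l j) y‖ₑ ≤ z y := by
    intro i l j y hy
    have d1 : DifferentiableAt ℝ (fun x => φ x i) y :=
      (hφ i).1.differentiable (by simp) y
    have d2 : DifferentiableAt ℝ (fun x => Q x l j) y :=
      (hG.smooth l j).differentiable (by simp) y
    rw [fderiv_fun_mul d1 d2]
    refine (enorm_add_le (E := E n →L[ℝ] ℝ) _ _).trans (add_le_add ?_ ?_)
    · rw [enorm_smul]
      gcongr
      · exact ecomp_le _ _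
      · exact hgQ l j y hy
    · rw [enorm_smul]
      have h1 : ‖fderiv ℝ (fun x => φ x i) y‖ₑ ≤ ‖grad φ y‖ₑ := by
        rw [← ofReal_norm, ← ofReal_norm, ← norm_gradient,
          ← row_grad (hφs.differentiable (by simp) y)]
        exact ENNReal.ofReal_le_ofReal (norm_row_le _ _)
      calc _ ≤ 1 * ‖grad φ y‖ₑ := mul_le_mul' (enorm_le_one (hQ1 y l j)) h1
        _ = _ := one_mul _
  have hφ0 : ∀ x ∉ ball (0 : E n) (1 / 2), ∀ i, φ x i = 0 := fun x hx i =>
    image_eq_zero_of_notMem_tsupport (f := fun x => φ x i) fun h => hx ((hφ i).2.2 h)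
  have hb : ∀ x i l j α, ‖φ x i * Q x l j * Du x (j, α) - pd (v i l j) α x‖ₑ ≤
      ‖φ x‖ₑ * τ x + Φ z x := by
    intro x i l j α
    by_cases hx : x ∈ ball (0 : E n) (3 / 4)
    · have e : φ x i * Q x l j * Du x (j, α) - pd (v i l j) α x =
          φ x i * Q x l j * (row (Du x) j - gradient (f j) x) α +
          ((φ x i * Q x l j) • gradient (f j) x - gradient (v i l j) x) α := by
        simp only [PiLp.sub_apply, PiLp.smul_apply, smul_eq_mul, gradient_apply, row]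
        ring
      rw [e]
      refine (enorm_add_le _ _).trans (add_le_add ?_ ?_)
      · rw [enorm_mul, enorm_mul]
        calc _ ≤ ‖φ x‖ₑ * 1 * τ x :=
              mul_le_mul' (mul_le_mul' (ecomp_le _ _) (enorm_le_one (hQ1 x l j)))
                ((ecomp_le _ _).trans (hτ j x hx))
          _ = _ := by rw [mul_one]
      · exact (ecomp_le _ _).trans (hv2 i l j z hzm (hzb i l j) x hx)
    · have h1 : x ∉ ball (0 : E n) (1 / 2) := fun h => hx (ball_subset_ball (by norm_num) h)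
      have h2 := (hv3 i l j (hts i l j)).1 x hx
      simp [hφ0 x h1 i, pd, h2]
  have hTm : Measurable (Th Q Ω) :=
    measurable_Th hΩ fun i j => (hG.smooth i j).continuous.measurable
  have hφi : Integrable φ := hφs.continuous.integrable_of_hasCompactSupport (by
    refine HasCompactSupport.intro (isCompact_closedBall (0 : E n) (1 / 2)) fun x hx => ?_
    ext i
    exact hφ0 x (fun h => hx (ball_subset_closedBall h)) i)
  have hψb : ∀ i l j, ∫ y, |φ y i * Q y l j| ≤ ∫ y, ‖φ y‖ := by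
    intro i l j
    refine integral_mono_of_nonneg (Eventually.of_forall fun y => abs_nonneg _) hφi.norm
      (Eventually.of_forall fun y => ?_)
    show |φ y i * Q y l j| ≤ ‖φ y‖
    rw [abs_mul]
    calc |φ y i| * |Q y l j| ≤ ‖φ y‖ * 1 :=
          mul_le_mul (PiLp.norm_apply_le (φ y) i) (hQ1 y l j) (abs_nonneg _) (norm_nonneg _)
      _ = _ := mul_one _
  have hvb : ∀ i l j x, ‖fderiv ℝ (v i l j) x‖ ≤ K * ∫ y, ‖φ y‖ := fun i l j x =>
    ((hv3 i l j (hts i l j)).2 x).trans (mul_le_mul_of_nonneg_left (hψb i l j) hK)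
  have hRi : ∀ i l j, IntegrableOn (fun x => (w x).toReal *
      ∑ α, (∑ k, Th Q Ω x i k α * Q x l k) * pd (v i l j) α x) (ball 0 1) := by
    intro i l j
    refine ⟨Measurable.aestronglyMeasurable ?_, ?_⟩
    · refine hw.ennreal_toReal.mul (Finset.measurable_sum _ fun α _ => Measurable.mul
        (Finset.measurable_sum _ fun k _ => (measurable_comp3 hTm i k α).mul
          (hG.smooth l k).continuous.measurable) (measurable_pd _ α))
    · have hbd : ∀ x, ‖(w x).toReal *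
          ∑ α, (∑ k, Th Q Ω x i k α * Q x l k) * pd (v i l j) α x‖ₑ ≤
          (n * m * ENNReal.ofReal (K * ∫ y, ‖φ y‖)) * (w x * rt (Th Q Ω x)) := by
        intro x
        rw [enorm_mul]
        have h1 : ‖(w x).toReal‖ₑ ≤ w x := by
          rw [Real.enorm_eq_ofReal ENNReal.toReal_nonneg]; exact ENNReal.ofReal_toReal_le
        have h2 : ‖∑ α, (∑ k, Th Q Ω x i k α * Q x l k) * pd (v i l j) α x‖ₑ ≤
            n * ((m * (rt (Th Q Ω x) * 1)) * ENNReal.ofReal (K * ∫ y, ‖φ y‖)) := by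
          refine esumF fun α => ?_
          rw [enorm_mul]
          refine mul_le_mul' (esumF fun k => ?_) ?_
          · rw [enorm_mul]
            exact mul_le_mul' (le_rt _ i k α) (enorm_le_one (hQ1 x l k))
          · rw [← gradient_apply]
            refine (ecomp_le _ _).trans ?_
            rw [← ofReal_norm, norm_gradient]
            exact ENNReal.ofReal_le_ofReal (hvb i l j x)
        calc _ ≤ w x * (n * ((m * (rt (Th Q Ω x) * 1)) *
              ENNReal.ofReal (K * ∫ y, ‖φ y‖))) := mul_le_mul' h1 h2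
          _ = _ := by ring
      refine lt_of_le_of_lt (lintegral_mono hbd) ?_
      rw [lintegral_const_mul' _ _ (by finiteness)]
      exact ENNReal.mul_lt_top (by finiteness) hint
  refine split_int (R := fun x => ∑ i, ∑ l, ∑ j, (w x).toReal *
      ∑ α, (∑ k, Th Q Ω x i k α * Q x l k) * pd (v i l j) α x) ?_ ?_ ?_
  · exact integrable_finsetSum _ fun i _ => integrable_finsetSum _ fun l _ =>
      integrable_finsetSum _ fun j _ => hRi i l j
  · rw [integral_finsetSum _ fun i _ => integrable_finsetSum _ fun l _ =>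
      integrable_finsetSum _ fun j _ => hRi i l j]
    have : ‖∑ i, ∫ x in ball 0 1, ∑ l, ∑ j, (w x).toReal *
        ∑ α, (∑ k, Th Q Ω x i k α * Q x l k) * pd (v i l j) α x‖ₑ ≤
        m * (m * (m * (ENNReal.ofReal (t * K) * ∫⁻ x, ‖φ x‖ₑ))) := by
      refine esumF fun i => ?_
      rw [integral_finsetSum _ fun l _ => integrable_finsetSum _ fun j _ => hRi i l j]
      refine esumF fun l => ?_
      rw [integral_finsetSum _ fun j _ => hRi i l j]
      refine esumF fun j => ?_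
      rw [Real.enorm_eq_ofReal_abs, ← ofReal_integral_norm_eq_lintegral_enorm hφi,
        ← ENNReal.ofReal_mul (mul_nonneg ht hK), mul_assoc]
      exact ENNReal.ofReal_le_ofReal (hG.div i l _ _ (hv1 i l j) fun x _ => hvb i l j x)
    refine this.trans (le_of_eq ?_)
    ring
  · rw [ae_restrict_iff' measurableSet_ball]
    filter_upwards [hd, hwf] with x hx1 hx2 hx
    have := alg_bound (fun i => φ x i) (Th Q Ω x) (Q x) (hG.orth x) (hQ1 x)
      (fun j α => Du x (j, α)) (fun i l j α => pd (v i l j) α x) (w x).toReal (‖Du x‖ ^ (n - 2))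
      (fun i => ecomp_le (φ x) i) (fun j α => ecomp_le (Du x) (j, α)) (hb x) (hx1 hx)
    rw [Real.enorm_eq_ofReal ENNReal.toReal_nonneg, ENNReal.ofReal_toReal hx2] at this
    simpa only [sig, PiLp.smul_apply, smul_eq_mul] using this

end Pool.Agent.P.MP_28243e_an.ST
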